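import Pool.Agent.Lib.MP_14aec4_an.Defs

/-!
Local well-posedness of the KdV initial-boundary value problem on `(0, L)`.
-/

noncomputable section

open Set

namespace Pool.Agent.Lib.MP_14aec4_an

/-- Local well-posedness in `H^s(0,L)`, boundary data being given on `(0,T)`: every datum `d` has
a time `T₀ ∈ (0,T]` and a ball of data around it such that, on every interval `[0,T']` with
`T' ≤ T₀`, each datum `e` of the ball has a solution in `C([0,T']; H^s(0,L))`, and solutions with
data close to `e` are close to every solution with data `e` (uniqueness and continuity of the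
data-to-solution map). -/
def WellPosed (W V : Set ℝ) (s L T : ℝ) (a b : ℕ → ℕ → ℝ) (k : Fin 4) : Prop :=
  ∀ d, IsData W V s L T k d → ∃ T₀ ∈ Ioc 0 T, ∃ δ₀ > 0, ∀ T' ∈ Ioc 0 T₀,
    ∀ e, IsData W V s L T k e → dataNorm W V s T k (e - d) < δ₀ →
      (∃ U, IsSol W V s L T' a b k e U) ∧
      ∀ ε > 0, ∃ δ > 0, ∀ e', IsData W V s L T k e' → dataNorm W V s T k (e' - e) < δ →
        ∀ U U', IsSol W V s L T' a b k e U → IsSol W V s L T' a b k e' U' →
          solNorm s L T' (U' - U) < ε

/-- The space window that is open beyond the ends of `(0, L)` at which `B_{k+1}` prescribes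
`u_xx`: there the initial datum is measured together with its extension by zero, so that a point
mass at that end is seen by the norm. -/
def win (L : ℝ) (k : Fin 4) : Set ℝ := ![Ioo 0 L, Ioi 0, Iio L, univ] k

end Pool.Agent.Lib.MP_14aec4_an
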