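import Pool.Agent.Lib.MP_14aec4_an.Main
import Pool.Agent.Lib.MP_14aec4_an.Defs2

/-!
Definitions used in the proof of well-posedness at `s = -1`.

Time side: functions `f x t` on rectangles `[0, L] × [t₀, t₁]`, the Miura map
`u = -6 (v_x + v²) + 6 κ²`, the modified equation `v_t + v_xxx = 6 (v² + μ) v_x`, `μ = -κ² - 1/6`.

Frequency side: Fourier transform in time of `e^{-γ t} f`, dual variable `s = γ + 2 π i τ`.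
-/

noncomputable section

open MeasureTheory Set Filter Topology FourierTransform
open scoped ENNReal ComplexConjugate

namespace Pool.Agent.Lib.MP_14aec4_an.W

/-! ### Boundary operators in normal form -/

/-- Component `i` of the boundary operator is
`∂_x^{j i} u (ept i) + α i u(0) + β i u(L) + ζ i u_x(0)`; `d0` (resp. `dL`) says that `u_xx` is
prescribed at `0` (resp. `L`). -/
structure BC where
  d0 : Bool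
  dL : Bool
  α : Fin 3 → ℝ
  β : Fin 3 → ℝ
  ζ : Fin 3 → ℝ

/-- The order of the leading term of component `i`. -/
def BC.j (P : BC) (i : Fin 3) : ℕ :=
  ![if P.d0 then 2 else 0, if P.dL then 1 else 0, if P.dL then 2 else 1] i

/-- Lower-order terms are of lower order. -/
def BC.Valid (P : BC) : Prop :=
  ∀ i, (P.j i = 0 → P.α i = 0 ∧ P.β i = 0) ∧ (P.j i ≠ 2 → P.ζ i = 0)

/-- The end point at which the leading term of component `i` is taken. -/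
def ept (L : ℝ) (i : Fin 3) : ℝ := ![0, L, L] i

def bcOf (a b : ℕ → ℕ → ℝ) (k : Fin 4) : BC :=
  ![⟨false, false, ![0, 0, 0], ![0, 0, 0], ![0, 0, 0]⟩,
    ⟨false, true, ![0, 0, 0], ![0, b 3 0, b 2 0], ![0, 0, a 2 1]⟩,
    ⟨true, false, ![a 1 0, 0, a 3 0], ![0, 0, 0], ![a 1 1, 0, 0]⟩,
    ⟨true, true, ![a 1 0, a 3 0, a 2 0], ![b 1 0, b 3 0, b 2 0], ![a 1 1, 0, a 2 1]⟩] k

/-- The Sobolev order in time of component `i` at `s = -1`. -/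
def BC.σ (P : BC) (i : Fin 3) : ℝ := -(P.j i : ℝ) / 3

/-- The coefficient of a constant function in component `i`. -/
def BC.c (P : BC) (i : Fin 3) : ℝ := P.α i + P.β i + if P.j i = 0 then 1 else 0

/-- The indicator of a component that prescribes `u_xx`. -/
def BC.dyn (P : BC) (i : Fin 3) : ℝ := if P.j i = 2 then 1 else 0

/-- The window open beyond the ends marked by `d0`, `dL`. -/
def winB (d0 dL : Bool) (a : ℝ) : Set ℝ :=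
  if d0 then (if dL then univ else Iio a) else (if dL then Ioi 0 else Ioo 0 a)

/-! ### Time side -/

/-- Derivative within `[0, L]`. -/
def dI (L : ℝ) (q : ℝ → ℝ) (x : ℝ) : ℝ := derivWithin q (Icc 0 L) x

/-- Smooth on `[0, L]`. -/
def SmI (L : ℝ) (q : ℝ → ℝ) : Prop := ContDiffOn ℝ (⊤ : ℕ∞) q (Icc 0 L)

/-- `∂_x` within `[0, L]`. -/
def px (L : ℝ) (f : ℝ → ℝ → ℝ) (x t : ℝ) : ℝ := derivWithin (fun y => f y t) (Icc 0 L) x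

/-- `∂_t`. -/
def pt (f : ℝ → ℝ → ℝ) (x t : ℝ) : ℝ := deriv (fun τ => f x τ) t

/-- Smooth on `[0, L] × I`. -/
def SmOn (L : ℝ) (I : Set ℝ) (f : ℝ → ℝ → ℝ) : Prop :=
  ContDiffOn ℝ (⊤ : ℕ∞) (fun p : ℝ × ℝ => f p.1 p.2) (Icc 0 L ×ˢ I)

/-- Continuous on `[0, L] × I`. -/
def CtOn (L : ℝ) (I : Set ℝ) (f : ℝ → ℝ → ℝ) : Prop :=
  ContinuousOn (fun p : ℝ × ℝ => f p.1 p.2) (Icc 0 L ×ˢ I)

/-- The `L²(0, L)` norm. -/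
def nL (L : ℝ) (q : ℝ → ℝ) : ℝ := Real.sqrt (∫ x in (0 : ℝ)..L, q x ^ 2)

/-- The size of a primitive of the initial datum: `L²` norm and values at the marked ends. -/
def wn (L : ℝ) (P : BC) (w : ℝ → ℝ) : ℝ :=
  nL L w + (if P.d0 then |w 0| else 0) + (if P.dL then |w L| else 0)

/-- The normalised primitive. -/
def prim (L : ℝ) (P : BC) (φ : ℝ → ℝ) (x : ℝ) : ℝ :=
  (∫ y in (0 : ℝ)..x, φ y) -
    (if P.d0 then 0 else if P.dL then ∫ y in (0 : ℝ)..L, φ y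
      else (∫ z in (0 : ℝ)..L, ∫ y in (0 : ℝ)..z, φ y) / L)

/-- The boundary operator. -/
def bop (L : ℝ) (P : BC) (u : ℝ → ℝ → ℝ) (i : Fin 3) (t : ℝ) : ℝ :=
  (px L)^[P.j i] u (ept L i) t + P.α i * u 0 t + P.β i * u L t + P.ζ i * px L u 0 t

/-- Smooth solutions of KdV on `[0, L] × [t₀, t₁]`. -/
def KSol (L t₀ t₁ : ℝ) (u : ℝ → ℝ → ℝ) : Prop :=
  SmOn L (Icc t₀ t₁) u ∧ ∀ x ∈ Ioo 0 L, ∀ t ∈ Ioo t₀ t₁,
    pt u x t + px L u x t + px L (px L (px L u)) x t + u x t * px L u x t = 0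

def mu (κ : ℝ) : ℝ := -κ ^ 2 - 1 / 6

def miura (L κ : ℝ) (Z : ℝ → ℝ → ℝ) (x t : ℝ) : ℝ := -6 * (px L Z x t + Z x t ^ 2) + 6 * κ ^ 2

/-- The nonlinearity of the modified equation. -/
def nN (L κ : ℝ) (Z : ℝ → ℝ → ℝ) (x t : ℝ) : ℝ := 6 * (Z x t ^ 2 + mu κ) * px L Z x t

/-- Linear part of the boundary nonlinearity. -/
def tL (L κ : ℝ) (P : BC) (Z : ℝ → ℝ → ℝ) (i : Fin 3) (t : ℝ) : ℝ :=
  -P.α i * px L Z 0 t - P.β i * px L Z L t - P.ζ i * px L (px L Z) 0 t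
    - P.dyn i * (6 * mu κ) * px L Z (ept L i) t

/-- The quadratic part of the leading term. -/
def tE (L : ℝ) (Z : ℝ → ℝ → ℝ) (j : ℕ) (x t : ℝ) : ℝ :=
  if j = 0 then Z x t ^ 2 else if j = 1 then 2 * (Z x t * px L Z x t)
  else 2 * px L Z x t ^ 2 + 2 * (Z x t * px L (px L Z) x t)

/-- Quadratic part of the boundary nonlinearity. -/
def tQ (L : ℝ) (P : BC) (Z : ℝ → ℝ → ℝ) (i : Fin 3) (t : ℝ) : ℝ :=
  -P.α i * Z 0 t ^ 2 - P.β i * Z L t ^ 2 - P.ζ i * 2 * (Z 0 t * px L Z 0 t)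
    - tE L Z (P.j i) (ept L i) t

/-- Cubic part of the boundary nonlinearity. -/
def tC (L : ℝ) (P : BC) (Z : ℝ → ℝ → ℝ) (i : Fin 3) (t : ℝ) : ℝ :=
  -P.dyn i * 6 * (Z (ept L i) t ^ 2 * px L Z (ept L i) t)

def nlb (L κ : ℝ) (P : BC) (Z : ℝ → ℝ → ℝ) (i : Fin 3) (t : ℝ) : ℝ :=
  tL L κ P Z i t + tQ L P Z i t + tC L P Z i t

/-- The leading trace of `Z` in a component of order `j`: `Z_x`, `Z_xx` or `-Z_t`. -/
def ztr (L : ℝ) (Z : ℝ → ℝ → ℝ) (j : ℕ) (x t : ℝ) : ℝ :=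
  if j = 0 then px L Z x t else if j = 1 then px L (px L Z) x t else -pt Z x t

/-- The forced modified equation in the open rectangle. -/
def MEq (L κ t₀ t₁ : ℝ) (G Z : ℝ → ℝ → ℝ) : Prop :=
  ∀ x ∈ Ioo 0 L, ∀ t ∈ Ioo t₀ t₁,
    pt Z x t + px L (px L (px L Z)) x t = nN L κ Z x t + G x t

/-- Smooth solutions of the forced modified problem on `[0, L] × [t₀, t₁]`. -/
structure FSol (L κ : ℝ) (P : BC) (t₀ t₁ : ℝ) (G : ℝ → ℝ → ℝ) (ℓ : Fin 3 → ℝ → ℝ)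
    (Z : ℝ → ℝ → ℝ) : Prop where
  sm : SmOn L (Icc t₀ t₁) Z
  eq : MEq L κ t₀ t₁ G Z
  bc : ∀ i, ∀ t ∈ Ioo t₀ t₁, ztr L Z (P.j i) (ept L i) t = ℓ i t + nlb L κ P Z i t

/-- `v` is the solution of the Riccati equation attached to the primitive `w`. -/
structure Ric (L κ : ℝ) (w v : ℝ → ℝ) : Prop where
  sm : SmI L v
  eq : ∀ x ∈ Icc 0 L, dI L v x = dI L w x + κ ^ 2 - v x ^ 2
  init : v 0 = w 0 + κ
  bd : ∀ x ∈ Icc 0 L, 0 ≤ v x - w x ∧ v x - w x ≤ κ + κ ^ 2 * L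

/-- Smooth ramp from `0` (for `t ≤ t₀`) to `1` (for `t ≥ t₀ + δ`). -/
def rp (t₀ δ t : ℝ) : ℝ := Real.smoothTransition ((t - t₀) / δ)

/-- Smooth cut-off, `1` on `[-1, 1]`, `0` off `(-2, 2)`. -/
def cut (t : ℝ) : ℝ := Real.smoothTransition (t + 2) * Real.smoothTransition (2 - t)

/-- Smooth with compact support. -/
def SC (f : ℝ → ℝ) : Prop := ContDiff ℝ (⊤ : ℕ∞) f ∧ HasCompactSupport f

/-- Smooth on `[0, L] × ℝ` with compact support in time. -/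
def SC2 (L : ℝ) (G : ℝ → ℝ → ℝ) : Prop :=
  SmOn L univ G ∧ ∃ R, ∀ x ∈ Icc 0 L, ∀ t, R < |t| → G x t = 0

/-! ### Frequency side -/

def sv (γ τ : ℝ) : ℂ := γ + 2 * Real.pi * τ * Complex.I

def om (γ τ : ℝ) : ℝ := ‖sv γ τ‖

/-- `‖ω^{-2/3}‖_{L²}`, a multiple of `γ^{-1/6}`. -/
def aa (γ : ℝ) : ℝ := Real.sqrt (∫ τ, om γ τ ^ (-(4 : ℝ) / 3))

/-- Admissible weights. -/
structure Adm (w : ℝ → ℝ) : Prop where
  cont : Continuous w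
  one_le : ∀ τ, 1 ≤ w τ
  even : ∀ τ, w (-τ) = w τ
  submul : ∀ a b, w (a + b) ≤ w a * w b
  poly : ∃ (C : ℝ) (n : ℕ), ∀ τ, w τ ≤ C * (1 + |τ|) ^ n

def wt (ε : ℝ) (n : ℕ) (τ : ℝ) : ℝ := (1 + ε * |τ|) ^ n

/-- The trivial weight. -/
def w1 : ℝ → ℝ := fun _ => 1

def nrm (γ : ℝ) (w : ℝ → ℝ) (σ : ℝ) (A : ℝ → ℂ) : ℝ≥0∞ :=
  eLpNorm (fun τ => ((om γ τ ^ σ * w τ : ℝ) : ℂ) * A τ) 2 volume

def Bd (γ : ℝ) (w : ℝ → ℝ) (σ : ℝ) (A : ℝ → ℂ) (c : ℝ) : Prop :=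
  nrm γ w σ A ≤ ENNReal.ofReal c

/-- Continuous and rapidly decaying. -/
structure RD (A : ℝ → ℂ) : Prop where
  cont : Continuous A
  decay : ∀ n : ℕ, ∃ C, ∀ τ, ‖A τ‖ * (1 + |τ|) ^ n ≤ C

/-- Jointly continuous and rapidly decaying in `τ`, uniformly in `x`. -/
structure RD2 (F : ℝ → ℝ → ℂ) : Prop where
  cont : Continuous fun p : ℝ × ℝ => F p.1 p.2
  decay : ∀ n : ℕ, ∃ C, ∀ x τ, ‖F x τ‖ * (1 + |τ|) ^ n ≤ C

def cv (A B : ℝ → ℂ) (τ : ℝ) : ℂ := ∫ a, A a * B (τ - a)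

def sym (A : ℝ → ℂ) (τ : ℝ) : ℂ := (A τ + conj (A (-τ))) / 2

/-- The `l`-th derivative of the real part of the inverse Fourier transform. -/
def tl (l : ℕ) (A : ℝ → ℂ) (t : ℝ) : ℝ :=
  (𝓕⁻ (fun τ : ℝ => (2 * Real.pi * τ * Complex.I) ^ l * A τ) t).re

/-- The inverse Fourier transform is real. -/
def IsRe (A : ℝ → ℂ) : Prop := ∀ t, (𝓕⁻ A t).im = 0

def spec (γ : ℝ) (f : ℝ → ℝ) : ℝ → ℂ := 𝓕 fun t : ℝ => ((Real.exp (-γ * t) * f t : ℝ) : ℂ)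

/-- The norm of convolution with `M` on the weighted spaces. -/
def mulC (γ : ℝ) (w : ℝ → ℝ) (M : ℝ → ℂ) : ℝ :=
  ∫ a, ‖M a‖ * w a * (1 + 2 * Real.pi * |a| / γ)

/-- The bound on a state `(V₀, V₁, V₂)`. -/
def SBd (L γ : ℝ) (w : ℝ → ℝ) (V : Fin 3 → ℝ → ℝ → ℂ) (c : ℝ) : Prop :=
  ∀ x ∈ Icc 0 L, ∀ j : Fin 3, Bd γ w ((1 - (j : ℝ)) / 3) (V j x) c

def cl (L x : ℝ) : ℝ := max 0 (min x L)

/-- The condition on `γ` under which the resolvent is defined. -/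
def Big (L γ : ℝ) : Prop := 1 ≤ γ ∧ (2 / L) ^ 3 ≤ γ

/-! ### The resolvent of `V''' + s V = g` -/

def rt (γ τ : ℝ) : ℂ := sv γ τ ^ ((3 : ℂ)⁻¹)

def cc : Fin 3 → ℂ := ![-1, (1 + Real.sqrt 3 * Complex.I) / 2, (1 - Real.sqrt 3 * Complex.I) / 2]

def lam (γ : ℝ) (i : Fin 3) (τ : ℝ) : ℂ := rt γ τ * cc i

def jj (L γ : ℝ) (g : ℝ → ℝ → ℂ) (i : Fin 3) (x τ : ℝ) : ℂ :=
  ∫ y in (ept L i)..x, Complex.exp (lam γ i τ * (x - y)) * g y τ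

/-- The coefficients of the homogeneous solutions, from `p₀ = j 0 + 1`, `p₁ = j 1 + 1`, the
exponentials `E`, the values `J` of the particular solutions at the far ends and the scaled
boundary data `b`. -/
def qq (p₀ p₁ : ℕ) (E J b : Fin 3 → ℂ) : Fin 3 → ℂ :=
  let A₁ := (cc 2 * b 1 - b 2) / (cc 2 - cc 1)
  let A₂ := (b 2 - cc 1 * b 1) / (cc 2 - cc 1)
  let θ₁ := (cc 2 + 1) / (cc 2 - cc 1)
  let θ₂ := (1 + cc 1) / (cc 2 - cc 1)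
  let k₁ := cc 1 ^ (p₀ + 1) / cc 1 ^ (p₁ + 1)
  let k₂ := cc 2 ^ (p₀ + 1) / cc 2 ^ (p₁ + 1)
  let e := cc 0 ^ (p₁ + 1)
  let D := cc 0 ^ (p₀ + 1) + e * E 0 * (k₂ * E 2 * θ₂ - k₁ * E 1 * θ₁)
  let q₀ := (b 0 - cc 1 ^ (p₀ + 1) * J 1 - cc 2 ^ (p₀ + 1) * J 2
    - k₁ * E 1 * (A₁ - θ₁ * e * J 0) - k₂ * E 2 * (A₂ + θ₂ * e * J 0)) / D
  let X := e * (E 0 * q₀ + J 0)
  ![q₀, (A₁ - θ₁ * X) / cc 1 ^ (p₁ + 1), (A₂ + θ₂ * X) / cc 2 ^ (p₁ + 1)]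

def qres (L : ℝ) (P : BC) (γ : ℝ) (g : ℝ → ℝ → ℂ) (β : Fin 3 → ℝ → ℂ) (τ : ℝ) : Fin 3 → ℂ :=
  qq (P.j 0 + 1) (P.j 1 + 1)
    (fun i => Complex.exp (lam γ i τ * ((L - ept L i : ℝ) - ept L i)))
    (fun i => jj L γ g i (L - ept L i) τ)
    (fun i => -3 * rt γ τ ^ 2 / rt γ τ ^ (P.j i + 1) * β i τ)

def res (L : ℝ) (P : BC) (γ : ℝ) (g : ℝ → ℝ → ℂ) (β : Fin 3 → ℝ → ℂ) (j : Fin 3) (x τ : ℝ) : ℂ :=
  -(rt γ τ ^ (j : ℕ) / (3 * rt γ τ ^ 2)) * ∑ i, cc i ^ ((j : ℕ) + 1) *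
    (Complex.exp (lam γ i τ * ((cl L x : ℝ) - ept L i)) * qres L P γ g β τ i
      + jj L γ g i (cl L x) τ)

/-- The leading trace of a state in a component of order `j`. -/
def vtr (γ : ℝ) (V : Fin 3 → ℝ → ℝ → ℂ) (j : ℕ) (x τ : ℝ) : ℂ :=
  if j = 0 then V 1 x τ else if j = 1 then V 2 x τ else -sv γ τ * V 0 x τ

/-- `V` solves `V''' + s V = g` with boundary data `β`. -/
structure IsRes (L : ℝ) (P : BC) (γ : ℝ) (g : ℝ → ℝ → ℂ) (β : Fin 3 → ℝ → ℂ)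
    (V : Fin 3 → ℝ → ℝ → ℂ) : Prop where
  rd : ∀ j, RD2 (V j)
  d0 : ∀ x ∈ Ioo 0 L, ∀ τ, HasDerivAt (fun y => V 0 y τ) (V 1 x τ) x
  d1 : ∀ x ∈ Ioo 0 L, ∀ τ, HasDerivAt (fun y => V 1 y τ) (V 2 x τ) x
  d2 : ∀ x ∈ Ioo 0 L, ∀ τ, HasDerivAt (fun y => V 2 y τ) (g x τ - sv γ τ * V 0 x τ) x
  bc : ∀ i τ, vtr γ V (P.j i) (ept L i) τ = β i τ

/-! ### The fixed point problem -/

def fL (L κ : ℝ) (P : BC) (V : Fin 3 → ℝ → ℝ → ℂ) (i : Fin 3) (τ : ℝ) : ℂ :=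
  -P.α i * V 1 0 τ - P.β i * V 1 L τ - P.ζ i * V 2 0 τ
    - P.dyn i * (6 * mu κ) * V 1 (ept L i) τ

def fE (V : Fin 3 → ℝ → ℝ → ℂ) (j : ℕ) (x τ : ℝ) : ℂ :=
  if j = 0 then cv (V 0 x) (V 0 x) τ else if j = 1 then 2 * cv (V 0 x) (V 1 x) τ
  else 2 * cv (V 1 x) (V 1 x) τ + 2 * cv (V 0 x) (V 2 x) τ

def fQ (L : ℝ) (P : BC) (V : Fin 3 → ℝ → ℝ → ℂ) (i : Fin 3) (τ : ℝ) : ℂ :=
  -P.α i * cv (V 0 0) (V 0 0) τ - P.β i * cv (V 0 L) (V 0 L) τ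
    - P.ζ i * 2 * cv (V 0 0) (V 1 0) τ - fE V (P.j i) (ept L i) τ

def fcub (V : Fin 3 → ℝ → ℝ → ℂ) (x : ℝ) : ℝ → ℂ := cv (cv (V 0 x) (V 0 x)) (V 1 x)

def fC (L : ℝ) (P : BC) (V : Fin 3 → ℝ → ℝ → ℂ) (i : Fin 3) (τ : ℝ) : ℂ :=
  -P.dyn i * 6 * fcub V (ept L i) τ

/-- The interior nonlinearity, with the multipliers `M 0`, `M 1`, `M 2` acting on the terms of
degree `1`, `2`, `3`. -/
def fN (κ : ℝ) (M : Fin 3 → ℝ → ℂ) (V : Fin 3 → ℝ → ℝ → ℂ) (x τ : ℝ) : ℂ :=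
  6 * mu κ * cv (M 0) (V 1 x) τ + 6 * cv (M 2) (fcub V x) τ

/-- The boundary nonlinearity. -/
def fB (L κ : ℝ) (P : BC) (M : Fin 3 → ℝ → ℂ) (V : Fin 3 → ℝ → ℝ → ℂ) (i : Fin 3) (τ : ℝ) : ℂ :=
  cv (M 0) (fL L κ P V i) τ + cv (M 1) (fQ L P V i) τ + cv (M 2) (fC L P V i) τ

def Phi (L κ : ℝ) (P : BC) (γ : ℝ) (M : Fin 3 → ℝ → ℂ) (g : ℝ → ℝ → ℂ) (β : Fin 3 → ℝ → ℂ)
    (V : Fin 3 → ℝ → ℝ → ℂ) (j : Fin 3) (x : ℝ) : ℝ → ℂ :=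
  sym (res L P γ (fun y τ => g y τ + fN κ M V y τ) (fun i τ => β i τ + fB L κ P M V i τ) j x)

/-- The size of the coefficients. -/
def Kc (L κ : ℝ) (P : BC) : ℝ :=
  10 ^ 8 * (1 + L) * (1 + |mu κ| + ∑ i, (|P.α i| + |P.β i| + |P.ζ i|))

/-- The smallness condition of the contraction argument. -/
def Smal (L κ : ℝ) (P : BC) (γ : ℝ) (A : Fin 3 → ℝ) (η : ℝ) : Prop :=
  (∀ n, 0 < A n) ∧ 0 < η ∧
    Kc L κ P * (A 0 * γ ^ (-(1 : ℝ) / 3) + A 1 * aa γ * η + A 2 * η ^ 2) ≤ 1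

/-- The multipliers attached to a cut-off `m`: the spectra of `m`, `e^{γ t} m`, `e^{2 γ t} m`. -/
def mm (γ : ℝ) (m : ℝ → ℝ) (n : Fin 3) : ℝ → ℂ := spec (-(n : ℝ) * γ) m

def specG (L γ : ℝ) (G : ℝ → ℝ → ℝ) (x : ℝ) : ℝ → ℂ := spec γ (G (cl L x))

/-- A fixed point with time-side data `m`, `G`, `ℓ`. -/
structure FP (L κ : ℝ) (P : BC) (γ : ℝ) (m : ℝ → ℝ) (G : ℝ → ℝ → ℝ) (ℓ : Fin 3 → ℝ → ℝ)
    (V : Fin 3 → ℝ → ℝ → ℂ) : Prop where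
  hm : SC m
  hG : SC2 L G
  hℓ : ∀ i, SC (ℓ i)
  rd : ∀ j, RD2 (V j)
  fix : Phi L κ P γ (mm γ m) (specG L γ G) (fun i => spec γ (ℓ i)) V = V

/-- The function of `(x, t)` attached to a state. -/
def zOf (γ : ℝ) (V : Fin 3 → ℝ → ℝ → ℂ) (x t : ℝ) : ℝ := Real.exp (γ * t) * tl 0 (V 0 x) t

/-- The linear part of the fixed point problem. -/
def linS (L : ℝ) (P : BC) (γ : ℝ) (G : ℝ → ℝ → ℝ) (ℓ : Fin 3 → ℝ → ℝ) : Fin 3 → ℝ → ℝ → ℂ :=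
  res L P γ (specG L γ G) (fun i => spec γ (ℓ i))

/-! ### Fourier representation of distributions -/

/-- `f` is, on test functions supported in `W`, the inverse Fourier transform of `G`. -/
def Rep (W : Set ℝ) (f : SchwartzMap ℝ ℂ → ℂ) (G : ℝ → ℂ) : Prop :=
  ∀ ψ : SchwartzMap ℝ ℂ, tsupport ψ ⊆ W → f ψ = ∫ ξ, G ξ * 𝓕⁻ (ψ : ℝ → ℂ) ξ

def jn (σ : ℝ) (G : ℝ → ℂ) : ℝ≥0∞ :=
  eLpNorm (fun ξ : ℝ => (((1 + ξ ^ 2) ^ (σ / 2) : ℝ) : ℂ) * G ξ) 2 volume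

/-- The norm of boundary data on `(0, T')`, extended by zero to negative times. -/
def bn (σ T' : ℝ) (h : ℝ → ℝ) : ℝ≥0∞ := hNorm σ (Iio T') (ofFun T' h)

end Pool.Agent.Lib.MP_14aec4_an.W
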