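import Pool.Agent.Lib.MP_14aec4_an.Positon

/-!
Pointwise bounds for the positon and its derivatives, and the generic smallness lemma.
-/

noncomputable section

open MeasureTheory Set Filter Topology
open scoped ENNReal Real

namespace Pool.Agent.Lib.MP_14aec4_an

lemma mono_bd (K : ℝ) {m c s p : ℝ} (i j k l n i' n' : ℕ) (hm : 1 ≤ m) (hc : |c| ≤ 1)
    (hs : |s| ≤ 1) (hp : 0 ≤ p) (hp1 : p ≤ 1) (hi : i ≤ i') (hn : n' ≤ n) :
    |K * m ^ i * c ^ j * s ^ k * (1 + s) ^ l * p ^ n| ≤ |K| * 2 ^ l * (m ^ i' * p ^ n') := by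
  have ha : |1 + s| ≤ 2 := by
    have := abs_add_le 1 s
    rw [abs_one] at this; linarith
  have hm0 : 0 ≤ m := by linarith
  rw [abs_mul, abs_mul, abs_mul, abs_mul, abs_mul, abs_pow, abs_pow, abs_pow, abs_pow, abs_pow,
    abs_of_nonneg hm0, abs_of_nonneg hp]
  have h1 : |c| ^ j ≤ 1 := pow_le_one₀ (abs_nonneg _) hc
  have h2 : |s| ^ k ≤ 1 := pow_le_one₀ (abs_nonneg _) hs
  have h3 : |1 + s| ^ l ≤ 2 ^ l := pow_le_pow_left₀ (abs_nonneg _) ha l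
  have h4 : m ^ i ≤ m ^ i' := pow_le_pow_right₀ hm hi
  have h5 : p ^ n ≤ p ^ n' := pow_le_pow_of_le_one hp hp1 hn
  calc |K| * m ^ i * |c| ^ j * |s| ^ k * |1 + s| ^ l * p ^ n
      ≤ |K| * m ^ i' * 1 * 1 * 2 ^ l * p ^ n' := by gcongr
    _ = _ := by ring

section poly
variable {m c s p : ℝ} (hm : 1 ≤ m) (hc : |c| ≤ 1) (hs : |s| ≤ 1) (hp : 0 ≤ p) (hp1 : p ≤ 1)
include hm hc hs hp hp1

lemma bd_W : |pW m c s p| ≤ 24 * p := by
  have h1 := abs_le.1 (mono_bd 12 0 0 0 1 1 0 1 hm hc hs hp hp1 le_rfl le_rfl)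
  unfold pW; norm_num at h1; rw [abs_le]; constructor <;> linarith [h1.1, h1.2]

lemma bd_Wg : |pWg m c s p| ≤ 24 * p ^ 2 := by
  have h1 := abs_le.1 (mono_bd 12 0 0 0 1 2 0 2 hm hc hs hp hp1 le_rfl le_rfl)
  unfold pWg; norm_num at h1; rw [abs_le]; constructor <;> linarith [h1.1, h1.2]

lemma bd_U0 : |pU0 m c s p| ≤ 60 * (m * p) := by
  have h1 := abs_le.1 (mono_bd 12 1 1 0 0 1 1 1 hm hc hs hp hp1 le_rfl le_rfl)
  have h2 := abs_le.1 (mono_bd 12 0 0 0 2 2 1 1 hm hc hs hp hp1 (by norm_num) (by norm_num))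
  unfold pU0; norm_num at h1 h2; rw [abs_le]; constructor <;> linarith [h1.1, h1.2, h2.1, h2.2]

lemma bd_U0g : |pU0g m c s p| ≤ 108 * (m * p ^ 2) := by
  have h1 := abs_le.1 (mono_bd 12 1 1 0 0 2 1 2 hm hc hs hp hp1 le_rfl le_rfl)
  have h2 := abs_le.1 (mono_bd 24 0 0 0 2 3 1 2 hm hc hs hp hp1 (by norm_num) (by norm_num))
  unfold pU0g; norm_num at h1 h2; rw [abs_le]; constructor <;> linarith [h1.1, h1.2, h2.1, h2.2]

lemma bd_U0gg : |pU0gg m c s p| ≤ 312 * (m * p ^ 2) := by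
  have h1 := abs_le.1 (mono_bd 24 1 1 0 0 3 1 2 hm hc hs hp hp1 le_rfl (by norm_num))
  have h2 := abs_le.1 (mono_bd 72 0 0 0 2 4 1 2 hm hc hs hp hp1 (by norm_num) (by norm_num))
  unfold pU0gg; norm_num at h1 h2; rw [abs_le]; constructor <;> linarith [h1.1, h1.2, h2.1, h2.2]

lemma bd_U1 : |pU1 m c s p| ≤ 276 * (m ^ 2 * p) := by
  have h1 := abs_le.1 (mono_bd 12 2 0 1 0 1 2 1 hm hc hs hp hp1 le_rfl le_rfl)
  have h2 := abs_le.1 (mono_bd 36 1 1 0 1 2 2 1 hm hc hs hp hp1 (by norm_num) (by norm_num))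
  have h3 := abs_le.1 (mono_bd 24 0 0 0 3 3 2 1 hm hc hs hp hp1 (by norm_num) (by norm_num))
  unfold pU1; norm_num at h1 h2 h3; rw [abs_le]
  constructor <;> linarith [h1.1, h1.2, h2.1, h2.2, h3.1, h3.2]

lemma bd_U1' (h0 : s = 0) : |pU1 m c s p| ≤ 264 * m := by
  have h2 := abs_le.1 (mono_bd 36 1 1 0 1 2 1 0 hm hc hs hp hp1 (by norm_num) (by norm_num))
  have h3 := abs_le.1 (mono_bd 24 0 0 0 3 3 1 0 hm hc hs hp hp1 (by norm_num) (by norm_num))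
  unfold pU1; subst h0; norm_num at h2 h3 ⊢; rw [abs_le]
  constructor <;> linarith [h2.1, h2.2, h3.1, h3.2]

lemma bd_U2 : |pU2 m c s p| ≤ 1872 * (m ^ 3 * p) := by
  have h1 := abs_le.1 (mono_bd 12 3 1 0 0 1 3 1 hm hc hs hp hp1 le_rfl le_rfl)
  have h2 := abs_le.1 (mono_bd 48 2 0 1 1 2 3 1 hm hc hs hp hp1 (by norm_num) (by norm_num))
  have h3 := abs_le.1 (mono_bd 36 2 2 0 0 2 3 1 hm hc hs hp hp1 (by norm_num) (by norm_num))
  have h4 := abs_le.1 (mono_bd 144 1 1 0 2 3 3 1 hm hc hs hp hp1 (by norm_num) (by norm_num))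
  have h5 := abs_le.1 (mono_bd 72 0 0 0 4 4 3 1 hm hc hs hp hp1 (by norm_num) (by norm_num))
  unfold pU2; norm_num at h1 h2 h3 h4 h5; rw [abs_le]
  constructor <;> linarith [h1.1, h1.2, h2.1, h2.2, h3.1, h3.2, h4.1, h4.2, h5.1, h5.2]

lemma bd_C : |pC m c s p| ≤ 1 := by
  have h1 := abs_le.1 (mono_bd 1 0 1 0 0 1 0 0 hm hc hs hp hp1 le_rfl (by norm_num))
  unfold pC; norm_num at h1; rw [abs_le]; constructor <;> linarith [h1.1, h1.2]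

end poly

/-- the decay factor -/
def qq (m t : ℝ) : ℝ := (1 + 2 * m ^ 2 * t)⁻¹

lemma qq_pos {m t : ℝ} (ht : 0 ≤ t) : 0 < qq m t := by unfold qq; positivity

lemma qq_le_one {m t : ℝ} (ht : 0 ≤ t) : qq m t ≤ 1 := by
  unfold qq
  apply inv_le_one_of_one_le₀
  have : 0 ≤ 2 * m ^ 2 * t := by positivity
  linarith

lemma p_le_qq {m x t : ℝ} (hm : 2 ≤ m) (hx : 0 ≤ x) (ht : 0 ≤ t) : (tau m x t)⁻¹ ≤ qq m t :=
  inv_anti₀ (by positivity) (tau_ge hm hx ht)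

lemma p_pos {m x t : ℝ} (hm : 2 ≤ m) (hx : 0 ≤ x) (ht : 0 ≤ t) : 0 < (tau m x t)⁻¹ :=
  inv_pos.2 (tau_pos hm hx ht)

lemma p_le_one {m x t : ℝ} (hm : 2 ≤ m) (hx : 0 ≤ x) (ht : 0 ≤ t) : (tau m x t)⁻¹ ≤ 1 :=
  (p_le_qq hm hx ht).trans (qq_le_one ht)

lemma qq_contOn (m T : ℝ) : ContinuousOn (qq m) (Icc 0 T) := by
  unfold qq
  apply ContinuousOn.inv₀ (by fun_prop)
  intro t ht
  have := ht.1
  positivity

lemma qq_integral {m T : ℝ} (hm : 1 ≤ m) (hT : 0 ≤ T) :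
    ∫ t in (0:ℝ)..T, qq m t ^ 2 ≤ (m ^ 2)⁻¹ := by
  have hm2 : 0 < m ^ 2 := by positivity
  have h1 : ∀ t ∈ uIcc 0 T, HasDerivAt (fun t => -(2 * m ^ 2)⁻¹ * qq m t) (qq m t ^ 2) t := by
    intro t ht
    rw [uIcc_of_le hT] at ht
    have h0 : 1 + 2 * m ^ 2 * t ≠ 0 := by have := ht.1; positivity
    have := ((((hasDerivAt_id t).const_mul (2 * m ^ 2)).const_add 1).inv h0).const_mul
      (-(2 * m ^ 2)⁻¹)
    refine HasDerivAt.congr_deriv this ?_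
    simp only [qq, id]
    field_simp
  have h2 : IntervalIntegrable (fun t => qq m t ^ 2) volume 0 T := by
    apply ContinuousOn.intervalIntegrable
    rw [uIcc_of_le hT]
    exact (qq_contOn m T).pow 2
  rw [intervalIntegral.integral_eq_sub_of_hasDerivAt h1 h2]
  have h3 := qq_pos (m := m) hT
  have h4 : qq m 0 = 1 := by simp [qq]
  rw [h4]
  have h5 : (2 * m ^ 2)⁻¹ ≤ (m ^ 2)⁻¹ := inv_anti₀ hm2 (by linarith)
  have h6 : 0 ≤ (2 * m ^ 2)⁻¹ * qq m T := by positivity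
  linarith

lemma integral_le_qq {m T C : ℝ} (hm : 1 ≤ m) (hT : 0 ≤ T) (hC : 0 ≤ C) {f : ℝ → ℝ}
    (hf : ContinuousOn f (Icc 0 T)) (hb : ∀ t ∈ Icc 0 T, f t ≤ C * qq m t ^ 2) :
    ∫ t in (0:ℝ)..T, f t ≤ C * (m ^ 2)⁻¹ := by
  have h2 : IntervalIntegrable (fun t => qq m t ^ 2) volume 0 T := by
    apply ContinuousOn.intervalIntegrable
    rw [uIcc_of_le hT]
    exact (qq_contOn m T).pow 2
  calc ∫ t in (0:ℝ)..T, f t ≤ ∫ t in (0:ℝ)..T, C * qq m t ^ 2 := by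
        apply intervalIntegral.integral_mono_on hT _ (h2.const_mul C) hb
        apply ContinuousOn.intervalIntegrable
        rwa [uIcc_of_le hT]
    _ = C * ∫ t in (0:ℝ)..T, qq m t ^ 2 := intervalIntegral.integral_const_mul _ _
    _ ≤ _ := mul_le_mul_of_nonneg_left (qq_integral hm hT) hC

/-- A sequence of continuous functions on `[0, a]` whose zero extensions tend to zero
in `H^{-σ}`. -/
def Small (σ a : ℝ) (g : ℕ → ℝ → ℝ) : Prop :=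
  (∀ n, ContinuousOn (g n) (Icc 0 a)) ∧ Tendsto (fun n => NN σ a (g n)) atTop (𝓝 0)

lemma Small.add {σ a : ℝ} (ha : 0 ≤ a) (hσ : 0 ≤ σ) {g₁ g₂ : ℕ → ℝ → ℝ} (h₁ : Small σ a g₁)
    (h₂ : Small σ a g₂) : Small σ a (fun n x => g₁ n x + g₂ n x) := by
  refine ⟨fun n => (h₁.1 n).add (h₂.1 n), ?_⟩
  have := (h₁.2.const_mul 2).add (h₂.2.const_mul 2)
  simp only [mul_zero, add_zero] at this
  exact squeeze_zero (fun n => NN_nonneg _ _ _) (fun n => NN_add_le ha hσ (h₁.1 n) (h₂.1 n)) this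

lemma Small.const_mul {σ a : ℝ} (ha : 0 ≤ a) (c : ℝ) {g : ℕ → ℝ → ℝ} (h : Small σ a g) :
    Small σ a (fun n x => c * g n x) := by
  refine ⟨fun n => (h.1 n).const_smul c, ?_⟩
  have := h.2.const_mul (c ^ 2)
  simp only [mul_zero] at this
  simpa only [NN_const_mul ha] using this

lemma Small.mono {σ τ a : ℝ} (hσ : 0 ≤ σ) (h : σ ≤ τ) {g : ℕ → ℝ → ℝ} (hg : Small σ a g) :
    Small τ a g :=
  ⟨hg.1, squeeze_zero (fun _ => NN_nonneg _ _ _) (fun n => NN_mono hσ h (hg.1 n)) hg.2⟩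

lemma Small.tendsto {σ a : ℝ} (hσ : 0 ≤ σ) {g : ℕ → ℝ → ℝ} (hg : Small σ a g) (W : Set ℝ)
    (f : ℕ → SchwartzMap ℝ ℂ → ℂ)
    (hf : ∀ n, ∀ ψ : SchwartzMap ℝ ℂ, tsupport ψ ⊆ W → f n ψ = ofFun a (g n) ψ) :
    Tendsto (fun n => hNorm (-σ) W (f n)) atTop (𝓝 0) := by
  have h1 : Tendsto (fun n => ENNReal.ofReal (Real.sqrt (NN σ a (g n)))) atTop (𝓝 0) := by
    have := ENNReal.tendsto_ofReal hg.2.sqrt
    simpa using this
  exact tendsto_of_tendsto_of_tendsto_of_le_of_le tendsto_const_nhds h1 (fun _ => bot_le)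
    (fun n => hNorm_le_NN hσ W (hg.1 n) _ (hf n))

/-- Generic smallness of time traces with the positon scaling. -/
lemma small_of_bounds {T σ C : ℝ} (hT : 0 < T) (hC : 0 ≤ C) (j e : ℕ) (he : e ≤ 1) (hej : e ≤ j)
    (hj : j ≤ 2) (hσ : (j : ℝ) / 3 < σ) (m : ℕ → ℝ) (hm : ∀ n, 2 ≤ m n)
    (hmt : Tendsto m atTop atTop) (g g' r h : ℕ → ℝ → ℝ)
    (hd : ∀ n, ∀ t ∈ Icc 0 T, HasDerivAt (g n) (g' n t) t)
    (hg' : ∀ n, ContinuousOn (g' n) (Icc 0 T)) (hr : ∀ n, ContinuousOn (r n) (Icc 0 T))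
    (hh : ∀ n, ∀ t ∈ Icc 0 T, h n t = g' n t + r n t)
    (bg : ∀ n, ∀ t ∈ Icc 0 T, |g n t| ≤ C * m n ^ j * (m n ^ 2)⁻¹ * qq (m n) t)
    (bh : ∀ n, ∀ t ∈ Icc 0 T, |h n t| ≤ C * m n ^ (j + 1) * qq (m n) t)
    (br : ∀ n, ∀ t ∈ Icc 0 T, |r n t| ≤ C * m n ^ e * qq (m n) t ^ 2)
    (b0 : ∀ n, |g n 0| ≤ C * m n ^ e * (m n ^ 2)⁻¹) : Small σ T h := by
  have hhc : ∀ n, ContinuousOn (h n) (Icc 0 T) := fun n => ((hg' n).add (hr n)).congr (hh n)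
  have hj' : (j : ℝ) ≤ 2 := by exact_mod_cast hj
  have he' : (e : ℝ) ≤ 1 := by exact_mod_cast he
  have hej' : (e : ℝ) ≤ j := by exact_mod_cast hej
  have he0 : (0 : ℝ) ≤ e := Nat.cast_nonneg e
  have hj0 : (0 : ℝ) ≤ j := Nat.cast_nonneg j
  wlog hσ1 : σ ≤ 1 generalizing σ
  · exact (this (σ := 1) (by linarith) le_rfl).mono zero_le_one (not_le.1 hσ1).le
  refine ⟨hhc, ?_⟩
  set A : ℝ := C ^ 2 * (16 * π ^ 2 + 1) with hA
  set D : ℝ := 2 * (C * (2 + T⁻¹)) ^ 2 * KK * 2 ^ (3 / 5 - (e : ℝ) / 3) with hD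
  have hlim : Tendsto (fun n => A * m n ^ (-(6 * σ - 2 * j)) + D * m n ^ (-(2 / 5 : ℝ))) atTop
      (𝓝 0) := by
    have t1 := ((tendsto_rpow_neg_atTop (y := 6 * σ - 2 * j) (by linarith)).comp hmt).const_mul A
    have t2 := ((tendsto_rpow_neg_atTop (y := 2 / 5) (by norm_num)).comp hmt).const_mul D
    simpa using t1.add t2
  refine squeeze_zero (fun n => NN_nonneg _ _ _) (fun n => ?_) hlim
  have hm1 : 1 ≤ m n := by linarith [hm n]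
  have hm0 : 0 < m n := by linarith
  set M := m n with hM
  have hgc : ContinuousOn (g n) (Icc 0 T) := fun x hx => (hd n x hx).continuousAt.continuousWithinAt
  have i1 : ∫ t in (0:ℝ)..T, g n t ^ 2 ≤ (C * M ^ j * (M ^ 2)⁻¹) ^ 2 * (M ^ 2)⁻¹ := by
    apply integral_le_qq hm1 hT.le (by positivity) (hgc.pow 2)
    intro t ht
    rw [← mul_pow, Pi.pow_apply, ← sq_abs (g n t)]
    exact pow_le_pow_left₀ (abs_nonneg _) (bg n t ht) 2
  have i2 : ∫ t in (0:ℝ)..T, h n t ^ 2 ≤ (C * M ^ (j + 1)) ^ 2 * (M ^ 2)⁻¹ := by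
    apply integral_le_qq hm1 hT.le (by positivity) ((hhc n).pow 2)
    intro t ht
    rw [← mul_pow, Pi.pow_apply, ← sq_abs (h n t)]
    exact pow_le_pow_left₀ (abs_nonneg _) (bh n t ht) 2
  have i3 : ∫ t in (0:ℝ)..T, |r n t| ≤ C * M ^ e * (M ^ 2)⁻¹ :=
    integral_le_qq hm1 hT.le (by positivity) (hr n).abs (br n)
  have i4 : |g n T| ≤ T⁻¹ * (C * M ^ e * (M ^ 2)⁻¹) := by
    refine (bg n T ⟨hT.le, le_rfl⟩).trans ?_
    have q1 : qq M T ≤ (M ^ 2 * T)⁻¹ := by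
      unfold qq
      apply inv_anti₀ (by positivity)
      have : 0 ≤ M ^ 2 * T := by positivity
      linarith
    have q2 : M ^ j ≤ M ^ e * M ^ 2 := by
      rw [← pow_add]; exact pow_le_pow_right₀ hm1 (by omega)
    calc C * M ^ j * (M ^ 2)⁻¹ * qq M T ≤ C * (M ^ e * M ^ 2) * (M ^ 2)⁻¹ * (M ^ 2 * T)⁻¹ := by
          have := qq_pos (m := M) hT.le
          gcongr
      _ = _ := by field_simp
  have hB : |g n 0| + |g n T| + ∫ t in (0:ℝ)..T, |r n t| ≤ C * (2 + T⁻¹) * (M ^ e * (M ^ 2)⁻¹) := by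
    have := b0 n
    rw [← hM] at this
    nlinarith
  have key := NN_split (σ := σ) (τ := (e : ℝ) / 3) (R := M ^ 3) hT.le (by positivity)
    (by linarith) (by linarith) hσ1 (one_le_pow₀ hm1) (hd n) (hg' n) (hr n) (hh n) hB
  refine key.trans (add_le_add ?_ (le_of_eq ?_))
  · have e1 : ((M ^ 3) ^ 2) ^ (-σ) = M ^ (-(6 * σ)) := by
      rw [← pow_mul, ← Real.rpow_natCast, ← Real.rpow_mul hm0.le]
      congr 1; push_cast; ring
    have e2 : M ^ (-(6 * σ - 2 * j)) = M ^ (-(6 * σ)) * (M ^ j) ^ 2 := by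
      rw [← pow_mul, ← Real.rpow_natCast, ← Real.rpow_add hm0]
      congr 1; push_cast; ring
    rw [e1, e2, hA]
    have e3 : 16 * π ^ 2 * (M ^ 3) ^ 2 * (∫ t in (0:ℝ)..T, g n t ^ 2) + ∫ t in (0:ℝ)..T, h n t ^ 2
        ≤ C ^ 2 * (16 * π ^ 2 + 1) * (M ^ j) ^ 2 := by
      calc _ ≤ 16 * π ^ 2 * (M ^ 3) ^ 2 * ((C * M ^ j * (M ^ 2)⁻¹) ^ 2 * (M ^ 2)⁻¹)
            + (C * M ^ (j + 1)) ^ 2 * (M ^ 2)⁻¹ := by gcongr
        _ = _ := by field_simp; ring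
    have e4 : 0 ≤ M ^ (-(6 * σ)) := by positivity
    calc _ ≤ M ^ (-(6 * σ)) * (C ^ 2 * (16 * π ^ 2 + 1) * (M ^ j) ^ 2) :=
          mul_le_mul_of_nonneg_left e3 e4
      _ = _ := by ring
  · have e1 : (2 * (M ^ 3) ^ 2) ^ (3 / 5 - (e : ℝ) / 3)
        = 2 ^ (3 / 5 - (e : ℝ) / 3) * M ^ (18 / 5 - 2 * (e : ℝ)) := by
      rw [Real.mul_rpow (by norm_num) (by positivity), ← pow_mul, ← Real.rpow_natCast M,
        ← Real.rpow_mul hm0.le]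
      congr 2; push_cast; ring
    have e2 : M ^ (-(2 / 5 : ℝ)) = (M ^ e * (M ^ 2)⁻¹) ^ 2 * M ^ (18 / 5 - 2 * (e : ℝ)) := by
      have : (M ^ e * (M ^ 2)⁻¹) ^ 2 = M ^ (2 * (e : ℝ) - 4) := by
        rw [Real.rpow_sub hm0, show (2 * (e : ℝ)) = ((2 * e : ℕ) : ℝ) by push_cast; ring,
          show (4 : ℝ) = ((4 : ℕ) : ℝ) by norm_num, Real.rpow_natCast, Real.rpow_natCast]
        field_simp
        ring
      rw [this, ← Real.rpow_add hm0]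
      congr 1; ring
    rw [e1, e2, hD]
    ring

end Pool.Agent.Lib.MP_14aec4_an
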