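import Pool.Agent.Lib.MP_14aec4_an.Calc0

/-!
Calculus on intervals and rectangles.
-/

noncomputable section

open MeasureTheory Set Filter Topology FourierTransform
open scoped ENNReal ComplexConjugate

namespace Pool.Agent.Lib.MP_14aec4_an.W

variable {L : ℝ}

lemma calc_ii {q : ℝ → ℝ} (hq : ContinuousOn q (Icc 0 L)) {x : ℝ} (hx : x ∈ Icc 0 L) :
    IntervalIntegrable q volume 0 x :=
  (hq.mono (Icc_subset_Icc_right hx.2)).intervalIntegrable_of_Icc hx.1

lemma calc_primitive {q : ℝ → ℝ} (hq : ContinuousOn q (Icc 0 L)) {x : ℝ} (hx : x ∈ Icc 0 L) :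
    HasDerivWithinAt (fun x => ∫ y in (0 : ℝ)..x, q y) (q x) (Icc 0 L) x := by
  have : Fact (x ∈ Icc 0 L) := ⟨hx⟩
  exact intervalIntegral.integral_hasDerivWithinAt_right (calc_ii hq hx)
    (hq.stronglyMeasurableAtFilter_nhdsWithin measurableSet_Icc x) (hq x hx)

lemma calc_cs (hL : 0 ≤ L) {q q' : ℝ → ℝ} (hq : ContinuousOn q (Icc 0 L))
    (hq' : ContinuousOn q' (Icc 0 L)) : ∫ x in (0 : ℝ)..L, |q x * q' x| ≤ nL L q * nL L q' := by
  have hLm : L ∈ Icc 0 L := right_mem_Icc.mpr hL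
  have hA : 0 ≤ ∫ x in (0 : ℝ)..L, q x ^ 2 :=
    intervalIntegral.integral_nonneg hL fun x _ => sq_nonneg _
  have h1 : ∀ r : ℝ, 0 ≤ (∫ x in (0 : ℝ)..L, q x ^ 2) * (r * r) +
      (-2 * ∫ x in (0 : ℝ)..L, |q x * q' x|) * r + ∫ x in (0 : ℝ)..L, q' x ^ 2 := by
    intro r
    have h2 : 0 ≤ ∫ x in (0 : ℝ)..L, (r * r * q x ^ 2 + -2 * r * |q x * q' x| + q' x ^ 2) := by
      refine intervalIntegral.integral_nonneg hL fun x _ => ?_
      rw [abs_mul, ← sq_abs (q x), ← sq_abs (q' x)]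
      nlinarith [sq_nonneg (r * |q x| - |q' x|)]
    have i1 : IntervalIntegrable (fun x => q x ^ 2) volume 0 L := calc_ii (hq.pow 2) hLm
    have i2 : IntervalIntegrable (fun x => q' x ^ 2) volume 0 L := calc_ii (hq'.pow 2) hLm
    have i3 : IntervalIntegrable (fun x => |q x * q' x|) volume 0 L :=
      calc_ii (hq.mul hq').abs hLm
    rw [intervalIntegral.integral_add ((i1.const_mul _).add (i3.const_mul _)) i2,
      intervalIntegral.integral_add (i1.const_mul _) (i3.const_mul _),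
      intervalIntegral.integral_const_mul, intervalIntegral.integral_const_mul] at h2
    linarith
  have h3 := discrim_le_zero h1
  unfold discrim at h3
  unfold nL
  rw [← Real.sqrt_mul hA]
  refine Real.le_sqrt_of_sq_le ?_
  nlinarith

/-! ### Smooth functions on `[0, L]` -/

lemma SmI.cont {q : ℝ → ℝ} (hq : SmI L q) : ContinuousOn q (Icc 0 L) := by
  exact ContDiffOn.continuousOn hq

lemma SmI.dI (hL : 0 < L) {q : ℝ → ℝ} (hq : SmI L q) : SmI L (dI L q) := by
  exact ((contDiffOn_infty_iff_derivWithin (uniqueDiffOn_Icc hL)).1 hq).2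

lemma SmI.hasDerivWithinAt {q : ℝ → ℝ} (hq : SmI L q) {x : ℝ} (hx : x ∈ Icc 0 L) :
    HasDerivWithinAt q (W.dI L q x) (Icc 0 L) x := by
  exact ((ContDiffOn.differentiableOn hq (by simp)) x hx).hasDerivWithinAt

lemma SmI.hasDerivAt {q : ℝ → ℝ} (hq : SmI L q) {x : ℝ} (hx : x ∈ Ioo 0 L) :
    HasDerivAt q (W.dI L q x) x := by
  exact (hq.hasDerivWithinAt (Ioo_subset_Icc_self hx)).hasDerivAt (Icc_mem_nhds hx.1 hx.2)

lemma SmI.primitive (hL : 0 < L) {q : ℝ → ℝ} (hq : SmI L q) :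
    SmI L (fun x => ∫ y in (0 : ℝ)..x, q y) ∧
      ∀ x ∈ Icc 0 L, W.dI L (fun x => ∫ y in (0 : ℝ)..x, q y) x = q x := by
  have h1 : ∀ x ∈ Icc 0 L, W.dI L (fun x => ∫ y in (0 : ℝ)..x, q y) x = q x := fun x hx =>
    dI_eq hL hx (calc_primitive hq.cont hx)
  refine ⟨(contDiffOn_infty_iff_derivWithin (uniqueDiffOn_Icc hL)).2
    ⟨fun x hx => (calc_primitive hq.cont hx).differentiableWithinAt, ?_⟩, h1⟩
  exact ContDiffOn.congr hq h1

lemma SmI.prim (hL : 0 < L) (P : BC) {q : ℝ → ℝ} (hq : SmI L q) :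
    SmI L (prim L P q) ∧ ∀ x ∈ Icc 0 L, W.dI L (W.prim L P q) x = q x := by
  refine ⟨ContDiffOn.sub (hq.primitive hL).1 contDiffOn_const, fun x hx => dI_eq hL hx ?_⟩
  exact (calc_primitive hq.cont hx).sub_const _

lemma prim_sub (hL : 0 < L) (P : BC) {q q' : ℝ → ℝ} (hq : ContinuousOn q (Icc 0 L))
    (hq' : ContinuousOn q' (Icc 0 L)) {x : ℝ} (hx : x ∈ Icc 0 L) :
    prim L P (fun y => q y - q' y) x = prim L P q x - prim L P q' x := by
  have h1 : ∀ z ∈ Icc 0 L, ∫ y in (0 : ℝ)..z, (q y - q' y) =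
      (∫ y in (0 : ℝ)..z, q y) - ∫ y in (0 : ℝ)..z, q' y := fun z hz =>
    intervalIntegral.integral_sub (calc_ii hq hz) (calc_ii hq' hz)
  have hLm : L ∈ Icc 0 L := right_mem_Icc.mpr hL.le
  have h2 : ∫ z in (0 : ℝ)..L, ∫ y in (0 : ℝ)..z, (q y - q' y) =
      (∫ z in (0 : ℝ)..L, ∫ y in (0 : ℝ)..z, q y) -
        ∫ z in (0 : ℝ)..L, ∫ y in (0 : ℝ)..z, q' y := by
    rw [← intervalIntegral.integral_sub
      (calc_ii (fun z hz => (calc_primitive hq hz).continuousWithinAt) hLm)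
      (calc_ii (fun z hz => (calc_primitive hq' hz).continuousWithinAt) hLm)]
    refine intervalIntegral.integral_congr fun z hz => h1 z ?_
    rwa [uIcc_of_le hL.le] at hz
  unfold W.prim
  rw [h1 x hx, h1 L hLm, h2]
  split_ifs <;> ring

lemma nL_nonneg (L : ℝ) (q : ℝ → ℝ) : 0 ≤ nL L q := by
  exact Real.sqrt_nonneg _

lemma nL_sq (hL : 0 ≤ L) (q : ℝ → ℝ) : nL L q ^ 2 = ∫ x in (0 : ℝ)..L, q x ^ 2 := by
  exact Real.sq_sqrt (intervalIntegral.integral_nonneg hL fun x _ => sq_nonneg _)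

lemma nL_congr (hL : 0 ≤ L) {q q' : ℝ → ℝ} (h : ∀ x ∈ Icc 0 L, q x = q' x) :
    nL L q = nL L q' := by
  unfold nL
  congr 1
  refine intervalIntegral.integral_congr fun x hx => ?_
  rw [uIcc_of_le hL] at hx
  simp only [h x hx]

lemma nL_add_le (hL : 0 ≤ L) {q q' : ℝ → ℝ} (hq : ContinuousOn q (Icc 0 L))
    (hq' : ContinuousOn q' (Icc 0 L)) : nL L (fun x => q x + q' x) ≤ nL L q + nL L q' := by
  have hLm : L ∈ Icc 0 L := right_mem_Icc.mpr hL
  refine Real.sqrt_le_iff.mpr ⟨add_nonneg (nL_nonneg _ _) (nL_nonneg _ _), ?_⟩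
  have h1 := calc_cs hL hq hq'
  have h2 : ∫ x in (0 : ℝ)..L, (q x + q' x) ^ 2 ≤
      ∫ x in (0 : ℝ)..L, (q x ^ 2 + q' x ^ 2 + 2 * |q x * q' x|) := by
    refine intervalIntegral.integral_mono_on hL (calc_ii ((hq.add hq').pow 2) hLm)
      (calc_ii (((hq.pow 2).add (hq'.pow 2)).add (continuousOn_const.mul (hq.mul hq').abs)) hLm)
      fun x _ => ?_
    nlinarith [le_abs_self (q x * q' x)]
  have i1 : IntervalIntegrable (fun x => q x ^ 2) volume 0 L := calc_ii (hq.pow 2) hLm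
  have i2 : IntervalIntegrable (fun x => q' x ^ 2) volume 0 L := calc_ii (hq'.pow 2) hLm
  have i3 : IntervalIntegrable (fun x => |q x * q' x|) volume 0 L := calc_ii (hq.mul hq').abs hLm
  rw [intervalIntegral.integral_add (i1.add i2) (i3.const_mul _),
    intervalIntegral.integral_add i1 i2,
    intervalIntegral.integral_const_mul, ← nL_sq hL q, ← nL_sq hL q'] at h2
  refine h2.trans ?_
  nlinarith

lemma nL_const_mul (c : ℝ) (q : ℝ → ℝ) : nL L (fun x => c * q x) = |c| * nL L q := by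
  unfold nL
  simp only [mul_pow]
  rw [intervalIntegral.integral_const_mul, Real.sqrt_mul (sq_nonneg c), Real.sqrt_sq_eq_abs]

lemma nL_le_of_abs_le (hL : 0 ≤ L) {q : ℝ → ℝ} {B : ℝ} (hq : ContinuousOn q (Icc 0 L))
    (h : ∀ x ∈ Icc 0 L, |q x| ≤ B) : nL L q ≤ Real.sqrt L * B := by
  have hLm : L ∈ Icc 0 L := right_mem_Icc.mpr hL
  have hB : 0 ≤ B := (abs_nonneg _).trans (h L hLm)
  refine Real.sqrt_le_iff.mpr ⟨by positivity, ?_⟩
  have h2 : ∫ x in (0 : ℝ)..L, q x ^ 2 ≤ ∫ _x in (0 : ℝ)..L, B ^ 2 := by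
    refine intervalIntegral.integral_mono_on hL (calc_ii (hq.pow 2) hLm)
      intervalIntegrable_const fun x hx => ?_
    rw [← sq_abs]
    exact pow_le_pow_left₀ (abs_nonneg _) (h x hx) 2
  rw [mul_pow, Real.sq_sqrt hL]
  simpa using h2

lemma integral_abs_mul_le (hL : 0 ≤ L) {q q' : ℝ → ℝ} (hq : ContinuousOn q (Icc 0 L))
    (hq' : ContinuousOn q' (Icc 0 L)) : ∫ x in (0 : ℝ)..L, |q x * q' x| ≤ nL L q * nL L q' := by
  exact calc_cs hL hq hq'

lemma integral_abs_le (hL : 0 ≤ L) {q : ℝ → ℝ} (hq : ContinuousOn q (Icc 0 L)) :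
    ∫ x in (0 : ℝ)..L, |q x| ≤ Real.sqrt L * nL L q := by
  have h1 := calc_cs hL (q := fun _ => (1 : ℝ)) continuousOn_const hq
  have h2 : nL L (fun _ => (1 : ℝ)) = Real.sqrt L := by simp [nL]
  rw [h2] at h1
  simpa using h1

lemma wn_nonneg (L : ℝ) (P : BC) (q : ℝ → ℝ) : 0 ≤ wn L P q := by
  unfold wn
  have := nL_nonneg L q
  split_ifs <;> positivity

lemma nL_le_wn (L : ℝ) (P : BC) (q : ℝ → ℝ) : nL L q ≤ wn L P q := by
  unfold wn
  have h0 := abs_nonneg (q 0)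
  have h1 := abs_nonneg (q L)
  split_ifs <;> linarith

lemma dyn_abs_le_wn (L : ℝ) (P : BC) (q : ℝ → ℝ) (i : Fin 3) :
    P.dyn i * |q (ept L i)| ≤ wn L P q := by
  have h := nL_nonneg L q
  have h0 := abs_nonneg (q 0)
  have h1 := abs_nonneg (q L)
  obtain ⟨d0, dL, α, β, ζ⟩ := P
  fin_cases i <;> cases d0 <;> cases dL <;> simp [BC.dyn, BC.j, ept, wn] <;> linarith

lemma wn_congr (hL : 0 ≤ L) (P : BC) {q q' : ℝ → ℝ} (h : ∀ x ∈ Icc 0 L, q x = q' x) :
    wn L P q = wn L P q' := by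
  unfold wn
  rw [nL_congr hL h, h 0 (left_mem_Icc.mpr hL), h L (right_mem_Icc.mpr hL)]

lemma wn_add_le (hL : 0 ≤ L) (P : BC) {q q' : ℝ → ℝ} (hq : ContinuousOn q (Icc 0 L))
    (hq' : ContinuousOn q' (Icc 0 L)) : wn L P (fun x => q x + q' x) ≤ wn L P q + wn L P q' := by
  unfold wn
  have h := nL_add_le hL hq hq'
  have h0 := abs_add_le (q 0) (q' 0)
  have h1 := abs_add_le (q L) (q' L)
  split_ifs <;> linarith

lemma wn_const_mul (P : BC) (c : ℝ) (q : ℝ → ℝ) :
    wn L P (fun x => c * q x) = |c| * wn L P q := by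
  unfold wn
  rw [nL_const_mul]
  simp only [abs_mul]
  split_ifs <;> ring

/-! ### Ramps and cut-offs -/

lemma rp_contDiff (t₀ δ : ℝ) : ContDiff ℝ (⊤ : ℕ∞) (rp t₀ δ) := by
  exact Real.smoothTransition.contDiff.comp ((contDiff_id.sub contDiff_const).div_const δ)

lemma rp_mem (t₀ δ t : ℝ) : rp t₀ δ t ∈ Icc (0 : ℝ) 1 := by
  exact ⟨Real.smoothTransition.nonneg _, Real.smoothTransition.le_one _⟩

lemma rp_zero {t₀ δ t : ℝ} (hδ : 0 < δ) (ht : t ≤ t₀) : rp t₀ δ t = 0 := by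
  exact Real.smoothTransition.zero_of_nonpos
    (div_nonpos_of_nonpos_of_nonneg (by linarith) hδ.le)

lemma rp_one {t₀ δ t : ℝ} (hδ : 0 < δ) (ht : t₀ + δ ≤ t) : rp t₀ δ t = 1 := by
  exact Real.smoothTransition.one_of_one_le ((one_le_div hδ).mpr (by linarith))

lemma deriv_rp_nonneg {δ : ℝ} (hδ : 0 < δ) (t₀ t : ℝ) : 0 ≤ deriv (rp t₀ δ) t := by
  refine Monotone.deriv_nonneg fun a b hab => Real.smoothTransition.monotone ?_
  exact div_le_div_of_nonneg_right (by linarith) hδ.le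

lemma deriv_rp_zero {t₀ δ t : ℝ} (hδ : 0 < δ) (ht : t ∉ Ioo t₀ (t₀ + δ)) :
    deriv (rp t₀ δ) t = 0 := by
  have hc : Continuous (deriv (rp t₀ δ)) := (rp_contDiff t₀ δ).continuous_deriv (by simp)
  have h1 : EqOn (deriv (rp t₀ δ)) (fun _ => 0) (Iio t₀) := by
    intro s hs
    have : rp t₀ δ =ᶠ[𝓝 s] fun _ => 0 := by
      filter_upwards [Iio_mem_nhds hs] with r hr using rp_zero hδ (le_of_lt hr)
    rw [this.deriv_eq]
    simp
  have h2 : EqOn (deriv (rp t₀ δ)) (fun _ => 0) (Ioi (t₀ + δ)) := by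
    intro s hs
    have : rp t₀ δ =ᶠ[𝓝 s] fun _ => 1 := by
      filter_upwards [Ioi_mem_nhds hs] with r hr using rp_one hδ (le_of_lt hr)
    rw [this.deriv_eq]
    simp
  rw [mem_Ioo, not_and_or, not_lt, not_lt] at ht
  rcases ht with ht | ht
  · refine h1.closure hc continuous_const ?_
    rwa [closure_Iio]
  · refine h2.closure hc continuous_const ?_
    rwa [closure_Ioi]

lemma deriv_rp_le : ∃ C, 0 ≤ C ∧ ∀ t₀ δ t, 0 < δ → deriv (rp t₀ δ) t ≤ C / δ := by
  have hc : Continuous (deriv (rp 0 1)) := (rp_contDiff 0 1).continuous_deriv (by simp)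
  obtain ⟨C, hC⟩ := isCompact_Icc.exists_bound_of_continuousOn (s := Icc (0 : ℝ) 1) hc.continuousOn
  have hC0 : 0 ≤ C := (norm_nonneg _).trans (hC 0 (by simp))
  have hb : ∀ s, deriv (rp 0 1) s ≤ C := by
    intro s
    by_cases hs : s ∈ Ioo (0 : ℝ) (0 + 1)
    · exact (le_abs_self _).trans (hC s ⟨hs.1.le, by simpa using hs.2.le⟩)
    · rw [deriv_rp_zero one_pos hs]
      exact hC0
  refine ⟨C, hC0, fun t₀ δ t hδ => ?_⟩
  have h1 : HasDerivAt (fun t => (t - t₀) / δ) (1 / δ) t :=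
    ((hasDerivAt_id t).sub_const t₀).div_const δ
  have h2 := (((rp_contDiff 0 1).differentiable (by simp)) ((t - t₀) / δ)).hasDerivAt.comp t h1
  have h3 : rp t₀ δ = rp 0 1 ∘ fun t => (t - t₀) / δ := by
    funext s
    simp [rp]
  rw [h3, h2.deriv, mul_one_div]
  exact div_le_div_of_nonneg_right (hb _) hδ.le

lemma sc_deriv_rp {δ : ℝ} (hδ : 0 < δ) (t₀ : ℝ) : SC (deriv (rp t₀ δ)) := by
  refine ⟨(contDiff_infty_iff_deriv.1 (rp_contDiff t₀ δ)).2, ?_⟩
  exact HasCompactSupport.intro (isCompact_Icc (a := t₀) (b := t₀ + δ))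
    fun t ht => deriv_rp_zero hδ fun h => ht (Ioo_subset_Icc_self h)

lemma integral_deriv_rp_le {γ t₀ δ : ℝ} (hγ : 0 < γ) (hδ : 0 < δ) (ht : -1 / γ ≤ t₀) :
    ∫ t, |Real.exp (-γ * t) * deriv (rp t₀ δ) t| ≤ 3 := by
  have hs := sc_deriv_rp hδ t₀
  have hi : Integrable (deriv (rp t₀ δ)) := hs.1.continuous.integrable_of_hasCompactSupport hs.2
  have h1 : ∫ t, deriv (rp t₀ δ) t = 1 := by
    rw [← intervalIntegral.integral_eq_integral_of_support_subset (a := t₀) (b := t₀ + δ),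
      intervalIntegral.integral_deriv_eq_sub
        (fun x _ => (rp_contDiff t₀ δ).differentiable (by simp) x) hi.intervalIntegrable,
      rp_one hδ le_rfl, rp_zero hδ le_rfl, sub_zero]
    intro t ht
    by_contra h
    exact ht (deriv_rp_zero hδ fun h' => h (Ioo_subset_Ioc_self h'))
  have h2 : ∫ t, |Real.exp (-γ * t) * deriv (rp t₀ δ) t| ≤ ∫ t, 3 * deriv (rp t₀ δ) t := by
    refine integral_mono_of_nonneg (Eventually.of_forall fun t => abs_nonneg _) (hi.const_mul 3)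
      (Eventually.of_forall fun t => ?_)
    have h0 := deriv_rp_nonneg hδ t₀ t
    show |Real.exp (-γ * t) * deriv (rp t₀ δ) t| ≤ 3 * deriv (rp t₀ δ) t
    by_cases h : t ∈ Ioo t₀ (t₀ + δ)
    · rw [abs_of_nonneg (mul_nonneg (Real.exp_pos _).le h0)]
      refine mul_le_mul_of_nonneg_right ?_ h0
      have h3 : -γ * t ≤ 1 := by
        rw [div_le_iff₀ hγ] at ht
        nlinarith [h.1]
      exact (Real.exp_le_exp.mpr h3).trans (by linarith [Real.exp_one_lt_d9])
    · rw [deriv_rp_zero hδ h]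
      simp
  rwa [integral_const_mul, h1, mul_one] at h2

lemma cut_contDiff : ContDiff ℝ (⊤ : ℕ∞) cut := by
  exact (Real.smoothTransition.contDiff.comp (contDiff_id.add contDiff_const)).mul
    (Real.smoothTransition.contDiff.comp (contDiff_const.sub contDiff_id))

lemma cut_mem (t : ℝ) : cut t ∈ Icc (0 : ℝ) 1 := by
  exact ⟨mul_nonneg (Real.smoothTransition.nonneg _) (Real.smoothTransition.nonneg _),
    mul_le_one₀ (Real.smoothTransition.le_one _) (Real.smoothTransition.nonneg _)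
      (Real.smoothTransition.le_one _)⟩

lemma cut_one {t : ℝ} (ht : |t| ≤ 1) : cut t = 1 := by
  obtain ⟨h1, h2⟩ := abs_le.mp ht
  unfold cut
  rw [Real.smoothTransition.one_of_one_le (by linarith),
    Real.smoothTransition.one_of_one_le (by linarith), mul_one]

lemma cut_zero {t : ℝ} (ht : 2 ≤ |t|) : cut t = 0 := by
  unfold cut
  rcases le_abs'.mp ht with h | h
  · rw [Real.smoothTransition.zero_of_nonpos (x := t + 2) (by linarith), zero_mul]
  · rw [Real.smoothTransition.zero_of_nonpos (x := 2 - t) (by linarith), mul_zero]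

lemma sc_cut_scale {γ : ℝ} (hγ : 0 < γ) : SC fun t => cut (γ * t) := by
  refine ⟨cut_contDiff.comp (contDiff_const.mul contDiff_id), ?_⟩
  refine HasCompactSupport.intro (isCompact_Icc (a := -2 / γ) (b := 2 / γ)) fun t ht => ?_
  refine cut_zero ?_
  rw [mem_Icc, not_and_or, not_le, not_le, lt_div_iff₀ hγ, div_lt_iff₀ hγ] at ht
  rcases ht with ht | ht
  · exact le_abs'.mpr (Or.inl (by linarith))
  · exact le_abs'.mpr (Or.inr (by linarith))

/-- The variation of `rp * cut (γ ·)` against `e^{-γ t}` is bounded by a universal constant. -/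
lemma integral_deriv_rp_cut_le : ∃ C, 0 ≤ C ∧ ∀ γ t₀ δ : ℝ, 0 < γ → 0 < δ → -1 / γ ≤ t₀ →
    ∫ t, |Real.exp (-γ * t) * deriv (fun t => rp t₀ δ t * cut (γ * t)) t| ≤ C := by
  have hsc : SC cut := by simpa using sc_cut_scale one_pos
  have hdc : Continuous (deriv cut) := cut_contDiff.continuous_deriv (by simp)
  have hg : Integrable fun s => |Real.exp (-s) * deriv cut s| :=
    (((Real.continuous_exp.comp continuous_neg).mul hdc).integrable_of_hasCompactSupport
      hsc.2.deriv.mul_left).abs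
  refine ⟨3 + ∫ s, |Real.exp (-s) * deriv cut s|,
    add_nonneg (by norm_num) (integral_nonneg fun s => abs_nonneg _), fun γ t₀ δ hγ hδ ht => ?_⟩
  have hs := sc_deriv_rp hδ t₀
  have hi : Integrable fun t => |Real.exp (-γ * t) * deriv (rp t₀ δ) t| :=
    (((Real.continuous_exp.comp (continuous_const.mul continuous_id)).mul
      hs.1.continuous).integrable_of_hasCompactSupport hs.2.mul_left).abs
  have hj : Integrable fun t => γ * |Real.exp (-(γ * t)) * deriv cut (γ * t)| :=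
    (hg.comp_mul_left' hγ.ne').const_mul γ
  have h1 : ∫ t, γ * |Real.exp (-(γ * t)) * deriv cut (γ * t)| =
      ∫ s, |Real.exp (-s) * deriv cut s| := by
    rw [integral_const_mul,
      Measure.integral_comp_mul_left (fun s => |Real.exp (-s) * deriv cut s|) γ, abs_inv,
      abs_of_pos hγ, smul_eq_mul, mul_inv_cancel_left₀ hγ.ne']
  have h2 : ∫ t, |Real.exp (-γ * t) * deriv (fun t => rp t₀ δ t * cut (γ * t)) t| ≤
      ∫ t, (|Real.exp (-γ * t) * deriv (rp t₀ δ) t| +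
        γ * |Real.exp (-(γ * t)) * deriv cut (γ * t)|) := by
    refine integral_mono_of_nonneg (Eventually.of_forall fun t => abs_nonneg _) (hi.add hj)
      (Eventually.of_forall fun t => ?_)
    have d1 := ((rp_contDiff t₀ δ).differentiable (by simp) t).hasDerivAt
    have d2 : HasDerivAt (fun t => cut (γ * t)) (deriv cut (γ * t) * γ) t := by
      have := (cut_contDiff.differentiable (by simp) (γ * t)).hasDerivAt.comp t
        ((hasDerivAt_id t).const_mul γ)
      rw [mul_one] at this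
      exact this
    have d3 : HasDerivAt (fun t => rp t₀ δ t * cut (γ * t))
        (deriv (rp t₀ δ) t * cut (γ * t) + rp t₀ δ t * (deriv cut (γ * t) * γ)) t := d1.mul d2
    show |Real.exp (-γ * t) * deriv (fun t => rp t₀ δ t * cut (γ * t)) t| ≤
      |Real.exp (-γ * t) * deriv (rp t₀ δ) t| + γ * |Real.exp (-(γ * t)) * deriv cut (γ * t)|
    rw [d3.deriv, mul_add, neg_mul]
    refine (abs_add_le _ _).trans (add_le_add ?_ ?_)
    · rw [← mul_assoc, abs_mul _ (cut (γ * t)), abs_of_nonneg (cut_mem _).1]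
      exact mul_le_of_le_one_right (abs_nonneg _) (cut_mem _).2
    · have e : Real.exp (-(γ * t)) * (rp t₀ δ t * (deriv cut (γ * t) * γ)) =
          rp t₀ δ t * (γ * (Real.exp (-(γ * t)) * deriv cut (γ * t))) := by ring
      rw [e, abs_mul, abs_mul γ, abs_of_nonneg (rp_mem _ _ _).1, abs_of_pos hγ]
      exact mul_le_of_le_one_left (by positivity) (rp_mem _ _ _).2
  rw [integral_add hi hj, h1] at h2
  linarith [integral_deriv_rp_le hγ hδ ht]

end Pool.Agent.Lib.MP_14aec4_an.W
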