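import Pool.Agent.Lib.MP_14aec4_an.Base

/-!
Calculus on rectangles.
-/

noncomputable section

open MeasureTheory Set Filter Topology FourierTransform
open scoped ENNReal ComplexConjugate

namespace Pool.Agent.Lib.MP_14aec4_an.W

variable {L : ℝ} {I : Set ℝ} {f g : ℝ → ℝ → ℝ}

/-- `∂_t` within `I`. -/
def ptw (I : Set ℝ) (f : ℝ → ℝ → ℝ) (x t : ℝ) : ℝ := derivWithin (fun τ => f x τ) I t

lemma SmOn.mono {J : Set ℝ} (hf : SmOn L I f) (h : J ⊆ I) : SmOn L J f := by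
  exact ContDiffOn.mono hf (prod_mono_right h)

lemma SmOn.ctOn (hf : SmOn L I f) : CtOn L I f := by
  exact ContDiffOn.continuousOn hf

lemma SmOn.congr (hf : SmOn L I f) (h : ∀ x ∈ Icc 0 L, ∀ t ∈ I, g x t = f x t) : SmOn L I g := by
  exact ContDiffOn.congr hf fun p hp => h p.1 hp.1 p.2 hp.2

lemma SmOn.const (c : ℝ) : SmOn L I fun _ _ => c := by
  exact contDiffOn_const

lemma SmOn.add (hf : SmOn L I f) (hg : SmOn L I g) : SmOn L I fun x t => f x t + g x t := by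
  exact ContDiffOn.add hf hg

lemma SmOn.sub (hf : SmOn L I f) (hg : SmOn L I g) : SmOn L I fun x t => f x t - g x t := by
  exact ContDiffOn.sub hf hg

lemma SmOn.mul (hf : SmOn L I f) (hg : SmOn L I g) : SmOn L I fun x t => f x t * g x t := by
  exact ContDiffOn.mul hf hg

lemma SmOn.pow (hf : SmOn L I f) (n : ℕ) : SmOn L I fun x t => f x t ^ n := by
  exact ContDiffOn.pow hf n

lemma SmOn.const_mul (hf : SmOn L I f) (c : ℝ) : SmOn L I fun x t => c * f x t := by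
  exact ContDiffOn.mul contDiffOn_const hf

lemma SmI.smOn {q : ℝ → ℝ} (hq : SmI L q) (I : Set ℝ) : SmOn L I fun x _ => q x := by
  exact ContDiffOn.comp hq contDiffOn_fst fun p hp => hp.1

lemma smOn_of_t {c : ℝ → ℝ} (hc : ContDiffOn ℝ (⊤ : ℕ∞) c I) : SmOn L I fun _ t => c t := by
  exact ContDiffOn.comp hc contDiffOn_snd fun p hp => hp.2

lemma SmOn.slice_x (hf : SmOn L I f) {t : ℝ} (ht : t ∈ I) : SmI L fun x => f x t := by
  exact ContDiffOn.comp (g := fun p : ℝ × ℝ => f p.1 p.2) (f := fun x : ℝ => (x, t)) hf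
    (contDiffOn_id.prodMk contDiffOn_const) fun x hx => ⟨hx, ht⟩

lemma SmOn.slice_t (hf : SmOn L I f) {x : ℝ} (hx : x ∈ Icc 0 L) :
    ContDiffOn ℝ (⊤ : ℕ∞) (fun t => f x t) I := by
  exact ContDiffOn.comp (g := fun p : ℝ × ℝ => f p.1 p.2) (f := fun t : ℝ => (x, t)) hf
    (contDiffOn_const.prodMk contDiffOn_id) fun t ht => ⟨hx, ht⟩

lemma SmOn.px_eq (hL : 0 < L) (hf : SmOn L I f) {x t : ℝ} (hx : x ∈ Icc 0 L) (ht : t ∈ I) :
    W.px L f x t =
      fderivWithin ℝ (fun p : ℝ × ℝ => f p.1 p.2) (Icc 0 L ×ˢ I) (x, t) (1, 0) := by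
  have h1 : HasFDerivWithinAt (fun p : ℝ × ℝ => f p.1 p.2)
      (fderivWithin ℝ (fun p : ℝ × ℝ => f p.1 p.2) (Icc 0 L ×ˢ I) (x, t)) (Icc 0 L ×ˢ I) (x, t) :=
    (ContDiffOn.differentiableOn hf (by simp) (x, t) ⟨hx, ht⟩).hasFDerivWithinAt
  have h2 : HasDerivWithinAt (fun y : ℝ => (y, t)) ((1 : ℝ), (0 : ℝ)) (Icc 0 L) x :=
    (hasDerivWithinAt_id x _).prodMk (hasDerivWithinAt_const x _ t)
  have h3 := HasFDerivWithinAt.comp_hasDerivWithinAt (f := fun y : ℝ => (y, t)) x h1 h2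
    fun y hy => mk_mem_prod hy ht
  exact h3.derivWithin (uniqueDiffOn_Icc hL x hx)

lemma SmOn.ptw_eq (hI : UniqueDiffOn ℝ I) (hf : SmOn L I f) {x t : ℝ} (hx : x ∈ Icc 0 L)
    (ht : t ∈ I) : W.ptw I f x t =
      fderivWithin ℝ (fun p : ℝ × ℝ => f p.1 p.2) (Icc 0 L ×ˢ I) (x, t) (0, 1) := by
  have h1 : HasFDerivWithinAt (fun p : ℝ × ℝ => f p.1 p.2)
      (fderivWithin ℝ (fun p : ℝ × ℝ => f p.1 p.2) (Icc 0 L ×ˢ I) (x, t)) (Icc 0 L ×ˢ I) (x, t) :=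
    (ContDiffOn.differentiableOn hf (by simp) (x, t) ⟨hx, ht⟩).hasFDerivWithinAt
  have h2 : HasDerivWithinAt (fun y : ℝ => (x, y)) ((0 : ℝ), (1 : ℝ)) I t :=
    (hasDerivWithinAt_const t _ x).prodMk (hasDerivWithinAt_id t _)
  have h3 := HasFDerivWithinAt.comp_hasDerivWithinAt (f := fun y : ℝ => (x, y)) t h1 h2
    fun y hy => mk_mem_prod hx hy
  exact h3.derivWithin (hI t ht)

lemma SmOn.fd (hL : 0 < L) (hI : UniqueDiffOn ℝ I) (hf : SmOn L I f) :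
    ContDiffOn ℝ (⊤ : ℕ∞) (fderivWithin ℝ (fun p : ℝ × ℝ => f p.1 p.2) (Icc 0 L ×ˢ I))
      (Icc 0 L ×ˢ I) :=
  ContDiffOn.fderivWithin hf ((uniqueDiffOn_Icc hL).prod hI) (by simp)

lemma SmOn.px (hL : 0 < L) (hI : UniqueDiffOn ℝ I) (hf : SmOn L I f) : SmOn L I (px L f) := by
  exact ((hf.fd hL hI).clm_apply (contDiffOn_const (c := ((1 : ℝ), (0 : ℝ))))).congr
    fun p hp => hf.px_eq hL hp.1 hp.2

lemma SmOn.ptw (hL : 0 < L) (hI : UniqueDiffOn ℝ I) (hf : SmOn L I f) : SmOn L I (ptw I f) := by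
  exact ((hf.fd hL hI).clm_apply (contDiffOn_const (c := ((0 : ℝ), (1 : ℝ))))).congr
    fun p hp => hf.ptw_eq hI hp.1 hp.2

lemma SmOn.hasDerivWithinAt_x (hf : SmOn L I f) {x t : ℝ} (hx : x ∈ Icc 0 L) (ht : t ∈ I) :
    HasDerivWithinAt (fun y => f y t) (W.px L f x t) (Icc 0 L) x := by
  exact (ContDiffOn.differentiableOn (hf.slice_x ht) (by simp) x hx).hasDerivWithinAt

lemma SmOn.hasDerivAt_x (hf : SmOn L I f) {x t : ℝ} (hx : x ∈ Ioo 0 L) (ht : t ∈ I) :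
    HasDerivAt (fun y => f y t) (W.px L f x t) x := by
  exact (hf.hasDerivWithinAt_x (Ioo_subset_Icc_self hx) ht).hasDerivAt (Icc_mem_nhds hx.1 hx.2)

lemma SmOn.hasDerivWithinAt_t (hf : SmOn L I f) {x t : ℝ} (hx : x ∈ Icc 0 L) (ht : t ∈ I) :
    HasDerivWithinAt (fun τ => f x τ) (W.ptw I f x t) I t := by
  exact (ContDiffOn.differentiableOn (hf.slice_t hx) (by simp) t ht).hasDerivWithinAt

lemma pt_eq_ptw (f : ℝ → ℝ → ℝ) (x : ℝ) {t : ℝ} (ht : I ∈ 𝓝 t) : pt f x t = ptw I f x t := by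
  exact (derivWithin_of_mem_nhds ht).symm

lemma SmOn.hasDerivAt_t (hf : SmOn L I f) {x t : ℝ} (hx : x ∈ Icc 0 L) (ht : I ∈ 𝓝 t) :
    HasDerivAt (fun τ => f x τ) (pt f x t) t := by
  rw [pt_eq_ptw f x ht]
  exact (hf.hasDerivWithinAt_t hx (mem_of_mem_nhds ht)).hasDerivAt ht

/-- Symmetry of second derivatives. -/
lemma SmOn.pt_px (hL : 0 < L) (hI : UniqueDiffOn ℝ I) (hf : SmOn L I f) {x t : ℝ}
    (hx : x ∈ Icc 0 L) (ht : I ∈ 𝓝 t) : pt (W.px L f) x t = W.px L (pt f) x t := by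
  have htI : t ∈ I := mem_of_mem_nhds ht
  have hS : UniqueDiffOn ℝ (Icc 0 L ×ˢ I) := (uniqueDiffOn_Icc hL).prod hI
  have hmem : (x, t) ∈ Icc 0 L ×ˢ I := ⟨hx, htI⟩
  have hd := ContDiffOn.differentiableOn (hf.fd hL hI) (by simp) (x, t) hmem
  have key : ∀ v w : ℝ × ℝ, fderivWithin ℝ (fun p =>
      fderivWithin ℝ (fun p : ℝ × ℝ => f p.1 p.2) (Icc 0 L ×ˢ I) p v) (Icc 0 L ×ˢ I) (x, t) w =
      fderivWithin ℝ (fderivWithin ℝ (fun p : ℝ × ℝ => f p.1 p.2) (Icc 0 L ×ˢ I))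
        (Icc 0 L ×ˢ I) (x, t) w v := by
    intro v w
    rw [fderivWithin_clm_apply (hS _ hmem) hd (differentiableWithinAt_const v)]
    simp
  have h1 : pt (W.px L f) x t = fderivWithin ℝ (fderivWithin ℝ (fun p : ℝ × ℝ => f p.1 p.2)
      (Icc 0 L ×ˢ I)) (Icc 0 L ×ˢ I) (x, t) (0, 1) (1, 0) := by
    rw [pt_eq_ptw _ x ht, (hf.px hL hI).ptw_eq hI hx htI, ← key,
      fderivWithin_congr' (fun p hp => hf.px_eq hL hp.1 hp.2) hmem]
  have h2 : W.px L (pt f) x t = fderivWithin ℝ (fderivWithin ℝ (fun p : ℝ × ℝ => f p.1 p.2)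
      (Icc 0 L ×ˢ I)) (Icc 0 L ×ˢ I) (x, t) (1, 0) (0, 1) := by
    have h3 : W.px L (pt f) x t = W.px L (W.ptw I f) x t := by
      unfold W.px
      rw [show (fun y => pt f y t) = fun y => W.ptw I f y t from
        funext fun y => pt_eq_ptw f y ht]
    rw [h3, (hf.ptw hL hI).px_eq hL hx htI, ← key,
      fderivWithin_congr' (fun p hp => hf.ptw_eq hI hp.1 hp.2) hmem]
  rw [h1, h2]
  refine (ContDiffWithinAt.isSymmSndFDerivWithinAt (hf (x, t) hmem) ?_ hS ?_ hmem).eq _ _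
  · rw [minSmoothness_of_isRCLikeNormedField]
    exact WithTop.coe_le_coe.mpr (le_top : (2 : ℕ∞) ≤ ⊤)
  · rw [interior_prod_eq, closure_prod_eq, interior_Icc, closure_Ioo hL.ne]
    exact ⟨hx, subset_closure (mem_interior_iff_mem_nhds.mpr ht)⟩

/-- At an interior time, `x ↦ f_t(x, t)` is smooth on `[0, L]`. -/
lemma SmOn.smI_pt (hL : 0 < L) (hI : UniqueDiffOn ℝ I) (hf : SmOn L I f) {t : ℝ} (ht : I ∈ 𝓝 t) :
    SmI L fun x => pt f x t := by
  rw [show (fun y => pt f y t) = fun y => W.ptw I f y t from funext fun y => pt_eq_ptw f y ht]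
  exact (hf.ptw hL hI).slice_x (mem_of_mem_nhds ht)

lemma px_eq_dI (L : ℝ) (f : ℝ → ℝ → ℝ) (x t : ℝ) : px L f x t = dI L (fun y => f y t) x := rfl

lemma dI_congr {q q' : ℝ → ℝ} (h : ∀ y ∈ Icc 0 L, q y = q' y) {x : ℝ} (hx : x ∈ Icc 0 L) :
    dI L q x = dI L q' x := by
  exact derivWithin_congr h (h x hx)

lemma px_congr {t t' : ℝ} (h : ∀ y ∈ Icc 0 L, f y t = g y t') {x : ℝ} (hx : x ∈ Icc 0 L) :
    px L f x t = px L g x t' := by
  exact derivWithin_congr h (h x hx)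

lemma dI_eq (hL : 0 < L) {q : ℝ → ℝ} {x d : ℝ} (hx : x ∈ Icc 0 L)
    (h : HasDerivWithinAt q d (Icc 0 L) x) : dI L q x = d := by
  exact h.derivWithin (uniqueDiffOn_Icc hL x hx)

lemma exists_ext_Icc {a b : ℝ} (hab : a ≤ b) {q : ℝ → ℝ} (hq : ContinuousOn q (Icc a b)) :
    ∃ Q : ℝ → ℝ, Continuous Q ∧ ∀ x ∈ Icc a b, Q x = q x := by
  refine ⟨fun x => q (max a (min x b)), hq.comp_continuous (by fun_prop) fun x =>
    ⟨le_max_left _ _, max_le hab (min_le_right _ _)⟩, fun x hx => ?_⟩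
  show q (max a (min x b)) = q x
  rw [min_eq_left hx.2, max_eq_right hx.1]

lemma hasDerivAt_prim {Q : ℝ → ℝ} (hQ : Continuous Q) (a x : ℝ) :
    HasDerivAt (fun y => ∫ z in a..y, Q z) (Q x) x :=
  intervalIntegral.integral_hasDerivAt_right (hQ.intervalIntegrable _ _)
    (hQ.stronglyMeasurableAtFilter _ _) hQ.continuousAt

lemma eq_add_integral_of_Ioo {a b : ℝ} {q Q : ℝ → ℝ} (hq : ContinuousOn q (Icc a b))
    (hQ : Continuous Q) (h : ∀ x ∈ Ioo a b, HasDerivAt q (Q x) x) {y : ℝ} (hy : y ∈ Icc a b) :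
    q y = q a + ∫ z in a..y, Q z := by
  rw [intervalIntegral.integral_eq_sub_of_hasDerivAt_of_le hy.1
    (hq.mono (Icc_subset_Icc_right hy.2)) (fun z hz => h z ⟨hz.1, hz.2.trans_le hy.2⟩)
    (hQ.intervalIntegrable _ _)]
  ring

/-- A derivative known in the open interval and continuous up to the ends. -/
lemma hasDerivWithinAt_Icc_of_Ioo {a b : ℝ} {q q' : ℝ → ℝ} (hq : ContinuousOn q (Icc a b))
    (hq' : ContinuousOn q' (Icc a b)) (h : ∀ x ∈ Ioo a b, HasDerivAt q (q' x) x) {x : ℝ}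
    (hx : x ∈ Icc a b) : HasDerivWithinAt q (q' x) (Icc a b) x := by
  obtain ⟨Q, hQ, hQq⟩ := exists_ext_Icc (hx.1.trans hx.2) hq'
  have h1 : ∀ y ∈ Icc a b, q y = q a + ∫ z in a..y, Q z := fun y hy =>
    eq_add_integral_of_Ioo hq hQ (fun z hz => by
      rw [hQq z (Ioo_subset_Icc_self hz)]
      exact h z hz) hy
  have h2 := ((hasDerivAt_prim hQ a x).const_add (q a)).hasDerivWithinAt (s := Icc a b)
  rw [hQq x hx] at h2
  exact h2.congr h1 (h1 x hx)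

lemma px_time_mul (c : ℝ → ℝ) (f : ℝ → ℝ → ℝ) :
    px L (fun x t => c t * f x t) = fun x t => c t * px L f x t := by
  funext x t
  exact derivWithin_const_mul_field (c t)

lemma px_sub (hL : 0 < L) (hf : SmOn L I f) (hg : SmOn L I g) {x t : ℝ} (hx : x ∈ Icc 0 L)
    (ht : t ∈ I) : px L (fun x t => f x t - g x t) x t = px L f x t - px L g x t := by
  exact ((hf.hasDerivWithinAt_x hx ht).sub (hg.hasDerivWithinAt_x hx ht)).derivWithin
    (uniqueDiffOn_Icc hL x hx)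

lemma iteratedDerivWithin_eq_px (f : ℝ → ℝ → ℝ) (n : ℕ) (x t : ℝ) :
    iteratedDerivWithin n (fun y => f y t) (Icc 0 L) x = (px L)^[n] f x t := by
  induction n generalizing f with
  | zero => simp
  | succ n ih =>
    rw [iteratedDerivWithin_succ', Function.iterate_succ_apply, ← ih]
    rfl

lemma CtOn.bdd {t₀ t₁ : ℝ} (hf : CtOn L (Icc t₀ t₁) f) :
    ∃ K, 0 ≤ K ∧ ∀ x ∈ Icc 0 L, ∀ t ∈ Icc t₀ t₁, |f x t| ≤ K := by
  obtain ⟨K, hK⟩ := (isCompact_Icc.prod isCompact_Icc).exists_bound_of_continuousOn hf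
  exact ⟨max K 0, le_max_right _ _, fun x hx t ht =>
    (hK (x, t) ⟨hx, ht⟩).trans (le_max_left _ _)⟩

lemma CtOn.slice_x (hf : CtOn L I f) {t : ℝ} (ht : t ∈ I) :
    ContinuousOn (fun x => f x t) (Icc 0 L) := by
  exact ContinuousOn.comp (g := fun p : ℝ × ℝ => f p.1 p.2) (f := fun x : ℝ => (x, t)) hf
    (continuousOn_id.prodMk continuousOn_const) fun x hx => ⟨hx, ht⟩

lemma CtOn.slice_t (hf : CtOn L I f) {x : ℝ} (hx : x ∈ Icc 0 L) :
    ContinuousOn (fun t => f x t) I := by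
  exact ContinuousOn.comp (g := fun p : ℝ × ℝ => f p.1 p.2) (f := fun t : ℝ => (x, t)) hf
    (continuousOn_const.prodMk continuousOn_id) fun t ht => ⟨hx, ht⟩

lemma SmOn.cutoff {a a' b' b : ℝ} (hf : SmOn L (Icc a b) f) {c : ℝ → ℝ}
    (hc : ContDiff ℝ (⊤ : ℕ∞) c) (ha : a < a') (hb : b' < b) (h : ∀ t, t ∉ Icc a' b' → c t = 0) :
    SmOn L univ fun x t => c t * f x t := by
  intro p hp
  by_cases hin : p.2 ∈ Ioo a b
  · have h1 : ContDiffWithinAt ℝ (⊤ : ℕ∞) (fun p : ℝ × ℝ => f p.1 p.2) (Icc 0 L ×ˢ Icc a b) p :=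
      hf p ⟨hp.1, Ioo_subset_Icc_self hin⟩
    have h2 : Icc 0 L ×ˢ Icc a b ∈ 𝓝[Icc 0 L ×ˢ univ] p := by
      have h3 : (univ : Set ℝ) ×ˢ Icc a b ∈ 𝓝 p :=
        prod_mem_nhds univ_mem (Icc_mem_nhds hin.1 hin.2)
      filter_upwards [self_mem_nhdsWithin, mem_nhdsWithin_of_mem_nhds h3] with q h4 h5
      exact ⟨h4.1, h5.2⟩
    exact (hc.comp contDiff_snd).contDiffWithinAt.mul (h1.mono_of_mem_nhdsWithin h2)
  · have h1 : p.2 ∉ Icc a' b' := fun h2 => hin ⟨ha.trans_le h2.1, h2.2.trans_lt hb⟩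
    have h3 : (univ : Set ℝ) ×ˢ (Icc a' b')ᶜ ∈ 𝓝 p :=
      prod_mem_nhds univ_mem (isClosed_Icc.isOpen_compl.mem_nhds h1)
    have h4 : (fun p : ℝ × ℝ => c p.2 * f p.1 p.2) =ᶠ[𝓝 p] fun _ => 0 := by
      filter_upwards [h3] with q hq
      rw [h q.2 hq.2, zero_mul]
    exact (contDiffAt_const.congr_of_eventuallyEq h4).contDiffWithinAt

lemma contDiff_cutoff {a a' b' b : ℝ} {h c : ℝ → ℝ} (hh : ContDiffOn ℝ (⊤ : ℕ∞) h (Icc a b))
    (hc : ContDiff ℝ (⊤ : ℕ∞) c) (ha : a < a') (hb : b' < b)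
    (h₀ : ∀ t, t ∉ Icc a' b' → c t = 0) : ContDiff ℝ (⊤ : ℕ∞) fun t => c t * h t := by
  refine contDiff_iff_contDiffAt.mpr fun t => ?_
  by_cases hin : t ∈ Ioo a b
  · exact hc.contDiffAt.mul (hh.contDiffAt (Icc_mem_nhds hin.1 hin.2))
  · have h1 : t ∉ Icc a' b' := fun h2 => hin ⟨ha.trans_le h2.1, h2.2.trans_lt hb⟩
    have h4 : (fun t => c t * h t) =ᶠ[𝓝 t] fun _ => 0 := by
      filter_upwards [isClosed_Icc.isOpen_compl.mem_nhds h1] with q hq
      rw [h₀ q hq, zero_mul]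
    exact contDiffAt_const.congr_of_eventuallyEq h4

lemma CtOn.continuousOn_integral (hL : 0 ≤ L) {t₀ t₁ : ℝ} (hf : CtOn L (Icc t₀ t₁) f) :
    ContinuousOn (fun t => ∫ x in (0 : ℝ)..L, f x t) (Icc t₀ t₁) := by
  rcases lt_or_ge t₁ t₀ with h | h
  · rw [Icc_eq_empty_of_lt h]
    exact continuousOn_empty _
  have h1 : Continuous fun p : ℝ × ℝ => f (max 0 (min p.2 L)) (max t₀ (min p.1 t₁)) :=
    ContinuousOn.comp_continuous (g := fun p : ℝ × ℝ => f p.1 p.2)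
      (f := fun p : ℝ × ℝ => (max 0 (min p.2 L), max t₀ (min p.1 t₁))) hf (by fun_prop)
      fun p => ⟨⟨le_max_left _ _, max_le hL (min_le_right _ _)⟩,
        ⟨le_max_left _ _, max_le h (min_le_right _ _)⟩⟩
  have h2 := intervalIntegral.continuous_parametric_intervalIntegral_of_continuous' (μ := volume)
    (f := fun t x : ℝ => f (max 0 (min x L)) (max t₀ (min t t₁))) h1 0 L
  refine h2.continuousOn.congr fun t ht => intervalIntegral.integral_congr fun x hx => ?_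
  rw [uIcc_of_le hL] at hx
  show f x t = f (max 0 (min x L)) (max t₀ (min t t₁))
  rw [min_eq_left hx.2, max_eq_right hx.1, min_eq_left ht.2, max_eq_right ht.1]

lemma hasDerivAt_integral_x (hL : 0 ≤ L) {t₀ t₁ : ℝ} {ft : ℝ → ℝ → ℝ} (hf : CtOn L (Icc t₀ t₁) f)
    (hft : CtOn L (Icc t₀ t₁) ft)
    (h : ∀ x ∈ Ioo 0 L, ∀ t ∈ Ioo t₀ t₁, HasDerivAt (fun τ => f x τ) (ft x t) t) {t : ℝ}
    (ht : t ∈ Ioo t₀ t₁) :
    HasDerivAt (fun τ => ∫ x in (0 : ℝ)..L, f x τ) (∫ x in (0 : ℝ)..L, ft x t) t := by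
  obtain ⟨K, -, hK⟩ := hft.bdd
  have hn : Ioo t₀ t₁ ∈ 𝓝 t := Ioo_mem_nhds ht.1 ht.2
  have hsub : uIoc (0 : ℝ) L ⊆ Icc 0 L := by
    rw [uIoc_of_le hL]
    exact Ioc_subset_Icc_self
  refine (intervalIntegral.hasDerivAt_integral_of_dominated_loc_of_deriv_le (μ := volume)
    (F := fun τ x => f x τ) (F' := fun τ x => ft x τ) (bound := fun _ => K) hn ?_ ?_ ?_ ?_ ?_ ?_).2
  · filter_upwards [hn] with τ hτ
    exact ((hf.slice_x (Ioo_subset_Icc_self hτ)).mono hsub).aestronglyMeasurable measurableSet_uIoc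
  · exact (hf.slice_x (Ioo_subset_Icc_self ht)).intervalIntegrable_of_Icc hL
  · exact ((hft.slice_x (Ioo_subset_Icc_self ht)).mono hsub).aestronglyMeasurable
      measurableSet_uIoc
  · exact Eventually.of_forall fun x hx τ hτ => hK x (hsub hx) τ (Ioo_subset_Icc_self hτ)
  · exact intervalIntegrable_const
  · have h1 : ∀ᵐ x : ℝ, x ≠ L := by
      simp [ae_iff]
    filter_upwards [h1] with x hx hx' τ hτ
    rw [uIoc_of_le hL] at hx'
    exact h x ⟨hx'.1, lt_of_le_of_ne hx'.2 hx⟩ τ hτ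

lemma CtOn.integral_swap (hL : 0 ≤ L) {t₀ t₁ : ℝ} (ht : t₀ ≤ t₁) (hf : CtOn L (Icc t₀ t₁) f) :
    ∫ t in t₀..t₁, ∫ x in (0 : ℝ)..L, f x t = ∫ x in (0 : ℝ)..L, ∫ t in t₀..t₁, f x t := by
  refine intervalIntegral_intervalIntegral_swap (F := fun t x => f x t) ?_
  have h1 : ContinuousOn (Function.uncurry fun t x => f x t) (Icc t₀ t₁ ×ˢ Icc 0 L) :=
    ContinuousOn.comp (g := fun p : ℝ × ℝ => f p.1 p.2) (f := Prod.swap) hf
      continuous_swap.continuousOn fun p hp => ⟨hp.2, hp.1⟩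
  refine (h1.integrableOn_compact (isCompact_Icc.prod isCompact_Icc)).mono_set ?_
  rw [uIoc_of_le hL, uIoc_of_le ht]
  exact prod_mono Ioc_subset_Icc_self Ioc_subset_Icc_self

lemma eq_zero_of_deriv_le {t₀ t₁ C : ℝ} {E : ℝ → ℝ} (hc : ContinuousOn E (Icc t₀ t₁))
    (h0 : E t₀ = 0) (hn : ∀ t ∈ Icc t₀ t₁, 0 ≤ E t)
    (hd : ∀ t ∈ Ioo t₀ t₁, ∃ e, HasDerivAt E e t ∧ e ≤ C * E t) : ∀ t ∈ Icc t₀ t₁, E t = 0 := by
  have hder : ∀ t ∈ Ioo t₀ t₁, ∃ e, HasDerivAt (fun t => Real.exp (-C * t) * E t) e t ∧ e ≤ 0 := by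
    intro t ht
    obtain ⟨e, he1, he2⟩ := hd t ht
    have h1 : HasDerivAt (fun t => Real.exp (-C * t)) (Real.exp (-C * t) * (-C * 1)) t :=
      ((hasDerivAt_id t).const_mul (-C)).exp
    refine ⟨_, h1.mul he1, ?_⟩
    have h2 := Real.exp_pos (-C * t)
    nlinarith
  have hanti : AntitoneOn (fun t => Real.exp (-C * t) * E t) (Icc t₀ t₁) := by
    refine antitoneOn_of_deriv_nonpos (convex_Icc _ _) (ContinuousOn.mul (by fun_prop) hc) ?_ ?_
    · intro t ht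
      rw [interior_Icc] at ht
      obtain ⟨e, he, -⟩ := hder t ht
      exact he.differentiableAt.differentiableWithinAt
    · intro t ht
      rw [interior_Icc] at ht
      obtain ⟨e, he, he'⟩ := hder t ht
      rwa [he.deriv]
  intro t ht
  have h1 := hanti ⟨le_rfl, ht.1.trans ht.2⟩ ht ht.1
  simp only [h0, mul_zero] at h1
  have h2 := Real.exp_pos (-C * t)
  have h3 := hn t ht
  nlinarith

/-- Integrating factor. -/
lemma abs_le_of_linear_ode {d c r : ℝ → ℝ} (hd : ContinuousOn d (Icc 0 L))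
    (hc : ContinuousOn c (Icc 0 L)) (hr : ContinuousOn r (Icc 0 L))
    (h : ∀ x ∈ Ioo 0 L, HasDerivAt d (-c x * d x + r x) x) {x x' : ℝ} (hx : x ∈ Icc 0 L)
    (hx' : x' ∈ Icc 0 L) :
    |d x| ≤ Real.exp (2 * ∫ y in (0 : ℝ)..L, |c y|) * (|d x'| + ∫ y in (0 : ℝ)..L, |r y|) := by
  have hL : 0 ≤ L := hx.1.trans hx.2
  obtain ⟨c', hc', hcc⟩ := exists_ext_Icc hL hc
  obtain ⟨r', hr', hrr⟩ := exists_ext_Icc hL hr
  have e1 : ∫ y in (0 : ℝ)..L, |c y| = ∫ y in (0 : ℝ)..L, |c' y| :=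
    intervalIntegral.integral_congr fun y hy => by
      rw [uIcc_of_le hL] at hy
      show |c y| = |c' y|
      rw [hcc y hy]
  have e2 : ∫ y in (0 : ℝ)..L, |r y| = ∫ y in (0 : ℝ)..L, |r' y| :=
    intervalIntegral.integral_congr fun y hy => by
      rw [uIcc_of_le hL] at hy
      show |r y| = |r' y|
      rw [hrr y hy]
  rw [e1, e2]
  have hgen : ∀ {k : ℝ → ℝ}, Continuous k → ∀ u ∈ Icc 0 L, ∀ v ∈ Icc 0 L,
      |∫ y in u..v, k y| ≤ ∫ y in (0 : ℝ)..L, |k y| := by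
    intro k hk u hu v hv
    have h1 := intervalIntegral.norm_integral_le_abs_integral_norm (f := k) (a := u) (b := v)
      (μ := volume)
    simp only [Real.norm_eq_abs] at h1
    refine h1.trans ((intervalIntegral.abs_integral_mono_interval (c := 0) (d := L) ?_
      (Eventually.of_forall fun y => abs_nonneg _) (hk.abs.intervalIntegrable _ _)).trans ?_)
    · rw [uIoc_of_le hL]
      exact Ioc_subset_Ioc (le_min hu.1 hv.1) (max_le hu.2 hv.2)
    · rw [abs_of_nonneg (intervalIntegral.integral_nonneg hL fun y _ => abs_nonneg _)]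
  set A := ∫ y in (0 : ℝ)..L, |c' y| with hA
  set Cf : ℝ → ℝ := fun y => ∫ z in (0 : ℝ)..y, c' z with hCf
  have hCd : ∀ y, HasDerivAt Cf (c' y) y := fun y => hasDerivAt_prim hc' 0 y
  have hCc : Continuous Cf := continuous_iff_continuousAt.mpr fun y => (hCd y).continuousAt
  have hCb : ∀ y ∈ Icc 0 L, |Cf y| ≤ A := fun y hy => hgen hc' 0 ⟨le_rfl, hL⟩ y hy
  have hk : Continuous fun y => Real.exp (Cf y) * r' y := by fun_prop
  have hg : ∀ y ∈ Icc 0 L, Real.exp (Cf y) * d y = Real.exp (Cf 0) * d 0 +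
      ∫ z in (0 : ℝ)..y, Real.exp (Cf z) * r' z := fun y hy =>
    eq_add_integral_of_Ioo (q := fun y => Real.exp (Cf y) * d y)
      (ContinuousOn.mul (by fun_prop) hd) hk (fun z hz => by
        have h1 := (hCd z).exp.mul (h z hz)
        rw [← hcc z (Ioo_subset_Icc_self hz), ← hrr z (Ioo_subset_Icc_self hz)] at h1
        refine h1.congr_deriv ?_
        ring) hy
  have h2 : Real.exp (Cf x) * d x = Real.exp (Cf x') * d x' +
      ∫ z in x'..x, Real.exp (Cf z) * r' z := by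
    rw [hg x hx, hg x' hx', ← intervalIntegral.integral_interval_sub_left
      (hk.intervalIntegrable 0 x) (hk.intervalIntegrable 0 x')]
    ring
  have h3 : ∫ y in (0 : ℝ)..L, |Real.exp (Cf y) * r' y| ≤
      Real.exp A * ∫ y in (0 : ℝ)..L, |r' y| := by
    rw [← intervalIntegral.integral_const_mul]
    refine intervalIntegral.integral_mono_on hL (hk.abs.intervalIntegrable _ _)
      ((hr'.abs.const_mul _).intervalIntegrable _ _) fun y hy => ?_
    rw [abs_mul, abs_of_pos (Real.exp_pos _)]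
    exact mul_le_mul_of_nonneg_right (Real.exp_le_exp.mpr (le_of_abs_le (hCb y hy))) (abs_nonneg _)
  have h4 : Real.exp (Cf x) * |d x| ≤ Real.exp A * (|d x'| + ∫ y in (0 : ℝ)..L, |r' y|) := by
    have h5 : Real.exp (Cf x) * |d x| = |Real.exp (Cf x) * d x| := by
      rw [abs_mul, abs_of_pos (Real.exp_pos _)]
    rw [h5, h2, mul_add]
    refine (abs_add_le _ _).trans (add_le_add ?_ ((hgen hk x' hx' x hx).trans h3))
    rw [abs_mul, abs_of_pos (Real.exp_pos _)]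
    exact mul_le_mul_of_nonneg_right (Real.exp_le_exp.mpr (le_of_abs_le (hCb x' hx')))
      (abs_nonneg _)
  have h6 : 1 ≤ Real.exp A * Real.exp (Cf x) := by
    rw [← Real.exp_add]
    have := neg_le_of_abs_le (hCb x hx)
    exact Real.one_le_exp (by linarith)
  calc |d x| ≤ Real.exp A * Real.exp (Cf x) * |d x| := le_mul_of_one_le_left (abs_nonneg _) h6
    _ = Real.exp A * (Real.exp (Cf x) * |d x|) := by ring
    _ ≤ Real.exp A * (Real.exp A * (|d x'| + ∫ y in (0 : ℝ)..L, |r' y|)) :=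
        mul_le_mul_of_nonneg_left h4 (Real.exp_pos _).le
    _ = _ := by rw [two_mul, Real.exp_add, mul_assoc]

end Pool.Agent.Lib.MP_14aec4_an.W
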