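import Mathlib

/-!
Definitions for the KdV initial-boundary value problem on `(0, L)`:
Sobolev norms of negative order on an interval, the four boundary operators, smooth solutions,
solutions as limits of smooth solutions, and local well-posedness.

A distribution is recorded as a map from Schwartz test functions to complex numbers; only its values
on the test functions supported in a given window matter.
-/

noncomputable section

open MeasureTheory Set Filter Topology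
open scoped ENNReal

namespace Pool.Agent.Lib.MP_14aec4_an

/-- The `H^σ` norm of `f` seen through the window `W`: the infimum of the `H^σ(ℝ)` norms
`‖(1 + ξ²)^{σ/2} 𝓕 F‖_{L²}` of the tempered distributions `F` that agree with `f` on all test
functions supported in `W` (it is `⊤` if there is none). For `W = (0, a)` this is the quotient norm
of `H^σ(0, a)`, the space of restrictions to `(0, a)` of elements of `H^σ(ℝ)`; for `W = ℝ` it is the
`H^σ(ℝ)` norm of `f` itself. -/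
def hNorm (σ : ℝ) (W : Set ℝ) (f : SchwartzMap ℝ ℂ → ℂ) : ℝ≥0∞ :=
  ⨅ (F : TemperedDistribution ℝ ℂ) (g : Lp ℂ 2 (volume : Measure ℝ))
    (_ : TemperedDistribution.besselPotential ℝ ℂ σ F = Lp.toTemperedDistribution g)
    (_ : ∀ ψ : SchwartzMap ℝ ℂ, tsupport ψ ⊆ W → F ψ = f ψ), ‖g‖ₑ

/-- Seen through the window `W`, `f` is real and vanishes off `[0, a]`. -/
def RealOn (W : Set ℝ) (a : ℝ) (f : SchwartzMap ℝ ℂ → ℂ) : Prop :=
  ∀ ψ : SchwartzMap ℝ ℂ, tsupport ψ ⊆ W →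
    ((∀ x, (ψ x).im = 0) → (f ψ).im = 0) ∧ (Disjoint (tsupport ψ) (Icc 0 a) → f ψ = 0)

/-- The function `g` on `(0, a)` (extended by zero) as a distribution. -/
def ofFun (a : ℝ) (g : ℝ → ℝ) : SchwartzMap ℝ ℂ → ℂ := fun ψ => ∫ x in Ioo 0 a, ψ x * (g x : ℂ)

/-- The boundary operators: `bdry L a b k u i t` is component `i + 1` of `B_{k+1} u` at time `t`;
`u x t` is `u(x, t)` and `D j y` is the trace `∂_x^j u(y, t)`, one-sided at the ends of `[0, L]`. -/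
def bdry (L : ℝ) (a b : ℕ → ℕ → ℝ) (k : Fin 4) (u : ℝ → ℝ → ℝ) (i : Fin 3) (t : ℝ) : ℝ :=
  let D : ℕ → ℝ → ℝ := fun j y => iteratedDerivWithin j (fun x => u x t) (Icc 0 L) y
  ![![D 0 0, D 0 L, D 1 L],
    ![D 0 0, D 1 L + b 3 0 * D 0 L, D 2 L + a 2 1 * D 1 0 + b 2 0 * D 0 L],
    ![D 2 0 + a 1 0 * D 0 0 + a 1 1 * D 1 0, D 0 L, D 1 L + a 3 0 * D 0 0],
    ![D 2 0 + a 1 0 * D 0 0 + a 1 1 * D 1 0 + b 1 0 * D 0 L,
      D 1 L + a 3 0 * D 0 0 + b 3 0 * D 0 L,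
      D 2 L + a 2 0 * D 0 0 + a 2 1 * D 1 0 + b 2 0 * D 0 L]] k i

/-- The norm of the data space `H^s(0,L) × ∏ H^{(s+1-j)/3}(0,T)`, where `j` is the order of the
leading term of the boundary component; `W` is the window in space and `V ∩ (-∞, T)` the window in
time. -/
def dataNorm (W V : Set ℝ) (s T : ℝ) (k : Fin 4)
    (d : (SchwartzMap ℝ ℂ → ℂ) × (Fin 3 → SchwartzMap ℝ ℂ → ℂ)) : ℝ≥0∞ :=
  hNorm s W d.1 + ∑ i, hNorm
    ((s + 1 - (![![0, 0, 1], ![0, 1, 2], ![2, 0, 1], ![2, 1, 2]] k i : ℝ)) / 3) (V ∩ Iio T) (d.2 i)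

/-- The data space: real data of finite norm. -/
def IsData (W V : Set ℝ) (s L T : ℝ) (k : Fin 4)
    (d : (SchwartzMap ℝ ℂ → ℂ) × (Fin 3 → SchwartzMap ℝ ℂ → ℂ)) : Prop :=
  dataNorm W V s T k d < ⊤ ∧ RealOn W L d.1 ∧ ∀ i, RealOn (V ∩ Iio T) T (d.2 i)

/-- `u` is smooth on `[0,L] × [0,T]` and solves `u_t + u_x + u_xxx + u u_x = 0` inside. -/
def IsSmoothSol (L T : ℝ) (u : ℝ → ℝ → ℝ) : Prop :=
  ContDiffOn ℝ (⊤ : ℕ∞) (fun p : ℝ × ℝ => u p.1 p.2) (Icc 0 L ×ˢ Icc 0 T) ∧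
  ∀ x ∈ Ioo 0 L, ∀ t ∈ Ioo 0 T,
    deriv (fun τ => u x τ) t + deriv (fun y => u y t) x + iteratedDeriv 3 (fun y => u y t) x
      + u x t * deriv (fun y => u y t) x = 0

/-- The norm of `C([0,T]; H^s(0,L))`. -/
def solNorm (s L T : ℝ) (U : ℝ → SchwartzMap ℝ ℂ → ℂ) : ℝ≥0∞ :=
  ⨆ t ∈ Icc 0 T, hNorm s (Ioo 0 L) (U t)

/-- `U ∈ C([0,T]; H^s(0,L))`. -/
def IsCurve (s L T : ℝ) (U : ℝ → SchwartzMap ℝ ℂ → ℂ) : Prop :=
  ∀ t ∈ Icc 0 T, hNorm s (Ioo 0 L) (U t) < ⊤ ∧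
    Tendsto (fun τ => hNorm s (Ioo 0 L) (U τ - U t)) (𝓝[Icc 0 T] t) (𝓝 0)

/-- `U ∈ C([0,T]; H^s(0,L))` is a solution with data `d`: it is the limit in
`C([0,T]; H^s(0,L))` of smooth solutions `u n` whose data `(u n (·,0), B_{k+1} (u n))` converge
to `d`. -/
def IsSol (W V : Set ℝ) (s L T : ℝ) (a b : ℕ → ℕ → ℝ) (k : Fin 4)
    (d : (SchwartzMap ℝ ℂ → ℂ) × (Fin 3 → SchwartzMap ℝ ℂ → ℂ))
    (U : ℝ → SchwartzMap ℝ ℂ → ℂ) : Prop :=
  IsCurve s L T U ∧ ∃ u : ℕ → ℝ → ℝ → ℝ, (∀ n, IsSmoothSol L T (u n)) ∧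
    Tendsto (fun n => dataNorm W V s T k
      ((ofFun L (fun x => u n x 0), fun i => ofFun T (bdry L a b k (u n) i)) - d)) atTop (𝓝 0) ∧
    Tendsto (fun n => solNorm s L T ((fun t => ofFun L (fun x => u n x t)) - U)) atTop (𝓝 0)

/-- The uniqueness-and-continuity part of local well-posedness in `H^s(0,L)`, boundary data being
given on `(0,T)`: for all data `d` there are `T' ∈ (0,T]` and `U ∈ C([0,T']; H^s(0,L))` such that
every solution on `[0,T']` whose data are close to `d` is close to `U` in `C([0,T']; H^s(0,L))`.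
Local well-posedness implies this, with `U` the solution with data `d`. -/
def StableAtAllData (W V : Set ℝ) (s L T : ℝ) (a b : ℕ → ℕ → ℝ) (k : Fin 4) : Prop :=
  ∀ d, IsData W V s L T k d → ∃ T' ∈ Ioc 0 T, ∃ U, IsCurve s L T' U ∧
    ∀ ε > 0, ∃ δ > 0, ∀ e, IsData W V s L T k e → dataNorm W V s T k (e - d) < δ →
      ∀ U', IsSol W V s L T' a b k e U' → solNorm s L T' (U' - U) < ε

end Pool.Agent.Lib.MP_14aec4_an
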