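import Pool.Agent.Lib.MP_14aec4_an.Mult
import Pool.Agent.Lib.MP_14aec4_an.Calc

/-!
The energy estimate for the damped linear equation.
-/

noncomputable section

open MeasureTheory Set Filter Topology FourierTransform
open scoped ENNReal ComplexConjugate

namespace Pool.Agent.Lib.MP_14aec4_an.W

lemma energy_mono {L : ℝ} {I J : Set ℝ} {f : ℝ → ℝ → ℝ} (hf : CtOn L I f) (h : J ⊆ I) :
    CtOn L J f := ContinuousOn.mono hf (prod_mono_right h)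

lemma energy_mul {L : ℝ} {I : Set ℝ} {f g : ℝ → ℝ → ℝ} (hf : CtOn L I f) (hg : CtOn L I g) :
    CtOn L I fun x t => f x t * g x t := ContinuousOn.mul hf hg

lemma energy_space {L γ ξ : ℝ} (hL : 0 < L) (hγ : 0 < γ) {y₀ y₁ y₂ yt F q : ℝ → ℝ}
    (c₀ : ContinuousOn y₀ (Icc 0 L)) (c₁ : ContinuousOn y₁ (Icc 0 L))
    (c₂ : ContinuousOn y₂ (Icc 0 L)) (ct : ContinuousOn yt (Icc 0 L))
    (cF : ContinuousOn F (Icc 0 L)) (cq : ContinuousOn q (Icc 0 L))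
    (d₀ : ∀ x ∈ Ioo 0 L, HasDerivAt y₀ (y₁ x) x) (d₁ : ∀ x ∈ Ioo 0 L, HasDerivAt y₁ (y₂ x) x)
    (d₂ : ∀ x ∈ Ioo 0 L, HasDerivAt y₂ (ξ * q x + F x - γ * y₀ x - yt x) x) :
    ∫ x in (0 : ℝ)..L, 2 * (y₀ x * yt x) ≤ 2 * (|ξ| * (nL L y₀ * nL L q)) +
      2 * (∫ x in (0 : ℝ)..L, y₀ x * F x) - 2 * (y₀ L * y₂ L) + y₁ L ^ 2 + 2 * (y₀ 0 * y₂ 0) := by
  have ii : ∀ {g : ℝ → ℝ}, ContinuousOn g (Icc 0 L) → IntervalIntegrable g volume 0 L :=
    fun hg => hg.intervalIntegrable_of_Icc hL.le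
  have c3 : ContinuousOn (fun x => 2 * (y₀ x * (ξ * q x + F x - γ * y₀ x - yt x))) (Icc 0 L) := by
    fun_prop
  have h1 : ∫ x in (0 : ℝ)..L, 2 * (y₀ x * (ξ * q x + F x - γ * y₀ x - yt x)) =
      (2 * (y₀ L * y₂ L) - y₁ L ^ 2) - (2 * (y₀ 0 * y₂ 0) - y₁ 0 ^ 2) := by
    refine intervalIntegral.integral_eq_sub_of_hasDerivAt_of_le
      (f := fun x => 2 * (y₀ x * y₂ x) - y₁ x ^ 2) hL.le (by fun_prop) (fun x hx => ?_) (ii c3)
    refine ((((d₀ x hx).mul (d₂ x hx)).const_mul 2).sub ((d₁ x hx).pow 2)).congr_deriv ?_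
    simp only [Nat.cast_ofNat, Nat.add_one_sub_one, pow_one]
    ring
  have c4 : ContinuousOn (fun x => |ξ| * |y₀ x * q x|) (Icc 0 L) := by fun_prop
  have c5 : ContinuousOn (fun x => y₀ x * F x) (Icc 0 L) := by fun_prop
  have h2 : ∫ x in (0 : ℝ)..L, 2 * (y₀ x * yt x) ≤
      ∫ x in (0 : ℝ)..L, (2 * (|ξ| * |y₀ x * q x|) + 2 * (y₀ x * F x) -
        2 * (y₀ x * (ξ * q x + F x - γ * y₀ x - yt x))) := by
    refine intervalIntegral.integral_mono_on hL.le (ii (by fun_prop)) (ii (by fun_prop))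
      fun x _ => ?_
    have h3 : ξ * (y₀ x * q x) ≤ |ξ| * |y₀ x * q x| := by
      rw [← abs_mul]
      exact le_abs_self _
    have h4 : 0 ≤ γ * y₀ x ^ 2 := by positivity
    nlinarith
  rw [intervalIntegral.integral_sub (((ii c4).const_mul 2).add ((ii c5).const_mul 2)) (ii c3),
    intervalIntegral.integral_add ((ii c4).const_mul 2) ((ii c5).const_mul 2), h1,
    intervalIntegral.integral_const_mul 2 (fun x => |ξ| * |y₀ x * q x|),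
    intervalIntegral.integral_const_mul 2 (fun x => y₀ x * F x),
    intervalIntegral.integral_const_mul |ξ|] at h2
  have h5 := mul_le_mul_of_nonneg_left (integral_abs_mul_le hL.le c₀ cq) (abs_nonneg ξ)
  nlinarith [sq_nonneg (y₁ 0)]

/-- For `t ∈ [t₂, t₃]`:
`‖Y₀(t)‖² ≤ 2 ∫∫ Y₀ (X q + F) - ∫ [2 Y₀ Y₂ - Y₁²]`; bound `∫ Y₀ F dt`, `∫ Y₀ Y₂ dt` by `pair`,
`∫ Y₁² dt` by `planch_tl`, and `∫∫ Y₀ X q ≤ S ξ ‖q‖` with `S` the maximum of `‖Y₀(t)‖`. -/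
theorem energy {L γ t₂ t₃ n f ξ : ℝ} (hL : 0 < L) (hγ : 0 < γ) (ht : t₂ ≤ t₃) (hn : 0 ≤ n)
    (hf : 0 ≤ f) {Y₀ Y₁ Y₂ Yt F : ℝ → ℝ → ℝ} {X q : ℝ → ℝ}
    (c₀ : CtOn L (Icc t₂ t₃) Y₀) (c₁ : CtOn L (Icc t₂ t₃) Y₁) (c₂ : CtOn L (Icc t₂ t₃) Y₂)
    (ct : CtOn L (Icc t₂ t₃) Yt) (cF : CtOn L (Icc t₂ t₃) F) (cX : ContinuousOn X (Icc t₂ t₃))
    (cq : ContinuousOn q (Icc 0 L))
    (d₀ : ∀ x ∈ Ioo 0 L, ∀ t ∈ Ioo t₂ t₃, HasDerivAt (fun y => Y₀ y t) (Y₁ x t) x)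
    (d₁ : ∀ x ∈ Ioo 0 L, ∀ t ∈ Ioo t₂ t₃, HasDerivAt (fun y => Y₁ y t) (Y₂ x t) x)
    (d₂ : ∀ x ∈ Ioo 0 L, ∀ t ∈ Ioo t₂ t₃,
      HasDerivAt (fun y => Y₂ y t) (X t * q x + F x t - γ * Y₀ x t - Yt x t) x)
    (dt : ∀ x ∈ Ioo 0 L, ∀ t ∈ Ioo t₂ t₃, HasDerivAt (fun τ => Y₀ x τ) (Yt x t) t)
    (h₀ : ∀ x ∈ Icc 0 L, Y₀ x t₂ = 0)
    (hs : ∀ x ∈ Icc 0 L, ∃ A₀ A₁ A₂ B : ℝ → ℂ, RD A₀ ∧ RD A₁ ∧ RD A₂ ∧ RD B ∧
      Bd γ w1 (1 / 3) A₀ n ∧ Bd γ w1 0 A₁ n ∧ Bd γ w1 (-1 / 3) A₂ n ∧ Bd γ w1 (-1 / 3) B f ∧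
      ∀ t ∈ Icc t₂ t₃,
        tl 0 A₀ t = Y₀ x t ∧ tl 0 A₁ t = Y₁ x t ∧ tl 0 A₂ t = Y₂ x t ∧ tl 0 B t = F x t)
    (hX : ∫ t in t₂..t₃, |X t| ≤ ξ) :
    ∀ t ∈ Icc t₂ t₃, nL L (fun x => Y₀ x t) ≤ 2 * ξ * nL L q + 20 * (1 + L) * (n + f) := by
  have hξ : 0 ≤ ξ := (intervalIntegral.integral_nonneg ht fun _ _ => abs_nonneg _).trans hX
  have hL0 : (0 : ℝ) ∈ Icc 0 L := ⟨le_rfl, hL.le⟩
  have hLL : L ∈ Icc 0 L := ⟨hL.le, le_rfl⟩
  have c00 : CtOn L (Icc t₂ t₃) fun x t => Y₀ x t ^ 2 := ContinuousOn.pow c₀ 2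
  have c0t : CtOn L (Icc t₂ t₃) fun x t => 2 * (Y₀ x t * Yt x t) :=
    ContinuousOn.mul continuousOn_const (energy_mul c₀ ct)
  have cE := c00.continuousOn_integral hL.le
  obtain ⟨s, hs', hmax⟩ := isCompact_Icc.exists_isMaxOn (nonempty_Icc.2 ht) cE
  have hS : ∀ t ∈ Icc t₂ t₃, nL L (fun x => Y₀ x t) ≤ nL L (fun x => Y₀ x s) :=
    fun t ht => Real.sqrt_le_sqrt (hmax ht)
  have hsub : Icc t₂ s ⊆ Icc t₂ t₃ := Icc_subset_Icc_right hs'.2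
  have hsub' : Ioo t₂ s ⊆ Ioo t₂ t₃ := Ioo_subset_Ioo_right hs'.2
  have ii : ∀ {g : ℝ → ℝ}, ContinuousOn g (Icc t₂ t₃) → IntervalIntegrable g volume t₂ s :=
    fun hg => (hg.mono hsub).intervalIntegrable_of_Icc hs'.1
  have hftc : ∫ t in t₂..s, ∫ x in (0 : ℝ)..L, 2 * (Y₀ x t * Yt x t) =
      (∫ x in (0 : ℝ)..L, Y₀ x s ^ 2) - ∫ x in (0 : ℝ)..L, Y₀ x t₂ ^ 2 := by
    refine intervalIntegral.integral_eq_sub_of_hasDerivAt_of_le
      (f := fun t => ∫ x in (0 : ℝ)..L, Y₀ x t ^ 2) hs'.1 (cE.mono hsub) (fun t ht => ?_)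
      (ii (c0t.continuousOn_integral hL.le))
    refine hasDerivAt_integral_x hL.le c00 c0t (fun x hx t ht => ?_) (hsub' ht)
    refine ((dt x hx t ht).pow 2).congr_deriv ?_
    simp only [Nat.cast_ofNat, Nat.add_one_sub_one, pow_one]
    ring
  have hzero : ∫ x in (0 : ℝ)..L, Y₀ x t₂ ^ 2 = 0 := by
    rw [intervalIntegral.integral_congr (g := fun _ => 0), intervalIntegral.integral_zero]
    intro x hx
    rw [uIcc_of_le hL.le] at hx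
    simp only [h₀ x hx, ne_eq, OfNat.ofNat_ne_zero, not_false_eq_true, zero_pow]
  rw [hzero, sub_zero, ← nL_sq hL.le] at hftc
  have hS0 := nL_nonneg L (fun x => Y₀ x s)
  generalize nL L (fun x => Y₀ x s) = S at hS hftc hS0
  have hQ := nL_nonneg L q
  have i1 : IntervalIntegrable (fun t => |X t|) volume t₂ s := ii cX.abs
  have i2 : IntervalIntegrable (fun t => ∫ x in (0 : ℝ)..L, Y₀ x t * F x t) volume t₂ s :=
    ii ((energy_mul c₀ cF).continuousOn_integral hL.le)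
  have i3 : ∀ x ∈ Icc 0 L, IntervalIntegrable (fun t => Y₀ x t * Y₂ x t) volume t₂ s :=
    fun x hx => ii ((energy_mul c₀ c₂).slice_t hx)
  have i4 : IntervalIntegrable (fun t => Y₁ L t ^ 2) volume t₂ s := ii ((c₁.slice_t hLL).pow 2)
  have j1 := (i1.mul_const (S * nL L q)).const_mul 2
  have j2 := i2.const_mul 2
  have j3 := (i3 L hLL).const_mul 2
  have j5 := (i3 0 hL0).const_mul 2
  have hmono : ∫ t in t₂..s, ∫ x in (0 : ℝ)..L, 2 * (Y₀ x t * Yt x t) ≤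
      ∫ t in t₂..s, (2 * (|X t| * (S * nL L q)) + 2 * (∫ x in (0 : ℝ)..L, Y₀ x t * F x t) -
        2 * (Y₀ L t * Y₂ L t) + Y₁ L t ^ 2 + 2 * (Y₀ 0 t * Y₂ 0 t)) := by
    refine intervalIntegral.integral_mono_on_of_le_Ioo hs'.1
      (ii (c0t.continuousOn_integral hL.le)) ((((j1.add j2).sub j3).add i4).add j5)
      fun t ht => ?_
    have ht' := hsub' ht
    have ht'' := Ioo_subset_Icc_self ht'
    have h1 := energy_space hL hγ (c₀.slice_x ht'') (c₁.slice_x ht'') (c₂.slice_x ht'')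
      (ct.slice_x ht'') (cF.slice_x ht'') cq (fun x hx => d₀ x hx t ht')
      (fun x hx => d₁ x hx t ht') (fun x hx => d₂ x hx t ht')
    have h2 := mul_le_mul_of_nonneg_left (mul_le_mul_of_nonneg_right (hS t ht'') hQ)
      (abs_nonneg (X t))
    linarith
  rw [hftc, intervalIntegral.integral_add (((j1.add j2).sub j3).add i4) j5,
    intervalIntegral.integral_add ((j1.add j2).sub j3) i4,
    intervalIntegral.integral_sub (j1.add j2) j3, intervalIntegral.integral_add j1 j2,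
    intervalIntegral.integral_const_mul, intervalIntegral.integral_const_mul,
    intervalIntegral.integral_const_mul, intervalIntegral.integral_const_mul,
    intervalIntegral.integral_mul_const,
    (energy_mono (energy_mul c₀ cF) hsub).integral_swap hL.le hs'.1] at hmono
  have key : ∀ x ∈ Icc 0 L, |∫ t in t₂..s, Y₀ x t * F x t| ≤ 50 * n * f ∧
      |∫ t in t₂..s, Y₀ x t * Y₂ x t| ≤ 50 * n * n ∧ ∫ t in t₂..s, Y₁ x t ^ 2 ≤ n ^ 2 := by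
    intro x hx
    obtain ⟨A₀, A₁, A₂, B, r₀, r₁, r₂, rB, b₀, b₁, b₂, bB, e⟩ := hs x hx
    have e' : ∀ t ∈ uIcc t₂ s, tl 0 A₀ t = Y₀ x t ∧ tl 0 A₁ t = Y₁ x t ∧ tl 0 A₂ t = Y₂ x t ∧
        tl 0 B t = F x t := fun t ht => e t (hsub (uIcc_of_le hs'.1 ▸ ht))
    refine ⟨?_, ?_, ?_⟩
    · rw [← intervalIntegral.integral_congr (f := fun t => tl 0 A₀ t * tl 0 B t)
        fun t ht => by simp only [(e' t ht).1, (e' t ht).2.2.2]]
      exact pair hγ r₀ rB hn hf b₀ bB hs'.1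
    · rw [← intervalIntegral.integral_congr (f := fun t => tl 0 A₀ t * tl 0 A₂ t)
        fun t ht => by simp only [(e' t ht).1, (e' t ht).2.2.1]]
      exact pair hγ r₀ r₂ hn hn b₀ b₂ hs'.1
    · rw [← intervalIntegral.integral_congr (f := fun t => tl 0 A₁ t ^ 2)
        fun t ht => by simp only [(e' t ht).2.1]]
      exact planch_tl r₁ hn b₁ hs'.1
  have k1 : ∫ t in t₂..s, |X t| ≤ ξ :=
    (intervalIntegral.integral_mono_interval le_rfl hs'.1 hs'.2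
      (Eventually.of_forall fun _ => abs_nonneg _) (cX.abs.intervalIntegrable_of_Icc ht)).trans hX
  have k2 : ∫ x in (0 : ℝ)..L, ∫ t in t₂..s, Y₀ x t * F x t ≤ 50 * n * f * L := by
    have := intervalIntegral.norm_integral_le_of_norm_le_const (a := 0) (b := L)
      (f := fun x => ∫ t in t₂..s, Y₀ x t * F x t) (C := 50 * n * f) fun x hx =>
        (key x (Ioc_subset_Icc_self (uIoc_of_le hL.le ▸ hx))).1
    rw [sub_zero, abs_of_pos hL] at this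
    exact (le_abs_self _).trans this
  have k3 := (abs_le.1 (key L hLL).2.1).1
  have k4 := (key L hLL).2.2
  have k5 := (abs_le.1 (key 0 hL0).2.1).2
  have k6 := mul_le_mul_of_nonneg_right k1 (mul_nonneg hS0 hQ)
  have hb : 100 * (n * f * L) + 201 * n ^ 2 ≤ (20 * (1 + L) * (n + f)) ^ 2 := by
    have h1 : n * f * L + n ^ 2 ≤ ((1 + L) * (n + f)) ^ 2 := by
      have h2 : n * f + n ^ 2 ≤ (n + f) ^ 2 := by nlinarith [mul_nonneg hn hf]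
      have h3 : 1 + L ≤ (1 + L) ^ 2 := by nlinarith
      have h4 := mul_le_mul h3 h2 (by positivity) (by positivity)
      rw [mul_pow]
      nlinarith [mul_nonneg hn hf, mul_nonneg (sq_nonneg n) hL.le]
    nlinarith [mul_nonneg (mul_nonneg hn hf) hL.le, sq_nonneg n]
  have hb0 : 0 ≤ 20 * (1 + L) * (n + f) := by positivity
  generalize 20 * (1 + L) * (n + f) = b at hb hb0
  have ha0 : 0 ≤ 2 * ξ * nL L q := by positivity
  have hfin : S ^ 2 ≤ S * (2 * ξ * nL L q) + b ^ 2 := by nlinarith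
  generalize 2 * ξ * nL L q = a at ha0 hfin
  intro t ht
  refine (hS t ht).trans ?_
  by_contra hlt
  rw [not_le] at hlt
  nlinarith [mul_le_mul_of_nonneg_right (by linarith : b ≤ S) hb0,
    mul_pos (by linarith : 0 < S) (by linarith : 0 < S - a - b)]

end Pool.Agent.Lib.MP_14aec4_an.W
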