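import Pool.Agent.Lib.MP_14aec4_an.Sob

/-!
Estimates for the negative Sobolev norms of zero extensions of continuous functions on `[0, a]`.
-/

noncomputable section

open MeasureTheory Set Filter Topology FourierTransform
open scoped ENNReal Real

namespace Pool.Agent.Lib.MP_14aec4_an

/-- zero extension -/
def zext (a : ℝ) (g : ℝ → ℝ) : ℝ → ℂ := (Ioo 0 a).indicator (fun x => (g x : ℂ))

/-- Fourier transform of the zero extension -/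
def FT (a : ℝ) (g : ℝ → ℝ) (ξ : ℝ) : ℂ := 𝓕 (zext a g) ξ

/-- squared `H^{-σ}` norm of the zero extension -/
def NN (σ a : ℝ) (g : ℝ → ℝ) : ℝ := ∫ ξ, (1 + ξ ^ 2) ^ (-σ) * ‖FT a g ξ‖ ^ 2

variable {a : ℝ} {g : ℝ → ℝ}

lemma zext_memLp (hg : ContinuousOn g (Icc 0 a)) (p : ℝ≥0∞) : MemLp (zext a g) p := by
  obtain ⟨C, hC⟩ := isCompact_Icc.exists_bound_of_continuousOn hg
  unfold zext
  rw [memLp_indicator_iff_restrict measurableSet_Ioo]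
  have hm : AEStronglyMeasurable (fun x => (g x : ℂ)) (volume.restrict (Ioo 0 a)) :=
    ((Complex.continuous_ofReal.comp_continuousOn hg).mono Ioo_subset_Icc_self).aestronglyMeasurable
      measurableSet_Ioo
  apply MemLp.of_bound hm C
  rw [ae_restrict_iff' measurableSet_Ioo]
  exact Eventually.of_forall fun x hx => by
    simpa using hC x (Ioo_subset_Icc_self hx)

lemma zext_integrable (hg : ContinuousOn g (Icc 0 a)) : Integrable (zext a g) :=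
  memLp_one_iff_integrable.1 (zext_memLp hg 1)

lemma ofFun_eq (ψ : SchwartzMap ℝ ℂ) : ofFun a g ψ = ∫ x, ψ x * zext a g x := by
  unfold ofFun zext
  rw [← integral_indicator measurableSet_Ioo]
  congr 1
  ext x
  by_cases hx : x ∈ Ioo 0 a <;> simp [hx]

lemma hNorm_le_NN {σ : ℝ} (hσ : 0 ≤ σ) (W : Set ℝ) (hg : ContinuousOn g (Icc 0 a))
    (f : SchwartzMap ℝ ℂ → ℂ) (hf : ∀ ψ : SchwartzMap ℝ ℂ, tsupport ψ ⊆ W → f ψ = ofFun a g ψ) :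
    hNorm (-σ) W f ≤ ENNReal.ofReal (Real.sqrt (NN σ a g)) :=
  hNorm_le_of_integrable σ hσ W _ (zext_integrable hg) (zext_memLp hg 2) f
    (fun ψ hψ => by rw [hf ψ hψ, ofFun_eq])

lemma ofFun_sub {g₁ g₂ : ℝ → ℝ} (h₁ : ContinuousOn g₁ (Icc 0 a)) (h₂ : ContinuousOn g₂ (Icc 0 a))
    (ψ : SchwartzMap ℝ ℂ) :
    ofFun a g₁ ψ - ofFun a g₂ ψ = ofFun a (fun x => g₁ x - g₂ x) ψ := by
  unfold ofFun
  have key : ∀ {g : ℝ → ℝ}, ContinuousOn g (Icc 0 a) →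
      IntegrableOn (fun x => ψ x * (g x : ℂ)) (Ioo 0 a) := fun hg =>
    ((ψ.continuous.continuousOn.mul
      (Complex.continuous_ofReal.comp_continuousOn hg)).integrableOn_Icc).mono_set
      Ioo_subset_Icc_self
  rw [← integral_sub (key h₁) (key h₂)]
  congr 1
  ext x
  push_cast; ring

lemma FT_eq (ha : 0 ≤ a) (ξ : ℝ) :
    FT a g ξ = ∫ x in (0:ℝ)..a, Complex.exp (-(2 * π * ξ * Complex.I) * x) * (g x : ℂ) := by
  unfold FT zext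
  rw [Real.fourier_real_eq_integral_exp_smul, intervalIntegral.integral_of_le ha,
    integral_Ioc_eq_integral_Ioo, ← integral_indicator measurableSet_Ioo]
  congr 1
  ext x
  by_cases hx : x ∈ Ioo 0 a
  · simp only [hx, indicator_of_mem, smul_eq_mul]
    congr 2
    push_cast; ring
  · simp [hx]

lemma FT_sq_integrable (hg : ContinuousOn g (Icc 0 a)) :
    Integrable (fun ξ => ‖FT a g ξ‖ ^ 2) := by
  have := (plancherel _ (zext_integrable hg) (zext_memLp hg 2)).1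
  exact (memLp_two_iff_integrable_sq_norm this.1).1 this

lemma FT_sq_integral (ha : 0 ≤ a) (hg : ContinuousOn g (Icc 0 a)) :
    ∫ ξ, ‖FT a g ξ‖ ^ 2 = ∫ x in (0:ℝ)..a, g x ^ 2 := by
  have := (plancherel _ (zext_integrable hg) (zext_memLp hg 2)).2
  unfold FT
  rw [this, intervalIntegral.integral_of_le ha,
    integral_Ioc_eq_integral_Ioo, ← integral_indicator measurableSet_Ioo]
  congr 1
  ext x
  by_cases hx : x ∈ Ioo 0 a <;> simp [zext, hx]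

lemma norm_cexp_aux (ξ x : ℝ) : ‖Complex.exp (-(2 * π * ξ * Complex.I) * x)‖ = 1 := by
  have : -(2 * π * ξ * Complex.I) * x = ((-(2 * π * ξ * x) : ℝ) : ℂ) * Complex.I := by
    push_cast; ring
  rw [this, Complex.norm_exp_ofReal_mul_I]

lemma FT_le_L1 (ha : 0 ≤ a) (ξ : ℝ) : ‖FT a g ξ‖ ≤ ∫ x in (0:ℝ)..a, |g x| := by
  rw [FT_eq ha]
  refine (intervalIntegral.norm_integral_le_integral_norm ha).trans (le_of_eq ?_)
  congr 1
  ext x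
  rw [norm_mul, norm_cexp_aux]; simp

lemma FT_ii (ha : 0 ≤ a) (hg : ContinuousOn g (Icc 0 a)) (ξ : ℝ) :
    IntervalIntegrable (fun x : ℝ => Complex.exp (-(2 * π * ξ * Complex.I) * x) * (g x : ℂ))
      volume 0 a := by
  apply ContinuousOn.intervalIntegrable
  rw [uIcc_of_le ha]
  exact (Continuous.continuousOn (by fun_prop)).mul
    (Complex.continuous_ofReal.comp_continuousOn hg)

lemma FT_add (ha : 0 ≤ a) {g₁ g₂ : ℝ → ℝ} (h₁ : ContinuousOn g₁ (Icc 0 a))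
    (h₂ : ContinuousOn g₂ (Icc 0 a)) (ξ : ℝ) :
    FT a (fun x => g₁ x + g₂ x) ξ = FT a g₁ ξ + FT a g₂ ξ := by
  rw [FT_eq ha, FT_eq ha, FT_eq ha,
    ← intervalIntegral.integral_add (FT_ii ha h₁ ξ) (FT_ii ha h₂ ξ)]
  congr 1
  ext x
  push_cast; ring

lemma FT_const_mul (ha : 0 ≤ a) (c : ℝ) (ξ : ℝ) :
    FT a (fun x => c * g x) ξ = c * FT a g ξ := by
  rw [FT_eq ha, FT_eq ha, ← intervalIntegral.integral_const_mul]
  congr 1
  ext x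
  push_cast; ring

lemma FT_congr {g₁ g₂ : ℝ → ℝ} (h : ∀ x ∈ Ioo 0 a, g₁ x = g₂ x) : FT a g₁ = FT a g₂ := by
  have : zext a g₁ = zext a g₂ := by
    ext x
    by_cases hx : x ∈ Ioo 0 a
    · simp [zext, hx, h x hx]
    · simp [zext, hx]
  ext ξ
  unfold FT
  rw [this]

lemma FT_deriv (ha : 0 ≤ a) {g' : ℝ → ℝ} (hd : ∀ x ∈ Icc 0 a, HasDerivAt g (g' x) x)
    (hg' : ContinuousOn g' (Icc 0 a)) (ξ : ℝ) :
    ‖FT a g' ξ‖ ≤ 2 * π * |ξ| * ‖FT a g ξ‖ + (|g 0| + |g a|) := by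
  have hg : ContinuousOn g (Icc 0 a) := fun x hx => (hd x hx).continuousAt.continuousWithinAt
  set c : ℂ := -(2 * π * ξ * Complex.I) with hc
  have h1 : ∀ x ∈ uIcc 0 a, HasDerivAt (fun x : ℝ => Complex.exp (c * x) * (g x : ℂ))
      (c * (Complex.exp (c * x) * (g x : ℂ)) + Complex.exp (c * x) * (g' x : ℂ)) x := by
    intro x hx
    rw [uIcc_of_le ha] at hx
    have e1 : HasDerivAt (fun x : ℝ => Complex.exp (c * x)) (Complex.exp (c * x) * c) x := by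
      have := ((Complex.ofRealCLM.hasDerivAt (x := x)).const_mul c).cexp
      simpa using this
    have e2 := (hd x hx).ofReal_comp
    have e3 := e1.mul e2
    refine HasDerivAt.congr_deriv e3 ?_
    ring
  have h2 := intervalIntegral.integral_eq_sub_of_hasDerivAt h1
    (((FT_ii ha hg ξ).const_mul c).add (FT_ii ha hg' ξ))
  rw [intervalIntegral.integral_add ((FT_ii ha hg ξ).const_mul c) (FT_ii ha hg' ξ),
    intervalIntegral.integral_const_mul, ← FT_eq ha, ← FT_eq ha] at h2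
  have h3 : FT a g' ξ = -c * FT a g ξ +
      (Complex.exp (c * a) * (g a : ℂ) - Complex.exp (c * (0:ℝ)) * (g 0 : ℂ)) := by
    rw [← h2]; ring
  rw [h3]
  refine (norm_add_le _ _).trans (add_le_add (le_of_eq ?_) ((norm_sub_le _ _).trans (le_of_eq ?_)))
  · rw [norm_mul, hc]
    simp [abs_of_pos Real.pi_pos]
  · rw [norm_mul, norm_mul, hc, norm_cexp_aux, norm_cexp_aux]
    simp [add_comm]

lemma wt_le_one {σ : ℝ} (hσ : 0 ≤ σ) (ξ : ℝ) : (1 + ξ ^ 2) ^ (-σ) ≤ 1 :=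
  Real.rpow_le_one_of_one_le_of_nonpos (by nlinarith [sq_nonneg ξ]) (by linarith)

lemma wt_mono {σ τ : ℝ} (h : σ ≤ τ) (ξ : ℝ) : (1 + ξ ^ 2) ^ (-τ) ≤ (1 + ξ ^ 2) ^ (-σ) :=
  Real.rpow_le_rpow_of_exponent_le (by nlinarith [sq_nonneg ξ]) (by linarith)

lemma FT_continuous (hg : ContinuousOn g (Icc 0 a)) : Continuous (FT a g) :=
  VectorFourier.fourierIntegral_continuous Real.continuous_fourierChar
    (continuous_inner (𝕜 := ℝ)) (zext_integrable hg)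

lemma NN_integrable {σ : ℝ} (hσ : 0 ≤ σ) (hg : ContinuousOn g (Icc 0 a)) :
    Integrable (fun ξ => (1 + ξ ^ 2) ^ (-σ) * ‖FT a g ξ‖ ^ 2) := by
  apply (FT_sq_integrable hg).mono'
  · apply Continuous.aestronglyMeasurable
    have := FT_continuous hg
    apply Continuous.mul _ (by fun_prop)
    exact Continuous.rpow_const (by fun_prop) (fun x => Or.inl (by positivity))
  · refine Eventually.of_forall fun ξ => ?_
    rw [Real.norm_eq_abs, abs_of_nonneg (by positivity)]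
    exact mul_le_of_le_one_left (by positivity) (wt_le_one hσ ξ)

lemma NN_nonneg (σ a : ℝ) (g : ℝ → ℝ) : 0 ≤ NN σ a g :=
  integral_nonneg fun ξ => by positivity

lemma NN_mono {σ τ : ℝ} (hσ : 0 ≤ σ) (h : σ ≤ τ) (hg : ContinuousOn g (Icc 0 a)) :
    NN τ a g ≤ NN σ a g :=
  integral_mono (NN_integrable (hσ.trans h) hg) (NN_integrable hσ hg) fun ξ =>
    mul_le_mul_of_nonneg_right (wt_mono h ξ) (by positivity)

lemma NN_le_L2 (ha : 0 ≤ a) {σ : ℝ} (hσ : 0 ≤ σ) (hg : ContinuousOn g (Icc 0 a)) :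
    NN σ a g ≤ ∫ x in (0:ℝ)..a, g x ^ 2 := by
  rw [← FT_sq_integral ha hg]
  exact integral_mono (NN_integrable hσ hg) (FT_sq_integrable hg) fun ξ =>
    mul_le_of_le_one_left (by positivity) (wt_le_one hσ ξ)

lemma NN_add_le (ha : 0 ≤ a) {σ : ℝ} (hσ : 0 ≤ σ) {g₁ g₂ : ℝ → ℝ}
    (h₁ : ContinuousOn g₁ (Icc 0 a)) (h₂ : ContinuousOn g₂ (Icc 0 a)) :
    NN σ a (fun x => g₁ x + g₂ x) ≤ 2 * NN σ a g₁ + 2 * NN σ a g₂ := by
  unfold NN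
  rw [← integral_const_mul, ← integral_const_mul,
    ← integral_add ((NN_integrable hσ h₁).const_mul 2) ((NN_integrable hσ h₂).const_mul 2)]
  apply integral_mono (NN_integrable hσ (h₁.add h₂))
    (((NN_integrable hσ h₁).const_mul 2).add ((NN_integrable hσ h₂).const_mul 2))
  intro ξ
  have e := FT_add ha h₁ h₂ ξ
  have h3 : ‖FT a (fun x => g₁ x + g₂ x) ξ‖ ^ 2 ≤ 2 * ‖FT a g₁ ξ‖ ^ 2 + 2 * ‖FT a g₂ ξ‖ ^ 2 := by
    rw [e]
    have := norm_add_le (FT a g₁ ξ) (FT a g₂ ξ)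
    have h0 := norm_nonneg (FT a g₁ ξ + FT a g₂ ξ)
    nlinarith [sq_nonneg (‖FT a g₁ ξ‖ - ‖FT a g₂ ξ‖)]
  have hw : 0 ≤ (1 + ξ ^ 2) ^ (-σ) := by positivity
  have := mul_le_mul_of_nonneg_left h3 hw
  simp only [Pi.add_apply]
  change (1 + ξ ^ 2) ^ (-σ) * ‖FT a (fun x => g₁ x + g₂ x) ξ‖ ^ 2 ≤ _
  linarith

lemma NN_const_mul (ha : 0 ≤ a) (σ c : ℝ) :
    NN σ a (fun x => c * g x) = c ^ 2 * NN σ a g := by
  unfold NN
  rw [← integral_const_mul]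
  congr 1
  ext ξ
  rw [FT_const_mul ha, norm_mul, mul_pow]
  simp only [Complex.norm_real, Real.norm_eq_abs, sq_abs]
  ring

lemma NN_congr {σ : ℝ} {g₁ g₂ : ℝ → ℝ} (h : ∀ x ∈ Ioo 0 a, g₁ x = g₂ x) :
    NN σ a g₁ = NN σ a g₂ := by
  unfold NN
  rw [FT_congr h]

/-- the constant `∫ (1 + ξ²)^{-3/5}` -/
def KK : ℝ := ∫ ξ : ℝ, (1 + ξ ^ 2) ^ (-(3 / 5 : ℝ))

lemma KK_integrable : Integrable (fun ξ : ℝ => (1 + ξ ^ 2) ^ (-(3 / 5 : ℝ))) := by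
  have := integrable_rpow_neg_one_add_norm_sq (E := ℝ) (μ := volume) (r := 6 / 5)
    (by simp; norm_num)
  convert this using 3 with ξ
  · simp
  · norm_num

lemma KK_nonneg : 0 ≤ KK := integral_nonneg fun ξ => by positivity

/-- Main splitting estimate for `h = g' + r`. -/
lemma NN_split (ha : 0 ≤ a) {σ τ R B : ℝ} (hτ0 : 0 ≤ τ) (hτ : τ ≤ 3 / 5) (hτσ : τ ≤ σ) (hσ : σ ≤ 1)
    (hR : 1 ≤ R) {g' r h : ℝ → ℝ} (hd : ∀ x ∈ Icc 0 a, HasDerivAt g (g' x) x)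
    (hg' : ContinuousOn g' (Icc 0 a)) (hr : ContinuousOn r (Icc 0 a))
    (hh : ∀ x ∈ Icc 0 a, h x = g' x + r x)
    (hB : |g 0| + |g a| + ∫ x in (0:ℝ)..a, |r x| ≤ B) :
    NN σ a h ≤ (R ^ 2) ^ (-σ) * (16 * π ^ 2 * R ^ 2 * (∫ x in (0:ℝ)..a, g x ^ 2)
      + ∫ x in (0:ℝ)..a, h x ^ 2) + 2 * B ^ 2 * KK * (2 * R ^ 2) ^ (3 / 5 - τ) := by
  have hg : ContinuousOn g (Icc 0 a) := fun x hx => (hd x hx).continuousAt.continuousWithinAt
  have hhc : ContinuousOn h (Icc 0 a) := (hg'.add hr).congr hh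
  have hσ0 : 0 ≤ σ := hτ0.trans hτσ
  rw [← FT_sq_integral ha hg, ← FT_sq_integral ha hhc, KK]
  have i1 := FT_sq_integrable hg
  have i2 := FT_sq_integrable hhc
  have i3 := KK_integrable
  have key : ∫ ξ, ((R ^ 2) ^ (-σ) * (16 * π ^ 2 * R ^ 2 * ‖FT a g ξ‖ ^ 2 + ‖FT a h ξ‖ ^ 2)
      + 2 * B ^ 2 * (1 + ξ ^ 2) ^ (-(3 / 5 : ℝ)) * (2 * R ^ 2) ^ (3 / 5 - τ)) =
      (R ^ 2) ^ (-σ) * (16 * π ^ 2 * R ^ 2 * (∫ ξ, ‖FT a g ξ‖ ^ 2) + ∫ ξ, ‖FT a h ξ‖ ^ 2)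
      + 2 * B ^ 2 * (∫ ξ : ℝ, (1 + ξ ^ 2) ^ (-(3 / 5 : ℝ))) * (2 * R ^ 2) ^ (3 / 5 - τ) := by
    have i4 : Integrable (fun ξ => 16 * π ^ 2 * R ^ 2 * ‖FT a g ξ‖ ^ 2 + ‖FT a h ξ‖ ^ 2) :=
      (i1.const_mul _).add i2
    rw [integral_add (i4.const_mul _) ((i3.const_mul _).mul_const _),
      integral_const_mul, integral_add (i1.const_mul _) i2, integral_const_mul, integral_mul_const,
      integral_const_mul]
  rw [← key]
  apply integral_mono (NN_integrable hσ0 hhc)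
    ((((i1.const_mul _).add i2).const_mul _).add ((i3.const_mul _).mul_const _))
  intro ξ
  have hR2 : 1 ≤ R ^ 2 := by nlinarith
  have hp1 : 0 ≤ (R ^ 2) ^ (-σ) := by positivity
  have hp2 : 0 ≤ (1 + ξ ^ 2) ^ (-(3 / 5 : ℝ)) := by positivity
  have hp3 : 0 ≤ (2 * R ^ 2) ^ (3 / 5 - τ) := by positivity
  have hw0 : 0 ≤ (1 + ξ ^ 2) ^ (-σ) := by positivity
  have h1ξ : 0 < 1 + ξ ^ 2 := by positivity
  change (1 + ξ ^ 2) ^ (-σ) * ‖FT a h ξ‖ ^ 2 ≤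
    (R ^ 2) ^ (-σ) * (16 * π ^ 2 * R ^ 2 * ‖FT a g ξ‖ ^ 2 + ‖FT a h ξ‖ ^ 2)
      + 2 * B ^ 2 * (1 + ξ ^ 2) ^ (-(3 / 5 : ℝ)) * (2 * R ^ 2) ^ (3 / 5 - τ)
  by_cases hξ : ξ ^ 2 ≤ R ^ 2
  · -- low frequencies
    have e1 : FT a h ξ = FT a g' ξ + FT a r ξ := by
      rw [← FT_add ha hg' hr, FT_congr (fun x hx => hh x (Ioo_subset_Icc_self hx))]
    have e2 : ‖FT a h ξ‖ ≤ 2 * π * |ξ| * ‖FT a g ξ‖ + B := by
      rw [e1]
      have := norm_add_le (FT a g' ξ) (FT a r ξ)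
      have := FT_deriv ha hd hg' ξ
      have := FT_le_L1 (g := r) ha ξ
      linarith
    have e3 : ‖FT a h ξ‖ ^ 2 ≤ 8 * π ^ 2 * ξ ^ 2 * ‖FT a g ξ‖ ^ 2 + 2 * B ^ 2 := by
      have h0 := norm_nonneg (FT a h ξ)
      have h4 : ‖FT a h ξ‖ ^ 2 ≤ (2 * π * |ξ| * ‖FT a g ξ‖ + B) ^ 2 := by gcongr
      have h5 : (2 * π * |ξ| * ‖FT a g ξ‖) ^ 2 = 4 * π ^ 2 * ξ ^ 2 * ‖FT a g ξ‖ ^ 2 := by
        rw [mul_pow, mul_pow, sq_abs]; ring
      nlinarith [sq_nonneg (2 * π * |ξ| * ‖FT a g ξ‖ - B)]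
    have e4 : (1 + ξ ^ 2) ^ (-σ) * ξ ^ 2 ≤ 2 * R ^ 2 * (R ^ 2) ^ (-σ) := by
      calc (1 + ξ ^ 2) ^ (-σ) * ξ ^ 2 ≤ (1 + ξ ^ 2) ^ (-σ) * (1 + ξ ^ 2) := by
            gcongr; linarith
        _ = (1 + ξ ^ 2) ^ (1 - σ) := by
            rw [sub_eq_neg_add, Real.rpow_add h1ξ, Real.rpow_one]
        _ ≤ (2 * R ^ 2) ^ (1 - σ) := by
            apply Real.rpow_le_rpow h1ξ.le (by linarith) (by linarith)
        _ = (2 * R ^ 2) ^ (-σ) * (2 * R ^ 2) := by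
            rw [sub_eq_neg_add, Real.rpow_add (by positivity), Real.rpow_one]
        _ ≤ (R ^ 2) ^ (-σ) * (2 * R ^ 2) := by
            apply mul_le_mul_of_nonneg_right _ (by positivity)
            apply Real.rpow_le_rpow_of_nonpos (by positivity) (by linarith) (by linarith)
        _ = _ := by ring
    have e5 : (1 + ξ ^ 2) ^ (-σ) ≤ (1 + ξ ^ 2) ^ (-(3 / 5 : ℝ)) * (2 * R ^ 2) ^ (3 / 5 - τ) := by
      calc (1 + ξ ^ 2) ^ (-σ) ≤ (1 + ξ ^ 2) ^ (-τ) := wt_mono hτσ ξ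
        _ = (1 + ξ ^ 2) ^ (-(3 / 5 : ℝ)) * (1 + ξ ^ 2) ^ (3 / 5 - τ) := by
            rw [← Real.rpow_add h1ξ]; congr 1; ring
        _ ≤ _ := by
            apply mul_le_mul_of_nonneg_left _ hp2
            apply Real.rpow_le_rpow h1ξ.le (by linarith) (by linarith)
    have e6 := mul_le_mul_of_nonneg_left e3 hw0
    have e7 : (1 + ξ ^ 2) ^ (-σ) * ξ ^ 2 * (8 * π ^ 2 * ‖FT a g ξ‖ ^ 2) ≤
        2 * R ^ 2 * (R ^ 2) ^ (-σ) * (8 * π ^ 2 * ‖FT a g ξ‖ ^ 2) :=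
      mul_le_mul_of_nonneg_right e4 (by positivity)
    have e8 : (1 + ξ ^ 2) ^ (-σ) * (2 * B ^ 2) ≤
        (1 + ξ ^ 2) ^ (-(3 / 5 : ℝ)) * (2 * R ^ 2) ^ (3 / 5 - τ) * (2 * B ^ 2) :=
      mul_le_mul_of_nonneg_right e5 (by positivity)
    have e9 : 0 ≤ (R ^ 2) ^ (-σ) * ‖FT a h ξ‖ ^ 2 := by positivity
    nlinarith
  · -- high frequencies
    have e1 : (1 + ξ ^ 2) ^ (-σ) ≤ (R ^ 2) ^ (-σ) := by
      apply Real.rpow_le_rpow_of_nonpos (by positivity) (by linarith [not_le.1 hξ]) (by linarith)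
    have e2 := mul_le_mul_of_nonneg_right e1 (sq_nonneg ‖FT a h ξ‖)
    have e3 : 0 ≤ (R ^ 2) ^ (-σ) * (16 * π ^ 2 * R ^ 2 * ‖FT a g ξ‖ ^ 2) := by positivity
    have e4 : 0 ≤ 2 * B ^ 2 * (1 + ξ ^ 2) ^ (-(3 / 5 : ℝ)) * (2 * R ^ 2) ^ (3 / 5 - τ) := by
      positivity
    nlinarith

/-- One derivative costs one order, up to boundary values. -/
lemma NN_deriv (ha : 0 ≤ a) {δ : ℝ} (hδ : 0 ≤ δ) {g' : ℝ → ℝ}
    (hd : ∀ x ∈ Icc 0 a, HasDerivAt g (g' x) x) (hg' : ContinuousOn g' (Icc 0 a)) :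
    NN (1 + δ) a g' ≤ 8 * π ^ 2 * NN δ a g + 2 * (|g 0| + |g a|) ^ 2 * KK := by
  have hg : ContinuousOn g (Icc 0 a) := fun x hx => (hd x hx).continuousAt.continuousWithinAt
  have i1 := NN_integrable hδ hg
  have i3 := KK_integrable
  unfold NN KK
  rw [← integral_const_mul, ← integral_const_mul, ← integral_add (i1.const_mul _) (i3.const_mul _)]
  apply integral_mono (NN_integrable (by linarith) hg') ((i1.const_mul _).add (i3.const_mul _))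
  intro ξ
  set B := |g 0| + |g a| with hB
  have h1ξ : 0 < 1 + ξ ^ 2 := by positivity
  change (1 + ξ ^ 2) ^ (-(1 + δ)) * ‖FT a g' ξ‖ ^ 2 ≤
    8 * π ^ 2 * ((1 + ξ ^ 2) ^ (-δ) * ‖FT a g ξ‖ ^ 2) + 2 * B ^ 2 * (1 + ξ ^ 2) ^ (-(3 / 5 : ℝ))
  have e2 := FT_deriv ha hd hg' ξ
  have e3 : ‖FT a g' ξ‖ ^ 2 ≤ 8 * π ^ 2 * ξ ^ 2 * ‖FT a g ξ‖ ^ 2 + 2 * B ^ 2 := by
    have h0 := norm_nonneg (FT a g' ξ)
    have h4 : ‖FT a g' ξ‖ ^ 2 ≤ (2 * π * |ξ| * ‖FT a g ξ‖ + B) ^ 2 := by gcongr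
    have h5 : (2 * π * |ξ| * ‖FT a g ξ‖) ^ 2 = 4 * π ^ 2 * ξ ^ 2 * ‖FT a g ξ‖ ^ 2 := by
      rw [mul_pow, mul_pow, sq_abs]; ring
    nlinarith [sq_nonneg (2 * π * |ξ| * ‖FT a g ξ‖ - B)]
  have hw0 : 0 ≤ (1 + ξ ^ 2) ^ (-(1 + δ)) := by positivity
  have e4 : (1 + ξ ^ 2) ^ (-(1 + δ)) * ξ ^ 2 ≤ (1 + ξ ^ 2) ^ (-δ) := by
    calc (1 + ξ ^ 2) ^ (-(1 + δ)) * ξ ^ 2 ≤ (1 + ξ ^ 2) ^ (-(1 + δ)) * (1 + ξ ^ 2) := by
          gcongr; linarith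
      _ = (1 + ξ ^ 2) ^ (-(1 + δ) + 1) := by rw [Real.rpow_add h1ξ, Real.rpow_one]
      _ = _ := by congr 1; ring
  have e5 : (1 + ξ ^ 2) ^ (-(1 + δ)) ≤ (1 + ξ ^ 2) ^ (-(3 / 5 : ℝ)) := wt_mono (by linarith) ξ
  have e6 := mul_le_mul_of_nonneg_left e3 hw0
  have e7 := mul_le_mul_of_nonneg_right e4
    (show 0 ≤ 8 * π ^ 2 * ‖FT a g ξ‖ ^ 2 by positivity)
  have e8 := mul_le_mul_of_nonneg_right e5 (show 0 ≤ 2 * B ^ 2 by positivity)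
  nlinarith

end Pool.Agent.Lib.MP_14aec4_an
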