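import Pool.Agent.Lib.MP_14aec4_an.Moll

/-!
Extensions of the boundary data adapted to a ramp.
-/

noncomputable section

open MeasureTheory Set Filter Topology FourierTransform
open scoped ENNReal ComplexConjugate

namespace Pool.Agent.Lib.MP_14aec4_an.W

/-- `L²` bound for a function supported in `[a, b]` and dominated by `q` on `[0, T']`. -/
lemma ext_L2 {γ a b T' B e : ℝ} (hγ : 1 ≤ γ) {g q : ℝ → ℝ} (hg : Continuous g)
    (ha : -1 / γ ≤ a) (ha0 : a ≤ 0) (hT : 0 ≤ T') (hb : T' ≤ b)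
    (h0 : ∀ t, t ∉ Icc a b → g t = 0) (hB : ∀ t ∈ Icc a b, |g t| ≤ B)
    (hq : ContinuousOn q (Icc 0 T')) (hgq : ∀ t ∈ Icc 0 T', |g t| ≤ |q t|)
    (he : ∫ t in (0 : ℝ)..T', q t ^ 2 ≤ e) :
    ∫ t, (Real.exp (-γ * t) * g t) ^ 2 ≤ 9 * B ^ 2 * (-a) + e + B ^ 2 * (b - T') := by
  have hγ0 : 0 < γ := by linarith
  have hFc : Continuous fun t => (Real.exp (-γ * t) * g t) ^ 2 := by fun_prop
  have hab : a ≤ b := by linarith
  have e1 : ∫ t, (Real.exp (-γ * t) * g t) ^ 2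
      = ∫ t in a..b, (Real.exp (-γ * t) * g t) ^ 2 := by
    rw [intervalIntegral.integral_of_le hab, ← integral_Icc_eq_integral_Ioc]
    symm
    apply setIntegral_eq_integral_of_forall_compl_eq_zero
    intro t ht
    simp [h0 t ht]
  have hexp : ∀ t, a ≤ t → Real.exp (-γ * t) ≤ 3 := by
    intro t ht
    have h1 : -1 ≤ a * γ := by rwa [div_le_iff₀ hγ0] at ha
    have h2 : -γ * t ≤ 1 := by nlinarith
    calc _ ≤ Real.exp 1 := Real.exp_le_exp.2 h2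
      _ ≤ 3 := by have := Real.exp_one_lt_d9; linarith
  have hexp1 : ∀ t, 0 ≤ t → Real.exp (-γ * t) ≤ 1 := by
    intro t ht
    apply Real.exp_le_one_iff.2
    nlinarith
  have key : ∀ t K D : ℝ, Real.exp (-γ * t) ≤ K → |g t| ≤ D →
      (Real.exp (-γ * t) * g t) ^ 2 ≤ K ^ 2 * D ^ 2 := by
    intro t K D hK hD
    rw [mul_pow, ← sq_abs (g t)]
    have := Real.exp_pos (-γ * t)
    gcongr
  have i1 : ∫ t in a..0, (Real.exp (-γ * t) * g t) ^ 2 ≤ ∫ _ in a..0, 9 * B ^ 2 := by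
    apply intervalIntegral.integral_mono_on ha0 (hFc.intervalIntegrable _ _)
      intervalIntegrable_const
    intro t ht
    have := key t 3 B (hexp t ht.1) (hB t ⟨ht.1, by linarith [ht.2]⟩)
    linarith
  have i2 : ∫ t in (0 : ℝ)..T', (Real.exp (-γ * t) * g t) ^ 2 ≤ ∫ t in (0 : ℝ)..T', q t ^ 2 := by
    apply intervalIntegral.integral_mono_on hT (hFc.intervalIntegrable _ _)
      ((hq.pow 2).intervalIntegrable_of_Icc hT)
    intro t ht
    have := key t 1 |q t| (hexp1 t ht.1) (hgq t ht)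
    rw [sq_abs, one_pow, one_mul] at this
    exact this
  have i3 : ∫ t in T'..b, (Real.exp (-γ * t) * g t) ^ 2 ≤ ∫ _ in T'..b, B ^ 2 := by
    apply intervalIntegral.integral_mono_on hb (hFc.intervalIntegrable _ _)
      intervalIntegrable_const
    intro t ht
    have := key t 1 B (hexp1 t (by linarith [ht.1])) (hB t ⟨by linarith [ht.1], ht.2⟩)
    linarith
  rw [intervalIntegral.integral_const, smul_eq_mul] at i1 i3
  rw [e1, ← intervalIntegral.integral_add_adjacent_intervals (b := 0)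
      (hFc.intervalIntegrable _ _) (hFc.intervalIntegrable _ _),
    ← intervalIntegral.integral_add_adjacent_intervals (a := 0) (b := T')
      (hFc.intervalIntegrable _ _) (hFc.intervalIntegrable _ _)]
  nlinarith

/-- The localised extension `cut (γ ·) p`. -/
lemma ext_main {σ γ c : ℝ} (hσ : -1 ≤ σ) (hσ' : σ ≤ 0) (hγ : 1 ≤ γ) (hc : 0 ≤ c) {p : ℝ → ℝ}
    {A : ℝ → ℂ} (hA : Integrable A) (hp : ∀ t, 𝓕⁻ A t = (p t : ℂ)) (hb : Bd γ w1 σ A c) :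
    Bd γ w1 σ (spec γ fun t => cut (γ * t) * p t) (mulC 1 w1 (spec 1 cut) * c) := by
  have hγ0 : 0 < γ := by linarith
  rw [spec_mul_eq_cv γ (sc_cut_scale hγ0) hA hp]
  have h1 := peetre hγ0 adm_w1 (abs_le.2 ⟨hσ, by linarith⟩) (rd_spec γ (sc_cut_scale hγ0))
    hA.aestronglyMeasurable hc hb
  have h2 := mulC_scale hγ0 1 cut
  rw [one_mul] at h2
  rwa [h2] at h1

lemma ext_cut_mul {γ T' t : ℝ} (hγ : 1 ≤ γ) (hT : T' ≤ 1 / γ) (ht : t ≤ T') {p : ℝ → ℝ}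
    (hp : ∀ t ≤ 0, p t = 0) : cut (γ * t) * p t = p t := by
  have hγ0 : 0 < γ := by linarith
  rcases le_total t 0 with h | h
  · rw [hp t h, mul_zero]
  · have h1 : T' * γ ≤ 1 := by rwa [le_div_iff₀ hγ0] at hT
    rw [cut_one, one_mul]
    rw [abs_of_nonneg (by positivity)]
    nlinarith

lemma ext_add {σ γ c d : ℝ} (hγ : 1 ≤ γ) {f g : ℝ → ℝ} (hf : SC f) (hg : SC g) (hc : 0 ≤ c)
    (hd : 0 ≤ d) (h₁ : Bd γ w1 σ (spec γ f) c) (h₂ : Bd γ w1 σ (spec γ g) d) :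
    Bd γ w1 σ (spec γ fun t => f t + g t) (c + d) := by
  have hγ0 : 0 < γ := by linarith
  have e : (spec γ fun t => f t + g t) = fun τ => spec γ f τ + spec γ g τ :=
    funext (spec_add γ hf hg)
  rw [e]
  exact Bd.add hγ0 adm_w1 (rd_spec γ hf).aesm (rd_spec γ hg).aesm hc hd h₁ h₂

lemma ext_bdd {a b : ℝ} {h : ℝ → ℝ} (hh : ContinuousOn h (Icc a b)) :
    ∃ M, 0 < M ∧ ∀ t ∈ Icc a b, |h t| ≤ M := by
  obtain ⟨M, hM⟩ := isCompact_Icc.exists_bound_of_continuousOn hh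
  refine ⟨|M| + 1, by positivity, fun t ht => ?_⟩
  have h1 := hM t ht
  rw [Real.norm_eq_abs] at h1
  linarith [le_abs_self M]

lemma ext_lt {x : ℝ≥0∞} {c e : ℝ} (hc : 0 ≤ c) (he : 0 < e) (h : x ≤ ENNReal.ofReal c) :
    x < ENNReal.ofReal (c + e) :=
  h.trans_lt ((ENNReal.ofReal_lt_ofReal_iff (by linarith)).2 (by linarith))

/-- `H = ϱ p + θ (χ h - p)` with `ϱ = cut (γ ·)`, `p` from `ext_exists`, and `θ` a smooth cut-off
equal to `1` on `(-∞, T₁]` and `0` near `[T', ∞)`. -/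
theorem ext_ap : ∃ C, 0 < C ∧ ∀ (σ γ T' T₁ c ε : ℝ) (h : ℝ → ℝ), -1 ≤ σ → σ ≤ 0 → 1 ≤ γ →
    T' ≤ 1 / γ → T₁ ∈ Ioo 0 T' → 0 ≤ c → 0 < ε → ContDiffOn ℝ (⊤ : ℕ∞) h (Icc 0 T') →
    bn σ T' h ≤ ENNReal.ofReal c →
    ∃ δ₀ > 0, ∀ δ ∈ Ioc 0 δ₀, ∃ H, SC H ∧ (∀ t ≤ T₁, H t = rp δ δ t * h t) ∧
      Bd γ w1 σ (spec γ H) (C * c + ε) := by
  obtain ⟨K, hK⟩ : ∃ K, K = mulC 1 w1 (spec 1 cut) := ⟨_, rfl⟩
  have hK0 : 0 ≤ K := hK ▸ mulC_nonneg one_pos adm_w1 _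
  refine ⟨K + 1, by linarith, ?_⟩
  intro σ γ T' T₁ c ε h hσ hσ' hγ hT hT₁ hc hε hh hb
  have hγ0 : 0 < γ := by linarith
  have hT0 : 0 < T' := hT₁.1.trans hT₁.2
  obtain ⟨M, hM0, hM⟩ := ext_bdd hh.continuousOn
  obtain ⟨e, he0, he⟩ : ∃ e, 0 < e ∧ (K + 2) * e = ε :=
    ⟨ε / (K + 2), by positivity, by field_simp⟩
  obtain ⟨η, hη, p, A, hp, hA, hAp, hAb, hp0, hpM, hpe⟩ :=
    ext_exists hσ' hT0 hh.continuousOn hM (ext_lt hc he0 hb) (pow_pos he0 2)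
  refine ⟨min (T' / 2) ((e / (3 * M)) ^ 2 / 2), by positivity, fun δ hδ => ?_⟩
  have hδ0 : 0 < δ := hδ.1
  have hδ1 : δ ≤ T' / 2 := hδ.2.trans (min_le_left _ _)
  have hδ2 : δ ≤ (e / (3 * M)) ^ 2 / 2 := hδ.2.trans (min_le_right _ _)
  obtain ⟨ρ, hρ⟩ : ∃ ρ, ρ = (T' - T₁) / 2 := ⟨_, rfl⟩
  have hρ0 : 0 < ρ := by rw [hρ]; linarith [hT₁.2]
  have hρ1 : T₁ + ρ < T' := by rw [hρ]; linarith [hT₁.2]
  have hθ : ContDiff ℝ (⊤ : ℕ∞) fun t => 1 - rp T₁ ρ t := contDiff_const.sub (rp_contDiff _ _)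
  have hθχ : ContDiff ℝ (⊤ : ℕ∞) fun t => (1 - rp T₁ ρ t) * rp δ δ t := hθ.mul (rp_contDiff _ _)
  have hθχ0 : ∀ t, t ∉ Icc δ (T₁ + ρ) → (1 - rp T₁ ρ t) * rp δ δ t = 0 := by
    intro t ht
    rw [mem_Icc, not_and_or, not_le, not_le] at ht
    rcases ht with ht | ht
    · rw [rp_zero hδ0 ht.le, mul_zero]
    · rw [rp_one hρ0 ht.le, sub_self, zero_mul]
  have hθχ1 : ∀ t, |(1 - rp T₁ ρ t) * rp δ δ t| ≤ 1 := by
    intro t
    have h1 := rp_mem T₁ ρ t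
    have h2 := rp_mem δ δ t
    rw [abs_of_nonneg (mul_nonneg (by linarith [h1.2]) h2.1)]
    exact mul_le_one₀ (by linarith [h1.1]) h2.1 h2.2
  have hd : ContDiffOn ℝ (⊤ : ℕ∞) (fun t => h t - p t) (Icc 0 T') := hh.sub hp.contDiffOn
  have g1z : ∀ t, t ∉ Icc 0 T' → (1 - rp T₁ ρ t) * rp δ δ t * (h t - p t) = 0 := by
    intro t ht
    rw [hθχ0 t fun h' => ht ⟨hδ0.le.trans h'.1, h'.2.trans hρ1.le⟩, zero_mul]
  have g1 : SC fun t => (1 - rp T₁ ρ t) * rp δ δ t * (h t - p t) :=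
    SC.of_bound (contDiff_cutoff hd hθχ hδ0 hρ1 hθχ0) g1z
  have g2z : ∀ t, t ∉ Icc 0 (2 * δ) → (1 - rp T₁ ρ t) * (rp δ δ t - 1) * p t = 0 := by
    intro t ht
    rw [mem_Icc, not_and_or, not_le, not_le] at ht
    rcases ht with ht | ht
    · rw [hp0 t ht.le, mul_zero]
    · rw [rp_one hδ0 (t := t) (by linarith), sub_self, mul_zero, zero_mul]
  have g2 : SC fun t => (1 - rp T₁ ρ t) * (rp δ δ t - 1) * p t :=
    SC.of_bound ((hθ.mul ((rp_contDiff _ _).sub contDiff_const)).mul hp) g2z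
  have g0 : SC fun t => cut (γ * t) * p t := (sc_cut_scale hγ0).mul_right hp
  have b0 := ext_main hσ hσ' hγ (by linarith : 0 ≤ c + e) hA hAp (hAb γ hγ)
  rw [← hK] at b0
  have hneg : -1 / γ ≤ 0 := by
    rw [div_le_iff₀ hγ0]
    linarith
  have b1 : Bd γ w1 σ (spec γ fun t => (1 - rp T₁ ρ t) * rp δ δ t * (h t - p t)) e := by
    obtain ⟨B, -, hB⟩ := ext_bdd (a := 0) (b := T') g1.1.continuous.continuousOn
    apply bd_L2 hγ hσ' g1 he0.le
    have := ext_L2 (q := fun t => p t - h t) hγ g1.1.continuous hneg le_rfl hT0.le le_rfl g1z hB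
      (hp.continuous.continuousOn.sub hh.continuousOn) (fun t _ => by
        rw [abs_mul, abs_sub_comm (h t)]
        exact mul_le_of_le_one_left (abs_nonneg _) (hθχ1 t)) hpe
    simpa using this
  have b2 : Bd γ w1 σ (spec γ fun t => (1 - rp T₁ ρ t) * (rp δ δ t - 1) * p t) e := by
    refine (bd_short hγ hσ' g2 hM0.le hneg (by linarith) g2z fun t ht => ?_).mono ?_
    · have h1 := rp_mem T₁ ρ t
      have h2 := rp_mem δ δ t
      have h3 : |(1 - rp T₁ ρ t) * (rp δ δ t - 1)| ≤ 1 := by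
        rw [abs_mul, abs_of_nonneg (by linarith [h1.2]), abs_of_nonpos (by linarith [h2.2])]
        exact mul_le_one₀ (by linarith [h1.1]) (by linarith [h2.2]) (by linarith [h2.1])
      rw [abs_mul]
      exact (mul_le_of_le_one_left (abs_nonneg _) h3).trans (hpM t (by linarith [ht.2]))
    · have h1 : Real.sqrt (2 * δ - 0) ≤ e / (3 * M) :=
        Real.sqrt_le_iff.2 ⟨by positivity, by linarith⟩
      rw [le_div_iff₀ (by positivity)] at h1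
      linarith
  refine ⟨_, (g0.add g1).add g2, fun t ht => ?_, ?_⟩
  · rw [ext_cut_mul hγ hT (ht.trans hT₁.2.le) hp0, rp_zero hρ0 ht]
    ring
  · refine (ext_add hγ (g0.add g1) g2 (by positivity) he0.le
      (ext_add hγ g0 g1 (by positivity) he0.le b0 b1) b2).mono ?_
    nlinarith

/-- The same with `θ = 1` on `(-∞, T']` and `0` shortly after. -/
theorem ext_ex : ∃ C, 0 < C ∧ ∀ (σ γ T' c ε : ℝ) (h : ℝ → ℝ), -1 ≤ σ → σ ≤ 0 → 1 ≤ γ →
    T' ≤ 1 / γ → 0 < T' → 0 ≤ c → 0 < ε → ContDiff ℝ (⊤ : ℕ∞) h →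
    bn σ T' h ≤ ENNReal.ofReal c →
    ∃ τ₀ > 0, ∀ τ ∈ Ioc 0 τ₀, ∃ H, SC H ∧ (∀ t ≤ T', H t = rp (-τ) τ t * h t) ∧
      Bd γ w1 σ (spec γ H) (C * c + ε) := by
  obtain ⟨K, hK⟩ : ∃ K, K = mulC 1 w1 (spec 1 cut) := ⟨_, rfl⟩
  have hK0 : 0 ≤ K := hK ▸ mulC_nonneg one_pos adm_w1 _
  refine ⟨K + 1, by linarith, ?_⟩
  intro σ γ T' c ε h hσ hσ' hγ hT hT0 hc hε hh hb
  have hγ0 : 0 < γ := by linarith
  obtain ⟨M, hM0, hM⟩ := ext_bdd (a := -1) (b := T' + 1) hh.continuous.continuousOn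
  obtain ⟨e, he0, he⟩ : ∃ e, 0 < e ∧ (K + 2) * e = ε :=
    ⟨ε / (K + 2), by positivity, by field_simp⟩
  obtain ⟨η, hη, p, A, hp, hA, hAp, hAb, hp0, hpM, hpe⟩ :=
    ext_exists (M := M) hσ' hT0 hh.continuous.continuousOn
      (fun t ht => hM t ⟨by linarith [ht.1], by linarith [ht.2]⟩) (ext_lt hc he0 hb)
      (pow_pos he0 2)
  obtain ⟨r, hr0, hr⟩ : ∃ r, 0 < r ∧ 36 * M ^ 2 * r = e ^ 2 :=
    ⟨e ^ 2 / (36 * M ^ 2), by positivity, by field_simp⟩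
  refine ⟨min (1 / γ) r, by positivity, fun τ hτ => ?_⟩
  have hτ0 : 0 < τ := hτ.1
  have hτ1 : τ ≤ 1 / γ := hτ.2.trans (min_le_left _ _)
  have hτ2 : τ ≤ r := hτ.2.trans (min_le_right _ _)
  have hτ3 : τ ≤ 1 := hτ1.trans ((div_le_one hγ0).2 hγ)
  obtain ⟨ρ, hρ0, hρ1, hρ2, hρ3⟩ : ∃ ρ, 0 < ρ ∧ ρ ≤ 1 ∧ ρ < η ∧ ρ ≤ r :=
    ⟨min (min 1 r) (η / 2), by positivity, (min_le_left _ _).trans (min_le_left _ _),
      (min_le_right _ _).trans_lt (by linarith), (min_le_left _ _).trans (min_le_right _ _)⟩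
  have hθ : ContDiff ℝ (⊤ : ℕ∞) fun t => 1 - rp T' ρ t := contDiff_const.sub (rp_contDiff _ _)
  have hθ1 : ∀ t, |1 - rp T' ρ t| ≤ 1 := by
    intro t
    have h1 := rp_mem T' ρ t
    rw [abs_of_nonneg (by linarith [h1.2])]
    linarith [h1.1]
  have g1z : ∀ t, t ∉ Icc (-τ) (T' + ρ) → (1 - rp T' ρ t) * (rp (-τ) τ t * h t - p t) = 0 := by
    intro t ht
    rw [mem_Icc, not_and_or, not_le, not_le] at ht
    rcases ht with ht | ht
    · rw [rp_zero hτ0 ht.le, hp0 t (by linarith), zero_mul, sub_self, mul_zero]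
    · rw [rp_one hρ0 ht.le, sub_self, zero_mul]
  have g1 : SC fun t => (1 - rp T' ρ t) * (rp (-τ) τ t * h t - p t) :=
    SC.of_bound (hθ.mul (((rp_contDiff _ _).mul hh).sub hp)) g1z
  have g0 : SC fun t => cut (γ * t) * p t := (sc_cut_scale hγ0).mul_right hp
  have b0 := ext_main hσ hσ' hγ (by linarith : 0 ≤ c + e) hA hAp (hAb γ hγ)
  rw [← hK] at b0
  have b1 : Bd γ w1 σ (spec γ fun t => (1 - rp T' ρ t) * (rp (-τ) τ t * h t - p t)) (2 * e) := by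
    apply bd_L2 hγ hσ' g1 (by positivity)
    have hneg : -1 / γ ≤ -τ := by
      rw [neg_div]
      linarith
    have := ext_L2 (B := 2 * M) (q := fun t => p t - h t) hγ g1.1.continuous hneg (by linarith)
      hT0.le (by linarith) g1z (fun t ht => by
        have h1 := rp_mem (-τ) τ t
        have h2 := hM t ⟨by linarith [ht.1], by linarith [ht.2]⟩
        have h3 := hpM t (by linarith [ht.2])
        have h4 : |rp (-τ) τ t * h t| ≤ M := by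
          rw [abs_mul, abs_of_nonneg h1.1]
          exact (mul_le_of_le_one_left (abs_nonneg _) h1.2).trans h2
        rw [abs_mul]
        refine (mul_le_of_le_one_left (abs_nonneg _) (hθ1 t)).trans ?_
        linarith [abs_sub (rp (-τ) τ t * h t) (p t)])
      (hp.continuous.continuousOn.sub hh.continuous.continuousOn) (fun t ht => by
        rw [abs_mul, rp_one hτ0 (t := t) (by linarith [ht.1]), one_mul, abs_sub_comm (h t)]
        exact mul_le_of_le_one_left (abs_nonneg _) (hθ1 t)) hpe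
    refine this.trans ?_
    have hM2 : 0 < M ^ 2 := by positivity
    nlinarith [mul_le_mul_of_nonneg_left hτ2 hM2.le, mul_le_mul_of_nonneg_left hρ3 hM2.le]
  refine ⟨_, g0.add g1, fun t ht => ?_, ?_⟩
  · rw [ext_cut_mul hγ hT ht hp0, rp_zero hρ0 ht]
    ring
  · refine (ext_add hγ g0 g1 (by positivity) (by positivity) b0 b1).mono ?_
    nlinarith

end Pool.Agent.Lib.MP_14aec4_an.W
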