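import Pool.Agent.Lib.MP_14aec4_an.Calc

/-!
The Riccati equation that inverts the Miura map at a fixed time.
-/

noncomputable section

open MeasureTheory Set Filter Topology FourierTransform
open scoped ENNReal ComplexConjugate

namespace Pool.Agent.Lib.MP_14aec4_an.W

/-- Global existence for a bounded, uniformly Lipschitz field. -/
lemma ric_glob {E : Type} [NormedAddCommGroup E] [NormedSpace ℝ E] [CompleteSpace E] {a b : ℝ}
    (hab : a ≤ b) {f : ℝ → E → E} {K M : ℝ} (hK : 0 ≤ K) (hM : 0 ≤ M)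
    (hl : ∀ t ∈ Icc a b, ∀ x y, ‖f t x - f t y‖ ≤ K * ‖x - y‖)
    (hc : ∀ x, ContinuousOn (fun t => f t x) (Icc a b))
    (hb : ∀ t ∈ Icc a b, ∀ x, ‖f t x‖ ≤ M) (x₀ : E) :
    ∃ y : ℝ → E, y a = x₀ ∧ ∀ t ∈ Icc a b, HasDerivWithinAt y (f t (y t)) (Icc a b) t := by
  have hpl : IsPicardLindelof f (⟨a, left_mem_Icc.2 hab⟩ : Icc a b) x₀
      ⟨M * (b - a), mul_nonneg hM (sub_nonneg.2 hab)⟩ 0 ⟨M, hM⟩ ⟨K, hK⟩ := by
    refine ⟨fun t ht => ?_, fun x _ => hc x, fun t ht x _ => hb t ht x, ?_⟩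
    · refine LipschitzOnWith.of_dist_le_mul fun x _ y _ => ?_
      rw [dist_eq_norm, dist_eq_norm]
      exact hl t ht x y
    · change M * max (b - a) (a - a) ≤ M * (b - a) - 0
      rw [sub_self, max_eq_left (sub_nonneg.2 hab), sub_zero]
  exact hpl.exists_eq_forall_mem_Icc_hasDerivWithinAt₀

/-- The clamp to `[-M, M]`. -/
def ricCl (M s : ℝ) : ℝ := max (-M) (min s M)

lemma ric_cl_lip (M s s' : ℝ) : |ricCl M s - ricCl M s'| ≤ |s - s'| := by
  unfold ricCl
  refine (abs_max_sub_max_le_max _ _ _ _).trans ?_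
  rw [sub_self, abs_zero]
  refine max_le (abs_nonneg _) ((abs_min_sub_min_le_max _ _ _ _).trans ?_)
  rw [sub_self, abs_zero]
  exact max_le le_rfl (abs_nonneg _)

lemma ric_cl_le {M : ℝ} (hM : 0 ≤ M) (s : ℝ) : |ricCl M s| ≤ M := by
  unfold ricCl
  rw [abs_le]
  exact ⟨le_max_left _ _, max_le (by linarith) (min_le_right _ _)⟩

lemma ric_cl_eq {M s : ℝ} (h : |s| ≤ M) : ricCl M s = s := by
  unfold ricCl
  rw [abs_le] at h
  rw [min_eq_left h.2, max_eq_right h.1]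

lemma ric_cl_le_self {M : ℝ} (hM : 0 ≤ M) (s : ℝ) : |ricCl M s| ≤ |s| := by
  have h := ric_cl_lip M s 0
  rwa [ric_cl_eq (s := 0) (by simpa using hM), sub_zero, sub_zero] at h

lemma ric_ici {E : Type} [NormedAddCommGroup E] [NormedSpace ℝ E] {a b x : ℝ} {y : ℝ → E} {d : E}
    (h : HasDerivWithinAt y d (Icc a b) x) (hx : x ∈ Ico a b) : HasDerivWithinAt y d (Ici x) x :=
  h.mono_of_mem_nhdsWithin (Icc_mem_nhdsGE_of_mem hx)

/-- Linear systems: Picard-Lindelöf for the field with the unknown clamped to a large box, and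
Gronwall's inequality to see that the clamp is inactive. -/
theorem ode_lin {a b : ℝ} (hab : a ≤ b) {A : ℝ → (ℝ × ℝ) →L[ℝ] (ℝ × ℝ)}
    (hA : ContinuousOn A (Icc a b)) (y₀ : ℝ × ℝ) :
    ∃ y : ℝ → ℝ × ℝ, y a = y₀ ∧ ∀ x ∈ Icc a b, HasDerivWithinAt y (A x (y x)) (Icc a b) x := by
  obtain ⟨K₀, hK₀⟩ := isCompact_Icc.exists_bound_of_continuousOn hA
  have hK : 0 ≤ K₀ := (norm_nonneg _).trans (hK₀ a (left_mem_Icc.2 hab))
  set M : ℝ := ‖y₀‖ * Real.exp (K₀ * (b - a)) with hMdef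
  have hM : 0 ≤ M := by positivity
  let c : ℝ × ℝ → ℝ × ℝ := fun y => (ricCl M y.1, ricCl M y.2)
  have hc1 : ∀ y y', ‖c y - c y'‖ ≤ ‖y - y'‖ := by
    intro y y'
    rw [Prod.norm_def, Prod.norm_def]
    exact max_le_max (ric_cl_lip M y.1 y'.1) (ric_cl_lip M y.2 y'.2)
  have hc2 : ∀ y, ‖c y‖ ≤ M := fun y => by
    rw [Prod.norm_def]
    exact max_le (ric_cl_le hM _) (ric_cl_le hM _)
  have hc3 : ∀ y, ‖c y‖ ≤ ‖y‖ := fun y => by
    rw [Prod.norm_def, Prod.norm_def]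
    exact max_le_max (ric_cl_le_self hM _) (ric_cl_le_self hM _)
  have hc4 : ∀ y, ‖y‖ ≤ M → c y = y := fun y hy =>
    Prod.ext (ric_cl_eq ((norm_fst_le y).trans hy)) (ric_cl_eq ((norm_snd_le y).trans hy))
  obtain ⟨y, hy0, hy⟩ := ric_glob hab (f := fun t y => A t (c y)) (K := K₀) (M := K₀ * M) hK
    (mul_nonneg hK hM)
    (fun t ht x y => by
      rw [← map_sub]
      exact ((A t).le_opNorm _).trans (mul_le_mul (hK₀ t ht) (hc1 x y) (norm_nonneg _) hK))
    (fun x => hA.clm_apply continuousOn_const)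
    (fun t ht x => ((A t).le_opNorm _).trans (mul_le_mul (hK₀ t ht) (hc2 x) (norm_nonneg _) hK)) y₀
  have hbd : ∀ x ∈ Icc a b, ‖y x‖ ≤ M := by
    intro x hx
    have := norm_le_gronwallBound_of_norm_deriv_right_le (f := y) (f' := fun t => A t (c (y t)))
      (δ := ‖y₀‖) (K := K₀) (ε := 0) (a := a) (b := b)
      (fun t ht => (hy t ht).continuousWithinAt)
      (fun t ht => ric_ici (hy t (Ico_subset_Icc_self ht)) ht) (by rw [hy0])
      (fun t ht => by
        rw [add_zero]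
        exact ((A t).le_opNorm _).trans
          (mul_le_mul (hK₀ t (Ico_subset_Icc_self ht)) (hc3 _) (norm_nonneg _) hK)) x hx
    rw [gronwallBound_ε0] at this
    refine this.trans (mul_le_mul_of_nonneg_left (Real.exp_le_exp.2 ?_) (norm_nonneg _))
    exact mul_le_mul_of_nonneg_left (by linarith [hx.2]) hK
  refine ⟨y, hy0, fun x hx => ?_⟩
  have := hy x hx
  rwa [hc4 _ (hbd x hx)] at this

/-- Solve `r' = κ² - (w + clamp r)²`, `r 0 = κ`; then `r ≤ κ + κ² x`, and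
`r ≥ κ / 2 - 2 ∫₀ˣ w² > 0` by a fencing argument (where `r` meets this barrier,
`r' ≥ κ² - 2 r² - 2 w² > -2 w²`). Put `v = w + r`; smoothness by induction on the order. -/
theorem ric_exists {L κ R : ℝ} (hL : 0 < L) {w : ℝ → ℝ} (hw : SmI L w) (hR : nL L w ≤ R)
    (hκ : 4 * R ^ 2 < κ) : ∃ v, Ric L κ w v := by
  have hκ0 : 0 < κ := lt_of_le_of_lt (by positivity) hκ
  obtain ⟨W₀, hW₀⟩ := isCompact_Icc.exists_bound_of_continuousOn hw.cont
  have hW : 0 ≤ W₀ := (norm_nonneg _).trans (hW₀ 0 (left_mem_Icc.2 hL.le))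
  set M : ℝ := κ + κ ^ 2 * L with hMdef
  have hM : 0 ≤ M := by positivity
  have hsum : ∀ t ∈ Icc 0 L, ∀ s, |w t + ricCl M s| ≤ W₀ + M := fun t ht s =>
    (abs_add_le _ _).trans (add_le_add (hW₀ t ht) (ric_cl_le hM s))
  obtain ⟨r, hr0, hr⟩ := ric_glob hL.le (f := fun t s => κ ^ 2 - (w t + ricCl M s) ^ 2)
    (K := 2 * (W₀ + M)) (M := κ ^ 2 + (W₀ + M) ^ 2) (by positivity) (by positivity)
    (fun t ht x y => by
      have e : κ ^ 2 - (w t + ricCl M x) ^ 2 - (κ ^ 2 - (w t + ricCl M y) ^ 2) =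
          -(((w t + ricCl M x) + (w t + ricCl M y)) * (ricCl M x - ricCl M y)) := by ring
      rw [e, norm_neg, Real.norm_eq_abs, Real.norm_eq_abs, abs_mul]
      refine mul_le_mul ((abs_add_le _ _).trans ?_) (ric_cl_lip M x y) (abs_nonneg _)
        (by positivity)
      linarith [hsum t ht x, hsum t ht y])
    (fun x => continuousOn_const.sub ((hw.cont.add continuousOn_const).pow 2))
    (fun t ht x => by
      rw [Real.norm_eq_abs]
      refine (abs_sub _ _).trans ?_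
      rw [abs_of_nonneg (sq_nonneg κ), abs_pow]
      exact add_le_add le_rfl (pow_le_pow_left₀ (abs_nonneg _) (hsum t ht x) 2)) κ
  have hrc : ContinuousOn r (Icc 0 L) := fun t ht => (hr t ht).continuousWithinAt
  have hup : ∀ x ∈ Icc 0 L, r x ≤ κ + κ ^ 2 * x := by
    refine image_le_of_deriv_right_le_deriv_boundary (B := fun x => κ + κ ^ 2 * x)
      (B' := fun _ => κ ^ 2) hrc (fun t ht => ric_ici (hr t (Ico_subset_Icc_self ht)) ht)
      (by rw [hr0]; simp) (by fun_prop) (fun x _ => ?_) fun x _ => ?_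
    · have := ((hasDerivAt_id x).const_mul (κ ^ 2)).const_add κ
      rw [mul_one] at this
      exact this.hasDerivWithinAt
    · linarith [sq_nonneg (w x + ricCl M (r x))]
  have hw2 : SmI L fun x => w x ^ 2 := ContDiffOn.pow hw 2
  obtain ⟨hp1, hp2⟩ := hw2.primitive hL
  have hp3 : ∀ x ∈ Icc 0 L, 0 ≤ ∫ y in (0 : ℝ)..x, w y ^ 2 := fun x hx =>
    intervalIntegral.integral_nonneg hx.1 fun y _ => sq_nonneg _
  have hp4 : ∀ x ∈ Icc 0 L, ∫ y in (0 : ℝ)..x, w y ^ 2 ≤ R ^ 2 := by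
    intro x hx
    have h1 : ∫ y in (0 : ℝ)..x, w y ^ 2 ≤ ∫ y in (0 : ℝ)..L, w y ^ 2 :=
      intervalIntegral.integral_mono_interval le_rfl hx.1 hx.2
        (Eventually.of_forall fun y => sq_nonneg _)
        ((hw2.cont.mono (by rw [uIcc_of_le hL.le])).intervalIntegrable)
    rw [← nL_sq hL.le] at h1
    exact h1.trans (pow_le_pow_left₀ (nL_nonneg L w) hR 2)
  have hlow : ∀ x ∈ Icc 0 L, κ / 2 - 2 * ∫ y in (0 : ℝ)..x, w y ^ 2 ≤ r x := by
    refine image_le_of_deriv_right_lt_deriv_boundary'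
      (f := fun x => κ / 2 - 2 * ∫ y in (0 : ℝ)..x, w y ^ 2) (f' := fun x => -(2 * w x ^ 2))
      (continuousOn_const.sub (continuousOn_const.mul hp1.cont)) (fun x hx => ?_)
      (by rw [hr0]; simp; linarith) hrc
      (fun t ht => ric_ici (hr t (Ico_subset_Icc_self ht)) ht) fun x hx he => ?_
    · have h1 := hp1.hasDerivWithinAt (Ico_subset_Icc_self hx)
      rw [hp2 x (Ico_subset_Icc_self hx)] at h1
      exact ric_ici ((h1.const_mul 2).const_sub (κ / 2)) hx
    · have h1 := hp3 x (Ico_subset_Icc_self hx)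
      have h2 := hp4 x (Ico_subset_Icc_self hx)
      have h3 : 0 < r x := by linarith
      have h4 : r x ≤ κ / 2 := by linarith
      have h5 : ricCl M (r x) = r x := by
        refine ric_cl_eq ?_
        rw [abs_of_pos h3]
        nlinarith [mul_nonneg (sq_nonneg κ) hL.le]
      rw [h5]
      nlinarith [sq_nonneg (w x - r x)]
  have hpos : ∀ x ∈ Icc 0 L, 0 ≤ r x := fun x hx => by
    linarith [hlow x hx, hp4 x hx]
  have hle : ∀ x ∈ Icc 0 L, r x ≤ M := fun x hx =>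
    (hup x hx).trans (add_le_add le_rfl (mul_le_mul_of_nonneg_left hx.2 (sq_nonneg κ)))
  have hr' : ∀ t ∈ Icc 0 L, HasDerivWithinAt r (κ ^ 2 - (w t + r t) ^ 2) (Icc 0 L) t := by
    intro t ht
    have := hr t ht
    rwa [ric_cl_eq (by rw [abs_of_nonneg (hpos t ht)]; exact hle t ht)] at this
  have hsm : SmI L r := by
    refine ODE.contDiffOn_enat_Icc_of_hasDerivWithinAt (u := univ)
      (f := fun t s => κ ^ 2 - (w t + s) ^ 2) ?_ hr' (mapsTo_univ _ _)
    have h1 : ContDiffOn ℝ (⊤ : ℕ∞) (fun p : ℝ × ℝ => w p.1) (Icc 0 L ×ˢ univ) :=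
      ContDiffOn.comp (g := w) hw contDiffOn_fst fun p hp => hp.1
    exact contDiffOn_const.sub ((h1.add contDiffOn_snd).pow 2)
  refine ⟨fun x => w x + r x, ContDiffOn.add hw hsm, fun x hx => ?_, by rw [hr0], fun x hx => ?_⟩
  · rw [dI_eq (q := fun x => w x + r x) hL hx ((hw.hasDerivWithinAt hx).add (hr' x hx))]
    ring
  · rw [add_sub_cancel_left]
    exact ⟨hpos x hx, hle x hx⟩

/-- `(r - r')' = -(v + v') (r - r') - (v + v') (w - w')` and `abs_le_of_linear_ode`. -/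
theorem ric_lip {L : ℝ} (hL : 0 < L) (κ R : ℝ) : ∃ C, 0 ≤ C ∧ ∀ w w' v v' : ℝ → ℝ,
    SmI L w → SmI L w' → nL L w ≤ R → nL L w' ≤ R → Ric L κ w v → Ric L κ w' v' →
    ∀ x ∈ Icc 0 L, |(v x - w x) - (v' x - w' x)| ≤ C * nL L fun x => w x - w' x := by
  set S : ℝ := 2 * (|R| + Real.sqrt L * |κ + κ ^ 2 * L|) with hS
  have hS0 : 0 ≤ S := by positivity
  refine ⟨Real.exp (2 * (Real.sqrt L * S)) * S, by positivity, ?_⟩
  intro w w' v v' hw hw' hR hR' h h' x hx
  have hnv : ∀ w v : ℝ → ℝ, SmI L w → nL L w ≤ R → Ric L κ w v →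
      nL L v ≤ |R| + Real.sqrt L * |κ + κ ^ 2 * L| := by
    intro w v hw hR h
    have e : nL L v = nL L fun x => w x + (v x - w x) :=
      nL_congr hL.le fun x _ => by ring
    rw [e]
    refine (nL_add_le hL.le hw.cont (h.sm.cont.sub hw.cont)).trans
      (add_le_add (hR.trans (le_abs_self R)) ?_)
    refine nL_le_of_abs_le hL.le (h.sm.cont.sub hw.cont) fun x hx => ?_
    rw [Pi.sub_apply, abs_of_nonneg (h.bd x hx).1]
    exact (h.bd x hx).2.trans (le_abs_self _)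
  have hcv : ContinuousOn (fun x => v x + v' x) (Icc 0 L) := h.sm.cont.add h'.sm.cont
  have hcw : ContinuousOn (fun x => w x - w' x) (Icc 0 L) := hw.cont.sub hw'.cont
  have hn : nL L (fun x => v x + v' x) ≤ S := by
    refine (nL_add_le hL.le h.sm.cont h'.sm.cont).trans ?_
    linarith [hnv w v hw hR h, hnv w' v' hw' hR' h']
  have key := abs_le_of_linear_ode (L := L) (d := fun x => (v x - w x) - (v' x - w' x))
    (c := fun x => v x + v' x) (r := fun x => -((v x + v' x) * (w x - w' x)))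
    ((h.sm.cont.sub hw.cont).sub (h'.sm.cont.sub hw'.cont)) hcv (hcv.mul hcw).neg
    (fun y hy => by
      have h1 := ((h.sm.hasDerivAt hy).sub (hw.hasDerivAt hy)).sub
        ((h'.sm.hasDerivAt hy).sub (hw'.hasDerivAt hy))
      rw [h.eq y (Ioo_subset_Icc_self hy), h'.eq y (Ioo_subset_Icc_self hy)] at h1
      exact h1.congr_deriv (by ring)) hx (left_mem_Icc.2 hL.le)
  have e0 : v 0 - w 0 - (v' 0 - w' 0) = 0 := by
    rw [h.init, h'.init]
    ring
  simp only [e0, abs_zero, zero_add, abs_neg] at key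
  refine key.trans ?_
  rw [mul_assoc (Real.exp _)]
  refine mul_le_mul (Real.exp_le_exp.2 ?_) ?_
    (intervalIntegral.integral_nonneg hL.le fun y _ => abs_nonneg _) (Real.exp_pos _).le
  · refine mul_le_mul_of_nonneg_left ((integral_abs_le hL.le hcv).trans ?_) (by norm_num)
    exact mul_le_mul_of_nonneg_left hn (Real.sqrt_nonneg L)
  · exact (integral_abs_mul_le hL.le hcv hcw).trans
      (mul_le_mul_of_nonneg_right hn (nL_nonneg L _))

lemma ric_wn_le_of_abs_le {L : ℝ} (hL : 0 < L) (P : BC) {q : ℝ → ℝ} {B : ℝ}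
    (hq : ContinuousOn q (Icc 0 L)) (h : ∀ x ∈ Icc 0 L, |q x| ≤ B) :
    wn L P q ≤ (Real.sqrt L + 2) * B := by
  have h0 := h 0 (left_mem_Icc.2 hL.le)
  have h1 := h L (right_mem_Icc.2 hL.le)
  have h2 := nL_le_of_abs_le hL.le hq h
  have hB : 0 ≤ B := (abs_nonneg _).trans h0
  unfold wn
  split_ifs <;> linarith

/-- The Riccati solutions are Lipschitz in the norm `wn`. -/
theorem ric_wn {L : ℝ} (hL : 0 < L) (P : BC) (κ R : ℝ) : ∃ C, 0 ≤ C ∧ ∀ w w' v v' : ℝ → ℝ,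
    SmI L w → SmI L w' → nL L w ≤ R → nL L w' ≤ R → Ric L κ w v → Ric L κ w' v' →
    wn L P (fun x => v x - v' x) ≤ C * wn L P fun x => w x - w' x := by
  obtain ⟨C, hC, hlip⟩ := ric_lip hL κ R
  refine ⟨1 + (Real.sqrt L + 2) * C, by positivity, ?_⟩
  intro w w' v v' hw hw' hR hR' h h'
  have hcw : ContinuousOn (fun x => w x - w' x) (Icc 0 L) := hw.cont.sub hw'.cont
  have hcd : ContinuousOn (fun x => (v x - w x) - (v' x - w' x)) (Icc 0 L) :=
    (h.sm.cont.sub hw.cont).sub (h'.sm.cont.sub hw'.cont)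
  have e : wn L P (fun x => v x - v' x) =
      wn L P fun x => (w x - w' x) + ((v x - w x) - (v' x - w' x)) :=
    wn_congr hL.le P fun x _ => by ring
  rw [e]
  refine (wn_add_le hL.le P hcw hcd).trans ?_
  have h1 := ric_wn_le_of_abs_le hL P hcd (hlip w w' v v' hw hw' hR hR' h h')
  have h2 : (Real.sqrt L + 2) * (C * nL L fun x => w x - w' x) ≤
      (Real.sqrt L + 2) * (C * wn L P fun x => w x - w' x) :=
    mul_le_mul_of_nonneg_left (mul_le_mul_of_nonneg_left (nL_le_wn L P _) hC) (by positivity)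
  linarith

theorem Ric.wn_le {L κ : ℝ} (hL : 0 < L) (P : BC) {w v : ℝ → ℝ} (hw : SmI L w)
    (h : Ric L κ w v) : wn L P v ≤ wn L P w + (Real.sqrt L + 2) * (κ + κ ^ 2 * L) := by
  have e : wn L P v = wn L P fun x => w x + (v x - w x) := wn_congr hL.le P fun x _ => by ring
  rw [e]
  refine (wn_add_le hL.le P hw.cont (h.sm.cont.sub hw.cont)).trans (add_le_add le_rfl ?_)
  refine ric_wn_le_of_abs_le hL P (h.sm.cont.sub hw.cont) fun x hx => ?_
  rw [Pi.sub_apply, abs_of_nonneg (h.bd x hx).1]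
  exact (h.bd x hx).2

end Pool.Agent.Lib.MP_14aec4_an.W
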