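import Pool.Agent.Lib.MP_14aec4_an.MM
import Pool.Agent.Lib.MP_14aec4_an.Ric
import Pool.Agent.Lib.MP_14aec4_an.Ext

/-!
From the fixed point to a smooth solution of KdV.
-/

noncomputable section

open MeasureTheory Set Filter Topology FourierTransform
open scoped ENNReal ComplexConjugate

namespace Pool.Agent.Lib.MP_14aec4_an.W

lemma exmid_wn_le {L B : ℝ} (hL : 0 < L) (P : BC) {g : ℝ → ℝ} (hg : ContinuousOn g (Icc 0 L))
    (hB : 0 ≤ B) (h : ∀ x ∈ Icc 0 L, |g x| ≤ B) : wn L P g ≤ (Real.sqrt L + 2) * B := by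
  have h1 := nL_le_of_abs_le hL.le hg h
  have h2 : (if P.d0 then |g 0| else 0) ≤ B := by
    split_ifs
    · exact h 0 ⟨le_rfl, hL.le⟩
    · exact hB
  have h3 : (if P.dL then |g L| else 0) ≤ B := by
    split_ifs
    · exact h L ⟨hL.le, le_rfl⟩
    · exact hB
  unfold wn
  linarith

lemma exmid_init {L κ : ℝ} (hL : 0 < L) (P : BC) {w q : ℝ → ℝ} (hw : SmI L w) (hq : Ric L κ w q)
    {ε : ℝ} (hε : 0 < ε) : ∃ ε' > 0, ∀ z : ℝ → ℝ, SmI L z → wn L P (fun x => z x - q x) ≤ ε' →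
      ∃ w', SmI L w' ∧ (∀ x ∈ Icc 0 L, dI L w' x = dI L z x + z x ^ 2 - κ ^ 2) ∧
        wn L P (fun x => w' x - w x) ≤ ε := by
  have hQ := nL_nonneg L q
  obtain ⟨C, hC⟩ : ∃ C, C = 1 + (Real.sqrt L + 2) * (1 + 2 * nL L q) := ⟨_, rfl⟩
  have hC0 : 0 < C := by rw [hC]; positivity
  refine ⟨min 1 (ε / C), lt_min one_pos (div_pos hε hC0), fun z hz hd => ?_⟩
  have hsq : SmI L fun y => z y ^ 2 - q y ^ 2 := ContDiffOn.sub (hz.pow 2) (hq.sm.pow 2)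
  obtain ⟨hI, hI'⟩ := hsq.primitive hL
  have cd : ContinuousOn (fun x => z x - q x) (Icc 0 L) := hz.cont.sub hq.sm.cont
  have c2 : ContinuousOn (fun x => 2 * q x) (Icc 0 L) := continuousOn_const.mul hq.sm.cont
  refine ⟨fun x => w x + ((z x - q x) + ∫ y in (0 : ℝ)..x, (z y ^ 2 - q y ^ 2)),
    ContDiffOn.add hw (ContDiffOn.add (ContDiffOn.sub hz hq.sm) hI), fun x hx => ?_, ?_⟩
  · rw [dI_eq hL hx ((hw.hasDerivWithinAt hx).fun_add (((hz.hasDerivWithinAt hx).fun_sub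
      (hq.sm.hasDerivWithinAt hx)).fun_add (hI.hasDerivWithinAt hx))), hI' x hx, hq.eq x hx]
    ring
  · simp only [add_sub_cancel_left]
    refine (wn_add_le hL.le P cd hI.cont).trans ?_
    have h0 := wn_nonneg L P fun x => z x - q x
    have h1 := nL_le_wn L P fun x => z x - q x
    have h2 := nL_add_le hL.le cd c2
    rw [nL_const_mul, abs_two] at h2
    have h3 := integral_abs_mul_le hL.le cd (cd.add c2)
    have h4 := nL_nonneg L fun x => z x - q x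
    have h5 := hd.trans (min_le_left _ _)
    have h6 := hd.trans (min_le_right _ _)
    generalize wn L P (fun x => z x - q x) = e at h0 h1 h5 h6
    have h7 : ∀ x ∈ Icc 0 L, |∫ y in (0 : ℝ)..x, (z y ^ 2 - q y ^ 2)| ≤ e * (1 + 2 * nL L q) := by
      intro x hx
      refine (intervalIntegral.abs_integral_le_integral_abs hx.1).trans
        ((intervalIntegral.integral_mono_interval le_rfl hx.1 hx.2
          (Eventually.of_forall fun _ => abs_nonneg _)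
          (hsq.cont.abs.intervalIntegrable_of_Icc hL.le)).trans ?_)
      have e1 : (fun y => |z y ^ 2 - q y ^ 2|) =
          fun y => |(z y - q y) * (z y - q y + 2 * q y)| := by
        funext y
        congr 1
        ring
      rw [e1]
      exact h3.trans (mul_le_mul h1 (h2.trans (by linarith)) (nL_nonneg _ _) h0)
    have h8 := exmid_wn_le hL P hI.cont (by positivity) h7
    rw [le_div_iff₀ hC0, hC] at h6
    linarith

/-- `fp_exists` with `t₀ = -τ`, `FP.fsol`, `FSol.ksol` on `[0, T']`, `mismatch` on `[-τ, 0]`, and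
`w' = w + (Z(·,0) - q) + ∫₀ˣ (Z(·,0)² - q²)`. -/
theorem ex_mid {L κ γ η T' : ℝ} (hL : 0 < L) {P : BC} (hP : P.Valid) (hγ : Big L γ) (hT : 0 < T')
    {m : ℝ → ℝ} (hm : SC m) (hm1 : ∀ t ∈ Icc (-1 / γ) T', m t = 1) {A : Fin 3 → ℝ}
    (hA : ∀ n, mulC γ w1 (mm γ m n) ≤ A n) (hs : Smal L κ P γ A η) {w q : ℝ → ℝ} (hw : SmI L w)
    (hq : Ric L κ w q) {ℓb : Fin 3 → ℝ → ℝ} (hℓ : ∀ i, ContDiff ℝ (⊤ : ℕ∞) (ℓb i))
    (h : ∃ τ₀ > 0, ∀ τ ∈ Ioc 0 τ₀, ∃ H : Fin 3 → ℝ → ℝ, (∀ i, SC (H i)) ∧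
      (∀ i, ∀ t ≤ T', H i t = rp (-τ) τ t * ℓb i t) ∧
      SBd L γ w1 (linS L P γ (fun x t => deriv (rp (-τ) τ) t * q x)
        fun i t => H i t - P.dyn i * deriv (rp (-τ) τ) t * q (ept L i)) η)
    {ε : ℝ} (hε : 0 < ε) :
    ∃ u, KSol L 0 T' u ∧ (∀ i, ∀ t ∈ Ioo 0 T', bop L P u i t = -6 * ℓb i t + 6 * κ ^ 2 * P.c i) ∧
      ∃ w', SmI L w' ∧ (∀ x ∈ Icc 0 L, dI L w' x = -u x 0 / 6) ∧
        wn L P (fun x => w' x - w x) ≤ ε := by
  obtain ⟨ε', hε', hinit⟩ := exmid_init hL P hw hq hε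
  obtain ⟨τ₀, hτ₀, h⟩ := h
  obtain ⟨τ₁, hτ₁, hmis⟩ := mismatch hL κ hP hq.sm hℓ hε'
  have hγ0 : 0 < γ := zero_lt_one.trans_le hγ.1
  obtain ⟨τ, hτ, h0, h1, h2⟩ : ∃ τ, 0 < τ ∧ τ ≤ τ₀ ∧ τ ≤ τ₁ ∧ τ ≤ 1 / γ :=
    ⟨min τ₀ (min τ₁ (1 / γ)), lt_min hτ₀ (lt_min hτ₁ (by positivity)), min_le_left _ _,
      (min_le_right _ _).trans (min_le_left _ _), (min_le_right _ _).trans (min_le_right _ _)⟩
  obtain ⟨H, hH, hHe, bl⟩ := h τ ⟨hτ, h0⟩
  have hX := sc_deriv_rp hτ (-τ)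
  have hX0 : ∀ t ≤ -τ, deriv (rp (-τ) τ) t = 0 := fun t ht =>
    deriv_rp_zero hτ fun h => absurd h.1 (not_lt.2 ht)
  have hX1 : ∀ t, 0 ≤ t → deriv (rp (-τ) τ) t = 0 := fun t ht =>
    deriv_rp_zero hτ fun h => absurd h.2 (not_lt.2 (by linarith))
  obtain ⟨V, hV, -, hV0⟩ := fp_exists hL hP hγ hm (SC2.prod hX hq.sm)
    (fun i => (hH i).sub ((SC.mul_left contDiff_const hX).mul_right contDiff_const)) hA hs bl
    (t₀ := -τ) (fun x _ t ht => by simp only [hX0 t ht, zero_mul])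
    (fun i t ht => by
      simp only [hHe i t (by linarith), hX0 t ht, rp_zero hτ ht, zero_mul, mul_zero, sub_zero])
  have hZ := hV.fsol hL hγ (t₀ := -τ) (t₁ := T') fun t ht =>
    hm1 t ⟨by rw [neg_div]; linarith [ht.1], ht.2.le⟩
  obtain ⟨hk, hb⟩ := (hZ.mono (s₀ := 0) (by linarith) le_rfl).ksol hL hT
    fun x _ t ht => by simp only [hX1 t ht.1.le, zero_mul]
  have hd := hmis τ ⟨hτ, h1⟩ (zOf γ V)
    ((hZ.mono le_rfl hT.le).congr (fun _ _ _ _ => rfl) fun i t ht => by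
      rw [hHe i t (by linarith [ht.2])])
    fun x hx => by rw [zOf, hV0 0 x hx _ le_rfl, mul_zero]
  obtain ⟨w', h3, h4, h5⟩ := hinit (fun x => zOf γ V x 0)
    (hZ.sm.slice_x ⟨by linarith, hT.le⟩) hd
  refine ⟨miura L κ (zOf γ V), hk, fun i t ht => ?_, w', h3, fun x hx => ?_, h5⟩
  · rw [hb i t ht, hHe i t ht.2.le, hX1 t ht.1.le, rp_one hτ (by linarith [ht.1])]
    ring
  · rw [h4 x hx, miura, px_eq_dI]
    ring

end Pool.Agent.Lib.MP_14aec4_an.W
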