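import Pool.Agent.Lib.MP_14aec4_an.FB0

/-!
Basic facts on the frequency side: the weight `om`, rapidly decaying functions, weighted norms.
-/

noncomputable section

open MeasureTheory Set Filter Topology FourierTransform
open scoped ENNReal ComplexConjugate

namespace Pool.Agent.Lib.MP_14aec4_an.W

/-! ### Weighted norms -/

lemma fb_wnonneg {γ : ℝ} {w : ℝ → ℝ} (hw : ∀ τ, 0 ≤ w τ) (σ τ : ℝ) : 0 ≤ om γ τ ^ σ * w τ :=
  mul_nonneg (Real.rpow_nonneg (om_nonneg γ τ) σ) (hw τ)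

lemma fb_norm {γ : ℝ} {w : ℝ → ℝ} (hw : ∀ τ, 0 ≤ w τ) (σ τ : ℝ) (z : ℂ) :
    ‖((om γ τ ^ σ * w τ : ℝ) : ℂ) * z‖ = om γ τ ^ σ * w τ * ‖z‖ := by
  rw [norm_mul, Complex.norm_real, Real.norm_of_nonneg (fb_wnonneg hw σ τ)]

lemma fb_adm_nonneg {w : ℝ → ℝ} (hw : Adm w) (τ : ℝ) : 0 ≤ w τ :=
  zero_le_one.trans (hw.one_le τ)

lemma fb_aesm {γ : ℝ} {w : ℝ → ℝ} (hγ : 0 < γ) (hw : Adm w) (σ : ℝ) {A : ℝ → ℂ}
    (hA : AEStronglyMeasurable A volume) :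
    AEStronglyMeasurable (fun τ => ((om γ τ ^ σ * w τ : ℝ) : ℂ) * A τ) volume :=
  (Complex.continuous_ofReal.comp
    ((continuous_om_rpow hγ σ).mul hw.cont)).aestronglyMeasurable.mul hA

/-- Comparison of two weighted norms. -/
lemma fb_cmp {γ σ σ' K c : ℝ} {w w' : ℝ → ℝ} (hw : ∀ τ, 0 ≤ w τ) (hw' : ∀ τ, 0 ≤ w' τ)
    {A B : ℝ → ℂ} (hK : 0 ≤ K)
    (h : ∀ τ, om γ τ ^ σ * w τ * ‖A τ‖ ≤ K * (om γ τ ^ σ' * w' τ * ‖B τ‖))
    (hB : Bd γ w' σ' B c) : Bd γ w σ A (K * c) := by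
  unfold Bd at *
  rw [ENNReal.ofReal_mul hK]
  refine le_trans ?_ (mul_le_mul_right hB _)
  unfold nrm
  refine eLpNorm_le_mul_eLpNorm_of_ae_le_mul (Eventually.of_forall fun τ => ?_) 2
  rw [fb_norm hw, fb_norm hw']
  exact h τ

lemma fb_pow_le {ε a : ℝ} (hε : 0 ≤ ε) (hε1 : ε ≤ 1) (ha : 0 ≤ a) (n : ℕ) :
    (1 + ε * a) ^ n ≤ 1 + ε * ((1 + a) ^ n - 1) := by
  induction n with
  | zero => simp
  | succ n ih =>
    have hX : 1 ≤ (1 + a) ^ n := one_le_pow₀ (by linarith)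
    have h1 : 0 ≤ ε * a := mul_nonneg hε ha
    calc (1 + ε * a) ^ (n + 1) = (1 + ε * a) ^ n * (1 + ε * a) := pow_succ _ _
      _ ≤ (1 + ε * ((1 + a) ^ n - 1)) * (1 + ε * a) :=
          mul_le_mul_of_nonneg_right ih (by linarith)
      _ ≤ 1 + ε * ((1 + a) ^ (n + 1) - 1) := by
          rw [pow_succ]
          have h2 : 0 ≤ ε * a * ((1 + a) ^ n - 1) * (1 - ε) :=
            mul_nonneg (mul_nonneg h1 (by linarith)) (by linarith)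
          nlinarith

lemma nrm_eq {γ : ℝ} {w : ℝ → ℝ} (hw : ∀ τ, 0 ≤ w τ) (σ : ℝ) (A : ℝ → ℂ) :
    nrm γ w σ A =
      (∫⁻ τ, (ENNReal.ofReal (om γ τ ^ σ * w τ) * ‖A τ‖ₑ) ^ 2) ^ ((1 : ℝ) / 2) := by
  unfold nrm
  rw [eLpNorm_eq_lintegral_rpow_enorm_toReal (by norm_num) (by norm_num)]
  simp only [ENNReal.toReal_ofNat, ENNReal.rpow_ofNat]
  congr 1
  refine lintegral_congr fun τ => ?_
  congr 1
  rw [← ofReal_norm, fb_norm hw, ENNReal.ofReal_mul (fb_wnonneg hw σ τ),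
    ofReal_norm]

lemma bd_iff {γ : ℝ} {w : ℝ → ℝ} (hw : ∀ τ, 0 ≤ w τ) (σ : ℝ) (A : ℝ → ℂ) {c : ℝ} (hc : 0 ≤ c) :
    Bd γ w σ A c ↔
      ∫⁻ τ, (ENNReal.ofReal (om γ τ ^ σ * w τ) * ‖A τ‖ₑ) ^ 2 ≤ ENNReal.ofReal (c ^ 2) := by
  unfold Bd
  rw [nrm_eq hw, one_div, ENNReal.rpow_inv_le_iff (by norm_num), ENNReal.ofReal_pow hc,
    ENNReal.rpow_ofNat]

lemma Bd.mono {γ σ : ℝ} {w : ℝ → ℝ} {A : ℝ → ℂ} {c c' : ℝ} (h : Bd γ w σ A c) (hc : c ≤ c') :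
    Bd γ w σ A c' := by
  exact le_trans h (ENNReal.ofReal_le_ofReal hc)

lemma Bd.zero (γ : ℝ) (w : ℝ → ℝ) (σ c : ℝ) : Bd γ w σ (fun _ => 0) c := by
  unfold Bd nrm
  simp

lemma Bd.add {γ σ : ℝ} {w : ℝ → ℝ} (hγ : 0 < γ) (hw : Adm w) {A B : ℝ → ℂ} {c d : ℝ}
    (hA : AEStronglyMeasurable A volume) (hB : AEStronglyMeasurable B volume)
    (hc : 0 ≤ c) (hd : 0 ≤ d) (h₁ : Bd γ w σ A c) (h₂ : Bd γ w σ B d) :
    Bd γ w σ (fun τ => A τ + B τ) (c + d) := by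
  unfold Bd at *
  rw [ENNReal.ofReal_add hc hd]
  refine le_trans ?_ (add_le_add h₁ h₂)
  unfold nrm
  refine le_trans (le_of_eq ?_)
    (eLpNorm_add_le (fb_aesm hγ hw σ hA) (fb_aesm hγ hw σ hB) (by norm_num))
  congr 1
  funext τ
  simp only [Pi.add_apply]
  ring

lemma Bd.sub {γ σ : ℝ} {w : ℝ → ℝ} (hγ : 0 < γ) (hw : Adm w) {A B : ℝ → ℂ} {c d : ℝ}
    (hA : AEStronglyMeasurable A volume) (hB : AEStronglyMeasurable B volume)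
    (hc : 0 ≤ c) (hd : 0 ≤ d) (h₁ : Bd γ w σ A c) (h₂ : Bd γ w σ B d) :
    Bd γ w σ (fun τ => A τ - B τ) (c + d) := by
  unfold Bd at *
  rw [ENNReal.ofReal_add hc hd]
  refine le_trans ?_ (add_le_add h₁ h₂)
  unfold nrm
  refine le_trans (le_of_eq ?_)
    (eLpNorm_sub_le (fb_aesm hγ hw σ hA) (fb_aesm hγ hw σ hB) (by norm_num))
  congr 1
  funext τ
  simp only [Pi.sub_apply]
  ring

lemma Bd.const_mul {γ σ : ℝ} {w : ℝ → ℝ} {A : ℝ → ℂ} {c : ℝ} (h : Bd γ w σ A c) (z : ℂ) :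
    Bd γ w σ (fun τ => z * A τ) (‖z‖ * c) := by
  unfold Bd at *
  rw [ENNReal.ofReal_mul (norm_nonneg z)]
  refine le_trans ?_ (mul_le_mul_right h _)
  unfold nrm
  refine eLpNorm_le_mul_eLpNorm_of_ae_le_mul (Eventually.of_forall fun τ => le_of_eq ?_) 2
  simp only [norm_mul]
  ring

lemma Bd.of_le {γ σ σ' K c : ℝ} {w : ℝ → ℝ} (hw : ∀ τ, 0 ≤ w τ) {A B : ℝ → ℂ} (hK : 0 ≤ K)
    (h : ∀ τ, om γ τ ^ σ * ‖A τ‖ ≤ K * (om γ τ ^ σ' * ‖B τ‖)) (hB : Bd γ w σ' B c) :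
    Bd γ w σ A (K * c) := by
  refine fb_cmp hw hw hK (fun τ => ?_) hB
  have h1 := mul_le_mul_of_nonneg_left (h τ) (hw τ)
  calc om γ τ ^ σ * w τ * ‖A τ‖ = w τ * (om γ τ ^ σ * ‖A τ‖) := by ring
    _ ≤ w τ * (K * (om γ τ ^ σ' * ‖B τ‖)) := h1
    _ = K * (om γ τ ^ σ' * w τ * ‖B τ‖) := by ring

lemma Bd.of_sum_le {ι : Type} (s : Finset ι) {γ σ : ℝ} {w : ℝ → ℝ} (hγ : 0 < γ) (hw : Adm w)
    {A : ℝ → ℂ} {B : ι → ℝ → ℂ} {σ' K c : ι → ℝ} (hK : ∀ i ∈ s, 0 ≤ K i) (hc : ∀ i ∈ s, 0 ≤ c i)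
    (hm : ∀ i ∈ s, AEStronglyMeasurable (B i) volume)
    (h : ∀ τ, om γ τ ^ σ * ‖A τ‖ ≤ ∑ i ∈ s, K i * (om γ τ ^ σ' i * ‖B i τ‖))
    (hB : ∀ i ∈ s, Bd γ w (σ' i) (B i) (c i)) : Bd γ w σ A (∑ i ∈ s, K i * c i) := by
  have hw0 := fb_adm_nonneg hw
  unfold Bd
  rw [ENNReal.ofReal_sum_of_nonneg (fun i hi => mul_nonneg (hK i hi) (hc i hi))]
  have h1 : nrm γ w σ A ≤ eLpNorm (∑ i ∈ s, fun τ =>
      K i * ‖((om γ τ ^ σ' i * w τ : ℝ) : ℂ) * B i τ‖) 2 volume := by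
    unfold nrm
    refine eLpNorm_mono_real fun τ => ?_
    rw [fb_norm hw0, Finset.sum_apply]
    have h2 := mul_le_mul_of_nonneg_left (h τ) (hw0 τ)
    calc om γ τ ^ σ * w τ * ‖A τ‖ = w τ * (om γ τ ^ σ * ‖A τ‖) := by ring
      _ ≤ w τ * ∑ i ∈ s, K i * (om γ τ ^ σ' i * ‖B i τ‖) := h2
      _ = _ := by
        rw [Finset.mul_sum]
        refine Finset.sum_congr rfl fun i _ => ?_
        rw [fb_norm hw0]
        ring
  refine h1.trans ((eLpNorm_sum_le (fun i hi => ?_) (by norm_num)).trans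
    (Finset.sum_le_sum fun i hi => ?_))
  · exact (fb_aesm hγ hw (σ' i) (hm i hi)).norm.const_mul _
  · rw [ENNReal.ofReal_mul (hK i hi)]
    refine le_trans ?_ (mul_le_mul_right (hB i hi) _)
    unfold nrm
    refine eLpNorm_le_mul_eLpNorm_of_ae_le_mul (Eventually.of_forall fun τ => le_of_eq ?_) 2
    rw [Real.norm_of_nonneg (mul_nonneg (hK i hi) (norm_nonneg _))]

lemma Bd.lower {γ σ σ' c : ℝ} {w : ℝ → ℝ} (hγ : 0 < γ) (hw : ∀ τ, 0 ≤ w τ) {A : ℝ → ℂ}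
    (hσ : σ ≤ σ') (h : Bd γ w σ' A c) : Bd γ w σ A (γ ^ (σ - σ') * c) := by
  refine Bd.of_le hw (Real.rpow_nonneg hγ.le _) (fun τ => ?_) h
  rw [← mul_assoc]
  refine mul_le_mul_of_nonneg_right ?_ (norm_nonneg _)
  have h1 : om γ τ ^ σ = om γ τ ^ (σ - σ') * om γ τ ^ σ' := by
    rw [← Real.rpow_add (om_pos hγ τ)]
    congr 1
    ring
  rw [h1]
  refine mul_le_mul_of_nonneg_right ?_ (Real.rpow_nonneg (om_nonneg γ τ) _)
  exact Real.rpow_le_rpow_of_nonpos hγ (le_om γ τ) (by linarith)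

lemma Bd.lower_one {γ σ σ' c : ℝ} {w : ℝ → ℝ} (hγ : 1 ≤ γ) (hw : ∀ τ, 0 ≤ w τ) {A : ℝ → ℂ}
    (hσ : σ ≤ σ') (h : Bd γ w σ' A c) : Bd γ w σ A c := by
  have h1 : Bd γ w σ A (1 * c) := by
    refine Bd.of_le hw zero_le_one (fun τ => ?_) h
    rw [one_mul]
    exact mul_le_mul_of_nonneg_right
      (Real.rpow_le_rpow_of_exponent_le (one_le_om hγ τ) hσ) (norm_nonneg _)
  rwa [one_mul] at h1

lemma Bd.sym {γ σ c : ℝ} {w : ℝ → ℝ} (hγ : 0 < γ) (hw : Adm w) {A : ℝ → ℂ}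
    (hA : AEStronglyMeasurable A volume) (h : Bd γ w σ A c) : Bd γ w σ (sym A) c := by
  have hw0 := fb_adm_nonneg hw
  have hmax : ENNReal.ofReal (max c 0) = ENNReal.ofReal c := by
    rcases le_total c 0 with hc | hc
    · rw [max_eq_right hc, ENNReal.ofReal_zero, ENNReal.ofReal_of_nonpos hc]
    · rw [max_eq_left hc]
  have h1 : Bd γ w σ A (max c 0) := h.mono (le_max_left _ _)
  have h2 : Bd γ w σ (fun τ => conj (A (-τ))) (max c 0) := by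
    unfold Bd at *
    rw [nrm_eq hw0] at *
    refine le_trans (le_of_eq ?_) h1
    congr 1
    rw [← lintegral_neg_eq_self]
    refine lintegral_congr fun τ => ?_
    rw [om_neg, hw.even, neg_neg, ← ofReal_norm, Complex.norm_conj, ofReal_norm]
  have hA' : AEStronglyMeasurable (fun τ => conj (A (-τ))) volume :=
    Complex.continuous_conj.comp_aestronglyMeasurable
      (hA.comp_quasiMeasurePreserving (Measure.measurePreserving_neg volume).quasiMeasurePreserving)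
  have h3 := (Bd.add hγ hw hA hA' (le_max_right _ _) (le_max_right _ _) h1 h2).const_mul (1 / 2)
  have h4 : ‖(1 / 2 : ℂ)‖ * (max c 0 + max c 0) = max c 0 := by
    rw [norm_div, norm_one, Complex.norm_two]
    ring
  rw [h4] at h3
  have h5 : W.sym A = fun τ => (1 / 2 : ℂ) * (A τ + conj (A (-τ))) := by
    funext τ
    unfold W.sym
    ring
  unfold Bd at *
  rw [← hmax, h5]
  exact h3

lemma Bd.of_forall_add {γ σ c : ℝ} {w : ℝ → ℝ} {A : ℝ → ℂ} (hc : 0 ≤ c)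
    (h : ∀ ε > 0, Bd γ w σ A (c + ε)) : Bd γ w σ A c := by
  unfold Bd at *
  refine ENNReal.le_of_forall_pos_le_add fun ε hε _ => ?_
  refine (h ε (by exact_mod_cast hε)).trans (le_of_eq ?_)
  rw [ENNReal.ofReal_add hc ε.coe_nonneg, ENNReal.ofReal_coe_nnreal]

lemma fb_bd_one {γ : ℝ} (hγ : 0 < γ) : Bd γ (fun _ => 1) (-2 / 3) (fun _ => 1) (aa γ) := by
  rw [bd_iff (fun _ => zero_le_one) _ _ (aa_nonneg γ), ← lintegral_om_rpow hγ]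
  refine le_of_eq (lintegral_congr fun τ => ?_)
  rw [mul_one, enorm_one, mul_one, ← ENNReal.ofReal_pow (Real.rpow_nonneg (om_nonneg γ τ) _),
    ← Real.rpow_natCast, ← Real.rpow_mul (om_nonneg γ τ)]
  congr 2
  norm_num

lemma bd_of_decay {γ : ℝ} {w : ℝ → ℝ} (hγ : 1 ≤ γ) (hw : Adm w) :
    ∃ (n : ℕ) (C : ℝ), 0 ≤ C ∧ ∀ σ ≤ 1, ∀ (A : ℝ → ℂ) (δ : ℝ), 0 ≤ δ →
      (∀ τ, ‖A τ‖ * (1 + |τ|) ^ n ≤ δ) → Bd γ w σ A (C * δ) := by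
  obtain ⟨Cw, m, hCw⟩ := hw.poly
  have hw0 := fb_adm_nonneg hw
  have hγ0 : 0 < γ := by linarith
  have hC0 : 0 ≤ Cw := by
    have h1 := (hw.one_le 0).trans (hCw 0)
    simp only [abs_zero, add_zero, one_pow, mul_one] at h1
    linarith
  have hG : 0 ≤ γ + 2 * Real.pi := by positivity
  refine ⟨m + 2, (γ + 2 * Real.pi) ^ 2 * Cw * aa γ, by
    have := aa_nonneg γ
    positivity, fun σ hσ A δ hδ hA => ?_⟩
  have h1 := fb_cmp (γ := γ) (σ := σ) (K := (γ + 2 * Real.pi) ^ 2 * Cw * δ) (A := A) hw0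
    (fun _ => zero_le_one) (by positivity) ?_ (fb_bd_one hγ0)
  · refine h1.mono (le_of_eq ?_)
    ring
  · intro τ
    have ho := one_le_om hγ τ
    have ho0 := om_pos hγ0 τ
    have hu : 0 < 1 + |τ| := by positivity
    have h2 : om γ τ ^ σ ≤ om γ τ := by
      have h3 := Real.rpow_le_rpow_of_exponent_le ho hσ
      rwa [Real.rpow_one] at h3
    have h3 : om γ τ ^ (-1 : ℝ) ≤ om γ τ ^ (-2 / 3 : ℝ) :=
      Real.rpow_le_rpow_of_exponent_le ho (by norm_num)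
    rw [Real.rpow_neg_one] at h3
    have h4 := om_le hγ0.le τ
    have h5 : om γ τ ^ σ * w τ * ‖A τ‖ * om γ τ ≤ (γ + 2 * Real.pi) ^ 2 * Cw * δ := by
      calc om γ τ ^ σ * w τ * ‖A τ‖ * om γ τ
          ≤ ((γ + 2 * Real.pi) * (1 + |τ|)) * (Cw * (1 + |τ|) ^ m) * ‖A τ‖ *
              ((γ + 2 * Real.pi) * (1 + |τ|)) := by
            have h6 : om γ τ ^ σ * w τ ≤
                ((γ + 2 * Real.pi) * (1 + |τ|)) * (Cw * (1 + |τ|) ^ m) :=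
              mul_le_mul (h2.trans h4) (hCw τ) (hw0 τ) (by positivity)
            exact mul_le_mul (mul_le_mul_of_nonneg_right h6 (norm_nonneg _)) h4 ho0.le
              (by positivity)
        _ = (γ + 2 * Real.pi) ^ 2 * Cw * (‖A τ‖ * (1 + |τ|) ^ (m + 2)) := by ring
        _ ≤ _ := mul_le_mul_of_nonneg_left (hA τ) (by positivity)
    have h6 : om γ τ ^ σ * w τ * ‖A τ‖ ≤ (γ + 2 * Real.pi) ^ 2 * Cw * δ * (om γ τ)⁻¹ := by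
      rw [← div_eq_mul_inv, le_div_iff₀ ho0]
      exact h5
    refine h6.trans ?_
    simp only [norm_one, mul_one]
    exact mul_le_mul_of_nonneg_left h3 (by positivity)

lemma RD2.exists_bd {γ : ℝ} {w : ℝ → ℝ} (hγ : 1 ≤ γ) (hw : Adm w) {F : ℝ → ℝ → ℂ} (hF : RD2 F) :
    ∃ c, 0 ≤ c ∧ ∀ σ ≤ 1, ∀ x, Bd γ w σ (F x) c := by
  obtain ⟨n, C, hC, h⟩ := bd_of_decay hγ hw
  obtain ⟨D, hD⟩ := hF.decay n
  have hD0 : 0 ≤ D := le_trans (by positivity) (hD 0 0)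
  exact ⟨C * D, mul_nonneg hC hD0, fun σ hσ x => h σ hσ (F x) D hD0 (hD x)⟩

/-- Use `(1 + ε a) ^ n - 1 ≤ ε (1 + a) ^ n` for `ε ∈ [0, 1]`, `a ≥ 0`. -/
lemma RD2.weight_approx {γ : ℝ} (hγ : 1 ≤ γ) {F : ℝ → ℝ → ℂ} (hF : RD2 F) (n : ℕ) {δ : ℝ}
    (hδ : 0 < δ) : ∃ ε₀, 0 < ε₀ ∧ ε₀ ≤ 1 ∧ ∀ ε, 0 ≤ ε → ε ≤ ε₀ → ∀ σ ≤ 1, ∀ x c, 0 ≤ c →
      Bd γ w1 σ (F x) c → Bd γ (wt ε n) σ (F x) (c + δ) := by
  have hγ0 : 0 < γ := by linarith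
  obtain ⟨c₀, hc₀, h₀⟩ := hF.exists_bd hγ (adm_wt zero_le_one n)
  refine ⟨min 1 (δ / (c₀ + 1)), lt_min one_pos (by positivity), min_le_left _ _,
    fun ε hε hε' σ hσ x c hc hB => ?_⟩
  have hε1 : ε ≤ 1 := hε'.trans (min_le_left _ _)
  have hε2 : ε * c₀ ≤ δ := by
    have h1 : ε ≤ δ / (c₀ + 1) := hε'.trans (min_le_right _ _)
    rw [le_div_iff₀ (by positivity)] at h1
    nlinarith
  have hm := (hF.at x).aesm
  have hw1 := fb_adm_nonneg adm_w1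
  have hwe := fb_adm_nonneg (adm_wt hε n)
  have hwo := fb_adm_nonneg (adm_wt zero_le_one n)
  have h2 : Bd γ (wt 1 n) σ (fun τ => (ε : ℂ) * F x τ) (‖(ε : ℂ)‖ * c₀) :=
    (h₀ σ hσ x).const_mul _
  rw [Complex.norm_real, Real.norm_of_nonneg hε] at h2
  have h3 := h2.mono hε2
  unfold Bd at *
  rw [ENNReal.ofReal_add hc hδ.le]
  refine le_trans ?_ (add_le_add hB h3)
  unfold nrm
  have m1 := (fb_aesm hγ0 adm_w1 σ hm).norm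
  have m2 := (fb_aesm hγ0 (adm_wt zero_le_one n) σ (hm.const_mul (ε : ℂ))).norm
  have h4 := eLpNorm_add_le m1 m2 (show (1 : ℝ≥0∞) ≤ 2 by norm_num)
  rw [eLpNorm_norm, eLpNorm_norm] at h4
  refine le_trans (eLpNorm_mono_real fun τ => ?_) h4
  simp only [Pi.add_apply]
  rw [fb_norm hwe, fb_norm hw1, fb_norm hwo, norm_mul, Complex.norm_real,
    Real.norm_of_nonneg hε]
  have h5 : wt ε n τ ≤ w1 τ + wt 1 n τ * ε := by
    unfold wt w1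
    have h6 := fb_pow_le hε hε1 (abs_nonneg τ) n
    rw [one_mul]
    nlinarith
  have h6 : 0 ≤ om γ τ ^ σ * ‖F x τ‖ :=
    mul_nonneg (Real.rpow_nonneg (om_nonneg γ τ) σ) (norm_nonneg _)
  calc om γ τ ^ σ * wt ε n τ * ‖F x τ‖ = om γ τ ^ σ * ‖F x τ‖ * wt ε n τ := by ring
    _ ≤ om γ τ ^ σ * ‖F x τ‖ * (w1 τ + wt 1 n τ * ε) := mul_le_mul_of_nonneg_left h5 h6
    _ = _ := by ring

lemma bd_of_sup {γ B : ℝ} (hγ : 0 < γ) {A : ℝ → ℂ} (hB : 0 ≤ B) (h : ∀ τ, ‖A τ‖ ≤ B) :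
    Bd γ w1 (-2 / 3) A (B * aa γ) := by
  refine fb_cmp (fb_adm_nonneg adm_w1) (fun _ => zero_le_one) hB (fun τ => ?_) (fb_bd_one hγ)
  simp only [w1, norm_one, mul_one]
  rw [mul_comm B]
  exact mul_le_mul_of_nonneg_left (h τ) (Real.rpow_nonneg (om_nonneg γ τ) _)

lemma bd_of_inv {γ B σ : ℝ} (hγ : 1 ≤ γ) {A : ℝ → ℂ} (hB : 0 ≤ B) (hσ : σ ≤ 1 / 3)
    (h : ∀ τ, ‖A τ‖ * om γ τ ≤ B) : Bd γ w1 σ A (B * aa γ) := by
  have hγ0 : 0 < γ := by linarith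
  refine fb_cmp (fb_adm_nonneg adm_w1) (fun _ => zero_le_one) hB (fun τ => ?_) (fb_bd_one hγ0)
  simp only [w1, norm_one, mul_one]
  have h1 : om γ τ ^ σ ≤ om γ τ ^ (-2 / 3 : ℝ) * om γ τ := by
    have h2 : om γ τ ^ (-2 / 3 : ℝ) * om γ τ = om γ τ ^ (1 / 3 : ℝ) := by
      rw [← Real.rpow_add_one (om_pos hγ0 τ).ne']
      congr 1
      norm_num
    rw [h2]
    exact Real.rpow_le_rpow_of_exponent_le (one_le_om hγ τ) hσ
  calc om γ τ ^ σ * ‖A τ‖ ≤ om γ τ ^ (-2 / 3 : ℝ) * om γ τ * ‖A τ‖ :=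
        mul_le_mul_of_nonneg_right h1 (norm_nonneg _)
    _ = ‖A τ‖ * om γ τ * om γ τ ^ (-2 / 3 : ℝ) := by ring
    _ ≤ _ := mul_le_mul_of_nonneg_right (h τ) (Real.rpow_nonneg (om_nonneg γ τ) _)

end Pool.Agent.Lib.MP_14aec4_an.W
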