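import Pool.Agent.Lib.MP_14aec4_an.Base

/-!
The weight `om`, rapidly decaying functions, convolution.
-/

noncomputable section

open MeasureTheory Set Filter Topology FourierTransform
open scoped ENNReal ComplexConjugate

namespace Pool.Agent.Lib.MP_14aec4_an.W

lemma fb0_sv_re (γ τ : ℝ) : (sv γ τ).re = γ := by simp [sv]

lemma fb0_sv_im (γ τ : ℝ) : (sv γ τ).im = 2 * Real.pi * τ := by simp [sv]

lemma om_sq (γ τ : ℝ) : om γ τ ^ 2 = γ ^ 2 + (2 * Real.pi * τ) ^ 2 := by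
  rw [om, Complex.sq_norm, Complex.normSq_apply, fb0_sv_re, fb0_sv_im]
  ring

lemma om_nonneg (γ τ : ℝ) : 0 ≤ om γ τ := norm_nonneg _

lemma le_om (γ τ : ℝ) : γ ≤ om γ τ := by
  have := Complex.re_le_norm (sv γ τ)
  rwa [fb0_sv_re] at this

lemma om_pos {γ : ℝ} (hγ : 0 < γ) (τ : ℝ) : 0 < om γ τ := hγ.trans_le (le_om γ τ)

lemma one_le_om {γ : ℝ} (hγ : 1 ≤ γ) (τ : ℝ) : 1 ≤ om γ τ := hγ.trans (le_om γ τ)

lemma abs_le_om (γ τ : ℝ) : 2 * Real.pi * |τ| ≤ om γ τ := by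
  have := Complex.abs_im_le_norm (sv γ τ)
  rwa [fb0_sv_im, abs_mul, abs_of_pos Real.two_pi_pos] at this

lemma conj_sv_neg (γ τ : ℝ) : conj (sv γ (-τ)) = sv γ τ := by
  apply Complex.ext
  · rw [Complex.conj_re, fb0_sv_re, fb0_sv_re]
  · rw [Complex.conj_im, fb0_sv_im, fb0_sv_im]
    ring

lemma om_neg (γ τ : ℝ) : om γ (-τ) = om γ τ := by
  rw [om, om, ← conj_sv_neg γ τ, Complex.norm_conj]

lemma om_le {γ : ℝ} (hγ : 0 ≤ γ) (τ : ℝ) : om γ τ ≤ (γ + 2 * Real.pi) * (1 + |τ|) := by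
  have h := Complex.norm_le_abs_re_add_abs_im (sv γ τ)
  rw [fb0_sv_re, fb0_sv_im, abs_mul, abs_of_pos Real.two_pi_pos, abs_of_nonneg hγ] at h
  have h1 := mul_nonneg hγ (abs_nonneg τ)
  have h2 := Real.two_pi_pos
  unfold om
  nlinarith

lemma abs_om_sub_om (γ a b : ℝ) : |om γ a - om γ b| ≤ 2 * Real.pi * |a - b| := by
  refine (abs_norm_sub_norm_le _ _).trans (le_of_eq ?_)
  have e : sv γ a - sv γ b = ((2 * Real.pi * (a - b) : ℝ) : ℂ) * Complex.I := by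
    simp only [sv]
    push_cast
    ring
  rw [e, norm_mul, Complex.norm_I, mul_one, Complex.norm_real, Real.norm_eq_abs, abs_mul,
    abs_of_pos Real.two_pi_pos]

lemma om_add_le {γ : ℝ} (hγ : 0 ≤ γ) (a b : ℝ) : om γ (a + b) ≤ om γ a + om γ b := by
  have _ := hγ
  have h1 := abs_om_sub_om γ (a + b) a
  rw [add_sub_cancel_left] at h1
  linarith [le_abs_self (om γ (a + b) - om γ a), abs_le_om γ b]

lemma fb0_om_le_mul {γ : ℝ} (hγ : 0 < γ) {a b c : ℝ} (h : |a - b| = |c|) :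
    om γ a ≤ om γ b * (1 + 2 * Real.pi * |c| / γ) := by
  have h1 := abs_om_sub_om γ a b
  rw [h] at h1
  have h2 : 2 * Real.pi * |c| ≤ om γ b * (2 * Real.pi * |c| / γ) := by
    rw [← mul_div_assoc, le_div_iff₀ hγ, mul_comm (om γ b)]
    exact mul_le_mul_of_nonneg_left (le_om γ b) (by positivity)
  linarith [le_abs_self (om γ a - om γ b)]

/-- Peetre's inequality. -/
lemma om_rpow_le {γ σ : ℝ} (hγ : 0 < γ) (hσ : |σ| ≤ 1) (τ a : ℝ) :
    om γ τ ^ σ ≤ om γ (τ - a) ^ σ * (1 + 2 * Real.pi * |a| / γ) := by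
  have hR : 1 ≤ 1 + 2 * Real.pi * |a| / γ := le_add_of_nonneg_right (by positivity)
  have h1 : om γ τ ≤ om γ (τ - a) * (1 + 2 * Real.pi * |a| / γ) :=
    fb0_om_le_mul hγ (by rw [sub_sub_cancel])
  have h2 : om γ (τ - a) ≤ om γ τ * (1 + 2 * Real.pi * |a| / γ) :=
    fb0_om_le_mul hγ (by rw [sub_sub_cancel_left, abs_neg])
  generalize 1 + 2 * Real.pi * |a| / γ = R at hR h1 h2
  have hx := om_pos hγ τ
  have hy := om_pos hγ (τ - a)
  have hR0 : 0 < R := by linarith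
  obtain ⟨h3, h4⟩ := abs_le.1 hσ
  rcases le_or_gt 0 σ with h | h
  · refine (Real.rpow_le_rpow hx.le h1 h).trans ?_
    rw [Real.mul_rpow hy.le hR0.le]
    exact mul_le_mul_of_nonneg_left (Real.rpow_le_self_of_one_le hR h4) (by positivity)
  · refine (Real.rpow_le_rpow_of_nonpos (div_pos hy hR0) ((div_le_iff₀ hR0).2 h2) h.le).trans ?_
    rw [Real.div_rpow hy.le hR0.le, div_eq_mul_inv, ← Real.rpow_neg hR0.le]
    exact mul_le_mul_of_nonneg_left (Real.rpow_le_self_of_one_le hR (by linarith)) (by positivity)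

lemma continuous_sv (γ : ℝ) : Continuous (sv γ) := by
  unfold sv
  fun_prop

lemma continuous_om (γ : ℝ) : Continuous (om γ) := (continuous_sv γ).norm

lemma continuous_om_rpow {γ : ℝ} (hγ : 0 < γ) (σ : ℝ) : Continuous fun τ => om γ τ ^ σ :=
  (continuous_om γ).rpow_const fun τ => Or.inl (om_pos hγ τ).ne'

lemma sv_ne_zero {γ : ℝ} (hγ : 0 < γ) (τ : ℝ) : sv γ τ ≠ 0 := norm_pos_iff.1 (om_pos hγ τ)

lemma integrable_om_rpow {γ : ℝ} (hγ : 0 < γ) : Integrable fun τ => om γ τ ^ (-(4 : ℝ) / 3) := by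
  have h0 : Integrable fun τ : ℝ => (1 + ‖τ‖) ^ (-(4 / 3 : ℝ)) :=
    integrable_one_add_norm (by norm_num)
  refine (h0.const_mul ((1 + γ⁻¹)⁻¹ ^ (-(4 / 3 : ℝ)))).mono'
    (continuous_om_rpow hγ _).aestronglyMeasurable (Eventually.of_forall fun τ => ?_)
  rw [Real.norm_eq_abs, abs_of_nonneg (Real.rpow_nonneg (om_nonneg γ τ) _), neg_div,
    ← Real.mul_rpow (by positivity) (by positivity)]
  refine Real.rpow_le_rpow_of_nonpos (by positivity) ?_ (by norm_num)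
  rw [inv_mul_le_iff₀ (by positivity), Real.norm_eq_abs]
  have h1 : 1 ≤ γ⁻¹ * om γ τ := by
    rw [le_inv_mul_iff₀ hγ, mul_one]
    exact le_om γ τ
  have h2 := abs_le_om γ τ
  have h3 := abs_nonneg τ
  have h4 := Real.pi_gt_three
  nlinarith

lemma aa_nonneg (γ : ℝ) : 0 ≤ aa γ := Real.sqrt_nonneg _

lemma lintegral_om_rpow {γ : ℝ} (hγ : 0 < γ) :
    ∫⁻ τ, ENNReal.ofReal (om γ τ ^ (-(4 : ℝ) / 3)) = ENNReal.ofReal (aa γ ^ 2) := by
  rw [aa, Real.sq_sqrt (integral_nonneg fun τ => Real.rpow_nonneg (om_nonneg γ τ) _),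
    ofReal_integral_eq_lintegral_ofReal (integrable_om_rpow hγ)
      (Eventually.of_forall fun τ => Real.rpow_nonneg (om_nonneg γ τ) _)]

lemma aa_tendsto : Tendsto aa atTop (𝓝 0) := by
  have h : Tendsto (fun γ : ℝ => ∫ τ, om γ τ ^ (-(4 : ℝ) / 3)) atTop (𝓝 (∫ _ : ℝ, (0 : ℝ))) := by
    refine tendsto_integral_filter_of_dominated_convergence (fun τ => om 1 τ ^ (-(4 : ℝ) / 3))
      ?_ ?_ (integrable_om_rpow one_pos) (Eventually.of_forall fun τ => ?_)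
    · filter_upwards [eventually_gt_atTop 0] with γ hγ
      exact (continuous_om_rpow hγ _).aestronglyMeasurable
    · filter_upwards [eventually_ge_atTop 1] with γ hγ
      refine Eventually.of_forall fun τ => ?_
      rw [Real.norm_eq_abs, abs_of_nonneg (Real.rpow_nonneg (om_nonneg γ τ) _)]
      refine Real.rpow_le_rpow_of_nonpos (om_pos one_pos τ) ?_ (by norm_num)
      refine (pow_le_pow_iff_left₀ (om_nonneg _ _) (om_nonneg _ _) two_ne_zero).1 ?_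
      rw [om_sq, om_sq]
      nlinarith
    · rw [neg_div]
      exact (tendsto_rpow_neg_atTop (by norm_num)).comp
        (tendsto_atTop_mono (fun γ => le_om γ τ) tendsto_id)
  rw [integral_zero] at h
  have h2 := h.sqrt
  rw [Real.sqrt_zero] at h2
  exact h2

lemma adm_w1 : Adm w1 :=
  ⟨continuous_const, fun _ => le_rfl, fun _ => rfl, fun _ _ => by simp [w1],
    ⟨1, 0, fun _ => by simp [w1]⟩⟩

lemma adm_wt {ε : ℝ} (hε : 0 ≤ ε) (n : ℕ) : Adm (wt ε n) := by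
  refine ⟨by unfold wt; fun_prop, fun τ => one_le_pow₀ (le_add_of_nonneg_right (by positivity)),
    fun τ => by rw [wt, wt, abs_neg], fun a b => ?_, ⟨(1 + ε) ^ n, n, fun τ => ?_⟩⟩
  · rw [wt, wt, wt, ← mul_pow]
    refine pow_le_pow_left₀ (by positivity) ?_ n
    have h1 := mul_le_mul_of_nonneg_left (abs_add_le a b) hε
    have h2 : 0 ≤ ε * |a| * (ε * |b|) := by positivity
    nlinarith
  · rw [wt, ← mul_pow]
    refine pow_le_pow_left₀ (by positivity) ?_ n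
    nlinarith [abs_nonneg τ]

lemma cl_mem {L : ℝ} (hL : 0 ≤ L) (x : ℝ) : cl L x ∈ Icc 0 L :=
  ⟨le_max_left _ _, max_le hL (min_le_right _ _)⟩

lemma cl_of_mem {L x : ℝ} (hx : x ∈ Icc 0 L) : cl L x = x := by
  rw [cl, min_eq_left hx.2, max_eq_right hx.1]

lemma continuous_cl (L : ℝ) : Continuous (cl L) := by
  unfold cl
  fun_prop

lemma ept_mem {L : ℝ} (hL : 0 ≤ L) (i : Fin 3) : ept L i ∈ Icc 0 L := by
  fin_cases i <;> simp [ept, hL]

/-! ### Rapid decay -/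

lemma RD2.at {F : ℝ → ℝ → ℂ} (hF : RD2 F) (x : ℝ) : RD (F x) :=
  ⟨hF.cont.comp (Continuous.prodMk_right x), fun n => (hF.decay n).imp fun _ h => h x⟩

lemma RD.rd2 {A : ℝ → ℂ} (hA : RD A) : RD2 fun _ => A :=
  ⟨hA.cont.comp continuous_snd, fun n => (hA.decay n).imp fun _ h _ => h⟩

lemma RD2.zero : RD2 fun _ _ => 0 := ⟨continuous_const, fun _ => ⟨0, fun _ _ => by simp⟩⟩

lemma RD2.add {F G : ℝ → ℝ → ℂ} (hF : RD2 F) (hG : RD2 G) : RD2 fun x τ => F x τ + G x τ := by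
  refine ⟨hF.cont.add hG.cont, fun n => ?_⟩
  obtain ⟨C, hC⟩ := hF.decay n
  obtain ⟨D, hD⟩ := hG.decay n
  refine ⟨C + D, fun x τ => ?_⟩
  have := mul_le_mul_of_nonneg_right (norm_add_le (F x τ) (G x τ))
    (by positivity : 0 ≤ (1 + |τ|) ^ n)
  linarith [hC x τ, hD x τ]

lemma RD2.poly_mul {F : ℝ → ℝ → ℂ} {φ : ℝ → ℂ} (hF : RD2 F) (hφ : Continuous φ)
    (hb : ∃ (C : ℝ) (n : ℕ), ∀ τ, ‖φ τ‖ ≤ C * (1 + |τ|) ^ n) : RD2 fun x τ => φ τ * F x τ := by
  refine ⟨(hφ.comp continuous_snd).mul hF.cont, fun n => ?_⟩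
  obtain ⟨C, m, hC⟩ := hb
  obtain ⟨D, hD⟩ := hF.decay (m + n)
  have hC0 : 0 ≤ C := by simpa using (norm_nonneg _).trans (hC 0)
  refine ⟨C * D, fun x τ => ?_⟩
  calc ‖φ τ * F x τ‖ * (1 + |τ|) ^ n = ‖φ τ‖ * (‖F x τ‖ * (1 + |τ|) ^ n) := by
        rw [norm_mul, mul_assoc]
    _ ≤ C * (1 + |τ|) ^ m * (‖F x τ‖ * (1 + |τ|) ^ n) :=
        mul_le_mul_of_nonneg_right (hC τ) (by positivity)
    _ = C * (‖F x τ‖ * (1 + |τ|) ^ (m + n)) := by ring
    _ ≤ C * D := mul_le_mul_of_nonneg_left (hD x τ) hC0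

lemma RD2.const_mul {F : ℝ → ℝ → ℂ} (hF : RD2 F) (c : ℂ) : RD2 fun x τ => c * F x τ :=
  hF.poly_mul (φ := fun _ => c) continuous_const ⟨‖c‖, 0, fun _ => by simp⟩

lemma RD2.sub {F G : ℝ → ℝ → ℂ} (hF : RD2 F) (hG : RD2 G) : RD2 fun x τ => F x τ - G x τ := by
  simpa only [neg_one_mul, ← sub_eq_add_neg] using hF.add (hG.const_mul (-1))

lemma fb0_bound {F : ℝ → ℝ → ℂ} (hF : RD2 F) (n : ℕ) :
    ∃ C, 0 ≤ C ∧ ∀ x a, ‖F x a‖ * (1 + |a|) ^ n ≤ C * (1 + a ^ 2)⁻¹ := by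
  obtain ⟨C, hC⟩ := hF.decay (n + 2)
  refine ⟨C, le_trans (by positivity) (hC 0 0), fun x a => ?_⟩
  rw [← div_eq_mul_inv, le_div_iff₀ (by positivity)]
  refine le_trans ?_ (hC x a)
  rw [pow_add, ← mul_assoc]
  refine mul_le_mul_of_nonneg_left ?_ (by positivity)
  nlinarith [abs_nonneg a, sq_abs a]

lemma fb0_cv_bound {F G : ℝ → ℝ → ℂ} (hF : RD2 F) (hG : RD2 G) (n : ℕ) :
    ∃ C, ∀ x τ a, ‖F x a * G x (τ - a)‖ * (1 + |τ|) ^ n ≤ C * (1 + a ^ 2)⁻¹ := by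
  obtain ⟨C, hC0, hC⟩ := fb0_bound hF n
  obtain ⟨D, hD⟩ := hG.decay n
  refine ⟨C * D, fun x τ a => ?_⟩
  have h1 : (1 + |τ|) ^ n ≤ (1 + |a|) ^ n * (1 + |τ - a|) ^ n := by
    rw [← mul_pow]
    refine pow_le_pow_left₀ (by positivity) ?_ n
    have h2 := abs_add_le a (τ - a)
    rw [add_sub_cancel] at h2
    nlinarith [mul_nonneg (abs_nonneg a) (abs_nonneg (τ - a))]
  calc ‖F x a * G x (τ - a)‖ * (1 + |τ|) ^ n
      ≤ ‖F x a * G x (τ - a)‖ * ((1 + |a|) ^ n * (1 + |τ - a|) ^ n) :=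
        mul_le_mul_of_nonneg_left h1 (norm_nonneg _)
    _ = (‖F x a‖ * (1 + |a|) ^ n) * (‖G x (τ - a)‖ * (1 + |τ - a|) ^ n) := by
        rw [norm_mul]; ring
    _ ≤ C * (1 + a ^ 2)⁻¹ * D := mul_le_mul (hC x a) (hD x _) (by positivity) (by positivity)
    _ = C * D * (1 + a ^ 2)⁻¹ := by ring

lemma fb0_cv_cont {F G : ℝ → ℝ → ℂ} (hF : RD2 F) (hG : RD2 G) (x τ : ℝ) :
    Continuous fun a => F x a * G x (τ - a) :=
  (hF.at x).cont.mul ((hG.at x).cont.comp (continuous_sub_left τ))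

lemma RD2.cv {F G : ℝ → ℝ → ℂ} (hF : RD2 F) (hG : RD2 G) : RD2 fun x => cv (F x) (G x) := by
  constructor
  · obtain ⟨C, hC⟩ := fb0_cv_bound hF hG 0
    refine continuous_of_dominated (F := fun (p : ℝ × ℝ) (a : ℝ) => F p.1 a * G p.1 (p.2 - a))
      (fun p => (fb0_cv_cont hF hG p.1 p.2).aestronglyMeasurable)
      (fun p => Eventually.of_forall fun a => by simpa using hC p.1 p.2 a)
      (integrable_inv_one_add_sq.const_mul C) (Eventually.of_forall fun a => ?_)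
    exact (hF.cont.comp (continuous_fst.prodMk continuous_const)).mul
      (hG.cont.comp (continuous_fst.prodMk (continuous_snd.sub continuous_const)))
  · intro n
    obtain ⟨C, hC⟩ := fb0_cv_bound hF hG n
    refine ⟨∫ a : ℝ, C * (1 + a ^ 2)⁻¹, fun x τ => ?_⟩
    refine (mul_le_mul_of_nonneg_right (norm_integral_le_integral_norm _) (by positivity)).trans ?_
    rw [← integral_mul_const]
    exact integral_mono_of_nonneg (Eventually.of_forall fun a => by positivity)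
      (integrable_inv_one_add_sq.const_mul C) (Eventually.of_forall (hC x τ))

lemma RD2.sym {F : ℝ → ℝ → ℂ} (hF : RD2 F) : RD2 fun x => sym (F x) := by
  have h : RD2 fun x τ => conj (F x (-τ)) :=
    ⟨Complex.continuous_conj.comp (hF.cont.comp (continuous_fst.prodMk continuous_snd.neg)),
      fun n => (hF.decay n).imp fun C hC x τ => by
        simpa only [Complex.norm_conj, abs_neg] using hC x (-τ)⟩
  have e : (fun x => W.sym (F x)) = fun x τ => (2 : ℂ)⁻¹ * (F x τ + conj (F x (-τ))) := by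
    funext x τ
    rw [W.sym, div_eq_inv_mul]
  rw [e]
  exact (hF.add h).const_mul _

lemma RD.zero : RD fun _ => 0 := RD2.zero.at 0

lemma RD.add {A B : ℝ → ℂ} (hA : RD A) (hB : RD B) : RD fun τ => A τ + B τ :=
  (hA.rd2.add hB.rd2).at 0

lemma RD.sub {A B : ℝ → ℂ} (hA : RD A) (hB : RD B) : RD fun τ => A τ - B τ :=
  (hA.rd2.sub hB.rd2).at 0

lemma RD.const_mul {A : ℝ → ℂ} (hA : RD A) (c : ℂ) : RD fun τ => c * A τ :=
  (hA.rd2.const_mul c).at 0

lemma RD.poly_mul {A φ : ℝ → ℂ} (hA : RD A) (hφ : Continuous φ)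
    (hb : ∃ (C : ℝ) (n : ℕ), ∀ τ, ‖φ τ‖ ≤ C * (1 + |τ|) ^ n) : RD fun τ => φ τ * A τ :=
  (hA.rd2.poly_mul hφ hb).at 0

lemma RD.aesm {A : ℝ → ℂ} (hA : RD A) : AEStronglyMeasurable A volume :=
  hA.cont.aestronglyMeasurable

lemma RD.integrable {A : ℝ → ℂ} (hA : RD A) : Integrable A := by
  obtain ⟨C, -, hC⟩ := fb0_bound hA.rd2 0
  exact (integrable_inv_one_add_sq.const_mul C).mono' hA.aesm
    (Eventually.of_forall fun a => by simpa using hC 0 a)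

lemma RD.cv {A B : ℝ → ℂ} (hA : RD A) (hB : RD B) : RD (cv A B) := (hA.rd2.cv hB.rd2).at 0

lemma RD.sym {A : ℝ → ℂ} (hA : RD A) : RD (sym A) := hA.rd2.sym.at 0

lemma fb0_cv_integrable {A B : ℝ → ℂ} (hA : RD A) (hB : RD B) (τ : ℝ) :
    Integrable fun a => A a * B (τ - a) := by
  obtain ⟨C, hC⟩ := fb0_cv_bound hA.rd2 hB.rd2 0
  exact (integrable_inv_one_add_sq.const_mul C).mono'
    (fb0_cv_cont hA.rd2 hB.rd2 0 τ).aestronglyMeasurable
    (Eventually.of_forall fun a => by simpa using hC 0 τ a)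

lemma cv_comm (A B : ℝ → ℂ) : cv A B = cv B A := by
  funext τ
  rw [cv, cv, ← integral_sub_left_eq_self _ volume τ]
  simp only [sub_sub_cancel, mul_comm]

lemma cv_sub_right {A B B' : ℝ → ℂ} (hA : RD A) (hB : RD B) (hB' : RD B') (τ : ℝ) :
    cv A (fun τ => B τ - B' τ) τ = cv A B τ - cv A B' τ := by
  simp only [cv, mul_sub]
  exact integral_sub (fb0_cv_integrable hA hB τ) (fb0_cv_integrable hA hB' τ)

lemma cv_sub_left {A A' B : ℝ → ℂ} (hA : RD A) (hA' : RD A') (hB : RD B) (τ : ℝ) :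
    cv (fun τ => A τ - A' τ) B τ = cv A B τ - cv A' B τ := by
  simp only [cv, sub_mul]
  exact integral_sub (fb0_cv_integrable hA hB τ) (fb0_cv_integrable hA' hB τ)

lemma cv_add_right {A B B' : ℝ → ℂ} (hA : RD A) (hB : RD B) (hB' : RD B') (τ : ℝ) :
    cv A (fun τ => B τ + B' τ) τ = cv A B τ + cv A B' τ := by
  simp only [cv, mul_add]
  exact integral_add (fb0_cv_integrable hA hB τ) (fb0_cv_integrable hA hB' τ)

lemma cv_add_left {A A' B : ℝ → ℂ} (hA : RD A) (hA' : RD A') (hB : RD B) (τ : ℝ) :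
    cv (fun τ => A τ + A' τ) B τ = cv A B τ + cv A' B τ := by
  simp only [cv, add_mul]
  exact integral_add (fb0_cv_integrable hA hB τ) (fb0_cv_integrable hA' hB τ)

lemma cv_zero_right (A : ℝ → ℂ) : cv A (fun _ => 0) = fun _ => 0 := by
  funext τ
  simp [cv]

lemma cv_zero_left (A : ℝ → ℂ) : cv (fun _ => 0) A = fun _ => 0 := by
  funext τ
  simp [cv]

lemma sym_sub (A B : ℝ → ℂ) (τ : ℝ) : sym (fun τ => A τ - B τ) τ = sym A τ - sym B τ := by
  simp only [sym, map_sub]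
  ring

lemma sym_add (A B : ℝ → ℂ) (τ : ℝ) : sym (fun τ => A τ + B τ) τ = sym A τ + sym B τ := by
  simp only [sym, map_add]
  ring

lemma sym_sv_mul (γ : ℝ) (A : ℝ → ℂ) (τ : ℝ) :
    sym (fun τ => sv γ τ * A τ) τ = sv γ τ * sym A τ := by
  simp only [sym, map_mul, conj_sv_neg]
  ring

end Pool.Agent.Lib.MP_14aec4_an.W
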