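import Pool.Agent.Lib.MP_14aec4_an.MSAPA

/-!
Stability of smooth solutions.
-/

noncomputable section

open MeasureTheory Set Filter Topology FourierTransform
open scoped ENNReal ComplexConjugate

namespace Pool.Agent.Lib.MP_14aec4_an.W

/-- Constants as in `ms_ex`, with the linear bound `η₁ ≤ η₀` also small compared with `ρ`. Fix
`T₁ < T'` and `ε`. For small `δ` take the data of `lift` for `u` and `u'`, with
`H i = -(1/6) (ext_ap of bop u i - h₀ i) + rp * cut (γ ·) * (κ² c i - h₀ i / 6)` and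
`H' i = H i + (1/6) (ext_ap of bop u i - bop u' i)`; `lin_bd`, `bd_dyn`, `bd_short` bound the
linear parts by `η₁` and that of the difference by `C D + ε`; `fp_exists`, `fp_diff`, `fp_energy`
(also against `fp_zero`), `hNorm_miura_sub`, `planch_tl`, `planch_tl4` give the claims on
`[2 δ, T₁]` up to `ε`; pass to the limit, using `curve_continuous` at `t = 0` and `t = T'`. -/
theorem ms_ap {L : ℝ} (hL : 0 < L) {P : BC} (hP : P.Valid) (R : ℝ) {ρ : ℝ} (hρ : 0 < ρ) :
    ∃ η > 0, ∃ C > 0, ∀ (w₀ : ℝ → ℝ) (h₀ : Fin 3 → ℝ → ℝ), SmI L w₀ → wn L P w₀ ≤ R →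
      (∀ i, ContDiff ℝ (⊤ : ℕ∞) (h₀ i)) →
      ∃ Ts > 0, ∀ T' ∈ Ioc 0 Ts, ∀ u w, Near L P T' η w₀ h₀ u w →
        (∀ x ∈ Icc 0 L, ∫ t in (0 : ℝ)..T', u x t ^ 2 ≤ ρ ^ 2) ∧
        ∀ u' w', Near L P T' η w₀ h₀ u' w' → ∀ D, 0 ≤ D → wn L P (fun x => w x - w' x) ≤ D →
          (∀ i, bn (P.σ i) T' (fun t => bop L P u i t - bop L P u' i t) ≤ ENNReal.ofReal D) →
          ∀ t ∈ Icc 0 T', hNorm (-1) (Ioo 0 L)
            (ofFun L (fun x => u x t) - ofFun L fun x => u' x t) ≤ ENNReal.ofReal (C * D) := by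
  obtain ⟨η, hη, C, hC, h⟩ := msap_main hL hP (abs_nonneg R) hρ
  refine ⟨η, hη, C, hC, fun w₀ h₀ hw₀ hR hh₀ => ?_⟩
  obtain ⟨Ts, hTs, h⟩ := h w₀ h₀ hw₀ (hR.trans (le_abs_self R)) hh₀
  refine ⟨Ts, hTs, fun T' hT' u w hu => ⟨fun x hx => ?_, fun u' w' hu' D hD hw hb => ?_⟩⟩
  · obtain ⟨K, hK, hKb⟩ := hu.sol.1.ctOn.bdd
    have hc : ContinuousOn (fun t => u x t ^ 2) (Icc 0 T') := (hu.sol.1.ctOn.slice_t hx).pow 2
    have hi : ∀ a ∈ Icc 0 T', ∀ b ∈ Icc 0 T', IntervalIntegrable (fun t => u x t ^ 2) volume a b :=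
      fun a ha b hb => (hc.mono (uIcc_subset_Icc ha hb)).intervalIntegrable
    have hshort : ∀ a ∈ Icc 0 T', ∀ b ∈ Icc 0 T', a ≤ b →
        ∫ t in a..b, u x t ^ 2 ≤ K ^ 2 * (b - a) := by
      intro a ha b hb hab
      calc ∫ t in a..b, u x t ^ 2 ≤ ∫ _ in a..b, K ^ 2 :=
            intervalIntegral.integral_mono_on hab (hi a ha b hb) intervalIntegrable_const
              fun t ht => by
                have := hKb x hx t ⟨ha.1.trans ht.1, ht.2.trans hb.2⟩
                rw [← sq_abs]; gcongr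
        _ = K ^ 2 * (b - a) := by rw [intervalIntegral.integral_const, smul_eq_mul]; ring
    apply le_of_forall_pos_le_add
    intro ε hε
    set e : ℝ := min (T' / 2) (ε / (2 * (K ^ 2 + 1))) with he
    have he0 : 0 < e := lt_min (half_pos hT'.1) (by positivity)
    have he1 : e ≤ T' / 2 := min_le_left _ _
    have he2 : K ^ 2 * e ≤ ε / 2 := by
      have : e ≤ ε / (2 * (K ^ 2 + 1)) := min_le_right _ _
      rw [le_div_iff₀ (by positivity)] at this
      nlinarith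
    have hT₁ : T' - e ∈ Ioo 0 T' := ⟨by linarith [hT'.1], by linarith⟩
    have hz : wn L P (fun x => w x - w x) ≤ 0 := by
      have := wn_const_mul (L := L) P 0 w
      simp only [zero_mul, abs_zero] at this
      simp only [sub_self, this, le_refl]
    obtain ⟨δ, hδ, hδ'⟩ := ((h T' hT' u w u w hu hu 0 le_rfl hz (fun i => by
      simp only [sub_self, bn, ofFun_zero]
      exact (hNorm_eq_zero _ _ _ fun _ _ => rfl).trans_le bot_le) _ hT₁ 1 one_pos).and
      (Ioo_mem_nhdsGT (half_pos he0))).exists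
    have m0 : (0 : ℝ) ∈ Icc 0 T' := ⟨le_rfl, hT'.1.le⟩
    have m1 : 2 * δ ∈ Icc 0 T' := ⟨by linarith [hδ'.1], by linarith [hδ'.2, hT'.1]⟩
    have m2 : T' - e ∈ Icc 0 T' := Ioo_subset_Icc_self hT₁
    have m3 : T' ∈ Icc 0 T' := ⟨hT'.1.le, le_rfl⟩
    rw [← intervalIntegral.integral_add_adjacent_intervals (hi _ m0 _ m1) (hi _ m1 _ m3),
      ← intervalIntegral.integral_add_adjacent_intervals (hi _ m1 _ m2) (hi _ m2 _ m3)]
    have a1 := hshort _ m0 _ m1 m1.1
    have a2 := hδ.1 x hx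
    have a3 := hshort _ m2 _ m3 m2.2
    have a4 : K ^ 2 * (2 * δ - 0) ≤ K ^ 2 * e := by gcongr; linarith [hδ'.2]
    have a5 : K ^ 2 * (T' - (T' - e)) = K ^ 2 * e := by ring
    linarith
  · have inner : ∀ t ∈ Ioo 0 T', hNorm (-1) (Ioo 0 L)
        (ofFun L (fun x => u x t) - ofFun L fun x => u' x t) ≤ ENNReal.ofReal (C * D) := by
      intro t ht
      have hT₁ : (t + T') / 2 ∈ Ioo 0 T' := ⟨by linarith [ht.1, hT'.1], by linarith [ht.2]⟩
      apply ENNReal.le_of_forall_pos_le_add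
      intro ε hε _
      have hε' : (0 : ℝ) < ε := hε
      obtain ⟨δ, hδ, hδ'⟩ := ((h T' hT' u w u' w' hu hu' D hD hw hb _ hT₁ (ε / C)
        (by positivity)).and (Ioo_mem_nhdsGT (half_pos ht.1))).exists
      refine (hδ.2 t ⟨by linarith [hδ'.2], by linarith [ht.2]⟩).trans (le_of_eq ?_)
      rw [mul_add, mul_div_cancel₀ _ hC.ne', ENNReal.ofReal_add (by positivity) hε'.le,
        ENNReal.ofReal_coe_nnreal]
    intro t ht
    have hne : (𝓝[Ioo 0 T'] t).NeBot := by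
      rw [← mem_closure_iff_nhdsWithin_neBot, closure_Ioo hT'.1.ne]; exact ht
    have hle : 𝓝[Ioo 0 T'] t ≤ 𝓝[Icc 0 T'] t := nhdsWithin_mono _ Ioo_subset_Icc_self
    have c1 := (curve_continuous (s := -1) (by norm_num) hL hu.sol.1.ctOn ht).mono_left hle
    have c2 := (curve_continuous (s := -1) (by norm_num) hL hu'.sol.1.ctOn ht).mono_left hle
    have c3 := (c1.add (tendsto_const_nhds (x := ENNReal.ofReal (C * D)))).add c2
    rw [zero_add, add_zero] at c3
    refine ge_of_tendsto c3 ?_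
    filter_upwards [self_mem_nhdsWithin] with τ hτ
    refine (hNorm_sub_le _ (ofFun L fun x => u' x τ) _).trans (add_le_add ?_ le_rfl)
    refine (hNorm_sub_le _ (ofFun L fun x => u x τ) _).trans (add_le_add ?_ (inner τ hτ))
    rw [hNorm_sub_comm]

end Pool.Agent.Lib.MP_14aec4_an.W
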