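import Pool.Agent.Lib.MP_14aec4_an.ExMid

/-!
Existence of smooth solutions with prescribed boundary data.
-/

noncomputable section

open MeasureTheory Set Filter Topology FourierTransform
open scoped ENNReal ComplexConjugate

namespace Pool.Agent.Lib.MP_14aec4_an.W

lemma msex_sigma (P : BC) (i : Fin 3) : -1 ≤ P.σ i ∧ P.σ i ≤ 0 := by
  have h : P.j i ≤ 2 := by
    unfold BC.j
    fin_cases i <;> simp <;> split_ifs <;> norm_num
  have h' : (P.j i : ℝ) ≤ 2 := by exact_mod_cast h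
  have h0 : (0 : ℝ) ≤ P.j i := Nat.cast_nonneg _
  unfold BC.σ
  constructor <;> linarith

lemma msex_lin {L γ τ B b D : ℝ} (hL : 0 < L) (hγ : Big L γ) (P : BC) (hτ : τ ∈ Ioc 0 (1 / γ))
    {q q₀ : ℝ → ℝ} (hq : SmI L q) (hq₀ : SmI L q₀)
    (hB : ∀ x ∈ Icc 0 L, |q₀ x| ≤ B ∧ |dI L q₀ x| ≤ B) {H : Fin 3 → ℝ → ℝ} (hH : ∀ i, SC (H i))
    (hb : 0 ≤ b) (bH : ∀ i, Bd γ w1 (P.σ i) (spec γ (H i)) b) (hD : wn L P q ≤ D) :
    SBd L γ w1 (linS L P γ (fun x t => deriv (rp (-τ) τ) t * q x)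
        fun i t => H i t - P.dyn i * deriv (rp (-τ) τ) t * q (ept L i))
      (42 * (b + 3 * D * aa γ) +
        30 * (60 * nL L (fun x => q x - q₀ x) + 3 * (2 + L) * B * aa γ)) := by
  have hγ0 : 0 < γ := one_pos.trans_le hγ.1
  have hX := sc_deriv_rp hτ.1 (-τ)
  have hX' := integral_deriv_rp_le hγ0 hτ.1 (t₀ := -τ) (by rw [neg_div]; linarith [hτ.2])
  have hD0 : 0 ≤ D := (wn_nonneg _ _ _).trans hD
  have ha := aa_nonneg γ
  have hS : ∀ i, SC fun t => P.dyn i * deriv (rp (-τ) τ) t * q (ept L i) := fun i =>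
    (SC.mul_left contDiff_const hX).mul_right contDiff_const
  have := lin_bd hL hγ P (G := fun x t => deriv (rp (-τ) τ) t * q x)
    (ℓ := fun i t => H i t - P.dyn i * deriv (rp (-τ) τ) t * q (ept L i)) (f := 0)
    (b := b + 3 * D * aa γ) hX hX' hq hq₀ hB (SC2.zero L) le_rfl
    (fun x _ => by rw [spec_zero]; exact Bd.zero _ _ _ _) (fun x _ t => (add_zero _).symm)
    (fun i => (hH i).sub (hS i)) (by positivity) fun i => by
      have e : spec γ (fun t => H i t - P.dyn i * deriv (rp (-τ) τ) t * q (ept L i)) =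
          fun s => spec γ (H i) s -
            spec γ (fun t => P.dyn i * deriv (rp (-τ) τ) t * q (ept L i)) s :=
        funext fun s => spec_sub γ (hH i) (hS i) s
      rw [e]
      refine Bd.sub hγ0 adm_w1 (rd_spec γ (hH i)).aesm (rd_spec γ (hS i)).aesm hb
        (by positivity) (bH i) ((bd_dyn hγ.1 P i hX hX' _).mono ?_)
      have := (dyn_abs_le_wn L P q i).trans hD
      gcongr
  simpa only [mul_zero, add_zero] using this

lemma msex_short {γ τ σ K b : ℝ} (hγ : 1 ≤ γ) (hτ : τ ∈ Ioc 0 (1 / γ)) (hσ : σ ≤ 0) (hb : 0 ≤ b)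
    {m k : ℝ → ℝ} (hm : SC m) (hm0 : ∀ t, b < t → m t = 0) (hm1 : ∀ t, m t ∈ Icc (0 : ℝ) 1)
    (hk : ContDiff ℝ (⊤ : ℕ∞) k) (hK0 : 0 ≤ K) (hK : ∀ t ∈ Icc (-1 / γ) b, |k t| ≤ K) :
    SC (fun t => rp (-τ) τ t * m t * k t) ∧
      Bd γ w1 σ (spec γ fun t => rp (-τ) τ t * m t * k t) (3 * K * Real.sqrt (b + 1 / γ)) := by
  have hγ0 : 0 < γ := one_pos.trans_le hγ
  have hs : SC fun t => rp (-τ) τ t * m t * k t :=
    (SC.mul_left (rp_contDiff _ _) hm).mul_right hk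
  refine ⟨hs, ?_⟩
  have h1 : 0 < 1 / γ := by positivity
  have := bd_short hγ hσ hs hK0 (a := -1 / γ) (b := b) le_rfl (by rw [neg_div]; linarith)
    (fun t ht => by
      rw [mem_Icc, not_and_or, not_le, not_le] at ht
      rcases ht with ht | ht
      · rw [rp_zero hτ.1 (by rw [neg_div] at ht; linarith [hτ.2]), zero_mul, zero_mul]
      · rw [hm0 t ht, mul_zero, zero_mul])
    (fun t ht => by
      rw [abs_mul, abs_mul, abs_of_nonneg (rp_mem _ _ _).1, abs_of_nonneg (hm1 t).1]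
      have h2 : rp (-τ) τ t * m t ≤ 1 := mul_le_one₀ (rp_mem _ _ _).2 (hm1 t).1 (hm1 t).2
      calc rp (-τ) τ t * m t * |k t| ≤ 1 * K :=
            mul_le_mul h2 (hK t ht) (abs_nonneg _) zero_le_one
        _ = K := one_mul K)
  rwa [neg_div, sub_neg_eq_add] at this

lemma msex_bdd {a b : ℝ} {f : ℝ → ℝ} (hf : ContinuousOn f (Icc a b)) :
    ∃ K, 0 ≤ K ∧ ∀ t ∈ Icc a b, |f t| ≤ K := by
  obtain ⟨K, hK⟩ := isCompact_Icc.exists_bound_of_continuousOn hf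
  exact ⟨max K 0, le_max_right _ _, fun t ht => (hK t ht).trans (le_max_left _ _)⟩

lemma msex_wn_le {L : ℝ} (hL : 0 < L) (P : BC) {w w₀ : ℝ → ℝ} (hw : SmI L w) (hw₀ : SmI L w₀) :
    wn L P w ≤ wn L P w₀ + wn L P fun x => w x - w₀ x := by
  have := wn_add_le hL.le P (q' := fun x => w x - w₀ x) hw₀.cont (hw.cont.sub hw₀.cont)
  simpa only [add_sub_cancel] using this

lemma msex_Kc_le {L κ : ℝ} (hL : 0 < L) (P : BC) (h0 : 0 ≤ κ) (h1 : κ ≤ 1) :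
    0 ≤ Kc L 1 P ∧ Kc L κ P ≤ Kc L 1 P := by
  have hs : 0 ≤ ∑ i, (|P.α i| + |P.β i| + |P.ζ i|) := Finset.sum_nonneg fun i _ => by positivity
  have h2 : |mu κ| ≤ |mu 1| := by
    unfold mu
    rw [abs_of_nonpos (by nlinarith), abs_of_nonpos (by norm_num)]
    nlinarith
  unfold Kc
  exact ⟨by positivity, by gcongr⟩

/-- Take `κ = 4 (R + 1)² + 1`, `A` from `exists_cut_const`, `η₀` from `exists_smal`, `η ≤ 1` a
small multiple of `η₀`, `q₀` the Riccati solution for `w₀`, `γ` large, `Ts = 1 / γ`,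
`ℓb i = -h i / 6 + κ² c i` and
`H i = -(1/6) (ext_ex of h i - h₀ i) + rp * cut (γ ·) * (κ² c i - h₀ i / 6)`. -/
theorem ms_ex {L : ℝ} (hL : 0 < L) {P : BC} (hP : P.Valid) (R : ℝ) :
    ∃ η > 0, ∀ (w₀ : ℝ → ℝ) (h₀ : Fin 3 → ℝ → ℝ), SmI L w₀ → wn L P w₀ ≤ R →
      (∀ i, ContDiff ℝ (⊤ : ℕ∞) (h₀ i)) →
      ∃ Ts > 0, ∀ T' ∈ Ioc 0 Ts, ∀ (w : ℝ → ℝ) (h : Fin 3 → ℝ → ℝ), SmI L w →
        (∀ i, ContDiff ℝ (⊤ : ℕ∞) (h i)) → wn L P (fun x => w x - w₀ x) ≤ η →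
        (∀ i, bn (P.σ i) T' (fun t => h i t - h₀ i t) ≤ ENNReal.ofReal η) →
        ∀ ε > 0, ∃ u, KSol L 0 T' u ∧ (∀ i, ∀ t ∈ Ioo 0 T', bop L P u i t = h i t) ∧
          ∃ w', SmI L w' ∧ (∀ x ∈ Icc 0 L, dI L w' x = -u x 0 / 6) ∧
            wn L P (fun x => w' x - w x) ≤ ε := by
  obtain ⟨A, hA0, hA⟩ := exists_cut_const
  obtain ⟨η₀, hη₀, -, hev⟩ := exists_smal hL (4 * (R + 1) ^ 2 + 1) P hA0
  obtain ⟨Ce, hCe, hext⟩ := ext_ex
  obtain ⟨Cr, hCr, hric⟩ := ric_wn hL P (4 * (R + 1) ^ 2 + 1) (R + 1)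
  have hκ : 4 * (R + 1) ^ 2 < 4 * (R + 1) ^ 2 + 1 := lt_add_one _
  generalize 4 * (R + 1) ^ 2 + 1 = κ at hev hric hκ
  obtain ⟨η, hη, hη1, hηs⟩ : ∃ η : ℝ, 0 < η ∧ η ≤ 1 ∧ (7 * (Ce + 1) + 1800 * Cr) * η ≤ η₀ / 2 := by
    refine ⟨min 1 (η₀ / 2 / (7 * (Ce + 1) + 1800 * Cr)), lt_min one_pos (by positivity),
      min_le_left _ _, ?_⟩
    rw [← le_div_iff₀' (by positivity)]
    exact min_le_right _ _
  refine ⟨η, hη, fun w₀ h₀ hw₀ hR hh₀ => ?_⟩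
  have hn₀ : nL L w₀ ≤ R + 1 := by linarith [nL_le_wn L P w₀]
  obtain ⟨q₀, hq₀⟩ := ric_exists hL hw₀ hn₀ hκ
  obtain ⟨B₁, hB₁, hB₁'⟩ := msex_bdd hq₀.sm.cont
  obtain ⟨B₂, hB₂, hB₂'⟩ := msex_bdd (hq₀.sm.dI hL).cont
  have hk : ∀ i, ContDiff ℝ (⊤ : ℕ∞) fun t => κ ^ 2 * P.c i - h₀ i t / 6 := fun i =>
    contDiff_const.sub ((hh₀ i).div_const 6)
  choose K hK0 hK using fun i => msex_bdd (a := -1) (b := 2) (hk i).continuous.continuousOn
  obtain ⟨i₀, hi₀⟩ := Finite.exists_max K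
  have hlim : Tendsto (fun γ : ℝ => 126 * K i₀ * Real.sqrt (2 / γ + 1 / γ) +
      (126 * (R + 1 + (Real.sqrt L + 2) * (κ + κ ^ 2 * L)) + 90 * (2 + L) * (B₁ + B₂)) * aa γ)
      atTop (𝓝 (126 * K i₀ * Real.sqrt (0 + 0) +
      (126 * (R + 1 + (Real.sqrt L + 2) * (κ + κ ^ 2 * L)) + 90 * (2 + L) * (B₁ + B₂)) * 0)) :=
    ((((tendsto_const_nhds.div_atTop tendsto_id).add
      (tendsto_const_nhds.div_atTop tendsto_id)).sqrt).const_mul _).add (aa_tendsto.const_mul _)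
  simp only [add_zero, Real.sqrt_zero, mul_zero] at hlim
  obtain ⟨γ, ⟨hγ, -, hsm⟩, hγs⟩ := (hev.and (hlim.eventually (ge_mem_nhds (half_pos hη₀)))).exists
  have hγ0 : 0 < γ := one_pos.trans_le hγ.1
  have hγ1 : 1 / γ ≤ 1 := (div_le_one hγ0).2 hγ.1
  refine ⟨1 / γ, by positivity, fun T' hT' w h hw hh hwη hhη ε hε => ?_⟩
  have hwn : wn L P w ≤ R + 1 := by linarith [msex_wn_le hL P hw hw₀]
  have hn : nL L w ≤ R + 1 := (nL_le_wn L P w).trans hwn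
  obtain ⟨q, hq⟩ := ric_exists hL hw hn hκ
  have hcut : ∀ t, -1 / γ ≤ t → t ≤ T' → cut (γ * t) = 1 := by
    intro t h1 h2
    refine cut_one (abs_le.2 ⟨?_, ?_⟩)
    · rw [div_le_iff₀' hγ0] at h1
      exact h1
    · have := h2.trans hT'.2
      rwa [le_div_iff₀' hγ0] at this
  obtain ⟨u, hu1, hu2, hu3⟩ := ex_mid hL hP hγ hT'.1 (sc_cut_scale hγ0)
    (fun t ht => hcut t ht.1 ht.2) (hA γ hγ0) (hsm η₀ hη₀ le_rfl) hw hq
    (ℓb := fun i t => -h i t / 6 + κ ^ 2 * P.c i)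
    (fun i => ((hh i).neg.div_const 6).add contDiff_const) (by
      choose τ₀ hτ₀ hE using fun i => hext (P.σ i) γ T' η η (fun t => h i t - h₀ i t)
        (msex_sigma P i).1 (msex_sigma P i).2 hγ.1 hT'.2 hT'.1 hη.le hη ((hh i).sub (hh₀ i))
        (hhη i)
      obtain ⟨i₁, hi₁⟩ := Finite.exists_min τ₀
      refine ⟨min (τ₀ i₁) (1 / γ), lt_min (hτ₀ _) (by positivity), fun τ hτ => ?_⟩
      have hτ' : τ ∈ Ioc 0 (1 / γ) := ⟨hτ.1, hτ.2.trans (min_le_right _ _)⟩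
      choose E hE1 hE2 hE3 using fun i =>
        hE i τ ⟨hτ.1, (hτ.2.trans (min_le_left _ _)).trans (hi₁ i)⟩
      have hsh := fun i => msex_short hγ.1 hτ' (msex_sigma P i).2 (b := 2 / γ) (by positivity)
        (sc_cut_scale hγ0) (fun t ht => cut_zero (by
          rw [div_lt_iff₀' hγ0] at ht
          exact ht.le.trans (le_abs_self _))) (fun t => cut_mem _) (hk i) (hK0 i₀)
        (fun t ht => (hK i t ⟨by rw [mem_Icc, neg_div] at ht; linarith [ht.1],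
          ht.2.trans (div_le_self zero_le_two hγ.1)⟩).trans (hi₀ i))
      have hE' : ∀ i, SC fun t => E i t * (-1 / 6) := fun i => (hE1 i).mul_right contDiff_const
      refine ⟨fun i t => E i t * (-1 / 6) +
        rp (-τ) τ t * cut (γ * t) * (κ ^ 2 * P.c i - h₀ i t / 6),
        fun i => (hE' i).add (hsh i).1, fun i t ht => ?_, ?_⟩
      · beta_reduce
        rw [hE2 i t ht]
        rcases le_or_gt (-1 / γ) t with h1 | h1
        · rw [hcut t h1 ht]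
          ring
        · rw [rp_zero hτ.1 (by rw [neg_div] at h1; linarith [hτ'.2])]
          ring
      · have hK₀ := hK0 i₀
        refine fun x hx j => (msex_lin hL hγ P hτ' hq.sm hq₀.sm (B := B₁ + B₂)
          (fun x hx => ⟨by linarith [hB₁' x hx], by linarith [hB₂' x hx]⟩)
          (fun i => (hE' i).add (hsh i).1)
          (b := (Ce * η + η) / 6 + 3 * K i₀ * Real.sqrt (2 / γ + 1 / γ)) (by positivity)
          (fun i => ?_) ((hq.wn_le hL P hw).trans (add_le_add_left hwn _)) x hx j).mono ?_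
        · have e : spec γ (fun t => E i t * (-1 / 6) +
              rp (-τ) τ t * cut (γ * t) * (κ ^ 2 * P.c i - h₀ i t / 6)) =
              fun s => ((-1 / 6 : ℝ) : ℂ) * spec γ (E i) s + spec γ (fun t =>
                rp (-τ) τ t * cut (γ * t) * (κ ^ 2 * P.c i - h₀ i t / 6)) s := by
            funext s
            rw [spec_add γ (hE' i) (hsh i).1, spec_mul_const]
          rw [e]
          refine Bd.add hγ0 adm_w1 ((rd_spec γ (hE1 i)).const_mul _).aesm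
            (rd_spec γ (hsh i).1).aesm (by positivity) (by positivity)
            (((hE3 i).const_mul _).mono (le_of_eq ?_)) (hsh i).2
          rw [Complex.norm_real, Real.norm_eq_abs, abs_of_neg (by norm_num)]
          ring
        · have h1 := (nL_le_wn L P _).trans (hric w w₀ q q₀ hw hw₀ hn hn₀ hq hq₀)
          have h2 := mul_le_mul_of_nonneg_left hwη hCr
          nlinarith) hε
  exact ⟨u, hu1, fun i t ht => by rw [hu2 i t ht]; ring, hu3⟩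

/-- Small data on a long interval: `m = cut (· / (T + 1))`; fix `γ` with `Big` and
`Kc L 1 P * A 0 * γ ^ (-1/3) ≤ 1/3` (`mulC_anti`; `Kc L κ P ≤ Kc L 1 P` for `κ ∈ [0, 1]`), then
`A 1`, `A 2`, the linear bound `η₁`, then `κ` small, then `η` with `4 η² < κ`; use `lin_bd` with
`q₀ = 0`, `ℓb i = κ² c i`, `H i = rp * m * κ² c i`. -/
theorem ms_small {L : ℝ} (hL : 0 < L) {P : BC} (hP : P.Valid) {T : ℝ} (hT : 0 < T) :
    ∃ η > 0, ∀ w : ℝ → ℝ, SmI L w → wn L P w ≤ η →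
      ∀ ε > 0, ∃ u, KSol L 0 T u ∧ (∀ i, ∀ t ∈ Ioo 0 T, bop L P u i t = 0) ∧
        ∃ w', SmI L w' ∧ (∀ x ∈ Icc 0 L, dI L w' x = -u x 0 / 6) ∧
          wn L P (fun x => w' x - w x) ≤ ε := by
  obtain ⟨m, hm, hm1, hm0, hmm⟩ : ∃ m : ℝ → ℝ, SC m ∧ (∀ t, -1 ≤ t → t ≤ T → m t = 1) ∧
      (∀ t, 2 * (T + 1) < t → m t = 0) ∧ ∀ t, m t ∈ Icc (0 : ℝ) 1 := by
    have hT1 : 0 < (T + 1)⁻¹ := by positivity
    refine ⟨fun t => cut ((T + 1)⁻¹ * t), sc_cut_scale hT1, fun t h1 h2 => cut_one ?_,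
      fun t ht => cut_zero (le_trans ?_ (le_abs_self _)), fun t => cut_mem _⟩
    · rw [abs_mul, abs_of_pos hT1, inv_mul_le_iff₀ (by positivity), abs_le]
      constructor <;> linarith
    · rw [le_inv_mul_iff₀ (by positivity)]
      linarith
  have hK1 := (msex_Kc_le hL P zero_le_one le_rfl).1
  have ha₀ := mulC_nonneg one_pos adm_w1 (spec 0 m)
  have hlim : Tendsto (fun γ : ℝ => Kc L 1 P * ((mulC 1 w1 (spec 0 m) + 1) * γ ^ (-(1 : ℝ) / 3)))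
      atTop (𝓝 (Kc L 1 P * ((mulC 1 w1 (spec 0 m) + 1) * 0))) := by
    refine ((?_ : Tendsto (fun γ : ℝ => γ ^ (-(1 : ℝ) / 3)) atTop (𝓝 0)).const_mul _).const_mul _
    rw [neg_div]
    exact tendsto_rpow_neg_atTop (by norm_num)
  rw [mul_zero, mul_zero] at hlim
  obtain ⟨γ, ⟨hγ1, hγ2⟩, hγs⟩ := (((eventually_ge_atTop (1 : ℝ)).and
    (eventually_ge_atTop ((2 / L) ^ 3))).and
    (hlim.eventually (ge_mem_nhds (by norm_num : (0 : ℝ) < 1 / 3)))).exists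
  have hγ : Big L γ := ⟨hγ1, hγ2⟩
  have hγ0 : 0 < γ := one_pos.trans_le hγ1
  have hγ1' : 1 / γ ≤ 1 := (div_le_one hγ0).2 hγ1
  have ha := aa_nonneg γ
  have ha₁ := mulC_nonneg hγ0 adm_w1 (mm γ m 1)
  have ha₂ := mulC_nonneg hγ0 adm_w1 (mm γ m 2)
  obtain ⟨A, hA0, hA1, hA2⟩ : ∃ A : Fin 3 → ℝ, A 0 = mulC 1 w1 (spec 0 m) + 1 ∧
      A 1 = mulC γ w1 (mm γ m 1) + 1 ∧ A 2 = mulC γ w1 (mm γ m 2) + 1 :=
    ⟨![_, _, _], rfl, rfl, rfl⟩
  have hApos : ∀ n, 0 < A n := by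
    intro n
    fin_cases n
    · exact hA0 ▸ (by positivity : 0 < mulC 1 w1 (spec 0 m) + 1)
    · exact hA1 ▸ (by positivity : 0 < mulC γ w1 (mm γ m 1) + 1)
    · exact hA2 ▸ (by positivity : 0 < mulC γ w1 (mm γ m 2) + 1)
  have hA : ∀ n, mulC γ w1 (mm γ m n) ≤ A n := by
    intro n
    fin_cases n
    · have e : mm γ m 0 = spec 0 m := by simp [mm]
      change mulC γ w1 (mm γ m 0) ≤ A 0
      rw [e, hA0]
      linarith [mulC_anti hγ1 (rd_spec 0 hm)]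
    · change mulC γ w1 (mm γ m 1) ≤ A 1
      linarith
    · change mulC γ w1 (mm γ m 2) ≤ A 2
      linarith
  rw [← hA0] at hγs
  have hA₀ := hApos 0
  have hA₁ := hApos 1
  have hA₂ := hApos 2
  obtain ⟨η₁, hη₁, hη₁1, hη₁s⟩ : ∃ η₁ : ℝ, 0 < η₁ ∧ η₁ ≤ 1 ∧
      Kc L 1 P * (A 1 * aa γ + A 2) * η₁ ≤ 1 / 3 := by
    refine ⟨min 1 (1 / 3 / (Kc L 1 P * (A 1 * aa γ + A 2) + 1)), lt_min one_pos (by positivity),
      min_le_left _ _, ?_⟩
    have h1 := min_le_right 1 (1 / 3 / (Kc L 1 P * (A 1 * aa γ + A 2) + 1))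
    have h2 : 0 < min 1 (1 / 3 / (Kc L 1 P * (A 1 * aa γ + A 2) + 1)) :=
      lt_min one_pos (by positivity)
    rw [le_div_iff₀' (by positivity)] at h1
    linarith
  have hsm : ∀ κ, 0 ≤ κ → κ ≤ 1 → Smal L κ P γ A η₁ := by
    intro κ h0 h1
    refine ⟨hApos, hη₁, ?_⟩
    have h2 : η₁ ^ 2 ≤ η₁ := by nlinarith
    calc Kc L κ P * (A 0 * γ ^ (-(1 : ℝ) / 3) + A 1 * aa γ * η₁ + A 2 * η₁ ^ 2)
        ≤ Kc L 1 P * (A 0 * γ ^ (-(1 : ℝ) / 3) + A 1 * aa γ * η₁ + A 2 * η₁) := by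
          gcongr
          exact (msex_Kc_le hL P h0 h1).2
      _ ≤ 1 := by linarith
  obtain ⟨i₀, hi₀⟩ := Finite.exists_max fun i => |P.c i|
  obtain ⟨Z, hZ⟩ : ∃ Z : ℝ, Z = 126 * |P.c i₀| * Real.sqrt (2 * (T + 1) + 1 / γ) +
    (126 * aa γ + 1800) * (1 + (Real.sqrt L + 2) * (1 + L)) := ⟨_, rfl⟩
  have hZ0 : 0 < Z := by rw [hZ]; positivity
  obtain ⟨η, hη, hη5, hηs⟩ : ∃ η : ℝ, 0 < η ∧ η ≤ 1 / 5 ∧ Z * η ≤ η₁ := by
    refine ⟨min (1 / 5) (η₁ / Z), lt_min (by norm_num) (by positivity), min_le_left _ _, ?_⟩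
    rw [← le_div_iff₀' hZ0]
    exact min_le_right _ _
  refine ⟨η, hη, fun w hw hwη ε hε => ?_⟩
  obtain ⟨κ, hκ0, hκη, hκ⟩ : ∃ κ : ℝ, 0 ≤ κ ∧ κ ≤ η ∧ 4 * η ^ 2 < κ :=
    ⟨5 * η ^ 2, by positivity, by nlinarith, by nlinarith⟩
  have hκ1 : κ ≤ 1 := by linarith
  have hκ2 : κ ^ 2 ≤ η := by nlinarith
  obtain ⟨q, hq⟩ := ric_exists hL hw ((nL_le_wn L P w).trans hwη) hκ
  have hD : wn L P q ≤ η * (1 + (Real.sqrt L + 2) * (1 + L)) := by
    refine (hq.wn_le hL P hw).trans ?_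
    have h1 : κ + κ ^ 2 * L ≤ η * (1 + L) := by nlinarith
    have h2 := mul_le_mul_of_nonneg_left h1 (by positivity : 0 ≤ Real.sqrt L + 2)
    linarith
  obtain ⟨u, hu1, hu2, hu3⟩ := ex_mid hL hP hγ hT hm
    (fun t ht => hm1 t (by rw [mem_Icc, neg_div] at ht; linarith [ht.1]) ht.2) hA (hsm κ hκ0 hκ1)
    hw hq (ℓb := fun i _ => κ ^ 2 * P.c i) (fun i => contDiff_const) (by
      refine ⟨1 / γ, by positivity, fun τ hτ => ?_⟩
      have hsh := fun i => msex_short hγ.1 hτ (msex_sigma P i).2 (b := 2 * (T + 1))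
        (by positivity) hm hm0 hmm (k := fun _ => κ ^ 2 * P.c i) contDiff_const
        (K := η * |P.c i₀|) (by positivity) (fun t _ => by
          rw [abs_mul, abs_of_nonneg (sq_nonneg κ)]
          exact mul_le_mul hκ2 (hi₀ i) (abs_nonneg _) hη.le)
      refine ⟨fun i t => rp (-τ) τ t * m t * (κ ^ 2 * P.c i), fun i => (hsh i).1,
        fun i t ht => ?_, ?_⟩
      · rcases le_or_gt (-1) t with h1 | h1
        · simp only [hm1 t h1 ht, mul_one]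
        · simp only [rp_zero hτ.1 (by linarith [hτ.2] : t ≤ -τ), zero_mul]
      · refine fun x hx j => (msex_lin hL hγ P hτ hq.sm (q₀ := fun _ => 0) contDiffOn_const
          (B := 0) (fun x _ => by simp [dI]) (fun i => (hsh i).1) (by positivity)
          (fun i => (hsh i).2) hD x hx j).mono ?_
        have h1 := (nL_le_wn L P q).trans hD
        simp only [sub_zero]
        rw [hZ] at hηs
        nlinarith) hε
  exact ⟨u, hu1, fun i t ht => by rw [hu2 i t ht]; ring, hu3⟩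

end Pool.Agent.Lib.MP_14aec4_an.W
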