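import Pool.Agent.Lib.MP_14aec4_an.Weak
import Pool.Agent.Lib.MP_14aec4_an.MSAP
import Pool.Agent.Lib.MP_14aec4_an.MSEX

/-!
Ill-posedness at `s = -1` in the restriction space when `u_xx` is prescribed.
-/

noncomputable section

open MeasureTheory Set Filter Topology FourierTransform
open scoped ENNReal ComplexConjugate

namespace Pool.Agent.Lib.MP_14aec4_an.W

lemma ill_edge_int {L θ M : ℝ} (hθ : 0 ≤ θ) (hL : 2 * θ ≤ L) {f : ℝ → ℝ}
    (hf : ContinuousOn f (Icc 0 L)) (hM : ∀ x ∈ Icc 0 L, |f x| ≤ M)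
    (h0 : ∀ x ∈ Icc θ (L - θ), f x = 0) : |∫ x in (0 : ℝ)..L, f x| ≤ 2 * θ * M := by
  have i1 : IntervalIntegrable f volume 0 θ :=
    (hf.mono (Icc_subset_Icc le_rfl (by linarith))).intervalIntegrable_of_Icc hθ
  have i2 : IntervalIntegrable f volume θ (L - θ) :=
    (hf.mono (Icc_subset_Icc hθ (by linarith))).intervalIntegrable_of_Icc (by linarith)
  have i3 : IntervalIntegrable f volume (L - θ) L :=
    (hf.mono (Icc_subset_Icc (by linarith) le_rfl)).intervalIntegrable_of_Icc (by linarith)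
  rw [← intervalIntegral.integral_add_adjacent_intervals (i1.trans i2) i3,
    ← intervalIntegral.integral_add_adjacent_intervals i1 i2]
  have e2 : ∫ x in θ..(L - θ), f x = 0 := by
    have e : ∫ x in θ..(L - θ), f x = ∫ _x in θ..(L - θ), (0 : ℝ) := by
      refine intervalIntegral.integral_congr fun x hx => ?_
      rw [uIcc_of_le (by linarith)] at hx
      exact h0 x hx
    rw [e]
    simp
  have e1 : |∫ x in (0 : ℝ)..θ, f x| ≤ M * |θ - 0| :=
    intervalIntegral.norm_integral_le_of_norm_le_const (f := f) (C := M) fun x hx => by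
      rw [uIoc_of_le hθ] at hx
      exact hM x ⟨hx.1.le, by linarith [hx.2]⟩
  have e3 : |∫ x in (L - θ)..L, f x| ≤ M * |L - (L - θ)| :=
    intervalIntegral.norm_integral_le_of_norm_le_const (f := f) (C := M) fun x hx => by
      rw [uIoc_of_le (by linarith)] at hx
      exact hM x ⟨by linarith [hx.1], hx.2⟩
  rw [sub_zero, abs_of_nonneg hθ] at e1
  rw [sub_sub_cancel, abs_of_nonneg hθ] at e3
  rw [e2, add_zero]
  refine (abs_add_le _ _).trans ?_
  linarith

lemma ill_ramp {L : ℝ} (hL : 0 < L) (dL : Bool) {κ : ℝ} (hκ : 0 < κ) :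
    ∃ r : ℝ → ℝ, SmI L r ∧ nL L r ≤ κ ∧ r 0 = (if dL then 0 else 1) ∧
      r L = if dL then 1 else 0 := by
  set θ := min (L / 2) (κ ^ 2 / 2) with hθ
  have h0 : 0 < θ := lt_min (by positivity) (by positivity)
  have h1 : θ ≤ L / 2 := min_le_left _ _
  have h2 : θ ≤ κ ^ 2 / 2 := min_le_right _ _
  have key : ∀ r : ℝ → ℝ, Continuous r → (∀ x, |r x| ≤ 1) → (∀ x ∈ Icc θ (L - θ), r x = 0) →
      nL L r ≤ κ := by
    intro r hr hb hz
    have := ill_edge_int (L := L) (M := 1) h0.le (by linarith) (f := fun x => r x ^ 2)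
      (hr.pow 2).continuousOn
      (fun x _ => by
        rw [abs_pow]
        exact pow_le_one₀ (abs_nonneg _) (hb x))
      (fun x hx => by simp [hz x hx])
    unfold nL
    rw [Real.sqrt_le_left hκ.le]
    linarith [le_abs_self (∫ x in (0 : ℝ)..L, r x ^ 2)]
  cases dL
  · refine ⟨fun x => 1 - rp 0 θ x, (contDiff_const.sub (rp_contDiff 0 θ)).contDiffOn,
      key _ (continuous_const.sub (rp_contDiff 0 θ).continuous) (fun x => ?_) fun x hx => ?_,
      ?_, ?_⟩
    · have := rp_mem 0 θ x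
      rw [abs_le]
      constructor <;> linarith [this.1, this.2]
    · rw [rp_one h0 (by linarith [hx.1]), sub_self]
    · simp [rp_zero h0 le_rfl]
    · simp only
      rw [rp_one h0 (by linarith)]
      simp
  · refine ⟨rp (L - θ) θ, (rp_contDiff _ θ).contDiffOn,
      key _ (rp_contDiff _ θ).continuous (fun x => ?_) fun x hx => rp_zero h0 hx.2, ?_, ?_⟩
    · have := rp_mem (L - θ) θ x
      rw [abs_le]
      constructor <;> linarith [this.1, this.2]
    · simpa using rp_zero h0 (by linarith)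
    · simpa using rp_one h0 (by linarith)

lemma ill_zero (σ : ℝ) (W : Set ℝ) : hNorm σ W 0 = 0 := hNorm_eq_zero _ _ _ fun _ _ => rfl

lemma ill_stab {L T : ℝ} (hL : 0 < L) (a b : ℕ → ℕ → ℝ) (k : Fin 4) (V : Set ℝ)
    (h : StableAtAllData (Ioo 0 L) V (-1) L T a b k) :
    ∃ T' ∈ Ioc 0 T, ∀ ε > 0, ∃ δ > 0, ∀ u, KSol L 0 T' u →
      (∀ i, ∀ t ∈ Ioo 0 T', bop L (bcOf a b k) u i t = 0) →
      hNorm (-1) (Ioo 0 L) (ofFun L fun x => u x 0) ≤ ENNReal.ofReal δ →
      ∀ t ∈ Icc 0 T', hNorm (-1) (Ioo 0 L) (ofFun L fun x => u x t) < ENNReal.ofReal ε := by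
  have hdn : ∀ (T₁ : ℝ) (φ : SchwartzMap ℝ ℂ → ℂ),
      dataNorm (Ioo 0 L) V (-1) T₁ k (φ, 0) = hNorm (-1) (Ioo 0 L) φ := by
    intro T₁ φ
    unfold dataNorm
    simp [ill_zero]
  have hdata : ∀ φ : ℝ → ℝ, ContinuousOn φ (Icc 0 L) →
      IsData (Ioo 0 L) V (-1) L T k (ofFun L φ, 0) := fun φ hφ =>
    ⟨by rw [hdn]; exact hNorm_ofFun_lt_top (by norm_num) _ hφ, realOn_ofFun _ _ _,
      fun i ψ _ => ⟨fun _ => rfl, fun _ => rfl⟩⟩
  obtain ⟨T', hT', U, -, hst⟩ := h _ (hdata (fun _ => 0) continuousOn_const)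
  have hsol : ∀ u, KSol L 0 T' u → (∀ i, ∀ t ∈ Ioo 0 T', bop L (bcOf a b k) u i t = 0) →
      IsSol (Ioo 0 L) V (-1) L T' a b k (ofFun L fun x => u x 0, 0)
        fun t => ofFun L fun x => u x t := by
    intro u hu hb
    refine ⟨fun t ht => ⟨hNorm_ofFun_lt_top (by norm_num) _ (hu.1.ctOn.slice_x ht),
      curve_continuous (by norm_num) hL hu.1.ctOn ht⟩, fun _ => u,
      fun _ => (isSmoothSol_iff hL hT'.1 u).mpr hu, ?_, ?_⟩
    · have e : ((ofFun L fun x => u x 0, fun i => ofFun T' (bdry L a b k u i)) -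
          (ofFun L fun x => u x 0, 0) :
            (SchwartzMap ℝ ℂ → ℂ) × (Fin 3 → SchwartzMap ℝ ℂ → ℂ)) = (0, 0) := by
        refine Prod.ext (sub_self _) (funext fun i => ?_)
        simp only [Prod.snd_sub, sub_zero, Pi.zero_apply]
        rw [bdry_eq_bop, ofFun_congr (hb i), ofFun_zero]
      simp only [e, hdn]
      rw [ill_zero]
      exact tendsto_const_nhds
    · have : solNorm (-1) L T' ((fun t => ofFun L fun x => u x t) -
          fun t => ofFun L fun x => u x t) = 0 := by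
        unfold solNorm
        simp only [sub_self, ENNReal.iSup_eq_zero]
        intro t _
        exact hNorm_eq_zero _ _ _ fun _ _ => rfl
      simp only [this]
      exact tendsto_const_nhds
  refine ⟨T', hT', fun ε hε => ?_⟩
  obtain ⟨δ, hδ, hδε⟩ := hst (ENNReal.ofReal (ε / 2)) (ENNReal.ofReal_pos.2 (by positivity))
  obtain ⟨δ', hδ', hδ'δ⟩ : ∃ δ' : ℝ, 0 < δ' ∧ ENNReal.ofReal δ' < δ := by
    obtain ⟨r, hr0, hr⟩ := ENNReal.lt_iff_exists_real_btwn.mp hδ
    exact ⟨r, ENNReal.ofReal_pos.mp hr.1, hr.2⟩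
  have hcl : ∀ u, KSol L 0 T' u → (∀ i, ∀ t ∈ Ioo 0 T', bop L (bcOf a b k) u i t = 0) →
      hNorm (-1) (Ioo 0 L) (ofFun L fun x => u x 0) ≤ ENNReal.ofReal δ' →
      ∀ t ∈ Icc 0 T', hNorm (-1) (Ioo 0 L) ((ofFun L fun x => u x t) - U t) <
        ENNReal.ofReal (ε / 2) := by
    intro u hu hb hn t ht
    have h1 := hδε _ (hdata _ (hu.1.ctOn.slice_x ⟨le_rfl, hT'.1.le⟩)) (by
      have e : ((ofFun L fun x => u x 0, 0) - (ofFun L fun _ => 0, 0) :
          (SchwartzMap ℝ ℂ → ℂ) × (Fin 3 → SchwartzMap ℝ ℂ → ℂ)) =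
          (ofFun L fun x => u x 0, 0) := by
        rw [ofFun_zero]
        simp
      rw [e, hdn]
      exact hn.trans_lt hδ'δ) _ (hsol u hu hb)
    refine lt_of_le_of_lt ?_ h1
    unfold solNorm
    exact le_iSup₂_of_le (f := fun τ (_ : τ ∈ Icc 0 T') => hNorm (-1) (Ioo 0 L)
      (((fun t => ofFun L fun x => u x t) - U) τ)) t ht le_rfl
  refine ⟨δ', hδ', fun u hu hb hn t ht => ?_⟩
  have h1 := hcl u hu hb hn t ht
  have h2 := hcl (fun _ _ => 0) (ksol_zero _ _ _) (fun i t _ => bop_zero _ _ _ _)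
    (by rw [ofFun_zero, ill_zero]; exact zero_le) t ht
  rw [ofFun_zero, hNorm_sub_comm] at h2
  have h3 := hNorm_sub_le (σ := -1) (W := Ioo 0 L) (ofFun L fun x => u x t) (U t) 0
  rw [sub_zero] at h3
  refine h3.trans_lt ((ENNReal.add_lt_add h1 h2).trans_le ?_)
  rw [← ENNReal.ofReal_add (by positivity) (by positivity), add_halves]

lemma ill_parts {L : ℝ} (hL : 0 < L) (c₀ c₁ c₂ : ℝ) {w : ℝ → ℝ} (hw : SmI L w) :
    ∫ x in (0 : ℝ)..L, (c₀ + c₁ * x + c₂ * x ^ 2) * dI L w x =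
      (c₀ + c₁ * L + c₂ * L ^ 2) * w L - c₀ * w 0 -
        ∫ x in (0 : ℝ)..L, (c₁ + 2 * c₂ * x) * w x := by
  have := intervalIntegral.integral_mul_deriv_eq_deriv_mul_of_hasDerivAt (a := 0) (b := L)
    (u := fun x => c₀ + c₁ * x + c₂ * x ^ 2) (v := w) (u' := fun x => c₁ + 2 * c₂ * x)
    (v' := dI L w) (by fun_prop) (by rw [uIcc_of_le hL.le]; exact hw.cont)
    (fun x _ => by
      have h1 := ((hasDerivAt_const x c₀).add ((hasDerivAt_id x).const_mul c₁)).add
        ((hasDerivAt_pow 2 x).const_mul c₂)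
      refine h1.congr_deriv ?_
      simp
      ring)
    (fun x hx => by
      rw [min_eq_left hL.le, max_eq_right hL.le] at hx
      exact hw.hasDerivAt hx)
    (Continuous.intervalIntegrable (by fun_prop) _ _)
    ((hw.dI hL).cont.intervalIntegrable_of_Icc hL.le)
  simpa using this

lemma ill_split {L : ℝ} (hL : 0 < L) {p : ℝ → ℝ} (hp : ContDiff ℝ (⊤ : ℕ∞) p) {κ : ℝ}
    (hκ : 0 < κ) : ∃ ψ : SchwartzMap ℝ ℂ, tsupport ψ ⊆ Ioo 0 L ∧ ∃ g : ℝ → ℝ, Continuous g ∧
      ∫ x in (0 : ℝ)..L, |g x| ≤ κ ∧ ∀ v : ℝ → ℝ, ContinuousOn v (Icc 0 L) →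
        |(∫ x in (0 : ℝ)..L, p x * v x) - ∫ x in (0 : ℝ)..L, g x * v x| ≤ ‖ofFun L v ψ‖ := by
  obtain ⟨M, hM⟩ := isCompact_Icc.exists_bound_of_continuousOn
    (hp.continuous.continuousOn (s := Icc 0 L))
  have hM0 : 0 ≤ M := (norm_nonneg _).trans (hM 0 ⟨le_rfl, hL.le⟩)
  set θ := min (L / 4) (κ / (2 * (M + 1))) with hθ
  have h0 : 0 < θ := lt_min (by positivity) (by positivity)
  have h1 : θ ≤ L / 4 := min_le_left _ _
  have h2 : θ ≤ κ / (2 * (M + 1)) := min_le_right _ _
  let χ : ContDiffBump (L / 2) := ⟨L / 2 - θ, L / 2 - θ / 2, by linarith, by linarith⟩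
  have hs : HasCompactSupport fun x => χ x * p x := χ.hasCompactSupport.mul_right
  have hg₁ : HasCompactSupport (Complex.ofRealCLM ∘ fun x => χ x * p x) := hs.comp_left rfl
  have hg₂ : ContDiff ℝ (⊤ : ℕ∞) (Complex.ofRealCLM ∘ fun x => χ x * p x) :=
    Complex.ofRealCLM.contDiff.comp (χ.contDiff.mul hp)
  have hχ := χ.continuous
  have hpc := hp.continuous
  refine ⟨hg₁.toSchwartzMap hg₂, ?_, fun x => (1 - χ x) * p x, by fun_prop, ?_, fun v hv => ?_⟩
  · have h3 : tsupport (Complex.ofRealCLM ∘ fun x => χ x * p x) ⊆ tsupport χ :=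
      (closure_mono (Function.support_comp_subset rfl _)).trans (tsupport_mul_subset_left)
    refine h3.trans ?_
    rw [χ.tsupport_eq, Real.closedBall_eq_Icc]
    apply Icc_subset_Ioo
    · change 0 < L / 2 - (L / 2 - θ / 2)
      linarith
    · change L / 2 + (L / 2 - θ / 2) < L
      linarith
  · have h3 := ill_edge_int (L := L) (M := M) h0.le (by linarith) (f := fun x => |(1 - χ x) * p x|)
      (by fun_prop)
      (fun x hx => by
        rw [abs_abs, abs_mul]
        have e1 : |1 - χ x| ≤ 1 := by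
          rw [abs_le]
          constructor <;> linarith [χ.nonneg (x := x), χ.le_one (x := x)]
        have e2 : |p x| ≤ M := hM x hx
        nlinarith [abs_nonneg (1 - χ x), abs_nonneg (p x)])
      (fun x hx => by
        have : χ x = 1 := χ.one_of_mem_closedBall (by
          rw [Real.closedBall_eq_Icc]
          change x ∈ Icc (L / 2 - (L / 2 - θ)) (L / 2 + (L / 2 - θ))
          exact ⟨by linarith [hx.1], by linarith [hx.2]⟩)
        simp [this])
    rw [le_div_iff₀ (by positivity)] at h2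
    nlinarith [le_abs_self (∫ x in (0 : ℝ)..L, |(1 - χ x) * p x|)]
  · have e : ofFun L v (hg₁.toSchwartzMap hg₂) =
        ((∫ x in (0 : ℝ)..L, χ x * p x * v x : ℝ) : ℂ) := by
      unfold ofFun
      rw [intervalIntegral.integral_of_le hL.le, integral_Ioc_eq_integral_Ioo,
        ← integral_complex_ofReal]
      congr 1
      ext x
      change ((χ x * p x : ℝ) : ℂ) * _ = _
      push_cast
      ring
    rw [e, Complex.norm_real, Real.norm_eq_abs, ← intervalIntegral.integral_sub]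
    · refine le_of_eq ?_
      congr 2
      ext x
      ring
    · exact (hpc.continuousOn.mul hv).intervalIntegrable_of_Icc hL.le
    · exact (ContinuousOn.mul (by fun_prop) hv).intervalIntegrable_of_Icc hL.le

/-- The time average of the part of the pairing that lives near the boundary. -/
lemma ill_bd {L T ρ κ : ℝ} (hL : 0 < L) (hT : 0 < T) {u : ℝ → ℝ → ℝ} (hu : CtOn L (Icc 0 T) u)
    (hρ : ∀ x ∈ Icc 0 L, ∫ t in (0 : ℝ)..T, u x t ^ 2 ≤ ρ ^ 2) {g : ℝ → ℝ} (hg : Continuous g)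
    (hκ : ∫ x in (0 : ℝ)..L, |g x| ≤ κ) :
    |∫ t in (0 : ℝ)..T, ∫ x in (0 : ℝ)..L, g x * u x t| ≤ κ * (T + ρ ^ 2) := by
  have hc : CtOn L (Icc 0 T) fun x t => g x * u x t :=
    ContinuousOn.mul (hg.comp continuous_fst).continuousOn hu
  rw [hc.integral_swap hL.le hT.le]
  have h1 : ∀ x ∈ Icc 0 L, |∫ t in (0 : ℝ)..T, u x t| ≤ T + ρ ^ 2 := by
    intro x hx
    have hx' := hu.slice_t hx
    have h2 : |∫ t in (0 : ℝ)..T, u x t| ≤ ∫ t in (0 : ℝ)..T, (1 + u x t ^ 2) :=
      intervalIntegral.norm_integral_le_of_norm_le (f := fun t => u x t)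
        (g := fun t => 1 + u x t ^ 2) hT.le
        (Eventually.of_forall fun t _ => by
          rw [Real.norm_eq_abs, ← sq_abs (u x t)]
          nlinarith [sq_nonneg (|u x t| - 1), abs_nonneg (u x t)])
        ((continuousOn_const.add (hx'.pow 2)).intervalIntegrable_of_Icc hT.le)
    rw [intervalIntegral.integral_add (g := fun t => u x t ^ 2) intervalIntegrable_const
      ((hx'.pow 2).intervalIntegrable_of_Icc hT.le)] at h2
    simp only [intervalIntegral.integral_const, sub_zero, smul_eq_mul, mul_one] at h2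
    linarith [hρ x hx]
  have h2 : |∫ x in (0 : ℝ)..L, ∫ t in (0 : ℝ)..T, g x * u x t| ≤
      ∫ x in (0 : ℝ)..L, |g x| * (T + ρ ^ 2) :=
    intervalIntegral.norm_integral_le_of_norm_le (f := fun x => ∫ t in (0 : ℝ)..T, g x * u x t)
      (g := fun x => |g x| * (T + ρ ^ 2)) hL.le
      (Eventually.of_forall fun x hx => by
        rw [intervalIntegral.integral_const_mul, Real.norm_eq_abs, abs_mul]
        exact mul_le_mul_of_nonneg_left (h1 x ⟨hx.1.le, hx.2⟩) (abs_nonneg _))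
      (Continuous.intervalIntegrable (by fun_prop) _ _)
  rw [intervalIntegral.integral_mul_const] at h2
  exact h2.trans (mul_le_mul_of_nonneg_right hκ (by positivity))

lemma ill_marked (a b : ℕ → ℕ → ℝ) {k : Fin 4} (hk : k ≠ 0) :
    (bcOf a b k).dL = false → (bcOf a b k).d0 = true := by
  fin_cases k
  · exact absurd rfl hk
  · intro h
    exact absurd h (by simp [bcOf])
  · intro _
    rfl
  · intro _
    rfl

lemma ill_poly {L : ℝ} (hL : 0 < L) (P : BC) : ∃ c₀ c₁ c₂ : ℝ,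
    c₀ = (if P.dL then 0 else 1) ∧ c₀ + c₁ * L + c₂ * L ^ 2 = (if P.dL then 1 else 0) ∧
      c₁ = (c₀ + c₁ * L + c₂ * L ^ 2) * P.ζ 2 - c₀ * P.ζ 0 := by
  cases P.dL
  · have e : 1 + -P.ζ 0 * L + (-1 + P.ζ 0 * L) / L ^ 2 * L ^ 2 = 0 := by
      field_simp
      ring
    refine ⟨1, -P.ζ 0, (-1 + P.ζ 0 * L) / L ^ 2, rfl, by simpa using e, ?_⟩
    rw [e]
    ring
  · have e : 0 + P.ζ 2 * L + (1 - P.ζ 2 * L) / L ^ 2 * L ^ 2 = 1 := by
      field_simp
      ring
    refine ⟨0, P.ζ 2, (1 - P.ζ 2 * L) / L ^ 2, rfl, by simpa using e, ?_⟩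
    rw [e]
    ring

/-- Take `d = 0` and let `T'`, `U` be given by stability. Let `b` be a marked end (`L` if `dL`,
else `0`), `p` the quadratic with `p(b) = 1`, `p = 0` at the other end, and
`w n = c * (ramp of width 1/n at b)`, vanishing at `0` if `d0`, vanishing at `L` otherwise
(so `w n = c (ramp - 1)` or `c ramp`), with `c > 0` small for `ms_small` on `[0, T']`. The smooth
solutions `u n` with zero boundary data and primitives `w' n` close to `w n` have data tending to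
`0` in the restriction norm (`ini_le_Ioo` after subtracting a constant), so `solNorm (u n) → 0`
by comparison with the zero solution. But `ms_ap` (with `w₀ = w n₀`, `h₀ = 0`, small `ρ`) and
`weak_form` give `|∫ p u n (t)| ≥ 3 c` on a fixed interval `[0, T'']`; average in `t`, split
`p = p_in + p_bd` with `p_in` a test function (`pairing_bound`) and `‖p_bd‖_{L¹}` small. -/
theorem not_stable_neg_one {L T : ℝ} (hL : 0 < L) (hT : 0 < T) (a b : ℕ → ℕ → ℝ) {k : Fin 4}
    (hk : k ≠ 0) (V : Set ℝ) : ¬ StableAtAllData (Ioo 0 L) V (-1) L T a b k := by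
  intro hst
  obtain ⟨T', hT', hst⟩ := ill_stab hL a b k V hst
  have hmk := ill_marked a b hk
  have hP := valid_bcOf a b k
  generalize bcOf a b k = P at hst hmk hP
  obtain ⟨c₀, c₁, c₂, e₀, e₁, e₂⟩ := ill_poly hL P
  obtain ⟨Cw, hCw, hweak⟩ := weak_form hL hP (c₀ := c₀) (c₁ := c₁) (c₂ := c₂)
    (fun h => by
      rw [e₀]
      cases h' : P.dL
      · rw [hmk h'] at h
        exact absurd h (by simp)
      · rfl)
    (fun h => by rw [e₁, h]; rfl) e₂
  obtain ⟨η₁, hη₁, hsmall⟩ := ms_small hL hP hT'.1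
  set c := η₁ / 2 with hc
  have hc0 : 0 < c := by positivity
  set ρ := min 1 (c / (2 * Cw)) with hρ
  have hρ0 : 0 < ρ := lt_min one_pos (by positivity)
  have hρ1 : ρ ≤ 1 := min_le_left _ _
  have hρ2 : Cw * (ρ + ρ ^ 2) ≤ c := by
    have h1 : ρ ≤ c / (2 * Cw) := min_le_right _ _
    rw [le_div_iff₀ (by positivity)] at h1
    nlinarith [mul_pos hCw hρ0]
  obtain ⟨η, hη, Cap, -, hap⟩ := ms_ap hL hP η₁ hρ0
  -- the norm `wn` of multiples of ramps
  have hwn : ∀ r : ℝ → ℝ, r 0 = (if P.dL then 0 else 1) → r L = (if P.dL then 1 else 0) →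
      nL L r ≤ 1 → wn L P (fun x => c * r x) ≤ η₁ := by
    intro r h0 h1 h2
    rw [wn_const_mul, abs_of_pos hc0]
    have : wn L P r ≤ 2 := by
      unfold wn
      rw [h0, h1]
      cases P.dL <;> cases P.d0 <;> simp <;> linarith
    nlinarith
  obtain ⟨r₀, hr₀, nr₀, r₀0, r₀L⟩ := ill_ramp hL P.dL
    (κ := min 1 (η / (4 * c))) (lt_min one_pos (by positivity))
  have hw₀ : SmI L fun x => c * r₀ x := ContDiffOn.mul contDiffOn_const hr₀
  obtain ⟨Ts, hTs, hap⟩ := hap (fun x => c * r₀ x) (fun _ _ => 0) hw₀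
    (hwn r₀ r₀0 r₀L (nr₀.trans (min_le_left _ _))) fun _ => contDiff_const
  set T₂ := min (min Ts T') 1 with hT₂
  have hT₂0 : 0 < T₂ := lt_min (lt_min hTs hT'.1) one_pos
  have hT₂s : T₂ ≤ Ts := (min_le_left _ _).trans (min_le_left _ _)
  have hT₂' : T₂ ≤ T' := (min_le_left _ _).trans (min_le_right _ _)
  have hT₂1 : T₂ ≤ 1 := min_le_right _ _
  obtain ⟨ψ, hψ, g, hg, hgκ, hsplit⟩ := ill_split hL
    (p := fun x => c₀ + c₁ * x + c₂ * x ^ 2) (by fun_prop) (κ := c * T₂ / 2) (by positivity)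
  obtain ⟨Cψ, hCψ, hpair⟩ := pairing_bound (-1) (Ioo 0 L) ψ hψ
  obtain ⟨δ, hδ, hst⟩ := hst (c / Cψ) (by positivity)
  set D := nL L fun x => c₁ + 2 * c₂ * x with hD
  have hD0 : 0 ≤ D := nL_nonneg _ _
  set m := min (min (η / 4) (δ / 84)) (c / (20 * (D + 1))) with hm
  have hm0 : 0 < m := lt_min (lt_min (by positivity) (by positivity)) (by positivity)
  have hm1 : m ≤ η / 4 := (min_le_left _ _).trans (min_le_left _ _)
  have hm2 : m ≤ δ / 84 := (min_le_left _ _).trans (min_le_right _ _)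
  have hm3 : m * (20 * (D + 1)) ≤ c := by
    rw [← le_div_iff₀ (by positivity)]
    exact min_le_right _ _
  obtain ⟨r, hr, nr, r0, rL⟩ := ill_ramp hL P.dL (κ := min 1 (m / c))
    (lt_min one_pos (by positivity))
  have hw : SmI L fun x => c * r x := ContDiffOn.mul contDiffOn_const hr
  obtain ⟨u, hu, hb, w, hw', hder, hclose⟩ := hsmall (fun x => c * r x) hw
    (hwn r r0 rL (nr.trans (min_le_left _ _))) m hm0
  have hcr : nL L (fun x => c * r x) ≤ m := by
    rw [nL_const_mul, abs_of_pos hc0]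
    have h1 := nr.trans (min_le_right _ _)
    rw [le_div_iff₀ hc0] at h1
    linarith
  have hcr₀ : nL L (fun x => c * r₀ x) ≤ η / 4 := by
    rw [nL_const_mul, abs_of_pos hc0]
    have h1 := nr₀.trans (min_le_right _ _)
    rw [le_div_iff₀ (by positivity)] at h1
    linarith
  have hwL : nL L w ≤ 2 * m := by
    have h1 := nL_add_le hL.le (hw'.cont.sub hw.cont) hw.cont
    have h2 := nL_le_wn L P fun x => w x - c * r x
    rw [nL_congr hL.le (q' := w) fun x _ => by simp] at h1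
    have h3 : nL L (w - fun x => c * r x) = nL L fun x => w x - c * r x := rfl
    linarith
  -- the data are small in the restriction norm
  have hu0 : ∀ x ∈ Icc 0 L, u x 0 = -6 * dI L w x := fun x hx => by
    rw [hder x hx]
    ring
  have hdat : hNorm (-1) (Ioo 0 L) (ofFun L fun x => u x 0) ≤ ENNReal.ofReal δ := by
    rw [ofFun_congr (q := fun x => -6 * dI L w x) fun x hx => hu0 x (Ioo_subset_Icc_self hx),
      ofFun_const_mul]
    refine (hNorm_real_mul _ _).trans ((mul_le_mul_right (ini_le_Ioo hL hw') _).trans ?_)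
    rw [← ENNReal.ofReal_mul (abs_nonneg _)]
    refine ENNReal.ofReal_le_ofReal ?_
    rw [abs_neg, abs_of_pos (by norm_num : (0 : ℝ) < 6)]
    linarith
  have hsm := hst u hu hb hdat
  -- the local smoothing bound
  have hu₂ : KSol L 0 T₂ u := hu.mono le_rfl hT₂'
  have hb₂ : ∀ i, ∀ t ∈ Ioo 0 T₂, bop L P u i t = 0 := fun i t ht =>
    hb i t ⟨ht.1, ht.2.trans_le hT₂'⟩
  have hnear : Near L P T₂ η (fun x => c * r₀ x) (fun _ _ => 0) u w := by
    refine ⟨hu₂, hw', hder, ?_, fun i => ?_⟩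
    · have h1 := wn_add_le hL.le P (hw'.cont.sub hw.cont) (hw.cont.sub hw₀.cont)
      rw [wn_congr hL.le P (q' := fun x => w x - c * r₀ x) fun x _ => by simp] at h1
      have h2 : wn L P ((fun x => c * r x) - fun x => c * r₀ x) ≤ m + η / 4 := by
        have h3 := nL_add_le hL.le hw.cont (hw₀.cont.const_smul (-1 : ℝ))
        have h4 := nL_const_mul (L := L) (-1) fun x => c * r₀ x
        rw [nL_congr hL.le (q' := (fun x => c * r x) - fun x => c * r₀ x)
          fun x _ => by simp [sub_eq_add_neg]] at h3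
        have h5 : nL L ((-1 : ℝ) • fun x => c * r₀ x) = nL L fun x => -1 * (c * r₀ x) := rfl
        unfold wn
        simp only [Pi.sub_apply, r0, r₀0, rL, r₀L, sub_self, abs_zero, ite_self, add_zero]
        rw [abs_neg, abs_one, one_mul] at h4
        linarith
      have h3 : wn L P (w - fun x => c * r x) = wn L P fun x => w x - c * r x := rfl
      linarith
    · unfold bn
      rw [ofFun_congr (q := fun _ => 0) fun t ht => by simp [hb₂ i t ht], ofFun_zero,
        ill_zero]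
      exact zero_le
  have hL2 := (hap T₂ ⟨hT₂0, hT₂s⟩ u w hnear).1
  have hwk := hweak T₂ ρ u hT₂0 hT₂1 hρ0.le hu₂ hb₂ hL2
  set I : ℝ → ℝ := fun t => ∫ x in (0 : ℝ)..L, (c₀ + c₁ * x + c₂ * x ^ 2) * u x t with hI
  set J : ℝ → ℝ := fun t => ∫ x in (0 : ℝ)..L, g x * u x t with hJ
  have hI0 : 5 * c ≤ |I 0| := by
    have h1 : I 0 = -6 * ∫ x in (0 : ℝ)..L, (c₀ + c₁ * x + c₂ * x ^ 2) * dI L w x := by
      rw [← intervalIntegral.integral_const_mul]
      refine intervalIntegral.integral_congr fun x hx => ?_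
      rw [uIcc_of_le hL.le] at hx
      rw [hu0 x hx]
      ring
    rw [ill_parts hL c₀ c₁ c₂ hw'] at h1
    have h2 : |∫ x in (0 : ℝ)..L, (c₁ + 2 * c₂ * x) * w x| ≤ D * (2 * m) := by
      refine (intervalIntegral.abs_integral_le_integral_abs hL.le).trans
        ((integral_abs_mul_le hL.le (by fun_prop) hw'.cont).trans ?_)
      exact mul_le_mul_of_nonneg_left hwL hD0
    have h3 := nL_nonneg L fun x => w x - c * r x
    have h4 : c - m ≤ |(c₀ + c₁ * L + c₂ * L ^ 2) * w L - c₀ * w 0| := by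
      rw [e₁, e₀]
      unfold wn at hclose
      simp only [r0, rL] at hclose
      cases h' : P.dL
      · rw [hmk h', h'] at hclose
        simp only [if_true, Bool.false_eq_true, if_false, mul_one, add_zero] at hclose
        simp only [Bool.false_eq_true, if_false, zero_mul, one_mul, zero_sub, abs_neg]
        linarith [le_abs_self (w 0), neg_abs_le (w 0 - c)]
      · rw [h'] at hclose
        simp only [if_true, mul_one] at hclose
        have h5 : 0 ≤ if P.d0 = true then |w 0 - c * 0| else 0 := by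
          split_ifs
          · exact abs_nonneg _
          · exact le_rfl
        simp only [if_true, zero_mul, one_mul, sub_zero]
        linarith [le_abs_self (w L), neg_abs_le (w L - c)]
    rw [h1, abs_mul, abs_neg, abs_of_pos (by norm_num : (0 : ℝ) < 6)]
    have h5 := abs_sub_abs_le_abs_sub ((c₀ + c₁ * L + c₂ * L ^ 2) * w L - c₀ * w 0)
      (∫ x in (0 : ℝ)..L, (c₁ + 2 * c₂ * x) * w x)
    nlinarith [mul_nonneg hD0 hm0.le]
  have hJc : ContinuousOn J (Icc 0 T₂) :=
    CtOn.continuousOn_integral hL.le (f := fun x t => g x * u x t)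
      (ContinuousOn.mul (hg.comp continuous_fst).continuousOn hu₂.1.ctOn)
  have hJI : ∀ t ∈ Icc 0 T₂, |J t - I 0| ≤ 2 * c := by
    intro t ht
    have h1 := hsplit (fun x => u x t) (hu₂.1.ctOn.slice_x ht)
    have h2 := hpair _ _ (by positivity) (hsm t ⟨ht.1, ht.2.trans hT₂'⟩)
    rw [mul_div_cancel₀ _ hCψ.ne'] at h2
    have h3 : |I t - I 0| ≤ c := (hwk t ht).trans hρ2
    have h4 : |I t - J t| ≤ c := h1.trans h2
    rw [abs_le] at h3 h4 ⊢
    constructor <;> linarith [h3.1, h3.2, h4.1, h4.2]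
  have hint : |∫ t in (0 : ℝ)..T₂, (J t - I 0)| ≤ 2 * c * |T₂ - 0| :=
    intervalIntegral.norm_integral_le_of_norm_le_const (f := fun t => J t - I 0) (C := 2 * c)
      fun t ht => by
      rw [uIoc_of_le hT₂0.le] at ht
      exact hJI t ⟨ht.1.le, ht.2⟩
  rw [intervalIntegral.integral_sub (hJc.intervalIntegrable_of_Icc hT₂0.le)
    intervalIntegrable_const, sub_zero, abs_of_pos hT₂0] at hint
  simp only [intervalIntegral.integral_const, sub_zero, smul_eq_mul] at hint
  have hbd : |∫ t in (0 : ℝ)..T₂, J t| ≤ c * T₂ / 2 * (T₂ + ρ ^ 2) :=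
    ill_bd hL hT₂0 hu₂.1.ctOn hL2 hg hgκ
  have h1 : c * T₂ / 2 * (T₂ + ρ ^ 2) ≤ c * T₂ / 2 * 2 :=
    mul_le_mul_of_nonneg_left (by nlinarith) (by positivity)
  have h2 := abs_sub_abs_le_abs_sub (T₂ * I 0) (∫ t in (0 : ℝ)..T₂, J t)
  rw [abs_sub_comm, abs_mul, abs_of_pos hT₂0] at h2
  nlinarith [mul_pos hc0 hT₂0, mul_le_mul_of_nonneg_left hI0 hT₂0.le]

end Pool.Agent.Lib.MP_14aec4_an.W
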