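import Pool.Agent.Lib.MP_14aec4_an.WP
import Pool.Agent.Lib.MP_14aec4_an.Ill

/-!
The classification.
-/

noncomputable section

open MeasureTheory Set Filter Topology FourierTransform
open scoped ENNReal ComplexConjugate

namespace Pool.Agent.Lib.MP_14aec4_an.W

theorem classification (L T s : ℝ) (hL : 0 < L) (hT : 0 < T) (hs : s ≤ -1) (k : Fin 4)
    (a b : ℕ → ℕ → ℝ) :
    List.TFAE [WellPosed (Ioo 0 L) (Ioi 0) s L T a b k,
      StableAtAllData (Ioo 0 L) (Ioi 0) s L T a b k, s = -1 ∧ k = 0] ∧
    List.TFAE [WellPosed (win L k) univ s L T a b k,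
      StableAtAllData (win L k) univ s L T a b k, s = -1] := by
  constructor
  · tfae_have 1 → 2 := stable_of_wellPosed
    tfae_have 2 → 3 := by
      intro h
      rcases hs.lt_or_eq with h1 | h1
      · exact absurd h (not_wellPosed _ _ h1 hL hT a b k)
      · subst h1
        refine ⟨rfl, ?_⟩
        by_contra hk
        exact not_stable_neg_one hL hT a b hk _ h
    tfae_have 3 → 1 := by
      rintro ⟨rfl, rfl⟩
      exact wellPosed_neg_one hL hT a b 0 (Or.inr ⟨rfl, rfl⟩)
    tfae_finish
  · tfae_have 1 → 2 := stable_of_wellPosed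
    tfae_have 2 → 3 := by
      intro h
      rcases hs.lt_or_eq with h1 | h1
      · exact absurd h (not_wellPosed _ _ h1 hL hT a b k)
      · exact h1
    tfae_have 3 → 1 := by
      rintro rfl
      exact wellPosed_neg_one hL hT a b k (Or.inl rfl)
    tfae_finish

end Pool.Agent.Lib.MP_14aec4_an.W
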