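import Pool.Agent.Lib.MP_14aec4_an.Res0

/-!
The resolvent of `V''' + s V = g` on `[0, L]`.
-/

noncomputable section

open MeasureTheory Set Filter Topology FourierTransform
open scoped ENNReal ComplexConjugate

namespace Pool.Agent.Lib.MP_14aec4_an.W

variable {L γ : ℝ} {P : BC} {g g' : ℝ → ℝ → ℂ} {β β' : Fin 3 → ℝ → ℂ}

lemma res_gpos (hγ : Big L γ) : 0 < γ := lt_of_lt_of_le one_pos hγ.1

lemma res_rt_ne (hγ : 0 < γ) (τ : ℝ) : rt γ τ ≠ 0 := by
  intro h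
  have h1 := rt_cube (γ := γ) τ
  rw [h] at h1
  exact sv_ne_zero hγ τ (by rw [← h1]; simp)

lemma res_norm_rt_ge (hγ : Big L γ) (τ : ℝ) : 2 / L ≤ ‖rt γ τ‖ := by
  have h1 : ‖rt γ τ‖ ^ 3 = om γ τ := by
    rw [← norm_pow, rt_cube]; rfl
  have h2 : (2 / L) ^ 3 ≤ ‖rt γ τ‖ ^ 3 := by
    rw [h1]; exact hγ.2.trans (le_om γ τ)
  exact le_of_pow_le_pow_left₀ (by norm_num) (norm_nonneg _) h2

/-- The exponentials that occur are bounded by one. -/
lemma res_exp_le (hγ : 0 < γ) (i : Fin 3) {x : ℝ} (hx : x ∈ Icc 0 L) (τ : ℝ) :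
    ‖Complex.exp (lam γ i τ * ((x : ℂ) - (ept L i : ℝ)))‖ ≤ 1 := by
  rw [Complex.norm_exp, ← Complex.ofReal_sub, Complex.re_mul_ofReal, Real.exp_le_one_iff]
  by_cases hi : i = 0
  · subst hi
    have h1 := re_lam_zero hγ τ
    have h2 : ept L 0 = 0 := rfl
    rw [h2, sub_zero]
    exact mul_nonpos_of_nonpos_of_nonneg h1.le hx.1
  · have h1 := re_lam_pos hγ hi τ
    have h2 : ept L i = L := by
      fin_cases i
      · exact absurd rfl hi
      · rfl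
      · rfl
    rw [h2]
    exact mul_nonpos_of_nonneg_of_nonpos h1.le (sub_nonpos.2 hx.2)

lemma res_far_mem (hL : 0 ≤ L) (i : Fin 3) : L - ept L i ∈ Icc 0 L := by
  have := ept_mem hL i
  exact ⟨by linarith [this.2], by linarith [this.1]⟩

lemma res_exp_zero (hL : 0 < L) (hγ : Big L γ) (τ : ℝ) :
    ‖Complex.exp (lam γ 0 τ * (((L - ept L 0 : ℝ) : ℂ) - (ept L 0 : ℝ)))‖ ≤ 1 / 4 := by
  have h2 : ept L 0 = 0 := rfl
  have h3 : lam γ 0 τ = -rt γ τ := by simp [lam, cc]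
  rw [Complex.norm_exp, ← Complex.ofReal_sub, Complex.re_mul_ofReal, h2, h3]
  have h4 := (re_rt (res_gpos hγ) τ).2.1
  have h5 := res_norm_rt_ge hγ τ
  have h6 : (3 : ℝ) / 2 ≤ Real.sqrt 3 := by
    apply Real.le_sqrt_of_sq_le; norm_num
  have h7 : 2 ≤ ‖rt γ τ‖ * L := by rwa [div_le_iff₀ hL] at h5
  have hs : 0 ≤ Real.sqrt 3 := Real.sqrt_nonneg 3
  have h8 : Real.sqrt 3 ≤ (rt γ τ).re * L := by
    have : Real.sqrt 3 / 2 * ‖rt γ τ‖ * L ≤ (rt γ τ).re * L :=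
      mul_le_mul_of_nonneg_right h4 hL.le
    nlinarith
  have h9 : (4 : ℝ) ≤ Real.exp (Real.sqrt 3) := by
    have h10 := Real.quadratic_le_exp_of_nonneg hs
    have h11 : Real.sqrt 3 ^ 2 = 3 := Real.sq_sqrt (by norm_num)
    linarith
  have h12 : (-rt γ τ).re * (L - 0 - 0) = -((rt γ τ).re * L) := by
    rw [Complex.neg_re]; ring
  rw [h12, Real.exp_neg, one_div]
  exact inv_anti₀ (by norm_num) (h9.trans (Real.exp_le_exp.2 h8))

/-- The data of the linear system. -/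
def resE (L γ τ : ℝ) (i : Fin 3) : ℂ :=
  Complex.exp (lam γ i τ * ((L - ept L i : ℝ) - ept L i))

def resJ (L γ : ℝ) (g : ℝ → ℝ → ℂ) (τ : ℝ) (i : Fin 3) : ℂ := jj L γ g i (L - ept L i) τ

def resB (P : BC) (γ : ℝ) (β : Fin 3 → ℝ → ℂ) (τ : ℝ) (i : Fin 3) : ℂ :=
  -3 * rt γ τ ^ 2 / rt γ τ ^ (P.j i + 1) * β i τ

lemma res_qres (L : ℝ) (P : BC) (γ : ℝ) (g : ℝ → ℝ → ℂ) (β : Fin 3 → ℝ → ℂ) (τ : ℝ) :
    qres L P γ g β τ =
      qq (P.j 0 + 1) (P.j 1 + 1) (resE L γ τ) (resJ L γ g τ) (resB P γ β τ) := rfl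

lemma resE_bd (hL : 0 < L) (hγ : Big L γ) (τ : ℝ) :
    ‖resE L γ τ 0‖ ≤ 1 / 4 ∧ ‖resE L γ τ 1‖ ≤ 1 ∧ ‖resE L γ τ 2‖ ≤ 1 :=
  ⟨res_exp_zero hL hγ τ, res_exp_le (res_gpos hγ) 1 (res_far_mem hL.le 1) τ,
    res_exp_le (res_gpos hγ) 2 (res_far_mem hL.le 2) τ⟩

lemma res_norm_pow (hγ : 0 < γ) (τ : ℝ) (a b : ℕ) :
    ‖rt γ τ ^ a / rt γ τ ^ b‖ = om γ τ ^ (((a : ℝ) - b) / 3) := by
  have h := om_pos hγ τ
  rw [norm_div, norm_pow, norm_pow, norm_rt, ← Real.rpow_natCast, ← Real.rpow_natCast,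
    ← Real.rpow_mul h.le, ← Real.rpow_mul h.le, ← Real.rpow_sub h]
  congr 1; ring

lemma norm_res_le (hL : 0 < L) (hγ : Big L γ) (P : BC) (g : ℝ → ℝ → ℂ) (β : Fin 3 → ℝ → ℂ)
    (j : Fin 3) (x τ : ℝ) :
    ‖res L P γ g β j x τ‖ ≤
      14 * ∑ i, om γ τ ^ (((j : ℝ) - (P.j i + 1)) / 3) * ‖β i τ‖ +
        5 * om γ τ ^ (((j : ℝ) - 2) / 3) *
          (∑ i, ‖jj L γ g i (L - ept L i) τ‖ + ∑ i, ‖jj L γ g i (cl L x) τ‖) := by
  have hg0 := res_gpos hγ
  have hom := om_pos hg0 τ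
  obtain ⟨e0, e1, e2⟩ := resE_bd hL hγ τ
  have hq := (qq_spec (P.j 0 + 1) (P.j 1 + 1) (resE L γ τ) (resJ L γ g τ) (resB P γ β τ)
    e0 e1 e2).2.2.2
  rw [← res_qres] at hq
  have hc : ‖-(rt γ τ ^ (j : ℕ) / (3 * rt γ τ ^ 2))‖ = om γ τ ^ (((j : ℝ) - 2) / 3) / 3 := by
    have h1 : rt γ τ ^ (j : ℕ) / (3 * rt γ τ ^ 2) = rt γ τ ^ (j : ℕ) / rt γ τ ^ 2 / 3 := by
      rw [div_div, mul_comm]
    rw [norm_neg, h1, norm_div, res_norm_pow hg0]
    simp
  have hs : ‖∑ i, cc i ^ ((j : ℕ) + 1) *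
      (Complex.exp (lam γ i τ * ((cl L x : ℝ) - ept L i)) * qres L P γ g β τ i
        + jj L γ g i (cl L x) τ)‖ ≤
      ∑ i, ‖qres L P γ g β τ i‖ + ∑ i, ‖jj L γ g i (cl L x) τ‖ := by
    rw [← Finset.sum_add_distrib]
    refine (norm_sum_le _ _).trans (Finset.sum_le_sum fun i _ => ?_)
    rw [norm_mul, norm_pow, norm_cc, one_pow, one_mul]
    refine (norm_add_le _ _).trans (add_le_add ?_ le_rfl)
    rw [norm_mul]
    exact mul_le_of_le_one_left (norm_nonneg _) (res_exp_le hg0 i (cl_mem hL.le x) τ)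
  have hb : ∀ i, om γ τ ^ (((j : ℝ) - 2) / 3) / 3 * ‖resB P γ β τ i‖ =
      om γ τ ^ (((j : ℝ) - (P.j i + 1)) / 3) * ‖β i τ‖ := by
    intro i
    have h1 : resB P γ β τ i = -3 * (rt γ τ ^ 2 / rt γ τ ^ (P.j i + 1)) * β i τ := by
      unfold resB; ring
    have h2 : om γ τ ^ (((j : ℝ) - (P.j i + 1)) / 3) =
        om γ τ ^ (((j : ℝ) - 2) / 3) * om γ τ ^ ((((2 : ℕ) : ℝ) - ((P.j i + 1 : ℕ) : ℝ)) / 3) := by
      rw [← Real.rpow_add hom]; congr 1; push_cast; ring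
    rw [h1, norm_mul, norm_mul, res_norm_pow hg0, h2]
    have h3 : ‖(-3 : ℂ)‖ = 3 := by simp
    rw [h3]; ring
  have hw : 0 ≤ om γ τ ^ (((j : ℝ) - 2) / 3) := (Real.rpow_pos_of_pos hom _).le
  have hJ : 0 ≤ ∑ i, ‖jj L γ g i (L - ept L i) τ‖ := Finset.sum_nonneg fun _ _ => norm_nonneg _
  have hK : 0 ≤ ∑ i, ‖jj L γ g i (cl L x) τ‖ := Finset.sum_nonneg fun _ _ => norm_nonneg _
  have hb' : ∑ i, om γ τ ^ (((j : ℝ) - (P.j i + 1)) / 3) * ‖β i τ‖ =
      om γ τ ^ (((j : ℝ) - 2) / 3) / 3 * ∑ i, ‖resB P γ β τ i‖ := by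
    rw [Finset.mul_sum]; exact Finset.sum_congr rfl fun i _ => (hb i).symm
  have hJ' : ∑ i, ‖resJ L γ g τ i‖ = ∑ i, ‖jj L γ g i (L - ept L i) τ‖ := rfl
  rw [hJ'] at hq
  unfold res
  rw [norm_mul, hc, hb']
  have h4 := mul_le_mul_of_nonneg_left (hs.trans (add_le_add hq le_rfl))
    (div_nonneg hw (by norm_num : (0 : ℝ) ≤ 3))
  refine h4.trans ?_
  nlinarith [mul_nonneg hw hJ, mul_nonneg hw hK]

lemma res_jj_cont (hγ : 0 < γ) (hg : RD2 g) (i : Fin 3) (y : ℝ) :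
    Continuous fun τ => jj L γ g i y τ :=
  (continuous_jj (L := L) hγ hg i).comp (f := fun τ : ℝ => (y, τ))
    (continuous_const.prodMk continuous_id)

lemma res_j_le (P : BC) (i : Fin 3) : P.j i ≤ 2 := by
  unfold BC.j
  fin_cases i <;> simp <;> split_ifs <;> omega

theorem res_pw (hL : 0 < L) (hγ : Big L γ) (P : BC) (hg : RD2 g) {c τ : ℝ}
    (h₁ : ∀ i, ‖β i τ‖ ≤ c) (h₂ : ∀ x ∈ Icc 0 L, ‖g x τ‖ ≤ c) (j : Fin 3) (x : ℝ) :
    ‖res L P γ g β j x τ‖ ≤ (42 + 30 * L) * om γ τ * c := by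
  have hg0 := res_gpos hγ
  have h1 := one_le_om hγ.1 τ
  have hc : 0 ≤ c := (norm_nonneg _).trans (h₁ 0)
  have hj : ((j : ℕ) : ℝ) ≤ 2 := by
    have : (j : ℕ) ≤ 2 := by omega
    exact_mod_cast this
  have hp : ∀ σ : ℝ, σ ≤ 1 → om γ τ ^ σ ≤ om γ τ := by
    intro σ hσ
    simpa using Real.rpow_le_rpow_of_exponent_le h1 hσ
  have hjj : ∀ i, ∀ y ∈ Icc 0 L, ‖jj L γ g i y τ‖ ≤ L * c := by
    intro i y hy
    refine (norm_jj_le hg0 hg i hy τ).trans ?_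
    have hcont : Continuous fun y => ‖g y τ‖ :=
      (hg.cont.comp (continuous_id.prodMk continuous_const)).norm
    have := intervalIntegral.integral_mono_on hL.le (hcont.intervalIntegrable _ _)
      (continuous_const.intervalIntegrable (μ := volume) _ _) h₂
    simpa using this
  refine (norm_res_le hL hγ P g β j x τ).trans ?_
  have hA : ∑ i, om γ τ ^ (((j : ℝ) - (P.j i + 1)) / 3) * ‖β i τ‖ ≤ ∑ _i : Fin 3, om γ τ * c := by
    refine Finset.sum_le_sum fun i _ => mul_le_mul (hp _ ?_) (h₁ i) (norm_nonneg _) (by linarith)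
    have : (0 : ℝ) ≤ P.j i := Nat.cast_nonneg _
    linarith
  have hB : ∑ i, ‖jj L γ g i (L - ept L i) τ‖ ≤ ∑ _i : Fin 3, L * c :=
    Finset.sum_le_sum fun i _ => hjj i _ (res_far_mem hL.le i)
  have hC : ∑ i, ‖jj L γ g i (cl L x) τ‖ ≤ ∑ _i : Fin 3, L * c :=
    Finset.sum_le_sum fun i _ => hjj i _ (cl_mem hL.le x)
  simp only [Finset.sum_const, Finset.card_univ, Fintype.card_fin, nsmul_eq_mul,
    Nat.cast_ofNat] at hA hB hC
  have hD : om γ τ ^ (((j : ℝ) - 2) / 3) *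
      (∑ i, ‖jj L γ g i (L - ept L i) τ‖ + ∑ i, ‖jj L γ g i (cl L x) τ‖) ≤
      om γ τ * (3 * (L * c) + 3 * (L * c)) :=
    mul_le_mul (hp _ (by linarith)) (add_le_add hB hC)
      (add_nonneg (Finset.sum_nonneg fun _ _ => norm_nonneg _)
        (Finset.sum_nonneg fun _ _ => norm_nonneg _)) (by linarith)
  nlinarith

theorem res_bd (hL : 0 < L) (hγ : Big L γ) (P : BC) {w : ℝ → ℝ} (hw : Adm w) (hg : RD2 g)
    (hβ : ∀ i, RD (β i)) {b c : ℝ} (hb : 0 ≤ b) (hc : 0 ≤ c)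
    (h₁ : ∀ i, Bd γ w (P.σ i) (β i) b)
    (h₂ : ∀ i, ∀ x ∈ Icc 0 L, Bd γ w (-1 / 3) (jj L γ g i x) c) :
    SBd L γ w (res L P γ g β) (42 * b + 30 * c) := by
  intro x _ j
  have hg0 := res_gpos hγ
  have hm : ∀ i y, AEStronglyMeasurable (jj L γ g i y) volume := fun i y =>
    (res_jj_cont hg0 hg i y).aestronglyMeasurable
  have key := Bd.of_sum_le (Finset.univ : Finset (Fin 3 ⊕ Fin 3 ⊕ Fin 3)) (γ := γ)
    (σ := (1 - (j : ℝ)) / 3) hg0 hw (A := res L P γ g β j x)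
    (B := Sum.elim β (Sum.elim (fun i => jj L γ g i (L - ept L i)) fun i => jj L γ g i (cl L x)))
    (σ' := Sum.elim P.σ fun _ => -1 / 3) (K := Sum.elim (fun _ => 14) fun _ => 5)
    (c := Sum.elim (fun _ => b) fun _ => c)
    (by rintro (i | i) _ <;> simp) (by rintro (i | i) _ <;> simpa)
    (by
      rintro (i | i | i) _
      · exact (hβ i).aesm
      · exact hm i _
      · exact hm i _)
    (by
      intro τ
      have hom := om_pos hg0 τ
      have h1 := mul_le_mul_of_nonneg_left (norm_res_le hL hγ P g β j x τ)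
        (Real.rpow_pos_of_pos hom ((1 - (j : ℝ)) / 3)).le
      refine h1.trans (le_of_eq ?_)
      have e1 : ∀ i, om γ τ ^ ((1 - (j : ℝ)) / 3) * om γ τ ^ (((j : ℝ) - (P.j i + 1)) / 3) =
          om γ τ ^ P.σ i := by
        intro i
        rw [← Real.rpow_add hom]; congr 1; unfold BC.σ; ring
      have e2 : om γ τ ^ ((1 - (j : ℝ)) / 3) * om γ τ ^ (((j : ℝ) - 2) / 3) =
          om γ τ ^ ((-1 : ℝ) / 3) := by
        rw [← Real.rpow_add hom]; congr 1; ring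
      simp only [Fintype.sum_sum_type, Sum.elim_inl, Sum.elim_inr, Fin.sum_univ_three,
        ← e1, ← e2]
      ring)
    (by
      rintro (i | i | i) _
      · exact h₁ i
      · exact h₂ i _ (res_far_mem hL.le i)
      · exact h₂ i _ (cl_mem hL.le x))
  refine key.mono (le_of_eq ?_)
  simp only [Fintype.sum_sum_type, Sum.elim_inl, Sum.elim_inr, Fin.sum_univ_three]
  ring

lemma res_qq_add (p₀ p₁ : ℕ) (E J b J' b' : Fin 3 → ℂ) (i : Fin 3) :
    qq p₀ p₁ E (fun i => J i + J' i) (fun i => b i + b' i) i =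
      qq p₀ p₁ E J b i + qq p₀ p₁ E J' b' i := by
  fin_cases i <;> simp only [qq] <;> simp <;> ring

lemma res_add (P : BC) (hg : RD2 g) (hg' : RD2 g') (β β' : Fin 3 → ℝ → ℂ) (j : Fin 3) (x τ : ℝ) :
    res L P γ (fun y τ => g y τ + g' y τ) (fun i τ => β i τ + β' i τ) j x τ =
      res L P γ g β j x τ + res L P γ g' β' j x τ := by
  have hq : ∀ i, qres L P γ (fun y τ => g y τ + g' y τ) (fun i τ => β i τ + β' i τ) τ i =
      qres L P γ g β τ i + qres L P γ g' β' τ i := by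
    intro i
    rw [res_qres, res_qres, res_qres, ← res_qq_add]
    have h1 : resJ L γ (fun y τ => g y τ + g' y τ) τ = fun i => resJ L γ g τ i + resJ L γ g' τ i :=
      funext fun i => jj_add hg hg' i _ τ
    have h2 : resB P γ (fun i τ => β i τ + β' i τ) τ = fun i => resB P γ β τ i + resB P γ β' τ i :=
      funext fun i => mul_add _ _ _
    rw [h1, h2]
  unfold res
  simp only [hq, jj_add hg hg', Fin.sum_univ_three]
  ring

lemma res_sub (P : BC) (hg : RD2 g) (hg' : RD2 g') (β β' : Fin 3 → ℝ → ℂ) (j : Fin 3) (x τ : ℝ) :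
    res L P γ (fun y τ => g y τ - g' y τ) (fun i τ => β i τ - β' i τ) j x τ =
      res L P γ g β j x τ - res L P γ g' β' j x τ := by
  have h := res_add (L := L) (γ := γ) P (hg.sub hg') hg' (fun i τ => β i τ - β' i τ) β' j x τ
  simp only [sub_add_cancel] at h
  rw [eq_sub_iff_add_eq, ← h]

lemma res_zero (L : ℝ) (P : BC) (γ : ℝ) :
    res L P γ (fun _ _ => 0) (fun _ _ => 0) = fun _ _ _ => 0 := by
  funext j x τ
  have h := res_add (L := L) (γ := γ) P RD2.zero RD2.zero (fun _ _ => 0) (fun _ _ => 0) j x τ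
  simp only [add_zero] at h
  exact left_eq_add.1 h

theorem IsRes.sym {V : Fin 3 → ℝ → ℝ → ℂ} (h : IsRes L P γ g β V) :
    IsRes L P γ (fun x => sym (g x)) (fun i => sym (β i)) fun j x => sym (V j x) := by
  have hd : ∀ {f : ℝ → ℝ → ℂ} {x τ : ℝ} {a b : ℂ}, HasDerivAt (fun y => f y τ) a x →
      HasDerivAt (fun y => f y (-τ)) b x →
      HasDerivAt (fun y => W.sym (f y) τ) ((a + conj b) / 2) x := by
    intro f x τ a b ha hb
    exact (ha.add hb.star).div_const 2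
  refine ⟨fun j => (h.rd j).sym, fun x hx τ => hd (h.d0 x hx τ) (h.d0 x hx (-τ)),
    fun x hx τ => hd (h.d1 x hx τ) (h.d1 x hx (-τ)), fun x hx τ => ?_, fun i τ => ?_⟩
  · refine (hd (h.d2 x hx τ) (h.d2 x hx (-τ))).congr_deriv ?_
    simp only [W.sym, map_sub, map_mul, conj_sv_neg]
    ring
  · have h1 := h.bc i τ
    have h2 := h.bc i (-τ)
    simp only [W.sym, ← h1, ← h2, vtr]
    split_ifs
    · rfl
    · rfl
    · simp only [map_mul, map_neg, conj_sv_neg]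
      ring

lemma res_cc_sums : cc 0 + cc 1 + cc 2 = 0 ∧ cc 0 ^ 2 + cc 1 ^ 2 + cc 2 ^ 2 = 0 := by
  have h3 : (Real.sqrt 3 : ℂ) ^ 2 = 3 := by
    rw [← Complex.ofReal_pow, Real.sq_sqrt (by norm_num)]; simp
  have h0 : cc 0 = -1 := rfl
  have h1 : cc 1 = (1 + Real.sqrt 3 * Complex.I) / 2 := rfl
  have h2 : cc 2 = (1 - Real.sqrt 3 * Complex.I) / 2 := rfl
  rw [h0, h1, h2]
  constructor
  · ring
  · linear_combination (Complex.I ^ 2 / 2) * h3 + (3 / 2) * Complex.I_sq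

lemma res_jj_deriv (hg : RD2 g) (i : Fin 3) (x τ : ℝ) :
    HasDerivAt (fun y => jj L γ g i y τ) (lam γ i τ * jj L γ g i x τ + g x τ) x := by
  have hc : Continuous fun y => g y τ := hg.cont.comp (continuous_id.prodMk continuous_const)
  have hc' : Continuous fun y : ℝ => Complex.exp (-(lam γ i τ * y)) * g y τ := by fun_prop
  have hrw : ∀ z : ℝ, jj L γ g i z τ = Complex.exp (lam γ i τ * z) *
      ∫ y in (ept L i)..z, Complex.exp (-(lam γ i τ * y)) * g y τ := by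
    intro z
    unfold jj
    rw [← intervalIntegral.integral_const_mul]
    refine intervalIntegral.integral_congr fun y _ => ?_
    rw [← mul_assoc, ← Complex.exp_add]
    congr 2; ring
  have h1 : HasDerivAt (fun z : ℝ => Complex.exp (lam γ i τ * z))
      (Complex.exp (lam γ i τ * x) * (lam γ i τ * 1)) x :=
    ((Complex.ofRealCLM.hasDerivAt (x := x)).const_mul (lam γ i τ)).cexp
  have h2 := (hc'.integral_hasStrictDerivAt (ept L i) x).hasDerivAt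
  have h3 := h1.mul h2
  have h4 : (fun y => jj L γ g i y τ) = fun z : ℝ => Complex.exp (lam γ i τ * z) *
      ∫ y in (ept L i)..z, Complex.exp (-(lam γ i τ * y)) * g y τ := funext hrw
  rw [h4, hrw x]
  refine HasDerivAt.congr_deriv h3 ?_
  have h5 : Complex.exp (lam γ i τ * x) * Complex.exp (-(lam γ i τ * x)) = 1 := by
    rw [← Complex.exp_add]; simp
  linear_combination (g x τ) * h5

/-- The three first order modes. -/
def resQ (L : ℝ) (P : BC) (γ : ℝ) (g : ℝ → ℝ → ℂ) (β : Fin 3 → ℝ → ℂ) (i : Fin 3) (x τ : ℝ) : ℂ :=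
  Complex.exp (lam γ i τ * ((x : ℝ) - ept L i)) * qres L P γ g β τ i + jj L γ g i x τ

lemma res_eq (L : ℝ) (P : BC) (γ : ℝ) (g : ℝ → ℝ → ℂ) (β : Fin 3 → ℝ → ℂ) (j : Fin 3)
    (x τ : ℝ) : res L P γ g β j x τ = -(rt γ τ ^ (j : ℕ) / (3 * rt γ τ ^ 2)) *
      ∑ i, cc i ^ ((j : ℕ) + 1) * resQ L P γ g β i (cl L x) τ := rfl

lemma resQ_deriv (hg : RD2 g) (i : Fin 3) (x τ : ℝ) :
    HasDerivAt (fun y => resQ L P γ g β i y τ) (lam γ i τ * resQ L P γ g β i x τ + g x τ) x := by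
  have h1 : HasDerivAt (fun z : ℝ => Complex.exp (lam γ i τ * ((z : ℂ) - (ept L i : ℝ))))
      (Complex.exp (lam γ i τ * ((x : ℂ) - (ept L i : ℝ))) * (lam γ i τ * 1)) x :=
    (((Complex.ofRealCLM.hasDerivAt (x := x)).sub_const _).const_mul (lam γ i τ)).cexp
  refine HasDerivAt.congr_deriv ((h1.mul_const (qres L P γ g β τ i)).add
    (res_jj_deriv (L := L) (γ := γ) hg i x τ)) ?_
  unfold resQ
  ring

lemma res_deriv (hg : RD2 g) (j : Fin 3) {x : ℝ} (hx : x ∈ Ioo 0 L) (τ : ℝ) :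
    HasDerivAt (fun y => res L P γ g β j y τ)
      (-(rt γ τ ^ (j : ℕ) / (3 * rt γ τ ^ 2)) *
        ∑ i, cc i ^ ((j : ℕ) + 1) * (lam γ i τ * resQ L P γ g β i x τ + g x τ)) x := by
  have h1 : HasDerivAt (fun y => -(rt γ τ ^ (j : ℕ) / (3 * rt γ τ ^ 2)) *
      ∑ i, cc i ^ ((j : ℕ) + 1) * resQ L P γ g β i y τ)
      (-(rt γ τ ^ (j : ℕ) / (3 * rt γ τ ^ 2)) *
        ∑ i, cc i ^ ((j : ℕ) + 1) * (lam γ i τ * resQ L P γ g β i x τ + g x τ)) x :=
    (HasDerivAt.fun_sum fun i _ => (resQ_deriv hg i x τ).const_mul _).const_mul _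
  refine h1.congr_of_eventuallyEq ?_
  filter_upwards [Ioo_mem_nhds hx.1 hx.2] with y hy
  rw [res_eq, cl_of_mem (Ioo_subset_Icc_self hy)]

/-- The determinant of the reduced system. -/
def resD (p₀ p₁ : ℕ) (E : Fin 3 → ℂ) : ℂ :=
  cc 0 ^ (p₀ + 1) + cc 0 ^ (p₁ + 1) * E 0 *
    (cc 2 ^ (p₀ + 1) / cc 2 ^ (p₁ + 1) * E 2 * ((1 + cc 1) / (cc 2 - cc 1))
      - cc 1 ^ (p₀ + 1) / cc 1 ^ (p₁ + 1) * E 1 * ((cc 2 + 1) / (cc 2 - cc 1)))

lemma resD_ne (p₀ p₁ : ℕ) (E : Fin 3 → ℂ) (h0 : ‖E 0‖ ≤ 1 / 4) (h1 : ‖E 1‖ ≤ 1)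
    (h2 : ‖E 2‖ ≤ 1) : resD p₀ p₁ E ≠ 0 := by
  intro hD
  have h := (qq_spec p₀ p₁ E (fun _ => 0) ![1, 0, 0] h0 h1 h2).1
  unfold resD at hD
  simp only [qq, hD] at h
  simp at h

lemma res_qq_cont (p₀ p₁ : ℕ) {E J b : ℝ → Fin 3 → ℂ} (hE : ∀ i, Continuous fun τ => E τ i)
    (hJ : ∀ i, Continuous fun τ => J τ i) (hb : ∀ i, Continuous fun τ => b τ i)
    (hD : ∀ τ, resD p₀ p₁ (E τ) ≠ 0) (i : Fin 3) :
    Continuous fun τ => qq p₀ p₁ (E τ) (J τ) (b τ) i := by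
  have hE0 := hE 0
  have hE1 := hE 1
  have hE2 := hE 2
  have hJ0 := hJ 0
  have hJ1 := hJ 1
  have hJ2 := hJ 2
  have hb0 := hb 0
  have hb1 := hb 1
  have hb2 := hb 2
  have h0 : Continuous fun τ => qq p₀ p₁ (E τ) (J τ) (b τ) 0 := by
    simp only [qq, Matrix.cons_val_zero]
    exact Continuous.div (by fun_prop) (by fun_prop) hD
  have e1 : ∀ τ, qq p₀ p₁ (E τ) (J τ) (b τ) 1 =
      ((cc 2 * b τ 1 - b τ 2) / (cc 2 - cc 1) - (cc 2 + 1) / (cc 2 - cc 1) *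
        (cc 0 ^ (p₁ + 1) * (E τ 0 * qq p₀ p₁ (E τ) (J τ) (b τ) 0 + J τ 0))) / cc 1 ^ (p₁ + 1) :=
    fun _ => rfl
  have e2 : ∀ τ, qq p₀ p₁ (E τ) (J τ) (b τ) 2 =
      ((b τ 2 - cc 1 * b τ 1) / (cc 2 - cc 1) + (1 + cc 1) / (cc 2 - cc 1) *
        (cc 0 ^ (p₁ + 1) * (E τ 0 * qq p₀ p₁ (E τ) (J τ) (b τ) 0 + J τ 0))) / cc 2 ^ (p₁ + 1) :=
    fun _ => rfl
  have h1 : Continuous fun τ => qq p₀ p₁ (E τ) (J τ) (b τ) 1 := by
    simp only [e1]; fun_prop
  have h2 : Continuous fun τ => qq p₀ p₁ (E τ) (J τ) (b τ) 2 := by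
    simp only [e2]; fun_prop
  fin_cases i
  · exact h0
  · exact h1
  · exact h2

lemma res_qres_cont (hL : 0 < L) (hγ : Big L γ) (P : BC) (hg : RD2 g) (hβ : ∀ i, RD (β i))
    (i : Fin 3) : Continuous fun τ => qres L P γ g β τ i := by
  have hg0 := res_gpos hγ
  have hr := continuous_rt hg0
  simp only [res_qres]
  refine res_qq_cont _ _ (fun i => ?_) (fun i => ?_) (fun i => ?_) (fun τ => ?_) i
  · have := continuous_lam hg0 i
    unfold resE
    fun_prop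
  · exact res_jj_cont hg0 hg i _
  · unfold resB
    exact (Continuous.div (by fun_prop) (by fun_prop)
      fun τ => pow_ne_zero _ (res_rt_ne hg0 τ)).mul (hβ i).cont
  · obtain ⟨e0, e1, e2⟩ := resE_bd hL hγ τ
    exact resD_ne _ _ _ e0 e1 e2

lemma res_rd (hL : 0 < L) (hγ : Big L γ) (P : BC) (hg : RD2 g) (hβ : ∀ i, RD (β i)) (j : Fin 3) :
    RD2 (res L P γ g β j) := by
  have hg0 := res_gpos hγ
  constructor
  · have hr := continuous_rt hg0
    have hcl := continuous_cl L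
    unfold res
    refine Continuous.mul (Continuous.neg (Continuous.div (by fun_prop) (by fun_prop) fun p =>
      mul_ne_zero (by norm_num) (pow_ne_zero _ (res_rt_ne hg0 _)))) ?_
    refine continuous_finsetSum _ fun i _ => continuous_const.mul (Continuous.add ?_ ?_)
    · have h1 := continuous_lam hg0 i
      have h2 := res_qres_cont hL hγ P hg hβ i
      exact Continuous.mul (by fun_prop) (h2.comp continuous_snd)
    · exact (continuous_jj (L := L) hg0 hg i).comp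
        ((hcl.comp continuous_fst).prodMk continuous_snd)
  · intro n
    obtain ⟨C, hC⟩ := hg.decay (n + 1)
    choose D hD using fun i => (hβ i).decay (n + 1)
    refine ⟨(42 + 30 * L) * (γ + 2 * Real.pi) * (|C| + ∑ i, |D i|), fun x τ => ?_⟩
    have ht : 0 < 1 + |τ| := by positivity
    have hS : 0 ≤ ∑ i, |D i| := Finset.sum_nonneg fun _ _ => abs_nonneg _
    have h := res_pw (β := β) hL hγ P hg (c := (|C| + ∑ i, |D i|) / (1 + |τ|) ^ (n + 1)) (τ := τ)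
      (fun i => by
        rw [le_div_iff₀ (by positivity)]
        have h1 : |D i| ≤ ∑ i, |D i| :=
          Finset.single_le_sum (f := fun i => |D i|) (fun _ _ => abs_nonneg _) (Finset.mem_univ i)
        linarith [hD i τ, le_abs_self (D i), abs_nonneg C])
      (fun y _ => by
        rw [le_div_iff₀ (by positivity)]
        linarith [hC y τ, le_abs_self C]) j x
    have h2 := om_le hg0.le τ
    have h3 : 0 ≤ |C| + ∑ i, |D i| := by positivity
    calc ‖res L P γ g β j x τ‖ * (1 + |τ|) ^ n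
        ≤ (42 + 30 * L) * ((γ + 2 * Real.pi) * (1 + |τ|)) *
            ((|C| + ∑ i, |D i|) / (1 + |τ|) ^ (n + 1)) * (1 + |τ|) ^ n := by
          refine mul_le_mul_of_nonneg_right (h.trans ?_) (by positivity)
          gcongr
      _ = (42 + 30 * L) * (γ + 2 * Real.pi) * (|C| + ∑ i, |D i|) := by
          field_simp
          ring

lemma res_vtr {j : ℕ} (hj : j ≤ 2) {x : ℝ} (hx : x ∈ Icc 0 L) (τ : ℝ) :
    vtr γ (res L P γ g β) j x τ = -(rt γ τ ^ (j + 1) / (3 * rt γ τ ^ 2)) *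
      ∑ i, cc i ^ (j + 1 + 1) * resQ L P γ g β i x τ := by
  unfold vtr
  simp only [res_eq, cl_of_mem hx]
  split_ifs with h0 h1
  · subst h0; rfl
  · subst h1; rfl
  · have h2 : j = 2 := by omega
    subst h2
    have e : ∀ i, cc i ^ (2 + 1 + 1) = -cc i := fun i => by
      rw [pow_succ, cc_cube]; ring
    simp only [e, Fin.sum_univ_three, Fin.val_zero, ← rt_cube]
    ring

/-- With `Q i = exp (..) q i + jj i` one has `Q i' = λ i Q i + g`; use `∑ cc i ^ n = 0` unless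
`3 ∣ n`. -/
theorem isRes_res (hL : 0 < L) (hγ : Big L γ) (P : BC) (hg : RD2 g) (hβ : ∀ i, RD (β i)) :
    IsRes L P γ g β (res L P γ g β) := by
  have hg0 := res_gpos hγ
  obtain ⟨s1, s2⟩ := res_cc_sums
  refine ⟨res_rd hL hγ P hg hβ, fun x hx τ => ?_, fun x hx τ => ?_, fun x hx τ => ?_,
    fun i τ => ?_⟩
  · refine (res_deriv hg 0 hx τ).congr_deriv ?_
    rw [res_eq, cl_of_mem (Ioo_subset_Icc_self hx)]
    simp only [Fin.sum_univ_three, lam, Fin.val_zero, Fin.val_one]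
    linear_combination (-(1 / (3 * rt γ τ ^ 2)) * g x τ) * s1
  · refine (res_deriv hg 1 hx τ).congr_deriv ?_
    rw [res_eq, cl_of_mem (Ioo_subset_Icc_self hx)]
    simp only [Fin.sum_univ_three, lam, Fin.val_two, Fin.val_one]
    linear_combination (-(rt γ τ / (3 * rt γ τ ^ 2)) * g x τ) * s2
  · refine (res_deriv hg 2 hx τ).congr_deriv ?_
    rw [res_eq, cl_of_mem (Ioo_subset_Icc_self hx)]
    have hr := res_rt_ne hg0 τ
    have e : ∀ i, cc i ^ (2 + 1) = -1 := cc_cube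
    simp only [Fin.sum_univ_three, lam, Fin.val_two, Fin.val_zero, e, ← rt_cube]
    field_simp
    ring
  · have hr := res_rt_ne hg0 τ
    obtain ⟨e0, e1, e2⟩ := resE_bd hL hγ τ
    obtain ⟨q0, q1, q2, -⟩ := qq_spec (P.j 0 + 1) (P.j 1 + 1) (resE L γ τ) (resJ L γ g τ)
      (resB P γ β τ) e0 e1 e2
    rw [← res_qres] at q0 q1 q2
    have hfin : ∀ i, ∑ k, cc k ^ (P.j i + 1 + 1) * resQ L P γ g β k (ept L i) τ = resB P γ β τ i →
        vtr γ (res L P γ g β) (P.j i) (ept L i) τ = β i τ := by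
      intro i hi
      rw [res_vtr (res_j_le P i) (ept_mem hL.le i), hi]
      unfold resB
      field_simp
    have a0 : ept L 0 = 0 := rfl
    have a1 : ept L 1 = L := rfl
    have a2 : ept L 2 = L := rfl
    have hown : ∀ k, resQ L P γ g β k (ept L k) τ = qres L P γ g β τ k := by
      intro k
      simp [resQ, jj]
    have hfar : ∀ k, resQ L P γ g β k (L - ept L k) τ =
        resE L γ τ k * qres L P γ g β τ k + resJ L γ g τ k := fun _ => rfl
    have b00 := hown 0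
    have b11 := hown 1
    have b22 := hown 2
    have f0 := hfar 0
    have f1 := hfar 1
    have f2 := hfar 2
    rw [a0] at b00 f0
    rw [a1] at b11 f1
    rw [a2] at b22 f2
    rw [sub_zero] at f0
    rw [sub_self] at f1 f2
    have hj2 : P.j 2 = P.j 1 + 1 := by
      unfold BC.j
      simp
      split_ifs <;> rfl
    apply hfin
    have hi : i = 0 ∨ i = 1 ∨ i = 2 := by omega
    rcases hi with rfl | rfl | rfl
    · rw [Fin.sum_univ_three, a0, b00, f1, f2]; exact q0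
    · rw [Fin.sum_univ_three, a1, b11, b22, f0]; exact q1
    · rw [Fin.sum_univ_three, a2, b11, b22, f0, hj2]; exact q2

end Pool.Agent.Lib.MP_14aec4_an.W
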