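import Pool.Agent.Lib.MP_14aec4_an.TS
import Pool.Agent.Lib.MP_14aec4_an.Res
import Pool.Agent.Lib.MP_14aec4_an.Calc

/-!
Causality of the linear solution operator.
-/

noncomputable section

open MeasureTheory Set Filter Topology FourierTransform
open scoped ENNReal ComplexConjugate

namespace Pool.Agent.Lib.MP_14aec4_an.W

/-- A bounded function with `f' ≤ -c f` on a half line is nonpositive there. -/
lemma lu_aux {f : ℝ → ℝ} {c C t₀ : ℝ} (hc : 0 < c) (hf : Continuous f) (hC : ∀ t, f t ≤ C)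
    (hd : ∀ t < t₀, ∃ e, HasDerivAt f e t ∧ e ≤ -c * f t) : ∀ t ≤ t₀, f t ≤ 0 := by
  have hder : ∀ t < t₀, ∃ e, HasDerivAt (fun t => Real.exp (c * t) * f t) e t ∧ e ≤ 0 := by
    intro t ht
    obtain ⟨e, he, hle⟩ := hd t ht
    have h1 : HasDerivAt (fun t => Real.exp (c * t)) (Real.exp (c * t) * c) t := by
      simpa using ((hasDerivAt_id t).const_mul c).exp
    refine ⟨_, h1.mul he, ?_⟩
    have := Real.exp_pos (c * t)
    nlinarith
  have hanti : AntitoneOn (fun t => Real.exp (c * t) * f t) (Iic t₀) := by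
    refine antitoneOn_of_deriv_nonpos (convex_Iic t₀) (by fun_prop) ?_ ?_
    · intro t ht
      rw [interior_Iic] at ht
      obtain ⟨e, he, -⟩ := hder t ht
      exact he.differentiableAt.differentiableWithinAt
    · intro t ht
      rw [interior_Iic] at ht
      obtain ⟨e, he, hle⟩ := hder t ht
      rw [he.deriv]; exact hle
  intro t ht
  have hlim : Tendsto (fun s => Real.exp (c * s) * C) atBot (𝓝 0) := by
    have : Tendsto (fun s => Real.exp (c * s)) atBot (𝓝 0) :=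
      Real.tendsto_exp_atBot.comp (tendsto_id.const_mul_atBot hc)
    simpa using this.mul_const C
  have hle : Real.exp (c * t) * f t ≤ 0 := by
    refine ge_of_tendsto hlim ?_
    filter_upwards [eventually_le_atBot t] with s hs
    exact (hanti (hs.trans ht) ht hs).trans
      (mul_le_mul_of_nonneg_left (hC s) (Real.exp_pos _).le)
  have := Real.exp_pos (c * t)
  nlinarith

lemma lu_ext {L : ℝ} (hL : 0 < L) {f : ℝ → ℝ} (hf : Continuous f) (h : ∀ x ∈ Ioo 0 L, f x = 0) :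
    ∀ x ∈ Icc 0 L, f x = 0 := by
  have h1 : EqOn f (fun _ => 0) (Ioo 0 L) := h
  have h2 := h1.closure hf continuous_const
  rw [closure_Ioo hL.ne] at h2
  exact h2

lemma lu_deriv_zero {L : ℝ} {f : ℝ → ℝ} (h : ∀ x ∈ Icc 0 L, f x = 0) {x d : ℝ}
    (hx : x ∈ Ioo 0 L) (hd : HasDerivAt f d x) : d = 0 := by
  have h1 : f =ᶠ[𝓝 x] fun _ => 0 := by
    filter_upwards [Ioo_mem_nhds hx.1 hx.2] with y hy using h y (Ioo_subset_Icc_self hy)
  exact hd.unique ((hasDerivAt_const x (0 : ℝ)).congr_of_eventuallyEq h1)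

/-- The real-variable form of the argument. -/
lemma lu_real {L γ t₀ C : ℝ} (hL : 0 < L) (hγ : 0 < γ) {Y₀ Y₁ Y₂ Z₀ Z₁ : ℝ → ℝ → ℝ}
    (c₀ : Continuous fun p : ℝ × ℝ => Y₀ p.1 p.2) (c₁ : Continuous fun p : ℝ × ℝ => Y₁ p.1 p.2)
    (c₂ : Continuous fun p : ℝ × ℝ => Y₂ p.1 p.2) (e₀ : Continuous fun p : ℝ × ℝ => Z₀ p.1 p.2)
    (e₁ : Continuous fun p : ℝ × ℝ => Z₁ p.1 p.2)
    (b₀ : ∀ x t, |Y₀ x t| ≤ C) (b₁ : ∀ x t, |Y₁ x t| ≤ C)
    (t0 : ∀ x t, HasDerivAt (Y₀ x) (Z₀ x t) t) (t1 : ∀ x t, HasDerivAt (Y₁ x) (Z₁ x t) t)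
    (x0 : ∀ x ∈ Ioo 0 L, ∀ t, HasDerivAt (fun y => Y₀ y t) (Y₁ x t) x)
    (x1 : ∀ x ∈ Ioo 0 L, ∀ t, HasDerivAt (fun y => Y₁ y t) (Y₂ x t) x)
    (x2 : ∀ x ∈ Ioo 0 L, ∀ t ≤ t₀, HasDerivAt (fun y => Y₂ y t) (-(γ * Y₀ x t + Z₀ x t)) x)
    (xz : ∀ x ∈ Ioo 0 L, ∀ t, HasDerivAt (fun y => Z₀ y t) (Z₁ x t) x)
    (h0 : ∀ t ≤ t₀, Y₁ 0 t * (γ * Y₀ 0 t + Z₀ 0 t) = 0)
    (hL1 : ∀ t ≤ t₀, Y₁ L t * (γ * Y₀ L t + Z₀ L t) = 0) (hL2 : ∀ t ≤ t₀, Y₂ L t = 0) :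
    (∀ x ∈ Icc 0 L, ∀ t ≤ t₀, Y₀ x t = 0) ∧ (∀ x ∈ Icc 0 L, ∀ t ≤ t₀, Y₁ x t = 0) ∧
      ∀ x ∈ Icc 0 L, ∀ t ≤ t₀, Y₂ x t = 0 := by
  have sl : ∀ {Y : ℝ → ℝ → ℝ}, (Continuous fun p : ℝ × ℝ => Y p.1 p.2) → ∀ t,
      Continuous fun x => Y x t := fun hY t => hY.comp (Continuous.prodMk_left t)
  have hE : ∀ t, HasDerivAt (fun τ => ∫ x in (0 : ℝ)..L, Y₁ x τ ^ 2)
      (∫ x in (0 : ℝ)..L, 2 * Y₁ x t * Z₁ x t) t := by
    intro t
    refine hasDerivAt_integral_x (t₀ := t - 1) (t₁ := t + 1) (f := fun x τ => Y₁ x τ ^ 2)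
      (ft := fun x τ => 2 * Y₁ x τ * Z₁ x τ) hL.le (c₁.fun_pow 2).continuousOn
      (((continuous_const (y := (2 : ℝ))).fun_mul c₁).fun_mul e₁).continuousOn ?_ ⟨by linarith, by linarith⟩
    intro x _ τ _
    refine ((t1 x τ).fun_pow 2).congr_deriv ?_
    simp
  have hE0 : ∀ t ≤ t₀, ∫ x in (0 : ℝ)..L, Y₁ x t ^ 2 ≤ 0 := by
    refine lu_aux (c := 2 * γ) (C := L * C ^ 2) (by positivity)
      (continuous_iff_continuousAt.mpr fun t => (hE t).continuousAt) ?_ ?_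
    · intro t
      have h1 : ∫ x in (0 : ℝ)..L, Y₁ x t ^ 2 ≤ ∫ _ in (0 : ℝ)..L, C ^ 2 := by
        refine intervalIntegral.integral_mono_on hL.le
          (((sl c₁ t).pow 2).intervalIntegrable _ _) (by simp) fun x _ => ?_
        exact sq_le_sq' (abs_le.mp (b₁ x t)).1 (abs_le.mp (b₁ x t)).2
      simpa using h1
    · intro t ht
      refine ⟨_, hE t, ?_⟩
      have hF : ∫ x in (0 : ℝ)..L, (2 * Y₁ x t * Z₁ x t + 2 * γ * Y₁ x t ^ 2) =
          (2 * (Y₁ L t * (γ * Y₀ L t + Z₀ L t)) + Y₂ L t ^ 2) -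
            (2 * (Y₁ 0 t * (γ * Y₀ 0 t + Z₀ 0 t)) + Y₂ 0 t ^ 2) := by
        refine intervalIntegral.integral_eq_sub_of_hasDerivAt_of_le
          (f := fun x => 2 * (Y₁ x t * (γ * Y₀ x t + Z₀ x t)) + Y₂ x t ^ 2) hL.le ?_ ?_ ?_
        · exact ((continuous_const.mul ((sl c₁ t).mul
            ((continuous_const.mul (sl c₀ t)).add (sl e₀ t)))).add ((sl c₂ t).pow 2)).continuousOn
        · intro x hx
          have h1 := ((((x1 x hx t).mul (((x0 x hx t).const_mul γ).add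
            (xz x hx t))).const_mul 2).add ((x2 x hx t ht.le).pow 2))
          refine h1.congr_deriv ?_
          simp only [Pi.add_apply, Nat.cast_ofNat, Nat.add_one_sub_one, pow_one]
          ring
        · exact (((continuous_const.mul (sl c₁ t)).mul (sl e₁ t)).add
            (continuous_const.mul ((sl c₁ t).pow 2))).intervalIntegrable _ _
      rw [intervalIntegral.integral_add (f := fun x => 2 * Y₁ x t * Z₁ x t)
        (g := fun x => 2 * γ * Y₁ x t ^ 2)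
        (((continuous_const.mul (sl c₁ t)).mul (sl e₁ t)).intervalIntegrable _ _)
        ((continuous_const.mul ((sl c₁ t).pow 2)).intervalIntegrable _ _),
        intervalIntegral.integral_const_mul, h0 t ht.le, hL1 t ht.le, hL2 t ht.le] at hF
      nlinarith [sq_nonneg (Y₂ 0 t)]
  have hY1 : ∀ x ∈ Icc 0 L, ∀ t ≤ t₀, Y₁ x t = 0 := by
    intro x hx t ht
    by_contra hne
    have := intervalIntegral.integral_pos (f := fun y => Y₁ y t ^ 2) hL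
      ((sl c₁ t).pow 2).continuousOn (fun y _ => sq_nonneg _) ⟨x, hx, by positivity⟩
    exact absurd (hE0 t ht) (not_le.mpr this)
  have hY2 : ∀ x ∈ Icc 0 L, ∀ t ≤ t₀, Y₂ x t = 0 := fun x hx t ht =>
    lu_ext hL (sl c₂ t) (fun y hy => lu_deriv_zero (fun z hz => hY1 z hz t ht) hy (x1 y hy t)) x hx
  refine ⟨fun x hx t ht => lu_ext hL (sl c₀ t) (fun y hy => ?_) x hx, hY1, hY2⟩
  have h3 : ∀ s ≤ t₀, Z₀ y s = -γ * Y₀ y s := by
    intro s hs
    have := lu_deriv_zero (fun z hz => hY2 z hz s hs) hy (x2 y hy s hs)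
    linarith
  have h4 : ∀ s ≤ t₀, Y₀ y s ^ 2 ≤ 0 := by
    refine lu_aux (c := 2 * γ) (C := C ^ 2) (by positivity)
      ((c₀.comp (Continuous.prodMk_right y)).pow 2) ?_ ?_
    · intro s
      exact sq_le_sq' (abs_le.mp (b₀ y s)).1 (abs_le.mp (b₀ y s)).2
    · intro s hs
      refine ⟨_, (t0 y s).pow 2, ?_⟩
      rw [h3 s hs.le]
      simp only [Nat.cast_ofNat, Nat.add_one_sub_one, pow_one]
      nlinarith
  exact pow_eq_zero_iff (two_ne_zero) |>.mp (le_antisymm (h4 t ht) (sq_nonneg _))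

lemma lu_tl_neg_sv {A : ℝ → ℂ} (hA : RD A) (γ t : ℝ) :
    tl 0 (fun τ => -sv γ τ * A τ) t = -(γ * tl 0 A t + tl 1 A t) := by
  have h1 := tl_real_mul (-1) (fun τ => sv γ τ * A τ) 0 t
  rw [tl_sv_mul hA] at h1
  have h2 : (fun τ => -sv γ τ * A τ) = fun τ => ((-1 : ℝ) : ℂ) * (sv γ τ * A τ) := by
    funext τ; push_cast; ring
  rw [h2, h1]; ring

/-- Put `Y j = tl 0 (V j x) t`, `Y 3 = -(γ Y 0 + tl 1 (V 0 x) t)`. For `t ≤ t₀`: `∂_x Y 2 = Y 3`,
`∂_x Y 3 = -(γ + ∂_t) Y 1`, and `E(t) = ∫ (Y 1)²` satisfies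
`E' = -2 γ E - 2 [Y 1 Y 3] + [(Y 2)²] ≤ -2 γ E` by the boundary conditions (at `0`: `Y 1` or `Y 3`
vanishes; at `L`: `Y 2` and one of `Y 1`, `Y 3` vanish). So `e^{2 γ t} E` decreases, and it tends
to `0` at `-∞` since `E` is bounded: `Y 1 = 0`, then `Y 2 = 0`, `Y 3 = 0`, and `e^{γ t} Y 0` is
constant, hence zero. -/
theorem lu {L γ t₀ : ℝ} (hL : 0 < L) (hγ : 0 < γ) {P : BC} {g : ℝ → ℝ → ℂ} {β : Fin 3 → ℝ → ℂ}
    {V : Fin 3 → ℝ → ℝ → ℂ} (h : IsRes L P γ g β V) (hg : RD2 g)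
    (h₁ : ∀ x ∈ Icc 0 L, ∀ t ≤ t₀, tl 0 (g x) t = 0) (h₂ : ∀ i, ∀ t ≤ t₀, tl 0 (β i) t = 0) :
    ∀ j, ∀ x ∈ Icc 0 L, ∀ t ≤ t₀, tl 0 (V j x) t = 0 := by
  obtain ⟨C₀, hC₀⟩ := tl_bdd (h.rd 0) 0
  obtain ⟨C₁, hC₁⟩ := tl_bdd (h.rd 1) 0
  have hb : ∀ i, ∀ t ≤ t₀, tl 0 (vtr γ V (P.j i) (ept L i)) t = 0 := by
    intro i t ht
    have : vtr γ V (P.j i) (ept L i) = β i := funext (h.bc i)
    rw [this]; exact h₂ i t ht
  have v0 : ∀ x, vtr γ V 0 x = V 1 x := fun x => by funext τ; simp [vtr]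
  have v1 : ∀ x, vtr γ V 1 x = V 2 x := fun x => by funext τ; simp [vtr]
  have v2 : ∀ x t, tl 0 (vtr γ V 2 x) t = -(γ * tl 0 (V 0 x) t + tl 1 (V 0 x) t) := by
    intro x t
    rw [← lu_tl_neg_sv ((h.rd 0).at x)]
    congr 1
  have key := lu_real (L := L) (γ := γ) (t₀ := t₀) (C := max C₀ C₁) hL hγ
    (Y₀ := fun x t => tl 0 (V 0 x) t) (Y₁ := fun x t => tl 0 (V 1 x) t)
    (Y₂ := fun x t => tl 0 (V 2 x) t) (Z₀ := fun x t => tl 1 (V 0 x) t)
    (Z₁ := fun x t => tl 1 (V 1 x) t) (tl_continuous2 (h.rd 0) 0) (tl_continuous2 (h.rd 1) 0)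
    (tl_continuous2 (h.rd 2) 0) (tl_continuous2 (h.rd 0) 1) (tl_continuous2 (h.rd 1) 1)
    (fun x t => (hC₀ x t).trans (le_max_left _ _)) (fun x t => (hC₁ x t).trans (le_max_right _ _))
    (fun x t => tl_hasDerivAt ((h.rd 0).at x) 0 t) (fun x t => tl_hasDerivAt ((h.rd 1).at x) 0 t)
    (fun x hx t => tl_dx (h.rd 0) (h.rd 1) h.d0 0 t hx)
    (fun x hx t => tl_dx (h.rd 1) (h.rd 2) h.d1 0 t hx)
    (fun x hx t ht => by
      have h1 := tl_dx (h.rd 2) (hg.sub ((h.rd 0).sv_mul γ)) h.d2 0 t hx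
      rw [tl_sub (hg.at x) (((h.rd 0).at x).sv_mul γ), tl_sv_mul ((h.rd 0).at x),
        h₁ x (Ioo_subset_Icc_self hx) t ht, zero_sub] at h1
      exact h1)
    (fun x hx t => tl_dx (h.rd 0) (h.rd 1) h.d0 1 t hx)
    (fun t ht => by
      have h1 := hb 0 t ht
      cases hd : P.d0
      · simp only [BC.j, ept, hd, Matrix.cons_val_zero, Bool.false_eq_true, if_false, v0] at h1
        rw [h1, zero_mul]
      · simp only [BC.j, ept, hd, Matrix.cons_val_zero, if_true, v2, neg_eq_zero] at h1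
        rw [h1, mul_zero])
    (fun t ht => by
      cases hd : P.dL
      · have h1 := hb 1 t ht
        simp only [BC.j, ept, hd, Matrix.cons_val_one, Matrix.cons_val_zero, Bool.false_eq_true,
          if_false, v0] at h1
        rw [h1, zero_mul]
      · have h1 := hb 2 t ht
        simp only [BC.j, ept, hd, Matrix.cons_val, if_true, v2, neg_eq_zero] at h1
        rw [h1, mul_zero])
    (fun t ht => by
      cases hd : P.dL
      · have h1 := hb 2 t ht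
        simp only [BC.j, ept, hd, Matrix.cons_val, Bool.false_eq_true, if_false, v1] at h1
        exact h1
      · have h1 := hb 1 t ht
        simp only [BC.j, ept, hd, Matrix.cons_val_one, Matrix.cons_val_zero, if_true, v1] at h1
        exact h1)
  intro j
  fin_cases j
  · exact key.1
  · exact key.2.1
  · exact key.2.2

end Pool.Agent.Lib.MP_14aec4_an.W
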