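import Pool.Agent.Lib.MP_14aec4_an.NLip
import Pool.Agent.Lib.MP_14aec4_an.LU

/-!
The fixed point on the frequency side.
-/

noncomputable section

open MeasureTheory Set Filter Topology FourierTransform
open scoped ENNReal ComplexConjugate

namespace Pool.Agent.Lib.MP_14aec4_an.W

variable {L κ γ η δ : ℝ} {P : BC} {w : ℝ → ℝ} {M : Fin 3 → ℝ → ℂ} {A : Fin 3 → ℝ}
  {g g' : ℝ → ℝ → ℂ} {β β' : Fin 3 → ℝ → ℂ} {V V' : Fin 3 → ℝ → ℝ → ℂ}

lemma isRes_Phi (hL : 0 < L) (κ : ℝ) (P : BC) (hγ : Big L γ) (hM : ∀ n, RD (M n)) (hg : RD2 g)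
    (hβ : ∀ i, RD (β i)) (hV : ∀ j, RD2 (V j)) :
    IsRes L P γ (fun x => sym fun τ => g x τ + fN κ M V x τ)
      (fun i => sym fun τ => β i τ + fB L κ P M V i τ) (Phi L κ P γ M g β V) := by
  exact (isRes_res hL hγ P (hg.add (rd2_fN κ hM hV))
    (fun i => (hβ i).add (rd_fB L κ P hM hV i))).sym

lemma fix_Phi_sub (hM : ∀ n, RD (M n)) (hg : RD2 g) (hg' : RD2 g') (β β' : Fin 3 → ℝ → ℂ)
    (hV : ∀ j, RD2 (V j)) (hV' : ∀ j, RD2 (V' j)) (j : Fin 3) (x : ℝ) :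
    (fun τ => Phi L κ P γ M g β V j x τ - Phi L κ P γ M g' β' V' j x τ) =
      sym fun τ => res L P γ (fun x τ => g x τ - g' x τ) (fun i τ => β i τ - β' i τ) j x τ +
        res L P γ (fun x τ => fN κ M V x τ - fN κ M V' x τ)
          (fun i τ => fB L κ P M V i τ - fB L κ P M V' i τ) j x τ := by
  funext τ
  unfold Phi
  rw [← sym_sub]
  congr 1
  funext τ
  rw [res_add P hg (rd2_fN κ hM hV), res_add P hg' (rd2_fN κ hM hV'), res_sub P hg hg',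
    res_sub P (rd2_fN κ hM hV) (rd2_fN κ hM hV')]
  ring

lemma fix_sym_zero : sym (fun _ => 0) = fun _ => 0 := by
  funext τ
  simp [sym]

lemma fix_Phi_zero (L κ : ℝ) (P : BC) (γ : ℝ) (M : Fin 3 → ℝ → ℂ) :
    Phi L κ P γ M (fun _ _ => 0) (fun _ _ => 0) (fun _ _ _ => 0) = fun _ _ _ => 0 := by
  funext j x
  unfold Phi
  rw [fN_zero, fB_zero]
  simp only [add_zero]
  rw [res_zero, fix_sym_zero]

lemma fix_sbd_zero (L γ : ℝ) (w : ℝ → ℝ) (c : ℝ) : SBd L γ w (fun _ _ _ => 0) c :=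
  fun _ _ _ => Bd.zero _ _ _ _

lemma fix_sbd_mono {c c' : ℝ} (h : SBd L γ w V c) (hc : c ≤ c') : SBd L γ w V c' :=
  fun x hx j => (h x hx j).mono hc

lemma fix_sigma_le (j : Fin 3) : (1 - (j : ℝ)) / 3 ≤ 1 := by
  have : (0 : ℝ) ≤ (j : ℝ) := Nat.cast_nonneg _
  linarith

/-- `res_sub`, `res_add`, `res_bd`, `jj_bd`, `nl_lip`, `Bd.sym`. -/
theorem Phi_lip (hL : 0 < L) (hP : P.Valid) (hγ : Big L γ) (hw : Adm w) (hM : ∀ n, RD (M n))
    (hA : ∀ n, mulC γ w (M n) ≤ 2 * A n) (hs : Smal L κ P γ A η) (hg : RD2 g) (hg' : RD2 g')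
    (hβ : ∀ i, RD (β i)) (hβ' : ∀ i, RD (β' i)) (hV : ∀ j, RD2 (V j)) (hV' : ∀ j, RD2 (V' j))
    (b : SBd L γ w V (4 * η)) (b' : SBd L γ w V' (4 * η)) (hδ : 0 ≤ δ)
    (bd : SBd L γ w (fun j x τ => V j x τ - V' j x τ) δ) {d : ℝ} (hd : 0 ≤ d)
    (bl : SBd L γ w (res L P γ (fun x τ => g x τ - g' x τ) fun i τ => β i τ - β' i τ) d) :
    SBd L γ w (fun j x τ => Phi L κ P γ M g β V j x τ - Phi L κ P γ M g' β' V' j x τ)
      (d + δ / 2) := by
  have hγ0 : 0 < γ := one_pos.trans_le hγ.1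
  obtain ⟨n₁, n₂⟩ := nl_lip hL hP hγ.1 hw hM hA hs hV hV' b b' hδ bd
  have hN := (rd2_fN κ hM hV).sub (rd2_fN κ hM hV')
  have hB : ∀ i, RD fun τ => fB L κ P M V i τ - fB L κ P M V' i τ := fun i =>
    (rd_fB L κ P hM hV i).sub (rd_fB L κ P hM hV' i)
  have hc : 0 ≤ δ / (120 * (1 + L)) := by positivity
  have h2 := res_bd hL hγ P hw hN hB (b := δ / 168) (c := L * (δ / (120 * (1 + L))))
    (by positivity) (by positivity) n₂ fun i x hx => jj_bd hγ0 hw hN hc n₁ i hx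
  have h3 : 42 * (δ / 168) + 30 * (L * (δ / (120 * (1 + L)))) ≤ δ / 2 := by
    have : L * (δ / (120 * (1 + L))) ≤ δ / 120 := by
      rw [← mul_div_assoc, div_le_div_iff₀ (by positivity) (by positivity)]
      nlinarith
    linarith
  have r1 := (isRes_res hL hγ P (hg.sub hg') fun i => (hβ i).sub (hβ' i)).rd
  have r2 := (isRes_res hL hγ P hN hB).rd
  intro x hx j
  change Bd γ w _ (fun τ => Phi L κ P γ M g β V j x τ - Phi L κ P γ M g' β' V' j x τ) _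
  rw [fix_Phi_sub hM hg hg' β β' hV hV']
  refine Bd.sym hγ0 hw (((r1 j).at x).add ((r2 j).at x)).aesm ?_
  exact Bd.add hγ0 hw ((r1 j).at x).aesm ((r2 j).at x).aesm hd (by positivity) (bl x hx j)
    ((h2 x hx j).mono h3)

/-- The Picard iterates. -/
def fixIt (L κ : ℝ) (P : BC) (γ : ℝ) (M : Fin 3 → ℝ → ℂ) (g : ℝ → ℝ → ℂ) (β : Fin 3 → ℝ → ℂ) :
    ℕ → Fin 3 → ℝ → ℝ → ℂ
  | 0 => fun _ _ _ => 0
  | k + 1 => Phi L κ P γ M g β (fixIt L κ P γ M g β k)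

lemma fix_it_rd (hL : 0 < L) (hγ : Big L γ) (hM : ∀ n, RD (M n)) (hg : RD2 g)
    (hβ : ∀ i, RD (β i)) (k : ℕ) : ∀ j, RD2 (fixIt L κ P γ M g β k j) := by
  induction k with
  | zero => exact fun _ => RD2.zero
  | succ k ih => exact (isRes_Phi hL κ P hγ hM hg hβ ih).rd

lemma fix_it_ball (hL : 0 < L) (hP : P.Valid) (hγ : Big L γ) (hw : Adm w) (hM : ∀ n, RD (M n))
    (hA : ∀ n, mulC γ w (M n) ≤ 2 * A n) (hs : Smal L κ P γ A η) (hg : RD2 g)
    (hβ : ∀ i, RD (β i)) {d : ℝ} (hd : 0 ≤ d) (hdη : d ≤ 2 * η)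
    (bl : SBd L γ w (res L P γ g β) d) (k : ℕ) : SBd L γ w (fixIt L κ P γ M g β k) (2 * d) := by
  induction k with
  | zero => exact fix_sbd_zero _ _ _ _
  | succ k ih =>
    have := Phi_lip hL hP hγ hw hM hA hs hg RD2.zero hβ (β' := fun _ _ => 0) (fun _ => RD.zero)
      (fix_it_rd hL hγ hM hg hβ k) (V' := fun _ _ _ => 0) (fun _ => RD2.zero)
      (fix_sbd_mono ih (by linarith)) (fix_sbd_zero _ _ _ _) (δ := 2 * d) (by linarith)
      (by simpa only [sub_zero] using ih) hd (by simpa only [sub_zero] using bl)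
    rw [fix_Phi_zero] at this
    simp only [sub_zero] at this
    exact fix_sbd_mono this (by linarith)

lemma fix_it_contr (hL : 0 < L) (hP : P.Valid) (hγ : Big L γ) (hw : Adm w) (hM : ∀ n, RD (M n))
    (hA : ∀ n, mulC γ w (M n) ≤ 2 * A n) (hs : Smal L κ P γ A η) (hg : RD2 g)
    (hβ : ∀ i, RD (β i)) (bl : SBd L γ w (res L P γ g β) (2 * η)) (k : ℕ) :
    SBd L γ w (fun j x τ => fixIt L κ P γ M g β (k + 1) j x τ - fixIt L κ P γ M g β k j x τ)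
      (4 * η * (1 / 2) ^ k) := by
  have hη := hs.2.1
  have ball := fun k => fix_sbd_mono (c' := 4 * η)
    (fix_it_ball hL hP hγ hw hM hA hs hg hβ (by linarith) le_rfl bl k) (by linarith)
  induction k with
  | zero => simpa only [fixIt, sub_zero, pow_zero, mul_one] using ball 1
  | succ k ih =>
    have := Phi_lip hL hP hγ hw hM hA hs hg hg hβ hβ (fix_it_rd hL hγ hM hg hβ (k + 1))
      (fix_it_rd hL hγ hM hg hβ k) (ball _) (ball _) (by positivity) ih (d := 0) le_rfl (by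
        simp only [sub_self]
        rw [res_zero]
        exact fix_sbd_zero _ _ _ _)
    exact fix_sbd_mono this (le_of_eq (by ring))

lemma fix_pw (hL : 0 < L) (κ : ℝ) (hP : P.Valid) (hγ : Big L γ) (hw : Adm w) (hM : ∀ n, RD (M n))
    (hg : RD2 g) (β : Fin 3 → ℝ → ℂ) {n : ℝ} (hn : 0 ≤ n) :
    ∃ C, 0 ≤ C ∧ ∀ (V V' : Fin 3 → ℝ → ℝ → ℂ) (δ : ℝ), (∀ j, RD2 (V j)) → (∀ j, RD2 (V' j)) →
      SBd L γ w V n → SBd L γ w V' n → 0 ≤ δ → SBd L γ w (fun j x τ => V j x τ - V' j x τ) δ →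
      ∀ j x τ, w τ * ‖Phi L κ P γ M g β V j x τ - Phi L κ P γ M g β V' j x τ‖ ≤
        C * om γ τ ^ 2 * δ := by
  obtain ⟨C, hC, H⟩ := nl_pw hL κ hP hγ.1 hw hM hn
  refine ⟨(42 + 30 * L) * C, by positivity, fun V V' δ hV hV' b b' hδ bd j x τ => ?_⟩
  have hN := (rd2_fN κ hM hV).sub (rd2_fN κ hM hV')
  have key : ∀ τ, w τ * ‖res L P γ (fun x τ => fN κ M V x τ - fN κ M V' x τ)
      (fun i τ => fB L κ P M V i τ - fB L κ P M V' i τ) j x τ‖ ≤
        (42 + 30 * L) * C * om γ τ ^ 2 * δ := by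
    intro τ
    have hw0 : 0 < w τ := one_pos.trans_le (hw.one_le τ)
    obtain ⟨h1, h2⟩ := H V V' δ hV hV' b b' hδ bd τ
    have := res_pw hL hγ P hN (β := fun i τ => fB L κ P M V i τ - fB L κ P M V' i τ)
      (c := C * om γ τ * δ / w τ) (τ := τ) (fun i => (le_div_iff₀' hw0).2 (h2 i))
      (fun y hy => (le_div_iff₀' hw0).2 (h1 y hy)) j x
    rw [← le_div_iff₀' hw0]
    refine this.trans (le_of_eq ?_)
    ring
  have e := congrFun (fix_Phi_sub (L := L) (κ := κ) (P := P) (γ := γ) hM hg hg β β hV hV' j x) τ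
  simp only [sub_self] at e
  rw [res_zero] at e
  simp only [zero_add] at e
  rw [e, sym, norm_div]
  have k1 := key τ
  have k2 := key (-τ)
  rw [hw.even, om_neg] at k2
  have hw0 : 0 ≤ w τ := zero_le_one.trans (hw.one_le τ)
  have k3 := mul_le_mul_of_nonneg_left (norm_add_le
    (res L P γ (fun x τ => fN κ M V x τ - fN κ M V' x τ)
      (fun i τ => fB L κ P M V i τ - fB L κ P M V' i τ) j x τ)
    (conj (res L P γ (fun x τ => fN κ M V x τ - fN κ M V' x τ)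
      (fun i τ => fB L κ P M V i τ - fB L κ P M V' i τ) j x (-τ)))) hw0
  rw [Complex.norm_conj, mul_add] at k3
  rw [Complex.norm_ofNat, ← mul_div_assoc]
  linarith

lemma fix_weight (hL : 0 < L) (hγ : Big L γ) (hM : ∀ n, RD (M n))
    (hA : ∀ n, mulC γ w1 (M n) ≤ A n) (hs : Smal L κ P γ A η) (hg : RD2 g)
    (hβ : ∀ i, RD (β i)) (bl : SBd L γ w1 (res L P γ g β) η) (n : ℕ) :
    ∃ ε, 0 < ε ∧ ε ≤ 1 ∧ (∀ m, mulC γ (wt ε n) (M m) ≤ 2 * A m) ∧
      SBd L γ (wt ε n) (res L P γ g β) (2 * η) := by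
  have hγ0 : 0 < γ := one_pos.trans_le hγ.1
  choose e₁ h₁ h₁' H₁ using fun m => mulC_wt hγ0 (hM m) n (hs.1 m)
  choose e₂ h₂ h₂' H₂ using fun j =>
    ((isRes_res hL hγ P hg hβ).rd j).weight_approx hγ.1 n hs.2.1
  obtain ⟨i₁, hi₁⟩ := Finite.exists_min e₁
  obtain ⟨i₂, hi₂⟩ := Finite.exists_min e₂
  have hε : 0 < min (e₁ i₁) (e₂ i₂) := lt_min (h₁ _) (h₂ _)
  refine ⟨_, hε, (min_le_left _ _).trans (h₁' _), fun m => ?_, fun x hx j => ?_⟩
  · have := H₁ m _ hε.le ((min_le_left _ _).trans (hi₁ m))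
    linarith [hA m]
  · rw [two_mul]
    exact H₂ j _ hε.le ((min_le_right _ _).trans (hi₂ j)) _ (fix_sigma_le j) x η hs.2.1.le
      (bl x hx j)

lemma fix_it_decay (hL : 0 < L) (hP : P.Valid) (hγ : Big L γ) (hM : ∀ n, RD (M n))
    (hA : ∀ n, mulC γ w1 (M n) ≤ A n) (hs : Smal L κ P γ A η) (hg : RD2 g)
    (hβ : ∀ i, RD (β i)) (bl : SBd L γ w1 (res L P γ g β) η) (N : ℕ) :
    ∃ K, 0 ≤ K ∧ ∀ k j x τ,
      ‖fixIt L κ P γ M g β (k + 2) j x τ - fixIt L κ P γ M g β (k + 1) j x τ‖ * (1 + |τ|) ^ N ≤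
        K * (1 / 2) ^ k := by
  have hγ0 : 0 < γ := one_pos.trans_le hγ.1
  have hη := hs.2.1
  obtain ⟨ε, hε, hε1, hA', bl'⟩ := fix_weight hL hγ hM hA hs hg hβ bl (N + 2)
  have hw := adm_wt hε.le (N + 2)
  obtain ⟨C, hC, H⟩ := fix_pw hL κ hP hγ hw hM hg β (n := 2 * (2 * η)) (by positivity)
  have ball := fix_it_ball hL hP hγ hw hM hA' hs hg hβ (by linarith) le_rfl bl'
  refine ⟨C * (γ + 2 * Real.pi) ^ 2 * (4 * η) / ε ^ (N + 2), by positivity, fun k j x τ => ?_⟩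
  have h1 := H _ _ _ (fix_it_rd hL hγ hM hg hβ (k + 1)) (fix_it_rd hL hγ hM hg hβ k) (ball _)
    (ball _) (by positivity) (fix_it_contr hL hP hγ hw hM hA' hs hg hβ bl' k) j x τ
  change wt ε (N + 2) τ *
    ‖fixIt L κ P γ M g β (k + 2) j x τ - fixIt L κ P γ M g β (k + 1) j x τ‖ ≤ _ at h1
  generalize ‖fixIt L κ P γ M g β (k + 2) j x τ - fixIt L κ P γ M g β (k + 1) j x τ‖ = z,
    norm_nonneg (fixIt L κ P γ M g β (k + 2) j x τ - fixIt L κ P γ M g β (k + 1) j x τ) = hz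
    at h1
  have ha : 0 ≤ |τ| := abs_nonneg τ
  have h2 : (ε * (1 + |τ|)) ^ (N + 2) ≤ wt ε (N + 2) τ :=
    pow_le_pow_left₀ (by positivity) (by nlinarith) _
  have h3 : om γ τ ^ 2 ≤ ((γ + 2 * Real.pi) * (1 + |τ|)) ^ 2 :=
    pow_le_pow_left₀ (om_nonneg _ _) (om_le hγ0.le τ) _
  have h4 : (ε * (1 + |τ|)) ^ (N + 2) * z ≤
      C * ((γ + 2 * Real.pi) * (1 + |τ|)) ^ 2 * (4 * η * (1 / 2) ^ k) :=
    (mul_le_mul_of_nonneg_right h2 hz).trans (h1.trans (by gcongr))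
  rw [div_mul_eq_mul_div, le_div_iff₀ (by positivity)]
  refine le_of_mul_le_mul_right (a := (1 + |τ|) ^ 2) ?_ (by positivity)
  rw [mul_pow] at h4
  refine le_trans (le_of_eq ?_) (h4.trans (le_of_eq ?_)) <;> ring

lemma fix_limit {U : ℕ → Fin 3 → ℝ → ℝ → ℂ} (hU : ∀ k j, RD2 (U k j))
    (h : ∀ N : ℕ, ∃ K, 0 ≤ K ∧ ∀ k j x τ,
      ‖U (k + 1) j x τ - U k j x τ‖ * (1 + |τ|) ^ N ≤ K * (1 / 2) ^ k) :
    ∃ V : Fin 3 → ℝ → ℝ → ℂ, (∀ j, RD2 (V j)) ∧ ∀ N : ℕ, ∃ K, 0 ≤ K ∧ ∀ k j x τ,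
      ‖U k j x τ - V j x τ‖ * (1 + |τ|) ^ N ≤ K * (1 / 2) ^ k := by
  have hd : ∀ (N : ℕ) (K : ℝ), (∀ k j x τ,
      ‖U (k + 1) j x τ - U k j x τ‖ * (1 + |τ|) ^ N ≤ K * (1 / 2) ^ k) → ∀ j x τ k,
      dist (U k j x τ) (U (k + 1) j x τ) ≤ K / (1 + |τ|) ^ N * (1 / 2) ^ k := by
    intro N K hK j x τ k
    rw [dist_comm, dist_eq_norm, div_mul_eq_mul_div, le_div_iff₀ (by positivity)]
    exact hK k j x τ
  have hc : ∀ j x τ, ∃ a, Tendsto (fun k => U k j x τ) atTop (𝓝 a) := by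
    intro j x τ
    obtain ⟨K, -, hK⟩ := h 0
    exact cauchySeq_tendsto_of_complete
      (cauchySeq_of_le_geometric (1 / 2) _ (by norm_num) (hd 0 K hK j x τ))
  choose V hV using hc
  have hb : ∀ N : ℕ, ∃ K, 0 ≤ K ∧ ∀ k j x τ,
      ‖U k j x τ - V j x τ‖ * (1 + |τ|) ^ N ≤ K * (1 / 2) ^ k := by
    intro N
    obtain ⟨K, hK0, hK⟩ := h N
    refine ⟨2 * K, by positivity, fun k j x τ => ?_⟩
    have := dist_le_of_le_geometric_of_tendsto (1 / 2) _ (by norm_num) (hd N K hK j x τ)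
      (hV j x τ) k
    rw [dist_eq_norm] at this
    rw [← le_div_iff₀ (by positivity)]
    refine this.trans (le_of_eq ?_)
    ring
  refine ⟨V, fun j => ⟨?_, fun N => ?_⟩, hb⟩
  · obtain ⟨K, -, hK⟩ := hb 0
    refine TendstoUniformly.continuous (F := fun k (p : ℝ × ℝ) => U k j p.1 p.2) (p := atTop) ?_
      (Frequently.of_forall fun k => (hU k j).cont)
    rw [Metric.tendstoUniformly_iff]
    intro ε hε
    have ht : Tendsto (fun k : ℕ => K * (1 / 2 : ℝ) ^ k) atTop (𝓝 (K * 0)) :=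
      (tendsto_pow_atTop_nhds_zero_of_lt_one (by norm_num) (by norm_num)).const_mul K
    rw [mul_zero] at ht
    filter_upwards [ht.eventually (gt_mem_nhds hε)] with k hk p
    rw [dist_comm, dist_eq_norm]
    have := hK k j p.1 p.2
    rw [pow_zero, mul_one] at this
    exact this.trans_lt hk
  · obtain ⟨K, -, hK⟩ := hb N
    obtain ⟨C, hC⟩ := (hU 0 j).decay N
    refine ⟨C + K, fun x τ => ?_⟩
    have h1 := hK 0 j x τ
    rw [pow_zero, mul_one] at h1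
    have h2 : ‖V j x τ‖ ≤ ‖U 0 j x τ‖ + ‖U 0 j x τ - V j x τ‖ := norm_le_insert _ _
    have h3 := mul_le_mul_of_nonneg_right h2 (by positivity : 0 ≤ (1 + |τ|) ^ N)
    linarith [hC x τ]

lemma fix_le_zero {a K : ℝ} (h : ∀ k : ℕ, a ≤ K * (1 / 2) ^ k) : a ≤ 0 := by
  have ht : Tendsto (fun k : ℕ => K * (1 / 2 : ℝ) ^ k) atTop (𝓝 (K * 0)) :=
    (tendsto_pow_atTop_nhds_zero_of_lt_one (by norm_num) (by norm_num)).const_mul K
  rw [mul_zero] at ht
  exact ge_of_tendsto' ht h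

lemma fix_small {K ε : ℝ} (hε : 0 < ε) : ∃ k : ℕ, K * (1 / 2) ^ k ≤ ε := by
  by_contra h
  push Not at h
  exact absurd (fix_le_zero fun k => (h k).le) (not_le.2 hε)

lemma fix_it_zero (hL : 0 < L) (hγ : Big L γ) (hM : ∀ n, RD (M n)) (hMr : ∀ n, IsRe (M n))
    (hg : RD2 g) (hβ : ∀ i, RD (β i)) {t₀ : ℝ}
    (h₁ : ∀ x ∈ Icc 0 L, ∀ t ≤ t₀, tl 0 (g x) t = 0) (h₂ : ∀ i, ∀ t ≤ t₀, tl 0 (β i) t = 0)
    (k : ℕ) : ∀ j, ∀ x ∈ Icc 0 L, ∀ t ≤ t₀, tl 0 (fixIt L κ P γ M g β k j x) t = 0 := by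
  have hγ0 : 0 < γ := one_pos.trans_le hγ.1
  have hre : ∀ k j x, IsRe (fixIt L κ P γ M g β k j x) := by
    intro k j x
    cases k with
    | zero =>
      change IsRe fun _ => 0
      rw [← fix_sym_zero]
      exact isRe_sym RD.zero.integrable
    | succ k =>
      have hr := fix_it_rd (κ := κ) (P := P) hL hγ hM hg hβ k
      exact isRe_sym (((isRes_res hL hγ P (hg.add (rd2_fN κ hM hr))
        fun i => (hβ i).add (rd_fB L κ P hM hr i)).rd j).at x).integrable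
  induction k with
  | zero => exact fun j x _ t _ => tl_zero_fun 0 t
  | succ k ih =>
    have hr := fix_it_rd (κ := κ) (P := P) hL hγ hM hg hβ k
    have hz := fun t (ht : t ≤ t₀) =>
      tl_nl_zero hL κ P hM hMr hr (hre k) (t := t) fun j x hx => ih j x hx t ht
    refine lu hL hγ0 (isRes_Phi hL κ P hγ hM hg hβ hr) (hg.add (rd2_fN κ hM hr)).sym
      (fun x hx t ht => ?_) fun i t ht => ?_
    · rw [tl_sym ((hg.add (rd2_fN κ hM hr)).at x), tl_add (hg.at x) ((rd2_fN κ hM hr).at x),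
        h₁ x hx t ht, (hz t ht).1 x hx, add_zero]
    · rw [tl_sym ((hβ i).add (rd_fB L κ P hM hr i)), tl_add (hβ i) (rd_fB L κ P hM hr i),
        h₂ i t ht, (hz t ht).2 i, add_zero]

/-- Picard iteration from `0`. For each `n` choose `ε` with `mulC γ (wt ε n) (M _) ≤ 2 A _` and
`SBd (wt ε n) (res g β) (2 η)` (`mulC_wt`, `RD2.weight_approx`); the iterates stay in the ball of
radius `4 η` and contract by `Phi_lip`; `nl_pw` and `res_pw` turn this into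
`‖V (k+2) - V (k+1)‖ (1 + |τ|) ^ N ≤ C_N 2 ^ (-k)` for every `N`, so the pointwise limit is `RD2`,
the iterates converge to it in `SBd w1` (`bd_of_decay`), and it is a fixed point (`nl_pw`,
`res_pw` again). Vanishing for `t ≤ t₀` passes from one iterate to the next by `tl_nl_zero` and
`lu`, and to the limit by `abs_tl_le`. -/
theorem fix_exists (hL : 0 < L) (hP : P.Valid) (hγ : Big L γ) (hM : ∀ n, RD (M n))
    (hMr : ∀ n, IsRe (M n)) (hA : ∀ n, mulC γ w1 (M n) ≤ A n) (hs : Smal L κ P γ A η)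
    (hg : RD2 g) (hβ : ∀ i, RD (β i)) (bl : SBd L γ w1 (res L P γ g β) η) {t₀ : ℝ}
    (h₁ : ∀ x ∈ Icc 0 L, ∀ t ≤ t₀, tl 0 (g x) t = 0) (h₂ : ∀ i, ∀ t ≤ t₀, tl 0 (β i) t = 0) :
    ∃ V : Fin 3 → ℝ → ℝ → ℂ, (∀ j, RD2 (V j)) ∧ Phi L κ P γ M g β V = V ∧
      SBd L γ w1 V (2 * η) ∧ ∀ j, ∀ x ∈ Icc 0 L, ∀ t ≤ t₀, tl 0 (V j x) t = 0 := by
  have hγ0 : 0 < γ := one_pos.trans_le hγ.1
  have hη := hs.2.1
  have hr := fix_it_rd (κ := κ) (P := P) hL hγ hM hg hβ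
  obtain ⟨V, hV, hlim⟩ := fix_limit (U := fun k => fixIt L κ P γ M g β (k + 1))
    (fun k => hr (k + 1)) (fix_it_decay hL hP hγ hM hA hs hg hβ bl)
  have hA' : ∀ n, mulC γ w1 (M n) ≤ 2 * A n := fun n => by linarith [hA n, hs.1 n]
  have ball := fix_it_ball hL hP hγ adm_w1 hM hA' hs hg hβ hη.le (by linarith) bl
  obtain ⟨n, C, hC, hbd⟩ := bd_of_decay hγ.1 adm_w1
  obtain ⟨K, hK, hK'⟩ := hlim n
  have hconv : ∀ k, SBd L γ w1 (fun j x τ => fixIt L κ P γ M g β (k + 1) j x τ - V j x τ)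
      (C * (K * (1 / 2) ^ k)) := fun k x _ j =>
    hbd _ (fix_sigma_le j) _ _ (by positivity) (hK' k j x)
  have hball : SBd L γ w1 V (2 * η) := by
    intro x hx j
    refine Bd.of_forall_add (by positivity) fun ε hε => ?_
    obtain ⟨k, hk⟩ := fix_small (K := C * K) hε
    have := Bd.sub hγ0 adm_w1 ((hr (k + 1) j).at x).aesm
      (((hr (k + 1) j).sub (hV j)).at x).aesm (by positivity) (by positivity)
      (ball (k + 1) x hx j) (hconv k x hx j)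
    simp only [sub_sub_cancel] at this
    exact this.mono (by linarith)
  refine ⟨V, hV, ?_, hball, fun j x hx t ht => ?_⟩
  · obtain ⟨C', hC', H⟩ := fix_pw hL κ hP hγ adm_w1 hM hg β (n := 2 * η) (by positivity)
    obtain ⟨K₀, hK₀, hK₀'⟩ := hlim 0
    funext j x τ
    rw [← sub_eq_zero, ← norm_le_zero_iff]
    refine fix_le_zero (K := C' * om γ τ ^ 2 * (C * K) + K₀ / 2) fun k => ?_
    have h1 := H _ _ _ (hr (k + 1)) hV (ball _) hball (by positivity) (hconv k) j x τ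
    have h2 := hK₀' (k + 1) j x τ
    rw [pow_zero, mul_one] at h2
    change 1 * ‖fixIt L κ P γ M g β (k + 1 + 1) j x τ - Phi L κ P γ M g β V j x τ‖ ≤ _ at h1
    have h3 := norm_sub_le_norm_sub_add_norm_sub (Phi L κ P γ M g β V j x τ)
      (fixIt L κ P γ M g β (k + 1 + 1) j x τ) (V j x τ)
    rw [one_mul, norm_sub_rev] at h1
    refine h3.trans ((add_le_add h1 h2).trans (le_of_eq ?_))
    ring
  · obtain ⟨K₂, -, hK₂⟩ := hlim 2
    rw [← abs_nonpos_iff]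
    refine fix_le_zero (K := 4 * K₂) fun k => ?_
    have h1 := abs_tl_le (((hr (k + 1) j).sub (hV j)).at x) (hK₂ k j x) t
    rw [tl_sub ((hr (k + 1) j).at x) ((hV j).at x),
      fix_it_zero hL hγ hM hMr hg hβ h₁ h₂ (k + 1) j x hx t ht, zero_sub, abs_neg] at h1
    linarith

/-- Start from the finite bound `RD2.exists_bd` and iterate `Phi_lip`. -/
theorem fix_diff (hL : 0 < L) (hP : P.Valid) (hγ : Big L γ) (hM : ∀ n, RD (M n))
    (hA : ∀ n, mulC γ w1 (M n) ≤ A n) (hs : Smal L κ P γ A η) (hg : RD2 g) (hg' : RD2 g')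
    (hβ : ∀ i, RD (β i)) (hβ' : ∀ i, RD (β' i)) (hV : ∀ j, RD2 (V j)) (hV' : ∀ j, RD2 (V' j))
    (e : Phi L κ P γ M g β V = V) (e' : Phi L κ P γ M g' β' V' = V')
    (b : SBd L γ w1 V (2 * η)) (b' : SBd L γ w1 V' (2 * η)) {d : ℝ} (hd : 0 ≤ d)
    (bl : SBd L γ w1 (res L P γ (fun x τ => g x τ - g' x τ) fun i τ => β i τ - β' i τ) d) :
    SBd L γ w1 (fun j x τ => V j x τ - V' j x τ) (2 * d) := by
  have hη := hs.2.1
  have hA' : ∀ n, mulC γ w1 (M n) ≤ 2 * A n := fun n => by linarith [hA n, hs.1 n]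
  choose c hc hc' using fun j => ((hV j).sub (hV' j)).exists_bd hγ.1 adm_w1
  obtain ⟨i, hi⟩ := Finite.exists_max c
  have key : ∀ k : ℕ, SBd L γ w1 (fun j x τ => V j x τ - V' j x τ) (2 * d + c i * (1 / 2) ^ k) := by
    intro k
    induction k with
    | zero =>
      intro x _ j
      refine (hc' j _ (fix_sigma_le j) x).mono ?_
      rw [pow_zero, mul_one]
      linarith [hi j]
    | succ k ih =>
      have hci := hc i
      have := Phi_lip hL hP hγ adm_w1 hM hA' hs hg hg' hβ hβ' hV hV'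
        (fix_sbd_mono b (by linarith)) (fix_sbd_mono b' (by linarith)) (by positivity) ih hd bl
      rw [e, e'] at this
      exact fix_sbd_mono this (le_of_eq (by ring))
  intro x hx j
  refine Bd.of_forall_add (by positivity) fun ε hε => ?_
  obtain ⟨k, hk⟩ := fix_small (K := c i) hε
  exact (key k x hx j).mono (by linarith)

end Pool.Agent.Lib.MP_14aec4_an.W
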