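import Pool.Agent.Lib.MP_14aec4_an.FpTime0

/-!
The fixed point on the time side.
-/

noncomputable section

open MeasureTheory Set Filter Topology FourierTransform
open scoped ENNReal ComplexConjugate

namespace Pool.Agent.Lib.MP_14aec4_an.W

variable {L κ γ η : ℝ} {P : BC} {A : Fin 3 → ℝ} {m : ℝ → ℝ} {G G' : ℝ → ℝ → ℝ}
  {ℓ ℓ' : Fin 3 → ℝ → ℝ} {V V' : Fin 3 → ℝ → ℝ → ℂ}

lemma fp_zero (L κ : ℝ) (P : BC) (γ : ℝ) (hm : SC m) :
    FP L κ P γ m (fun _ _ => 0) (fun _ _ => 0) fun _ _ _ => 0 := by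
  refine ⟨hm, SC2.zero L, fun _ => SC.zero, fun _ => RD2.zero, ?_⟩
  funext j x τ
  have e1 : specG L γ (fun _ _ => 0) = fun _ _ => 0 := by
    funext y
    exact spec_zero γ
  have e2 : (fun _ : Fin 3 => spec γ (fun _ => 0)) = fun _ _ => 0 := by
    funext i
    exact spec_zero γ
  have e3 := res_zero L P γ
  simp only [Phi, e1, fN_zero, fB_zero, spec_zero, add_zero, e3, sym, map_zero, zero_div]

theorem fp_exists (hL : 0 < L) (hP : P.Valid) (hγ : Big L γ) (hm : SC m) (hG : SC2 L G)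
    (hℓ : ∀ i, SC (ℓ i)) (hA : ∀ n, mulC γ w1 (mm γ m n) ≤ A n) (hs : Smal L κ P γ A η)
    (bl : SBd L γ w1 (linS L P γ G ℓ) η) {t₀ : ℝ} (h₁ : ∀ x ∈ Icc 0 L, ∀ t ≤ t₀, G x t = 0)
    (h₂ : ∀ i, ∀ t ≤ t₀, ℓ i t = 0) :
    ∃ V, FP L κ P γ m G ℓ V ∧ SBd L γ w1 V (2 * η) ∧
      ∀ j, ∀ x ∈ Icc 0 L, ∀ t ≤ t₀, tl 0 (V j x) t = 0 := by
  have hGx : ∀ x, SC (G (cl L x)) := fun x => hG.at (cl_mem hL.le x)
  obtain ⟨V, hV, e, b, z⟩ := fix_exists (κ := κ) (M := mm γ m) (A := A) (g := specG L γ G)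
    (β := fun i => spec γ (ℓ i)) (t₀ := t₀) hL hP hγ (fun n => rd_spec _ hm)
    (fun n => isRe_spec _ hm) hA hs (rd2_specG hL γ hG) (fun i => rd_spec γ (hℓ i)) bl
    (fun x _ t ht => by
      rw [specG, tl_spec γ (hGx x), h₁ _ (cl_mem hL.le x) t ht, mul_zero])
    (fun i t ht => by rw [tl_spec γ (hℓ i), h₂ i t ht, mul_zero])
  exact ⟨V, ⟨hm, hG, hℓ, hV, e⟩, b, z⟩

theorem fp_diff (hL : 0 < L) (hP : P.Valid) (hγ : Big L γ)
    (hA : ∀ n, mulC γ w1 (mm γ m n) ≤ A n) (hs : Smal L κ P γ A η) (h : FP L κ P γ m G ℓ V)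
    (h' : FP L κ P γ m G' ℓ' V') (b : SBd L γ w1 V (2 * η)) (b' : SBd L γ w1 V' (2 * η)) {d : ℝ}
    (hd : 0 ≤ d)
    (bl : SBd L γ w1 (linS L P γ (fun x t => G x t - G' x t) fun i t => ℓ i t - ℓ' i t) d) :
    SBd L γ w1 (fun j x τ => V j x τ - V' j x τ) (2 * d) := by
  have e1 : specG L γ (fun x t => G x t - G' x t) =
      fun x τ => specG L γ G x τ - specG L γ G' x τ := by
    funext x τ
    exact spec_sub γ (h.hG.at (cl_mem hL.le x)) (h'.hG.at (cl_mem hL.le x)) τ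
  have e2 : (fun i => spec γ fun t => ℓ i t - ℓ' i t) =
      fun i τ => spec γ (ℓ i) τ - spec γ (ℓ' i) τ := by
    funext i τ
    exact spec_sub γ (h.hℓ i) (h'.hℓ i) τ
  have bl' : SBd L γ w1 (res L P γ (fun x τ => specG L γ G x τ - specG L γ G' x τ)
      fun i τ => spec γ (ℓ i) τ - spec γ (ℓ' i) τ) d := by
    rw [← e1, ← e2]
    exact bl
  exact fix_diff (κ := κ) (M := mm γ m) (A := A) hL hP hγ (fun n => rd_spec _ h.hm) hA hs
    (rd2_specG hL γ h.hG) (rd2_specG hL γ h'.hG) (fun i => rd_spec γ (h.hℓ i))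
    (fun i => rd_spec γ (h'.hℓ i)) h.rd h'.rd h.fix h'.fix b b' hd bl'

/-- The multipliers of the cut-off at scale `1 / γ` are bounded independently of `γ`. -/
lemma exists_cut_const : ∃ A : Fin 3 → ℝ, (∀ n, 0 < A n) ∧
    ∀ γ, 0 < γ → ∀ n, mulC γ w1 (mm γ (fun t => cut (γ * t)) n) ≤ A n := by
  refine ⟨fun n => mulC 1 w1 (spec (-(n : ℝ)) cut) + 1, fun n => ?_, fun γ hγ n => ?_⟩
  · have := mulC_nonneg one_pos adm_w1 (spec (-((n : ℕ) : ℝ)) cut)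
    linarith
  · have := mulC_scale hγ (-((n : ℕ) : ℝ)) cut
    rw [mm, this]
    linarith

/-- For small `η` the smallness condition holds for all large `γ`. -/
lemma exists_smal {L : ℝ} (hL : 0 < L) (κ : ℝ) (P : BC) {A : Fin 3 → ℝ} (hA : ∀ n, 0 < A n) :
    ∃ η₀, 0 < η₀ ∧ η₀ ≤ 1 ∧ ∀ᶠ γ in atTop, Big L γ ∧ aa γ ≤ 1 ∧
      ∀ η, 0 < η → η ≤ η₀ → Smal L κ P γ A η := by
  have hK : 0 < Kc L κ P := by
    unfold Kc
    have h1 : 0 ≤ ∑ i, (|P.α i| + |P.β i| + |P.ζ i|) :=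
      Finset.sum_nonneg fun i _ => by positivity
    have h2 := abs_nonneg (mu κ)
    positivity
  have h0 := hA 0
  have h1 := hA 1
  have h2 := hA 2
  have hp : 0 < 1 / (2 * Kc L κ P * (A 1 + A 2)) := by positivity
  refine ⟨min 1 (1 / (2 * Kc L κ P * (A 1 + A 2))), lt_min one_pos hp, min_le_left _ _, ?_⟩
  have t1 : Tendsto (fun γ : ℝ => γ ^ (-(1 : ℝ) / 3)) atTop (𝓝 0) := by
    have := tendsto_rpow_neg_atTop (y := (1 : ℝ) / 3) (by norm_num)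
    simpa only [neg_div] using this
  have hq : 0 < 1 / (2 * Kc L κ P * A 0) := by positivity
  filter_upwards [eventually_ge_atTop (1 : ℝ), eventually_ge_atTop ((2 / L) ^ 3),
    aa_tendsto.eventually (ge_mem_nhds one_pos), t1.eventually (ge_mem_nhds hq)]
    with γ g1 g2 g3 g4
  refine ⟨⟨g1, g2⟩, g3, fun η hη hη' => ⟨hA, hη, ?_⟩⟩
  have hη1 : η ≤ 1 := hη'.trans (min_le_left _ _)
  have hη2 : η ≤ 1 / (2 * Kc L κ P * (A 1 + A 2)) := hη'.trans (min_le_right _ _)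
  have a0 := aa_nonneg γ
  have s1 : A 1 * aa γ * η ≤ A 1 * η := by
    have : aa γ * η ≤ η := mul_le_of_le_one_left hη.le g3
    calc A 1 * aa γ * η = A 1 * (aa γ * η) := by ring
      _ ≤ A 1 * η := mul_le_mul_of_nonneg_left this h1.le
  have s2 : A 2 * η ^ 2 ≤ A 2 * η := by
    have : η ^ 2 ≤ η := by rw [sq]; exact mul_le_of_le_one_left hη.le hη1
    exact mul_le_mul_of_nonneg_left this h2.le
  have s3 : Kc L κ P * ((A 1 + A 2) * η) ≤ 1 / 2 := by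
    rw [le_div_iff₀ (by positivity)] at hη2
    linarith
  have s4 : Kc L κ P * (A 0 * γ ^ (-(1 : ℝ) / 3)) ≤ 1 / 2 := by
    rw [le_div_iff₀ (by positivity)] at g4
    linarith
  have s5 : Kc L κ P * (A 1 * aa γ * η + A 2 * η ^ 2) ≤ Kc L κ P * ((A 1 + A 2) * η) :=
    mul_le_mul_of_nonneg_left (by linarith) hK.le
  linarith

end Pool.Agent.Lib.MP_14aec4_an.W
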