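import Pool.Agent.Lib.MP_14aec4_an.Base

/-!
Smoothness on a closed rectangle from a family closed under both derivatives.
-/

noncomputable section

open MeasureTheory Set Filter Topology FourierTransform
open scoped ENNReal ComplexConjugate

namespace Pool.Agent.Lib.MP_14aec4_an.W

/-- Closure of the algebra under a derivation along a family of curves. -/
lemma smooth_adjoin {𝒢 : Set (ℝ × ℝ → ℝ)} {S : Set (ℝ × ℝ)} (c : ℝ × ℝ → ℝ → ℝ × ℝ)
    (r : ℝ × ℝ → ℝ) (hc : ∀ p, c p (r p) = p)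
    (ht : ∀ f ∈ 𝒢, ∃ h ∈ Algebra.adjoin ℝ 𝒢, ∀ p ∈ S,
      HasDerivAt (fun τ => f (c p τ)) (h p) (r p)) :
    ∀ f ∈ Algebra.adjoin ℝ 𝒢, ∃ h ∈ Algebra.adjoin ℝ 𝒢, ∀ p ∈ S,
      HasDerivAt (fun τ => f (c p τ)) (h p) (r p) := by
  intro f hf
  induction hf using Algebra.adjoin_induction with
  | mem f hf => exact ht f hf
  | algebraMap a =>
    exact ⟨0, Subalgebra.zero_mem _, fun p _ => hasDerivAt_const (r p) a⟩
  | add f g _ _ hf hg =>
    obtain ⟨f', h1, h2⟩ := hf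
    obtain ⟨g', h3, h4⟩ := hg
    exact ⟨f' + g', Subalgebra.add_mem _ h1 h3, fun p hp => (h2 p hp).add (h4 p hp)⟩
  | mul f g hf0 hg0 hf hg =>
    obtain ⟨f', h1, h2⟩ := hf
    obtain ⟨g', h3, h4⟩ := hg
    refine ⟨f' * g + f * g', Subalgebra.add_mem _ (Subalgebra.mul_mem _ h1 hg0)
      (Subalgebra.mul_mem _ hf0 h3), fun p hp => ?_⟩
    have := (h2 p hp).mul (h4 p hp)
    rw [hc] at this
    exact this

/-- The algebra generated by `𝒢` is closed under `∂_t` if the derivatives of the generators lie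
in it. -/
theorem adjoin_dt {L : ℝ} {J : Set ℝ} {𝒢 : Set (ℝ × ℝ → ℝ)}
    (ht : ∀ f ∈ 𝒢, ∃ h ∈ Algebra.adjoin ℝ 𝒢, ∀ x ∈ Ioo 0 L, ∀ t ∈ J,
      HasDerivAt (fun τ => f (x, τ)) (h (x, t)) t) :
    ∀ f ∈ Algebra.adjoin ℝ 𝒢, ∃ h ∈ Algebra.adjoin ℝ 𝒢, ∀ x ∈ Ioo 0 L, ∀ t ∈ J,
      HasDerivAt (fun τ => f (x, τ)) (h (x, t)) t := by
  intro f hf
  obtain ⟨h, h1, h2⟩ := smooth_adjoin (S := Ioo 0 L ×ˢ J) (fun p τ => (p.1, τ)) (fun p => p.2)
    (fun _ => rfl) (fun f hf => by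
      obtain ⟨h, h1, h2⟩ := ht f hf
      exact ⟨h, h1, fun p hp => h2 p.1 hp.1 p.2 hp.2⟩) f hf
  exact ⟨h, h1, fun x hx t ht => h2 (x, t) ⟨hx, ht⟩⟩

lemma smooth_adjoin_dx {L : ℝ} {J : Set ℝ} {𝒢 : Set (ℝ × ℝ → ℝ)}
    (hx : ∀ f ∈ 𝒢, ∃ g ∈ Algebra.adjoin ℝ 𝒢, ∀ x ∈ Ioo 0 L, ∀ t ∈ J,
      HasDerivAt (fun y => f (y, t)) (g (x, t)) x) :
    ∀ f ∈ Algebra.adjoin ℝ 𝒢, ∃ g ∈ Algebra.adjoin ℝ 𝒢, ∀ x ∈ Ioo 0 L, ∀ t ∈ J,
      HasDerivAt (fun y => f (y, t)) (g (x, t)) x := by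
  intro f hf
  obtain ⟨h, h1, h2⟩ := smooth_adjoin (S := Ioo 0 L ×ˢ J) (fun p y => (y, p.2)) (fun p => p.1)
    (fun _ => rfl) (fun f hf => by
      obtain ⟨h, h1, h2⟩ := hx f hf
      exact ⟨h, h1, fun p hp => h2 p.1 hp.1 p.2 hp.2⟩) f hf
  exact ⟨h, h1, fun x hx t ht => h2 (x, t) ⟨hx, ht⟩⟩

lemma smooth_adjoin_cont {𝒢 : Set (ℝ × ℝ → ℝ)} {S : Set (ℝ × ℝ)}
    (hc : ∀ f ∈ 𝒢, ContinuousOn f S) : ∀ f ∈ Algebra.adjoin ℝ 𝒢, ContinuousOn f S := by
  intro f hf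
  induction hf using Algebra.adjoin_induction with
  | mem f hf => exact hc f hf
  | algebraMap a => exact continuousOn_const
  | add f g _ _ hf hg => exact hf.add hg
  | mul f g _ _ hf hg => exact hf.mul hg

/-- Continuous derivatives in each variable give a derivative up to the boundary. -/
lemma smooth_hasFDeriv {L : ℝ} (hL : 0 < L) {J : Set ℝ} (hJ : IsOpen J) (hJc : Convex ℝ J)
    {f g h : ℝ × ℝ → ℝ} (hf : ContinuousOn f (Icc 0 L ×ˢ closure J))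
    (hg : ContinuousOn g (Icc 0 L ×ˢ closure J)) (hh : ContinuousOn h (Icc 0 L ×ˢ closure J))
    (hx : ∀ x ∈ Ioo 0 L, ∀ t ∈ J, HasDerivAt (fun y => f (y, t)) (g (x, t)) x)
    (ht : ∀ x ∈ Ioo 0 L, ∀ t ∈ J, HasDerivAt (fun τ => f (x, τ)) (h (x, t)) t) :
    ∀ p ∈ Icc 0 L ×ˢ closure J, HasFDerivWithinAt f
      (g p • ContinuousLinearMap.fst ℝ ℝ ℝ + h p • ContinuousLinearMap.snd ℝ ℝ ℝ)
      (Icc 0 L ×ˢ closure J) p := by
  have hU : IsOpen (Ioo 0 L ×ˢ J) := isOpen_Ioo.prod hJ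
  have hcl : closure (Ioo 0 L ×ˢ J) = Icc 0 L ×ˢ closure J := by
    rw [closure_prod_eq, closure_Ioo hL.ne]
  have hsub : Ioo 0 L ×ˢ J ⊆ Icc 0 L ×ˢ closure J := by
    rw [← hcl]; exact subset_closure
  have hin : ∀ p ∈ Ioo 0 L ×ˢ J, HasFDerivAt f
      (g p • ContinuousLinearMap.fst ℝ ℝ ℝ + h p • ContinuousLinearMap.snd ℝ ℝ ℝ) p := by
    intro p hp
    have hn : Ioo 0 L ×ˢ J ∈ 𝓝 p := hU.mem_nhds hp
    have hn' : Icc 0 L ×ˢ closure J ∈ 𝓝 p := mem_of_superset hn hsub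
    have key := hasStrictFDerivAt_uncurry_coprod (𝕜 := ℝ) (u := p) (f := fun x t => f (x, t))
      (f₁ := fun x t => g (x, t) • ContinuousLinearMap.id ℝ ℝ)
      (f₂ := fun x t => h (x, t) • ContinuousLinearMap.id ℝ ℝ) (by
        filter_upwards [hn] with v hv
        refine (hx v.1 hv.1 v.2 hv.2).hasFDerivAt.congr_fderiv ?_
        ext
        simp [Function.HasUncurry.uncurry]) (by
        filter_upwards [hn] with v hv
        refine (ht v.1 hv.1 v.2 hv.2).hasFDerivAt.congr_fderiv ?_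
        ext
        simp [Function.HasUncurry.uncurry])
      ((hg.continuousAt hn').smul continuousAt_const)
      ((hh.continuousAt hn').smul continuousAt_const)
    refine key.hasFDerivAt.congr_fderiv ?_
    ext <;> simp [Function.HasUncurry.uncurry]
  intro p hp
  rw [← hcl]
  refine hasFDerivWithinAt_closure_of_tendsto_fderiv
    (fun q hq => (hin q hq).differentiableAt.differentiableWithinAt)
    ((convex_Ioo 0 L).prod hJc) hU (fun q hq => ?_) ?_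
  · rw [hcl] at hq
    exact (hf q hq).mono hsub
  · have h1 : ContinuousWithinAt (fun p : ℝ × ℝ =>
        g p • ContinuousLinearMap.fst ℝ ℝ ℝ + h p • ContinuousLinearMap.snd ℝ ℝ ℝ)
        (Ioo 0 L ×ˢ J) p :=
      (((hg p hp).mono hsub).smul continuousWithinAt_const).add
        (((hh p hp).mono hsub).smul continuousWithinAt_const)
    refine Tendsto.congr' ?_ h1
    filter_upwards [self_mem_nhdsWithin] with q hq
    exact (hin q hq).fderiv.symm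

/-- Induction on the order of smoothness for all elements of the algebra at once: continuous
derivatives in each variable give a Fréchet derivative in the open rectangle
(`hasStrictFDerivAt_uncurry_coprod`), which extends to the closure
(`hasFDerivWithinAt_closure_of_tendsto_fderiv`). -/
theorem smooth_of_gen {L : ℝ} (hL : 0 < L) {J : Set ℝ} (hJ : IsOpen J) (hJc : Convex ℝ J)
    (hJn : J.Nonempty) {𝒢 : Set (ℝ × ℝ → ℝ)}
    (hc : ∀ f ∈ 𝒢, ContinuousOn f (Icc 0 L ×ˢ closure J))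
    (hx : ∀ f ∈ 𝒢, ∃ g ∈ Algebra.adjoin ℝ 𝒢, ∀ x ∈ Ioo 0 L, ∀ t ∈ J,
      HasDerivAt (fun y => f (y, t)) (g (x, t)) x)
    (ht : ∀ f ∈ 𝒢, ∃ h ∈ Algebra.adjoin ℝ 𝒢, ∀ x ∈ Ioo 0 L, ∀ t ∈ J,
      HasDerivAt (fun τ => f (x, τ)) (h (x, t)) t) :
    ∀ f ∈ 𝒢, ContDiffOn ℝ (⊤ : ℕ∞) f (Icc 0 L ×ˢ closure J) := by
  have hc' := smooth_adjoin_cont hc
  have hx' := smooth_adjoin_dx hx
  have ht' := adjoin_dt ht
  have hu : UniqueDiffOn ℝ (Icc 0 L ×ˢ closure J) := by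
    refine UniqueDiffOn.prod (uniqueDiffOn_Icc hL) (uniqueDiffOn_convex hJc.closure ?_)
    exact hJn.mono (interior_maximal subset_closure hJ)
  have key : ∀ n : ℕ, ∀ f ∈ Algebra.adjoin ℝ 𝒢, ContDiffOn ℝ n f (Icc 0 L ×ˢ closure J) := by
    intro n
    induction n with
    | zero =>
      intro f hf
      exact contDiffOn_zero.mpr (hc' f hf)
    | succ n ih =>
      intro f hf
      obtain ⟨g, hg, hg'⟩ := hx' f hf
      obtain ⟨h, hh, hh'⟩ := ht' f hf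
      rw [Nat.cast_succ, contDiffOn_succ_iff_hasFDerivWithinAt_of_uniqueDiffOn hu]
      refine ⟨by simp, fun p =>
        g p • ContinuousLinearMap.fst ℝ ℝ ℝ + h p • ContinuousLinearMap.snd ℝ ℝ ℝ, ?_,
        smooth_hasFDeriv hL hJ hJc (hc' f hf) (hc' g hg) (hc' h hh) hg' hh'⟩
      exact ((ih g hg).smul contDiffOn_const).add ((ih h hh).smul contDiffOn_const)
  intro f hf
  exact contDiffOn_infty.mpr fun n => key n f (Algebra.subset_adjoin hf)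

end Pool.Agent.Lib.MP_14aec4_an.W
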