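import Pool.Agent.Lib.MP_14aec4_an.Fix
import Pool.Agent.Lib.MP_14aec4_an.Smooth

/-!
The fixed point on the time side: smoothness and the equation.
-/

noncomputable section

open MeasureTheory Set Filter Topology FourierTransform
open scoped ENNReal ComplexConjugate

namespace Pool.Agent.Lib.MP_14aec4_an.W

variable {L κ γ η : ℝ} {P : BC} {A : Fin 3 → ℝ} {m : ℝ → ℝ} {G G' : ℝ → ℝ → ℝ}
  {ℓ ℓ' : Fin 3 → ℝ → ℝ} {V V' : Fin 3 → ℝ → ℝ → ℂ}

/-- `A` decays rapidly and the real part of its inverse transform at `t` is `a`. -/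
def fptime0_T (A : ℝ → ℂ) (t a : ℝ) : Prop := RD A ∧ tl 0 A t = a

lemma fptime0_T.add {B C : ℝ → ℂ} {t a b : ℝ} (h₁ : fptime0_T B t a) (h₂ : fptime0_T C t b) :
    fptime0_T (fun τ => B τ + C τ) t (a + b) :=
  ⟨h₁.1.add h₂.1, by rw [tl_add h₁.1 h₂.1, h₁.2, h₂.2]⟩

lemma fptime0_T.sub {B C : ℝ → ℂ} {t a b : ℝ} (h₁ : fptime0_T B t a) (h₂ : fptime0_T C t b) :
    fptime0_T (fun τ => B τ - C τ) t (a - b) :=
  ⟨h₁.1.sub h₂.1, by rw [tl_sub h₁.1 h₂.1, h₁.2, h₂.2]⟩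

lemma fptime0_T.smul {B : ℝ → ℂ} {t a : ℝ} (h₁ : fptime0_T B t a) (c : ℝ) :
    fptime0_T (fun τ => (c : ℂ) * B τ) t (c * a) :=
  ⟨h₁.1.const_mul _, by rw [tl_real_mul, h₁.2]⟩

lemma fptime0_T.cv {B C : ℝ → ℂ} {t a b : ℝ} (h₁ : fptime0_T B t a) (h₂ : fptime0_T C t b)
    (hr : IsRe B) : fptime0_T (cv B C) t (a * b) :=
  ⟨h₁.1.cv h₂.1, by rw [tl_cv h₁.1 h₂.1 hr, h₁.2, h₂.2]⟩

lemma fptime0_T.congr {B C : ℝ → ℂ} {t a b : ℝ} (h₁ : fptime0_T B t a) (e : ∀ τ, C τ = B τ)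
    (e' : b = a) : fptime0_T C t b := by
  have : C = B := funext e
  rw [this, e']
  exact h₁

lemma fptime0_T.sym {B : ℝ → ℂ} {t a : ℝ} (h₁ : fptime0_T B t a) : fptime0_T (sym B) t a :=
  ⟨h₁.1.sym, by rw [tl_sym h₁.1, h₁.2]⟩

lemma fptime0_rd_mm (γ : ℝ) (hm : SC m) (n : Fin 3) : RD (mm γ m n) := rd_spec _ hm

lemma fptime0_isRe_mm (γ : ℝ) (hm : SC m) (n : Fin 3) : IsRe (mm γ m n) := isRe_spec _ hm

lemma fptime0_T_mm0 (γ : ℝ) (hm : SC m) (t : ℝ) : fptime0_T (mm γ m 0) t (m t) := by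
  refine ⟨fptime0_rd_mm γ hm 0, ?_⟩
  unfold mm
  rw [tl_spec _ hm]
  simp

lemma fptime0_T_mm1 (γ : ℝ) (hm : SC m) (t : ℝ) :
    fptime0_T (mm γ m 1) t (Real.exp (γ * t) * m t) := by
  refine ⟨fptime0_rd_mm γ hm 1, ?_⟩
  unfold mm
  rw [tl_spec _ hm]
  simp

lemma fptime0_T_mm2 (γ : ℝ) (hm : SC m) (t : ℝ) :
    fptime0_T (mm γ m 2) t (Real.exp (γ * t) ^ 2 * m t) := by
  refine ⟨fptime0_rd_mm γ hm 2, ?_⟩
  unfold mm
  rw [tl_spec _ hm, ← Real.exp_nat_mul]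
  have : -(-((2 : Fin 3) : ℝ) * γ) * t = (2 : ℕ) * (γ * t) := by
    have h2 : (((2 : Fin 3) : ℕ) : ℝ) = 2 := by norm_num
    rw [h2]
    push_cast
    ring
  rw [this]

lemma fptime0_isRes (hL : 0 < L) (hγ : Big L γ) (h : FP L κ P γ m G ℓ V) :
    IsRes L P γ (fun x => sym fun τ => specG L γ G x τ + fN κ (mm γ m) V x τ)
      (fun i => sym fun τ => spec γ (ℓ i) τ + fB L κ P (mm γ m) V i τ) V := by
  have := isRes_Phi hL κ P hγ (fptime0_rd_mm γ h.hm) (rd2_specG hL γ h.hG)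
    (fun i => rd_spec γ (h.hℓ i)) h.rd
  rwa [h.fix] at this

lemma FP.isRe (hL : 0 < L) (hγ : Big L γ) (h : FP L κ P γ m G ℓ V) (j : Fin 3) (x : ℝ) :
    IsRe (V j x) := by
  have hr := isRes_res hL hγ P
    ((rd2_specG hL γ h.hG).add (rd2_fN κ (fptime0_rd_mm γ h.hm) h.rd))
    (fun i => (rd_spec γ (h.hℓ i)).add (rd_fB L κ P (fptime0_rd_mm γ h.hm) h.rd i))
  have e : V j x = Phi L κ P γ (mm γ m) (specG L γ G) (fun i => spec γ (ℓ i)) V j x := by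
    rw [h.fix]
  rw [e]
  exact isRe_sym ((hr.rd j).at x).integrable

lemma fptime0_T_V (h : FP L κ P γ m G ℓ V) (j : Fin 3) (x t : ℝ) :
    fptime0_T (V j x) t (tl 0 (V j x) t) := ⟨(h.rd j).at x, rfl⟩

lemma fptime0_T_fcub (hL : 0 < L) (hγ : Big L γ) (h : FP L κ P γ m G ℓ V) (x t : ℝ) :
    fptime0_T (fcub V x) t (tl 0 (V 0 x) t * tl 0 (V 0 x) t * tl 0 (V 1 x) t) :=
  ((fptime0_T_V h 0 x t).cv (fptime0_T_V h 0 x t) (h.isRe hL hγ 0 x)).cv (fptime0_T_V h 1 x t)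
    (IsRe.cv ((h.rd 0).at x) ((h.rd 0).at x) (h.isRe hL hγ 0 x) (h.isRe hL hγ 0 x))

lemma fptime0_T_fN (hL : 0 < L) (hγ : Big L γ) (h : FP L κ P γ m G ℓ V) (x t : ℝ) :
    fptime0_T (fN κ (mm γ m) V x) t (6 * mu κ * (m t * tl 0 (V 1 x) t) +
      6 * (Real.exp (γ * t) ^ 2 * m t *
        (tl 0 (V 0 x) t * tl 0 (V 0 x) t * tl 0 (V 1 x) t))) := by
  have h1 := ((fptime0_T_mm0 γ h.hm t).cv (fptime0_T_V h 1 x t)
    (fptime0_isRe_mm γ h.hm 0)).smul (6 * mu κ)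
  have h2 := ((fptime0_T_mm2 γ h.hm t).cv (fptime0_T_fcub hL hγ h x t)
    (fptime0_isRe_mm γ h.hm 2)).smul 6
  refine (h1.add h2).congr (fun τ => ?_) rfl
  unfold fN
  push_cast
  ring

lemma fptime0_T_g (hL : 0 < L) (hγ : Big L γ) (h : FP L κ P γ m G ℓ V) {x : ℝ}
    (hx : x ∈ Icc 0 L) (t : ℝ) :
    fptime0_T (sym fun τ => specG L γ G x τ + fN κ (mm γ m) V x τ) t
      (Real.exp (-γ * t) * G x t + tl 0 (fN κ (mm γ m) V x) t) := by
  have h1 : fptime0_T (specG L γ G x) t (Real.exp (-γ * t) * G x t) := by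
    unfold specG
    rw [cl_of_mem hx]
    exact ⟨rd_spec γ (h.hG.at hx), tl_spec γ (h.hG.at hx) t⟩
  have h2 := fptime0_T_fN hL hγ h x t
  exact (h1.add ⟨h2.1, rfl⟩).sym

lemma fptime0_rd2_g (hL : 0 < L) (h : FP L κ P γ m G ℓ V) :
    RD2 fun x => sym fun τ => specG L γ G x τ + fN κ (mm γ m) V x τ :=
  ((rd2_specG hL γ h.hG).add (rd2_fN κ (fptime0_rd_mm γ h.hm) h.rd)).sym

lemma fptime0_dx2 (hL : 0 < L) (hγ : Big L γ) (h : FP L κ P γ m G ℓ V) (l : ℕ) (t : ℝ) {x : ℝ}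
    (hx : x ∈ Ioo 0 L) :
    HasDerivAt (fun y => tl l (V 2 y) t)
      (tl l (sym fun τ => specG L γ G x τ + fN κ (mm γ m) V x τ) t -
        (γ * tl l (V 0 x) t + tl (l + 1) (V 0 x) t)) x := by
  have hR := fptime0_isRes hL hγ h
  have hg := fptime0_rd2_g hL h
  have := tl_dx (h.rd 2) (hg.sub ((h.rd 0).sv_mul γ)) hR.d2 l t hx
  rwa [tl_sub (hg.at x) (((h.rd 0).at x).sv_mul γ), tl_sv_mul ((h.rd 0).at x)] at this

/-- The generators. -/
def fptime0_gen (L : ℝ) (V : Fin 3 → ℝ → ℝ → ℂ) : Set (ℝ × ℝ → ℝ) :=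
  {f | (∃ (l : ℕ) (j : Fin 3), f = fun p => tl l (V j p.1) p.2) ∨
    SmOn L univ fun x t => f (x, t)}

lemma fptime0_mem_tl (L : ℝ) (V : Fin 3 → ℝ → ℝ → ℂ) (l : ℕ) (j : Fin 3) :
    (fun p : ℝ × ℝ => tl l (V j p.1) p.2) ∈ Algebra.adjoin ℝ (fptime0_gen L V) :=
  Algebra.subset_adjoin (Or.inl ⟨l, j, rfl⟩)

lemma fptime0_mem_sm (V : Fin 3 → ℝ → ℝ → ℂ) {f : ℝ → ℝ → ℝ} (hf : SmOn L univ f) :
    (fun p : ℝ × ℝ => f p.1 p.2) ∈ Algebra.adjoin ℝ (fptime0_gen L V) :=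
  Algebra.subset_adjoin (Or.inr hf)

lemma fptime0_gen_dt (hL : 0 < L) (hV : ∀ j, RD2 (V j)) :
    ∀ f ∈ fptime0_gen L V, ∃ k ∈ Algebra.adjoin ℝ (fptime0_gen L V), ∀ x ∈ Ioo 0 L,
      ∀ t ∈ (univ : Set ℝ), HasDerivAt (fun τ => f (x, τ)) (k (x, t)) t := by
  rintro f (⟨l, j, rfl⟩ | hf)
  · exact ⟨_, fptime0_mem_tl L V (l + 1) j, fun x _ t _ => tl_hasDerivAt ((hV j).at x) l t⟩
  · refine ⟨_, fptime0_mem_sm V (hf.ptw hL uniqueDiffOn_univ), fun x hx t _ => ?_⟩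
    have := hf.hasDerivAt_t (Ioo_subset_Icc_self hx) (univ_mem (f := 𝓝 t))
    rwa [pt_eq_ptw _ x (univ_mem (f := 𝓝 t))] at this

lemma fptime0_smOn_exp (c : ℝ) : SmOn L univ fun _ t => Real.exp (c * t) :=
  smOn_of_t (Real.contDiff_exp.comp (contDiff_const.mul contDiff_id)).contDiffOn

lemma fptime0_g_mem (hL : 0 < L) (hγ : Big L γ) (h : FP L κ P γ m G ℓ V) (l : ℕ) :
    ∃ k ∈ Algebra.adjoin ℝ (fptime0_gen L V), ∀ x ∈ Ioo 0 L, ∀ t,
      k (x, t) = tl l (sym fun τ => specG L γ G x τ + fN κ (mm γ m) V x τ) t := by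
  induction l with
  | zero =>
    have hm : SmOn L univ fun _ t => m t := smOn_of_t h.hm.1.contDiffOn
    have a1 := fptime0_mem_sm V ((fptime0_smOn_exp (L := L) (-γ)).mul h.hG.1)
    have a2 := fptime0_mem_sm V (hm.const_mul (6 * mu κ))
    have a3 := fptime0_mem_sm V ((((fptime0_smOn_exp (L := L) γ).pow 2).mul hm).const_mul 6)
    have y0 := fptime0_mem_tl L V 0 0
    have y1 := fptime0_mem_tl L V 0 1
    refine ⟨_, add_mem a1 (add_mem (mul_mem a2 y1) (mul_mem a3 (mul_mem (mul_mem y0 y0) y1))),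
      fun x hx t => ?_⟩
    rw [(fptime0_T_g hL hγ h (Ioo_subset_Icc_self hx) t).2, (fptime0_T_fN hL hγ h x t).2]
    simp only [Pi.add_apply, Pi.mul_apply]
    ring
  | succ l ih =>
    obtain ⟨k, hk, e⟩ := ih
    obtain ⟨k', hk', e'⟩ := adjoin_dt (fptime0_gen_dt hL h.rd) k hk
    refine ⟨k', hk', fun x hx t => ?_⟩
    have h1 := e' x hx t (mem_univ t)
    have h2 : (fun τ => k (x, τ)) =
        tl l (sym fun τ => specG L γ G x τ + fN κ (mm γ m) V x τ) := funext (e x hx)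
    rw [h2] at h1
    exact h1.unique (tl_hasDerivAt ((fptime0_rd2_g hL h).at x) l t)

/-- Apply `smooth_of_gen` with `J = univ` and the generators `p ↦ tl l (V j p.1) p.2` and all
functions smooth on `[0, L] × ℝ`. The only relation that needs an argument is
`∂_x tl l (V 2) = F l - γ tl l (V 0) - tl (l+1) (V 0)`, `F l = tl l (sym (g + fN V))`: `F 0` agrees
on `(0, L) × ℝ` with the element `e^{-γ t} G + 6 μ m Y₁ + 6 e^{2 γ t} m Y₀² Y₁` of the algebra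
(`tl_cv`, `tl_spec`), and `F (l+1) = ∂_t F l`, so `adjoin_dt` and induction apply. -/
theorem FP.smooth (hL : 0 < L) (hγ : Big L γ) (h : FP L κ P γ m G ℓ V) (j : Fin 3) :
    SmOn L univ fun x t => tl 0 (V j x) t := by
  have hR := fptime0_isRes hL hγ h
  have key := smooth_of_gen (𝒢 := fptime0_gen L V) hL isOpen_univ convex_univ univ_nonempty
    ?_ ?_ (fptime0_gen_dt hL h.rd) _ (Or.inl ⟨0, j, rfl⟩)
  · rw [closure_univ] at key
    exact key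
  · rw [closure_univ]
    rintro f (⟨l, j, rfl⟩ | hf)
    · exact (tl_continuous2 (h.rd j) l).continuousOn
    · exact hf.ctOn
  · rintro f (⟨l, j, rfl⟩ | hf)
    · fin_cases j
      · exact ⟨_, fptime0_mem_tl L V l 1, fun x hx t _ =>
          tl_dx (h.rd 0) (h.rd 1) hR.d0 l t hx⟩
      · exact ⟨_, fptime0_mem_tl L V l 2, fun x hx t _ =>
          tl_dx (h.rd 1) (h.rd 2) hR.d1 l t hx⟩
      · obtain ⟨k, hk, e⟩ := fptime0_g_mem hL hγ h l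
        refine ⟨_, sub_mem hk (add_mem (Subalgebra.smul_mem _ (fptime0_mem_tl L V l 0) γ)
          (fptime0_mem_tl L V (l + 1) 0)), fun x hx t _ => ?_⟩
        have := fptime0_dx2 hL hγ h l t hx
        rw [← e x hx t] at this
        exact this
    · exact ⟨_, fptime0_mem_sm V (hf.px hL uniqueDiffOn_univ), fun x hx t ht =>
        hf.hasDerivAt_x hx ht⟩

lemma fptime0_cont (h : FP L κ P γ m G ℓ V) (j : Fin 3) (l : ℕ) (t : ℝ) :
    Continuous fun y => tl l (V j y) t :=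
  (tl_continuous2 (h.rd j) l).comp (continuous_id.prodMk continuous_const)

lemma fptime0_px0 (hL : 0 < L) (hγ : Big L γ) (h : FP L κ P γ m G ℓ V) {x : ℝ}
    (hx : x ∈ Icc 0 L) (t : ℝ) : px L (fun y t => tl 0 (V 0 y) t) x t = tl 0 (V 1 x) t := by
  rw [px_eq_dI]
  exact dI_eq hL hx (hasDerivWithinAt_Icc_of_Ioo (fptime0_cont h 0 0 t).continuousOn
    (fptime0_cont h 1 0 t).continuousOn
    (fun y hy => tl_dx (h.rd 0) (h.rd 1) (fptime0_isRes hL hγ h).d0 0 t hy) hx)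

lemma fptime0_px1 (hL : 0 < L) (hγ : Big L γ) (h : FP L κ P γ m G ℓ V) {x : ℝ}
    (hx : x ∈ Icc 0 L) (t : ℝ) : px L (fun y t => tl 0 (V 1 y) t) x t = tl 0 (V 2 x) t := by
  rw [px_eq_dI]
  exact dI_eq hL hx (hasDerivWithinAt_Icc_of_Ioo (fptime0_cont h 1 0 t).continuousOn
    (fptime0_cont h 2 0 t).continuousOn
    (fun y hy => tl_dx (h.rd 1) (h.rd 2) (fptime0_isRes hL hγ h).d1 0 t hy) hx)

lemma fptime0_z1 (hL : 0 < L) (hγ : Big L γ) (h : FP L κ P γ m G ℓ V) {x : ℝ}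
    (hx : x ∈ Icc 0 L) (t : ℝ) :
    px L (zOf γ V) x t = Real.exp (γ * t) * tl 0 (V 1 x) t := by
  have e := px_time_mul (L := L) (fun t => Real.exp (γ * t)) fun y t => tl 0 (V 0 y) t
  have e' : px L (zOf γ V) x t = _ := congrFun (congrFun e x) t
  rw [e', fptime0_px0 hL hγ h hx]

lemma fptime0_z2 (hL : 0 < L) (hγ : Big L γ) (h : FP L κ P γ m G ℓ V) {x : ℝ}
    (hx : x ∈ Icc 0 L) (t : ℝ) :
    px L (px L (zOf γ V)) x t = Real.exp (γ * t) * tl 0 (V 2 x) t := by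
  have e := px_time_mul (L := L) (fun t => Real.exp (γ * t)) fun y t => tl 0 (V 1 y) t
  have e' := congrFun (congrFun e x) t
  rw [px_congr (g := fun y t => Real.exp (γ * t) * tl 0 (V 1 y) t) (t' := t)
    (fun y hy => fptime0_z1 hL hγ h hy t) hx, e', fptime0_px1 hL hγ h hx]

lemma fptime0_z3 (hL : 0 < L) (hγ : Big L γ) (h : FP L κ P γ m G ℓ V) {x : ℝ}
    (hx : x ∈ Ioo 0 L) (t : ℝ) :
    px L (px L (px L (zOf γ V))) x t = Real.exp (γ * t) *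
      (Real.exp (-γ * t) * G x t + tl 0 (fN κ (mm γ m) V x) t -
        (γ * tl 0 (V 0 x) t + tl 1 (V 0 x) t)) := by
  have hx' := Ioo_subset_Icc_self hx
  have e := px_time_mul (L := L) (fun t => Real.exp (γ * t)) fun y t => tl 0 (V 2 y) t
  have e' := congrFun (congrFun e x) t
  have e2 : px L (fun y t => tl 0 (V 2 y) t) x t = _ :=
    dI_eq hL hx' (fptime0_dx2 hL hγ h 0 t hx).hasDerivWithinAt
  rw [px_congr (g := fun y t => Real.exp (γ * t) * tl 0 (V 2 y) t) (t' := t)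
    (fun y hy => fptime0_z2 hL hγ h hy t) hx', e', e2, (fptime0_T_g hL hγ h hx' t).2]

lemma fptime0_zt (h : FP L κ P γ m G ℓ V) (x t : ℝ) :
    pt (zOf γ V) x t = Real.exp (γ * t) * (γ * tl 0 (V 0 x) t + tl 1 (V 0 x) t) := by
  have h1 : HasDerivAt (fun τ => Real.exp (γ * τ)) (Real.exp (γ * t) * γ) t := by
    have := ((hasDerivAt_id t).const_mul γ).exp
    simpa using this
  have h2 := h1.mul (tl_hasDerivAt ((h.rd 0).at x) 0 t)
  have h3 : pt (zOf γ V) x t = _ := h2.deriv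
  rw [h3]
  ring

lemma fptime0_exp (γ t : ℝ) : Real.exp (-γ * t) * Real.exp (γ * t) = 1 := by
  rw [← Real.exp_add]
  simp

lemma fptime0_fN (hL : 0 < L) (hγ : Big L γ) (h : FP L κ P γ m G ℓ V) {x : ℝ}
    (hx : x ∈ Icc 0 L) (t : ℝ) :
    tl 0 (fN κ (mm γ m) V x) t = Real.exp (-γ * t) * (m t * nN L κ (zOf γ V) x t) := by
  rw [(fptime0_T_fN hL hγ h x t).2]
  unfold nN
  rw [fptime0_z1 hL hγ h hx]
  unfold zOf
  have e := fptime0_exp γ t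
  linear_combination (-(6 * mu κ * (m t * tl 0 (V 1 x) t) +
    6 * (Real.exp (γ * t) ^ 2 * m t * (tl 0 (V 0 x) t * tl 0 (V 0 x) t * tl 0 (V 1 x) t)))) * e

lemma fptime0_T_vtr (hL : 0 < L) (hγ : Big L γ) (h : FP L κ P γ m G ℓ V) (j : ℕ) {x : ℝ}
    (hx : x ∈ Icc 0 L) (t : ℝ) :
    Real.exp (γ * t) * tl 0 (vtr γ V j x) t = ztr L (zOf γ V) j x t := by
  unfold ztr
  by_cases h0 : j = 0
  · have : vtr γ V j x = V 1 x := funext fun τ => by simp only [vtr, if_pos h0]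
    rw [this, if_pos h0, fptime0_z1 hL hγ h hx]
  by_cases h1 : j = 1
  · have : vtr γ V j x = V 2 x := funext fun τ => by simp only [vtr, if_neg h0, if_pos h1]
    rw [this, if_neg h0, if_pos h1, fptime0_z2 hL hγ h hx]
  · have : vtr γ V j x = fun τ => ((-1 : ℝ) : ℂ) * (sv γ τ * V 0 x τ) := funext fun τ => by
      simp only [vtr, if_neg h0, if_neg h1]
      push_cast
      ring
    rw [this, if_neg h0, if_neg h1, fptime0_zt h, tl_real_mul, tl_sv_mul ((h.rd 0).at x)]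
    ring

lemma fptime0_T_fL (hL : 0 < L) (hγ : Big L γ) (h : FP L κ P γ m G ℓ V) (i : Fin 3) (t : ℝ) :
    fptime0_T (fL L κ P V i) t (Real.exp (-γ * t) * tL L κ P (zOf γ V) i t) := by
  have h0 : (0 : ℝ) ∈ Icc 0 L := left_mem_Icc.2 hL.le
  have h1 : L ∈ Icc 0 L := right_mem_Icc.2 hL.le
  have h2 := ept_mem hL.le i
  have a := ((((fptime0_T_V h 1 0 t).smul (-P.α i)).sub ((fptime0_T_V h 1 L t).smul (P.β i))).sub
    ((fptime0_T_V h 2 0 t).smul (P.ζ i))).sub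
    ((fptime0_T_V h 1 (ept L i) t).smul (P.dyn i * (6 * mu κ)))
  refine a.congr (fun τ => ?_) ?_
  · unfold fL
    push_cast
    ring
  · unfold tL
    rw [fptime0_z1 hL hγ h h0, fptime0_z1 hL hγ h h1, fptime0_z1 hL hγ h h2,
      fptime0_z2 hL hγ h h0]
    have e := fptime0_exp γ t
    linear_combination (-P.α i * tl 0 (V 1 0) t - P.β i * tl 0 (V 1 L) t -
      P.ζ i * tl 0 (V 2 0) t - P.dyn i * (6 * mu κ) * tl 0 (V 1 (ept L i)) t) * e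

lemma fptime0_T_fE (hL : 0 < L) (hγ : Big L γ) (h : FP L κ P γ m G ℓ V) (j : ℕ) {x : ℝ}
    (hx : x ∈ Icc 0 L) (t : ℝ) :
    fptime0_T (fE V j x) t (Real.exp (-γ * t) ^ 2 * tE L (zOf γ V) j x t) := by
  have e := fptime0_exp γ t
  have c00 := (fptime0_T_V h 0 x t).cv (fptime0_T_V h 0 x t) (h.isRe hL hγ 0 x)
  have c01 := (fptime0_T_V h 0 x t).cv (fptime0_T_V h 1 x t) (h.isRe hL hγ 0 x)
  have c02 := (fptime0_T_V h 0 x t).cv (fptime0_T_V h 2 x t) (h.isRe hL hγ 0 x)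
  have c11 := (fptime0_T_V h 1 x t).cv (fptime0_T_V h 1 x t) (h.isRe hL hγ 1 x)
  unfold tE
  rw [fptime0_z1 hL hγ h hx, fptime0_z2 hL hγ h hx]
  unfold zOf
  by_cases h0 : j = 0
  · refine c00.congr (fun τ => by simp only [fE, if_pos h0]) ?_
    rw [if_pos h0]
    linear_combination (tl 0 (V 0 x) t * tl 0 (V 0 x) t *
      (Real.exp (-γ * t) * Real.exp (γ * t) + 1)) * e
  by_cases h1 : j = 1
  · refine (c01.smul 2).congr (fun τ => by simp [fE, h1]) ?_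
    rw [if_neg h0, if_pos h1]
    linear_combination (2 * (tl 0 (V 0 x) t * tl 0 (V 1 x) t) *
      (Real.exp (-γ * t) * Real.exp (γ * t) + 1)) * e
  · refine ((c11.smul 2).add (c02.smul 2)).congr (fun τ => by simp [fE, h0, h1]) ?_
    rw [if_neg h0, if_neg h1]
    linear_combination ((2 * (tl 0 (V 1 x) t * tl 0 (V 1 x) t) +
      2 * (tl 0 (V 0 x) t * tl 0 (V 2 x) t)) * (Real.exp (-γ * t) * Real.exp (γ * t) + 1)) * e

lemma fptime0_T_fQ (hL : 0 < L) (hγ : Big L γ) (h : FP L κ P γ m G ℓ V) (i : Fin 3) (t : ℝ) :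
    fptime0_T (fQ L P V i) t (Real.exp (-γ * t) ^ 2 * tQ L P (zOf γ V) i t) := by
  have h0 : (0 : ℝ) ∈ Icc 0 L := left_mem_Icc.2 hL.le
  have h2 := ept_mem hL.le i
  have e := fptime0_exp γ t
  have c0 := (fptime0_T_V h 0 0 t).cv (fptime0_T_V h 0 0 t) (h.isRe hL hγ 0 0)
  have cL := (fptime0_T_V h 0 L t).cv (fptime0_T_V h 0 L t) (h.isRe hL hγ 0 L)
  have c01 := (fptime0_T_V h 0 0 t).cv (fptime0_T_V h 1 0 t) (h.isRe hL hγ 0 0)
  have a := (((c0.smul (-P.α i)).sub (cL.smul (P.β i))).sub (c01.smul (P.ζ i * 2))).sub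
    (fptime0_T_fE hL hγ h (P.j i) h2 t)
  refine a.congr (fun τ => ?_) ?_
  · unfold fQ
    push_cast
    ring
  · unfold tQ
    rw [fptime0_z1 hL hγ h h0]
    unfold zOf
    linear_combination ((-P.α i * (tl 0 (V 0 0) t * tl 0 (V 0 0) t) -
      P.β i * (tl 0 (V 0 L) t * tl 0 (V 0 L) t) -
      P.ζ i * 2 * (tl 0 (V 0 0) t * tl 0 (V 1 0) t)) *
        (Real.exp (-γ * t) * Real.exp (γ * t) + 1)) * e

lemma fptime0_T_fC (hL : 0 < L) (hγ : Big L γ) (h : FP L κ P γ m G ℓ V) (i : Fin 3) (t : ℝ) :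
    fptime0_T (fC L P V i) t (Real.exp (-γ * t) ^ 3 * tC L P (zOf γ V) i t) := by
  have h2 := ept_mem hL.le i
  have e := fptime0_exp γ t
  refine ((fptime0_T_fcub hL hγ h (ept L i) t).smul (-P.dyn i * 6)).congr (fun τ => ?_) ?_
  · unfold fC
    push_cast
    ring
  · unfold tC
    rw [fptime0_z1 hL hγ h h2]
    unfold zOf
    linear_combination (-P.dyn i * 6 *
      (tl 0 (V 0 (ept L i)) t * tl 0 (V 0 (ept L i)) t * tl 0 (V 1 (ept L i)) t) *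
        ((Real.exp (-γ * t) * Real.exp (γ * t)) ^ 2 +
          Real.exp (-γ * t) * Real.exp (γ * t) + 1)) * e

lemma fptime0_T_fB (hL : 0 < L) (hγ : Big L γ) (h : FP L κ P γ m G ℓ V) (i : Fin 3) (t : ℝ) :
    fptime0_T (fB L κ P (mm γ m) V i) t
      (Real.exp (-γ * t) * (m t * nlb L κ P (zOf γ V) i t)) := by
  have e := fptime0_exp γ t
  have a0 := (fptime0_T_mm0 γ h.hm t).cv (fptime0_T_fL hL hγ h i t) (fptime0_isRe_mm γ h.hm 0)
  have a1 := (fptime0_T_mm1 γ h.hm t).cv (fptime0_T_fQ hL hγ h i t) (fptime0_isRe_mm γ h.hm 1)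
  have a2 := (fptime0_T_mm2 γ h.hm t).cv (fptime0_T_fC hL hγ h i t) (fptime0_isRe_mm γ h.hm 2)
  refine ((a0.add a1).add a2).congr (fun τ => rfl) ?_
  unfold nlb
  linear_combination (-(Real.exp (-γ * t) * m t * tQ L P (zOf γ V) i t) -
    Real.exp (-γ * t) * m t * tC L P (zOf γ V) i t *
      (Real.exp (-γ * t) * Real.exp (γ * t) + 1)) * e

theorem FP.time (hL : 0 < L) (hγ : Big L γ) (h : FP L κ P γ m G ℓ V) :
    SmOn L univ (zOf γ V) ∧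
    (∀ x ∈ Icc 0 L, ∀ t, px L (zOf γ V) x t = Real.exp (γ * t) * tl 0 (V 1 x) t) ∧
    (∀ x ∈ Icc 0 L, ∀ t, px L (px L (zOf γ V)) x t = Real.exp (γ * t) * tl 0 (V 2 x) t) ∧
    (∀ x ∈ Icc 0 L, ∀ t,
      tl 0 (fN κ (mm γ m) V x) t = Real.exp (-γ * t) * (m t * nN L κ (zOf γ V) x t)) ∧
    (∀ x ∈ Ioo 0 L, ∀ t, pt (zOf γ V) x t + px L (px L (px L (zOf γ V))) x t =
      m t * nN L κ (zOf γ V) x t + G x t) ∧
    ∀ i t, ztr L (zOf γ V) (P.j i) (ept L i) t = ℓ i t + m t * nlb L κ P (zOf γ V) i t := by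
  refine ⟨(fptime0_smOn_exp γ).mul (h.smooth hL hγ 0), fun x hx t => fptime0_z1 hL hγ h hx t,
    fun x hx t => fptime0_z2 hL hγ h hx t, fun x hx t => fptime0_fN hL hγ h hx t,
    fun x hx t => ?_, fun i t => ?_⟩
  · rw [fptime0_z3 hL hγ h hx, fptime0_zt h, fptime0_fN hL hγ h (Ioo_subset_Icc_self hx)]
    have e := fptime0_exp γ t
    linear_combination (G x t + m t * nN L κ (zOf γ V) x t) * e
  · have hb : vtr γ V (P.j i) (ept L i) =
        sym fun τ => spec γ (ℓ i) τ + fB L κ P (mm γ m) V i τ :=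
      funext ((fptime0_isRes hL hγ h).bc i)
    have h1 : fptime0_T (spec γ (ℓ i)) t (Real.exp (-γ * t) * ℓ i t) :=
      ⟨rd_spec γ (h.hℓ i), tl_spec γ (h.hℓ i) t⟩
    rw [← fptime0_T_vtr hL hγ h _ (ept_mem hL.le i), hb,
      (h1.add (fptime0_T_fB hL hγ h i t)).sym.2]
    have e := fptime0_exp γ t
    linear_combination (ℓ i t + m t * nlb L κ P (zOf γ V) i t) * e

theorem FP.fsol (hL : 0 < L) (hγ : Big L γ) (h : FP L κ P γ m G ℓ V) {t₀ t₁ : ℝ}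
    (hm : ∀ t ∈ Ioo t₀ t₁, m t = 1) : FSol L κ P t₀ t₁ G ℓ (zOf γ V) := by
  obtain ⟨h1, -, -, -, h5, h6⟩ := h.time hL hγ
  refine ⟨h1.mono (subset_univ _), fun x hx t ht => ?_, fun i t ht => ?_⟩
  · rw [h5 x hx t, hm t ht, one_mul]
  · rw [h6 i t, hm t ht, one_mul]

end Pool.Agent.Lib.MP_14aec4_an.W
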