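import Pool.Agent.Lib.MP_14aec4_an.FB
import Pool.Agent.Lib.MP_14aec4_an.Calc

/-!
The windowed Sobolev norms.
-/

noncomputable section

open MeasureTheory Set Filter Topology FourierTransform
open scoped ENNReal ComplexConjugate

namespace Pool.Agent.Lib.MP_14aec4_an.W

variable {σ : ℝ} {W : Set ℝ} {f g h : SchwartzMap ℝ ℂ → ℂ}

/-- The distribution whose Bessel potential of order `σ` is the given `L²` function. -/
def hnL (σ : ℝ) : Lp ℂ 2 (volume : Measure ℝ) →L[ℂ] TemperedDistribution ℝ ℂ :=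
  (TemperedDistribution.besselPotential ℝ ℂ (-σ)) ∘L (Lp.toTemperedDistributionCLM ℂ volume 2)

lemma hn_apply (σ : ℝ) (u : Lp ℂ 2 (volume : Measure ℝ)) :
    hnL σ u = TemperedDistribution.besselPotential ℝ ℂ (-σ) (Lp.toTemperedDistribution u) := rfl

lemma hn_eq (σ : ℝ) (W : Set ℝ) (f : SchwartzMap ℝ ℂ → ℂ) :
    hNorm σ W f = ⨅ (u : Lp ℂ 2 (volume : Measure ℝ))
      (_ : ∀ ψ : SchwartzMap ℝ ℂ, tsupport ψ ⊆ W → hnL σ u ψ = f ψ), ‖u‖ₑ := by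
  unfold hNorm
  apply le_antisymm
  · refine le_iInf₂ fun u hu => ?_
    refine iInf_le_of_le (hnL σ u) (iInf_le_of_le u (iInf_le_of_le ?_ (iInf_le_of_le hu le_rfl)))
    rw [← TemperedDistribution.besselPotential_neg_apply_eq_iff, hn_apply]
  · refine le_iInf fun F => le_iInf fun u => le_iInf fun hF => le_iInf fun hW => ?_
    have h1 : hnL σ u = F := by
      rw [hn_apply, TemperedDistribution.besselPotential_neg_apply_eq_iff]; exact hF
    exact iInf₂_le u (by rw [h1]; exact hW)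

lemma hn_le {u : Lp ℂ 2 (volume : Measure ℝ)}
    (hu : ∀ ψ : SchwartzMap ℝ ℂ, tsupport ψ ⊆ W → hnL σ u ψ = f ψ) : hNorm σ W f ≤ ‖u‖ₑ := by
  rw [hn_eq]
  exact iInf₂_le u hu

lemma hn_lt {c : ℝ≥0∞} (h : hNorm σ W f < c) : ∃ u : Lp ℂ 2 (volume : Measure ℝ),
    (∀ ψ : SchwartzMap ℝ ℂ, tsupport ψ ⊆ W → hnL σ u ψ = f ψ) ∧ ‖u‖ₑ < c := by
  rw [hn_eq] at h
  simp only [iInf_lt_iff] at h
  obtain ⟨u, hu, hc⟩ := h
  exact ⟨u, hu, hc⟩

/-- The Bessel weight. -/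
def hnW (σ ξ : ℝ) : ℂ := (((1 + ξ ^ 2) ^ (σ / 2) : ℝ) : ℂ)

lemma hn_w_eq (σ : ℝ) :
    (fun x : ℝ => (((1 + ‖x‖ ^ 2) ^ (σ / 2) : ℝ) : ℂ)) = hnW σ := by
  funext x
  rw [hnW, Real.norm_eq_abs, sq_abs]

lemma hn_w_temperate (σ : ℝ) : (hnW σ).HasTemperateGrowth := by
  rw [← hn_w_eq]
  fun_prop

lemma hn_w_continuous (σ : ℝ) : Continuous (hnW σ) := (hn_w_temperate σ).1.continuous

lemma hn_w_mul (σ ξ : ℝ) : hnW σ ξ * hnW (-σ) ξ = 1 := by
  unfold hnW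
  rw [← Complex.ofReal_mul, ← Real.rpow_add (by positivity)]
  have : σ / 2 + -σ / 2 = 0 := by ring
  rw [this, Real.rpow_zero, Complex.ofReal_one]

lemma hn_w_neg (σ ξ : ℝ) : hnW σ (-ξ) = hnW σ ξ := by
  unfold hnW
  rw [neg_sq]

lemma hn_jn (σ : ℝ) (G : ℝ → ℂ) : jn σ G = eLpNorm (fun ξ => hnW σ ξ * G ξ) 2 volume := rfl

lemma hn_eval (σ : ℝ) (K : Lp ℂ 2 (volume : Measure ℝ)) (ψ : SchwartzMap ℝ ℂ) :
    hnL σ (𝓕⁻ K : Lp ℂ 2 (volume : Measure ℝ)) ψ =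
      ∫ ξ, hnW (-σ) ξ * K ξ * 𝓕⁻ (ψ : ℝ → ℂ) ξ := by
  rw [hn_apply, TemperedDistribution.besselPotential,
    TemperedDistribution.fourierMultiplierCLM_apply_apply,
    ← Lp.fourierInv_toTemperedDistribution_eq, TemperedDistribution.fourierInv_apply,
    fourierInv_fourier_eq, Lp.toTemperedDistribution_apply, hn_w_eq]
  refine integral_congr_ae (Eventually.of_forall fun ξ => ?_)
  simp only []
  rw [SchwartzMap.smulLeftCLM_apply_apply (hn_w_temperate _), SchwartzMap.fourierInv_coe,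
    smul_eq_mul, smul_eq_mul]
  ring

lemma hn_enorm_fourierInv (K : Lp ℂ 2 (volume : Measure ℝ)) :
    ‖(𝓕⁻ K : Lp ℂ 2 (volume : Measure ℝ))‖ₑ = ‖K‖ₑ := by
  have := Lp.norm_fourier_eq (𝓕⁻ K : Lp ℂ 2 (volume : Measure ℝ))
  rw [fourier_fourierInv_eq] at this
  rw [← ofReal_norm, ← ofReal_norm, this]

lemma hNorm_congr (e : ∀ ψ : SchwartzMap ℝ ℂ, tsupport ψ ⊆ W → f ψ = g ψ) :
    hNorm σ W f = hNorm σ W g := by
  rw [hn_eq, hn_eq]
  refine iInf_congr fun u => iInf_congr_Prop ?_ fun _ => rfl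
  exact forall₂_congr fun ψ hψ => by rw [e ψ hψ]

lemma hNorm_mono {W' : Set ℝ} (hW : W ⊆ W') (f : SchwartzMap ℝ ℂ → ℂ) :
    hNorm σ W f ≤ hNorm σ W' f := by
  rw [hn_eq σ W']
  exact le_iInf₂ fun u hu => hn_le fun ψ hψ => hu ψ (hψ.trans hW)

lemma hNorm_add_le (f g : SchwartzMap ℝ ℂ → ℂ) : hNorm σ W (f + g) ≤ hNorm σ W f + hNorm σ W g := by
  rw [hn_eq σ W f, hn_eq σ W g]
  refine ENNReal.le_iInf₂_add_iInf₂ fun u hu v hv => ?_
  refine le_trans (hn_le (u := u + v) fun ψ hψ => ?_) (enorm_add_le u v)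
  rw [map_add, Pi.add_apply, ← hu ψ hψ, ← hv ψ hψ]
  rfl

lemma hNorm_neg (f : SchwartzMap ℝ ℂ → ℂ) : hNorm σ W (-f) = hNorm σ W f := by
  have key : ∀ f : SchwartzMap ℝ ℂ → ℂ, hNorm σ W (-f) ≤ hNorm σ W f := by
    intro f
    rw [hn_eq σ W f]
    refine le_iInf₂ fun u hu => ?_
    refine le_trans (hn_le (u := -u) fun ψ hψ => ?_) (enorm_neg u).le
    rw [map_neg, Pi.neg_apply, ← hu ψ hψ]
    rfl
  refine le_antisymm (key f) ?_
  simpa using key (-f)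

lemma hNorm_sub_comm (f g : SchwartzMap ℝ ℂ → ℂ) : hNorm σ W (f - g) = hNorm σ W (g - f) := by
  rw [← hNorm_neg, neg_sub]

lemma hNorm_sub_le (f g h : SchwartzMap ℝ ℂ → ℂ) :
    hNorm σ W (f - h) ≤ hNorm σ W (f - g) + hNorm σ W (g - h) := by
  have := hNorm_add_le (σ := σ) (W := W) (f - g) (g - h)
  rwa [sub_add_sub_cancel] at this

lemma hNorm_real_mul (c : ℝ) (f : SchwartzMap ℝ ℂ → ℂ) :
    hNorm σ W (fun ψ => (c : ℂ) * f ψ) ≤ ENNReal.ofReal |c| * hNorm σ W f := by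
  rcases eq_or_ne c 0 with rfl | hc
  · rw [hNorm_eq_zero σ W _ fun ψ _ => by simp]
    exact bot_le
  have h0 : ENNReal.ofReal |c| ≠ 0 := by simpa using hc
  rw [hn_eq σ W f, ENNReal.mul_iInf_of_ne h0 ENNReal.ofReal_ne_top]
  refine le_iInf fun u => ?_
  rw [ENNReal.mul_iInf_of_ne h0 ENNReal.ofReal_ne_top]
  refine le_iInf fun hu => ?_
  refine le_trans (hn_le (u := (c : ℂ) • u) fun ψ hψ => ?_) (le_of_eq ?_)
  · rw [map_smul, ← hu ψ hψ]
    rfl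
  · rw [enorm_smul, ← ofReal_norm, Complex.norm_real, Real.norm_eq_abs]

theorem hNorm_le_jn {G : ℝ → ℂ} (hG : AEStronglyMeasurable G volume) (h : Rep W f G) :
    hNorm σ W f ≤ jn σ G := by
  rcases eq_or_ne (jn σ G) ⊤ with ht | ht
  · rw [ht]; exact le_top
  have hm : MemLp (fun ξ => hnW σ ξ * G ξ) 2 volume :=
    ⟨(hn_w_continuous σ).aestronglyMeasurable.mul hG, lt_top_iff_ne_top.mpr ht⟩
  refine le_trans (hn_le (u := (𝓕⁻ (hm.toLp _) : Lp ℂ 2 (volume : Measure ℝ))) fun ψ hψ => ?_)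
    (le_of_eq ?_)
  · rw [hn_eval, h ψ hψ]
    refine integral_congr_ae ?_
    filter_upwards [hm.coeFn_toLp] with ξ hξ
    rw [hξ, ← mul_assoc, mul_comm (hnW (-σ) ξ), hn_w_mul, one_mul]
  · rw [hn_enorm_fourierInv, Lp.enorm_toLp, hn_jn]

theorem exists_rep {c : ℝ≥0∞} (h : hNorm σ W f < c) :
    ∃ G : ℝ → ℂ, Measurable G ∧ Rep W f G ∧ jn σ G < c := by
  obtain ⟨u, hu, hc⟩ := hn_lt h
  set K : Lp ℂ 2 (volume : Measure ℝ) := 𝓕 u with hK
  have huK : u = 𝓕⁻ K := by rw [hK, fourierInv_fourier_eq]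
  refine ⟨fun ξ => hnW (-σ) ξ * K ξ,
    (hn_w_continuous _).measurable.mul (Lp.stronglyMeasurable K).measurable, fun ψ hψ => ?_, ?_⟩
  · rw [← hu ψ hψ, huK, hn_eval]
  · rw [huK, hn_enorm_fourierInv, Lp.enorm_def] at hc
    rw [hn_jn]
    have : (fun ξ => hnW σ ξ * (hnW (-σ) ξ * K ξ)) = K := by
      funext ξ
      rw [← mul_assoc, hn_w_mul, one_mul]
    rwa [this]

lemma integrable_mul_fourierInv {G : ℝ → ℂ} (hG : AEStronglyMeasurable G volume)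
    (h : jn σ G < ⊤) (ψ : SchwartzMap ℝ ℂ) : Integrable fun ξ => G ξ * 𝓕⁻ (ψ : ℝ → ℂ) ξ := by
  have hm : MemLp (fun ξ => hnW σ ξ * G ξ) 2 volume :=
    ⟨(hn_w_continuous σ).aestronglyMeasurable.mul hG, h⟩
  have h2 : MemLp (SchwartzMap.smulLeftCLM ℂ (hnW (-σ)) (𝓕⁻ ψ)) 2 volume :=
    SchwartzMap.memLp _ 2 volume
  refine (hm.integrable_mul h2).congr (Eventually.of_forall fun ξ => ?_)
  simp only [Pi.mul_apply]
  rw [SchwartzMap.smulLeftCLM_apply_apply (hn_w_temperate _), SchwartzMap.fourierInv_coe,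
    smul_eq_mul]
  linear_combination (G ξ * 𝓕⁻ (ψ : ℝ → ℂ) ξ) * hn_w_mul σ ξ

lemma hn_fourierInv_neg {ψ : ℝ → ℂ} (hψ : ∀ x, (ψ x).im = 0) (ξ : ℝ) :
    𝓕⁻ ψ (-ξ) = conj (𝓕⁻ ψ ξ) := by
  rw [Real.fourierInv_eq', Real.fourierInv_eq', ← integral_conj]
  refine integral_congr_ae (Eventually.of_forall fun v => ?_)
  simp only [smul_eq_mul, map_mul]
  rw [Complex.conj_eq_iff_im.mpr (hψ v), ← Complex.exp_conj, map_mul, Complex.conj_ofReal,
    Complex.conj_I, inner_neg_right]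
  congr 2
  push_cast
  ring

lemma hn_jn_flip {G : ℝ → ℂ} (hG : Measurable G) :
    jn σ (fun ξ => conj (G (-ξ))) = jn σ G := by
  have hm : AEStronglyMeasurable (fun ξ => hnW σ ξ * G ξ) volume :=
    (hn_w_continuous σ).aestronglyMeasurable.mul hG.aestronglyMeasurable
  rw [hn_jn, hn_jn, ← eLpNorm_comp_measurePreserving hm (Measure.measurePreserving_neg volume)]
  refine eLpNorm_congr_norm_ae (Eventually.of_forall fun ξ => ?_)
  simp only [Function.comp_apply, norm_mul, hn_w_neg, RCLike.norm_conj]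

lemma hn_jn_sym {G : ℝ → ℂ} (hG : Measurable G) : jn σ (sym G) ≤ jn σ G := by
  have hG' : Measurable fun ξ => conj (G (-ξ)) :=
    Complex.continuous_conj.measurable.comp (hG.comp measurable_neg)
  have h1 : (fun ξ => hnW σ ξ * sym G ξ) = ((1 / 2 : ℂ)) •
      ((fun ξ => hnW σ ξ * G ξ) + fun ξ => hnW σ ξ * conj (G (-ξ))) := by
    funext ξ
    simp only [sym, Pi.smul_apply, Pi.add_apply, smul_eq_mul]
    ring
  have h2 := eLpNorm_add_le (p := 2) (μ := volume)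
    ((hn_w_continuous σ).aestronglyMeasurable.mul hG.aestronglyMeasurable)
    ((hn_w_continuous σ).aestronglyMeasurable.mul hG'.aestronglyMeasurable) (by norm_num)
  have h3 := hn_jn_flip (σ := σ) hG
  rw [hn_jn, hn_jn] at h3
  rw [hn_jn, hn_jn, h1, eLpNorm_const_smul]
  have h4 : ‖(1 / 2 : ℂ)‖ₑ = 2⁻¹ := by
    rw [← ofReal_norm]
    simp
  rw [h4]
  calc _ ≤ (2 : ℝ≥0∞)⁻¹ * (eLpNorm (fun ξ => hnW σ ξ * G ξ) 2 volume +
        eLpNorm (fun ξ => hnW σ ξ * conj (G (-ξ))) 2 volume) := by gcongr; exact h2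
    _ = _ := by
      rw [h3, ← two_mul, ← mul_assoc, ENNReal.inv_mul_cancel (by norm_num) (by norm_num), one_mul]

/-- Real part of a test function. -/
def hnRe (ψ : SchwartzMap ℝ ℂ) : SchwartzMap ℝ ℂ :=
  SchwartzMap.postcompCLM (Complex.ofRealCLM ∘L Complex.reCLM) ψ

/-- Imaginary part of a test function. -/
def hnIm (ψ : SchwartzMap ℝ ℂ) : SchwartzMap ℝ ℂ :=
  SchwartzMap.postcompCLM (Complex.ofRealCLM ∘L Complex.imCLM) ψ

lemma hn_re_apply (ψ : SchwartzMap ℝ ℂ) (x : ℝ) : hnRe ψ x = ((ψ x).re : ℂ) := rfl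

lemma hn_im_apply (ψ : SchwartzMap ℝ ℂ) (x : ℝ) : hnIm ψ x = ((ψ x).im : ℂ) := rfl

lemma hn_re_add_im (ψ : SchwartzMap ℝ ℂ) : ψ = hnRe ψ + Complex.I • hnIm ψ := by
  ext x
  rw [add_apply, smul_apply, hn_re_apply, hn_im_apply, smul_eq_mul,
    mul_comm, Complex.re_add_im]

lemma hn_tsupport_re (ψ : SchwartzMap ℝ ℂ) : tsupport (hnRe ψ) ⊆ tsupport ψ := by
  refine closure_mono fun x hx h0 => hx ?_
  rw [hn_re_apply, h0]
  simp

lemma hn_tsupport_im (ψ : SchwartzMap ℝ ℂ) : tsupport (hnIm ψ) ⊆ tsupport ψ := by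
  refine closure_mono fun x hx h0 => hx ?_
  rw [hn_im_apply, h0]
  simp

lemma hn_pair_split {G : ℝ → ℂ} (hG : AEStronglyMeasurable G volume) (h : jn σ G < ⊤)
    (ψ : SchwartzMap ℝ ℂ) :
    ∫ ξ, G ξ * 𝓕⁻ (ψ : ℝ → ℂ) ξ = (∫ ξ, G ξ * 𝓕⁻ (hnRe ψ : ℝ → ℂ) ξ) +
      Complex.I * ∫ ξ, G ξ * 𝓕⁻ (hnIm ψ : ℝ → ℂ) ξ := by
  rw [← integral_const_mul, ← integral_add (integrable_mul_fourierInv hG h _)
    ((integrable_mul_fourierInv hG h _).const_mul _)]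
  refine integral_congr_ae (Eventually.of_forall fun ξ => ?_)
  have h1 : (𝓕⁻ ψ : SchwartzMap ℝ ℂ) = 𝓕⁻ (hnRe ψ) + Complex.I • 𝓕⁻ (hnIm ψ) := by
    conv_lhs => rw [hn_re_add_im ψ]
    rw [fourierInv_add, fourierInv_smul]
  have h2 := congrArg (fun φ : SchwartzMap ℝ ℂ => φ ξ) h1
  simp only [add_apply, smul_apply, smul_eq_mul,
    SchwartzMap.fourierInv_coe] at h2
  simp only []
  rw [h2]
  ring

lemma hn_pair_sym {G : ℝ → ℂ} (hG : Measurable G) (h : jn σ G < ⊤) (ψ : SchwartzMap ℝ ℂ)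
    (hψ : ∀ x, (ψ x).im = 0) (hr : (∫ ξ, G ξ * 𝓕⁻ (ψ : ℝ → ℂ) ξ).im = 0) :
    ∫ ξ, sym G ξ * 𝓕⁻ (ψ : ℝ → ℂ) ξ = ∫ ξ, G ξ * 𝓕⁻ (ψ : ℝ → ℂ) ξ := by
  have hG' : Measurable fun ξ => conj (G (-ξ)) :=
    Complex.continuous_conj.measurable.comp (hG.comp measurable_neg)
  have i1 := integrable_mul_fourierInv hG.aestronglyMeasurable h ψ
  have i2 := integrable_mul_fourierInv hG'.aestronglyMeasurable (by rwa [hn_jn_flip hG]) ψ
  have e1 : ∫ ξ, conj (G (-ξ)) * 𝓕⁻ (ψ : ℝ → ℂ) ξ = ∫ ξ, G ξ * 𝓕⁻ (ψ : ℝ → ℂ) ξ := by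
    rw [← integral_neg_eq_self, ← Complex.conj_eq_iff_im.mpr hr, ← integral_conj]
    refine integral_congr_ae (Eventually.of_forall fun ξ => ?_)
    simp only [neg_neg, map_mul]
    rw [hn_fourierInv_neg hψ]
  have e2 : (fun ξ => sym G ξ * 𝓕⁻ (ψ : ℝ → ℂ) ξ) = fun ξ => (1 / 2 : ℂ) *
      (G ξ * 𝓕⁻ (ψ : ℝ → ℂ) ξ + conj (G (-ξ)) * 𝓕⁻ (ψ : ℝ → ℂ) ξ) := by
    funext ξ
    simp only [sym]
    ring
  rw [e2, integral_const_mul, integral_add i1 i2, e1]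
  ring

/-- For real `f` the representing function can be symmetrised: `sym G` also represents `f`
(split a test function into its real and imaginary parts). -/
theorem exists_rep_sym {c : ℝ≥0∞} (h : hNorm σ W f < c)
    (hr : ∀ ψ : SchwartzMap ℝ ℂ, tsupport ψ ⊆ W → (∀ x, (ψ x).im = 0) → (f ψ).im = 0) :
    ∃ G : ℝ → ℂ, Measurable G ∧ Rep W f G ∧ jn σ G < c ∧ ∀ ξ, G (-ξ) = conj (G ξ) := by
  obtain ⟨G, hG, hrep, hc⟩ := exists_rep h
  have ht : jn σ G < ⊤ := hc.trans_le le_top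
  have hS : Measurable (sym G) := by
    unfold sym
    exact (hG.add (Complex.continuous_conj.measurable.comp (hG.comp measurable_neg))).div_const _
  have hle := hn_jn_sym (σ := σ) hG
  refine ⟨sym G, hS, fun ψ hψ => ?_, hle.trans_lt hc, fun ξ => ?_⟩
  · have h1 := (hn_tsupport_re ψ).trans hψ
    have h2 := (hn_tsupport_im ψ).trans hψ
    have r1 : ∀ x, (hnRe ψ x).im = 0 := fun x => by rw [hn_re_apply, Complex.ofReal_im]
    have r2 : ∀ x, (hnIm ψ x).im = 0 := fun x => by rw [hn_im_apply, Complex.ofReal_im]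
    rw [hrep ψ hψ, hn_pair_split hG.aestronglyMeasurable ht,
      hn_pair_split hS.aestronglyMeasurable (hle.trans_lt ht),
      hn_pair_sym hG ht _ r1 (by rw [← hrep _ h1]; exact hr _ h1 r1),
      hn_pair_sym hG ht _ r2 (by rw [← hrep _ h2]; exact hr _ h2 r2)]
  · simp only [sym, neg_neg, map_div₀, map_add, Complex.conj_conj, map_ofNat]
    ring

lemma hn_flip {A B : ℝ → ℂ} (hA : Integrable A) (hB : Integrable B) :
    ∫ ξ, 𝓕 A ξ * B ξ = ∫ x, A x * 𝓕 B x := by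
  have := VectorFourier.integral_fourierIntegral_smul_eq_flip (μ := (volume : Measure ℝ))
    (ν := (volume : Measure ℝ)) (L := innerₗ ℝ) (e := Real.fourierChar) (f := A) (g := B)
    Real.continuous_fourierChar (continuous_inner (𝕜 := ℝ)) hA hB
  rw [flip_innerₗ] at this
  exact this

lemma integral_mul_fourierInv {A : ℝ → ℂ} (hA : Integrable A) (ψ : SchwartzMap ℝ ℂ) :
    ∫ x, ψ x * 𝓕⁻ A x = ∫ ξ, A ξ * 𝓕⁻ (ψ : ℝ → ℂ) ξ := by
  have h1 := hn_flip hA ψ.integrable.comp_neg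
  rw [← Real.fourierInv_eq_fourier_comp_neg] at h1
  rw [← h1, ← integral_neg_eq_self]
  refine integral_congr_ae (Eventually.of_forall fun x => ?_)
  simp only [Real.fourierInv_eq_fourier_neg, neg_neg]
  ring

lemma integral_mul_eq_fourier {k : ℝ → ℂ} (hk : Integrable k) (ψ : SchwartzMap ℝ ℂ) :
    ∫ x, ψ x * k x = ∫ ξ, 𝓕 k ξ * 𝓕⁻ (ψ : ℝ → ℂ) ξ := by
  have h1 := hn_flip hk (𝓕⁻ ψ : SchwartzMap ℝ ℂ).integrable
  rw [← SchwartzMap.fourier_coe, fourier_fourierInv_eq, SchwartzMap.fourierInv_coe] at h1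
  rw [h1]
  simp only [mul_comm]

theorem exists_limit {F : ℕ → SchwartzMap ℝ ℂ → ℂ}
    (h : ∀ ε > 0, ∃ N, ∀ n ≥ N, ∀ m ≥ N, hNorm σ W (F n - F m) ≤ ε) :
    ∃ U, Tendsto (fun n => hNorm σ W (F n - U)) atTop (𝓝 0) := by
  have hpos : ∀ k : ℕ, (0 : ℝ≥0∞) < ENNReal.ofReal ((1 / 2) ^ (k + 1)) := fun k =>
    ENNReal.ofReal_pos.mpr (by positivity)
  choose N hN using fun k : ℕ => h _ (hpos k)
  set M : ℕ → ℕ := fun k => (Finset.range (k + 1)).sup N with hM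
  have hNM : ∀ k, N k ≤ M k := fun k => Finset.le_sup (f := N) (Finset.self_mem_range_succ k)
  have hMM : ∀ k, M k ≤ M (k + 1) := fun k =>
    Finset.sup_mono (Finset.range_mono (Nat.le_succ _))
  have hlt : ∀ k : ℕ, hNorm σ W (F (M (k + 1)) - F (M k)) < ENNReal.ofReal ((1 / 2) ^ k) := by
    intro k
    refine (hN k _ ((hNM k).trans (hMM k)) _ (hNM k)).trans_lt ?_
    rw [ENNReal.ofReal_lt_ofReal_iff (by positivity), pow_succ]
    have : (0 : ℝ) < (1 / 2) ^ k := by positivity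
    linarith
  choose u hu hub using fun k => hn_lt (hlt k)
  have hub' : ∀ k, ‖u k‖ ≤ (1 / 2) ^ k := fun k => by
    have := (hub k).le
    rwa [← ofReal_norm, ENNReal.ofReal_le_ofReal_iff (by positivity)] at this
  have hs : Summable u := Summable.of_norm_bounded summable_geometric_two hub'
  have hpart : ∀ k, ∀ ψ : SchwartzMap ℝ ℂ, tsupport ψ ⊆ W →
      hnL σ (∑ j ∈ Finset.range k, u j) ψ = F (M k) ψ - F (M 0) ψ := by
    intro k ψ hψ
    induction k with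
    | zero => simp
    | succ k ih =>
      rw [Finset.sum_range_succ, map_add]
      have e : (hnL σ (∑ j ∈ Finset.range k, u j) + hnL σ (u k)) ψ =
          hnL σ (∑ j ∈ Finset.range k, u j) ψ + hnL σ (u k) ψ := rfl
      rw [e, ih, hu k ψ hψ, Pi.sub_apply]
      ring
  refine ⟨fun ψ => F (M 0) ψ + hnL σ (∑' j, u j) ψ, ?_⟩
  have hk : ∀ k, hNorm σ W (F (M k) - fun ψ => F (M 0) ψ + hnL σ (∑' j, u j) ψ) ≤
      ‖∑ j ∈ Finset.range k, u j - ∑' j, u j‖ₑ := by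
    intro k
    refine hn_le fun ψ hψ => ?_
    rw [map_sub]
    have e : (hnL σ (∑ j ∈ Finset.range k, u j) - hnL σ (∑' j, u j)) ψ =
        hnL σ (∑ j ∈ Finset.range k, u j) ψ - hnL σ (∑' j, u j) ψ := rfl
    rw [e, hpart k ψ hψ, Pi.sub_apply]
    ring
  have t1 : Tendsto (fun k => ‖∑ j ∈ Finset.range k, u j - ∑' j, u j‖ₑ) atTop (𝓝 0) := by
    have := (hs.hasSum.tendsto_sum_nat.sub_const (∑' j, u j)).enorm
    simpa using this
  have t2 : Tendsto (fun k : ℕ => ENNReal.ofReal ((1 / 2) ^ (k + 1))) atTop (𝓝 0) := by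
    have := ENNReal.tendsto_ofReal ((tendsto_pow_atTop_nhds_zero_of_lt_one (r := (1 / 2 : ℝ))
      (by norm_num) (by norm_num)).comp (tendsto_add_atTop_nat 1))
    simpa using this
  have t3 := t2.add t1
  rw [add_zero] at t3
  rw [ENNReal.tendsto_atTop_zero] at t3 ⊢
  intro ε hε
  obtain ⟨k, hk'⟩ := t3 ε hε
  refine ⟨M k, fun n hn => ?_⟩
  refine (hNorm_sub_le _ (F (M k)) _).trans (le_trans ?_ (hk' k le_rfl))
  exact add_le_add (hN k n ((hNM k).trans hn) _ (hNM k)) (hk k)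

lemma ofFun_sub {a : ℝ} {p q : ℝ → ℝ} (hp : ContinuousOn p (Icc 0 a))
    (hq : ContinuousOn q (Icc 0 a)) : ofFun a (fun x => p x - q x) = ofFun a p - ofFun a q := by
  funext ψ
  exact (Pool.Agent.Lib.MP_14aec4_an.ofFun_sub hp hq ψ).symm

lemma ofFun_add {a : ℝ} {p q : ℝ → ℝ} (hp : ContinuousOn p (Icc 0 a))
    (hq : ContinuousOn q (Icc 0 a)) : ofFun a (fun x => p x + q x) = ofFun a p + ofFun a q := by
  have h1 := ofFun_sub (hp.add hq) hq
  have h2 : (fun x => (p + q) x - q x) = p := by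
    funext x
    simp
  rw [h2] at h1
  rw [h1, sub_add_cancel]
  rfl

lemma ofFun_const_mul (a c : ℝ) (p : ℝ → ℝ) :
    ofFun a (fun x => c * p x) = fun ψ => (c : ℂ) * ofFun a p ψ := by
  funext ψ
  unfold ofFun
  rw [← integral_const_mul]
  congr 1
  funext x
  push_cast
  ring

lemma ofFun_congr {a : ℝ} {p q : ℝ → ℝ} (h : ∀ x ∈ Ioo 0 a, p x = q x) :
    ofFun a p = ofFun a q := by
  funext ψ
  unfold ofFun
  exact setIntegral_congr_fun measurableSet_Ioo fun x hx => by simp only [h x hx]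

lemma ofFun_zero (a : ℝ) : ofFun a (fun _ => 0) = 0 := by
  funext ψ
  simp [ofFun]

lemma hNorm_le_L2 (hσ : σ ≤ 0) {k : ℝ → ℝ} (h₁ : Integrable k) (h₂ : Integrable fun x => k x ^ 2)
    (e : ∀ ψ : SchwartzMap ℝ ℂ, tsupport ψ ⊆ W → f ψ = ∫ x, ψ x * (k x : ℂ)) :
    hNorm σ W f ≤ ENNReal.ofReal (Real.sqrt (∫ x, k x ^ 2)) := by
  have h1 : Integrable fun x => (k x : ℂ) := h₁.ofReal
  have h2 : MemLp (fun x => (k x : ℂ)) 2 volume := by
    refine MemLp.ofReal ?_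
    exact (memLp_two_iff_integrable_sq h₁.aestronglyMeasurable).mpr h₂
  have h3 := hNorm_le_of_integrable (-σ) (by linarith) W _ h1 h2 f e
  rw [neg_neg] at h3
  refine h3.trans (ENNReal.ofReal_le_ofReal (Real.sqrt_le_sqrt ?_))
  obtain ⟨h4, h5⟩ := plancherel _ h1 h2
  have h6 : ∫ x, ‖(k x : ℂ)‖ ^ 2 = ∫ x, k x ^ 2 := by
    simp only [Complex.norm_real, Real.norm_eq_abs, sq_abs]
  rw [← h6, ← h5]
  refine integral_mono_of_nonneg (Eventually.of_forall fun ξ => by positivity)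
    ((memLp_two_iff_integrable_sq_norm h4.1).mp h4) (Eventually.of_forall fun ξ => ?_)
  refine mul_le_of_le_one_left (by positivity) ?_
  exact Real.rpow_le_one_of_one_le_of_nonpos (by nlinarith [sq_nonneg ξ]) hσ

lemma hNorm_ofFun_le (hσ : σ ≤ 0) (W : Set ℝ) {a : ℝ} (ha : 0 ≤ a) {p : ℝ → ℝ}
    (hp : ContinuousOn p (Icc 0 a)) : hNorm σ W (ofFun a p) ≤ ENNReal.ofReal (nL a p) := by
  have i1 : IntegrableOn p (Ioo 0 a) := hp.integrableOn_Icc.mono_set Ioo_subset_Icc_self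
  have i2 : IntegrableOn (fun x => p x ^ 2) (Ioo 0 a) :=
    (hp.pow 2).integrableOn_Icc.mono_set Ioo_subset_Icc_self
  have e2 : (fun x => (Ioo 0 a).indicator p x ^ 2) = (Ioo 0 a).indicator fun x => p x ^ 2 := by
    funext x
    by_cases hx : x ∈ Ioo 0 a <;> simp [hx]
  have h1 := hNorm_le_L2 (W := W) (f := ofFun a p) hσ (k := (Ioo 0 a).indicator p)
    (i1.integrable_indicator measurableSet_Ioo)
    (by rw [e2]; exact i2.integrable_indicator measurableSet_Ioo) (fun ψ _ => by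
      rw [ofFun_eq]
      congr 1
      funext x
      by_cases hx : x ∈ Ioo 0 a <;> simp [zext, hx])
  rw [e2, integral_indicator measurableSet_Ioo] at h1
  rw [nL, intervalIntegral.integral_of_le ha, integral_Ioc_eq_integral_Ioo]
  exact h1

lemma hn_rpow_half (σ ξ : ℝ) : (1 + ξ ^ 2) ^ (σ / 2) = Real.sqrt (1 + ξ ^ 2) ^ σ := by
  rw [Real.sqrt_eq_rpow, ← Real.rpow_mul (by positivity)]
  congr 1
  ring

lemma nrm_le_jn {γ : ℝ} (hγ : 1 ≤ γ) (hσ : σ ≤ 0) (G : ℝ → ℂ) : nrm γ w1 σ G ≤ jn σ G := by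
  unfold nrm jn
  refine eLpNorm_mono fun τ => ?_
  rw [norm_mul, norm_mul, Complex.norm_real, Complex.norm_real]
  refine mul_le_mul_of_nonneg_right ?_ (norm_nonneg _)
  have h0 := om_nonneg γ τ
  rw [w1, mul_one, Real.norm_of_nonneg (by positivity), Real.norm_of_nonneg (by positivity),
    hn_rpow_half]
  refine Real.rpow_le_rpow_of_nonpos (Real.sqrt_pos.mpr (by positivity)) ?_ hσ
  rw [Real.sqrt_le_left h0, om_sq]
  have h1 : 1 ≤ (2 * Real.pi) ^ 2 := by nlinarith [Real.pi_gt_three]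
  rw [mul_pow]
  nlinarith [sq_nonneg τ]

lemma jn_le_nrm (hσ : -1 ≤ σ) (hσ' : σ ≤ 0) (G : ℝ → ℂ) : jn σ G ≤ 7 * nrm 1 w1 σ G := by
  unfold nrm jn
  have h7 : (7 : ℝ≥0∞) = ENNReal.ofReal 7 := by simp
  rw [h7]
  refine eLpNorm_le_mul_eLpNorm_of_ae_le_mul (Eventually.of_forall fun τ => ?_) 2
  rw [norm_mul, norm_mul, Complex.norm_real, Complex.norm_real, ← mul_assoc]
  refine mul_le_mul_of_nonneg_right ?_ (norm_nonneg _)
  have h0 := om_pos one_pos τ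
  rw [w1, mul_one, Real.norm_of_nonneg (by positivity), Real.norm_of_nonneg (by positivity),
    hn_rpow_half]
  have hs : 0 < Real.sqrt (1 + τ ^ 2) := Real.sqrt_pos.mpr (by positivity)
  have h1 : om 1 τ ≤ 7 * Real.sqrt (1 + τ ^ 2) := by
    refine (sq_le_sq₀ h0.le (by positivity)).mp ?_
    rw [om_sq, mul_pow 7, Real.sq_sqrt (by positivity), mul_pow]
    have h2 : (2 * Real.pi) ^ 2 ≤ 49 := by nlinarith [Real.pi_lt_d2, Real.pi_pos]
    nlinarith [sq_nonneg τ]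
  have h2 : (7 * Real.sqrt (1 + τ ^ 2)) ^ σ ≤ om 1 τ ^ σ := Real.rpow_le_rpow_of_nonpos h0 h1 hσ'
  rw [Real.mul_rpow (by norm_num) hs.le] at h2
  have h3 : (7 : ℝ) ^ (-1 : ℝ) ≤ 7 ^ σ := Real.rpow_le_rpow_of_exponent_le (by norm_num) hσ
  rw [Real.rpow_neg_one] at h3
  have h4 : 0 ≤ Real.sqrt (1 + τ ^ 2) ^ σ := by positivity
  nlinarith

lemma bn_sub_le {T' : ℝ} {p q r : ℝ → ℝ} (hp : ContinuousOn p (Icc 0 T'))
    (hq : ContinuousOn q (Icc 0 T')) (hr : ContinuousOn r (Icc 0 T')) :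
    bn σ T' (fun t => p t - r t) ≤ bn σ T' (fun t => p t - q t) + bn σ T' fun t => q t - r t := by
  unfold bn
  rw [ofFun_sub hp hr, ofFun_sub hp hq, ofFun_sub hq hr]
  exact hNorm_sub_le _ _ _

end Pool.Agent.Lib.MP_14aec4_an.W
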