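import Pool.Agent.Lib.MP_14aec4_an.HN

/-!
The `H^{-1}` norm of the initial datum through a primitive.
-/

noncomputable section

open MeasureTheory Set Filter Topology FourierTransform
open scoped ENNReal ComplexConjugate

namespace Pool.Agent.Lib.MP_14aec4_an.W

lemma ini_eLp {F : ℝ → ℂ} (hF : MemLp F 2) :
    eLpNorm F 2 volume = ENNReal.ofReal (Real.sqrt (∫ x, ‖F x‖ ^ 2)) := by
  rw [hF.eLpNorm_eq_integral_rpow_norm two_ne_zero ENNReal.ofNat_ne_top, Real.sqrt_eq_rpow]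
  simp

lemma ini_wt_sq (ξ : ℝ) : ((1 + ξ ^ 2) ^ ((-1 : ℝ) / 2)) ^ 2 = (1 + ξ ^ 2)⁻¹ := by
  have h : (0 : ℝ) ≤ 1 + ξ ^ 2 := by positivity
  rw [← Real.rpow_natCast, ← Real.rpow_mul h, ← Real.rpow_neg_one]
  norm_num

lemma ini_wt_cont : Continuous fun ξ : ℝ => (1 + ξ ^ 2) ^ ((-1 : ℝ) / 2) :=
  Continuous.rpow_const (by fun_prop) fun ξ => Or.inl (by positivity)

lemma ini_wt_memLp : MemLp (fun ξ : ℝ => (((1 + ξ ^ 2) ^ ((-1 : ℝ) / 2) : ℝ) : ℂ)) 2 := by
  have hc : Continuous fun ξ : ℝ => (((1 + ξ ^ 2) ^ ((-1 : ℝ) / 2) : ℝ) : ℂ) :=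
    Complex.continuous_ofReal.comp ini_wt_cont
  refine (memLp_two_iff_integrable_sq_norm hc.aestronglyMeasurable).2 ?_
  refine integrable_inv_one_add_sq.congr (Eventually.of_forall fun ξ => ?_)
  simp only [Complex.norm_real, Real.norm_eq_abs, sq_abs, ini_wt_sq]

lemma ini_wt_eLp : eLpNorm (fun ξ : ℝ => (((1 + ξ ^ 2) ^ ((-1 : ℝ) / 2) : ℝ) : ℂ)) 2 volume ≤
    ENNReal.ofReal 7 := by
  rw [ini_eLp ini_wt_memLp]
  apply ENNReal.ofReal_le_ofReal
  simp only [Complex.norm_real, Real.norm_eq_abs, sq_abs, ini_wt_sq, integral_univ_inv_one_add_sq]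
  rw [Real.sqrt_le_iff]
  exact ⟨by norm_num, by linarith [Real.pi_le_four]⟩

lemma ini_wt_mul_le (ξ : ℝ) : (1 + ξ ^ 2) ^ ((-1 : ℝ) / 2) * |ξ| ≤ 1 := by
  have h0 : 0 ≤ (1 + ξ ^ 2) ^ ((-1 : ℝ) / 2) * |ξ| := by positivity
  have h1 : ((1 + ξ ^ 2) ^ ((-1 : ℝ) / 2) * |ξ|) ^ 2 ≤ 1 := by
    rw [mul_pow, ini_wt_sq, sq_abs, inv_mul_le_iff₀ (by positivity)]
    linarith
  nlinarith

lemma ini_fourierInv_deriv (ψ : SchwartzMap ℝ ℂ) (ξ : ℝ) :
    𝓕⁻ (deriv (ψ : ℝ → ℂ)) ξ = -(2 * Real.pi * ξ * Complex.I) * 𝓕⁻ (ψ : ℝ → ℂ) ξ := by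
  have hd : Integrable (deriv (ψ : ℝ → ℂ)) := (SchwartzMap.derivCLM ℂ ℂ ψ).integrable
  rw [Real.fourierInv_eq_fourier_neg, Real.fourierInv_eq_fourier_neg,
    Real.fourier_deriv ψ.integrable ψ.differentiable hd]
  simp only [smul_eq_mul]
  push_cast
  ring

lemma ini_eval (ψ : SchwartzMap ℝ ℂ) (y : ℝ) :
    ψ y = ∫ ξ : ℝ, Complex.exp (((-2 * Real.pi * ξ * y : ℝ) : ℂ) * Complex.I) *
      𝓕⁻ (ψ : ℝ → ℂ) ξ := by
  have h := ψ.continuous.fourier_fourierInv_eq ψ.integrable (𝓕 ψ).integrable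
  conv_lhs => rw [← h]
  rw [Real.fourier_real_eq_integral_exp_smul]
  rfl

lemma ini_finv_integrable (ψ : SchwartzMap ℝ ℂ) : Integrable (𝓕⁻ (ψ : ℝ → ℂ)) := by
  rw [← SchwartzMap.fourierInv_coe]
  exact (𝓕⁻ ψ).integrable

/-- Integration by parts against a test function. -/
lemma ini_parts {L : ℝ} (hL : 0 ≤ L) {w φ : ℝ → ℝ} (hw : ContinuousOn w (Icc 0 L))
    (hφ : ContinuousOn φ (Icc 0 L)) (hd : ∀ x ∈ Ioo 0 L, HasDerivAt w (φ x) x)
    (ψ : SchwartzMap ℝ ℂ) :
    ofFun L φ ψ = ψ L * w L - ψ 0 * w 0 - ∫ x in (0 : ℝ)..L, deriv (ψ : ℝ → ℂ) x * (w x : ℂ) := by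
  have hψ' : Continuous (deriv (ψ : ℝ → ℂ)) := (SchwartzMap.derivCLM ℂ ℂ ψ).continuous
  have hwc : ContinuousOn (fun x => (w x : ℂ)) (uIcc 0 L) := by
    rw [uIcc_of_le hL]; exact Complex.continuous_ofReal.comp_continuousOn hw
  have hφc : ContinuousOn (fun x => (φ x : ℂ)) (uIcc 0 L) := by
    rw [uIcc_of_le hL]; exact Complex.continuous_ofReal.comp_continuousOn hφ
  have key := intervalIntegral.integral_mul_deriv_eq_deriv_mul_of_hasDerivAt
    (u := (ψ : ℝ → ℂ)) (v := fun x => (w x : ℂ)) (u' := deriv (ψ : ℝ → ℂ))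
    (v' := fun x => (φ x : ℂ)) (a := 0) (b := L) ψ.continuous.continuousOn hwc
    (fun x _ => ψ.hasDerivAt x)
    (fun x hx => by
      rw [min_eq_left hL, max_eq_right hL] at hx
      exact (hd x hx).ofReal_comp)
    (hψ'.intervalIntegrable _ _) hφc.intervalIntegrable
  unfold ofFun
  rw [← integral_Ioc_eq_integral_Ioo, ← intervalIntegral.integral_of_le hL, key]

lemma ini_zero_of_not_mem {ψ : SchwartzMap ℝ ℂ} {W : Set ℝ} (h : tsupport ψ ⊆ W) {x : ℝ}
    (hx : x ∉ W) : ψ x = 0 :=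
  image_eq_zero_of_notMem_tsupport fun h' => hx (h h')

/-- `ofFun w' ψ = w(L) ψ(L) - w(0) ψ(0) - ∫ w ψ'`; the terms at unmarked ends vanish. A
representing function is `2 π i ξ 𝓕 (w 1) + c_L e^{-2 π i L ξ} - c_0`, and
`‖(1 + ξ²) ^ (-1/2)‖_{L²} = √π`. -/
theorem ini_le {L : ℝ} (hL : 0 < L) (P : BC) {w : ℝ → ℝ} (hw : SmI L w) :
    hNorm (-1) (winB P.d0 P.dL L) (ofFun L (dI L w)) ≤ ENNReal.ofReal (7 * wn L P w) := by
  set c0 : ℝ := if P.d0 then w 0 else 0 with hc0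
  set cL : ℝ := if P.dL then w L else 0 with hcL
  set E : ℝ → ℂ := fun ξ => Complex.exp (((-2 * Real.pi * ξ * L : ℝ) : ℂ) * Complex.I) with hE
  have hEc : Continuous E := by rw [hE]; fun_prop
  have hEn : ∀ ξ, ‖E ξ‖ = 1 := fun ξ => Complex.norm_exp_ofReal_mul_I _
  have hk : Integrable (zext L w) := zext_integrable hw.cont
  have hFc : Continuous (FT L w) := FT_continuous hw.cont
  set G : ℝ → ℂ := fun ξ => (2 * Real.pi * ξ * Complex.I) * FT L w ξ + (cL * E ξ - c0) with hG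
  have hGc : Continuous G := by rw [hG]; fun_prop
  have hrep : Rep (winB P.d0 P.dL L) (ofFun L (dI L w)) G := by
    intro ψ hψ
    have h0 : ψ 0 * (w 0 : ℂ) = ψ 0 * (c0 : ℂ) := by
      rw [hc0]
      cases h : P.d0
      · have : ψ 0 = 0 := by
          apply ini_zero_of_not_mem hψ
          unfold winB
          rw [h]
          cases P.dL <;> simp
        simp [this]
      · simp
    have hL' : ψ L * (w L : ℂ) = ψ L * (cL : ℂ) := by
      rw [hcL]
      cases h : P.dL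
      · have : ψ L = 0 := by
          apply ini_zero_of_not_mem hψ
          unfold winB
          rw [h]
          cases P.d0 <;> simp
        simp [this]
      · simp
    have h1 : ∫ x in (0 : ℝ)..L, deriv (ψ : ℝ → ℂ) x * (w x : ℂ) =
        ∫ ξ, FT L w ξ * (-(2 * Real.pi * ξ * Complex.I) * 𝓕⁻ (ψ : ℝ → ℂ) ξ) := by
      have e1 := ofFun_eq (a := L) (g := w) (SchwartzMap.derivCLM ℂ ℂ ψ)
      rw [integral_mul_eq_fourier hk] at e1
      unfold ofFun at e1
      rw [← integral_Ioc_eq_integral_Ioo, ← intervalIntegral.integral_of_le hL.le] at e1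
      refine e1.trans ?_
      congr 1
      ext ξ
      rw [← ini_fourierInv_deriv]
      rfl
    have hi := ini_finv_integrable ψ
    have hi1 : Integrable fun ξ : ℝ =>
        FT L w ξ * (-(2 * Real.pi * ξ * Complex.I) * 𝓕⁻ (ψ : ℝ → ℂ) ξ) := by
      have := (ini_finv_integrable (SchwartzMap.derivCLM ℂ ℂ ψ)).bdd_mul
        (c := ∫ x in (0 : ℝ)..L, |w x|) hFc.aestronglyMeasurable
        (Eventually.of_forall fun ξ => FT_le_L1 hL.le ξ)
      refine this.congr (Eventually.of_forall fun ξ => ?_)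
      simp only
      rw [← ini_fourierInv_deriv]
      rfl
    have hi2 : Integrable fun ξ : ℝ => E ξ * 𝓕⁻ (ψ : ℝ → ℂ) ξ :=
      hi.bdd_mul (c := 1) hEc.aestronglyMeasurable (Eventually.of_forall fun ξ => (hEn ξ).le)
    have h2 : ψ 0 = ∫ ξ, 𝓕⁻ (ψ : ℝ → ℂ) ξ := by
      rw [ini_eval ψ 0]; simp
    have hi3 : Integrable fun ξ : ℝ => E ξ * 𝓕⁻ (ψ : ℝ → ℂ) ξ * cL - 𝓕⁻ (ψ : ℝ → ℂ) ξ * c0 :=
      (hi2.mul_const _).sub (hi.mul_const _)
    rw [ini_parts hL.le hw.cont (hw.dI hL).cont (fun x hx => hw.hasDerivAt hx), h0, hL', h1, h2,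
      ini_eval ψ L, ← integral_mul_const, ← integral_mul_const,
      ← integral_sub (hi2.mul_const _) (hi.mul_const _), ← integral_sub hi3 hi1]
    congr 1
    ext ξ
    simp only [hG, hE]
    ring
  refine (hNorm_le_jn hGc.aestronglyMeasurable hrep).trans ?_
  unfold jn
  set v : ℝ → ℂ := fun ξ => (((1 + ξ ^ 2) ^ ((-1 : ℝ) / 2) : ℝ) : ℂ) with hv
  have hvc : Continuous v := Complex.continuous_ofReal.comp ini_wt_cont
  have hF2 : MemLp (FT L w) 2 := (plancherel _ hk (zext_memLp hw.cont 2)).1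
  have e : (fun ξ : ℝ => v ξ * G ξ) = (fun ξ : ℝ => v ξ * ((2 * Real.pi * ξ * Complex.I) * FT L w ξ))
      + fun ξ : ℝ => v ξ * (cL * E ξ - c0) := by
    ext ξ
    simp only [hG, Pi.add_apply]
    ring
  have b1 : eLpNorm (fun ξ : ℝ => v ξ * ((2 * Real.pi * ξ * Complex.I) * FT L w ξ)) 2 volume ≤
      ENNReal.ofReal (7 * nL L w) := by
    have : eLpNorm (fun ξ : ℝ => v ξ * ((2 * Real.pi * ξ * Complex.I) * FT L w ξ)) 2 volume ≤
        ENNReal.ofReal 7 * eLpNorm (FT L w) 2 volume := by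
      apply eLpNorm_le_mul_eLpNorm_of_ae_le_mul
      refine Eventually.of_forall fun ξ => ?_
      have h1 := ini_wt_mul_le ξ
      have h2 : ‖v ξ * ((2 * Real.pi * ξ * Complex.I) * FT L w ξ)‖ =
          (2 * Real.pi) * ((1 + ξ ^ 2) ^ ((-1 : ℝ) / 2) * |ξ|) * ‖FT L w ξ‖ := by
        simp only [hv, norm_mul, Complex.norm_real, Real.norm_eq_abs, Complex.norm_I,
          Complex.norm_ofNat, abs_of_pos Real.pi_pos]
        rw [abs_of_nonneg (by positivity)]
        ring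
      rw [h2]
      have h3 : (2 * Real.pi) * ((1 + ξ ^ 2) ^ ((-1 : ℝ) / 2) * |ξ|) ≤ 7 := by
        have := Real.pi_lt_d2
        have := Real.pi_pos
        nlinarith
      exact mul_le_mul_of_nonneg_right h3 (norm_nonneg _)
    refine this.trans (le_of_eq ?_)
    rw [ini_eLp hF2, FT_sq_integral hL.le hw.cont, ENNReal.ofReal_mul (by norm_num)]
    rfl
  have b2 : eLpNorm (fun ξ : ℝ => v ξ * (cL * E ξ - c0)) 2 volume ≤
      ENNReal.ofReal (7 * (|c0| + |cL|)) := by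
    have : eLpNorm (fun ξ : ℝ => v ξ * (cL * E ξ - c0)) 2 volume ≤
        ENNReal.ofReal (|c0| + |cL|) * eLpNorm v 2 volume := by
      apply eLpNorm_le_mul_eLpNorm_of_ae_le_mul
      refine Eventually.of_forall fun ξ => ?_
      rw [norm_mul, mul_comm]
      refine mul_le_mul_of_nonneg_right ((norm_sub_le _ _).trans (le_of_eq ?_)) (norm_nonneg _)
      rw [norm_mul, hEn]
      simp [add_comm]
    refine this.trans ?_
    rw [mul_comm (7 : ℝ), ENNReal.ofReal_mul (by positivity)]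
    gcongr
    exact ini_wt_eLp
  change eLpNorm (fun ξ : ℝ => v ξ * G ξ) 2 volume ≤ _
  rw [e]
  refine (eLpNorm_add_le (Continuous.aestronglyMeasurable (by fun_prop))
    (Continuous.aestronglyMeasurable (by fun_prop)) (by norm_num)).trans
    ((add_le_add b1 b2).trans (le_of_eq ?_))
  rw [← ENNReal.ofReal_add (by have := nL_nonneg L w; positivity) (by positivity)]
  congr 1
  unfold wn
  rw [hc0, hcL]
  cases P.d0 <;> cases P.dL <;> simp <;> ring

theorem ini_le_Ioo {L : ℝ} (hL : 0 < L) {w : ℝ → ℝ} (hw : SmI L w) :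
    hNorm (-1) (Ioo 0 L) (ofFun L (dI L w)) ≤ ENNReal.ofReal (7 * nL L w) := by
  have := ini_le hL ⟨false, false, 0, 0, 0⟩ hw
  simpa [winB, wn] using this

/-- `|f ψ| ≤ ‖f‖_{H^{-1}} ‖ψ‖_{H¹}`. -/
lemma pairing_H1 {W : Set ℝ} (f : SchwartzMap ℝ ℂ → ℂ) (ψ : SchwartzMap ℝ ℂ) (hψ : tsupport ψ ⊆ W)
    {c : ℝ} (hc : 0 ≤ c) (h : hNorm (-1) W f ≤ ENNReal.ofReal c) :
    ‖f ψ‖ ≤ c * Real.sqrt ((∫ x, ‖ψ x‖ ^ 2) + ∫ x, ‖deriv ψ x‖ ^ 2) := by
  set S := Real.sqrt ((∫ x, ‖ψ x‖ ^ 2) + ∫ x, ‖deriv ψ x‖ ^ 2) with hS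
  have hS0 : 0 ≤ S := Real.sqrt_nonneg _
  have main : ∀ ε > 0, ‖f ψ‖ ≤ (c + ε) * S := by
    intro ε hε
    have hlt : hNorm (-1) W f < ENNReal.ofReal (c + ε) :=
      h.trans_lt ((ENNReal.ofReal_lt_ofReal_iff (by linarith)).2 (by linarith))
    obtain ⟨G, hGm, hrep, hjn⟩ := exists_rep hlt
    unfold jn at hjn
    set v : ℝ → ℝ := fun ξ => (1 + ξ ^ 2) ^ ((-1 : ℝ) / 2) with hv
    have hvc : Continuous v := ini_wt_cont
    have hv0 : ∀ ξ, 0 < v ξ := fun ξ => by rw [hv]; positivity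
    set A : ℝ → ℂ := fun ξ => (v ξ : ℂ) * G ξ with hA
    set B : ℝ → ℂ := fun ξ => ((v ξ)⁻¹ : ℝ) * 𝓕⁻ (ψ : ℝ → ℂ) ξ with hB
    have hAm : MemLp A 2 :=
      ⟨((Complex.continuous_ofReal.comp hvc).measurable.mul hGm).aestronglyMeasurable,
        hjn.trans ENNReal.ofReal_lt_top⟩
    have hAn : Real.sqrt (∫ ξ, ‖A ξ‖ ^ 2) ≤ c + ε := by
      have := hjn.le
      change eLpNorm A 2 volume ≤ _ at this
      rw [ini_eLp hAm] at this
      exact (ENNReal.ofReal_le_ofReal_iff (by linarith)).1 this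
    have hsq : ∀ χ : SchwartzMap ℝ ℂ, Integrable (fun ξ => ‖𝓕⁻ (χ : ℝ → ℂ) ξ‖ ^ 2) ∧
        ∫ ξ, ‖𝓕⁻ (χ : ℝ → ℂ) ξ‖ ^ 2 = ∫ x, ‖χ x‖ ^ 2 := by
      intro χ
      rw [← SchwartzMap.fourierInv_coe]
      refine ⟨(memLp_two_iff_integrable_sq_norm (𝓕⁻ χ).continuous.aestronglyMeasurable).1
        ((𝓕⁻ χ).memLp 2), ?_⟩
      rw [← SchwartzMap.integral_norm_sq_fourier (𝓕⁻ χ), fourier_fourierInv_eq]
    have hBle : ∀ ξ, ‖B ξ‖ ^ 2 ≤ ‖𝓕⁻ (ψ : ℝ → ℂ) ξ‖ ^ 2 + ‖𝓕⁻ (deriv (ψ : ℝ → ℂ)) ξ‖ ^ 2 := by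
      intro ξ
      rw [ini_fourierInv_deriv]
      simp only [hB, norm_mul, norm_neg, Complex.norm_real, Real.norm_eq_abs, Complex.norm_I,
        Complex.norm_ofNat, mul_pow, sq_abs, inv_pow, hv, ini_wt_sq, inv_inv]
      have h1 : (1 : ℝ) ≤ 2 ^ 2 * Real.pi ^ 2 := by nlinarith [Real.pi_gt_three]
      have h2 : ξ ^ 2 * ‖𝓕⁻ (ψ : ℝ → ℂ) ξ‖ ^ 2 ≤
          2 ^ 2 * Real.pi ^ 2 * (ξ ^ 2 * ‖𝓕⁻ (ψ : ℝ → ℂ) ξ‖ ^ 2) :=
        le_mul_of_one_le_left (by positivity) h1
      nlinarith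
    have hBc : Continuous B := by
      have h1 : Continuous (𝓕⁻ (ψ : ℝ → ℂ)) := by
        rw [← SchwartzMap.fourierInv_coe]; exact (𝓕⁻ ψ).continuous
      exact (Complex.continuous_ofReal.comp (hvc.inv₀ fun ξ => (hv0 ξ).ne')).mul h1
    have hsum := (hsq ψ).1.add (hsq (SchwartzMap.derivCLM ℂ ℂ ψ)).1
    have hB2 : Integrable fun ξ => ‖B ξ‖ ^ 2 :=
      hsum.mono' (hBc.norm.pow 2).aestronglyMeasurable (Eventually.of_forall fun ξ => by
        rw [Real.norm_eq_abs, abs_of_nonneg (by positivity)]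
        exact hBle ξ)
    have hBm : MemLp B 2 := (memLp_two_iff_integrable_sq_norm hBc.aestronglyMeasurable).2 hB2
    have hBn : Real.sqrt (∫ ξ, ‖B ξ‖ ^ 2) ≤ S := by
      apply Real.sqrt_le_sqrt
      refine (integral_mono hB2 hsum hBle).trans (le_of_eq ?_)
      rw [Pi.add_def, integral_add (hsq ψ).1 (hsq (SchwartzMap.derivCLM ℂ ℂ ψ)).1, (hsq ψ).2,
        (hsq (SchwartzMap.derivCLM ℂ ℂ ψ)).2]
      rfl
    have hH := integral_mul_norm_le_Lp_mul_Lq (μ := volume) (f := A) (g := B)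
      Real.HolderConjugate.two_two (by simpa using hAm) (by simpa using hBm)
    simp only [Real.rpow_two, ← Real.sqrt_eq_rpow] at hH
    rw [hrep ψ hψ]
    refine (norm_integral_le_integral_norm _).trans ?_
    have e : (fun ξ => ‖G ξ * 𝓕⁻ (ψ : ℝ → ℂ) ξ‖) = fun ξ => ‖A ξ‖ * ‖B ξ‖ := by
      ext ξ
      rw [← norm_mul]
      congr 1
      have : (v ξ : ℂ) ≠ 0 := by exact_mod_cast (hv0 ξ).ne'
      simp only [hA, hB]
      push_cast
      field_simp
    rw [e]
    exact hH.trans (mul_le_mul hAn hBn (Real.sqrt_nonneg _) (by linarith))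
  apply le_of_forall_pos_le_add
  intro ε hε
  have := main (ε / (S + 1)) (by positivity)
  have h2 : ε / (S + 1) * S ≤ ε := by
    rw [div_mul_eq_mul_div, div_le_iff₀ (by positivity)]
    nlinarith
  nlinarith

/-- Smooth functions supported in the open interval. -/
def IniAdm (L : ℝ) (a : ℝ → ℝ) : Prop :=
  ContDiff ℝ (⊤ : ℕ∞) a ∧ ∃ δ > 0, ∀ x, x ∉ Icc δ (L - δ) → a x = 0

lemma IniAdm.support {L : ℝ} {a : ℝ → ℝ} (h : IniAdm L a) : Function.support a ⊆ Ioc 0 L := by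
  obtain ⟨-, δ, hδ, h⟩ := h
  intro x hx
  by_contra hx'
  refine hx (h x fun h' => hx' ⟨by linarith [h'.1], by linarith [h'.2]⟩)

lemma ini_dense {L : ℝ} (hL : 0 < L) {w : ℝ → ℝ} (hw : ContinuousOn w (Icc 0 L)) {ε : ℝ}
    (hε : 0 < ε) : ∃ a, IniAdm L a ∧ nL L (fun x => w x - a x) ≤ ε := by
  obtain ⟨M, hM⟩ := isCompact_Icc.exists_bound_of_continuousOn hw
  obtain ⟨p, hp⟩ := exists_polynomial_near_of_continuousOn 0 L w hw
    (ε / (2 * (Real.sqrt L + 1))) (by positivity)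
  set δ : ℝ := min (L / 8) (ε ^ 2 / (16 * (M ^ 2 + 1))) with hδ
  have hδ0 : 0 < δ := lt_min (by positivity) (by positivity)
  have hδ1 : δ ≤ L / 8 := min_le_left _ _
  have hδ2 : δ ≤ ε ^ 2 / (16 * (M ^ 2 + 1)) := min_le_right _ _
  let χ : ContDiffBump (L / 2) := ⟨L / 2 - 2 * δ, L / 2 - δ, by linarith, by linarith⟩
  have hχ0 : ∀ x, x ∉ Icc δ (L - δ) → χ x = 0 := by
    intro x hx
    apply χ.zero_of_le_dist
    change L / 2 - δ ≤ _
    rw [Real.dist_eq]
    rw [mem_Icc, not_and_or, not_le, not_le] at hx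
    rcases hx with hx | hx
    · rw [abs_of_neg (by linarith)]; linarith
    · rw [abs_of_pos (by linarith)]; linarith
  have hpc : ContDiff ℝ (⊤ : ℕ∞) fun x : ℝ => p.eval x := by
    have := Polynomial.contDiff_aeval (𝕜 := ℝ) p (⊤ : ℕ∞)
    simpa using this
  have hχc : Continuous χ := χ.continuous
  refine ⟨fun x => χ x * p.eval x, ⟨χ.contDiff.mul hpc, δ, hδ0, fun x hx => by simp [hχ0 x hx]⟩, ?_⟩
  have e : (fun x => w x - χ x * p.eval x) =
      fun x => (1 - χ x) * w x + χ x * (w x - p.eval x) := by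
    ext x; ring
  have hpc' := hpc.continuous
  have c1 : ContinuousOn (fun x => (1 - χ x) * w x) (Icc 0 L) := by fun_prop
  have c2 : ContinuousOn (fun x => χ x * (w x - p.eval x)) (Icc 0 L) := by fun_prop
  rw [e]
  refine (nL_add_le hL.le c1 c2).trans ?_
  have b2 : nL L (fun x => χ x * (w x - p.eval x)) ≤ ε / 2 := by
    refine (nL_le_of_abs_le (B := ε / (2 * (Real.sqrt L + 1))) hL.le c2 fun x hx => ?_).trans ?_
    · rw [abs_mul, abs_of_nonneg χ.nonneg, abs_sub_comm]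
      exact (mul_le_of_le_one_left (abs_nonneg _) χ.le_one).trans (hp x hx).le
    · have := Real.sqrt_nonneg L
      rw [← mul_div_assoc, div_le_div_iff₀ (by positivity) (by positivity)]
      nlinarith
  have b1 : nL L (fun x => (1 - χ x) * w x) ≤ ε / 2 := by
    unfold nL
    rw [Real.sqrt_le_iff]
    refine ⟨by positivity, ?_⟩
    have hint : L - 4 * δ ≤ ∫ x in (0 : ℝ)..L, χ x := by
      have hs : Function.support χ ⊆ Ioc 0 L :=
        IniAdm.support ⟨χ.contDiff, δ, hδ0, hχ0⟩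
      rw [intervalIntegral.integral_eq_integral_of_support_subset hs]
      refine le_trans (le_of_eq ?_) (χ.measure_closedBall_le_integral volume)
      rw [Real.volume_real_closedBall χ.rIn_pos.le]
      change _ = 2 * (L / 2 - 2 * δ)
      ring
    have h1 : ∫ x in (0 : ℝ)..L, ((1 - χ x) * w x) ^ 2 ≤
        ∫ x in (0 : ℝ)..L, M ^ 2 * (1 - χ x) := by
      apply intervalIntegral.integral_mono_on hL.le
      · exact ((c1.pow 2).mono (uIcc_of_le hL.le).le).intervalIntegrable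
      · exact Continuous.intervalIntegrable (by fun_prop) _ _
      · intro x hx
        have h1 : w x ^ 2 ≤ M ^ 2 := by
          rw [← sq_abs]
          exact pow_le_pow_left₀ (abs_nonneg _) (hM x hx) 2
        have h2 : 0 ≤ 1 - χ x := sub_nonneg.2 χ.le_one
        have h3 : (1 - χ x) ^ 2 ≤ 1 - χ x := by nlinarith [χ.nonneg (x := x)]
        rw [mul_pow, mul_comm]
        exact mul_le_mul h1 h3 (by positivity) (by positivity)
    refine h1.trans ?_
    rw [intervalIntegral.integral_const_mul, intervalIntegral.integral_sub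
      intervalIntegrable_const (hχc.intervalIntegrable _ _)]
    simp only [intervalIntegral.integral_const, sub_zero, smul_eq_mul, mul_one]
    have h4 : δ * (16 * (M ^ 2 + 1)) ≤ ε ^ 2 := (le_div_iff₀ (by positivity)).1 hδ2
    have h5 : M ^ 2 * (L - ∫ x in (0 : ℝ)..L, χ x) ≤ M ^ 2 * (4 * δ) :=
      mul_le_mul_of_nonneg_left (by linarith) (by positivity)
    nlinarith
  linarith

lemma ini_dense0 {L : ℝ} (hL : 0 < L) {w : ℝ → ℝ} (hw : ContinuousOn w (Icc 0 L))
    (h0 : ∫ x in (0 : ℝ)..L, w x = 0) {ε : ℝ} (hε : 0 < ε) :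
    ∃ a, IniAdm L a ∧ (∫ x in (0 : ℝ)..L, a x = 0) ∧ nL L (fun x => w x - a x) ≤ ε := by
  let χ : ContDiffBump (L / 2) := ⟨L / 8, L / 4, by positivity, by linarith⟩
  set b : ℝ → ℝ := χ.normed volume with hb
  have hbc : ContDiff ℝ (⊤ : ℕ∞) b := χ.contDiff_normed
  have hb0 : ∀ x, x ∉ Icc (L / 4) (L - L / 4) → b x = 0 := by
    intro x hx
    have : χ x = 0 := by
      apply χ.zero_of_le_dist
      change L / 4 ≤ _
      rw [Real.dist_eq]
      rw [mem_Icc, not_and_or, not_le, not_le] at hx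
      rcases hx with hx | hx
      · rw [abs_of_neg (by linarith)]; linarith
      · rw [abs_of_pos (by linarith)]; linarith
    rw [hb, χ.normed_def, this, zero_div]
  have hb1 : ∫ x in (0 : ℝ)..L, b x = 1 := by
    rw [intervalIntegral.integral_eq_integral_of_support_subset
      (IniAdm.support ⟨hbc, L / 4, by positivity, hb0⟩)]
    exact χ.integral_normed
  have hN := nL_nonneg L b
  have hs := Real.sqrt_nonneg L
  obtain ⟨a, ⟨hac, δ, hδ, ha0⟩, ha⟩ := ini_dense hL hw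
    (ε := ε / (1 + Real.sqrt L * nL L b)) (by positivity)
  set m : ℝ := ∫ x in (0 : ℝ)..L, a x with hm
  have hac' := hac.continuous
  have hbc' := hbc.continuous
  have hwi : IntervalIntegrable w volume 0 L := (hw.mono (uIcc_of_le hL.le).le).intervalIntegrable
  have c1 : ContinuousOn (fun x => w x - a x) (Icc 0 L) := by fun_prop
  have c2 : ContinuousOn (fun x => m * b x) (Icc 0 L) := by fun_prop
  refine ⟨fun x => a x - m * b x, ⟨hac.sub (contDiff_const.mul hbc), min δ (L / 4),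
    lt_min hδ (by positivity), fun x hx => ?_⟩, ?_, ?_⟩
  · have h1 := min_le_left δ (L / 4)
    have h2 := min_le_right δ (L / 4)
    have e1 : a x = 0 := ha0 x fun h => hx ⟨by linarith [h.1], by linarith [h.2]⟩
    have e2 : b x = 0 := hb0 x fun h => hx ⟨by linarith [h.1], by linarith [h.2]⟩
    simp [e1, e2]
  · rw [intervalIntegral.integral_sub (hac'.intervalIntegrable _ _)
      (Continuous.intervalIntegrable (by fun_prop) _ _), intervalIntegral.integral_const_mul, hb1]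
    simp [hm]
  · have e : (fun x => w x - (a x - m * b x)) = fun x => (w x - a x) + m * b x := by
      ext x; ring
    rw [e]
    refine (nL_add_le hL.le c1 c2).trans ?_
    rw [nL_const_mul]
    have hm' : |m| ≤ Real.sqrt L * nL L fun x => w x - a x := by
      refine le_trans ?_ (integral_abs_le hL.le c1)
      refine le_trans (le_of_eq ?_) (intervalIntegral.abs_integral_le_integral_abs hL.le)
      rw [intervalIntegral.integral_sub hwi (hac'.intervalIntegrable _ _), h0, zero_sub, abs_neg]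
    have h3 := (le_div_iff₀ (by positivity)).1 ha
    have h4 : |m| * nL L b ≤ (Real.sqrt L * nL L fun x => w x - a x) * nL L b :=
      mul_le_mul_of_nonneg_right hm' hN
    nlinarith

lemma ini_le_of_test {L B : ℝ} (hL : 0 < L) (hB : 0 ≤ B) {w : ℝ → ℝ}
    (hw : ContinuousOn w (Icc 0 L))
    (h : ∀ ε > 0, ∃ a : ℝ → ℝ, Continuous a ∧ nL L (fun x => w x - a x) ≤ ε ∧
      |∫ x in (0 : ℝ)..L, a x * w x| ≤ B * nL L a) : nL L w ≤ B := by
  set N := nL L w with hN
  have hN0 : 0 ≤ N := nL_nonneg _ _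
  have main : ∀ ε > 0, N ^ 2 ≤ B * N + ε * (B + N) := by
    intro ε hε
    obtain ⟨a, hac, ha, hb⟩ := h ε hε
    have c1 : ContinuousOn (fun x => w x - a x) (Icc 0 L) := by fun_prop
    have c2 : ContinuousOn (fun x => (-1) * (w x - a x)) (Icc 0 L) := by fun_prop
    have h1 : nL L a ≤ N + ε := by
      have e : a = fun x => w x + (-1) * (w x - a x) := by ext x; ring
      have := nL_add_le hL.le hw c2
      rw [← e, nL_const_mul] at this
      simp only [abs_neg, abs_one, one_mul] at this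
      linarith
    have i1 : IntervalIntegrable (fun x => a x * w x) volume 0 L :=
      ((hac.continuousOn.mul hw).mono (uIcc_of_le hL.le).le).intervalIntegrable
    have i2 : IntervalIntegrable (fun x => (w x - a x) * w x) volume 0 L :=
      ((c1.mul hw).mono (uIcc_of_le hL.le).le).intervalIntegrable
    have h2 : N ^ 2 = (∫ x in (0 : ℝ)..L, a x * w x) + ∫ x in (0 : ℝ)..L, (w x - a x) * w x := by
      rw [hN, nL_sq hL.le, ← intervalIntegral.integral_add i1 i2]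
      congr 1
      ext x; ring
    have h3 : |∫ x in (0 : ℝ)..L, (w x - a x) * w x| ≤ ε * N :=
      (intervalIntegral.abs_integral_le_integral_abs hL.le).trans
        ((integral_abs_mul_le hL.le c1 hw).trans (mul_le_mul_of_nonneg_right ha hN0))
    have h4 := mul_le_mul_of_nonneg_left h1 hB
    have h5 := le_abs_self (∫ x in (0 : ℝ)..L, a x * w x)
    have h6 := le_abs_self (∫ x in (0 : ℝ)..L, (w x - a x) * w x)
    nlinarith
  have h2 : N ^ 2 ≤ B * N := by
    apply le_of_forall_pos_le_add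
    intro ε hε
    have := main (ε / (B + N + 1)) (by positivity)
    have h2 : ε / (B + N + 1) * (B + N) ≤ ε := by
      rw [div_mul_eq_mul_div, div_le_iff₀ (by positivity)]
      nlinarith
    linarith
  by_contra hlt
  rw [not_le] at hlt
  nlinarith

lemma ini_theta {L : ℝ} (hL : 0 < L) : ∃ θ : ℝ → ℝ, ContDiff ℝ (⊤ : ℕ∞) θ ∧
    HasCompactSupport θ ∧ (∀ x, θ x ^ 2 ≤ 1) ∧ ∀ x ∈ Icc 0 L, θ x = 1 ∧ deriv θ x = 0 := by
  let θ : ContDiffBump (L / 2) := ⟨L, 2 * L, hL, by linarith⟩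
  refine ⟨θ, θ.contDiff, θ.hasCompactSupport, fun x => pow_le_one₀ θ.nonneg θ.le_one,
    fun x hx => ?_⟩
  have hb : x ∈ Metric.ball (L / 2) θ.rIn := by
    change x ∈ Metric.ball (L / 2) L
    rw [Real.ball_eq_Ioo]
    exact ⟨by linarith [hx.1], by linarith [hx.2]⟩
  refine ⟨θ.one_of_mem_closedBall (Metric.ball_subset_closedBall hb), ?_⟩
  rw [(θ.eventuallyEq_one_of_mem_ball hb).deriv_eq]
  exact deriv_const x 1

lemma ini_schwartz {g : ℝ → ℝ} (h₁ : ContDiff ℝ (⊤ : ℕ∞) g) (h₂ : HasCompactSupport g) :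
    ∃ ψ : SchwartzMap ℝ ℂ, (ψ : ℝ → ℂ) = fun x => (g x : ℂ) := by
  have hg₁ : HasCompactSupport (Complex.ofRealCLM ∘ g) := h₂.comp_left rfl
  have hg₂ : ContDiff ℝ (⊤ : ℕ∞) (Complex.ofRealCLM ∘ g) := Complex.ofRealCLM.contDiff.comp h₁
  exact ⟨hg₁.toSchwartzMap hg₂, rfl⟩

lemma ini_sq_integrable {g : ℝ → ℝ} (h₁ : Continuous g) (h₂ : HasCompactSupport g) :
    Integrable fun x => g x ^ 2 := by
  have h₃ : Continuous fun x => g x * g x := h₁.mul h₁
  have h₄ : HasCompactSupport fun x => g x * g x := h₂.mul_right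
  simpa only [sq] using h₃.integrable_of_hasCompactSupport h₄

lemma IniAdm.compact {L : ℝ} {a : ℝ → ℝ} (h : IniAdm L a) : HasCompactSupport a :=
  HasCompactSupport.of_support_subset_isCompact isCompact_Icc (h.support.trans Ioc_subset_Icc_self)

lemma IniAdm.prim_le {L : ℝ} (hL : 0 < L) {a : ℝ → ℝ} (h : IniAdm L a) (e x : ℝ) :
    (∫ y in e..x, a y) ^ 2 ≤ L * nL L a ^ 2 := by
  have hac := h.1.continuous
  have hai : Integrable fun y => |a y| := (hac.integrable_of_hasCompactSupport h.compact).abs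
  have h1 : |∫ y in e..x, a y| ≤ Real.sqrt L * nL L a := by
    refine le_trans ?_ (integral_abs_le hL.le hac.continuousOn)
    rw [intervalIntegral.integral_eq_integral_of_support_subset
      (f := fun y => |a y|) (fun y hy => h.support (by simpa using hy))]
    refine (intervalIntegral.norm_integral_le_integral_norm_uIoc (f := a) (a := e) (b := x)
      (μ := volume)).trans ?_
    exact setIntegral_le_integral hai (Eventually.of_forall fun y => abs_nonneg _)
  rw [← sq_abs]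
  refine (pow_le_pow_left₀ (abs_nonneg _) h1 2).trans (le_of_eq ?_)
  rw [mul_pow, Real.sq_sqrt hL.le]

lemma IniAdm.integral_sq {L : ℝ} (hL : 0 < L) {a : ℝ → ℝ} (h : IniAdm L a) :
    ∫ x, a x ^ 2 = nL L a ^ 2 := by
  rw [nL_sq hL.le, intervalIntegral.integral_eq_integral_of_support_subset
    (f := fun y => a y ^ 2) (fun y hy => h.support (by simpa using hy))]

lemma ini_test {L : ℝ} (hL : 0 < L) : ∃ K, 0 < K ∧ ∀ (a : ℝ → ℝ) (e : ℝ), IniAdm L a →
    ∃ ψ : SchwartzMap ℝ ℂ, (∀ x, (∫ y in e..x, a y) = 0 → ψ x = 0) ∧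
      (∀ x ∈ Icc 0 L, deriv (ψ : ℝ → ℂ) x = a x) ∧
      Real.sqrt ((∫ x, ‖ψ x‖ ^ 2) + ∫ x, ‖deriv ψ x‖ ^ 2) ≤ K * nL L a := by
  obtain ⟨θ, hθc, hθs, hθb, hθ⟩ := ini_theta hL
  have hθd : Continuous (deriv θ) := hθc.continuous_deriv (by simp)
  have hθ1 := ini_sq_integrable hθc.continuous hθs
  have hθ2 := ini_sq_integrable hθd hθs.deriv
  obtain ⟨I₁, hI₁⟩ : ∃ I, I = ∫ x, θ x ^ 2 := ⟨_, rfl⟩
  obtain ⟨I₂, hI₂⟩ : ∃ I, I = ∫ x, deriv θ x ^ 2 := ⟨_, rfl⟩
  have hI₁0 : 0 ≤ I₁ := hI₁ ▸ integral_nonneg fun x => by positivity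
  have hI₂0 : 0 ≤ I₂ := hI₂ ▸ integral_nonneg fun x => by positivity
  refine ⟨Real.sqrt (L * I₁ + 2 * L * I₂ + 2), Real.sqrt_pos.2 (by positivity), ?_⟩
  intro a e ha
  have hac := ha.1
  have hac' := hac.continuous
  obtain ⟨A, hA⟩ : ∃ A : ℝ → ℝ, A = fun x => ∫ y in e..x, a y := ⟨_, rfl⟩
  have hAd : ∀ x, HasDerivAt A (a x) x := fun x =>
    hA ▸ (hac'.integral_hasStrictDerivAt e x).hasDerivAt
  have hAc : ContDiff ℝ (⊤ : ℕ∞) A := by
    rw [contDiff_infty_iff_deriv]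
    refine ⟨fun x => (hAd x).differentiableAt, ?_⟩
    rw [show deriv A = a from funext fun x => (hAd x).deriv]
    exact hac
  have hAb : ∀ x, A x ^ 2 ≤ L * nL L a ^ 2 := fun x => by
    rw [hA]; exact ha.prim_le hL e x
  have ha2 := ini_sq_integrable hac' ha.compact
  have ha3 := ha.integral_sq hL
  have hN0 : 0 ≤ nL L a := nL_nonneg _ _
  generalize nL L a = N at hAb ha3 hN0 ⊢
  obtain ⟨ψ, hψ⟩ := ini_schwartz (g := fun x => θ x * A x) (hθc.mul hAc) hθs.mul_right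
  have hψ0 : ∀ x, ψ x = ((θ x * A x : ℝ) : ℂ) := fun x => congrFun hψ x
  have hψ1 : ∀ x, deriv (ψ : ℝ → ℂ) x = ((deriv θ x * A x + θ x * a x : ℝ) : ℂ) := by
    intro x
    have h1 : HasDerivAt θ (deriv θ x) x :=
      (hθc.differentiable (by simp)).differentiableAt.hasDerivAt
    rw [hψ]
    exact (h1.fun_mul (hAd x)).ofReal_comp.deriv
  refine ⟨ψ, fun x hx => ?_, fun x hx => ?_, ?_⟩
  · have : A x = 0 := by rw [hA]; exact hx
    rw [hψ0, this]; simp
  · rw [hψ1, (hθ x hx).1, (hθ x hx).2]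
    simp
  · have b1 : ∫ x, ‖ψ x‖ ^ 2 ≤ I₁ * (L * N ^ 2) := by
      rw [hI₁, ← integral_mul_const]
      apply integral_mono_of_nonneg (Eventually.of_forall fun x => by positivity)
        (hθ1.mul_const _) (Eventually.of_forall fun x => ?_)
      simp only [hψ0, Complex.norm_real, Real.norm_eq_abs, sq_abs, mul_pow]
      exact mul_le_mul_of_nonneg_left (hAb x) (by positivity)
    have b2 : ∫ x, ‖deriv ψ x‖ ^ 2 ≤ I₂ * (2 * (L * N ^ 2)) + 2 * N ^ 2 := by
      have e1 : I₂ * (2 * (L * N ^ 2)) + 2 * N ^ 2 =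
          ∫ x, (deriv θ x ^ 2 * (2 * (L * N ^ 2)) + 2 * a x ^ 2) := by
        rw [integral_add (hθ2.mul_const _) (ha2.const_mul _), integral_mul_const,
          integral_const_mul, ha3, hI₂]
      rw [e1]
      apply integral_mono_of_nonneg (Eventually.of_forall fun x => by positivity)
        ((hθ2.mul_const _).add (ha2.const_mul _)) (Eventually.of_forall fun x => ?_)
      simp only [hψ1, Complex.norm_real, Real.norm_eq_abs, sq_abs, Pi.add_apply]
      have h1 : deriv θ x ^ 2 * A x ^ 2 ≤ deriv θ x ^ 2 * (L * N ^ 2) :=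
        mul_le_mul_of_nonneg_left (hAb x) (by positivity)
      have h3 : θ x ^ 2 * a x ^ 2 ≤ a x ^ 2 := mul_le_of_le_one_left (by positivity) (hθb x)
      nlinarith [sq_nonneg (deriv θ x * A x - θ x * a x)]
    rw [← Real.sqrt_sq hN0, ← Real.sqrt_mul (by positivity)]
    apply Real.sqrt_le_sqrt
    nlinarith

lemma ini_tsupport_subset {ψ : SchwartzMap ℝ ℂ} {s : Set ℝ} (hs : IsClosed s)
    (h : ∀ x, x ∉ s → ψ x = 0) : tsupport ψ ⊆ s :=
  closure_minimal (fun x hx => by_contra fun h' => hx (h x h')) hs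

lemma ini_int_zero {a : ℝ → ℝ} {u v : ℝ} (h : ∀ y ∈ uIcc u v, a y = 0) :
    ∫ y in u..v, a y = 0 := by
  rw [intervalIntegral.integral_congr (g := fun _ => 0) h]
  simp

/-- Test with `ψ` whose derivative on `(0, L)` is a smooth compactly supported `L²`-approximation
`a` of `w = prim φ` (corrected by a fixed bump to have mean zero if no end is marked), cut off
outside `[0, L]` by a fixed function; if both ends are marked, `w(L) = ∫ φ` is tested with a fixed
function equal to `1` on `[0, L]`, and `ψ(L) = 0`. -/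
theorem ini_ge {L : ℝ} (hL : 0 < L) (P : BC) : ∃ C, 0 < C ∧ ∀ (φ : ℝ → ℝ) (c : ℝ),
    ContinuousOn φ (Icc 0 L) → 0 ≤ c →
    hNorm (-1) (winB P.d0 P.dL L) (ofFun L φ) ≤ ENNReal.ofReal c →
    wn L P (prim L P φ) ≤ C * c := by
  obtain ⟨K, hK, htest⟩ := ini_test hL
  obtain ⟨θ, hθc, hθs, -, hθ⟩ := ini_theta hL
  obtain ⟨Θ, hΘ⟩ := ini_schwartz hθc hθs
  have hΘ1 : ∀ x ∈ Ioo 0 L, Θ x = 1 := by
    intro x hx
    rw [congrFun hΘ x, (hθ x (Ioo_subset_Icc_self hx)).1]; simp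
  obtain ⟨K₂, hK₂⟩ : ∃ K₂, K₂ = Real.sqrt ((∫ x, ‖Θ x‖ ^ 2) + ∫ x, ‖deriv Θ x‖ ^ 2) := ⟨_, rfl⟩
  have hK₂0 : 0 ≤ K₂ := hK₂ ▸ Real.sqrt_nonneg _
  refine ⟨K + K₂, by positivity, fun φ c hφ hc h => ?_⟩
  set w := prim L P φ with hw
  have hφi : IntervalIntegrable φ volume 0 L := (hφ.mono (uIcc_of_le hL.le).le).intervalIntegrable
  have hΦc : ContinuousOn (fun x => ∫ y in (0 : ℝ)..x, φ y) (Icc 0 L) := by
    have := intervalIntegral.continuousOn_primitive_interval' hφi left_mem_uIcc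
    rwa [uIcc_of_le hL.le] at this
  have hwc : ContinuousOn w (Icc 0 L) := hΦc.sub continuousOn_const
  have hwd : ∀ x ∈ Ioo 0 L, HasDerivAt w (φ x) x := by
    intro x hx
    have hn : Icc 0 L ∈ 𝓝 x := Icc_mem_nhds hx.1 hx.2
    refine HasDerivAt.sub_const _ (intervalIntegral.integral_hasDerivAt_right
      (hφi.mono_set ?_) ?_ (hφ.continuousAt hn))
    · rw [uIcc_of_le hx.1.le, uIcc_of_le hL.le]
      exact Icc_subset_Icc_right hx.2.le
    · exact ⟨Icc 0 L, hn, hφ.aestronglyMeasurable measurableSet_Icc⟩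
  have key : ∀ (a : ℝ → ℝ) (ψ : SchwartzMap ℝ ℂ), tsupport ψ ⊆ winB P.d0 P.dL L →
      ψ L * w L = 0 → ψ 0 * w 0 = 0 → (∀ x ∈ Icc 0 L, deriv (ψ : ℝ → ℂ) x = a x) →
      Real.sqrt ((∫ x, ‖ψ x‖ ^ 2) + ∫ x, ‖deriv ψ x‖ ^ 2) ≤ K * nL L a →
      |∫ x in (0 : ℝ)..L, a x * w x| ≤ K * c * nL L a := by
    intro a ψ hs h1 h0 hd hb
    have h2 := pairing_H1 _ ψ hs hc h
    rw [ini_parts hL.le hwc hφ hwd, h1, h0, sub_zero, zero_sub, norm_neg,
      intervalIntegral.integral_congr (g := fun x => ((a x * w x : ℝ) : ℂ))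
        (fun x hx => by
          rw [uIcc_of_le hL.le] at hx
          simp only [hd x hx]
          push_cast; ring),
      intervalIntegral.integral_ofReal, Complex.norm_real, Real.norm_eq_abs] at h2
    have h3 := mul_le_mul_of_nonneg_left hb hc
    nlinarith
  have hKc : 0 ≤ K * c := by positivity
  have hK₂c : 0 ≤ K₂ * c := by positivity
  have left : ∀ (a : ℝ → ℝ) (δ : ℝ), 0 < δ → (∀ x, x ∉ Icc δ (L - δ) → a x = 0) →
      ∀ x, x ∉ Ici δ → ∫ y in (0 : ℝ)..x, a y = 0 := by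
    intro a δ hδ ha x hx
    rw [mem_Ici, not_le] at hx
    refine ini_int_zero fun y hy => ha y fun h' => ?_
    have := hy.2
    have h2 : max 0 x < δ := max_lt hδ hx
    linarith [h'.1]
  have right : ∀ (a : ℝ → ℝ) (δ : ℝ), 0 < δ → (∀ x, x ∉ Icc δ (L - δ) → a x = 0) →
      ∀ x, x ∉ Iic (L - δ) → ∫ y in L..x, a y = 0 := by
    intro a δ hδ ha x hx
    rw [mem_Iic, not_le] at hx
    refine ini_int_zero fun y hy => ha y fun h' => ?_
    have := hy.1
    have h2 : L - δ < min L x := lt_min (by linarith) hx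
    linarith [h'.2]
  have hmain : nL L w ≤ K * c := by
    apply ini_le_of_test hL hKc hwc
    intro ε hε
    cases hd0 : P.d0
    · cases hdL : P.dL
      · have hmean : ∫ x in (0 : ℝ)..L, w x = 0 := by
          simp only [hw, prim, hd0, hdL]
          rw [intervalIntegral.integral_sub
            (hΦc.mono (uIcc_of_le hL.le).le).intervalIntegrable intervalIntegrable_const]
          simp only [Bool.false_eq_true, if_false, intervalIntegral.integral_const, sub_zero,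
            smul_eq_mul]
          field_simp
          ring
        obtain ⟨a, ha, ha0, hε'⟩ := ini_dense0 hL hwc hmean hε
        obtain ⟨ψ, h1, h2, h3⟩ := htest a 0 ha
        obtain ⟨hac, δ, hδ, haδ⟩ := ha
        have hac' := hac.continuous
        have hs : tsupport ψ ⊆ Icc δ (L - δ) := by
          refine ini_tsupport_subset isClosed_Icc fun x hx => h1 x ?_
          by_cases hx' : x ∈ Ici δ
          · rw [← intervalIntegral.integral_add_adjacent_intervals (b := L)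
              (hac'.intervalIntegrable _ _) (hac'.intervalIntegrable _ _), ha0, zero_add]
            exact right a δ hδ haδ x fun h' => hx ⟨hx', h'⟩
          · exact left a δ hδ haδ x hx'
        refine ⟨a, hac', hε', key a ψ (hs.trans ?_) ?_ ?_ h2 h3⟩
        · simp only [winB, hd0, hdL, Bool.false_eq_true, if_false]
          exact Icc_subset_Ioo hδ (by linarith)
        · rw [h1 L ha0, zero_mul]
        · rw [h1 0 (by simp), zero_mul]
      · obtain ⟨a, ha, hε'⟩ := ini_dense hL hwc hε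
        obtain ⟨ψ, h1, h2, h3⟩ := htest a 0 ha
        obtain ⟨hac, δ, hδ, haδ⟩ := ha
        have hs : tsupport ψ ⊆ Ici δ :=
          ini_tsupport_subset isClosed_Ici fun x hx => h1 x (left a δ hδ haδ x hx)
        refine ⟨a, hac.continuous, hε', key a ψ (hs.trans ?_) ?_ ?_ h2 h3⟩
        · simp only [winB, hd0, hdL, Bool.false_eq_true, if_false, if_true]
          exact fun x hx => lt_of_lt_of_le hδ hx
        · simp [hw, prim, hd0, hdL]
        · rw [h1 0 (by simp), zero_mul]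
    · obtain ⟨a, ha, hε'⟩ := ini_dense hL hwc hε
      obtain ⟨ψ, h1, h2, h3⟩ := htest a L ha
      obtain ⟨hac, δ, hδ, haδ⟩ := ha
      have hs : tsupport ψ ⊆ Iic (L - δ) :=
        ini_tsupport_subset isClosed_Iic fun x hx => h1 x (right a δ hδ haδ x hx)
      refine ⟨a, hac.continuous, hε', key a ψ (hs.trans ?_) ?_ ?_ h2 h3⟩
      · simp only [winB, hd0, if_true]
        split_ifs
        · exact subset_univ _
        · exact fun x hx => lt_of_le_of_lt (mem_Iic.1 hx) (sub_lt_self L hδ)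
      · rw [h1 L (by simp), zero_mul]
      · simp [hw, prim, hd0]
  have hend : (if P.d0 then |w 0| else 0) + (if P.dL then |w L| else 0) ≤ K₂ * c := by
    cases hd0 : P.d0
    · cases hdL : P.dL
      · simpa using hK₂c
      · simpa [hw, prim, hd0, hdL] using hK₂c
    · cases hdL : P.dL
      · simpa [hw, prim, hd0, hdL] using hK₂c
      · have h2 := pairing_H1 _ Θ (by simp [winB, hd0, hdL]) hc h
        have h3 : ofFun L φ Θ = ((∫ y in (0 : ℝ)..L, φ y : ℝ) : ℂ) := by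
          unfold ofFun
          rw [intervalIntegral.integral_of_le hL.le, integral_Ioc_eq_integral_Ioo,
            ← integral_complex_ofReal]
          refine setIntegral_congr_fun measurableSet_Ioo fun x hx => ?_
          simp only [hΘ1 x hx, one_mul]
        rw [h3, Complex.norm_real, Real.norm_eq_abs, mul_comm, ← hK₂] at h2
        simpa [hw, prim, hd0, hdL] using h2
  unfold wn
  nlinarith

end Pool.Agent.Lib.MP_14aec4_an.W
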