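import Pool.Agent.Lib.MP_14aec4_an.Calc

/-!
Energy inequality and uniqueness for smooth solutions of KdV.
-/

noncomputable section

open MeasureTheory Set Filter Topology FourierTransform
open scoped ENNReal ComplexConjugate

namespace Pool.Agent.Lib.MP_14aec4_an.W

lemma ke_smOn_iter {L : ℝ} (hL : 0 < L) {I : Set ℝ} (hI : UniqueDiffOn ℝ I) {u : ℝ → ℝ → ℝ}
    (hu : SmOn L I u) (n : ℕ) : SmOn L I ((px L)^[n] u) := by
  induction n with
  | zero => exact hu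
  | succ n ih =>
    rw [Function.iterate_succ_apply']
    exact ih.px hL hI

lemma ke_iter_sub {L : ℝ} (hL : 0 < L) {I : Set ℝ} (hI : UniqueDiffOn ℝ I) {u u' : ℝ → ℝ → ℝ}
    (hu : SmOn L I u) (hu' : SmOn L I u') (n : ℕ) {t : ℝ} (ht : t ∈ I) :
    ∀ x ∈ Icc 0 L, (px L)^[n] (fun x t => u x t - u' x t) x t =
      (px L)^[n] u x t - (px L)^[n] u' x t := by
  induction n with
  | zero => exact fun x _ => rfl
  | succ n ih =>
    intro x hx
    simp only [Function.iterate_succ_apply']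
    rw [← px_sub hL (ke_smOn_iter hL hI hu n) (ke_smOn_iter hL hI hu' n) hx ht]
    exact px_congr ih hx

lemma ke_iter_congr {L : ℝ} {u u' : ℝ → ℝ → ℝ} {t : ℝ} (h : ∀ x ∈ Icc 0 L, u x t = u' x t)
    (n : ℕ) : ∀ x ∈ Icc 0 L, (px L)^[n] u x t = (px L)^[n] u' x t := by
  induction n with
  | zero => exact h
  | succ n ih =>
    intro x hx
    simp only [Function.iterate_succ_apply']
    exact px_congr ih hx

lemma ke_ct_mul {L : ℝ} {I : Set ℝ} {f g : ℝ → ℝ → ℝ} (hf : CtOn L I f) (hg : CtOn L I g) :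
    CtOn L I fun x t => f x t * g x t :=
  ContinuousOn.mul hf hg

lemma ke_ept_mem {L : ℝ} (hL : 0 < L) (i : Fin 3) : ept L i ∈ Icc 0 L := by
  fin_cases i <;> simp [ept, hL.le]

lemma ke_zero_of_integral {L : ℝ} (hL : 0 < L) {q : ℝ → ℝ} (hq : ContinuousOn q (Icc 0 L))
    (h : ∫ x in (0 : ℝ)..L, (1 + x) * q x ^ 2 = 0) : ∀ x ∈ Icc 0 L, q x = 0 := by
  intro x hx
  by_contra hne
  have := intervalIntegral.integral_lt_integral_of_continuousOn_of_le_of_exists_lt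
    (f := fun _ => (0 : ℝ)) (g := fun x => (1 + x) * q x ^ 2) hL continuousOn_const
    ((continuousOn_const.add continuousOn_id).mul (hq.pow 2))
    (fun y hy => mul_nonneg (by linarith [hy.1]) (sq_nonneg _))
    ⟨x, hx, mul_pos (by linarith [hx.1]) (by positivity)⟩
  rw [h] at this
  simp at this

lemma ke_lin {M α β ζ a b c y : ℝ} (hα : |α| ≤ M) (hβ : |β| ≤ M) (hζ : |ζ| ≤ M)
    (h : y + α * a + β * b + ζ * c = 0) : |y| ≤ M * (|a| + |b| + |c|) := by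
  have e : y = -(α * a + β * b + ζ * c) := by linarith
  rw [e, abs_neg]
  have h1 := abs_add_three (α * a) (β * b) (ζ * c)
  rw [abs_mul, abs_mul, abs_mul] at h1
  have h2 := mul_le_mul_of_nonneg_right hα (abs_nonneg a)
  have h3 := mul_le_mul_of_nonneg_right hβ (abs_nonneg b)
  have h4 := mul_le_mul_of_nonneg_right hζ (abs_nonneg c)
  linarith

/-- What the boundary conditions give. -/
lemma ke_bc {L : ℝ} {P : BC} (hP : P.Valid) {M : ℝ}
    (hM : ∀ i, |P.α i| ≤ M ∧ |P.β i| ≤ M ∧ |P.ζ i| ≤ M) {z : ℝ → ℝ → ℝ} {t : ℝ}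
    (hb : ∀ i, bop L P z i t = 0) :
    |px L z L t| ≤ M * (|z 0 t| + |z L t|) ∧
    |z 0 t * px L (px L z) 0 t| ≤ |z 0 t| * (M * (|z 0 t| + |z L t| + |px L z 0 t|)) ∧
    |z L t * px L (px L z) L t| ≤ |z L t| * (M * (|z 0 t| + |z L t| + |px L z 0 t|)) := by
  have hM0 : 0 ≤ M := (abs_nonneg _).trans (hM 0).1
  have b0 := hb 0
  have b1 := hb 1
  have b2 := hb 2
  have v0 := hP 0
  have v1 := hP 1
  have v2 := hP 2
  refine ⟨?_, ?_, ?_⟩
  · cases hd : P.dL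
    · have j2 : P.j 2 = 1 := by simp [BC.j, hd]
      rw [j2] at v2
      simp only [bop, j2, ept, v2.2 (by norm_num)] at b2
      have := ke_lin (c := 0) (ζ := 0) (y := px L z L t) (a := z 0 t) (b := z L t) (hM 2).1
        (hM 2).2.1 (by simpa using hM0) (by simpa using b2)
      simpa using this
    · have j1 : P.j 1 = 1 := by simp [BC.j, hd]
      rw [j1] at v1
      simp only [bop, j1, ept, v1.2 (by norm_num)] at b1
      have := ke_lin (c := 0) (ζ := 0) (y := px L z L t) (a := z 0 t) (b := z L t) (hM 1).1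
        (hM 1).2.1 (by simpa using hM0) (by simpa using b1)
      simpa using this
  · cases hd : P.d0
    · have j0 : P.j 0 = 0 := by simp [BC.j, hd]
      rw [j0] at v0
      simp only [bop, j0, ept, v0.2 (by norm_num), (v0.1 rfl).1, (v0.1 rfl).2] at b0
      have : z 0 t = 0 := by simpa using b0
      simp [this]
    · have j0 : P.j 0 = 2 := by simp [BC.j, hd]
      simp only [bop, j0, ept] at b0
      rw [abs_mul]
      exact mul_le_mul_of_nonneg_left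
        (ke_lin (hM 0).1 (hM 0).2.1 (hM 0).2.2 (by simpa using b0)) (abs_nonneg _)
  · cases hd : P.dL
    · have j1 : P.j 1 = 0 := by simp [BC.j, hd]
      rw [j1] at v1
      simp only [bop, j1, ept, v1.2 (by norm_num), (v1.1 rfl).1, (v1.1 rfl).2] at b1
      have : z L t = 0 := by simpa using b1
      simp [this]
    · have j2 : P.j 2 = 2 := by simp [BC.j, hd]
      simp only [bop, j2, ept] at b2
      rw [abs_mul]
      exact mul_le_mul_of_nonneg_left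
        (ke_lin (hM 2).1 (hM 2).2.1 (hM 2).2.2 (by simpa using b2)) (abs_nonneg _)

lemma ke_bdry {ρ M : ℝ} (hρ : 0 ≤ ρ) (hM : 0 ≤ M) : ∃ B, 0 ≤ B ∧ ∀ a b c p qa qb : ℝ,
    |p| ≤ M * (|a| + |b|) → |a * qa| ≤ |a| * (M * (|a| + |b| + |c|)) →
    |b * qb| ≤ |b| * (M * (|a| + |b| + |c|)) →
    0 ≤ (2 * ρ * (b * qb) - 2 * b * p - ρ * p ^ 2) - (2 * (a * qa) - 2 * a * c - c ^ 2) +
      B * (a ^ 2 + b ^ 2) := by
  refine ⟨2 * (2 * ρ * M + 4 * M + ρ * M ^ 2 + (ρ * M + M + 1) ^ 2), by positivity,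
    fun a b c p qa qb h1 h2 h3 => ?_⟩
  have ha := abs_nonneg a
  have hb := abs_nonneg b
  have hc := abs_nonneg c
  set s := |a| + |b| with hs
  have hs0 : 0 ≤ s := by positivity
  have hs2 : s ^ 2 ≤ 2 * (a ^ 2 + b ^ 2) := by
    rw [← sq_abs a, ← sq_abs b, hs]
    nlinarith [sq_nonneg (|a| - |b|)]
  have k0 : 0 ≤ M * (s + |c|) := by positivity
  have k1 : -(s * (M * (s + |c|))) ≤ b * qb := by
    have := mul_le_mul_of_nonneg_right (show |b| ≤ s by linarith) k0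
    linarith [neg_abs_le (b * qb)]
  have k2 : a * qa ≤ s * (M * (s + |c|)) := by
    have := mul_le_mul_of_nonneg_right (show |a| ≤ s by linarith) k0
    linarith [le_abs_self (a * qa)]
  have k3 : b * p ≤ s * (M * s) := by
    have h4 : |b * p| ≤ s * (M * s) := by
      rw [abs_mul]
      exact mul_le_mul (by linarith) h1 (abs_nonneg _) hs0
    linarith [le_abs_self (b * p)]
  have k4 : p ^ 2 ≤ (M * s) ^ 2 := by
    rw [← sq_abs p]
    exact pow_le_pow_left₀ (abs_nonneg _) h1 2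
  have k5 : -(s * |c|) ≤ a * c := by
    have h4 : |a * c| ≤ s * |c| := by
      rw [abs_mul]
      exact mul_le_mul_of_nonneg_right (by linarith) hc
    linarith [neg_abs_le (a * c)]
  have k6 : c ^ 2 = |c| ^ 2 := (sq_abs c).symm
  have k7 := mul_le_mul_of_nonneg_left k1 hρ
  have k8 := mul_le_mul_of_nonneg_left k4 hρ
  have k9 := mul_le_mul_of_nonneg_left hs2
    (show 0 ≤ 2 * ρ * M + 4 * M + ρ * M ^ 2 + (ρ * M + M + 1) ^ 2 by positivity)
  nlinarith [sq_nonneg ((ρ * M + M + 1) * s - |c|)]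

/-- The one-dimensional form of the energy inequality. -/
lemma ke_one {L K B D : ℝ} (hL : 0 < L) (hK : 0 ≤ K) (hB : 0 ≤ B) (hD : 0 ≤ D)
    {q₀ q₁ q₂ q₃ w : ℝ → ℝ} (c₀ : ContinuousOn q₀ (Icc 0 L)) (c₁ : ContinuousOn q₁ (Icc 0 L))
    (c₂ : ContinuousOn q₂ (Icc 0 L)) (c₃ : ContinuousOn q₃ (Icc 0 L))
    (cw : ContinuousOn w (Icc 0 L)) (d₀ : ∀ x ∈ Ioo 0 L, HasDerivAt q₀ (q₁ x) x)
    (d₁ : ∀ x ∈ Ioo 0 L, HasDerivAt q₁ (q₂ x) x) (d₂ : ∀ x ∈ Ioo 0 L, HasDerivAt q₂ (q₃ x) x)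
    (hr : ∀ x ∈ Ioo 0 L, |w x + q₃ x| ≤ K * (|q₀ x| + |q₁ x| + D))
    (hb : 0 ≤ (2 * (1 + L) * (q₀ L * q₂ L) - 2 * q₀ L * q₁ L - (1 + L) * q₁ L ^ 2) -
      (2 * (q₀ 0 * q₂ 0) - 2 * q₀ 0 * q₁ 0 - q₁ 0 ^ 2) + B * (q₀ 0 ^ 2 + q₀ L ^ 2)) :
    ∫ x in (0 : ℝ)..L, (1 + x) * (2 * q₀ x * w x) ≤
      (2 * ((1 + L) * K) + 2 * ((1 + L) * K) ^ 2 + B * (2 / L) + B ^ 2 + L) *
        ((∫ x in (0 : ℝ)..L, (1 + x) * q₀ x ^ 2) + D ^ 2) := by
  set A := (1 + L) * K with hA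
  have hA0 : 0 ≤ A := by positivity
  set C₁ := 2 * A + 2 * A ^ 2 + B * (2 / L) + B ^ 2 with hC₁
  have hC0 : 0 ≤ C₁ := by positivity
  let Θ : ℝ → ℝ := fun x => 2 * (1 + x) * (q₀ x * q₂ x) - 2 * q₀ x * q₁ x - (1 + x) * q₁ x ^ 2 +
    B * ((2 / L * x - 1) * q₀ x ^ 2)
  let Θ' : ℝ → ℝ := fun x => 2 * (1 + x) * q₀ x * q₃ x - 3 * q₁ x ^ 2 +
    B * (2 / L * q₀ x ^ 2 + (2 / L * x - 1) * (2 * q₀ x * q₁ x))
  have ii : ∀ {f : ℝ → ℝ}, ContinuousOn f (Icc 0 L) → IntervalIntegrable f volume 0 L :=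
    fun hf => hf.intervalIntegrable_of_Icc hL.le
  have cΘ : ContinuousOn Θ (Icc 0 L) := by fun_prop
  have cΘ' : ContinuousOn Θ' (Icc 0 L) := by fun_prop
  have dΘ : ∀ x ∈ Ioo 0 L, HasDerivAt Θ (Θ' x) x := by
    intro x hx
    have e0 := d₀ x hx
    have e1 := d₁ x hx
    have e2 := d₂ x hx
    have e3 : HasDerivAt (fun y : ℝ => 1 + y) 1 x := (hasDerivAt_id x).const_add 1
    have e4 : HasDerivAt (fun y : ℝ => 2 / L * y - 1) (2 / L * 1) x :=
      ((hasDerivAt_id x).const_mul _).sub_const 1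
    refine (((((e3.const_mul 2).mul (e0.mul e2)).sub ((e0.const_mul 2).mul e1)).sub
      (e3.mul (e1.pow 2))).add ((e4.mul (e0.pow 2)).const_mul B)).congr_deriv ?_
    simp only [Θ', Pi.mul_apply, Pi.pow_apply]
    push_cast
    ring
  have h1 := intervalIntegral.integral_eq_sub_of_hasDerivAt_of_le hL.le cΘ dΘ (ii cΘ')
  have h2 : 0 ≤ Θ L - Θ 0 := by
    have e : 2 / L * L = 2 := by field_simp
    simp only [Θ, e]
    linarith
  have cg : ContinuousOn (fun x => (1 + x) * (2 * q₀ x * w x)) (Icc 0 L) := by fun_prop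
  have cE : ContinuousOn (fun x => (1 + x) * q₀ x ^ 2) (Icc 0 L) := by fun_prop
  have h3 : ∫ x in (0 : ℝ)..L, ((1 + x) * (2 * q₀ x * w x) + Θ' x) ≤
      ∫ x in (0 : ℝ)..L, (C₁ * ((1 + x) * q₀ x ^ 2) + D ^ 2) := by
    refine intervalIntegral.integral_mono_on_of_le_Ioo hL.le (ii (cg.add cΘ'))
      (ii (by fun_prop)) fun x hx => ?_
    have k1 : (1 + x) * (q₀ x * (w x + q₃ x)) ≤ A * (|q₀ x| * (|q₀ x| + |q₁ x| + D)) := by
      have k2 : q₀ x * (w x + q₃ x) ≤ |q₀ x| * (K * (|q₀ x| + |q₁ x| + D)) := by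
        refine (le_abs_self _).trans ?_
        rw [abs_mul]
        exact mul_le_mul_of_nonneg_left (hr x hx) (abs_nonneg _)
      calc _ ≤ (1 + x) * (|q₀ x| * (K * (|q₀ x| + |q₁ x| + D))) :=
            mul_le_mul_of_nonneg_left k2 (by linarith [hx.1])
        _ ≤ (1 + L) * (|q₀ x| * (K * (|q₀ x| + |q₁ x| + D))) :=
            mul_le_mul_of_nonneg_right (by linarith [hx.2]) (by positivity)
        _ = _ := by rw [hA]; ring
    have k3 : (2 / L * x - 1) * (q₀ x * q₁ x) ≤ |q₀ x| * |q₁ x| := by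
      refine (le_abs_self _).trans ?_
      rw [abs_mul, abs_mul]
      refine mul_le_of_le_one_left (by positivity) (abs_le.mpr ⟨?_, ?_⟩)
      · have : 0 ≤ 2 / L * x := mul_nonneg (by positivity) hx.1.le
        linarith
      · have : 2 / L * x ≤ 2 := by
          rw [div_mul_eq_mul_div, div_le_iff₀ hL]
          linarith [hx.2]
        linarith
    have k4 := mul_le_mul_of_nonneg_left k3 hB
    have k5 : C₁ * q₀ x ^ 2 ≤ C₁ * ((1 + x) * q₀ x ^ 2) :=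
      mul_le_mul_of_nonneg_left (le_mul_of_one_le_left (sq_nonneg _) (by linarith [hx.1])) hC0
    have s0 := sq_abs (q₀ x)
    have s1 := sq_abs (q₁ x)
    have k6 : 2 * (A * (|q₀ x| * (|q₀ x| + |q₁ x| + D))) + 2 * (B * (|q₀ x| * |q₁ x|)) ≤
        (2 * A + 2 * A ^ 2 + B ^ 2) * |q₀ x| ^ 2 + 2 * |q₁ x| ^ 2 + D ^ 2 := by
      nlinarith [sq_nonneg (A * |q₀ x| - |q₁ x|), sq_nonneg (A * |q₀ x| - D),
        sq_nonneg (B * |q₀ x| - |q₁ x|)]
    rw [s0, s1] at k6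
    simp only [Θ']
    nlinarith [sq_nonneg (q₁ x)]
  rw [intervalIntegral.integral_add (ii cg) (ii cΘ'), h1,
    intervalIntegral.integral_add (ii (by fun_prop)) (ii (by fun_prop)),
    intervalIntegral.integral_const_mul, intervalIntegral.integral_const] at h3
  have h4 : 0 ≤ ∫ x in (0 : ℝ)..L, (1 + x) * q₀ x ^ 2 :=
    intervalIntegral.integral_nonneg hL.le fun x hx => mul_nonneg (by linarith [hx.1]) (sq_nonneg _)
  simp only [sub_zero, smul_eq_mul] at h3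
  nlinarith [mul_nonneg hC0 (sq_nonneg D), mul_nonneg hL.le h4]

/-- With `ρ = 1 + x`:
`E' = -[2 ρ z z_xx - 2 z z_x - ρ z_x²] - 3 ∫ z_x² + 2 ∫ ρ z (z_t + z_xxx)`. By the boundary
conditions the bracket contributes at most `C (z(0)² + z(L)²)` (the term `-z_x(0)²` absorbs the
products with `z_x(0)`), and `z(y)² ≤ (1/L + 1/ε) ∫ z² + ε ∫ z_x²`. -/
theorem ke {L : ℝ} (hL : 0 < L) {P : BC} (hP : P.Valid) {K : ℝ} (hK : 0 ≤ K) :
    ∃ C, 0 ≤ C ∧ ∀ (t₀ t₁ : ℝ) (z : ℝ → ℝ → ℝ) (D t : ℝ), SmOn L (Icc t₀ t₁) z → t ∈ Ioo t₀ t₁ →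
      0 ≤ D →
      (∀ x ∈ Ioo 0 L,
        |pt z x t + px L (px L (px L z)) x t| ≤ K * (|z x t| + |px L z x t| + D)) →
      (∀ i, bop L P z i t = 0) →
      ∃ e, HasDerivAt (fun τ => ∫ x in (0 : ℝ)..L, (1 + x) * z x τ ^ 2) e t ∧
        e ≤ C * ((∫ x in (0 : ℝ)..L, (1 + x) * z x t ^ 2) + D ^ 2) := by
  set M := ∑ i, (|P.α i| + |P.β i| + |P.ζ i|) with hM
  have hMi : ∀ i, |P.α i| ≤ M ∧ |P.β i| ≤ M ∧ |P.ζ i| ≤ M := fun i => by
    have := Finset.single_le_sum (f := fun i => |P.α i| + |P.β i| + |P.ζ i|)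
      (fun i _ => by positivity) (Finset.mem_univ i)
    have h1 := abs_nonneg (P.α i)
    have h2 := abs_nonneg (P.β i)
    have h3 := abs_nonneg (P.ζ i)
    refine ⟨?_, ?_, ?_⟩ <;> linarith
  have hM0 : 0 ≤ M := (abs_nonneg _).trans (hMi 0).1
  obtain ⟨B, hB0, hB⟩ := ke_bdry (ρ := 1 + L) (by linarith) hM0
  refine ⟨2 * ((1 + L) * K) + 2 * ((1 + L) * K) ^ 2 + B * (2 / L) + B ^ 2 + L, by positivity,
    fun t₀ t₁ z D t hz ht hD hr hb => ?_⟩
  have hI : UniqueDiffOn ℝ (Icc t₀ t₁) := uniqueDiffOn_Icc (ht.1.trans ht.2)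
  have ht' : t ∈ Icc t₀ t₁ := Ioo_subset_Icc_self ht
  have hn : ∀ {τ : ℝ}, τ ∈ Ioo t₀ t₁ → Icc t₀ t₁ ∈ 𝓝 τ := fun h => Icc_mem_nhds h.1 h.2
  have hz1 := hz.px hL hI
  have hz2 := hz1.px hL hI
  have hz3 := hz2.px hL hI
  have hzt := hz.ptw hL hI
  have cx : CtOn L (Icc t₀ t₁) fun x _ => 1 + x := by
    unfold CtOn
    fun_prop
  refine ⟨∫ x in (0 : ℝ)..L, (1 + x) * (2 * z x t * ptw (Icc t₀ t₁) z x t), ?_, ?_⟩
  · refine hasDerivAt_integral_x (f := fun x τ => (1 + x) * z x τ ^ 2)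
      (ft := fun x τ => (1 + x) * (2 * z x τ * ptw (Icc t₀ t₁) z x τ)) hL.le
      (ke_ct_mul cx (hz.pow 2).ctOn) (ke_ct_mul cx ((hz.const_mul 2).mul hzt).ctOn)
      (fun x hx τ hτ => ?_) ht
    have := hz.hasDerivAt_t (Ioo_subset_Icc_self hx) (hn hτ)
    rw [pt_eq_ptw z x (hn hτ)] at this
    refine ((this.pow 2).const_mul (1 + x)).congr_deriv ?_
    push_cast
    ring
  · obtain ⟨b1, b2, b3⟩ := ke_bc hP hMi hb
    refine ke_one hL hK hB0 hD (hz.ctOn.slice_x ht') (hz1.ctOn.slice_x ht') (hz2.ctOn.slice_x ht')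
      (hz3.ctOn.slice_x ht') (hzt.ctOn.slice_x ht') (fun x hx => hz.hasDerivAt_x hx ht')
      (fun x hx => hz1.hasDerivAt_x hx ht') (fun x hx => hz2.hasDerivAt_x hx ht')
      (fun x hx => ?_) (hB _ _ _ _ _ _ b1 b2 b3)
    rw [← pt_eq_ptw z x (hn ht)]
    exact hr x hx

lemma bop_sub {L : ℝ} (hL : 0 < L) (P : BC) {I : Set ℝ} (hI : UniqueDiffOn ℝ I)
    {u u' : ℝ → ℝ → ℝ} (hu : SmOn L I u) (hu' : SmOn L I u') (i : Fin 3) {t : ℝ} (ht : t ∈ I) :
    bop L P (fun x t => u x t - u' x t) i t = bop L P u i t - bop L P u' i t := by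
  unfold bop
  rw [ke_iter_sub hL hI hu hu' _ ht _ (ke_ept_mem hL i),
    px_sub hL hu hu' (left_mem_Icc.mpr hL.le) ht]
  ring

lemma bop_congr {L : ℝ} (hL : 0 < L) (P : BC) {u u' : ℝ → ℝ → ℝ} {t : ℝ}
    (h : ∀ x ∈ Icc 0 L, u x t = u' x t) (i : Fin 3) : bop L P u i t = bop L P u' i t := by
  unfold bop
  rw [ke_iter_congr h _ _ (ke_ept_mem hL i), px_congr h (left_mem_Icc.mpr hL.le),
    h 0 (left_mem_Icc.mpr hL.le), h L (right_mem_Icc.mpr hL.le)]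

lemma contDiffOn_bop {L : ℝ} (hL : 0 < L) (P : BC) {I : Set ℝ} (hI : UniqueDiffOn ℝ I)
    {u : ℝ → ℝ → ℝ} (hu : SmOn L I u) (i : Fin 3) : ContDiffOn ℝ (⊤ : ℕ∞) (bop L P u i) I := by
  have h0 : (0 : ℝ) ∈ Icc 0 L := left_mem_Icc.mpr hL.le
  have h1 : L ∈ Icc 0 L := right_mem_Icc.mpr hL.le
  exact ((((ke_smOn_iter hL hI hu _).slice_t (ke_ept_mem hL i)).add
    (contDiffOn_const.mul (hu.slice_t h0))).add (contDiffOn_const.mul (hu.slice_t h1))).add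
    (contDiffOn_const.mul ((hu.px hL hI).slice_t h0))

theorem ku {L t₀ t₁ : ℝ} (hL : 0 < L) {P : BC} (hP : P.Valid) (ht : t₀ < t₁) {u u' : ℝ → ℝ → ℝ}
    (hu : KSol L t₀ t₁ u) (hu' : KSol L t₀ t₁ u')
    (hb : ∀ i, ∀ t ∈ Ioo t₀ t₁, bop L P u i t = bop L P u' i t)
    (h₀ : ∀ x ∈ Icc 0 L, u x t₀ = u' x t₀) : ∀ x ∈ Icc 0 L, ∀ t ∈ Icc t₀ t₁, u x t = u' x t := by
  have hI : UniqueDiffOn ℝ (Icc t₀ t₁) := uniqueDiffOn_Icc ht
  obtain ⟨K₁, hK₁, h1⟩ := (hu.1.px hL hI).ctOn.bdd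
  obtain ⟨K₂, hK₂, h2⟩ := hu'.1.ctOn.bdd
  obtain ⟨C, hC, hke⟩ := ke hL hP (K := 1 + K₁ + K₂) (by positivity)
  have hz := hu.1.sub hu'.1
  have cx : CtOn L (Icc t₀ t₁) fun x _ => 1 + x := by
    unfold CtOn
    fun_prop
  have key := eq_zero_of_deriv_le (C := C)
    (E := fun τ => ∫ x in (0 : ℝ)..L, (1 + x) * (u x τ - u' x τ) ^ 2)
    (CtOn.continuousOn_integral (f := fun x τ => (1 + x) * (u x τ - u' x τ) ^ 2) hL.le
      (ke_ct_mul cx (hz.pow 2).ctOn)) ?_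
    (fun τ _ => intervalIntegral.integral_nonneg hL.le fun x hx =>
      mul_nonneg (by linarith [hx.1]) (sq_nonneg _)) (fun τ hτ => ?_)
  · intro x hx t htt
    exact sub_eq_zero.mp (ke_zero_of_integral hL (hz.ctOn.slice_x htt) (key t htt) x hx)
  · rw [intervalIntegral.integral_congr (g := fun _ => 0)]
    · simp
    · intro x hx
      rw [uIcc_of_le hL.le] at hx
      simp [h₀ x hx]
  · have hτ' : τ ∈ Icc t₀ t₁ := Ioo_subset_Icc_self hτ
    refine (hke t₀ t₁ (fun x t => u x t - u' x t) 0 τ hz hτ le_rfl (fun x hx => ?_)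
      (fun i => by rw [bop_sub hL P hI hu.1 hu'.1 i hτ', hb i τ hτ, sub_self])).imp
      fun e he => ⟨he.1, by simpa using he.2⟩
    have hx' : x ∈ Icc 0 L := Ioo_subset_Icc_self hx
    have hn : Icc t₀ t₁ ∈ 𝓝 τ := Icc_mem_nhds hτ.1 hτ.2
    have e1 : pt (fun x t => u x t - u' x t) x τ = pt u x τ - pt u' x τ :=
      ((hu.1.hasDerivAt_t hx' hn).sub (hu'.1.hasDerivAt_t hx' hn)).deriv
    have e3 : px L (px L (px L fun x t => u x t - u' x t)) x τ =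
        px L (px L (px L u)) x τ - px L (px L (px L u')) x τ :=
      ke_iter_sub hL hI hu.1 hu'.1 3 hτ' x hx'
    rw [e1, e3, px_sub hL hu.1 hu'.1 hx' hτ']
    have q1 := hu.2 x hx τ hτ
    have q2 := hu'.2 x hx τ hτ
    have e4 : pt u x τ - pt u' x τ + (px L (px L (px L u)) x τ - px L (px L (px L u')) x τ) =
        -((px L u x τ - px L u' x τ) + (u x τ - u' x τ) * px L u x τ +
          u' x τ * (px L u x τ - px L u' x τ)) := by linarith
    rw [e4, abs_neg]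
    refine (abs_add_three _ _ _).trans ?_
    rw [abs_mul, abs_mul]
    have a1 := mul_le_mul_of_nonneg_left (h1 x hx' τ hτ') (abs_nonneg (u x τ - u' x τ))
    have a2 := mul_le_mul_of_nonneg_right (h2 x hx' τ hτ')
      (abs_nonneg (px L u x τ - px L u' x τ))
    have a3 := abs_nonneg (u x τ - u' x τ)
    have a4 := abs_nonneg (px L u x τ - px L u' x τ)
    nlinarith [mul_nonneg hK₁ a4, mul_nonneg hK₂ a3]

end Pool.Agent.Lib.MP_14aec4_an.W
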