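import Pool.Agent.Lib.MP_14aec4_an.FB

/-!
The sharp smoothing estimate for the Laplace transform along the roots of `λ³ = ± s`.
The proof is by duality: the Gram kernel of the exponentials on the half-line is
`(λ + conj λ')⁻¹`, and its real part satisfies Schur's test with the function `om ^ (-1/6)`.
-/

noncomputable section

open MeasureTheory Set Filter Topology FourierTransform
open scoped ENNReal ComplexConjugate

namespace Pool.Agent.Lib.MP_14aec4_an.W

/-- A root is in a sector or close to the imaginary axis. -/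
lemma kato_sector {γ τ : ℝ} (hγ : 0 < γ) {l : ℂ} (hre : 0 < l.re)
    (h3 : l ^ 3 = sv γ τ ∨ l ^ 3 = -sv γ τ) :
    ‖l‖ ≤ 2 * l.re ∨ (l ^ 3 = -sv γ τ ∧ 2 * l.re * ‖l‖ ^ 2 ≤ γ) := by
  by_cases h : ‖l‖ ≤ 2 * l.re
  · exact Or.inl h
  right
  have h' : 2 * l.re < ‖l‖ := not_le.mp h
  have hn : ‖l‖ ^ 2 = l.re ^ 2 + l.im ^ 2 := by
    rw [Complex.sq_norm, Complex.normSq_apply]; ring
  have hc : (l ^ 3).re = l.re * (4 * l.re ^ 2 - 3 * ‖l‖ ^ 2) := by
    rw [hn]; simp only [pow_succ, pow_zero, one_mul, Complex.mul_re, Complex.mul_im]; ring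
  have hs : (sv γ τ).re = γ := by simp [sv]
  have h4 : 4 * l.re ^ 2 ≤ ‖l‖ ^ 2 := by nlinarith
  rcases h3 with h3 | h3
  · exfalso
    rw [h3, hs] at hc
    have : l.re * (4 * l.re ^ 2 - 3 * ‖l‖ ^ 2) ≤ 0 :=
      mul_nonpos_of_nonneg_of_nonpos hre.le (by nlinarith)
    linarith
  · refine ⟨h3, ?_⟩
    rw [h3, Complex.neg_re, hs] at hc
    nlinarith [mul_le_mul_of_nonneg_left h4 hre.le]

/-- The real part of the reproducing kernel. -/
def kato_k (l m : ℂ) : ℝ := ((l + conj m)⁻¹).re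

lemma kato_k_eq (l m : ℂ) : kato_k l m = (l.re + m.re) / ‖l + conj m‖ ^ 2 := by
  unfold kato_k
  rw [Complex.inv_re, Complex.sq_norm]
  simp

lemma kato_k_symm (l m : ℂ) : kato_k l m = kato_k m l := by
  rw [kato_k_eq, kato_k_eq, ← Complex.norm_conj (m + conj l), add_comm m.re]
  simp [add_comm]

lemma kato_k_nonneg {l m : ℂ} (hl : 0 < l.re) (hm : 0 < m.re) : 0 ≤ kato_k l m := by
  rw [kato_k_eq]; positivity

lemma kato_pt {γ τ τ' : ℝ} (hγ : 0 < γ) {l m : ℂ} (hl : 0 < l.re) (hm : 0 < m.re)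
    (h3 : l ^ 3 = sv γ τ ∨ l ^ 3 = -sv γ τ) (h3' : m ^ 3 = sv γ τ' ∨ m ^ 3 = -sv γ τ') :
    (kato_k l m * ‖l‖ ≤ 4 ∧ kato_k l m * ‖m‖ ≤ 4) ∨
      (‖l‖ ≤ 2 * ‖m‖ ∧
        kato_k l m * (4 * γ ^ 2 + (2 * Real.pi * (τ' - τ)) ^ 2) ≤ 245 / 2 * γ * ‖m‖ ^ 2) := by
  have hk0 := kato_k_nonneg hl hm
  set D := ‖l + conj m‖ with hD
  have hσ : l.re + m.re ≤ D := by
    have := Complex.re_le_norm (l + conj m)
    simpa using this
  have hD0 : 0 < D := by linarith
  have hk : kato_k l m * D ^ 2 = l.re + m.re := by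
    rw [kato_k_eq, ← hD]; field_simp
  have hkD : kato_k l m * D ≤ 1 := by
    have : kato_k l m * D * D ≤ 1 * D := by nlinarith
    exact le_of_mul_le_mul_right this hD0
  have h1 : ‖l‖ ≤ D + ‖m‖ := by
    have := norm_sub_le (l + conj m) (conj m)
    rwa [add_sub_cancel_right, Complex.norm_conj] at this
  have h2 : ‖m‖ ≤ D + ‖l‖ := by
    have := norm_sub_le (l + conj m) l
    rwa [add_sub_cancel_left, Complex.norm_conj] at this
  by_cases hA : ‖l‖ ≤ 4 * D ∧ ‖m‖ ≤ 4 * D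
  · left
    constructor
    · nlinarith [mul_le_mul_of_nonneg_left hA.1 hk0]
    · nlinarith [mul_le_mul_of_nonneg_left hA.2 hk0]
  right
  have hl0 := norm_nonneg l
  have hm0 := norm_nonneg m
  have e1 : ‖l‖ ≤ 2 * ‖m‖ := by
    by_contra hc
    exact hA ⟨by linarith [not_le.mp hc], by linarith [not_le.mp hc]⟩
  have e2 : ‖m‖ ≤ 2 * ‖l‖ := by
    by_contra hc
    exact hA ⟨by linarith [not_le.mp hc], by linarith [not_le.mp hc]⟩
  refine ⟨e1, ?_⟩
  rcases kato_sector hγ hl h3 with hs | ⟨hs, hs2⟩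
  · exact absurd ⟨by linarith, by linarith⟩ hA
  rcases kato_sector hγ hm h3' with ht | ⟨ht, ht2⟩
  · exact absurd ⟨by linarith, by linarith⟩ hA
  have hid : (l + conj m) * (l ^ 2 - l * conj m + conj m ^ 2) =
      -((2 * γ : ℝ) + (-(2 * Real.pi * (τ' - τ)) : ℝ) * Complex.I) := by
    have : (l + conj m) * (l ^ 2 - l * conj m + conj m ^ 2) = l ^ 3 + conj (m ^ 3) := by
      rw [map_pow]; ring
    rw [this, hs, ht]
    simp only [sv, map_neg, map_add, map_mul, Complex.conj_ofReal, Complex.conj_I, map_ofNat]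
    push_cast
    ring
  have hq : ‖l ^ 2 - l * conj m + conj m ^ 2‖ ≤ 7 * ‖m‖ ^ 2 := by
    refine (norm_add_le _ _).trans ((add_le_add_left (norm_sub_le _ _) _).trans ?_)
    rw [norm_pow, norm_pow, norm_mul, Complex.norm_conj]
    nlinarith
  have hQ : 4 * γ ^ 2 + (2 * Real.pi * (τ' - τ)) ^ 2 ≤ D ^ 2 * (7 * ‖m‖ ^ 2) ^ 2 := by
    have e3 := congrArg (fun z : ℂ => ‖z‖ ^ 2) hid
    simp only [norm_neg, norm_mul] at e3
    rw [Complex.sq_norm (_ + _ * Complex.I), Complex.normSq_add_mul_I, mul_pow, ← hD] at e3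
    calc _ = D ^ 2 * ‖l ^ 2 - l * conj m + conj m ^ 2‖ ^ 2 := by rw [e3]; ring
      _ ≤ _ := by gcongr
  have hr : (l.re + m.re) * ‖m‖ ^ 2 ≤ 5 / 2 * γ := by
    have : ‖m‖ ^ 2 ≤ 4 * ‖l‖ ^ 2 := by nlinarith
    nlinarith [mul_le_mul_of_nonneg_left this hl.le]
  calc _ ≤ kato_k l m * (D ^ 2 * (7 * ‖m‖ ^ 2) ^ 2) := mul_le_mul_of_nonneg_left hQ hk0
    _ = 49 * ((l.re + m.re) * ‖m‖ ^ 2) * ‖m‖ ^ 2 := by rw [← hk]; ring
    _ ≤ 49 * (5 / 2 * γ) * ‖m‖ ^ 2 := by gcongr
    _ ≤ _ := mul_le_mul_of_nonneg_right (by linarith) (by positivity)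

/-- The majorant away from the diagonal. -/
def kato_f (ρ t : ℝ) : ℝ :=
  (Ioc 0 (ρ ^ 6)).indicator (fun t => 4 / ρ ^ 2 * t ^ (-(5 : ℝ) / 6)) t +
    (Ioi (ρ ^ 6)).indicator (fun t => 4 * t ^ (-(7 : ℝ) / 6)) t

lemma kato_f_nonneg (ρ t : ℝ) : 0 ≤ kato_f ρ t := by
  unfold kato_f
  refine add_nonneg (indicator_nonneg (fun s hs => ?_) _) (indicator_nonneg (fun s hs => ?_) _)
  · have := Real.rpow_nonneg hs.1.le (-(5 : ℝ) / 6)
    positivity
  · have h0 : 0 ≤ s := le_trans (by positivity) (le_of_lt hs)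
    have := Real.rpow_nonneg h0 (-(7 : ℝ) / 6)
    positivity

lemma kato_f_int {ρ : ℝ} (hρ : 0 < ρ) : Integrable (kato_f ρ) ∧ ∫ t, kato_f ρ t = 48 / ρ := by
  have ha : 0 < ρ ^ 6 := by positivity
  have i1 : IntegrableOn (fun t : ℝ => 4 / ρ ^ 2 * t ^ (-(5 : ℝ) / 6)) (Ioc 0 (ρ ^ 6)) :=
    ((intervalIntegral.intervalIntegrable_rpow' (by norm_num)).const_mul _).1
  have i2 : IntegrableOn (fun t : ℝ => 4 * t ^ (-(7 : ℝ) / 6)) (Ioi (ρ ^ 6)) :=
    (integrableOn_Ioi_rpow_of_lt (by norm_num) ha).const_mul _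
  have j1 := i1.integrable_indicator measurableSet_Ioc
  have j2 := i2.integrable_indicator measurableSet_Ioi
  refine ⟨j1.add j2, ?_⟩
  unfold kato_f
  rw [integral_add j1 j2, integral_indicator measurableSet_Ioc,
    integral_indicator measurableSet_Ioi, ← intervalIntegral.integral_of_le ha.le,
    intervalIntegral.integral_const_mul, integral_const_mul,
    integral_rpow (Or.inl (by norm_num)), integral_Ioi_rpow_of_lt (by norm_num) ha,
    Real.zero_rpow (by norm_num), ← Real.rpow_natCast ρ 6, ← Real.rpow_mul hρ.le,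
    ← Real.rpow_mul hρ.le]
  norm_num
  rw [Real.rpow_neg_one]
  field_simp
  norm_num

lemma kato_f_ge {ρ ρ' t k : ℝ} (hρ : 0 < ρ) (hρ' : 0 < ρ') (ht : 0 < t) (htρ : t ≤ ρ' ^ 6)
    (h1 : k * ρ ^ 2 ≤ 4) (h2 : k * ρ' ^ 2 ≤ 4) : (ρ' ^ 5)⁻¹ * k ≤ kato_f ρ t := by
  have key : ∀ n : ℕ, (ρ' ^ n)⁻¹ ≤ t ^ (-(n : ℝ) / 6) := by
    intro n
    have := Real.rpow_le_rpow_of_nonpos ht htρ
      (show -(n : ℝ) / 6 ≤ 0 by have : (0 : ℝ) ≤ n := Nat.cast_nonneg n; linarith)
    rwa [← Real.rpow_natCast ρ' 6, ← Real.rpow_mul hρ'.le,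
      show ((6 : ℕ) : ℝ) * (-(n : ℝ) / 6) = -(n : ℝ) by push_cast; ring, Real.rpow_neg hρ'.le,
      Real.rpow_natCast] at this
  unfold kato_f
  by_cases h : t ≤ ρ ^ 6
  · rw [indicator_of_mem (show t ∈ Ioc 0 (ρ ^ 6) from ⟨ht, h⟩),
      indicator_of_notMem (show t ∉ Ioi (ρ ^ 6) from not_lt.mpr h), add_zero]
    have h3 : k ≤ 4 / ρ ^ 2 := by rwa [le_div_iff₀ (by positivity)]
    have h4 := key 5
    push_cast at h4
    calc _ ≤ (ρ' ^ 5)⁻¹ * (4 / ρ ^ 2) := by gcongr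
      _ ≤ t ^ (-(5 : ℝ) / 6) * (4 / ρ ^ 2) := by gcongr
      _ = _ := by ring
  · rw [indicator_of_notMem (show t ∉ Ioc 0 (ρ ^ 6) from fun hh => h hh.2),
      indicator_of_mem (show t ∈ Ioi (ρ ^ 6) from not_le.mp h), zero_add]
    have h3 : k ≤ 4 / ρ' ^ 2 := by rwa [le_div_iff₀ (by positivity)]
    have h4 := key 7
    push_cast at h4
    calc _ ≤ (ρ' ^ 5)⁻¹ * (4 / ρ' ^ 2) := by gcongr
      _ = 4 * (ρ' ^ 7)⁻¹ := by field_simp
      _ ≤ _ := by gcongr

lemma kato_poisson {γ : ℝ} (hγ : 0 < γ) (τ : ℝ) :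
    Integrable (fun t : ℝ => (1 + (Real.pi / γ * (t - τ)) ^ 2)⁻¹) ∧
      ∫ t : ℝ, (1 + (Real.pi / γ * (t - τ)) ^ 2)⁻¹ = γ := by
  have hc : 0 < Real.pi / γ := div_pos Real.pi_pos hγ
  refine ⟨(integrable_inv_one_add_sq.comp_mul_left' hc.ne').comp_sub_right τ, ?_⟩
  rw [integral_sub_right_eq_self (fun t : ℝ => (1 + (Real.pi / γ * t) ^ 2)⁻¹) τ,
    Measure.integral_comp_mul_left (fun t : ℝ => (1 + t ^ 2)⁻¹), integral_univ_inv_one_add_sq,
    abs_of_pos (inv_pos.mpr hc), smul_eq_mul]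
  have := Real.pi_pos
  field_simp


def kato_rho (γ τ : ℝ) : ℝ := om γ τ ^ ((1 : ℝ) / 6)

lemma kato_rho_pos {γ : ℝ} (hγ : 0 < γ) (τ : ℝ) : 0 < kato_rho γ τ :=
  Real.rpow_pos_of_pos (om_pos hγ τ) _

lemma kato_rho_pow (γ τ : ℝ) (n : ℕ) : kato_rho γ τ ^ n = om γ τ ^ ((n : ℝ) / 6) := by
  unfold kato_rho
  rw [← Real.rpow_natCast, ← Real.rpow_mul (om_nonneg γ τ)]
  congr 1
  ring

lemma kato_rho_six (γ τ : ℝ) : kato_rho γ τ ^ 6 = om γ τ := by
  rw [kato_rho_pow]
  norm_num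

lemma kato_norm {γ τ : ℝ} {l : ℂ} (h3 : l ^ 3 = sv γ τ ∨ l ^ 3 = -sv γ τ) :
    ‖l‖ = kato_rho γ τ ^ 2 := by
  have h : ‖l‖ ^ 3 = (kato_rho γ τ ^ 2) ^ 3 := by
    rw [← pow_mul, kato_rho_six, ← norm_pow]
    rcases h3 with h3 | h3
    · rw [h3]; rfl
    · rw [h3, norm_neg]; rfl
  exact (pow_left_inj₀ (norm_nonneg _) (by positivity) (by norm_num)).mp h

lemma kato_rho_cont {γ : ℝ} (hγ : 0 < γ) : Continuous (kato_rho γ) := continuous_om_rpow hγ _

lemma kato_k_cont {lm : ℝ → ℂ} (hc : Continuous lm) (hre : ∀ τ, 0 < (lm τ).re) :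
    Continuous fun p : ℝ × ℝ => kato_k (lm p.1) (lm p.2) := by
  unfold kato_k
  refine Complex.continuous_re.comp (Continuous.inv₀ (by fun_prop) fun p h => ?_)
  have h1 := congrArg Complex.re h
  simp only [Complex.add_re, Complex.conj_re, Complex.zero_re] at h1
  linarith [hre p.1, hre p.2]

/-- The hypothesis of Schur's test. -/
lemma kato_test {γ : ℝ} (hγ : 0 < γ) {lm : ℝ → ℂ}
    (hre : ∀ τ, 0 < (lm τ).re) (h3 : ∀ τ, lm τ ^ 3 = sv γ τ ∨ lm τ ^ 3 = -sv γ τ) (R τ : ℝ) :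
    ∫ t in Icc (-R) R, (kato_rho γ t ^ 4)⁻¹ * (kato_rho γ t)⁻¹ * kato_k (lm τ) (lm t) ≤
      142 * (kato_rho γ τ)⁻¹ := by
  have hρ := kato_rho_pos hγ τ
  set ρ := kato_rho γ τ with hρd
  obtain ⟨i1, e1⟩ := kato_f_int hρ
  obtain ⟨i2, e2⟩ := kato_poisson hγ τ
  have i4 : Integrable fun t => kato_f ρ t + kato_f ρ (-t) := i1.add i1.comp_neg
  have i3 : Integrable fun t => kato_f ρ t + kato_f ρ (-t) +
      46 / (γ * ρ) * (1 + (Real.pi / γ * (t - τ)) ^ 2)⁻¹ := i4.add (i2.const_mul (46 / (γ * ρ)))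
  have hg : ∀ t, 0 ≤ kato_f ρ t + kato_f ρ (-t) +
      46 / (γ * ρ) * (1 + (Real.pi / γ * (t - τ)) ^ 2)⁻¹ := fun t => by
    have := kato_f_nonneg ρ t
    have := kato_f_nonneg ρ (-t)
    positivity
  calc _ ≤ ∫ t in Icc (-R) R, (kato_f ρ t + kato_f ρ (-t) +
        46 / (γ * ρ) * (1 + (Real.pi / γ * (t - τ)) ^ 2)⁻¹) := by
        refine integral_mono_of_nonneg (Eventually.of_forall fun t => ?_) i3.integrableOn ?_
        · have := kato_k_nonneg (hre τ) (hre t)
          have := kato_rho_pos hγ t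
          positivity
        · refine ae_restrict_of_ae ?_
          filter_upwards [compl_mem_ae_iff.mpr (measure_singleton (0 : ℝ))] with t ht
          have ht0 : 0 < |t| := abs_pos.mpr ht
          have hρ' := kato_rho_pos hγ t
          have f1 := kato_f_nonneg ρ t
          have f2 := kato_f_nonneg ρ (-t)
          have hP : 0 ≤ 46 / (γ * ρ) * (1 + (Real.pi / γ * (t - τ)) ^ 2)⁻¹ := by positivity
          have n1 := kato_norm (h3 τ)
          have n2 := kato_norm (h3 t)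
          have hk0 := kato_k_nonneg (hre τ) (hre t)
          rcases kato_pt hγ (hre τ) (hre t) (h3 τ) (h3 t) with ⟨a1, a2⟩ | ⟨a1, a2⟩
          · rw [n1] at a1
            rw [n2] at a2
            have h6 : |t| ≤ kato_rho γ t ^ 6 := by
              rw [kato_rho_six]
              nlinarith [abs_le_om γ t, Real.pi_gt_three]
            have h7 := kato_f_ge hρ hρ' ht0 h6 a1 a2
            have h8 : kato_f ρ |t| ≤ kato_f ρ t + kato_f ρ (-t) := by
              rcases abs_choice t with h | h <;> rw [h] <;> linarith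
            rw [← mul_inv, ← pow_succ]
            linarith
          · rw [n1, n2] at a1
            rw [n2] at a2
            have h6 : ρ ≤ 3 / 2 * kato_rho γ t := by
              refine le_of_sq_le_sq ?_ (by positivity)
              nlinarith [sq_nonneg (kato_rho γ t)]
            have hQ : 4 * γ ^ 2 + (2 * Real.pi * (t - τ)) ^ 2 =
                4 * γ ^ 2 * (1 + (Real.pi / γ * (t - τ)) ^ 2) := by
              field_simp
              ring
            rw [hQ] at a2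
            set Q := 1 + (Real.pi / γ * (t - τ)) ^ 2 with hQd
            have hQ0 : 0 < Q := by positivity
            have h7 : (kato_rho γ t ^ 4)⁻¹ * (kato_rho γ t)⁻¹ * kato_k (lm τ) (lm t) ≤
                46 / (γ * ρ) * Q⁻¹ := by
              have h8 : kato_k (lm τ) (lm t) ≤ 245 / 8 * kato_rho γ t ^ 4 / (γ * Q) := by
                rw [le_div_iff₀ (by positivity)]
                refine le_of_mul_le_mul_left ?_ (show 0 < 4 * γ by positivity)
                nlinarith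
              calc _ ≤ (kato_rho γ t ^ 4)⁻¹ * (kato_rho γ t)⁻¹ *
                    (245 / 8 * kato_rho γ t ^ 4 / (γ * Q)) := by gcongr
                _ = 245 / 8 * (3 / 2) / (γ * (3 / 2 * kato_rho γ t)) * Q⁻¹ := by field_simp
                _ ≤ _ := by gcongr; norm_num
            linarith
    _ ≤ ∫ t, (kato_f ρ t + kato_f ρ (-t) +
        46 / (γ * ρ) * (1 + (Real.pi / γ * (t - τ)) ^ 2)⁻¹) :=
        setIntegral_le_integral i3 (Eventually.of_forall hg)
    _ = _ := by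
        rw [integral_add i4 (i2.const_mul _), integral_add i1 i1.comp_neg,
          integral_neg_eq_self (kato_f ρ), integral_const_mul, e1, e2]
        field_simp
        norm_num

lemma kato_int2 {E : Type} [NormedAddCommGroup E] {f : ℝ × ℝ → E} {a b c d : ℝ}
    (hf : ContinuousOn f (Icc a b ×ˢ Icc c d)) :
    Integrable f ((volume.restrict (Icc a b)).prod (volume.restrict (Icc c d))) := by
  rw [Measure.prod_restrict]
  exact hf.integrableOn_compact (isCompact_Icc.prod isCompact_Icc)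

/-- Schur's test for a symmetric kernel. -/
lemma kato_schur {a b C : ℝ} {W p φ : ℝ → ℝ} {k : ℝ × ℝ → ℝ} (hW : Continuous W)
    (hp : Continuous p) (hφ : Continuous φ) (hk : Continuous k) (hW0 : ∀ t, 0 ≤ W t)
    (hp0 : ∀ t, 0 < p t) (hk0 : ∀ x, 0 ≤ k x) (hs : ∀ x : ℝ × ℝ, k x.swap = k x)
    (hS : ∀ τ, ∫ t in Icc a b, W t * p t * k (τ, t) ≤ C * p τ) :
    ∫ x : ℝ × ℝ, W x.1 * φ x.1 * (W x.2 * φ x.2) * k x
        ∂((volume.restrict (Icc a b)).prod (volume.restrict (Icc a b))) ≤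
      C * ∫ t in Icc a b, W t * φ t ^ 2 := by
  set g : ℝ × ℝ → ℝ := fun x => W x.1 * φ x.1 ^ 2 / p x.1 * (W x.2 * p x.2 * k x) with hg
  have hgc : Continuous g := by
    refine Continuous.mul (Continuous.div (by fun_prop) (by fun_prop) fun x => (hp0 _).ne') ?_
    fun_prop
  have i1 := kato_int2 (a := a) (b := b) (c := a) (d := b) hgc.continuousOn
  have i2 := kato_int2 (f := fun x => g x.swap) (a := a) (b := b) (c := a) (d := b)
    (hgc.comp continuous_swap).continuousOn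
  have h1 : ∫ x, g x ∂((volume.restrict (Icc a b)).prod (volume.restrict (Icc a b))) ≤
      C * ∫ t in Icc a b, W t * φ t ^ 2 := by
    rw [integral_prod _ i1, ← integral_const_mul]
    refine integral_mono i1.integral_prod_left
      (Continuous.integrableOn_Icc (by fun_prop)) fun τ => ?_
    simp only [hg]
    rw [integral_const_mul]
    have h2 : 0 ≤ W τ * φ τ ^ 2 / p τ := by
      have := hW0 τ
      have := hp0 τ
      positivity
    refine (mul_le_mul_of_nonneg_left (hS τ) h2).trans_eq ?_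
    have := (hp0 τ).ne'
    field_simp
  calc _ ≤ ∫ x, (1 / 2) * (g x + g x.swap)
        ∂((volume.restrict (Icc a b)).prod (volume.restrict (Icc a b))) := by
        refine integral_mono (kato_int2 (Continuous.continuousOn (by fun_prop)))
          ((i1.add i2).const_mul _) fun x => ?_
        simp only [hg, hs, Prod.fst_swap, Prod.snd_swap]
        have h1 := hp0 x.1
        have h2 := hp0 x.2
        have h3 : 0 ≤ W x.1 * W x.2 * k x / (p x.1 * p x.2) * (φ x.1 * p x.2 - φ x.2 * p x.1) ^ 2 := by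
          have := hW0 x.1
          have := hW0 x.2
          have := hk0 x
          positivity
        have h4 : 1 / 2 * (W x.1 * φ x.1 ^ 2 / p x.1 * (W x.2 * p x.2 * k x) +
            W x.2 * φ x.2 ^ 2 / p x.2 * (W x.1 * p x.1 * k x)) -
            W x.1 * φ x.1 * (W x.2 * φ x.2) * k x = 1 / 2 *
            (W x.1 * W x.2 * k x / (p x.1 * p x.2) * (φ x.1 * p x.2 - φ x.2 * p x.1) ^ 2) := by
          field_simp
          ring
        linarith
    _ ≤ _ := by
        rw [integral_const_mul, integral_add i1 i2, integral_prod_swap g]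
        linarith


/-- The Gram identity on the half-line. -/
lemma kato_gram {a b ℓ : ℝ} {lm : ℝ → ℂ} (hc : Continuous lm)
    (hre : ∀ τ, 0 < (lm τ).re) {h : ℝ → ℝ} (hh : Continuous h) :
    ∫ z in Icc 0 ℓ, ‖∫ τ in Icc a b, (h τ : ℂ) * Complex.exp (-lm τ * z)‖ ^ 2 ≤
      ∫ x : ℝ × ℝ, h x.1 * h x.2 * kato_k (lm x.1) (lm x.2)
        ∂((volume.restrict (Icc a b)).prod (volume.restrict (Icc a b))) := by
  obtain ⟨c, hc0, hcl⟩ : ∃ c, 0 < c ∧ ∀ τ ∈ Icc a b, c ≤ (lm τ).re :=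
    isCompact_Icc.exists_forall_le' (Complex.continuous_re.comp hc).continuousOn fun τ _ => hre τ
  obtain ⟨B, hB⟩ := isCompact_Icc.exists_bound_of_continuousOn (s := Icc a b) hh.continuousOn
  set ν := volume.restrict (Icc a b) with hν
  set Φ : ℝ → ℝ × ℝ → ℂ := fun z x => (h x.1 : ℂ) * Complex.exp (-lm x.1 * z) *
    conj ((h x.2 : ℂ) * Complex.exp (-lm x.2 * z)) with hΦ
  have hΦe : ∀ z x, Φ z x = (h x.1 * h x.2 : ℝ) * Complex.exp (-(lm x.1 + conj (lm x.2)) * z) := by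
    intro z x
    simp only [hΦ, map_mul, Complex.conj_ofReal, ← Complex.exp_conj, map_neg]
    rw [show -(lm x.1 + conj (lm x.2)) * z = -lm x.1 * z + -conj (lm x.2) * z by ring,
      Complex.exp_add]
    push_cast
    ring
  have hmem : ∀ᵐ x ∂(ν.prod ν), x ∈ Icc a b ×ˢ Icc a b := by
    rw [hν, Measure.prod_restrict]
    exact ae_restrict_mem (measurableSet_Icc.prod measurableSet_Icc)
  have hI : Integrable (Function.uncurry Φ) ((volume.restrict (Ioi 0)).prod (ν.prod ν)) := by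
    have hcont : Continuous (Function.uncurry Φ) := by
      simp only [hΦ]
      fun_prop
    refine Integrable.mono' ((exp_neg_integrableOn_Ioi 0 (show 0 < 2 * c by positivity)).mul_prod
      (integrable_const (B * B))) hcont.aestronglyMeasurable ?_
    have h1 : ∀ᵐ y ∂((volume.restrict (Ioi (0 : ℝ))).prod (ν.prod ν)), y.1 ∈ Ioi (0 : ℝ) :=
      Measure.quasiMeasurePreserving_fst.ae (ae_restrict_mem measurableSet_Ioi)
    have h2 : ∀ᵐ y ∂((volume.restrict (Ioi (0 : ℝ))).prod (ν.prod ν)),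
        y.2 ∈ Icc a b ×ˢ Icc a b := Measure.quasiMeasurePreserving_snd.ae hmem
    filter_upwards [h1, h2] with y hy1 hy2
    have hz : 0 < y.1 := hy1
    change ‖Φ y.1 y.2‖ ≤ _
    rw [hΦe, norm_mul, Complex.norm_real, norm_mul, Complex.norm_exp, mul_comm]
    have b1 := hB _ hy2.1
    have b2 := hB _ hy2.2
    have c1 := hcl _ hy2.1
    have c2 := hcl _ hy2.2
    refine mul_le_mul (Real.exp_le_exp.mpr ?_)
      (mul_le_mul b1 b2 (norm_nonneg _) ((norm_nonneg _).trans b1)) (by positivity) (by positivity)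
    simp only [Complex.mul_re, Complex.neg_re, Complex.add_re, Complex.conj_re, Complex.ofReal_re,
      Complex.ofReal_im, mul_zero, sub_zero]
    nlinarith
  have hG : ∀ z : ℝ, ∫ x, Φ z x ∂(ν.prod ν) =
      ((‖∫ τ, (h τ : ℂ) * Complex.exp (-lm τ * z) ∂ν‖ ^ 2 : ℝ) : ℂ) := by
    intro z
    rw [hΦ]
    simp only []
    rw [integral_prod_mul (fun τ => (h τ : ℂ) * Complex.exp (-lm τ * z))
      (fun τ => conj ((h τ : ℂ) * Complex.exp (-lm τ * z))), integral_conj, Complex.mul_conj,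
      Complex.sq_norm]
  have hK : ∀ x : ℝ × ℝ, ∫ z in Ioi (0 : ℝ), Φ z x =
      (h x.1 * h x.2 : ℝ) * (lm x.1 + conj (lm x.2))⁻¹ := by
    intro x
    simp only [hΦe]
    rw [integral_const_mul, integral_exp_mul_complex_Ioi]
    · rw [Complex.ofReal_zero, mul_zero, Complex.exp_zero, neg_div_neg_eq, one_div]
    · simp only [Complex.neg_re, Complex.add_re, Complex.conj_re]
      linarith [hre x.1, hre x.2]
  have hsw := integral_integral_swap hI
  have i1 := hI.integral_prod_left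
  have i2 := hI.integral_prod_right
  simp only [Function.uncurry_apply_pair, hG, hK] at hsw i1 i2
  have i3 := i1.re
  simp only [RCLike.re_to_complex, Complex.ofReal_re] at i3
  calc _ ≤ ∫ z in Ioi (0 : ℝ), ‖∫ τ, (h τ : ℂ) * Complex.exp (-lm τ * z) ∂ν‖ ^ 2 := by
        rw [integral_Icc_eq_integral_Ioc]
        exact setIntegral_mono_set i3 (Eventually.of_forall fun z => by positivity)
          (Eventually.of_forall Ioc_subset_Ioi_self)
    _ = _ := by
        have h1 := congrArg Complex.re hsw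
        rw [integral_complex_ofReal, Complex.ofReal_re] at h1
        rw [h1, ← RCLike.re_to_complex, ← integral_re i2]
        refine integral_congr_ae (Eventually.of_forall fun x => ?_)
        simp only [RCLike.re_to_complex, Complex.re_ofReal_mul, kato_k]

/-- The estimate on a bounded frequency interval, by duality. -/
lemma kato_trunc {a b ℓ C : ℝ} (hC : 0 < C) {lm : ℝ → ℂ} (hc : Continuous lm)
    (hre : ∀ τ, 0 < (lm τ).re) {W p : ℝ → ℝ} (hW : Continuous W) (hp : Continuous p)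
    (hW0 : ∀ t, 0 ≤ W t) (hp0 : ∀ t, 0 < p t)
    (hS : ∀ τ, ∫ t in Icc a b, W t * p t * kato_k (lm τ) (lm t) ≤ C * p τ)
    {q : ℝ → ℂ} (hq : Continuous q) :
    ∫ τ in Icc a b, W τ * ‖∫ z in Icc 0 ℓ, Complex.exp (-lm τ * z) * q z‖ ^ 2 ≤
      2 * C * ∫ z in Icc 0 ℓ, ‖q z‖ ^ 2 := by
  set F : ℝ → ℂ := fun τ => ∫ z in Icc 0 ℓ, Complex.exp (-lm τ * z) * q z with hF
  have hFc : Continuous F :=
    continuous_parametric_integral_of_continuous
      (f := fun τ z : ℝ => Complex.exp (-lm τ * z) * q z) (by fun_prop) isCompact_Icc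
  set G : (ℝ → ℝ) → ℝ → ℂ :=
    fun φ z => ∫ τ in Icc a b, ((W τ * φ τ : ℝ) : ℂ) * Complex.exp (-lm τ * z) with hG
  have hGc : ∀ φ, Continuous φ → Continuous (G φ) := fun φ hφ =>
    continuous_parametric_integral_of_continuous
      (f := fun z τ : ℝ => ((W τ * φ τ : ℝ) : ℂ) * Complex.exp (-lm τ * z)) (by fun_prop)
      isCompact_Icc
  have hGb : ∀ φ, Continuous φ →
      ∫ z in Icc 0 ℓ, ‖G φ z‖ ^ 2 ≤ C * ∫ t in Icc a b, W t * φ t ^ 2 := fun φ hφ =>
    (kato_gram hc hre (hW.mul hφ)).trans (kato_schur hW hp hφ (kato_k_cont hc hre) hW0 hp0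
      (fun x => kato_k_nonneg (hre _) (hre _)) (fun x => kato_k_symm _ _) hS)
  have hdual : ∀ φ, Continuous φ →
      ∫ τ in Icc a b, ((W τ * φ τ : ℝ) : ℂ) * F τ = ∫ z in Icc 0 ℓ, G φ z * q z := by
    intro φ hφ
    simp only [hF, hG, ← integral_const_mul, ← integral_mul_const]
    rw [integral_integral_swap (kato_int2 (Continuous.continuousOn (by fun_prop)))]
    simp only [mul_assoc]
  have hb : ∀ φ, Continuous φ → ‖∫ τ in Icc a b, ((W τ * φ τ : ℝ) : ℂ) * F τ‖ ≤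
      C / 2 * (∫ z in Icc 0 ℓ, ‖q z‖ ^ 2) + 1 / 2 * ∫ t in Icc a b, W t * φ t ^ 2 := by
    intro φ hφ
    have g1 := hGc φ hφ
    have i1 : IntegrableOn (fun z => C / 2 * ‖q z‖ ^ 2) (Icc 0 ℓ) :=
      Continuous.integrableOn_Icc (by fun_prop)
    have i2 : IntegrableOn (fun z => 1 / (2 * C) * ‖G φ z‖ ^ 2) (Icc 0 ℓ) :=
      Continuous.integrableOn_Icc (by fun_prop)
    rw [hdual φ hφ]
    refine (norm_integral_le_of_norm_le (i1.add i2) (Eventually.of_forall fun z => ?_)).trans ?_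
    · rw [norm_mul]
      have h1 : C / 2 * ‖q z‖ ^ 2 + 1 / (2 * C) * ‖G φ z‖ ^ 2 - ‖G φ z‖ * ‖q z‖ =
          1 / (2 * C) * (C * ‖q z‖ - ‖G φ z‖) ^ 2 := by
        field_simp
        ring
      have h2 : 0 ≤ 1 / (2 * C) * (C * ‖q z‖ - ‖G φ z‖) ^ 2 := by positivity
      simp only [Pi.add_apply]
      linarith
    · simp only [Pi.add_apply]
      rw [integral_add i1 i2, integral_const_mul, integral_const_mul]
      have h1 := mul_le_mul_of_nonneg_left (hGb φ hφ) (show 0 ≤ 1 / (2 * C) by positivity)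
      have h2 : 1 / (2 * C) * (C * ∫ t in Icc a b, W t * φ t ^ 2) =
          1 / 2 * ∫ t in Icc a b, W t * φ t ^ 2 := by field_simp
      linarith
  have c1 : Continuous fun τ => (F τ).re := Complex.continuous_re.comp hFc
  have c2 : Continuous fun τ => (F τ).im := Complex.continuous_im.comp hFc
  have b1 := (Complex.re_le_norm _).trans (hb _ c1)
  have b2 := (Complex.im_le_norm _).trans (hb _ c2)
  have hi : ∀ φ : ℝ → ℝ, Continuous φ →
      Integrable (fun τ => ((W τ * φ τ : ℝ) : ℂ) * F τ) (volume.restrict (Icc a b)) :=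
    fun φ hφ => Continuous.integrableOn_Icc (by fun_prop)
  rw [← RCLike.re_to_complex, ← integral_re (hi _ c1)] at b1
  rw [← RCLike.im_to_complex, ← integral_im (hi _ c2)] at b2
  simp only [RCLike.re_to_complex, RCLike.im_to_complex, Complex.re_ofReal_mul,
    Complex.im_ofReal_mul, mul_assoc, ← sq] at b1 b2
  have e : ∫ τ in Icc a b, W τ * ‖F τ‖ ^ 2 =
      (∫ τ in Icc a b, W τ * (F τ).re ^ 2) + ∫ τ in Icc a b, W τ * (F τ).im ^ 2 := by
    rw [← integral_add (Continuous.integrableOn_Icc (by fun_prop))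
      (Continuous.integrableOn_Icc (by fun_prop))]
    refine integral_congr_ae (Eventually.of_forall fun τ => ?_)
    simp only [Complex.sq_norm, Complex.normSq_apply]
    ring
  change ∫ τ in Icc a b, W τ * ‖F τ‖ ^ 2 ≤ _
  linarith

theorem kato {γ ℓ : ℝ} (hγ : 0 < γ) (hℓ : 0 ≤ ℓ) {lm : ℝ → ℂ} (hc : Continuous lm)
    (hre : ∀ τ, 0 < (lm τ).re) (h3 : ∀ τ, lm τ ^ 3 = sv γ τ ∨ lm τ ^ 3 = -sv γ τ) {q : ℝ → ℂ}
    (hq : ContinuousOn q (Icc 0 ℓ)) :
    Bd γ w1 (-1 / 3) (fun τ => ∫ z in (0 : ℝ)..ℓ, Complex.exp (-lm τ * z) * q z)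
      (20 * Real.sqrt (∫ z in (0 : ℝ)..ℓ, ‖q z‖ ^ 2)) := by
  set q' : ℝ → ℂ := fun z => q (projIcc 0 ℓ hℓ z) with hq'
  have hq'c : Continuous q' :=
    (continuousOn_iff_continuous_domRestrict.mp hq).comp continuous_projIcc
  have hqq : ∀ z ∈ Icc 0 ℓ, q z = q' z := fun z hz => by simp only [hq', projIcc_of_mem hℓ hz]
  set F : ℝ → ℂ := fun τ => ∫ z in Icc 0 ℓ, Complex.exp (-lm τ * z) * q' z with hF
  have hFc : Continuous F :=
    continuous_parametric_integral_of_continuous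
      (f := fun τ z : ℝ => Complex.exp (-lm τ * z) * q' z) (by fun_prop) isCompact_Icc
  have e1 : (fun τ => ∫ z in (0 : ℝ)..ℓ, Complex.exp (-lm τ * z) * q z) = F := by
    funext τ
    rw [intervalIntegral.integral_of_le hℓ, ← integral_Icc_eq_integral_Ioc]
    exact setIntegral_congr_fun measurableSet_Icc fun z hz => by simp only [hqq z hz]
  have e2 : ∫ z in (0 : ℝ)..ℓ, ‖q z‖ ^ 2 = ∫ z in Icc 0 ℓ, ‖q' z‖ ^ 2 := by
    rw [intervalIntegral.integral_of_le hℓ, ← integral_Icc_eq_integral_Ioc]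
    exact setIntegral_congr_fun measurableSet_Icc fun z hz => by simp only [hqq z hz]
  have hN : 0 ≤ ∫ z in Icc 0 ℓ, ‖q' z‖ ^ 2 := integral_nonneg fun z => by positivity
  have hρc := kato_rho_cont hγ
  have hρ := kato_rho_pos hγ
  have hWc : Continuous fun τ => (kato_rho γ τ ^ 4)⁻¹ :=
    (hρc.pow 4).inv₀ fun τ => (pow_pos (hρ τ) 4).ne'
  have hgc : Continuous fun τ => (kato_rho γ τ ^ 4)⁻¹ * ‖F τ‖ ^ 2 := by fun_prop
  have hg0 : ∀ τ, 0 ≤ (kato_rho γ τ ^ 4)⁻¹ * ‖F τ‖ ^ 2 := fun τ => by positivity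
  rw [e1, e2, bd_iff (w := w1) (fun _ => zero_le_one) _ _ (by positivity), mul_pow, Real.sq_sqrt hN]
  have e3 : ∀ τ, (ENNReal.ofReal (om γ τ ^ (-1 / 3 : ℝ) * w1 τ) * ‖F τ‖ₑ) ^ 2 =
      ENNReal.ofReal ((kato_rho γ τ ^ 4)⁻¹ * ‖F τ‖ ^ 2) := by
    intro τ
    have h0 := Real.rpow_nonneg (om_nonneg γ τ) (-1 / 3)
    rw [w1, mul_one, ← ofReal_norm, ← ENNReal.ofReal_mul h0,
      ← ENNReal.ofReal_pow (by positivity), mul_pow, kato_rho_pow, ← Real.rpow_neg (om_nonneg γ τ),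
      ← Real.rpow_natCast, ← Real.rpow_mul (om_nonneg γ τ)]
    norm_num
  simp only [e3]
  have hcov : AECover volume atTop fun R : ℝ => Icc (-R) R :=
    aecover_Icc tendsto_neg_atTop_atBot tendsto_id
  refine le_of_tendsto' (hcov.lintegral_tendsto_of_countably_generated
    (hgc.measurable.ennreal_ofReal.aemeasurable)) fun R => ?_
  rw [← ofReal_integral_eq_lintegral_ofReal hgc.integrableOn_Icc (Eventually.of_forall hg0)]
  refine ENNReal.ofReal_le_ofReal ?_
  have := kato_trunc (a := -R) (b := R) (ℓ := ℓ) (by norm_num) hc hre hWc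
    (hρc.inv₀ fun τ => (hρ τ).ne') (fun τ => by positivity) (fun τ => inv_pos.mpr (hρ τ))
    (kato_test hγ hre h3 R) hq'c
  exact this.trans (by nlinarith)

/-- One integration by parts. -/
theorem ibp_bound {ℓ B : ℝ} (hℓ : 0 ≤ ℓ) {lm : ℂ} (hre : 0 ≤ lm.re) (h0 : lm ≠ 0) {q q' : ℝ → ℂ}
    (hq : ContinuousOn q (Icc 0 ℓ)) (hq' : ContinuousOn q' (Icc 0 ℓ))
    (hd : ∀ z ∈ Ioo 0 ℓ, HasDerivAt q (q' z) z) (hb : ∀ z ∈ Icc 0 ℓ, ‖q z‖ ≤ B ∧ ‖q' z‖ ≤ B) :
    ‖∫ z in (0 : ℝ)..ℓ, Complex.exp (-lm * z) * q z‖ * ‖lm‖ ≤ (2 + ℓ) * B := by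
  have he : Continuous fun z : ℝ => Complex.exp (-lm * z) := by fun_prop
  have hn : ∀ z : ℝ, 0 ≤ z → ‖Complex.exp (-lm * z)‖ ≤ 1 := fun z hz => by
    rw [Complex.norm_exp, Real.exp_le_one_iff]
    simp only [Complex.mul_re, Complex.neg_re, Complex.ofReal_re, Complex.ofReal_im, mul_zero,
      sub_zero]
    nlinarith
  have i1 : IntervalIntegrable (fun z : ℝ => Complex.exp (-lm * z) * q z) volume 0 ℓ :=
    (he.continuousOn.mul hq).intervalIntegrable_of_Icc hℓ
  have i2 : IntervalIntegrable (fun z : ℝ => Complex.exp (-lm * z) * q' z) volume 0 ℓ :=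
    (he.continuousOn.mul hq').intervalIntegrable_of_Icc hℓ
  have hftc := intervalIntegral.integral_eq_sub_of_hasDerivAt_of_le hℓ
    (f := fun z : ℝ => Complex.exp (-lm * z) * q z)
    (f' := fun z : ℝ => Complex.exp (-lm * z) * q z * -lm + Complex.exp (-lm * z) * q' z)
    (he.continuousOn.mul hq) (fun z hz => by
      have h1 : HasDerivAt (fun z : ℝ => Complex.exp (-lm * z)) (Complex.exp (-lm * z) * -lm) z := by
        simpa using ((hasDerivAt_id (z : ℂ)).const_mul (-lm)).cexp.comp_ofReal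
      refine (h1.mul (hd z hz)).congr_deriv ?_
      ring) ((i1.mul_const _).add i2)
  rw [intervalIntegral.integral_add (i1.mul_const _) i2, intervalIntegral.integral_mul_const] at hftc
  have hb' : ∀ z ∈ Icc 0 ℓ, ‖Complex.exp (-lm * z) * q z‖ ≤ B ∧ ‖Complex.exp (-lm * z) * q' z‖ ≤ B :=
    fun z hz => by
      rw [norm_mul, norm_mul]
      exact ⟨(mul_le_of_le_one_left (norm_nonneg _) (hn z hz.1)).trans (hb z hz).1,
        (mul_le_of_le_one_left (norm_nonneg _) (hn z hz.1)).trans (hb z hz).2⟩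
  have h2 := intervalIntegral.norm_integral_le_of_norm_le_const (a := 0) (b := ℓ) (C := B)
    (f := fun z : ℝ => Complex.exp (-lm * z) * q' z) fun z hz => by
      rw [uIoc_of_le hℓ] at hz
      exact (hb' z (Ioc_subset_Icc_self hz)).2
  rw [sub_zero, abs_of_nonneg hℓ] at h2
  rw [← norm_neg lm, ← norm_mul, eq_sub_of_add_eq hftc]
  refine (norm_sub_le _ _).trans ((add_le_add_left (norm_sub_le _ _) _).trans ?_)
  have h3 := (hb' ℓ ⟨hℓ, le_rfl⟩).1
  have h4 := (hb' 0 ⟨le_rfl, hℓ⟩).1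
  linarith

end Pool.Agent.Lib.MP_14aec4_an.W
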