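import Pool.Agent.Lib.MP_14aec4_an.Ric
import Pool.Agent.Lib.MP_14aec4_an.Smooth

/-!
Lifting a smooth solution of KdV through the Miura map for a short time.
-/

noncomputable section

open MeasureTheory Set Filter Topology FourierTransform
open scoped ENNReal ComplexConjugate

namespace Pool.Agent.Lib.MP_14aec4_an.W

/-- Clamping to `[-M, M]`. -/
def laxCl (M y : ℝ) : ℝ := max (-M) (min y M)

lemma lax_cl_abs {M : ℝ} (hM : 0 ≤ M) (y : ℝ) : |laxCl M y| ≤ M := by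
  unfold laxCl
  rw [abs_le]
  exact ⟨le_max_left _ _, max_le (by linarith) (min_le_right _ _)⟩

lemma lax_cl_lip (M y z : ℝ) : |laxCl M y - laxCl M z| ≤ |y - z| := by
  unfold laxCl
  refine (abs_max_sub_max_le_max _ _ _ _).trans ?_
  rw [sub_self, abs_zero]
  refine max_le (abs_nonneg _) ((abs_min_sub_min_le_max _ _ _ _).trans ?_)
  rw [sub_self, abs_zero]
  exact max_le le_rfl (abs_nonneg _)

lemma lax_cl_eq {M y : ℝ} (h : |y| ≤ M) : laxCl M y = y := by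
  unfold laxCl
  rw [abs_le] at h
  rw [min_eq_left h.2, max_eq_right h.1]

lemma lax_cl_cont (M : ℝ) : Continuous (laxCl M) := by
  unfold laxCl
  fun_prop

lemma lax_cl_sq {M : ℝ} (hM : 0 ≤ M) (y z : ℝ) :
    |laxCl M y ^ 2 - laxCl M z ^ 2| ≤ 2 * M * |y - z| := by
  rw [sq_sub_sq, abs_mul]
  refine mul_le_mul ?_ (lax_cl_lip M y z) (abs_nonneg _) (by positivity)
  have h1 := lax_cl_abs hM y
  have h2 := lax_cl_abs hM z
  have h3 := abs_add_le (laxCl M y) (laxCl M z)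
  linarith

/-- Global existence for a clamped quadratic equation. -/
lemma lax_ode {L M : ℝ} (hL : 0 ≤ L) (hM : 0 ≤ M) {a b c : ℝ → ℝ} (ha : ContinuousOn a (Icc 0 L))
    (hb : ContinuousOn b (Icc 0 L)) (hc : ContinuousOn c (Icc 0 L)) (y₀ : ℝ) :
    ∃ y : ℝ → ℝ, y 0 = y₀ ∧ ∀ x ∈ Icc 0 L, HasDerivWithinAt y
      (a x + b x * laxCl M (y x) + c x * laxCl M (y x) ^ 2) (Icc 0 L) x := by
  obtain ⟨Ka, hKa⟩ := isCompact_Icc.exists_bound_of_continuousOn ha
  obtain ⟨Kb, hKb⟩ := isCompact_Icc.exists_bound_of_continuousOn hb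
  obtain ⟨Kc', hKc⟩ := isCompact_Icc.exists_bound_of_continuousOn hc
  have h0 : (0 : ℝ) ∈ Icc 0 L := ⟨le_rfl, hL⟩
  have pa : 0 ≤ Ka := (norm_nonneg _).trans (hKa 0 h0)
  have pb : 0 ≤ Kb := (norm_nonneg _).trans (hKb 0 h0)
  have pc : 0 ≤ Kc' := (norm_nonneg _).trans (hKc 0 h0)
  simp only [Real.norm_eq_abs] at hKa hKb hKc
  have hB : 0 ≤ Ka + Kb * M + Kc' * M ^ 2 := by positivity
  have hK : 0 ≤ Kb + Kc' * (2 * M) := by positivity
  have key : IsPicardLindelof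
      (fun x y => a x + b x * laxCl M y + c x * laxCl M y ^ 2) (tmin := 0) (tmax := L) ⟨0, h0⟩ y₀
      (NNReal.mk ((Ka + Kb * M + Kc' * M ^ 2) * L) (by positivity)) 0 (NNReal.mk _ hB)
      (NNReal.mk _ hK) :=
    { lipschitzOnWith := by
        intro t ht
        refine LipschitzOnWith.of_dist_le_mul fun y _ z _ => ?_
        simp only [Real.dist_eq, NNReal.coe_mk]
        have e : a t + b t * laxCl M y + c t * laxCl M y ^ 2 -
            (a t + b t * laxCl M z + c t * laxCl M z ^ 2) =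
            b t * (laxCl M y - laxCl M z) + c t * (laxCl M y ^ 2 - laxCl M z ^ 2) := by ring
        rw [e]
        refine (abs_add_le _ _).trans ?_
        rw [abs_mul, abs_mul]
        have h1 := mul_le_mul (hKb t ht) (lax_cl_lip M y z) (abs_nonneg _) pb
        have h2 := mul_le_mul (hKc t ht) (lax_cl_sq hM y z) (abs_nonneg _) pc
        linarith
      continuousOn := fun y _ =>
        (ha.add (hb.mul continuousOn_const)).add (hc.mul continuousOn_const)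
      norm_le := by
        intro t ht y _
        simp only [Real.norm_eq_abs, NNReal.coe_mk]
        refine (abs_add_le _ _).trans ?_
        refine (add_le_add (abs_add_le _ _) le_rfl).trans ?_
        rw [abs_mul, abs_mul, abs_pow]
        have h1 := mul_le_mul (hKb t ht) (lax_cl_abs hM y) (abs_nonneg _) pb
        have h2 := mul_le_mul (hKc t ht) (pow_le_pow_left₀ (abs_nonneg _) (lax_cl_abs hM y) 2)
          (by positivity) pc
        have h3 := hKa t ht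
        linarith
      mul_max_le := by
        simp only [NNReal.coe_mk, sub_zero, sub_self, NNReal.coe_zero]
        rw [max_eq_left hL] }
  exact key.exists_eq_forall_mem_Icc_hasDerivWithinAt₀

lemma lax_gronwall {L K ε : ℝ} (hK : 1 ≤ K) (hε : 0 ≤ ε) {d d' : ℝ → ℝ}
    (hd : ∀ x ∈ Icc 0 L, HasDerivWithinAt d (d' x) (Icc 0 L) x)
    (hb : ∀ x ∈ Icc 0 L, |d' x| ≤ K * |d x| + ε) {x : ℝ} (hx : x ∈ Icc 0 L) :
    |d x| ≤ Real.exp (K * L) * (|d 0| + ε) := by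
  have h := norm_le_gronwallBound_of_norm_deriv_right_le (f := d) (f' := d') (δ := |d 0|) (K := K)
    (ε := ε) (a := 0) (b := L) (fun y hy => (hd y hy).continuousWithinAt)
    (fun y hy => (hd y (Ico_subset_Icc_self hy)).mono_of_mem_nhdsWithin
      (Icc_mem_nhdsGE_of_mem hy)) le_rfl (fun y hy => hb y (Ico_subset_Icc_self hy)) x hx
  rw [gronwallBound_of_K_ne_0 (by linarith), sub_zero, Real.norm_eq_abs] at h
  have h1 : Real.exp (K * x) ≤ Real.exp (K * L) :=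
    Real.exp_le_exp.mpr (mul_le_mul_of_nonneg_left hx.2 (by linarith))
  have h2 : ε / K ≤ ε := div_le_self hε hK
  have h3 : 0 ≤ ε / K := by positivity
  have h4 : 0 < Real.exp (K * x) := Real.exp_pos _
  have h5 : |d 0| * Real.exp (K * x) ≤ |d 0| * Real.exp (K * L) :=
    mul_le_mul_of_nonneg_left h1 (abs_nonneg _)
  have h6 : ε / K * (Real.exp (K * x) - 1) ≤ ε * Real.exp (K * L) := by
    have : ε / K * (Real.exp (K * x) - 1) ≤ ε / K * Real.exp (K * L) :=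
      mul_le_mul_of_nonneg_left (by linarith) h3
    exact this.trans (mul_le_mul_of_nonneg_right h2 (by positivity))
  simp only at h
  linarith

lemma lax_lip_t {L T : ℝ} (hL : 0 < L) (hT : 0 < T) {f : ℝ → ℝ → ℝ} (hf : SmOn L (Icc 0 T) f) :
    ∃ K, 0 ≤ K ∧ ∀ x ∈ Icc 0 L, ∀ s ∈ Icc 0 T, ∀ t ∈ Icc 0 T, |f x s - f x t| ≤ K * |s - t| := by
  obtain ⟨K, hK, h⟩ := (hf.ptw hL (uniqueDiffOn_Icc hT)).ctOn.bdd
  refine ⟨K, hK, fun x hx s hs t ht => ?_⟩
  exact (convex_Icc 0 T).norm_image_sub_le_of_norm_hasDerivWithin_le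
    (fun τ hτ => hf.hasDerivWithinAt_t hx hτ) (fun τ hτ => h x hx τ hτ) ht hs

lemma lax_taylor_t {L T : ℝ} (hL : 0 < L) (hT : 0 < T) {f : ℝ → ℝ → ℝ}
    (hf : SmOn L (Icc 0 T) f) : ∃ K, 0 ≤ K ∧ ∀ x ∈ Icc 0 L, ∀ s ∈ Icc 0 T, ∀ t ∈ Icc 0 T,
      |f x s - f x t - (s - t) * ptw (Icc 0 T) f x t| ≤ K * |s - t| ^ 2 := by
  obtain ⟨K, hK, h⟩ := lax_lip_t hL hT (hf.ptw hL (uniqueDiffOn_Icc hT))
  refine ⟨K, hK, fun x hx s hs t ht => ?_⟩
  have hsub : uIcc t s ⊆ Icc 0 T := uIcc_subset_Icc ht hs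
  have key := (convex_uIcc t s).norm_image_sub_le_of_norm_hasDerivWithin_le
    (f := fun τ => f x τ - τ * ptw (Icc 0 T) f x t)
    (f' := fun τ => ptw (Icc 0 T) f x τ - ptw (Icc 0 T) f x t) (C := K * |s - t|)
    (fun τ hτ => by
      have h1 := (hf.hasDerivWithinAt_t hx (hsub hτ)).mono hsub
      have h2 := ((hasDerivWithinAt_id τ (uIcc t s)).mul_const (ptw (Icc 0 T) f x t))
      exact (h1.sub h2).congr_deriv (by rw [one_mul]))
    (fun τ hτ => (h x hx τ (hsub hτ) t ht).trans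
      (mul_le_mul_of_nonneg_left (abs_sub_left_of_mem_uIcc hτ) hK))
    left_mem_uIcc right_mem_uIcc
  simp only [Real.norm_eq_abs] at key
  have e : f x s - f x t - (s - t) * ptw (Icc 0 T) f x t =
      f x s - s * ptw (Icc 0 T) f x t - (f x t - t * ptw (Icc 0 T) f x t) := by ring
  rw [e, sq, ← mul_assoc]
  exact key

/-- The time derivative of the Riccati variable. -/
def laxF (L μ : ℝ) (p v : ℝ → ℝ → ℝ) (x t : ℝ) : ℝ :=
  -px L (px L p) x t + 2 * px L p x t * v x t + (2 * p x t + 6 * μ) * (p x t - v x t ^ 2)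

/-- The family of Riccati solutions, Lipschitz in time. -/
lemma lax_family {L T μ : ℝ} (hL : 0 < L) (hT : 0 < T) {p : ℝ → ℝ → ℝ}
    (hp : SmOn L (Icc 0 T) p) {q : ℝ → ℝ}
    (hq : ∀ x ∈ Icc 0 L, HasDerivWithinAt q (p x 0 - q x ^ 2) (Icc 0 L) x) :
    ∃ ε₀ ∈ Ioc 0 T, ∃ (v : ℝ → ℝ → ℝ) (M C : ℝ), 0 ≤ M ∧ 0 ≤ C ∧ (∀ x ∈ Icc 0 L, v x 0 = q x) ∧
      (∀ x ∈ Icc 0 L, ∀ t ∈ Icc 0 ε₀, |v x t| ≤ M) ∧
      (∀ x ∈ Icc 0 L, ∀ s ∈ Icc 0 ε₀, ∀ t ∈ Icc 0 ε₀, |v x s - v x t| ≤ C * |s - t|) ∧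
      (∀ x ∈ Icc 0 L, ∀ t ∈ Icc 0 ε₀,
        HasDerivWithinAt (fun y => v y t) (p x t - v x t ^ 2) (Icc 0 L) x) ∧
      (∀ t ∈ Icc 0 ε₀, HasDerivWithinAt (fun τ => v 0 τ) (laxF L μ p v 0 t) (Icc 0 ε₀) t) := by
  have hI := uniqueDiffOn_Icc hT
  have h0L : (0 : ℝ) ∈ Icc 0 L := ⟨le_rfl, hL.le⟩
  have h0T : (0 : ℝ) ∈ Icc 0 T := ⟨le_rfl, hT.le⟩
  obtain ⟨M₀, hM₀⟩ := isCompact_Icc.exists_bound_of_continuousOn
    (fun x hx => (hq x hx).continuousWithinAt : ContinuousOn q (Icc 0 L))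
  have pM₀ : 0 ≤ M₀ := (norm_nonneg _).trans (hM₀ 0 h0L)
  simp only [Real.norm_eq_abs] at hM₀
  have pM : 0 ≤ M₀ + 1 := by linarith
  have c0 := hp.ctOn.slice_t h0L
  have c1 := (hp.px hL hI).ctOn.slice_t h0L
  have c2 := ((hp.px hL hI).px hL hI).ctOn.slice_t h0L
  have ca : ContinuousOn (fun t => -px L (px L p) 0 t + (2 * p 0 t + 6 * μ) * p 0 t) (Icc 0 T) :=
    c2.neg.add (((continuousOn_const.mul c0).add continuousOn_const).mul c0)
  have cb : ContinuousOn (fun t => 2 * px L p 0 t) (Icc 0 T) := continuousOn_const.mul c1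
  have cc' : ContinuousOn (fun t => -(2 * p 0 t + 6 * μ)) (Icc 0 T) :=
    ((continuousOn_const.mul c0).add continuousOn_const).neg
  obtain ⟨v₀, hv₀0, hv₀⟩ := lax_ode hT.le pM ca cb cc' (q 0)
  have cv₀ : ContinuousOn (fun t => laxCl (M₀ + 1) (v₀ t)) (Icc 0 T) :=
    (lax_cl_cont _).comp_continuousOn fun t ht => (hv₀ t ht).continuousWithinAt
  obtain ⟨K₀, hK₀⟩ := isCompact_Icc.exists_bound_of_continuousOn
    ((ca.add (cb.mul cv₀)).add (cc'.mul (cv₀.pow 2)))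
  have pK₀ : 0 ≤ K₀ := (norm_nonneg _).trans (hK₀ 0 h0T)
  have lip₀ : ∀ s ∈ Icc 0 T, ∀ t ∈ Icc 0 T, |v₀ s - v₀ t| ≤ K₀ * |s - t| := fun s hs t ht =>
    (convex_Icc 0 T).norm_image_sub_le_of_norm_hasDerivWithin_le hv₀ hK₀ ht hs
  have ex : ∀ t ∈ Icc 0 T, ∃ y : ℝ → ℝ, y 0 = v₀ t ∧ ∀ x ∈ Icc 0 L, HasDerivWithinAt y
      (p x t - laxCl (M₀ + 1) (y x) ^ 2) (Icc 0 L) x := by
    intro t ht
    obtain ⟨y, h1, h2⟩ := lax_ode (b := fun _ => 0) (c := fun _ => -1) hL.le pM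
      (hp.ctOn.slice_x ht) continuousOn_const continuousOn_const (v₀ t)
    exact ⟨y, h1, fun x hx => (h2 x hx).congr_deriv (by ring)⟩
  choose! w hw0 hw using ex
  obtain ⟨Kp, pKp, hKp⟩ := lax_lip_t hL hT hp
  have hK1 : 1 ≤ 2 * (M₀ + 1) := by linarith
  set C := Real.exp (2 * (M₀ + 1) * L) * (K₀ + Kp) with hC
  have pC : 0 ≤ C := by positivity
  have lip : ∀ x ∈ Icc 0 L, ∀ s ∈ Icc 0 T, ∀ t ∈ Icc 0 T, |w s x - w t x| ≤ C * |s - t| := by
    intro x hx s hs t ht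
    have := lax_gronwall (ε := Kp * |s - t|) hK1 (by positivity) (d := fun y => w s y - w t y)
      (fun y hy => (hw s hs y hy).sub (hw t ht y hy)) (fun y hy => by
        have e : p y s - laxCl (M₀ + 1) (w s y) ^ 2 - (p y t - laxCl (M₀ + 1) (w t y) ^ 2) =
          (p y s - p y t) - (laxCl (M₀ + 1) (w s y) ^ 2 - laxCl (M₀ + 1) (w t y) ^ 2) := by ring
        rw [e]
        refine (abs_sub _ _).trans ?_
        have h1 := hKp y hy s hs t ht
        have h2 := lax_cl_sq pM (w s y) (w t y)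
        linarith) hx
    refine this.trans ?_
    rw [hw0 s hs, hw0 t ht, hC, mul_assoc (Real.exp _)]
    refine mul_le_mul_of_nonneg_left ?_ (Real.exp_pos _).le
    have := lip₀ s hs t ht
    linarith
  have init : ∀ x ∈ Icc 0 L, w 0 x = q x := by
    intro x hx
    have := lax_gronwall (ε := 0) hK1 le_rfl (d := fun y => w 0 y - q y)
      (fun y hy => (hw 0 h0T y hy).sub (hq y hy)) (fun y hy => by
        have e : p y 0 - laxCl (M₀ + 1) (w 0 y) ^ 2 - (p y 0 - q y ^ 2) =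
          -(laxCl (M₀ + 1) (w 0 y) ^ 2 - laxCl (M₀ + 1) (q y) ^ 2) := by
          rw [lax_cl_eq (y := q y) ((hM₀ y hy).trans (by linarith))]
          ring
        rw [e, abs_neg, add_zero]
        exact lax_cl_sq pM _ _) hx
    simp only [hw0 0 h0T, hv₀0, sub_self, abs_zero, add_zero, mul_zero] at this
    exact sub_eq_zero.mp (abs_nonpos_iff.mp this)
  have hε : min T (1 / (C + 1)) ∈ Ioc 0 T := ⟨lt_min hT (by positivity), min_le_left _ _⟩
  have hsub : Icc 0 (min T (1 / (C + 1))) ⊆ Icc 0 T := Icc_subset_Icc_right hε.2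
  have bdd : ∀ x ∈ Icc 0 L, ∀ t ∈ Icc 0 (min T (1 / (C + 1))), |w t x| ≤ M₀ + 1 := by
    intro x hx t ht
    have h1 := lip x hx t (hsub ht) 0 h0T
    rw [init x hx, sub_zero, abs_of_nonneg ht.1] at h1
    have h2 : t ≤ 1 / (C + 1) := ht.2.trans (min_le_right _ _)
    rw [le_div_iff₀ (by positivity)] at h2
    have h3 := hM₀ x hx
    have h4 : |w t x| ≤ |w t x - q x| + |q x| := by
      simpa using abs_add_le (w t x - q x) (q x)
    have h5 := ht.1
    nlinarith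
  refine ⟨_, hε, fun x t => w t x, M₀ + 1, C, pM, pC, init, bdd,
    fun x hx s hs t ht => lip x hx s (hsub hs) t (hsub ht), fun x hx t ht => ?_, fun t ht => ?_⟩
  · have := hw t (hsub ht) x hx
    rwa [lax_cl_eq (bdd x hx t ht)] at this
  · have h1 := (hv₀ t (hsub ht)).mono hsub
    have h2 := bdd 0 h0L t ht
    rw [hw0 t (hsub ht)] at h2
    rw [lax_cl_eq h2] at h1
    refine (h1.congr (fun τ hτ => hw0 τ (hsub hτ)) (hw0 t (hsub ht))).congr_deriv ?_
    unfold laxF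
    simp only [hw0 t (hsub ht)]
    ring

/-- The family is differentiable in time. -/
lemma lax_dt {L T μ ε₀ M C : ℝ} (hL : 0 < L) (hT : 0 < T) (hε : ε₀ ∈ Ioc 0 T) {p v : ℝ → ℝ → ℝ}
    (hp : SmOn L (Icc 0 T) p)
    (he : ∀ x ∈ Icc 0 L, ∀ t ∈ Icc 0 T, ptw (Icc 0 T) p x t =
      -px L (px L (px L p)) x t + 6 * (p x t + μ) * px L p x t)
    (hM : 0 ≤ M) (hC : 0 ≤ C) (hc : CtOn L (Icc 0 ε₀) v)
    (hb : ∀ x ∈ Icc 0 L, ∀ t ∈ Icc 0 ε₀, |v x t| ≤ M)
    (hl : ∀ x ∈ Icc 0 L, ∀ s ∈ Icc 0 ε₀, ∀ t ∈ Icc 0 ε₀, |v x s - v x t| ≤ C * |s - t|)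
    (hx : ∀ x ∈ Icc 0 L, ∀ t ∈ Icc 0 ε₀,
      HasDerivWithinAt (fun y => v y t) (p x t - v x t ^ 2) (Icc 0 L) x)
    (h0 : ∀ t ∈ Icc 0 ε₀, HasDerivWithinAt (fun τ => v 0 τ) (laxF L μ p v 0 t) (Icc 0 ε₀) t) :
    ∀ x ∈ Icc 0 L, ∀ t ∈ Ioo 0 ε₀, HasDerivAt (fun τ => v x τ) (laxF L μ p v x t) t := by
  have hI := uniqueDiffOn_Icc hT
  have hsub : Icc 0 ε₀ ⊆ Icc 0 T := Icc_subset_Icc_right hε.2
  have hp1 := hp.px hL hI
  have hp2 := hp1.px hL hI
  have cF : CtOn L (Icc 0 ε₀) (laxF L μ p v) := by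
    have c0 : ContinuousOn _ _ := (hp.mono hsub).ctOn
    have c1 : ContinuousOn _ _ := (hp1.mono hsub).ctOn
    have c2 : ContinuousOn _ _ := (hp2.mono hsub).ctOn
    have c3 : ContinuousOn _ _ := hc
    exact (c2.neg.add ((continuousOn_const.mul c1).mul c3)).add
      (((continuousOn_const.mul c0).add continuousOn_const).mul (c0.sub (c3.pow 2)))
  obtain ⟨KF, pKF, hKF⟩ := cF.bdd
  obtain ⟨K₂, pK₂, hK₂⟩ := lax_taylor_t hL hT hp
  have dF : ∀ x ∈ Icc 0 L, ∀ t ∈ Icc 0 ε₀, HasDerivWithinAt (fun y => laxF L μ p v y t)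
      (ptw (Icc 0 T) p x t - 2 * v x t * laxF L μ p v x t) (Icc 0 L) x := by
    intro x hx' t ht
    have d0 := hp.hasDerivWithinAt_x hx' (hsub ht)
    have d1 := hp1.hasDerivWithinAt_x hx' (hsub ht)
    have d2 := hp2.hasDerivWithinAt_x hx' (hsub ht)
    have d3 := hx x hx' t ht
    refine ((d2.neg.add ((d1.const_mul 2).mul d3)).add
      (((d0.const_mul 2).add_const (6 * μ)).mul (d0.sub (d3.pow 2)))).congr_deriv ?_
    rw [he x hx' t (hsub ht)]
    unfold laxF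
    simp only [Pi.sub_apply, Pi.pow_apply, Nat.cast_ofNat]
    norm_num
    ring
  have est : ∀ x ∈ Icc 0 L, ∀ s ∈ Icc 0 ε₀, ∀ t ∈ Icc 0 ε₀,
      |v x s - v x t - (s - t) * laxF L μ p v x t| ≤ Real.exp ((2 * M + 1) * L) *
        (|v 0 s - v 0 t - (s - t) * laxF L μ p v 0 t| + (K₂ + KF * C) * |s - t| ^ 2) := by
    intro x hx' s hs t ht
    refine lax_gronwall (by linarith) (by positivity)
      (d := fun y => v y s - v y t - (s - t) * laxF L μ p v y t)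
      (fun y hy => ((hx y hy s hs).sub (hx y hy t ht)).sub ((dF y hy t ht).const_mul (s - t)))
      (fun y hy => ?_) hx'
    have e : p y s - v y s ^ 2 - (p y t - v y t ^ 2) -
        (s - t) * (ptw (Icc 0 T) p y t - 2 * v y t * laxF L μ p v y t) =
        (p y s - p y t - (s - t) * ptw (Icc 0 T) p y t) -
          ((v y s + v y t) * (v y s - v y t - (s - t) * laxF L μ p v y t) +
            (s - t) * (laxF L μ p v y t * (v y s - v y t))) := by ring
    rw [e]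
    refine (abs_sub _ _).trans ?_
    refine (add_le_add le_rfl (abs_add_le _ _)).trans ?_
    rw [abs_mul, abs_mul, abs_mul]
    have h1 := hK₂ y hy s (hsub hs) t (hsub ht)
    have h2 : |v y s + v y t| ≤ 2 * M + 1 := by
      have := abs_add_le (v y s) (v y t)
      have := hb y hy s hs
      have := hb y hy t ht
      linarith
    have h3 := mul_le_mul_of_nonneg_right h2
      (abs_nonneg (v y s - v y t - (s - t) * laxF L μ p v y t))
    have h4 := mul_le_mul_of_nonneg_left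
      (mul_le_mul (hKF y hy t ht) (hl y hy s hs t ht) (abs_nonneg _) pKF) (abs_nonneg (s - t))
    nlinarith
  intro x hx' t ht
  have hn : Icc 0 ε₀ ∈ 𝓝 t := Icc_mem_nhds ht.1 ht.2
  have ht' : t ∈ Icc 0 ε₀ := Ioo_subset_Icc_self ht
  have o1 := hasDerivAt_iff_isLittleO.mp ((h0 t ht').hasDerivAt hn)
  have o2 := (Asymptotics.isLittleO_pow_sub_sub t (m := 2) one_lt_two).const_mul_left (K₂ + KF * C)
  rw [hasDerivAt_iff_isLittleO]
  refine Asymptotics.IsBigO.trans_isLittleO ?_ (o1.norm_left.add o2)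
  refine Asymptotics.IsBigO.of_bound (Real.exp ((2 * M + 1) * L)) ?_
  filter_upwards [hn] with s hs
  simp only [Real.norm_eq_abs, smul_eq_mul]
  exact (est x hx' s hs t ht').trans
    (mul_le_mul_of_nonneg_left (le_abs_self _) (Real.exp_pos _).le)

/-- Smoothness of the family. -/
lemma lax_smooth {L μ ε₀ : ℝ} (hL : 0 < L) (hε : 0 < ε₀) {p v : ℝ → ℝ → ℝ}
    (hp : SmOn L (Icc 0 ε₀) p) (hc : CtOn L (Icc 0 ε₀) v)
    (hx : ∀ x ∈ Icc 0 L, ∀ t ∈ Icc 0 ε₀,
      HasDerivWithinAt (fun y => v y t) (p x t - v x t ^ 2) (Icc 0 L) x)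
    (ht : ∀ x ∈ Icc 0 L, ∀ t ∈ Ioo 0 ε₀, HasDerivAt (fun τ => v x τ) (laxF L μ p v x t) t) :
    SmOn L (Icc 0 ε₀) v := by
  have hI := uniqueDiffOn_Icc hε
  have hcl : closure (Ioo 0 ε₀) = Icc 0 ε₀ := closure_Ioo hε.ne
  set 𝒢 : Set (ℝ × ℝ → ℝ) := insert (fun z => v z.1 z.2)
    {f | SmOn L (Icc 0 ε₀) fun x t => f (x, t)} with h𝒢
  have mv : (fun z : ℝ × ℝ => v z.1 z.2) ∈ Algebra.adjoin ℝ 𝒢 :=
    Algebra.subset_adjoin (mem_insert _ _)
  have ms : ∀ f : ℝ → ℝ → ℝ, SmOn L (Icc 0 ε₀) f →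
      (fun z : ℝ × ℝ => f z.1 z.2) ∈ Algebra.adjoin ℝ 𝒢 := fun f hf =>
    Algebra.subset_adjoin (mem_insert_of_mem _ hf)
  have key := smooth_of_gen hL isOpen_Ioo (convex_Ioo 0 ε₀) (nonempty_Ioo.mpr hε) (𝒢 := 𝒢)
    (by
      rw [hcl]
      rintro f (rfl | hf)
      · exact hc
      · exact SmOn.ctOn (mem_ofPred.mp hf))
    (by
      rintro f (rfl | hf)
      · refine ⟨_, Subalgebra.sub_mem _ (ms p hp) (Subalgebra.pow_mem _ mv 2), ?_⟩
        intro x hx' t ht'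
        exact (hx x (Ioo_subset_Icc_self hx') t (Ioo_subset_Icc_self ht')).hasDerivAt
          (Icc_mem_nhds hx'.1 hx'.2)
      · have hf' := mem_ofPred.mp hf
        exact ⟨_, ms _ (SmOn.px hL hI hf'), fun x hx' t ht' =>
          SmOn.hasDerivAt_x hf' hx' (Ioo_subset_Icc_self ht')⟩)
    (by
      rintro f (rfl | hf)
      · refine ⟨_, Subalgebra.add_mem _ (Subalgebra.add_mem _
          (Subalgebra.neg_mem _ (ms _ ((hp.px hL hI).px hL hI)))
          (Subalgebra.mul_mem _ (ms _ ((hp.px hL hI).const_mul 2)) mv))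
          (Subalgebra.mul_mem _ (ms _ ((hp.const_mul 2).add (SmOn.const (6 * μ))))
            (Subalgebra.sub_mem _ (ms p hp) (Subalgebra.pow_mem _ mv 2))), ?_⟩
        intro x hx' t ht'
        exact ht x (Ioo_subset_Icc_self hx') t ht'
      · have hf' := mem_ofPred.mp hf
        exact ⟨_, ms _ (SmOn.ptw hL hI hf'), fun x hx' t ht' =>
          (SmOn.hasDerivWithinAt_t hf' (Ioo_subset_Icc_self hx')
            (Ioo_subset_Icc_self ht')).hasDerivAt (Icc_mem_nhds ht'.1 ht'.2)⟩)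
    _ (mem_insert _ _)
  rw [hcl] at key
  exact key

/-- Let `p = -u / 6 + κ²`, so `p_t + p_xxx = 6 (p + μ) p_x`. Solve the equation
`v_t = F := -p_xx + 2 p_x v + (2 p + 6 μ) (p - v²)` at `x = 0` from `q 0`, then the Riccati equation
`v_x = p - v²` for each `t` (both with the unknown clamped, the clamp being inactive for a short
time by Gronwall's inequality). Since `F_x = p_t - 2 v F`, the function
`W(x) = v(x, s) - v(x, t) - (s - t) F(x, t)` is `o(s - t)` by Gronwall's inequality, so `v_t = F`;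
`smooth_of_gen` gives smoothness. -/
theorem lax {L κ T : ℝ} (hL : 0 < L) (hT : 0 < T) {u : ℝ → ℝ → ℝ} (hu : KSol L 0 T u)
    {q : ℝ → ℝ} (hq : SmI L q) (h : ∀ x ∈ Icc 0 L, -6 * (dI L q x + q x ^ 2) + 6 * κ ^ 2 = u x 0) :
    ∃ ε₀ ∈ Ioc 0 T, ∃ v : ℝ → ℝ → ℝ, SmOn L (Icc 0 ε₀) v ∧ (∀ x ∈ Icc 0 L, v x 0 = q x) ∧
      (∀ x ∈ Icc 0 L, ∀ t ∈ Icc 0 ε₀, miura L κ v x t = u x t) ∧
      MEq L κ 0 ε₀ (fun _ _ => 0) v := by
  have hI := uniqueDiffOn_Icc hT
  set p : ℝ → ℝ → ℝ := fun x t => -1 / 6 * u x t + κ ^ 2 with hpdef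
  have hp : SmOn L (Icc 0 T) p := (hu.1.const_mul _).add (SmOn.const _)
  have e1 : px L p = fun x t => -1 / 6 * px L u x t := by
    rw [← px_time_mul (fun _ => -1 / 6) u]
    funext x t
    exact derivWithin_add_const _
  have e2 : px L (px L p) = fun x t => -1 / 6 * px L (px L u) x t := by
    rw [e1]; exact px_time_mul (fun _ => -1 / 6) _
  have e3 : px L (px L (px L p)) = fun x t => -1 / 6 * px L (px L (px L u)) x t := by
    rw [e2]; exact px_time_mul (fun _ => -1 / 6) _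
  have hp1 := hp.px hL hI
  have hp2 := hp1.px hL hI
  have hp3 := hp2.px hL hI
  have he : ∀ x ∈ Icc 0 L, ∀ t ∈ Icc 0 T, ptw (Icc 0 T) p x t =
      -px L (px L (px L p)) x t + 6 * (p x t + mu κ) * px L p x t := by
    have key : EqOn (fun z : ℝ × ℝ => ptw (Icc 0 T) p z.1 z.2)
        (fun z : ℝ × ℝ => -px L (px L (px L p)) z.1 z.2 + 6 * (p z.1 z.2 + mu κ) * px L p z.1 z.2)
        (Icc 0 L ×ˢ Icc 0 T) := by
      have c0 : ContinuousOn _ _ := hp.ctOn
      have c1 : ContinuousOn _ _ := hp1.ctOn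
      have c3 : ContinuousOn _ _ := hp3.ctOn
      refine EqOn.of_subset_closure (s := Ioo 0 L ×ˢ Ioo 0 T) ?_ (hp.ptw hL hI).ctOn
        (c3.neg.add ((continuousOn_const.mul (c0.add continuousOn_const)).mul c1))
        (prod_mono Ioo_subset_Icc_self Ioo_subset_Icc_self) ?_
      · rintro ⟨x, t⟩ ⟨hx, ht⟩
        have hn : Icc 0 T ∈ 𝓝 t := Icc_mem_nhds ht.1 ht.2
        have d := ((hu.1.hasDerivAt_t (Ioo_subset_Icc_self hx) hn).const_mul (-1 / 6)).add_const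
          (κ ^ 2)
        have e0 : pt p x t = -1 / 6 * pt u x t := d.deriv
        have hk := hu.2 x hx t ht
        simp only
        rw [← pt_eq_ptw p x hn, e0, e3, e1]
        simp only [hpdef, mu]
        linarith
      · rw [closure_prod_eq, closure_Ioo hL.ne, closure_Ioo hT.ne]
    exact fun x hx t ht => key (show (x, t) ∈ _ from ⟨hx, ht⟩)
  obtain ⟨ε₀, hε, v, M, C, hM, hC, hv0, hb, hl, hx, h0⟩ := lax_family (μ := mu κ) hL hT hp (q := q)
    (fun x hx => (hq.hasDerivWithinAt hx).congr_deriv (by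
      have := h x hx
      simp only [hpdef]
      linarith))
  have hsub : Icc 0 ε₀ ⊆ Icc 0 T := Icc_subset_Icc_right hε.2
  have hc : CtOn L (Icc 0 ε₀) v := by
    refine continuousOn_prod_of_continuousOn_lipschitzOnWith' _ (NNReal.mk C hC) (fun x hx' => ?_)
      (fun t ht x hx' => (hx x hx' t ht).continuousWithinAt)
    exact LipschitzOnWith.of_dist_le_mul fun s hs t ht => hl x hx' s hs t ht
  have hdt := lax_dt hL hT hε hp he hM hC hc hb hl hx h0
  have hsm := lax_smooth hL hε.1 (hp.mono hsub) hc hx hdt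
  have v1 : ∀ x ∈ Icc 0 L, ∀ t ∈ Icc 0 ε₀, px L v x t = p x t - v x t ^ 2 :=
    fun x hx' t ht => dI_eq hL hx' (hx x hx' t ht)
  have v2 : ∀ x ∈ Icc 0 L, ∀ t ∈ Icc 0 ε₀,
      px L (px L v) x t = px L p x t - 2 * v x t * (p x t - v x t ^ 2) := by
    intro x hx' t ht
    refine dI_eq hL hx' ?_
    have d := (hp.hasDerivWithinAt_x hx' (hsub ht)).sub ((hx x hx' t ht).pow 2)
    refine (d.congr (fun y hy => v1 y hy t ht) (v1 x hx' t ht)).congr_deriv ?_
    norm_num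
  have v3 : ∀ x ∈ Icc 0 L, ∀ t ∈ Icc 0 ε₀, px L (px L (px L v)) x t =
      px L (px L p) x t - (2 * (p x t - v x t ^ 2) * (p x t - v x t ^ 2) +
        2 * v x t * (px L p x t - 2 * v x t * (p x t - v x t ^ 2))) := by
    intro x hx' t ht
    refine dI_eq hL hx' ?_
    have d := (hp1.hasDerivWithinAt_x hx' (hsub ht)).sub (((hx x hx' t ht).const_mul 2).mul
      ((hp.hasDerivWithinAt_x hx' (hsub ht)).sub ((hx x hx' t ht).pow 2)))
    refine (d.congr (fun y hy => v2 y hy t ht) (v2 x hx' t ht)).congr_deriv ?_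
    norm_num
  refine ⟨ε₀, hε, v, hsm, hv0, fun x hx' t ht => ?_, fun x hx' t ht => ?_⟩
  · unfold miura
    rw [v1 x hx' t ht]
    simp only [hpdef]
    ring
  · have hx'' := Ioo_subset_Icc_self hx'
    have ht' := Ioo_subset_Icc_self ht
    have e0 : pt v x t = laxF L (mu κ) p v x t := (hdt x hx'' t ht).deriv
    unfold nN
    rw [e0, v3 x hx'' t ht', v1 x hx'' t ht']
    unfold laxF
    ring

end Pool.Agent.Lib.MP_14aec4_an.W
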