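import Pool.Agent.Lib.MP_14aec4_an.Calc

/-!
The Miura map, and the link with the definitions of the problem.
-/

noncomputable section

open MeasureTheory Set Filter Topology FourierTransform
open scoped ENNReal ComplexConjugate

namespace Pool.Agent.Lib.MP_14aec4_an.W

variable {L κ t₀ t₁ : ℝ} {P : BC} {G Z : ℝ → ℝ → ℝ} {ℓ : Fin 3 → ℝ → ℝ}

lemma SmOn.miura (hL : 0 < L) {I : Set ℝ} (hI : UniqueDiffOn ℝ I) (hZ : SmOn L I Z) (κ : ℝ) :
    SmOn L I (miura L κ Z) := by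
  exact (((hZ.px hL hI).add (hZ.pow 2)).const_mul (-6)).add (SmOn.const (6 * κ ^ 2))

lemma miura_px1 (hL : 0 < L) {I : Set ℝ} (hI : UniqueDiffOn ℝ I) (hZ : SmOn L I Z) (κ : ℝ)
    {x t : ℝ} (hx : x ∈ Icc 0 L) (ht : t ∈ I) :
    px L (miura L κ Z) x t = -6 * (px L (px L Z) x t + 2 * (Z x t * px L Z x t)) := by
  have h0 := hZ.hasDerivWithinAt_x hx ht
  have h1 := (hZ.px hL hI).hasDerivWithinAt_x hx ht
  have h := (((h1.add (h0.mul h0)).const_mul (-6)).add_const (6 * κ ^ 2))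
  rw [px_eq_dI]
  refine dI_eq hL hx ((h.congr_deriv (by ring)).congr (fun y _ => ?_) ?_) <;>
    simp only [miura, Pi.add_apply, Pi.mul_apply] <;> ring

lemma miura_px2 (hL : 0 < L) {I : Set ℝ} (hI : UniqueDiffOn ℝ I) (hZ : SmOn L I Z) (κ : ℝ)
    {x t : ℝ} (hx : x ∈ Icc 0 L) (ht : t ∈ I) :
    px L (px L (miura L κ Z)) x t = -6 * (px L (px L (px L Z)) x t + 2 * px L Z x t ^ 2
      + 2 * (Z x t * px L (px L Z) x t)) := by
  have h0 := hZ.hasDerivWithinAt_x hx ht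
  have h1 := (hZ.px hL hI).hasDerivWithinAt_x hx ht
  have h2 := ((hZ.px hL hI).px hL hI).hasDerivWithinAt_x hx ht
  have h := (h2.add ((h0.mul h1).const_mul 2)).const_mul (-6)
  rw [px_eq_dI]
  refine dI_eq hL hx ((h.congr_deriv (by ring)).congr (fun y hy => ?_) ?_)
  · rw [miura_px1 hL hI hZ κ hy ht]; simp only [Pi.add_apply, Pi.mul_apply]
  · rw [miura_px1 hL hI hZ κ hx ht]; simp only [Pi.add_apply, Pi.mul_apply]

lemma miura_px3 (hL : 0 < L) {I : Set ℝ} (hI : UniqueDiffOn ℝ I) (hZ : SmOn L I Z) (κ : ℝ)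
    {x t : ℝ} (hx : x ∈ Icc 0 L) (ht : t ∈ I) :
    px L (px L (px L (miura L κ Z))) x t = -6 * (px L (px L (px L (px L Z))) x t
      + 6 * (px L Z x t * px L (px L Z) x t) + 2 * (Z x t * px L (px L (px L Z)) x t)) := by
  have h0 := hZ.hasDerivWithinAt_x hx ht
  have h1 := (hZ.px hL hI).hasDerivWithinAt_x hx ht
  have h2 := ((hZ.px hL hI).px hL hI).hasDerivWithinAt_x hx ht
  have h3 := (((hZ.px hL hI).px hL hI).px hL hI).hasDerivWithinAt_x hx ht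
  have h := ((h3.add ((h1.mul h1).const_mul 2)).add ((h0.mul h2).const_mul 2)).const_mul (-6)
  rw [px_eq_dI]
  refine dI_eq hL hx ((h.congr_deriv (by ring)).congr (fun y hy => ?_) ?_)
  · rw [miura_px2 hL hI hZ κ hy ht]; simp only [Pi.add_apply, Pi.mul_apply]; ring
  · rw [miura_px2 hL hI hZ κ hx ht]; simp only [Pi.add_apply, Pi.mul_apply]; ring

lemma miura_pt (hL : 0 < L) {I : Set ℝ} (hI : UniqueDiffOn ℝ I) (hZ : SmOn L I Z) (κ : ℝ)
    {x t : ℝ} (hx : x ∈ Icc 0 L) (ht : I ∈ 𝓝 t) :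
    pt (miura L κ Z) x t = -6 * (px L (pt Z) x t + 2 * (Z x t * pt Z x t)) := by
  have h0 := hZ.hasDerivAt_t hx ht
  have h1 := (hZ.px hL hI).hasDerivAt_t hx ht
  have h := (((h1.add (h0.mul h0)).const_mul (-6)).add_const (6 * κ ^ 2))
  rw [← hZ.pt_px hL hI hx ht]
  refine HasDerivAt.deriv ((h.congr_deriv (by ring)).congr_of_eventuallyEq
    (Eventually.of_forall fun τ => ?_))
  simp only [miura, Pi.add_apply, Pi.mul_apply]; ring

lemma miura_px_zero (L : ℝ) : px L (fun _ _ => (0 : ℝ)) = fun _ _ => 0 := by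
  funext x t
  simp [px]

lemma miura_j_cases (P : BC) (i : Fin 3) : P.j i = 0 ∨ P.j i = 1 ∨ P.j i = 2 := by
  fin_cases i <;> simp only [BC.j] <;> cases P.d0 <;> cases P.dL <;> simp

lemma miura_ept_mem (hL : 0 < L) (i : Fin 3) : ept L i ∈ Icc 0 L := by
  fin_cases i <;> simp [ept, hL.le]

/-- The modified equation holds up to the ends of `[0, L]`. -/
lemma MEq.closed (hL : 0 < L) (ht : t₀ < t₁) (hZ : SmOn L (Icc t₀ t₁) Z)
    (hG : CtOn L (Icc t₀ t₁) G) (h : MEq L κ t₀ t₁ G Z) :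
    ∀ x ∈ Icc 0 L, ∀ t ∈ Ioo t₀ t₁,
      pt Z x t + px L (px L (px L Z)) x t = nN L κ Z x t + G x t := by
  intro x hx t ht'
  have hI : UniqueDiffOn ℝ (Icc t₀ t₁) := uniqueDiffOn_Icc ht
  have htI : t ∈ Icc t₀ t₁ := Ioo_subset_Icc_self ht'
  have hn : Icc t₀ t₁ ∈ 𝓝 t := Icc_mem_nhds ht'.1 ht'.2
  have h1 := hZ.px hL hI
  have h3 := (h1.px hL hI).px hL hI
  have hc1 : ContinuousOn (fun x => pt Z x t + px L (px L (px L Z)) x t) (Icc 0 L) :=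
    (hZ.smI_pt hL hI hn).cont.add (h3.slice_x htI).cont
  have hc2 : ContinuousOn (fun x => nN L κ Z x t + G x t) (Icc 0 L) := by
    refine ContinuousOn.add ?_ (hG.slice_x htI)
    exact ((((hZ.pow 2).add (SmOn.const (mu κ))).const_mul 6).mul h1).ctOn.slice_x htI
  have he : EqOn (fun x => pt Z x t + px L (px L (px L Z)) x t) (fun x => nN L κ Z x t + G x t)
      (Ioo 0 L) := fun y hy => h y hy t ht'
  exact he.of_subset_closure hc1 hc2 Ioo_subset_Icc_self (by rw [closure_Ioo hL.ne]) hx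

theorem miura_eq (hL : 0 < L) (ht : t₀ < t₁) (hZ : SmOn L (Icc t₀ t₁) Z)
    (hG : SmOn L (Icc t₀ t₁) G) (h : MEq L κ t₀ t₁ G Z) :
    ∀ x ∈ Ioo 0 L, ∀ t ∈ Ioo t₀ t₁,
      pt (miura L κ Z) x t + px L (miura L κ Z) x t + px L (px L (px L (miura L κ Z))) x t
        + miura L κ Z x t * px L (miura L κ Z) x t = -6 * (px L G x t + 2 * Z x t * G x t) := by
  intro x hx t ht'
  have hI : UniqueDiffOn ℝ (Icc t₀ t₁) := uniqueDiffOn_Icc ht
  have htI : t ∈ Icc t₀ t₁ := Ioo_subset_Icc_self ht'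
  have hxI : x ∈ Icc 0 L := Ioo_subset_Icc_self hx
  have hn : Icc t₀ t₁ ∈ 𝓝 t := Icc_mem_nhds ht'.1 ht'.2
  have hcl := h.closed hL ht hZ hG.ctOn
  have h0 := hZ.hasDerivWithinAt_x hxI htI
  have h1 := (hZ.px hL hI).hasDerivWithinAt_x hxI htI
  have h3 := (((hZ.px hL hI).px hL hI).px hL hI).hasDerivWithinAt_x hxI htI
  have hg := hG.hasDerivWithinAt_x hxI htI
  have hd := (((((h0.mul h0).add_const (mu κ)).const_mul 6).mul h1).add hg).sub h3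
  have hpt : px L (pt Z) x t = 12 * (Z x t * px L Z x t ^ 2)
      + 6 * (Z x t ^ 2 + mu κ) * px L (px L Z) x t + px L G x t
      - px L (px L (px L (px L Z))) x t := by
    rw [px_eq_dI]
    refine dI_eq hL hxI ((hd.congr_deriv ?_).congr (fun y hy => ?_) ?_)
    · simp only [Pi.mul_apply]; ring
    · have := hcl y hy t ht'
      simp only [nN, Pi.add_apply, Pi.mul_apply, Pi.sub_apply] at this ⊢
      linarith
    · have := hcl x hxI t ht'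
      simp only [nN, Pi.add_apply, Pi.mul_apply, Pi.sub_apply] at this ⊢
      linarith
  have hz : pt Z x t = nN L κ Z x t + G x t - px L (px L (px L Z)) x t := by
    linarith [h x hx t ht']
  rw [miura_pt hL hI hZ κ hxI hn, miura_px1 hL hI hZ κ hxI htI, miura_px3 hL hI hZ κ hxI htI,
    hpt, hz]
  simp only [miura, nN, mu]
  ring

theorem miura_bop (hL : 0 < L) (ht : t₀ < t₁) (P : BC) (hZ : SmOn L (Icc t₀ t₁) Z)
    (hG : CtOn L (Icc t₀ t₁) G) (h : MEq L κ t₀ t₁ G Z) (i : Fin 3) :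
    ∀ t ∈ Ioo t₀ t₁, bop L P (miura L κ Z) i t =
      -6 * (ztr L Z (P.j i) (ept L i) t - nlb L κ P Z i t + P.dyn i * G (ept L i) t)
        + 6 * κ ^ 2 * P.c i := by
  intro t ht'
  have hI : UniqueDiffOn ℝ (Icc t₀ t₁) := uniqueDiffOn_Icc ht
  have htI : t ∈ Icc t₀ t₁ := Ioo_subset_Icc_self ht'
  have he := miura_ept_mem hL i
  have hcl := h.closed hL ht hZ hG (ept L i) he t ht'
  have h00 : (0 : ℝ) ∈ Icc 0 L := left_mem_Icc.2 hL.le
  have hz : pt Z (ept L i) t =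
      nN L κ Z (ept L i) t + G (ept L i) t - px L (px L (px L Z)) (ept L i) t := by linarith
  rw [bop, miura_px1 hL hI hZ κ h00 htI]
  rcases miura_j_cases P i with hj | hj | hj
  · simp only [hj, ztr, nlb, tL, tQ, tC, tE, BC.dyn, BC.c, Function.iterate_zero, id, miura]
    norm_num
    ring
  · simp only [hj, ztr, nlb, tL, tQ, tC, tE, BC.dyn, BC.c, Function.iterate_one]
    rw [miura_px1 hL hI hZ κ he htI]
    simp only [miura]
    norm_num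
    ring
  · simp only [hj, ztr, nlb, tL, tQ, tC, tE, BC.dyn, BC.c]
    rw [show (px L)^[2] (miura L κ Z) = px L (px L (miura L κ Z)) from rfl,
      miura_px2 hL hI hZ κ he htI, hz]
    simp only [miura, nN]
    norm_num
    ring

theorem FSol.ksol (hL : 0 < L) (ht : t₀ < t₁) (h : FSol L κ P t₀ t₁ G ℓ Z)
    (hG : ∀ x ∈ Icc 0 L, ∀ t ∈ Ioo t₀ t₁, G x t = 0) :
    KSol L t₀ t₁ (miura L κ Z) ∧
      ∀ i, ∀ t ∈ Ioo t₀ t₁, bop L P (miura L κ Z) i t = -6 * ℓ i t + 6 * κ ^ 2 * P.c i := by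
  have hE : MEq L κ t₀ t₁ (fun _ _ => 0) Z := fun x hx t ht' => by
    rw [h.eq x hx t ht', hG x (Ioo_subset_Icc_self hx) t ht']
  refine ⟨⟨h.sm.miura hL (uniqueDiffOn_Icc ht) κ, fun x hx t ht' => ?_⟩, fun i t ht' => ?_⟩
  · rw [miura_eq hL ht h.sm (SmOn.const 0) hE x hx t ht', miura_px_zero]
    simp
  · rw [miura_bop hL ht P h.sm (SmOn.const 0).ctOn hE i t ht', h.bc i t ht']
    ring

lemma FSol.mono (h : FSol L κ P t₀ t₁ G ℓ Z) {s₀ s₁ : ℝ} (h₀ : t₀ ≤ s₀) (h₁ : s₁ ≤ t₁) :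
    FSol L κ P s₀ s₁ G ℓ Z := by
  exact ⟨h.sm.mono (Icc_subset_Icc h₀ h₁),
    fun x hx t ht => h.eq x hx t (Ioo_subset_Ioo h₀ h₁ ht),
    fun i t ht => h.bc i t (Ioo_subset_Ioo h₀ h₁ ht)⟩

lemma FSol.congr (h : FSol L κ P t₀ t₁ G ℓ Z) {G' : ℝ → ℝ → ℝ} {ℓ' : Fin 3 → ℝ → ℝ}
    (hG : ∀ x ∈ Ioo 0 L, ∀ t ∈ Ioo t₀ t₁, G' x t = G x t)
    (hℓ : ∀ i, ∀ t ∈ Ioo t₀ t₁, ℓ' i t = ℓ i t) : FSol L κ P t₀ t₁ G' ℓ' Z := by
  exact ⟨h.sm, fun x hx t ht => by rw [hG x hx t ht]; exact h.eq x hx t ht,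
    fun i t ht => by rw [hℓ i t ht]; exact h.bc i t ht⟩

lemma KSol.mono {u : ℝ → ℝ → ℝ} (h : KSol L t₀ t₁ u) {s₀ s₁ : ℝ} (h₀ : t₀ ≤ s₀) (h₁ : s₁ ≤ t₁) :
    KSol L s₀ s₁ u := by
  exact ⟨h.1.mono (Icc_subset_Icc h₀ h₁), fun x hx t ht => h.2 x hx t (Ioo_subset_Ioo h₀ h₁ ht)⟩

lemma ksol_zero (L t₀ t₁ : ℝ) : KSol L t₀ t₁ fun _ _ => 0 := by
  refine ⟨SmOn.const 0, fun x _ t _ => ?_⟩
  simp [miura_px_zero, pt]

lemma bop_zero (L : ℝ) (P : BC) (i : Fin 3) (t : ℝ) : bop L P (fun _ _ => 0) i t = 0 := by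
  have h : ∀ n : ℕ, (px L)^[n] (fun _ _ => (0 : ℝ)) = fun _ _ => 0 := fun n =>
    Function.iterate_fixed (miura_px_zero L) n
  simp [bop, h, miura_px_zero]

lemma valid_bcOf (a b : ℕ → ℕ → ℝ) (k : Fin 4) : (bcOf a b k).Valid := by
  intro i
  fin_cases k <;> fin_cases i <;> simp [bcOf, BC.j]

lemma bdry_eq_bop (L : ℝ) (a b : ℕ → ℕ → ℝ) (k : Fin 4) (u : ℝ → ℝ → ℝ) :
    bdry L a b k u = bop L (bcOf a b k) u := by
  funext i t
  simp only [bdry, iteratedDerivWithin_eq_px]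
  fin_cases k <;> fin_cases i <;> simp [bop, bcOf, BC.j, ept] <;> ring

lemma ord_eq (a b : ℕ → ℕ → ℝ) (k : Fin 4) (i : Fin 3) :
    ((-1 : ℝ) + 1 - (![![0, 0, 1], ![0, 1, 2], ![2, 0, 1], ![2, 1, 2]] k i : ℝ)) / 3 =
      (bcOf a b k).σ i := by
  fin_cases k <;> fin_cases i <;> simp [bcOf, BC.j, BC.σ]

lemma win_eq (L : ℝ) (a b : ℕ → ℕ → ℝ) (k : Fin 4) :
    win L k = winB (bcOf a b k).d0 (bcOf a b k).dL L := by
  fin_cases k <;> simp [win, winB, bcOf]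

lemma BC.σ_mem (P : BC) (i : Fin 3) : -1 ≤ P.σ i ∧ P.σ i ≤ 0 := by
  rcases miura_j_cases P i with hj | hj | hj <;> simp only [BC.σ, hj] <;> norm_num

lemma σ_bcOf_zero (a b : ℕ → ℕ → ℝ) (i : Fin 3) :
    (bcOf a b 0).σ i = 0 ∨ (bcOf a b 0).σ i = -1 / 3 := by
  fin_cases i <;> simp [bcOf, BC.j, BC.σ]

theorem isSmoothSol_iff {T : ℝ} (hL : 0 < L) (hT : 0 < T) (u : ℝ → ℝ → ℝ) :
    IsSmoothSol L T u ↔ KSol L 0 T u := by
  refine and_congr_right fun hs => forall₂_congr fun x hx => forall₂_congr fun t ht => ?_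
  have hn : Icc 0 L ∈ 𝓝 x := Icc_mem_nhds hx.1 hx.2
  have h1 : deriv (fun y => u y t) x = px L u x t := (derivWithin_of_mem_nhds hn).symm
  have hsm : SmI L fun y => u y t := SmOn.slice_x hs (Ioo_subset_Icc_self ht)
  have h3 : iteratedDeriv 3 (fun y => u y t) x = px L (px L (px L u)) x t := by
    rw [← iteratedDerivWithin_eq_iteratedDeriv (uniqueDiffOn_Icc hL)
      ((hsm.contDiffAt hn).of_le (WithTop.coe_le_coe.2 (le_top (a := (3 : ℕ∞))))) (Ioo_subset_Icc_self hx),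
      iteratedDerivWithin_eq_px]
    rfl
  rw [h1, h3]
  rfl

end Pool.Agent.Lib.MP_14aec4_an.W
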