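import Pool.Agent.Lib.MP_14aec4_an.KE
import Pool.Agent.Lib.MP_14aec4_an.Miura

/-!
Uniqueness for the forced modified problem.
-/

noncomputable section

open MeasureTheory Set Filter Topology FourierTransform
open scoped ENNReal ComplexConjugate

namespace Pool.Agent.Lib.MP_14aec4_an.W

/-- The weight `x² (L - x)²`. -/
def nuW (L x : ℝ) : ℝ := x ^ 2 * (L - x) ^ 2

lemma nu_abs_integral {L : ℝ} (hL : 0 < L) {f g : ℝ → ℝ} (hf : ContinuousOn f (Icc 0 L))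
    (hg : ContinuousOn g (Icc 0 L)) (h : ∀ x ∈ Ioo 0 L, |f x| ≤ g x) :
    |∫ x in (0 : ℝ)..L, f x| ≤ ∫ x in (0 : ℝ)..L, g x := by
  have i1 : IntervalIntegrable f volume 0 L := hf.intervalIntegrable_of_Icc hL.le
  have i2 : IntervalIntegrable g volume 0 L := hg.intervalIntegrable_of_Icc hL.le
  rw [abs_le']
  refine ⟨intervalIntegral.integral_mono_on_of_le_Ioo hL.le i1 i2 fun x hx =>
    (le_abs_self _).trans (h x hx), ?_⟩
  rw [← intervalIntegral.integral_neg]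
  exact intervalIntegral.integral_mono_on_of_le_Ioo hL.le i1.neg i2 fun x hx =>
    (neg_le_abs _).trans (h x hx)

lemma nu_one {L : ℝ} (hL : 0 < L) {d₁ d₂ d₃ w g : ℝ → ℝ} (c₁ : ContinuousOn d₁ (Icc 0 L))
    (c₂ : ContinuousOn d₂ (Icc 0 L)) (c₃ : ContinuousOn d₃ (Icc 0 L))
    (cw : ContinuousOn w (Icc 0 L)) (cg : ContinuousOn g (Icc 0 L))
    (h₁ : ∀ x ∈ Ioo 0 L, HasDerivAt d₁ (d₂ x) x) (h₂ : ∀ x ∈ Ioo 0 L, HasDerivAt d₂ (d₃ x) x)
    (hw : ∀ x ∈ Ioo 0 L, |w x + d₃ x| ≤ g x) (hd : ∀ x ∈ Ioo 0 L, |d₁ x| ≤ g x) :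
    |∫ x in (0 : ℝ)..L, nuW L x * w x| ≤ (L ^ 4 + 12 * L ^ 2) * ∫ x in (0 : ℝ)..L, g x := by
  let Ψ : ℝ → ℝ := fun x => x ^ 2 * (L - x) ^ 2 * d₂ x -
    (2 * x * (L - x) ^ 2 - 2 * x ^ 2 * (L - x)) * d₁ x
  let Ψ' : ℝ → ℝ := fun x => x ^ 2 * (L - x) ^ 2 * d₃ x -
    (2 * (L - x) ^ 2 - 8 * x * (L - x) + 2 * x ^ 2) * d₁ x
  have ii : ∀ {f : ℝ → ℝ}, ContinuousOn f (Icc 0 L) → IntervalIntegrable f volume 0 L :=
    fun hf => hf.intervalIntegrable_of_Icc hL.le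
  have cΨ : ContinuousOn Ψ (Icc 0 L) := by fun_prop
  have cΨ' : ContinuousOn Ψ' (Icc 0 L) := by fun_prop
  have dΨ : ∀ x ∈ Ioo 0 L, HasDerivAt Ψ (Ψ' x) x := by
    intro x hx
    have e0 := hasDerivAt_id' x
    have e1 : HasDerivAt (fun y : ℝ => L - y) (-1) x := e0.const_sub L
    refine ((((e0.pow 2).mul (e1.pow 2)).mul (h₂ x hx)).sub
      ((((e0.const_mul 2).mul (e1.pow 2)).sub (((e0.pow 2).const_mul 2).mul e1)).mul
        (h₁ x hx))).congr_deriv ?_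
    simp only [Ψ', Pi.mul_apply, Pi.pow_apply, Pi.sub_apply]
    push_cast
    ring
  have k1 := intervalIntegral.integral_eq_sub_of_hasDerivAt_of_le hL.le cΨ dΨ (ii cΨ')
  have k2 : Ψ L - Ψ 0 = 0 := by simp [Ψ]
  have cf : ContinuousOn (fun x => nuW L x * w x) (Icc 0 L) := by
    unfold nuW
    fun_prop
  have k3 : ∫ x in (0 : ℝ)..L, nuW L x * w x = ∫ x in (0 : ℝ)..L, (nuW L x * w x + Ψ' x) := by
    rw [intervalIntegral.integral_add (ii cf) (ii cΨ'), k1, k2, add_zero]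
  rw [k3, ← intervalIntegral.integral_const_mul]
  refine nu_abs_integral hL (cf.add cΨ') (by fun_prop) fun x hx => ?_
  have e : nuW L x * w x + Ψ' x = (x * (L - x)) ^ 2 * (w x + d₃ x) -
      (2 * (L - x) ^ 2 - 8 * x * (L - x) + 2 * x ^ 2) * d₁ x := by
    simp only [nuW, Ψ']
    ring
  have p1 : 0 < x := hx.1
  have p2 : 0 < L - x := by linarith [hx.2]
  have p3 : x * (L - x) ≤ L ^ 2 := by nlinarith
  have p4 : (x * (L - x)) ^ 2 ≤ L ^ 4 := by
    calc _ ≤ (L ^ 2) ^ 2 := pow_le_pow_left₀ (by positivity) p3 2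
      _ = _ := by ring
  have p5 : |2 * (L - x) ^ 2 - 8 * x * (L - x) + 2 * x ^ 2| ≤ 12 * L ^ 2 := by
    rw [abs_le]
    constructor <;> nlinarith [mul_pos p1 p2]
  rw [e]
  refine (abs_sub _ _).trans ?_
  rw [abs_mul, abs_mul, abs_of_nonneg (sq_nonneg _), add_mul]
  exact add_le_add (mul_le_mul p4 (hw x hx) (abs_nonneg _) (by positivity))
    (mul_le_mul p5 (hd x hx) (abs_nonneg _) (by positivity))

lemma nu_sup {L K : ℝ} (hL : 0 < L) : ∃ A, 0 ≤ A ∧ ∀ d c z : ℝ → ℝ, ContinuousOn d (Icc 0 L) →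
    ContinuousOn c (Icc 0 L) → ContinuousOn z (Icc 0 L) → (∀ x ∈ Icc 0 L, |c x| ≤ K) →
    (∀ x ∈ Ioo 0 L, HasDerivAt d (-c x * d x + -(z x / 6)) x) → ∀ x ∈ Icc 0 L,
      |d x| ≤ A * (|∫ y in (0 : ℝ)..L, nuW L y * d y| + ∫ y in (0 : ℝ)..L, |z y|) := by
  have cW : Continuous (nuW L) := by
    unfold nuW
    fun_prop
  have hΦ : 0 < ∫ y in (0 : ℝ)..L, nuW L y :=
    intervalIntegral.intervalIntegral_pos_of_pos_on (cW.intervalIntegrable _ _)
      (fun y hy => mul_pos (pow_pos hy.1 2) (pow_pos (by linarith [hy.2]) 2)) hL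
  set Φ := ∫ y in (0 : ℝ)..L, nuW L y with hΦd
  refine ⟨Real.exp (2 * (L * K)) * (1 / Φ + 1), by positivity, fun d c z hd hc hz hK hde x hx => ?_⟩
  obtain ⟨x', hx', hm⟩ := exists_eq_const_mul_intervalIntegral_of_nonneg (f := d) (g := nuW L)
    (μ := volume) (a := 0) (b := L) (by rwa [uIcc_of_le hL.le]) (cW.intervalIntegrable _ _)
    (fun y _ => by unfold nuW; positivity)
  rw [uIcc_of_le hL.le] at hx'
  have h1 := abs_le_of_linear_ode (r := fun y => -(z y / 6)) hd hc (by fun_prop) hde hx hx'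
  have h2 : ∫ y in (0 : ℝ)..L, |c y| ≤ L * K := by
    have := intervalIntegral.integral_mono_on (μ := volume) (g := fun _ => K) hL.le
      (hc.abs.intervalIntegrable_of_Icc hL.le) (by simp) hK
    simpa using this
  have h3 : ∫ y in (0 : ℝ)..L, |-(z y / 6)| ≤ ∫ y in (0 : ℝ)..L, |z y| := by
    refine intervalIntegral.integral_mono_on hL.le
      (ContinuousOn.intervalIntegrable_of_Icc hL.le (by fun_prop))
      (hz.abs.intervalIntegrable_of_Icc hL.le) fun y _ => ?_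
    rw [abs_neg, abs_div]
    exact div_le_self (abs_nonneg _) (by norm_num)
  have h4 : |d x'| = |∫ y in (0 : ℝ)..L, nuW L y * d y| * (1 / Φ) := by
    simp only [mul_comm (nuW L _)]
    rw [hm, abs_mul, abs_of_pos hΦ]
    field_simp
  have h5 : 0 ≤ ∫ y in (0 : ℝ)..L, |z y| :=
    intervalIntegral.integral_nonneg hL.le fun y _ => abs_nonneg _
  have h6 : 0 ≤ ∫ y in (0 : ℝ)..L, |-(z y / 6)| :=
    intervalIntegral.integral_nonneg hL.le fun y _ => abs_nonneg _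
  refine h1.trans ?_
  rw [mul_assoc (Real.exp _)]
  refine mul_le_mul (Real.exp_le_exp.mpr (by linarith)) ?_ (by positivity) (Real.exp_pos _).le
  have h7 : 0 ≤ 1 / Φ := by positivity
  have h8 := abs_nonneg (∫ y in (0 : ℝ)..L, nuW L y * d y)
  nlinarith [mul_nonneg h7 h5]

lemma nu_sq_le {L : ℝ} (hL : 0 < L) {z : ℝ → ℝ} (hz : ContinuousOn z (Icc 0 L)) :
    (∫ y in (0 : ℝ)..L, |z y|) ^ 2 ≤ L * ∫ y in (0 : ℝ)..L, (1 + y) * z y ^ 2 := by
  have h1 := integral_abs_le hL.le hz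
  have h2 : 0 ≤ ∫ y in (0 : ℝ)..L, |z y| :=
    intervalIntegral.integral_nonneg hL.le fun y _ => abs_nonneg _
  have h3 : ∫ y in (0 : ℝ)..L, z y ^ 2 ≤ ∫ y in (0 : ℝ)..L, (1 + y) * z y ^ 2 :=
    intervalIntegral.integral_mono_on hL.le
      (ContinuousOn.intervalIntegrable_of_Icc hL.le (by fun_prop))
      (ContinuousOn.intervalIntegrable_of_Icc hL.le (by fun_prop)) fun y hy =>
        le_mul_of_one_le_left (sq_nonneg _) (by linarith [hy.1])
  calc _ ≤ (Real.sqrt L * nL L z) ^ 2 := pow_le_pow_left₀ h2 h1 2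
    _ = L * ∫ y in (0 : ℝ)..L, z y ^ 2 := by rw [mul_pow, Real.sq_sqrt hL.le, nL_sq hL.le]
    _ ≤ _ := mul_le_mul_of_nonneg_left h3 hL.le

lemma nu_arith1 {K D z zx ux v d g : ℝ} (hK : 0 ≤ K) (hux : |ux| ≤ K) (hv : |v| ≤ K)
    (hg : |g| ≤ K) (hd : |d| ≤ D) :
    |zx + z * ux + v * zx + 12 * (d * g)| ≤ (1 + 12 * K) * (|z| + |zx| + D) := by
  have h1 := abs_add_le (zx + z * ux + v * zx) (12 * (d * g))
  have h2 := abs_add_three zx (z * ux) (v * zx)
  rw [abs_mul, abs_mul] at h2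
  rw [abs_mul, abs_mul, abs_of_pos (show (0 : ℝ) < 12 by norm_num)] at h1
  have a1 := mul_le_mul_of_nonneg_left hux (abs_nonneg z)
  have a2 := mul_le_mul_of_nonneg_right hv (abs_nonneg zx)
  have a3 := mul_le_mul hd hg (abs_nonneg _) ((abs_nonneg _).trans hd)
  have a4 := abs_nonneg z
  have a5 := abs_nonneg zx
  have a6 : 0 ≤ D := (abs_nonneg _).trans hd
  nlinarith [mul_nonneg hK a4, mul_nonneg hK a5]

lemma nu_arith2 {K D m z p p' px px' : ℝ} (hK : 0 ≤ K) (hp : |p| ≤ K) (hp' : |p'| ≤ K)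
    (hx : |px'| ≤ K) (hd : |p - p'| ≤ D) (he : px - px' = -(p + p') * (p - p') + -(z / 6)) :
    |px - px'| ≤ ((2 * K + 1) * (6 * (K ^ 2 + |m|) + 1) + 12 * K ^ 2) * (D + |z|) ∧
    |6 * (p ^ 2 + m) * px - 6 * (p' ^ 2 + m) * px'| ≤
      ((2 * K + 1) * (6 * (K ^ 2 + |m|) + 1) + 12 * K ^ 2) * (D + |z|) := by
  have hD : 0 ≤ D := (abs_nonneg _).trans hd
  have hz := abs_nonneg z
  have hm := abs_nonneg m
  have h1 : |p + p'| ≤ 2 * K := (abs_add_le _ _).trans (by linarith)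
  have h2 : |(p + p') * (p - p')| ≤ 2 * K * D := by
    rw [abs_mul]
    exact mul_le_mul h1 hd (abs_nonneg _) (by positivity)
  have h3 : |px - px'| ≤ (2 * K + 1) * (D + |z|) := by
    rw [he]
    refine (abs_add_le _ _).trans ?_
    rw [neg_mul, abs_neg, abs_neg, abs_div, abs_of_pos (show (0 : ℝ) < 6 by norm_num)]
    nlinarith [mul_nonneg hK hz]
  have h4 : |p ^ 2 + m| ≤ K ^ 2 + |m| := by
    refine (abs_add_le _ _).trans ?_
    rw [abs_pow]
    exact add_le_add (pow_le_pow_left₀ (abs_nonneg _) hp 2) le_rfl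
  have h5 : 0 ≤ (2 * K + 1) * (D + |z|) := by positivity
  have h6 : 0 ≤ K ^ 2 * (D + |z|) := by positivity
  have h7 : 0 ≤ (K ^ 2 + |m|) * ((2 * K + 1) * (D + |z|)) := by positivity
  constructor
  · nlinarith
  · have e : 6 * (p ^ 2 + m) * px - 6 * (p' ^ 2 + m) * px' =
        6 * ((p ^ 2 + m) * (px - px')) + 6 * ((p + p') * (p - p') * px') := by ring
    rw [e]
    refine (abs_add_le _ _).trans ?_
    rw [abs_mul, abs_mul, abs_mul 6, abs_mul _ px', abs_of_pos (show (0 : ℝ) < 6 by norm_num)]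
    have a1 := mul_le_mul h4 h3 (abs_nonneg _) (by positivity)
    have a2 := mul_le_mul h2 hx (abs_nonneg _) (by positivity)
    nlinarith [mul_nonneg (sq_nonneg K) hz]

lemma nu_arith3 {C A B L E a s a' e : ℝ} (hC : 0 ≤ C) (hL : 0 ≤ L) (hE : 0 ≤ E) (hA : 0 ≤ A)
    (hB : 0 ≤ B) (hs0 : 0 ≤ s) (hs : s ^ 2 ≤ L * E) (he : e ≤ C * (E + (A * (|a| + s)) ^ 2))
    (ha : |a'| ≤ B * (L * (A * (|a| + s)) + s)) :
    e + 2 * a * a' ≤ (C * (1 + A ^ 2 * (2 * (1 + L))) + 1 +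
      (B * (L * A + 1)) ^ 2 * (2 * (1 + L))) * (E + a ^ 2) := by
  have h0 := abs_nonneg a
  have h1 : (|a| + s) ^ 2 ≤ 2 * (1 + L) * (E + a ^ 2) := by
    rw [← sq_abs a]
    nlinarith [sq_nonneg (|a| - s), mul_nonneg hL (sq_nonneg |a|)]
  have h2 : |a'| ≤ B * (L * A + 1) * (|a| + s) := by
    refine ha.trans ?_
    rw [mul_assoc B]
    exact mul_le_mul_of_nonneg_left (by nlinarith) hB
  have h3 : a' ^ 2 ≤ (B * (L * A + 1)) ^ 2 * (2 * (1 + L) * (E + a ^ 2)) := by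
    rw [← sq_abs a']
    calc _ ≤ (B * (L * A + 1) * (|a| + s)) ^ 2 := pow_le_pow_left₀ (abs_nonneg _) h2 2
      _ = (B * (L * A + 1)) ^ 2 * (|a| + s) ^ 2 := by ring
      _ ≤ _ := mul_le_mul_of_nonneg_left h1 (sq_nonneg _)
  have h4 : (A * (|a| + s)) ^ 2 ≤ A ^ 2 * (2 * (1 + L) * (E + a ^ 2)) := by
    rw [mul_pow]
    exact mul_le_mul_of_nonneg_left h1 (sq_nonneg _)
  have h5 := mul_le_mul_of_nonneg_left h4 hC
  nlinarith [sq_nonneg (a - a'), mul_nonneg hC (sq_nonneg a)]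

/-- Let `d = Z - Z'`, `z = miura Z - miura Z'`, so `d_x = -(Z + Z') d - z / 6`, `bop z = 0`
(`miura_bop`) and `|z_t + z_xxx| ≤ K (|z| + |z_x| + D)` with `D(t) = max |d(·, t)|`
(`miura_eq`). Let `φ = x³ (L - x)³`, `a(t) = ∫ φ d`. Then `|a'| ≤ C D` (integrate `φ d_xxx` and
`φ (N Z - N Z')`, where `N Z = ∂_x (2 Z³ + 6 μ Z)`, by parts), and
`D ≤ C (|a| + ‖z‖_{L²})` by `abs_le_of_linear_ode` applied from a point where `|d|` is minimal
(either `d` vanishes there or has constant sign, and then `min |d| ∫ φ ≤ |a|`). So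
`E + a²` vanishes by `ke` and `eq_zero_of_deriv_le`. -/
theorem nu {L κ t₀ t₁ : ℝ} (hL : 0 < L) {P : BC} (hP : P.Valid) (ht : t₀ < t₁)
    {G Z Z' : ℝ → ℝ → ℝ} {ℓ : Fin 3 → ℝ → ℝ} (hG : SmOn L (Icc t₀ t₁) G)
    (h : FSol L κ P t₀ t₁ G ℓ Z) (h' : FSol L κ P t₀ t₁ G ℓ Z')
    (h₀ : ∀ x ∈ Icc 0 L, Z x t₀ = Z' x t₀) : ∀ x ∈ Icc 0 L, ∀ t ∈ Icc t₀ t₁, Z x t = Z' x t := by
  have hI : UniqueDiffOn ℝ (Icc t₀ t₁) := uniqueDiffOn_Icc ht
  have hn : ∀ {τ : ℝ}, τ ∈ Ioo t₀ t₁ → Icc t₀ t₁ ∈ 𝓝 τ := fun h => Icc_mem_nhds h.1 h.2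
  have hu := h.sm.miura hL hI κ
  have hu' := h'.sm.miura hL hI κ
  have hz := hu.sub hu'
  have hd := h.sm.sub h'.sm
  obtain ⟨K, hK, b1, b2, b3, b4, b5, b6⟩ : ∃ K, 0 ≤ K ∧
      (∀ x ∈ Icc 0 L, ∀ t ∈ Icc t₀ t₁, |Z x t| ≤ K) ∧
      (∀ x ∈ Icc 0 L, ∀ t ∈ Icc t₀ t₁, |Z' x t| ≤ K) ∧
      (∀ x ∈ Icc 0 L, ∀ t ∈ Icc t₀ t₁, |px L Z' x t| ≤ K) ∧
      (∀ x ∈ Icc 0 L, ∀ t ∈ Icc t₀ t₁, |px L (miura L κ Z) x t| ≤ K) ∧
      (∀ x ∈ Icc 0 L, ∀ t ∈ Icc t₀ t₁, |miura L κ Z' x t| ≤ K) ∧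
      ∀ x ∈ Icc 0 L, ∀ t ∈ Icc t₀ t₁, |G x t| ≤ K := by
    obtain ⟨K₁, k1, b1⟩ := h.sm.ctOn.bdd
    obtain ⟨K₂, k2, b2⟩ := h'.sm.ctOn.bdd
    obtain ⟨K₃, k3, b3⟩ := (h'.sm.px hL hI).ctOn.bdd
    obtain ⟨K₄, k4, b4⟩ := (hu.px hL hI).ctOn.bdd
    obtain ⟨K₅, k5, b5⟩ := hu'.ctOn.bdd
    obtain ⟨K₆, k6, b6⟩ := hG.ctOn.bdd
    exact ⟨K₁ + K₂ + K₃ + K₄ + K₅ + K₆, by positivity,
      fun x hx t ht => (b1 x hx t ht).trans (by linarith),
      fun x hx t ht => (b2 x hx t ht).trans (by linarith),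
      fun x hx t ht => (b3 x hx t ht).trans (by linarith),
      fun x hx t ht => (b4 x hx t ht).trans (by linarith),
      fun x hx t ht => (b5 x hx t ht).trans (by linarith),
      fun x hx t ht => (b6 x hx t ht).trans (by linarith)⟩
  obtain ⟨C, hC, hke⟩ := ke hL hP (K := 1 + 12 * K) (by positivity)
  obtain ⟨A, hA, hsup⟩ := nu_sup (K := 2 * K) hL
  set z : ℝ → ℝ → ℝ := fun x t => miura L κ Z x t - miura L κ Z' x t with hzd
  set d : ℝ → ℝ → ℝ := fun x t => Z x t - Z' x t with hdd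
  let a : ℝ → ℝ := fun t => ∫ y in (0 : ℝ)..L, nuW L y * d y t
  let E : ℝ → ℝ := fun t => ∫ y in (0 : ℝ)..L, (1 + y) * z y t ^ 2
  let s : ℝ → ℝ := fun t => ∫ y in (0 : ℝ)..L, |z y t|
  have hode : ∀ x t, px L Z x t - px L Z' x t =
      -(Z x t + Z' x t) * (Z x t - Z' x t) + -(z x t / 6) := by
    intro x t
    simp only [hzd, miura]
    ring
  have hD : ∀ t ∈ Icc t₀ t₁, ∀ x ∈ Icc 0 L, |d x t| ≤ A * (|a t| + s t) := by
    intro t ht
    refine hsup (fun x => d x t) (fun x => Z x t + Z' x t) (fun x => z x t) (hd.ctOn.slice_x ht)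
      ((h.sm.add h'.sm).ctOn.slice_x ht) (hz.ctOn.slice_x ht)
      (fun x hx => (abs_add_le _ _).trans (by linarith [b1 x hx t ht, b2 x hx t ht]))
      fun x hx => ?_
    exact ((h.sm.hasDerivAt_x hx ht).sub (h'.sm.hasDerivAt_x hx ht)).congr_deriv (hode x t)
  have hs0 : ∀ t, 0 ≤ s t := fun t =>
    intervalIntegral.integral_nonneg hL.le fun y _ => abs_nonneg _
  have hE0 : ∀ t, 0 ≤ E t := fun t => intervalIntegral.integral_nonneg hL.le fun x hx =>
    mul_nonneg (by linarith [hx.1]) (sq_nonneg _)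
  have hsE : ∀ t ∈ Icc t₀ t₁, s t ^ 2 ≤ L * E t := fun t ht => nu_sq_le hL (hz.ctOn.slice_x ht)
  have cx : CtOn L (Icc t₀ t₁) fun x _ => 1 + x := by
    unfold CtOn
    fun_prop
  have cw : CtOn L (Icc t₀ t₁) fun x _ => nuW L x := by
    unfold CtOn nuW
    fun_prop
  set K₃ := (2 * K + 1) * (6 * (K ^ 2 + |mu κ|) + 1) + 12 * K ^ 2 with hK₃
  have hK₃0 : 0 ≤ K₃ := by positivity
  have key := eq_zero_of_deriv_le (t₀ := t₀) (t₁ := t₁) (E := fun t => E t + a t ^ 2)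
    (C := C * (1 + A ^ 2 * (2 * (1 + L))) + 1 +
      ((L ^ 4 + 12 * L ^ 2) * K₃ * (L * A + 1)) ^ 2 * (2 * (1 + L)))
    ((CtOn.continuousOn_integral hL.le (ke_ct_mul cx (hz.pow 2).ctOn)).add
      ((CtOn.continuousOn_integral hL.le (ke_ct_mul cw hd.ctOn)).pow 2)) ?_
    (fun t _ => add_nonneg (hE0 t) (sq_nonneg _)) (fun t htt => ?_)
  · intro x hx t htt
    have k0 := key t htt
    have k1 : E t = 0 := by nlinarith [hE0 t, sq_nonneg (a t)]
    have k2 : a t = 0 := by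
      rw [k1, zero_add] at k0
      exact pow_eq_zero_iff (two_ne_zero) |>.mp k0
    have k3 : s t = 0 := by
      have := hsE t htt
      rw [k1, mul_zero] at this
      exact pow_eq_zero_iff (two_ne_zero) |>.mp (le_antisymm this (sq_nonneg _))
    have := hD t htt x hx
    rw [k2, k3, abs_zero, add_zero, mul_zero] at this
    exact sub_eq_zero.mp (abs_nonpos_iff.mp this)
  · have k1 : E t₀ = 0 := by
      simp only [E]
      rw [intervalIntegral.integral_congr (g := fun _ => 0)]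
      · simp
      · intro x hx
        rw [uIcc_of_le hL.le] at hx
        simp [hzd, miura, h₀ x hx, px_congr h₀ hx]
    have k2 : a t₀ = 0 := by
      simp only [a]
      rw [intervalIntegral.integral_congr (g := fun _ => 0)]
      · simp
      · intro x hx
        rw [uIcc_of_le hL.le] at hx
        simp [hdd, h₀ x hx]
    simp [k1, k2]
  · have ht' : t ∈ Icc t₀ t₁ := Ioo_subset_Icc_self htt
    have hD0 : 0 ≤ A * (|a t| + s t) := mul_nonneg hA (add_nonneg (abs_nonneg _) (hs0 t))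
    have hb : ∀ i, bop L P z i t = 0 := fun i => by
      rw [hzd, bop_sub hL P hI hu hu' i ht', miura_bop hL ht P h.sm hG.ctOn h.eq i t htt,
        miura_bop hL ht P h'.sm hG.ctOn h'.eq i t htt, h.bc i t htt, h'.bc i t htt]
      ring
    have hr : ∀ x ∈ Ioo 0 L, |pt z x t + px L (px L (px L z)) x t| ≤
        (1 + 12 * K) * (|z x t| + |px L z x t| + A * (|a t| + s t)) := by
      intro x hx
      have hx' : x ∈ Icc 0 L := Ioo_subset_Icc_self hx
      have e1 : pt z x t = pt (miura L κ Z) x t - pt (miura L κ Z') x t :=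
        ((hu.hasDerivAt_t hx' (hn htt)).sub (hu'.hasDerivAt_t hx' (hn htt))).deriv
      have e2 : px L z x t = px L (miura L κ Z) x t - px L (miura L κ Z') x t :=
        px_sub hL hu hu' hx' ht'
      have e3 : px L (px L (px L z)) x t =
          px L (px L (px L (miura L κ Z))) x t - px L (px L (px L (miura L κ Z'))) x t :=
        ke_iter_sub hL hI hu hu' 3 ht' x hx'
      have q1 := miura_eq hL ht h.sm hG h.eq x hx t htt
      have q2 := miura_eq hL ht h'.sm hG h'.eq x hx t htt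
      have e4 : pt z x t + px L (px L (px L z)) x t = -(px L z x t + z x t * px L (miura L κ Z) x t
          + miura L κ Z' x t * px L z x t + 12 * (d x t * G x t)) := by
        rw [e1, e2, e3]
        simp only [hzd, hdd]
        linarith
      rw [e4, abs_neg]
      exact nu_arith1 hK (b4 x hx' t ht') (b5 x hx' t ht') (b6 x hx' t ht') (hD t ht' x hx')
    obtain ⟨e, he1, he2⟩ := hke t₀ t₁ z _ t hz htt hD0 hr hb
    have hd1 := hd.px hL hI
    have hd2 := hd1.px hL hI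
    have hd3 := hd2.px hL hI
    have hdt := hd.ptw hL hI
    have ha1 : HasDerivAt a (∫ y in (0 : ℝ)..L, nuW L y * ptw (Icc t₀ t₁) d y t) t := by
      refine hasDerivAt_integral_x (f := fun y τ => nuW L y * d y τ)
        (ft := fun y τ => nuW L y * ptw (Icc t₀ t₁) d y τ) hL.le (ke_ct_mul cw hd.ctOn)
        (ke_ct_mul cw hdt.ctOn) (fun x hx τ hτ => ?_) htt
      have := hd.hasDerivAt_t (Ioo_subset_Icc_self hx) (hn hτ)
      rw [pt_eq_ptw d x (hn hτ)] at this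
      exact this.const_mul _
    have cz := hz.ctOn.slice_x ht'
    have ar : ∀ x ∈ Ioo 0 L, _ := fun x hx =>
      nu_arith2 (m := mu κ) hK (b1 x (Ioo_subset_Icc_self hx) t ht')
        (b2 x (Ioo_subset_Icc_self hx) t ht') (b3 x (Ioo_subset_Icc_self hx) t ht')
        (hD t ht' x (Ioo_subset_Icc_self hx)) (hode x t)
    have ha2 := nu_one (w := fun y => ptw (Icc t₀ t₁) d y t)
      (g := fun y => K₃ * (A * (|a t| + s t) + |z y t|)) hL (hd1.ctOn.slice_x ht')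
      (hd2.ctOn.slice_x ht') (hd3.ctOn.slice_x ht') (hdt.ctOn.slice_x ht') (by fun_prop)
      (fun x hx => hd1.hasDerivAt_x hx ht') (fun x hx => hd2.hasDerivAt_x hx ht')
      (fun x hx => by
        have hx' : x ∈ Icc 0 L := Ioo_subset_Icc_self hx
        have e1 : pt d x t = pt Z x t - pt Z' x t :=
          ((h.sm.hasDerivAt_t hx' (hn htt)).sub (h'.sm.hasDerivAt_t hx' (hn htt))).deriv
        have e3 : px L (px L (px L d)) x t =
            px L (px L (px L Z)) x t - px L (px L (px L Z')) x t :=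
          ke_iter_sub hL hI h.sm h'.sm 3 ht' x hx'
        have q1 := h.eq x hx t htt
        have q2 := h'.eq x hx t htt
        have e4 : ptw (Icc t₀ t₁) d x t + px L (px L (px L d)) x t =
            nN L κ Z x t - nN L κ Z' x t := by
          rw [← pt_eq_ptw d x (hn htt), e1, e3]
          linarith
        rw [e4]
        exact (ar x hx).2)
      (fun x hx => by
        rw [show px L d x t = px L Z x t - px L Z' x t from
          px_sub hL h.sm h'.sm (Ioo_subset_Icc_self hx) ht']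
        exact (ar x hx).1)
    rw [intervalIntegral.integral_const_mul, intervalIntegral.integral_add (by simp)
      (cz.abs.intervalIntegrable_of_Icc hL.le), intervalIntegral.integral_const, sub_zero,
      smul_eq_mul, ← mul_assoc] at ha2
    refine ⟨_, he1.add (ha1.pow 2), ?_⟩
    have := nu_arith3 hC hL.le (hE0 t) hA (by positivity) (hs0 t) (hsE t ht') he2 ha2
    simpa using this

end Pool.Agent.Lib.MP_14aec4_an.W
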