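import Pool.Agent.Lib.MP_14aec4_an.TS0
import Pool.Agent.Lib.MP_14aec4_an.Calc0

/-!
Passing from the frequency side to the time side.
-/

noncomputable section

open MeasureTheory Set Filter Topology FourierTransform
open scoped ENNReal ComplexConjugate

namespace Pool.Agent.Lib.MP_14aec4_an.W

/-! ### Spectra of smooth compactly supported functions -/

lemma SC.zero : SC fun _ => 0 :=
  ⟨contDiff_const, HasCompactSupport.zero⟩

lemma SC.add {f g : ℝ → ℝ} (hf : SC f) (hg : SC g) : SC fun t => f t + g t :=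
  ⟨hf.1.add hg.1, hf.2.add hg.2⟩

lemma SC.sub {f g : ℝ → ℝ} (hf : SC f) (hg : SC g) : SC fun t => f t - g t :=
  ⟨hf.1.sub hg.1, hf.2.sub hg.2⟩

lemma SC.mul_right {f g : ℝ → ℝ} (hf : SC f) (hg : ContDiff ℝ (⊤ : ℕ∞) g) :
    SC fun t => f t * g t :=
  ⟨hf.1.mul hg, hf.2.mul_right⟩

lemma SC.mul_left {f g : ℝ → ℝ} (hf : ContDiff ℝ (⊤ : ℕ∞) f) (hg : SC g) :
    SC fun t => f t * g t :=
  ⟨hf.mul hg.1, hg.2.mul_left⟩

lemma SC.deriv {f : ℝ → ℝ} (hf : SC f) : SC (deriv f) :=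
  ⟨(contDiff_infty_iff_deriv.mp hf.1).2, hf.2.deriv⟩

lemma SC.of_bound {f : ℝ → ℝ} (hf : ContDiff ℝ (⊤ : ℕ∞) f) {a b : ℝ}
    (h : ∀ t, t ∉ Icc a b → f t = 0) : SC f :=
  ⟨hf, HasCompactSupport.intro isCompact_Icc h⟩

lemma SC2.zero (L : ℝ) : SC2 L fun _ _ => 0 :=
  ⟨SmOn.const 0, 0, fun _ _ _ _ => rfl⟩

lemma SC2.add {L : ℝ} {F G : ℝ → ℝ → ℝ} (hF : SC2 L F) (hG : SC2 L G) :
    SC2 L fun x t => F x t + G x t := by
  obtain ⟨h₁, R₁, hR₁⟩ := hF
  obtain ⟨h₂, R₂, hR₂⟩ := hG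
  refine ⟨h₁.add h₂, max R₁ R₂, fun x hx t ht => ?_⟩
  show F x t + G x t = 0
  rw [hR₁ x hx t ((le_max_left _ _).trans_lt ht), hR₂ x hx t ((le_max_right _ _).trans_lt ht),
    add_zero]

lemma SC2.sub {L : ℝ} {F G : ℝ → ℝ → ℝ} (hF : SC2 L F) (hG : SC2 L G) :
    SC2 L fun x t => F x t - G x t := by
  obtain ⟨h₁, R₁, hR₁⟩ := hF
  obtain ⟨h₂, R₂, hR₂⟩ := hG
  refine ⟨h₁.sub h₂, max R₁ R₂, fun x hx t ht => ?_⟩
  show F x t - G x t = 0
  rw [hR₁ x hx t ((le_max_left _ _).trans_lt ht), hR₂ x hx t ((le_max_right _ _).trans_lt ht),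
    sub_zero]

lemma SC2.prod {L : ℝ} {X q : ℝ → ℝ} (hX : SC X) (hq : SmI L q) : SC2 L fun x t => X t * q x := by
  obtain ⟨R, hR⟩ := hX.2.isCompact.isBounded.subset_closedBall (0 : ℝ)
  refine ⟨(smOn_of_t hX.1.contDiffOn).mul (hq.smOn univ), R, fun x _ t ht => ?_⟩
  show X t * q x = 0
  rw [image_eq_zero_of_notMem_tsupport (f := X) (x := t) fun h => ?_, zero_mul]
  have := hR h
  rw [Metric.mem_closedBall, dist_zero_right, Real.norm_eq_abs] at this
  exact absurd ht (not_lt.mpr this)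

lemma SC2.at {L : ℝ} {G : ℝ → ℝ → ℝ} (hG : SC2 L G) {x : ℝ} (hx : x ∈ Icc 0 L) : SC (G x) := by
  obtain ⟨h, R, hR⟩ := hG
  refine SC.of_bound (contDiffOn_univ.mp (h.slice_t hx)) (a := -R) (b := R) fun t ht =>
    hR x hx t ?_
  rwa [mem_Icc, ← abs_le, not_le] at ht

lemma ts_contDiff_exp (γ : ℝ) : ContDiff ℝ (⊤ : ℕ∞) fun t : ℝ => Real.exp (-γ * t) :=
  Real.contDiff_exp.comp (contDiff_const.mul contDiff_id)

lemma ts_continuous (γ : ℝ) {f : ℝ → ℝ} (hf : SC f) :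
    Continuous fun t : ℝ => ((Real.exp (-γ * t) * f t : ℝ) : ℂ) :=
  Complex.continuous_ofReal.comp (SC.mul_left (ts_contDiff_exp γ) hf).1.continuous

lemma ts_integrable (γ : ℝ) {f : ℝ → ℝ} (hf : SC f) :
    Integrable fun t : ℝ => ((Real.exp (-γ * t) * f t : ℝ) : ℂ) :=
  ((SC.mul_left (ts_contDiff_exp γ) hf).1.continuous.integrable_of_hasCompactSupport
    (SC.mul_left (ts_contDiff_exp γ) hf).2).ofReal

lemma ts_spec_eq (γ : ℝ) (f : ℝ → ℝ) (τ : ℝ) : spec γ f τ =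
    ∫ t : ℝ, (𝐞 (-(t * τ)) : ℂ) * ((Real.exp (-γ * t) * f t : ℝ) : ℂ) :=
  Real.fourier_real_eq _ τ

lemma ts_integrable_char {g : ℝ → ℂ} (hg : Integrable g) (τ : ℝ) :
    Integrable fun t : ℝ => (𝐞 (-(t * τ)) : ℂ) * g t :=
  hg.bdd_mul (c := 1) (Continuous.aestronglyMeasurable (by fun_prop))
    (Eventually.of_forall fun t => (Circle.norm_coe _).le)

lemma ts_norm_spec_le (γ : ℝ) (f : ℝ → ℝ) (τ : ℝ) :
    ‖spec γ f τ‖ ≤ ∫ t, |Real.exp (-γ * t) * f t| := by
  rw [ts_spec_eq]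
  refine (norm_integral_le_integral_norm _).trans (le_of_eq ?_)
  simp only [norm_mul, Circle.norm_coe, one_mul, Complex.norm_real, Real.norm_eq_abs, abs_mul]

lemma ts_spec_deriv (γ : ℝ) {f : ℝ → ℝ} (hf : SC f) (τ : ℝ) :
    spec γ (deriv f) τ = sv γ τ * spec γ f τ := by
  have hd : ∀ t : ℝ, HasDerivAt (fun t : ℝ => ((Real.exp (-γ * t) * f t : ℝ) : ℂ))
      (((Real.exp (-γ * t) * deriv f t : ℝ) : ℂ) - γ * ((Real.exp (-γ * t) * f t : ℝ) : ℂ)) t := by
    intro t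
    have h1 : HasDerivAt (fun t : ℝ => Real.exp (-γ * t)) (Real.exp (-γ * t) * (-γ * 1)) t :=
      ((hasDerivAt_id t).const_mul (-γ)).exp
    have h2 := (h1.mul (hf.1.differentiable (by simp) t).hasDerivAt).ofReal_comp
    refine h2.congr_deriv ?_
    push_cast
    ring
  have he : deriv (fun t : ℝ => ((Real.exp (-γ * t) * f t : ℝ) : ℂ)) = fun t =>
      ((Real.exp (-γ * t) * deriv f t : ℝ) : ℂ) - γ * ((Real.exp (-γ * t) * f t : ℝ) : ℂ) :=
    funext fun t => (hd t).deriv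
  have h3 := congrFun (Real.fourier_deriv (ts_integrable γ hf) (fun t => (hd t).differentiableAt)
    (he ▸ (ts_integrable γ hf.deriv).sub ((ts_integrable γ hf).const_mul _))) τ
  rw [he, Real.fourier_real_eq] at h3
  have h4 : ∫ t : ℝ, 𝐞 (-(t * τ)) • (((Real.exp (-γ * t) * deriv f t : ℝ) : ℂ) -
      γ * ((Real.exp (-γ * t) * f t : ℝ) : ℂ)) = spec γ (deriv f) τ - γ * spec γ f τ := by
    rw [ts_spec_eq, ts_spec_eq, ← integral_const_mul, ← integral_sub
      (ts_integrable_char (ts_integrable γ hf.deriv) τ)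
      ((ts_integrable_char (ts_integrable γ hf) τ).const_mul _)]
    refine integral_congr_ae (Eventually.of_forall fun t => ?_)
    simp only [Circle.smul_def, smul_eq_mul]
    ring
  rw [h4, sub_eq_iff_eq_add, smul_eq_mul] at h3
  rw [h3, sv]
  show _ * spec γ f τ + _ = _
  ring

lemma ts_sc2_pt {L : ℝ} (hL : 0 < L) {G : ℝ → ℝ → ℝ} (hG : SC2 L G) :
    SC2 L fun x => deriv (G x) := by
  obtain ⟨h, R, hR⟩ := hG
  refine ⟨(h.ptw hL uniqueDiffOn_univ).congr fun x _ t _ => ?_, R, fun x hx t ht => ?_⟩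
  · rw [ptw, derivWithin_univ]
  · have h1 : G x =ᶠ[𝓝 t] fun _ => 0 :=
      ((isOpen_lt continuous_const continuous_abs).eventually_mem ht).mono fun s hs => hR x hx s hs
    show deriv (G x) t = 0
    rw [h1.deriv_eq, deriv_const]

lemma ts_rd2 {L : ℝ} (hL : 0 < L) (γ : ℝ) {G : ℝ → ℝ → ℝ} (hG : SC2 L G) :
    RD2 (specG L γ G) := by
  refine ⟨?_, fun n => ?_⟩
  · obtain ⟨h, R, hR⟩ := hG
    have h1 : Continuous fun p : ℝ × ℝ => G (cl L p.1) p.2 :=
      ContinuousOn.comp_continuous (f := fun p : ℝ × ℝ => (cl L p.1, p.2)) h.ctOn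
        (((continuous_cl L).comp continuous_fst).prodMk continuous_snd)
        fun p => ⟨cl_mem hL.le _, mem_univ _⟩
    have h2 : Continuous fun q : (ℝ × ℝ) × ℝ => G (cl L q.1.1) q.2 :=
      h1.comp (f := fun q : (ℝ × ℝ) × ℝ => (q.1.1, q.2)) (by fun_prop)
    have h3 : Continuous (Function.uncurry fun (p : ℝ × ℝ) (t : ℝ) =>
        (𝐞 (-(t * p.2)) : ℂ) * ((Real.exp (-γ * t) * G (cl L p.1) t : ℝ) : ℂ)) := by
      refine Continuous.mul (by fun_prop) (Complex.continuous_ofReal.comp ?_)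
      exact Continuous.mul (by fun_prop) h2
    refine (continuous_parametric_integral_of_continuous (μ := volume) h3
      (isCompact_Icc (a := -R) (b := R))).congr fun p => ?_
    rw [specG, ts_spec_eq]
    refine setIntegral_eq_integral_of_forall_compl_eq_zero fun t ht => ?_
    rw [mem_Icc, ← abs_le, not_le] at ht
    rw [hR _ (cl_mem hL.le _) t ht, mul_zero, Complex.ofReal_zero, mul_zero]
  · induction n generalizing G with
    | zero =>
      obtain ⟨h, R, hR⟩ := hG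
      have h1 : SmOn L (Icc (-R) R) fun x t => Real.exp (-γ * t) * G x t :=
        (smOn_of_t (ts_contDiff_exp γ).contDiffOn).mul (h.mono (subset_univ _))
      obtain ⟨K, -, hK⟩ := h1.ctOn.bdd
      refine ⟨K * volume.real (Icc (-R) R), fun x τ => ?_⟩
      rw [pow_zero, mul_one]
      refine (ts_norm_spec_le γ _ τ).trans ?_
      rw [← setIntegral_eq_integral_of_forall_compl_eq_zero (s := Icc (-R) R) fun t ht => by
        rw [mem_Icc, ← abs_le, not_le] at ht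
        rw [hR _ (cl_mem hL.le _) t ht, mul_zero, abs_zero]]
      refine (le_abs_self _).trans ?_
      refine norm_setIntegral_le_of_norm_le_const (μ := volume) (s := Icc (-R) R)
        (f := fun t => |Real.exp (-γ * t) * G (cl L x) t|) measure_Icc_lt_top fun t ht => ?_
      rw [Real.norm_eq_abs, abs_abs]
      exact hK _ (cl_mem hL.le _) t ht
    | succ n ih =>
      obtain ⟨C₁, h₁⟩ := ih hG
      obtain ⟨C₂, h₂⟩ := ih (ts_sc2_pt hL hG)
      refine ⟨C₁ + C₂, fun x τ => ?_⟩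
      have h3 : ‖specG L γ (fun x => deriv (G x)) x τ‖ = om γ τ * ‖specG L γ G x τ‖ := by
        rw [specG, ts_spec_deriv γ (hG.at (cl_mem hL.le x)), norm_mul]
        rfl
      have h4 := h₂ x τ
      rw [h3] at h4
      have h5 : |τ| ≤ om γ τ := by
        have := abs_le_om γ τ
        nlinarith [Real.pi_gt_three, abs_nonneg τ]
      have h6 : 0 ≤ ‖specG L γ G x τ‖ * (1 + |τ|) ^ n := by positivity
      have h7 := mul_le_mul_of_nonneg_right h5 h6
      rw [pow_succ]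
      nlinarith [h₁ x τ]

lemma rd_spec (γ : ℝ) {f : ℝ → ℝ} (hf : SC f) : RD (spec γ f) := by
  have h : SC2 1 fun _ t => f t * 1 := SC2.prod hf (q := fun _ => 1) contDiffOn_const
  have h1 := (ts_rd2 one_pos γ h).at 0
  simp only [mul_one] at h1
  exact h1

/-- All time derivatives of `e^{-γ t} G(x, t)` are bounded on `[0, L] × ℝ` (a compact set carries
them); integrate by parts. -/
lemma rd2_specG {L : ℝ} (hL : 0 < L) (γ : ℝ) {G : ℝ → ℝ → ℝ} (hG : SC2 L G) :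
    RD2 (specG L γ G) :=
  ts_rd2 hL γ hG

lemma fourierInv_spec (γ : ℝ) {f : ℝ → ℝ} (hf : SC f) (t : ℝ) :
    𝓕⁻ (spec γ f) t = ((Real.exp (-γ * t) * f t : ℝ) : ℂ) :=
  congrFun ((ts_continuous γ hf).fourierInv_fourier_eq (ts_integrable γ hf)
    (rd_spec γ hf).integrable) t

lemma tl_spec (γ : ℝ) {f : ℝ → ℝ} (hf : SC f) (t : ℝ) :
    tl 0 (spec γ f) t = Real.exp (-γ * t) * f t := by
  rw [tl_zero_eq, fourierInv_spec γ hf, Complex.ofReal_re]

lemma isRe_spec (γ : ℝ) {f : ℝ → ℝ} (hf : SC f) : IsRe (spec γ f) := fun t => by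
  rw [fourierInv_spec γ hf, Complex.ofReal_im]

lemma spec_zero (γ : ℝ) : spec γ (fun _ => 0) = fun _ => 0 := by
  funext τ
  rw [ts_spec_eq]
  simp

lemma spec_add (γ : ℝ) {f g : ℝ → ℝ} (hf : SC f) (hg : SC g) (τ : ℝ) :
    spec γ (fun t => f t + g t) τ = spec γ f τ + spec γ g τ := by
  rw [ts_spec_eq, ts_spec_eq, ts_spec_eq, ← integral_add
    (ts_integrable_char (ts_integrable γ hf) τ) (ts_integrable_char (ts_integrable γ hg) τ)]
  refine integral_congr_ae (Eventually.of_forall fun t => ?_)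
  push_cast
  ring

lemma spec_sub (γ : ℝ) {f g : ℝ → ℝ} (hf : SC f) (hg : SC g) (τ : ℝ) :
    spec γ (fun t => f t - g t) τ = spec γ f τ - spec γ g τ := by
  rw [ts_spec_eq, ts_spec_eq, ts_spec_eq, ← integral_sub
    (ts_integrable_char (ts_integrable γ hf) τ) (ts_integrable_char (ts_integrable γ hg) τ)]
  refine integral_congr_ae (Eventually.of_forall fun t => ?_)
  push_cast
  ring

lemma spec_mul_const (γ : ℝ) (f : ℝ → ℝ) (c τ : ℝ) :
    spec γ (fun t => f t * c) τ = (c : ℂ) * spec γ f τ := by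
  rw [ts_spec_eq, ts_spec_eq, ← integral_const_mul]
  refine integral_congr_ae (Eventually.of_forall fun t => ?_)
  push_cast
  ring

lemma norm_spec_le (γ : ℝ) (f : ℝ → ℝ) (τ : ℝ) :
    ‖spec γ f τ‖ ≤ ∫ t, |Real.exp (-γ * t) * f t| :=
  ts_norm_spec_le γ f τ

/-- `s * spec γ f = spec γ f'`. -/
lemma norm_spec_mul_om_le (γ : ℝ) {f : ℝ → ℝ} (hf : SC f) (τ : ℝ) :
    ‖spec γ f τ‖ * om γ τ ≤ ∫ t, |Real.exp (-γ * t) * deriv f t| := by
  rw [om, mul_comm, ← norm_mul, ← ts_spec_deriv γ hf]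
  exact ts_norm_spec_le γ _ τ

lemma spec_mul_eq_cv (γ : ℝ) {ϱ p : ℝ → ℝ} (hϱ : SC ϱ) {A : ℝ → ℂ} (hA : Integrable A)
    (hp : ∀ t, 𝓕⁻ A t = (p t : ℂ)) : spec γ (fun t => ϱ t * p t) = cv (spec γ ϱ) A := by
  funext τ
  have hp' : ∀ t, (p t : ℂ) = ∫ a : ℝ, (𝐞 (a * t) : ℂ) * A a := fun t => by
    rw [← hp, Real.fourierInv_eq_fourier_neg, Real.fourier_real_eq]
    simp only [mul_neg, neg_neg, Circle.smul_def, smul_eq_mul]
  have hi : Integrable (Function.uncurry fun t a : ℝ => (𝐞 (-(t * (τ - a))) : ℂ) *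
      (((Real.exp (-γ * t) * ϱ t : ℝ) : ℂ) * A a)) (volume.prod volume) :=
    ((ts_integrable γ hϱ).mul_prod hA).bdd_mul (c := 1)
      (Continuous.aestronglyMeasurable (by fun_prop))
      (Eventually.of_forall fun q => (Circle.norm_coe _).le)
  rw [cv_comm, cv, ts_spec_eq]
  calc _ = ∫ t : ℝ, ∫ a : ℝ, (𝐞 (-(t * (τ - a))) : ℂ) *
        (((Real.exp (-γ * t) * ϱ t : ℝ) : ℂ) * A a) := by
        refine integral_congr_ae (Eventually.of_forall fun t => ?_)
        beta_reduce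
        rw [← mul_assoc (Real.exp _), Complex.ofReal_mul _ (p t), hp', ← mul_assoc,
          ← integral_const_mul]
        refine integral_congr_ae (Eventually.of_forall fun a => ?_)
        beta_reduce
        rw [show -(t * (τ - a)) = -(t * τ) + a * t by ring, AddChar.map_add_eq_mul,
          Circle.coe_mul]
        ring
    _ = _ := by
        rw [integral_integral_swap hi]
        refine integral_congr_ae (Eventually.of_forall fun a => ?_)
        beta_reduce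
        rw [ts_spec_eq, ← integral_const_mul]
        refine integral_congr_ae (Eventually.of_forall fun t => ?_)
        ring

end Pool.Agent.Lib.MP_14aec4_an.W
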