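import Pool.Agent.Lib.MP_14aec4_an.Lax
import Pool.Agent.Lib.MP_14aec4_an.NU
import Pool.Agent.Lib.MP_14aec4_an.TS

/-!
A smooth solution of KdV is the Miura image of a solution started from zero.
-/

noncomputable section

open MeasureTheory Set Filter Topology FourierTransform
open scoped ENNReal ComplexConjugate

namespace Pool.Agent.Lib.MP_14aec4_an.W

lemma lift_j (P : BC) (i : Fin 3) : P.j i = 0 ∨ P.j i = 1 ∨ P.j i = 2 := by
  fin_cases i <;> cases h0 : P.d0 <;> cases hL : P.dL <;> simp [BC.j, h0, hL]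

lemma lift_dyn (P : BC) (i : Fin 3) : |P.dyn i| ≤ 1 := by
  unfold BC.dyn
  split_ifs <;> simp

lemma lift_nlb (L κ : ℝ) (P : BC) (c : ℝ → ℝ) (f : ℝ → ℝ → ℝ) (i : Fin 3) (t : ℝ) :
    nlb L κ P (fun x t => c t * f x t) i t =
      c t * tL L κ P f i t + c t ^ 2 * tQ L P f i t + c t ^ 3 * tC L P f i t := by
  simp only [nlb, tL, tQ, tC, tE, px_time_mul]
  split_ifs <;> ring

lemma lift_ztr (L : ℝ) (P : BC) {c : ℝ → ℝ} {f : ℝ → ℝ → ℝ} (i : Fin 3) {x t c' : ℝ}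
    (hc : HasDerivAt c c' t) (hf : HasDerivAt (fun τ => f x τ) (pt f x t) t) :
    ztr L (fun x t => c t * f x t) (P.j i) x t =
      c t * ztr L f (P.j i) x t - P.dyn i * c' * f x t := by
  have h : pt (fun x t => c t * f x t) x t = c' * f x t + c t * pt f x t := (hc.mul hf).deriv
  simp only [ztr, BC.dyn, px_time_mul, h]
  rcases lift_j P i with h | h | h <;> simp [h]
  ring

lemma lift_tQ {L : ℝ} (hL : 0 < L) (P : BC) {I : Set ℝ} (hI : UniqueDiffOn ℝ I) {v : ℝ → ℝ → ℝ}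
    (hv : SmOn L I v) (i : Fin 3) : ContDiffOn ℝ (⊤ : ℕ∞) (tQ L P v i) I := by
  have h0 : (0 : ℝ) ∈ Icc 0 L := ⟨le_rfl, hL.le⟩
  have h1 : L ∈ Icc 0 L := ⟨hL.le, le_rfl⟩
  have he := ept_mem hL.le i
  have a0 := hv.slice_t h0
  have a1 := hv.slice_t h1
  have a2 := (hv.px hL hI).slice_t h0
  have a3 := hv.slice_t he
  have a4 := (hv.px hL hI).slice_t he
  have a5 := ((hv.px hL hI).px hL hI).slice_t he
  have hE : ContDiffOn ℝ (⊤ : ℕ∞) (fun t => tE L v (P.j i) (ept L i) t) I := by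
    unfold tE
    split_ifs
    · exact a3.pow 2
    · exact contDiffOn_const.mul (a3.mul a4)
    · exact (contDiffOn_const.mul (a4.pow 2)).add (contDiffOn_const.mul (a3.mul a5))
  exact (((contDiffOn_const.mul (a0.pow 2)).sub (contDiffOn_const.mul (a1.pow 2))).sub
    (contDiffOn_const.mul (a0.mul a2))).sub hE

lemma lift_tC {L : ℝ} (hL : 0 < L) (P : BC) {I : Set ℝ} (hI : UniqueDiffOn ℝ I) {v : ℝ → ℝ → ℝ}
    (hv : SmOn L I v) (i : Fin 3) : ContDiffOn ℝ (⊤ : ℕ∞) (tC L P v i) I := by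
  have he := ept_mem hL.le i
  exact contDiffOn_const.mul (((hv.slice_t he).pow 2).mul ((hv.px hL hI).slice_t he))

lemma lift_lip {L ε : ℝ} (hL : 0 < L) (hε : 0 < ε) {v : ℝ → ℝ → ℝ} (hv : SmOn L (Icc 0 ε) v) :
    ∃ K, 0 ≤ K ∧ ∀ x ∈ Icc 0 L, ∀ t ∈ Icc 0 ε, |v x t - v x 0| ≤ K * t := by
  obtain ⟨K, hK0, hK⟩ := (hv.ptw hL (uniqueDiffOn_Icc hε)).ctOn.bdd
  refine ⟨K, hK0, fun x hx t ht => ?_⟩
  have := (convex_Icc 0 ε).norm_image_sub_le_of_norm_hasDerivWithin_le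
    (f := fun τ => v x τ) (f' := fun τ => ptw (Icc 0 ε) v x τ) (C := K)
    (fun τ hτ => hv.hasDerivWithinAt_t hx hτ) (fun τ hτ => hK x hx τ hτ) ⟨le_rfl, hε.le⟩ ht
  simpa [abs_of_nonneg ht.1] using this

lemma lift_rp_out {δ t : ℝ} (hδ : 0 < δ) (ht : t ∉ Icc δ (2 * δ)) :
    deriv (rp δ δ) t = 0 ∧ (rp δ δ t = 0 ∨ rp δ δ t = 1) := by
  refine ⟨deriv_rp_zero hδ fun h => ht ⟨h.1.le, by linarith [h.2]⟩, ?_⟩
  rcases lt_or_ge t δ with h | h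
  · exact Or.inl (rp_zero hδ h.le)
  · refine Or.inr (rp_one hδ ?_)
    by_contra h'
    exact ht ⟨h, by linarith⟩

/-- Let `v` be given by `lax` on `[0, ε₀]`, `δ₀ < ε₀ / 2`, `χ = rp δ δ`,
`Gr = χ' (v - q) + 6 χ (1 - χ²) v² v_x`,
`ℓr i = -dyn i χ' (v (ept i) - q (ept i)) + (χ - χ²) tQ v i + (χ - χ³) tC v i`. Then `χ v` solves
the forced problem on `[0, min ε₀ T₁]` (`miura_bop` with `G = 0` gives the boundary conditions of
`v`), so `Z = χ v` there by `nu`, and `miura Z = u` on `[2 δ, T₁]` by `FSol.ksol` and `ku`. -/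
theorem lift {L κ T' : ℝ} (hL : 0 < L) {P : BC} (hP : P.Valid) (hT : 0 < T') {u : ℝ → ℝ → ℝ}
    (hu : KSol L 0 T' u) {w q : ℝ → ℝ} (hw : ∀ x ∈ Icc 0 L, dI L w x = -u x 0 / 6)
    (hq : Ric L κ w q) :
    ∃ C, 0 ≤ C ∧ ∃ δ₀ > 0, ∀ δ ∈ Ioc 0 δ₀, ∃ (Gr : ℝ → ℝ → ℝ) (ℓr : Fin 3 → ℝ → ℝ),
      SC2 L Gr ∧ (∀ i, SC (ℓr i)) ∧
      (∀ x ∈ Icc 0 L, ∀ t, |Gr x t| ≤ C ∧ (t ∉ Icc δ (2 * δ) → Gr x t = 0)) ∧
      (∀ i t, |ℓr i t| ≤ C ∧ (t ∉ Icc δ (2 * δ) → ℓr i t = 0)) ∧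
      ∀ T₁ ∈ Ioc (2 * δ) T', ∀ (H : Fin 3 → ℝ → ℝ) (Z : ℝ → ℝ → ℝ),
        (∀ i, ∀ t ∈ Ioo 0 T₁, H i t = rp δ δ t * (-bop L P u i t / 6 + κ ^ 2 * P.c i)) →
        FSol L κ P 0 T₁ (fun x t => deriv (rp δ δ) t * q x + Gr x t)
          (fun i t => H i t - P.dyn i * deriv (rp δ δ) t * q (ept L i) + ℓr i t) Z →
        (∀ x ∈ Icc 0 L, Z x 0 = 0) →
        ∀ x ∈ Icc 0 L, ∀ t ∈ Icc (2 * δ) T₁, miura L κ Z x t = u x t := by
  obtain ⟨ε₀, hε₀, v, hv, hv0, hmi, hme⟩ := lax (κ := κ) hL hT hu hq.sm (fun x hx => by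
    rw [hq.eq x hx, hw x hx]; ring)
  have hI := uniqueDiffOn_Icc hε₀.1
  obtain ⟨K, hK0, hK⟩ := lift_lip hL hε₀.1 hv
  have hN : SmOn L (Icc 0 ε₀) fun x t => v x t ^ 2 * px L v x t := (hv.pow 2).mul (hv.px hL hI)
  obtain ⟨K₂, hK₂0, hK₂⟩ := hN.ctOn.bdd
  obtain ⟨C₁, hC₁0, hC₁⟩ := deriv_rp_le
  choose KQ hKQ using fun i =>
    isCompact_Icc.exists_bound_of_continuousOn (lift_tQ hL P hI hv i).continuousOn
  choose KC hKC using fun i =>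
    isCompact_Icc.exists_bound_of_continuousOn (lift_tC hL P hI hv i).continuousOn
  have z0 : (0 : ℝ) ∈ Icc 0 ε₀ := ⟨le_rfl, hε₀.1.le⟩
  have hKQ0 : ∀ i, 0 ≤ KQ i := fun i => (norm_nonneg _).trans (hKQ i 0 z0)
  have hKC0 : ∀ i, 0 ≤ KC i := fun i => (norm_nonneg _).trans (hKC i 0 z0)
  have hS0 : 0 ≤ ∑ i, (KQ i + KC i) := Finset.sum_nonneg fun i _ => add_nonneg (hKQ0 i) (hKC0 i)
  refine ⟨2 * C₁ * K + 6 * K₂ + ∑ i, (KQ i + KC i), by positivity, ε₀ / 4, by linarith [hε₀.1],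
    fun δ hδ => ?_⟩
  have hδ0 : 0 < δ := hδ.1
  have hδε : 2 * δ < ε₀ := by linarith [hδ.2, hε₀.1]
  have sub : Icc δ (2 * δ) ⊆ Icc 0 ε₀ := Icc_subset_Icc hδ0.le hδε.le
  have cχ := rp_contDiff δ δ
  have cχ' : ContDiff ℝ (⊤ : ℕ∞) (deriv (rp δ δ)) := (sc_deriv_rp hδ0 δ).1
  have dχ : ∀ t, HasDerivAt (rp δ δ) (deriv (rp δ δ) t) t := fun t =>
    (cχ.differentiable (by simp) t).hasDerivAt
  have o1 : ∀ t, t ∉ Icc δ (2 * δ) → deriv (rp δ δ) t = 0 := fun t ht => (lift_rp_out hδ0 ht).1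
  have o2 : ∀ t, t ∉ Icc δ (2 * δ) → 6 * rp δ δ t * (1 - rp δ δ t ^ 2) = 0 := fun t ht => by
    rcases (lift_rp_out hδ0 ht).2 with h | h <;> simp [h]
  have o3 : ∀ t, t ∉ Icc δ (2 * δ) → rp δ δ t - rp δ δ t ^ 2 = 0 := fun t ht => by
    rcases (lift_rp_out hδ0 ht).2 with h | h <;> simp [h]
  have o4 : ∀ t, t ∉ Icc δ (2 * δ) → rp δ δ t - rp δ δ t ^ 3 = 0 := fun t ht => by
    rcases (lift_rp_out hδ0 ht).2 with h | h <;> simp [h]
  have b1 : ∀ x ∈ Icc 0 L, ∀ t ∈ Icc δ (2 * δ),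
      |deriv (rp δ δ) t * (v x t - q x)| ≤ 2 * C₁ * K := by
    intro x hx t ht
    rw [abs_mul, abs_of_nonneg (deriv_rp_nonneg hδ0 δ t), ← hv0 x hx]
    calc deriv (rp δ δ) t * |v x t - v x 0| ≤ C₁ / δ * (K * (2 * δ)) :=
          mul_le_mul (hC₁ δ δ t hδ0)
            ((hK x hx t (sub ht)).trans (mul_le_mul_of_nonneg_left ht.2 hK0)) (abs_nonneg _)
            (by positivity)
      _ = 2 * C₁ * K := by field_simp
  have m0 : ∀ t, 0 ≤ rp δ δ t := fun t => (rp_mem δ δ t).1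
  have m1 : ∀ t, rp δ δ t ≤ 1 := fun t => (rp_mem δ δ t).2
  have b2 : ∀ t, |6 * rp δ δ t * (1 - rp δ δ t ^ 2)| ≤ 6 := fun t => by
    have := m0 t
    have := m1 t
    have h2 : 0 ≤ 1 - rp δ δ t ^ 2 := by nlinarith
    rw [abs_of_nonneg (by positivity)]
    nlinarith [mul_nonneg (m0 t) (sq_nonneg (rp δ δ t))]
  have b3 : ∀ t, |rp δ δ t - rp δ δ t ^ 2| ≤ 1 := fun t => by
    have := m0 t
    have := m1 t
    rw [abs_le]; constructor <;> nlinarith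
  have b4 : ∀ t, |rp δ δ t - rp δ δ t ^ 3| ≤ 1 := fun t => by
    have := m0 t
    have := m1 t
    have h3 : 0 ≤ rp δ δ t ^ 3 := by positivity
    have h4 : rp δ δ t ^ 3 ≤ 1 := pow_le_one₀ (m0 t) (m1 t)
    rw [abs_le]; constructor <;> nlinarith
  obtain ⟨Gr, hGr⟩ : ∃ Gr : ℝ → ℝ → ℝ, Gr = fun x t => deriv (rp δ δ) t * (v x t - q x) +
      6 * rp δ δ t * (1 - rp δ δ t ^ 2) * (v x t ^ 2 * px L v x t) := ⟨_, rfl⟩
  obtain ⟨ℓr, hℓr⟩ : ∃ ℓr : Fin 3 → ℝ → ℝ, ℓr = fun i t =>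
      -P.dyn i * (deriv (rp δ δ) t * (v (ept L i) t - q (ept L i))) +
        (rp δ δ t - rp δ δ t ^ 2) * tQ L P v i t + (rp δ δ t - rp δ δ t ^ 3) * tC L P v i t :=
    ⟨_, rfl⟩
  have zG : ∀ x t, t ∉ Icc δ (2 * δ) → Gr x t = 0 := fun x t ht => by
    simp only [hGr, o1 t ht, o2 t ht, zero_mul, add_zero]
  have zℓ : ∀ i t, t ∉ Icc δ (2 * δ) → ℓr i t = 0 := fun i t ht => by
    simp only [hℓr, o1 t ht, o3 t ht, o4 t ht, zero_mul, add_zero, mul_zero]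
  have sG : SmOn L univ Gr := by
    rw [hGr]
    exact ((hv.sub (hq.sm.smOn _)).cutoff cχ' hδ0 hδε o1).add
      (hN.cutoff ((contDiff_const.mul cχ).mul (contDiff_const.sub (cχ.pow 2))) hδ0 hδε o2)
  refine ⟨Gr, ℓr, ⟨sG, 2 * δ, fun x _ t ht => zG x t fun h => ?_⟩, fun i => ?_,
    fun x hx t => ⟨?_, zG x t⟩, fun i t => ⟨?_, zℓ i t⟩, ?_⟩
  · rw [abs_of_nonneg (hδ0.le.trans h.1)] at ht
    linarith [h.2]
  · refine SC.of_bound ?_ (zℓ i)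
    rw [hℓr]
    exact ((contDiff_const.mul (contDiff_cutoff
      ((hv.slice_t (ept_mem hL.le i)).sub contDiffOn_const) cχ' hδ0 hδε o1)).add
      (contDiff_cutoff (lift_tQ hL P hI hv i) (cχ.sub (cχ.pow 2)) hδ0 hδε o3)).add
      (contDiff_cutoff (lift_tC hL P hI hv i) (cχ.sub (cχ.pow 3)) hδ0 hδε o4)
  · by_cases ht : t ∈ Icc δ (2 * δ)
    · have h2 : |6 * rp δ δ t * (1 - rp δ δ t ^ 2) * (v x t ^ 2 * px L v x t)| ≤ 6 * K₂ := by
        rw [abs_mul]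
        exact mul_le_mul (b2 t) (hK₂ x hx t (sub ht)) (abs_nonneg _) (by norm_num)
      rw [hGr]
      exact (abs_add_le _ _).trans (by linarith [b1 x hx t ht])
    · rw [zG x t ht, abs_zero]; positivity
  · by_cases ht : t ∈ Icc δ (2 * δ)
    · have h1 : |-P.dyn i * (deriv (rp δ δ) t * (v (ept L i) t - q (ept L i)))| ≤
          1 * (2 * C₁ * K) := by
        rw [abs_mul, abs_neg]
        exact mul_le_mul (lift_dyn P i) (b1 _ (ept_mem hL.le i) t ht) (abs_nonneg _) zero_le_one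
      have h2 : |(rp δ δ t - rp δ δ t ^ 2) * tQ L P v i t| ≤ 1 * KQ i := by
        rw [abs_mul]
        exact mul_le_mul (b3 t) (hKQ i t (sub ht)) (abs_nonneg _) zero_le_one
      have h3 : |(rp δ δ t - rp δ δ t ^ 3) * tC L P v i t| ≤ 1 * KC i := by
        rw [abs_mul]
        exact mul_le_mul (b4 t) (hKC i t (sub ht)) (abs_nonneg _) zero_le_one
      have h4 : KQ i + KC i ≤ ∑ i, (KQ i + KC i) :=
        Finset.single_le_sum (f := fun i => KQ i + KC i)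
          (fun i _ => add_nonneg (hKQ0 i) (hKC0 i)) (Finset.mem_univ i)
      rw [hℓr]
      exact (abs_add_three _ _ _).trans (by linarith)
    · rw [zℓ i t ht, abs_zero]; positivity
  intro T₁ hT₁ H Z hH hZ hZ0
  have h2δ : 0 < 2 * δ := by linarith
  have sub2 : Icc 0 (2 * δ) ⊆ Icc 0 ε₀ := Icc_subset_Icc le_rfl hδε.le
  have nh : ∀ t ∈ Ioo 0 (2 * δ), Icc 0 ε₀ ∈ 𝓝 t := fun t ht =>
    Icc_mem_nhds ht.1 (ht.2.trans hδε)
  have hY : FSol L κ P 0 (2 * δ) (fun x t => deriv (rp δ δ) t * q x + Gr x t)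
      (fun i t => H i t - P.dyn i * deriv (rp δ δ) t * q (ept L i) + ℓr i t)
      fun x t => rp δ δ t * v x t := by
    refine ⟨(smOn_of_t cχ.contDiffOn).mul (hv.mono sub2), fun x hx t ht => ?_, fun i t ht => ?_⟩
    · have h1 : pt (fun x t => rp δ δ t * v x t) x t =
          deriv (rp δ δ) t * v x t + rp δ δ t * pt v x t :=
        ((dχ t).mul (hv.hasDerivAt_t (Ioo_subset_Icc_self hx) (nh t ht))).deriv
      have h2 := hme x hx t ⟨ht.1, ht.2.trans hδε⟩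
      simp only [nN, px_time_mul, h1, hGr] at h2 ⊢
      linear_combination rp δ δ t * h2
    · have ht' : t ∈ Ioo 0 ε₀ := ⟨ht.1, ht.2.trans hδε⟩
      have h1 := miura_bop hL hε₀.1 P hv (SmOn.const 0).ctOn hme i t ht'
      rw [bop_congr hL P (fun x hx => hmi x hx t (Ioo_subset_Icc_self ht')) i] at h1
      rw [lift_ztr L P i (dχ t) (hv.hasDerivAt_t (ept_mem hL.le i) (nh t ht)), lift_nlb,
        hH i t ⟨ht.1, ht.2.trans hT₁.1⟩, hℓr]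
      simp only [nlb] at h1
      linear_combination (rp δ δ t / 6) * h1
  have hG : SmOn L (Icc 0 (2 * δ)) fun x t => deriv (rp δ δ) t * q x + Gr x t :=
    ((smOn_of_t cχ'.contDiffOn).mul (hq.sm.smOn _)).add (sG.mono (subset_univ _))
  have hZY := nu hL hP h2δ hG (hZ.mono le_rfl hT₁.1.le) hY (fun x hx => by
    rw [hZ0 x hx, rp_zero hδ0 hδ0.le, zero_mul])
  have e2 : ∀ y ∈ Icc 0 L, Z y (2 * δ) = v y (2 * δ) := fun y hy => by
    rw [hZY y hy _ ⟨h2δ.le, le_rfl⟩, rp_one hδ0 (by linarith), one_mul]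
  have out : ∀ t ∈ Ioo (2 * δ) T₁, t ∉ Icc δ (2 * δ) := fun t ht h => absurd h.2 (not_le.mpr ht.1)
  obtain ⟨k1, k2⟩ := (hZ.mono h2δ.le le_rfl).ksol hL hT₁.1 (fun x _ t ht => by
    rw [o1 t (out t ht), zG x t (out t ht), zero_mul, add_zero])
  refine ku hL hP hT₁.1 k1 (hu.mono h2δ.le hT₁.2) (fun i t ht => ?_) (fun x hx => ?_)
  · rw [k2 i t ht, hH i t ⟨h2δ.trans ht.1, ht.2⟩, o1 t (out t ht), zℓ i t (out t ht),
      rp_one hδ0 (by linarith [ht.1])]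
    ring
  · rw [← hmi x hx _ ⟨h2δ.le, hδε.le⟩]
    simp only [miura, px_congr e2 hx, e2 x hx]

end Pool.Agent.Lib.MP_14aec4_an.W
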