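import Pool.Agent.Lib.MP_14aec4_an.FpTime
import Pool.Agent.Lib.MP_14aec4_an.Energy
import Pool.Agent.Lib.MP_14aec4_an.Kato

/-!
Bounds on the linear part and the energy estimate for fixed points.
-/

noncomputable section

open MeasureTheory Set Filter Topology FourierTransform
open scoped ENNReal ComplexConjugate

namespace Pool.Agent.Lib.MP_14aec4_an.W

variable {L κ γ η : ℝ} {P : BC} {A : Fin 3 → ℝ} {m : ℝ → ℝ} {G G' : ℝ → ℝ → ℝ}
  {ℓ ℓ' : Fin 3 → ℝ → ℝ} {V V' : Fin 3 → ℝ → ℝ → ℂ}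

lemma lin_rep {x : ℝ} (hγ : 0 < γ) (hx : x ∈ Icc 0 L) (i : Fin 3) :
    ∃ (lm : ℝ → ℂ) (l s : ℝ), Continuous lm ∧ (∀ τ, 0 < (lm τ).re) ∧
      (∀ τ, lm τ ^ 3 = sv γ τ ∨ lm τ ^ 3 = -sv γ τ) ∧ (∀ τ, ‖lm τ‖ = om γ τ ^ ((1 : ℝ) / 3)) ∧
      0 ≤ l ∧ l ≤ L ∧ |s| = 1 ∧ (∀ z ∈ Icc 0 l, x + s * z ∈ Icc 0 L) ∧
      (∀ z ∈ Ioo 0 l, x + s * z ∈ Ioo 0 L) ∧
      (∀ q : ℝ → ℝ, ContinuousOn q (Icc 0 L) →
        ∫ z in (0 : ℝ)..l, q (x + s * z) ^ 2 ≤ ∫ y in (0 : ℝ)..L, q y ^ 2) ∧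
      ∀ (q : ℝ → ℂ) (τ : ℝ),
        ‖∫ y in (ept L i)..x, Complex.exp (lam γ i τ * (x - y)) * q y‖ =
          ‖∫ z in (0 : ℝ)..l, Complex.exp (-lm τ * z) * q (x + s * z)‖ := by
  have hm : ∀ q : ℝ → ℝ, ContinuousOn q (Icc 0 L) → ∀ a b, 0 ≤ a → a ≤ b → b ≤ L →
      ∫ y in a..b, q y ^ 2 ≤ ∫ y in (0 : ℝ)..L, q y ^ 2 := fun q hq a b ha hab hb =>
    intervalIntegral.integral_mono_interval ha hab hb
      (Eventually.of_forall fun y => sq_nonneg _)
      ((hq.pow 2).intervalIntegrable_of_Icc (hx.1.trans hx.2))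
  by_cases hi : i = 0
  · subst hi
    refine ⟨fun τ => -lam γ 0 τ, x, -1, (continuous_lam hγ 0).neg, fun τ => ?_, fun τ => ?_,
      fun τ => ?_, hx.1, hx.2, by simp, fun z hz => ⟨by linarith [hz.2], by linarith [hz.1, hx.2]⟩,
      fun z hz => ⟨by linarith [hz.2], by linarith [hz.1, hx.2]⟩, fun q hq => ?_, fun q τ => ?_⟩
    · simpa using re_lam_zero hγ τ
    · left
      rw [Odd.neg_pow (by decide), lam_cube, neg_neg]
    · rw [norm_neg, norm_lam]
    · have h := intervalIntegral.integral_comp_sub_left (a := 0) (b := x) (fun y => q y ^ 2) x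
      simp only [sub_self, sub_zero] at h
      simp only [neg_mul, one_mul, ← sub_eq_add_neg]
      rw [h]
      exact hm q hq 0 x le_rfl hx.1 hx.2
    · have h := intervalIntegral.integral_comp_sub_left (a := 0) (b := x)
        (fun y : ℝ => Complex.exp (lam γ 0 τ * (x - y)) * q y) x
      simp only [sub_self, sub_zero] at h
      have e : ept L 0 = 0 := rfl
      rw [e, ← h]
      simp only [neg_mul, one_mul, ← sub_eq_add_neg, neg_neg, Complex.ofReal_sub, sub_sub_cancel]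
  · have e : ept L i = L := by
      fin_cases i
      · exact absurd rfl hi
      · rfl
      · rfl
    refine ⟨lam γ i, L - x, 1, continuous_lam hγ i, re_lam_pos hγ hi,
      fun τ => Or.inr (lam_cube γ i τ), norm_lam γ i, by linarith [hx.2], by linarith [hx.1],
      by simp, fun z hz => ⟨by linarith [hz.1, hx.1], by linarith [hz.2]⟩,
      fun z hz => ⟨by linarith [hz.1, hx.1], by linarith [hz.2]⟩, fun q hq => ?_, fun q τ => ?_⟩
    · have h := intervalIntegral.integral_comp_add_left (a := 0) (b := L - x) (fun y => q y ^ 2) x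
      simp only [add_zero, add_sub_cancel] at h
      simp only [one_mul]
      rw [h]
      exact hm q hq x L hx.1 hx.2 le_rfl
    · have h := intervalIntegral.integral_comp_add_left (a := 0) (b := L - x)
        (fun y : ℝ => Complex.exp (lam γ i τ * (x - y)) * q y) x
      simp only [add_zero, add_sub_cancel] at h
      rw [e, intervalIntegral.integral_symm, norm_neg, ← h]
      simp only [one_mul, Complex.ofReal_add, sub_add_cancel_left, mul_neg, neg_mul]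

lemma lin_jj (hL : 0 < L) (γ : ℝ) (X q : ℝ → ℝ) (i : Fin 3) {x : ℝ} (hx : x ∈ Icc 0 L) (τ : ℝ) :
    jj L γ (specG L γ fun x t => X t * q x) i x τ =
      spec γ X τ * ∫ y in (ept L i)..x, Complex.exp (lam γ i τ * (x - y)) * (q y : ℂ) := by
  rw [jj, ← intervalIntegral.integral_const_mul]
  refine intervalIntegral.integral_congr fun y hy => ?_
  have hy' : y ∈ Icc 0 L := uIcc_subset_Icc (ept_mem hL.le i) hx hy
  simp only [specG, cl_of_mem hy', spec_mul_const]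
  ring

lemma lin_k1 (hL : 0 < L) (hγ : 0 < γ) {X q : ℝ → ℝ}
    (hX' : ∫ t, |Real.exp (-γ * t) * X t| ≤ 3) (hq : ContinuousOn q (Icc 0 L)) (i : Fin 3) {x : ℝ}
    (hx : x ∈ Icc 0 L) :
    Bd γ w1 (-1 / 3) (jj L γ (specG L γ fun x t => X t * q x) i x) (60 * nL L q) := by
  obtain ⟨lm, l, s, hc, hre, h3, -, hl, -, -, hm, -, hi, he⟩ := lin_rep hγ hx i
  have hq' : ContinuousOn (fun z => ((q (x + s * z) : ℝ) : ℂ)) (Icc 0 l) :=
    Complex.continuous_ofReal.comp_continuousOn (hq.comp (by fun_prop) hm)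
  have k := kato hγ hl hc hre h3 hq'
  have k2 := Bd.of_le (σ := -1 / 3) (K := 3) (A := jj L γ (specG L γ fun x t => X t * q x) i x)
    (w := w1) (fun _ => zero_le_one) (by norm_num) (fun τ => ?_) k
  · refine k2.mono ?_
    have h : Real.sqrt (∫ z in (0 : ℝ)..l, ‖((q (x + s * z) : ℝ) : ℂ)‖ ^ 2) ≤ nL L q := by
      simp only [Complex.norm_real, Real.norm_eq_abs, sq_abs]
      exact Real.sqrt_le_sqrt (hi q hq)
    linarith
  · rw [lin_jj hL γ X q i hx, norm_mul, he (fun y => (q y : ℂ)), mul_left_comm]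
    exact mul_le_mul_of_nonneg_right ((norm_spec_le γ X τ).trans hX')
      (mul_nonneg (Real.rpow_nonneg (om_nonneg γ τ) _) (norm_nonneg _))

lemma lin_k2 (hL : 0 < L) (hγ : 0 < γ) {X q : ℝ → ℝ} {B : ℝ}
    (hX' : ∫ t, |Real.exp (-γ * t) * X t| ≤ 3) (hq : SmI L q)
    (hB : ∀ x ∈ Icc 0 L, |q x| ≤ B ∧ |dI L q x| ≤ B) (i : Fin 3) {x : ℝ} (hx : x ∈ Icc 0 L) :
    Bd γ w1 (-1 / 3) (jj L γ (specG L γ fun x t => X t * q x) i x) (3 * (2 + L) * B * aa γ) := by
  obtain ⟨lm, l, s, -, hre, -, hn, hl, hl', hs, hm, hm', -, he⟩ := lin_rep hγ hx i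
  have hB0 : 0 ≤ B := (abs_nonneg _).trans (hB x hx).1
  have k := bd_of_sup (A := fun τ => ((om γ τ ^ ((1 : ℝ) / 3) : ℝ) : ℂ) *
    jj L γ (specG L γ fun x t => X t * q x) i x τ) (B := 3 * (2 + L) * B) hγ (by positivity)
    fun τ => ?_
  · have k2 := Bd.of_le (σ := -1 / 3) (K := 1) (A := jj L γ (specG L γ fun x t => X t * q x) i x)
      (w := w1) (fun _ => zero_le_one) zero_le_one (fun τ => ?_) k
    · rwa [one_mul] at k2
    · rw [one_mul, norm_mul, Complex.norm_real,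
        Real.norm_of_nonneg (Real.rpow_nonneg (om_nonneg γ τ) _), ← mul_assoc,
        ← Real.rpow_add (om_pos hγ τ)]
      norm_num
  · have h0 : lm τ ≠ 0 := fun h => by simpa [h] using hre τ
    have hi := ibp_bound (B := B) hl (hre τ).le h0 (q := fun z => ((q (x + s * z) : ℝ) : ℂ))
      (q' := fun z => ((dI L q (x + s * z) * s : ℝ) : ℂ))
      (Complex.continuous_ofReal.comp_continuousOn (hq.cont.comp (by fun_prop) hm))
      (Complex.continuous_ofReal.comp_continuousOn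
        (((hq.dI hL).cont.comp (by fun_prop) hm).mul continuousOn_const))
      (fun z hz => ?_) fun z hz => ?_
    · rw [norm_mul, Complex.norm_real, Real.norm_of_nonneg (Real.rpow_nonneg (om_nonneg γ τ) _),
        lin_jj hL γ X q i hx, norm_mul, he (fun y => (q y : ℂ)), ← hn, mul_left_comm, mul_assoc]
      refine mul_le_mul ((norm_spec_le γ X τ).trans hX') ?_ (by positivity) (by norm_num)
      rw [mul_comm]
      exact hi.trans (mul_le_mul_of_nonneg_right (by linarith) hB0)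
    · have h1 : HasDerivAt (fun z : ℝ => x + s * z) s z := by
        simpa using ((hasDerivAt_id z).const_mul s).const_add x
      exact ((hq.hasDerivAt (hm' z hz)).comp z h1).ofReal_comp
    · simp only [Complex.norm_real, Real.norm_eq_abs, abs_mul, hs, mul_one]
      exact hB _ (hm z hz)

/-- On `[0, L]`, `specG G y τ = spec X τ * (q y - q₀ y) + spec X τ * q₀ y + spec (Gr y) τ`, with
`‖spec X τ‖ ≤ 3`; use `kato` (with `-lam γ 0` and `z ↦ q (x - z)`, or `lam γ i` and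
`z ↦ q (x + z)`), `ibp_bound` with `bd_of_sup`, `jj_bd`, and then `res_bd`. -/
theorem lin_bd (hL : 0 < L) (hγ : Big L γ) (P : BC) {X q q₀ : ℝ → ℝ} {Gr : ℝ → ℝ → ℝ}
    {B f b : ℝ} (hX : SC X) (hX' : ∫ t, |Real.exp (-γ * t) * X t| ≤ 3) (hq : SmI L q)
    (hq₀ : SmI L q₀) (hB : ∀ x ∈ Icc 0 L, |q₀ x| ≤ B ∧ |dI L q₀ x| ≤ B) (hGr : SC2 L Gr)
    (hf : 0 ≤ f) (bG : ∀ x ∈ Icc 0 L, Bd γ w1 (-1 / 3) (spec γ (Gr x)) f)
    (hG : ∀ x ∈ Icc 0 L, ∀ t, G x t = X t * q x + Gr x t) (hℓ : ∀ i, SC (ℓ i)) (hb : 0 ≤ b)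
    (bℓ : ∀ i, Bd γ w1 (P.σ i) (spec γ (ℓ i)) b) :
    SBd L γ w1 (linS L P γ G ℓ)
      (42 * b + 30 * (60 * nL L (fun x => q x - q₀ x) + 3 * (2 + L) * B * aa γ + L * f)) := by
  have hγ0 : 0 < γ := zero_lt_one.trans_le hγ.1
  have hd : SmI L fun x => q x - q₀ x := ContDiffOn.sub hq hq₀
  have r1 := rd2_specG hL γ (SC2.prod hX hd)
  have r2 := rd2_specG hL γ (SC2.prod hX hq₀)
  have r3 := rd2_specG hL γ hGr
  have hB0 : 0 ≤ B := (abs_nonneg _).trans (hB 0 ⟨le_rfl, hL.le⟩).1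
  have ha := aa_nonneg γ
  have hn := nL_nonneg L fun x => q x - q₀ x
  have e : specG L γ G = fun y τ => (specG L γ (fun x t => X t * (q x - q₀ x)) y τ +
      specG L γ (fun x t => X t * q₀ x) y τ) + specG L γ Gr y τ := by
    funext y τ
    have hy := cl_mem hL.le y
    have e1 : G (cl L y) = fun t => X t * q (cl L y) + Gr (cl L y) t := funext (hG _ hy)
    simp only [specG]
    rw [e1, spec_add γ (hX.mul_right contDiff_const) (hGr.at hy)]
    simp only [spec_mul_const]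
    push_cast
    ring
  have m : ∀ {g : ℝ → ℝ → ℂ}, RD2 g → ∀ i x, Continuous (jj L γ g i x) := fun hg i x =>
    Continuous.comp (f := fun τ => (x, τ)) (continuous_jj (L := L) hγ0 hg i)
      (Continuous.prodMk_right x)
  have r : RD2 (specG L γ G) := by
    rw [e]
    exact (r1.add r2).add r3
  have c1 : 0 ≤ 60 * nL L fun x => q x - q₀ x := by positivity
  have c2 : 0 ≤ 3 * (2 + L) * B * aa γ := by positivity
  have c3 : 0 ≤ L * f := by positivity
  refine res_bd hL hγ P adm_w1 r (fun i => rd_spec γ (hℓ i)) hb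
    (add_nonneg (add_nonneg c1 c2) c3) bℓ fun i x hx => ?_
  have e2 : jj L γ (specG L γ G) i x = fun τ =>
      (jj L γ (specG L γ fun x t => X t * (q x - q₀ x)) i x τ +
        jj L γ (specG L γ fun x t => X t * q₀ x) i x τ) + jj L γ (specG L γ Gr) i x τ := by
    funext τ
    rw [e, jj_add (r1.add r2) r3, jj_add r1 r2]
  rw [e2]
  refine Bd.add hγ0 adm_w1 ((m r1 i x).add (m r2 i x)).aestronglyMeasurable
    (m r3 i x).aestronglyMeasurable (add_nonneg c1 c2) c3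
    (Bd.add hγ0 adm_w1 (m r1 i x).aestronglyMeasurable (m r2 i x).aestronglyMeasurable
      c1 c2 (lin_k1 hL hγ0 hX' hd.cont i hx)
      (lin_k2 hL hγ0 hX' hq₀ hB i hx)) (jj_bd hγ0 adm_w1 r3 hf (fun y hy => ?_) i hx)
  rw [specG, cl_of_mem hy]
  exact bG y hy

/-- The term `-dyn i * X * c` of the boundary data. -/
lemma bd_dyn (hγ : 1 ≤ γ) (P : BC) (i : Fin 3) {X : ℝ → ℝ} (hX : SC X)
    (hX' : ∫ t, |Real.exp (-γ * t) * X t| ≤ 3) (c : ℝ) :
    Bd γ w1 (P.σ i) (spec γ fun t => P.dyn i * X t * c) (3 * (P.dyn i * |c|) * aa γ) := by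
  have _ := hX
  by_cases h : P.j i = 2
  · have e : P.σ i = -2 / 3 := by simp [BC.σ, h]
    have e1 : P.dyn i = 1 := by simp [BC.dyn, h]
    rw [e, e1]
    refine bd_of_sup (zero_lt_one.trans_le hγ) (by positivity) fun τ => ?_
    simp only [one_mul]
    rw [spec_mul_const, norm_mul, Complex.norm_real, Real.norm_eq_abs, mul_comm]
    exact mul_le_mul_of_nonneg_right ((norm_spec_le γ X τ).trans hX') (abs_nonneg c)
  · have e1 : P.dyn i = 0 := by simp [BC.dyn, h]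
    simp only [e1, zero_mul, spec_zero]
    exact Bd.zero _ _ _ _

theorem fp_energy (hL : 0 < L) (hP : P.Valid) (hγ : Big L γ)
    (hA : ∀ n, mulC γ w1 (mm γ m n) ≤ A n) (hs : Smal L κ P γ A η) (h : FP L κ P γ m G ℓ V)
    (h' : FP L κ P γ m G' ℓ' V') (b : SBd L γ w1 V (2 * η)) (b' : SBd L γ w1 V' (2 * η))
    {δ f t₀ : ℝ} (hδ : 0 ≤ δ) (bd : SBd L γ w1 (fun j x τ => V j x τ - V' j x τ) δ)
    (h₀ : ∀ x ∈ Icc 0 L, tl 0 (V 0 x) t₀ = tl 0 (V' 0 x) t₀) {X q : ℝ → ℝ} {Gr : ℝ → ℝ → ℝ}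
    (hX : SC X) (hX' : ∫ t, |Real.exp (-γ * t) * X t| ≤ 3) (hq : SmI L q) (hGr : SC2 L Gr)
    (hf : 0 ≤ f) (bG : ∀ x ∈ Icc 0 L, Bd γ w1 (-1 / 3) (spec γ (Gr x)) f)
    (hG : ∀ x ∈ Icc 0 L, ∀ t, G x t - G' x t = X t * q x + Gr x t) {t : ℝ} (ht : t₀ ≤ t) :
    nL L (fun x => tl 0 (V 0 x) t - tl 0 (V' 0 x) t) ≤ 6 * nL L q + 20 * (1 + L) * (2 * δ + f) := by
  have hγ0 : 0 < γ := zero_lt_one.trans_le hγ.1
  have hM : ∀ n, RD (mm γ m n) := fun n => rd_spec _ h.hm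
  have hη := hs.2.1
  have rW : ∀ j, RD2 fun x τ => V j x τ - V' j x τ := fun j => (h.rd j).sub (h'.rd j)
  have rg := rd2_specG hL γ h.hG
  have rg' := rd2_specG hL γ h'.hG
  have rG := rd2_specG hL γ hGr
  have rN := rd2_fN κ hM h.rd
  have rN' := rd2_fN κ hM h'.rd
  have rB : RD2 fun x τ => specG L γ Gr x τ + (fN κ (mm γ m) V x τ - fN κ (mm γ m) V' x τ) :=
    rG.add (rN.sub rN')
  have i1 := isRes_Phi hL κ P hγ hM rg (fun i => rd_spec γ (h.hℓ i)) h.rd
  have i2 := isRes_Phi hL κ P hγ hM rg' (fun i => rd_spec γ (h'.hℓ i)) h'.rd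
  rw [h.fix] at i1
  rw [h'.fix] at i2
  have nl := (nl_lip hL hP hγ.1 adm_w1 hM (fun n => (hA n).trans (by linarith [hs.1 n])) hs h.rd
    h'.rd (fun x hx j => (b x hx j).mono (by linarith)) (fun x hx j => (b' x hx j).mono (by linarith))
    hδ bd).1
  have cX : Continuous fun t => Real.exp (-γ * t) * X t := by
    have := hX.1.continuous
    fun_prop
  have key := energy (t₂ := t₀) (t₃ := t) (n := δ) (f := f + δ) (ξ := 3) hL hγ0 ht hδ (by positivity)
    (Y₀ := fun x t => tl 0 (fun τ => V 0 x τ - V' 0 x τ) t)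
    (Y₁ := fun x t => tl 0 (fun τ => V 1 x τ - V' 1 x τ) t)
    (Y₂ := fun x t => tl 0 (fun τ => V 2 x τ - V' 2 x τ) t)
    (Yt := fun x t => tl 1 (fun τ => V 0 x τ - V' 0 x τ) t)
    (F := fun x t =>
      tl 0 (fun τ => specG L γ Gr x τ + (fN κ (mm γ m) V x τ - fN κ (mm γ m) V' x τ)) t)
    (X := fun t => Real.exp (-γ * t) * X t) (q := q)
    (tl_continuous2 (rW 0) 0).continuousOn (tl_continuous2 (rW 1) 0).continuousOn
    (tl_continuous2 (rW 2) 0).continuousOn (tl_continuous2 (rW 0) 1).continuousOn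
    (tl_continuous2 rB 0).continuousOn cX.continuousOn hq.cont
    (fun x hx s _ => tl_dx (rW 0) (rW 1) (fun y hy τ => (i1.d0 y hy τ).sub (i2.d0 y hy τ)) 0 s hx)
    (fun x hx s _ => tl_dx (rW 1) (rW 2) (fun y hy τ => (i1.d1 y hy τ).sub (i2.d1 y hy τ)) 0 s hx)
    (fun x hx s _ => ?_) (fun x _ s _ => tl_hasDerivAt ((rW 0).at x) 0 s) (fun x hx => ?_)
    (fun x hx => ⟨_, _, _, _, (rW 0).at x, (rW 1).at x, (rW 2).at x, rB.at x, ?_, ?_, ?_, ?_,
      fun _ _ => ⟨rfl, rfl, rfl, rfl⟩⟩) ?_ t ⟨ht, le_rfl⟩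
  · have e : (fun x => tl 0 (V 0 x) t - tl 0 (V' 0 x) t) =
        fun x => tl 0 (fun τ => V 0 x τ - V' 0 x τ) t :=
      funext fun x => (tl_sub ((h.rd 0).at x) ((h'.rd 0).at x) 0 t).symm
    rw [e]
    linarith
  · have r1 := ((rg.add rN).sym).sub ((h.rd 0).sv_mul γ)
    have r2 := ((rg'.add rN').sym).sub ((h'.rd 0).sv_mul γ)
    have d := tl_dx (rW 2) (r1.sub r2) (fun y hy τ => (i1.d2 y hy τ).sub (i2.d2 y hy τ)) 0 s hx
    have hx' := Ioo_subset_Icc_self hx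
    refine d.congr_deriv ?_
    have a0 := (h.rd 0).at x
    have a0' := (h'.rd 0).at x
    rw [tl_sub (r1.at x) (r2.at x), tl_sub ((rg.add rN).sym.at x) (a0.sv_mul γ),
      tl_sub ((rg'.add rN').sym.at x) (a0'.sv_mul γ), tl_sv_mul a0, tl_sv_mul a0',
      tl_sym ((rg.add rN).at x), tl_sym ((rg'.add rN').at x), tl_add (rg.at x) (rN.at x),
      tl_add (rg'.at x) (rN'.at x), tl_add (rG.at x) ((rN.sub rN').at x),
      tl_sub (rN.at x) (rN'.at x), tl_sub a0 a0', tl_sub a0 a0']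
    simp only [specG, cl_of_mem hx']
    rw [tl_spec γ (h.hG.at hx'), tl_spec γ (h'.hG.at hx'), tl_spec γ (hGr.at hx')]
    linear_combination Real.exp (-γ * s) * hG x hx' s
  · rw [tl_sub ((h.rd 0).at x) ((h'.rd 0).at x), h₀ x hx, sub_self]
  · simpa using bd x hx 0
  · simpa using bd x hx 1
  · have h2 := bd x hx 2
    norm_num at h2 ⊢
    exact h2
  · refine Bd.add hγ0 adm_w1 (rG.at x).aesm ((rN.sub rN').at x).aesm hf hδ ?_
      ((nl x hx).mono (div_le_self hδ (by linarith)))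
    rw [specG, cl_of_mem hx]
    exact bG x hx
  · rw [intervalIntegral.integral_of_le ht]
    refine le_trans (setIntegral_le_integral ?_ (Eventually.of_forall fun _ => abs_nonneg _)) hX'
    exact (cX.integrable_of_hasCompactSupport hX.2.mul_left).abs

end Pool.Agent.Lib.MP_14aec4_an.W
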