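import Pool.Agent.Lib.MP_14aec4_an.Lin
import Pool.Agent.Lib.MP_14aec4_an.NU

/-!
The state reached at the end of a short ramp is close to the profile.
-/

noncomputable section

open MeasureTheory Set Filter Topology FourierTransform
open scoped ENNReal ComplexConjugate

namespace Pool.Agent.Lib.MP_14aec4_an.W

/-- A continuous function with a bound on its integral over `[-τ, 0]`. -/
def mmIB (τ : ℝ) (f : ℝ → ℝ) (a : ℝ) : Prop := Continuous f ∧ |∫ t in (-τ)..0, f t| ≤ a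

lemma mmIB.add {τ a b : ℝ} {f g : ℝ → ℝ} (hf : mmIB τ f a) (hg : mmIB τ g b) :
    mmIB τ (fun t => f t + g t) (a + b) := by
  refine ⟨hf.1.add hg.1, ?_⟩
  rw [intervalIntegral.integral_add (hf.1.intervalIntegrable _ _) (hg.1.intervalIntegrable _ _)]
  exact (abs_add_le _ _).trans (add_le_add hf.2 hg.2)

lemma mmIB.cmul {τ a : ℝ} {f : ℝ → ℝ} (hf : mmIB τ f a) (k : ℝ) :
    mmIB τ (fun t => k * f t) (|k| * a) := by
  refine ⟨continuous_const.mul hf.1, ?_⟩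
  rw [intervalIntegral.integral_const_mul, abs_mul]
  exact mul_le_mul_of_nonneg_left hf.2 (abs_nonneg _)

lemma mmIB.congr {τ a b : ℝ} {f g : ℝ → ℝ} (hf : mmIB τ f a) (h : ∀ t, g t = f t) (hab : a ≤ b) :
    mmIB τ g b := by
  have e : g = f := funext h
  rw [e]
  exact ⟨hf.1, hf.2.trans hab⟩

lemma mm_of_le {τ a : ℝ} {f g : ℝ → ℝ} (hτ : 0 ≤ τ) (hf : Continuous f) (hg : Continuous g)
    (h : ∀ t ∈ Icc (-τ) 0, |f t| ≤ g t) (ha : ∫ t in (-τ)..0, g t ≤ a) : mmIB τ f a := by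
  refine ⟨hf, ?_⟩
  have h0 : -τ ≤ 0 := by linarith
  refine (intervalIntegral.abs_integral_le_integral_abs h0).trans (le_trans ?_ ha)
  exact intervalIntegral.integral_mono_on h0 (hf.abs.intervalIntegrable _ _)
    (hg.intervalIntegrable _ _) h

lemma mm_exp_le {γ τ t : ℝ} (hγ : 0 ≤ γ) (ht : t ∈ Icc (-τ) 0) :
    0 < Real.exp (γ * t) ∧ Real.exp (γ * t) ≤ 1 :=
  ⟨Real.exp_pos _, Real.exp_le_one_iff.2 (mul_nonpos_of_nonneg_of_nonpos hγ ht.2)⟩

lemma mm_cexp (γ : ℝ) : Continuous fun t : ℝ => Real.exp (γ * t) := by fun_prop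

lemma mm_lin {γ τ c : ℝ} (hγ : 0 ≤ γ) (hτ : 0 ≤ τ) (hτ1 : τ ≤ 1) (hc : 0 < c) {A : ℝ → ℂ}
    (hA : RD A) (b : Bd γ w1 0 A c) : mmIB τ (fun t => Real.exp (γ * t) * tl 0 A t) c := by
  have ca := tl_continuous hA 0
  have h0 : -τ ≤ 0 := by linarith
  refine mm_of_le (g := fun t => c / 2 + (1 / (2 * c)) * tl 0 A t ^ 2) hτ ((mm_cexp γ).mul ca)
    (by fun_prop) (fun t ht => ?_) ?_
  · obtain ⟨e0, e1⟩ := mm_exp_le hγ ht
    rw [abs_mul, abs_of_pos e0]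
    have h1 : Real.exp (γ * t) * |tl 0 A t| ≤ |tl 0 A t| :=
      mul_le_of_le_one_left (abs_nonneg _) e1
    have h2 : |tl 0 A t| ≤ c / 2 + (1 / (2 * c)) * tl 0 A t ^ 2 := by
      rw [← sq_abs (tl 0 A t)]
      have : c / 2 + (1 / (2 * c)) * |tl 0 A t| ^ 2 - |tl 0 A t|
          = (1 / (2 * c)) * (c - |tl 0 A t|) ^ 2 := by
        field_simp
        ring
      have h3 : 0 ≤ (1 / (2 * c)) * (c - |tl 0 A t|) ^ 2 := by positivity
      linarith
    exact h1.trans h2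
  · have k1 : Continuous fun _ : ℝ => c / 2 := continuous_const
    have k2 : Continuous fun t : ℝ => (1 / (2 * c)) * tl 0 A t ^ 2 := by fun_prop
    rw [intervalIntegral.integral_add (k1.intervalIntegrable _ _) (k2.intervalIntegrable _ _),
      intervalIntegral.integral_const, intervalIntegral.integral_const_mul]
    have h1 := planch_tl hA hc.le b h0
    have h2 : (1 / (2 * c)) * ∫ t in (-τ)..0, tl 0 A t ^ 2 ≤ (1 / (2 * c)) * c ^ 2 :=
      mul_le_mul_of_nonneg_left h1 (by positivity)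
    have h3 : (1 / (2 * c)) * c ^ 2 = c / 2 := by
      field_simp
    have h4 : (0 - -τ) • (c / 2) ≤ c / 2 := by
      rw [smul_eq_mul]
      nlinarith
    linarith

lemma mm_quad {γ τ c : ℝ} (hγ : 0 ≤ γ) (hτ : 0 ≤ τ) (hc : 0 < c) {A B : ℝ → ℂ}
    (hA : RD A) (hB : RD B) (a : Bd γ w1 0 A c) (b : Bd γ w1 0 B c) :
    mmIB τ (fun t => Real.exp (γ * t) * tl 0 A t * (Real.exp (γ * t) * tl 0 B t)) (c ^ 2) := by
  have ca := tl_continuous hA 0
  have cb := tl_continuous hB 0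
  have h0 : -τ ≤ 0 := by linarith
  refine mm_of_le (g := fun t => (1 / 2) * tl 0 A t ^ 2 + (1 / 2) * tl 0 B t ^ 2) hτ
    (((mm_cexp γ).mul ca).mul ((mm_cexp γ).mul cb)) (by fun_prop) (fun t ht => ?_) ?_
  · obtain ⟨e0, e1⟩ := mm_exp_le hγ ht
    have h1 : |Real.exp (γ * t) * tl 0 A t| ≤ |tl 0 A t| := by
      rw [abs_mul, abs_of_pos e0]
      exact mul_le_of_le_one_left (abs_nonneg _) e1
    have h2 : |Real.exp (γ * t) * tl 0 B t| ≤ |tl 0 B t| := by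
      rw [abs_mul, abs_of_pos e0]
      exact mul_le_of_le_one_left (abs_nonneg _) e1
    rw [abs_mul, ← sq_abs (tl 0 A t), ← sq_abs (tl 0 B t)]
    have h3 := mul_le_mul h1 h2 (abs_nonneg _) (abs_nonneg _)
    nlinarith [sq_nonneg (|tl 0 A t| - |tl 0 B t|)]
  · have k1 : Continuous fun t : ℝ => (1 / 2) * tl 0 A t ^ 2 := by fun_prop
    have k2 : Continuous fun t : ℝ => (1 / 2) * tl 0 B t ^ 2 := by fun_prop
    rw [intervalIntegral.integral_add (k1.intervalIntegrable _ _) (k2.intervalIntegrable _ _),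
      intervalIntegral.integral_const_mul, intervalIntegral.integral_const_mul]
    have h1 := planch_tl hA hc.le a h0
    have h2 := planch_tl hB hc.le b h0
    linarith

lemma mm_cub {γ τ c : ℝ} (hγ : 0 < γ) (hτ : 0 ≤ τ) (hc : 0 < c) (hc2 : c ≤ 2) (haa : aa γ ≤ 1)
    {A B : ℝ → ℂ} (hA : RD A) (hB : RD B) (a : Bd γ w1 (1 / 3) A c) (b : Bd γ w1 0 B c) :
    mmIB τ (fun t => (Real.exp (γ * t) * tl 0 A t) ^ 2 * (Real.exp (γ * t) * tl 0 B t))
      (3 * c ^ 2) := by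
  have ca := tl_continuous hA 0
  have cb := tl_continuous hB 0
  have h0 : -τ ≤ 0 := by linarith
  refine mm_of_le (g := fun t => (1 / 2) * tl 0 A t ^ 4 + (1 / 2) * tl 0 B t ^ 2) hτ
    ((((mm_cexp γ).mul ca).pow 2).mul ((mm_cexp γ).mul cb)) (by fun_prop) (fun t ht => ?_) ?_
  · obtain ⟨e0, e1⟩ := mm_exp_le hγ.le ht
    have h1 : |Real.exp (γ * t) * tl 0 A t| ≤ |tl 0 A t| := by
      rw [abs_mul, abs_of_pos e0]
      exact mul_le_of_le_one_left (abs_nonneg _) e1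
    have h2 : |Real.exp (γ * t) * tl 0 B t| ≤ |tl 0 B t| := by
      rw [abs_mul, abs_of_pos e0]
      exact mul_le_of_le_one_left (abs_nonneg _) e1
    have h1' : |(Real.exp (γ * t) * tl 0 A t) ^ 2| ≤ tl 0 A t ^ 2 := by
      rw [abs_pow, ← sq_abs (tl 0 A t)]
      exact pow_le_pow_left₀ (abs_nonneg _) h1 2
    rw [abs_mul, ← sq_abs (tl 0 B t)]
    have h3 := mul_le_mul h1' h2 (abs_nonneg _) (sq_nonneg _)
    nlinarith [sq_nonneg (tl 0 A t ^ 2 - |tl 0 B t|)]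
  · have k1 : Continuous fun t : ℝ => (1 / 2) * tl 0 A t ^ 4 := by fun_prop
    have k2 : Continuous fun t : ℝ => (1 / 2) * tl 0 B t ^ 2 := by fun_prop
    rw [intervalIntegral.integral_add (k1.intervalIntegrable _ _) (k2.intervalIntegrable _ _),
      intervalIntegral.integral_const_mul, intervalIntegral.integral_const_mul]
    have h1 := planch_tl4 hγ hA hc.le a h0
    have h2 := planch_tl hB hc.le b h0
    have h3 : aa γ ^ 2 ≤ 1 := pow_le_one₀ (aa_nonneg γ) haa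
    have h4 : c ^ 4 ≤ 4 * c ^ 2 := by
      have : c ^ 2 ≤ 4 := by nlinarith
      nlinarith [sq_nonneg c]
    have h5 : aa γ ^ 2 * c ^ 4 ≤ c ^ 4 := mul_le_of_le_one_left (by positivity) h3
    nlinarith [sq_nonneg c]

lemma mm_pair {γ τ c a : ℝ} (hγ : 0 < γ) (hτ : 0 ≤ τ) (hc : 0 < c) {m : ℝ → ℝ} (hm : SC m)
    (hm1 : ∀ t ∈ Icc (-τ) 0, m t = 1) (ha : mulC γ w1 (mm γ m 2) ≤ a)
    {A B : ℝ → ℂ} (hA : RD A) (hB : RD B) (bA : Bd γ w1 (1 / 3) A c)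
    (bB : Bd γ w1 (-1 / 3) B c) :
    mmIB τ (fun t => Real.exp (γ * t) * tl 0 A t * (Real.exp (γ * t) * tl 0 B t))
      (50 * a * c ^ 2) := by
  have ca := tl_continuous hA 0
  have cb := tl_continuous hB 0
  have h0 : -τ ≤ 0 := by linarith
  refine ⟨((mm_cexp γ).mul ca).mul ((mm_cexp γ).mul cb), ?_⟩
  have hM : RD (mm γ m 2) := rd_spec _ hm
  have hMr : IsRe (mm γ m 2) := isRe_spec _ hm
  have hn := mulC_nonneg hγ adm_w1 (mm γ m 2)
  have b1 : Bd γ w1 (1 / 3) (cv (mm γ m 2) A) (mulC γ w1 (mm γ m 2) * c) :=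
    peetre hγ adm_w1 (by rw [abs_of_pos] <;> norm_num) hM hA.aesm hc.le bA
  have h1 := pair hγ (hM.cv hA) hB (mul_nonneg hn hc.le) hc.le b1 bB h0
  have e : ∫ t in (-τ)..0, Real.exp (γ * t) * tl 0 A t * (Real.exp (γ * t) * tl 0 B t)
      = ∫ t in (-τ)..0, tl 0 (cv (mm γ m 2) A) t * tl 0 B t := by
    refine intervalIntegral.integral_congr fun t ht => ?_
    rw [uIcc_of_le h0] at ht
    have e1 : tl 0 (mm γ m 2) t = Real.exp (γ * t) * Real.exp (γ * t) := by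
      have := tl_spec (-((2 : Fin 3) : ℝ) * γ) hm t
      rw [hm1 t ht, mul_one] at this
      rw [mm, this, ← Real.exp_add]
      congr 1
      norm_num
      ring
    change _ = tl 0 (cv (mm γ m 2) A) t * tl 0 B t
    rw [tl_cv hM hA hMr, e1]
    ring
  rw [e]
  refine h1.trans ?_
  have : mulC γ w1 (mm γ m 2) * c ^ 2 ≤ a * c ^ 2 := mul_le_mul_of_nonneg_right ha (by positivity)
  nlinarith

/-- The constant in the bound on the boundary nonlinearity. -/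
def mmK (κ : ℝ) (P : BC) (a : ℝ) : ℝ :=
  5 * (∑ i, (|P.α i| + |P.β i| + |P.ζ i|)) + 6 * |mu κ| + 40 + 200 * a

lemma mm_nlb {L κ γ τ c a : ℝ} {P : BC} {m : ℝ → ℝ} {G : ℝ → ℝ → ℝ} {ℓ : Fin 3 → ℝ → ℝ}
    {V : Fin 3 → ℝ → ℝ → ℂ} (hL : 0 < L) (hγ : Big L γ) (haa : aa γ ≤ 1) (hτ : 0 ≤ τ)
    (hτ1 : τ ≤ 1) (hc : 0 < c) (hc2 : c ≤ 2) (h : FP L κ P γ m G ℓ V) (b : SBd L γ w1 V c)
    (hm1 : ∀ t ∈ Icc (-τ) 0, m t = 1) (ha : mulC γ w1 (mm γ m 2) ≤ a)
    (h₀ : ∀ j, ∀ x ∈ Icc 0 L, ∀ t ≤ -τ, tl 0 (V j x) t = 0) {i : Fin 3} (hi : P.j i = 2) :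
    mmIB τ (nlb L κ P (zOf γ V) i) (mmK κ P a * c) := by
  have hγ1 : 1 ≤ γ := hγ.1
  have hγ0 : 0 < γ := by linarith
  obtain ⟨-, p1, p2, -, -, -⟩ := h.time hL hγ
  have m0 : (0 : ℝ) ∈ Icc 0 L := ⟨le_rfl, hL.le⟩
  have mL : L ∈ Icc 0 L := ⟨hL.le, le_rfl⟩
  have me := ept_mem hL.le i
  have hw : ∀ τ, 0 ≤ w1 τ := fun _ => zero_le_one
  have b0 : ∀ x ∈ Icc 0 L, Bd γ w1 (1 / 3) (V 0 x) c := fun x hx => by
    simpa using b x hx 0
  have b0' : ∀ x ∈ Icc 0 L, Bd γ w1 0 (V 0 x) c := fun x hx =>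
    (b0 x hx).lower_one hγ1 hw (by norm_num)
  have b1 : ∀ x ∈ Icc 0 L, Bd γ w1 0 (V 1 x) c := fun x hx => by
    simpa using b x hx 1
  have b2 : ∀ x ∈ Icc 0 L, Bd γ w1 (-1 / 3) (V 2 x) c := fun x hx => by
    have := b x hx 2
    have e : (1 - (((2 : Fin 3) : ℕ) : ℝ)) / 3 = -1 / 3 := by norm_num
    rwa [e] at this
  have r := fun j x => (h.rd j).at x
  have I1 := mm_lin hγ0.le hτ hτ1 hc (r 1 0) (b1 0 m0)
  have I2 := mm_lin hγ0.le hτ hτ1 hc (r 1 L) (b1 L mL)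
  have I3 : mmIB τ (fun t => Real.exp (γ * t) * tl 0 (V 2 0) t) c := by
    refine ⟨(mm_cexp γ).mul (tl_continuous (r 2 0) 0), ?_⟩
    refine (pair0 hγ0 (r 2 0) hc.le (b2 0 m0) (by linarith) (h₀ 2 0 m0)).trans ?_
    exact mul_le_of_le_one_left hc.le haa
  have I4 := mm_lin hγ0.le hτ hτ1 hc (r 1 (ept L i)) (b1 _ me)
  have I5 := mm_quad hγ0.le hτ hc (r 0 0) (r 0 0) (b0' 0 m0) (b0' 0 m0)
  have I6 := mm_quad hγ0.le hτ hc (r 0 L) (r 0 L) (b0' L mL) (b0' L mL)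
  have I7 := mm_quad hγ0.le hτ hc (r 0 0) (r 1 0) (b0' 0 m0) (b1 0 m0)
  have I8 := mm_quad hγ0.le hτ hc (r 1 (ept L i)) (r 1 (ept L i)) (b1 _ me) (b1 _ me)
  have I9 := mm_pair hγ0 hτ hc h.hm hm1 ha (r 0 (ept L i)) (r 2 (ept L i)) (b0 _ me) (b2 _ me)
  have I10 := mm_cub hγ0 hτ hc hc2 haa (r 0 (ept L i)) (r 1 (ept L i)) (b0 _ me) (b1 _ me)
  have J := (((((((((I1.cmul (-P.α i)).add (I2.cmul (-P.β i))).add (I3.cmul (-P.ζ i))).add
    (I4.cmul (-(6 * mu κ)))).add (I5.cmul (-P.α i))).add (I6.cmul (-P.β i))).add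
    (I7.cmul (-(P.ζ i * 2)))).add (I8.cmul (-2))).add (I9.cmul (-2))).add (I10.cmul (-6))
  refine J.congr (fun t => ?_) ?_
  · have hd : P.dyn i = 1 := by simp [BC.dyn, hi]
    simp only [nlb, tL, tQ, tC, tE, hd, hi, p1 0 m0, p1 L mL, p1 _ me, p2 0 m0, p2 _ me]
    simp only [zOf]
    norm_num
    ring
  · have ha0 : 0 ≤ a := (mulC_nonneg hγ0 adm_w1 _).trans ha
    have hs : |P.α i| + |P.β i| + |P.ζ i| ≤ ∑ i, (|P.α i| + |P.β i| + |P.ζ i|) :=
      Finset.single_le_sum (f := fun i => |P.α i| + |P.β i| + |P.ζ i|)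
        (fun i _ => by positivity) (Finset.mem_univ i)
    have hcc : c ^ 2 ≤ 2 * c := by nlinarith
    simp only [abs_neg, abs_mul, mmK]
    have e2 : |(2 : ℝ)| = 2 := abs_of_pos two_pos
    have e6 : |(6 : ℝ)| = 6 := abs_of_pos (by norm_num)
    rw [e2, e6]
    have q1 := mul_le_mul_of_nonneg_left hcc (abs_nonneg (P.α i))
    have q2 := mul_le_mul_of_nonneg_left hcc (abs_nonneg (P.β i))
    have q3 := mul_le_mul_of_nonneg_left hcc (abs_nonneg (P.ζ i))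
    have q4 := mul_le_mul_of_nonneg_left hcc ha0
    have q5 := mul_le_mul_of_nonneg_right hs hc.le
    have q6 := mul_nonneg (abs_nonneg (P.α i)) hc.le
    have q7 := mul_nonneg (abs_nonneg (P.β i)) hc.le
    nlinarith

lemma mm_cut_one {γ τ t : ℝ} (hγ : 0 < γ) (hτ : τ ≤ 1 / γ) (ht : t ∈ Icc (-τ) 0) :
    cut (γ * t) = 1 := by
  apply cut_one
  have h1 : γ * τ ≤ 1 := by
    have := mul_le_mul_of_nonneg_left hτ hγ.le
    rwa [mul_one_div_cancel hγ.ne'] at this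
  rw [abs_le]
  constructor
  · nlinarith [ht.1]
  · nlinarith [ht.2]

lemma mm_sc {γ : ℝ} (hγ : 0 < γ) (τ : ℝ) : SC fun t => rp (-τ) τ t * cut (γ * t) :=
  SC.mul_left (rp_contDiff _ _) (sc_cut_scale hγ)

lemma mm_sc' {γ : ℝ} (hγ : 0 < γ) (τ c : ℝ) : SC fun t => rp (-τ) τ t * cut (γ * t) * c :=
  (mm_sc hγ τ).mul_right contDiff_const

lemma mm_spec {γ τ B Cv σ c : ℝ} (hγ : 1 ≤ γ) (hσ : σ ≤ 1 / 3) (hCv : 0 ≤ Cv) (hc : |c| ≤ B)
    (hv : ∫ t, |Real.exp (-γ * t) * deriv (fun t => rp (-τ) τ t * cut (γ * t)) t| ≤ Cv) :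
    Bd γ w1 σ (spec γ fun t => rp (-τ) τ t * cut (γ * t) * c) (B * Cv * aa γ) := by
  have hγ0 : 0 < γ := by linarith
  have hB : 0 ≤ B := (abs_nonneg _).trans hc
  refine bd_of_inv hγ (mul_nonneg hB hCv) hσ fun s => ?_
  rw [spec_mul_const γ (fun t => rp (-τ) τ t * cut (γ * t)) c s, norm_mul, Complex.norm_real,
    Real.norm_eq_abs, mul_assoc]
  exact mul_le_mul hc ((norm_spec_mul_om_le γ (mm_sc hγ0 τ) s).trans hv)
    (mul_nonneg (norm_nonneg _) (om_nonneg _ _)) hB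

lemma mm_energy {L κ γ τ η B Cv : ℝ} {P : BC} {A : Fin 3 → ℝ} {q : ℝ → ℝ} {ℓ : Fin 3 → ℝ → ℝ}
    {V : Fin 3 → ℝ → ℝ → ℂ} (hL : 0 < L) (hP : P.Valid) (hγ : Big L γ) (hτ : 0 < τ)
    (hτγ : τ ≤ 1 / γ) (hq : SmI L q)
    (hB : ∀ x ∈ Icc 0 L, |q x| ≤ B ∧ |dI L q x| ≤ B ∧ |dI L (dI L q) x| ≤ B ∧
      |dI L (dI L (dI L q)) x| ≤ B) (hCv : 0 ≤ Cv)
    (hv : ∫ t, |Real.exp (-γ * t) * deriv (fun t => rp (-τ) τ t * cut (γ * t)) t| ≤ Cv)
    (hA : ∀ n, mulC γ w1 (mm γ (fun t => cut (γ * t)) n) ≤ A n) (hs : Smal L κ P γ A η)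
    (h : FP L κ P γ (fun t => cut (γ * t)) (fun x t => deriv (rp (-τ) τ) t * q x) ℓ V)
    (b : SBd L γ w1 V (2 * η)) (h₀ : ∀ j, ∀ x ∈ Icc 0 L, ∀ t ≤ -τ, tl 0 (V j x) t = 0) :
    nL L (fun x => zOf γ V x 0 - q x) ≤ 20 * (1 + L) * (4 * η + 2 * (B * Cv * aa γ)) := by
  have hγ1 : 1 ≤ γ := hγ.1
  have hγ0 : 0 < γ := by linarith
  have hη : 0 < η := hs.2.1
  have h0 : -τ ≤ 0 := by linarith
  have hB0 : 0 ≤ B := (abs_nonneg _).trans (hB 0 ⟨le_rfl, hL.le⟩).1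
  have hβ : 0 ≤ B * Cv * aa γ := mul_nonneg (mul_nonneg hB0 hCv) (aa_nonneg γ)
  obtain ⟨s0, p1, p2, pN, pe, -⟩ := h.time hL hγ
  set Z := zOf γ V with hZ
  set χ := rp (-τ) τ with hχ
  have s1 : SmOn L univ (px L Z) := s0.px hL uniqueDiffOn_univ
  have s2 : SmOn L univ (px L (px L Z)) := s1.px hL uniqueDiffOn_univ
  have s3 : SmOn L univ (px L (px L (px L Z))) := s2.px hL uniqueDiffOn_univ
  have st : SmOn L univ (ptw univ Z) := s0.ptw hL uniqueDiffOn_univ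
  have q1 : SmI L (dI L q) := hq.dI hL
  have q2 : SmI L (dI L (dI L q)) := q1.dI hL
  have q3 : SmI L (dI L (dI L (dI L q))) := q2.dI hL
  have cχ : ContDiff ℝ (⊤ : ℕ∞) χ := rp_contDiff _ _
  have cχ' : ContDiff ℝ (⊤ : ℕ∞) (deriv χ) := (sc_deriv_rp hτ (-τ)).1
  have sE : SmOn L univ fun _ t => Real.exp (-γ * t) :=
    smOn_of_t (c := fun t => Real.exp (-γ * t)) (by fun_prop)
  have sχ : SmOn L univ fun _ t => χ t := smOn_of_t cχ.contDiffOn
  have sχ' : SmOn L univ fun _ t => deriv χ t := smOn_of_t cχ'.contDiffOn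
  have sm : SmOn L univ fun _ t => cut (γ * t) :=
    smOn_of_t (c := fun t => cut (γ * t)) (sc_cut_scale hγ0).1.contDiffOn
  have sN : SmOn L univ (nN L κ Z) :=
    (((s0.pow 2).add (SmOn.const (mu κ))).const_mul 6).mul s1
  have ct : ∀ {f : ℝ → ℝ → ℝ}, SmOn L univ f → CtOn L (Icc (-τ) 0) f := fun hf =>
    (hf.mono (subset_univ _)).ctOn
  have y0 := sE.mul (s0.sub (sχ.mul (hq.smOn univ)))
  have y1 := sE.mul (s1.sub (sχ.mul (q1.smOn univ)))
  have y2 := sE.mul (s2.sub (sχ.mul (q2.smOn univ)))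
  have yt := (sE.mul (st.sub (sχ'.mul (hq.smOn univ)))).sub (y0.const_mul γ)
  have yF := sE.mul ((sm.mul sN).sub (sχ.mul (q3.smOn univ)))
  have hM : ∀ n, RD (mm γ (fun t => cut (γ * t)) n) := fun n => rd_spec _ h.hm
  have hA2 : ∀ n, mulC γ w1 (mm γ (fun t => cut (γ * t)) n) ≤ 2 * A n := fun n => by
    have := hs.1 n
    linarith [hA n]
  have b4 : SBd L γ w1 V (4 * η) := fun x hx j => (b x hx j).mono (by linarith)
  have bz : SBd L γ w1 (fun _ _ _ => 0) (4 * η) := fun x hx j => Bd.zero _ _ _ _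
  have bd : SBd L γ w1 (fun j x s => V j x s - (fun _ _ _ => 0 : Fin 3 → ℝ → ℝ → ℂ) j x s)
      (2 * η) := fun x hx j => by simpa using b x hx j
  have bN := (nl_lip hL hP hγ1 adm_w1 hM hA2 hs h.rd (fun _ => RD2.zero) b4 bz (by linarith) bd).1
  rw [fN_zero] at bN
  have bN' : ∀ x ∈ Icc 0 L, Bd γ w1 (-1 / 3) (fN κ (mm γ fun t => cut (γ * t)) V x) (2 * η) := by
    intro x hx
    have k := bN x hx
    simp only [sub_zero] at k
    refine k.mono ?_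
    apply div_le_self (by linarith)
    linarith
  have rN := rd2_fN κ hM h.rd
  have ee : ∀ t, Real.exp (-γ * t) * Real.exp (γ * t) = 1 := fun t => by
    rw [← Real.exp_add]
    simp
  have key := energy (γ := γ) (n := 2 * η + B * Cv * aa γ) (f := 2 * η + B * Cv * aa γ) (ξ := 0)
    (X := fun _ => 0) (q := q) hL hγ0 h0 (by linarith) (by linarith) (ct y0) (ct y1) (ct y2)
    (ct yt) (ct yF) continuousOn_const hq.cont ?_ ?_ ?_ ?_ ?_ ?_ (by simp) 0 ⟨h0, le_rfl⟩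
  · have e : nL L (fun x => Z x 0 - q x)
        = nL L fun x => Real.exp (-γ * 0) * (Z x 0 - χ 0 * q x) := by
      refine nL_congr hL.le fun x _ => ?_
      rw [show χ 0 = 1 from rp_one hτ (by linarith)]
      simp
    rw [e]
    refine key.trans (le_of_eq ?_)
    ring
  · intro x hx t _
    exact ((s0.hasDerivAt_x hx (mem_univ t)).sub ((hq.hasDerivAt hx).const_mul (χ t))).const_mul _
  · intro x hx t _
    exact ((s1.hasDerivAt_x hx (mem_univ t)).sub ((q1.hasDerivAt hx).const_mul (χ t))).const_mul _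
  · intro x hx t _
    refine (((s2.hasDerivAt_x hx (mem_univ t)).sub
      ((q2.hasDerivAt hx).const_mul (χ t))).const_mul (Real.exp (-γ * t))).congr_deriv ?_
    have k := pe x hx t
    rw [pt_eq_ptw (I := univ) Z x univ_mem] at k
    have k' : px L (px L (px L Z)) x t
        = cut (γ * t) * nN L κ Z x t + deriv χ t * q x - ptw univ Z x t := by linarith
    rw [k']
    ring
  · intro x hx t _
    have k1 : HasDerivAt (fun s => Real.exp (-γ * s)) (Real.exp (-γ * t) * -γ) t := by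
      simpa using ((hasDerivAt_id t).const_mul (-γ)).exp
    have k2 := s0.hasDerivAt_t (Ioo_subset_Icc_self hx) (t := t) univ_mem
    rw [pt_eq_ptw (I := univ) Z x univ_mem] at k2
    have k3 : HasDerivAt χ (deriv χ t) t :=
      (cχ.differentiable (by simp)).differentiableAt.hasDerivAt
    refine (k1.mul (k2.sub (k3.mul_const (q x)))).congr_deriv ?_
    simp only [Pi.sub_apply]
    ring
  · intro x hx
    rw [show χ (-τ) = 0 from rp_zero hτ le_rfl, hZ]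
    simp [zOf, h₀ 0 x hx (-τ) le_rfl]
  · intro x hx
    obtain ⟨k0, k1, k2, k3⟩ := hB x hx
    have r := fun j => (h.rd j).at x
    have rs := fun c => rd_spec γ (mm_sc' hγ0 τ c)
    have b0 : Bd γ w1 (1 / 3) (V 0 x) (2 * η) := by simpa using b x hx 0
    have b1 : Bd γ w1 0 (V 1 x) (2 * η) := by simpa using b x hx 1
    have b2 : Bd γ w1 (-1 / 3) (V 2 x) (2 * η) := by
      have := b x hx 2
      have e : (1 - (((2 : Fin 3) : ℕ) : ℝ)) / 3 = -1 / 3 := by norm_num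
      rwa [e] at this
    refine ⟨_, _, _, _, (r 0).sub (rs (q x)), (r 1).sub (rs (dI L q x)),
      (r 2).sub (rs (dI L (dI L q) x)), (rN.at x).sub (rs (dI L (dI L (dI L q)) x)),
      Bd.sub hγ0 adm_w1 (r 0).aesm (rs _).aesm (by linarith) hβ b0
        (mm_spec hγ1 le_rfl hCv k0 hv),
      Bd.sub hγ0 adm_w1 (r 1).aesm (rs _).aesm (by linarith) hβ b1
        (mm_spec hγ1 (by norm_num) hCv k1 hv),
      Bd.sub hγ0 adm_w1 (r 2).aesm (rs _).aesm (by linarith) hβ b2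
        (mm_spec hγ1 (by norm_num) hCv k2 hv),
      Bd.sub hγ0 adm_w1 (rN.at x).aesm (rs _).aesm (by linarith) hβ (bN' x hx)
        (mm_spec hγ1 (by norm_num) hCv k3 hv), fun t ht => ?_⟩
    have m1 := mm_cut_one hγ0 hτγ ht
    have et := ee t
    rw [tl_sub (r 0) (rs _), tl_sub (r 1) (rs _), tl_sub (r 2) (rs _), tl_sub (rN.at x) (rs _),
      tl_spec γ (mm_sc' hγ0 τ _), tl_spec γ (mm_sc' hγ0 τ _), tl_spec γ (mm_sc' hγ0 τ _),
      tl_spec γ (mm_sc' hγ0 τ _), pN x hx t, p1 x hx t, p2 x hx t, m1]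
    refine ⟨?_, ?_, ?_, ?_⟩
    · rw [hZ]
      simp only [zOf]
      linear_combination (-tl 0 (V 0 x) t) * et
    · linear_combination (-tl 0 (V 1 x) t) * et
    · linear_combination (-tl 0 (V 2 x) t) * et
    · ring

lemma mm_end {L κ γ τ c a C : ℝ} {P : BC} {q : ℝ → ℝ} {ℓb : Fin 3 → ℝ → ℝ} {G : ℝ → ℝ → ℝ}
    {V : Fin 3 → ℝ → ℝ → ℂ} (hL : 0 < L) (hγ : Big L γ) (haa : aa γ ≤ 1) (hτ : 0 < τ)
    (hτγ : τ ≤ 1 / γ) (hc : 0 < c) (hc2 : c ≤ 2) (hℓ : ∀ i, Continuous (ℓb i))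
    (hC : ∀ i, ∀ t ∈ Icc (-1 : ℝ) 2, |ℓb i t| ≤ C)
    (h : FP L κ P γ (fun t => cut (γ * t)) G
      (fun i t => rp (-τ) τ t * cut (γ * t) * ℓb i t
        - P.dyn i * deriv (rp (-τ) τ) t * q (ept L i)) V)
    (b : SBd L γ w1 V c) (ha : mulC γ w1 (mm γ (fun t => cut (γ * t)) 2) ≤ a)
    (h₀ : ∀ j, ∀ x ∈ Icc 0 L, ∀ t ≤ -τ, tl 0 (V j x) t = 0) {i : Fin 3} (hi : P.j i = 2) :
    |zOf γ V (ept L i) 0 - q (ept L i)| ≤ C * (1 / γ) + mmK κ P a * c := by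
  have hγ1 : 1 ≤ γ := hγ.1
  have hγ0 : 0 < γ := by linarith
  have h0 : -τ ≤ 0 := by linarith
  have hτ1 : τ ≤ 1 := hτγ.trans (by rw [div_le_one hγ0]; exact hγ1)
  have me := ept_mem hL.le i
  have J1 := mm_nlb hL hγ haa hτ.le hτ1 hc hc2 h b (fun t ht => mm_cut_one hγ0 hτγ ht) ha h₀ hi
  have cχ : ContDiff ℝ (⊤ : ℕ∞) (rp (-τ) τ) := rp_contDiff _ _
  have hC0 : 0 ≤ C := (abs_nonneg _).trans (hC 0 0 ⟨by norm_num, by norm_num⟩)
  have J2 : mmIB τ (fun t => rp (-τ) τ t * ℓb i t) (C * (1 / γ)) := by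
    refine mm_of_le (g := fun _ => C) hτ.le (cχ.continuous.mul (hℓ i)) continuous_const
      (fun t ht => ?_) ?_
    · rw [abs_mul, abs_of_nonneg (rp_mem _ _ _).1]
      refine (mul_le_of_le_one_left (abs_nonneg _) (rp_mem _ _ _).2).trans (hC i t ⟨?_, ?_⟩)
      · linarith [ht.1]
      · linarith [ht.2]
    · rw [intervalIntegral.integral_const, smul_eq_mul]
      have := mul_le_mul_of_nonneg_left hτγ hC0
      linarith
  have J := (J2.add J1).cmul (-1)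
  obtain ⟨s0, -, -, -, -, pb⟩ := h.time hL hγ
  have hd : P.dyn i = 1 := by simp [BC.dyn, hi]
  have D : ∀ t ∈ uIcc (-τ) 0,
      HasDerivAt (fun t => zOf γ V (ept L i) t - rp (-τ) τ t * q (ept L i))
        (-1 * (rp (-τ) τ t * ℓb i t + nlb L κ P (zOf γ V) i t)) t := by
    intro t ht
    rw [uIcc_of_le h0] at ht
    have k2 := s0.hasDerivAt_t me (t := t) univ_mem
    have k3 : HasDerivAt (rp (-τ) τ) (deriv (rp (-τ) τ) t) t :=
      (cχ.differentiable (by simp)).differentiableAt.hasDerivAt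
    refine (k2.sub (k3.mul_const (q (ept L i)))).congr_deriv ?_
    have k := pb i t
    simp only [ztr, hi, hd, mm_cut_one hγ0 hτγ ht] at k
    norm_num at k
    linarith
  have E := intervalIntegral.integral_eq_sub_of_hasDerivAt D (J.1.intervalIntegrable _ _)
  have J' := J.2
  rw [E, rp_one hτ (by linarith), rp_zero hτ le_rfl] at J'
  have z : zOf γ V (ept L i) (-τ) = 0 := by simp [zOf, h₀ 0 _ me (-τ) le_rfl]
  rw [z] at J'
  simpa using J'

lemma mm_linear {L γ τ B C : ℝ} {P : BC} {q : ℝ → ℝ} {ℓb : Fin 3 → ℝ → ℝ}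
    (hL : 0 < L) (hγ : Big L γ) (hτ : 0 < τ) (hτγ : τ ≤ 1 / γ) (hq : SmI L q)
    (hB : ∀ x ∈ Icc 0 L, |q x| ≤ B ∧ |dI L q x| ≤ B) (hℓ : ∀ i, ContDiff ℝ (⊤ : ℕ∞) (ℓb i))
    (hC : ∀ i, ∀ t ∈ Icc (-1 : ℝ) 2, |ℓb i t| ≤ C) :
    SBd L γ w1 (linS L P γ (fun x t => deriv (rp (-τ) τ) t * q x)
      fun i t => rp (-τ) τ t * cut (γ * t) * ℓb i t
        - P.dyn i * deriv (rp (-τ) τ) t * q (ept L i))
      (126 * C * Real.sqrt (3 / γ) + (126 + 90 * (2 + L)) * B * aa γ) := by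
  have hγ1 : 1 ≤ γ := hγ.1
  have hγ0 : 0 < γ := by linarith
  have hτ1 : τ ≤ 1 := hτγ.trans (by rw [div_le_one hγ0]; exact hγ1)
  have hC0 : 0 ≤ C := (abs_nonneg _).trans (hC 0 0 ⟨by norm_num, by norm_num⟩)
  have hB0 : 0 ≤ B := (abs_nonneg _).trans (hB 0 ⟨le_rfl, hL.le⟩).1
  have ht₀ : -1 / γ ≤ -τ := by
    rw [neg_div]
    linarith
  have hX := sc_deriv_rp hτ (-τ)
  have hX' := integral_deriv_rp_le hγ0 hτ ht₀
  have f1 : ∀ i, SC fun t => rp (-τ) τ t * cut (γ * t) * ℓb i t := fun i =>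
    (mm_sc hγ0 τ).mul_right (hℓ i)
  have f2 : ∀ i, SC fun t => P.dyn i * deriv (rp (-τ) τ) t * q (ept L i) := fun i =>
    (SC.mul_left contDiff_const hX).mul_right contDiff_const
  have haa := aa_nonneg γ
  have hb1 : 0 ≤ 3 * C * Real.sqrt (3 / γ) := by positivity
  have hb2 : 0 ≤ 3 * B * aa γ := by positivity
  have key := lin_bd (G := fun x t => deriv (rp (-τ) τ) t * q x)
    (ℓ := fun i t => rp (-τ) τ t * cut (γ * t) * ℓb i t
        - P.dyn i * deriv (rp (-τ) τ) t * q (ept L i))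
    (Gr := fun _ _ => 0) (f := 0) (b := 3 * C * Real.sqrt (3 / γ) + 3 * B * aa γ)
    hL hγ P hX hX' hq hq hB (SC2.zero L) le_rfl
    (fun x _ => by
      rw [spec_zero]
      exact Bd.zero _ _ _ _)
    (fun x _ t => by simp) (fun i => (f1 i).sub (f2 i)) (add_nonneg hb1 hb2) ?_
  · intro x hx j
    refine (key x hx j).mono (le_of_eq ?_)
    have e : nL L (fun x => q x - q x) = 0 := by simp [nL]
    rw [e]
    ring
  · intro i
    have e : spec γ (fun t => rp (-τ) τ t * cut (γ * t) * ℓb i t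
          - P.dyn i * deriv (rp (-τ) τ) t * q (ept L i))
        = fun s => spec γ (fun t => rp (-τ) τ t * cut (γ * t) * ℓb i t) s
          - spec γ (fun t => P.dyn i * deriv (rp (-τ) τ) t * q (ept L i)) s :=
      funext fun s => spec_sub γ (f1 i) (f2 i) s
    change Bd γ w1 (P.σ i) (spec γ fun t => rp (-τ) τ t * cut (γ * t) * ℓb i t
          - P.dyn i * deriv (rp (-τ) τ) t * q (ept L i)) _
    rw [e]
    have hσ : P.σ i ≤ 0 := by
      have : (0 : ℝ) ≤ P.j i := Nat.cast_nonneg _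
      unfold BC.σ
      linarith
    have h2γ : 0 < 2 / γ := by positivity
    have h2γ' : 2 / γ ≤ 2 := div_le_self (by norm_num) hγ1
    refine Bd.sub hγ0 adm_w1 (rd_spec γ (f1 i)).aesm (rd_spec γ (f2 i)).aesm hb1 hb2 ?_ ?_
    · refine (bd_short (a := -τ) (b := 2 / γ) hγ1 hσ (f1 i) hC0 ht₀ (by linarith)
        (fun t ht => ?_) (fun t ht => ?_)).mono ?_
      · rcases lt_or_ge t (-τ) with k | k
        · rw [rp_zero hτ k.le]
          simp
        · have k' : 2 / γ < t := lt_of_not_ge fun k' => ht ⟨k, k'⟩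
          rw [div_lt_iff₀ hγ0] at k'
          rw [cut_zero (le_trans (by linarith) (le_abs_self _))]
          simp
      · rw [abs_mul, abs_mul, abs_of_nonneg (rp_mem _ _ _).1, abs_of_nonneg (cut_mem _).1]
        refine (mul_le_of_le_one_left (abs_nonneg _)
          (mul_le_one₀ (rp_mem _ _ _).2 (cut_mem _).1 (cut_mem _).2)).trans (hC i t ⟨?_, ?_⟩)
        · linarith [ht.1]
        · linarith [ht.2]
      · refine mul_le_mul_of_nonneg_left (Real.sqrt_le_sqrt ?_) (by positivity)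
        have : 3 / γ = 2 / γ + 1 / γ := by ring
        linarith
    · refine (bd_dyn hγ1 P i hX hX' (q (ept L i))).mono ?_
      have k := (hB _ (ept_mem hL.le i)).1
      have k' : P.dyn i * |q (ept L i)| ≤ B := by
        unfold BC.dyn
        split_ifs
        · linarith
        · linarith
      have := mul_le_mul_of_nonneg_right k' haa
      linarith

lemma mm_bdd {a b : ℝ} {f : ℝ → ℝ} (hf : ContinuousOn f (Icc a b)) :
    ∃ C, 0 ≤ C ∧ ∀ x ∈ Icc a b, |f x| ≤ C := by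
  obtain ⟨C, hC⟩ := isCompact_Icc.exists_bound_of_continuousOn hf
  exact ⟨max C 0, le_max_right _ _, fun x hx => (hC x hx).trans (le_max_left _ _)⟩

/-- Choose `γ` large, `τ ≤ 1 / γ`, `m = cut (γ ·)`, `χ = rp (-τ) τ`. Solve the fixed point problem
with `G = χ' q`, `ℓ i = χ m ℓb i - dyn i χ' q (ept i)`; by `lin_bd` (with `q₀ = q`), `bd_short` and
`bd_dyn` its linear part has a bound `η(γ) → 0` independent of `τ`. By `nu` its solution agrees
with `Z` on `[-τ, 0]`. Apply `energy` on `[-τ, 0]` to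
`e = tl 0 (V 0 x) t - e^{-γ t} χ(t) q(x)` with `X = 0`, using
`Bd σ (spec γ (χ m)) (C aa γ)` for `σ ≤ 1/3` (`norm_spec_mul_om_le`, `integral_deriv_rp_cut_le`,
`bd_of_inv`) and `nl_lip` (with `V' = 0`). At a marked end integrate the boundary condition:
`Z(b, 0) - q(b) = -∫ (χ ℓb + nlb Z) dt`, and bound the terms by Cauchy-Schwarz with `planch_tl`,
`planch_tl4`, the term `∫ Z_xx(0, t) dt` by `pair0`, and `∫ Z Z_xx dt` by `peetre` (multiplier
`mm γ m 2`) and `pair`. -/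
theorem mismatch {L : ℝ} (hL : 0 < L) (κ : ℝ) {P : BC} (hP : P.Valid) {q : ℝ → ℝ} (hq : SmI L q)
    {ℓb : Fin 3 → ℝ → ℝ} (hℓ : ∀ i, ContDiff ℝ (⊤ : ℕ∞) (ℓb i)) {ε : ℝ} (hε : 0 < ε) :
    ∃ τ₀ > 0, ∀ τ ∈ Ioc 0 τ₀, ∀ Z : ℝ → ℝ → ℝ,
      FSol L κ P (-τ) 0 (fun x t => deriv (rp (-τ) τ) t * q x)
        (fun i t => rp (-τ) τ t * ℓb i t - P.dyn i * deriv (rp (-τ) τ) t * q (ept L i)) Z →
      (∀ x ∈ Icc 0 L, Z x (-τ) = 0) → wn L P (fun x => Z x 0 - q x) ≤ ε := by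
  obtain ⟨A, hA0, hA⟩ := exists_cut_const
  obtain ⟨η₀, hη₀, hη₁, ev⟩ := exists_smal hL κ P hA0
  obtain ⟨Cv, hCv, hv⟩ := integral_deriv_rp_cut_le
  obtain ⟨B, hB0, hB⟩ : ∃ B, 0 ≤ B ∧ ∀ x ∈ Icc 0 L, |q x| ≤ B ∧ |dI L q x| ≤ B ∧
      |dI L (dI L q) x| ≤ B ∧ |dI L (dI L (dI L q)) x| ≤ B := by
    obtain ⟨B0, p0, k0⟩ := mm_bdd hq.cont
    obtain ⟨B1, p1, k1⟩ := mm_bdd (hq.dI hL).cont
    obtain ⟨B2, p2, k2⟩ := mm_bdd ((hq.dI hL).dI hL).cont
    obtain ⟨B3, p3, k3⟩ := mm_bdd (((hq.dI hL).dI hL).dI hL).cont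
    refine ⟨B0 + B1 + B2 + B3, by linarith, fun x hx => ⟨?_, ?_, ?_, ?_⟩⟩
    · linarith [k0 x hx]
    · linarith [k1 x hx]
    · linarith [k2 x hx]
    · linarith [k3 x hx]
  obtain ⟨C, hC0, hC⟩ : ∃ C, 0 ≤ C ∧ ∀ i, ∀ t ∈ Icc (-1 : ℝ) 2, |ℓb i t| ≤ C := by
    choose C p k using fun i => mm_bdd (a := -1) (b := 2) (hℓ i).continuous.continuousOn
    exact ⟨∑ i, C i, Finset.sum_nonneg fun i _ => p i, fun i t ht =>
      (k i t ht).trans (Finset.single_le_sum (fun i _ => p i) (Finset.mem_univ i))⟩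
  have hK : 0 ≤ mmK κ P (A 2) := by
    have := hA0 2
    unfold mmK
    positivity
  set K := mmK κ P (A 2) with hKd
  have hD : 0 < 80 * (1 + L) + 4 * K := by linarith
  obtain ⟨η, hη, hηη, hηε⟩ : ∃ η, 0 < η ∧ η ≤ η₀ ∧ (80 * (1 + L) + 4 * K) * η ≤ ε / 2 := by
    refine ⟨min η₀ (ε / 2 / (80 * (1 + L) + 4 * K)), lt_min hη₀ (by positivity), min_le_left _ _,
      ?_⟩
    refine (mul_le_mul_of_nonneg_left (min_le_right _ _) hD.le).trans (le_of_eq ?_)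
    field_simp
  have t1 : Tendsto (fun γ : ℝ => 1 / γ) atTop (𝓝 0) := tendsto_const_nhds.div_atTop tendsto_id
  have t3 : Tendsto (fun γ : ℝ => Real.sqrt (3 / γ)) atTop (𝓝 0) := by
    have : Tendsto (fun γ : ℝ => 3 / γ) atTop (𝓝 0) := tendsto_const_nhds.div_atTop tendsto_id
    simpa using this.sqrt
  have e1 : ∀ᶠ γ in atTop,
      126 * C * Real.sqrt (3 / γ) + (126 + 90 * (2 + L)) * B * aa γ < η := by
    have := (t3.const_mul (126 * C)).add (aa_tendsto.const_mul ((126 + 90 * (2 + L)) * B))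
    simp only [mul_zero, add_zero] at this
    exact this.eventually (gt_mem_nhds hη)
  have e2 : ∀ᶠ γ in atTop, 40 * (1 + L) * B * Cv * aa γ + 2 * C * (1 / γ) < ε / 2 := by
    have := (aa_tendsto.const_mul (40 * (1 + L) * B * Cv)).add (t1.const_mul (2 * C))
    simp only [mul_zero, add_zero] at this
    exact this.eventually (gt_mem_nhds (by linarith))
  obtain ⟨γ, ⟨hγ, haa, hs⟩, l1, l2⟩ := (ev.and (e1.and e2)).exists
  have hγ1 : 1 ≤ γ := hγ.1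
  have hγ0 : 0 < γ := by linarith
  refine ⟨1 / γ, by positivity, fun τ hτ Z hZ hZ0 => ?_⟩
  obtain ⟨hτ, hτγ⟩ := hτ
  have ht₀ : -1 / γ ≤ -τ := by
    rw [neg_div]
    linarith
  have hX := sc_deriv_rp hτ (-τ)
  have hG : SC2 L fun x t => deriv (rp (-τ) τ) t * q x := SC2.prod hX hq
  have hX0 : ∀ t ≤ -τ, deriv (rp (-τ) τ) t = 0 := fun t ht =>
    deriv_rp_zero hτ fun k => absurd k.1 (not_lt.2 ht)
  have bl := mm_linear (P := P) hL hγ hτ hτγ hq (fun x hx => ⟨(hB x hx).1, (hB x hx).2.1⟩) hℓ hC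
  obtain ⟨V, h, b, h₀⟩ := fp_exists (κ := κ) (t₀ := -τ)
    (ℓ := fun i t => rp (-τ) τ t * cut (γ * t) * ℓb i t
        - P.dyn i * deriv (rp (-τ) τ) t * q (ept L i)) hL hP hγ (sc_cut_scale hγ0) hG
    (fun i => ((mm_sc hγ0 τ).mul_right (hℓ i)).sub
      ((SC.mul_left contDiff_const hX).mul_right contDiff_const)) (hA γ hγ0) (hs η hη hηη)
    (fun x hx j => (bl x hx j).mono l1.le) (fun x _ t ht => by simp [hX0 t ht])
    (fun i t ht => by simp [hX0 t ht, rp_zero hτ ht])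
  have m1 : ∀ t ∈ Ioo (-τ) 0, cut (γ * t) = 1 := fun t ht =>
    mm_cut_one hγ0 hτγ (Ioo_subset_Icc_self ht)
  have F := h.fsol hL hγ (t₀ := -τ) (t₁ := 0) m1
  have F' : FSol L κ P (-τ) 0 (fun x t => deriv (rp (-τ) τ) t * q x)
      (fun i t => rp (-τ) τ t * ℓb i t - P.dyn i * deriv (rp (-τ) τ) t * q (ept L i))
      (zOf γ V) := by
    refine ⟨F.sm, F.eq, fun i t ht => ?_⟩
    have k := F.bc i t ht
    simp only [m1 t ht, mul_one] at k
    exact k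
  have U := nu hL hP (by linarith) (hG.1.mono (subset_univ _)) hZ F' fun x hx => by
    rw [hZ0 x hx]
    simp [zOf, h₀ 0 x hx (-τ) le_rfl]
  rw [wn_congr hL.le P (q' := fun x => zOf γ V x 0 - q x) fun x hx => by
    rw [U x hx 0 ⟨by linarith, le_rfl⟩]]
  have E1 := mm_energy hL hP hγ hτ hτγ hq hB hCv (hv γ (-τ) τ hγ0 hτ ht₀) (hA γ hγ0)
    (hs η hη hηη) h b h₀
  have E2 := fun (i : Fin 3) (hi : P.j i = 2) => mm_end hL hγ haa hτ hτγ (by linarith)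
    (by linarith) (fun i => (hℓ i).continuous) hC h b (hA γ hγ0 2) h₀ hi
  have hn : 0 ≤ C * (1 / γ) + K * (2 * η) := by positivity
  have E3 : (if P.d0 then |zOf γ V 0 0 - q 0| else 0) ≤ C * (1 / γ) + K * (2 * η) := by
    split_ifs with k
    · exact E2 0 (by simp [BC.j, k])
    · exact hn
  have E4 : (if P.dL then |zOf γ V L 0 - q L| else 0) ≤ C * (1 / γ) + K * (2 * η) := by
    split_ifs with k
    · exact E2 2 (by simp [BC.j, k])
    · exact hn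
  unfold wn
  linarith

end Pool.Agent.Lib.MP_14aec4_an.W
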