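import Pool.Agent.Lib.MP_14aec4_an.Lift
import Pool.Agent.Lib.MP_14aec4_an.Lin
import Pool.Agent.Lib.MP_14aec4_an.Ext
import Pool.Agent.Lib.MP_14aec4_an.Ini

/-!
Stability of smooth solutions.
-/

noncomputable section

open MeasureTheory Set Filter Topology FourierTransform
open scoped ENNReal ComplexConjugate

namespace Pool.Agent.Lib.MP_14aec4_an.W

/-- `u` is a smooth solution on `[0, T']`, `w` a primitive of `-u(·,0)/6`, and the data are within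
`η` of `(w₀, h₀)`. -/
structure Near (L : ℝ) (P : BC) (T' η : ℝ) (w₀ : ℝ → ℝ) (h₀ : Fin 3 → ℝ → ℝ) (u : ℝ → ℝ → ℝ)
    (w : ℝ → ℝ) : Prop where
  sol : KSol L 0 T' u
  sm : SmI L w
  der : ∀ x ∈ Icc 0 L, dI L w x = -u x 0 / 6
  ini : wn L P (fun x => w x - w₀ x) ≤ η
  bdy : ∀ i, bn (P.σ i) T' (fun t => bop L P u i t - h₀ i t) ≤ ENNReal.ofReal η

/-- The `H^{-1}` distance of two Miura images. -/
lemma hNorm_miura_sub {L κ : ℝ} (hL : 0 < L) {z z' : ℝ → ℝ} (hz : SmI L z) (hz' : SmI L z') :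
    hNorm (-1) (Ioo 0 L)
      (ofFun L (fun x => -6 * (dI L z x + z x ^ 2) + 6 * κ ^ 2) -
        ofFun L fun x => -6 * (dI L z' x + z' x ^ 2) + 6 * κ ^ 2) ≤
      ENNReal.ofReal
        (42 * (1 + Real.sqrt L * (nL L z + nL L z')) * nL L fun x => z x - z' x) := by
  have hs : SmI L fun x => z x ^ 2 - z' x ^ 2 := (ContDiffOn.pow hz 2).sub (ContDiffOn.pow hz' 2)
  obtain ⟨hp, hp'⟩ := hs.primitive hL
  set k : ℝ → ℝ := fun x => ∫ y in (0 : ℝ)..x, (z y ^ 2 - z' y ^ 2) with hk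
  have hg : SmI L fun x => -6 * ((z x - z' x) + k x) :=
    contDiffOn_const.mul ((ContDiffOn.sub hz hz').add hp)
  have hd : ∀ x ∈ Icc 0 L, dI L (fun x => -6 * ((z x - z' x) + k x)) x =
      (-6 * (dI L z x + z x ^ 2) + 6 * κ ^ 2) - (-6 * (dI L z' x + z' x ^ 2) + 6 * κ ^ 2) := by
    intro x hx
    apply dI_eq hL hx
    have h1 := (((hz.hasDerivWithinAt hx).sub (hz'.hasDerivWithinAt hx)).add
      (hp.hasDerivWithinAt hx)).const_mul (-6)
    rw [hp' x hx] at h1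
    refine h1.congr_deriv ?_
    ring
  have c1 : ContinuousOn (fun x => -6 * (dI L z x + z x ^ 2) + 6 * κ ^ 2) (Icc 0 L) :=
    (continuousOn_const.mul ((hz.dI hL).cont.add (hz.cont.pow 2))).add continuousOn_const
  have c2 : ContinuousOn (fun x => -6 * (dI L z' x + z' x ^ 2) + 6 * κ ^ 2) (Icc 0 L) :=
    (continuousOn_const.mul ((hz'.dI hL).cont.add (hz'.cont.pow 2))).add continuousOn_const
  rw [← ofFun_sub c1 c2, ← ofFun_congr fun x hx => hd x (Ioo_subset_Icc_self hx)]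
  refine (ini_le_Ioo hL hg).trans (ENNReal.ofReal_le_ofReal ?_)
  rw [nL_const_mul]
  have hdc : ContinuousOn (fun x => z x - z' x) (Icc 0 L) := hz.cont.sub hz'.cont
  have hsc : ContinuousOn (fun x => z x + z' x) (Icc 0 L) := hz.cont.add hz'.cont
  have h1 := nL_add_le hL.le hdc hp.cont
  have h2 : ∀ x ∈ Icc 0 L, |k x| ≤ (nL L z + nL L z') * nL L fun x => z x - z' x := by
    intro x hx
    have hi : IntervalIntegrable (fun y => |(z y + z' y) * (z y - z' y)|) volume 0 L :=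
      ((hsc.mul hdc).abs.mono (by rw [uIcc_of_le hL.le])).intervalIntegrable
    calc |k x| ≤ ∫ y in (0 : ℝ)..x, |z y ^ 2 - z' y ^ 2| :=
          intervalIntegral.abs_integral_le_integral_abs hx.1
      _ = ∫ y in (0 : ℝ)..x, |(z y + z' y) * (z y - z' y)| := by
          congr 1; ext y; congr 1; ring
      _ ≤ ∫ y in (0 : ℝ)..L, |(z y + z' y) * (z y - z' y)| :=
          intervalIntegral.integral_mono_interval le_rfl hx.1 hx.2
            (Eventually.of_forall fun y => abs_nonneg _) hi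
      _ ≤ nL L (fun x => z x + z' x) * nL L fun x => z x - z' x := integral_abs_mul_le hL.le hsc hdc
      _ ≤ _ := mul_le_mul_of_nonneg_right (nL_add_le hL.le hz.cont hz'.cont) (nL_nonneg _ _)
  have h3 := nL_le_of_abs_le hL.le hp.cont h2
  have h4 : |(-6 : ℝ)| = 6 := by norm_num
  rw [h4]
  nlinarith [h1, h3]

/-- The bound on the linear part for data started by a ramp. -/
lemma msap_lin {L γ δ : ℝ} (hL : 0 < L) (hγ : Big L γ) (P : BC) (hδ : 0 < δ) {q q₀ : ℝ → ℝ}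
    {Gr G : ℝ → ℝ → ℝ} {ℓr H ℓ : Fin 3 → ℝ → ℝ} {C b B : ℝ} (hq : SmI L q) (hq₀ : SmI L q₀)
    (hB : ∀ x ∈ Icc 0 L, |q₀ x| ≤ B ∧ |dI L q₀ x| ≤ B) (hC : 0 ≤ C) (hGr : SC2 L Gr)
    (hℓr : ∀ i, SC (ℓr i))
    (bGr : ∀ x ∈ Icc 0 L, ∀ t, |Gr x t| ≤ C ∧ (t ∉ Icc δ (2 * δ) → Gr x t = 0))
    (bℓr : ∀ i t, |ℓr i t| ≤ C ∧ (t ∉ Icc δ (2 * δ) → ℓr i t = 0)) (hH : ∀ i, SC (H i))
    (hb : 0 ≤ b) (bH : ∀ i, Bd γ w1 (P.σ i) (spec γ (H i)) b)
    (hG : ∀ x ∈ Icc 0 L, ∀ t, G x t = deriv (rp δ δ) t * q x + Gr x t)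
    (hℓ : ∀ i t, ℓ i t = H i t - P.dyn i * deriv (rp δ δ) t * q (ept L i) + ℓr i t) :
    (∀ i, SC (ℓ i)) ∧
    (∀ x ∈ Icc 0 L, Bd γ w1 (-1 / 3) (spec γ (Gr x)) (3 * C * Real.sqrt δ)) ∧
    SBd L γ w1 (linS L P γ G ℓ) (42 * (b + 3 * wn L P q * aa γ + 3 * C * Real.sqrt δ) +
      30 * (60 * nL L (fun x => q x - q₀ x) + 3 * (2 + L) * B * aa γ
        + L * (3 * C * Real.sqrt δ))) := by
  have hγ0 : 0 < γ := lt_of_lt_of_le one_pos hγ.1
  have hneg : -1 / γ ≤ δ := (div_nonpos_of_nonpos_of_nonneg (by norm_num) hγ0.le).trans hδ.le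
  have hX := sc_deriv_rp hδ δ
  have hX' := integral_deriv_rp_le hγ0 hδ hneg
  have e2 : 2 * δ - δ = δ := by ring
  have hXd : ∀ i, SC fun t => P.dyn i * deriv (rp δ δ) t * q (ept L i) := fun i =>
    (SC.mul_left contDiff_const hX).mul_right contDiff_const
  have hℓe : ∀ i, ℓ i = fun t => (H i t - P.dyn i * deriv (rp δ δ) t * q (ept L i)) + ℓr i t :=
    fun i => funext (hℓ i)
  have hℓs : ∀ i, SC (ℓ i) := fun i => by
    rw [hℓe i]; exact ((hH i).sub (hXd i)).add (hℓr i)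
  have bG : ∀ x ∈ Icc 0 L, Bd γ w1 (-1 / 3) (spec γ (Gr x)) (3 * C * Real.sqrt δ) := by
    intro x hx
    have := bd_short (σ := -1 / 3) hγ.1 (by norm_num) (hGr.at hx) hC hneg (by linarith : δ ≤ 2 * δ)
      (fun t ht => (bGr x hx t).2 ht) (fun t _ => (bGr x hx t).1)
    rwa [e2] at this
  have hs : 0 ≤ 3 * C * Real.sqrt δ := by positivity
  have ha := aa_nonneg γ
  have hw := wn_nonneg L P q
  refine ⟨hℓs, bG, lin_bd hL hγ P hX hX' hq hq₀ hB hGr hs bG hG hℓs (by positivity) fun i => ?_⟩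
  have b1 := bd_dyn hγ.1 P i hX hX' (q (ept L i))
  have b1' : Bd γ w1 (P.σ i) (spec γ fun t => P.dyn i * deriv (rp δ δ) t * q (ept L i))
      (3 * wn L P q * aa γ) := b1.mono (by gcongr; exact dyn_abs_le_wn L P q i)
  have b2 := bd_short hγ.1 (P.σ_mem i).2 (hℓr i) hC hneg (by linarith : δ ≤ 2 * δ)
    (fun t ht => (bℓr i t).2 ht) (fun t _ => (bℓr i t).1)
  rw [e2] at b2
  have e : spec γ (ℓ i) = fun τ => (spec γ (H i) τ -
      spec γ (fun t => P.dyn i * deriv (rp δ δ) t * q (ept L i)) τ) + spec γ (ℓr i) τ := by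
    ext τ
    rw [hℓe i, spec_add γ ((hH i).sub (hXd i)) (hℓr i), spec_sub γ (hH i) (hXd i)]
  rw [e]
  exact Bd.add hγ0 adm_w1 ((rd_spec γ (hH i)).sub (rd_spec γ (hXd i))).aesm
    (rd_spec γ (hℓr i)).aesm (by positivity) hs
    (Bd.sub hγ0 adm_w1 (rd_spec γ (hH i)).aesm (rd_spec γ (hXd i)).aesm hb (by positivity) (bH i)
      b1') b2

lemma msap_exp_le {γ t : ℝ} (hγ : 0 < γ) (ht : t ≤ 1 / γ) : Real.exp (γ * t) ≤ 3 := by
  have h1 : γ * t ≤ 1 := by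
    calc γ * t ≤ γ * (1 / γ) := by gcongr
      _ = 1 := by field_simp
  exact (Real.exp_le_exp.2 h1).trans (Real.exp_one_lt_d9.le.trans (by norm_num))

/-- The estimates for two fixed points whose Miura images are `u` and `u'`. -/
lemma msap_pair {L κ γ η t₁ T₁ : ℝ} (hL : 0 < L) {P : BC} (hP : P.Valid) (hγ : Big L γ)
    {A : Fin 3 → ℝ} (hA : ∀ n, mulC γ w1 (mm γ (fun t => cut (γ * t)) n) ≤ A n)
    (hs : Smal L κ P γ A η) (haa : aa γ ≤ 1) (ht₁ : 0 < t₁) (hT₁ : t₁ < T₁) (hT : T₁ ≤ 1 / γ)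
    {u u' G G' Gr Gr' : ℝ → ℝ → ℝ} {ℓ ℓ' : Fin 3 → ℝ → ℝ} {X q q' : ℝ → ℝ} {d f f₂ : ℝ}
    (hX : SC X) (hX' : ∫ t, |Real.exp (-γ * t) * X t| ≤ 3) (hq : SmI L q) (hq' : SmI L q')
    (hGr : SC2 L Gr) (hGr' : SC2 L Gr') (hG : G = fun x t => X t * q x + Gr x t)
    (hG' : G' = fun x t => X t * q' x + Gr' x t) (hℓ : ∀ i, SC (ℓ i)) (hℓ' : ∀ i, SC (ℓ' i))
    (z₁ : ∀ x ∈ Icc 0 L, ∀ t ≤ 0, G x t = 0) (z₂ : ∀ i, ∀ t ≤ 0, ℓ i t = 0)
    (z₁' : ∀ x ∈ Icc 0 L, ∀ t ≤ 0, G' x t = 0) (z₂' : ∀ i, ∀ t ≤ 0, ℓ' i t = 0)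
    (bl : SBd L γ w1 (linS L P γ G ℓ) η) (bl' : SBd L γ w1 (linS L P γ G' ℓ') η) (hd : 0 ≤ d)
    (bd : SBd L γ w1 (linS L P γ (fun x t => G x t - G' x t) fun i t => ℓ i t - ℓ' i t) d)
    (hf : 0 ≤ f) (hf₂ : 0 ≤ f₂) (bG : ∀ x ∈ Icc 0 L, Bd γ w1 (-1 / 3) (spec γ (Gr x)) f)
    (bG' : ∀ x ∈ Icc 0 L, Bd γ w1 (-1 / 3) (spec γ (Gr' x)) f)
    (bG₂ : ∀ x ∈ Icc 0 L, Bd γ w1 (-1 / 3) (spec γ fun t => Gr x t - Gr' x t) f₂)
    (hu : ∀ Z, FSol L κ P 0 T₁ G ℓ Z → (∀ x ∈ Icc 0 L, Z x 0 = 0) →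
      ∀ x ∈ Icc 0 L, ∀ t ∈ Icc t₁ T₁, miura L κ Z x t = u x t)
    (hu' : ∀ Z, FSol L κ P 0 T₁ G' ℓ' Z → (∀ x ∈ Icc 0 L, Z x 0 = 0) →
      ∀ x ∈ Icc 0 L, ∀ t ∈ Icc t₁ T₁, miura L κ Z x t = u' x t) {Q : ℝ} (hQ : nL L q ≤ Q)
    (hQ' : nL L q' ≤ Q) :
    (∀ x ∈ Icc 0 L, ∫ t in t₁..T₁, u x t ^ 2 ≤ 108 * (36 * η ^ 2 + 1296 * η ^ 4 + κ ^ 4 / γ)) ∧
    ∀ t ∈ Icc t₁ T₁, hNorm (-1) (Ioo 0 L) (ofFun L (fun x => u x t) - ofFun L fun x => u' x t) ≤
      ENNReal.ofReal (42 * (1 + Real.sqrt L * (6 * (6 * Q + 20 * (1 + L) * (4 * η + f)))) *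
        (3 * (6 * nL L (fun x => q x - q' x) + 20 * (1 + L) * (4 * d + f₂)))) := by
  have hγ0 : 0 < γ := lt_of_lt_of_le one_pos hγ.1
  have hη : 0 < η := hs.2.1
  have hm := sc_cut_scale hγ0
  have sG : SC2 L G := hG ▸ (SC2.prod hX hq).add hGr
  have sG' : SC2 L G' := hG' ▸ (SC2.prod hX hq').add hGr'
  obtain ⟨V, hV, bV, zV⟩ := fp_exists hL hP hγ hm sG hℓ hA hs bl z₁ z₂
  obtain ⟨V', hV', bV', zV'⟩ := fp_exists hL hP hγ hm sG' hℓ' hA hs bl' z₁' z₂'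
  have hm1 : ∀ t ∈ Ioo 0 T₁, cut (γ * t) = 1 := by
    intro t ht
    apply cut_one
    rw [abs_of_nonneg (mul_nonneg hγ0.le ht.1.le)]
    calc γ * t ≤ γ * (1 / γ) := by gcongr; exact ht.2.le.trans hT
      _ = 1 := by field_simp
  have eu := hu _ (hV.fsol hL hγ hm1) fun x hx => by simp [zOf, zV 0 x hx 0 le_rfl]
  have eu' := hu' _ (hV'.fsol hL hγ hm1) fun x hx => by simp [zOf, zV' 0 x hx 0 le_rfl]
  have hexp : ∀ t ∈ Icc t₁ T₁, Real.exp (γ * t) ≤ 3 := fun t ht => msap_exp_le hγ0 (ht.2.trans hT)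
  constructor
  · intro x hx
    obtain ⟨hsm, h1, -⟩ := hV.time hL hγ
    have b1 : Bd γ w1 0 (V 1 x) (2 * η) := by simpa using bV x hx 1
    have b0 : Bd γ w1 (1 / 3) (V 0 x) (2 * η) := by simpa using bV x hx 0
    have p1 := planch_tl ((hV.rd 1).at x) (by positivity) b1 hT₁.le
    have p0 := planch_tl4 hγ0 ((hV.rd 0).at x) (by positivity) b0 hT₁.le
    have c1 := tl_continuous ((hV.rd 1).at x) 0
    have c0 := tl_continuous ((hV.rd 0).at x) 0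
    have hle : ∀ t ∈ Icc t₁ T₁, u x t ^ 2 ≤
        108 * (9 * tl 0 (V 1 x) t ^ 2 + 81 * tl 0 (V 0 x) t ^ 4 + κ ^ 4) := by
      intro t ht
      rw [← eu x hx t ht, miura, h1 x hx t, zOf]
      have e3 := hexp t ht
      have e0 := Real.exp_pos (γ * t)
      set E := Real.exp (γ * t)
      set a := tl 0 (V 1 x) t
      set b := tl 0 (V 0 x) t
      have i1 : (E * a) ^ 2 ≤ 9 * a ^ 2 := by
        rw [mul_pow]; exact mul_le_mul_of_nonneg_right (by nlinarith) (sq_nonneg _)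
      have i2 : ((E * b) ^ 2) ^ 2 ≤ 81 * b ^ 4 := by
        have : E ^ 4 ≤ 81 := by
          calc E ^ 4 ≤ 3 ^ 4 := by gcongr
            _ = 81 := by norm_num
        calc ((E * b) ^ 2) ^ 2 = E ^ 4 * b ^ 4 := by ring
          _ ≤ 81 * b ^ 4 := mul_le_mul_of_nonneg_right this (by positivity)
      have i3 : κ ^ 4 = (κ ^ 2) ^ 2 := by ring
      rw [i3]
      nlinarith [sq_nonneg (E * a - (E * b) ^ 2), sq_nonneg (E * a + κ ^ 2),
        sq_nonneg ((E * b) ^ 2 + κ ^ 2)]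
    have hsm' := (hsm.miura hL uniqueDiffOn_univ κ).ctOn.slice_t hx
    have iu : IntervalIntegrable (fun t => u x t ^ 2) volume t₁ T₁ := by
      apply ContinuousOn.intervalIntegrable
      rw [uIcc_of_le hT₁.le]
      exact ((hsm'.mono (subset_univ _)).pow 2).congr fun t ht => by rw [← eu x hx t ht]; rfl
    have i1 : IntervalIntegrable (fun t => tl 0 (V 1 x) t ^ 2) volume t₁ T₁ :=
      (c1.pow 2).intervalIntegrable _ _
    have i0 : IntervalIntegrable (fun t => tl 0 (V 0 x) t ^ 4) volume t₁ T₁ :=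
      (c0.pow 4).intervalIntegrable _ _
    have hk : κ ^ 4 * (T₁ - t₁) ≤ κ ^ 4 / γ := by
      rw [div_eq_mul_one_div]
      exact mul_le_mul_of_nonneg_left (by linarith) (by positivity)
    have ha2 : aa γ ^ 2 * (2 * η) ^ 4 ≤ 16 * η ^ 4 := by
      have : aa γ ^ 2 ≤ 1 := pow_le_one₀ (aa_nonneg γ) haa
      calc aa γ ^ 2 * (2 * η) ^ 4 ≤ 1 * (2 * η) ^ 4 := by gcongr
        _ = 16 * η ^ 4 := by ring
    calc ∫ t in t₁..T₁, u x t ^ 2
        ≤ ∫ t in t₁..T₁, 108 * (9 * tl 0 (V 1 x) t ^ 2 + 81 * tl 0 (V 0 x) t ^ 4 + κ ^ 4) :=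
          intervalIntegral.integral_mono_on hT₁.le iu
            ((((i1.const_mul 9).add (i0.const_mul 81)).add intervalIntegrable_const).const_mul 108)
            hle
      _ = 108 * (9 * (∫ t in t₁..T₁, tl 0 (V 1 x) t ^ 2) + 81 * (∫ t in t₁..T₁, tl 0 (V 0 x) t ^ 4)
            + κ ^ 4 * (T₁ - t₁)) := by
          rw [intervalIntegral.integral_const_mul, intervalIntegral.integral_add
            ((i1.const_mul 9).add (i0.const_mul 81)) intervalIntegrable_const,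
            intervalIntegral.integral_add (i1.const_mul 9) (i0.const_mul 81),
            intervalIntegral.integral_const_mul, intervalIntegral.integral_const_mul,
            intervalIntegral.integral_const, smul_eq_mul]
          ring
      _ ≤ _ := by nlinarith
  · intro t ht
    have ht0 : (0 : ℝ) ≤ t := ht₁.le.trans ht.1
    have bdiff := fp_diff hL hP hγ hA hs hV hV' bV bV' hd bd
    have hz : SBd L γ w1 (fun _ _ _ => 0) (2 * η) := fun x _ j => Bd.zero _ _ _ _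
    have single : ∀ {G Gr : ℝ → ℝ → ℝ} {ℓ : Fin 3 → ℝ → ℝ} {q : ℝ → ℝ}
        {V : Fin 3 → ℝ → ℝ → ℂ}, FP L κ P γ (fun t => cut (γ * t)) G ℓ V →
        SBd L γ w1 V (2 * η) → (∀ x ∈ Icc 0 L, tl 0 (V 0 x) 0 = 0) → SmI L q → SC2 L Gr →
        (∀ x ∈ Icc 0 L, Bd γ w1 (-1 / 3) (spec γ (Gr x)) f) →
        (G = fun x t => X t * q x + Gr x t) → nL L q ≤ Q →
        nL L (fun x => zOf γ V x t) ≤ 3 * (6 * Q + 20 * (1 + L) * (4 * η + f)) := by
      intro G Gr ℓ q V hV bV zV hq hGr bG hG hQ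
      have := fp_energy hL hP hγ hA hs hV (fp_zero L κ P γ hm) bV hz (δ := 2 * η) (t₀ := 0)
        (by positivity) (by simpa using bV) (fun x hx => by rw [zV x hx, tl_zero_fun]) hX hX' hq
        hGr hf bG (fun x _ t => by simp [hG]) ht0
      simp only [tl_zero_fun, sub_zero] at this
      unfold zOf
      rw [nL_const_mul, abs_of_pos (Real.exp_pos _)]
      have h3 := hexp t ht
      have h4 := nL_nonneg L fun x => tl 0 (V 0 x) t
      calc Real.exp (γ * t) * nL L (fun x => tl 0 (V 0 x) t)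
          ≤ 3 * nL L (fun x => tl 0 (V 0 x) t) := by gcongr
        _ ≤ _ := by linarith
    have n1 := single hV bV (fun x hx => zV 0 x hx 0 le_rfl) hq hGr bG hG hQ
    have n2 := single hV' bV' (fun x hx => zV' 0 x hx 0 le_rfl) hq' hGr' bG' hG' hQ'
    have n3 : nL L (fun x => zOf γ V x t - zOf γ V' x t) ≤
        3 * (6 * nL L (fun x => q x - q' x) + 20 * (1 + L) * (4 * d + f₂)) := by
      have := fp_energy hL hP hγ hA hs hV hV' bV bV' (δ := 2 * d) (t₀ := 0) (by positivity) bdiff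
        (fun x hx => by rw [zV 0 x hx 0 le_rfl, zV' 0 x hx 0 le_rfl]) hX hX'
        (q := fun x => q x - q' x) (ContDiffOn.sub hq hq') (hGr.sub hGr') hf₂ bG₂
        (fun x _ t => by simp only [hG, hG']; ring) ht0
      have e : (fun x => zOf γ V x t - zOf γ V' x t) =
          fun x => Real.exp (γ * t) * (tl 0 (V 0 x) t - tl 0 (V' 0 x) t) := by
        ext x; simp only [zOf]; ring
      rw [e, nL_const_mul, abs_of_pos (Real.exp_pos _)]
      have h3 := hexp t ht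
      have h4 := nL_nonneg L fun x => tl 0 (V 0 x) t - tl 0 (V' 0 x) t
      calc Real.exp (γ * t) * nL L (fun x => tl 0 (V 0 x) t - tl 0 (V' 0 x) t)
          ≤ 3 * nL L (fun x => tl 0 (V 0 x) t - tl 0 (V' 0 x) t) := by gcongr
        _ ≤ _ := by linarith
    have s1 := (hV.time hL hγ).1.slice_x (mem_univ t)
    have s2 := (hV'.time hL hγ).1.slice_x (mem_univ t)
    have key := hNorm_miura_sub (κ := κ) hL s1 s2
    have e1 : ofFun L (fun x => u x t) = ofFun L fun x =>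
        -6 * (dI L (fun x => zOf γ V x t) x + zOf γ V x t ^ 2) + 6 * κ ^ 2 :=
      ofFun_congr fun x hx => by rw [← eu x (Ioo_subset_Icc_self hx) t ht]; rfl
    have e2 : ofFun L (fun x => u' x t) = ofFun L fun x =>
        -6 * (dI L (fun x => zOf γ V' x t) x + zOf γ V' x t ^ 2) + 6 * κ ^ 2 :=
      ofFun_congr fun x hx => by rw [← eu' x (Ioo_subset_Icc_self hx) t ht]; rfl
    rw [e1, e2]
    refine key.trans (ENNReal.ofReal_le_ofReal ?_)
    have g1 := nL_nonneg L fun x => zOf γ V x t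
    have g2 := nL_nonneg L fun x => zOf γ V' x t
    have g3 := nL_nonneg L fun x => zOf γ V x t - zOf γ V' x t
    have g4 : 0 ≤ 6 * (6 * Q + 20 * (1 + L) * (4 * η + f)) := by linarith
    gcongr
    linarith

lemma SBd.mono {L γ c c' : ℝ} {w : ℝ → ℝ} {V : Fin 3 → ℝ → ℝ → ℂ} (h : SBd L γ w V c)
    (hc : c ≤ c') : SBd L γ w V c' := fun x hx j => (h x hx j).mono hc

lemma msap_eventually {p : ℝ → Prop} (h : ∃ δ₀ > 0, ∀ δ ∈ Ioc 0 δ₀, p δ) :
    ∀ᶠ δ in 𝓝[>] (0 : ℝ), p δ := by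
  obtain ⟨δ₀, h₀, h⟩ := h
  filter_upwards [Ioc_mem_nhdsGT h₀] with δ hδ using h δ hδ

lemma msap_sqrt_small (K : ℝ) {ε : ℝ} (hε : 0 < ε) :
    ∀ᶠ δ in 𝓝[>] (0 : ℝ), K * Real.sqrt δ ≤ ε := by
  have : Tendsto (fun δ : ℝ => K * Real.sqrt δ) (𝓝 0) (𝓝 (K * Real.sqrt 0)) :=
    (continuous_const.mul Real.continuous_sqrt).tendsto 0
  rw [Real.sqrt_zero, mul_zero] at this
  exact (this.mono_left nhdsWithin_le_nhds).eventually (ge_mem_nhds hε)

/-- The reference part of the boundary data. -/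
lemma msap_ref {γ δ M₀ σ : ℝ} (hγ : 1 ≤ γ) (hσ : σ ≤ 0) (hδ : 0 < δ) {k : ℝ → ℝ}
    (hk : ContDiff ℝ (⊤ : ℕ∞) k) (hM : ∀ t ∈ Icc (0 : ℝ) 2, |k t| ≤ M₀) :
    SC (fun t => rp δ δ t * cut (γ * t) * k t) ∧
      Bd γ w1 σ (spec γ fun t => rp δ δ t * cut (γ * t) * k t) (3 * M₀ * Real.sqrt (2 / γ)) := by
  have hγ0 : 0 < γ := lt_of_lt_of_le one_pos hγ
  have hs : SC (fun t => rp δ δ t * cut (γ * t) * k t) :=
    (SC.mul_left (rp_contDiff δ δ) (sc_cut_scale hγ0)).mul_right hk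
  have hM0 : 0 ≤ M₀ := (abs_nonneg _).trans (hM 0 ⟨le_rfl, by norm_num⟩)
  refine ⟨hs, ?_⟩
  have := bd_short (a := 0) (b := 2 / γ) hγ hσ hs hM0
    (div_nonpos_of_nonpos_of_nonneg (by norm_num) hγ0.le) (by positivity) ?_ ?_
  · rwa [sub_zero] at this
  · intro t ht
    rw [mem_Icc, not_and_or, not_le, not_le] at ht
    rcases ht with ht | ht
    · rw [rp_zero hδ (by linarith)]; ring
    · rw [cut_zero (t := γ * t)]
      · ring
      · rw [div_lt_iff₀ hγ0] at ht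
        exact (by linarith : 2 ≤ γ * t).trans (le_abs_self _)
  · intro t ht
    have h2 : t ≤ 2 := ht.2.trans (div_le_self (by norm_num) hγ)
    have r := rp_mem δ δ t
    have c := cut_mem (γ * t)
    rw [abs_mul, abs_mul, abs_of_nonneg r.1, abs_of_nonneg c.1]
    calc rp δ δ t * cut (γ * t) * |k t| ≤ 1 * 1 * M₀ := by
          have := hM t ⟨ht.1, h2⟩
          have r1 := r.1
          have r2 := r.2
          have c1 := c.1
          have c2 := c.2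
          gcongr
      _ = M₀ := by ring

theorem msap_main {L : ℝ} (hL : 0 < L) {P : BC} (hP : P.Valid) {R : ℝ} (hR : 0 ≤ R) {ρ : ℝ}
    (hρ : 0 < ρ) :
    ∃ η > 0, ∃ C > 0, ∀ (w₀ : ℝ → ℝ) (h₀ : Fin 3 → ℝ → ℝ), SmI L w₀ → wn L P w₀ ≤ R →
      (∀ i, ContDiff ℝ (⊤ : ℕ∞) (h₀ i)) →
      ∃ Ts > 0, ∀ T' ∈ Ioc 0 Ts, ∀ u w u' w', Near L P T' η w₀ h₀ u w →
        Near L P T' η w₀ h₀ u' w' → ∀ D, 0 ≤ D → wn L P (fun x => w x - w' x) ≤ D →
        (∀ i, bn (P.σ i) T' (fun t => bop L P u i t - bop L P u' i t) ≤ ENNReal.ofReal D) →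
        ∀ T₁ ∈ Ioo 0 T', ∀ ε > 0, ∀ᶠ δ in 𝓝[>] (0 : ℝ),
          (∀ x ∈ Icc 0 L, ∫ t in (2 * δ)..T₁, u x t ^ 2 ≤ ρ ^ 2) ∧
          ∀ t ∈ Icc (2 * δ) T₁, hNorm (-1) (Ioo 0 L)
            (ofFun L (fun x => u x t) - ofFun L fun x => u' x t) ≤
              ENNReal.ofReal (C * (D + ε)) := by
  set κ : ℝ := 4 * (R + 1) ^ 2 + 1 with hκ
  have hκ0 : 0 < κ := by positivity
  obtain ⟨A, hApos, hA⟩ := exists_cut_const
  obtain ⟨η₀, hη₀, hη₀1, hev⟩ := exists_smal hL κ P hApos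
  obtain ⟨Cr, hCr, hric⟩ := ric_wn hL P κ (R + 1)
  obtain ⟨Ce, hCe, hext⟩ := ext_ap
  set Qb : ℝ := R + 1 + (Real.sqrt L + 2) * (κ + κ ^ 2 * L) with hQb
  have hQb0 : 0 ≤ Qb := by positivity
  set η₁ : ℝ := min η₀ (ρ / 600) with hη₁
  have hη₁0 : 0 < η₁ := lt_min hη₀ (by positivity)
  have hη₁1 : η₁ ≤ 1 := (min_le_left _ _).trans hη₀1
  set η : ℝ := min 1 (η₁ / (2 * (21 * Ce + 1800 * Cr + 1))) with hη
  have hη0 : 0 < η := lt_min one_pos (by positivity)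
  have hη1 : η ≤ 1 := min_le_left _ _
  have hηb : (21 * Ce + 1800 * Cr) * η ≤ η₁ / 2 := by
    have h1 : η ≤ η₁ / (2 * (21 * Ce + 1800 * Cr + 1)) := min_le_right _ _
    rw [le_div_iff₀ (by positivity)] at h1
    nlinarith
  set K₁ : ℝ := 42 * (1 + Real.sqrt L * (6 * (6 * Qb + 20 * (1 + L) * 5))) * 3 with hK₁
  set K₂ : ℝ := 6 * Cr + 80 * (1 + L) * (7 * Ce + 1926 * Cr) with hK₂
  have hK₁0 : 0 < K₁ := by positivity
  have hK₂0 : 0 ≤ K₂ := by positivity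
  refine ⟨η, hη0, K₁ * (K₂ + 1), by positivity, fun w₀ h₀ hw₀ hw₀R hh₀ => ?_⟩
  have hκR : 4 * (R + 1) ^ 2 < κ := by rw [hκ]; linarith
  have hw₀n : nL L w₀ ≤ R + 1 := ((nL_le_wn L P w₀).trans hw₀R).trans (by linarith)
  obtain ⟨q₀, hq₀⟩ := ric_exists hL hw₀ hw₀n hκR
  obtain ⟨B, hB⟩ : ∃ B, ∀ x ∈ Icc 0 L, |q₀ x| ≤ B ∧ |dI L q₀ x| ≤ B := by
    obtain ⟨B₁, h₁⟩ := isCompact_Icc.exists_bound_of_continuousOn hq₀.sm.cont
    obtain ⟨B₂, h₂⟩ := isCompact_Icc.exists_bound_of_continuousOn (hq₀.sm.dI hL).cont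
    exact ⟨max B₁ B₂, fun x hx => ⟨(h₁ x hx).trans (le_max_left _ _),
      (h₂ x hx).trans (le_max_right _ _)⟩⟩
  have hB0 : 0 ≤ B := (abs_nonneg _).trans (hB 0 ⟨le_rfl, hL.le⟩).1
  have hk : ∀ i, ContDiff ℝ (⊤ : ℕ∞) fun t => κ ^ 2 * P.c i - h₀ i t / 6 := fun i =>
    contDiff_const.sub ((hh₀ i).div_const 6)
  obtain ⟨M₀, hM₀⟩ : ∃ M₀, ∀ i, ∀ t ∈ Icc (0 : ℝ) 2, |κ ^ 2 * P.c i - h₀ i t / 6| ≤ M₀ := by
    have : ∀ i, ∃ M, ∀ t ∈ Icc (0 : ℝ) 2, |κ ^ 2 * P.c i - h₀ i t / 6| ≤ M := fun i =>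
      isCompact_Icc.exists_bound_of_continuousOn (hk i).continuous.continuousOn
    choose M hM using this
    exact ⟨∑ i, |M i|, fun i t ht => (hM i t ht).trans ((le_abs_self _).trans
      (Finset.single_le_sum (f := fun i => |M i|) (fun i _ => abs_nonneg _) (Finset.mem_univ i)))⟩
  have hM₀0 : 0 ≤ M₀ := (abs_nonneg _).trans (hM₀ 0 0 ⟨le_rfl, by norm_num⟩)
  have t1 : Tendsto (fun γ : ℝ => 126 * M₀ * Real.sqrt (2 / γ) + (126 * Qb + 90 * (2 + L) * B) *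
      aa γ) atTop (𝓝 (126 * M₀ * Real.sqrt 0 + (126 * Qb + 90 * (2 + L) * B) * 0)) :=
    (((Real.continuous_sqrt.tendsto 0).comp (tendsto_const_nhds.div_atTop tendsto_id)).const_mul
      _).add (aa_tendsto.const_mul _)
  have t2 : Tendsto (fun γ : ℝ => 108 * κ ^ 4 / γ) atTop (𝓝 0) :=
    tendsto_const_nhds.div_atTop tendsto_id
  rw [Real.sqrt_zero, mul_zero, mul_zero, add_zero] at t1
  obtain ⟨γ, ⟨hγ, haa, hsm⟩, hγ1, hγ2⟩ := (hev.and ((t1.eventually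
    (ge_mem_nhds (by positivity : 0 < η₁ / 4))).and (t2.eventually
    (ge_mem_nhds (by positivity : 0 < ρ ^ 2 / 2))))).exists
  have hγ0 : 0 < γ := lt_of_lt_of_le one_pos hγ.1
  have hs := hsm η₁ hη₁0 (min_le_left _ _)
  refine ⟨1 / γ, by positivity, fun T' hT' u w u' w' hu hu' D hD hwD hbD T₁ hT₁ ε hε => ?_⟩
  have hwn : ∀ {u w}, Near L P T' η w₀ h₀ u w → wn L P w ≤ R + 1 := by
    intro u w hu
    have := wn_add_le (q := fun x => w x - w₀ x) hL.le P (hu.sm.cont.sub hw₀.cont) hw₀.cont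
    simp only [sub_add_cancel] at this
    have h2 := hu.ini
    exact this.trans (by linarith)
  have hn := (nL_le_wn L P w).trans (hwn hu)
  have hn' := (nL_le_wn L P w').trans (hwn hu')
  obtain ⟨q, hq⟩ := ric_exists hL hu.sm hn hκR
  obtain ⟨q', hq'⟩ := ric_exists hL hu'.sm hn' hκR
  have qb : wn L P q ≤ Qb := (hq.wn_le hL P hu.sm).trans (by have := hwn hu; linarith)
  have qb' : wn L P q' ≤ Qb := (hq'.wn_le hL P hu'.sm).trans (by have := hwn hu'; linarith)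
  have q0 : nL L (fun x => q x - q₀ x) ≤ Cr * η := (nL_le_wn L P _).trans
    ((hric w w₀ q q₀ hu.sm hw₀ hn hw₀n hq hq₀).trans (by gcongr; exact hu.ini))
  have q0' : nL L (fun x => q' x - q₀ x) ≤ Cr * η := (nL_le_wn L P _).trans
    ((hric w' w₀ q' q₀ hu'.sm hw₀ hn' hw₀n hq' hq₀).trans (by gcongr; exact hu'.ini))
  have qq : wn L P (fun x => q x - q' x) ≤ Cr * D :=
    (hric w w' q q' hu.sm hu'.sm hn hn' hq hq').trans (by gcongr)
  obtain ⟨C₁, hC₁, hl₁⟩ := lift hL hP hT'.1 hu.sol hu.der hq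
  obtain ⟨C₂, hC₂, hl₂⟩ := lift hL hP hT'.1 hu'.sol hu'.der hq'
  set ε₁ : ℝ := min (η₁ / 112) (ε / (1120 * (1 + L))) with hε₁
  have hε₁0 : 0 < ε₁ := lt_min (by positivity) (by positivity)
  have hε₁a : 14 * ε₁ ≤ η₁ / 8 := by have : ε₁ ≤ η₁ / 112 := min_le_left _ _; linarith
  have hε₁b : 560 * (1 + L) * ε₁ ≤ ε / 2 := by
    have : ε₁ ≤ ε / (1120 * (1 + L)) := min_le_right _ _
    rw [le_div_iff₀ (by positivity)] at this
    linarith
  have hU := uniqueDiffOn_Icc hT'.1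
  have cb := fun i => contDiffOn_bop hL P hU hu.sol.1 i
  have cb' := fun i => contDiffOn_bop hL P hU hu'.sol.1 i
  have x1 := fun i => msap_eventually (hext (P.σ i) γ T' T₁ η ε₁
    (fun t => bop L P u i t - h₀ i t) (P.σ_mem i).1 (P.σ_mem i).2 hγ.1 hT'.2 hT₁ hη0.le hε₁0
    ((cb i).sub (hh₀ i).contDiffOn) (hu.bdy i))
  have x2 := fun i => msap_eventually (hext (P.σ i) γ T' T₁ (min D (2 * η)) ε₁
    (fun t => bop L P u i t - bop L P u' i t) (P.σ_mem i).1 (P.σ_mem i).2 hγ.1 hT'.2 hT₁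
    (le_min hD (by positivity)) hε₁0 ((cb i).sub (cb' i)) (by
      rcases le_total D (2 * η) with h | h
      · rw [min_eq_left h]; exact hbD i
      · rw [min_eq_right h]
        refine (bn_sub_le (q := h₀ i) (cb i).continuousOn (hh₀ i).continuous.continuousOn
          (cb' i).continuousOn).trans ?_
        have e : bn (P.σ i) T' (fun t => h₀ i t - bop L P u' i t) =
            bn (P.σ i) T' fun t => bop L P u' i t - h₀ i t := by
          unfold bn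
          rw [ofFun_sub (hh₀ i).continuous.continuousOn (cb' i).continuousOn,
            ofFun_sub (cb' i).continuousOn (hh₀ i).continuous.continuousOn, hNorm_sub_comm]
        rw [e, two_mul, ENNReal.ofReal_add hη0.le hη0.le]
        exact add_le_add (hu.bdy i) (hu'.bdy i)))
  have hCm : 0 ≤ C₁ + C₂ := by positivity
  filter_upwards [msap_eventually hl₁, msap_eventually hl₂, eventually_all.2 x1,
    eventually_all.2 x2, msap_sqrt_small ((126 + 90 * L) * (C₁ + C₂)) (by positivity : 0 < η₁ / 8),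
    msap_sqrt_small (3 * (C₁ + C₂)) one_pos,
    msap_sqrt_small (20 * (1 + L) * (4 * (126 + 90 * L) + 3) * (C₁ + C₂)) (half_pos hε),
    Ioo_mem_nhdsGT (half_pos hT₁.1)] with δ hd₁ hd₂ hx1 hx2 s1 s2 s3 hδ
  obtain ⟨Gr, ℓr, hGr, hℓr, bGr, bℓr, hZ⟩ := hd₁
  obtain ⟨Gr', ℓr', hGr', hℓr', bGr', bℓr', hZ'⟩ := hd₂
  choose E hE eE bE using hx1
  choose E' hE' eE' bE' using hx2
  have hδ0 := hδ.1
  have h2δ : 2 * δ < T₁ := by linarith [hδ.2]
  have ref := fun i => msap_ref hγ.1 (P.σ_mem i).2 hδ0 (hk i) (hM₀ i)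
  set H : Fin 3 → ℝ → ℝ := fun i t =>
    E i t * (-1 / 6) + rp δ δ t * cut (γ * t) * (κ ^ 2 * P.c i - h₀ i t / 6) with hH
  set H' : Fin 3 → ℝ → ℝ := fun i t => H i t + E' i t * (1 / 6) with hH'
  have sE := fun i => (hE i).mul_right (contDiff_const (c := (-1 / 6 : ℝ)))
  have sE' := fun i => (hE' i).mul_right (contDiff_const (c := (1 / 6 : ℝ)))
  have sH : ∀ i, SC (H i) := fun i => (sE i).add (ref i).1
  have sH' : ∀ i, SC (H' i) := fun i => (sH i).add (sE' i)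
  have hsq : 0 ≤ 3 * M₀ * Real.sqrt (2 / γ) := by positivity
  have scal : ∀ (i : Fin 3) (F : ℝ → ℝ) (c a : ℝ), |a| = 1 / 6 →
      Bd γ w1 (P.σ i) (spec γ F) c → Bd γ w1 (P.σ i) (spec γ fun t => F t * a) (c / 6) := by
    intro i F c a ha h
    have e : (spec γ fun t => F t * a) = fun τ => (a : ℂ) * spec γ F τ :=
      funext (spec_mul_const γ F a)
    rw [e]
    refine (h.const_mul a).mono (le_of_eq ?_)
    rw [Complex.norm_real, Real.norm_eq_abs, ha]; ring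
  have bH₀ : ∀ i, Bd γ w1 (P.σ i) (spec γ (H i))
      ((Ce * η + ε₁) / 6 + 3 * M₀ * Real.sqrt (2 / γ)) := by
    intro i
    have e : spec γ (H i) = fun τ => spec γ (fun t => E i t * (-1 / 6)) τ + spec γ
        (fun t => rp δ δ t * cut (γ * t) * (κ ^ 2 * P.c i - h₀ i t / 6)) τ :=
      funext (spec_add γ (sE i) (ref i).1)
    rw [e]
    exact Bd.add hγ0 adm_w1 (rd_spec γ (sE i)).aesm (rd_spec γ (ref i).1).aesm (by positivity) hsq
      (scal i _ _ _ (by norm_num [abs_of_neg]) (bE i)) (ref i).2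
  have hmin0 : 0 ≤ min D (2 * η) := le_min hD (by positivity)
  set b : ℝ := (3 * Ce * η + 2 * ε₁) / 6 + 3 * M₀ * Real.sqrt (2 / γ) with hb
  have hb0 : 0 ≤ b := by positivity
  have bH : ∀ i, Bd γ w1 (P.σ i) (spec γ (H i)) b := fun i => (bH₀ i).mono (by
    have : 0 ≤ Ce * η := by positivity
    rw [hb]; linarith)
  have bH' : ∀ i, Bd γ w1 (P.σ i) (spec γ (H' i)) b := by
    intro i
    have e : spec γ (H' i) = fun τ => spec γ (H i) τ + spec γ (fun t => E' i t * (1 / 6)) τ :=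
      funext (spec_add γ (sH i) (sE' i))
    rw [e]
    refine (Bd.add hγ0 adm_w1 (rd_spec γ (sH i)).aesm (rd_spec γ (sE' i)).aesm (by positivity)
      (by positivity) (bH₀ i) (scal i _ _ _ (by norm_num) (bE' i))).mono ?_
    have : Ce * min D (2 * η) ≤ Ce * (2 * η) := by gcongr; exact min_le_right _ _
    rw [hb]; linarith
  have bHd : ∀ i, Bd γ w1 (P.σ i) (spec γ fun t => E' i t * (-1 / 6)) ((Ce * D + ε₁) / 6) := by
    intro i
    refine (scal i _ _ _ (by norm_num [abs_of_neg]) (bE' i)).mono ?_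
    have : Ce * min D (2 * η) ≤ Ce * D := by gcongr; exact min_le_left _ _
    linarith
  have hcut : ∀ t ∈ Ioo 0 T₁, cut (γ * t) = 1 := by
    intro t ht
    apply cut_one
    rw [abs_of_nonneg (mul_nonneg hγ0.le ht.1.le)]
    calc γ * t ≤ γ * (1 / γ) := by gcongr; exact (ht.2.trans hT₁.2).le.trans hT'.2
      _ = 1 := by field_simp
  have eH : ∀ i, ∀ t ∈ Ioo 0 T₁, H i t = rp δ δ t * (-bop L P u i t / 6 + κ ^ 2 * P.c i) := by
    intro i t ht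
    simp only [hH, eE i t ht.2.le, hcut t ht]; ring
  have eH' : ∀ i, ∀ t ∈ Ioo 0 T₁, H' i t = rp δ δ t * (-bop L P u' i t / 6 + κ ^ 2 * P.c i) := by
    intro i t ht
    simp only [hH', eH i t ht, eE' i t ht.2.le]; ring
  have zH : ∀ i, ∀ t ≤ 0, H i t = 0 := by
    intro i t ht
    simp only [hH, eE i t (ht.trans hT₁.1.le), rp_zero hδ0 (ht.trans hδ0.le)]; ring
  have zH' : ∀ i, ∀ t ≤ 0, H' i t = 0 := by
    intro i t ht
    simp only [hH', zH i t ht, eE' i t (ht.trans hT₁.1.le), rp_zero hδ0 (ht.trans hδ0.le)]; ring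
  have zX : ∀ t ≤ 0, deriv (rp δ δ) t = 0 := fun t ht =>
    deriv_rp_zero hδ0 fun h => by linarith [h.1]
  have nI : ∀ t ≤ 0, t ∉ Icc δ (2 * δ) := fun t ht h => by linarith [h.1]
  have l1 := msap_lin hL hγ P hδ0 hq.sm hq₀.sm hB hCm hGr hℓr
    (fun x hx t => ⟨(bGr x hx t).1.trans (by linarith), (bGr x hx t).2⟩)
    (fun i t => ⟨(bℓr i t).1.trans (by linarith), (bℓr i t).2⟩) sH hb0 bH
    (G := fun x t => deriv (rp δ δ) t * q x + Gr x t)
    (ℓ := fun i t => H i t - P.dyn i * deriv (rp δ δ) t * q (ept L i) + ℓr i t)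
    (fun _ _ _ => rfl) (fun _ _ => rfl)
  have l2 := msap_lin hL hγ P hδ0 hq'.sm hq₀.sm hB hCm hGr' hℓr'
    (fun x hx t => ⟨(bGr' x hx t).1.trans (by linarith), (bGr' x hx t).2⟩)
    (fun i t => ⟨(bℓr' i t).1.trans (by linarith), (bℓr' i t).2⟩) sH' hb0 bH'
    (G := fun x t => deriv (rp δ δ) t * q' x + Gr' x t)
    (ℓ := fun i t => H' i t - P.dyn i * deriv (rp δ δ) t * q' (ept L i) + ℓr' i t)
    (fun _ _ _ => rfl) (fun _ _ => rfl)
  have l3 := msap_lin hL hγ P hδ0 (q := fun x => q x - q' x) (q₀ := fun _ => 0) (B := 0)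
    (ContDiffOn.sub hq.sm hq'.sm) contDiffOn_const (fun x hx => by simp [dI]) hCm
    (hGr.sub hGr') (fun i => (hℓr i).sub (hℓr' i))
    (fun x hx t => ⟨(abs_sub _ _).trans (add_le_add (bGr x hx t).1 (bGr' x hx t).1),
      fun h => by rw [(bGr x hx t).2 h, (bGr' x hx t).2 h, sub_zero]⟩)
    (fun i t => ⟨(abs_sub _ _).trans (add_le_add (bℓr i t).1 (bℓr' i t).1),
      fun h => by rw [(bℓr i t).2 h, (bℓr' i t).2 h, sub_zero]⟩)
    (fun i => (hE' i).mul_right (contDiff_const (c := (-1 / 6 : ℝ)))) (by positivity) bHd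
    (G := fun x t => (deriv (rp δ δ) t * q x + Gr x t) - (deriv (rp δ δ) t * q' x + Gr' x t))
    (ℓ := fun i t => (H i t - P.dyn i * deriv (rp δ δ) t * q (ept L i) + ℓr i t) -
      (H' i t - P.dyn i * deriv (rp δ δ) t * q' (ept L i) + ℓr' i t))
    (fun _ _ _ => by ring) (fun i t => by simp only [hH']; ring)
  have ha0 := aa_nonneg γ
  have lin : ∀ {q : ℝ → ℝ}, wn L P q ≤ Qb → nL L (fun x => q x - q₀ x) ≤ Cr * η →
      42 * (b + 3 * wn L P q * aa γ + 3 * (C₁ + C₂) * Real.sqrt δ) +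
        30 * (60 * nL L (fun x => q x - q₀ x) + 3 * (2 + L) * B * aa γ
          + L * (3 * (C₁ + C₂) * Real.sqrt δ)) ≤ η₁ := by
    intro q h1 h2
    have h3 : wn L P q * aa γ ≤ Qb * aa γ := by gcongr
    rw [hb]
    linarith
  have hnq : nL L (fun x => q x - q' x) ≤ Cr * D := (nL_le_wn L P _).trans qq
  set d : ℝ := (7 * Ce + 1926 * Cr) * D + 7 * ε₁ + (126 + 90 * L) * (C₁ + C₂) * Real.sqrt δ
    with hd
  have hneg : -1 / γ ≤ δ := (div_nonpos_of_nonpos_of_nonneg (by norm_num) hγ0.le).trans hδ0.le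
  have main := msap_pair (t₁ := 2 * δ) (T₁ := T₁) (u := u) (u' := u') hL hP hγ (hA γ hγ0) hs haa
    (by positivity) h2δ (hT₁.2.le.trans hT'.2) (sc_deriv_rp hδ0 δ)
    (integral_deriv_rp_le hγ0 hδ0 hneg) hq.sm hq'.sm hGr hGr' rfl rfl l1.1 l2.1
    (fun x hx t ht => by rw [zX t ht, (bGr x hx t).2 (nI t ht)]; ring)
    (fun i t ht => by rw [zH i t ht, zX t ht, (bℓr i t).2 (nI t ht)]; ring)
    (fun x hx t ht => by rw [zX t ht, (bGr' x hx t).2 (nI t ht)]; ring)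
    (fun i t ht => by rw [zH' i t ht, zX t ht, (bℓr' i t).2 (nI t ht)]; ring)
    (l1.2.2.mono (lin qb q0)) (l2.2.2.mono (lin qb' q0')) (d := d) (by positivity)
    (l3.2.2.mono (by
      simp only [sub_zero]
      have h3 : wn L P (fun x => q x - q' x) * aa γ ≤ Cr * D * 1 := by gcongr
      rw [hd]
      linarith))
    (by positivity) (by positivity) l1.2.1 l2.2.1 l3.2.1
    (fun Z => hZ T₁ ⟨h2δ, hT₁.2.le⟩ H Z eH) (fun Z => hZ' T₁ ⟨h2δ, hT₁.2.le⟩ H' Z eH')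
    ((nL_le_wn L P q).trans qb) ((nL_le_wn L P q').trans qb')
  refine ⟨fun x hx => (main.1 x hx).trans ?_, fun t ht => (main.2 t ht).trans
    (ENNReal.ofReal_le_ofReal ?_)⟩
  · have h1 : η₁ ≤ ρ / 600 := min_le_right _ _
    have h2 : η₁ ^ 2 ≤ (ρ / 600) ^ 2 := by gcongr
    have h3 : η₁ ^ 4 ≤ η₁ ^ 2 := pow_le_pow_of_le_one hη₁0.le hη₁1 (by norm_num)
    have h4 : 108 * (κ ^ 4 / γ) = 108 * κ ^ 4 / γ := by ring
    have h5 := sq_nonneg ρ
    linarith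
  · have hsL := Real.sqrt_nonneg L
    have g1 : 42 * (1 + Real.sqrt L * (6 * (6 * Qb + 20 * (1 + L) *
        (4 * η₁ + 3 * (C₁ + C₂) * Real.sqrt δ)))) * 3 ≤ K₁ := by
      rw [hK₁]; gcongr; linarith
    have g2 : 6 * nL L (fun x => q x - q' x) + 20 * (1 + L) *
        (4 * d + 3 * (C₁ + C₂) * Real.sqrt δ) ≤ (K₂ + 1) * (D + ε) := by
      have : 0 ≤ K₂ * ε := by positivity
      rw [hd]
      rw [hK₂] at this ⊢
      have h6 : (1 + L) * nL L (fun x => q x - q' x) ≥ 0 :=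
        mul_nonneg (by positivity) (nL_nonneg _ _)
      linarith
    have g3 : 0 ≤ 6 * nL L (fun x => q x - q' x) + 20 * (1 + L) *
        (4 * d + 3 * (C₁ + C₂) * Real.sqrt δ) := by
      have := nL_nonneg L fun x => q x - q' x
      positivity
    calc _ = (42 * (1 + Real.sqrt L * (6 * (6 * Qb + 20 * (1 + L) *
          (4 * η₁ + 3 * (C₁ + C₂) * Real.sqrt δ)))) * 3) * (6 * nL L (fun x => q x - q' x) +
          20 * (1 + L) * (4 * d + 3 * (C₁ + C₂) * Real.sqrt δ)) := by ring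
      _ ≤ K₁ * ((K₂ + 1) * (D + ε)) := by gcongr
      _ = _ := by ring

end Pool.Agent.Lib.MP_14aec4_an.W
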