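import Pool.Agent.Lib.MP_14aec4_an.Traces

/-!
Ill-posedness below `H^{-1}`.
-/

noncomputable section

open MeasureTheory Set Filter Topology
open scoped ENNReal Real

namespace Pool.Agent.Lib.MP_14aec4_an

lemma Small.congr {σ a : ℝ} {g₁ g₂ : ℕ → ℝ → ℝ} (h : Small σ a g₁)
    (he : ∀ n, ∀ x ∈ Icc 0 a, g₂ n x = g₁ n x) : Small σ a g₂ := by
  refine ⟨fun n => (h.1 n).congr (he n), h.2.congr fun n => ?_⟩
  exact NN_congr fun x hx => (he n x (Ioo_subset_Icc_self hx)).symm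

lemma realOn_ofFun (W : Set ℝ) (a : ℝ) (g : ℝ → ℝ) : RealOn W a (ofFun a g) := by
  intro ψ _
  constructor
  · intro hψ
    unfold ofFun
    have : (fun x => ψ x * (g x : ℂ)) = fun x => (((ψ x).re * g x : ℝ) : ℂ) := by
      ext x
      apply Complex.ext <;> simp [hψ x]
    rw [this, integral_complex_ofReal, Complex.ofReal_im]
  · intro hψ
    unfold ofFun
    apply setIntegral_eq_zero_of_forall_eq_zero
    intro x hx
    have : ψ x = 0 := by
      by_contra h0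
      exact Set.disjoint_left.1 hψ (subset_tsupport _ h0) (Ioo_subset_Icc_self hx)
    rw [this, zero_mul]

lemma hNorm_ofFun_lt_top {σ a : ℝ} (hσ : σ ≤ 0) (W : Set ℝ) {g : ℝ → ℝ}
    (hg : ContinuousOn g (Icc 0 a)) : hNorm σ W (ofFun a g) < ⊤ := by
  have := hNorm_le_NN (σ := -σ) (by linarith) W hg (ofFun a g) (fun _ _ => rfl)
  rw [neg_neg] at this
  exact this.trans_lt ENNReal.ofReal_lt_top

lemma ofFun_restrict {T' T : ℝ} (hT : T' ≤ T) (g : ℝ → ℝ) (ψ : SchwartzMap ℝ ℂ)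
    (hψ : tsupport ψ ⊆ Iio T') : ofFun T' g ψ = ofFun T g ψ := by
  unfold ofFun
  symm
  apply setIntegral_eq_of_subset_of_forall_sdiff_eq_zero measurableSet_Ioo
    (Ioo_subset_Ioo_right hT)
  intro x hx
  have : ψ x = 0 := by
    by_contra h0
    exact hx.2 ⟨hx.1.1, hψ (subset_tsupport _ h0)⟩
  rw [this, zero_mul]

lemma bdry_small {L T s : ℝ} (hL : 0 < L) (hT : 0 < T) (hs : s < -1) (a b : ℕ → ℕ → ℝ)
    {m : ℕ → ℝ} (hm : ∀ n, 2 ≤ m n) (hmt : Tendsto m atTop atTop)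
    (hsin : ∀ n, Real.sin (m n * L) = 0) (k : Fin 4) (i : Fin 3) :
    Small (-((s + 1 - (![![0, 0, 1], ![0, 1, 2], ![2, 0, 1], ![2, 1, 2]] k i : ℝ)) / 3)) T
      (fun n => bdry L a b k (ev pU0 (m n)) i) := by
  have h0 : (0 : ℝ) ∈ Icc 0 L := ⟨le_rfl, hL.le⟩
  have hLL : L ∈ Icc 0 L := ⟨hL.le, le_rfl⟩
  have T0 : ∀ {σ y : ℝ}, 0 < σ → y ∈ Icc 0 L → Small σ T
      (fun n t => iteratedDerivWithin 0 (fun x => ev pU0 (m n) x t) (Icc 0 L) y) :=
    fun hσ hy => (small_tr0 hT hσ hy.1 hm hmt).congr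
      fun n t ht => (trace_eq (hm n) hL hy ht.1).1
  have T1 : ∀ {σ y : ℝ}, 1 / 3 < σ → y ∈ Icc 0 L → Small σ T
      (fun n t => iteratedDerivWithin 1 (fun x => ev pU0 (m n) x t) (Icc 0 L) y) :=
    fun hσ hy => (small_tr1 hT hσ hy.1 hm hmt).congr
      fun n t ht => (trace_eq (hm n) hL hy ht.1).2.1
  have T2 : ∀ {σ y : ℝ}, 2 / 3 < σ → y ∈ Icc 0 L → (∀ n, Real.sin (m n * y) = 0) → Small σ T
      (fun n t => iteratedDerivWithin 2 (fun x => ev pU0 (m n) x t) (Icc 0 L) y) :=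
    fun hσ hy hsy => (small_tr2 hT hσ hy.1 hm hmt hsy).congr
      fun n t ht => (trace_eq (hm n) hL hy ht.1).2.2
  have hsin0 : ∀ n, Real.sin (m n * 0) = 0 := by simp
  have s0 : 0 < -((s + 1 - 0) / 3) := by linarith
  have s1 : 1 / 3 < -((s + 1 - 1) / 3) := by linarith
  have s10 : 0 < -((s + 1 - 1) / 3) := by linarith
  have s2 : 2 / 3 < -((s + 1 - 2) / 3) := by linarith
  have s21 : 1 / 3 < -((s + 1 - 2) / 3) := by linarith
  have s20 : 0 < -((s + 1 - 2) / 3) := by linarith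
  fin_cases k <;> fin_cases i
  · exact T0 s0 h0
  · exact T0 s0 hLL
  · exact T1 s1 hLL
  · exact T0 s0 h0
  · exact (T1 s1 hLL).add hT.le s10.le ((T0 s10 hLL).const_mul hT.le _)
  · exact ((T2 s2 hLL hsin).add hT.le s20.le ((T1 s21 h0).const_mul hT.le _)).add hT.le s20.le
      ((T0 s20 hLL).const_mul hT.le _)
  · exact ((T2 s2 h0 hsin0).add hT.le s20.le ((T0 s20 h0).const_mul hT.le _)).add hT.le s20.le
      ((T1 s21 h0).const_mul hT.le _)
  · exact T0 s0 hLL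
  · exact (T1 s1 hLL).add hT.le s10.le ((T0 s10 h0).const_mul hT.le _)
  · exact (((T2 s2 h0 hsin0).add hT.le s20.le ((T0 s20 h0).const_mul hT.le _)).add hT.le s20.le
      ((T1 s21 h0).const_mul hT.le _)).add hT.le s20.le ((T0 s20 hLL).const_mul hT.le _)
  · exact ((T1 s1 hLL).add hT.le s10.le ((T0 s10 h0).const_mul hT.le _)).add hT.le s10.le
      ((T0 s10 hLL).const_mul hT.le _)
  · exact (((T2 s2 hLL hsin).add hT.le s20.le ((T0 s20 h0).const_mul hT.le _)).add hT.le s20.le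
      ((T1 s21 h0).const_mul hT.le _)).add hT.le s20.le ((T0 s20 hLL).const_mul hT.le _)

lemma ord_nonneg (k : Fin 4) (i : Fin 3) :
    (0 : ℝ) ≤ (![![0, 0, 1], ![0, 1, 2], ![2, 0, 1], ![2, 1, 2]] k i : ℝ) := by
  fin_cases k <;> fin_cases i <;> simp

/-- A smooth solution, viewed as a curve in `H^s(0, L)`, is continuous. -/
lemma curve_continuous {s L T : ℝ} (hs : s ≤ 0) (hL : 0 < L) {u : ℝ → ℝ → ℝ}
    (hu : ContinuousOn (fun p : ℝ × ℝ => u p.1 p.2) (Icc 0 L ×ˢ Icc 0 T)) {t : ℝ}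
    (ht : t ∈ Icc 0 T) :
    Tendsto (fun τ => hNorm s (Ioo 0 L) (ofFun L (fun x => u x τ) - ofFun L (fun x => u x t)))
      (𝓝[Icc 0 T] t) (𝓝 0) := by
  have hx : ∀ τ ∈ Icc 0 T, ContinuousOn (fun x => u x τ) (Icc 0 L) := fun τ hτ =>
    hu.comp (f := fun x : ℝ => ((x, τ) : ℝ × ℝ)) (by fun_prop) (fun x hx => ⟨hx, hτ⟩)
  have huc := (isCompact_Icc.prod isCompact_Icc).uniformContinuousOn_of_continuous hu
  rw [Metric.uniformContinuousOn_iff] at huc
  rw [ENNReal.tendsto_nhds_zero]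
  intro ε hε
  obtain ⟨η, hη, hηε⟩ : ∃ η : ℝ, 0 < η ∧ ENNReal.ofReal (Real.sqrt (η ^ 2 * L)) ≤ ε := by
    rcases eq_or_ne ε ⊤ with rfl | hne
    · exact ⟨1, one_pos, le_top⟩
    · have hpos : 0 < ε.toReal := ENNReal.toReal_pos hε.ne' hne
      have hsL : 0 < Real.sqrt L := Real.sqrt_pos.2 hL
      refine ⟨ε.toReal / Real.sqrt L, by positivity, le_of_eq ?_⟩
      rw [div_pow, Real.sq_sqrt hL.le, div_mul_cancel₀ _ hL.ne', Real.sqrt_sq hpos.le,
        ENNReal.ofReal_toReal hne]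
  obtain ⟨δ, hδ, hδη⟩ := huc η hη
  have hev : ∀ᶠ τ in 𝓝[Icc 0 T] t, τ ∈ Icc 0 T ∧ dist τ t < δ :=
    Filter.Eventually.and self_mem_nhdsWithin
      (mem_nhdsWithin_of_mem_nhds (Metric.ball_mem_nhds t hδ))
  filter_upwards [hev] with τ hτ
  have hc := (hx τ hτ.1).sub (hx t ht)
  have h1 := hNorm_le_NN (σ := -s) (by linarith) (Ioo 0 L) hc
    (ofFun L (fun x => u x τ) - ofFun L (fun x => u x t))
    (fun ψ _ => ofFun_sub (hx τ hτ.1) (hx t ht) ψ)
  rw [neg_neg] at h1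
  refine h1.trans (le_trans (ENNReal.ofReal_le_ofReal (Real.sqrt_le_sqrt ?_)) hηε)
  refine (NN_le_L2 hL.le (by linarith) hc).trans (integral_le_const hL.le (hc.pow 2) ?_)
  intro x hx'
  have := hδη (x, τ) ⟨hx', hτ.1⟩ (x, t) ⟨hx', ht⟩ (by simpa [Prod.dist_eq, hδ] using hτ.2)
  rw [Real.dist_eq] at this
  simp only [Pi.sub_apply]
  rw [← sq_abs]
  exact pow_le_pow_left₀ (abs_nonneg _) this.le 2

lemma exists_bump {L : ℝ} (hL : 0 < L) : ∃ ψ : SchwartzMap ℝ ℂ, tsupport ψ ⊆ Ioo 0 L ∧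
    ofFun L (fun x => -12 * ((x + 2)⁻¹) ^ 2) ψ ≠ 0 := by
  let χ : ContDiffBump (L / 2) := ⟨L / 8, L / 4, by positivity, by linarith⟩
  have hg₁ : HasCompactSupport (Complex.ofRealCLM ∘ χ) := χ.hasCompactSupport.comp_left rfl
  have hg₂ : ContDiff ℝ (⊤ : ℕ∞) (Complex.ofRealCLM ∘ χ) :=
    Complex.ofRealCLM.contDiff.comp χ.contDiff
  refine ⟨hg₁.toSchwartzMap hg₂, ?_, ?_⟩
  · have h1 : tsupport (Complex.ofRealCLM ∘ χ) ⊆ tsupport χ :=
      closure_mono (Function.support_comp_subset rfl _)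
    refine h1.trans ?_
    rw [χ.tsupport_eq, Real.closedBall_eq_Icc]
    apply Icc_subset_Ioo
    · change 0 < L / 2 - L / 4; linarith
    · change L / 2 + L / 4 < L; linarith
  · unfold ofFun
    have e : (fun x => (hg₁.toSchwartzMap hg₂) x * ((-12 * ((x + 2)⁻¹) ^ 2 : ℝ) : ℂ)) =
        fun x => ((-(χ x * (12 * ((x + 2)⁻¹) ^ 2)) : ℝ) : ℂ) := by
      ext x
      change ((χ x : ℝ) : ℂ) * _ = _
      push_cast; ring
    rw [e, integral_complex_ofReal, Complex.ofReal_ne_zero, integral_neg, neg_ne_zero]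
    have hinv : ContinuousOn (fun x : ℝ => (x + 2)⁻¹) (Icc 0 L) := by
      apply ContinuousOn.inv₀ (by fun_prop)
      intro x hx; linarith [hx.1]
    have hc : ContinuousOn (fun x => χ x * (12 * ((x + 2)⁻¹) ^ 2)) (Icc 0 L) := by
      have := χ.continuous
      fun_prop
    rw [← integral_Ioc_eq_integral_Ioo, ← intervalIntegral.integral_of_le hL.le]
    apply ne_of_gt
    apply intervalIntegral.integral_pos hL hc
    · intro x _
      have := χ.nonneg (x := x)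
      positivity
    · refine ⟨L / 2, ⟨by linarith, by linarith⟩, ?_⟩
      have : χ (L / 2) = 1 := χ.one_of_mem_closedBall (Metric.mem_closedBall_self χ.rIn_pos.le)
      rw [this]
      positivity

theorem not_wellPosed (W V : Set ℝ) {s L T : ℝ} (hs : s < -1) (hL : 0 < L) (hT : 0 < T)
    (a b : ℕ → ℕ → ℝ) (k : Fin 4) : ¬ StableAtAllData W V s L T a b k := by
  intro hWP
  -- the frequencies
  set m : ℕ → ℝ := fun n => ((n + ⌈L⌉₊ : ℕ) : ℝ) * π / L with hmdef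
  have hm : ∀ n, 2 ≤ m n := by
    intro n
    simp only [hmdef]
    rw [le_div_iff₀ hL]
    have h1 : L ≤ ((n + ⌈L⌉₊ : ℕ) : ℝ) := by
      push_cast
      linarith [Nat.le_ceil L, (Nat.cast_nonneg n : (0 : ℝ) ≤ n)]
    nlinarith [Real.pi_gt_three]
  have hmt : Tendsto m atTop atTop :=
    ((tendsto_natCast_atTop_atTop.comp (tendsto_add_atTop_nat _)).atTop_mul_const
      Real.pi_pos).atTop_div_const hL
  have hsin : ∀ n, Real.sin (m n * L) = 0 := by
    intro n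
    simp only [hmdef]
    rw [div_mul_cancel₀ _ hL.ne']
    exact Real.sin_nat_mul_pi _
  set φ : ℝ → ℝ := fun x => -12 * ((x + 2)⁻¹) ^ 2 with hφ
  have hφc : ContinuousOn φ (Icc 0 L) := by
    have hinv : ContinuousOn (fun x : ℝ => (x + 2)⁻¹) (Icc 0 L) := by
      apply ContinuousOn.inv₀ (by fun_prop)
      intro x hx; linarith [hx.1]
    rw [hφ]; fun_prop
  have hσ : ∀ i, (s + 1 - (![![0, 0, 1], ![0, 1, 2], ![2, 0, 1], ![2, 1, 2]] k i : ℝ)) / 3 ≤ 0 :=
    fun i => by linarith [ord_nonneg k i]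
  have hB := bdry_small hL hT hs a b hm hmt hsin k
  have hI : Small (-s) L (fun n x => ev pU0 (m n) x 0 - φ x) := by
    have := small_init (δ := -s - 1) hL (by linarith) hm hmt hsin
    rwa [show 1 + (-s - 1) = -s by ring] at this
  -- the data
  set d : (SchwartzMap ℝ ℂ → ℂ) × (Fin 3 → SchwartzMap ℝ ℂ → ℂ) := (ofFun L φ, 0) with hd
  set e : ℕ → (SchwartzMap ℝ ℂ → ℂ) × (Fin 3 → SchwartzMap ℝ ℂ → ℂ) := fun n =>
    (ofFun L (fun x => ev pU0 (m n) x 0), fun i => ofFun T (bdry L a b k (ev pU0 (m n)) i))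
    with he
  have hdD : IsData W V s L T k d := by
    refine ⟨?_, realOn_ofFun _ _ _, fun i ψ _ => ⟨fun _ => rfl, fun _ => rfl⟩⟩
    unfold dataNorm
    rw [Finset.sum_eq_zero (fun i _ => hNorm_eq_zero _ _ (d.2 i) (fun _ _ => rfl)), add_zero]
    exact hNorm_ofFun_lt_top (by linarith) W hφc
  have heD : ∀ n, IsData W V s L T k (e n) := by
    intro n
    refine ⟨?_, realOn_ofFun _ _ _, fun i => realOn_ofFun _ _ _⟩
    unfold dataNorm
    rw [ENNReal.add_lt_top, ENNReal.sum_lt_top]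
    exact ⟨hNorm_ofFun_lt_top (by linarith) W (sm_U0.contX (hm n) le_rfl),
      fun i _ => hNorm_ofFun_lt_top (hσ i) _ ((hB i).1 n)⟩
  have hI' : ∀ W' : Set ℝ, Tendsto (fun n => hNorm s W'
      (ofFun L (fun x => ev pU0 (m n) x 0) - ofFun L φ)) atTop (𝓝 0) := by
    intro W'
    have := hI.tendsto (by linarith) W'
      (fun n => ofFun L (fun x => ev pU0 (m n) x 0) - ofFun L φ)
      (fun n ψ _ => ofFun_sub (sm_U0.contX (hm n) le_rfl) hφc ψ)
    rwa [neg_neg] at this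
  have hed : Tendsto (fun n => dataNorm W V s T k (e n - d)) atTop (𝓝 0) := by
    unfold dataNorm
    have h2 : ∀ i, Tendsto (fun n => hNorm
        ((s + 1 - (![![0, 0, 1], ![0, 1, 2], ![2, 0, 1], ![2, 1, 2]] k i : ℝ)) / 3) (V ∩ Iio T)
        ((e n - d).2 i)) atTop (𝓝 0) := by
      intro i
      have := (hB i).tendsto (by linarith [hσ i]) (V ∩ Iio T) (fun n => (e n - d).2 i)
        (fun n ψ _ => by simp [he, hd])
      rwa [neg_neg] at this
    have := (hI' W).add (tendsto_finsetSum Finset.univ (fun i _ => h2 i))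
    simpa using this
  obtain ⟨T', hT', U, hU, hcont⟩ := hWP d hdD
  -- the positons are solutions on `[0, T']`
  have hsol : ∀ n, IsSol W V s L T' a b k (e n) (fun t => ofFun L (fun x => ev pU0 (m n) x t)) := by
    intro n
    refine ⟨fun t ht => ⟨hNorm_ofFun_lt_top (by linarith) _ (sm_U0.contX (hm n) ht.1),
      curve_continuous (by linarith) hL (positon_smoothSol (hm n) L T').1.continuousOn ht⟩,
      fun _ => ev pU0 (m n), fun _ => positon_smoothSol (hm n) L T', ?_, ?_⟩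
    · have : dataNorm W V s T' k ((ofFun L (fun x => ev pU0 (m n) x 0),
          fun i => ofFun T' (bdry L a b k (ev pU0 (m n)) i)) - e n) = 0 := by
        unfold dataNorm
        rw [Finset.sum_eq_zero (fun i _ => hNorm_eq_zero _ _ _ (fun ψ hψ => ?_)), add_zero]
        · exact hNorm_eq_zero _ _ _ (fun ψ _ => by simp [he])
        · simp only [he, Prod.snd_sub, Pi.sub_apply]
          rw [ofFun_restrict hT'.2 _ ψ (hψ.trans inter_subset_right), sub_self]
      simp only [this]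
      exact tendsto_const_nhds
    · have : solNorm s L T' ((fun t => ofFun L (fun x => ev pU0 (m n) x t)) -
          (fun t => ofFun L (fun x => ev pU0 (m n) x t))) = 0 := by
        unfold solNorm
        simp only [sub_self, ENNReal.iSup_eq_zero]
        intro t _
        exact hNorm_eq_zero _ _ _ (fun _ _ => rfl)
      simp only [this]
      exact tendsto_const_nhds
  obtain ⟨ψ, hψ, hψ0⟩ := exists_bump hL
  obtain ⟨C, hC, hpair⟩ := pairing_bound s (Ioo 0 L) ψ hψ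
  set μ : ℝ := ‖ofFun L φ ψ‖ with hμ
  have hμ0 : 0 < μ := norm_pos_iff.2 hψ0
  set ε : ℝ := μ / (6 * C) with hε
  have hε0 : 0 < ε := by positivity
  have hεE : 0 < ENNReal.ofReal ε := ENNReal.ofReal_pos.2 hε0
  obtain ⟨δ, hδ, hδε⟩ := hcont _ hεE
  -- a positive time at which `U` is close to `U 0`
  obtain ⟨t, ht, htU⟩ : ∃ t ∈ Ioc 0 T', hNorm s (Ioo 0 L) (U t - U 0) < ENNReal.ofReal ε := by
    have h1 := (hU 0 ⟨le_rfl, hT'.1.le⟩).2
    have h2 := (h1.mono_left (nhdsWithin_mono _ Ioc_subset_Icc_self)).eventually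
      (gt_mem_nhds hεE)
    have : (𝓝[Ioc 0 T'] (0 : ℝ)).NeBot := left_nhdsWithin_Ioc_neBot hT'.1
    obtain ⟨t, h3, h4⟩ := (h2.and self_mem_nhdsWithin).exists
    exact ⟨t, h4, h3⟩
  -- at that time the positons tend to zero
  have hzero : Tendsto (fun n => hNorm s (Ioo 0 L) (ofFun L (fun x => ev pU0 (m n) x t))) atTop
      (𝓝 0) := by
    have hS : Small (-s) L (fun n x => ev pU0 (m n) x t) := by
      refine ⟨fun n => sm_U0.contX (hm n) ht.1.le, ?_⟩
      have hlim : Tendsto (fun n => (60 * t⁻¹ * (m n)⁻¹) ^ 2 * L) atTop (𝓝 0) := by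
        have := (((tendsto_inv_atTop_zero.comp hmt).const_mul (60 * t⁻¹)).pow 2).mul_const L
        simpa using this
      refine squeeze_zero (fun n => NN_nonneg _ _ _) (fun n => ?_) hlim
      have hc := sm_U0.contX (L := L) (hm n) ht.1.le
      refine (NN_le_L2 hL.le (by linarith) hc).trans (integral_le_const hL.le (hc.pow 2) ?_)
      intro x hx
      have h1 := ev_U0 (hm n) hx.1 ht.1.le
      have hM0 : 0 < m n := by linarith [hm n]
      have ht0 := ht.1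
      have q1 : qq (m n) t ≤ (m n ^ 2 * t)⁻¹ := by
        unfold qq
        apply inv_anti₀ (by positivity)
        have : 0 ≤ m n ^ 2 * t := by positivity
        linarith
      have h2 : |ev pU0 (m n) x t| ≤ 60 * t⁻¹ * (m n)⁻¹ := by
        calc _ ≤ 60 * (m n * qq (m n) t) := h1
          _ ≤ 60 * (m n * (m n ^ 2 * t)⁻¹) := by gcongr
          _ = _ := by field_simp
      rw [← sq_abs]
      exact pow_le_pow_left₀ (abs_nonneg _) h2 2
    have := hS.tendsto (by linarith) (Ioo 0 L) _ (fun n ψ _ => rfl)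
    rwa [neg_neg] at this
  obtain ⟨n, hn1, hn2, hn3⟩ := ((hed.eventually (gt_mem_nhds hδ)).and
    (((hI' (Ioo 0 L)).eventually (gt_mem_nhds hεE)).and
      (hzero.eventually (gt_mem_nhds hεE)))).exists
  have hclose := hδε (e n) (heD n) hn1 _ (hsol n)
  have hcl : ∀ τ ∈ Icc 0 T', hNorm s (Ioo 0 L) (ofFun L (fun x => ev pU0 (m n) x τ) - U τ)
      < ENNReal.ofReal ε := by
    intro τ hτ
    refine lt_of_le_of_lt ?_ hclose
    unfold solNorm
    exact le_iSup₂_of_le (f := fun τ (_ : τ ∈ Icc 0 T') => hNorm s (Ioo 0 L)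
      (((fun t => ofFun L (fun x => ev pU0 (m n) x t)) - U) τ)) τ hτ le_rfl
  have p1 := hpair _ ε hε0.le (hcl 0 ⟨le_rfl, hT'.1.le⟩)
  have p2 := hpair _ ε hε0.le (hcl t ⟨ht.1.le, ht.2⟩)
  have p3 := hpair _ ε hε0.le htU
  have p4 := hpair _ ε hε0.le hn2
  have p5 := hpair _ ε hε0.le hn3
  simp only [Pi.sub_apply] at p1 p2 p3 p4
  have key : ofFun L φ ψ = -(ofFun L (fun x => ev pU0 (m n) x 0) ψ - ofFun L φ ψ)
      + (ofFun L (fun x => ev pU0 (m n) x 0) ψ - U 0 ψ) - (U t ψ - U 0 ψ)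
      - (ofFun L (fun x => ev pU0 (m n) x t) ψ - U t ψ) + ofFun L (fun x => ev pU0 (m n) x t) ψ := by
    ring
  have hle : μ ≤ 5 * (C * ε) := by
    rw [hμ, key]
    refine (norm_add_le _ _).trans ?_
    have q1 := norm_sub_le (-(ofFun L (fun x => ev pU0 (m n) x 0) ψ - ofFun L φ ψ)
      + (ofFun L (fun x => ev pU0 (m n) x 0) ψ - U 0 ψ) - (U t ψ - U 0 ψ))
      (ofFun L (fun x => ev pU0 (m n) x t) ψ - U t ψ)
    have q2 := norm_sub_le (-(ofFun L (fun x => ev pU0 (m n) x 0) ψ - ofFun L φ ψ)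
      + (ofFun L (fun x => ev pU0 (m n) x 0) ψ - U 0 ψ)) (U t ψ - U 0 ψ)
    have q3 := norm_add_le (-(ofFun L (fun x => ev pU0 (m n) x 0) ψ - ofFun L φ ψ))
      (ofFun L (fun x => ev pU0 (m n) x 0) ψ - U 0 ψ)
    rw [norm_neg] at q3
    linarith
  have : C * ε = μ / 6 := by rw [hε]; field_simp
  linarith

end Pool.Agent.Lib.MP_14aec4_an
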