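import Pool.Agent.Lib.MP_14aec4_an.Mult0

/-!
Multiplier estimates, Plancherel bounds and pairings.
-/

noncomputable section

open MeasureTheory Set Filter Topology FourierTransform
open scoped ENNReal ComplexConjugate

namespace Pool.Agent.Lib.MP_14aec4_an.W

lemma mult_cont {G : ℝ → ℂ} (h1 : Integrable G) : Continuous (𝓕 G) :=
  VectorFourier.fourierIntegral_continuous Real.continuous_fourierChar
    (continuous_inner (𝕜 := ℝ)) h1

lemma mult_cont_inv {G : ℝ → ℂ} (h1 : Integrable G) : Continuous (𝓕⁻ G) := by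
  have : 𝓕⁻ G = fun t => 𝓕 G (-t) := by
    funext t; exact Real.fourierInv_eq_fourier_neg G t
  rw [this]
  exact (mult_cont h1).comp continuous_neg

lemma mult_swap0 {f g : ℝ → ℂ} (hf : Integrable f) (hg : Integrable g) :
    ∫ ξ, 𝓕 f ξ * g ξ = ∫ x, f x * 𝓕 g x := by
  have := VectorFourier.integral_fourierIntegral_smul_eq_flip (μ := (volume : Measure ℝ))
      (ν := (volume : Measure ℝ)) (L := innerₗ ℝ) (e := Real.fourierChar) (f := f) (g := g)
      Real.continuous_fourierChar (continuous_inner (𝕜 := ℝ)) hf hg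
  rw [flip_innerₗ] at this
  exact this

lemma mult_swap {f g : ℝ → ℂ} (hf : Integrable f) (hg : Integrable g) :
    ∫ t, f t * 𝓕⁻ g t = ∫ τ, 𝓕 f (-τ) * g τ := by
  rw [Real.fourierInv_eq_fourier_comp_neg g, ← mult_swap0 hf hg.comp_neg,
    ← integral_neg_eq_self (fun τ => 𝓕 f (-τ) * g τ)]
  simp only [neg_neg]

lemma mult_conv {m A : ℝ → ℂ} (hm : Integrable m) (hA : Integrable A) (τ : ℝ) :
    𝓕 (fun t => m t * 𝓕⁻ A t) τ = ∫ b, 𝓕 m (τ - b) * A b := by
  have h1 : Integrable fun t : ℝ => Real.fourierChar (-(t * τ)) • m t := by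
    have := (Real.fourierIntegral_convergent_iff (μ := (volume : Measure ℝ)) (f := m) τ).2 hm
    simpa [mul_comm] using this
  rw [Real.fourier_real_eq]
  have h2 : ∀ t : ℝ, Real.fourierChar (-(t * τ)) • (m t * 𝓕⁻ A t)
      = (Real.fourierChar (-(t * τ)) • m t) * 𝓕⁻ A t := by
    intro t
    simp only [Circle.smul_def, smul_eq_mul, mul_assoc]
  simp_rw [h2]
  rw [mult_swap h1 hA]
  congr 1
  funext b
  congr 1
  rw [Real.fourier_real_eq, Real.fourier_real_eq]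
  congr 1
  funext t
  rw [smul_smul, ← AddChar.map_add_eq_mul]
  congr 2
  ring

lemma mult_ind_bound (a b ξ : ℝ) :
    ‖𝓕 ((Icc a b).indicator fun _ : ℝ => (1 : ℂ)) ξ‖ * (Real.pi * |ξ|) ≤ 1 := by
  rcases eq_or_ne ξ 0 with rfl | hξ
  · simp
  rcases lt_or_ge b a with hab | hab
  · rw [Icc_eq_empty (not_le.2 hab)]
    simp [Real.fourier_real_eq]
  rw [Real.fourier_real_eq_integral_exp_smul]
  set c : ℂ := -2 * Real.pi * ξ * Complex.I with hc
  have hcn : ‖c‖ = 2 * (Real.pi * |ξ|) := by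
    rw [hc]
    simp only [norm_mul, norm_neg, Complex.norm_real, Complex.norm_I, Real.norm_eq_abs,
      Complex.norm_ofNat, abs_of_pos Real.pi_pos]
    ring
  have hpos : 0 < Real.pi * |ξ| := mul_pos Real.pi_pos (abs_pos.2 hξ)
  have hc0 : c ≠ 0 := by
    intro h
    rw [h, norm_zero] at hcn
    linarith
  have h1 : (fun v : ℝ => Complex.exp (↑(-2 * Real.pi * v * ξ) * Complex.I) •
      (Icc a b).indicator (fun _ : ℝ => (1 : ℂ)) v)
      = (Icc a b).indicator fun v : ℝ => Complex.exp (c * v) := by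
    funext v
    by_cases hv : v ∈ Icc a b
    · simp only [indicator_of_mem hv, smul_eq_mul, mul_one, hc]
      congr 1
      push_cast
      ring
    · simp [indicator_of_notMem hv]
  rw [h1, integral_indicator measurableSet_Icc, integral_Icc_eq_integral_Ioc,
    ← intervalIntegral.integral_of_le hab, integral_exp_mul_complex hc0, norm_div, hcn]
  have h2 : ∀ v : ℝ, ‖Complex.exp (c * v)‖ = 1 := by
    intro v
    rw [Complex.norm_exp]
    simp [hc]
  have h3 : ‖Complex.exp (c * b) - Complex.exp (c * a)‖ ≤ 2 := by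
    refine (norm_sub_le _ _).trans ?_
    rw [h2, h2]; norm_num
  rw [div_mul_eq_mul_div, div_le_one (by positivity)]
  nlinarith

lemma mult_cube {u v : ℝ} (hu : 0 < u) (hv : 0 < v) :
    |u - v| * (max u v ^ 2 * min u v) ≤ |u ^ 3 - v ^ 3| * min u v := by
  have h1 : |u ^ 3 - v ^ 3| = |u - v| * (u ^ 2 + u * v + v ^ 2) := by
    rw [show u ^ 3 - v ^ 3 = (u - v) * (u ^ 2 + u * v + v ^ 2) by ring, abs_mul,
      abs_of_pos (by positivity : 0 < u ^ 2 + u * v + v ^ 2)]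
  rw [h1, mul_assoc]
  refine mul_le_mul_of_nonneg_left ?_ (abs_nonneg _)
  refine mul_le_mul_of_nonneg_right ?_ (lt_min hu hv).le
  rcases le_total u v with h | h
  · rw [max_eq_right h]; nlinarith [mul_pos hu hv]
  · rw [max_eq_left h]; nlinarith [mul_pos hu hv]

lemma mult_kernel {x y σ : ℝ} (hx : 0 < x) (hy : 0 < y) (hσ : σ = 1 / 3 ∨ σ = 0 ∨ σ = -1 / 3) :
    |x ^ σ - y ^ σ| ≤
      |x - y| * (max x y ^ (-(2 : ℝ) / 3) * min x y ^ (-(1 : ℝ) / 3)) * y ^ σ := by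
  obtain ⟨u, hu, rfl⟩ : ∃ u : ℝ, 0 < u ∧ x = u ^ 3 :=
    ⟨x ^ ((1 : ℝ) / 3), by positivity, by
      rw [← Real.rpow_natCast, ← Real.rpow_mul hx.le]; norm_num⟩
  obtain ⟨v, hv, rfl⟩ : ∃ v : ℝ, 0 < v ∧ y = v ^ 3 :=
    ⟨y ^ ((1 : ℝ) / 3), by positivity, by
      rw [← Real.rpow_natCast, ← Real.rpow_mul hy.le]; norm_num⟩
  have hmono : Monotone fun z : ℝ => z ^ 3 := Odd.strictMono_pow (by decide) |>.monotone
  have e1 : ∀ z : ℝ, 0 < z → (z ^ 3) ^ ((1 : ℝ) / 3) = z := by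
    intro z hz
    rw [← Real.rpow_natCast, ← Real.rpow_mul hz.le]; norm_num
  have e2 : ∀ z : ℝ, 0 < z → (z ^ 3) ^ (-(1 : ℝ) / 3) = z⁻¹ := by
    intro z hz
    rw [← Real.rpow_natCast, ← Real.rpow_mul hz.le, ← Real.rpow_neg_one]; norm_num
  have e3 : ∀ z : ℝ, 0 < z → (z ^ 3) ^ (-(2 : ℝ) / 3) = (z ^ 2)⁻¹ := by
    intro z hz
    rw [← Real.rpow_natCast, ← Real.rpow_mul hz.le, ← Real.rpow_natCast, ← Real.rpow_neg hz.le]
    norm_num
  have hM : 0 < max u v := lt_max_of_lt_left hu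
  have hm : 0 < min u v := lt_min hu hv
  rw [← hmono.map_max, ← hmono.map_min, e2 _ hm, e3 _ hM]
  have key := mult_cube hu hv
  have key2 : |u - v| ≤ |u ^ 3 - v ^ 3| * ((max u v ^ 2)⁻¹ * (min u v)⁻¹) * min u v := by
    rw [← mul_inv, mul_right_comm, ← div_eq_mul_inv, le_div_iff₀ (by positivity)]
    exact key
  have hK : 0 ≤ |u ^ 3 - v ^ 3| * ((max u v ^ 2)⁻¹ * (min u v)⁻¹) := by positivity
  rcases hσ with rfl | rfl | rfl
  · rw [e1 _ hu, e1 _ hv]
    exact key2.trans (mul_le_mul_of_nonneg_left (min_le_right _ _) hK)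
  · simp only [Real.rpow_zero, sub_self, abs_zero, mul_one]
    exact hK
  · rw [e2 _ hu, e2 _ hv]
    have h4 : |u⁻¹ - v⁻¹| = |u - v| * u⁻¹ * v⁻¹ := by
      rw [show u⁻¹ - v⁻¹ = -((u - v) * u⁻¹ * v⁻¹) by field_simp; ring, abs_neg, abs_mul, abs_mul,
        abs_of_pos (inv_pos.2 hu), abs_of_pos (inv_pos.2 hv)]
    rw [h4]
    refine mul_le_mul_of_nonneg_right ?_ (inv_pos.2 hv).le
    rw [← div_eq_mul_inv, div_le_iff₀ hu]
    exact key2.trans (mul_le_mul_of_nonneg_left (min_le_left _ _) hK)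

lemma mult_planch {G : ℝ → ℂ} (h1 : Integrable G) (h2 : MemLp G 2) :
    eLpNorm (𝓕 G) 2 volume = eLpNorm G 2 volume := by
  rw [← eLpNorm_congr_ae (fourier_toLp_ae G h1 h2), ← Lp.enorm_def, ← ofReal_norm,
    Lp.norm_fourier_eq, ofReal_norm, Lp.enorm_toLp]

lemma mult_eLp_neg {G : ℝ → ℂ} (hG : AEStronglyMeasurable G volume) :
    eLpNorm (fun t => G (-t)) 2 volume = eLpNorm G 2 volume :=
  eLpNorm_comp_measurePreserving hG (Measure.measurePreserving_neg volume)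

lemma mult_planch_inv {G : ℝ → ℂ} (h1 : Integrable G) (h2 : MemLp G 2) :
    eLpNorm (𝓕⁻ G) 2 volume = eLpNorm G 2 volume := by
  have : 𝓕⁻ G = fun t => 𝓕 G (-t) := by
    funext t; exact Real.fourierInv_eq_fourier_neg G t
  rw [this, mult_eLp_neg (mult_cont h1).aestronglyMeasurable, mult_planch h1 h2]

lemma mult_int_ind {A : ℝ → ℂ} (hA : Integrable A) (a b : ℝ) :
    Integrable ((Icc a b).indicator (𝓕⁻ A)) :=
  (integrable_indicator_iff measurableSet_Icc).2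
    ((mult_cont_inv hA).continuousOn.integrableOn_Icc)

lemma mult_first {A : ℝ → ℂ} (h1 : Integrable A) (h2 : MemLp A 2) (a b : ℝ) :
    eLpNorm (𝓕 ((Icc a b).indicator (𝓕⁻ A))) 2 volume ≤ eLpNorm A 2 volume := by
  have h3 : MemLp (𝓕⁻ A) 2 :=
    ⟨(mult_cont_inv h1).aestronglyMeasurable, by rw [mult_planch_inv h1 h2]; exact h2.2⟩
  rw [mult_planch (mult_int_ind h1 a b) (h3.indicator measurableSet_Icc),
    ← mult_planch_inv h1 h2]
  exact eLpNorm_indicator_le _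

lemma mult_conv_ind {A : ℝ → ℂ} (hA : Integrable A) (a b τ : ℝ) :
    𝓕 ((Icc a b).indicator (𝓕⁻ A)) τ
      = ∫ y, 𝓕 ((Icc a b).indicator fun _ : ℝ => (1 : ℂ)) (τ - y) * A y := by
  have hm : Integrable ((Icc a b).indicator fun _ : ℝ => (1 : ℂ)) :=
    (integrable_indicator_iff measurableSet_Icc).2 continuousOn_const.integrableOn_Icc
  have h1 : (Icc a b).indicator (𝓕⁻ A)
      = fun t => (Icc a b).indicator (fun _ : ℝ => (1 : ℂ)) t * 𝓕⁻ A t := by
    funext t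
    by_cases ht : t ∈ Icc a b
    · simp [indicator_of_mem ht]
    · simp [indicator_of_notMem ht]
  rw [← mult_conv hm hA, h1]

lemma mult_int_conv {A : ℝ → ℂ} (hA : Integrable A) (a b τ : ℝ) :
    Integrable fun y => 𝓕 ((Icc a b).indicator fun _ : ℝ => (1 : ℂ)) (τ - y) * A y := by
  have hm : Integrable ((Icc a b).indicator fun _ : ℝ => (1 : ℂ)) :=
    (integrable_indicator_iff measurableSet_Icc).2 continuousOn_const.integrableOn_Icc
  refine hA.bdd_mul (c := ∫ t, ‖(Icc a b).indicator (fun _ : ℝ => (1 : ℂ)) t‖)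
    (((mult_cont hm).comp (continuous_const.sub continuous_id)).aestronglyMeasurable)
    (Eventually.of_forall fun y => ?_)
  exact VectorFourier.norm_fourierIntegral_le_integral_norm _ _ _ _ _

lemma mult_kap_nonneg {γ : ℝ} (hγ : 0 < γ) (a b : ℝ) : 0 ≤ kap γ a b := by
  have h1 := om_pos hγ a
  have h2 := om_pos hγ b
  unfold kap
  have h3 : 0 < max (om γ a) (om γ b) := lt_max_of_lt_left h1
  have h4 : 0 < min (om γ a) (om γ b) := lt_min h1 h2
  positivity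

lemma mult_ker_bound {γ σ : ℝ} (hγ : 0 < γ) (hσ : σ = 1 / 3 ∨ σ = 0 ∨ σ = -1 / 3)
    (a b τ y : ℝ) :
    |om γ τ ^ σ - om γ y ^ σ| * ‖𝓕 ((Icc a b).indicator fun _ : ℝ => (1 : ℂ)) (τ - y)‖
      ≤ 2 * kap γ τ y * om γ y ^ σ := by
  have h1 := mult_kernel (om_pos hγ τ) (om_pos hγ y) hσ
  have h2 := mult_ind_bound a b (τ - y)
  have h3 := abs_om_sub_om γ τ y
  have h4 := mult_kap_nonneg hγ τ y
  have h5 : 0 ≤ om γ y ^ σ := Real.rpow_nonneg (om_pos hγ y).le σ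
  set N := ‖𝓕 ((Icc a b).indicator fun _ : ℝ => (1 : ℂ)) (τ - y)‖ with hN
  have hN0 : 0 ≤ N := norm_nonneg _
  change |om γ τ ^ σ - om γ y ^ σ| ≤ |om γ τ - om γ y| * kap γ τ y * om γ y ^ σ at h1
  calc |om γ τ ^ σ - om γ y ^ σ| * N
      ≤ (2 * Real.pi * |τ - y|) * kap γ τ y * om γ y ^ σ * N := by
        refine mul_le_mul_of_nonneg_right (h1.trans ?_) hN0
        gcongr
    _ = 2 * (N * (Real.pi * |τ - y|)) * (kap γ τ y * om γ y ^ σ) := by ring
    _ ≤ 2 * 1 * (kap γ τ y * om γ y ^ σ) := by gcongr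
    _ = 2 * kap γ τ y * om γ y ^ σ := by ring

lemma mult_nrm (γ σ : ℝ) (A : ℝ → ℂ) :
    nrm γ w1 σ A = eLpNorm (fun τ => ((om γ τ ^ σ : ℝ) : ℂ) * A τ) 2 volume := by
  simp [nrm, w1]

lemma mult_cs {γ σ c₁ c₂ : ℝ} (hγ : 0 < γ) {X Y : ℝ → ℂ} (hX : AEStronglyMeasurable X volume)
    (hY : AEStronglyMeasurable Y volume) (h₁ : 0 ≤ c₁) (h₂ : 0 ≤ c₂) (bX : Bd γ w1 σ X c₁)
    (bY : Bd γ w1 (-σ) Y c₂) : ‖∫ τ, X τ * Y τ‖ ≤ c₁ * c₂ := by
  have hw : ∀ τ, 0 ≤ w1 τ := fun _ => zero_le_one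
  unfold Bd at bX bY
  rw [nrm_eq hw] at bX bY
  have m : ∀ (s : ℝ) (Z : ℝ → ℂ), AEStronglyMeasurable Z volume →
      AEMeasurable (fun τ => ENNReal.ofReal (om γ τ ^ s * w1 τ) * ‖Z τ‖ₑ) volume := by
    intro s Z hZ
    refine AEMeasurable.mul ?_ hZ.enorm
    exact (((continuous_om_rpow hγ s).mul adm_w1.cont).measurable.ennreal_ofReal).aemeasurable
  have hH := ENNReal.lintegral_mul_le_Lp_mul_Lq volume Real.HolderConjugate.two_two
    (m σ X hX) (m (-σ) Y hY)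
  simp only [ENNReal.rpow_two] at hH
  rw [← ENNReal.ofReal_le_ofReal_iff (mul_nonneg h₁ h₂), ofReal_norm, ENNReal.ofReal_mul h₁]
  refine (enorm_integral_le_lintegral_enorm _).trans ?_
  refine le_trans (le_of_eq ?_) (hH.trans (mul_le_mul' bX bY))
  congr 1
  funext τ
  have h3 : ENNReal.ofReal (om γ τ ^ σ * w1 τ) * ENNReal.ofReal (om γ τ ^ (-σ) * w1 τ) = 1 := by
    rw [← ENNReal.ofReal_mul (mul_nonneg (Real.rpow_nonneg (om_pos hγ τ).le _) (hw τ))]
    simp only [w1, mul_one]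
    rw [← Real.rpow_add (om_pos hγ τ)]
    simp
  rw [Pi.mul_apply, mul_mul_mul_comm, h3, one_mul, enorm_mul]

lemma mult_bd_neg {γ σ c : ℝ} (hγ : 0 < γ) {X : ℝ → ℂ} (hX : AEStronglyMeasurable X volume)
    (bX : Bd γ w1 σ X c) : Bd γ w1 σ (fun τ => X (-τ)) c := by
  unfold Bd at bX ⊢
  rw [mult_nrm] at bX ⊢
  have h1 : AEStronglyMeasurable (fun τ => ((om γ τ ^ σ : ℝ) : ℂ) * X τ) volume :=
    (Complex.continuous_ofReal.comp (continuous_om_rpow hγ σ)).aestronglyMeasurable.mul hX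
  rw [← mult_eLp_neg h1] at bX
  simpa only [om_neg] using bX


/-- The sharp cut-off is bounded on `H^{± 1/3}`. With `m` the indicator, `|𝓕 m ξ| ≤ 1 / (π |ξ|)`;
write `om τ ^ σ 𝓕 (m p) τ = 𝓕 (m p') τ + ∫ (om τ ^ σ - om b ^ σ) 𝓕 m (τ - b) A b`, where
`p' = 𝓕⁻ (om ^ σ A)`; use Plancherel twice for the first term, and the bound `2 kap τ b` on the
kernel with `schur_op` for the second. -/
theorem bv_mult {γ σ c : ℝ} (hγ : 0 < γ) (hσ : σ = 1 / 3 ∨ σ = 0 ∨ σ = -1 / 3) {A : ℝ → ℂ}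
    (hA : Integrable A) (hA' : Integrable fun τ => ((om γ τ ^ σ : ℝ) : ℂ) * A τ) (hc : 0 ≤ c)
    (h : Bd γ w1 σ A c) (t₂ t₃ : ℝ) :
    Bd γ w1 σ (𝓕 ((Icc t₂ t₃).indicator (𝓕⁻ A))) (50 * c) := by
  have hw : ∀ τ, 0 ≤ w1 τ := fun _ => zero_le_one
  set A' : ℝ → ℂ := fun τ => ((om γ τ ^ σ : ℝ) : ℂ) * A τ with hA'def
  set M : ℝ → ℂ := 𝓕 ((Icc t₂ t₃).indicator fun _ : ℝ => (1 : ℂ)) with hM
  have hn : eLpNorm A' 2 volume ≤ ENNReal.ofReal c := by
    have := h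
    unfold Bd at this
    rwa [mult_nrm] at this
  have h2 : MemLp A' 2 := ⟨hA'.1, hn.trans_lt ENNReal.ofReal_lt_top⟩
  have hpos : ∀ τ, 0 < om γ τ ^ σ := fun τ => Real.rpow_pos_of_pos (om_pos hγ τ) σ
  have hne : ∀ τ, ((om γ τ ^ σ : ℝ) : ℂ) ≠ 0 := fun τ => Complex.ofReal_ne_zero.2 (hpos τ).ne'
  set X : ℝ → ℂ := fun τ => (((om γ τ ^ σ : ℝ) : ℂ))⁻¹ *
    𝓕 ((Icc t₂ t₃).indicator (𝓕⁻ A')) τ with hX
  set Y : ℝ → ℂ := fun τ => 𝓕 ((Icc t₂ t₃).indicator (𝓕⁻ A)) τ - X τ with hY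
  have cX : Continuous X :=
    ((Complex.continuous_ofReal.comp (continuous_om_rpow hγ σ)).inv₀ hne).mul
      (mult_cont (mult_int_ind hA' t₂ t₃))
  have cY : Continuous Y := (mult_cont (mult_int_ind hA t₂ t₃)).sub cX
  have bX : Bd γ w1 σ X c := by
    unfold Bd
    rw [mult_nrm]
    have : (fun τ => ((om γ τ ^ σ : ℝ) : ℂ) * X τ) = 𝓕 ((Icc t₂ t₃).indicator (𝓕⁻ A')) := by
      funext τ
      rw [hX]
      exact mul_inv_cancel_left₀ (hne τ) _
    rw [this]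
    exact (mult_first hA' h2 t₂ t₃).trans hn
  have pY : ∀ τ, ENNReal.ofReal (om γ τ ^ σ * w1 τ) * ‖Y τ‖ₑ
      ≤ 2 * ∫⁻ b, ENNReal.ofReal (kap γ τ b) * ‖A' b‖ₑ := by
    intro τ
    have e1 : ((om γ τ ^ σ : ℝ) : ℂ) * Y τ
        = ∫ y, ((om γ τ ^ σ - om γ y ^ σ : ℝ) : ℂ) * M (τ - y) * A y := by
      rw [hY, hX]
      simp only
      rw [mul_sub, mul_inv_cancel_left₀ (hne τ), mult_conv_ind hA, mult_conv_ind hA',
        ← integral_const_mul, ← integral_sub ((mult_int_conv hA t₂ t₃ τ).const_mul _)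
          (mult_int_conv hA' t₂ t₃ τ)]
      congr 1
      funext y
      rw [hA'def]
      push_cast
      ring
    have e2 : ENNReal.ofReal (om γ τ ^ σ * w1 τ) * ‖Y τ‖ₑ = ‖((om γ τ ^ σ : ℝ) : ℂ) * Y τ‖ₑ := by
      rw [enorm_mul, ← ofReal_norm (((om γ τ ^ σ : ℝ) : ℂ)), Complex.norm_real,
        Real.norm_of_nonneg (hpos τ).le]
      simp [w1]
    rw [e2, e1, ← lintegral_const_mul' _ _ (by norm_num)]
    refine (enorm_integral_le_lintegral_enorm _).trans (lintegral_mono fun y => ?_)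
    have e3 := mult_ker_bound hγ hσ t₂ t₃ τ y
    have e4 := mult_kap_nonneg hγ τ y
    simp only
    rw [← ofReal_norm, ← ofReal_norm, ← ENNReal.ofReal_mul e4, ← ENNReal.ofReal_ofNat 2,
      ← ENNReal.ofReal_mul (by norm_num)]
    refine ENNReal.ofReal_le_ofReal ?_
    rw [hA'def]
    simp only [norm_mul, Complex.norm_real, Real.norm_eq_abs, abs_of_pos (hpos y)]
    calc |om γ τ ^ σ - om γ y ^ σ| * ‖M (τ - y)‖ * ‖A y‖
        ≤ 2 * kap γ τ y * om γ y ^ σ * ‖A y‖ := mul_le_mul_of_nonneg_right e3 (norm_nonneg _)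
      _ = 2 * (kap γ τ y * (om γ y ^ σ * ‖A y‖)) := by ring
  have bY : Bd γ w1 σ Y (48 * c) := by
    rw [bd_iff hw _ _ (by positivity)]
    have hb := (bd_iff hw σ A hc).1 h
    have e5 : ∀ b, ENNReal.ofReal (om γ b ^ σ * w1 b) * ‖A b‖ₑ = ‖A' b‖ₑ := by
      intro b
      rw [hA'def]
      simp only
      rw [enorm_mul, ← ofReal_norm (((om γ b ^ σ : ℝ) : ℂ)), Complex.norm_real,
        Real.norm_of_nonneg (hpos b).le]
      simp [w1]
    simp_rw [e5] at hb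
    calc ∫⁻ τ, (ENNReal.ofReal (om γ τ ^ σ * w1 τ) * ‖Y τ‖ₑ) ^ 2
        ≤ ∫⁻ τ, 2 ^ 2 * (∫⁻ b, ENNReal.ofReal (kap γ τ b) * ‖A' b‖ₑ) ^ 2 := by
          refine lintegral_mono fun τ => ?_
          simp only
          rw [← mul_pow]
          exact pow_le_pow_left' (pY τ) 2
      _ = 2 ^ 2 * ∫⁻ τ, (∫⁻ b, ENNReal.ofReal (kap γ τ b) * ‖A' b‖ₑ) ^ 2 :=
          lintegral_const_mul' _ _ (by norm_num)
      _ ≤ 2 ^ 2 * (24 ^ 2 * ENNReal.ofReal (c ^ 2)) := by
          gcongr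
          exact (schur_op hγ hA'.1.enorm).trans (by gcongr)
      _ = ENNReal.ofReal ((48 * c) ^ 2) := by
          rw [mul_pow, ENNReal.ofReal_mul (by norm_num), ← mul_assoc]
          congr 1
          rw [ENNReal.ofReal_pow (by norm_num), ENNReal.ofReal_ofNat]
          norm_num
  have h3 := Bd.add hγ adm_w1 cX.aestronglyMeasurable cY.aestronglyMeasurable hc
    (by positivity) bX bY
  have h4 : (fun τ => X τ + Y τ) = 𝓕 ((Icc t₂ t₃).indicator (𝓕⁻ A)) := by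
    funext τ
    rw [hY]
    ring
  rw [h4] at h3
  exact h3.mono (by linarith)

theorem pair {γ c₁ c₂ t₂ t₃ : ℝ} (hγ : 0 < γ) {A B : ℝ → ℂ} (hA : RD A) (hB : RD B)
    (h₁ : 0 ≤ c₁) (h₂ : 0 ≤ c₂) (bA : Bd γ w1 (1 / 3) A c₁) (bB : Bd γ w1 (-1 / 3) B c₂)
    (ht : t₂ ≤ t₃) : |∫ t in t₂..t₃, tl 0 A t * tl 0 B t| ≤ 50 * c₁ * c₂ := by
  have hS : RD (sym A) := hA.sym
  have hS' : RD fun τ => ((om γ τ ^ ((1 : ℝ) / 3) : ℝ) : ℂ) * sym A τ := by
    refine hS.poly_mul (Complex.continuous_ofReal.comp (continuous_om_rpow hγ _))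
      ⟨1 + (γ + 2 * Real.pi), 1, fun τ => ?_⟩
    rw [Complex.norm_real, Real.norm_of_nonneg (Real.rpow_nonneg (om_pos hγ τ).le _), pow_one]
    have h1 := om_le hγ.le τ
    have h2 : om γ τ ^ ((1 : ℝ) / 3) ≤ 1 + om γ τ := by
      rcases le_total (om γ τ) 1 with h | h
      · have := Real.rpow_le_one (om_pos hγ τ).le h (by norm_num : (0 : ℝ) ≤ 1 / 3)
        linarith [om_pos hγ τ]
      · have := Real.rpow_le_self_of_one_le h (by norm_num : (1 : ℝ) / 3 ≤ 1)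
        linarith
    nlinarith [abs_nonneg τ]
  have b1 := bv_mult hγ (Or.inl rfl) hS.integrable hS'.integrable h₁
    (bA.sym hγ adm_w1 hA.aesm) t₂ t₃
  set H : ℝ → ℂ := (Icc t₂ t₃).indicator (𝓕⁻ (sym A)) with hH
  have iH : Integrable H := mult_int_ind hS.integrable t₂ t₃
  have b2 := mult_bd_neg hγ (mult_cont iH).aestronglyMeasurable b1
  have bB' : Bd γ w1 (-(1 / 3)) B c₂ := by
    rwa [show (-(1 / 3) : ℝ) = -1 / 3 by norm_num]
  have b3 := mult_cs hγ ((mult_cont iH).comp continuous_neg).aestronglyMeasurable hB.aesm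
    (by positivity) h₂ b2 bB'
  simp only [Function.comp_apply] at b3
  rw [← mult_swap iH hB.integrable] at b3
  refine le_trans (le_of_eq ?_) ((Complex.abs_re_le_norm _).trans b3)
  congr 1
  have iHB : Integrable fun t => H t * 𝓕⁻ B t := by
    have : (fun t => H t * 𝓕⁻ B t)
        = (Icc t₂ t₃).indicator fun t => 𝓕⁻ (sym A) t * 𝓕⁻ B t := by
      funext t
      rw [hH, indicator_mul_left]
    rw [this]
    exact (integrable_indicator_iff measurableSet_Icc).2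
      (((mult_cont_inv hS.integrable).mul
        (mult_cont_inv hB.integrable)).continuousOn.integrableOn_Icc)
  have e1 := integral_re iHB
  simp only [RCLike.re_to_complex] at e1
  rw [← e1, intervalIntegral.integral_of_le ht, ← integral_Icc_eq_integral_Ioc,
    ← integral_indicator measurableSet_Icc]
  congr 1
  funext t
  by_cases h : t ∈ Icc t₂ t₃
  · rw [hH, indicator_of_mem h, indicator_of_mem h, fourierInv_sym hA.integrable, tl_zero_eq,
      tl_zero_eq, Complex.re_ofReal_mul]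
  · rw [hH, indicator_of_notMem h, indicator_of_notMem h]
    simp

/-- `∫_{t ≤ 0} e^{γ t} 𝓕⁻ B t = ∫ B τ / s τ`. -/
theorem pair0 {γ c t₀ : ℝ} (hγ : 0 < γ) {B : ℝ → ℂ} (hB : RD B) (hc : 0 ≤ c)
    (bB : Bd γ w1 (-1 / 3) B c) (ht : t₀ ≤ 0) (h₀ : ∀ t ≤ t₀, tl 0 B t = 0) :
    |∫ t in t₀..0, Real.exp (γ * t) * tl 0 B t| ≤ aa γ * c := by
  have hw : ∀ τ, 0 ≤ w1 τ := fun _ => zero_le_one
  set E : ℝ → ℂ := (Iic (0 : ℝ)).indicator fun t => ((Real.exp (γ * t) : ℝ) : ℂ) with hE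
  have iE : Integrable E :=
    (integrable_indicator_iff measurableSet_Iic).2
      (integrableOn_exp_mul_Iic hγ 0).ofReal
  have fE : ∀ τ, 𝓕 E (-τ) = (sv γ τ)⁻¹ := by
    intro τ
    rw [Real.fourier_real_eq_integral_exp_smul]
    have h1 : (fun v : ℝ => Complex.exp (↑(-2 * Real.pi * v * -τ) * Complex.I) • E v)
        = (Iic (0 : ℝ)).indicator fun v : ℝ => Complex.exp (sv γ τ * v) := by
      funext v
      by_cases hv : v ∈ Iic (0 : ℝ)
      · rw [hE, indicator_of_mem hv, indicator_of_mem hv, smul_eq_mul, Complex.ofReal_exp,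
          ← Complex.exp_add]
        congr 1
        unfold sv
        push_cast
        ring
      · rw [hE, indicator_of_notMem hv, indicator_of_notMem hv, smul_zero]
    have h2 : 0 < (sv γ τ).re := by simpa [sv] using hγ
    rw [h1, integral_indicator measurableSet_Iic, integral_exp_mul_complex_Iic h2]
    simp
  have b1 : Bd γ w1 (1 / 3) (fun τ => 𝓕 E (-τ)) (aa γ) := by
    have b0 := bd_of_sup hγ (A := fun _ => (1 : ℂ)) zero_le_one (fun _ => by simp)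
    have := Bd.of_le (σ := 1 / 3) (A := fun τ => 𝓕 E (-τ)) hw zero_le_one (fun τ => ?_) b0
    · simpa using this
    · rw [fE, norm_inv, norm_one, one_mul, mul_one]
      change om γ τ ^ ((1 : ℝ) / 3) * (om γ τ)⁻¹ ≤ _
      rw [← Real.rpow_neg_one, ← Real.rpow_add (om_pos hγ τ)]
      norm_num
  have bB' : Bd γ w1 (-(1 / 3)) B c := by
    rwa [show (-(1 / 3) : ℝ) = -1 / 3 by norm_num]
  have b3 := mult_cs hγ ((mult_cont iE).comp continuous_neg).aestronglyMeasurable hB.aesm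
    (aa_nonneg γ) hc b1 bB'
  simp only [Function.comp_apply] at b3
  rw [← mult_swap iE hB.integrable] at b3
  refine le_trans (le_of_eq ?_) ((Complex.abs_re_le_norm _).trans b3)
  congr 1
  have iEB : Integrable fun t => E t * 𝓕⁻ B t := by
    refine iE.mul_bdd (c := ∫ τ, ‖B τ‖) (mult_cont_inv hB.integrable).aestronglyMeasurable
      (Eventually.of_forall fun y => ?_)
    exact VectorFourier.norm_fourierIntegral_le_integral_norm _ _ _ _ _
  have e1 := integral_re iEB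
  simp only [RCLike.re_to_complex] at e1
  rw [← e1, intervalIntegral.integral_of_le ht, ← integral_indicator measurableSet_Ioc]
  congr 1
  funext t
  by_cases h : t ∈ Iic (0 : ℝ)
  · rw [hE, indicator_of_mem h, Complex.re_ofReal_mul, ← tl_zero_eq]
    by_cases h' : t ∈ Ioc t₀ 0
    · rw [indicator_of_mem h']
    · rw [indicator_of_notMem h', h₀ t (by
        by_contra h3
        exact h' ⟨not_le.1 h3, h⟩), mul_zero]
  · rw [hE, indicator_of_notMem h, indicator_of_notMem (fun h' => h h'.2)]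
    simp

end Pool.Agent.Lib.MP_14aec4_an.W
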