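import Pool.Agent.Lib.MP_14aec4_an.Moll0
import Pool.Agent.Lib.MP_14aec4_an.Mult

/-!
One-sided mollification: density of smooth functions, extensions, sharp cut-off.
-/

noncomputable section

open MeasureTheory Set Filter Topology FourierTransform
open scoped ENNReal ComplexConjugate

namespace Pool.Agent.Lib.MP_14aec4_an.W

lemma moll_small {F : ℝ → ℝ≥0∞} (hF : Tendsto F (𝓝[≠] 0) (𝓝 0)) {δ : ℝ} (hδ : 0 < δ) :
    ∃ η, 0 < η ∧ η < 1 / 2 ∧ F η ≤ ENNReal.ofReal δ ∧ F (-η) ≤ ENNReal.ofReal δ := by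
  have h1 : ∀ᶠ η in 𝓝[≠] (0 : ℝ), F η ≤ ENNReal.ofReal δ :=
    hF.eventually (eventually_le_nhds (ENNReal.ofReal_pos.mpr hδ))
  obtain ⟨r, hr, h2⟩ := Metric.eventually_nhds_iff.mp (eventually_nhdsWithin_iff.mp h1)
  have h3 : 0 < min (r / 2) (1 / 4) := by positivity
  have h4 : min (r / 2) (1 / 4) < r := (min_le_left _ _).trans_lt (by linarith)
  refine ⟨min (r / 2) (1 / 4), h3, (min_le_right _ _).trans_lt (by norm_num), h2 ?_ h3.ne',
    h2 ?_ (neg_ne_zero.mpr h3.ne')⟩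
  · rwa [dist_zero_right, Real.norm_eq_abs, abs_of_pos h3]
  · rwa [dist_zero_right, Real.norm_eq_abs, abs_neg, abs_of_pos h3]

lemma moll_integrable {A : ℝ → ℂ} (hm : Measurable A)
    (h : ∀ n : ℕ, Integrable fun ξ => (1 + |ξ|) ^ n * ‖A ξ‖) : Integrable A := by
  have h0 := h 0
  simp only [pow_zero, one_mul] at h0
  exact (integrable_norm_iff hm.aestronglyMeasurable).mp h0

lemma moll_fourierInv_sub {A B : ℝ → ℂ} (hA : Integrable A) (hB : Integrable B) (t : ℝ) :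
    𝓕⁻ (fun τ => A τ - B τ) t = 𝓕⁻ A t - 𝓕⁻ B t := by
  simp only [Real.fourierInv_eq_fourier_neg, Real.fourier_real_eq, Circle.smul_def, smul_eq_mul,
    mul_sub]
  exact integral_sub (ts_integrable_char hA _) (ts_integrable_char hB _)

lemma moll_win_left {d0 dL : Bool} {a : ℝ} (ha : 0 < a) :
    (d0 = true ∧ Iio 0 ⊆ winB d0 dL a) ∨ ∀ x ≤ 0, x ∉ winB d0 dL a := by
  cases d0 <;> cases dL <;> simp only [winB, if_true, if_false, Bool.false_eq_true]
  · exact Or.inr fun x hx h => absurd h.1 (not_lt.mpr hx)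
  · exact Or.inr fun x hx h => absurd h (not_lt.mpr hx)
  · exact Or.inl ⟨trivial, Iio_subset_Iio ha.le⟩
  · exact Or.inl ⟨trivial, subset_univ _⟩

lemma moll_win_right {d0 dL : Bool} {a : ℝ} (ha : 0 < a) :
    (dL = true ∧ Ioi a ⊆ winB d0 dL a) ∨ ∀ x, a ≤ x → x ∉ winB d0 dL a := by
  cases d0 <;> cases dL <;> simp only [winB, if_true, if_false, Bool.false_eq_true]
  · exact Or.inr fun x hx h => absurd h.2 (not_lt.mpr hx)
  · exact Or.inl ⟨trivial, Ioi_subset_Ioi ha.le⟩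
  · exact Or.inr fun x hx h => absurd h (not_lt.mpr hx)
  · exact Or.inl ⟨trivial, subset_univ _⟩

/-- Density of smooth functions. Take `φ = ϑ p⁺ + (1 - ϑ) p⁻` with `p^± = p (± η)` and `ϑ` smooth
with compact support, `1` on `[-1, a/3]`, `0` on `[2a/3, ∞)`; then `φ` vanishes beyond the marked
ends, `φ = 𝓕⁻ (cv (spec 0 ϑ) (A⁺ - A⁻) + A⁻)`, and `peetre` (with `γ = 1`) bounds the first
term. -/
theorem mol {σ a : ℝ} (hσ : -1 ≤ σ) (hσ' : σ ≤ 0) (ha : 0 < a) (d0 dL : Bool)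
    {f : SchwartzMap ℝ ℂ → ℂ} (hf : hNorm σ (winB d0 dL a) f < ⊤)
    (hr : RealOn (winB d0 dL a) a f) {ε : ℝ≥0∞} (hε : 0 < ε) :
    ∃ φ : ℝ → ℝ, ContDiff ℝ (⊤ : ℕ∞) φ ∧ hNorm σ (winB d0 dL a) (ofFun a φ - f) ≤ ε := by
  obtain ⟨G, hG, hrep, hfin, hs⟩ := exists_rep_sym hf fun ψ hψ => (hr ψ hψ).1
  obtain ⟨θ, hθ, h₀, h₁, h₂⟩ := exists_theta
  obtain ⟨A, p, ψ, hA, hlim⟩ := moll hθ h₀ h₁ h₂ hG hfin hs
  obtain ⟨ε', -, hε', hε''⟩ := ENNReal.lt_iff_exists_real_btwn.mp hε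
  have hε0 : 0 < ε' := ENNReal.ofReal_pos.mp hε'
  have ha3 : 0 < a / 3 := by positivity
  let ϑ : ℝ → ℝ := fun x => rp (-2) 1 x * (1 - rp (a / 3) (a / 3) x)
  have hϑ0 : ∀ x, a ≤ x → ϑ x = 0 := fun x hx => by
    simp only [ϑ]
    rw [rp_one ha3 (by linarith), sub_self, mul_zero]
  have hϑ1 : ∀ x, -1 ≤ x → x ≤ 0 → ϑ x = 1 := fun x hx hx' => by
    simp only [ϑ]
    rw [rp_one one_pos (by linarith), rp_zero ha3 (by linarith), sub_zero, mul_one]
  have hϑ : SC ϑ := by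
    refine SC.of_bound ((rp_contDiff _ _).mul (contDiff_const.sub (rp_contDiff _ _)))
      (a := -2) (b := a) fun t ht => ?_
    rcases not_and_or.mp ht with h | h
    · simp only [ϑ]
      rw [rp_zero one_pos (not_le.mp h).le, zero_mul]
    · exact hϑ0 t (not_le.mp h).le
  set C := mulC 1 w1 (spec 0 ϑ) with hC
  have hC0 : 0 ≤ C := mulC_nonneg one_pos adm_w1 _
  have hδ : 0 < ε' / (14 * C + 1) := by positivity
  set δ := ε' / (14 * C + 1) with hδ'
  obtain ⟨η, hη, hη', hb₁, hb₂⟩ := moll_small hlim hδ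
  obtain ⟨m₁, i₁, c₁, e₁, -, s₁⟩ := hA η hη.ne'
  obtain ⟨m₂, i₂, c₂, e₂, -, s₂⟩ := hA (-η) (neg_ne_zero.mpr hη.ne')
  have j₁ := moll_integrable m₁ i₁
  have j₂ := moll_integrable m₂ i₂
  have hz : ∀ η' x, η' ≠ 0 → uIcc (x - η') (x - 2 * η') ⊆ winB d0 dL a →
      Disjoint (uIcc (x - η') (x - 2 * η')) (Icc 0 a) → p η' x = 0 := by
    intro η' x h1 h2 h3
    obtain ⟨h4, -, h5⟩ := (hA η' h1).2.2.2.2.2 x
    rw [← hrep _ (h4.trans h2), (hr _ (h4.trans h2)).2 (h3.mono_left h4)] at h5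
    exact_mod_cast h5
  have hzl : Iio 0 ⊆ winB d0 dL a → ∀ η' x, η' ≠ 0 → x - η' < 0 → x - 2 * η' < 0 → p η' x = 0 := by
    intro hW η' x h1 h2 h3
    have h4 : uIcc (x - η') (x - 2 * η') ⊆ Iio 0 := ordConnected_Iio.uIcc_subset h2 h3
    exact hz η' x h1 (h4.trans hW) (disjoint_left.mpr fun y hy hy' =>
      absurd (h4 hy) (not_lt.mpr hy'.1))
  have hzr : Ioi a ⊆ winB d0 dL a → ∀ η' x, η' ≠ 0 → a < x - η' → a < x - 2 * η' → p η' x = 0 := by
    intro hW η' x h1 h2 h3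
    have h4 : uIcc (x - η') (x - 2 * η') ⊆ Ioi a := ordConnected_Ioi.uIcc_subset h2 h3
    exact hz η' x h1 (h4.trans hW) (disjoint_left.mpr fun y hy hy' =>
      absurd (h4 hy) (not_lt.mpr hy'.2))
  have hk : SC fun x => ϑ x * (p η x - p (-η) x) := hϑ.mul_right (c₁.sub c₂)
  have hcv : spec 0 (fun x => ϑ x * (p η x - p (-η) x)) =
      cv (spec 0 ϑ) fun τ => A η τ - A (-η) τ :=
    spec_mul_eq_cv 0 hϑ (j₁.sub j₂) fun t => by
      rw [moll_fourierInv_sub j₁ j₂, e₁, e₂, Complex.ofReal_sub]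
  refine ⟨fun x => ϑ x * (p η x - p (-η) x) + p (-η) x, hk.1.add c₂, ?_⟩
  have m₃ : AEStronglyMeasurable (fun ξ => A η ξ - G ξ) volume := (m₁.sub hG).aestronglyMeasurable
  have m₄ : AEStronglyMeasurable (fun ξ => A (-η) ξ - G ξ) volume :=
    (m₂.sub hG).aestronglyMeasurable
  have hsplit : ∀ χ : SchwartzMap ℝ ℂ, tsupport χ ⊆ winB d0 dL a →
      (ofFun a (fun x => ϑ x * (p η x - p (-η) x) + p (-η) x) - f) χ =
      ((fun χ : SchwartzMap ℝ ℂ => ∫ ξ, spec 0 (fun x => ϑ x * (p η x - p (-η) x)) ξ *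
        𝓕⁻ (χ : ℝ → ℂ) ξ) + fun χ : SchwartzMap ℝ ℂ =>
          ∫ ξ, (A (-η) ξ - G ξ) * 𝓕⁻ (χ : ℝ → ℂ) ξ) χ := by
    intro χ hχ
    have hχ0 : ∀ x, x ∉ winB d0 dL a → χ x = 0 := fun x hx =>
      image_eq_zero_of_notMem_tsupport fun h => hx (hχ h)
    have h1 : ofFun a (fun x => ϑ x * (p η x - p (-η) x) + p (-η) x) χ =
        ∫ x, χ x * ((ϑ x * (p η x - p (-η) x) + p (-η) x : ℝ) : ℂ) := by
      refine setIntegral_eq_integral_of_forall_compl_eq_zero fun x hx => ?_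
      beta_reduce
      rcases not_and_or.mp hx with h | h
      · have h' : x ≤ 0 := not_lt.mp h
        rcases moll_win_left (d0 := d0) (dL := dL) ha with ⟨-, hW⟩ | hW
        · rw [hzl hW η x hη.ne' (by linarith) (by linarith)]
          rcases le_total (-1) x with h3 | h3
          · rw [hϑ1 x h3 h']
            simp
          · rw [hzl hW (-η) x (neg_ne_zero.mpr hη.ne') (by linarith) (by linarith)]
            simp
        · rw [hχ0 x (hW x h'), zero_mul]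
      · have h' : a ≤ x := not_lt.mp h
        rcases moll_win_right (d0 := d0) (dL := dL) ha with ⟨-, hW⟩ | hW
        · rw [hzr hW (-η) x (neg_ne_zero.mpr hη.ne') (by linarith) (by linarith), hϑ0 x h']
          simp
        · rw [hχ0 x (hW x h'), zero_mul]
    have h2 := integral_mul_eq_fourier (ts_integrable 0 hk) χ
    have h3 := integral_mul_fourierInv j₂ χ
    have h4 : Integrable fun x => χ x *
        ((Real.exp (-0 * x) * (ϑ x * (p η x - p (-η) x)) : ℝ) : ℂ) :=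
      (ts_integrable 0 hk).bdd_mul (c := SchwartzMap.seminorm ℝ 0 0 χ)
        χ.continuous.aestronglyMeasurable
        (Eventually.of_forall fun x => SchwartzMap.norm_le_seminorm ℝ χ x)
    have h5 : Integrable fun x => χ x * 𝓕⁻ (A (-η)) x := by
      refine χ.integrable.mul_bdd (c := ∫ τ, ‖A (-η) τ‖) ?_ (Eventually.of_forall fun x => ?_)
      · rw [funext e₂]
        exact (Complex.continuous_ofReal.comp c₂.continuous).aestronglyMeasurable
      · rw [Real.fourierInv_eq]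
        refine (norm_integral_le_integral_norm _).trans (le_of_eq ?_)
        simp only [Circle.norm_smul]
    have h6 := integrable_mul_fourierInv hG.aestronglyMeasurable hfin χ
    have h7 := integrable_mul_fourierInv m₄ (hb₂.trans_lt ENNReal.ofReal_lt_top) χ
    have h8 : ∫ ξ, A (-η) ξ * 𝓕⁻ (χ : ℝ → ℂ) ξ =
        (∫ ξ, (A (-η) ξ - G ξ) * 𝓕⁻ (χ : ℝ → ℂ) ξ) + ∫ ξ, G ξ * 𝓕⁻ (χ : ℝ → ℂ) ξ := by
      rw [← integral_add h7 h6]
      refine integral_congr_ae (Eventually.of_forall fun ξ => ?_)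
      ring
    rw [Pi.sub_apply, Pi.add_apply, h1, hrep χ hχ, sub_eq_iff_eq_add, add_assoc, ← h8, ← h3, spec,
      ← h2, ← integral_add h4 h5]
    refine integral_congr_ae (Eventually.of_forall fun x => ?_)
    beta_reduce
    rw [e₂, neg_zero, zero_mul, Real.exp_zero, one_mul]
    push_cast
    ring
  have b₁ : Bd 1 w1 σ (fun ξ => A η ξ - G ξ) δ := (nrm_le_jn le_rfl hσ' _).trans hb₁
  have b₂ : Bd 1 w1 σ (fun ξ => A (-η) ξ - G ξ) δ := (nrm_le_jn le_rfl hσ' _).trans hb₂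
  have b₃ := Bd.sub one_pos adm_w1 m₃ m₄ hδ.le hδ.le b₁ b₂
  simp only [sub_sub_sub_cancel_right] at b₃
  have b₄ := peetre one_pos adm_w1 (abs_le.mpr ⟨hσ, by linarith⟩) (rd_spec 0 hϑ)
    (j₁.sub j₂).aestronglyMeasurable (by positivity) b₃
  have b₅ : jn σ (spec 0 fun x => ϑ x * (p η x - p (-η) x)) ≤ 7 * ENNReal.ofReal (C * (δ + δ)) := by
    rw [hcv]
    exact (jn_le_nrm hσ hσ' _).trans (mul_le_mul_right b₄ _)
  rw [hNorm_congr hsplit]
  refine (hNorm_add_le _ _).trans ((add_le_add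
    ((hNorm_le_jn (rd_spec 0 hk).aesm fun _ _ => rfl).trans b₅)
    ((hNorm_le_jn m₄ fun _ _ => rfl).trans hb₂)).trans (le_trans (le_of_eq ?_) hε''.le))
  rw [← ENNReal.ofReal_ofNat, ← ENNReal.ofReal_mul (by norm_num),
    ← ENNReal.ofReal_add (by positivity) hδ.le]
  refine congrArg _ ?_
  rw [hδ']
  field_simp
  ring

lemma moll_est {θ : ℝ → ℝ} (hθ : Continuous θ) (h₀ : ∀ x, 0 ≤ θ x)
    (h₁ : ∀ x, x ∉ Icc (1 : ℝ) 2 → θ x = 0) (h₂ : ∫ x, θ x = 1) {T' η t P v B : ℝ} (hη : 0 < η)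
    {h : ℝ → ℝ} (hh : ContinuousOn h (Icc 0 T')) {ψ : SchwartzMap ℝ ℂ}
    (hψ : ∀ y, ψ y = ((θ ((t - y) / η) / |η| : ℝ) : ℂ)) (hP : (P : ℂ) = ofFun T' h ψ)
    (hB : ∀ y ∈ Icc (t - 2 * η) (t - η), |(Ioo 0 T').indicator h y - v| ≤ B) : |P - v| ≤ B := by
  set k : ℝ → ℝ := fun y => θ ((t - y) / η) / |η| with hk
  have hk0 : ∀ y, y ∉ Icc (t - 2 * η) (t - η) → k y = 0 := fun y hy => by
    simp only [hk]
    rw [h₁, zero_div]
    intro h3
    rw [mem_Icc, le_div_iff₀ hη, div_le_iff₀ hη] at h3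
    exact hy ⟨by linarith [h3.2], by linarith [h3.1]⟩
  have hkc : Continuous k := (hθ.comp (by fun_prop)).div_const _
  have hki : Integrable k :=
    hkc.integrable_of_hasCompactSupport (HasCompactSupport.intro isCompact_Icc hk0)
  have hk1 : ∫ y, k y = 1 := by
    simp only [hk]
    rw [integral_div, integral_sub_left_eq_self (fun z => θ (z / η)) volume t,
      Measure.integral_comp_div, h₂, smul_eq_mul, mul_one, div_self (abs_pos.mpr hη.ne').ne']
  have e : (fun y => k y * (Ioo 0 T').indicator h y) = (Ioo 0 T').indicator fun y => k y * h y := by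
    funext y
    by_cases hy : y ∈ Ioo 0 T' <;> simp [hy]
  have hi : Integrable fun y => k y * (Ioo 0 T').indicator h y := by
    rw [e, integrable_indicator_iff measurableSet_Ioo]
    exact ((hkc.continuousOn.mul hh).integrableOn_Icc).mono_set Ioo_subset_Icc_self
  have hP' : P = ∫ y, k y * (Ioo 0 T').indicator h y := by
    rw [e, integral_indicator measurableSet_Ioo]
    refine Complex.ofReal_injective ?_
    rw [hP, ← integral_complex_ofReal, ofFun]
    refine integral_congr_ae (Eventually.of_forall fun y => ?_)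
    beta_reduce
    rw [hψ, Complex.ofReal_mul]
  have h3 : P - v = ∫ y, k y * ((Ioo 0 T').indicator h y - v) := by
    simp only [mul_sub]
    rw [integral_sub hi (hki.mul_const v), integral_mul_const, hk1, one_mul, hP']
  rw [h3, ← Real.norm_eq_abs, ← one_mul B, ← hk1, ← integral_mul_const]
  refine norm_integral_le_of_norm_le (hki.mul_const B) (Eventually.of_forall fun y => ?_)
  by_cases hy : y ∈ Icc (t - 2 * η) (t - η)
  · have h4 : 0 ≤ k y := div_nonneg (h₀ _) (abs_nonneg _)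
    rw [Real.norm_eq_abs, abs_mul, abs_of_nonneg h4]
    exact mul_le_mul_of_nonneg_left (hB y hy) h4
  · rw [hk0 y hy, zero_mul, zero_mul, norm_zero]

lemma moll_pack {σ T' : ℝ} {W : Set ℝ} {c : ℝ≥0∞} {h : ℝ → ℝ} (hh : ContinuousOn h (Icc 0 T'))
    (hc : hNorm σ W (ofFun T' h) < c) : ∃ (A : ℝ → ℝ → ℂ) (p : ℝ → ℝ → ℝ), ∀ η, 0 < η →
      Integrable (A η) ∧ ContDiff ℝ (⊤ : ℕ∞) (p η) ∧ (∀ x, 𝓕⁻ (A η) x = (p η x : ℂ)) ∧
      jn σ (A η) ≤ c ∧ ∀ t, Icc (t - 2 * η) (t - η) ⊆ W → ∀ v B,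
        (∀ y ∈ Icc (t - 2 * η) (t - η), |(Ioo 0 T').indicator h y - v| ≤ B) → |p η t - v| ≤ B := by
  obtain ⟨G, hG, hrep, hfin, hs⟩ := exists_rep_sym hc fun ψ hψ => (realOn_ofFun W T' h ψ hψ).1
  obtain ⟨θ, hθ, h₀, h₁, h₂⟩ := exists_theta
  obtain ⟨A, p, ψ, hA, -⟩ := moll hθ h₀ h₁ h₂ hG (hfin.trans_le le_top) hs
  refine ⟨A, p, fun η hη => ?_⟩
  obtain ⟨m₁, i₁, c₁, e₁, b₁, s₁⟩ := hA η hη.ne'
  refine ⟨moll_integrable m₁ i₁, c₁, e₁, b₁.trans hfin.le, fun t ht v B hB => ?_⟩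
  obtain ⟨h3, h4, h5⟩ := s₁ t
  rw [uIcc_of_ge (by linarith)] at h3
  exact moll_est hθ.continuous h₀ h₁ h₂ hη hh h4 (h5.trans (hrep _ (h3.trans ht)).symm) hB

lemma moll_ind_le {T' M : ℝ} (hT : 0 < T') {h : ℝ → ℝ} (hM : ∀ t ∈ Icc 0 T', |h t| ≤ M) (y : ℝ) :
    |(Ioo 0 T').indicator h y - 0| ≤ M := by
  rw [sub_zero]
  by_cases hy : y ∈ Ioo 0 T'
  · rw [indicator_of_mem hy]
    exact hM y (Ioo_subset_Icc_self hy)
  · rw [indicator_of_notMem hy, abs_zero]
    exact (abs_nonneg _).trans (hM 0 ⟨le_rfl, hT.le⟩)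

lemma moll_tendsto {T' : ℝ} {h : ℝ → ℝ} (hh : ContinuousOn h (Icc 0 T')) {p : ℝ → ℝ → ℝ}
    (hp : ∀ η, 0 < η → ∀ t, Icc (t - 2 * η) (t - η) ⊆ Ioo 0 T' → ∀ v B,
      (∀ y ∈ Icc (t - 2 * η) (t - η), |(Ioo 0 T').indicator h y - v| ≤ B) → |p η t - v| ≤ B)
    {t : ℝ} (ht : t ∈ Ioo 0 T') : Tendsto (fun η => p η t - h t) (𝓝[>] 0) (𝓝 0) := by
  rw [Metric.tendsto_nhds]
  intro ε hε
  obtain ⟨r, hr, hr'⟩ := Metric.continuousWithinAt_iff.mp (hh t (Ioo_subset_Icc_self ht)) (ε / 2)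
    (by positivity)
  have h1 : Ioo 0 (min r t / 2) ∈ 𝓝[>] (0 : ℝ) :=
    Ioo_mem_nhdsGT (by have := lt_min hr ht.1; positivity)
  filter_upwards [h1] with η hη
  have h2 : 2 * η < r := by linarith [hη.2, min_le_left r t]
  have h3 : 2 * η < t := by linarith [hη.2, min_le_right r t]
  have h4 : Icc (t - 2 * η) (t - η) ⊆ Ioo 0 T' := fun y hy =>
    ⟨by linarith [hy.1], by linarith [hy.2, ht.2, hη.1]⟩
  rw [dist_zero_right, Real.norm_eq_abs]
  refine (hp η hη.1 t h4 (h t) (ε / 2) fun y hy => ?_).trans_lt (by linarith)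
  rw [indicator_of_mem (h4 hy), ← Real.dist_eq]
  refine (hr' (Ioo_subset_Icc_self (h4 hy)) ?_).le
  rw [Real.dist_eq, abs_lt]
  exact ⟨by linarith [hy.1], by linarith [hy.2, hη.1]⟩

lemma moll_dct {T' K : ℝ} {d : ℝ → ℝ → ℝ}
    (hm : ∀ η, 0 < η → AEStronglyMeasurable (d η) (volume.restrict (Ioo 0 T')))
    (hb : ∀ η, 0 < η → ∀ t ∈ Ioo 0 T', |d η t| ≤ K)
    (hl : ∀ t ∈ Ioo 0 T', Tendsto (fun η => d η t) (𝓝[>] 0) (𝓝 0)) {ε : ℝ} (hε : 0 < ε) :
    ∃ η, 0 < η ∧ ∫ t in Ioo 0 T', d η t ^ 2 ≤ ε := by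
  have h1 := tendsto_integral_filter_of_dominated_convergence (μ := volume.restrict (Ioo 0 T'))
    (l := 𝓝[>] (0 : ℝ)) (F := fun η t => d η t ^ 2) (f := fun _ => (0 : ℝ)) (fun _ => K ^ 2)
    (eventually_mem_nhdsWithin.mono fun η hη => (hm η hη).pow 2)
    (eventually_mem_nhdsWithin.mono fun η hη =>
      (ae_restrict_mem measurableSet_Ioo).mono fun t ht => by
        rw [Real.norm_eq_abs, abs_pow]
        exact pow_le_pow_left₀ (abs_nonneg _) (hb η hη t ht) 2)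
    (integrableOn_const measure_Ioo_lt_top.ne)
    ((ae_restrict_mem measurableSet_Ioo).mono fun t ht => by
      have := (hl t ht).pow 2
      rwa [zero_pow two_ne_zero] at this)
  rw [integral_zero] at h1
  obtain ⟨η, h2, h3⟩ := ((h1.eventually (eventually_le_nhds hε)).and
    eventually_mem_nhdsWithin).exists
  exact ⟨η, h3, h2⟩

theorem ext_exists {σ T' c M ε : ℝ} (hσ : σ ≤ 0) (hT : 0 < T') {h : ℝ → ℝ}
    (hh : ContinuousOn h (Icc 0 T')) (hM : ∀ t ∈ Icc 0 T', |h t| ≤ M)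
    (hc : bn σ T' h < ENNReal.ofReal c) (hε : 0 < ε) :
    ∃ η > 0, ∃ (p : ℝ → ℝ) (A : ℝ → ℂ), ContDiff ℝ (⊤ : ℕ∞) p ∧ Integrable A ∧
      (∀ t, 𝓕⁻ A t = (p t : ℂ)) ∧ (∀ γ, 1 ≤ γ → Bd γ w1 σ A c) ∧ (∀ t ≤ 0, p t = 0) ∧
      (∀ t < T' + η, |p t| ≤ M) ∧ ∫ t in (0 : ℝ)..T', (p t - h t) ^ 2 ≤ ε := by
  obtain ⟨A, p, hA⟩ := moll_pack hh hc
  have hb : ∀ η, 0 < η → ∀ t < T' + η, |p η t| ≤ M := fun η hη t ht => by
    have := (hA η hη).2.2.2.2 t (fun y hy => show y < T' by linarith [hy.2]) 0 M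
      fun y _ => moll_ind_le hT hM y
    rwa [sub_zero] at this
  obtain ⟨η, hη, h1⟩ := moll_dct (T' := T') (K := M + M) (d := fun η t => p η t - h t)
    (fun η hη => (((hA η hη).2.1.continuous.continuousOn.sub hh).mono
      Ioo_subset_Icc_self).aestronglyMeasurable measurableSet_Ioo)
    (fun η hη t ht => (abs_sub _ _).trans (add_le_add (hb η hη t (by linarith [ht.2]))
      (hM t (Ioo_subset_Icc_self ht))))
    (fun t ht => moll_tendsto hh
      (fun η hη t ht => (hA η hη).2.2.2.2 t (ht.trans Ioo_subset_Iio_self)) ht) hε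
  obtain ⟨h2, h3, h4, h5, h6⟩ := hA η hη
  refine ⟨η, hη, p η, A η, h3, h2, h4, fun γ hγ => (nrm_le_jn hγ hσ _).trans h5, fun t ht => ?_,
    hb η hη, ?_⟩
  · have := h6 t (fun y hy => show y < T' by linarith [hy.2]) 0 0 fun y hy => by
      rw [indicator_of_notMem fun h7 => by linarith [h7.1, hy.2], sub_zero, abs_zero]
    rwa [sub_zero, abs_nonpos_iff] at this
  · rwa [intervalIntegral.integral_of_le hT.le, integral_Ioc_eq_integral_Ioo]

/-- Extension by zero is bounded on `L²` and `H^{-1/3}`: compare `h` with the indicator of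
`[3 η, T']` times `p η`, and use `bv_mult` with `γ = 1`. -/
theorem cutoff {σ T' : ℝ} (hσ : σ = 0 ∨ σ = -1 / 3) (hT : 0 < T') {h : ℝ → ℝ}
    (hh : ContinuousOn h (Icc 0 T')) : bn σ T' h ≤ 350 * hNorm σ (Ioo 0 T') (ofFun T' h) := by
  have hσ1 : -1 ≤ σ := by rcases hσ with rfl | rfl <;> norm_num
  have hσ0 : σ ≤ 0 := by rcases hσ with rfl | rfl <;> norm_num
  refine ENNReal.le_of_forall_pos_le_add fun ε hε hfin => ?_
  set N := hNorm σ (Ioo 0 T') (ofFun T' h) with hN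
  have hN' : N ≠ ⊤ := fun h0 => by
    rw [h0, ENNReal.mul_top (by norm_num)] at hfin
    exact lt_irrefl _ hfin
  have hε' : (0 : ℝ) < ε := hε
  have hc0 : 0 ≤ N.toReal + ε / 700 := by positivity
  have hc : N < ENNReal.ofReal (N.toReal + ε / 700) :=
    (ENNReal.lt_ofReal_iff_toReal_lt hN').mpr (lt_add_of_pos_right _ (by positivity))
  obtain ⟨M, hM⟩ := isCompact_Icc.exists_bound_of_continuousOn hh
  have hM0 : 0 ≤ M := (norm_nonneg _).trans (hM 0 ⟨le_rfl, hT.le⟩)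
  obtain ⟨A, p, hA⟩ := moll_pack hh hc
  let q : ℝ → ℝ → ℝ := fun η => (Icc (3 * η) T').indicator (p η)
  have hqb : ∀ η, 0 < η → ∀ t, |q η t| ≤ M := fun η hη t => by
    by_cases ht : t ∈ Icc (3 * η) T'
    · have := (hA η hη).2.2.2.2 t
        (fun y hy => ⟨by linarith [hy.1, ht.1], by linarith [hy.2, ht.2]⟩) 0 M
        fun y _ => moll_ind_le hT hM y
      rwa [sub_zero, ← indicator_of_mem ht (p η)] at this
    · simp only [q]
      rwa [indicator_of_notMem ht, abs_zero]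
  have hqm : ∀ η, 0 < η → Measurable (q η) := fun η hη =>
    (hA η hη).2.1.continuous.measurable.indicator measurableSet_Icc
  have hdm : ∀ η, 0 < η → AEStronglyMeasurable (fun t => h t - q η t)
      (volume.restrict (Ioo 0 T')) := fun η hη =>
    ((hh.mono Ioo_subset_Icc_self).aestronglyMeasurable measurableSet_Ioo).sub
      (hqm η hη).aestronglyMeasurable
  have hdb : ∀ η, 0 < η → ∀ t ∈ Ioo 0 T', |h t - q η t| ≤ M + M := fun η hη t ht =>
    (abs_sub _ _).trans (add_le_add (hM t (Ioo_subset_Icc_self ht)) (hqb η hη t))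
  obtain ⟨η, hη, h1⟩ := moll_dct (d := fun η t => h t - q η t) hdm hdb (fun t ht => by
    have h2 := (moll_tendsto hh (fun η hη => (hA η hη).2.2.2.2) ht).neg
    rw [neg_zero] at h2
    refine h2.congr' ?_
    filter_upwards [Ioo_mem_nhdsGT (show (0 : ℝ) < t / 3 by linarith [ht.1])] with η hη
    simp only [q]
    rw [indicator_of_mem (show t ∈ Icc (3 * η) T' from ⟨by linarith [hη.2], ht.2.le⟩), neg_sub])
    (show (0 : ℝ) < (ε / 2) ^ 2 by positivity)
  obtain ⟨h2, h3, h4, h5, -⟩ := hA η hη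
  have hq : (Icc (3 * η) T').indicator (𝓕⁻ (A η)) = fun t => (q η t : ℂ) := by
    funext t
    by_cases ht : t ∈ Icc (3 * η) T' <;> simp [q, ht, h4]
  have hqi : Integrable fun t => (q η t : ℂ) :=
    Integrable.ofReal ((integrable_indicator_iff measurableSet_Icc).mpr
      h3.continuous.continuousOn.integrableOn_Icc)
  have b₁ := bv_mult one_pos (Or.inr hσ) h2 (h2.bdd_mul (c := 1)
    (Complex.continuous_ofReal.comp (continuous_om_rpow one_pos σ)).aestronglyMeasurable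
    (Eventually.of_forall fun τ => by
      rw [Complex.norm_real, Real.norm_eq_abs, abs_of_nonneg (Real.rpow_nonneg (om_nonneg _ _) _)]
      exact Real.rpow_le_one_of_one_le_of_nonpos (one_le_om le_rfl τ) hσ0)) hc0
    ((nrm_le_jn le_rfl hσ0 _).trans h5) (3 * η) T'
  rw [hq] at b₁
  have hdi : IntegrableOn (fun t => h t - q η t) (Ioo 0 T') :=
    Integrable.mono' (integrableOn_const (C := M + M) measure_Ioo_lt_top.ne) (hdm η hη)
      ((ae_restrict_mem measurableSet_Ioo).mono (hdb η hη))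
  have hdi2 : IntegrableOn (fun t => (h t - q η t) ^ 2) (Ioo 0 T') :=
    Integrable.mono' (integrableOn_const (C := (M + M) ^ 2) measure_Ioo_lt_top.ne)
      ((hdm η hη).pow 2) ((ae_restrict_mem measurableSet_Ioo).mono fun t ht => by
        rw [Real.norm_eq_abs, abs_pow]
        exact pow_le_pow_left₀ (abs_nonneg _) (hdb η hη t ht) 2)
  let k : ℝ → ℝ := (Ioo 0 T').indicator fun t => h t - q η t
  have hk1 : Integrable k := (integrable_indicator_iff measurableSet_Ioo).mpr hdi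
  have hk2 : (fun t => k t ^ 2) = (Ioo 0 T').indicator fun t => (h t - q η t) ^ 2 := by
    funext t
    by_cases ht : t ∈ Ioo 0 T' <;> simp [k, ht]
  have hbd : ∀ (χ : SchwartzMap ℝ ℂ) {g : ℝ → ℂ}, Integrable g → Integrable fun x => χ x * g x :=
    fun χ g hg => hg.bdd_mul (c := SchwartzMap.seminorm ℝ 0 0 χ) χ.continuous.aestronglyMeasurable
      (Eventually.of_forall fun x => SchwartzMap.norm_le_seminorm ℝ χ x)
  have hsplit : ∀ χ : SchwartzMap ℝ ℂ, tsupport χ ⊆ Iio T' → ofFun T' h χ =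
      ((fun χ : SchwartzMap ℝ ℂ => ∫ x, χ x * (q η x : ℂ)) +
        fun χ : SchwartzMap ℝ ℂ => ∫ x, χ x * (k x : ℂ)) χ := by
    intro χ hχ
    rw [Pi.add_apply, ← integral_add (hbd χ hqi) (hbd χ (g := fun x => (k x : ℂ)) hk1.ofReal), ofFun,
      ← integral_indicator measurableSet_Ioo]
    refine integral_congr_ae (Eventually.of_forall fun x => ?_)
    beta_reduce
    by_cases hx : x ∈ Ioo 0 T'
    · simp only [k, indicator_of_mem hx]
      push_cast
      ring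
    · simp only [k, indicator_of_notMem hx, Complex.ofReal_zero, mul_zero, add_zero]
      rcases not_and_or.mp hx with h6 | h6
      · simp only [q]
        rw [indicator_of_notMem fun h7 => h6 (by linarith [h7.1]), Complex.ofReal_zero, mul_zero]
      · rw [image_eq_zero_of_notMem_tsupport (f := χ) fun h7 => h6 (hχ h7), zero_mul]
  have hm : AEStronglyMeasurable (𝓕 fun t => (q η t : ℂ)) volume :=
    (VectorFourier.fourierIntegral_continuous Real.continuous_fourierChar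
      (continuous_inner (𝕜 := ℝ)) hqi).aestronglyMeasurable
  have n₁ := (hNorm_le_jn (σ := σ) (W := Iio T') hm
    fun χ _ => integral_mul_eq_fourier hqi χ).trans
      ((jn_le_nrm hσ1 hσ0 _).trans (mul_le_mul_right b₁ _))
  have n₂ := hNorm_le_L2 (W := Iio T') (f := fun χ : SchwartzMap ℝ ℂ => ∫ x, χ x * (k x : ℂ)) hσ0
    hk1 (hk2 ▸ (integrable_indicator_iff measurableSet_Ioo).mpr hdi2) fun _ _ => rfl
  rw [hk2, integral_indicator measurableSet_Ioo] at n₂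
  have n₃ := n₂.trans (ENNReal.ofReal_le_ofReal (Real.sqrt_le_iff.mpr ⟨by positivity, h1⟩))
  rw [bn, hNorm_congr hsplit]
  refine (hNorm_add_le _ _).trans ((add_le_add n₁ n₃).trans (le_of_eq ?_))
  have e1 : (350 : ℝ≥0∞) * N = ENNReal.ofReal (350 * N.toReal) := by
    rw [ENNReal.ofReal_mul (by norm_num), ENNReal.ofReal_toReal hN', ENNReal.ofReal_ofNat]
  rw [e1, ← ENNReal.ofReal_ofNat 7, ← ENNReal.ofReal_mul (by norm_num),
    ← ENNReal.ofReal_add (by positivity) (by positivity), ← ENNReal.ofReal_coe_nnreal,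
    ← ENNReal.ofReal_add (by positivity) hε'.le]
  refine congrArg _ ?_
  ring

end Pool.Agent.Lib.MP_14aec4_an.W
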