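import Pool.Agent.Lib.MP_14aec4_an.HN

/-!
One-sided mollification.
-/

noncomputable section

open MeasureTheory Set Filter Topology FourierTransform
open scoped ENNReal ComplexConjugate

namespace Pool.Agent.Lib.MP_14aec4_an.W

/-- A fixed bump supported in `[1, 2]`. -/
lemma exists_theta : ∃ θ : ℝ → ℝ, ContDiff ℝ (⊤ : ℕ∞) θ ∧ (∀ x, 0 ≤ θ x) ∧
    (∀ x, x ∉ Icc (1 : ℝ) 2 → θ x = 0) ∧ ∫ x, θ x = 1 := by
  let f : ContDiffBump (3 / 2 : ℝ) := ⟨1 / 4, 1 / 2, by norm_num, by norm_num⟩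
  refine ⟨f.normed volume, f.contDiff_normed, f.nonneg_normed, fun x hx => ?_, f.integral_normed⟩
  by_contra h
  have h1 : x ∈ Function.support (f.normed volume) := h
  rw [f.support_normed_eq, Real.ball_eq_Ioo] at h1
  exact hx ⟨by have := h1.1; norm_num [f] at this; linarith,
    by have := h1.2; norm_num [f] at this; linarith⟩

lemma moll0_supp {θ : ℝ → ℝ} (h₁ : ∀ x, x ∉ Icc (1 : ℝ) 2 → θ x = 0) (η x : ℝ) :
    Function.support (fun y => ((θ ((x - y) / η) / |η| : ℝ) : ℂ)) ⊆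
      uIcc (x - η) (x - 2 * η) := by
  intro y hy
  have hη : η ≠ 0 := by
    rintro rfl
    simp at hy
  have h2 : (x - y) / η ∈ Icc (1 : ℝ) 2 := by
    by_contra h
    simp [h₁ _ h] at hy
  have h3 : y = x - (x - y) / η * η := by field_simp; ring
  rw [mem_uIcc]
  rcases lt_or_gt_of_ne hη with h | h
  · left
    constructor <;> nlinarith [h2.1, h2.2]
  · right
    constructor <;> nlinarith [h2.1, h2.2]

lemma moll0_psi {θ : ℝ → ℝ} (hθ : ContDiff ℝ (⊤ : ℕ∞) θ) (h₁ : ∀ x, x ∉ Icc (1 : ℝ) 2 → θ x = 0)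
    (η x : ℝ) : ∃ ψ : SchwartzMap ℝ ℂ, ∀ y, ψ y = ((θ ((x - y) / η) / |η| : ℝ) : ℂ) := by
  have a : HasCompactSupport fun y => ((θ ((x - y) / η) / |η| : ℝ) : ℂ) :=
    HasCompactSupport.of_support_subset_isCompact isCompact_uIcc (moll0_supp h₁ η x)
  have b : ContDiff ℝ (⊤ : ℕ∞) fun y => ((θ ((x - y) / η) / |η| : ℝ) : ℂ) :=
    Complex.ofRealCLM.contDiff.comp
      ((hθ.comp ((contDiff_const.sub contDiff_id).div_const η)).div_const |η|)
  exact ⟨a.toSchwartzMap b, fun _ => rfl⟩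

lemma moll0_fourier (θ : ℝ → ℝ) {η : ℝ} (hη : η ≠ 0) (x ξ : ℝ) :
    𝓕⁻ (fun y => ((θ ((x - y) / η) / |η| : ℝ) : ℂ)) ξ =
      Complex.exp (↑(2 * Real.pi * ξ * x) * Complex.I) * 𝓕 (fun y => (θ y : ℂ)) (η * ξ) := by
  rw [Real.fourierInv_eq_fourier_neg, Real.fourier_real_eq_integral_exp_smul,
    Real.fourier_real_eq_integral_exp_smul, ← integral_const_mul]
  set g : ℝ → ℂ := fun z => Complex.exp (↑(2 * Real.pi * ξ * x) * Complex.I) *
    (Complex.exp (↑(-2 * Real.pi * z * (η * ξ)) * Complex.I) • (θ z : ℂ)) with hg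
  have h1 : ∀ y : ℝ, Complex.exp (↑(-2 * Real.pi * y * (-ξ)) * Complex.I) •
      ((θ ((x - y) / η) / |η| : ℝ) : ℂ) = (|η|⁻¹ : ℝ) • g ((x - y) / η) := by
    intro y
    simp only [hg, smul_eq_mul, Complex.real_smul]
    rw [← mul_assoc (Complex.exp _), ← Complex.exp_add]
    have e : (↑(2 * Real.pi * ξ * x) * Complex.I + ↑(-2 * Real.pi * ((x - y) / η) * (η * ξ)) *
        Complex.I : ℂ) = ↑(-2 * Real.pi * y * (-ξ)) * Complex.I := by
      rw [← add_mul, ← Complex.ofReal_add]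
      congr 2
      field_simp
      ring
    rw [e]
    push_cast
    ring
  simp_rw [h1]
  rw [integral_smul, integral_sub_left_eq_self (fun y => g (y / η)) volume x,
    Measure.integral_comp_div, smul_smul, inv_mul_cancel₀ (abs_ne_zero.2 hη), one_smul]

lemma moll0_conj {A : ℝ → ℂ} (hs : ∀ ξ, A (-ξ) = conj (A ξ)) (x : ℝ) :
    conj (𝓕 A x) = 𝓕 A x := by
  rw [Real.fourier_real_eq_integral_exp_smul, ← integral_conj,
    ← integral_neg_eq_self]
  refine integral_congr_ae (Eventually.of_forall fun v => ?_)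
  simp only [smul_eq_mul, map_mul, hs, Complex.conj_conj, ← Complex.exp_conj, Complex.conj_ofReal,
    Complex.conj_I]
  congr 2
  push_cast
  ring

lemma moll0_conj' (θ : ℝ → ℝ) (ξ : ℝ) :
    𝓕 (fun y => (θ y : ℂ)) (-ξ) = conj (𝓕 (fun y => (θ y : ℂ)) ξ) := by
  rw [Real.fourier_real_eq_integral_exp_smul, Real.fourier_real_eq_integral_exp_smul,
    ← integral_conj]
  refine integral_congr_ae (Eventually.of_forall fun v => ?_)
  simp only [smul_eq_mul, map_mul, ← Complex.exp_conj, Complex.conj_ofReal, Complex.conj_I]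
  congr 2
  push_cast
  ring

lemma moll0_norm_le {θ : ℝ → ℝ} (h₀ : ∀ x, 0 ≤ θ x) (h₂ : ∫ x, θ x = 1) (ξ : ℝ) :
    ‖𝓕 (fun y => (θ y : ℂ)) ξ‖ ≤ 1 := by
  rw [Real.fourier_eq, ← h₂]
  refine (norm_integral_le_integral_norm _).trans (le_of_eq ?_)
  refine integral_congr_ae (Eventually.of_forall fun v => ?_)
  simp [Circle.norm_smul, abs_of_nonneg (h₀ v)]

lemma moll0_zero {θ : ℝ → ℝ} (h₂ : ∫ x, θ x = 1) : 𝓕 (fun y => (θ y : ℂ)) (0 : ℝ) = 1 := by
  rw [Real.fourier_real_eq_integral_exp_smul]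
  simp [integral_complex_ofReal, h₂]

lemma moll0_int {σ : ℝ} {G : ℝ → ℂ} (hG : Measurable G) (hfin : jn σ G < ⊤)
    (φ : SchwartzMap ℝ ℂ) (n : ℕ) : Integrable fun ξ => (1 + |ξ|) ^ n * ‖G ξ * φ ξ‖ := by
  have hw : (fun ξ : ℝ => (((2 + 2 * ξ ^ 2) ^ n : ℝ) : ℂ)).HasTemperateGrowth := by fun_prop
  have h1 := integrable_mul_fourierInv hG.aestronglyMeasurable hfin
    (𝓕 (SchwartzMap.smulLeftCLM ℂ (fun ξ : ℝ => (((2 + 2 * ξ ^ 2) ^ n : ℝ) : ℂ)) φ))
  rw [← SchwartzMap.fourierInv_coe, FourierTransform.fourierInv_fourier_eq] at h1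
  refine h1.norm.mono' ?_ (Eventually.of_forall fun ξ => ?_)
  · have := φ.continuous.measurable
    exact Measurable.aestronglyMeasurable (by fun_prop)
  · rw [SchwartzMap.smulLeftCLM_apply_apply hw, Real.norm_of_nonneg (by positivity), norm_mul,
      norm_mul, norm_smul, Complex.norm_real, Real.norm_of_nonneg (by positivity)]
    have : (1 + |ξ|) ^ n ≤ (2 + 2 * ξ ^ 2) ^ n :=
      pow_le_pow_left₀ (by positivity) (by nlinarith [sq_abs ξ, sq_nonneg (|ξ| - 1)]) n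
    calc (1 + |ξ|) ^ n * (‖G ξ‖ * ‖φ ξ‖) ≤ (2 + 2 * ξ ^ 2) ^ n * (‖G ξ‖ * ‖φ ξ‖) := by gcongr
      _ = _ := by ring

lemma moll0_tendsto {H : ℝ → ℂ} (hH : Measurable H) (hfin : eLpNorm H 2 volume < ⊤) {m : ℝ → ℂ}
    (hm : Continuous m) (hb : ∀ ξ, ‖m ξ‖ ≤ 1) (h0 : m 0 = 1) :
    Tendsto (fun η : ℝ => eLpNorm (fun ξ => H ξ * (m (η * ξ) - 1)) 2 volume) (𝓝 0) (𝓝 0) := by
  have h2 : eLpNorm (fun ξ => (2 : ℂ) * H ξ) 2 volume < ⊤ :=
    (MemLp.const_mul ⟨hH.aestronglyMeasurable, hfin⟩ 2).2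
  simp only [eLpNorm_eq_lintegral_rpow_enorm_toReal two_ne_zero ENNReal.ofNat_ne_top,
    ENNReal.toReal_ofNat] at h2 ⊢
  have h3 : Tendsto (fun η : ℝ => ∫⁻ ξ, ‖H ξ * (m (η * ξ) - 1)‖ₑ ^ (2 : ℝ)) (𝓝 0)
      (𝓝 (∫⁻ _ : ℝ, 0)) := by
    refine tendsto_lintegral_filter_of_dominated_convergence
      (fun ξ => ‖(2 : ℂ) * H ξ‖ₑ ^ (2 : ℝ)) (Eventually.of_forall fun η => ?_)
      (Eventually.of_forall fun η => Eventually.of_forall fun ξ => ?_) ?_
      (Eventually.of_forall fun ξ => ?_)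
    · have := hm.measurable
      fun_prop
    · refine ENNReal.rpow_le_rpow ?_ (by norm_num)
      rw [← ofReal_norm, ← ofReal_norm]
      refine ENNReal.ofReal_le_ofReal ?_
      rw [norm_mul, norm_mul, mul_comm]
      refine mul_le_mul_of_nonneg_right ((norm_sub_le _ _).trans ?_) (norm_nonneg _)
      have := hb (η * ξ)
      simp only [norm_one, Complex.norm_ofNat]
      linarith
    · intro h
      rw [h, ENNReal.top_rpow_of_pos (by norm_num)] at h2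
      exact lt_irrefl _ h2
    · have c : Continuous fun η : ℝ => ‖H ξ * (m (η * ξ) - 1)‖ₑ ^ (2 : ℝ) :=
        ENNReal.continuous_rpow_const.comp (by fun_prop)
      have := c.tendsto 0
      simpa [h0] using this
  have h4 := (ENNReal.continuous_rpow_const (y := 1 / 2)).tendsto _ |>.comp h3
  simpa [Function.comp_def] using h4

/-- Mollification at scale `η ≠ 0`: `A = G * 𝓕 θ (η ·)`, `p = 𝓕⁻ A`; `p x` is the value of the
distribution on the test function `y ↦ θ ((x - y) / η) / |η|`. -/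
theorem moll {σ : ℝ} {θ : ℝ → ℝ} (hθ : ContDiff ℝ (⊤ : ℕ∞) θ) (h₀ : ∀ x, 0 ≤ θ x)
    (h₁ : ∀ x, x ∉ Icc (1 : ℝ) 2 → θ x = 0) (h₂ : ∫ x, θ x = 1) {G : ℝ → ℂ} (hG : Measurable G)
    (hfin : jn σ G < ⊤) (hs : ∀ ξ, G (-ξ) = conj (G ξ)) :
    ∃ (A : ℝ → ℝ → ℂ) (p : ℝ → ℝ → ℝ) (ψ : ℝ → ℝ → SchwartzMap ℝ ℂ),
      (∀ η ≠ 0, Measurable (A η) ∧ (∀ n : ℕ, Integrable fun ξ => (1 + |ξ|) ^ n * ‖A η ξ‖) ∧
        ContDiff ℝ (⊤ : ℕ∞) (p η) ∧ (∀ x, 𝓕⁻ (A η) x = (p η x : ℂ)) ∧ jn σ (A η) ≤ jn σ G ∧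
        ∀ x, tsupport (ψ η x) ⊆ uIcc (x - η) (x - 2 * η) ∧
          (∀ y, ψ η x y = ((θ ((x - y) / η) / |η| : ℝ) : ℂ)) ∧
          (p η x : ℂ) = ∫ ξ, G ξ * 𝓕⁻ (ψ η x : ℝ → ℂ) ξ) ∧
      Tendsto (fun η => jn σ fun ξ => A η ξ - G ξ) (𝓝[≠] 0) (𝓝 0) := by
  choose ψ hψ using moll0_psi hθ h₁
  have hψ' : ∀ η x, (ψ η x : ℝ → ℂ) = fun y => ((θ ((x - y) / η) / |η| : ℝ) : ℂ) :=
    fun η x => funext (hψ η x)
  set m : ℝ → ℂ := 𝓕 fun y => (θ y : ℂ) with hm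
  have hφ : ∀ η ≠ 0, ∀ ξ, m (η * ξ) = (𝓕⁻ (ψ η 0) : SchwartzMap ℝ ℂ) ξ := by
    intro η hη ξ
    rw [SchwartzMap.fourierInv_coe, hψ', moll0_fourier θ hη]
    simp [hm]
  have hmc : Continuous m := by
    have : m = (𝓕⁻ (ψ 1 0) : SchwartzMap ℝ ℂ) := funext fun ξ => by
      rw [← hφ 1 one_ne_zero, one_mul]
    rw [this]
    exact SchwartzMap.continuous _
  have hmb : ∀ ξ, ‖m ξ‖ ≤ 1 := moll0_norm_le h₀ h₂
  refine ⟨fun η ξ => G ξ * m (η * ξ), fun η x => (𝓕⁻ (fun ξ => G ξ * m (η * ξ)) x).re, ψ,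
    fun η hη => ?_, ?_⟩
  · have hint : ∀ n : ℕ, Integrable fun ξ => (1 + |ξ|) ^ n * ‖G ξ * m (η * ξ)‖ := by
      intro n
      simp_rw [hφ η hη]
      exact moll0_int hG hfin _ n
    have hmeas : Measurable fun ξ => G ξ * m (η * ξ) := by
      have := hmc.measurable
      fun_prop
    have hre : ∀ x, 𝓕⁻ (fun ξ => G ξ * m (η * ξ)) x =
        ((𝓕⁻ (fun ξ => G ξ * m (η * ξ)) x).re : ℂ) := by
      intro x
      refine (Complex.conj_eq_iff_re.1 ?_).symm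
      rw [Real.fourierInv_eq_fourier_neg]
      refine moll0_conj (fun ξ => ?_) _
      rw [hs, mul_neg, hm, moll0_conj', map_mul]
    refine ⟨hmeas, hint, ?_, hre, ?_, fun x => ⟨?_, hψ η x, ?_⟩⟩
    · have h3 : ContDiff ℝ (⊤ : ℕ∞) (𝓕 fun ξ => G ξ * m (η * ξ)) := by
        refine Real.contDiff_fourier fun n _ => (hint n).mono' ?_ (Eventually.of_forall fun ξ => ?_)
        · exact Measurable.aestronglyMeasurable (by fun_prop)
        · rw [Real.norm_of_nonneg (by positivity), Real.norm_eq_abs]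
          gcongr
          linarith
      simp_rw [Real.fourierInv_eq_fourier_neg]
      exact Complex.reCLM.contDiff.comp (h3.comp contDiff_neg)
    · refine eLpNorm_mono fun ξ => ?_
      simp only [norm_mul]
      refine mul_le_mul_of_nonneg_left ?_ (norm_nonneg _)
      exact mul_le_of_le_one_right (norm_nonneg _) (hmb _)
    · rw [hψ']
      exact closure_minimal (moll0_supp h₁ η x) isCompact_uIcc.isClosed
    · rw [← hre, hψ', Real.fourierInv_eq_fourier_neg, Real.fourier_real_eq_integral_exp_smul]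
      refine integral_congr_ae (Eventually.of_forall fun ξ => ?_)
      simp only [moll0_fourier θ hη, smul_eq_mul]
      rw [mul_left_comm]
      congr 3
      push_cast
      ring
  · have := moll0_tendsto (H := fun ξ : ℝ => (((1 + ξ ^ 2) ^ (σ / 2) : ℝ) : ℂ) * G ξ)
      (by fun_prop) hfin hmc hmb (moll0_zero h₂)
    refine (this.mono_left nhdsWithin_le_nhds).congr fun η => ?_
    unfold jn
    congr 1
    funext ξ
    ring

end Pool.Agent.Lib.MP_14aec4_an.W
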