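import Pool.Agent.Lib.MP_14aec4_an.Schur0

/-!
Schur's test and the product estimates.
-/

noncomputable section

open MeasureTheory Set Filter Topology FourierTransform
open scoped ENNReal ComplexConjugate

namespace Pool.Agent.Lib.MP_14aec4_an.W

/-- The `L²` norm of a nonnegative function. -/
def schur_N (f : ℝ → ℝ≥0∞) : ℝ≥0∞ := (∫⁻ x, f x ^ 2) ^ ((1 : ℝ) / 2)

lemma schur_cs {f g : ℝ → ℝ≥0∞} (hf : Measurable f) (hg : Measurable g) :
    ∫⁻ x, f x * g x ≤ schur_N f * schur_N g := by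
  have h := ENNReal.lintegral_mul_le_Lp_mul_Lq volume Real.HolderConjugate.two_two
    hf.aemeasurable hg.aemeasurable
  simpa only [schur_N, Pi.mul_apply, ENNReal.rpow_two] using h

lemma schur_N_sub_left (f : ℝ → ℝ≥0∞) (τ : ℝ) : schur_N (fun a => f (τ - a)) = schur_N f := by
  unfold schur_N
  rw [lintegral_sub_left_eq_self (fun x => f x ^ 2) τ]

lemma schur_N_sub_right (f : ℝ → ℝ≥0∞) (a : ℝ) : schur_N (fun τ => f (τ - a)) = schur_N f := by
  unfold schur_N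
  rw [lintegral_sub_right_eq_self (fun x => f x ^ 2) a]

lemma schur_T1 {P G C : ℝ → ℝ≥0∞} (hP : Measurable P) (hG : Measurable G) (hC : Measurable C) :
    ∫⁻ τ, ∫⁻ a, P a * G (τ - a) * C τ ≤ (∫⁻ a, P a) * (schur_N G * schur_N C) := by
  rw [lintegral_lintegral_swap (by fun_prop), ← lintegral_mul_const _ hP]
  refine lintegral_mono fun a => ?_
  have h1 : ∫⁻ τ, P a * G (τ - a) * C τ = P a * ∫⁻ τ, G (τ - a) * C τ := by
    rw [← lintegral_const_mul _ (by fun_prop)]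
    exact lintegral_congr fun τ => mul_assoc _ _ _
  rw [h1]
  refine mul_le_mul_right ?_ _
  have h2 := schur_cs (f := fun τ => G (τ - a)) (g := C) (by fun_prop) hC
  rwa [schur_N_sub_right] at h2

lemma schur_T2 {F P C : ℝ → ℝ≥0∞} (hF : Measurable F) (hP : Measurable P) (hC : Measurable C) :
    ∫⁻ τ, ∫⁻ a, F a * P (τ - a) * C τ ≤ (∫⁻ a, P a) * (schur_N F * schur_N C) := by
  refine le_trans (le_of_eq ?_) (schur_T1 hP hF hC)
  refine lintegral_congr fun τ => ?_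
  rw [← lintegral_sub_left_eq_self (fun a => P a * F (τ - a) * C τ) τ]
  refine lintegral_congr fun a => ?_
  simp only [sub_sub_cancel]
  ring

lemma schur_T3 {F G P : ℝ → ℝ≥0∞} (hF : Measurable F) (hG : Measurable G) (hP : Measurable P) :
    ∫⁻ τ, ∫⁻ a, F a * G (τ - a) * P τ ≤ (∫⁻ a, P a) * (schur_N F * schur_N G) := by
  rw [← lintegral_mul_const _ hP]
  refine lintegral_mono fun τ => ?_
  rw [lintegral_mul_const _ (by fun_prop), mul_comm]
  refine mul_le_mul_right ?_ _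
  have h2 := schur_cs (f := F) (g := fun a => G (τ - a)) hF (by fun_prop)
  rwa [schur_N_sub_left] at h2

/-- The weight `om ^ (-2/3)`. -/
def schur_u (γ τ : ℝ) : ℝ := om γ τ ^ (-(2 : ℝ) / 3)

lemma schur_u_nonneg (γ τ : ℝ) : 0 ≤ schur_u γ τ := Real.rpow_nonneg (om_nonneg γ τ) _

lemma schur_meas_u {γ : ℝ} (hγ : 0 < γ) : Measurable fun τ => ENNReal.ofReal (schur_u γ τ) :=
  ENNReal.measurable_ofReal.comp (continuous_om_rpow hγ _).measurable

lemma schur_N_u {γ : ℝ} (hγ : 0 < γ) :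
    schur_N (fun τ => ENNReal.ofReal (schur_u γ τ)) = ENNReal.ofReal (aa γ) := by
  unfold schur_N
  have h1 : ∀ τ, ENNReal.ofReal (schur_u γ τ) ^ 2 = ENNReal.ofReal (om γ τ ^ (-(4 : ℝ) / 3)) := by
    intro τ
    rw [← ENNReal.ofReal_pow (schur_u_nonneg γ τ)]
    congr 1
    unfold schur_u
    rw [← Real.rpow_natCast, ← Real.rpow_mul (om_nonneg γ τ)]
    norm_num
  simp only [h1]
  rw [lintegral_om_rpow hγ, ENNReal.ofReal_pow (aa_nonneg γ), ← ENNReal.rpow_natCast,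
    ← ENNReal.rpow_mul]
  norm_num

/-- The weighted modulus. -/
def schur_F (γ : ℝ) (w : ℝ → ℝ) (σ : ℝ) (A : ℝ → ℂ) (τ : ℝ) : ℝ≥0∞ :=
  ENNReal.ofReal (om γ τ ^ σ * w τ) * ‖A τ‖ₑ

lemma schur_w_nonneg {w : ℝ → ℝ} (hw : Adm w) (τ : ℝ) : 0 ≤ w τ :=
  zero_le_one.trans (hw.one_le τ)

lemma schur_bd_iff {γ : ℝ} {w : ℝ → ℝ} (hw : Adm w) (σ : ℝ) (A : ℝ → ℂ) (c : ℝ) :
    Bd γ w σ A c ↔ schur_N (schur_F γ w σ A) ≤ ENNReal.ofReal c := by
  unfold Bd
  rw [nrm_eq (schur_w_nonneg hw)]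
  rfl

lemma schur_meas_F {γ : ℝ} (hγ : 0 < γ) {w : ℝ → ℝ} (hw : Adm w) (σ : ℝ) {A : ℝ → ℂ}
    (hA : Measurable A) : Measurable (schur_F γ w σ A) :=
  (ENNReal.measurable_ofReal.comp ((continuous_om_rpow hγ σ).mul hw.cont).measurable).mul
    hA.enorm

lemma schur_bd_congr {γ σ c : ℝ} {w : ℝ → ℝ} {A A' : ℝ → ℂ} (h : A =ᵐ[volume] A')
    (b : Bd γ w σ A c) : Bd γ w σ A' c := by
  unfold Bd nrm at *
  rwa [← eLpNorm_congr_ae (f := fun τ => ((om γ τ ^ σ * w τ : ℝ) : ℂ) * A τ)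
    (h.mono fun τ hτ => by simp only [hτ])]

lemma schur_cv_congr {A A' B B' : ℝ → ℂ} (hA : A =ᵐ[volume] A') (hB : B =ᵐ[volume] B') :
    cv A B = cv A' B' := by
  funext τ
  unfold cv
  refine integral_congr_ae ?_
  have h2 : (fun a => B (τ - a)) =ᵐ[volume] fun a => B' (τ - a) :=
    (Measure.measurePreserving_sub_left volume τ).quasiMeasurePreserving.ae_eq hB
  filter_upwards [hA, h2] with a h1 h2
  rw [h1, h2]

lemma schur_enorm_cv (A B : ℝ → ℂ) (τ : ℝ) :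
    ‖cv A B τ‖ₑ ≤ ∫⁻ a, ‖A a‖ₑ * ‖B (τ - a)‖ₑ := by
  unfold cv
  refine (enorm_integral_le_lintegral_enorm _).trans (le_of_eq ?_)
  exact lintegral_congr fun a => enorm_mul _ _

/-- The bound on the norm from a measurable majorant and duality. -/
lemma schur_of_dual {H H' : ℝ → ℝ≥0∞} (hH' : Measurable H') (hle : ∀ τ, H τ ≤ H' τ) {M : ℝ≥0∞}
    (h : ∀ C : ℝ → ℝ≥0∞, Measurable C → ∫⁻ τ, H' τ * C τ ≤ M * schur_N C) : schur_N H ≤ M := by
  refine le_trans ?_ (lintegral_sq_le_of_dual hH'.aemeasurable h)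
  unfold schur_N
  refine ENNReal.rpow_le_rpow (lintegral_mono fun τ => ?_) (by norm_num)
  exact pow_le_pow_left' (hle τ) 2

lemma schur_bil_meas {γ σ σ₁ σ₂ θ₁ θ₂ θ₃ c₁ c₂ : ℝ} {w : ℝ → ℝ} {A B : ℝ → ℂ} (hγ : 0 < γ)
    (hw : Adm w) (hA : Measurable A) (hB : Measurable B) (h₁ : 0 ≤ c₁)
    (t₁ : 0 ≤ θ₁) (t₂ : 0 ≤ θ₂) (t₃ : 0 ≤ θ₃)
    (hk : ∀ a b, om γ (a + b) ^ σ ≤
      (θ₁ * schur_u γ a + θ₂ * schur_u γ b + θ₃ * schur_u γ (a + b)) * om γ a ^ σ₁ * om γ b ^ σ₂)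
    (bA : Bd γ w σ₁ A c₁) (bB : Bd γ w σ₂ B c₂) :
    Bd γ w σ (cv A B) ((θ₁ + θ₂ + θ₃) * aa γ * c₁ * c₂) := by
  rw [schur_bd_iff hw] at bA bB ⊢
  set F := schur_F γ w σ₁ A with hFdef
  set G := schur_F γ w σ₂ B with hGdef
  set U : ℝ → ℝ≥0∞ := fun τ => ENNReal.ofReal (schur_u γ τ) with hUdef
  have hF : Measurable F := schur_meas_F hγ hw σ₁ hA
  have hG : Measurable G := schur_meas_F hγ hw σ₂ hB
  have hU : Measurable U := schur_meas_u hγ
  have hNU : schur_N U = ENNReal.ofReal (aa γ) := schur_N_u hγ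
  set T₁ := ENNReal.ofReal θ₁
  set T₂ := ENNReal.ofReal θ₂
  set T₃ := ENNReal.ofReal θ₃
  refine schur_of_dual (H' := fun τ => ∫⁻ a, (T₁ * U a + T₂ * U (τ - a) + T₃ * U τ) * F a *
    G (τ - a)) ?_ ?_ ?_
  · exact Measurable.lintegral_prod_right' (f := fun p : ℝ × ℝ =>
      (T₁ * U p.2 + T₂ * U (p.1 - p.2) + T₃ * U p.1) * F p.2 * G (p.1 - p.2)) (by fun_prop)
  · intro τ
    unfold schur_F
    refine (mul_le_mul_right (schur_enorm_cv A B τ) _).trans ?_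
    rw [← lintegral_const_mul' _ _ ENNReal.ofReal_ne_top]
    refine lintegral_mono fun a => ?_
    have e1 : T₁ * U a + T₂ * U (τ - a) + T₃ * U τ = ENNReal.ofReal
        (θ₁ * schur_u γ a + θ₂ * schur_u γ (τ - a) + θ₃ * schur_u γ τ) := by
      have n1 := mul_nonneg t₁ (schur_u_nonneg γ a)
      have n2 := mul_nonneg t₂ (schur_u_nonneg γ (τ - a))
      have n3 := mul_nonneg t₃ (schur_u_nonneg γ τ)
      rw [ENNReal.ofReal_add (add_nonneg n1 n2) n3, ENNReal.ofReal_add n1 n2,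
        ENNReal.ofReal_mul t₁, ENNReal.ofReal_mul t₂, ENNReal.ofReal_mul t₃]
    have k0 : 0 ≤ θ₁ * schur_u γ a + θ₂ * schur_u γ (τ - a) + θ₃ * schur_u γ τ :=
      add_nonneg (add_nonneg (mul_nonneg t₁ (schur_u_nonneg γ a))
        (mul_nonneg t₂ (schur_u_nonneg γ _))) (mul_nonneg t₃ (schur_u_nonneg γ τ))
    have a0 : 0 ≤ om γ a ^ σ₁ := Real.rpow_nonneg (om_nonneg γ a) _
    have b0 : 0 ≤ om γ (τ - a) ^ σ₂ := Real.rpow_nonneg (om_nonneg γ _) _
    have hk' := hk a (τ - a)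
    have hw' := hw.submul a (τ - a)
    rw [add_sub_cancel] at hk' hw'
    have e2 : ENNReal.ofReal (om γ τ ^ σ * w τ) ≤ ENNReal.ofReal
        (θ₁ * schur_u γ a + θ₂ * schur_u γ (τ - a) + θ₃ * schur_u γ τ) *
          ENNReal.ofReal (om γ a ^ σ₁ * w a) *
          ENNReal.ofReal (om γ (τ - a) ^ σ₂ * w (τ - a)) := by
      rw [← ENNReal.ofReal_mul k0, ← ENNReal.ofReal_mul
        (mul_nonneg k0 (mul_nonneg a0 (schur_w_nonneg hw a)))]
      refine ENNReal.ofReal_le_ofReal ?_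
      refine (mul_le_mul hk' hw' (schur_w_nonneg hw τ)
        (mul_nonneg (mul_nonneg k0 a0) b0)).trans (le_of_eq ?_)
      ring
    simp only [e1, hFdef, hGdef, schur_F]
    refine (mul_le_mul_left e2 _).trans (le_of_eq ?_)
    ring
  · intro C hC
    have e1 : ∫⁻ τ, (∫⁻ a, (T₁ * U a + T₂ * U (τ - a) + T₃ * U τ) * F a * G (τ - a)) * C τ =
        T₁ * (∫⁻ τ, ∫⁻ a, (U a * F a) * G (τ - a) * C τ) +
        T₂ * (∫⁻ τ, ∫⁻ a, F a * (U (τ - a) * G (τ - a)) * C τ) +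
        T₃ * (∫⁻ τ, ∫⁻ a, F a * G (τ - a) * (U τ * C τ)) := by
      have m1 : Measurable fun τ => ∫⁻ a, (U a * F a) * G (τ - a) * C τ :=
        Measurable.lintegral_prod_right' (f := fun p : ℝ × ℝ =>
          (U p.2 * F p.2) * G (p.1 - p.2) * C p.1) (by fun_prop)
      have m2 : Measurable fun τ => ∫⁻ a, F a * (U (τ - a) * G (τ - a)) * C τ :=
        Measurable.lintegral_prod_right' (f := fun p : ℝ × ℝ =>
          F p.2 * (U (p.1 - p.2) * G (p.1 - p.2)) * C p.1) (by fun_prop)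
      have m3 : Measurable fun τ => ∫⁻ a, F a * G (τ - a) * (U τ * C τ) :=
        Measurable.lintegral_prod_right' (f := fun p : ℝ × ℝ =>
          F p.2 * G (p.1 - p.2) * (U p.1 * C p.1)) (by fun_prop)
      rw [← lintegral_const_mul _ m1, ← lintegral_const_mul _ m2, ← lintegral_const_mul _ m3,
        ← lintegral_add_left (m1.const_mul _), ← lintegral_add_right _ (m3.const_mul _)]
      refine lintegral_congr fun τ => ?_
      rw [← lintegral_mul_const _ (by fun_prop), ← lintegral_const_mul _ (by fun_prop),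
        ← lintegral_const_mul _ (by fun_prop), ← lintegral_const_mul _ (by fun_prop),
        ← lintegral_add_left (by fun_prop), ← lintegral_add_left (by fun_prop)]
      refine lintegral_congr fun a => ?_
      ring
    rw [e1]
    have b1 := schur_T1 (P := fun a => U a * F a) (hU.mul hF) hG hC
    have b2 := schur_T2 (P := fun a => U a * G a) hF (hU.mul hG) hC
    have b3 := schur_T3 (P := fun a => U a * C a) hF hG (hU.mul hC)
    have c1 := schur_cs hU hF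
    have c2 := schur_cs hU hG
    have c3 := schur_cs hU hC
    rw [hNU] at c1 c2 c3
    have e2 : ENNReal.ofReal ((θ₁ + θ₂ + θ₃) * aa γ * c₁ * c₂) =
        (T₁ + T₂ + T₃) * ENNReal.ofReal (aa γ) * ENNReal.ofReal c₁ * ENNReal.ofReal c₂ := by
      have s0 : 0 ≤ θ₁ + θ₂ + θ₃ := by positivity
      rw [ENNReal.ofReal_mul (mul_nonneg (mul_nonneg s0 (aa_nonneg γ)) h₁),
        ENNReal.ofReal_mul (mul_nonneg s0 (aa_nonneg γ)), ENNReal.ofReal_mul s0,
        ENNReal.ofReal_add (add_nonneg t₁ t₂) t₃, ENNReal.ofReal_add t₁ t₂]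
    rw [e2]
    have d1 : (∫⁻ τ, ∫⁻ a, (U a * F a) * G (τ - a) * C τ) ≤
        ENNReal.ofReal (aa γ) * ENNReal.ofReal c₁ * ENNReal.ofReal c₂ * schur_N C := by
      refine b1.trans ?_
      calc _ ≤ (ENNReal.ofReal (aa γ) * ENNReal.ofReal c₁) * (ENNReal.ofReal c₂ * schur_N C) := by
            gcongr
            exact c1.trans (by gcongr)
        _ = _ := by ring
    have d2 : (∫⁻ τ, ∫⁻ a, F a * (U (τ - a) * G (τ - a)) * C τ) ≤
        ENNReal.ofReal (aa γ) * ENNReal.ofReal c₁ * ENNReal.ofReal c₂ * schur_N C := by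
      refine b2.trans ?_
      calc _ ≤ (ENNReal.ofReal (aa γ) * ENNReal.ofReal c₂) * (ENNReal.ofReal c₁ * schur_N C) := by
            gcongr
            exact c2.trans (by gcongr)
        _ = _ := by ring
    have d3 : (∫⁻ τ, ∫⁻ a, F a * G (τ - a) * (U τ * C τ)) ≤
        ENNReal.ofReal (aa γ) * ENNReal.ofReal c₁ * ENNReal.ofReal c₂ * schur_N C := by
      refine b3.trans ?_
      calc _ ≤ (ENNReal.ofReal (aa γ) * schur_N C) * (ENNReal.ofReal c₁ * ENNReal.ofReal c₂) := by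
            gcongr
        _ = _ := by ring
    calc _ ≤ T₁ * (ENNReal.ofReal (aa γ) * ENNReal.ofReal c₁ * ENNReal.ofReal c₂ * schur_N C) +
          T₂ * (ENNReal.ofReal (aa γ) * ENNReal.ofReal c₁ * ENNReal.ofReal c₂ * schur_N C) +
          T₃ * (ENNReal.ofReal (aa γ) * ENNReal.ofReal c₁ * ENNReal.ofReal c₂ * schur_N C) := by
          gcongr
      _ = _ := by ring

lemma schur_bil {γ σ σ₁ σ₂ θ₁ θ₂ θ₃ c₁ c₂ : ℝ} {w : ℝ → ℝ} {A B : ℝ → ℂ} (hγ : 0 < γ)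
    (hw : Adm w) (hA : AEStronglyMeasurable A volume) (hB : AEStronglyMeasurable B volume)
    (h₁ : 0 ≤ c₁) (t₁ : 0 ≤ θ₁) (t₂ : 0 ≤ θ₂) (t₃ : 0 ≤ θ₃)
    (hk : ∀ a b, om γ (a + b) ^ σ ≤
      (θ₁ * schur_u γ a + θ₂ * schur_u γ b + θ₃ * schur_u γ (a + b)) * om γ a ^ σ₁ * om γ b ^ σ₂)
    (bA : Bd γ w σ₁ A c₁) (bB : Bd γ w σ₂ B c₂) :
    Bd γ w σ (cv A B) ((θ₁ + θ₂ + θ₃) * aa γ * c₁ * c₂) := by
  rw [schur_cv_congr hA.ae_eq_mk hB.ae_eq_mk]
  exact schur_bil_meas hγ hw hA.stronglyMeasurable_mk.measurable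
    hB.stronglyMeasurable_mk.measurable h₁ t₁ t₂ t₃ hk (schur_bd_congr hA.ae_eq_mk bA)
    (schur_bd_congr hB.ae_eq_mk bB)


lemma schur_p_sq {γ : ℝ} (hγ : 0 < γ) (τ : ℝ) :
    schur_u γ τ * (om γ τ ^ ((1 : ℝ) / 3)) ^ 2 = 1 := by
  unfold schur_u
  rw [← Real.rpow_natCast, ← Real.rpow_mul (om_nonneg γ τ), ← Real.rpow_add (om_pos hγ τ)]
  norm_num

lemma schur_q_pos {γ : ℝ} (hγ : 0 < γ) (τ : ℝ) : 0 < om γ τ ^ ((1 : ℝ) / 3) :=
  Real.rpow_pos_of_pos (om_pos hγ τ) _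

lemma schur_u_eq {γ : ℝ} (hγ : 0 < γ) (τ : ℝ) :
    schur_u γ τ = ((om γ τ ^ ((1 : ℝ) / 3))⁻¹) ^ 2 := by
  have h := schur_p_sq hγ τ
  have h0 := (schur_q_pos hγ τ).ne'
  field_simp
  exact h

lemma schur_neg_third {γ : ℝ} (τ : ℝ) :
    om γ τ ^ ((-1 : ℝ) / 3) = (om γ τ ^ ((1 : ℝ) / 3))⁻¹ := by
  rw [← Real.rpow_neg (om_nonneg γ τ)]
  norm_num

lemma schur_neg_two_third {γ : ℝ} (τ : ℝ) : om γ τ ^ ((-2 : ℝ) / 3) = schur_u γ τ := rfl

lemma schur_amgm {x y : ℝ} (hx : 0 < x) (hy : 0 < y) :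
    1 ≤ (1 / 2 * (x⁻¹) ^ 2 + 1 / 2 * (y⁻¹) ^ 2) * x * y := by
  have h : (1 / 2 * (x⁻¹) ^ 2 + 1 / 2 * (y⁻¹) ^ 2) * x * y = 1 + (x - y) ^ 2 / (2 * x * y) := by
    field_simp
    ring
  rw [h]
  have : 0 ≤ (x - y) ^ 2 / (2 * x * y) := by positivity
  linarith

lemma schur_amgm' {x y : ℝ} (hx : 0 < x) (hy : 0 < y) :
    y⁻¹ ≤ (1 / 2 * (x⁻¹) ^ 2 + 1 / 2 * (y⁻¹) ^ 2) * x := by
  have h := schur_amgm hx hy
  rw [inv_le_iff_one_le_mul₀ hy]
  exact h

lemma schur_third_add {γ : ℝ} (hγ : 0 < γ) (a b : ℝ) :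
    om γ b ^ ((1 : ℝ) / 3) ≤ om γ a ^ ((1 : ℝ) / 3) + om γ (a + b) ^ ((1 : ℝ) / 3) := by
  have h1 : om γ b ≤ om γ a + om γ (a + b) := by
    have h := om_add_le hγ.le (-a) (a + b)
    rwa [om_neg, neg_add_cancel_left] at h
  refine (Real.rpow_le_rpow (om_nonneg γ b) h1 (by norm_num)).trans ?_
  exact Real.rpow_add_le_add_rpow (om_nonneg γ a) (om_nonneg γ _) (by norm_num) (by norm_num)

lemma schur_kap_nonneg (γ a b : ℝ) : 0 ≤ kap γ a b :=
  mul_nonneg (Real.rpow_nonneg (le_max_of_le_left (om_nonneg γ a)) _)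
    (Real.rpow_nonneg (le_min (om_nonneg γ a) (om_nonneg γ b)) _)

lemma schur_kap_comm (γ a b : ℝ) : kap γ a b = kap γ b a := by
  unfold kap
  rw [max_comm, min_comm]

lemma schur_meas_kap (γ : ℝ) : Measurable fun p : ℝ × ℝ => ENNReal.ofReal (kap γ p.1 p.2) := by
  have h := (continuous_om γ).measurable
  unfold kap
  fun_prop

/-- Dropping the largest frequency. -/
lemma schur_drop {γ : ℝ} (hγ : 0 < γ) {a b t : ℝ} (ha : om γ a ≤ om γ t) (hb : om γ b ≤ om γ t) :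
    om γ t ^ ((-1 : ℝ) / 3) * om γ a ^ ((-1 : ℝ) / 3) * om γ b ^ ((-1 : ℝ) / 3) ≤ kap γ a b := by
  have key : ∀ {x y z : ℝ}, 0 < x → x ≤ y → y ≤ z →
      z ^ ((-1 : ℝ) / 3) * x ^ ((-1 : ℝ) / 3) * y ^ ((-1 : ℝ) / 3) ≤
        y ^ (-(2 : ℝ) / 3) * x ^ (-(1 : ℝ) / 3) := by
    intro x y z hx hxy hyz
    have hy : 0 < y := hx.trans_le hxy
    have h1 : z ^ ((-1 : ℝ) / 3) ≤ y ^ ((-1 : ℝ) / 3) :=
      Real.rpow_le_rpow_of_nonpos hy hyz (by norm_num)
    have h2 : y ^ (-(2 : ℝ) / 3) = y ^ ((-1 : ℝ) / 3) * y ^ ((-1 : ℝ) / 3) := by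
      rw [← Real.rpow_add hy]
      norm_num
    have h3 : 0 ≤ x ^ ((-1 : ℝ) / 3) := Real.rpow_nonneg hx.le _
    have h4 : 0 ≤ y ^ ((-1 : ℝ) / 3) := Real.rpow_nonneg hy.le _
    rw [h2]
    calc z ^ ((-1 : ℝ) / 3) * x ^ ((-1 : ℝ) / 3) * y ^ ((-1 : ℝ) / 3)
        ≤ y ^ ((-1 : ℝ) / 3) * x ^ ((-1 : ℝ) / 3) * y ^ ((-1 : ℝ) / 3) := by gcongr
      _ = _ := by ring
  unfold kap
  rcases le_total (om γ a) (om γ b) with h | h
  · rw [max_eq_right h, min_eq_left h]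
    exact key (om_pos hγ a) h hb
  · rw [max_eq_left h, min_eq_right h]
    refine le_trans (le_of_eq ?_) (key (om_pos hγ b) h ha)
    ring

lemma schur_kernel {γ : ℝ} (hγ : 0 < γ) (a b t : ℝ) :
    om γ t ^ ((-1 : ℝ) / 3) ≤ (kap γ a b + kap γ t a + kap γ t b) * om γ a ^ ((1 : ℝ) / 3) *
      om γ b ^ ((1 : ℝ) / 3) := by
  have h : om γ t ^ ((-1 : ℝ) / 3) * om γ a ^ ((-1 : ℝ) / 3) * om γ b ^ ((-1 : ℝ) / 3) ≤
      kap γ a b + kap γ t a + kap γ t b := by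
    have n1 := schur_kap_nonneg γ a b
    have n2 := schur_kap_nonneg γ t a
    have n3 := schur_kap_nonneg γ t b
    by_cases h1 : om γ a ≤ om γ t
    · by_cases h2 : om γ b ≤ om γ t
      · linarith [schur_drop hγ h1 h2]
      · have h2' : om γ t ≤ om γ b := (not_le.mp h2).le
        have := schur_drop hγ h2' (h1.trans h2')
        nlinarith
    · have h1' : om γ t ≤ om γ a := (not_le.mp h1).le
      rcases le_total (om γ a) (om γ b) with h2 | h2
      · have := schur_drop hγ (h1'.trans h2) h2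
        nlinarith
      · have := schur_drop hγ h1' h2
        nlinarith
  have qa := schur_q_pos hγ a
  have qb := schur_q_pos hγ b
  rw [schur_neg_third a, schur_neg_third b] at h
  calc om γ t ^ ((-1 : ℝ) / 3) = om γ t ^ ((-1 : ℝ) / 3) * (om γ a ^ ((1 : ℝ) / 3))⁻¹ *
        (om γ b ^ ((1 : ℝ) / 3))⁻¹ * om γ a ^ ((1 : ℝ) / 3) * om γ b ^ ((1 : ℝ) / 3) := by
        field_simp
    _ ≤ _ := by gcongr

/-- Schur's test as a bound on a bilinear form. -/
lemma schur_S {γ : ℝ} (hγ : 0 < γ) {F G : ℝ → ℝ≥0∞} (hF : Measurable F) (hG : Measurable G)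
    {I : ℝ → ℝ → ℝ≥0∞} {M : ℝ≥0∞} (hI : ∀ a b, I a b ≤ M) :
    ∫⁻ a, ∫⁻ b, ENNReal.ofReal (kap γ a b) * F a * G b * I a b ≤
      24 * schur_N F * schur_N G * M := by
  have hop := schur_op hγ hG.aemeasurable
  obtain ⟨K, hKdef⟩ : ∃ K : ℝ × ℝ → ℝ≥0∞, K = fun p => ENNReal.ofReal (kap γ p.1 p.2) := ⟨_, rfl⟩
  have hK : Measurable K := hKdef ▸ schur_meas_kap γ
  have hKe : ∀ a b, ENNReal.ofReal (kap γ a b) = K (a, b) := fun a b => by rw [hKdef]
  simp only [hKe] at hop ⊢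
  have m1 : Measurable fun a => ∫⁻ b, K (a, b) * G b :=
    Measurable.lintegral_prod_right' (f := fun p : ℝ × ℝ => K (p.1, p.2) * G p.2) (by fun_prop)
  have h1 : ∫⁻ a, ∫⁻ b, K (a, b) * F a * G b * I a b ≤
      (∫⁻ a, F a * ∫⁻ b, K (a, b) * G b) * M := by
    rw [← lintegral_mul_const _ (f := fun a => F a * ∫⁻ b, K (a, b) * G b) (hF.mul m1)]
    refine lintegral_mono fun a => ?_
    rw [← lintegral_const_mul _ (by fun_prop), ← lintegral_mul_const _ (by fun_prop)]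
    refine lintegral_mono fun b => ?_
    calc K (a, b) * F a * G b * I a b
        ≤ K (a, b) * F a * G b * M := mul_le_mul_right (hI a b) _
      _ = _ := by ring
  have h2 : schur_N (fun a => ∫⁻ b, K (a, b) * G b) ≤ 24 * schur_N G := by
    unfold schur_N
    refine (ENNReal.rpow_le_rpow hop (by norm_num)).trans (le_of_eq ?_)
    rw [ENNReal.mul_rpow_of_nonneg _ _ (by norm_num), ← ENNReal.rpow_natCast, ← ENNReal.rpow_mul]
    norm_num
  refine h1.trans (mul_le_mul_left ?_ _)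
  refine (schur_cs hF m1).trans ?_
  calc _ ≤ schur_N F * (24 * schur_N G) := mul_le_mul_right h2 _
    _ = _ := by ring

lemma schur_Q {γ : ℝ} (hγ : 0 < γ) {F G E C : ℝ → ℝ≥0∞} (hF : Measurable F) (hG : Measurable G)
    (hE : Measurable E) (hC : Measurable C) :
    ∫⁻ τ, (∫⁻ a, ∫⁻ b, (ENNReal.ofReal (kap γ a b) + ENNReal.ofReal (kap γ τ a) +
      ENNReal.ofReal (kap γ τ b)) * F a * G b * E (τ - a - b)) * C τ ≤
      72 * schur_N F * schur_N G * schur_N E * schur_N C := by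
  obtain ⟨K, hKdef⟩ : ∃ K : ℝ × ℝ → ℝ≥0∞, K = fun p => ENNReal.ofReal (kap γ p.1 p.2) := ⟨_, rfl⟩
  have hK : Measurable K := hKdef ▸ schur_meas_kap γ
  have hKe : ∀ a b, ENNReal.ofReal (kap γ a b) = K (a, b) := fun a b => by rw [hKdef]
  have hS : ∀ {F G : ℝ → ℝ≥0∞}, Measurable F → Measurable G → ∀ {I : ℝ → ℝ → ℝ≥0∞} {M : ℝ≥0∞},
      (∀ a b, I a b ≤ M) → ∫⁻ a, ∫⁻ b, K (a, b) * F a * G b * I a b ≤
        24 * schur_N F * schur_N G * M := by
    intro F G hF hG I M hI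
    simpa only [hKe] using schur_S hγ hF hG hI
  simp only [hKe]
  have m1 : Measurable fun τ => ∫⁻ a, ∫⁻ b, K (a, b) * F a * G b * E (τ - a - b) * C τ :=
    Measurable.lintegral_prod_right' (f := fun p : ℝ × ℝ =>
      ∫⁻ b, K (p.2, b) * F p.2 * G b * E (p.1 - p.2 - b) * C p.1)
      (Measurable.lintegral_prod_right' (f := fun q : (ℝ × ℝ) × ℝ =>
        K (q.1.2, q.2) * F q.1.2 * G q.2 * E (q.1.1 - q.1.2 - q.2) * C q.1.1) (by fun_prop))
  have m3 : Measurable fun τ => ∫⁻ a, ∫⁻ b, K (τ, b) * F a * G b * E (τ - a - b) * C τ :=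
    Measurable.lintegral_prod_right' (f := fun p : ℝ × ℝ =>
      ∫⁻ b, K (p.1, b) * F p.2 * G b * E (p.1 - p.2 - b) * C p.1)
      (Measurable.lintegral_prod_right' (f := fun q : (ℝ × ℝ) × ℝ =>
        K (q.1.1, q.2) * F q.1.2 * G q.2 * E (q.1.1 - q.1.2 - q.2) * C q.1.1) (by fun_prop))
  have e1 : ∫⁻ τ, (∫⁻ a, ∫⁻ b, (K (a, b) + K (τ, a) + K (τ, b)) * F a * G b * E (τ - a - b)) * C τ =
      (∫⁻ τ, ∫⁻ a, ∫⁻ b, K (a, b) * F a * G b * E (τ - a - b) * C τ) +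
      (∫⁻ τ, ∫⁻ a, ∫⁻ b, K (τ, a) * F a * G b * E (τ - a - b) * C τ) +
      (∫⁻ τ, ∫⁻ a, ∫⁻ b, K (τ, b) * F a * G b * E (τ - a - b) * C τ) := by
    rw [← lintegral_add_left m1, ← lintegral_add_right _ m3]
    refine lintegral_congr fun τ => ?_
    have n0 : Measurable fun a => ∫⁻ b, (K (a, b) + K (τ, a) + K (τ, b)) * F a * G b *
        E (τ - a - b) :=
      Measurable.lintegral_prod_right' (f := fun q : ℝ × ℝ =>
        (K (q.1, q.2) + K (τ, q.1) + K (τ, q.2)) * F q.1 * G q.2 * E (τ - q.1 - q.2))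
        (by fun_prop)
    have n1 : Measurable fun a => ∫⁻ b, K (a, b) * F a * G b * E (τ - a - b) * C τ :=
      Measurable.lintegral_prod_right' (f := fun q : ℝ × ℝ =>
        K (q.1, q.2) * F q.1 * G q.2 * E (τ - q.1 - q.2) * C τ) (by fun_prop)
    have n3 : Measurable fun a => ∫⁻ b, K (τ, b) * F a * G b * E (τ - a - b) * C τ :=
      Measurable.lintegral_prod_right' (f := fun q : ℝ × ℝ =>
        K (τ, q.2) * F q.1 * G q.2 * E (τ - q.1 - q.2) * C τ) (by fun_prop)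
    rw [← lintegral_mul_const _ n0, ← lintegral_add_left n1, ← lintegral_add_right _ n3]
    refine lintegral_congr fun a => ?_
    rw [← lintegral_mul_const _ (by fun_prop), ← lintegral_add_left (by fun_prop),
      ← lintegral_add_left (by fun_prop)]
    refine lintegral_congr fun b => ?_
    ring
  have d1 : (∫⁻ τ, ∫⁻ a, ∫⁻ b, K (a, b) * F a * G b * E (τ - a - b) * C τ) ≤
      24 * schur_N F * schur_N G * (schur_N E * schur_N C) := by
    refine le_trans (le_of_eq ?_) (hS hF hG (I := fun a b => ∫⁻ τ, E (τ - (a + b)) * C τ) ?_)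
    · rw [lintegral_lintegral_swap (Measurable.lintegral_prod_right' (f := fun q : (ℝ × ℝ) × ℝ =>
        K (q.1.2, q.2) * F q.1.2 * G q.2 * E (q.1.1 - q.1.2 - q.2) * C q.1.1)
        (by fun_prop)).aemeasurable]
      refine lintegral_congr fun a => ?_
      rw [lintegral_lintegral_swap (by fun_prop)]
      refine lintegral_congr fun b => ?_
      rw [← lintegral_const_mul _ (by fun_prop)]
      refine lintegral_congr fun τ => ?_
      rw [sub_sub]
      ring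
    · intro a b
      have h2 := schur_cs (f := fun τ => E (τ - (a + b))) (g := C) (by fun_prop) hC
      rwa [schur_N_sub_right] at h2
  have d2 : (∫⁻ τ, ∫⁻ a, ∫⁻ b, K (τ, a) * F a * G b * E (τ - a - b) * C τ) ≤
      24 * schur_N C * schur_N F * (schur_N G * schur_N E) := by
    refine le_trans (le_of_eq ?_) (hS hC hF (I := fun τ a => ∫⁻ b, G b * E (τ - a - b)) ?_)
    · refine lintegral_congr fun τ => lintegral_congr fun a => ?_
      rw [← lintegral_const_mul _ (by fun_prop)]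
      refine lintegral_congr fun b => ?_
      ring
    · intro τ a
      have h2 := schur_cs (f := G) (g := fun b => E (τ - a - b)) hG (by fun_prop)
      rwa [schur_N_sub_left] at h2
  have d3 : (∫⁻ τ, ∫⁻ a, ∫⁻ b, K (τ, b) * F a * G b * E (τ - a - b) * C τ) ≤
      24 * schur_N C * schur_N G * (schur_N F * schur_N E) := by
    refine le_trans (le_of_eq ?_) (hS hC hG (I := fun τ b => ∫⁻ a, F a * E (τ - b - a)) ?_)
    · refine lintegral_congr fun τ => ?_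
      rw [lintegral_lintegral_swap (by fun_prop)]
      refine lintegral_congr fun b => ?_
      rw [← lintegral_const_mul _ (by fun_prop)]
      refine lintegral_congr fun a => ?_
      rw [sub_right_comm]
      ring
    · intro τ b
      have h2 := schur_cs (f := F) (g := fun a => E (τ - b - a)) hF (by fun_prop)
      rwa [schur_N_sub_left] at h2
  rw [e1]
  refine (add_le_add (add_le_add d1 d2) d3).trans (le_of_eq ?_)
  ring

lemma schur_tri_meas {γ c₁ c₂ c₃ : ℝ} {w : ℝ → ℝ} {A B D : ℝ → ℂ} (hγ : 0 < γ) (hw : Adm w)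
    (hA : Measurable A) (hB : Measurable B) (hD : Measurable D) (h₁ : 0 ≤ c₁) (h₂ : 0 ≤ c₂)
    (bA : Bd γ w (1 / 3) A c₁) (bB : Bd γ w (1 / 3) B c₂) (bD : Bd γ w 0 D c₃) :
    Bd γ w (-1 / 3) (cv (cv A B) D) (72 * c₁ * c₂ * c₃) := by
  rw [schur_bd_iff hw] at bA bB bD ⊢
  set F := schur_F γ w (1 / 3) A with hFdef
  set G := schur_F γ w (1 / 3) B with hGdef
  set E := schur_F γ w 0 D with hEdef
  have hF : Measurable F := schur_meas_F hγ hw _ hA
  have hG : Measurable G := schur_meas_F hγ hw _ hB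
  have hE : Measurable E := schur_meas_F hγ hw _ hD
  have hA' := hA.enorm
  have hB' := hB.enorm
  have hD' := hD.enorm
  refine schur_of_dual (H' := fun τ => ∫⁻ a, ∫⁻ b, (ENNReal.ofReal (kap γ a b) +
    ENNReal.ofReal (kap γ τ a) + ENNReal.ofReal (kap γ τ b)) * F a * G b * E (τ - a - b)) ?_ ?_ ?_
  · obtain ⟨K, hKdef⟩ : ∃ K : ℝ × ℝ → ℝ≥0∞, K = fun p => ENNReal.ofReal (kap γ p.1 p.2) :=
      ⟨_, rfl⟩
    have hK : Measurable K := hKdef ▸ schur_meas_kap γ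
    have hKe : ∀ a b, ENNReal.ofReal (kap γ a b) = K (a, b) := fun a b => by rw [hKdef]
    simp only [hKe]
    exact Measurable.lintegral_prod_right' (f := fun p : ℝ × ℝ =>
      ∫⁻ b, (K (p.2, b) + K (p.1, p.2) + K (p.1, b)) * F p.2 * G b * E (p.1 - p.2 - b))
      (Measurable.lintegral_prod_right' (f := fun q : (ℝ × ℝ) × ℝ =>
        (K (q.1.2, q.2) + K (q.1.1, q.1.2) + K (q.1.1, q.2)) * F q.1.2 * G q.2 *
          E (q.1.1 - q.1.2 - q.2)) (by fun_prop))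
  · intro τ
    have s1 : ‖cv (cv A B) D τ‖ₑ ≤ ∫⁻ a, ∫⁻ b, ‖A a‖ₑ * ‖B b‖ₑ * ‖D (τ - a - b)‖ₑ := by
      refine (schur_enorm_cv _ D τ).trans ?_
      have s2 : ∫⁻ s, ‖cv A B s‖ₑ * ‖D (τ - s)‖ₑ ≤
          ∫⁻ s, ∫⁻ a, ‖A a‖ₑ * ‖B (s - a)‖ₑ * ‖D (τ - s)‖ₑ := by
        refine lintegral_mono fun s => ?_
        rw [lintegral_mul_const _ (by fun_prop)]
        exact mul_le_mul_left (schur_enorm_cv A B s) _
      refine s2.trans (le_of_eq ?_)
      rw [lintegral_lintegral_swap (by fun_prop)]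
      refine lintegral_congr fun a => ?_
      rw [← lintegral_sub_right_eq_self (fun b => ‖A a‖ₑ * ‖B b‖ₑ * ‖D (τ - a - b)‖ₑ) a]
      refine lintegral_congr fun s => ?_
      simp only [sub_sub_sub_cancel_right]
    unfold schur_F
    refine (mul_le_mul_right s1 _).trans ?_
    rw [← lintegral_const_mul' _ _ ENNReal.ofReal_ne_top]
    refine lintegral_mono fun a => ?_
    rw [← lintegral_const_mul' _ _ ENNReal.ofReal_ne_top]
    refine lintegral_mono fun b => ?_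
    have n1 := schur_kap_nonneg γ a b
    have n2 := schur_kap_nonneg γ τ a
    have n3 := schur_kap_nonneg γ τ b
    have k0 : 0 ≤ kap γ a b + kap γ τ a + kap γ τ b := by positivity
    have qa := (schur_q_pos hγ a).le
    have qb := (schur_q_pos hγ b).le
    have wa := schur_w_nonneg hw a
    have wb := schur_w_nonneg hw b
    have hw' : w τ ≤ w a * w b * w (τ - a - b) := by
      have x1 := hw.submul (a + b) (τ - a - b)
      have x2 := hw.submul a b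
      rw [show a + b + (τ - a - b) = τ by ring] at x1
      exact x1.trans (mul_le_mul_of_nonneg_right x2 (schur_w_nonneg hw _))
    have e2 : ENNReal.ofReal (om γ τ ^ ((-1 : ℝ) / 3) * w τ) ≤
        (ENNReal.ofReal (kap γ a b) + ENNReal.ofReal (kap γ τ a) + ENNReal.ofReal (kap γ τ b)) *
          ENNReal.ofReal (om γ a ^ ((1 : ℝ) / 3) * w a) *
          ENNReal.ofReal (om γ b ^ ((1 : ℝ) / 3) * w b) *
          ENNReal.ofReal (om γ (τ - a - b) ^ (0 : ℝ) * w (τ - a - b)) := by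
      rw [← ENNReal.ofReal_add n1 n2, ← ENNReal.ofReal_add (add_nonneg n1 n2) n3,
        ← ENNReal.ofReal_mul k0, ← ENNReal.ofReal_mul (by positivity),
        ← ENNReal.ofReal_mul (by positivity)]
      refine ENNReal.ofReal_le_ofReal ?_
      refine (mul_le_mul (schur_kernel hγ a b τ) hw' (schur_w_nonneg hw τ)
        (by positivity)).trans (le_of_eq ?_)
      rw [Real.rpow_zero]
      ring
    simp only [hFdef, hGdef, hEdef, schur_F]
    refine (mul_le_mul_left e2 _).trans (le_of_eq ?_)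
    ring
  · intro C hC
    refine (schur_Q hγ hF hG hE hC).trans (mul_le_mul_left ?_ _)
    rw [ENNReal.ofReal_mul (by positivity), ENNReal.ofReal_mul (by positivity),
      ENNReal.ofReal_mul (by norm_num), ENNReal.ofReal_ofNat]
    gcongr

variable {γ : ℝ} {w : ℝ → ℝ} {A B D : ℝ → ℂ} {c₁ c₂ c₃ : ℝ}

/-- Cauchy-Schwarz with the output frequency fixed. -/
theorem prod00 (hγ : 0 < γ) (hw : Adm w) (hA : AEStronglyMeasurable A volume)
    (hB : AEStronglyMeasurable B volume) (h₁ : 0 ≤ c₁) (h₂ : 0 ≤ c₂)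
    (bA : Bd γ w (1 / 3) A c₁) (bB : Bd γ w (1 / 3) B c₂) :
    Bd γ w 0 (cv A B) (aa γ * c₁ * c₂) := by
  have h := schur_bil (σ := 0) (θ₁ := 1 / 2) (θ₂ := 1 / 2) (θ₃ := 0) hγ hw hA hB h₁
    (by norm_num) (by norm_num) le_rfl (fun a b => by
      rw [Real.rpow_zero, zero_mul, add_zero, schur_u_eq hγ a, schur_u_eq hγ b]
      exact schur_amgm (schur_q_pos hγ a) (schur_q_pos hγ b)) bA bB
  rwa [show (1 / 2 + 1 / 2 + 0 : ℝ) = 1 by norm_num, one_mul] at h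

/-- Duality, then Cauchy-Schwarz with the frequency of `B` fixed. -/
theorem prod01 (hγ : 0 < γ) (hw : Adm w) (hA : AEStronglyMeasurable A volume)
    (hB : AEStronglyMeasurable B volume) (h₁ : 0 ≤ c₁) (h₂ : 0 ≤ c₂)
    (bA : Bd γ w (1 / 3) A c₁) (bB : Bd γ w 0 B c₂) :
    Bd γ w (-1 / 3) (cv A B) (aa γ * c₁ * c₂) := by
  have h := schur_bil (σ := -1 / 3) (θ₁ := 1 / 2) (θ₂ := 0) (θ₃ := 1 / 2) hγ hw hA hB h₁
    (by norm_num) le_rfl (by norm_num) (fun a b => by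
      rw [Real.rpow_zero, zero_mul, add_zero, mul_one, schur_u_eq hγ a, schur_u_eq hγ (a + b),
        schur_neg_third]
      exact schur_amgm' (schur_q_pos hγ a) (schur_q_pos hγ (a + b))) bA bB
  rwa [show (1 / 2 + 0 + 1 / 2 : ℝ) = 1 by norm_num, one_mul] at h

theorem prod11 (hγ : 0 < γ) (hw : Adm w) (hA : AEStronglyMeasurable A volume)
    (hB : AEStronglyMeasurable B volume) (h₁ : 0 ≤ c₁) (h₂ : 0 ≤ c₂)
    (bA : Bd γ w 0 A c₁) (bB : Bd γ w 0 B c₂) :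
    Bd γ w (-2 / 3) (cv A B) (aa γ * c₁ * c₂) := by
  have h := schur_bil (σ := -2 / 3) (θ₁ := 0) (θ₂ := 0) (θ₃ := 1) hγ hw hA hB h₁
    le_rfl le_rfl (by norm_num) (fun a b => by
      rw [schur_neg_two_third]
      simp) bA bB
  rwa [show (0 + 0 + 1 : ℝ) = 1 by norm_num, one_mul] at h

/-- As `prod01`, with `om b ≤ om a + om (a + b) ≤ 2 max`. -/
theorem prod02 (hγ : 0 < γ) (hw : Adm w) (hA : AEStronglyMeasurable A volume)
    (hB : AEStronglyMeasurable B volume) (h₁ : 0 ≤ c₁) (h₂ : 0 ≤ c₂)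
    (bA : Bd γ w (1 / 3) A c₁) (bB : Bd γ w (-1 / 3) B c₂) :
    Bd γ w (-2 / 3) (cv A B) (2 * aa γ * c₁ * c₂) := by
  have h := schur_bil (σ := -2 / 3) (θ₁ := 1 / 2) (θ₂ := 0) (θ₃ := 3 / 2) hγ hw hA hB h₁
    (by norm_num) le_rfl (by norm_num) (fun a b => by
      rw [schur_neg_two_third, zero_mul, add_zero, schur_neg_third, schur_u_eq hγ a,
        schur_u_eq hγ (a + b)]
      have t := schur_third_add hγ a b
      have qa := schur_q_pos hγ a
      have qb := schur_q_pos hγ b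
      have qt := schur_q_pos hγ (a + b)
      have am := schur_amgm' qa qt
      generalize om γ a ^ ((1 : ℝ) / 3) = x at *
      generalize om γ b ^ ((1 : ℝ) / 3) = y at *
      generalize om γ (a + b) ^ ((1 : ℝ) / 3) = z at *
      rw [le_mul_inv_iff₀ qb]
      have e : (z⁻¹) ^ 2 * (x + z) = (z⁻¹) ^ 2 * x + z⁻¹ := by field_simp
      calc (z⁻¹) ^ 2 * y ≤ (z⁻¹) ^ 2 * (x + z) := by gcongr
        _ = (z⁻¹) ^ 2 * x + z⁻¹ := e
        _ ≤ (z⁻¹) ^ 2 * x + (1 / 2 * (x⁻¹) ^ 2 + 1 / 2 * (z⁻¹) ^ 2) * x := by linarith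
        _ = _ := by ring) bA bB
  rwa [show (1 / 2 + 0 + 3 / 2 : ℝ) = 2 by norm_num] at h

/-- The critical estimate. By duality it is a bound on a form in four functions with the kernel
`(om a * om b * om τ) ^ (-1/3) ≤ kap a b + kap a τ + kap b τ` (drop the largest frequency); in each
term use Cauchy-Schwarz in the third variable and `schur_op` in the other two. -/
theorem prod001 (hγ : 0 < γ) (hw : Adm w) (hA : AEStronglyMeasurable A volume)
    (hB : AEStronglyMeasurable B volume) (hD : AEStronglyMeasurable D volume)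
    (h₁ : 0 ≤ c₁) (h₂ : 0 ≤ c₂) (h₃ : 0 ≤ c₃)
    (bA : Bd γ w (1 / 3) A c₁) (bB : Bd γ w (1 / 3) B c₂) (bD : Bd γ w 0 D c₃) :
    Bd γ w (-1 / 3) (cv (cv A B) D) (72 * c₁ * c₂ * c₃) := by
  rw [schur_cv_congr hA.ae_eq_mk hB.ae_eq_mk, schur_cv_congr (Filter.EventuallyEq.refl _ _)
    hD.ae_eq_mk]
  exact schur_tri_meas hγ hw hA.stronglyMeasurable_mk.measurable
    hB.stronglyMeasurable_mk.measurable hD.stronglyMeasurable_mk.measurable h₁ h₂
    (schur_bd_congr hA.ae_eq_mk bA) (schur_bd_congr hB.ae_eq_mk bB)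
    (schur_bd_congr hD.ae_eq_mk bD)

end Pool.Agent.Lib.MP_14aec4_an.W
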