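import Pool.Agent.Lib.MP_14aec4_an.TS
import Pool.Agent.Lib.MP_14aec4_an.Schur

/-!
Smooth multipliers and Plancherel bounds.
-/

noncomputable section

open MeasureTheory Set Filter Topology FourierTransform
open scoped ENNReal ComplexConjugate

namespace Pool.Agent.Lib.MP_14aec4_an.W

lemma mult0_w_nonneg {w : ℝ → ℝ} (hw : Adm w) (τ : ℝ) : 0 ≤ w τ :=
  zero_le_one.trans (hw.one_le τ)

lemma mulC_nonneg {γ : ℝ} (hγ : 0 < γ) {w : ℝ → ℝ} (hw : Adm w) (M : ℝ → ℂ) : 0 ≤ mulC γ w M := by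
  unfold mulC
  refine integral_nonneg fun a => ?_
  have := mult0_w_nonneg hw a
  have := Real.pi_pos
  positivity

/-- The integrand of `mulC`. -/
def mult0_k (γ : ℝ) (w : ℝ → ℝ) (M : ℝ → ℂ) (a : ℝ) : ℝ :=
  ‖M a‖ * w a * (1 + 2 * Real.pi * |a| / γ)

lemma mult0_k_nonneg {γ : ℝ} (hγ : 0 < γ) {w : ℝ → ℝ} (hw : Adm w) (M : ℝ → ℂ) (a : ℝ) :
    0 ≤ mult0_k γ w M a := by
  unfold mult0_k
  have := mult0_w_nonneg hw a
  have := Real.pi_pos
  positivity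

lemma mult0_k_cont {γ : ℝ} {w : ℝ → ℝ} (hw : Adm w) {M : ℝ → ℂ} (hM : RD M) :
    Continuous (mult0_k γ w M) := by
  unfold mult0_k
  have h1 := hw.cont
  have h2 := hM.cont
  fun_prop

lemma mult0_rd {γ : ℝ} (hγ : 0 < γ) {w : ℝ → ℝ} (hw : Adm w) {M : ℝ → ℂ} (hM : RD M) :
    ∃ N : ℝ → ℂ, RD N ∧ ∀ a, ‖N a‖ = mult0_k γ w M a := by
  have hpi := Real.pi_pos
  refine ⟨fun a => ((w a * (1 + 2 * Real.pi * |a| / γ) : ℝ) : ℂ) * M a, ?_, ?_⟩
  · refine hM.poly_mul ?_ ?_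
    · have h1 := hw.cont
      fun_prop
    · obtain ⟨C, n, hC⟩ := hw.poly
      refine ⟨C * (1 + 2 * Real.pi / γ), n + 1, fun τ => ?_⟩
      have h0 := mult0_w_nonneg hw τ
      rw [Complex.norm_real, Real.norm_eq_abs, abs_of_nonneg (by positivity)]
      have h1 : 1 + 2 * Real.pi * |τ| / γ ≤ (1 + 2 * Real.pi / γ) * (1 + |τ|) := by
        have h2 : 0 ≤ 2 * Real.pi / γ := by positivity
        have h3 : 2 * Real.pi * |τ| / γ = 2 * Real.pi / γ * |τ| := by ring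
        rw [h3]
        nlinarith [abs_nonneg τ]
      calc w τ * (1 + 2 * Real.pi * |τ| / γ)
          ≤ (C * (1 + |τ|) ^ n) * ((1 + 2 * Real.pi / γ) * (1 + |τ|)) :=
            mul_le_mul (hC τ) h1 (by positivity) (h0.trans (hC τ))
        _ = C * (1 + 2 * Real.pi / γ) * (1 + |τ|) ^ (n + 1) := by ring
  · intro a
    have h0 := mult0_w_nonneg hw a
    rw [norm_mul, Complex.norm_real, Real.norm_eq_abs, abs_of_nonneg (by positivity)]
    unfold mult0_k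
    ring

lemma mult0_sq_int {N : ℝ → ℂ} (hN : RD N) : Integrable fun a => ‖N a‖ ^ 2 := by
  obtain ⟨C, hC⟩ := hN.decay 0
  have h1 : RD fun a => N a * N a :=
    hN.poly_mul hN.cont ⟨C, 0, fun τ => by simpa using hC τ⟩
  refine h1.integrable.norm.congr (Eventually.of_forall fun a => ?_)
  simp only [norm_mul, sq]

lemma mult0_k_int {γ : ℝ} (hγ : 0 < γ) {w : ℝ → ℝ} (hw : Adm w) {M : ℝ → ℂ} (hM : RD M) :
    Integrable (mult0_k γ w M) := by
  obtain ⟨N, hN, h⟩ := mult0_rd hγ hw hM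
  exact hN.integrable.norm.congr (Eventually.of_forall h)

lemma mult0_k_sq_int {γ : ℝ} (hγ : 0 < γ) {w : ℝ → ℝ} (hw : Adm w) {M : ℝ → ℂ} (hM : RD M) :
    Integrable fun a => mult0_k γ w M a ^ 2 := by
  obtain ⟨N, hN, h⟩ := mult0_rd hγ hw hM
  refine (mult0_sq_int hN).congr (Eventually.of_forall fun a => ?_)
  simp only [h a]

/-- Cauchy-Schwarz. -/
lemma mult0_cs (μ : Measure ℝ) {f g : ℝ → ℝ≥0∞} (hf : AEMeasurable f μ) (hg : AEMeasurable g μ) :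
    (∫⁻ a, f a * g a ∂μ) ^ 2 ≤ (∫⁻ a, f a ^ 2 ∂μ) * ∫⁻ a, g a ^ 2 ∂μ := by
  have h := ENNReal.lintegral_mul_le_Lp_mul_Lq μ Real.HolderConjugate.two_two hf hg
  have e : ∀ x : ℝ≥0∞, (x ^ (1 / (2 : ℝ))) ^ 2 = x := by
    intro x
    rw [← ENNReal.rpow_natCast, ← ENNReal.rpow_mul]
    norm_num
  have e2 : ∀ x : ℝ≥0∞, x ^ (2 : ℝ) = x ^ 2 := fun x => by
    rw [← ENNReal.rpow_natCast]; norm_num
  simp only [Pi.mul_apply, e2] at h
  calc (∫⁻ a, f a * g a ∂μ) ^ 2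
      ≤ ((∫⁻ a, f a ^ 2 ∂μ) ^ (1 / (2 : ℝ)) * (∫⁻ a, g a ^ 2 ∂μ) ^ (1 / (2 : ℝ))) ^ 2 := by
        gcongr
    _ = _ := by rw [mul_pow, e, e]

/-- Young's inequality `L¹ * L² → L²`. -/
lemma mult0_young {K F : ℝ → ℝ≥0∞} (hK : Measurable K) (hF : AEMeasurable F volume) :
    ∫⁻ τ, (∫⁻ a, K a * F (τ - a)) ^ 2 ≤ (∫⁻ a, K a) ^ 2 * ∫⁻ b, F b ^ 2 := by
  obtain ⟨G, hG, hFG⟩ := hF
  have h1 : ∀ τ, ∫⁻ a, K a * F (τ - a) = ∫⁻ a, K a * G (τ - a) := by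
    intro τ
    refine lintegral_congr_ae ?_
    have := (Measure.measurePreserving_sub_left (volume : Measure ℝ) τ).quasiMeasurePreserving.ae_eq
      hFG
    filter_upwards [this] with a ha
    simp only [Function.comp] at ha
    rw [ha]
  have h2 : ∫⁻ b, F b ^ 2 = ∫⁻ b, G b ^ 2 := by
    refine lintegral_congr_ae ?_
    filter_upwards [hFG] with b hb
    rw [hb]
  simp only [h1, h2]
  have h3 : ∀ τ, (∫⁻ a, K a * G (τ - a)) ^ 2 ≤ (∫⁻ a, K a) * ∫⁻ a, K a * G (τ - a) ^ 2 := by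
    intro τ
    have hGτ : Measurable fun a => G (τ - a) := hG.comp (measurable_const.sub measurable_id)
    have h := mult0_cs (volume.withDensity K) (f := fun _ => 1) (g := fun a => G (τ - a))
      aemeasurable_const hGτ.aemeasurable
    rw [lintegral_withDensity_eq_lintegral_mul _ hK (by simpa using hGτ),
      lintegral_withDensity_eq_lintegral_mul _ hK (by simp),
      lintegral_withDensity_eq_lintegral_mul _ hK (hGτ.pow_const 2)] at h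
    simpa using h
  calc ∫⁻ τ, (∫⁻ a, K a * G (τ - a)) ^ 2
      ≤ ∫⁻ τ, (∫⁻ a, K a) * ∫⁻ a, K a * G (τ - a) ^ 2 := lintegral_mono h3
    _ = (∫⁻ a, K a) * ∫⁻ τ, ∫⁻ a, K a * G (τ - a) ^ 2 := by
        refine lintegral_const_mul _ ?_
        refine Measurable.lintegral_prod_right' (f := fun p : ℝ × ℝ => K p.2 * G (p.1 - p.2) ^ 2) ?_
        exact (hK.comp measurable_snd).mul
          ((hG.comp (measurable_fst.sub measurable_snd)).pow_const 2)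
    _ = (∫⁻ a, K a) * ∫⁻ a, ∫⁻ τ, K a * G (τ - a) ^ 2 := by
        congr 1
        refine lintegral_lintegral_swap ?_
        exact ((hK.comp measurable_snd).mul
          ((hG.comp (measurable_fst.sub measurable_snd)).pow_const 2)).aemeasurable
    _ = (∫⁻ a, K a) * ∫⁻ a, K a * ∫⁻ b, G b ^ 2 := by
        congr 1
        refine lintegral_congr fun a => ?_
        have hm : Measurable fun τ => G (τ - a) ^ 2 :=
          (hG.comp (measurable_id.sub measurable_const)).pow_const 2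
        rw [lintegral_const_mul _ hm]
        congr 1
        exact lintegral_sub_right_eq_self (fun b => G b ^ 2) a
    _ = (∫⁻ a, K a) ^ 2 * ∫⁻ b, G b ^ 2 := by
        rw [lintegral_mul_const _ hK, sq, mul_assoc]

lemma mult0_F_meas {γ σ : ℝ} {w : ℝ → ℝ} (hγ : 0 < γ) (hw : Adm w) {A : ℝ → ℂ}
    (hA : AEStronglyMeasurable A volume) :
    AEMeasurable (fun b => ENNReal.ofReal (om γ b ^ σ * w b) * ‖A b‖ₑ) volume :=
  ((ENNReal.continuous_ofReal.comp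
    ((continuous_om_rpow hγ σ).mul hw.cont)).measurable.aemeasurable).mul hA.enorm

/-- The pointwise bound on a weighted convolution. -/
lemma mult0_pt {γ : ℝ} {w : ℝ → ℝ} (hγ : 0 < γ) (hw : Adm w) (M A : ℝ → ℂ) {p : ℝ} (hp : 0 ≤ p)
    (q : ℝ → ℝ) (τ : ℝ)
    (h : ∀ a, p ≤ q (τ - a) * (1 + 2 * Real.pi * |a| / γ)) :
    ENNReal.ofReal (p * w τ) * ‖cv M A τ‖ₑ ≤
      ∫⁻ a, ENNReal.ofReal (mult0_k γ w M a) *
        (ENNReal.ofReal (q (τ - a) * w (τ - a)) * ‖A (τ - a)‖ₑ) := by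
  have hpi := Real.pi_pos
  calc ENNReal.ofReal (p * w τ) * ‖cv M A τ‖ₑ
      ≤ ENNReal.ofReal (p * w τ) * ∫⁻ a, ‖M a * A (τ - a)‖ₑ := by
        gcongr
        exact enorm_integral_le_lintegral_enorm _
    _ = ∫⁻ a, ENNReal.ofReal (p * w τ) * ‖M a * A (τ - a)‖ₑ :=
        (lintegral_const_mul' _ _ ENNReal.ofReal_ne_top).symm
    _ ≤ _ := by
        refine lintegral_mono fun a => ?_
        have hw0 := mult0_w_nonneg hw
        have h1 : w τ ≤ w a * w (τ - a) := by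
          have := hw.submul a (τ - a)
          rwa [add_sub_cancel] at this
        have h2 : p * w τ * ‖M a‖ ≤ mult0_k γ w M a * (q (τ - a) * w (τ - a)) := by
          have h3 : p * w τ ≤ (q (τ - a) * (1 + 2 * Real.pi * |a| / γ)) * (w a * w (τ - a)) :=
            mul_le_mul (h a) h1 (hw0 τ) (hp.trans (h a))
          calc p * w τ * ‖M a‖
              ≤ (q (τ - a) * (1 + 2 * Real.pi * |a| / γ)) * (w a * w (τ - a)) * ‖M a‖ := by
                gcongr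
            _ = _ := by unfold mult0_k; ring
        rw [enorm_mul, ← mul_assoc, ← mul_assoc, ← ofReal_norm (M a),
          ← ENNReal.ofReal_mul (mul_nonneg hp (hw0 τ)),
          ← ENNReal.ofReal_mul (mult0_k_nonneg hγ hw M a)]
        gcongr

/-- Young's inequality with Peetre's inequality `om_rpow_le`. -/
theorem peetre {γ σ c : ℝ} {w : ℝ → ℝ} (hγ : 0 < γ) (hw : Adm w) (hσ : |σ| ≤ 1) {M A : ℝ → ℂ}
    (hM : RD M) (hA : AEStronglyMeasurable A volume) (hc : 0 ≤ c) (h : Bd γ w σ A c) :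
    Bd γ w σ (cv M A) (mulC γ w M * c) := by
  have hw0 := mult0_w_nonneg hw
  have hm := mulC_nonneg hγ hw M
  rw [bd_iff hw0 σ A hc] at h
  rw [bd_iff hw0 σ _ (mul_nonneg hm hc)]
  have hK : Measurable fun a => ENNReal.ofReal (mult0_k γ w M a) :=
    (ENNReal.continuous_ofReal.comp (mult0_k_cont hw hM)).measurable
  have hKi : ∫⁻ a, ENNReal.ofReal (mult0_k γ w M a) = ENNReal.ofReal (mulC γ w M) :=
    (ofReal_integral_eq_lintegral_ofReal (mult0_k_int hγ hw hM)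
      (Eventually.of_forall (mult0_k_nonneg hγ hw M))).symm
  calc ∫⁻ τ, (ENNReal.ofReal (om γ τ ^ σ * w τ) * ‖cv M A τ‖ₑ) ^ 2
      ≤ ∫⁻ τ, (∫⁻ a, ENNReal.ofReal (mult0_k γ w M a) *
        (ENNReal.ofReal (om γ (τ - a) ^ σ * w (τ - a)) * ‖A (τ - a)‖ₑ)) ^ 2 := by
        refine lintegral_mono fun τ => ?_
        have := mult0_pt hγ hw M A (Real.rpow_nonneg (om_nonneg γ τ) σ)
          (fun b => om γ b ^ σ) τ
          (fun a => om_rpow_le hγ hσ τ a)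
        exact pow_le_pow_left' this 2
    _ ≤ (∫⁻ a, ENNReal.ofReal (mult0_k γ w M a)) ^ 2 *
        ∫⁻ b, (ENNReal.ofReal (om γ b ^ σ * w b) * ‖A b‖ₑ) ^ 2 :=
        mult0_young hK (mult0_F_meas hγ hw hA)
    _ ≤ ENNReal.ofReal (mulC γ w M) ^ 2 * ENNReal.ofReal (c ^ 2) := by
        rw [hKi]; gcongr
    _ = ENNReal.ofReal ((mulC γ w M * c) ^ 2) := by
        rw [mul_pow, ENNReal.ofReal_mul (sq_nonneg _), ENNReal.ofReal_pow hm]

/-- Pointwise bound by Cauchy-Schwarz. -/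
theorem pw_bound {γ : ℝ} {w : ℝ → ℝ} (hγ : 1 ≤ γ) (hw : Adm w) {M : ℝ → ℂ} (hM : RD M) :
    ∃ C, 0 ≤ C ∧ ∀ σ, -1 ≤ σ → ∀ (A : ℝ → ℂ) (c : ℝ), AEStronglyMeasurable A volume → 0 ≤ c →
      Bd γ w σ A c → ∀ τ, w τ * ‖cv M A τ‖ ≤ C * om γ τ * c := by
  have hγ0 : 0 < γ := zero_lt_one.trans_le hγ
  have hw0 := mult0_w_nonneg hw
  set I : ℝ := ∫ a, mult0_k γ w M a ^ 2 with hI
  have hI0 : 0 ≤ I := integral_nonneg fun a => sq_nonneg _
  refine ⟨Real.sqrt I, Real.sqrt_nonneg _, fun σ hσ A c hA hc h τ => ?_⟩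
  have h' := h.lower_one hγ hw0 hσ
  rw [bd_iff hw0 _ A hc] at h'
  have hom := om_pos hγ0 τ
  have hK : Measurable fun a => ENNReal.ofReal (mult0_k γ w M a) :=
    (ENNReal.continuous_ofReal.comp (mult0_k_cont hw hM)).measurable
  have hKi : ∫⁻ a, ENNReal.ofReal (mult0_k γ w M a) ^ 2 = ENNReal.ofReal I := by
    rw [hI, ofReal_integral_eq_lintegral_ofReal (mult0_k_sq_int hγ0 hw hM)
      (Eventually.of_forall fun a => sq_nonneg _)]
    exact lintegral_congr fun a => (ENNReal.ofReal_pow (mult0_k_nonneg hγ0 hw M a) 2).symm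
  have h1 := mult0_pt hγ0 hw M A (Real.rpow_nonneg (om_nonneg γ τ) (-1))
    (fun b => om γ b ^ (-1 : ℝ)) τ
    (fun a => om_rpow_le hγ0 (by norm_num) τ a)
  have hF := mult0_F_meas (σ := -1) hγ0 hw hA
  have hmp := Measure.measurePreserving_sub_left (volume : Measure ℝ) τ
  have h2 := mult0_cs volume hK.aemeasurable (hF.comp_quasiMeasurePreserving
    hmp.quasiMeasurePreserving)
  simp only [Function.comp] at h2
  have h3 : ∫⁻ a, (ENNReal.ofReal (om γ (τ - a) ^ (-1 : ℝ) * w (τ - a)) * ‖A (τ - a)‖ₑ) ^ 2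
      = ∫⁻ b, (ENNReal.ofReal (om γ b ^ (-1 : ℝ) * w b) * ‖A b‖ₑ) ^ 2 :=
    lintegral_sub_left_eq_self
      (fun b => (ENNReal.ofReal (om γ b ^ (-1 : ℝ) * w b) * ‖A b‖ₑ) ^ 2) τ
  rw [h3, hKi] at h2
  have h4 : (ENNReal.ofReal (om γ τ ^ (-1 : ℝ) * w τ) * ‖cv M A τ‖ₑ) ^ 2
      ≤ ENNReal.ofReal I * ENNReal.ofReal (c ^ 2) :=
    ((pow_le_pow_left' h1 2).trans h2).trans (by gcongr)
  have hx0 : 0 ≤ om γ τ ^ (-1 : ℝ) * w τ := mul_nonneg (Real.rpow_nonneg hom.le _) (hw0 τ)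
  rw [← ofReal_norm, ← ENNReal.ofReal_mul hx0,
    ← ENNReal.ofReal_pow (mul_nonneg hx0 (norm_nonneg _)), ← ENNReal.ofReal_mul hI0,
    ENNReal.ofReal_le_ofReal_iff (mul_nonneg hI0 (sq_nonneg _))] at h4
  have h5 : om γ τ ^ (-1 : ℝ) * w τ * ‖cv M A τ‖ ≤ Real.sqrt I * c := by
    refine (pow_le_pow_iff_left₀ (mul_nonneg hx0 (norm_nonneg _))
      (mul_nonneg (Real.sqrt_nonneg _) hc) two_ne_zero).1 ?_
    rw [mul_pow (Real.sqrt I), Real.sq_sqrt hI0]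
    exact h4
  rw [Real.rpow_neg_one] at h5
  calc w τ * ‖cv M A τ‖ = om γ τ * ((om γ τ)⁻¹ * w τ * ‖cv M A τ‖) := by
        field_simp
    _ ≤ om γ τ * (Real.sqrt I * c) := by gcongr
    _ = _ := by ring

lemma mult0_pow_le {ε a : ℝ} (h0 : 0 ≤ ε) (h1 : ε ≤ 1) (ha : 0 ≤ a) (n : ℕ) :
    (1 + ε * a) ^ n ≤ 1 + ε * ((1 + a) ^ n - 1) := by
  induction n with
  | zero => simp
  | succ n ih =>
    have hP : 1 ≤ (1 + a) ^ n := one_le_pow₀ (by linarith)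
    have h2 : 0 ≤ 1 + ε * a := by positivity
    calc (1 + ε * a) ^ (n + 1) = (1 + ε * a) ^ n * (1 + ε * a) := pow_succ _ _
      _ ≤ (1 + ε * ((1 + a) ^ n - 1)) * (1 + ε * a) := by gcongr
      _ = 1 + ε * ((1 + a) ^ (n + 1) - 1) - ε * (1 - ε) * a * ((1 + a) ^ n - 1) := by ring
      _ ≤ _ := by
        have : 0 ≤ ε * (1 - ε) * a * ((1 + a) ^ n - 1) :=
          mul_nonneg (mul_nonneg (mul_nonneg h0 (by linarith)) ha) (by linarith)
        linarith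

lemma mulC_wt {γ : ℝ} (hγ : 0 < γ) {M : ℝ → ℂ} (hM : RD M) (n : ℕ) {δ : ℝ} (hδ : 0 < δ) :
    ∃ ε₀, 0 < ε₀ ∧ ε₀ ≤ 1 ∧ ∀ ε, 0 ≤ ε → ε ≤ ε₀ → mulC γ (wt ε n) M ≤ mulC γ w1 M + δ := by
  have hpi := Real.pi_pos
  have hB := mulC_nonneg hγ (adm_wt zero_le_one n) M
  set B := mulC γ (wt 1 n) M with hBdef
  refine ⟨min 1 (δ / (B + 1)), lt_min one_pos (by positivity), min_le_left _ _,
    fun ε h0 h1 => ?_⟩
  have h2 : ε ≤ 1 := h1.trans (min_le_left _ _)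
  have h3 : ε * B ≤ δ := by
    have h4 : ε ≤ δ / (B + 1) := h1.trans (min_le_right _ _)
    rw [le_div_iff₀ (by positivity)] at h4
    nlinarith
  have i1 := mult0_k_int hγ (adm_wt h0 n) hM
  have i2 := mult0_k_int hγ adm_w1 hM
  have i3 := mult0_k_int hγ (adm_wt zero_le_one n) hM
  have h5 : mulC γ (wt ε n) M ≤ ∫ a, (mult0_k γ w1 M a + ε * mult0_k γ (wt 1 n) M a) := by
    refine integral_mono i1 (i2.add (i3.const_mul ε)) fun a => ?_
    have h6 := mult0_pow_le h0 h2 (abs_nonneg a) n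
    have h7 : wt ε n a ≤ 1 + ε * wt 1 n a := by
      unfold wt
      rw [one_mul]
      nlinarith
    have h8 : 0 ≤ ‖M a‖ * (1 + 2 * Real.pi * |a| / γ) := by positivity
    calc ‖M a‖ * wt ε n a * (1 + 2 * Real.pi * |a| / γ)
        = ‖M a‖ * (1 + 2 * Real.pi * |a| / γ) * wt ε n a := by ring
      _ ≤ ‖M a‖ * (1 + 2 * Real.pi * |a| / γ) * (1 + ε * wt 1 n a) := by gcongr
      _ = _ := by unfold mult0_k w1; ring
  rw [integral_add i2 (i3.const_mul ε), integral_const_mul] at h5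
  have e1 : ∫ a, mult0_k γ w1 M a = mulC γ w1 M := rfl
  have e2 : ∫ a, mult0_k γ (wt 1 n) M a = B := rfl
  rw [e1, e2] at h5
  linarith

lemma mult0_spec_scale {γ : ℝ} (hγ : 0 < γ) (c : ℝ) (m : ℝ → ℝ) (τ : ℝ) :
    spec (c * γ) (fun t => m (γ * t)) τ = ((γ⁻¹ : ℝ) : ℂ) * spec c m (τ / γ) := by
  unfold spec
  rw [Real.fourier_real_eq, Real.fourier_real_eq]
  have h := Measure.integral_comp_mul_left
    (fun u : ℝ => Real.fourierChar (-(u * (τ / γ))) • (((Real.exp (-c * u) * m u : ℝ)) : ℂ)) γ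
  rw [abs_of_pos (inv_pos.2 hγ), Complex.real_smul] at h
  rw [← h]
  refine integral_congr_ae (Eventually.of_forall fun t => ?_)
  have e1 : γ * t * (τ / γ) = t * τ := by field_simp
  have e2 : -c * (γ * t) = -(c * γ) * t := by ring
  simp only [e1, e2]

lemma mulC_scale {γ : ℝ} (hγ : 0 < γ) (c : ℝ) (m : ℝ → ℝ) :
    mulC γ w1 (spec (c * γ) fun t => m (γ * t)) = mulC 1 w1 (spec c m) := by
  unfold mulC
  have h := Measure.integral_comp_div
    (fun b : ℝ => ‖spec c m b‖ * w1 b * (1 + 2 * Real.pi * |b| / 1)) γ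
  rw [abs_of_pos hγ, smul_eq_mul] at h
  have h2 : ∫ a, ‖spec (c * γ) (fun t => m (γ * t)) a‖ * w1 a * (1 + 2 * Real.pi * |a| / γ)
      = ∫ a, γ⁻¹ * (‖spec c m (a / γ)‖ * w1 (a / γ) * (1 + 2 * Real.pi * |a / γ| / 1)) := by
    refine integral_congr_ae (Eventually.of_forall fun a => ?_)
    simp only [mult0_spec_scale hγ, norm_mul, Complex.norm_real, Real.norm_eq_abs,
      abs_of_pos (inv_pos.2 hγ), abs_div, abs_of_pos hγ, w1]
    ring
  rw [h2, integral_const_mul, h]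
  field_simp

lemma mulC_anti {γ : ℝ} (hγ : 1 ≤ γ) {M : ℝ → ℂ} (hM : RD M) : mulC γ w1 M ≤ mulC 1 w1 M := by
  have hγ0 : 0 < γ := zero_lt_one.trans_le hγ
  have hpi := Real.pi_pos
  refine integral_mono (mult0_k_int hγ0 adm_w1 hM) (mult0_k_int one_pos adm_w1 hM) fun a => ?_
  have h1 : 2 * Real.pi * |a| / γ ≤ 2 * Real.pi * |a| / 1 :=
    div_le_div_of_nonneg_left (by positivity) one_pos hγ
  have h2 : 0 ≤ ‖M a‖ * w1 a := mul_nonneg (norm_nonneg _) zero_le_one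
  exact mul_le_mul_of_nonneg_left (by linarith) h2

lemma mult0_bd0_iff {γ c : ℝ} {A : ℝ → ℂ} (hA : Integrable fun τ => ‖A τ‖ ^ 2) (hc : 0 ≤ c) :
    Bd γ w1 0 A c ↔ ∫ τ, ‖A τ‖ ^ 2 ≤ c ^ 2 := by
  rw [bd_iff (mult0_w_nonneg adm_w1) 0 A hc, ← ENNReal.ofReal_le_ofReal_iff (sq_nonneg c),
    ofReal_integral_eq_lintegral_ofReal hA (Eventually.of_forall fun a => sq_nonneg _)]
  have : ∀ τ, (ENNReal.ofReal (om γ τ ^ (0 : ℝ) * w1 τ) * ‖A τ‖ₑ) ^ 2
      = ENNReal.ofReal (‖A τ‖ ^ 2) := by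
    intro τ
    rw [Real.rpow_zero, w1, mul_one, ENNReal.ofReal_one, one_mul, ← ofReal_norm,
      ENNReal.ofReal_pow (norm_nonneg _)]
  simp only [this]

lemma mult0_planch {γ c : ℝ} {A : ℝ → ℂ} (hA : RD A) (hc : 0 ≤ c) (h : Bd γ w1 0 A c) :
    (Integrable fun t => ‖𝓕⁻ A t‖ ^ 2) ∧ ∫ t, ‖𝓕⁻ A t‖ ^ 2 ≤ c ^ 2 := by
  have hi := mult0_sq_int hA
  have h2 : MemLp A 2 := (memLp_two_iff_integrable_sq_norm hA.aesm).2 hi
  obtain ⟨p1, p2⟩ := plancherel A hA.integrable h2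
  have p3 : Integrable fun ξ => ‖𝓕 A ξ‖ ^ 2 :=
    (memLp_two_iff_integrable_sq_norm p1.aestronglyMeasurable).1 p1
  simp only [Real.fourierInv_eq_fourier_neg]
  refine ⟨p3.comp_neg, ?_⟩
  rw [integral_neg_eq_self (fun ξ => ‖𝓕 A ξ‖ ^ 2), p2]
  exact (mult0_bd0_iff hi hc).1 h

lemma mult0_interval_le {t₂ t₃ : ℝ} (ht : t₂ ≤ t₃) {f g : ℝ → ℝ} (hf : Continuous f)
    (hg : Integrable g) (hg0 : ∀ t, 0 ≤ g t) (h : ∀ t, f t ≤ g t) :
    ∫ t in t₂..t₃, f t ≤ ∫ t, g t := by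
  calc ∫ t in t₂..t₃, f t ≤ ∫ t in t₂..t₃, g t :=
        intervalIntegral.integral_mono_on ht (hf.intervalIntegrable _ _) hg.intervalIntegrable
          fun t _ => h t
    _ ≤ ∫ t, g t := by
        rw [intervalIntegral.integral_of_le ht]
        exact setIntegral_le_integral hg (Eventually.of_forall hg0)

lemma mult0_tl_sq_le (A : ℝ → ℂ) (t : ℝ) : tl 0 A t ^ 2 ≤ ‖𝓕⁻ A t‖ ^ 2 := by
  rw [tl_zero_eq, ← sq_abs]
  exact pow_le_pow_left₀ (abs_nonneg _) (Complex.abs_re_le_norm _) 2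

theorem planch_tl {γ c t₂ t₃ : ℝ} {A : ℝ → ℂ} (hA : RD A) (hc : 0 ≤ c) (h : Bd γ w1 0 A c)
    (ht : t₂ ≤ t₃) : ∫ t in t₂..t₃, tl 0 A t ^ 2 ≤ c ^ 2 := by
  obtain ⟨p1, p2⟩ := mult0_planch hA hc h
  exact (mult0_interval_le ht ((tl_continuous hA 0).pow 2) p1 (fun t => sq_nonneg _)
    (mult0_tl_sq_le A)).trans p2

theorem planch_tl4 {γ c t₂ t₃ : ℝ} (hγ : 0 < γ) {A : ℝ → ℂ} (hA : RD A) (hc : 0 ≤ c)
    (h : Bd γ w1 (1 / 3) A c) (ht : t₂ ≤ t₃) :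
    ∫ t in t₂..t₃, tl 0 A t ^ 4 ≤ aa γ ^ 2 * c ^ 4 := by
  have hb := prod00 hγ adm_w1 hA.aesm hA.aesm hc hc h h
  obtain ⟨p1, p2⟩ := mult0_planch (hA.cv hA)
    (mul_nonneg (mul_nonneg (aa_nonneg γ) hc) hc) hb
  refine (mult0_interval_le ht ((tl_continuous hA 0).pow 4) p1 (fun t => sq_nonneg _)
    fun t => ?_).trans (p2.trans (le_of_eq (by ring)))
  rw [fourierInv_cv hA.integrable hA.integrable, norm_mul]
  have h1 := mult0_tl_sq_le A t
  calc tl 0 A t ^ 4 = (tl 0 A t ^ 2) ^ 2 := by ring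
    _ ≤ (‖𝓕⁻ A t‖ ^ 2) ^ 2 := pow_le_pow_left₀ (sq_nonneg _) h1 2
    _ = _ := by ring

theorem bd_L2 {γ σ c : ℝ} (hγ : 1 ≤ γ) (hσ : σ ≤ 0) {f : ℝ → ℝ} (hf : SC f) (hc : 0 ≤ c)
    (h : ∫ t, (Real.exp (-γ * t) * f t) ^ 2 ≤ c ^ 2) : Bd γ w1 σ (spec γ f) c := by
  refine Bd.lower_one hγ (mult0_w_nonneg adm_w1) hσ ?_
  rw [mult0_bd0_iff (mult0_sq_int (rd_spec γ hf)) hc]
  have hfc : Continuous f := hf.1.continuous
  have hgc : Continuous fun t : ℝ => ((Real.exp (-γ * t) * f t : ℝ) : ℂ) := by fun_prop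
  have hgs : HasCompactSupport fun t : ℝ => ((Real.exp (-γ * t) * f t : ℝ) : ℂ) := by
    refine hf.2.mono fun t ht => ?_
    simp only [Function.mem_support] at ht ⊢
    intro h0
    exact ht (by simp [h0])
  obtain ⟨-, p2⟩ := plancherel _ (hgc.integrable_of_hasCompactSupport hgs)
    (hgc.memLp_of_hasCompactSupport hgs)
  unfold spec
  rw [p2]
  simpa only [Complex.norm_real, Real.norm_eq_abs, sq_abs] using h

/-- A function bounded by `C` and supported in `[a, b]`, `a ≥ -1/γ`. -/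
theorem bd_short {γ σ C a b : ℝ} (hγ : 1 ≤ γ) (hσ : σ ≤ 0) {f : ℝ → ℝ} (hf : SC f) (hC : 0 ≤ C)
    (ha : -1 / γ ≤ a) (hab : a ≤ b) (h₀ : ∀ t, t ∉ Icc a b → f t = 0)
    (h₁ : ∀ t ∈ Icc a b, |f t| ≤ C) : Bd γ w1 σ (spec γ f) (3 * C * Real.sqrt (b - a)) := by
  have hγ0 : 0 < γ := zero_lt_one.trans_le hγ
  refine bd_L2 hγ hσ hf (by positivity) ?_
  have hfc : Continuous f := hf.1.continuous
  have hgc : Continuous fun t : ℝ => (Real.exp (-γ * t) * f t) ^ 2 := by fun_prop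
  rw [← setIntegral_eq_integral_of_forall_compl_eq_zero (s := Icc a b)
    (fun t ht => by rw [h₀ t ht]; ring)]
  have h2 : ∫ t in Icc a b, (Real.exp (-γ * t) * f t) ^ 2 ≤ ∫ _ in Icc a b, (3 * C) ^ 2 := by
    refine setIntegral_mono_on (hgc.continuousOn.integrableOn_Icc)
      (continuous_const.continuousOn.integrableOn_Icc) measurableSet_Icc fun t ht => ?_
    have h3 : -γ * t ≤ 1 := by
      have h4 : -1 / γ ≤ t := ha.trans ht.1
      rw [div_le_iff₀ hγ0] at h4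
      linarith
    have h5 : Real.exp (-γ * t) ≤ 3 :=
      (Real.exp_le_exp.2 h3).trans (by linarith [Real.exp_one_lt_d9])
    rw [← sq_abs, abs_mul, abs_of_pos (Real.exp_pos _)]
    exact pow_le_pow_left₀ (by positivity)
      (mul_le_mul h5 (h₁ t ht) (abs_nonneg _) (by norm_num)) 2
  refine h2.trans (le_of_eq ?_)
  rw [setIntegral_const, Real.volume_real_Icc_of_le hab, smul_eq_mul, mul_pow (3 * C),
    Real.sq_sqrt (by linarith)]
  ring

end Pool.Agent.Lib.MP_14aec4_an.W
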