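import Pool.Agent.Lib.MP_14aec4_an.Mult

/-!
Lipschitz estimates for the nonlinear terms.
-/

noncomputable section

open MeasureTheory Set Filter Topology FourierTransform
open scoped ENNReal ComplexConjugate

namespace Pool.Agent.Lib.MP_14aec4_an.W

variable {L κ γ η δ : ℝ} {P : BC} {w : ℝ → ℝ} {M : Fin 3 → ℝ → ℂ} {A : Fin 3 → ℝ}
  {V V' : Fin 3 → ℝ → ℝ → ℂ}

lemma nlip_rd2_fcub (hV : ∀ j, RD2 (V j)) : RD2 (fcub V) :=
  ((hV 0).cv (hV 0)).cv (hV 1)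

lemma nlip_rd_fL (L κ : ℝ) (P : BC) (hV : ∀ j, RD2 (V j)) (i : Fin 3) : RD (fL L κ P V i) :=
  (((((hV 1).at 0).const_mul _).sub (((hV 1).at L).const_mul _)).sub
    (((hV 2).at 0).const_mul _)).sub (((hV 1).at (ept L i)).const_mul _)

lemma nlip_rd_fE (hV : ∀ j, RD2 (V j)) (j : ℕ) (x : ℝ) : RD (fE V j x) := by
  by_cases h0 : j = 0
  · have h : fE V j x = cv (V 0 x) (V 0 x) := by
      funext τ
      simp only [fE, h0, if_true]
    rw [h]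
    exact ((hV 0).at x).cv ((hV 0).at x)
  · by_cases h1 : j = 1
    · have h : fE V j x = fun τ => 2 * cv (V 0 x) (V 1 x) τ := by
        funext τ
        unfold fE
        rw [if_neg h0, if_pos h1]
      rw [h]
      exact (((hV 0).at x).cv ((hV 1).at x)).const_mul _
    · have h : fE V j x = fun τ => 2 * cv (V 1 x) (V 1 x) τ + 2 * cv (V 0 x) (V 2 x) τ := by
        funext τ
        unfold fE
        rw [if_neg h0, if_neg h1]
      rw [h]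
      exact ((((hV 1).at x).cv ((hV 1).at x)).const_mul _).add
        ((((hV 0).at x).cv ((hV 2).at x)).const_mul _)

lemma nlip_rd_fQ (L : ℝ) (P : BC) (hV : ∀ j, RD2 (V j)) (i : Fin 3) : RD (fQ L P V i) :=
  ((((((hV 0).at 0).cv ((hV 0).at 0)).const_mul _).sub
    ((((hV 0).at L).cv ((hV 0).at L)).const_mul _)).sub
    ((((hV 0).at 0).cv ((hV 1).at 0)).const_mul _)).sub (nlip_rd_fE hV _ _)

lemma nlip_rd_fC (L : ℝ) (P : BC) (hV : ∀ j, RD2 (V j)) (i : Fin 3) : RD (fC L P V i) :=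
  ((nlip_rd2_fcub hV).at (ept L i)).const_mul _

lemma rd2_fN (κ : ℝ) (hM : ∀ n, RD (M n)) (hV : ∀ j, RD2 (V j)) : RD2 (fN κ M V) := by
  exact (((hM 0).rd2.cv (hV 1)).const_mul _).add
    (((hM 2).rd2.cv (nlip_rd2_fcub hV)).const_mul _)

lemma rd_fB (L κ : ℝ) (P : BC) (hM : ∀ n, RD (M n)) (hV : ∀ j, RD2 (V j)) (i : Fin 3) :
    RD (fB L κ P M V i) := by
  exact (((hM 0).cv (nlip_rd_fL L κ P hV i)).add ((hM 1).cv (nlip_rd_fQ L P hV i))).add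
    ((hM 2).cv (nlip_rd_fC L P hV i))

lemma fN_zero (κ : ℝ) (M : Fin 3 → ℝ → ℂ) : fN κ M (fun _ _ _ => 0) = fun _ _ => 0 := by
  funext x τ
  simp [fN, fcub, cv]

lemma fB_zero (L κ : ℝ) (P : BC) (M : Fin 3 → ℝ → ℂ) :
    fB L κ P M (fun _ _ _ => 0) = fun _ _ => 0 := by
  funext i τ
  simp [fB, fL, fQ, fE, fC, fcub, cv]

lemma nlip_j (P : BC) (i : Fin 3) : P.j i = 0 ∨ P.j i = 1 ∨ P.j i = 2 := by
  unfold BC.j
  fin_cases i <;> cases P.d0 <;> cases P.dL <;> simp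

lemma nlip_sigma (P : BC) (i : Fin 3) :
    (P.j i = 0 ∧ P.σ i = 0) ∨ (P.j i = 1 ∧ P.σ i = -1 / 3) ∨ (P.j i = 2 ∧ P.σ i = -2 / 3) := by
  unfold BC.σ
  rcases nlip_j P i with h | h | h <;> rw [h] <;> norm_num

lemma nlip_congr {σ c : ℝ} {F G : ℝ → ℂ} (h : Bd γ w σ F c) (e : ∀ τ, G τ = F τ) :
    Bd γ w σ G c := by
  rw [show G = F from funext e]
  exact h

lemma nlip_sbd0 {c x : ℝ} (b : SBd L γ w V c) (hx : x ∈ Icc 0 L) : Bd γ w (1 / 3) (V 0 x) c := by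
  have h := b x hx 0
  norm_num at h ⊢
  exact h

lemma nlip_sbd1 {c x : ℝ} (b : SBd L γ w V c) (hx : x ∈ Icc 0 L) : Bd γ w 0 (V 1 x) c := by
  have h := b x hx 1
  norm_num at h ⊢
  exact h

lemma nlip_sbd2 {c x : ℝ} (b : SBd L γ w V c) (hx : x ∈ Icc 0 L) :
    Bd γ w (-1 / 3) (V 2 x) c := by
  have h := b x hx 2
  norm_num at h ⊢
  exact h

lemma nlip_dbd0 {c x : ℝ} (b : SBd L γ w (fun j x τ => V j x τ - V' j x τ) c)
    (hx : x ∈ Icc 0 L) : Bd γ w (1 / 3) (fun τ => V 0 x τ - V' 0 x τ) c := by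
  have h := nlip_sbd0 b hx
  exact h

lemma nlip_dbd1 {c x : ℝ} (b : SBd L γ w (fun j x τ => V j x τ - V' j x τ) c)
    (hx : x ∈ Icc 0 L) : Bd γ w 0 (fun τ => V 1 x τ - V' 1 x τ) c := by
  have h := nlip_sbd1 b hx
  exact h

lemma nlip_dbd2 {c x : ℝ} (b : SBd L γ w (fun j x τ => V j x τ - V' j x τ) c)
    (hx : x ∈ Icc 0 L) : Bd γ w (-1 / 3) (fun τ => V 2 x τ - V' 2 x τ) c := by
  have h := nlip_sbd2 b hx
  exact h

/-- A coefficient that vanishes unless the order can be lowered. -/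
lemma nlip_coef (hγ : 1 ≤ γ) (hw : Adm w) {σ σ' c K : ℝ} {z : ℂ} {F : ℝ → ℂ} (hc : 0 ≤ c)
    (hz : ‖z‖ ≤ K) (h : z = 0 ∨ σ ≤ σ') (hF : Bd γ w σ' F c) :
    Bd γ w σ (fun τ => z * F τ) (K * c) := by
  rcases h with h | h
  · refine nlip_congr (Bd.zero γ w σ _) (fun τ => ?_)
    rw [h, zero_mul]
  · exact ((hF.lower_one hγ (fun τ => zero_le_one.trans (hw.one_le τ)) h).const_mul z).mono
      (mul_le_mul_of_nonneg_right hz hc)

lemma nlip_gain (hγ : 1 ≤ γ) (hw : Adm w) {σ c : ℝ} {F : ℝ → ℂ} (hF : Bd γ w σ F c) :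
    Bd γ w (σ - 1 / 3) F (γ ^ (-(1 : ℝ) / 3) * c) := by
  have h := hF.lower (σ := σ - 1 / 3) (by linarith) (fun τ => zero_le_one.trans (hw.one_le τ))
    (by linarith)
  rwa [show σ - 1 / 3 - σ = -(1 : ℝ) / 3 by ring] at h

lemma nlip_cv_diff {A₁ A₂ B₁ B₂ : ℝ → ℂ} (a₁ : RD A₁) (a₂ : RD A₂) (b₁ : RD B₁) (b₂ : RD B₂)
    (τ : ℝ) : cv A₁ B₁ τ - cv A₂ B₂ τ =
      cv (fun τ => A₁ τ - A₂ τ) B₁ τ + cv A₂ (fun τ => B₁ τ - B₂ τ) τ := by
  rw [cv_sub_left a₁ a₂ b₁, cv_sub_right a₂ b₁ b₂]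
  ring

section diff

variable {n x : ℝ} (hγ : 1 ≤ γ) (hw : Adm w) (hV : ∀ j, RD2 (V j)) (hV' : ∀ j, RD2 (V' j))
  (hn : 0 ≤ n) (b : SBd L γ w V n) (b' : SBd L γ w V' n) (hδ : 0 ≤ δ)
  (bd : SBd L γ w (fun j x τ => V j x τ - V' j x τ) δ)

include hγ hw hV hV' hn b b' hδ bd

lemma nlip_d00 (hx : x ∈ Icc 0 L) :
    Bd γ w 0 (fun τ => cv (V 0 x) (V 0 x) τ - cv (V' 0 x) (V' 0 x) τ) (2 * (aa γ * n * δ)) := by
  have hγ0 : 0 < γ := by linarith
  have ha := aa_nonneg γ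
  have r0 := (hV 0).at x
  have s0 := (hV' 0).at x
  have h1 := prod00 hγ0 hw (r0.sub s0).aesm r0.aesm hδ hn (nlip_dbd0 bd hx) (nlip_sbd0 b hx)
  have h2 := prod00 hγ0 hw s0.aesm (r0.sub s0).aesm hn hδ (nlip_sbd0 b' hx) (nlip_dbd0 bd hx)
  have h3 := Bd.add hγ0 hw ((r0.sub s0).cv r0).aesm (s0.cv (r0.sub s0)).aesm (by positivity)
    (by positivity) h1 h2
  exact nlip_congr (h3.mono (le_of_eq (by ring))) (nlip_cv_diff r0 s0 r0 s0)

lemma nlip_d01 (hx : x ∈ Icc 0 L) :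
    Bd γ w (-1 / 3) (fun τ => cv (V 0 x) (V 1 x) τ - cv (V' 0 x) (V' 1 x) τ)
      (2 * (aa γ * n * δ)) := by
  have hγ0 : 0 < γ := by linarith
  have ha := aa_nonneg γ
  have r0 := (hV 0).at x
  have s0 := (hV' 0).at x
  have r1 := (hV 1).at x
  have s1 := (hV' 1).at x
  have h1 := prod01 hγ0 hw (r0.sub s0).aesm r1.aesm hδ hn (nlip_dbd0 bd hx) (nlip_sbd1 b hx)
  have h2 := prod01 hγ0 hw s0.aesm (r1.sub s1).aesm hn hδ (nlip_sbd0 b' hx) (nlip_dbd1 bd hx)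
  have h3 := Bd.add hγ0 hw ((r0.sub s0).cv r1).aesm (s0.cv (r1.sub s1)).aesm (by positivity)
    (by positivity) h1 h2
  exact nlip_congr (h3.mono (le_of_eq (by ring))) (nlip_cv_diff r0 s0 r1 s1)

lemma nlip_d11 (hx : x ∈ Icc 0 L) :
    Bd γ w (-2 / 3) (fun τ => cv (V 1 x) (V 1 x) τ - cv (V' 1 x) (V' 1 x) τ)
      (2 * (aa γ * n * δ)) := by
  have hγ0 : 0 < γ := by linarith
  have ha := aa_nonneg γ
  have r1 := (hV 1).at x
  have s1 := (hV' 1).at x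
  have h1 := prod11 hγ0 hw (r1.sub s1).aesm r1.aesm hδ hn (nlip_dbd1 bd hx) (nlip_sbd1 b hx)
  have h2 := prod11 hγ0 hw s1.aesm (r1.sub s1).aesm hn hδ (nlip_sbd1 b' hx) (nlip_dbd1 bd hx)
  have h3 := Bd.add hγ0 hw ((r1.sub s1).cv r1).aesm (s1.cv (r1.sub s1)).aesm (by positivity)
    (by positivity) h1 h2
  exact nlip_congr (h3.mono (le_of_eq (by ring))) (nlip_cv_diff r1 s1 r1 s1)

lemma nlip_d02 (hx : x ∈ Icc 0 L) :
    Bd γ w (-2 / 3) (fun τ => cv (V 0 x) (V 2 x) τ - cv (V' 0 x) (V' 2 x) τ)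
      (4 * (aa γ * n * δ)) := by
  have hγ0 : 0 < γ := by linarith
  have ha := aa_nonneg γ
  have r0 := (hV 0).at x
  have s0 := (hV' 0).at x
  have r2 := (hV 2).at x
  have s2 := (hV' 2).at x
  have h1 := prod02 hγ0 hw (r0.sub s0).aesm r2.aesm hδ hn (nlip_dbd0 bd hx) (nlip_sbd2 b hx)
  have h2 := prod02 hγ0 hw s0.aesm (r2.sub s2).aesm hn hδ (nlip_sbd0 b' hx) (nlip_dbd2 bd hx)
  have h3 := Bd.add hγ0 hw ((r0.sub s0).cv r2).aesm (s0.cv (r2.sub s2)).aesm (by positivity)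
    (by positivity) h1 h2
  exact nlip_congr (h3.mono (le_of_eq (by ring))) (nlip_cv_diff r0 s0 r2 s2)

lemma nlip_dcub (hx : x ∈ Icc 0 L) :
    Bd γ w (-1 / 3) (fun τ => fcub V x τ - fcub V' x τ) (216 * (n ^ 2 * δ)) := by
  have hγ0 : 0 < γ := by linarith
  have r0 := (hV 0).at x
  have s0 := (hV' 0).at x
  have r1 := (hV 1).at x
  have s1 := (hV' 1).at x
  have h1 := prod001 hγ0 hw (r0.sub s0).aesm r0.aesm r1.aesm hδ hn hn (nlip_dbd0 bd hx)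
    (nlip_sbd0 b hx) (nlip_sbd1 b hx)
  have h2 := prod001 hγ0 hw s0.aesm (r0.sub s0).aesm r1.aesm hn hδ hn (nlip_sbd0 b' hx)
    (nlip_dbd0 bd hx) (nlip_sbd1 b hx)
  have h3 := prod001 hγ0 hw s0.aesm s0.aesm (r1.sub s1).aesm hn hn hδ (nlip_sbd0 b' hx)
    (nlip_sbd0 b' hx) (nlip_dbd1 bd hx)
  have q1 := ((r0.sub s0).cv r0).cv r1
  have q2 := (s0.cv (r0.sub s0)).cv r1
  have q3 := (s0.cv s0).cv (r1.sub s1)
  have h4 := Bd.add hγ0 hw (q1.add q2).aesm q3.aesm (by positivity) (by positivity)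
    (Bd.add hγ0 hw q1.aesm q2.aesm (by positivity) (by positivity) h1 h2) h3
  refine nlip_congr (h4.mono (le_of_eq (by ring))) (fun τ => ?_)
  unfold fcub
  rw [nlip_cv_diff (r0.cv r0) (s0.cv s0) r1 s1,
    show (fun τ => cv (V 0 x) (V 0 x) τ - cv (V' 0 x) (V' 0 x) τ) = fun τ =>
      cv (fun τ => V 0 x τ - V' 0 x τ) (V 0 x) τ + cv (V' 0 x) (fun τ => V 0 x τ - V' 0 x τ) τ
      from funext (nlip_cv_diff r0 s0 r0 s0),
    cv_add_left ((r0.sub s0).cv r0) (s0.cv (r0.sub s0)) r1]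

omit hn b b' in
lemma nlip_dL (hL : 0 < L) (κ : ℝ) (hP : P.Valid) (i : Fin 3) :
    Bd γ w (P.σ i) (fun τ => fL L κ P V i τ - fL L κ P V' i τ)
      ((|P.α i| + |P.β i| + |P.ζ i| + 6 * |mu κ|) * (γ ^ (-(1 : ℝ) / 3) * δ)) := by
  have hγ0 : 0 < γ := by linarith
  have h0 : (0 : ℝ) ∈ Icc 0 L := ⟨le_rfl, hL.le⟩
  have hLL : L ∈ Icc 0 L := ⟨hL.le, le_rfl⟩
  have he := ept_mem hL.le i
  have hc : 0 ≤ γ ^ (-(1 : ℝ) / 3) * δ := by positivity
  have hs := nlip_sigma P i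
  obtain ⟨v1, v2⟩ := hP i
  have h1 := nlip_coef (σ := P.σ i) (z := -(P.α i : ℂ)) (K := |P.α i|) hγ hw hc (by simp) (by
    rcases hs with ⟨hj, hs⟩ | ⟨hj, hs⟩ | ⟨hj, hs⟩
    · left; simp [(v1 hj).1]
    · right; rw [hs]; norm_num
    · right; rw [hs]; norm_num) (nlip_gain hγ hw (nlip_dbd1 bd h0))
  have h2 := nlip_coef (σ := P.σ i) (z := (P.β i : ℂ)) (K := |P.β i|) hγ hw hc (by simp) (by
    rcases hs with ⟨hj, hs⟩ | ⟨hj, hs⟩ | ⟨hj, hs⟩
    · left; simp [(v1 hj).2]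
    · right; rw [hs]; norm_num
    · right; rw [hs]; norm_num) (nlip_gain hγ hw (nlip_dbd1 bd hLL))
  have h3 := nlip_coef (σ := P.σ i) (z := (P.ζ i : ℂ)) (K := |P.ζ i|) hγ hw hc (by simp) (by
    rcases hs with ⟨hj, hs⟩ | ⟨hj, hs⟩ | ⟨hj, hs⟩
    · left; simp [v2 (by omega)]
    · left; simp [v2 (by omega)]
    · right; rw [hs]; norm_num) (nlip_gain hγ hw (nlip_dbd2 bd h0))
  have h4 := nlip_coef (σ := P.σ i) (z := (P.dyn i : ℂ) * (6 * mu κ)) (K := 6 * |mu κ|) hγ hw hc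
    (by
      unfold BC.dyn
      split_ifs
      · simp
      · simp) (by
    rcases hs with ⟨hj, hs⟩ | ⟨hj, hs⟩ | ⟨hj, hs⟩
    · left; simp [BC.dyn, hj]
    · left; simp [BC.dyn, hj]
    · right; rw [hs]; norm_num) (nlip_gain hγ hw (nlip_dbd1 bd he))
  have q : ∀ j y, RD fun τ => V j y τ - V' j y τ := fun j y => ((hV j).at y).sub ((hV' j).at y)
  have q1 := (q 1 0).const_mul (-(P.α i : ℂ))
  have q2 := (q 1 L).const_mul (P.β i : ℂ)
  have q3 := (q 2 0).const_mul (P.ζ i : ℂ)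
  have q4 := (q 1 (ept L i)).const_mul ((P.dyn i : ℂ) * (6 * mu κ))
  have h5 := Bd.sub hγ0 hw ((q1.sub q2).sub q3).aesm q4.aesm (by positivity) (by positivity)
    (Bd.sub hγ0 hw (q1.sub q2).aesm q3.aesm (by positivity) (by positivity)
      (Bd.sub hγ0 hw q1.aesm q2.aesm (by positivity) (by positivity) h1 h2) h3) h4
  refine nlip_congr (h5.mono (le_of_eq (by ring))) (fun τ => ?_)
  unfold fL
  ring

lemma nlip_dE (hL : 0 < L) (P : BC) (i : Fin 3) :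
    Bd γ w (P.σ i) (fun τ => fE V (P.j i) (ept L i) τ - fE V' (P.j i) (ept L i) τ)
      (12 * (aa γ * n * δ)) := by
  have hγ0 : 0 < γ := by linarith
  have he := ept_mem hL.le i
  have ha := aa_nonneg γ
  have hc : 0 ≤ aa γ * n * δ := by positivity
  rcases nlip_sigma P i with ⟨hj, hs⟩ | ⟨hj, hs⟩ | ⟨hj, hs⟩
  · rw [hj, hs]
    refine nlip_congr ((nlip_d00 hγ hw hV hV' hn b b' hδ bd he).mono (by linarith)) (fun τ => ?_)
    simp [fE]
  · rw [hj, hs]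
    refine nlip_congr (((nlip_d01 hγ hw hV hV' hn b b' hδ bd he).const_mul 2).mono
      (by rw [Complex.norm_two]; linarith)) (fun τ => ?_)
    simp only [fE, one_ne_zero, if_false, if_true]
    ring
  · rw [hj, hs]
    have q1 := ((((hV 1).at (ept L i)).cv ((hV 1).at (ept L i))).sub
      (((hV' 1).at (ept L i)).cv ((hV' 1).at (ept L i)))).const_mul 2
    have q2 := ((((hV 0).at (ept L i)).cv ((hV 2).at (ept L i))).sub
      (((hV' 0).at (ept L i)).cv ((hV' 2).at (ept L i)))).const_mul 2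
    have h1 := Bd.add hγ0 hw q1.aesm q2.aesm (by positivity) (by positivity)
      ((nlip_d11 hγ hw hV hV' hn b b' hδ bd he).const_mul 2)
      ((nlip_d02 hγ hw hV hV' hn b b' hδ bd he).const_mul 2)
    refine nlip_congr (h1.mono (by rw [Complex.norm_two]; linarith)) (fun τ => ?_)
    simp only [fE, OfNat.ofNat_ne_zero, OfNat.ofNat_ne_one, if_false]
    ring

lemma nlip_dQ (hL : 0 < L) (hP : P.Valid) (i : Fin 3) :
    Bd γ w (P.σ i) (fun τ => fQ L P V i τ - fQ L P V' i τ)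
      ((2 * |P.α i| + 2 * |P.β i| + 4 * |P.ζ i| + 12) * (aa γ * n * δ)) := by
  have hγ0 : 0 < γ := by linarith
  have h0 : (0 : ℝ) ∈ Icc 0 L := ⟨le_rfl, hL.le⟩
  have hLL : L ∈ Icc 0 L := ⟨hL.le, le_rfl⟩
  have ha := aa_nonneg γ
  have hc : 0 ≤ 2 * (aa γ * n * δ) := by positivity
  have hs := nlip_sigma P i
  obtain ⟨-, v2⟩ := hP i
  have hs0 : P.σ i ≤ 0 := by
    rcases hs with ⟨-, hs⟩ | ⟨-, hs⟩ | ⟨-, hs⟩ <;> rw [hs] <;> norm_num
  have h1 := nlip_coef (σ := P.σ i) (z := -(P.α i : ℂ)) (K := |P.α i|) hγ hw hc (by simp)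
    (Or.inr hs0) (nlip_d00 hγ hw hV hV' hn b b' hδ bd h0)
  have h2 := nlip_coef (σ := P.σ i) (z := (P.β i : ℂ)) (K := |P.β i|) hγ hw hc (by simp)
    (Or.inr hs0) (nlip_d00 hγ hw hV hV' hn b b' hδ bd hLL)
  have h3 := nlip_coef (σ := P.σ i) (z := (P.ζ i : ℂ) * 2) (K := |P.ζ i| * 2) hγ hw hc (by simp)
    (by
    rcases hs with ⟨hj, hs⟩ | ⟨hj, hs⟩ | ⟨hj, hs⟩
    · left; simp [v2 (by omega)]
    · left; simp [v2 (by omega)]
    · right; rw [hs]; norm_num) (nlip_d01 hγ hw hV hV' hn b b' hδ bd h0)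
  have h4 := nlip_dE hγ hw hV hV' hn b b' hδ bd hL P i
  have q : ∀ j k y, RD fun τ => cv (V j y) (V k y) τ - cv (V' j y) (V' k y) τ :=
    fun j k y => (((hV j).at y).cv ((hV k).at y)).sub (((hV' j).at y).cv ((hV' k).at y))
  have q1 := (q 0 0 0).const_mul (-(P.α i : ℂ))
  have q2 := (q 0 0 L).const_mul (P.β i : ℂ)
  have q3 := (q 0 1 0).const_mul ((P.ζ i : ℂ) * 2)
  have q4 := (nlip_rd_fE hV (P.j i) (ept L i)).sub (nlip_rd_fE hV' (P.j i) (ept L i))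
  have h5 := Bd.sub hγ0 hw ((q1.sub q2).sub q3).aesm q4.aesm (by positivity) (by positivity)
    (Bd.sub hγ0 hw (q1.sub q2).aesm q3.aesm (by positivity) (by positivity)
      (Bd.sub hγ0 hw q1.aesm q2.aesm (by positivity) (by positivity) h1 h2) h3) h4
  refine nlip_congr (h5.mono (le_of_eq (by ring))) (fun τ => ?_)
  unfold fQ
  ring

lemma nlip_dC (hL : 0 < L) (P : BC) (i : Fin 3) :
    Bd γ w (P.σ i) (fun τ => fC L P V i τ - fC L P V' i τ) (1296 * (n ^ 2 * δ)) := by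
  have he := ept_mem hL.le i
  have h1 := nlip_coef (σ := P.σ i) (z := -(P.dyn i : ℂ) * 6) (K := 6) hγ hw (by positivity)
    (by
      unfold BC.dyn
      split_ifs
      · simp
      · simp) (by
    rcases nlip_sigma P i with ⟨hj, hs⟩ | ⟨hj, hs⟩ | ⟨hj, hs⟩
    · left; simp [BC.dyn, hj]
    · left; simp [BC.dyn, hj]
    · right; rw [hs]; norm_num) (nlip_dcub hγ hw hV hV' hn b b' hδ bd he)
  refine nlip_congr (h1.mono (le_of_eq (by ring))) (fun τ => ?_)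
  unfold fC
  ring

end diff

lemma nlip_fN_diff (κ : ℝ) (hM : ∀ n, RD (M n)) (hV : ∀ j, RD2 (V j)) (hV' : ∀ j, RD2 (V' j))
    (x τ : ℝ) : fN κ M V x τ - fN κ M V' x τ =
      6 * mu κ * cv (M 0) (fun τ => V 1 x τ - V' 1 x τ) τ +
        6 * cv (M 2) (fun τ => fcub V x τ - fcub V' x τ) τ := by
  rw [cv_sub_right (hM 0) ((hV 1).at x) ((hV' 1).at x),
    cv_sub_right (hM 2) ((nlip_rd2_fcub hV).at x) ((nlip_rd2_fcub hV').at x)]
  unfold fN
  ring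

lemma nlip_fB_diff (L κ : ℝ) (P : BC) (hM : ∀ n, RD (M n)) (hV : ∀ j, RD2 (V j))
    (hV' : ∀ j, RD2 (V' j)) (i : Fin 3) (τ : ℝ) : fB L κ P M V i τ - fB L κ P M V' i τ =
      cv (M 0) (fun τ => fL L κ P V i τ - fL L κ P V' i τ) τ +
        cv (M 1) (fun τ => fQ L P V i τ - fQ L P V' i τ) τ +
        cv (M 2) (fun τ => fC L P V i τ - fC L P V' i τ) τ := by
  rw [cv_sub_right (hM 0) (nlip_rd_fL L κ P hV i) (nlip_rd_fL L κ P hV' i),
    cv_sub_right (hM 1) (nlip_rd_fQ L P hV i) (nlip_rd_fQ L P hV' i),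
    cv_sub_right (hM 2) (nlip_rd_fC L P hV i) (nlip_rd_fC L P hV' i)]
  unfold fB
  ring

lemma nlip_abs_sigma (P : BC) (i : Fin 3) : |P.σ i| ≤ 1 := by
  rw [abs_le]
  rcases nlip_sigma P i with ⟨-, hs⟩ | ⟨-, hs⟩ | ⟨-, hs⟩ <;> rw [hs] <;> norm_num

/-- Linear terms gain `γ ^ (-1/3)` (`Bd.lower`), quadratic terms gain `aa γ` (`prod00`, `prod01`,
`prod11`, `prod02`), the cubic term is `prod001`; the multipliers are handled by `peetre`. -/
theorem nl_lip (hL : 0 < L) (hP : P.Valid) (hγ : 1 ≤ γ) (hw : Adm w) (hM : ∀ n, RD (M n))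
    (hA : ∀ n, mulC γ w (M n) ≤ 2 * A n) (hs : Smal L κ P γ A η) (hV : ∀ j, RD2 (V j))
    (hV' : ∀ j, RD2 (V' j)) (b : SBd L γ w V (4 * η)) (b' : SBd L γ w V' (4 * η)) (hδ : 0 ≤ δ)
    (bd : SBd L γ w (fun j x τ => V j x τ - V' j x τ) δ) :
    (∀ x ∈ Icc 0 L,
      Bd γ w (-1 / 3) (fun τ => fN κ M V x τ - fN κ M V' x τ) (δ / (120 * (1 + L)))) ∧
    ∀ i, Bd γ w (P.σ i) (fun τ => fB L κ P M V i τ - fB L κ P M V' i τ) (δ / 168) := by
  have hγ0 : 0 < γ := by linarith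
  obtain ⟨hA0, hη, hK⟩ := hs
  have hn : 0 ≤ 4 * η := by positivity
  have ha := aa_nonneg γ
  have a0 := hA0 0
  have a1 := hA0 1
  have a2 := hA0 2
  have hg : 0 ≤ γ ^ (-(1 : ℝ) / 3) := by positivity
  have m0 := mulC_nonneg hγ0 hw (M 0)
  have m1 := mulC_nonneg hγ0 hw (M 1)
  have m2 := mulC_nonneg hγ0 hw (M 2)
  set S := ∑ i, (|P.α i| + |P.β i| + |P.ζ i|) with hS
  have hS0 : 0 ≤ S := Finset.sum_nonneg fun i _ => by positivity
  have hmu := abs_nonneg (mu κ)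
  set X₀ := A 0 * γ ^ (-(1 : ℝ) / 3) with hX₀
  set X₁ := A 1 * aa γ * η with hX₁
  set X₂ := A 2 * η ^ 2 with hX₂
  have x0 : 0 ≤ X₀ := by positivity
  have x1 : 0 ≤ X₁ := by positivity
  have x2 : 0 ≤ X₂ := by positivity
  set T := 1 + |mu κ| + S with hT
  have hK' : 10 ^ 8 * (1 + L) * (T * (X₀ + X₁ + X₂)) ≤ 1 := by
    refine le_trans (le_of_eq ?_) hK
    unfold Kc
    rw [← hS, ← hT]
    ring
  have hY : 41472 * (T * (X₀ + X₁ + X₂)) * δ ≤ δ / (168 * (1 + L)) := by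
    rw [le_div_iff₀ (by positivity)]
    have h1 : 0 ≤ (1 + L) * (T * (X₀ + X₁ + X₂)) := by positivity
    have h2 : 41472 * (T * (X₀ + X₁ + X₂)) * (168 * (1 + L)) ≤ 1 := by nlinarith
    nlinarith
  constructor
  · intro x hx
    have q1 := ((hV 1).at x).sub ((hV' 1).at x)
    have q2 := ((nlip_rd2_fcub hV).at x).sub ((nlip_rd2_fcub hV').at x)
    have g1 := nlip_gain hγ hw (nlip_dbd1 bd hx)
    rw [show (0 : ℝ) - 1 / 3 = -1 / 3 by norm_num] at g1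
    have h1 := (peetre hγ0 hw (by rw [abs_le]; norm_num) (hM 0) q1.aesm (by positivity)
      g1).const_mul (6 * mu κ)
    have h2 := (peetre hγ0 hw (by rw [abs_le]; norm_num) (hM 2) q2.aesm (by positivity)
      (nlip_dcub hγ hw hV hV' hn b b' hδ bd hx)).const_mul 6
    have h3 := Bd.add hγ0 hw (((hM 0).cv q1).const_mul _).aesm (((hM 2).cv q2).const_mul _).aesm
      (by positivity) (by positivity) h1 h2
    refine nlip_congr (h3.mono ?_) (nlip_fN_diff κ hM hV hV' x)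
    have e1 : ‖(6 * mu κ : ℂ)‖ = 6 * |mu κ| := by simp
    have e2 : ‖(6 : ℂ)‖ = 6 := by simp
    rw [e1, e2]
    have k1 : 6 * |mu κ| * (mulC γ w (M 0) * (γ ^ (-(1 : ℝ) / 3) * δ)) ≤
        12 * (|mu κ| * X₀) * δ := by
      calc _ ≤ 6 * |mu κ| * (2 * A 0 * (γ ^ (-(1 : ℝ) / 3) * δ)) := by gcongr; exact hA 0
        _ = _ := by rw [hX₀]; ring
    have k2 : 6 * (mulC γ w (M 2) * (216 * ((4 * η) ^ 2 * δ))) ≤ 41472 * X₂ * δ := by
      calc _ ≤ 6 * (2 * A 2 * (216 * ((4 * η) ^ 2 * δ))) := by gcongr; exact hA 2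
        _ = _ := by rw [hX₂]; ring
    have k3 : 12 * (|mu κ| * X₀) + 41472 * X₂ ≤ 41472 * (T * (X₀ + X₁ + X₂)) := by
      rw [hT]
      have := mul_nonneg hmu x0
      have := mul_nonneg hmu x1
      have := mul_nonneg hmu x2
      have := mul_nonneg hS0 x0
      have := mul_nonneg hS0 x1
      have := mul_nonneg hS0 x2
      nlinarith
    have k4 := mul_le_mul_of_nonneg_right k3 hδ
    have k5 : δ / (168 * (1 + L)) ≤ δ / (120 * (1 + L)) :=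
      div_le_div_of_nonneg_left hδ (by positivity) (by nlinarith)
    nlinarith
  · intro i
    have hσ := nlip_abs_sigma P i
    have q1 := (nlip_rd_fL L κ P hV i).sub (nlip_rd_fL L κ P hV' i)
    have q2 := (nlip_rd_fQ L P hV i).sub (nlip_rd_fQ L P hV' i)
    have q3 := (nlip_rd_fC L P hV i).sub (nlip_rd_fC L P hV' i)
    have h1 := peetre hγ0 hw hσ (hM 0) q1.aesm (by positivity)
      (nlip_dL hγ hw hV hV' hδ bd hL κ hP i)
    have h2 := peetre hγ0 hw hσ (hM 1) q2.aesm (by positivity)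
      (nlip_dQ hγ hw hV hV' hn b b' hδ bd hL hP i)
    have h3 := peetre hγ0 hw hσ (hM 2) q3.aesm (by positivity)
      (nlip_dC hγ hw hV hV' hn b b' hδ bd hL P i)
    have h4 := Bd.add hγ0 hw (((hM 0).cv q1).add ((hM 1).cv q2)).aesm ((hM 2).cv q3).aesm
      (by positivity) (by positivity)
      (Bd.add hγ0 hw ((hM 0).cv q1).aesm ((hM 1).cv q2).aesm (by positivity) (by positivity)
        h1 h2) h3
    refine nlip_congr (h4.mono ?_) (nlip_fB_diff L κ P hM hV hV' i)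
    have hSi : |P.α i| + |P.β i| + |P.ζ i| ≤ S :=
      Finset.single_le_sum (f := fun i => |P.α i| + |P.β i| + |P.ζ i|)
        (fun i _ => by positivity) (Finset.mem_univ i)
    have p1 := abs_nonneg (P.α i)
    have p2 := abs_nonneg (P.β i)
    have p3 := abs_nonneg (P.ζ i)
    have t1 : |P.α i| + |P.β i| + |P.ζ i| + 6 * |mu κ| ≤ 6 * T := by rw [hT]; linarith
    have t2 : 2 * |P.α i| + 2 * |P.β i| + 4 * |P.ζ i| + 12 ≤ 12 * T := by rw [hT]; linarith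
    have t3 : 1 ≤ T := by rw [hT]; linarith
    have k1 : mulC γ w (M 0) * ((|P.α i| + |P.β i| + |P.ζ i| + 6 * |mu κ|) *
        (γ ^ (-(1 : ℝ) / 3) * δ)) ≤ 12 * (T * X₀) * δ := by
      calc _ ≤ 2 * A 0 * ((6 * T) * (γ ^ (-(1 : ℝ) / 3) * δ)) := by gcongr; exact hA 0
        _ = _ := by rw [hX₀]; ring
    have k2 : mulC γ w (M 1) * ((2 * |P.α i| + 2 * |P.β i| + 4 * |P.ζ i| + 12) *
        (aa γ * (4 * η) * δ)) ≤ 96 * (T * X₁) * δ := by
      calc _ ≤ 2 * A 1 * ((12 * T) * (aa γ * (4 * η) * δ)) := by gcongr; exact hA 1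
        _ = _ := by rw [hX₁]; ring
    have k3 : mulC γ w (M 2) * (1296 * ((4 * η) ^ 2 * δ)) ≤ 41472 * (T * X₂) * δ := by
      calc _ ≤ 2 * A 2 * (1296 * ((4 * η) ^ 2 * δ)) := by gcongr; exact hA 2
        _ = 41472 * (1 * X₂) * δ := by rw [hX₂]; ring
        _ ≤ _ := by gcongr
    have k4 : 12 * (T * X₀) + 96 * (T * X₁) + 41472 * (T * X₂) ≤
        41472 * (T * (X₀ + X₁ + X₂)) := by
      have := mul_nonneg (zero_le_one.trans t3) x0
      have := mul_nonneg (zero_le_one.trans t3) x1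
      nlinarith
    have k5 := mul_le_mul_of_nonneg_right k4 hδ
    have k6 : δ / (168 * (1 + L)) ≤ δ / 168 :=
      div_le_div_of_nonneg_left hδ (by positivity) (by nlinarith)
    nlinarith

/-- The same with `pw_bound` in place of `peetre`. -/
theorem nl_pw (hL : 0 < L) (κ : ℝ) (hP : P.Valid) (hγ : 1 ≤ γ) (hw : Adm w) (hM : ∀ n, RD (M n))
    {n : ℝ} (hn : 0 ≤ n) :
    ∃ C, 0 ≤ C ∧ ∀ (V V' : Fin 3 → ℝ → ℝ → ℂ) (δ : ℝ), (∀ j, RD2 (V j)) → (∀ j, RD2 (V' j)) →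
      SBd L γ w V n → SBd L γ w V' n → 0 ≤ δ → SBd L γ w (fun j x τ => V j x τ - V' j x τ) δ →
      ∀ τ, (∀ x ∈ Icc 0 L, w τ * ‖fN κ M V x τ - fN κ M V' x τ‖ ≤ C * om γ τ * δ) ∧
        ∀ i, w τ * ‖fB L κ P M V i τ - fB L κ P M V' i τ‖ ≤ C * om γ τ * δ := by
  have hγ0 : 0 < γ := by linarith
  obtain ⟨C₀, c0, h₀⟩ := pw_bound hγ hw (hM 0)
  obtain ⟨C₁, c1, h₁⟩ := pw_bound hγ hw (hM 1)
  obtain ⟨C₂, c2, h₂⟩ := pw_bound hγ hw (hM 2)
  have ha := aa_nonneg γ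
  have hg : 0 ≤ γ ^ (-(1 : ℝ) / 3) := by positivity
  set E : Fin 3 → ℝ := fun i =>
    C₀ * ((|P.α i| + |P.β i| + |P.ζ i| + 6 * |mu κ|) * γ ^ (-(1 : ℝ) / 3)) +
      C₁ * ((2 * |P.α i| + 2 * |P.β i| + 4 * |P.ζ i| + 12) * (aa γ * n)) +
      C₂ * (1296 * n ^ 2) with hE
  have hE0 : ∀ i, 0 ≤ E i := fun i => by
    simp only [hE]
    positivity
  have hS0 : 0 ≤ ∑ i, E i := Finset.sum_nonneg fun i _ => hE0 i
  set N := 6 * |mu κ| * C₀ + 6 * (C₂ * (216 * n ^ 2)) with hN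
  have hN0 : 0 ≤ N := by positivity
  refine ⟨N + ∑ i, E i, by positivity, fun V V' δ hV hV' b b' hδ bd τ => ⟨?_, ?_⟩⟩
  · intro x hx
    have ho := om_nonneg γ τ
    have hw0 : 0 ≤ w τ := zero_le_one.trans (hw.one_le τ)
    have q1 := ((hV 1).at x).sub ((hV' 1).at x)
    have q2 := ((nlip_rd2_fcub hV).at x).sub ((nlip_rd2_fcub hV').at x)
    have h1 := h₀ 0 (by norm_num) _ _ q1.aesm hδ (nlip_dbd1 bd hx) τ
    have h2 := h₂ (-1 / 3) (by norm_num) _ _ q2.aesm (by positivity)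
      (nlip_dcub hγ hw hV hV' hn b b' hδ bd hx) τ
    rw [nlip_fN_diff κ hM hV hV' x τ]
    have e1 : ‖(6 * mu κ : ℂ)‖ = 6 * |mu κ| := by simp
    have e2 : ‖(6 : ℂ)‖ = 6 := by simp
    refine (mul_le_mul_of_nonneg_left (norm_add_le _ _) hw0).trans ?_
    rw [norm_mul (6 * mu κ : ℂ), e1, norm_mul (6 : ℂ), e2]
    have h3 := mul_le_mul_of_nonneg_left h1 (show 0 ≤ 6 * |mu κ| by positivity)
    have h4 : N * om γ τ * δ ≤ (N + ∑ i, E i) * om γ τ * δ := by gcongr; linarith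
    refine le_trans ?_ h4
    rw [hN]
    nlinarith
  · intro i
    have ho := om_nonneg γ τ
    have hw0 : 0 ≤ w τ := zero_le_one.trans (hw.one_le τ)
    have hσ : -1 ≤ P.σ i := (abs_le.1 (nlip_abs_sigma P i)).1
    have q1 := (nlip_rd_fL L κ P hV i).sub (nlip_rd_fL L κ P hV' i)
    have q2 := (nlip_rd_fQ L P hV i).sub (nlip_rd_fQ L P hV' i)
    have q3 := (nlip_rd_fC L P hV i).sub (nlip_rd_fC L P hV' i)
    have h1 := h₀ _ hσ _ _ q1.aesm (by positivity) (nlip_dL hγ hw hV hV' hδ bd hL κ hP i) τ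
    have h2 := h₁ _ hσ _ _ q2.aesm (by positivity) (nlip_dQ hγ hw hV hV' hn b b' hδ bd hL hP i) τ
    have h3 := h₂ _ hσ _ _ q3.aesm (by positivity) (nlip_dC hγ hw hV hV' hn b b' hδ bd hL P i) τ
    rw [nlip_fB_diff L κ P hM hV hV' i τ]
    refine (mul_le_mul_of_nonneg_left (norm_add₃_le) hw0).trans ?_
    have h4 : E i ≤ ∑ i, E i := Finset.single_le_sum (fun i _ => hE0 i) (Finset.mem_univ i)
    have h5 : E i * om γ τ * δ ≤ (N + ∑ i, E i) * om γ τ * δ := by gcongr; linarith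
    refine le_trans ?_ h5
    simp only [hE]
    nlinarith

lemma nlip_z_mul {F : ℝ → ℂ} {t : ℝ} (h : tl 0 F t = 0) (c : ℝ) {z : ℂ} (hz : z = c) :
    tl 0 (fun τ => z * F τ) t = 0 := by
  rw [hz, tl_real_mul, h, mul_zero]

lemma nlip_z_cv {F G : ℝ → ℂ} {t : ℝ} (hF : RD F) (hG : RD G) (hr : IsRe F) (h : tl 0 G t = 0) :
    tl 0 (cv F G) t = 0 := by
  rw [tl_cv hF hG hr, h, mul_zero]

lemma nlip_z_add {F G : ℝ → ℂ} {t : ℝ} (hF : RD F) (hG : RD G) (h₁ : tl 0 F t = 0)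
    (h₂ : tl 0 G t = 0) : tl 0 (fun τ => F τ + G τ) t = 0 := by
  rw [tl_add hF hG, h₁, h₂, add_zero]

lemma nlip_z_sub {F G : ℝ → ℂ} {t : ℝ} (hF : RD F) (hG : RD G) (h₁ : tl 0 F t = 0)
    (h₂ : tl 0 G t = 0) : tl 0 (fun τ => F τ - G τ) t = 0 := by
  rw [tl_sub hF hG, h₁, h₂, sub_zero]

/-- The time side of the nonlinear terms vanishes where the state vanishes. -/
lemma tl_nl_zero (hL : 0 < L) (κ : ℝ) (P : BC) (hM : ∀ n, RD (M n)) (hMr : ∀ n, IsRe (M n))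
    (hV : ∀ j, RD2 (V j)) (hr : ∀ j x, IsRe (V j x)) {t : ℝ}
    (h : ∀ j, ∀ x ∈ Icc 0 L, tl 0 (V j x) t = 0) :
    (∀ x ∈ Icc 0 L, tl 0 (fN κ M V x) t = 0) ∧ ∀ i, tl 0 (fB L κ P M V i) t = 0 := by
  have h0 : (0 : ℝ) ∈ Icc 0 L := ⟨le_rfl, hL.le⟩
  have hLL : L ∈ Icc 0 L := ⟨hL.le, le_rfl⟩
  have r : ∀ j y, RD (V j y) := fun j y => (hV j).at y
  have zc : ∀ j k, ∀ y ∈ Icc 0 L, tl 0 (cv (V j y) (V k y)) t = 0 :=
    fun j k y hy => nlip_z_cv (r j y) (r k y) (hr j y) (h k y hy)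
  have zcub : ∀ y ∈ Icc 0 L, tl 0 (fcub V y) t = 0 := fun y hy =>
    nlip_z_cv ((r 0 y).cv (r 0 y)) (r 1 y) (IsRe.cv (r 0 y) (r 0 y) (hr 0 y) (hr 0 y)) (h 1 y hy)
  constructor
  · intro x hx
    exact nlip_z_add (((hM 0).cv (r 1 x)).const_mul _)
      (((hM 2).cv ((nlip_rd2_fcub hV).at x)).const_mul _)
      (nlip_z_mul (nlip_z_cv (hM 0) (r 1 x) (hMr 0) (h 1 x hx)) (6 * mu κ) (by push_cast; ring))
      (nlip_z_mul (nlip_z_cv (hM 2) ((nlip_rd2_fcub hV).at x) (hMr 2) (zcub x hx)) 6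
        (by push_cast; ring))
  · intro i
    have he := ept_mem hL.le i
    have zL : tl 0 (fL L κ P V i) t = 0 :=
      nlip_z_sub ((((r 1 0).const_mul _).sub ((r 1 L).const_mul _)).sub ((r 2 0).const_mul _))
        ((r 1 _).const_mul _)
        (nlip_z_sub (((r 1 0).const_mul _).sub ((r 1 L).const_mul _)) ((r 2 0).const_mul _)
          (nlip_z_sub ((r 1 0).const_mul _) ((r 1 L).const_mul _)
            (nlip_z_mul (h 1 0 h0) (-P.α i) (by push_cast; ring))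
            (nlip_z_mul (h 1 L hLL) (P.β i) rfl))
          (nlip_z_mul (h 2 0 h0) (P.ζ i) rfl))
        (nlip_z_mul (h 1 _ he) (P.dyn i * (6 * mu κ)) (by push_cast; ring))
    have zE : tl 0 (fE V (P.j i) (ept L i)) t = 0 := by
      rcases nlip_j P i with hj | hj | hj
      · have e : fE V (P.j i) (ept L i) = cv (V 0 (ept L i)) (V 0 (ept L i)) := by
          funext τ
          simp [fE, hj]
        rw [e]
        exact zc 0 0 _ he
      · have e : fE V (P.j i) (ept L i) =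
            fun τ => 2 * cv (V 0 (ept L i)) (V 1 (ept L i)) τ := by
          funext τ
          simp [fE, hj]
        rw [e]
        exact nlip_z_mul (zc 0 1 _ he) 2 (by push_cast; ring)
      · have e : fE V (P.j i) (ept L i) = fun τ => 2 * cv (V 1 (ept L i)) (V 1 (ept L i)) τ +
            2 * cv (V 0 (ept L i)) (V 2 (ept L i)) τ := by
          funext τ
          simp [fE, hj]
        rw [e]
        exact nlip_z_add (((r 1 _).cv (r 1 _)).const_mul _) (((r 0 _).cv (r 2 _)).const_mul _)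
          (nlip_z_mul (zc 1 1 _ he) 2 (by push_cast; ring))
          (nlip_z_mul (zc 0 2 _ he) 2 (by push_cast; ring))
    have zQ : tl 0 (fQ L P V i) t = 0 :=
      nlip_z_sub (((((r 0 0).cv (r 0 0)).const_mul _).sub (((r 0 L).cv (r 0 L)).const_mul _)).sub
          (((r 0 0).cv (r 1 0)).const_mul _)) (nlip_rd_fE hV _ _)
        (nlip_z_sub ((((r 0 0).cv (r 0 0)).const_mul _).sub (((r 0 L).cv (r 0 L)).const_mul _))
          (((r 0 0).cv (r 1 0)).const_mul _)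
          (nlip_z_sub (((r 0 0).cv (r 0 0)).const_mul _) (((r 0 L).cv (r 0 L)).const_mul _)
            (nlip_z_mul (zc 0 0 0 h0) (-P.α i) (by push_cast; ring))
            (nlip_z_mul (zc 0 0 L hLL) (P.β i) rfl))
          (nlip_z_mul (zc 0 1 0 h0) (P.ζ i * 2) (by push_cast; ring))) zE
    have zC : tl 0 (fC L P V i) t = 0 :=
      nlip_z_mul (zcub _ he) (-P.dyn i * 6) (by push_cast; ring)
    exact nlip_z_add (((hM 0).cv (nlip_rd_fL L κ P hV i)).add ((hM 1).cv (nlip_rd_fQ L P hV i)))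
      ((hM 2).cv (nlip_rd_fC L P hV i))
      (nlip_z_add ((hM 0).cv (nlip_rd_fL L κ P hV i)) ((hM 1).cv (nlip_rd_fQ L P hV i))
        (nlip_z_cv (hM 0) (nlip_rd_fL L κ P hV i) (hMr 0) zL)
        (nlip_z_cv (hM 1) (nlip_rd_fQ L P hV i) (hMr 1) zQ))
      (nlip_z_cv (hM 2) (nlip_rd_fC L P hV i) (hMr 2) zC)

end Pool.Agent.Lib.MP_14aec4_an.W
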