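import Pool.Agent.Lib.MP_14aec4_an.Est

/-!
The positon family of exact solutions of KdV and its derivatives.
-/

noncomputable section

open MeasureTheory Set Filter Topology
open scoped ENNReal Real

namespace Pool.Agent.Lib.MP_14aec4_an

def pW (_m _c s p : ℝ) : ℝ := 12 * (1 + s) * p
def pWg (_m _c s p : ℝ) : ℝ := -12 * (1 + s) * p ^ 2
def pU0 (m c s p : ℝ) : ℝ := 12 * m * c * p - 12 * (1 + s) ^ 2 * p ^ 2
def pU0g (m c s p : ℝ) : ℝ := -12 * m * c * p ^ 2 + 24 * (1 + s) ^ 2 * p ^ 3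
def pU0gg (m c s p : ℝ) : ℝ := 24 * m * c * p ^ 3 - 72 * (1 + s) ^ 2 * p ^ 4
def pU1 (m c s p : ℝ) : ℝ :=
  -12 * m ^ 2 * s * p - 36 * m * c * (1 + s) * p ^ 2 + 24 * (1 + s) ^ 3 * p ^ 3
def pU1g (m c s p : ℝ) : ℝ :=
  12 * m ^ 2 * s * p ^ 2 + 72 * m * c * (1 + s) * p ^ 3 - 72 * (1 + s) ^ 3 * p ^ 4
def pU2 (m c s p : ℝ) : ℝ :=
  -12 * m ^ 3 * c * p + 48 * m ^ 2 * s * (1 + s) * p ^ 2 - 36 * m ^ 2 * c ^ 2 * p ^ 2
    + 144 * m * c * (1 + s) ^ 2 * p ^ 3 - 72 * (1 + s) ^ 4 * p ^ 4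
def pU2g (m c s p : ℝ) : ℝ :=
  12 * m ^ 3 * c * p ^ 2 - 96 * m ^ 2 * s * (1 + s) * p ^ 3 + 72 * m ^ 2 * c ^ 2 * p ^ 3
    - 432 * m * c * (1 + s) ^ 2 * p ^ 4 + 288 * (1 + s) ^ 4 * p ^ 5
def pU3 (m c s p : ℝ) : ℝ :=
  12 * m ^ 4 * s * p + 60 * m ^ 3 * c * p ^ 2 + 180 * m ^ 3 * c * s * p ^ 2
    - 240 * m ^ 2 * s * (1 + s) ^ 2 * p ^ 3 + 360 * m ^ 2 * c ^ 2 * (1 + s) * p ^ 3
    - 720 * m * c * (1 + s) ^ 3 * p ^ 4 + 288 * (1 + s) ^ 5 * p ^ 5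
def pC (_m c _s p : ℝ) : ℝ := c * p
def pCx (m c s p : ℝ) : ℝ := -m * s * p - c * (1 + s) * p ^ 2
def pCg (_m c _s p : ℝ) : ℝ := -c * p ^ 2

/-- `F` has `x`-derivative `Fx` and `γ`-derivative `Fg` as a polynomial in `cos`, `sin`, `1/τ`. -/
def Der (F Fx Fg : ℝ → ℝ → ℝ → ℝ → ℝ) : Prop :=
  ∀ (m l β y : ℝ) (c s p : ℝ → ℝ), HasDerivAt c (-(m * l) * s y) y → HasDerivAt s (m * l * c y) y →
    HasDerivAt p (-(p y ^ 2) * (l * s y + β)) y →
    HasDerivAt (fun y => F m (c y) (s y) (p y))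
      (l * (Fx m (c y) (s y) (p y) - Fg m (c y) (s y) (p y)) + β * Fg m (c y) (s y) (p y)) y

lemma der_W : Der pW pU0 pWg := by
  intro m l β y c s p hc hs hp
  have := ((hs.const_add 1).const_mul 12).mul hp
  refine HasDerivAt.congr_deriv this ?_
  simp only [pU0, pWg]; ring

lemma der_U0 : Der pU0 pU1 pU0g := by
  intro m l β y c s p hc hs hp
  have := ((hc.const_mul (12 * m)).mul hp).sub
    ((((hs.const_add 1).pow 2).const_mul 12).mul (hp.pow 2))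
  refine HasDerivAt.congr_deriv this ?_
  simp only [pU1, pU0g, Pi.pow_apply]; ring

lemma der_U0g : Der pU0g pU1g pU0gg := by
  intro m l β y c s p hc hs hp
  have := ((hc.const_mul (-12 * m)).mul (hp.pow 2)).add
    ((((hs.const_add 1).pow 2).const_mul 24).mul (hp.pow 3))
  refine HasDerivAt.congr_deriv this ?_
  simp only [pU1g, pU0gg, Pi.pow_apply]; ring

lemma der_U1 : Der pU1 pU2 pU1g := by
  intro m l β y c s p hc hs hp
  have := (((hs.const_mul (-12 * m ^ 2)).mul hp).sub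
    (((hc.const_mul (36 * m)).mul (hs.const_add 1)).mul (hp.pow 2))).add
    ((((hs.const_add 1).pow 3).const_mul 24).mul (hp.pow 3))
  refine HasDerivAt.congr_deriv this ?_
  simp only [pU2, pU1g, Pi.pow_apply, Pi.mul_apply]; ring

lemma der_U2 : Der pU2 pU3 pU2g := by
  intro m l β y c s p hc hs hp
  have := (((((hc.const_mul (-12 * m ^ 3)).mul hp).add
    (((hs.const_mul (48 * m ^ 2)).mul (hs.const_add 1)).mul (hp.pow 2))).sub
    (((hc.pow 2).const_mul (36 * m ^ 2)).mul (hp.pow 2))).add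
    (((hc.const_mul (144 * m)).mul ((hs.const_add 1).pow 2)).mul (hp.pow 3))).sub
    ((((hs.const_add 1).pow 4).const_mul 72).mul (hp.pow 4))
  refine HasDerivAt.congr_deriv this ?_
  simp only [pU3, pU2g, Pi.pow_apply, Pi.mul_apply]; ring

lemma der_C : Der pC pCx pCg := by
  intro m l β y c s p hc hs hp
  have := hc.mul hp
  refine HasDerivAt.congr_deriv this ?_
  simp only [pCx, pCg]; ring

/-- phase -/
def th (m x t : ℝ) : ℝ := m * x + (m ^ 3 - m) * t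
/-- slow variable -/
def ga (m x t : ℝ) : ℝ := x + (3 * m ^ 2 - 1) * t + 2
/-- the tau function -/
def tau (m x t : ℝ) : ℝ := ga m x t - Real.cos (th m x t) / m
/-- evaluation of a polynomial in `cos`, `sin`, `1/τ` -/
def ev (F : ℝ → ℝ → ℝ → ℝ → ℝ) (m x t : ℝ) : ℝ :=
  F m (Real.cos (th m x t)) (Real.sin (th m x t)) (tau m x t)⁻¹

lemma Der.path {F Fx Fg : ℝ → ℝ → ℝ → ℝ → ℝ} (h : Der F Fx Fg) {m l β y : ℝ} (hm : m ≠ 0)
    {θ γ : ℝ → ℝ} (hθ : HasDerivAt θ (m * l) y) (hγ : HasDerivAt γ β y)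
    (hτ : γ y - Real.cos (θ y) / m ≠ 0) :
    HasDerivAt (fun y => F m (Real.cos (θ y)) (Real.sin (θ y)) (γ y - Real.cos (θ y) / m)⁻¹)
      (l * (Fx m (Real.cos (θ y)) (Real.sin (θ y)) (γ y - Real.cos (θ y) / m)⁻¹
        - Fg m (Real.cos (θ y)) (Real.sin (θ y)) (γ y - Real.cos (θ y) / m)⁻¹)
        + β * Fg m (Real.cos (θ y)) (Real.sin (θ y)) (γ y - Real.cos (θ y) / m)⁻¹) y := by
  apply h m l β y (fun y => Real.cos (θ y)) (fun y => Real.sin (θ y))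
    (fun y => (γ y - Real.cos (θ y) / m)⁻¹)
  · refine HasDerivAt.congr_deriv hθ.cos ?_; ring
  · refine HasDerivAt.congr_deriv hθ.sin ?_; ring
  · refine HasDerivAt.congr_deriv ((hγ.sub (hθ.cos.div_const m)).inv hτ) ?_
    simp only [Pi.sub_apply]
    field_simp
    ring

lemma Der.dx {F Fx Fg : ℝ → ℝ → ℝ → ℝ → ℝ} (h : Der F Fx Fg) {m x t : ℝ} (hm : m ≠ 0)
    (hτ : tau m x t ≠ 0) : HasDerivAt (fun x => ev F m x t) (ev Fx m x t) x := by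
  have hθ : HasDerivAt (fun x => th m x t) (m * 1) x :=
    ((hasDerivAt_id x).const_mul m).add_const _
  have hγ : HasDerivAt (fun x => ga m x t) 1 x :=
    ((hasDerivAt_id x).add_const _).add_const _
  refine HasDerivAt.congr_deriv (h.path hm hθ hγ hτ) ?_
  simp only [ev, tau]; ring

lemma Der.dt {F Fx Fg : ℝ → ℝ → ℝ → ℝ → ℝ} (h : Der F Fx Fg) {m x t : ℝ} (hm : m ≠ 0)
    (hτ : tau m x t ≠ 0) :
    HasDerivAt (fun t => ev F m x t) ((m ^ 2 - 1) * ev Fx m x t + 2 * m ^ 2 * ev Fg m x t) t := by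
  have hθ : HasDerivAt (fun t => th m x t) (m * (m ^ 2 - 1)) t := by
    refine HasDerivAt.congr_deriv (((hasDerivAt_id t).const_mul (m ^ 3 - m)).const_add (m * x)) ?_
    ring
  have hγ : HasDerivAt (fun t => ga m x t) (3 * m ^ 2 - 1) t := by
    refine HasDerivAt.congr_deriv
      ((((hasDerivAt_id t).const_mul (3 * m ^ 2 - 1)).const_add x).add_const 2) ?_
    ring
  refine HasDerivAt.congr_deriv (h.path hm hθ hγ hτ) ?_
  simp only [ev, tau]; ring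

lemma pde_identity (m x t : ℝ) :
    ((m ^ 2 - 1) * ev pU1 m x t + 2 * m ^ 2 * ev pU0g m x t) + ev pU1 m x t + ev pU3 m x t
      + ev pU0 m x t * ev pU1 m x t = 0 := by
  simp only [ev, pU0, pU1, pU0g, pU3]
  set c := Real.cos (th m x t)
  set s := Real.sin (th m x t)
  set p := (tau m x t)⁻¹
  have h : s ^ 2 + c ^ 2 = 1 := Real.sin_sq_add_cos_sq _
  linear_combination (-72 * m ^ 2 * (1 + s) * p ^ 3) * h

lemma tau_ge {m x t : ℝ} (hm : 2 ≤ m) (hx : 0 ≤ x) (ht : 0 ≤ t) :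
    1 + 2 * m ^ 2 * t ≤ tau m x t := by
  unfold tau ga
  have h1 : Real.cos (th m x t) / m ≤ 1 := by
    rw [div_le_one (by linarith)]
    linarith [Real.cos_le_one (th m x t)]
  have h2 : 0 ≤ (m ^ 2 - 1) * t := mul_nonneg (by nlinarith) ht
  nlinarith

lemma tau_pos {m x t : ℝ} (hm : 2 ≤ m) (hx : 0 ≤ x) (ht : 0 ≤ t) : 0 < tau m x t := by
  have := tau_ge hm hx ht
  have : 0 ≤ 2 * m ^ 2 * t := by positivity
  linarith

lemma tau_contDiff (m : ℝ) {n : WithTop ℕ∞} : ContDiff ℝ n (fun p : ℝ × ℝ => tau m p.1 p.2) := by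
  unfold tau ga th
  fun_prop

/-- Polynomiality, recorded as smoothness in the three variables. -/
def Sm (F : ℝ → ℝ → ℝ → ℝ → ℝ) : Prop :=
  ∀ m : ℝ, ContDiff ℝ (⊤ : ℕ∞) (fun z : ℝ × ℝ × ℝ => F m z.1 z.2.1 z.2.2)

lemma Sm.contDiffAt {F : ℝ → ℝ → ℝ → ℝ → ℝ} (h : Sm F) {m : ℝ} {q : ℝ × ℝ}
    (hτ : tau m q.1 q.2 ≠ 0) : ContDiffAt ℝ (⊤ : ℕ∞) (fun p : ℝ × ℝ => ev F m p.1 p.2) q := by
  have h1 : ContDiffAt ℝ (⊤ : ℕ∞) (fun p : ℝ × ℝ =>
      ((Real.cos (th m p.1 p.2), Real.sin (th m p.1 p.2), (tau m p.1 p.2)⁻¹) : ℝ × ℝ × ℝ)) q := by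
    refine ContDiffAt.prodMk ?_ (ContDiffAt.prodMk ?_ ?_)
    · unfold th; fun_prop
    · unfold th; fun_prop
    · exact (tau_contDiff m).contDiffAt.inv hτ
  exact (h m).contDiffAt.comp q h1

lemma sm_W : Sm pW := by intro m; unfold pW; fun_prop
lemma sm_Wg : Sm pWg := by intro m; unfold pWg; fun_prop
lemma sm_U0 : Sm pU0 := by intro m; unfold pU0; fun_prop
lemma sm_U0g : Sm pU0g := by intro m; unfold pU0g; fun_prop
lemma sm_U0gg : Sm pU0gg := by intro m; unfold pU0gg; fun_prop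
lemma sm_U1 : Sm pU1 := by intro m; unfold pU1; fun_prop
lemma sm_U1g : Sm pU1g := by intro m; unfold pU1g; fun_prop
lemma sm_U2 : Sm pU2 := by intro m; unfold pU2; fun_prop
lemma sm_C : Sm pC := by intro m; unfold pC; fun_prop
lemma sm_Cx : Sm pCx := by intro m; unfold pCx; fun_prop

lemma Sm.contT {F : ℝ → ℝ → ℝ → ℝ → ℝ} (h : Sm F) {m x T : ℝ} (hm : 2 ≤ m) (hx : 0 ≤ x) :
    ContinuousOn (fun t => ev F m x t) (Icc 0 T) := by
  intro t ht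
  have := (h.contDiffAt (m := m) (q := (x, t)) (tau_pos hm hx ht.1).ne').continuousAt
  exact (this.comp (f := fun t : ℝ => ((x, t) : ℝ × ℝ)) (by fun_prop)).continuousWithinAt

lemma Sm.contDiffX {F : ℝ → ℝ → ℝ → ℝ → ℝ} (h : Sm F) {m x t : ℝ} (hm : 2 ≤ m) (hx : 0 ≤ x)
    (ht : 0 ≤ t) : ContDiffAt ℝ (⊤ : ℕ∞) (fun x => ev F m x t) x := by
  have := h.contDiffAt (m := m) (q := (x, t)) (tau_pos hm hx ht).ne'
  exact this.comp (f := fun x : ℝ => ((x, t) : ℝ × ℝ)) x (by fun_prop)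

lemma Sm.contX {F : ℝ → ℝ → ℝ → ℝ → ℝ} (h : Sm F) {m t L : ℝ} (hm : 2 ≤ m) (ht : 0 ≤ t) :
    ContinuousOn (fun x => ev F m x t) (Icc 0 L) := fun _ hx =>
  (h.contDiffX hm hx.1 ht).continuousAt.continuousWithinAt

lemma tau_ne_eventually {m x t : ℝ} (hτ : tau m x t ≠ 0) : ∀ᶠ y in 𝓝 x, tau m y t ≠ 0 := by
  have : Continuous (fun y => tau m y t) := by unfold tau ga th; fun_prop
  exact this.continuousAt.eventually_ne hτ

lemma deriv_ev {F Fx Fg : ℝ → ℝ → ℝ → ℝ → ℝ} (h : Der F Fx Fg) {m x t : ℝ} (hm : m ≠ 0)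
    (hτ : tau m x t ≠ 0) : deriv (fun x => ev F m x t) =ᶠ[𝓝 x] fun x => ev Fx m x t := by
  filter_upwards [tau_ne_eventually hτ] with y hy
  exact (h.dx hm hy).deriv

lemma iter1 {m x t : ℝ} (hm : m ≠ 0) (hτ : tau m x t ≠ 0) :
    iteratedDeriv 1 (fun x => ev pU0 m x t) =ᶠ[𝓝 x] fun x => ev pU1 m x t := by
  rw [iteratedDeriv_one]; exact deriv_ev der_U0 hm hτ

lemma iter2 {m x t : ℝ} (hm : m ≠ 0) (hτ : tau m x t ≠ 0) :
    iteratedDeriv 2 (fun x => ev pU0 m x t) =ᶠ[𝓝 x] fun x => ev pU2 m x t := by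
  rw [iteratedDeriv_succ]
  exact (iter1 hm hτ).deriv.trans (deriv_ev der_U1 hm hτ)

lemma iter3 {m x t : ℝ} (hm : m ≠ 0) (hτ : tau m x t ≠ 0) :
    iteratedDeriv 3 (fun x => ev pU0 m x t) =ᶠ[𝓝 x] fun x => ev pU3 m x t := by
  rw [iteratedDeriv_succ]
  exact (iter2 hm hτ).deriv.trans (deriv_ev der_U2 hm hτ)

lemma positon_smoothSol {m : ℝ} (hm : 2 ≤ m) (L T : ℝ) : IsSmoothSol L T (ev pU0 m) := by
  have hm0 : m ≠ 0 := by linarith
  constructor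
  · intro q hq
    exact (sm_U0.contDiffAt (tau_pos hm hq.1.1 hq.2.1).ne').contDiffWithinAt
  · intro x hx t ht
    have hτ := (tau_pos hm hx.1.le ht.1.le).ne'
    rw [(der_U0.dt hm0 hτ).deriv, (der_U0.dx hm0 hτ).deriv, (iter3 hm0 hτ).eq_of_nhds]
    exact pde_identity m x t

lemma trace_eq {m L y t : ℝ} (hm : 2 ≤ m) (hL : 0 < L) (hy : y ∈ Icc 0 L) (ht : 0 ≤ t) :
    iteratedDerivWithin 0 (fun x => ev pU0 m x t) (Icc 0 L) y = ev pU0 m y t ∧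
    iteratedDerivWithin 1 (fun x => ev pU0 m x t) (Icc 0 L) y = ev pU1 m y t ∧
    iteratedDerivWithin 2 (fun x => ev pU0 m x t) (Icc 0 L) y = ev pU2 m y t := by
  have hm0 : m ≠ 0 := by linarith
  have hτ := (tau_pos hm hy.1 ht).ne'
  have hc := sm_U0.contDiffX hm hy.1 ht
  refine ⟨by simp, ?_, ?_⟩
  · rw [iteratedDerivWithin_eq_iteratedDeriv (uniqueDiffOn_Icc hL) (hc.of_le (by exact_mod_cast le_top)) hy]
    exact (iter1 hm0 hτ).eq_of_nhds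
  · rw [iteratedDerivWithin_eq_iteratedDeriv (uniqueDiffOn_Icc hL)
      (hc.of_le (WithTop.coe_le_coe.2 (le_top : ((2 : ℕ) : ℕ∞) ≤ ⊤))) hy]
    exact (iter2 hm0 hτ).eq_of_nhds

end Pool.Agent.Lib.MP_14aec4_an
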