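import Pool.Agent.Lib.MP_14aec4_an.FB

/-!
The roots of `λ³ = -s` and the particular solutions.
-/

noncomputable section

open MeasureTheory Set Filter Topology FourierTransform
open scoped ENNReal ComplexConjugate

namespace Pool.Agent.Lib.MP_14aec4_an.W

lemma res0_rt_eq (γ τ : ℝ) : rt γ τ = sv γ τ ^ ((((1 : ℝ) / 3 : ℝ)) : ℂ) := by
  unfold rt
  have h : ((3 : ℂ)⁻¹) = ((((1 : ℝ) / 3 : ℝ)) : ℂ) := by
    push_cast
    ring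
  rw [h]

lemma res0_sv_re (γ τ : ℝ) : (sv γ τ).re = γ := by
  simp [sv]

lemma rt_cube {γ : ℝ} (τ : ℝ) : rt γ τ ^ 3 = sv γ τ := by
  unfold rt
  exact Complex.cpow_ofNat_inv_pow _ 3

lemma norm_rt (γ τ : ℝ) : ‖rt γ τ‖ = om γ τ ^ ((1 : ℝ) / 3) := by
  rw [res0_rt_eq, Complex.norm_cpow_real]
  rfl

lemma continuous_rt {γ : ℝ} (hγ : 0 < γ) : Continuous (rt γ) := by
  have h : Continuous fun τ => sv γ τ ^ ((3 : ℂ)⁻¹) := by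
    refine Continuous.cpow (continuous_sv γ) continuous_const fun τ => ?_
    exact Complex.mem_slitPlane_iff.2 (Or.inl (by rw [res0_sv_re]; exact hγ))
  exact h

lemma res0_sqrt3_sq : ((Real.sqrt 3 : ℝ) : ℂ) ^ 2 = 3 := by
  rw [← Complex.ofReal_pow, Real.sq_sqrt (by norm_num)]
  simp

lemma res0_cc0 : cc 0 = -1 := rfl

lemma res0_cc1 : cc 1 = (1 + Real.sqrt 3 * Complex.I) / 2 := rfl

lemma res0_cc2 : cc 2 = (1 - Real.sqrt 3 * Complex.I) / 2 := rfl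

lemma cc_cube (i : Fin 3) : cc i ^ 3 = -1 := by
  have h := res0_sqrt3_sq
  have hI := Complex.I_sq
  fin_cases i
  · show cc 0 ^ 3 = -1
    rw [res0_cc0]
    norm_num
  · show cc 1 ^ 3 = -1
    rw [res0_cc1]
    linear_combination (3 * Complex.I ^ 2 / 8 + (Real.sqrt 3 : ℂ) * Complex.I ^ 3 / 8) * h
      + (9 / 8 + 3 * (Real.sqrt 3 : ℂ) * Complex.I / 8) * hI
  · show cc 2 ^ 3 = -1
    rw [res0_cc2]
    linear_combination (3 * Complex.I ^ 2 / 8 - (Real.sqrt 3 : ℂ) * Complex.I ^ 3 / 8) * h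
      + (9 / 8 - 3 * (Real.sqrt 3 : ℂ) * Complex.I / 8) * hI

lemma norm_cc (i : Fin 3) : ‖cc i‖ = 1 := by
  have h : ‖cc i‖ ^ 3 = 1 := by
    rw [← norm_pow, cc_cube]
    simp
  exact (pow_eq_one_iff_of_nonneg (norm_nonneg _) (by norm_num)).1 h

lemma lam_cube (γ : ℝ) (i : Fin 3) (τ : ℝ) : lam γ i τ ^ 3 = -sv γ τ := by
  unfold lam
  rw [mul_pow, rt_cube, cc_cube]
  ring

lemma norm_lam (γ : ℝ) (i : Fin 3) (τ : ℝ) : ‖lam γ i τ‖ = om γ τ ^ ((1 : ℝ) / 3) := by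
  unfold lam
  rw [norm_mul, norm_cc, mul_one, norm_rt]

lemma continuous_lam {γ : ℝ} (hγ : 0 < γ) (i : Fin 3) : Continuous (lam γ i) := by
  have h : Continuous fun τ => rt γ τ * cc i := (continuous_rt hγ).mul continuous_const
  exact h

/-- With `r = x + i y`: `x > 0` since `|arg r| ≤ π / 3`, and `x (x² - 3 y²) = γ > 0`. -/
lemma re_rt {γ : ℝ} (hγ : 0 < γ) (τ : ℝ) :
    0 < (rt γ τ).re ∧ Real.sqrt 3 / 2 * ‖rt γ τ‖ ≤ (rt γ τ).re ∧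
      Real.sqrt 3 * |(rt γ τ).im| < (rt γ τ).re := by
  have harg : |Complex.arg (sv γ τ)| < Real.pi / 2 :=
    Complex.abs_arg_lt_pi_div_two_iff.2 (Or.inl (by rw [res0_sv_re]; exact hγ))
  have hR : 0 < ‖sv γ τ‖ ^ ((1 : ℝ) / 3) := Real.rpow_pos_of_pos (om_pos hγ τ) _
  have hn : ‖rt γ τ‖ = ‖sv γ τ‖ ^ ((1 : ℝ) / 3) := norm_rt γ τ
  have hre : (rt γ τ).re =
      ‖sv γ τ‖ ^ ((1 : ℝ) / 3) * Real.cos (Complex.arg (sv γ τ) * (1 / 3)) := by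
    rw [res0_rt_eq, Complex.cpow_ofReal_re]
  have him : (rt γ τ).im =
      ‖sv γ τ‖ ^ ((1 : ℝ) / 3) * Real.sin (Complex.arg (sv γ τ) * (1 / 3)) := by
    rw [res0_rt_eq, Complex.cpow_ofReal_im]
  rw [hn, hre, him]
  set R := ‖sv γ τ‖ ^ ((1 : ℝ) / 3) with hRdef
  set θ := Complex.arg (sv γ τ) * (1 / 3) with hθ
  have hθ1 : |θ| < Real.pi / 6 := by
    rw [hθ, abs_mul, abs_of_pos (by norm_num : (0 : ℝ) < 1 / 3)]
    linarith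
  have hpi := Real.pi_pos
  have hcos : Real.sqrt 3 / 2 < Real.cos θ := by
    rw [← Real.cos_abs θ, ← Real.cos_pi_div_six]
    exact Real.cos_lt_cos_of_nonneg_of_le_pi (abs_nonneg _) (by linarith) hθ1
  have h3 : 0 < Real.sqrt 3 := Real.sqrt_pos.2 (by norm_num)
  have h33 : Real.sqrt 3 * Real.sqrt 3 = 3 := Real.mul_self_sqrt (by norm_num)
  have hcs := Real.sin_sq_add_cos_sq θ
  have hsin : |Real.sin θ| < 1 / 2 := by
    have h1 : Real.sin θ ^ 2 < (1 / 2) ^ 2 := by nlinarith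
    exact abs_lt_of_sq_lt_sq h1 (by norm_num)
  refine ⟨mul_pos hR (by linarith), ?_, ?_⟩
  · nlinarith
  · rw [abs_mul, abs_of_pos hR]
    have h2 : Real.sqrt 3 * |Real.sin θ| < Real.cos θ := by nlinarith
    nlinarith

lemma re_lam_zero {γ : ℝ} (hγ : 0 < γ) (τ : ℝ) : (lam γ 0 τ).re < 0 := by
  have h := (re_rt hγ τ).1
  unfold lam
  rw [res0_cc0]
  simpa using h

lemma re_lam_pos {γ : ℝ} (hγ : 0 < γ) {i : Fin 3} (hi : i ≠ 0) (τ : ℝ) : 0 < (lam γ i τ).re := by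
  obtain ⟨-, -, h⟩ := re_rt hγ τ
  have h3 : 0 < Real.sqrt 3 := Real.sqrt_pos.2 (by norm_num)
  have h1 : Real.sqrt 3 * (rt γ τ).im ≤ Real.sqrt 3 * |(rt γ τ).im| :=
    mul_le_mul_of_nonneg_left (le_abs_self _) h3.le
  have h2 : Real.sqrt 3 * (-(rt γ τ).im) ≤ Real.sqrt 3 * |(rt γ τ).im| :=
    mul_le_mul_of_nonneg_left (neg_le_abs _) h3.le
  fin_cases i
  · exact absurd rfl hi
  · show 0 < (lam γ 1 τ).re
    have e : (lam γ 1 τ).re = ((rt γ τ).re - Real.sqrt 3 * (rt γ τ).im) / 2 := by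
      unfold lam
      rw [res0_cc1]
      simp
      ring
    rw [e]
    linarith
  · show 0 < (lam γ 2 τ).re
    have e : (lam γ 2 τ).re = ((rt γ τ).re + Real.sqrt 3 * (rt γ τ).im) / 2 := by
      unfold lam
      rw [res0_cc2]
      simp
      ring
    rw [e]
    linarith

lemma res0_cc_ne (i : Fin 3) : cc i ≠ 0 := by
  intro h
  have := norm_cc i
  rw [h, norm_zero] at this
  exact zero_ne_one this

lemma res0_cc_sub : cc 2 - cc 1 = -(Real.sqrt 3 * Complex.I) := by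
  rw [res0_cc1, res0_cc2]
  ring

lemma res0_norm_cc_sub : ‖cc 2 - cc 1‖ = Real.sqrt 3 := by
  rw [res0_cc_sub, norm_neg, norm_mul, Complex.norm_I, mul_one, Complex.norm_real,
    Real.norm_of_nonneg (Real.sqrt_nonneg 3)]

lemma res0_one_le_sqrt3 : (1 : ℝ) ≤ Real.sqrt 3 := by
  rw [show (1 : ℝ) = Real.sqrt 1 by simp]
  exact Real.sqrt_le_sqrt (by norm_num)

lemma res0_cc_sub_ne : cc 2 - cc 1 ≠ 0 := by
  intro h
  have h1 := res0_norm_cc_sub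
  rw [h, norm_zero] at h1
  have := res0_one_le_sqrt3
  linarith

lemma res0_theta1 : (cc 2 + 1) / (cc 2 - cc 1) = cc 1 := by
  rw [div_eq_iff res0_cc_sub_ne, res0_cc1, res0_cc2]
  have h := res0_sqrt3_sq
  have hI := Complex.I_sq
  linear_combination (Complex.I ^ 2 / 2) * h + (3 / 2) * hI

lemma res0_theta2 : (1 + cc 1) / (cc 2 - cc 1) = -cc 2 := by
  rw [div_eq_iff res0_cc_sub_ne, res0_cc1, res0_cc2]
  have h := res0_sqrt3_sq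
  have hI := Complex.I_sq
  linear_combination (Complex.I ^ 2 / 2) * h + (3 / 2) * hI

lemma res0_cc_add : cc 1 + cc 2 = 1 := by
  rw [res0_cc1, res0_cc2]
  ring

lemma res0_cc_mul : cc 1 * cc 2 = 1 := by
  rw [res0_cc1, res0_cc2]
  have h := res0_sqrt3_sq
  have hI := Complex.I_sq
  linear_combination (-Complex.I ^ 2 / 4) * h - (3 / 4) * hI

/-- The linear system in abstract form. -/
lemma res0_abs (a₀ a₁ a₂ e e₁ e₂ c₁ c₂ E₀ E₁ E₂ J₀ J₁ J₂ b₀ b₁ b₂ A₁ A₂ D q₀ X : ℂ)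
    (na₀ : ‖a₀‖ = 1) (na₁ : ‖a₁‖ = 1) (na₂ : ‖a₂‖ = 1) (ne : ‖e‖ = 1) (ne₁ : ‖e₁‖ = 1)
    (ne₂ : ‖e₂‖ = 1) (nc₁ : ‖c₁‖ = 1) (nc₂ : ‖c₂‖ = 1) (hs : c₁ + c₂ = 1) (hm : c₁ * c₂ = 1)
    (hA : A₁ + A₂ = b₁) (hA' : c₁ * A₁ + c₂ * A₂ = b₂)
    (nA₁ : ‖A₁‖ ≤ ‖b₁‖ + ‖b₂‖) (nA₂ : ‖A₂‖ ≤ ‖b₁‖ + ‖b₂‖)
    (h0 : ‖E₀‖ ≤ 1 / 4) (h1 : ‖E₁‖ ≤ 1) (h2 : ‖E₂‖ ≤ 1)
    (hD : D = a₀ + e * E₀ * (a₂ / e₂ * E₂ * (-c₂) - a₁ / e₁ * E₁ * c₁))
    (hq : q₀ = (b₀ - a₁ * J₁ - a₂ * J₂ - a₁ / e₁ * E₁ * (A₁ - c₁ * e * J₀)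
      - a₂ / e₂ * E₂ * (A₂ + (-c₂) * e * J₀)) / D)
    (hX : X = e * (E₀ * q₀ + J₀)) :
    a₀ * q₀ + a₁ * (E₁ * ((A₁ - c₁ * X) / e₁) + J₁) + a₂ * (E₂ * ((A₂ + (-c₂) * X) / e₂) + J₂)
        = b₀ ∧
      e * (E₀ * q₀ + J₀) + e₁ * ((A₁ - c₁ * X) / e₁) + e₂ * ((A₂ + (-c₂) * X) / e₂) = b₁ ∧
      e * (-1) * (E₀ * q₀ + J₀) + e₁ * c₁ * ((A₁ - c₁ * X) / e₁)
        + e₂ * c₂ * ((A₂ + (-c₂) * X) / e₂) = b₂ ∧
      ‖q₀‖ + ‖(A₁ - c₁ * X) / e₁‖ + ‖(A₂ + (-c₂) * X) / e₂‖ ≤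
        14 * ((‖b₀‖ + ‖b₁‖ + ‖b₂‖) + (‖J₀‖ + ‖J₁‖ + ‖J₂‖)) := by
  have he₁ : e₁ ≠ 0 := by
    intro h
    rw [h, norm_zero] at ne₁
    exact zero_ne_one ne₁
  have he₂ : e₂ ≠ 0 := by
    intro h
    rw [h, norm_zero] at ne₂
    exact zero_ne_one ne₂
  set k₁ := a₁ / e₁ with hk₁
  set k₂ := a₂ / e₂ with hk₂
  have nk₁ : ‖k₁‖ = 1 := by rw [hk₁, norm_div, na₁, ne₁, div_one]
  have nk₂ : ‖k₂‖ = 1 := by rw [hk₂, norm_div, na₂, ne₂, div_one]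
  have nE₀ := norm_nonneg E₀
  have nE₁ := norm_nonneg E₁
  have nE₂ := norm_nonneg E₂
  have nT : ‖k₂ * E₂ * (-c₂) - k₁ * E₁ * c₁‖ ≤ 2 := by
    refine (norm_sub_le _ _).trans ?_
    rw [norm_mul, norm_mul, norm_mul, norm_mul, norm_neg, nk₁, nk₂, nc₁, nc₂]
    linarith
  have nD : 1 / 2 ≤ ‖D‖ := by
    have h3 : ‖e * E₀ * (k₂ * E₂ * (-c₂) - k₁ * E₁ * c₁)‖ ≤ 1 / 2 := by
      rw [norm_mul, norm_mul, ne]
      have := norm_nonneg (k₂ * E₂ * (-c₂) - k₁ * E₁ * c₁)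
      nlinarith
    have h4 : a₀ = D - e * E₀ * (k₂ * E₂ * (-c₂) - k₁ * E₁ * c₁) := by
      rw [hD]
      ring
    have h5 := norm_sub_le D (e * E₀ * (k₂ * E₂ * (-c₂) - k₁ * E₁ * c₁))
    rw [← h4, na₀] at h5
    linarith
  have hD0 : D ≠ 0 := by
    intro h
    rw [h, norm_zero] at nD
    linarith
  have hqD : q₀ * D = b₀ - a₁ * J₁ - a₂ * J₂ - k₁ * E₁ * (A₁ - c₁ * e * J₀)
      - k₂ * E₂ * (A₂ + (-c₂) * e * J₀) := by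
    rw [hq, div_mul_cancel₀ _ hD0]
  have f₁ : ∀ Y : ℂ, a₁ * (E₁ * (Y / e₁)) = k₁ * E₁ * Y := by
    intro Y
    rw [hk₁]
    field_simp
  have f₂ : ∀ Y : ℂ, a₂ * (E₂ * (Y / e₂)) = k₂ * E₂ * Y := by
    intro Y
    rw [hk₂]
    field_simp
  have g₁ : ∀ Y : ℂ, e₁ * (Y / e₁) = Y := fun Y => by field_simp
  have g₂ : ∀ Y : ℂ, e₂ * (Y / e₂) = Y := fun Y => by field_simp
  refine ⟨?_, ?_, ?_, ?_⟩
  · rw [mul_add a₁, mul_add a₂, f₁, f₂, hX]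
    rw [hD] at hqD
    linear_combination hqD
  · rw [g₁, g₂, ← hX]
    linear_combination hA - X * hs
  · have g₁' := g₁ (A₁ - c₁ * X)
    have g₂' := g₂ (A₂ + (-c₂) * X)
    linear_combination c₁ * g₁' + c₂ * g₂' + hX + hA' - X * (c₁ + c₂ + 1) * hs + 2 * X * hm
  · have nb₀ := norm_nonneg b₀
    have nb₁ := norm_nonneg b₁
    have nb₂ := norm_nonneg b₂
    have nJ₀ := norm_nonneg J₀
    have nJ₁ := norm_nonneg J₁
    have nJ₂ := norm_nonneg J₂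
    have t₁ : ‖k₁ * E₁ * (A₁ - c₁ * e * J₀)‖ ≤ ‖b₁‖ + ‖b₂‖ + ‖J₀‖ := by
      have u : ‖A₁ - c₁ * e * J₀‖ ≤ ‖b₁‖ + ‖b₂‖ + ‖J₀‖ := by
        refine (norm_sub_le _ _).trans ?_
        rw [norm_mul, norm_mul, nc₁, ne]
        linarith
      rw [norm_mul, norm_mul, nk₁, one_mul]
      exact (mul_le_mul_of_nonneg_right h1 (norm_nonneg _)).trans (by linarith)
    have t₂ : ‖k₂ * E₂ * (A₂ + (-c₂) * e * J₀)‖ ≤ ‖b₁‖ + ‖b₂‖ + ‖J₀‖ := by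
      have u : ‖A₂ + (-c₂) * e * J₀‖ ≤ ‖b₁‖ + ‖b₂‖ + ‖J₀‖ := by
        refine (norm_add_le _ _).trans ?_
        rw [norm_mul, norm_mul, norm_neg, nc₂, ne]
        linarith
      rw [norm_mul, norm_mul, nk₂, one_mul]
      exact (mul_le_mul_of_nonneg_right h2 (norm_nonneg _)).trans (by linarith)
    have t₃ : ‖q₀ * D‖ ≤ ‖b₀‖ + ‖J₁‖ + ‖J₂‖ + 2 * (‖b₁‖ + ‖b₂‖ + ‖J₀‖) := by
      rw [hqD]
      have u₁ := norm_sub_le (b₀ - a₁ * J₁ - a₂ * J₂ - k₁ * E₁ * (A₁ - c₁ * e * J₀))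
        (k₂ * E₂ * (A₂ + (-c₂) * e * J₀))
      have u₂ := norm_sub_le (b₀ - a₁ * J₁ - a₂ * J₂) (k₁ * E₁ * (A₁ - c₁ * e * J₀))
      have u₃ := norm_sub_le (b₀ - a₁ * J₁) (a₂ * J₂)
      have u₄ := norm_sub_le b₀ (a₁ * J₁)
      rw [norm_mul, na₂, one_mul] at u₃
      rw [norm_mul, na₁, one_mul] at u₄
      linarith
    have nq := norm_nonneg q₀
    have t₄ : ‖q₀‖ ≤ 2 * (‖b₀‖ + ‖J₁‖ + ‖J₂‖ + 2 * (‖b₁‖ + ‖b₂‖ + ‖J₀‖)) := by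
      rw [norm_mul] at t₃
      nlinarith
    have t₅ : ‖X‖ ≤ ‖q₀‖ / 4 + ‖J₀‖ := by
      rw [hX, norm_mul, ne, one_mul]
      refine (norm_add_le _ _).trans ?_
      rw [norm_mul]
      nlinarith
    have t₆ : ‖(A₁ - c₁ * X) / e₁‖ ≤ ‖b₁‖ + ‖b₂‖ + ‖X‖ := by
      rw [norm_div, ne₁, div_one]
      refine (norm_sub_le _ _).trans ?_
      rw [norm_mul, nc₁, one_mul]
      linarith
    have t₇ : ‖(A₂ + (-c₂) * X) / e₂‖ ≤ ‖b₁‖ + ‖b₂‖ + ‖X‖ := by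
      rw [norm_div, ne₂, div_one]
      refine (norm_add_le _ _).trans ?_
      rw [norm_mul, norm_neg, nc₂, one_mul]
      linarith
    linarith

/-- The linear system solved by `qq`. -/
lemma qq_spec (p₀ p₁ : ℕ) (E J b : Fin 3 → ℂ) (h0 : ‖E 0‖ ≤ 1 / 4) (h1 : ‖E 1‖ ≤ 1)
    (h2 : ‖E 2‖ ≤ 1) :
    cc 0 ^ (p₀ + 1) * qq p₀ p₁ E J b 0 + cc 1 ^ (p₀ + 1) * (E 1 * qq p₀ p₁ E J b 1 + J 1)
        + cc 2 ^ (p₀ + 1) * (E 2 * qq p₀ p₁ E J b 2 + J 2) = b 0 ∧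
      cc 0 ^ (p₁ + 1) * (E 0 * qq p₀ p₁ E J b 0 + J 0) + cc 1 ^ (p₁ + 1) * qq p₀ p₁ E J b 1
        + cc 2 ^ (p₁ + 1) * qq p₀ p₁ E J b 2 = b 1 ∧
      cc 0 ^ (p₁ + 2) * (E 0 * qq p₀ p₁ E J b 0 + J 0) + cc 1 ^ (p₁ + 2) * qq p₀ p₁ E J b 1
        + cc 2 ^ (p₁ + 2) * qq p₀ p₁ E J b 2 = b 2 ∧
      ∑ i, ‖qq p₀ p₁ E J b i‖ ≤ 14 * (∑ i, ‖b i‖ + ∑ i, ‖J i‖) := by
  have np : ∀ (i : Fin 3) (n : ℕ), ‖cc i ^ n‖ = 1 := fun i n => by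
    rw [norm_pow, norm_cc, one_pow]
  have hne := res0_cc_sub_ne
  have h3 := res0_one_le_sqrt3
  have nb₁ := norm_nonneg (b 1)
  have nb₂ := norm_nonneg (b 2)
  have nA₁ : ‖(cc 2 * b 1 - b 2) / (cc 2 - cc 1)‖ ≤ ‖b 1‖ + ‖b 2‖ := by
    rw [norm_div, res0_norm_cc_sub]
    refine (div_le_self (norm_nonneg _) h3).trans ((norm_sub_le _ _).trans ?_)
    rw [norm_mul, norm_cc, one_mul]
  have nA₂ : ‖(b 2 - cc 1 * b 1) / (cc 2 - cc 1)‖ ≤ ‖b 1‖ + ‖b 2‖ := by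
    rw [norm_div, res0_norm_cc_sub]
    refine (div_le_self (norm_nonneg _) h3).trans ((norm_sub_le _ _).trans ?_)
    rw [norm_mul, norm_cc, one_mul, add_comm]
  have hA : (cc 2 * b 1 - b 2) / (cc 2 - cc 1) + (b 2 - cc 1 * b 1) / (cc 2 - cc 1) = b 1 := by
    field_simp
    ring
  have hA' : cc 1 * ((cc 2 * b 1 - b 2) / (cc 2 - cc 1))
      + cc 2 * ((b 2 - cc 1 * b 1) / (cc 2 - cc 1)) = b 2 := by
    field_simp
    ring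
  have key := res0_abs (cc 0 ^ (p₀ + 1)) (cc 1 ^ (p₀ + 1)) (cc 2 ^ (p₀ + 1)) (cc 0 ^ (p₁ + 1))
    (cc 1 ^ (p₁ + 1)) (cc 2 ^ (p₁ + 1)) (cc 1) (cc 2) (E 0) (E 1) (E 2) (J 0) (J 1) (J 2)
    (b 0) (b 1) (b 2) _ _ _ _ _ (np _ _) (np _ _) (np _ _) (np _ _) (np _ _) (np _ _)
    (norm_cc 1) (norm_cc 2) res0_cc_add res0_cc_mul hA hA' nA₁ nA₂ h0 h1 h2 rfl rfl rfl
  have e₀ : cc 0 ^ (p₁ + 2) = cc 0 ^ (p₁ + 1) * (-1) := by
    rw [show p₁ + 2 = (p₁ + 1) + 1 from rfl, pow_succ _ (p₁ + 1), res0_cc0]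
  have e₁ : cc 1 ^ (p₁ + 2) = cc 1 ^ (p₁ + 1) * cc 1 := pow_succ _ (p₁ + 1)
  have e₂ : cc 2 ^ (p₁ + 2) = cc 2 ^ (p₁ + 1) * cc 2 := pow_succ _ (p₁ + 1)
  rw [e₀, e₁, e₂, Fin.sum_univ_three, Fin.sum_univ_three, Fin.sum_univ_three]
  simp only [qq, res0_theta1, res0_theta2, Matrix.cons_val_zero, Matrix.cons_val_one,
    Matrix.cons_val]
  exact key

lemma res0_cont {γ : ℝ} {g : ℝ → ℝ → ℂ} (hg : RD2 g) (i : Fin 3) (x τ : ℝ) :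
    Continuous fun y : ℝ => Complex.exp (lam γ i τ * (x - y)) * g y τ := by
  have h1 : Continuous fun y : ℝ => g y τ := hg.cont.comp (Continuous.prodMk_left τ)
  fun_prop

lemma jj_add {L γ : ℝ} {g g' : ℝ → ℝ → ℂ} (hg : RD2 g) (hg' : RD2 g') (i : Fin 3) (x τ : ℝ) :
    jj L γ (fun y τ => g y τ + g' y τ) i x τ = jj L γ g i x τ + jj L γ g' i x τ := by
  unfold jj
  rw [← intervalIntegral.integral_add ((res0_cont hg i x τ).intervalIntegrable _ _)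
    ((res0_cont hg' i x τ).intervalIntegrable _ _)]
  simp only [mul_add]

lemma jj_congr {L γ : ℝ} (hL : 0 ≤ L) {g g' : ℝ → ℝ → ℂ} {τ : ℝ}
    (h : ∀ y ∈ Icc 0 L, g y τ = g' y τ) (i : Fin 3) {x : ℝ} (hx : x ∈ Icc 0 L) :
    jj L γ g i x τ = jj L γ g' i x τ := by
  unfold jj
  refine intervalIntegral.integral_congr fun y hy => ?_
  have hy' : y ∈ Icc 0 L := uIcc_subset_Icc (ept_mem hL i) hx hy
  simp only [h y hy']

lemma continuous_jj {L γ : ℝ} (hγ : 0 < γ) {g : ℝ → ℝ → ℂ} (hg : RD2 g) (i : Fin 3) :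
    Continuous fun p : ℝ × ℝ => jj L γ g i p.1 p.2 := by
  unfold jj
  have h1 : Continuous fun q : (ℝ × ℝ) × ℝ => g q.2 q.1.2 :=
    hg.cont.comp (continuous_snd.prodMk (continuous_snd.comp continuous_fst))
  have h2 : Continuous fun q : (ℝ × ℝ) × ℝ => lam γ i q.1.2 :=
    (continuous_lam hγ i).comp (continuous_snd.comp continuous_fst)
  have h3 : Continuous fun q : (ℝ × ℝ) × ℝ =>
      Complex.exp (lam γ i q.1.2 * ((q.1.1 : ℂ) - (q.2 : ℂ))) * g q.2 q.1.2 := by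
    refine (Complex.continuous_exp.comp (h2.mul ?_)).mul h1
    fun_prop
  exact intervalIntegral.continuous_parametric_intervalIntegral_of_continuous
    (f := fun (p : ℝ × ℝ) (y : ℝ) => Complex.exp (lam γ i p.2 * ((p.1 : ℂ) - (y : ℂ))) * g y p.2)
    h3 continuous_fst

lemma res0_exp_le {L γ : ℝ} (hγ : 0 < γ) (i : Fin 3) {x : ℝ} (hx : x ∈ Icc 0 L) (τ : ℝ) {y : ℝ}
    (hy : y ∈ uIoc (ept L i) x) : ‖Complex.exp (lam γ i τ * (x - y))‖ ≤ 1 := by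
  rw [Complex.norm_exp, Real.exp_le_one_iff]
  have e : (lam γ i τ * ((x : ℂ) - y)).re = (lam γ i τ).re * (x - y) := by
    rw [← Complex.ofReal_sub, Complex.re_mul_ofReal]
  rw [e]
  by_cases hi : i = 0
  · subst hi
    have h0 : ept L 0 = 0 := rfl
    rw [h0, uIoc_of_le hx.1] at hy
    exact mul_nonpos_of_nonpos_of_nonneg (re_lam_zero hγ τ).le (by linarith [hy.2])
  · have h0 : ept L i = L := by
      fin_cases i
      · exact absurd rfl hi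
      · rfl
      · rfl
    rw [h0, uIoc_of_ge hx.2] at hy
    exact mul_nonpos_of_nonneg_of_nonpos (re_lam_pos hγ hi τ).le (by linarith [hy.1])

lemma norm_jj_le {L γ : ℝ} (hγ : 0 < γ) {g : ℝ → ℝ → ℂ} (hg : RD2 g) (i : Fin 3) {x : ℝ}
    (hx : x ∈ Icc 0 L) (τ : ℝ) : ‖jj L γ g i x τ‖ ≤ ∫ y in (0 : ℝ)..L, ‖g y τ‖ := by
  have hL : 0 ≤ L := hx.1.trans hx.2
  have h1 : Continuous fun y : ℝ => ‖g y τ‖ := (hg.cont.comp (Continuous.prodMk_left τ)).norm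
  have hsub : uIoc (ept L i) x ⊆ Icc 0 L :=
    uIoc_subset_uIcc.trans (uIcc_subset_Icc (ept_mem hL i) hx)
  have hI : IntegrableOn (fun y : ℝ => ‖g y τ‖) (Icc 0 L) := h1.integrableOn_Icc
  unfold jj
  refine intervalIntegral.norm_integral_le_integral_norm_uIoc.trans ?_
  rw [intervalIntegral.integral_of_le hL, ← integral_Icc_eq_integral_Ioc]
  calc ∫ y in uIoc (ept L i) x, ‖Complex.exp (lam γ i τ * (x - y)) * g y τ‖
      ≤ ∫ y in uIoc (ept L i) x, ‖g y τ‖ := by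
        refine setIntegral_mono_on
          (((res0_cont hg i x τ).norm.integrableOn_Icc (a := 0) (b := L)).mono_set hsub)
          (hI.mono_set hsub) measurableSet_uIoc fun y hy => ?_
        rw [norm_mul]
        exact mul_le_of_le_one_left (norm_nonneg _) (res0_exp_le hγ i hx τ hy)
    _ ≤ ∫ y in Icc 0 L, ‖g y τ‖ :=
        setIntegral_mono_set hI (Eventually.of_forall fun y => norm_nonneg _) hsub.eventuallyLE

lemma res0_cs (L : ℝ) {f : ℝ → ℝ≥0∞} (hf : Measurable f) :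
    (∫⁻ y in Icc 0 L, f y) ^ 2 ≤ ENNReal.ofReal L * ∫⁻ y in Icc 0 L, f y ^ 2 := by
  have h := ENNReal.lintegral_mul_le_Lp_mul_Lq (volume.restrict (Icc 0 L))
    Real.HolderConjugate.two_two (f := fun _ => 1) (g := f) aemeasurable_const hf.aemeasurable
  simp only [Pi.mul_apply, one_mul, ENNReal.one_rpow, lintegral_const, Measure.restrict_apply,
    MeasurableSet.univ, univ_inter, Real.volume_Icc, sub_zero] at h
  have h2 : ∀ a : ℝ≥0∞, (a ^ ((1 : ℝ) / 2)) ^ 2 = a := fun a => by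
    rw [← ENNReal.rpow_natCast, ← ENNReal.rpow_mul]
    norm_num
  have h3 : ∀ a : ℝ≥0∞, a ^ (2 : ℝ) = a ^ 2 := fun a => by
    rw [← ENNReal.rpow_natCast]
    norm_num
  calc (∫⁻ y in Icc 0 L, f y) ^ 2
      ≤ (ENNReal.ofReal L ^ ((1 : ℝ) / 2) *
          (∫⁻ y in Icc 0 L, f y ^ (2 : ℝ)) ^ ((1 : ℝ) / 2)) ^ 2 := pow_le_pow_left' h 2
    _ = ENNReal.ofReal L * ∫⁻ y in Icc 0 L, f y ^ 2 := by
        rw [mul_pow, h2, h2]
        simp only [h3]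

/-- Cauchy-Schwarz in `y` and Tonelli. -/
lemma jj_bd {L γ c : ℝ} {w : ℝ → ℝ} (hγ : 0 < γ) (hw : Adm w) {g : ℝ → ℝ → ℂ} (hg : RD2 g)
    (hc : 0 ≤ c) (h : ∀ x ∈ Icc 0 L, Bd γ w (-1 / 3) (g x) c) (i : Fin 3) {x : ℝ}
    (hx : x ∈ Icc 0 L) : Bd γ w (-1 / 3) (jj L γ g i x) (L * c) := by
  have hL : 0 ≤ L := hx.1.trans hx.2
  have hw0 : ∀ τ, 0 ≤ w τ := fun τ => zero_le_one.trans (hw.one_le τ)
  rw [bd_iff hw0 _ _ (mul_nonneg hL hc)]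
  set W : ℝ → ℝ≥0∞ := fun τ => ENNReal.ofReal (om γ τ ^ (-1 / 3 : ℝ) * w τ) with hW
  have hWm : Measurable W :=
    ((continuous_om_rpow hγ _).mul hw.cont).measurable.ennreal_ofReal
  have hgm : Measurable fun p : ℝ × ℝ => ‖g p.1 p.2‖ₑ := hg.cont.enorm.measurable
  have hpt : ∀ τ, (W τ * ‖jj L γ g i x τ‖ₑ) ^ 2 ≤
      ENNReal.ofReal L * ∫⁻ y in Icc 0 L, (W τ * ‖g y τ‖ₑ) ^ 2 := by
    intro τ
    have h1 : Continuous fun y : ℝ => g y τ := hg.cont.comp (Continuous.prodMk_left τ)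
    have h2 : ‖jj L γ g i x τ‖ₑ ≤ ∫⁻ y in Icc 0 L, ‖g y τ‖ₑ := by
      rw [← ofReal_norm, ← ofReal_integral_norm_eq_lintegral_enorm h1.integrableOn_Icc]
      refine ENNReal.ofReal_le_ofReal ?_
      have h3 := norm_jj_le hγ hg i hx τ
      rwa [intervalIntegral.integral_of_le hL, ← integral_Icc_eq_integral_Ioc] at h3
    have h4 : W τ * ‖jj L γ g i x τ‖ₑ ≤ ∫⁻ y in Icc 0 L, W τ * ‖g y τ‖ₑ := by
      rw [lintegral_const_mul _ h1.enorm.measurable]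
      exact mul_le_mul_right h2 _
    exact (pow_le_pow_left' h4 2).trans
      (res0_cs L (measurable_const.mul h1.enorm.measurable))
  have hm2 : Measurable fun p : ℝ × ℝ => (W p.1 * ‖g p.2 p.1‖ₑ) ^ 2 :=
    ((hWm.comp measurable_fst).mul (hgm.comp measurable_swap)).pow_const 2
  calc ∫⁻ τ, (W τ * ‖jj L γ g i x τ‖ₑ) ^ 2
      ≤ ∫⁻ τ, ENNReal.ofReal L * ∫⁻ y in Icc 0 L, (W τ * ‖g y τ‖ₑ) ^ 2 := lintegral_mono hpt
    _ = ENNReal.ofReal L * ∫⁻ τ, ∫⁻ y in Icc 0 L, (W τ * ‖g y τ‖ₑ) ^ 2 :=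
        lintegral_const_mul' _ _ ENNReal.ofReal_ne_top
    _ = ENNReal.ofReal L * ∫⁻ y in Icc 0 L, ∫⁻ τ, (W τ * ‖g y τ‖ₑ) ^ 2 := by
        rw [lintegral_lintegral_swap (f := fun τ y => (W τ * ‖g y τ‖ₑ) ^ 2) hm2.aemeasurable]
    _ ≤ ENNReal.ofReal L * ∫⁻ _ in Icc 0 L, ENNReal.ofReal (c ^ 2) := by
        refine mul_le_mul_right (setLIntegral_mono' measurableSet_Icc fun y hy => ?_) _
        exact (bd_iff hw0 _ _ hc).1 (h y hy)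
    _ = ENNReal.ofReal ((L * c) ^ 2) := by
        rw [setLIntegral_const, Real.volume_Icc, sub_zero, ← ENNReal.ofReal_mul (sq_nonneg c),
          ← ENNReal.ofReal_mul hL]
        congr 1
        ring

end Pool.Agent.Lib.MP_14aec4_an.W
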