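import Pool.Agent.Lib.MP_14aec4_an.FB

/-!
Schur's test and duality.
-/

noncomputable section

open MeasureTheory Set Filter Topology FourierTransform
open scoped ENNReal ComplexConjugate

namespace Pool.Agent.Lib.MP_14aec4_an.W

/-- The kernel of Schur's test, homogeneous of degree `-1`. -/
def kap (γ a b : ℝ) : ℝ :=
  max (om γ a) (om γ b) ^ (-(2 : ℝ) / 3) * min (om γ a) (om γ b) ^ (-(1 : ℝ) / 3)

/-- Schur's test for a symmetric kernel. -/
lemma schur0_test {K : ℝ → ℝ → ℝ≥0∞} (hK : Measurable fun p : ℝ × ℝ => K p.1 p.2)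
    (hs : ∀ a b, K a b = K b a) {φ : ℝ → ℝ≥0∞} (hφ : Measurable φ) (h0 : ∀ a, φ a ≠ 0)
    (ht : ∀ a, φ a ≠ ⊤) {C : ℝ≥0∞} (hC : ∀ a, ∫⁻ b, K a b * φ b ≤ C * φ a)
    {F : ℝ → ℝ≥0∞} (hF : AEMeasurable F volume) :
    ∫⁻ a, (∫⁻ b, K a b * F b) ^ 2 ≤ C ^ 2 * ∫⁻ b, F b ^ 2 := by
  have hKa : ∀ a, Measurable (K a) := fun a => hK.comp (measurable_prodMk_left (x := a))
  have hG : AEMeasurable (fun b => F b ^ 2 * (φ b)⁻¹) volume :=
    (hF.pow_const 2).mul hφ.inv.aemeasurable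
  have h1 : ∀ a, (∫⁻ b, K a b * F b) ^ 2 ≤
      C * ∫⁻ b, φ a * K a b * (F b ^ 2 * (φ b)⁻¹) := by
    intro a
    have e : ∀ b, K a b * F b =
        (K a b * φ b) ^ ((1 : ℝ) / 2) * (K a b * (F b ^ 2 * (φ b)⁻¹)) ^ ((1 : ℝ) / 2) := by
      intro b
      rw [← ENNReal.mul_rpow_of_nonneg _ _ (by norm_num)]
      have : K a b * φ b * (K a b * (F b ^ 2 * (φ b)⁻¹)) = (K a b * F b) ^ 2 := by
        have h := ENNReal.mul_inv_cancel (h0 b) (ht b)
        calc _ = (K a b * F b) ^ 2 * (φ b * (φ b)⁻¹) := by ring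
          _ = _ := by rw [h, mul_one]
      rw [this, ← ENNReal.rpow_natCast, ← ENNReal.rpow_mul]
      norm_num
    have h2 := ENNReal.lintegral_mul_norm_pow_le (μ := volume) (f := fun b => K a b * φ b)
      (g := fun b => K a b * (F b ^ 2 * (φ b)⁻¹)) ((hKa a).mul hφ).aemeasurable
      ((hKa a).aemeasurable.mul hG) (p := (1 : ℝ) / 2) (q := (1 : ℝ) / 2) (by norm_num)
      (by norm_num) (by norm_num)
    simp only [← e] at h2
    rw [← ENNReal.mul_rpow_of_nonneg _ _ (by norm_num)] at h2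
    have h3 := pow_le_pow_left' h2 2
    rw [← ENNReal.rpow_natCast (_ ^ ((1 : ℝ) / 2)), ← ENNReal.rpow_mul] at h3
    norm_num at h3
    refine h3.trans ?_
    have h4 : ∫⁻ b, φ a * K a b * (F b ^ 2 * (φ b)⁻¹) =
        φ a * ∫⁻ b, K a b * (F b ^ 2 * (φ b)⁻¹) := by
      rw [← lintegral_const_mul' _ _ (ht a)]
      simp only [mul_assoc]
    rw [h4, ← mul_assoc]
    exact mul_le_mul_left (hC a) _
  have hm : AEMeasurable (Function.uncurry fun a b => φ a * K a b * (F b ^ 2 * (φ b)⁻¹))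
      ((volume : Measure ℝ).prod volume) :=
    ((hφ.comp measurable_fst).mul hK).aemeasurable.mul hG.comp_snd
  calc ∫⁻ a, (∫⁻ b, K a b * F b) ^ 2
      ≤ ∫⁻ a, C * ∫⁻ b, φ a * K a b * (F b ^ 2 * (φ b)⁻¹) := lintegral_mono h1
    _ = C * ∫⁻ a, ∫⁻ b, φ a * K a b * (F b ^ 2 * (φ b)⁻¹) :=
        lintegral_const_mul'' _ hm.lintegral_prod_right'
    _ = C * ∫⁻ b, ∫⁻ a, φ a * K a b * (F b ^ 2 * (φ b)⁻¹) := by
        rw [lintegral_lintegral_swap hm]
    _ ≤ C * ∫⁻ b, C * F b ^ 2 := by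
        refine mul_le_mul_right (lintegral_mono fun b => ?_) _
        have e : ∀ a, φ a * K a b * (F b ^ 2 * (φ b)⁻¹) = K b a * φ a * (F b ^ 2 * (φ b)⁻¹) := by
          intro a
          rw [hs a b, mul_comm (φ a)]
        simp only [e]
        rw [lintegral_mul_const _ (f := fun a => K b a * φ a) ((hKa b).mul hφ)]
        calc _ ≤ C * φ b * (F b ^ 2 * (φ b)⁻¹) := mul_le_mul_left (hC b) _
          _ = C * F b ^ 2 * (φ b * (φ b)⁻¹) := by ring
          _ = _ := by rw [ENNReal.mul_inv_cancel (h0 b) (ht b), mul_one]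
    _ = _ := by
        rw [lintegral_const_mul'' _ (hF.pow_const 2), ← mul_assoc, sq]

lemma schur0_kap_le {γ : ℝ} (hγ : 0 < γ) (a b : ℝ) :
    kap γ a b ≤ om γ a ^ (-(2 : ℝ) / 3) * om γ b ^ (-(1 : ℝ) / 3) ∧
      kap γ a b ≤ om γ a ^ (-(1 : ℝ) / 3) * om γ b ^ (-(2 : ℝ) / 3) := by
  have key : ∀ x y : ℝ, 0 < y → y ≤ x →
      x ^ (-(2 : ℝ) / 3) * y ^ (-(1 : ℝ) / 3) ≤ x ^ (-(1 : ℝ) / 3) * y ^ (-(2 : ℝ) / 3) := by
    intro x y hy hxy
    have hx : 0 < x := hy.trans_le hxy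
    have e : ∀ z : ℝ, 0 < z → z ^ (-(2 : ℝ) / 3) = z ^ (-(1 : ℝ) / 3) * z ^ (-(1 : ℝ) / 3) := by
      intro z hz
      rw [← Real.rpow_add hz]
      norm_num
    have h1 : x ^ (-(1 : ℝ) / 3) ≤ y ^ (-(1 : ℝ) / 3) :=
      Real.rpow_le_rpow_of_nonpos hy hxy (by norm_num)
    have h2 := Real.rpow_pos_of_pos hx (-(1 : ℝ) / 3)
    have h3 := Real.rpow_pos_of_pos hy (-(1 : ℝ) / 3)
    rw [e x hx, e y hy, mul_assoc]
    exact mul_le_mul_of_nonneg_left (mul_le_mul_of_nonneg_right h1 h3.le) h2.le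
  unfold kap
  rcases le_total (om γ a) (om γ b) with h | h
  · rw [max_eq_right h, min_eq_left h]
    exact ⟨(key _ _ (om_pos hγ a) h).trans_eq (mul_comm _ _), (mul_comm _ _).le⟩
  · rw [max_eq_left h, min_eq_right h]
    exact ⟨le_rfl, key _ _ (om_pos hγ b) h⟩

lemma schur0_half {γ : ℝ} (hγ : 0 < γ) (a : ℝ) :
    ∫⁻ b in Ioi 0, ENNReal.ofReal (kap γ a b) * ENNReal.ofReal (om γ b ^ (-(1 : ℝ) / 2)) ≤
      12 * ENNReal.ofReal (om γ a ^ (-(1 : ℝ) / 2)) := by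
  have hA := om_pos hγ a
  have hle : ∀ b : ℝ, 0 < b → b ≤ om γ b := by
    intro b hb
    have h := abs_le_om γ b
    rw [abs_of_pos hb] at h
    nlinarith [Real.pi_gt_three]
  have hk : ∀ b, 0 ≤ kap γ a b := fun b =>
    mul_nonneg (Real.rpow_nonneg (le_max_of_le_left hA.le) _)
      (Real.rpow_nonneg (le_min hA.le (om_pos hγ b).le) _)
  have hb : ∀ (b c p q : ℝ), 0 < b → 0 ≤ c → kap γ a b ≤ c * om γ b ^ p → p + -(1 : ℝ) / 2 = q →
      q ≤ 0 → ENNReal.ofReal (kap γ a b) * ENNReal.ofReal (om γ b ^ (-(1 : ℝ) / 2)) ≤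
        ENNReal.ofReal (c * b ^ q) := by
    intro b c p q hb hc h e hq
    rw [← ENNReal.ofReal_mul (hk b)]
    refine ENNReal.ofReal_le_ofReal ?_
    calc _ ≤ c * om γ b ^ p * om γ b ^ (-(1 : ℝ) / 2) :=
          mul_le_mul_of_nonneg_right h (Real.rpow_nonneg (om_pos hγ b).le _)
      _ = c * om γ b ^ q := by rw [mul_assoc, ← Real.rpow_add (om_pos hγ b), e]
      _ ≤ _ := mul_le_mul_of_nonneg_left (Real.rpow_le_rpow_of_nonpos hb (hle b hb) hq) hc
  have h1 : ∫⁻ b in Ioc 0 (om γ a),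
      ENNReal.ofReal (kap γ a b) * ENNReal.ofReal (om γ b ^ (-(1 : ℝ) / 2)) ≤
        ENNReal.ofReal (6 * om γ a ^ (-(1 : ℝ) / 2)) := by
    have hi : IntegrableOn (fun b : ℝ => om γ a ^ (-(2 : ℝ) / 3) * b ^ (-(5 : ℝ) / 6))
        (Ioc 0 (om γ a)) :=
      ((intervalIntegral.intervalIntegrable_rpow' (a := 0) (b := om γ a)
        (by norm_num : (-1 : ℝ) < -(5 : ℝ) / 6)).const_mul _).1
    calc _ ≤ ∫⁻ b in Ioc 0 (om γ a),
          ENNReal.ofReal (om γ a ^ (-(2 : ℝ) / 3) * b ^ (-(5 : ℝ) / 6)) :=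
          setLIntegral_mono' measurableSet_Ioc fun b h =>
            hb b _ _ _ h.1 (Real.rpow_nonneg hA.le _) (schur0_kap_le hγ a b).1 (by norm_num)
              (by norm_num)
      _ = _ := by
          rw [← ofReal_integral_eq_lintegral_ofReal hi
            ((ae_restrict_iff' measurableSet_Ioc).mpr (ae_of_all _ fun b h =>
              mul_nonneg (Real.rpow_nonneg hA.le _) (Real.rpow_nonneg h.1.le _))),
            ← intervalIntegral.integral_of_le hA.le, intervalIntegral.integral_const_mul,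
            integral_rpow (Or.inl (by norm_num)), Real.zero_rpow (by norm_num), sub_zero,
            ← mul_div_assoc, ← Real.rpow_add hA]
          congr 1
          norm_num
          ring
  have h2 : ∫⁻ b in Ioi (om γ a),
      ENNReal.ofReal (kap γ a b) * ENNReal.ofReal (om γ b ^ (-(1 : ℝ) / 2)) ≤
        ENNReal.ofReal (6 * om γ a ^ (-(1 : ℝ) / 2)) := by
    have hi : IntegrableOn (fun b : ℝ => om γ a ^ (-(1 : ℝ) / 3) * b ^ (-(7 : ℝ) / 6))
        (Ioi (om γ a)) :=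
      (integrableOn_Ioi_rpow_of_lt (by norm_num : -(7 : ℝ) / 6 < -1) hA).const_mul _
    calc _ ≤ ∫⁻ b in Ioi (om γ a),
          ENNReal.ofReal (om γ a ^ (-(1 : ℝ) / 3) * b ^ (-(7 : ℝ) / 6)) :=
          setLIntegral_mono' measurableSet_Ioi fun b h =>
            hb b _ _ _ (hA.trans h) (Real.rpow_nonneg hA.le _) (schur0_kap_le hγ a b).2
              (by norm_num) (by norm_num)
      _ = _ := by
          rw [← ofReal_integral_eq_lintegral_ofReal hi
            ((ae_restrict_iff' measurableSet_Ioi).mpr (ae_of_all _ fun b h =>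
              mul_nonneg (Real.rpow_nonneg hA.le _) (Real.rpow_nonneg (hA.trans h).le _))),
            integral_const_mul, integral_Ioi_rpow_of_lt (by norm_num) hA, ← mul_div_assoc,
            mul_neg, ← Real.rpow_add hA]
          congr 1
          norm_num
          ring
  rw [← Ioc_union_Ioi_eq_Ioi hA.le]
  refine (lintegral_union_le _ _ _).trans ((add_le_add h1 h2).trans_eq ?_)
  rw [ENNReal.ofReal_mul (by norm_num), ← add_mul]
  norm_num

/-- Schur's test with the test function `om ^ (-1/2)`: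
`∫ kap a b * om b ^ (-1/2) db ≤ 24 * om a ^ (-1/2)`. -/
theorem schur_op {γ : ℝ} (hγ : 0 < γ) {F : ℝ → ℝ≥0∞} (hF : AEMeasurable F volume) :
    ∫⁻ a, (∫⁻ b, ENNReal.ofReal (kap γ a b) * F b) ^ 2 ≤ 24 ^ 2 * ∫⁻ b, F b ^ 2 := by
  have hm := (continuous_om γ).measurable
  have hK : Measurable fun p : ℝ × ℝ => ENNReal.ofReal (kap γ p.1 p.2) :=
    ((((hm.comp measurable_fst).max (hm.comp measurable_snd)).pow_const _).mul
      (((hm.comp measurable_fst).min (hm.comp measurable_snd)).pow_const _)).ennreal_ofReal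
  refine schur0_test (K := fun a b => ENNReal.ofReal (kap γ a b)) hK
    (fun a b => by simp only [kap, max_comm, min_comm])
    (φ := fun b => ENNReal.ofReal (om γ b ^ (-(1 : ℝ) / 2))) (hm.pow_const _).ennreal_ofReal
    (fun a => (ENNReal.ofReal_pos.mpr (Real.rpow_pos_of_pos (om_pos hγ a) _)).ne')
    (fun a => ENNReal.ofReal_ne_top) (fun a => ?_) hF
  set G : ℝ → ℝ≥0∞ := fun b =>
    ENNReal.ofReal (kap γ a b) * ENNReal.ofReal (om γ b ^ (-(1 : ℝ) / 2)) with hG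
  have hev : ∀ b, G (-b) = G b := fun b => by simp only [hG, kap, om_neg]
  have h1 : ∫⁻ b in Ioi 0, G b ≤ _ := schur0_half hγ a
  have h2 : ∫⁻ b in Iic 0, G b = ∫⁻ b in Ioi 0, G b := by
    rw [← restrict_Iio_eq_restrict_Iic, ← lintegral_indicator measurableSet_Iio,
      ← lintegral_indicator measurableSet_Ioi, ← lintegral_neg_eq_self]
    refine lintegral_congr fun b => ?_
    by_cases hb : 0 < b
    · rw [indicator_of_mem (by simpa using hb), indicator_of_mem (by simpa using hb), hev]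
    · rw [indicator_of_notMem (by simpa using hb), indicator_of_notMem (by simpa using hb)]
  calc ∫⁻ b, G b = ∫⁻ b in Iic 0 ∪ Ioi 0, G b := by
        rw [Iic_union_Ioi, Measure.restrict_univ]
    _ ≤ _ := lintegral_union_le _ _ _
    _ ≤ 12 * ENNReal.ofReal (om γ a ^ (-(1 : ℝ) / 2)) +
        12 * ENNReal.ofReal (om γ a ^ (-(1 : ℝ) / 2)) := add_le_add (h2.trans_le h1) h1
    _ = _ := by
        rw [← add_mul]
        norm_num

/-- Duality in `L²`. -/
lemma lintegral_sq_le_of_dual {H : ℝ → ℝ≥0∞} (hH : AEMeasurable H volume) {M : ℝ≥0∞}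
    (h : ∀ C : ℝ → ℝ≥0∞, Measurable C → ∫⁻ τ, H τ * C τ ≤ M * (∫⁻ τ, C τ ^ 2) ^ ((1 : ℝ) / 2)) :
    (∫⁻ τ, H τ ^ 2) ^ ((1 : ℝ) / 2) ≤ M := by
  obtain ⟨G, hG, hHG⟩ := hH
  have e1 : ∫⁻ τ, H τ ^ 2 = ∫⁻ τ, G τ ^ 2 :=
    lintegral_congr_ae (hHG.mono fun τ hτ => by simp only [hτ])
  let C : ℕ → ℝ → ℝ≥0∞ := fun n => (Icc (-(n : ℝ)) n).indicator fun τ => min (G τ) n
  have hC : ∀ n, Measurable (C n) := fun n =>
    (hG.min measurable_const).indicator measurableSet_Icc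
  have hCG : ∀ n τ, C n τ ≤ G τ := fun n τ =>
    (indicator_le_self _ _ τ).trans (min_le_left _ _)
  have hfin : ∀ n, ∫⁻ τ, C n τ ^ 2 ≠ ⊤ := by
    intro n
    have h1 : ∀ τ, C n τ ^ 2 ≤ (Icc (-(n : ℝ)) n).indicator (fun _ => (n : ℝ≥0∞) ^ 2) τ := by
      intro τ
      by_cases hτ : τ ∈ Icc (-(n : ℝ)) n
      · simp only [C, indicator_of_mem hτ]
        exact pow_le_pow_left' (min_le_right _ _) 2
      · simp [C, indicator_of_notMem hτ]
    refine ne_top_of_le_ne_top ?_ (lintegral_mono h1)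
    rw [lintegral_indicator_const measurableSet_Icc]
    exact ENNReal.mul_ne_top (ENNReal.pow_ne_top (ENNReal.natCast_ne_top n))
      measure_Icc_lt_top.ne
  have hM : ∀ n, ∫⁻ τ, C n τ ^ 2 ≤ M ^ 2 := by
    intro n
    have h1 : ∫⁻ τ, C n τ ^ 2 ≤ ∫⁻ τ, H τ * C n τ := by
      refine lintegral_mono_ae (hHG.mono fun τ hτ => ?_)
      rw [hτ, sq]
      exact mul_le_mul_left (hCG n τ) _
    have h2 := h1.trans (h _ (hC n))
    set X := ∫⁻ τ, C n τ ^ 2
    have e : X = X ^ ((1 : ℝ) / 2) * X ^ ((1 : ℝ) / 2) := by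
      rw [← ENNReal.rpow_add_of_nonneg _ _ (by norm_num) (by norm_num)]
      norm_num
    by_cases h0 : X = 0
    · rw [h0]
      exact bot_le
    have h3 : X ^ ((1 : ℝ) / 2) ≤ M := by
      refine (ENNReal.mul_le_mul_iff_left (c := X ^ ((1 : ℝ) / 2)) ?_ ?_).mp (e.symm.trans_le h2)
      · exact (ENNReal.rpow_pos (pos_iff_ne_zero.mpr h0) (hfin n)).ne'
      · exact ENNReal.rpow_ne_top_of_nonneg (by norm_num) (hfin n)
    rw [e, sq]
    exact mul_le_mul' h3 h3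
  have hmono : Monotone fun n => fun τ => C n τ ^ 2 := by
    intro m n hmn τ
    refine pow_le_pow_left' ?_ 2
    have hc : (m : ℝ) ≤ n := Nat.cast_le.mpr hmn
    refine indicator_le_indicator_of_subset (Icc_subset_Icc (neg_le_neg hc) hc)
      (fun _ => bot_le) τ |>.trans ?_
    exact indicator_le_indicator (min_le_min_left _ (Nat.cast_le.mpr hmn))
  have hsup : ∀ τ, G τ ^ 2 ≤ ⨆ n, C n τ ^ 2 := by
    intro τ
    rw [← ENNReal.iSup_pow]
    refine pow_le_pow_left' ?_ 2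
    refine le_of_forall_lt_imp_le_of_dense fun r hr => ?_
    obtain ⟨k, hk⟩ := ENNReal.exists_nat_gt (hr.trans_le le_top).ne
    obtain ⟨l, hl⟩ := exists_nat_ge |τ|
    refine le_iSup_of_le (max k l) ?_
    have hτ : τ ∈ Icc (-((max k l : ℕ) : ℝ)) (max k l : ℕ) :=
      abs_le.mp (hl.trans (Nat.cast_le.mpr (le_max_right k l)))
    simp only [C, indicator_of_mem hτ]
    exact le_min hr.le (hk.le.trans (Nat.cast_le.mpr (le_max_left k l)))
  have h3 : ∫⁻ τ, G τ ^ 2 ≤ M ^ 2 := by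
    refine (lintegral_mono hsup).trans ?_
    rw [lintegral_iSup (fun n => (hC n).pow_const 2) hmono]
    exact iSup_le hM
  rw [e1]
  refine (ENNReal.rpow_le_rpow h3 (by norm_num)).trans_eq ?_
  rw [← ENNReal.rpow_natCast, ← ENNReal.rpow_mul]
  norm_num

end Pool.Agent.Lib.MP_14aec4_an.W
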