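import Pool.Agent.Lib.MP_14aec4_an.Defs

/-!
Fourier-side control of the negative Sobolev norms of zero extensions.
-/

noncomputable section

open MeasureTheory Set Filter Topology FourierTransform
open scoped ENNReal

namespace Pool.Agent.Lib.MP_14aec4_an

/-- The `L²` Fourier transform of an `L¹ ∩ L²` function is given by the Fourier integral. -/
lemma fourier_toLp_ae (G : ℝ → ℂ) (h1 : Integrable G) (h2 : MemLp G 2) :
    (𝓕 (h2.toLp G) : Lp ℂ 2 (volume : Measure ℝ)) =ᵐ[volume] 𝓕 G := by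
  have hc : Continuous (𝓕 G) :=
    VectorFourier.fourierIntegral_continuous Real.continuous_fourierChar
      (continuous_inner (𝕜 := ℝ)) h1
  apply ae_eq_of_integral_contDiff_smul_eq
  · exact (Lp.memLp _).locallyIntegrable (by norm_num)
  · exact hc.locallyIntegrable
  intro g hg hgc
  have hg₁ : HasCompactSupport (Complex.ofRealCLM ∘ g) := hgc.comp_left rfl
  have hg₂ : ContDiff ℝ (⊤ : ℕ∞) (Complex.ofRealCLM ∘ g) := by fun_prop
  set ψ : SchwartzMap ℝ ℂ := hg₁.toSchwartzMap hg₂ with hψ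
  have e1 := congrArg (fun F : TemperedDistribution ℝ ℂ => F ψ)
    (Lp.fourier_toTemperedDistribution_eq (h2.toLp G))
  simp only [TemperedDistribution.fourier_apply, Lp.toTemperedDistribution_apply] at e1
  have e2 : ∫ x, (𝓕 ψ) x • (h2.toLp G) x = ∫ x, (𝓕 (ψ : ℝ → ℂ)) x • G x := by
    apply integral_congr_ae
    filter_upwards [h2.coeFn_toLp] with x hx
    rw [hx, SchwartzMap.fourier_coe]
  have e3 : ∫ x, (𝓕 (ψ : ℝ → ℂ)) x • G x = ∫ x, ψ x • (𝓕 G) x := by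
    have := VectorFourier.integral_fourierIntegral_smul_eq_flip (μ := (volume : Measure ℝ))
      (ν := (volume : Measure ℝ)) (L := innerₗ ℝ) (e := Real.fourierChar) (f := (ψ : ℝ → ℂ)) (g := G)
      Real.continuous_fourierChar (continuous_inner (𝕜 := ℝ)) ψ.integrable h1
    rw [flip_innerₗ] at this
    exact this
  have e4 : ∀ (K : ℝ → ℂ), ∫ x, g x • K x = ∫ x, ψ x • K x := by
    intro K
    congr 1
  rw [e4, e4, ← e1, e2, e3]

lemma plancherel (G : ℝ → ℂ) (h1 : Integrable G) (h2 : MemLp G 2) :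
    MemLp (𝓕 G) 2 ∧ ∫ ξ, ‖𝓕 G ξ‖ ^ 2 = ∫ x, ‖G x‖ ^ 2 := by
  have hae := fourier_toLp_ae G h1 h2
  refine ⟨(Lp.memLp _).ae_eq hae, ?_⟩
  have e : ∀ f : Lp ℂ 2 (volume : Measure ℝ), ∫ x, ‖f x‖ ^ 2 = ‖f‖ ^ 2 := by
    intro f
    have := L2.inner_def (𝕜 := ℂ) f f
    rw [inner_self_eq_norm_sq_to_K] at this
    simp only [inner_self_eq_norm_sq_to_K] at this
    have h3 : (∫ x, ((‖f x‖ : ℂ)) ^ 2) = ((∫ x, ‖f x‖ ^ 2 : ℝ) : ℂ) := by
      rw [← integral_complex_ofReal]; simp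
    have h4 : ((‖f‖ ^ 2 : ℝ) : ℂ) = ((∫ x, ‖f x‖ ^ 2 : ℝ) : ℂ) := by
      rw [← h3]; push_cast; exact this
    exact_mod_cast h4.symm
  calc ∫ ξ, ‖𝓕 G ξ‖ ^ 2 = ∫ ξ, ‖(𝓕 (h2.toLp G) : Lp ℂ 2 (volume : Measure ℝ)) ξ‖ ^ 2 := by
        apply integral_congr_ae
        filter_upwards [hae] with x hx
        rw [hx]
    _ = ‖h2.toLp G‖ ^ 2 := by rw [e, Lp.norm_fourier_eq]
    _ = ∫ x, ‖G x‖ ^ 2 := by
        rw [← e]
        apply integral_congr_ae
        filter_upwards [h2.coeFn_toLp] with x hx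
        rw [hx]

/-- Upper bound of the windowed norm by the Fourier-side integral. -/
lemma hNorm_le_of_integrable (σ : ℝ) (hσ : 0 ≤ σ) (W : Set ℝ) (G : ℝ → ℂ) (h1 : Integrable G)
    (h2 : MemLp G 2) (f : SchwartzMap ℝ ℂ → ℂ)
    (hf : ∀ ψ : SchwartzMap ℝ ℂ, tsupport ψ ⊆ W → f ψ = ∫ x, ψ x * G x) :
    hNorm (-σ) W f ≤
      ENNReal.ofReal (Real.sqrt (∫ ξ, (1 + ξ ^ 2) ^ (-σ) * ‖𝓕 G ξ‖ ^ 2)) := by
  set w : ℝ → ℂ := fun x => (((1 + ‖x‖ ^ 2) ^ (-σ / 2) : ℝ) : ℂ) with hw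
  have hwt : w.HasTemperateGrowth := by
    rw [hw]; fun_prop
  have hwb : ∀ x, ‖w x‖ ≤ 1 := by
    intro x
    rw [hw]
    simp only [Complex.norm_real, Real.norm_eq_abs]
    rw [abs_of_nonneg (by positivity)]
    exact Real.rpow_le_one_of_one_le_of_nonpos (by nlinarith [sq_nonneg |x|]) (by linarith)
  have hwL : MemLp w ⊤ (volume : Measure ℝ) :=
    memLp_top_of_bound hwt.1.continuous.aestronglyMeasurable 1 (Eventually.of_forall hwb)
  set G2 : Lp ℂ 2 (volume : Measure ℝ) := h2.toLp G with hG2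
  set K : Lp ℂ 2 (volume : Measure ℝ) := (hwL.toLp _) • (𝓕 G2 : Lp ℂ 2 (volume : Measure ℝ))
    with hK
  have hB : TemperedDistribution.besselPotential ℝ ℂ (-σ) (Lp.toTemperedDistribution G2)
      = Lp.toTemperedDistribution (𝓕⁻ K : Lp ℂ 2 (volume : Measure ℝ)) := by
    rw [TemperedDistribution.besselPotential, TemperedDistribution.fourierMultiplierCLM_apply,
      Lp.fourier_toTemperedDistribution_eq, ← Lp.fourierInv_toTemperedDistribution_eq, hK,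
      Lp.toTemperedDistribution_smul_eq hwt hwL]
  have hle : hNorm (-σ) W f ≤ ‖(𝓕⁻ K : Lp ℂ 2 (volume : Measure ℝ))‖ₑ := by
    unfold hNorm
    refine iInf_le_of_le (Lp.toTemperedDistribution G2) (iInf_le_of_le _ (iInf_le_of_le hB
      (iInf_le_of_le ?_ le_rfl)))
    intro ψ hψ
    rw [hf ψ hψ, Lp.toTemperedDistribution_apply]
    apply integral_congr_ae
    filter_upwards [h2.coeFn_toLp] with x hx
    rw [hG2, hx, smul_eq_mul]
  refine hle.trans (le_of_eq ?_)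
  have hn : ‖(𝓕⁻ K : Lp ℂ 2 (volume : Measure ℝ))‖ = ‖K‖ := by
    have := Lp.norm_fourier_eq (𝓕⁻ K : Lp ℂ 2 (volume : Measure ℝ))
    rw [fourier_fourierInv_eq] at this
    exact this.symm
  rw [← ofReal_norm, hn]
  congr 1
  have e : ∀ f : Lp ℂ 2 (volume : Measure ℝ), ∫ x, ‖f x‖ ^ 2 = ‖f‖ ^ 2 := by
    intro f
    have := L2.inner_def (𝕜 := ℂ) f f
    rw [inner_self_eq_norm_sq_to_K] at this
    simp only [inner_self_eq_norm_sq_to_K] at this
    have h3 : (∫ x, ((‖f x‖ : ℂ)) ^ 2) = ((∫ x, ‖f x‖ ^ 2 : ℝ) : ℂ) := by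
      rw [← integral_complex_ofReal]; simp
    have h4 : ((‖f‖ ^ 2 : ℝ) : ℂ) = ((∫ x, ‖f x‖ ^ 2 : ℝ) : ℂ) := by
      rw [← h3]; push_cast; exact this
    exact_mod_cast h4.symm
  rw [← Real.sqrt_sq (norm_nonneg K), ← e]
  congr 1
  apply integral_congr_ae
  filter_upwards [Lp.coeFn_lpSMul (r := 2) (hwL.toLp _) (𝓕 G2 : Lp ℂ 2 (volume : Measure ℝ)),
    hwL.coeFn_toLp, fourier_toLp_ae G h1 h2] with x hx hx2 hx3
  rw [hK, hx, Pi.smul_apply', hx2, hG2, hx3, norm_smul, mul_pow, hw]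
  congr 1
  simp only [Complex.norm_real, Real.norm_eq_abs, sq_abs]
  rw [← Real.rpow_natCast, ← Real.rpow_mul (by positivity)]
  congr 1
  push_cast; ring

/-- Pairing with a test function supported in the window is bounded by the windowed norm. -/
lemma pairing_bound (σ : ℝ) (W : Set ℝ) (ψ : SchwartzMap ℝ ℂ) (hψ : tsupport ψ ⊆ W) :
    ∃ C : ℝ, 0 < C ∧ ∀ (f : SchwartzMap ℝ ℂ → ℂ) (ε : ℝ), 0 ≤ ε →
      hNorm σ W f < ENNReal.ofReal ε → ‖f ψ‖ ≤ C * ε := by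
  let Λ : Lp ℂ 2 (volume : Measure ℝ) →L[ℂ] ℂ :=
    (PointwiseConvergenceCLM.evalCLM (RingHom.id ℂ) ℂ ψ) ∘L
      (TemperedDistribution.besselPotential ℝ ℂ (-σ)) ∘L (Lp.toTemperedDistributionCLM ℂ volume 2)
  refine ⟨‖Λ‖ + 1, by positivity, ?_⟩
  intro f ε hε hlt
  unfold hNorm at hlt
  simp only [iInf_lt_iff] at hlt
  obtain ⟨F, g, hFg, hF, hg⟩ := hlt
  have h1 : Λ g = f ψ := by
    rw [← hF ψ hψ]
    have : TemperedDistribution.besselPotential ℝ ℂ (-σ) (Lp.toTemperedDistribution g) = F := by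
      rw [TemperedDistribution.besselPotential_neg_apply_eq_iff]; exact hFg
    rw [← this]
    rfl
  rw [← ofReal_norm] at hg
  have hg' : ‖g‖ ≤ ε := (ENNReal.ofReal_le_ofReal_iff hε).1 hg.le
  rw [← h1]
  calc ‖Λ g‖ ≤ ‖Λ‖ * ‖g‖ := Λ.le_opNorm g
    _ ≤ (‖Λ‖ + 1) * ε := by gcongr; linarith

lemma hNorm_eq_zero (σ : ℝ) (W : Set ℝ) (f : SchwartzMap ℝ ℂ → ℂ)
    (hf : ∀ ψ : SchwartzMap ℝ ℂ, tsupport ψ ⊆ W → f ψ = 0) : hNorm σ W f = 0 := by
  apply le_antisymm _ bot_le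
  unfold hNorm
  refine iInf_le_of_le 0 (iInf_le_of_le 0 (iInf_le_of_le ?_ (iInf_le_of_le ?_ ?_)))
  · rw [← Lp.toTemperedDistributionCLM_apply, map_zero, map_zero]
  · intro ψ hψ; rw [hf ψ hψ]; rfl
  · simp

end Pool.Agent.Lib.MP_14aec4_an
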