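import Pool.Agent.Lib.MP_14aec4_an.FB0

/-!
Inverse Fourier transforms of rapidly decaying functions.
-/

noncomputable section

open MeasureTheory Set Filter Topology FourierTransform
open scoped ENNReal ComplexConjugate

namespace Pool.Agent.Lib.MP_14aec4_an.W

/-- The kernel of the inverse Fourier transform. -/
def ts0E (t τ : ℝ) : ℂ := Complex.exp (2 * Real.pi * τ * Complex.I * t)

lemma ts0_norm (t τ : ℝ) : ‖ts0E t τ‖ = 1 := by
  rw [ts0E, show 2 * Real.pi * τ * Complex.I * t = ((2 * Real.pi * τ * t : ℝ) : ℂ) * Complex.I by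
    push_cast; ring]
  exact Complex.norm_exp_ofReal_mul_I _

lemma ts0_cont : Continuous fun p : ℝ × ℝ => ts0E p.1 p.2 := by
  unfold ts0E
  fun_prop

lemma ts0_inv (A : ℝ → ℂ) (t : ℝ) : 𝓕⁻ A t = ∫ τ, ts0E t τ * A τ := by
  rw [Real.fourierInv_eq']
  refine integral_congr_ae (Eventually.of_forall fun τ => ?_)
  simp only [ts0E, smul_eq_mul, Real.inner_apply]
  congr 2
  push_cast
  ring

lemma ts0_int {A : ℝ → ℂ} (hA : Integrable A) (t : ℝ) : Integrable fun τ => ts0E t τ * A τ :=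
  hA.bdd_mul (c := 1) (ts0_cont.comp (Continuous.prodMk_right t)).aestronglyMeasurable
    (Eventually.of_forall fun τ => (ts0_norm t τ).le)

lemma ts0_pow (l : ℕ) : ∃ (C : ℝ) (n : ℕ), ∀ τ : ℝ,
    ‖(2 * Real.pi * τ * Complex.I : ℂ) ^ l‖ ≤ C * (1 + |τ|) ^ n := by
  refine ⟨(2 * Real.pi) ^ l, l, fun τ => ?_⟩
  rw [norm_pow, ← mul_pow]
  refine pow_le_pow_left₀ (norm_nonneg _) ?_ l
  simp only [norm_mul, Complex.norm_ofNat, Complex.norm_real, Real.norm_eq_abs, Complex.norm_I,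
    mul_one, abs_of_pos Real.pi_pos]
  nlinarith [Real.pi_pos]

lemma ts0_rd {A : ℝ → ℂ} (hA : RD A) (l : ℕ) :
    RD fun τ : ℝ => (2 * Real.pi * τ * Complex.I : ℂ) ^ l * A τ :=
  hA.poly_mul (by fun_prop) (ts0_pow l)

lemma ts0_rd2 {F : ℝ → ℝ → ℂ} (hF : RD2 F) (l : ℕ) :
    RD2 fun x (τ : ℝ) => (2 * Real.pi * τ * Complex.I : ℂ) ^ l * F x τ :=
  hF.poly_mul (by fun_prop) (ts0_pow l)

lemma ts0_le {a : ℂ} {τ δ : ℝ} (h : ‖a‖ * (1 + |τ|) ^ 2 ≤ δ) : ‖a‖ ≤ δ * (1 + τ ^ 2)⁻¹ := by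
  rw [← div_eq_mul_inv, le_div_iff₀ (by positivity)]
  refine le_trans (mul_le_mul_of_nonneg_left ?_ (norm_nonneg _)) h
  nlinarith [sq_abs τ, abs_nonneg τ]

lemma ts0_norm_le {A : ℝ → ℂ} {δ : ℝ} (h : ∀ τ, ‖A τ‖ * (1 + |τ|) ^ 2 ≤ δ) (t : ℝ) :
    ‖𝓕⁻ A t‖ ≤ 4 * δ := by
  have hδ : 0 ≤ δ := le_trans (by positivity) (h 0)
  rw [ts0_inv]
  refine (norm_integral_le_of_norm_le (integrable_inv_one_add_sq.const_mul δ)
    (Eventually.of_forall fun τ => ?_)).trans ?_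
  · rw [norm_mul, ts0_norm, one_mul]
    exact ts0_le (h τ)
  · rw [integral_const_mul, integral_univ_inv_one_add_sq]
    nlinarith [Real.pi_le_four]

lemma ts0_deriv {A : ℝ → ℂ} (hA : RD A) (t : ℝ) :
    HasDerivAt (𝓕⁻ A) (𝓕⁻ (fun τ : ℝ => (2 * Real.pi * τ * Complex.I : ℂ) ^ 1 * A τ) t) t := by
  have h := (hasDerivAt_integral_of_dominated_loc_of_deriv_le (μ := volume) (s := univ)
    (F := fun (t τ : ℝ) => ts0E t τ * A τ) (x₀ := t)
    (F' := fun (t τ : ℝ) => ts0E t τ * ((2 * Real.pi * τ * Complex.I : ℂ) ^ 1 * A τ))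
    (bound := fun τ : ℝ => ‖(2 * Real.pi * τ * Complex.I : ℂ) ^ 1 * A τ‖) univ_mem
    (Eventually.of_forall fun t => (ts0_int hA.integrable t).aestronglyMeasurable)
    (ts0_int hA.integrable t) (ts0_int (ts0_rd hA 1).integrable t).aestronglyMeasurable
    (Eventually.of_forall fun τ t _ => by rw [norm_mul, ts0_norm, one_mul])
    (ts0_rd hA 1).integrable.norm (Eventually.of_forall fun τ t _ => by
      have := ((((hasDerivAt_id t).ofReal_comp.const_mul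
        (2 * Real.pi * τ * Complex.I : ℂ)).cexp).mul_const (A τ))
      refine this.congr_deriv ?_
      simp [ts0E]
      ring)).2
  rw [← ts0_inv] at h
  rwa [show 𝓕⁻ A = fun t => ∫ τ, ts0E t τ * A τ from funext (ts0_inv A)]

lemma ts0_cont2 {F : ℝ → ℝ → ℂ} (hF : RD2 F) : Continuous fun p : ℝ × ℝ => 𝓕⁻ (F p.1) p.2 := by
  obtain ⟨C, hC⟩ := hF.decay 2
  simp only [ts0_inv]
  refine continuous_of_dominated (bound := fun τ => C * (1 + τ ^ 2)⁻¹)
    (fun p => (ts0_int (hF.at p.1).integrable p.2).aestronglyMeasurable)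
    (fun p => Eventually.of_forall fun τ => ?_) (integrable_inv_one_add_sq.const_mul C)
    (Eventually.of_forall fun τ => ?_)
  · rw [norm_mul, ts0_norm, one_mul]
    exact ts0_le (hC _ _)
  · exact (ts0_cont.comp (continuous_snd.prodMk continuous_const)).mul
      (hF.cont.comp (continuous_fst.prodMk continuous_const))

lemma ts0_dx {L : ℝ} {F F' : ℝ → ℝ → ℂ} (hF : RD2 F) (hF' : RD2 F')
    (h : ∀ x ∈ Ioo 0 L, ∀ τ, HasDerivAt (fun y => F y τ) (F' x τ) x) (t : ℝ) {x : ℝ}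
    (hx : x ∈ Ioo 0 L) : HasDerivAt (fun y => 𝓕⁻ (F y) t) (𝓕⁻ (F' x) t) x := by
  obtain ⟨C, hC⟩ := hF'.decay 2
  simp only [ts0_inv]
  exact (hasDerivAt_integral_of_dominated_loc_of_deriv_le (μ := volume) (s := Ioo 0 L)
    (F := fun y τ => ts0E t τ * F y τ) (F' := fun y τ => ts0E t τ * F' y τ)
    (bound := fun τ => C * (1 + τ ^ 2)⁻¹) (isOpen_Ioo.mem_nhds hx)
    (Eventually.of_forall fun y => (ts0_int (hF.at y).integrable t).aestronglyMeasurable)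
    (ts0_int (hF.at x).integrable t) (ts0_int (hF'.at x).integrable t).aestronglyMeasurable
    (Eventually.of_forall fun τ y _ => by
      rw [norm_mul, ts0_norm, one_mul]
      exact ts0_le (hC _ _))
    (integrable_inv_one_add_sq.const_mul C)
    (Eventually.of_forall fun τ y hy => (h y hy τ).const_mul _)).2

lemma ts0_re {f : ℝ → ℂ} {f' : ℂ} {x : ℝ} (h : HasDerivAt f f' x) :
    HasDerivAt (fun y => (f y).re) f'.re x :=
  Complex.reCLM.hasFDerivAt.comp_hasDerivAt x h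

lemma ts0_add {A B : ℝ → ℂ} (hA : Integrable A) (hB : Integrable B) (t : ℝ) :
    𝓕⁻ (fun τ => A τ + B τ) t = 𝓕⁻ A t + 𝓕⁻ B t := by
  simp only [ts0_inv, mul_add]
  exact integral_add (ts0_int hA t) (ts0_int hB t)

lemma ts0_const_mul (c : ℂ) (A : ℝ → ℂ) (t : ℝ) : 𝓕⁻ (fun τ => c * A τ) t = c * 𝓕⁻ A t := by
  simp only [ts0_inv, mul_left_comm _ c]
  exact integral_const_mul _ _

lemma tl_zero_eq (A : ℝ → ℂ) (t : ℝ) : tl 0 A t = (𝓕⁻ A t).re := by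
  simp [tl]

lemma tl_zero_fun (l : ℕ) (t : ℝ) : tl l (fun _ => 0) t = 0 := by
  simp [tl, ts0_inv]

lemma tl_hasDerivAt {A : ℝ → ℂ} (hA : RD A) (l : ℕ) (t : ℝ) :
    HasDerivAt (tl l A) (tl (l + 1) A t) t := by
  have h := ts0_re (ts0_deriv (ts0_rd hA l) t)
  simp only [pow_one, ← mul_assoc, ← pow_succ'] at h
  exact h

lemma tl_continuous {A : ℝ → ℂ} (hA : RD A) (l : ℕ) : Continuous (tl l A) := by
  exact continuous_iff_continuousAt.2 fun t => (tl_hasDerivAt hA l t).continuousAt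

lemma tl_continuous2 {F : ℝ → ℝ → ℂ} (hF : RD2 F) (l : ℕ) :
    Continuous fun p : ℝ × ℝ => tl l (F p.1) p.2 := by
  exact Complex.continuous_re.comp (ts0_cont2 (ts0_rd2 hF l))

lemma tl_bdd {F : ℝ → ℝ → ℂ} (hF : RD2 F) (l : ℕ) : ∃ C, ∀ x t, |tl l (F x) t| ≤ C := by
  obtain ⟨C, hC⟩ := (ts0_rd2 hF l).decay 2
  exact ⟨4 * C, fun x t => (Complex.abs_re_le_norm _).trans (ts0_norm_le (hC x) t)⟩

lemma tl_dx {L : ℝ} {F F' : ℝ → ℝ → ℂ} (hF : RD2 F) (hF' : RD2 F')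
    (h : ∀ x ∈ Ioo 0 L, ∀ τ, HasDerivAt (fun y => F y τ) (F' x τ) x) (l : ℕ) (t : ℝ) {x : ℝ}
    (hx : x ∈ Ioo 0 L) : HasDerivAt (fun y => tl l (F y) t) (tl l (F' x) t) x := by
  exact ts0_re (ts0_dx (ts0_rd2 hF l) (ts0_rd2 hF' l)
    (fun x hx τ => (h x hx τ).const_mul _) t hx)

lemma tl_add {A B : ℝ → ℂ} (hA : RD A) (hB : RD B) (l : ℕ) (t : ℝ) :
    tl l (fun τ => A τ + B τ) t = tl l A t + tl l B t := by
  simp only [tl, mul_add]
  rw [ts0_add (ts0_rd hA l).integrable (ts0_rd hB l).integrable, Complex.add_re]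

lemma tl_sub {A B : ℝ → ℂ} (hA : RD A) (hB : RD B) (l : ℕ) (t : ℝ) :
    tl l (fun τ => A τ - B τ) t = tl l A t - tl l B t := by
  have h := tl_add (hA.sub hB) hB l t
  simp only [sub_add_cancel] at h
  linarith

lemma tl_real_mul (c : ℝ) (A : ℝ → ℂ) (l : ℕ) (t : ℝ) :
    tl l (fun τ => (c : ℂ) * A τ) t = c * tl l A t := by
  simp only [tl, mul_left_comm _ (c : ℂ)]
  rw [ts0_const_mul, Complex.re_ofReal_mul]

lemma tl_sv_mul {A : ℝ → ℂ} (hA : RD A) (γ : ℝ) (l : ℕ) (t : ℝ) :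
    tl l (fun τ => sv γ τ * A τ) t = γ * tl l A t + tl (l + 1) A t := by
  have h := tl_add (hA.const_mul γ) (ts0_rd hA 1) l t
  rw [tl_real_mul] at h
  simp only [tl, sv, add_mul, pow_succ, pow_zero, one_mul, mul_assoc] at h ⊢
  exact h

lemma RD.sv_mul {A : ℝ → ℂ} (hA : RD A) (γ : ℝ) : RD fun τ => sv γ τ * A τ := by
  simpa only [sv, add_mul, pow_one] using (hA.const_mul γ).add (ts0_rd hA 1)

lemma RD2.sv_mul {F : ℝ → ℝ → ℂ} (hF : RD2 F) (γ : ℝ) : RD2 fun x τ => sv γ τ * F x τ := by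
  simpa only [sv, add_mul, pow_one] using (hF.const_mul γ).add (ts0_rd2 hF 1)

lemma fourierInv_sym {A : ℝ → ℂ} (hA : Integrable A) (t : ℝ) :
    𝓕⁻ (sym A) t = ((𝓕⁻ A t).re : ℂ) := by
  have h1 : 𝓕⁻ (fun τ => conj (A (-τ))) t = conj (𝓕⁻ A t) := by
    rw [ts0_inv, ts0_inv, ← integral_conj, ← integral_neg_eq_self]
    refine integral_congr_ae (Eventually.of_forall fun τ => ?_)
    simp [ts0E, ← Complex.exp_conj, map_ofNat]
  have h2 : sym A = fun τ => (1 / 2 : ℂ) * (A τ + conj (A (-τ))) := funext fun τ => by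
    rw [sym]; ring
  have h3 : Integrable fun τ => conj (A (-τ)) :=
    Complex.conjCLE.toContinuousLinearMap.integrable_comp hA.comp_neg
  rw [h2, ts0_const_mul, ts0_add hA h3, h1, Complex.add_conj]
  push_cast
  ring

lemma tl_sym {A : ℝ → ℂ} (hA : RD A) (l : ℕ) (t : ℝ) : tl l (sym A) t = tl l A t := by
  have h : (fun τ : ℝ => (2 * Real.pi * τ * Complex.I : ℂ) ^ l * sym A τ) =
      sym fun τ : ℝ => (2 * Real.pi * τ * Complex.I : ℂ) ^ l * A τ := funext fun τ => by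
    simp [sym, map_ofNat]
    ring
  rw [tl, h, fourierInv_sym (ts0_rd hA l).integrable, Complex.ofReal_re, tl]

lemma isRe_sym {A : ℝ → ℂ} (hA : Integrable A) : IsRe (sym A) := by
  intro t
  rw [fourierInv_sym hA, Complex.ofReal_im]

lemma IsRe.eq {A : ℝ → ℂ} (hA : IsRe A) (t : ℝ) : 𝓕⁻ A t = (tl 0 A t : ℂ) := by
  rw [tl_zero_eq]
  exact Complex.ext rfl (by simpa using hA t)

lemma fourierInv_cv {A B : ℝ → ℂ} (hA : Integrable A) (hB : Integrable B) (t : ℝ) :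
    𝓕⁻ (cv A B) t = 𝓕⁻ A t * 𝓕⁻ B t := by
  simp only [Real.fourierInv_eq_fourier_neg]
  exact Real.fourier_mul_convolution_eq hA hB (-t)

lemma IsRe.cv {A B : ℝ → ℂ} (hA : RD A) (hB : RD B) (h₁ : IsRe A) (h₂ : IsRe B) :
    IsRe (cv A B) := by
  intro t
  rw [fourierInv_cv hA.integrable hB.integrable, Complex.mul_im, h₁ t, h₂ t]
  simp

/-- Only the first factor has to be real. -/
lemma tl_cv {A B : ℝ → ℂ} (hA : RD A) (hB : RD B) (h₁ : IsRe A) (t : ℝ) :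
    tl 0 (cv A B) t = tl 0 A t * tl 0 B t := by
  simp only [tl_zero_eq]
  rw [fourierInv_cv hA.integrable hB.integrable, Complex.mul_re, h₁ t]
  simp

lemma abs_tl_le {A : ℝ → ℂ} (hA : RD A) {δ : ℝ} (h : ∀ τ, ‖A τ‖ * (1 + |τ|) ^ 2 ≤ δ) (t : ℝ) :
    |tl 0 A t| ≤ 4 * δ := by
  have _ := hA
  rw [tl_zero_eq]
  exact (Complex.abs_re_le_norm _).trans (ts0_norm_le h t)

end Pool.Agent.Lib.MP_14aec4_an.W
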