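import Pool.Agent.Lib.MP_14aec4_an.Bounds

/-!
The traces and the initial data of the positons converge in negative Sobolev norms.
-/

noncomputable section

open MeasureTheory Set Filter Topology
open scoped ENNReal Real

namespace Pool.Agent.Lib.MP_14aec4_an

lemma dinv_le {M : ℝ} (hM : 2 ≤ M) : (M ^ 2 - 1)⁻¹ ≤ 2 * (M ^ 2)⁻¹ := by
  have h1 : 0 < M ^ 2 - 1 := by nlinarith
  have h2 : 0 < M ^ 2 := by positivity
  rw [inv_eq_one_div, inv_eq_one_div, mul_one_div, div_le_div_iff₀ h1 h2]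
  nlinarith

lemma dinv_pos {M : ℝ} (hM : 2 ≤ M) : 0 < (M ^ 2 - 1)⁻¹ := inv_pos.2 (by nlinarith)

lemma E_le {M : ℝ} (hM : 2 ≤ M) : 2 * M ^ 2 * (M ^ 2 - 1)⁻¹ ≤ 4 := by
  have h2 : 0 < M ^ 2 := by positivity
  calc 2 * M ^ 2 * (M ^ 2 - 1)⁻¹ ≤ 2 * M ^ 2 * (2 * (M ^ 2)⁻¹) := by
        gcongr; exact dinv_le hM
    _ = 4 := by field_simp; norm_num

section ev
variable {M y t : ℝ} (hM : 2 ≤ M) (hy : 0 ≤ y) (ht : 0 ≤ t)
include hM hy ht

lemma ev_W : |ev pW M y t| ≤ 24 * qq M t := by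
  refine (bd_W (by linarith) (Real.abs_cos_le_one _) (Real.abs_sin_le_one _) (p_pos hM hy ht).le
    (p_le_one hM hy ht)).trans ?_
  have := p_le_qq hM hy ht
  gcongr

lemma ev_Wg : |ev pWg M y t| ≤ 24 * qq M t ^ 2 := by
  refine (bd_Wg (by linarith) (Real.abs_cos_le_one _) (Real.abs_sin_le_one _) (p_pos hM hy ht).le
    (p_le_one hM hy ht)).trans ?_
  have := p_le_qq hM hy ht
  have := p_pos hM hy ht
  gcongr

lemma ev_U0 : |ev pU0 M y t| ≤ 60 * (M * qq M t) := by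
  refine (bd_U0 (by linarith) (Real.abs_cos_le_one _) (Real.abs_sin_le_one _) (p_pos hM hy ht).le
    (p_le_one hM hy ht)).trans ?_
  have := p_le_qq hM hy ht
  gcongr

lemma ev_U0g : |ev pU0g M y t| ≤ 108 * (M * qq M t ^ 2) := by
  refine (bd_U0g (by linarith) (Real.abs_cos_le_one _) (Real.abs_sin_le_one _) (p_pos hM hy ht).le
    (p_le_one hM hy ht)).trans ?_
  have := p_le_qq hM hy ht
  have := p_pos hM hy ht
  gcongr

lemma ev_U0gg : |ev pU0gg M y t| ≤ 312 * (M * qq M t ^ 2) := by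
  refine (bd_U0gg (by linarith) (Real.abs_cos_le_one _) (Real.abs_sin_le_one _) (p_pos hM hy ht).le
    (p_le_one hM hy ht)).trans ?_
  have := p_le_qq hM hy ht
  have := p_pos hM hy ht
  gcongr

lemma ev_U1 : |ev pU1 M y t| ≤ 276 * (M ^ 2 * qq M t) := by
  refine (bd_U1 (by linarith) (Real.abs_cos_le_one _) (Real.abs_sin_le_one _) (p_pos hM hy ht).le
    (p_le_one hM hy ht)).trans ?_
  have := p_le_qq hM hy ht
  gcongr

lemma ev_U1' (h0 : Real.sin (th M y t) = 0) : |ev pU1 M y t| ≤ 264 * M :=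
  bd_U1' (by linarith) (Real.abs_cos_le_one _) (Real.abs_sin_le_one _) (p_pos hM hy ht).le
    (p_le_one hM hy ht) h0

lemma ev_U2 : |ev pU2 M y t| ≤ 1872 * (M ^ 3 * qq M t) := by
  refine (bd_U2 (by linarith) (Real.abs_cos_le_one _) (Real.abs_sin_le_one _) (p_pos hM hy ht).le
    (p_le_one hM hy ht)).trans ?_
  have := p_le_qq hM hy ht
  gcongr

lemma ev_C : |ev pC M y t| ≤ 1 :=
  bd_C (by linarith) (Real.abs_cos_le_one _) (Real.abs_sin_le_one _) (p_pos hM hy ht).le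
    (p_le_one hM hy ht)

end ev

variable {T σ y : ℝ} {m : ℕ → ℝ}

lemma small_tr0 (hT : 0 < T) (hσ : 0 < σ) (hy : 0 ≤ y) (hm : ∀ n, 2 ≤ m n)
    (hmt : Tendsto m atTop atTop) : Small σ T (fun n t => ev pU0 (m n) y t) := by
  apply small_of_bounds (C := 96) hT (by norm_num) 0 0 (by norm_num) le_rfl (by norm_num)
    (by simpa using hσ) m hm hmt
    (fun n t => (m n ^ 2 - 1)⁻¹ * ev pW (m n) y t)
    (fun n t => (m n ^ 2 - 1)⁻¹ *
      ((m n ^ 2 - 1) * ev pU0 (m n) y t + 2 * m n ^ 2 * ev pWg (m n) y t))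
    (fun n t => -(2 * m n ^ 2 * (m n ^ 2 - 1)⁻¹) * ev pWg (m n) y t)
  · intro n t ht
    exact (der_W.dt (by linarith [hm n]) (tau_pos (hm n) hy ht.1).ne').const_mul _
  · intro n
    have := sm_U0.contT (T := T) (hm n) hy
    have := sm_Wg.contT (T := T) (hm n) hy
    fun_prop
  · intro n
    have := sm_Wg.contT (T := T) (hm n) hy
    fun_prop
  · intro n t _
    have : m n ^ 2 - 1 ≠ 0 := by nlinarith [hm n]
    field_simp
    ring
  · intro n t ht
    have h1 := ev_W (hm n) hy ht.1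
    have h2 := dinv_le (hm n)
    have h3 := dinv_pos (hm n)
    have h4 := qq_pos (m := m n) ht.1
    have h5 : 0 < (m n ^ 2)⁻¹ := by have := hm n; positivity
    rw [abs_mul, abs_of_pos h3]
    calc _ ≤ (2 * (m n ^ 2)⁻¹) * (24 * qq (m n) t) := by gcongr
      _ ≤ _ := by nlinarith [mul_pos h5 h4]
  · intro n t ht
    have h1 := ev_U0 (hm n) hy ht.1
    have h4 := qq_pos (m := m n) ht.1
    have : 0 < m n * qq (m n) t := by have := hm n; positivity
    rw [zero_add, pow_one]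
    linarith
  · intro n t ht
    have h1 := ev_Wg (hm n) hy ht.1
    have h2 := E_le (hm n)
    have h3 := dinv_pos (hm n)
    rw [abs_mul, abs_neg, abs_of_nonneg (by positivity)]
    calc _ ≤ 4 * (24 * qq (m n) t ^ 2) := by gcongr
      _ = _ := by ring
  · intro n
    have h1 := ev_W (hm n) hy le_rfl
    have h2 := dinv_le (hm n)
    have h3 := dinv_pos (hm n)
    have h4 : qq (m n) 0 = 1 := by simp [qq]
    have h5 : 0 < (m n ^ 2)⁻¹ := by have := hm n; positivity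
    rw [abs_mul, abs_of_pos h3]
    rw [h4] at h1
    calc _ ≤ (2 * (m n ^ 2)⁻¹) * (24 * 1) := by gcongr
      _ ≤ _ := by nlinarith

lemma small_tr1 (hT : 0 < T) (hσ : 1 / 3 < σ) (hy : 0 ≤ y) (hm : ∀ n, 2 ≤ m n)
    (hmt : Tendsto m atTop atTop) : Small σ T (fun n t => ev pU1 (m n) y t) := by
  apply small_of_bounds (C := 432) hT (by norm_num) 1 1 le_rfl le_rfl (by norm_num)
    (by simpa using hσ) m hm hmt
    (fun n t => (m n ^ 2 - 1)⁻¹ * ev pU0 (m n) y t)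
    (fun n t => (m n ^ 2 - 1)⁻¹ *
      ((m n ^ 2 - 1) * ev pU1 (m n) y t + 2 * m n ^ 2 * ev pU0g (m n) y t))
    (fun n t => -(2 * m n ^ 2 * (m n ^ 2 - 1)⁻¹) * ev pU0g (m n) y t)
  · intro n t ht
    exact (der_U0.dt (by linarith [hm n]) (tau_pos (hm n) hy ht.1).ne').const_mul _
  · intro n
    have := sm_U1.contT (T := T) (hm n) hy
    have := sm_U0g.contT (T := T) (hm n) hy
    fun_prop
  · intro n
    have := sm_U0g.contT (T := T) (hm n) hy
    fun_prop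
  · intro n t _
    have : m n ^ 2 - 1 ≠ 0 := by nlinarith [hm n]
    field_simp
    ring
  · intro n t ht
    have h1 := ev_U0 (hm n) hy ht.1
    have h2 := dinv_le (hm n)
    have h3 := dinv_pos (hm n)
    have h4 := qq_pos (m := m n) ht.1
    have h5 : 0 < (m n ^ 2)⁻¹ * (m n * qq (m n) t) := by have := hm n; positivity
    rw [abs_mul, abs_of_pos h3]
    calc _ ≤ (2 * (m n ^ 2)⁻¹) * (60 * (m n * qq (m n) t)) := by gcongr
      _ ≤ _ := by nlinarith
  · intro n t ht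
    have h1 := ev_U1 (hm n) hy ht.1
    have h4 := qq_pos (m := m n) ht.1
    have : 0 < m n ^ 2 * qq (m n) t := by have := hm n; positivity
    rw [show (1 + 1 : ℕ) = 2 from rfl]
    linarith
  · intro n t ht
    have h1 := ev_U0g (hm n) hy ht.1
    have h2 := E_le (hm n)
    have h3 := dinv_pos (hm n)
    rw [abs_mul, abs_neg, abs_of_nonneg (by positivity)]
    calc _ ≤ 4 * (108 * (m n * qq (m n) t ^ 2)) := by gcongr
      _ = _ := by ring
  · intro n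
    have h1 := ev_U0 (hm n) hy le_rfl
    have h2 := dinv_le (hm n)
    have h3 := dinv_pos (hm n)
    have h4 : qq (m n) 0 = 1 := by simp [qq]
    have h5 : 0 < (m n ^ 2)⁻¹ * m n := by have := hm n; positivity
    rw [abs_mul, abs_of_pos h3]
    rw [h4] at h1
    calc _ ≤ (2 * (m n ^ 2)⁻¹) * (60 * (m n * 1)) := by gcongr
      _ ≤ _ := by nlinarith

lemma small_tr2 (hT : 0 < T) (hσ : 2 / 3 < σ) (hy : 0 ≤ y) (hm : ∀ n, 2 ≤ m n)
    (hmt : Tendsto m atTop atTop) (hs : ∀ n, Real.sin (m n * y) = 0) :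
    Small σ T (fun n t => ev pU2 (m n) y t) := by
  apply small_of_bounds (C := 4992) hT (by norm_num) 2 1 le_rfl (by norm_num) le_rfl
    (by simpa using hσ) m hm hmt
    (fun n t => (m n ^ 2 - 1)⁻¹ *
      (ev pU1 (m n) y t - 2 * m n ^ 2 * (m n ^ 2 - 1)⁻¹ * ev pU0g (m n) y t))
    (fun n t => (m n ^ 2 - 1)⁻¹ *
      (((m n ^ 2 - 1) * ev pU2 (m n) y t + 2 * m n ^ 2 * ev pU1g (m n) y t)
        - 2 * m n ^ 2 * (m n ^ 2 - 1)⁻¹ *
          ((m n ^ 2 - 1) * ev pU1g (m n) y t + 2 * m n ^ 2 * ev pU0gg (m n) y t)))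
    (fun n t => (2 * m n ^ 2 * (m n ^ 2 - 1)⁻¹) ^ 2 * ev pU0gg (m n) y t)
  · intro n t ht
    have h0 : m n ≠ 0 := by linarith [hm n]
    have hτ := (tau_pos (hm n) hy ht.1).ne'
    exact ((der_U1.dt h0 hτ).sub ((der_U0g.dt h0 hτ).const_mul _)).const_mul _
  · intro n
    have := sm_U2.contT (T := T) (hm n) hy
    have := sm_U1g.contT (T := T) (hm n) hy
    have := sm_U0gg.contT (T := T) (hm n) hy
    fun_prop
  · intro n
    have := sm_U0gg.contT (T := T) (hm n) hy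
    fun_prop
  · intro n t _
    have : m n ^ 2 - 1 ≠ 0 := by nlinarith [hm n]
    field_simp
    ring
  · intro n t ht
    have hM := hm n
    have h1 := ev_U1 (hm n) hy ht.1
    have h1' := ev_U0g (hm n) hy ht.1
    have h2 := dinv_le (hm n)
    have h2' := E_le (hm n)
    have h3 := dinv_pos (hm n)
    have h4 := qq_pos (m := m n) ht.1
    have h4' := qq_le_one (m := m n) ht.1
    have h5 : 0 < (m n ^ 2)⁻¹ * (m n ^ 2 * qq (m n) t) := by positivity
    have h6 : m n * qq (m n) t ^ 2 ≤ m n ^ 2 * qq (m n) t := by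
      have : m n ≤ m n ^ 2 := by nlinarith
      have : qq (m n) t ^ 2 ≤ qq (m n) t := by nlinarith
      gcongr
    have h7 : |ev pU1 (m n) y t - 2 * m n ^ 2 * (m n ^ 2 - 1)⁻¹ * ev pU0g (m n) y t|
        ≤ 708 * (m n ^ 2 * qq (m n) t) := by
      refine (abs_sub _ _).trans ?_
      rw [abs_mul, abs_of_nonneg (show 0 ≤ 2 * m n ^ 2 * (m n ^ 2 - 1)⁻¹ by positivity)]
      have : 2 * m n ^ 2 * (m n ^ 2 - 1)⁻¹ * |ev pU0g (m n) y t|
        ≤ 4 * (108 * (m n * qq (m n) t ^ 2)) := by gcongr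
      linarith
    rw [abs_mul, abs_of_pos h3]
    calc _ ≤ (2 * (m n ^ 2)⁻¹) * (708 * (m n ^ 2 * qq (m n) t)) := by gcongr
      _ ≤ _ := by nlinarith
  · intro n t ht
    have h1 := ev_U2 (hm n) hy ht.1
    have h4 := qq_pos (m := m n) ht.1
    have : 0 < m n ^ 3 * qq (m n) t := by have := hm n; positivity
    rw [show (2 + 1 : ℕ) = 3 from rfl]
    linarith
  · intro n t ht
    have h1 := ev_U0gg (hm n) hy ht.1
    have h2 := E_le (hm n)
    have h3 := dinv_pos (hm n)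
    rw [abs_mul, abs_of_nonneg (by positivity)]
    calc _ ≤ 4 ^ 2 * (312 * (m n * qq (m n) t ^ 2)) := by gcongr
      _ = _ := by ring
  · intro n
    have hM := hm n
    have h1 := ev_U1' (hm n) hy le_rfl (by simpa [th] using hs n)
    have h1' := ev_U0g (hm n) hy le_rfl
    have h2 := dinv_le (hm n)
    have h2' := E_le (hm n)
    have h3 := dinv_pos (hm n)
    have h4 : qq (m n) 0 = 1 := by simp [qq]
    have h5 : 0 < (m n ^ 2)⁻¹ * m n := by positivity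
    rw [h4] at h1'
    have h7 : |ev pU1 (m n) y 0 - 2 * m n ^ 2 * (m n ^ 2 - 1)⁻¹ * ev pU0g (m n) y 0|
        ≤ 696 * m n := by
      refine (abs_sub _ _).trans ?_
      rw [abs_mul, abs_of_nonneg (show 0 ≤ 2 * m n ^ 2 * (m n ^ 2 - 1)⁻¹ by positivity)]
      have : 2 * m n ^ 2 * (m n ^ 2 - 1)⁻¹ * |ev pU0g (m n) y 0|
        ≤ 4 * (108 * (m n * 1 ^ 2)) := by gcongr
      linarith
    rw [abs_mul, abs_of_pos h3]
    calc _ ≤ (2 * (m n ^ 2)⁻¹) * (696 * m n) := by gcongr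
      _ ≤ _ := by nlinarith

lemma integral_le_const {L C : ℝ} (hL : 0 ≤ L) {f : ℝ → ℝ}
    (hf : ContinuousOn f (Icc 0 L)) (hb : ∀ x ∈ Icc 0 L, f x ≤ C) :
    ∫ x in (0:ℝ)..L, f x ≤ C * L := by
  calc ∫ x in (0:ℝ)..L, f x ≤ ∫ _x in (0:ℝ)..L, C := by
        apply intervalIntegral.integral_mono_on hL _ intervalIntegrable_const hb
        apply ContinuousOn.intervalIntegrable
        rwa [uIcc_of_le hL]
    _ = C * L := by simp [mul_comm]

lemma p_sub_inv {M x : ℝ} (hM : 2 ≤ M) (hx : 0 ≤ x) : |(tau M x 0)⁻¹ - (x + 2)⁻¹| ≤ M⁻¹ := by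
  have h1 := tau_pos hM hx le_rfl
  have h2 := p_le_one hM hx le_rfl
  have h3 := p_pos hM hx le_rfl
  have hM0 : 0 < M := by linarith
  have hx2 : 0 < x + 2 := by linarith
  have e : (tau M x 0)⁻¹ - (x + 2)⁻¹ = M⁻¹ * Real.cos (th M x 0) * (tau M x 0)⁻¹ * (x + 2)⁻¹ := by
    have : x + 2 = tau M x 0 + Real.cos (th M x 0) / M := by simp [tau, ga]
    field_simp
    rw [this]
    field_simp
    ring
  rw [e, abs_mul, abs_mul, abs_mul, abs_of_pos h3, abs_of_pos (inv_pos.2 hx2),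
    abs_of_pos (inv_pos.2 hM0)]
  have h4 : (x + 2)⁻¹ ≤ 1 := inv_le_one_of_one_le₀ (by linarith)
  have h5 := Real.abs_cos_le_one (th M x 0)
  calc _ ≤ M⁻¹ * 1 * 1 * 1 := by gcongr
    _ = _ := by ring

lemma small_init {L δ : ℝ} (hL : 0 < L) (hδ : 0 < δ) (hm : ∀ n, 2 ≤ m n)
    (hmt : Tendsto m atTop atTop) (hs : ∀ n, Real.sin (m n * L) = 0) :
    Small (1 + δ) L (fun n x => ev pU0 (m n) x 0 - (-12 * ((x + 2)⁻¹) ^ 2)) := by
  have hinv : ContinuousOn (fun x : ℝ => (x + 2)⁻¹) (Icc 0 L) := by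
    apply ContinuousOn.inv₀ (by fun_prop)
    intro x hx; linarith [hx.1]
  have hc : ∀ n, ContinuousOn (fun x => ev pU0 (m n) x 0 - (-12 * ((x + 2)⁻¹) ^ 2)) (Icc 0 L) := by
    intro n
    have := sm_U0.contX (L := L) (hm n) le_rfl
    fun_prop
  wlog hδ1 : δ ≤ 1 generalizing δ
  · exact (this (δ := 1) one_pos le_rfl).mono (by norm_num) (by linarith [not_le.1 hδ1])
  refine ⟨hc, ?_⟩
  set A : ℝ := 8 * π ^ 2 * ((16 * π ^ 2 * 144 + 36 ^ 2) * L) with hA
  set D : ℝ := 8 * π ^ 2 * (2 * (24 + 36 * L) ^ 2 * KK * 2 ^ (3 / 5 : ℝ)) with hD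
  set E : ℝ := 2 * 24 ^ 2 * KK with hE
  have hlim : Tendsto (fun n => A * m n ^ (-(2 * δ)) + D * m n ^ (-(4 / 5 : ℝ))
      + E * m n ^ (-(2 : ℝ))) atTop (𝓝 0) := by
    have t1 := ((tendsto_rpow_neg_atTop (y := 2 * δ) (by linarith)).comp hmt).const_mul A
    have t2 := ((tendsto_rpow_neg_atTop (y := 4 / 5) (by norm_num)).comp hmt).const_mul D
    have t3 := ((tendsto_rpow_neg_atTop (y := 2) (by norm_num)).comp hmt).const_mul E
    simpa using (t1.add t2).add t3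
  refine squeeze_zero (fun n => NN_nonneg _ _ _) (fun n => ?_) hlim
  have hM := hm n
  set M := m n with hMdef
  have hM0 : 0 < M := by linarith
  have hMi : 0 < M⁻¹ := inv_pos.2 hM0
  set g : ℝ → ℝ := fun x => ev pW M x 0 - 12 * (x + 2)⁻¹ with hg
  have hd : ∀ x ∈ Icc 0 L, HasDerivAt g (ev pU0 M x 0 - (-12 * ((x + 2)⁻¹) ^ 2)) x := by
    intro x hx
    have h0 : x + 2 ≠ 0 := by linarith [hx.1]
    have := (der_W.dx hM0.ne' (tau_pos hM hx.1 le_rfl).ne').sub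
      ((((hasDerivAt_id x).add_const 2).inv h0).const_mul 12)
    refine HasDerivAt.congr_deriv this ?_
    simp only [id]
    field_simp
  have hgc : ContinuousOn g (Icc 0 L) := fun x hx => (hd x hx).continuousAt.continuousWithinAt
  have k1 := NN_deriv hL.le hδ.le hd (hc n)
  have hend : ∀ x, 0 ≤ x → Real.sin (M * x) = 0 → |g x| ≤ 12 * M⁻¹ := by
    intro x hx h0
    have : g x = 12 * ((tau M x 0)⁻¹ - (x + 2)⁻¹) := by
      simp only [hg, ev, pW, th, mul_zero, add_zero, h0]; ring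
    rw [this, abs_mul]
    have := p_sub_inv hM hx
    norm_num
    linarith
  have hg0 := hend 0 le_rfl (by simp)
  have hgL := hend L hL.le (hs n)
  set g1 : ℝ → ℝ := fun x => -12 * M⁻¹ * ev pC M x 0 with hg1
  set g1' : ℝ → ℝ := fun x => -12 * M⁻¹ * ev pCx M x 0 with hg1'
  set r1 : ℝ → ℝ := fun x => g x - g1' x with hr1
  have hd1 : ∀ x ∈ Icc 0 L, HasDerivAt g1 (g1' x) x := fun x hx =>
    (der_C.dx hM0.ne' (tau_pos hM hx.1 le_rfl).ne').const_mul _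
  have hg1c : ContinuousOn g1 (Icc 0 L) := fun x hx => (hd1 x hx).continuousAt.continuousWithinAt
  have hg1'c : ContinuousOn g1' (Icc 0 L) := by
    have := sm_Cx.contX (L := L) hM le_rfl
    rw [hg1']; fun_prop
  have hr1c : ContinuousOn r1 (Icc 0 L) := hgc.sub hg1'c
  have b1 : ∀ x ∈ Icc 0 L, |g1 x| ≤ 12 * M⁻¹ := by
    intro x hx
    have := ev_C hM hx.1 le_rfl
    simp only [hg1]
    rw [abs_mul, abs_mul, abs_of_pos hMi]
    norm_num
    nlinarith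
  have b2 : ∀ x ∈ Icc 0 L, |r1 x| ≤ 36 * M⁻¹ := by
    intro x hx
    have e : r1 x = 12 * ((tau M x 0)⁻¹ - (x + 2)⁻¹) - M⁻¹ * (12 * M ^ 0 * Real.cos (th M x 0) ^ 1
        * Real.sin (th M x 0) ^ 0 * (1 + Real.sin (th M x 0)) ^ 1 * (tau M x 0)⁻¹ ^ 2) := by
      simp only [hr1, hg, hg1', ev, pW, pCx]
      have hMM : M⁻¹ * M = 1 := inv_mul_cancel₀ hM0.ne'
      linear_combination (-12 * Real.sin (th M x 0) * (tau M x 0)⁻¹) * hMM
    have h1 := p_sub_inv hM hx.1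
    have h2 := mono_bd 12 0 1 0 1 2 0 0 (m := M) (by linarith) (Real.abs_cos_le_one (th M x 0))
      (Real.abs_sin_le_one (th M x 0)) (p_pos hM hx.1 le_rfl).le (p_le_one hM hx.1 le_rfl) le_rfl
      (by norm_num)
    rw [e]
    refine (abs_sub _ _).trans ?_
    rw [abs_mul, abs_mul M⁻¹, abs_of_pos hMi]
    have h3 := mul_le_mul_of_nonneg_left h2 hMi.le
    norm_num at h3 ⊢
    linarith
  have b3 : ∀ x ∈ Icc 0 L, |g x| ≤ 36 := by
    intro x hx
    have h1 := ev_W hM hx.1 le_rfl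
    have h2 := qq_le_one (m := M) le_rfl
    have h4 : (x + 2)⁻¹ ≤ 1 := inv_le_one_of_one_le₀ (by linarith [hx.1])
    have h5 : 0 < (x + 2)⁻¹ := inv_pos.2 (by linarith [hx.1])
    refine (abs_sub _ _).trans ?_
    rw [abs_mul, abs_of_pos h5]
    norm_num
    linarith
  have i1 : ∫ x in (0:ℝ)..L, g1 x ^ 2 ≤ (12 * M⁻¹) ^ 2 * L := by
    apply integral_le_const hL.le (hg1c.pow 2)
    intro x hx
    rw [Pi.pow_apply, ← sq_abs]
    exact pow_le_pow_left₀ (abs_nonneg _) (b1 x hx) 2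
  have i2 : ∫ x in (0:ℝ)..L, g x ^ 2 ≤ 36 ^ 2 * L := by
    apply integral_le_const hL.le (hgc.pow 2)
    intro x hx
    rw [Pi.pow_apply, ← sq_abs]
    exact pow_le_pow_left₀ (abs_nonneg _) (b3 x hx) 2
  have i3 : ∫ x in (0:ℝ)..L, |r1 x| ≤ 36 * M⁻¹ * L := integral_le_const hL.le hr1c.abs b2
  have hB : |g1 0| + |g1 L| + ∫ x in (0:ℝ)..L, |r1 x| ≤ (24 + 36 * L) * M⁻¹ := by
    have := b1 0 ⟨le_rfl, hL.le⟩
    have := b1 L ⟨hL.le, le_rfl⟩
    nlinarith
  have k2 := NN_split (σ := δ) (τ := 0) (R := M) (h := g) hL.le le_rfl (by norm_num) hδ.le hδ1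
    (by linarith) hd1 hg1'c hr1c (fun x _ => by simp [hr1]) hB
  have e1 : (M ^ 2) ^ (-δ) = M ^ (-(2 * δ)) := by
    rw [← Real.rpow_natCast, ← Real.rpow_mul hM0.le]
    congr 1; push_cast; ring
  have e2 : M ^ (-(2 : ℝ)) = M⁻¹ ^ 2 := by
    rw [Real.rpow_neg hM0.le, inv_pow]; norm_num
  have e3 : (2 * M ^ 2) ^ (3 / 5 - (0 : ℝ)) * M⁻¹ ^ 2 = 2 ^ (3 / 5 : ℝ) * M ^ (-(4 / 5 : ℝ)) := by
    rw [Real.mul_rpow (by norm_num) (by positivity), ← e2, ← Real.rpow_natCast M,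
      ← Real.rpow_mul hM0.le, mul_assoc, ← Real.rpow_add hM0]
    norm_num
  have k3 : NN δ L g ≤ (16 * π ^ 2 * 144 + 36 ^ 2) * L * M ^ (-(2 * δ))
      + 2 * (24 + 36 * L) ^ 2 * KK * 2 ^ (3 / 5 : ℝ) * M ^ (-(4 / 5 : ℝ)) := by
    refine k2.trans (add_le_add ?_ (le_of_eq ?_))
    · rw [e1, mul_comm]
      apply mul_le_mul_of_nonneg_right _ (by positivity)
      calc _ ≤ 16 * π ^ 2 * M ^ 2 * ((12 * M⁻¹) ^ 2 * L) + 36 ^ 2 * L := by gcongr
        _ = _ := by field_simp; ring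
    · calc _ = 2 * (24 + 36 * L) ^ 2 * KK * ((2 * M ^ 2) ^ (3 / 5 - (0 : ℝ)) * M⁻¹ ^ 2) := by ring
        _ = _ := by rw [e3]; ring
  have k4 : 2 * (|g 0| + |g L|) ^ 2 * KK ≤ E * M ^ (-(2 : ℝ)) := by
    have := KK_nonneg
    calc _ ≤ 2 * (12 * M⁻¹ + 12 * M⁻¹) ^ 2 * KK := by gcongr
      _ = _ := by rw [e2, hE]; ring
  have k5 := mul_le_mul_of_nonneg_left k3 (show 0 ≤ 8 * π ^ 2 by positivity)
  rw [hA, hD]
  linarith

end Pool.Agent.Lib.MP_14aec4_an
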