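import Pool.Agent.Lib.MP_14aec4_an.UMS

/-!
Stability of smooth solutions on a time interval that depends only on the size of the data.
-/

noncomputable section

open MeasureTheory Set Filter Topology FourierTransform
open scoped ENNReal ComplexConjugate

namespace Pool.Agent.Lib.MP_14aec4_an.W

theorem uap_main {L : ℝ} (hL : 0 < L) {P : BC} (hP : P.Valid) {R : ℝ} (hR : 0 ≤ R) :
    ∃ Ts > 0, ∃ C > 0, ∀ T' ∈ Ioc 0 Ts, ∀ u w u' w',
      Near L P T' R (fun _ => 0) (fun _ _ => 0) u w →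
      Near L P T' R (fun _ => 0) (fun _ _ => 0) u' w' → ∀ D, 0 ≤ D →
      wn L P (fun x => w x - w' x) ≤ D →
      (∀ i, bn (P.σ i) T' (fun t => bop L P u i t - bop L P u' i t) ≤ ENNReal.ofReal D) →
      ∀ T₁ ∈ Ioo 0 T', ∀ ε > 0, ∀ᶠ δ in 𝓝[>] (0 : ℝ),
        ∀ t ∈ Icc (2 * δ) T₁, hNorm (-1) (Ioo 0 L)
          (ofFun L (fun x => u x t) - ofFun L fun x => u' x t) ≤
            ENNReal.ofReal (C * (D + ε)) := by
  obtain ⟨κ, hκ0, hκR⟩ : ∃ κ : ℝ, 0 < κ ∧ 4 * R ^ 2 < κ :=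
    ⟨4 * R ^ 2 + 1, by positivity, lt_add_one _⟩
  obtain ⟨Cr, hCr, hric⟩ := ric_wn hL P κ R
  obtain ⟨Ce, hCe, hext⟩ := ext_ap
  obtain ⟨Qb, hQb⟩ : ∃ Qb, Qb = R + (Real.sqrt L + 2) * (κ + κ ^ 2 * L) := ⟨_, rfl⟩
  have hQb0 : 0 ≤ Qb := by rw [hQb]; positivity
  obtain ⟨i₀, hi₀⟩ := Finite.exists_max fun i => |κ ^ 2 * P.c i|
  obtain ⟨M₀, hM₀⟩ : ∃ K, K = |κ ^ 2 * P.c i₀| := ⟨_, rfl⟩
  have hM₀0 : 0 ≤ M₀ := hM₀ ▸ abs_nonneg _
  obtain ⟨R₁, hR₁⟩ : ∃ R₁, R₁ = 21 * (Ce * R) + 15 + 252 * M₀ + 1926 * Qb := ⟨_, rfl⟩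
  have hCR : 0 ≤ Ce * R := by positivity
  have hR₁0 : 0 ≤ R₁ := by rw [hR₁]; positivity
  obtain ⟨M, C, hM, hC, hev⟩ := good_eventually hL κ hP hR₁0
  obtain ⟨γ, hg⟩ := hev.exists
  have hγ := hg.big
  have haa := hg.aa1
  have hγ0 : 0 < γ := lt_of_lt_of_le one_pos hγ.1
  have hM0 : 0 ≤ M := by linarith
  have hC0 : 0 ≤ C := by linarith
  obtain ⟨C', hC'⟩ : ∃ C', C' = C + C * C := ⟨_, rfl⟩
  have hC'0 : 0 < C' := by rw [hC']; positivity
  set K₁ : ℝ := 42 * (1 + Real.sqrt L * (6 * (6 * R₁ + 20 * (1 + L) * (M + C * M + 1)))) * 3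
    with hK₁
  set K₂ : ℝ := 6 * Cr + 20 * (1 + L) * C' * (7 * Ce + 1926 * Cr) with hK₂
  have hK₁0 : 0 < K₁ := by positivity
  have hK₂0 : 0 ≤ K₂ := by positivity
  refine ⟨1 / γ, by positivity, K₁ * (K₂ + 1), by positivity,
    fun T' hT' u w u' w' hu hu' D hD hwD hbD T₁ hT₁ ε hε => ?_⟩
  have hwn : ∀ {u w}, Near L P T' R (fun _ => 0) (fun _ _ => 0) u w → wn L P w ≤ R := by
    intro u w hu
    simpa only [sub_zero] using hu.ini
  have hbn : ∀ {u w}, Near L P T' R (fun _ => 0) (fun _ _ => 0) u w →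
      ∀ i, bn (P.σ i) T' (bop L P u i) ≤ ENNReal.ofReal R := by
    intro u w hu i
    simpa only [sub_zero] using hu.bdy i
  have hn := (nL_le_wn L P w).trans (hwn hu)
  have hn' := (nL_le_wn L P w').trans (hwn hu')
  obtain ⟨q, hq⟩ := ric_exists hL hu.sm hn hκR
  obtain ⟨q', hq'⟩ := ric_exists hL hu'.sm hn' hκR
  have qb : wn L P q ≤ Qb := (hq.wn_le hL P hu.sm).trans (by have := hwn hu; linarith)
  have qb' : wn L P q' ≤ Qb := (hq'.wn_le hL P hu'.sm).trans (by have := hwn hu'; linarith)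
  have qq : wn L P (fun x => q x - q' x) ≤ Cr * D :=
    (hric w w' q q' hu.sm hu'.sm hn hn' hq hq').trans (by gcongr)
  obtain ⟨C₁, hC₁, hl₁⟩ := lift hL hP hT'.1 hu.sol hu.der hq
  obtain ⟨C₂, hC₂, hl₂⟩ := lift hL hP hT'.1 hu'.sol hu'.der hq'
  set ε₁ : ℝ := min 1 (ε / (280 * (1 + L) * C')) with hε₁
  have hε₁0 : 0 < ε₁ := lt_min one_pos (by positivity)
  have hε₁a : ε₁ ≤ 1 := min_le_left _ _
  have hε₁b : 140 * (1 + L) * C' * ε₁ ≤ ε / 2 := by
    have : ε₁ ≤ ε / (280 * (1 + L) * C') := min_le_right _ _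
    rw [le_div_iff₀ (by positivity)] at this
    linarith
  have hU := uniqueDiffOn_Icc hT'.1
  have cb := fun i => contDiffOn_bop hL P hU hu.sol.1 i
  have cb' := fun i => contDiffOn_bop hL P hU hu'.sol.1 i
  have x1 := fun i => msap_eventually (hext (P.σ i) γ T' T₁ R ε₁
    (bop L P u i) (P.σ_mem i).1 (P.σ_mem i).2 hγ.1 hT'.2 hT₁ hR hε₁0 (cb i) (hbn hu i))
  have x2 := fun i => msap_eventually (hext (P.σ i) γ T' T₁ (min D (2 * R)) ε₁
    (fun t => bop L P u i t - bop L P u' i t) (P.σ_mem i).1 (P.σ_mem i).2 hγ.1 hT'.2 hT₁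
    (le_min hD (by positivity)) hε₁0 ((cb i).sub (cb' i)) (by
      rcases le_total D (2 * R) with h | h
      · rw [min_eq_left h]; exact hbD i
      · rw [min_eq_right h]
        refine (bn_sub_le (q := fun _ => 0) (cb i).continuousOn continuousOn_const
          (cb' i).continuousOn).trans ?_
        have e : bn (P.σ i) T' (fun t => 0 - bop L P u' i t) =
            bn (P.σ i) T' fun t => bop L P u' i t - 0 := by
          unfold bn
          rw [ofFun_sub continuousOn_const (cb' i).continuousOn,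
            ofFun_sub (cb' i).continuousOn continuousOn_const, hNorm_sub_comm]
        rw [e, two_mul, ENNReal.ofReal_add hR hR]
        exact add_le_add (hu.bdy i) (hu'.bdy i)))
  have hCm : 0 ≤ C₁ + C₂ := by positivity
  filter_upwards [msap_eventually hl₁, msap_eventually hl₂, eventually_all.2 x1,
    eventually_all.2 x2, msap_sqrt_small ((126 + 90 * L) * (C₁ + C₂)) one_pos,
    msap_sqrt_small ((M + 1) * (3 * (C₁ + C₂))) one_pos,
    msap_sqrt_small (20 * (1 + L) * (C' * (126 + 90 * L) + 3) * (C₁ + C₂)) (half_pos hε),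
    Ioo_mem_nhdsGT (half_pos hT₁.1)] with δ hd₁ hd₂ hx1 hx2 s1 s2 s3 hδ
  obtain ⟨Gr, ℓr, hGr, hℓr, bGr, bℓr, hZ⟩ := hd₁
  obtain ⟨Gr', ℓr', hGr', hℓr', bGr', bℓr', hZ'⟩ := hd₂
  choose E hE eE bE using hx1
  choose E' hE' eE' bE' using hx2
  have hδ0 := hδ.1
  have h2δ : 2 * δ < T₁ := by linarith [hδ.2]
  have ref := fun i => msap_ref hγ.1 (P.σ_mem i).2 hδ0 (k := fun _ => κ ^ 2 * P.c i) (M₀ := M₀)
    contDiff_const fun _ _ => hM₀ ▸ hi₀ i
  set H : Fin 3 → ℝ → ℝ := fun i t =>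
    E i t * (-1 / 6) + rp δ δ t * cut (γ * t) * (κ ^ 2 * P.c i) with hH
  set H' : Fin 3 → ℝ → ℝ := fun i t => H i t + E' i t * (1 / 6) with hH'
  have sE := fun i => (hE i).mul_right (contDiff_const (c := (-1 / 6 : ℝ)))
  have sE' := fun i => (hE' i).mul_right (contDiff_const (c := (1 / 6 : ℝ)))
  have sH : ∀ i, SC (H i) := fun i => (sE i).add (ref i).1
  have sH' : ∀ i, SC (H' i) := fun i => (sH i).add (sE' i)
  have hsq : 0 ≤ 3 * M₀ * Real.sqrt (2 / γ) := by positivity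
  have scal : ∀ (i : Fin 3) (F : ℝ → ℝ) (c a : ℝ), |a| = 1 / 6 →
      Bd γ w1 (P.σ i) (spec γ F) c → Bd γ w1 (P.σ i) (spec γ fun t => F t * a) (c / 6) := by
    intro i F c a ha h
    have e : (spec γ fun t => F t * a) = fun τ => (a : ℂ) * spec γ F τ :=
      funext (spec_mul_const γ F a)
    rw [e]
    refine (h.const_mul a).mono (le_of_eq ?_)
    rw [Complex.norm_real, Real.norm_eq_abs, ha]; ring
  have bH₀ : ∀ i, Bd γ w1 (P.σ i) (spec γ (H i))
      ((Ce * R + ε₁) / 6 + 3 * M₀ * Real.sqrt (2 / γ)) := by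
    intro i
    have e : spec γ (H i) = fun τ => spec γ (fun t => E i t * (-1 / 6)) τ + spec γ
        (fun t => rp δ δ t * cut (γ * t) * (κ ^ 2 * P.c i)) τ :=
      funext (spec_add γ (sE i) (ref i).1)
    rw [e]
    exact Bd.add hγ0 adm_w1 (rd_spec γ (sE i)).aesm (rd_spec γ (ref i).1).aesm (by positivity) hsq
      (scal i _ _ _ (by norm_num [abs_of_neg]) (bE i)) (ref i).2
  have hmin0 : 0 ≤ min D (2 * R) := le_min hD (by positivity)
  set b : ℝ := (3 * (Ce * R) + 2 * ε₁) / 6 + 3 * M₀ * Real.sqrt (2 / γ) with hb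
  have hb0 : 0 ≤ b := by positivity
  have bH : ∀ i, Bd γ w1 (P.σ i) (spec γ (H i)) b := fun i => (bH₀ i).mono (by
    rw [hb]; linarith)
  have bH' : ∀ i, Bd γ w1 (P.σ i) (spec γ (H' i)) b := by
    intro i
    have e : spec γ (H' i) = fun τ => spec γ (H i) τ + spec γ (fun t => E' i t * (1 / 6)) τ :=
      funext (spec_add γ (sH i) (sE' i))
    rw [e]
    refine (Bd.add hγ0 adm_w1 (rd_spec γ (sH i)).aesm (rd_spec γ (sE' i)).aesm (by positivity)
      (by positivity) (bH₀ i) (scal i _ _ _ (by norm_num) (bE' i))).mono ?_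
    have : Ce * min D (2 * R) ≤ Ce * (2 * R) := by gcongr; exact min_le_right _ _
    rw [hb]; linarith
  have bHd : ∀ i, Bd γ w1 (P.σ i) (spec γ fun t => E' i t * (-1 / 6)) ((Ce * D + ε₁) / 6) := by
    intro i
    refine (scal i _ _ _ (by norm_num [abs_of_neg]) (bE' i)).mono ?_
    have : Ce * min D (2 * R) ≤ Ce * D := by gcongr; exact min_le_left _ _
    linarith
  have hcut : ∀ t ∈ Ioo 0 T₁, cut (γ * t) = 1 := fun t ht => ums_cut hγ0
    ((div_nonpos_of_nonpos_of_nonneg (by norm_num) hγ0.le).trans ht.1.le)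
    ((ht.2.trans hT₁.2).le.trans hT'.2)
  have eH : ∀ i, ∀ t ∈ Ioo 0 T₁, H i t = rp δ δ t * (-bop L P u i t / 6 + κ ^ 2 * P.c i) := by
    intro i t ht
    simp only [hH, eE i t ht.2.le, hcut t ht]; ring
  have eH' : ∀ i, ∀ t ∈ Ioo 0 T₁, H' i t = rp δ δ t * (-bop L P u' i t / 6 + κ ^ 2 * P.c i) := by
    intro i t ht
    simp only [hH', eH i t ht, eE' i t ht.2.le]; ring
  have zH : ∀ i, ∀ t ≤ 0, H i t = 0 := by
    intro i t ht
    simp only [hH, eE i t (ht.trans hT₁.1.le), rp_zero hδ0 (ht.trans hδ0.le)]; ring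
  have zH' : ∀ i, ∀ t ≤ 0, H' i t = 0 := by
    intro i t ht
    simp only [hH', zH i t ht, eE' i t (ht.trans hT₁.1.le), rp_zero hδ0 (ht.trans hδ0.le)]; ring
  have zX : ∀ t ≤ 0, deriv (rp δ δ) t = 0 := fun t ht =>
    deriv_rp_zero hδ0 fun h => by linarith [h.1]
  have nI : ∀ t ≤ 0, t ∉ Icc δ (2 * δ) := fun t ht h => by linarith [h.1]
  have l1 := msap_lin hL hγ P hδ0 hq.sm (q₀ := fun _ => 0) (B := 0) contDiffOn_const
    (fun x hx => by simp [dI]) hCm hGr hℓr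
    (fun x hx t => ⟨(bGr x hx t).1.trans (by linarith), (bGr x hx t).2⟩)
    (fun i t => ⟨(bℓr i t).1.trans (by linarith), (bℓr i t).2⟩) sH hb0 bH
    (G := fun x t => deriv (rp δ δ) t * q x + Gr x t)
    (ℓ := fun i t => H i t - P.dyn i * deriv (rp δ δ) t * q (ept L i) + ℓr i t)
    (fun _ _ _ => rfl) (fun _ _ => rfl)
  have l2 := msap_lin hL hγ P hδ0 hq'.sm (q₀ := fun _ => 0) (B := 0) contDiffOn_const
    (fun x hx => by simp [dI]) hCm hGr' hℓr'
    (fun x hx t => ⟨(bGr' x hx t).1.trans (by linarith), (bGr' x hx t).2⟩)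
    (fun i t => ⟨(bℓr' i t).1.trans (by linarith), (bℓr' i t).2⟩) sH' hb0 bH'
    (G := fun x t => deriv (rp δ δ) t * q' x + Gr' x t)
    (ℓ := fun i t => H' i t - P.dyn i * deriv (rp δ δ) t * q' (ept L i) + ℓr' i t)
    (fun _ _ _ => rfl) (fun _ _ => rfl)
  have l3 := msap_lin hL hγ P hδ0 (q := fun x => q x - q' x) (q₀ := fun _ => 0) (B := 0)
    (ContDiffOn.sub hq.sm hq'.sm) contDiffOn_const (fun x hx => by simp [dI]) hCm
    (hGr.sub hGr') (fun i => (hℓr i).sub (hℓr' i))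
    (fun x hx t => ⟨(abs_sub _ _).trans (add_le_add (bGr x hx t).1 (bGr' x hx t).1),
      fun h => by rw [(bGr x hx t).2 h, (bGr' x hx t).2 h, sub_zero]⟩)
    (fun i t => ⟨(abs_sub _ _).trans (add_le_add (bℓr i t).1 (bℓr' i t).1),
      fun h => by rw [(bℓr i t).2 h, (bℓr' i t).2 h, sub_zero]⟩)
    (fun i => (hE' i).mul_right (contDiff_const (c := (-1 / 6 : ℝ)))) (by positivity) bHd
    (G := fun x t => (deriv (rp δ δ) t * q x + Gr x t) - (deriv (rp δ δ) t * q' x + Gr' x t))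
    (ℓ := fun i t => (H i t - P.dyn i * deriv (rp δ δ) t * q (ept L i) + ℓr i t) -
      (H' i t - P.dyn i * deriv (rp δ δ) t * q' (ept L i) + ℓr' i t))
    (fun _ _ _ => by ring) (fun i t => by simp only [hH']; ring)
  have ha0 := aa_nonneg γ
  have lin : ∀ {q : ℝ → ℝ}, wn L P q ≤ Qb →
      42 * (b + 3 * wn L P q * aa γ + 3 * (C₁ + C₂) * Real.sqrt δ) +
        30 * (60 * nL L (fun x => q x - 0) + 3 * (2 + L) * 0 * aa γ
          + L * (3 * (C₁ + C₂) * Real.sqrt δ)) ≤ R₁ := by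
    intro q h1
    have h2 := (nL_le_wn L P q).trans h1
    have h3 : wn L P q * aa γ ≤ Qb * 1 := by gcongr
    have h4 : Real.sqrt (2 / γ) ≤ 2 := ums_sqrt hγ.1 (by gcongr; norm_num)
    have h5 := mul_le_mul_of_nonneg_left h4 hM₀0
    simp only [sub_zero]
    rw [hb, hR₁]
    linarith
  have hnq : nL L (fun x => q x - q' x) ≤ Cr * D := (nL_le_wn L P _).trans qq
  set d : ℝ := (7 * Ce + 1926 * Cr) * D + 7 * ε₁ + (126 + 90 * L) * (C₁ + C₂) * Real.sqrt δ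
    with hd
  have hneg : -1 / γ ≤ δ := (div_nonpos_of_nonpos_of_nonneg (by norm_num) hγ0.le).trans hδ0.le
  have main := ums_pair (t₁ := 2 * δ) (T₁ := T₁) (u := u) (u' := u') hL hg hM0 hC0
    (by positivity) (hT₁.2.le.trans hT'.2) (sc_deriv_rp hδ0 δ)
    (integral_deriv_rp_le hγ0 hδ0 hneg) hq.sm hq'.sm hGr hGr' rfl rfl l1.1 l2.1
    (fun x hx t ht => by rw [zX t ht, (bGr x hx t).2 (nI t ht)]; ring)
    (fun i t ht => by rw [zH i t ht, zX t ht, (bℓr i t).2 (nI t ht)]; ring)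
    (fun x hx t ht => by rw [zX t ht, (bGr' x hx t).2 (nI t ht)]; ring)
    (fun i t ht => by rw [zH' i t ht, zX t ht, (bℓr' i t).2 (nI t ht)]; ring)
    (l1.2.2.mono (lin qb)) (l2.2.2.mono (lin qb')) (d := d) (by positivity)
    (l3.2.2.mono (by
      simp only [sub_zero]
      have h3 : wn L P (fun x => q x - q' x) * aa γ ≤ Cr * D * 1 := by gcongr
      rw [hd]
      linarith))
    (by positivity) (by linarith) (by positivity) l1.2.1 l2.2.1 l3.2.1
    (fun Z => hZ T₁ ⟨h2δ, hT₁.2.le⟩ H Z eH) (fun Z => hZ' T₁ ⟨h2δ, hT₁.2.le⟩ H' Z eH')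
    (((nL_le_wn L P q).trans qb).trans (by linarith))
    (((nL_le_wn L P q').trans qb').trans (by linarith))
  refine fun t ht => (main t ht).trans (ENNReal.ofReal_le_ofReal ?_)
  have g2 : 6 * nL L (fun x => q x - q' x) + 20 * (1 + L) *
      (C * d + C * (C * d) + 3 * (C₁ + C₂) * Real.sqrt δ) ≤ (K₂ + 1) * (D + ε) := by
    have h7 : 0 ≤ K₂ * ε := by positivity
    have h8 : C * d + C * (C * d) = C' * d := by rw [hC']; ring
    rw [h8, hd]
    rw [hK₂] at h7 ⊢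
    linarith
  calc _ = K₁ * (6 * nL L (fun x => q x - q' x) + 20 * (1 + L) *
        (C * d + C * (C * d) + 3 * (C₁ + C₂) * Real.sqrt δ)) := by rw [hK₁]; ring
    _ ≤ K₁ * ((K₂ + 1) * (D + ε)) := by gcongr
    _ = _ := by ring

theorem ums_ap {L : ℝ} (hL : 0 < L) {P : BC} (hP : P.Valid) {R : ℝ} (hR : 0 ≤ R) :
    ∃ Ts > 0, ∃ C > 0, ∀ T' ∈ Ioc 0 Ts, ∀ u w u' w',
      Near L P T' R (fun _ => 0) (fun _ _ => 0) u w →
      Near L P T' R (fun _ => 0) (fun _ _ => 0) u' w' → ∀ D, 0 ≤ D →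
      wn L P (fun x => w x - w' x) ≤ D →
      (∀ i, bn (P.σ i) T' (fun t => bop L P u i t - bop L P u' i t) ≤ ENNReal.ofReal D) →
      ∀ t ∈ Icc 0 T', hNorm (-1) (Ioo 0 L)
        (ofFun L (fun x => u x t) - ofFun L fun x => u' x t) ≤ ENNReal.ofReal (C * D) := by
  obtain ⟨Ts, hTs, C, hC, h⟩ := uap_main hL hP hR
  refine ⟨Ts, hTs, C, hC, fun T' hT' u w u' w' hu hu' D hD hw hb => ?_⟩
  have inner : ∀ t ∈ Ioo 0 T', hNorm (-1) (Ioo 0 L)
      (ofFun L (fun x => u x t) - ofFun L fun x => u' x t) ≤ ENNReal.ofReal (C * D) := by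
    intro t ht
    have hT₁ : (t + T') / 2 ∈ Ioo 0 T' := ⟨by linarith [ht.1, hT'.1], by linarith [ht.2]⟩
    apply ENNReal.le_of_forall_pos_le_add
    intro ε hε _
    have hε' : (0 : ℝ) < ε := hε
    obtain ⟨δ, hδ, hδ'⟩ := ((h T' hT' u w u' w' hu hu' D hD hw hb _ hT₁ (ε / C)
      (by positivity)).and (Ioo_mem_nhdsGT (half_pos ht.1))).exists
    refine (hδ t ⟨by linarith [hδ'.2], by linarith [ht.2]⟩).trans (le_of_eq ?_)
    rw [mul_add, mul_div_cancel₀ _ hC.ne', ENNReal.ofReal_add (by positivity) hε'.le,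
      ENNReal.ofReal_coe_nnreal]
  intro t ht
  have hne : (𝓝[Ioo 0 T'] t).NeBot := by
    rw [← mem_closure_iff_nhdsWithin_neBot, closure_Ioo hT'.1.ne]; exact ht
  have hle : 𝓝[Ioo 0 T'] t ≤ 𝓝[Icc 0 T'] t := nhdsWithin_mono _ Ioo_subset_Icc_self
  have c1 := (curve_continuous (s := -1) (by norm_num) hL hu.sol.1.ctOn ht).mono_left hle
  have c2 := (curve_continuous (s := -1) (by norm_num) hL hu'.sol.1.ctOn ht).mono_left hle
  have c3 := (c1.add (tendsto_const_nhds (x := ENNReal.ofReal (C * D)))).add c2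
  rw [zero_add, add_zero] at c3
  refine ge_of_tendsto c3 ?_
  filter_upwards [self_mem_nhdsWithin] with τ hτ
  refine (hNorm_sub_le _ (ofFun L fun x => u' x τ) _).trans (add_le_add ?_ le_rfl)
  refine (hNorm_sub_le _ (ofFun L fun x => u x τ) _).trans (add_le_add ?_ (inner τ hτ))
  rw [hNorm_sub_comm]

end Pool.Agent.Lib.MP_14aec4_an.W
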