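import Pool.Agent.Lib.MP_14aec4_an.UEn

/-!
The a priori bound on fixed points with large data.
-/

noncomputable section

open MeasureTheory Set Filter Topology FourierTransform
open scoped ENNReal ComplexConjugate

namespace Pool.Agent.Lib.MP_14aec4_an.W

/-- Gronwall's inequality from the right end. -/
lemma uapr_gron {L : ℝ} (hL : 0 ≤ L) {α n r : ℝ → ℝ} (cα : Continuous α) (cn : Continuous n)
    (cr : Continuous r) (hα : ∀ y, 0 ≤ α y) (hr : ∀ y, 0 ≤ r y)
    (h : ∀ x ∈ Icc 0 L, n x ≤ r x + ∫ y in x..L, α y * n y) :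
    ∫ y in (0 : ℝ)..L, α y * n y ≤
      Real.exp (∫ y in (0 : ℝ)..L, α y) * ∫ y in (0 : ℝ)..L, α y * r y := by
  have d1 := hasDerivAt_prim (Q := fun y => α y * n y) (cα.mul cn) L
  have d2 := hasDerivAt_prim cα 0
  have c1 : Continuous fun x => ∫ y in L..x, α y * n y :=
    continuous_iff_continuousAt.2 fun x => (d1 x).continuousAt
  have c2 : Continuous fun x => ∫ y in (0 : ℝ)..x, α y :=
    continuous_iff_continuousAt.2 fun x => (d2 x).continuousAt
  have cD : Continuous fun x => α x * n x * Real.exp (∫ y in (0 : ℝ)..x, α y) +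
      (∫ y in L..x, α y * n y) * (Real.exp (∫ y in (0 : ℝ)..x, α y) * α x) := by fun_prop
  have h1 := intervalIntegral.integral_eq_sub_of_hasDerivAt
    (f := fun x => (∫ y in L..x, α y * n y) * Real.exp (∫ y in (0 : ℝ)..x, α y))
    (a := 0) (b := L) (fun x _ => (d1 x).mul (d2 x).exp) (cD.intervalIntegrable _ _)
  have h2 := intervalIntegral.integral_mono_on hL (cD.intervalIntegrable _ _)
    (((cα.mul cr).intervalIntegrable (μ := volume) 0 L).const_mul
      (Real.exp (∫ y in (0 : ℝ)..L, α y))) fun x hx => by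
      have h3 : Real.exp (∫ y in (0 : ℝ)..x, α y) ≤ Real.exp (∫ y in (0 : ℝ)..L, α y) :=
        Real.exp_le_exp.2 (intervalIntegral.integral_mono_interval le_rfl hx.1 hx.2
          (Eventually.of_forall hα) (cα.intervalIntegrable _ _))
      have h4 := h x hx
      rw [intervalIntegral.integral_symm] at h4
      have h5 := mul_le_mul_of_nonneg_left h4
        (mul_nonneg (hα x) (Real.exp_pos (∫ y in (0 : ℝ)..x, α y)).le)
      have h6 := mul_le_mul_of_nonneg_right h3 (mul_nonneg (hα x) (hr x))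
      simp only [Pi.mul_apply]
      nlinarith
  rw [h1, intervalIntegral.integral_const_mul] at h2
  simp only [intervalIntegral.integral_same, zero_mul, Real.exp_zero, mul_one, zero_sub,
    Pi.mul_apply] at h2
  rwa [intervalIntegral.integral_symm]

lemma uapr_exp {ρ : ℝ} (hρ : 0 < ρ) (L : ℝ) :
    ∫ y in (0 : ℝ)..L, Real.exp (-ρ * y) ≤ 1 / ρ := by
  have d : ∀ y ∈ uIcc 0 L, HasDerivAt (fun y => -(1 / ρ) * Real.exp (-ρ * y))
      (Real.exp (-ρ * y)) y := by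
    intro y _
    have h1 : HasDerivAt (fun y : ℝ => -ρ * y) (-ρ) y := by
      simpa using (hasDerivAt_id y).const_mul (-ρ)
    refine (h1.exp.const_mul (-(1 / ρ))).congr_deriv ?_
    field_simp
  rw [intervalIntegral.integral_eq_sub_of_hasDerivAt d
    (Continuous.intervalIntegrable (by fun_prop) _ _)]
  simp only [mul_zero, Real.exp_zero, mul_one]
  have : 0 ≤ 1 / ρ * Real.exp (-ρ * L) := by positivity
  linarith

/-- The bound on `∫∫ Y_x²`. -/
def kE (L η Q : ℝ) : ℝ := 12 * L * Q ^ 2 +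
  2 / 3 * (100 * L ^ 2 + 1 + (101 * L + 2) * (η + 2) ^ 2 + 243 * L * (η + 2) ^ 4)

/-- The exponent in Gronwall's inequality. -/
def kG (L a η Q : ℝ) : ℝ := 216 * a * (3 * kE L η Q + 45 * Q ^ 2 + 1)

/-- The a priori bound. -/
def kM (L a η Q : ℝ) : ℝ := η + 29 + 29 * (Real.exp (kG L a η Q) * ((η + 1) * kG L a η Q + 1))

/-- The conditions on `γ` in the a priori bound. -/
structure Tiny (L κ : ℝ) (P : BC) (γ a n : ℝ) : Prop where
  big : Big L γ
  aa1 : aa γ ≤ 1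
  t1 : 42 * (kB κ P γ a n * n) + 16 * (kN κ a n * n / rho γ) +
    L * (6 * |mu κ| * a * (γ ^ (-(1 : ℝ) / 3) * n)) ≤ 1
  t2 : 28 * Real.exp (-rho γ * L) * (L * (kN κ a n * n)) ≤ 1
  t4 : (6 * |mu κ| * L + 2) * (γ ^ (-(1 : ℝ) / 3) * n ^ 2) ≤ 1
  t5 : 5 * L * (γ ^ (-(1 : ℝ) / 3) * (1 + kN κ a n * n)) ^ 2 +
    12 * (γ ^ (-(1 : ℝ) / 3) * n ^ 2) ≤ 1
  t6 : 28 * (L * (kN κ a n * n)) * (432 * a * n ^ 2) * (1 / rho γ) ≤ 1

lemma tiny_eventually (L κ : ℝ) (hL : 0 < L) (P : BC) (a n : ℝ) :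
    ∀ᶠ γ in atTop, Tiny L κ P γ a n := by
  have t1 : Tendsto (fun γ : ℝ => γ ^ (-(1 : ℝ) / 3)) atTop (𝓝 0) := by
    have := tendsto_rpow_neg_atTop (y := (1 : ℝ) / 3) (by norm_num)
    simpa only [neg_div] using this
  have t2 : Tendsto rho atTop atTop :=
    (tendsto_rpow_atTop (by norm_num : (0 : ℝ) < 1 / 3)).atTop_div_const (by norm_num)
  have t3 : Tendsto (fun γ => kB κ P γ a n) atTop (𝓝 0) := by
    have := (((t1.const_mul (sB P + 6 * |mu κ| + 1296 * n ^ 2)).add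
      ((aa_tendsto.mul_const n).const_mul (4 * sB P + 12))).const_mul a)
    simp only [mul_zero, zero_mul, add_zero] at this
    exact this
  have t4 : Tendsto (fun γ => Real.exp (-rho γ * L)) atTop (𝓝 0) := by
    simp only [neg_mul]
    exact Real.tendsto_exp_neg_atTop_nhds_zero.comp (t2.atTop_mul_const hL)
  have s1 := (((t3.mul_const n).const_mul 42).add (((tendsto_const_nhds
    (x := kN κ a n * n)).div_atTop t2).const_mul 16)).add
    (((t1.mul_const n).const_mul (6 * |mu κ| * a)).const_mul L)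
  have s2 := (t4.const_mul 28).mul_const (L * (kN κ a n * n))
  have s4 := (t1.mul_const (n ^ 2)).const_mul (6 * |mu κ| * L + 2)
  have s5 := (((t1.mul_const (1 + kN κ a n * n)).pow 2).const_mul (5 * L)).add
    ((t1.mul_const (n ^ 2)).const_mul 12)
  have s6 := ((tendsto_const_nhds (x := (1 : ℝ))).div_atTop t2).const_mul
    (28 * (L * (kN κ a n * n)) * (432 * a * n ^ 2))
  simp only [mul_zero, zero_mul, add_zero, ne_eq, OfNat.ofNat_ne_zero, not_false_eq_true,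
    zero_pow] at s1 s2 s4 s5 s6
  filter_upwards [eventually_ge_atTop (1 : ℝ), eventually_ge_atTop ((2 / L) ^ 3),
    aa_tendsto.eventually (ge_mem_nhds one_pos), s1.eventually (ge_mem_nhds one_pos),
    s2.eventually (ge_mem_nhds one_pos), s4.eventually (ge_mem_nhds one_pos),
    s5.eventually (ge_mem_nhds one_pos), s6.eventually (ge_mem_nhds one_pos)]
    with γ g1 g2 g3 g4 g5 g6 g7 g8 using ⟨⟨g1, g2⟩, g3, g4, g5, g6, g7, g8⟩

variable {L κ γ a n : ℝ} {P : BC} {m : ℝ → ℝ} {G : ℝ → ℝ → ℝ} {ℓ : Fin 3 → ℝ → ℝ}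
  {V : Fin 3 → ℝ → ℝ → ℂ}

/-- The Volterra inequality for a fixed point. -/
lemma uapr_volt (hL : 0 < L) (hP : P.Valid) (hγ : Big L γ) (h : FP L κ P γ m G ℓ V)
    (hA : ∀ n, mulC γ w1 (mm γ m n) ≤ a) (hn : 0 ≤ n) (b : SBd L γ w1 V n) {η F : ℝ}
    (hη : 0 ≤ η) (bl : SBd L γ w1 (linS L P γ G ℓ) η) {f : ℝ → ℝ} (hf : Continuous f)
    (f0 : ∀ y, 0 ≤ f y) (fF : ∀ y ∈ Icc 0 L, f y ≤ F)
    (bg : ∀ y ∈ Icc 0 L, Bd γ w1 (-1 / 3) (fN κ (mm γ m) V y) (f y)) {x : ℝ} (hx : x ∈ Icc 0 L)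
    (j : Fin 3) : Bd γ w1 ((1 - (j : ℝ)) / 3) (V j x)
      (η + (42 * (kB κ P γ a n * n) + ((∫ y in x..L, f y) +
        28 * Real.exp (-rho γ * x) * (∫ y in (0 : ℝ)..L, f y) + 16 * (F / rho γ)))) := by
  have hγ0 : 0 < γ := zero_lt_one.trans_le hγ.1
  have hM : ∀ n, RD (mm γ m n) := fun n => rd_spec _ h.hm
  have ha : 0 ≤ a := (mulC_nonneg hγ0 adm_w1 _).trans (hA 0)
  have rg := rd2_specG hL γ h.hG
  have rN := rd2_fN κ hM h.rd
  have rB := rd_fB L κ P hM h.rd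
  have hk := kB_nonneg κ P hγ0 ha hn
  have hρ := rho_pos hγ0
  have hF : 0 ≤ F := (f0 0).trans (fF 0 ⟨le_rfl, hL.le⟩)
  have I0 : 0 ≤ ∫ y in (0 : ℝ)..L, f y := intervalIntegral.integral_nonneg hL.le fun y _ => f0 y
  have I1 : 0 ≤ ∫ y in x..L, f y := intervalIntegral.integral_nonneg hx.2 fun y _ => f0 y
  have h2 := ures_bd hL hγ P adm_w1 rN rB (b := kB κ P γ a n * n) (by positivity) (fun i => by
    have := ulip_B (κ := κ) hL hP hγ.1 adm_w1 hM hA h.rd (V' := fun _ _ _ => 0)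
      (fun _ => RD2.zero) hn hn b (fix_sbd_zero _ _ _ _) (by simpa only [sub_zero] using b) i
    simpa only [fB_zero, sub_zero] using this) hf f0 fF bg hx j
  have e : V j x = sym fun τ => linS L P γ G ℓ j x τ +
      res L P γ (fN κ (mm γ m) V) (fB L κ P (mm γ m) V) j x τ := by
    conv_lhs => rw [← h.fix]
    unfold Phi
    congr 1
    funext τ
    exact res_add P rg rN _ _ j x τ
  have r1 := (res_rd hL hγ P rg (fun i => rd_spec γ (h.hℓ i)) j).at x
  have r2 := (res_rd hL hγ P rN rB j).at x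
  rw [e]
  exact Bd.sym hγ0 adm_w1 (r1.add r2).aesm
    (Bd.add hγ0 adm_w1 r1.aesm r2.aesm hη (by positivity) (bl x hx j) h2)

lemma uapr_N (hγ : 1 ≤ γ) {M : Fin 3 → ℝ → ℂ} (hM : ∀ n, RD (M n))
    (hA : ∀ n, mulC γ w1 (M n) ≤ a) (hV : ∀ j, RD2 (V j)) {y c₀ c₁ : ℝ} (h₀ : 0 ≤ c₀)
    (h₁ : 0 ≤ c₁) (hn : 0 ≤ n) (b₀ : Bd γ w1 (1 / 3) (V 0 y) c₀) (b₁ : Bd γ w1 0 (V 1 y) c₁)
    (b : Bd γ w1 0 (V 1 y) n) : Bd γ w1 (-1 / 3) (fN κ M V y)
      (6 * |mu κ| * a * (γ ^ (-(1 : ℝ) / 3) * n) + 432 * a * (c₀ * c₁) * c₀) := by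
  have hγ0 : 0 < γ := by linarith
  have m0 := mulC_nonneg hγ0 adm_w1 (M 0)
  have m2 := mulC_nonneg hγ0 adm_w1 (M 2)
  have q0 := (hV 0).at y
  have q1 := (hV 1).at y
  have q2 := (nlip_rd2_fcub hV).at y
  have g1 := nlip_gain hγ adm_w1 b
  rw [show (0 : ℝ) - 1 / 3 = -1 / 3 by norm_num] at g1
  have g2 : Bd γ w1 (-1 / 3) (fcub V y) (72 * c₀ * c₀ * c₁) :=
    prod001 hγ0 adm_w1 q0.aesm q0.aesm q1.aesm h₀ h₀ h₁ b₀ b₀ b₁
  have h1 := (peetre hγ0 adm_w1 (by rw [abs_le]; norm_num) (hM 0) q1.aesm (by positivity)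
    g1).const_mul (6 * mu κ)
  have h2 := (peetre hγ0 adm_w1 (by rw [abs_le]; norm_num) (hM 2) q2.aesm (by positivity)
    g2).const_mul 6
  have h3 := Bd.add hγ0 adm_w1 (((hM 0).cv q1).const_mul _).aesm
    (((hM 2).cv q2).const_mul _).aesm (by positivity) (by positivity) h1 h2
  refine h3.mono ?_
  have e1 : ‖(6 * mu κ : ℂ)‖ = 6 * |mu κ| := by simp
  have e2 : ‖(6 : ℂ)‖ = 6 := by simp
  rw [e1, e2]
  calc _ ≤ 6 * |mu κ| * (a * (γ ^ (-(1 : ℝ) / 3) * n)) + 6 * (a * (72 * c₀ * c₀ * c₁)) := by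
        gcongr
        · exact hA 0
        · exact hA 2
    _ = _ := by ring

theorem uapr_main (hL : 0 < L) (hP : P.Valid) (hs : Tiny L κ P γ a n) (h : FP L κ P γ m G ℓ V)
    (hA : ∀ n, mulC γ w1 (mm γ m n) ≤ a)
    (hm : ∀ t, 0 ≤ m t ∧ m t ≤ 1 ∧ Real.exp (γ * t) ^ 2 * m t ≤ 81) (hn : 1 ≤ n)
    (b : SBd L γ w1 V n) {η Q f t₀ : ℝ} (hη : 0 ≤ η) (bl : SBd L γ w1 (linS L P γ G ℓ) η)
    (h₀ : ∀ j, ∀ x ∈ Icc 0 L, ∀ t ≤ t₀, tl 0 (V j x) t = 0) {X q : ℝ → ℝ} {Gr : ℝ → ℝ → ℝ}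
    (hX : SC X) (hX' : ∫ t, |Real.exp (-γ * t) * X t| ≤ 3) (hq : SmI L q) (hQ : nL L q ≤ Q)
    (hGr : SC2 L Gr) (hf : 0 ≤ f) (hfn : n * f ≤ 1)
    (bG : ∀ x ∈ Icc 0 L, Bd γ w1 (-1 / 3) (spec γ (Gr x)) f)
    (hG : ∀ x ∈ Icc 0 L, ∀ t, G x t = X t * q x + Gr x t) : SBd L γ w1 V (kM L a η Q) := by
  obtain ⟨hγ, haa, t1, t2, t4, t5, t6⟩ := hs
  have hγ0 : 0 < γ := zero_lt_one.trans_le hγ.1
  have hn0 : 0 ≤ n := by linarith
  have hM : ∀ n, RD (mm γ m n) := fun n => rd_spec _ h.hm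
  have ha : 0 ≤ a := (mulC_nonneg hγ0 adm_w1 _).trans (hA 0)
  have hρ := rho_pos hγ0
  have hf1 : f ≤ 1 := by nlinarith
  have hk := kN_nonneg κ ha n
  set u := γ ^ (-(1 : ℝ) / 3) with hu
  have hu0 : 0 < u := Real.rpow_pos_of_pos hγ0 _
  have hu1 : u ≤ 1 := Real.rpow_le_one_of_one_le_of_nonpos hγ.1 (by norm_num)
  set n₀ : ℝ → ℝ := fun y => Real.sqrt (sn γ (1 / 3) (V 0 y)) with hn₀
  set n₁ : ℝ → ℝ := fun y => Real.sqrt (sn γ 0 (V 1 y)) with hn₁
  have s₀ := sn_cont (σ := 1 / 3) hγ.1 (by norm_num) (h.rd 0)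
  have s₁ := sn_cont (σ := 0) hγ.1 (by norm_num) (h.rd 1)
  have c₀ : Continuous n₀ := s₀.sqrt
  have c₁ : Continuous n₁ := s₁.sqrt
  have p₀ : ∀ y, 0 ≤ n₀ y := fun y => Real.sqrt_nonneg _
  have p₁ : ∀ y, 0 ≤ n₁ y := fun y => Real.sqrt_nonneg _
  have l₀ : ∀ y ∈ Icc 0 L, n₀ y ≤ n := fun y hy =>
    sn_sqrt_le hγ.1 (by norm_num) ((h.rd 0).at y) hn0 (nlip_sbd0 b hy)
  have l₁ : ∀ y ∈ Icc 0 L, n₁ y ≤ n := fun y hy =>
    sn_sqrt_le hγ.1 (by norm_num) ((h.rd 1).at y) hn0 (nlip_sbd1 b hy)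
  set α : ℝ → ℝ := fun y => 432 * a * (n₀ y * n₁ y) with hα
  have cα : Continuous α := continuous_const.mul (c₀.mul c₁)
  have pα : ∀ y, 0 ≤ α y := fun y => mul_nonneg (by positivity) (mul_nonneg (p₀ y) (p₁ y))
  have lα : ∀ y ∈ Icc 0 L, α y ≤ 432 * a * n ^ 2 := fun y hy =>
    mul_le_mul_of_nonneg_left (by
      rw [sq]
      exact mul_le_mul (l₀ y hy) (l₁ y hy) (p₁ y) hn0) (by positivity)
  set f₀ := 6 * |mu κ| * a * (u * n) with hf₀
  have pf₀ : 0 ≤ f₀ := by positivity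
  set F := kN κ a n * n with hF
  have pF : 0 ≤ F := by positivity
  have cαn : Continuous fun y => α y * n₀ y := cα.mul c₀
  have pαn : ∀ y, 0 ≤ α y * n₀ y := fun y => mul_nonneg (pα y) (p₀ y)
  have fF : ∀ y ∈ Icc 0 L, f₀ + α y * n₀ y ≤ F := by
    intro y hy
    have h1 : α y * n₀ y ≤ 432 * a * n ^ 2 * n :=
      mul_le_mul (lα y hy) (l₀ y hy) (p₀ y) (by positivity)
    have h2 : f₀ ≤ 6 * |mu κ| * a * n :=
      mul_le_mul_of_nonneg_left (mul_le_of_le_one_left hn0 hu1) (by positivity)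
    have h3 : 0 ≤ a * n ^ 2 * n := by positivity
    rw [hF, kN]
    linarith
  have bN : ∀ y ∈ Icc 0 L, Bd γ w1 (-1 / 3) (fN κ (mm γ m) V y) (f₀ + α y * n₀ y) :=
    fun y hy => uapr_N hγ.1 hM hA h.rd (p₀ y) (p₁ y) hn0
      (sn_bd hγ.1 (by norm_num) ((h.rd 0).at y)) (sn_bd hγ.1 (by norm_num) ((h.rd 1).at y))
      (nlip_sbd1 b hy)
  have split : ∀ x, ∫ y in x..L, (f₀ + α y * n₀ y) = (L - x) * f₀ + ∫ y in x..L, α y * n₀ y := by
    intro x
    rw [intervalIntegral.integral_add intervalIntegrable_const (cαn.intervalIntegrable _ _),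
      intervalIntegral.integral_const, smul_eq_mul]
  set I := ∫ y in (0 : ℝ)..L, (f₀ + α y * n₀ y) with hI
  have I0 : 0 ≤ I := intervalIntegral.integral_nonneg hL.le fun y _ => add_nonneg pf₀ (pαn y)
  have I1 : I ≤ L * F := by
    have := intervalIntegral.integral_mono_on hL.le
      ((continuous_const.add cαn).intervalIntegrable _ _)
      (intervalIntegrable_const (μ := volume)) fF
    simpa using this
  have volt : ∀ x ∈ Icc 0 L, ∀ j : Fin 3, Bd γ w1 ((1 - (j : ℝ)) / 3) (V j x)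
      (η + 1 + 28 * Real.exp (-rho γ * x) * I + ∫ y in x..L, α y * n₀ y) := by
    intro x hx j
    refine (uapr_volt hL hP hγ h hA hn0 b hη bl (f := fun y => f₀ + α y * n₀ y)
      (continuous_const.add cαn) (fun y => add_nonneg pf₀ (pαn y)) fF bN hx j).mono ?_
    rw [split x]
    have h1 := t1
    have h2 : 0 ≤ x * f₀ := mul_nonneg hx.1 pf₀
    linarith
  have bL : ∀ j : Fin 3, Bd γ w1 ((1 - (j : ℝ)) / 3) (V j L) (η + 2) := by
    intro j
    refine (volt L ⟨hL.le, le_rfl⟩ j).mono ?_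
    have h1 := t2
    have h2 := mul_le_mul_of_nonneg_left I1
      (by positivity : 0 ≤ 28 * Real.exp (-rho γ * L))
    rw [intervalIntegral.integral_same]
    linarith
  have hQ0 := nL_nonneg L q
  have hQ2 : nL L q ^ 2 ≤ Q ^ 2 := pow_le_pow_left₀ hQ0 hQ 2
  have E₁ : ∫ x in (0 : ℝ)..L, sn γ 0 (V 1 x) ≤ kE L η Q := by
    refine uen_lim hL (h.rd 1) (h.isRe hL hγ 1) hn0 (fun x hx => nlip_sbd1 b hx) (h₀ 1)
      fun t₁ ht => ?_
    refine (uen_fp hL hγ h hm hn0 (by positivity) haa b bL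
      (fun x hx => h₀ 0 x hx t₀ le_rfl) hX hX' hq hGr hf bG hG ht).trans ?_
    have h1 := t4
    have h2 := mul_le_mul_of_nonneg_left hQ2 (by positivity : 0 ≤ 12 * L)
    have h3 := mul_le_mul_of_nonneg_left hfn (by positivity : 0 ≤ 100 * L ^ 2)
    unfold kE
    rw [← hu]
    linarith
  have rg := fptime0_rd2_g hL h
  have E₂ : ∫ x in (0 : ℝ)..L, sn γ (-2 / 3)
      (sym fun τ => specG L γ G x τ + fN κ (mm γ m) V x τ) ≤
      18 * Q ^ 2 + 2 * L * (u * (1 + F)) ^ 2 := by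
    have i2 : IntervalIntegrable (fun x => q x ^ 2) volume 0 L :=
      (hq.cont.pow 2).intervalIntegrable_of_Icc hL.le
    have := intervalIntegral.integral_mono_on hL.le
      ((sn_cont (σ := -2 / 3) hγ.1 (by norm_num) rg).intervalIntegrable _ _)
      ((i2.const_mul 18).add (intervalIntegrable_const (c := 2 * (u * (1 + F)) ^ 2)))
      fun x hx => by
        have rN := (rd2_fN κ hM h.rd).at x
        have r1 := (rd_spec γ hX).const_mul (q x)
        have r2 := rd_spec γ (hGr.at hx)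
        have e : (fun τ => specG L γ G x τ + fN κ (mm γ m) V x τ) = fun τ =>
            (q x : ℂ) * spec γ X τ + (spec γ (Gr x) τ + fN κ (mm γ m) V x τ) := by
          funext τ
          have e1 : G x = fun t => X t * q x + Gr x t := funext (hG x hx)
          rw [specG, cl_of_mem hx, e1, spec_add γ (hX.mul_right contDiff_const) (hGr.at hx),
            spec_mul_const]
          ring
        have b1 := (bd_of_sup hγ0 (by norm_num : (0 : ℝ) ≤ 3) fun τ =>
          (norm_spec_le γ X τ).trans hX').const_mul (q x)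
        have b2 := nlip_gain hγ.1 adm_w1 (Bd.add hγ0 adm_w1 r2.aesm rN.aesm zero_le_one pF
          ((bG x hx).mono hf1) ((bN x hx).mono (fF x hx)))
        rw [show (-1 / 3 - 1 / 3 : ℝ) = -2 / 3 by norm_num] at b2
        have ha0 := aa_nonneg γ
        have b3 := Bd.sym hγ0 adm_w1 (r1.add (r2.add rN)).aesm
          (Bd.add hγ0 adm_w1 r1.aesm (r2.add rN).aesm (by positivity) (by positivity) b1 b2)
        rw [← e] at b3
        refine ((sn_iff hγ.1 (by norm_num) (rg.at x) (by positivity)).1 b3).trans ?_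
        rw [Complex.norm_real, Real.norm_eq_abs, ← sq_abs (q x), ← hu]
        have h1 : |q x| * (3 * aa γ) ≤ |q x| * 3 :=
          mul_le_mul_of_nonneg_left (by linarith [haa]) (abs_nonneg _)
        have h2 : 0 ≤ |q x| * (3 * aa γ) := by positivity
        have h3 : 0 ≤ u * (1 + F) := by positivity
        nlinarith [sq_nonneg (|q x| * (3 * aa γ) - u * (1 + F))]
    rw [intervalIntegral.integral_add (i2.const_mul 18) intervalIntegrable_const,
      intervalIntegral.integral_const_mul, intervalIntegral.integral_const, smul_eq_mul,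
      ← nL_sq hL.le] at this
    linarith
  have E₀ : ∫ x in (0 : ℝ)..L, sn γ (1 / 3) (V 0 x) ≤ 2 * kE L η Q + 45 * Q ^ 2 + 1 := by
    have h1 := uint_main hL hγ.1 (fptime0_isRes hL hγ h) rg hn0 b
    rw [← hu] at h1
    linarith
  have EΛ : ∫ y in (0 : ℝ)..L, α y ≤ kG L a η Q := by
    have := intervalIntegral.integral_mono_on hL.le (cα.intervalIntegrable _ _)
      (((s₀.intervalIntegrable (μ := volume) 0 L).add (s₁.intervalIntegrable 0 L)).const_mul
        (216 * a)) fun y _ => by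
        have h1 : n₀ y ^ 2 = sn γ (1 / 3) (V 0 y) := Real.sq_sqrt (sn_nonneg _ _ _)
        have h2 : n₁ y ^ 2 = sn γ 0 (V 1 y) := Real.sq_sqrt (sn_nonneg _ _ _)
        rw [← h1, ← h2]
        have h3 := mul_nonneg ha (sq_nonneg (n₀ y - n₁ y))
        simp only [hα]
        nlinarith
    rw [intervalIntegral.integral_const_mul (216 * a), intervalIntegral.integral_add
      (s₀.intervalIntegrable 0 L) (s₁.intervalIntegrable 0 L)] at this
    refine this.trans (mul_le_mul_of_nonneg_left (by linarith) (by positivity))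
  have Λ0 : 0 ≤ ∫ y in (0 : ℝ)..L, α y := intervalIntegral.integral_nonneg hL.le fun y _ => pα y
  have ce : Continuous fun y => Real.exp (-rho γ * y) := by fun_prop
  have gr := uapr_gron hL.le cα c₀ (r := fun x => η + 1 + 28 * Real.exp (-rho γ * x) * I)
    (by fun_prop) pα (fun y => by positivity) fun x hx => by
      refine sn_sqrt_le hγ.1 (by norm_num) ((h.rd 0).at x) (add_nonneg (by positivity)
        (intervalIntegral.integral_nonneg hx.2 fun y _ => pαn y)) ?_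
      simpa using volt x hx 0
  have g2 : ∫ y in (0 : ℝ)..L, α y * (η + 1 + 28 * Real.exp (-rho γ * y) * I) ≤
      (η + 1) * kG L a η Q + 1 := by
    have := intervalIntegral.integral_mono_on hL.le
      ((cα.mul (by fun_prop : Continuous fun y =>
        η + 1 + 28 * Real.exp (-rho γ * y) * I)).intervalIntegrable _ _)
      (((cα.intervalIntegrable (μ := volume) 0 L).const_mul (η + 1)).add
        ((ce.intervalIntegrable 0 L).const_mul (28 * (L * F) * (432 * a * n ^ 2))))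
      fun y hy => by
        have h1 : α y * I ≤ 432 * a * n ^ 2 * (L * F) :=
          mul_le_mul (lα y hy) I1 I0 (by positivity)
        have h2 := mul_le_mul_of_nonneg_left h1 (Real.exp_pos (-rho γ * y)).le
        simp only [Pi.mul_apply]
        nlinarith
    rw [intervalIntegral.integral_add ((cα.intervalIntegrable 0 L).const_mul _)
      ((ce.intervalIntegrable 0 L).const_mul _), intervalIntegral.integral_const_mul (η + 1),
      intervalIntegral.integral_const_mul (28 * (L * F) * (432 * a * n ^ 2))] at this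
    have h1 := mul_le_mul_of_nonneg_left EΛ (by positivity : 0 ≤ η + 1)
    have h2 := mul_le_mul_of_nonneg_left (uapr_exp hρ L)
      (by positivity : 0 ≤ 28 * (L * F) * (432 * a * n ^ 2))
    have h3 := t6
    simp only [Pi.mul_apply] at this
    linarith
  have g3 : ∫ y in (0 : ℝ)..L, α y * n₀ y ≤
      Real.exp (kG L a η Q) * ((η + 1) * kG L a η Q + 1) :=
    gr.trans (mul_le_mul (Real.exp_le_exp.2 EΛ) g2
      (intervalIntegral.integral_nonneg hL.le fun y _ => mul_nonneg (pα y) (by positivity))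
      (Real.exp_pos _).le)
  intro x hx j
  refine (volt x hx j).mono ?_
  have h1 : ∫ y in x..L, α y * n₀ y ≤ ∫ y in (0 : ℝ)..L, α y * n₀ y :=
    intervalIntegral.integral_mono_interval hx.1 hx.2 le_rfl (Eventually.of_forall pαn)
      (cαn.intervalIntegrable _ _)
  have h2 : Real.exp (-rho γ * x) * I ≤ I :=
    mul_le_of_le_one_left I0 (Real.exp_le_one_iff.2 (by nlinarith [hx.1]))
  have h3 : I = (L - 0) * f₀ + ∫ y in (0 : ℝ)..L, α y * n₀ y := split 0
  have h4 := t1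
  have h5 : 0 ≤ kB κ P γ a n * n := mul_nonneg (kB_nonneg κ P hγ0 ha hn0) hn0
  have h6 : 0 ≤ F / rho γ := by positivity
  unfold kM
  linarith

end Pool.Agent.Lib.MP_14aec4_an.W
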