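import Pool.Agent.Lib.MP_14aec4_an.Defs2

/-!
Local well-posedness with a time of existence that depends only on the size of the data.
-/

noncomputable section

open Set
open scoped NNReal

namespace Pool.Agent.Lib.MP_14aec4_an

/-- Local well-posedness in `H^s(0,L)`, uniformly on bounded sets of data, boundary data being
given up to time `T`: for every radius `r` there are a time `T₀ ∈ (0,T]` and a constant `C` such that,
on every interval `[0,T']` with `T' ≤ T₀`, each datum of norm at most `r` has a solution in
`C([0,T']; H^s(0,L))`, and any two solutions with data of norm at most `r` differ by at most `C`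
times the distance of their data (uniqueness and Lipschitz continuity of the data-to-solution
map). -/
def UniformlyWellPosed (W V : Set ℝ) (s L T : ℝ) (a b : ℕ → ℕ → ℝ) (k : Fin 4) : Prop :=
  ∀ r : ℝ≥0, ∃ T₀ ∈ Ioc 0 T, ∃ C : ℝ≥0, ∀ T' ∈ Ioc 0 T₀,
    ∀ e, IsData W V s L T k e → dataNorm W V s T k e ≤ r →
      (∃ U, IsSol W V s L T' a b k e U) ∧
      ∀ e', IsData W V s L T k e' → dataNorm W V s T k e' ≤ r →
        ∀ U U', IsSol W V s L T' a b k e U → IsSol W V s L T' a b k e' U' →
          solNorm s L T' (U' - U) ≤ C * dataNorm W V s T k (e' - e)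

end Pool.Agent.Lib.MP_14aec4_an
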