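import Pool.Agent.Lib.MP_14aec4_an.UInt
import Pool.Agent.Lib.MP_14aec4_an.Lin

/-!
The energy identity with the weight `x` for fixed points: a bound on `∫∫ Y_x²`.
-/

noncomputable section

open MeasureTheory Set Filter Topology FourierTransform
open scoped ENNReal ComplexConjugate

namespace Pool.Agent.Lib.MP_14aec4_an.W

lemma uen_space {L γ ξ p ν : ℝ} (hL : 0 < L) (hγ : 0 < γ) (hp : 0 ≤ p) (hν : 0 ≤ ν)
    {y₀ y₁ y₂ yt F q : ℝ → ℝ}
    (c₀ : ContinuousOn y₀ (Icc 0 L)) (c₁ : ContinuousOn y₁ (Icc 0 L))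
    (c₂ : ContinuousOn y₂ (Icc 0 L)) (ct : ContinuousOn yt (Icc 0 L))
    (cF : ContinuousOn F (Icc 0 L)) (cq : ContinuousOn q (Icc 0 L))
    (d₀ : ∀ x ∈ Ioo 0 L, HasDerivAt y₀ (y₁ x) x) (d₁ : ∀ x ∈ Ioo 0 L, HasDerivAt y₁ (y₂ x) x)
    (d₂ : ∀ x ∈ Ioo 0 L, HasDerivAt y₂
      (ξ * q x + F x - p * y₁ x + ν * (y₀ x ^ 2 * y₁ x) - γ * y₀ x - yt x) x) :
    (∫ x in (0 : ℝ)..L, 2 * (x * (y₀ x * yt x))) + 3 * ∫ x in (0 : ℝ)..L, y₁ x ^ 2 ≤
      |ξ| * ((∫ x in (0 : ℝ)..L, x * y₀ x ^ 2) / 6 + 6 * L * nL L q ^ 2) +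
        2 * (∫ x in (0 : ℝ)..L, x * (y₀ x * F x)) + p * (∫ x in (0 : ℝ)..L, y₀ x ^ 2)
        - 2 * (y₀ 0 * y₁ 0) - 2 * L * (y₀ L * y₂ L) + y₀ L ^ 2 + (1 + L) * y₁ L ^ 2
        + ν / 2 * L * y₀ L ^ 4 := by
  have ii : ∀ {g : ℝ → ℝ}, ContinuousOn g (Icc 0 L) → IntervalIntegrable g volume 0 L :=
    fun hg => hg.intervalIntegrable_of_Icc hL.le
  have c3 : ContinuousOn (fun x => 2 * (x * (y₀ x * (ξ * q x + F x))) - 2 * γ * (x * y₀ x ^ 2)
      - 2 * (x * (y₀ x * yt x)) - 3 * y₁ x ^ 2 + p * y₀ x ^ 2 - ν / 2 * y₀ x ^ 4) (Icc 0 L) := by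
    fun_prop
  have h1 := intervalIntegral.integral_eq_sub_of_hasDerivAt_of_le
    (f := fun x => 2 * (x * (y₀ x * y₂ x)) - 2 * (y₀ x * y₁ x) - x * y₁ x ^ 2
      + p * (x * y₀ x ^ 2) - ν / 2 * (x * y₀ x ^ 4)) hL.le (by fun_prop) (fun x hx => by
      refine (((((((hasDerivAt_id x).mul ((d₀ x hx).mul (d₂ x hx))).const_mul 2).sub
        (((d₀ x hx).mul (d₁ x hx)).const_mul 2)).sub
        ((hasDerivAt_id x).mul ((d₁ x hx).pow 2))).add
        (((hasDerivAt_id x).mul ((d₀ x hx).pow 2)).const_mul p)).sub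
        (((hasDerivAt_id x).mul ((d₀ x hx).pow 4)).const_mul (ν / 2))).congr_deriv ?_
      simp only [id, Pi.mul_apply, Pi.pow_apply, Nat.cast_ofNat, Nat.add_one_sub_one, pow_one]
      ring) (ii c3)
  have a1 : IntervalIntegrable (fun x => 2 * (x * (y₀ x * yt x))) volume 0 L := ii (by fun_prop)
  have a2 : IntervalIntegrable (fun x => y₁ x ^ 2) volume 0 L := ii (by fun_prop)
  have a3 : IntervalIntegrable (fun x => x * y₀ x ^ 2) volume 0 L := ii (by fun_prop)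
  have a4 : IntervalIntegrable (fun x => q x ^ 2) volume 0 L := ii (by fun_prop)
  have a5 : IntervalIntegrable (fun x => x * (y₀ x * F x)) volume 0 L := ii (by fun_prop)
  have a6 : IntervalIntegrable (fun x => y₀ x ^ 2) volume 0 L := ii (by fun_prop)
  have h2 := intervalIntegral.integral_mono_on hL.le ((a1.add (a2.const_mul 3)).add (ii c3))
    (((((a3.div_const 6).add (a4.const_mul (6 * L))).const_mul |ξ|).add (a5.const_mul 2)).add
      (a6.const_mul p)) fun x hx => by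
      have h3 : 2 * (x * (y₀ x * (ξ * q x))) ≤ |ξ| * (x * y₀ x ^ 2 / 6 + 6 * L * q x ^ 2) := by
        have h4 : ξ * (y₀ x * q x) ≤ |ξ| * |y₀ x * q x| := by
          rw [← abs_mul]
          exact le_abs_self _
        have h5 : 2 * |y₀ x * q x| ≤ y₀ x ^ 2 / 6 + 6 * q x ^ 2 := by
          rw [abs_mul, ← sq_abs (y₀ x), ← sq_abs (q x)]
          nlinarith [sq_nonneg (|y₀ x| - 6 * |q x|)]
        have h6 := mul_le_mul_of_nonneg_left h5 (mul_nonneg hx.1 (abs_nonneg ξ))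
        have h7 := mul_le_mul_of_nonneg_left h4 hx.1
        have h8 := mul_le_mul_of_nonneg_right hx.2 (mul_nonneg (abs_nonneg ξ) (sq_nonneg (q x)))
        nlinarith
      have h9 : 0 ≤ γ * (x * y₀ x ^ 2) := mul_nonneg hγ.le (mul_nonneg hx.1 (sq_nonneg _))
      have h10 : 0 ≤ ν * y₀ x ^ 4 := by positivity
      nlinarith
  rw [intervalIntegral.integral_add (a1.add (a2.const_mul 3)) (ii c3), h1,
    intervalIntegral.integral_add a1 (a2.const_mul 3),
    intervalIntegral.integral_add ((((a3.div_const 6).add (a4.const_mul (6 * L))).const_mul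
      |ξ|).add (a5.const_mul 2)) (a6.const_mul p),
    intervalIntegral.integral_add (((a3.div_const 6).add (a4.const_mul (6 * L))).const_mul |ξ|)
      (a5.const_mul 2), intervalIntegral.integral_const_mul 3,
    intervalIntegral.integral_const_mul |ξ|, intervalIntegral.integral_const_mul p,
    intervalIntegral.integral_const_mul 2 (fun x => x * (y₀ x * F x)),
    intervalIntegral.integral_add (a3.div_const 6) (a4.const_mul (6 * L)),
    intervalIntegral.integral_div, intervalIntegral.integral_const_mul (6 * L),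
    ← nL_sq hL.le q] at h2
  have h3 : 0 ≤ p * (L * y₀ L ^ 2) := by positivity
  nlinarith [sq_nonneg (y₀ L - y₁ L)]

lemma uen_real {L γ t₂ t₃ K p₀ : ℝ} (hL : 0 < L) (hγ : 0 < γ) (ht : t₂ ≤ t₃)
    {Y₀ Y₁ Y₂ Yt F : ℝ → ℝ → ℝ} {X q p ν : ℝ → ℝ}
    (c₀ : CtOn L (Icc t₂ t₃) Y₀) (c₁ : CtOn L (Icc t₂ t₃) Y₁) (c₂ : CtOn L (Icc t₂ t₃) Y₂)
    (ct : CtOn L (Icc t₂ t₃) Yt) (cF : CtOn L (Icc t₂ t₃) F) (cX : Continuous X)
    (cq : ContinuousOn q (Icc 0 L)) (cν : Continuous ν) (hp : ∀ t, 0 ≤ p t ∧ p t ≤ p₀)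
    (hν : ∀ t, 0 ≤ ν t)
    (d₀ : ∀ x ∈ Ioo 0 L, ∀ t, HasDerivAt (fun y => Y₀ y t) (Y₁ x t) x)
    (d₁ : ∀ x ∈ Ioo 0 L, ∀ t, HasDerivAt (fun y => Y₁ y t) (Y₂ x t) x)
    (d₂ : ∀ x ∈ Ioo 0 L, ∀ t, HasDerivAt (fun y => Y₂ y t)
      (X t * q x + F x t - p t * Y₁ x t + ν t * (Y₀ x t ^ 2 * Y₁ x t) - γ * Y₀ x t - Yt x t) x)
    (dt : ∀ x t, HasDerivAt (fun τ => Y₀ x τ) (Yt x t) t) (h₀ : ∀ x ∈ Icc 0 L, Y₀ x t₂ = 0)
    (hX : ∫ t in t₂..t₃, |X t| ≤ 3)
    (hK : ∀ s ∈ Icc t₂ t₃, 2 * (∫ x in (0 : ℝ)..L, ∫ t in t₂..s, x * (Y₀ x t * F x t)) +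
      p₀ * (∫ x in (0 : ℝ)..L, ∫ t in t₂..s, Y₀ x t ^ 2) - 2 * (∫ t in t₂..s, Y₀ 0 t * Y₁ 0 t)
      - 2 * L * (∫ t in t₂..s, Y₀ L t * Y₂ L t) + (∫ t in t₂..s, Y₀ L t ^ 2)
      + (1 + L) * (∫ t in t₂..s, Y₁ L t ^ 2) + L / 2 * (∫ t in t₂..s, ν t * Y₀ L t ^ 4) ≤ K) :
    ∫ x in (0 : ℝ)..L, ∫ t in t₂..t₃, Y₁ x t ^ 2 ≤ 12 * L * nL L q ^ 2 + 2 / 3 * K := by
  have hL0 : (0 : ℝ) ∈ Icc 0 L := ⟨le_rfl, hL.le⟩
  have hLL : L ∈ Icc 0 L := ⟨hL.le, le_rfl⟩
  have cx : CtOn L (Icc t₂ t₃) fun x _ => x := continuous_fst.continuousOn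
  have c00 : CtOn L (Icc t₂ t₃) fun x t => Y₀ x t ^ 2 := ContinuousOn.pow c₀ 2
  have c11 : CtOn L (Icc t₂ t₃) fun x t => Y₁ x t ^ 2 := ContinuousOn.pow c₁ 2
  have cw : CtOn L (Icc t₂ t₃) fun x t => x * Y₀ x t ^ 2 := energy_mul cx c00
  have c0t : CtOn L (Icc t₂ t₃) fun x t => 2 * (x * (Y₀ x t * Yt x t)) :=
    ContinuousOn.mul continuousOn_const (energy_mul cx (energy_mul c₀ ct))
  have c0F : CtOn L (Icc t₂ t₃) fun x t => x * (Y₀ x t * F x t) := energy_mul cx (energy_mul c₀ cF)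
  have cE := cw.continuousOn_integral hL.le
  obtain ⟨s₀, hs₀, hmax⟩ := isCompact_Icc.exists_isMaxOn (nonempty_Icc.2 ht) cE
  have hE0 : ∀ t, 0 ≤ ∫ x in (0 : ℝ)..L, x * Y₀ x t ^ 2 := fun t =>
    intervalIntegral.integral_nonneg hL.le fun x hx => mul_nonneg hx.1 (sq_nonneg _)
  have hS : ∀ t ∈ Icc t₂ t₃, ∫ x in (0 : ℝ)..L, x * Y₀ x t ^ 2 ≤
      ∫ x in (0 : ℝ)..L, x * Y₀ x s₀ ^ 2 := fun t ht => hmax ht
  have hS0 := hE0 s₀
  have key : ∀ s ∈ Icc t₂ t₃, (∫ x in (0 : ℝ)..L, x * Y₀ x s ^ 2) +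
      3 * ∫ x in (0 : ℝ)..L, ∫ t in t₂..s, Y₁ x t ^ 2 ≤
      (∫ x in (0 : ℝ)..L, x * Y₀ x s₀ ^ 2) / 2 + 18 * L * nL L q ^ 2 + K := by
    intro s hs'
    generalize ∫ x in (0 : ℝ)..L, x * Y₀ x s₀ ^ 2 = S at hS hS0
    have hsub : Icc t₂ s ⊆ Icc t₂ t₃ := Icc_subset_Icc_right hs'.2
    have hsub' : Ioo t₂ s ⊆ Ioo t₂ t₃ := Ioo_subset_Ioo_right hs'.2
    have ii : ∀ {g : ℝ → ℝ}, ContinuousOn g (Icc t₂ t₃) → IntervalIntegrable g volume t₂ s :=
      fun hg => (hg.mono hsub).intervalIntegrable_of_Icc hs'.1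
    have hftc : ∫ t in t₂..s, ∫ x in (0 : ℝ)..L, 2 * (x * (Y₀ x t * Yt x t)) =
        (∫ x in (0 : ℝ)..L, x * Y₀ x s ^ 2) - ∫ x in (0 : ℝ)..L, x * Y₀ x t₂ ^ 2 := by
      refine intervalIntegral.integral_eq_sub_of_hasDerivAt_of_le
        (f := fun t => ∫ x in (0 : ℝ)..L, x * Y₀ x t ^ 2) hs'.1 (cE.mono hsub) (fun t ht => ?_)
        (ii (c0t.continuousOn_integral hL.le))
      refine hasDerivAt_integral_x hL.le cw c0t (fun x _ t _ => ?_) (hsub' ht)
      refine (((dt x t).pow 2).const_mul x).congr_deriv ?_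
      simp only [Nat.cast_ofNat, Nat.add_one_sub_one, pow_one]
      ring
    have hzero : ∫ x in (0 : ℝ)..L, x * Y₀ x t₂ ^ 2 = 0 := by
      rw [intervalIntegral.integral_congr (g := fun _ => 0), intervalIntegral.integral_zero]
      intro x hx
      rw [uIcc_of_le hL.le] at hx
      simp only [h₀ x hx, ne_eq, OfNat.ofNat_ne_zero, not_false_eq_true, zero_pow, mul_zero]
    rw [hzero, sub_zero] at hftc
    have i0 := ii (c0t.continuousOn_integral hL.le)
    have i0' := ii (c11.continuousOn_integral hL.le)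
    have i1 : IntervalIntegrable (fun t => |X t|) volume t₂ s := cX.abs.intervalIntegrable _ _
    have j1 := i1.mul_const (S / 6 + 6 * L * nL L q ^ 2)
    have j2 := (ii (c0F.continuousOn_integral hL.le)).const_mul 2
    have j3 := (ii (c00.continuousOn_integral hL.le)).const_mul p₀
    have j4 := (ii ((energy_mul c₀ c₁).slice_t hL0)).const_mul 2
    have j5 := (ii ((energy_mul c₀ c₂).slice_t hLL)).const_mul (2 * L)
    have j6 := ii (c00.slice_t hLL)
    have j7 := (ii (c11.slice_t hLL)).const_mul (1 + L)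
    have j8 : IntervalIntegrable (fun t => L / 2 * (ν t * Y₀ L t ^ 4)) volume t₂ s :=
      (ii (cν.continuousOn.mul ((c₀.slice_t hLL).pow 4))).const_mul (L / 2)
    have hmono := intervalIntegral.integral_mono_on hs'.1 (i0.add (i0'.const_mul 3))
      (((((((j1.add j2).add j3).sub j4).sub j5).add j6).add j7).add j8) fun t ht => by
        have ht' := hsub ht
        have h1 := uen_space hL hγ (hp t).1 (hν t) (c₀.slice_x ht') (c₁.slice_x ht')
          (c₂.slice_x ht') (ct.slice_x ht') (cF.slice_x ht') cq (fun x hx => d₀ x hx t)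
          (fun x hx => d₁ x hx t) (fun x hx => d₂ x hx t)
        have h2 := mul_le_mul_of_nonneg_left (hS t ht') (abs_nonneg (X t))
        have h3 := mul_le_mul_of_nonneg_right (hp t).2
          (intervalIntegral.integral_nonneg (μ := volume) hL.le fun x _ => sq_nonneg (Y₀ x t))
        linarith
    rw [intervalIntegral.integral_add i0 (i0'.const_mul 3), hftc,
      intervalIntegral.integral_add ((((((j1.add j2).add j3).sub j4).sub j5).add j6).add j7) j8,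
      intervalIntegral.integral_add (((((j1.add j2).add j3).sub j4).sub j5).add j6) j7,
      intervalIntegral.integral_add ((((j1.add j2).add j3).sub j4).sub j5) j6,
      intervalIntegral.integral_sub (((j1.add j2).add j3).sub j4) j5,
      intervalIntegral.integral_sub ((j1.add j2).add j3) j4,
      intervalIntegral.integral_add (j1.add j2) j3, intervalIntegral.integral_add j1 j2,
      intervalIntegral.integral_mul_const, intervalIntegral.integral_const_mul,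
      intervalIntegral.integral_const_mul, intervalIntegral.integral_const_mul,
      intervalIntegral.integral_const_mul, intervalIntegral.integral_const_mul,
      intervalIntegral.integral_const_mul, intervalIntegral.integral_const_mul,
      (energy_mono c11 hsub).integral_swap hL.le hs'.1,
      (energy_mono c0F hsub).integral_swap hL.le hs'.1,
      (energy_mono c00 hsub).integral_swap hL.le hs'.1] at hmono
    have k1 : ∫ t in t₂..s, |X t| ≤ 3 :=
      (intervalIntegral.integral_mono_interval le_rfl hs'.1 hs'.2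
        (Eventually.of_forall fun _ => abs_nonneg _) (cX.abs.intervalIntegrable _ _)).trans hX
    have k2 := mul_le_mul_of_nonneg_right k1
      (by positivity : 0 ≤ S / 6 + 6 * L * nL L q ^ 2)
    have k3 := hK s hs'
    linarith
  have k1 := key s₀ hs₀
  have k2 := key t₃ ⟨ht, le_rfl⟩
  have k3 : 0 ≤ ∫ x in (0 : ℝ)..L, ∫ t in t₂..s₀, Y₁ x t ^ 2 :=
    intervalIntegral.integral_nonneg hL.le fun x _ =>
      intervalIntegral.integral_nonneg hs₀.1 fun t _ => sq_nonneg _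
  have k4 := hE0 t₃
  linarith

variable {L κ γ : ℝ} {P : BC} {m : ℝ → ℝ} {G : ℝ → ℝ → ℝ} {ℓ : Fin 3 → ℝ → ℝ}
  {V : Fin 3 → ℝ → ℝ → ℂ}

lemma uen_fp (hL : 0 < L) (hγ : Big L γ) (h : FP L κ P γ m G ℓ V) {e n c f t₀ t₁ : ℝ}
    (hm : ∀ t, 0 ≤ m t ∧ m t ≤ 1 ∧ Real.exp (γ * t) ^ 2 * m t ≤ e) (hn : 0 ≤ n) (hc : 0 ≤ c)
    (haa : aa γ ≤ 1) (b : SBd L γ w1 V n)
    (bL : ∀ j : Fin 3, Bd γ w1 ((1 - (j : ℝ)) / 3) (V j L) c)
    (h₀ : ∀ x ∈ Icc 0 L, tl 0 (V 0 x) t₀ = 0) {X q : ℝ → ℝ} {Gr : ℝ → ℝ → ℝ} (hX : SC X)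
    (hX' : ∫ t, |Real.exp (-γ * t) * X t| ≤ 3) (hq : SmI L q) (hGr : SC2 L Gr) (hf : 0 ≤ f)
    (bG : ∀ x ∈ Icc 0 L, Bd γ w1 (-1 / 3) (spec γ (Gr x)) f)
    (hG : ∀ x ∈ Icc 0 L, ∀ t, G x t = X t * q x + Gr x t) (ht : t₀ ≤ t₁) :
    ∫ x in (0 : ℝ)..L, ∫ t in t₀..t₁, tl 0 (V 1 x) t ^ 2 ≤ 12 * L * nL L q ^ 2 +
      2 / 3 * (100 * L ^ 2 * (n * f) + (6 * |mu κ| * L + 2) * (γ ^ (-(1 : ℝ) / 3) * n ^ 2) +
        (101 * L + 2) * c ^ 2 + 3 * e * L * c ^ 4) := by
  have hγ0 : 0 < γ := zero_lt_one.trans_le hγ.1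
  have hw0 := mult0_w_nonneg adm_w1
  have i1 := fptime0_isRes hL hγ h
  have rG := rd2_specG hL γ hGr
  have cX : Continuous fun t => Real.exp (-γ * t) * X t := by
    have := hX.1.continuous
    fun_prop
  have cm := h.hm.1.continuous
  have hL0 : (0 : ℝ) ∈ Icc 0 L := ⟨le_rfl, hL.le⟩
  have hmu : mu κ ≤ 0 := by
    unfold mu
    nlinarith [sq_nonneg κ]
  have he : 0 ≤ e := le_trans (mul_nonneg (sq_nonneg _) (hm 0).1) (hm 0).2.2
  set u := γ ^ (-(1 : ℝ) / 3) with hu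
  have hu0 : 0 < u := Real.rpow_pos_of_pos hγ0 _
  have hu1 : u ≤ 1 := Real.rpow_le_one_of_one_le_of_nonpos hγ.1 (by norm_num)
  refine uen_real (K := _) (p₀ := 6 * |mu κ|) hL hγ0 ht
    (Y₀ := fun x t => tl 0 (V 0 x) t) (Y₁ := fun x t => tl 0 (V 1 x) t)
    (Y₂ := fun x t => tl 0 (V 2 x) t) (Yt := fun x t => tl 1 (V 0 x) t)
    (F := fun x t => tl 0 (specG L γ Gr x) t) (X := fun t => Real.exp (-γ * t) * X t) (q := q)
    (p := fun t => 6 * |mu κ| * m t) (ν := fun t => 6 * (Real.exp (γ * t) ^ 2 * m t))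
    (tl_continuous2 (h.rd 0) 0).continuousOn (tl_continuous2 (h.rd 1) 0).continuousOn
    (tl_continuous2 (h.rd 2) 0).continuousOn (tl_continuous2 (h.rd 0) 1).continuousOn
    (tl_continuous2 rG 0).continuousOn cX hq.cont (by fun_prop)
    (fun t => ⟨mul_nonneg (by positivity) (hm t).1,
      mul_le_of_le_one_right (by positivity) (hm t).2.1⟩)
    (fun t => mul_nonneg (by norm_num) (mul_nonneg (sq_nonneg _) (hm t).1))
    (fun x hx t => tl_dx (h.rd 0) (h.rd 1) i1.d0 0 t hx)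
    (fun x hx t => tl_dx (h.rd 1) (h.rd 2) i1.d1 0 t hx) (fun x hx t => ?_)
    (fun x t => tl_hasDerivAt ((h.rd 0).at x) 0 t) h₀ ?_ fun s hs => ?_
  · have hx' := Ioo_subset_Icc_self hx
    refine (fptime0_dx2 hL hγ h 0 t hx).congr_deriv ?_
    rw [(fptime0_T_g hL hγ h hx' t).2, (fptime0_T_fN hL hγ h x t).2, hG x hx' t]
    simp only [specG, cl_of_mem hx']
    rw [tl_spec γ (hGr.at hx'), abs_of_nonpos hmu]
    ring
  · rw [intervalIntegral.integral_of_le ht]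
    refine le_trans (setIntegral_le_integral ?_ (Eventually.of_forall fun _ => abs_nonneg _)) hX'
    exact (cX.integrable_of_hasCompactSupport hX.2.mul_left).abs
  · have low : ∀ {x d : ℝ}, 0 ≤ d → Bd γ w1 (1 / 3) (V 0 x) d →
        ∫ t in t₀..s, tl 0 (V 0 x) t ^ 2 ≤ (u * d) ^ 2 := by
      intro x d hd hb
      have := nlip_gain hγ.1 adm_w1 hb
      rw [sub_self] at this
      exact planch_tl ((h.rd 0).at x) (by positivity) this hs.1
    have k1 : ∫ x in (0 : ℝ)..L, ∫ t in t₀..s, x * (tl 0 (V 0 x) t * tl 0 (specG L γ Gr x) t) ≤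
        L * (50 * n * f) * L := by
      have := intervalIntegral.norm_integral_le_of_norm_le_const (a := 0) (b := L)
        (f := fun x => ∫ t in t₀..s, x * (tl 0 (V 0 x) t * tl 0 (specG L γ Gr x) t))
        (C := L * (50 * n * f)) fun x hx => by
          have hx' : x ∈ Icc 0 L := Ioc_subset_Icc_self (uIoc_of_le hL.le ▸ hx)
          rw [intervalIntegral.integral_const_mul, Real.norm_eq_abs, abs_mul, abs_of_nonneg hx'.1]
          refine mul_le_mul hx'.2 (pair hγ0 ((h.rd 0).at x) (rG.at x) hn hf (nlip_sbd0 b hx') ?_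
            hs.1) (abs_nonneg _) hL.le
          rw [specG, cl_of_mem hx']
          exact bG x hx'
      rw [sub_zero, abs_of_pos hL] at this
      exact (le_abs_self _).trans this
    have k2 : ∫ x in (0 : ℝ)..L, ∫ t in t₀..s, tl 0 (V 0 x) t ^ 2 ≤ (u * n) ^ 2 * L := by
      have := intervalIntegral.norm_integral_le_of_norm_le_const (a := 0) (b := L)
        (f := fun x => ∫ t in t₀..s, tl 0 (V 0 x) t ^ 2) (C := (u * n) ^ 2) fun x hx => by
          have hx' : x ∈ Icc 0 L := Ioc_subset_Icc_self (uIoc_of_le hL.le ▸ hx)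
          rw [Real.norm_of_nonneg (intervalIntegral.integral_nonneg hs.1 fun t _ => sq_nonneg _)]
          exact low hn (nlip_sbd0 b hx')
      rw [sub_zero, abs_of_pos hL] at this
      exact (le_abs_self _).trans this
    have c0 := fun x => tl_continuous ((h.rd 0).at x) 0
    have c1 := fun x => tl_continuous ((h.rd 1).at x) 0
    have k3 : -(2 * ∫ t in t₀..s, tl 0 (V 0 0) t * tl 0 (V 1 0) t) ≤ 2 * (u * n ^ 2) := by
      have a0 : IntervalIntegrable (fun t => tl 0 (V 0 0) t ^ 2) volume t₀ s :=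
        ((c0 0).pow 2).intervalIntegrable _ _
      have a1 : IntervalIntegrable (fun t => tl 0 (V 1 0) t ^ 2) volume t₀ s :=
        ((c1 0).pow 2).intervalIntegrable _ _
      have a2 : IntervalIntegrable (fun t => tl 0 (V 0 0) t * tl 0 (V 1 0) t) volume t₀ s :=
        ((c0 0).mul (c1 0)).intervalIntegrable _ _
      have h1 := intervalIntegral.integral_mono_on hs.1 (a2.const_mul (-(2 * u)))
        (a0.add (a1.const_mul (u ^ 2))) fun t _ => by
          nlinarith [sq_nonneg (tl 0 (V 0 0) t + u * tl 0 (V 1 0) t)]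
      rw [intervalIntegral.integral_add a0 (a1.const_mul _), intervalIntegral.integral_const_mul,
        intervalIntegral.integral_const_mul] at h1
      have h2 := low hn (nlip_sbd0 b hL0)
      have h3 := mul_le_mul_of_nonneg_left
        (planch_tl ((h.rd 1).at 0) hn (nlip_sbd1 b hL0) hs.1) (sq_nonneg u)
      refine le_of_mul_le_mul_left ?_ hu0
      nlinarith
    have b0 : Bd γ w1 (1 / 3) (V 0 L) c := by simpa using bL 0
    have b1 : Bd γ w1 0 (V 1 L) c := by simpa using bL 1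
    have b2 : Bd γ w1 (-1 / 3) (V 2 L) c := by
      have h2 := bL 2
      norm_num at h2 ⊢
      exact h2
    have k4 := mul_le_mul_of_nonneg_left
      (abs_le.1 (pair hγ0 ((h.rd 0).at L) ((h.rd 2).at L) hc hc b0 b2 hs.1)).1 hL.le
    have k5 : ∫ t in t₀..s, tl 0 (V 0 L) t ^ 2 ≤ c ^ 2 :=
      (low hc b0).trans (pow_le_pow_left₀ (by positivity) (mul_le_of_le_one_left hc hu1) 2)
    have k6 := mul_le_mul_of_nonneg_left (planch_tl ((h.rd 1).at L) hc b1 hs.1)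
      (by positivity : 0 ≤ 1 + L)
    have k7 : ∫ t in t₀..s, 6 * (Real.exp (γ * t) ^ 2 * m t) * tl 0 (V 0 L) t ^ 4 ≤
        6 * e * c ^ 4 := by
      have a0 : IntervalIntegrable (fun t => tl 0 (V 0 L) t ^ 4) volume t₀ s :=
        ((c0 L).pow 4).intervalIntegrable _ _
      have cc := c0 L
      refine (intervalIntegral.integral_mono_on hs.1
        (Continuous.intervalIntegrable (by fun_prop) _ _) (a0.const_mul (6 * e)) fun t _ =>
          mul_le_mul_of_nonneg_right (by linarith [(hm t).2.2]) (by positivity)).trans ?_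
      rw [intervalIntegral.integral_const_mul]
      refine mul_le_mul_of_nonneg_left ((planch_tl4 hγ0 ((h.rd 0).at L) hc b0 hs.1).trans
        (mul_le_of_le_one_left (by positivity) (pow_le_one₀ (aa_nonneg γ) haa))) (by positivity)
    have k8 := mul_le_mul_of_nonneg_left k7 (by positivity : 0 ≤ L / 2)
    have k9 := mul_le_mul_of_nonneg_left k2 (by positivity : 0 ≤ 6 * |mu κ|)
    have k10 : 6 * |mu κ| * ((u * n) ^ 2 * L) ≤ 6 * |mu κ| * L * (u * n ^ 2) := by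
      have : u ^ 2 ≤ u := by nlinarith
      calc _ = 6 * |mu κ| * L * (u ^ 2 * n ^ 2) := by ring
        _ ≤ _ := by gcongr
    linarith

/-- Plancherel's identity and exhaustion of the time axis. -/
lemma uen_lim {L γ K t₀ : ℝ} (hL : 0 < L) {F : ℝ → ℝ → ℂ} (hF : RD2 F) (hr : ∀ x, IsRe (F x))
    {n : ℝ} (hn : 0 ≤ n) (b : ∀ x ∈ Icc 0 L, Bd γ w1 0 (F x) n)
    (h₀ : ∀ x ∈ Icc 0 L, ∀ t ≤ t₀, tl 0 (F x) t = 0)
    (h : ∀ t₁, t₀ ≤ t₁ → ∫ x in (0 : ℝ)..L, ∫ t in t₀..t₁, tl 0 (F x) t ^ 2 ≤ K) :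
    ∫ x in (0 : ℝ)..L, sn γ 0 (F x) ≤ K := by
  have hc : Continuous (Function.uncurry fun x t => tl 0 (F x) t ^ 2) :=
    ((tl_continuous2 hF 0).pow 2).congr fun p => rfl
  have hlim : ∀ x ∈ Icc 0 L, Tendsto (fun t₁ => ∫ t in t₀..t₁, tl 0 (F x) t ^ 2) atTop
      (𝓝 (sn γ 0 (F x))) := by
    intro x hx
    have hA := hF.at x
    have hi := mult0_sq_int hA
    have h2 : MemLp (F x) 2 := (memLp_two_iff_integrable_sq_norm hA.aesm).2 hi
    obtain ⟨-, p2⟩ := plancherel (F x) hA.integrable h2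
    have e : ∀ t, ‖𝓕⁻ (F x) t‖ ^ 2 = tl 0 (F x) t ^ 2 := fun t => by
      rw [(hr x).eq, Complex.norm_real, Real.norm_eq_abs, sq_abs]
    have p1 : Integrable fun t => tl 0 (F x) t ^ 2 := by
      simpa only [e] using (mult0_planch hA hn (b x hx)).1
    have e1 : sn γ 0 (F x) = ∫ t, tl 0 (F x) t ^ 2 := by
      simp only [sn, Real.rpow_zero, one_mul, ← e, Real.fourierInv_eq_fourier_neg]
      rw [integral_neg_eq_self (fun ξ => ‖𝓕 (F x) ξ‖ ^ 2), p2]
    have e2 : ∫ t in Ioi t₀, tl 0 (F x) t ^ 2 = ∫ t, tl 0 (F x) t ^ 2 :=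
      setIntegral_eq_integral_of_forall_compl_eq_zero fun t ht => by
        rw [h₀ x hx t (not_lt.1 ht)]
        ring
    rw [e1, ← e2]
    exact intervalIntegral_tendsto_integral_Ioi t₀ p1.integrableOn tendsto_id
  have hT := intervalIntegral.tendsto_integral_filter_of_dominated_convergence
    (μ := volume) (a := 0) (b := L) (l := atTop)
    (F := fun t₁ x => ∫ t in t₀..t₁, tl 0 (F x) t ^ 2) (f := fun x => sn γ 0 (F x))
    (fun _ => n ^ 2)
    (Eventually.of_forall fun t₁ =>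
      (intervalIntegral.continuous_parametric_intervalIntegral_of_continuous'
        (f := fun x t => tl 0 (F x) t ^ 2) hc t₀ t₁).aestronglyMeasurable)
    (by
      filter_upwards [eventually_ge_atTop t₀] with t₁ ht
      refine Eventually.of_forall fun x hx => ?_
      have hx' : x ∈ Icc 0 L := Ioc_subset_Icc_self (uIoc_of_le hL.le ▸ hx)
      rw [Real.norm_of_nonneg (intervalIntegral.integral_nonneg ht fun t _ => sq_nonneg _)]
      exact planch_tl (hF.at x) hn (b x hx') ht)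
    intervalIntegrable_const
    (Eventually.of_forall fun x hx => hlim x (Ioc_subset_Icc_self (uIoc_of_le hL.le ▸ hx)))
  refine le_of_tendsto hT ?_
  filter_upwards [eventually_ge_atTop t₀] with t₁ ht using h t₁ ht

end Pool.Agent.Lib.MP_14aec4_an.W
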