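import Pool.Agent.Lib.MP_14aec4_an.UApr

/-!
Fixed points with large data, by continuation in the size of the data.
-/

noncomputable section

open MeasureTheory Set Filter Topology FourierTransform
open scoped ENNReal ComplexConjugate

namespace Pool.Agent.Lib.MP_14aec4_an.W

lemma uex_qq (p₀ p₁ : ℕ) (E J b : Fin 3 → ℂ) (c : ℂ) (i : Fin 3) :
    qq p₀ p₁ E (fun i => c * J i) (fun i => c * b i) i = c * qq p₀ p₁ E J b i := by
  fin_cases i <;> simp only [qq] <;> simp <;> ring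

lemma uex_jj (L γ : ℝ) (g : ℝ → ℝ → ℂ) (c : ℂ) (i : Fin 3) (x τ : ℝ) :
    jj L γ (fun y τ => c * g y τ) i x τ = c * jj L γ g i x τ := by
  unfold jj
  rw [← intervalIntegral.integral_const_mul]
  congr 1
  funext y
  ring

lemma uex_res (L : ℝ) (P : BC) (γ : ℝ) (g : ℝ → ℝ → ℂ) (β : Fin 3 → ℝ → ℂ) (c : ℂ) (j : Fin 3)
    (x τ : ℝ) : res L P γ (fun y τ => c * g y τ) (fun i τ => c * β i τ) j x τ =
      c * res L P γ g β j x τ := by
  have hq : ∀ i, qres L P γ (fun y τ => c * g y τ) (fun i τ => c * β i τ) τ i =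
      c * qres L P γ g β τ i := by
    intro i
    rw [res_qres, res_qres, ← uex_qq]
    have h1 : resJ L γ (fun y τ => c * g y τ) τ = fun i => c * resJ L γ g τ i :=
      funext fun i => uex_jj L γ g c i _ τ
    have h2 : resB P γ (fun i τ => c * β i τ) τ = fun i => c * resB P γ β τ i :=
      funext fun i => mul_left_comm _ _ _
    rw [h1, h2]
  unfold res
  simp only [hq, uex_jj, Fin.sum_univ_three]
  ring

lemma uex_sc2 {L : ℝ} {G : ℝ → ℝ → ℝ} (hG : SC2 L G) (c : ℝ) : SC2 L fun x t => G x t * c := by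
  obtain ⟨h, R, hR⟩ := hG
  exact ⟨h.mul (SmOn.const c), R, fun x hx t ht => by
    show G x t * c = 0
    rw [hR x hx t ht, zero_mul]⟩

/-- What is needed of the fixed point problem for data of size `R`. -/
structure Good (L κ : ℝ) (P : BC) (γ R M C : ℝ) : Prop where
  big : Big L γ
  aa1 : aa γ ≤ 1
  ex : ∀ (X q : ℝ → ℝ) (Gr G : ℝ → ℝ → ℝ) (ℓ : Fin 3 → ℝ → ℝ) (f t₀ : ℝ), SC X →
    ∫ t, |Real.exp (-γ * t) * X t| ≤ 3 → SmI L q → nL L q ≤ R → SC2 L Gr → 0 ≤ f →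
    (M + 1) * f ≤ 1 → (∀ x ∈ Icc 0 L, Bd γ w1 (-1 / 3) (spec γ (Gr x)) f) →
    (G = fun x t => X t * q x + Gr x t) → (∀ i, SC (ℓ i)) → SBd L γ w1 (linS L P γ G ℓ) R →
    (∀ x ∈ Icc 0 L, ∀ t ≤ t₀, G x t = 0) → (∀ i, ∀ t ≤ t₀, ℓ i t = 0) →
    ∃ V, FP L κ P γ (fun t => cut (γ * t)) G ℓ V ∧ SBd L γ w1 V M ∧
      ∀ j, ∀ x ∈ Icc 0 L, ∀ t ≤ t₀, tl 0 (V j x) t = 0
  diff : ∀ (G G' : ℝ → ℝ → ℝ) (ℓ ℓ' : Fin 3 → ℝ → ℝ) (V V' : Fin 3 → ℝ → ℝ → ℂ) (d : ℝ),
    FP L κ P γ (fun t => cut (γ * t)) G ℓ V → FP L κ P γ (fun t => cut (γ * t)) G' ℓ' V' →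
    SBd L γ w1 V M → SBd L γ w1 V' M → 0 ≤ d →
    SBd L γ w1 (linS L P γ (fun x t => G x t - G' x t) fun i t => ℓ i t - ℓ' i t) d →
    SBd L γ w1 (fun j x τ => V j x τ - V' j x τ) (C * d)
  nl : ∀ (V V' : Fin 3 → ℝ → ℝ → ℂ) (δ : ℝ), (∀ j, RD2 (V j)) → (∀ j, RD2 (V' j)) →
    SBd L γ w1 V M → SBd L γ w1 V' M → 0 ≤ δ → SBd L γ w1 (fun j x τ => V j x τ - V' j x τ) δ →
    ∀ x ∈ Icc 0 L, Bd γ w1 (-1 / 3) (fun τ => fN κ (mm γ fun t => cut (γ * t)) V x τ -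
      fN κ (mm γ fun t => cut (γ * t)) V' x τ) (C * δ)

lemma uex_cut {γ : ℝ} (t : ℝ) :
    0 ≤ cut (γ * t) ∧ cut (γ * t) ≤ 1 ∧ Real.exp (γ * t) ^ 2 * cut (γ * t) ≤ 81 := by
  have h := cut_mem (γ * t)
  refine ⟨h.1, h.2, ?_⟩
  rcases le_total 2 (γ * t) with h1 | h1
  · rw [cut_zero (h1.trans (le_abs_self _))]
    norm_num
  · have h2 : Real.exp (γ * t) ≤ 9 := by
      refine (Real.exp_le_exp.2 h1).trans ?_
      have h3 : Real.exp 2 = Real.exp 1 * Real.exp 1 := by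
        rw [← Real.exp_add]
        norm_num
      have h4 := Real.exp_one_lt_d9
      have h5 := Real.exp_pos 1
      nlinarith
    have h6 := Real.exp_pos (γ * t)
    calc _ ≤ 9 ^ 2 * 1 := mul_le_mul (pow_le_pow_left₀ h6.le h2 2) h.2 h.1 (by norm_num)
      _ = 81 := by norm_num

lemma uex_lin_sub {L γ : ℝ} (hL : 0 < L) (P : BC) {G G' : ℝ → ℝ → ℝ} {ℓ ℓ' : Fin 3 → ℝ → ℝ}
    (hG : SC2 L G) (hG' : SC2 L G') (hℓ : ∀ i, SC (ℓ i)) (hℓ' : ∀ i, SC (ℓ' i)) :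
    linS L P γ (fun x t => G x t - G' x t) (fun i t => ℓ i t - ℓ' i t) =
      res L P γ (fun x τ => specG L γ G x τ - specG L γ G' x τ)
        fun i τ => spec γ (ℓ i) τ - spec γ (ℓ' i) τ := by
  have e1 : specG L γ (fun x t => G x t - G' x t) =
      fun x τ => specG L γ G x τ - specG L γ G' x τ := by
    funext x τ
    exact spec_sub γ (hG.at (cl_mem hL.le x)) (hG'.at (cl_mem hL.le x)) τ
  have e2 : (fun i => spec γ fun t => ℓ i t - ℓ' i t) =
      fun i τ => spec γ (ℓ i) τ - spec γ (ℓ' i) τ := by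
    funext i τ
    exact spec_sub γ (hℓ i) (hℓ' i) τ
  rw [← e1, ← e2]
  rfl

lemma uex_lin_mul {L γ R : ℝ} {P : BC} {G : ℝ → ℝ → ℝ} {ℓ : Fin 3 → ℝ → ℝ}
    (h : SBd L γ w1 (linS L P γ G ℓ) R) (c : ℝ) :
    SBd L γ w1 (linS L P γ (fun x t => G x t * c) fun i t => ℓ i t * c) (|c| * R) := by
  have e1 : specG L γ (fun x t => G x t * c) = fun x τ => (c : ℂ) * specG L γ G x τ := by
    funext x τ
    exact spec_mul_const γ _ c τ
  have e2 : (fun i => spec γ fun t => ℓ i t * c) = fun i τ => (c : ℂ) * spec γ (ℓ i) τ := by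
    funext i τ
    exact spec_mul_const γ _ c τ
  intro x hx j
  have h1 := (h x hx j).const_mul (c : ℂ)
  rw [Complex.norm_real, Real.norm_eq_abs] at h1
  refine nlip_congr h1 fun τ => ?_
  rw [linS, e1, e2]
  exact uex_res L P γ _ _ c j x τ

theorem good_eventually {L : ℝ} (hL : 0 < L) (κ : ℝ) {P : BC} (hP : P.Valid) {R : ℝ}
    (hR : 0 ≤ R) : ∃ M C : ℝ, 1 ≤ M ∧ 1 ≤ C ∧ ∀ᶠ γ in atTop, Good L κ P γ R M C := by
  obtain ⟨A, hA0, hA⟩ := exists_cut_const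
  obtain ⟨i₀, hi₀⟩ := Finite.exists_max A
  obtain ⟨a, ha⟩ : ∃ a, a = A i₀ + 1 := ⟨_, rfl⟩
  have ha0 : 0 ≤ a := by linarith [hA0 i₀]
  obtain ⟨M, hM⟩ : ∃ M, M = kM L a R R := ⟨_, rfl⟩
  have hM1 : 1 ≤ M := by
    have h1 : 0 ≤ kG L a R R := by
      unfold kG kE
      positivity
    have h2 : 0 ≤ Real.exp (kG L a R R) * ((R + 1) * kG L a R R + 1) := by positivity
    rw [hM, kM]
    linarith
  obtain ⟨E, hE⟩ : ∃ E, E = Real.exp (th κ a (M + 3) * L) := ⟨_, rfl⟩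
  have hE0 : 0 < E := hE ▸ Real.exp_pos _
  have hk := kN_nonneg κ ha0 M
  refine ⟨M, 2 * E + kN κ a M + 1, hM1, by linarith, ?_⟩
  filter_upwards [tiny_eventually L κ hL P a (M + 1), larg_eventually L κ P a (M + 3)]
    with γ ht hl
  have hγ := ht.big
  have hγ0 : 0 < γ := zero_lt_one.trans_le hγ.1
  have hm := sc_cut_scale hγ0
  have hMm : ∀ n, RD (mm γ (fun t => cut (γ * t)) n) := fun n => rd_spec _ hm
  have hA1 : ∀ n, mulC γ w1 (mm γ (fun t => cut (γ * t)) n) + 1 ≤ a := fun n => by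
    linarith [hA γ hγ0 n, hi₀ n]
  have hA2 : ∀ n, mulC γ w1 (mm γ (fun t => cut (γ * t)) n) ≤ a := fun n => by linarith [hA1 n]
  refine ⟨hγ, ht.aa1, fun X q Gr G ℓ f t₀ hX hX' hq hQ hGr hf hfM bG hG hℓ bl z₁ z₂ => ?_,
    fun G G' ℓ ℓ' V V' d h h' b b' hd bl => ?_, fun V V' δ hV hV' b b' hδ bd x hx => ?_⟩
  · have sG : SC2 L G := hG ▸ (SC2.prod hX hq).add hGr
    obtain ⟨N, hN⟩ := exists_nat_ge (2 * (R + 1) * E + 1)
    have hN0 : (0 : ℝ) < N := by
      have : 0 ≤ 2 * (R + 1) * E := by positivity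
      linarith
    have hd : 0 < (R + 1) / N := by positivity
    have hdE : 2 * ((R + 1) / N) * E ≤ 1 := by
      rw [← mul_div_assoc, div_mul_eq_mul_div, div_le_one hN0]
      linarith
    have key : ∀ k : ℕ, k ≤ N → ∃ V, FP L κ P γ (fun t => cut (γ * t))
        (fun x t => G x t * (k / N)) (fun i t => ℓ i t * (k / N)) V ∧ SBd L γ w1 V M ∧
        ∀ j, ∀ x ∈ Icc 0 L, ∀ t ≤ t₀, tl 0 (V j x) t = 0 := by
      intro k
      induction k with
      | zero =>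
        intro _
        refine ⟨fun _ _ _ => 0, ?_, fix_sbd_zero _ _ _ _, fun _ _ _ t _ => tl_zero_fun 0 t⟩
        simpa using fp_zero L κ P γ hm
      | succ k ih =>
        intro hk
        obtain ⟨V', h', b', z'⟩ := ih (Nat.le_of_succ_le hk)
        set s : ℝ := ((k + 1 : ℕ) : ℝ) / N with hs
        have hs0 : 0 ≤ s := by positivity
        have hs1 : s ≤ 1 := by
          rw [hs, div_le_one hN0]
          exact_mod_cast hk
        have sG1 := uex_sc2 sG s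
        have sℓ1 : ∀ i, SC fun t => ℓ i t * s := fun i => (hℓ i).mul_right contDiff_const
        have bl' := uex_lin_mul bl (1 / N)
        have e1 : (fun x t => G x t * (1 / (N : ℝ))) =
            fun x t => G x t * s - G x t * (k / N) := by
          funext x t
          rw [hs]
          push_cast
          ring
        have e2 : (fun i t => ℓ i t * (1 / (N : ℝ))) =
            fun i t => ℓ i t * s - ℓ i t * (k / N) := by
          funext i t
          rw [hs]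
          push_cast
          ring
        rw [e1, e2, uex_lin_sub hL P sG1 h'.hG sℓ1 h'.hℓ] at bl'
        obtain ⟨V, hV, e, b, z⟩ := ufix_step hL hP hγ hMm (fun n => isRe_spec _ hm) hA1 hl
          (rd2_specG hL γ sG1) (rd2_specG hL γ h'.hG) (fun i => rd_spec γ (sℓ1 i))
          (fun i => rd_spec γ (h'.hℓ i)) h'.rd h'.fix (by linarith) hd b'
          (by rw [← hE]; linarith) (fix_sbd_mono bl' (by
            rw [abs_of_pos (by positivity), one_div_mul_eq_div]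
            gcongr
            linarith)) (t₀ := t₀)
          (fun x _ t ht => by
            rw [specG, tl_spec γ (sG1.at (cl_mem hL.le x)), z₁ _ (cl_mem hL.le x) t ht, zero_mul,
              mul_zero])
          (fun i t ht => by rw [tl_spec γ (sℓ1 i), z₂ i t ht, zero_mul, mul_zero]) z'
        have h : FP L κ P γ (fun t => cut (γ * t)) (fun x t => G x t * s)
            (fun i t => ℓ i t * s) V := ⟨hm, sG1, sℓ1, hV, e⟩
        refine ⟨V, h, ?_, z⟩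
        rw [hM]
        refine uapr_main hL hP ht h hA2 uex_cut (by linarith)
          (fix_sbd_mono b (by rw [← hE]; linarith)) hR
          (fix_sbd_mono (uex_lin_mul bl s) (by
            rw [abs_of_nonneg hs0]
            exact mul_le_of_le_one_left hR hs1)) z hX hX' (q := fun x => s * q x)
          (contDiffOn_const.mul hq) (by
            rw [nL_const_mul, abs_of_nonneg hs0]
            exact (mul_le_of_le_one_left (nL_nonneg _ _) hs1).trans hQ)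
          (uex_sc2 hGr s) hf hfM (fun x hx => ?_) fun x _ t => ?_
        · have h1 := (bG x hx).const_mul (s : ℂ)
          rw [Complex.norm_real, Real.norm_of_nonneg hs0] at h1
          exact nlip_congr (h1.mono (mul_le_of_le_one_left hf hs1)) (spec_mul_const γ _ s)
        · rw [hG]
          ring
    simpa only [div_self hN0.ne', mul_one] using key N le_rfl
  · rw [uex_lin_sub hL P h.hG h'.hG h.hℓ h'.hℓ] at bl
    refine fix_sbd_mono (ufix_diff hL hP hγ hMm hA2 hl (rd2_specG hL γ h.hG)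
      (rd2_specG hL γ h'.hG) (fun i => rd_spec γ (h.hℓ i)) (fun i => rd_spec γ (h'.hℓ i)) h.rd
      h'.rd h.fix h'.fix (by linarith) (fix_sbd_mono b (by linarith))
      (fix_sbd_mono b' (by linarith)) hd bl) ?_
    rw [← hE]
    nlinarith
  · exact (ulip_N hγ.1 adm_w1 hMm hA2 hV hV' (by linarith) hδ (b x hx) (b' x hx)
      (bd x hx)).mono (mul_le_mul_of_nonneg_right (by linarith) hδ)

variable {L κ γ : ℝ} {P : BC} {m : ℝ → ℝ} {G G' : ℝ → ℝ → ℝ}
  {ℓ ℓ' : Fin 3 → ℝ → ℝ} {V V' : Fin 3 → ℝ → ℝ → ℂ}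

theorem ufp_energy (hL : 0 < L) (hγ : Big L γ) (h : FP L κ P γ m G ℓ V)
    (h' : FP L κ P γ m G' ℓ' V') {δ δ' f t₀ : ℝ} (hδ : 0 ≤ δ) (hδ' : 0 ≤ δ')
    (bd : SBd L γ w1 (fun j x τ => V j x τ - V' j x τ) δ)
    (nl : ∀ x ∈ Icc 0 L, Bd γ w1 (-1 / 3)
      (fun τ => fN κ (mm γ m) V x τ - fN κ (mm γ m) V' x τ) δ')
    (h₀ : ∀ x ∈ Icc 0 L, tl 0 (V 0 x) t₀ = tl 0 (V' 0 x) t₀) {X q : ℝ → ℝ} {Gr : ℝ → ℝ → ℝ}
    (hX : SC X) (hX' : ∫ t, |Real.exp (-γ * t) * X t| ≤ 3) (hq : SmI L q) (hGr : SC2 L Gr)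
    (hf : 0 ≤ f) (bG : ∀ x ∈ Icc 0 L, Bd γ w1 (-1 / 3) (spec γ (Gr x)) f)
    (hG : ∀ x ∈ Icc 0 L, ∀ t, G x t - G' x t = X t * q x + Gr x t) {t : ℝ} (ht : t₀ ≤ t) :
    nL L (fun x => tl 0 (V 0 x) t - tl 0 (V' 0 x) t) ≤
      6 * nL L q + 20 * (1 + L) * (δ + δ' + f) := by
  have hγ0 : 0 < γ := zero_lt_one.trans_le hγ.1
  have hM : ∀ n, RD (mm γ m n) := fun n => rd_spec _ h.hm
  have rW : ∀ j, RD2 fun x τ => V j x τ - V' j x τ := fun j => (h.rd j).sub (h'.rd j)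
  have rg := rd2_specG hL γ h.hG
  have rg' := rd2_specG hL γ h'.hG
  have rG := rd2_specG hL γ hGr
  have rN := rd2_fN κ hM h.rd
  have rN' := rd2_fN κ hM h'.rd
  have rB : RD2 fun x τ => specG L γ Gr x τ + (fN κ (mm γ m) V x τ - fN κ (mm γ m) V' x τ) :=
    rG.add (rN.sub rN')
  have i1 := isRes_Phi hL κ P hγ hM rg (fun i => rd_spec γ (h.hℓ i)) h.rd
  have i2 := isRes_Phi hL κ P hγ hM rg' (fun i => rd_spec γ (h'.hℓ i)) h'.rd
  rw [h.fix] at i1
  rw [h'.fix] at i2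
  have cX : Continuous fun t => Real.exp (-γ * t) * X t := by
    have := hX.1.continuous
    fun_prop
  have key := energy (t₂ := t₀) (t₃ := t) (n := δ) (f := f + δ') (ξ := 3) hL hγ0 ht hδ
    (by positivity)
    (Y₀ := fun x t => tl 0 (fun τ => V 0 x τ - V' 0 x τ) t)
    (Y₁ := fun x t => tl 0 (fun τ => V 1 x τ - V' 1 x τ) t)
    (Y₂ := fun x t => tl 0 (fun τ => V 2 x τ - V' 2 x τ) t)
    (Yt := fun x t => tl 1 (fun τ => V 0 x τ - V' 0 x τ) t)
    (F := fun x t =>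
      tl 0 (fun τ => specG L γ Gr x τ + (fN κ (mm γ m) V x τ - fN κ (mm γ m) V' x τ)) t)
    (X := fun t => Real.exp (-γ * t) * X t) (q := q)
    (tl_continuous2 (rW 0) 0).continuousOn (tl_continuous2 (rW 1) 0).continuousOn
    (tl_continuous2 (rW 2) 0).continuousOn (tl_continuous2 (rW 0) 1).continuousOn
    (tl_continuous2 rB 0).continuousOn cX.continuousOn hq.cont
    (fun x hx s _ => tl_dx (rW 0) (rW 1) (fun y hy τ => (i1.d0 y hy τ).sub (i2.d0 y hy τ)) 0 s hx)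
    (fun x hx s _ => tl_dx (rW 1) (rW 2) (fun y hy τ => (i1.d1 y hy τ).sub (i2.d1 y hy τ)) 0 s hx)
    (fun x hx s _ => ?_) (fun x _ s _ => tl_hasDerivAt ((rW 0).at x) 0 s) (fun x hx => ?_)
    (fun x hx => ⟨_, _, _, _, (rW 0).at x, (rW 1).at x, (rW 2).at x, rB.at x, ?_, ?_, ?_, ?_,
      fun _ _ => ⟨rfl, rfl, rfl, rfl⟩⟩) ?_ t ⟨ht, le_rfl⟩
  · have e : (fun x => tl 0 (V 0 x) t - tl 0 (V' 0 x) t) =
        fun x => tl 0 (fun τ => V 0 x τ - V' 0 x τ) t :=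
      funext fun x => (tl_sub ((h.rd 0).at x) ((h'.rd 0).at x) 0 t).symm
    rw [e]
    linarith
  · have r1 := ((rg.add rN).sym).sub ((h.rd 0).sv_mul γ)
    have r2 := ((rg'.add rN').sym).sub ((h'.rd 0).sv_mul γ)
    have d := tl_dx (rW 2) (r1.sub r2) (fun y hy τ => (i1.d2 y hy τ).sub (i2.d2 y hy τ)) 0 s hx
    have hx' := Ioo_subset_Icc_self hx
    refine d.congr_deriv ?_
    have a0 := (h.rd 0).at x
    have a0' := (h'.rd 0).at x
    rw [tl_sub (r1.at x) (r2.at x), tl_sub ((rg.add rN).sym.at x) (a0.sv_mul γ),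
      tl_sub ((rg'.add rN').sym.at x) (a0'.sv_mul γ), tl_sv_mul a0, tl_sv_mul a0',
      tl_sym ((rg.add rN).at x), tl_sym ((rg'.add rN').at x), tl_add (rg.at x) (rN.at x),
      tl_add (rg'.at x) (rN'.at x), tl_add (rG.at x) ((rN.sub rN').at x),
      tl_sub (rN.at x) (rN'.at x), tl_sub a0 a0', tl_sub a0 a0']
    simp only [specG, cl_of_mem hx']
    rw [tl_spec γ (h.hG.at hx'), tl_spec γ (h'.hG.at hx'), tl_spec γ (hGr.at hx')]
    linear_combination Real.exp (-γ * s) * hG x hx' s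
  · rw [tl_sub ((h.rd 0).at x) ((h'.rd 0).at x), h₀ x hx, sub_self]
  · simpa using bd x hx 0
  · simpa using bd x hx 1
  · have h2 := bd x hx 2
    norm_num at h2 ⊢
    exact h2
  · refine Bd.add hγ0 adm_w1 (rG.at x).aesm ((rN.sub rN').at x).aesm hf hδ' ?_ (nl x hx)
    rw [specG, cl_of_mem hx]
    exact bG x hx
  · rw [intervalIntegral.integral_of_le ht]
    refine le_trans (setIntegral_le_integral ?_ (Eventually.of_forall fun _ => abs_nonneg _)) hX'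
    exact (cX.integrable_of_hasCompactSupport hX.2.mul_left).abs

end Pool.Agent.Lib.MP_14aec4_an.W
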