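import Pool.Agent.Lib.MP_14aec4_an.URes

/-!
The fixed point map is a contraction on large balls for a norm with an exponential weight in `x`.
-/

noncomputable section

open MeasureTheory Set Filter Topology FourierTransform
open scoped ENNReal ComplexConjugate

namespace Pool.Agent.Lib.MP_14aec4_an.W

variable {L κ γ δ a n : ℝ} {P : BC} {w : ℝ → ℝ} {M : Fin 3 → ℝ → ℂ}
  {g g' : ℝ → ℝ → ℂ} {β β' : Fin 3 → ℝ → ℂ} {V V' : Fin 3 → ℝ → ℝ → ℂ}

/-- The Lipschitz constant of the interior nonlinearity. -/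
def kN (κ a n : ℝ) : ℝ := 6 * |mu κ| * a + 1296 * a * n ^ 2

/-- The size of the coefficients of the boundary operator. -/
def sB (P : BC) : ℝ := ∑ i, (|P.α i| + |P.β i| + |P.ζ i|)

/-- The Lipschitz constant of the boundary nonlinearity. -/
def kB (κ : ℝ) (P : BC) (γ a n : ℝ) : ℝ :=
  a * ((sB P + 6 * |mu κ| + 1296 * n ^ 2) * γ ^ (-(1 : ℝ) / 3) + (4 * sB P + 12) * (aa γ * n))

/-- The rate of the weight. -/
def th (κ a n : ℝ) : ℝ := 116 * kN κ a n + 1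

/-- The condition on `γ` for states of size `n`. -/
def Larg (L κ : ℝ) (P : BC) (γ a n : ℝ) : Prop :=
  th κ a n ≤ rho γ ∧
    Real.exp (th κ a n * L) * (42 * kB κ P γ a n + 16 * (kN κ a n / rho γ)) ≤ 1 / 4

/-- The bound with an exponential weight in `x`. -/
def XBd (L γ : ℝ) (w : ℝ → ℝ) (θ : ℝ) (V : Fin 3 → ℝ → ℝ → ℂ) (c : ℝ) : Prop :=
  ∀ x ∈ Icc 0 L, ∀ j : Fin 3, Bd γ w ((1 - (j : ℝ)) / 3) (V j x) (c * Real.exp (θ * (L - x)))

lemma sB_nonneg (P : BC) : 0 ≤ sB P := Finset.sum_nonneg fun i _ => by positivity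

lemma kN_nonneg (κ : ℝ) (ha : 0 ≤ a) (n : ℝ) : 0 ≤ kN κ a n := by
  unfold kN
  positivity

lemma kB_nonneg (κ : ℝ) (P : BC) (hγ : 0 < γ) (ha : 0 ≤ a) (hn : 0 ≤ n) : 0 ≤ kB κ P γ a n := by
  have := sB_nonneg P
  have := aa_nonneg γ
  unfold kB
  positivity

lemma th_pos (κ : ℝ) (ha : 0 ≤ a) (n : ℝ) : 0 < th κ a n := by
  have := kN_nonneg κ ha n
  unfold th
  positivity

lemma SBd.xbd {θ c : ℝ} (h : SBd L γ w V c) (hθ : 0 ≤ θ) (hc : 0 ≤ c) : XBd L γ w θ V c :=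
  fun x hx j => (h x hx j).mono (le_mul_of_one_le_right hc
    (Real.one_le_exp (mul_nonneg hθ (by linarith [hx.2]))))

lemma XBd.sbd {θ c : ℝ} (h : XBd L γ w θ V c) (hθ : 0 ≤ θ) (hc : 0 ≤ c) :
    SBd L γ w V (c * Real.exp (θ * L)) :=
  fun x hx j => (h x hx j).mono (mul_le_mul_of_nonneg_left
    (Real.exp_le_exp.2 (mul_le_mul_of_nonneg_left (by linarith [hx.1]) hθ)) hc)

lemma XBd.mono {θ c c' : ℝ} (h : XBd L γ w θ V c) (hc : c ≤ c') : XBd L γ w θ V c' :=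
  fun x hx j => (h x hx j).mono (mul_le_mul_of_nonneg_right hc (Real.exp_pos _).le)

/-- The interior nonlinearity at a point. -/
lemma ulip_N (hγ : 1 ≤ γ) (hw : Adm w) (hM : ∀ n, RD (M n)) (hA : ∀ n, mulC γ w (M n) ≤ a)
    (hV : ∀ j, RD2 (V j)) (hV' : ∀ j, RD2 (V' j)) (hn : 0 ≤ n) (hδ : 0 ≤ δ) {y : ℝ}
    (b : ∀ j : Fin 3, Bd γ w ((1 - (j : ℝ)) / 3) (V j y) n)
    (b' : ∀ j : Fin 3, Bd γ w ((1 - (j : ℝ)) / 3) (V' j y) n)
    (bd : ∀ j : Fin 3, Bd γ w ((1 - (j : ℝ)) / 3) (fun τ => V j y τ - V' j y τ) δ) :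
    Bd γ w (-1 / 3) (fun τ => fN κ M V y τ - fN κ M V' y τ) (kN κ a n * δ) := by
  have hγ0 : 0 < γ := by linarith
  have hw0 : ∀ τ, 0 ≤ w τ := fun τ => zero_le_one.trans (hw.one_le τ)
  have m0 := mulC_nonneg hγ0 hw (M 0)
  have m2 := mulC_nonneg hγ0 hw (M 2)
  have q1 := ((hV 1).at y).sub ((hV' 1).at y)
  have q2 := ((nlip_rd2_fcub hV).at y).sub ((nlip_rd2_fcub hV').at y)
  have g0 : Bd γ w 0 (fun τ => V 1 y τ - V' 1 y τ) δ := by simpa using bd 1
  have g1 : Bd γ w (-1 / 3) (fun τ => V 1 y τ - V' 1 y τ) δ :=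
    g0.lower_one hγ hw0 (by norm_num)
  have g2 : Bd γ w (-1 / 3) (fun τ => fcub V y τ - fcub V' y τ) (216 * (n ^ 2 * δ)) :=
    nlip_dcub (L := 0) (V := fun j _ => V j y) (V' := fun j _ => V' j y) (x := 0) hγ hw
      (fun j => ((hV j).at y).rd2) (fun j => ((hV' j).at y).rd2) hn (fun _ _ j => b j)
      (fun _ _ j => b' j) hδ (fun _ _ j => bd j) ⟨le_rfl, le_rfl⟩
  have h1 := (peetre hγ0 hw (by rw [abs_le]; norm_num) (hM 0) q1.aesm hδ g1).const_mul
    (6 * mu κ)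
  have h2 := (peetre hγ0 hw (by rw [abs_le]; norm_num) (hM 2) q2.aesm (by positivity)
    g2).const_mul 6
  have h3 := Bd.add hγ0 hw (((hM 0).cv q1).const_mul _).aesm (((hM 2).cv q2).const_mul _).aesm
    (by positivity) (by positivity) h1 h2
  refine nlip_congr (h3.mono ?_) (nlip_fN_diff κ hM hV hV' y)
  have e1 : ‖(6 * mu κ : ℂ)‖ = 6 * |mu κ| := by simp
  have e2 : ‖(6 : ℂ)‖ = 6 := by simp
  rw [e1, e2]
  calc _ ≤ 6 * |mu κ| * (a * δ) + 6 * (a * (216 * (n ^ 2 * δ))) := by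
        gcongr
        · exact hA 0
        · exact hA 2
    _ = _ := by unfold kN; ring

/-- The boundary nonlinearity. -/
lemma ulip_B (hL : 0 < L) (hP : P.Valid) (hγ : 1 ≤ γ) (hw : Adm w) (hM : ∀ n, RD (M n))
    (hA : ∀ n, mulC γ w (M n) ≤ a) (hV : ∀ j, RD2 (V j)) (hV' : ∀ j, RD2 (V' j)) (hn : 0 ≤ n)
    (hδ : 0 ≤ δ) (b : SBd L γ w V n) (b' : SBd L γ w V' n)
    (bd : SBd L γ w (fun j x τ => V j x τ - V' j x τ) δ) (i : Fin 3) :
    Bd γ w (P.σ i) (fun τ => fB L κ P M V i τ - fB L κ P M V' i τ) (kB κ P γ a n * δ) := by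
  have hγ0 : 0 < γ := by linarith
  have ha := aa_nonneg γ
  have m0 := mulC_nonneg hγ0 hw (M 0)
  have m1 := mulC_nonneg hγ0 hw (M 1)
  have m2 := mulC_nonneg hγ0 hw (M 2)
  have ha0 : 0 ≤ a := m0.trans (hA 0)
  have hσ := nlip_abs_sigma P i
  have q1 := (nlip_rd_fL L κ P hV i).sub (nlip_rd_fL L κ P hV' i)
  have q2 := (nlip_rd_fQ L P hV i).sub (nlip_rd_fQ L P hV' i)
  have q3 := (nlip_rd_fC L P hV i).sub (nlip_rd_fC L P hV' i)
  have dC : Bd γ w (P.σ i) (fun τ => fC L P V i τ - fC L P V' i τ)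
      (1296 * (γ ^ (-(1 : ℝ) / 3) * (n ^ 2 * δ))) := by
    have h1 := nlip_coef (σ := P.σ i) (z := -(P.dyn i : ℂ) * 6) (K := 6) hγ hw (by positivity)
      (by
        unfold BC.dyn
        split_ifs
        · simp
        · simp) (by
      rcases nlip_sigma P i with ⟨hj, hs⟩ | ⟨hj, hs⟩ | ⟨hj, hs⟩
      · left; simp [BC.dyn, hj]
      · left; simp [BC.dyn, hj]
      · right; rw [hs]; norm_num)
      (nlip_gain hγ hw (nlip_dcub hγ hw hV hV' hn b b' hδ bd (ept_mem hL.le i)))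
    refine nlip_congr (h1.mono (le_of_eq (by ring))) (fun τ => ?_)
    unfold fC
    ring
  have h1 := peetre hγ0 hw hσ (hM 0) q1.aesm (by positivity)
    (nlip_dL hγ hw hV hV' hδ bd hL κ hP i)
  have h2 := peetre hγ0 hw hσ (hM 1) q2.aesm (by positivity)
    (nlip_dQ hγ hw hV hV' hn b b' hδ bd hL hP i)
  have h3 := peetre hγ0 hw hσ (hM 2) q3.aesm (by positivity) dC
  have h4 := Bd.add hγ0 hw (((hM 0).cv q1).add ((hM 1).cv q2)).aesm ((hM 2).cv q3).aesm
    (by positivity) (by positivity)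
    (Bd.add hγ0 hw ((hM 0).cv q1).aesm ((hM 1).cv q2).aesm (by positivity) (by positivity) h1 h2)
    h3
  refine nlip_congr (h4.mono ?_) (nlip_fB_diff L κ P hM hV hV' i)
  have hS : |P.α i| + |P.β i| + |P.ζ i| ≤ sB P :=
    Finset.single_le_sum (f := fun i => |P.α i| + |P.β i| + |P.ζ i|) (fun _ _ => by positivity)
      (Finset.mem_univ i)
  have p1 := abs_nonneg (P.α i)
  have p2 := abs_nonneg (P.β i)
  calc _ ≤ a * ((sB P + 6 * |mu κ|) * (γ ^ (-(1 : ℝ) / 3) * δ)) +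
        a * ((4 * sB P + 12) * (aa γ * n * δ)) +
        a * (1296 * (γ ^ (-(1 : ℝ) / 3) * (n ^ 2 * δ))) := by
        gcongr
        · exact hA 0
        · exact hA 1
        · linarith
        · exact hA 2
    _ = _ := by unfold kB; ring

lemma ufix_int {θ x : ℝ} (hθ : 0 < θ) (L : ℝ) {c : ℝ} (hc : 0 ≤ c) :
    ∫ y in x..L, c * Real.exp (θ * (L - y)) ≤ c / θ * Real.exp (θ * (L - x)) := by
  have d : ∀ y ∈ uIcc x L, HasDerivAt (fun y => -(c / θ) * Real.exp (θ * (L - y)))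
      (c * Real.exp (θ * (L - y))) y := by
    intro y _
    have h1 : HasDerivAt (fun y : ℝ => θ * (L - y)) (-θ) y := by
      simpa using ((hasDerivAt_id y).const_sub L).const_mul θ
    refine (h1.exp.const_mul (-(c / θ))).congr_deriv ?_
    field_simp
  rw [intervalIntegral.integral_eq_sub_of_hasDerivAt d
    (Continuous.intervalIntegrable (by fun_prop) _ _)]
  have : 0 ≤ c / θ * Real.exp (θ * (L - L)) := by positivity
  linarith

theorem Phi_ulip (hL : 0 < L) (hP : P.Valid) (hγ : Big L γ) (hw : Adm w) (hM : ∀ n, RD (M n))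
    (hA : ∀ n, mulC γ w (M n) ≤ a) (hs : Larg L κ P γ a n) (hg : RD2 g) (hg' : RD2 g')
    (hβ : ∀ i, RD (β i)) (hβ' : ∀ i, RD (β' i)) (hV : ∀ j, RD2 (V j)) (hV' : ∀ j, RD2 (V' j))
    (hn : 0 ≤ n) (b : SBd L γ w V n) (b' : SBd L γ w V' n) (hδ : 0 ≤ δ)
    (bd : XBd L γ w (th κ a n) (fun j x τ => V j x τ - V' j x τ) δ) {d : ℝ} (hd : 0 ≤ d)
    (bl : SBd L γ w (res L P γ (fun x τ => g x τ - g' x τ) fun i τ => β i τ - β' i τ) d) :
    XBd L γ w (th κ a n)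
      (fun j x τ => Phi L κ P γ M g β V j x τ - Phi L κ P γ M g' β' V' j x τ) (d + δ / 2) := by
  have hγ0 : 0 < γ := one_pos.trans_le hγ.1
  have ha : 0 ≤ a := (mulC_nonneg hγ0 hw (M 0)).trans (hA 0)
  have hθ := th_pos κ ha n
  have hk := kN_nonneg κ ha n
  have hk' := kB_nonneg κ P hγ0 ha hn
  have hρ := rho_pos hγ0
  have hN := (rd2_fN κ hM hV).sub (rd2_fN κ hM hV')
  have hB : ∀ i, RD fun τ => fB L κ P M V i τ - fB L κ P M V' i τ := fun i =>
    (rd_fB L κ P hM hV i).sub (rd_fB L κ P hM hV' i)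
  have r1 := (isRes_res hL hγ P (hg.sub hg') fun i => (hβ i).sub (hβ' i)).rd
  have r2 := (isRes_res hL hγ P hN hB).rd
  set θ := th κ a n with hθd
  intro x hx j
  have h2 := ures_bd hL hγ P hw hN hB (b := kB κ P γ a n * (δ * Real.exp (θ * L)))
    (by positivity)
    (fun i => ulip_B hL hP hγ.1 hw hM hA hV hV' hn (by positivity) b b' (bd.sbd hθ.le hδ) i)
    (f := fun y => kN κ a n * δ * Real.exp (θ * (L - y)))
    (F := kN κ a n * δ * Real.exp (θ * L)) (by fun_prop) (fun y => by positivity)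
    (fun y hy => mul_le_mul_of_nonneg_left (Real.exp_le_exp.2
      (mul_le_mul_of_nonneg_left (by linarith [hy.1]) hθ.le)) (by positivity))
    (fun y hy => (ulip_N hγ.1 hw hM hA hV hV' hn (by positivity) (b y hy) (b' y hy)
      (bd y hy)).mono (le_of_eq (by ring))) hx j
  change Bd γ w _ (fun τ => Phi L κ P γ M g β V j x τ - Phi L κ P γ M g' β' V' j x τ) _
  rw [fix_Phi_sub hM hg hg' β β' hV hV']
  refine Bd.sym hγ0 hw (((r1 j).at x).add ((r2 j).at x)).aesm ?_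
  have hE : 1 ≤ Real.exp (θ * (L - x)) := Real.one_le_exp (mul_nonneg hθ.le (by linarith [hx.2]))
  refine (Bd.add hγ0 hw ((r1 j).at x).aesm ((r2 j).at x).aesm hd
    (d := δ / 2 * Real.exp (θ * (L - x))) (by positivity) (bl x hx j) (h2.mono ?_)).mono
    (by nlinarith)
  have i1 := ufix_int (x := x) hθ L (c := kN κ a n * δ) (by positivity)
  have i2 := ufix_int (x := 0) hθ L (c := kN κ a n * δ) (by positivity)
  have i3 : Real.exp (-rho γ * x) * Real.exp (θ * (L - 0)) ≤ Real.exp (θ * (L - x)) := by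
    rw [← Real.exp_add]
    refine Real.exp_le_exp.2 ?_
    nlinarith [hs.1, hx.1]
  have i4 : kN κ a n * δ / θ ≤ δ / 116 := by
    rw [div_le_div_iff₀ hθ (by norm_num), hθd, th]
    nlinarith
  have i5 : 28 * Real.exp (-rho γ * x) *
      (∫ y in (0 : ℝ)..L, kN κ a n * δ * Real.exp (θ * (L - y))) ≤
      28 * (δ / 116) * Real.exp (θ * (L - x)) := by
    calc _ ≤ 28 * Real.exp (-rho γ * x) * (kN κ a n * δ / θ * Real.exp (θ * (L - 0))) := by
          gcongr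
      _ = 28 * (kN κ a n * δ / θ) * (Real.exp (-rho γ * x) * Real.exp (θ * (L - 0))) := by ring
      _ ≤ _ := by gcongr
  have i6 := mul_le_mul_of_nonneg_right i4 (Real.exp_pos (θ * (L - x))).le
  have i7 := mul_le_mul_of_nonneg_left hs.2 hδ
  have i8 : 42 * (kB κ P γ a n * (δ * Real.exp (θ * L))) +
      16 * (kN κ a n * δ * Real.exp (θ * L) / rho γ) =
      δ * (Real.exp (θ * L) * (42 * kB κ P γ a n + 16 * (kN κ a n / rho γ))) := by ring
  nlinarith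

/-- Fixed points in the ball of radius `n` depend on the data in a Lipschitz way. -/
theorem ufix_diff (hL : 0 < L) (hP : P.Valid) (hγ : Big L γ) (hM : ∀ n, RD (M n))
    (hA : ∀ n, mulC γ w1 (M n) ≤ a) (hs : Larg L κ P γ a n) (hg : RD2 g) (hg' : RD2 g')
    (hβ : ∀ i, RD (β i)) (hβ' : ∀ i, RD (β' i)) (hV : ∀ j, RD2 (V j)) (hV' : ∀ j, RD2 (V' j))
    (e : Phi L κ P γ M g β V = V) (e' : Phi L κ P γ M g' β' V' = V') (hn : 0 ≤ n)
    (b : SBd L γ w1 V n) (b' : SBd L γ w1 V' n) {d : ℝ} (hd : 0 ≤ d)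
    (bl : SBd L γ w1 (res L P γ (fun x τ => g x τ - g' x τ) fun i τ => β i τ - β' i τ) d) :
    SBd L γ w1 (fun j x τ => V j x τ - V' j x τ) (2 * d * Real.exp (th κ a n * L)) := by
  have hγ0 : 0 < γ := one_pos.trans_le hγ.1
  have ha : 0 ≤ a := (mulC_nonneg hγ0 adm_w1 (M 0)).trans (hA 0)
  have hθ := th_pos κ ha n
  choose c hc hc' using fun j => ((hV j).sub (hV' j)).exists_bd hγ.1 adm_w1
  obtain ⟨i, hi⟩ := Finite.exists_max c
  have hci := hc i
  have key : ∀ k : ℕ, XBd L γ w1 (th κ a n) (fun j x τ => V j x τ - V' j x τ)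
      (2 * d + c i * (1 / 2) ^ k) := by
    intro k
    induction k with
    | zero =>
      refine SBd.xbd (fun x _ j => (hc' j _ (fix_sigma_le j) x).mono ?_) hθ.le (by positivity)
      rw [pow_zero, mul_one]
      linarith [hi j]
    | succ k ih =>
      have := Phi_ulip hL hP hγ adm_w1 hM hA hs hg hg' hβ hβ' hV hV' hn b b' (by positivity) ih
        hd bl
      rw [e, e'] at this
      exact this.mono (le_of_eq (by ring))
  intro x hx j
  refine Bd.of_forall_add (by positivity) fun ε hε => ?_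
  obtain ⟨k, hk⟩ := fix_small (K := c i * Real.exp (th κ a n * L)) hε
  exact ((key k).sbd hθ.le (by positivity) x hx j).mono (by linarith)

/-- The Picard iterates from a given state. -/
def ufixIt (L κ : ℝ) (P : BC) (γ : ℝ) (M : Fin 3 → ℝ → ℂ) (g : ℝ → ℝ → ℂ) (β : Fin 3 → ℝ → ℂ)
    (V₀ : Fin 3 → ℝ → ℝ → ℂ) : ℕ → Fin 3 → ℝ → ℝ → ℂ
  | 0 => V₀
  | k + 1 => Phi L κ P γ M g β (ufixIt L κ P γ M g β V₀ k)

lemma ufix_rd (hL : 0 < L) (hγ : Big L γ) (hM : ∀ n, RD (M n)) (hg : RD2 g)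
    (hβ : ∀ i, RD (β i)) (hV : ∀ j, RD2 (V j)) (k : ℕ) :
    ∀ j, RD2 (ufixIt L κ P γ M g β V k j) := by
  induction k with
  | zero => exact hV
  | succ k ih => exact (isRes_Phi hL κ P hγ hM hg hβ ih).rd

lemma ufix_add (hγ : 0 < γ) (hw : Adm w) (hV : ∀ j, RD2 (V j)) (hV' : ∀ j, RD2 (V' j)) {c d : ℝ}
    (hc : 0 ≤ c) (hd : 0 ≤ d) (b : SBd L γ w V' c)
    (bd : SBd L γ w (fun j x τ => V j x τ - V' j x τ) d) : SBd L γ w V (c + d) := by
  intro x hx j
  have := Bd.add hγ hw ((hV' j).at x).aesm (((hV j).sub (hV' j)).at x).aesm hc hd (b x hx j)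
    (bd x hx j)
  simpa only [add_sub_cancel] using this

/-- The iterates stay near the starting point and contract. -/
lemma ufix_steps (hL : 0 < L) (hP : P.Valid) (hγ : Big L γ) (hw : Adm w) (hM : ∀ n, RD (M n))
    (hA : ∀ n, mulC γ w (M n) ≤ a) (hs : Larg L κ P γ a n) (hg : RD2 g) (hg' : RD2 g')
    (hβ : ∀ i, RD (β i)) (hβ' : ∀ i, RD (β' i)) (hV' : ∀ j, RD2 (V' j))
    (e' : Phi L κ P γ M g' β' V' = V') {c d : ℝ} (hc : 0 ≤ c) (hd : 0 ≤ d) (b' : SBd L γ w V' c)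
    (hcn : c + 2 * d * Real.exp (th κ a n * L) ≤ n)
    (bl : SBd L γ w (res L P γ (fun x τ => g x τ - g' x τ) fun i τ => β i τ - β' i τ) d) :
    (∀ k, SBd L γ w (ufixIt L κ P γ M g β V' k) (c + 2 * d * Real.exp (th κ a n * L))) ∧
    ∀ k, SBd L γ w (fun j x τ => ufixIt L κ P γ M g β V' (k + 1) j x τ -
      ufixIt L κ P γ M g β V' k j x τ) (2 * d * Real.exp (th κ a n * L) * (1 / 2) ^ k) := by
  have hγ0 : 0 < γ := one_pos.trans_le hγ.1
  have ha : 0 ≤ a := (mulC_nonneg hγ0 hw (M 0)).trans (hA 0)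
  have hθ := th_pos κ ha n
  have hE : 0 ≤ 2 * d * Real.exp (th κ a n * L) := by positivity
  have hn : 0 ≤ n := by linarith
  have hr := ufix_rd (κ := κ) (P := P) hL hγ hM hg hβ hV'
  have near : ∀ k, XBd L γ w (th κ a n)
      (fun j x τ => ufixIt L κ P γ M g β V' k j x τ - V' j x τ) (2 * d) := by
    intro k
    induction k with
    | zero =>
      intro x _ j
      simp only [ufixIt, sub_self]
      exact Bd.zero _ _ _ _
    | succ k ih =>
      have := Phi_ulip hL hP hγ hw hM hA hs hg hg' hβ hβ' (hr k) hV' hn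
        (fix_sbd_mono (ufix_add hγ0 hw (hr k) hV' hc hE b' (ih.sbd hθ.le (by positivity))) hcn)
        (fix_sbd_mono b' (by linarith)) (by positivity) ih hd bl
      rw [e'] at this
      exact this.mono (le_of_eq (by ring))
  have ball : ∀ k, SBd L γ w (ufixIt L κ P γ M g β V' k) (c + 2 * d * Real.exp (th κ a n * L)) :=
    fun k => ufix_add hγ0 hw (hr k) hV' hc hE b' ((near k).sbd hθ.le (by positivity))
  have contr : ∀ k, XBd L γ w (th κ a n) (fun j x τ => ufixIt L κ P γ M g β V' (k + 1) j x τ -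
      ufixIt L κ P γ M g β V' k j x τ) (2 * d * (1 / 2) ^ k) := by
    intro k
    induction k with
    | zero =>
      rw [pow_zero, mul_one]
      exact near 1
    | succ k ih =>
      have := Phi_ulip hL hP hγ hw hM hA hs hg hg hβ hβ (hr (k + 1)) (hr k) hn
        (fix_sbd_mono (ball _) hcn) (fix_sbd_mono (ball _) hcn) (by positivity) ih (d := 0) le_rfl
        (by
          simp only [sub_self]
          rw [res_zero]
          exact fix_sbd_zero _ _ _ _)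
      exact this.mono (le_of_eq (by ring))
  exact ⟨ball, fun k => fix_sbd_mono ((contr k).sbd hθ.le (by positivity)) (le_of_eq (by ring))⟩

lemma ufix_decay (hL : 0 < L) (hP : P.Valid) (hγ : Big L γ) (hM : ∀ n, RD (M n))
    (hA : ∀ n, mulC γ w1 (M n) + 1 ≤ a) (hs : Larg L κ P γ a n) (hg : RD2 g) (hg' : RD2 g')
    (hβ : ∀ i, RD (β i)) (hβ' : ∀ i, RD (β' i)) (hV' : ∀ j, RD2 (V' j))
    (e' : Phi L κ P γ M g' β' V' = V') {c d : ℝ} (hc : 0 ≤ c) (hd : 0 < d) (b' : SBd L γ w1 V' c)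
    (hcn : c + 1 + 4 * d * Real.exp (th κ a n * L) ≤ n)
    (bl : SBd L γ w1 (res L P γ (fun x τ => g x τ - g' x τ) fun i τ => β i τ - β' i τ) d)
    (N : ℕ) : ∃ K, 0 ≤ K ∧ ∀ k j x τ,
      ‖ufixIt L κ P γ M g β V' (k + 2) j x τ - ufixIt L κ P γ M g β V' (k + 1) j x τ‖ *
        (1 + |τ|) ^ N ≤ K * (1 / 2) ^ k := by
  have hγ0 : 0 < γ := one_pos.trans_le hγ.1
  have hr := ufix_rd (κ := κ) (P := P) hL hγ hM hg hβ hV'
  obtain ⟨ε, hε, hε1, hA', b'', bl'⟩ : ∃ ε, 0 < ε ∧ ε ≤ 1 ∧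
      (∀ m, mulC γ (wt ε (N + 2)) (M m) ≤ a) ∧ SBd L γ (wt ε (N + 2)) V' (c + 1) ∧
      SBd L γ (wt ε (N + 2))
        (res L P γ (fun x τ => g x τ - g' x τ) fun i τ => β i τ - β' i τ) (2 * d) := by
    choose e₁ h₁ h₁' H₁ using fun m => mulC_wt hγ0 (hM m) (N + 2) one_pos
    choose e₂ h₂ h₂' H₂ using fun j => ((isRes_res hL hγ P (hg.sub hg')
      fun i => (hβ i).sub (hβ' i)).rd j).weight_approx hγ.1 (N + 2) hd
    choose e₃ h₃ h₃' H₃ using fun j => (hV' j).weight_approx hγ.1 (N + 2) one_pos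
    obtain ⟨i₁, hi₁⟩ := Finite.exists_min e₁
    obtain ⟨i₂, hi₂⟩ := Finite.exists_min e₂
    obtain ⟨i₃, hi₃⟩ := Finite.exists_min e₃
    have hε : 0 < min (e₁ i₁) (min (e₂ i₂) (e₃ i₃)) := lt_min (h₁ _) (lt_min (h₂ _) (h₃ _))
    refine ⟨_, hε, (min_le_left _ _).trans (h₁' _), fun m => ?_, fun x hx j => ?_,
      fun x hx j => ?_⟩
    · exact (H₁ m _ hε.le ((min_le_left _ _).trans (hi₁ m))).trans (hA m)
    · exact H₃ j _ hε.le (((min_le_right _ _).trans (min_le_right _ _)).trans (hi₃ j)) _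
        (fix_sigma_le j) x c hc (b' x hx j)
    · rw [two_mul]
      exact H₂ j _ hε.le (((min_le_right _ _).trans (min_le_left _ _)).trans (hi₂ j)) _
        (fix_sigma_le j) x d hd.le (bl x hx j)
  have hw := adm_wt hε.le (N + 2)
  obtain ⟨ball, contr⟩ := ufix_steps hL hP hγ hw hM hA' hs hg hg' hβ hβ' hV' e' (by positivity)
    (by positivity) b'' (by linarith) bl'
  set D := 2 * (2 * d) * Real.exp (th κ a n * L) with hD
  have hD0 : 0 ≤ D := by positivity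
  obtain ⟨C, hC, H⟩ := fix_pw hL κ hP hγ hw hM hg β (n := c + 1 + D) (by positivity)
  refine ⟨C * (γ + 2 * Real.pi) ^ 2 * D / ε ^ (N + 2), by positivity, fun k j x τ => ?_⟩
  have h1 := H _ _ _ (hr (k + 1)) (hr k) (ball _) (ball _) (by positivity) (contr k) j x τ
  change wt ε (N + 2) τ * ‖ufixIt L κ P γ M g β V' (k + 2) j x τ -
    ufixIt L κ P γ M g β V' (k + 1) j x τ‖ ≤ _ at h1
  generalize ‖ufixIt L κ P γ M g β V' (k + 2) j x τ - ufixIt L κ P γ M g β V' (k + 1) j x τ‖ = z,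
    norm_nonneg (ufixIt L κ P γ M g β V' (k + 2) j x τ - ufixIt L κ P γ M g β V' (k + 1) j x τ)
      = hz at h1
  have ha : 0 ≤ |τ| := abs_nonneg τ
  have h2 : (ε * (1 + |τ|)) ^ (N + 2) ≤ wt ε (N + 2) τ :=
    pow_le_pow_left₀ (by positivity) (by nlinarith) _
  have h3 : om γ τ ^ 2 ≤ ((γ + 2 * Real.pi) * (1 + |τ|)) ^ 2 :=
    pow_le_pow_left₀ (om_nonneg _ _) (om_le hγ0.le τ) _
  have h4 : (ε * (1 + |τ|)) ^ (N + 2) * z ≤
      C * ((γ + 2 * Real.pi) * (1 + |τ|)) ^ 2 * (D * (1 / 2) ^ k) :=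
    (mul_le_mul_of_nonneg_right h2 hz).trans (h1.trans (by gcongr))
  rw [div_mul_eq_mul_div, le_div_iff₀ (by positivity)]
  refine le_of_mul_le_mul_right (a := (1 + |τ|) ^ 2) ?_ (by positivity)
  rw [mul_pow] at h4
  refine le_trans (le_of_eq ?_) (h4.trans (le_of_eq ?_)) <;> ring

lemma ufix_re (hL : 0 < L) (hγ : Big L γ) (hM : ∀ n, RD (M n)) (hg : RD2 g) (hβ : ∀ i, RD (β i))
    (hV : ∀ j, RD2 (V j)) (j : Fin 3) (x : ℝ) : IsRe (Phi L κ P γ M g β V j x) :=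
  isRe_sym (((isRes_res hL hγ P (hg.add (rd2_fN κ hM hV))
    fun i => (hβ i).add (rd_fB L κ P hM hV i)).rd j).at x).integrable

/-- Continuation: a fixed point persists under a small change of the data. -/
theorem ufix_step (hL : 0 < L) (hP : P.Valid) (hγ : Big L γ) (hM : ∀ n, RD (M n))
    (hMr : ∀ n, IsRe (M n)) (hA : ∀ n, mulC γ w1 (M n) + 1 ≤ a) (hs : Larg L κ P γ a n)
    (hg : RD2 g) (hg' : RD2 g') (hβ : ∀ i, RD (β i)) (hβ' : ∀ i, RD (β' i))
    (hV' : ∀ j, RD2 (V' j)) (e' : Phi L κ P γ M g' β' V' = V') {c d : ℝ} (hc : 0 ≤ c)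
    (hd : 0 < d) (b' : SBd L γ w1 V' c) (hcn : c + 1 + 4 * d * Real.exp (th κ a n * L) ≤ n)
    (bl : SBd L γ w1 (res L P γ (fun x τ => g x τ - g' x τ) fun i τ => β i τ - β' i τ) d)
    {t₀ : ℝ} (h₁ : ∀ x ∈ Icc 0 L, ∀ t ≤ t₀, tl 0 (g x) t = 0)
    (h₂ : ∀ i, ∀ t ≤ t₀, tl 0 (β i) t = 0)
    (h₃ : ∀ j, ∀ x ∈ Icc 0 L, ∀ t ≤ t₀, tl 0 (V' j x) t = 0) :
    ∃ V : Fin 3 → ℝ → ℝ → ℂ, (∀ j, RD2 (V j)) ∧ Phi L κ P γ M g β V = V ∧
      SBd L γ w1 V (c + 2 * d * Real.exp (th κ a n * L)) ∧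
      ∀ j, ∀ x ∈ Icc 0 L, ∀ t ≤ t₀, tl 0 (V j x) t = 0 := by
  have hγ0 : 0 < γ := one_pos.trans_le hγ.1
  have hr := ufix_rd (κ := κ) (P := P) hL hγ hM hg hβ hV'
  obtain ⟨V, hV, hlim⟩ := fix_limit (U := fun k => ufixIt L κ P γ M g β V' (k + 1))
    (fun k => hr (k + 1)) (ufix_decay hL hP hγ hM hA hs hg hg' hβ hβ' hV' e' hc hd b' hcn bl)
  have hE : 0 ≤ d * Real.exp (th κ a n * L) := by positivity
  obtain ⟨ball, -⟩ := ufix_steps hL hP hγ adm_w1 hM (fun m => by linarith [hA m]) hs hg hg' hβ hβ'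
    hV' e' hc hd.le b' (by linarith) bl
  set D := c + 2 * d * Real.exp (th κ a n * L) with hD
  have hD0 : 0 ≤ D := by positivity
  obtain ⟨N, C, hC, hbd⟩ := bd_of_decay hγ.1 adm_w1
  obtain ⟨K, hK, hK'⟩ := hlim N
  have hconv : ∀ k, SBd L γ w1 (fun j x τ => ufixIt L κ P γ M g β V' (k + 1) j x τ - V j x τ)
      (C * (K * (1 / 2) ^ k)) := fun k x _ j =>
    hbd _ (fix_sigma_le j) _ _ (by positivity) (hK' k j x)
  have hball : SBd L γ w1 V D := by
    intro x hx j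
    refine Bd.of_forall_add hD0 fun ε hε => ?_
    obtain ⟨k, hk⟩ := fix_small (K := C * K) hε
    have := Bd.sub hγ0 adm_w1 ((hr (k + 1) j).at x).aesm
      (((hr (k + 1) j).sub (hV j)).at x).aesm hD0 (by positivity)
      (ball (k + 1) x hx j) (hconv k x hx j)
    simp only [sub_sub_cancel] at this
    exact this.mono (by linarith)
  have hzero : ∀ k j, ∀ x ∈ Icc 0 L, ∀ t ≤ t₀, tl 0 (ufixIt L κ P γ M g β V' k j x) t = 0 := by
    have hre : ∀ k j x, IsRe (ufixIt L κ P γ M g β V' k j x) := by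
      intro k j x
      cases k with
      | zero =>
        change IsRe (V' j x)
        rw [← e']
        exact ufix_re hL hγ hM hg' hβ' hV' j x
      | succ k => exact ufix_re hL hγ hM hg hβ (hr k) j x
    intro k
    induction k with
    | zero => exact h₃
    | succ k ih =>
      have hz := fun t (ht : t ≤ t₀) =>
        tl_nl_zero hL κ P hM hMr (hr k) (hre k) (t := t) fun j x hx => ih j x hx t ht
      refine lu hL hγ0 (isRes_Phi hL κ P hγ hM hg hβ (hr k)) (hg.add (rd2_fN κ hM (hr k))).sym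
        (fun x hx t ht => ?_) fun i t ht => ?_
      · rw [tl_sym ((hg.add (rd2_fN κ hM (hr k))).at x),
          tl_add (hg.at x) ((rd2_fN κ hM (hr k)).at x), h₁ x hx t ht, (hz t ht).1 x hx, add_zero]
      · rw [tl_sym ((hβ i).add (rd_fB L κ P hM (hr k) i)),
          tl_add (hβ i) (rd_fB L κ P hM (hr k) i), h₂ i t ht, (hz t ht).2 i, add_zero]
  refine ⟨V, hV, ?_, hball, fun j x hx t ht => ?_⟩
  · obtain ⟨C', hC', H⟩ := fix_pw hL κ hP hγ adm_w1 hM hg β (n := D) hD0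
    obtain ⟨K₀, hK₀, hK₀'⟩ := hlim 0
    funext j x τ
    rw [← sub_eq_zero, ← norm_le_zero_iff]
    refine fix_le_zero (K := C' * om γ τ ^ 2 * (C * K) + K₀ / 2) fun k => ?_
    have h1 := H _ _ _ (hr (k + 1)) hV (ball _) hball (by positivity) (hconv k) j x τ
    have h2 := hK₀' (k + 1) j x τ
    rw [pow_zero, mul_one] at h2
    change 1 * ‖ufixIt L κ P γ M g β V' (k + 1 + 1) j x τ - Phi L κ P γ M g β V j x τ‖ ≤ _ at h1
    have h3 := norm_sub_le_norm_sub_add_norm_sub (Phi L κ P γ M g β V j x τ)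
      (ufixIt L κ P γ M g β V' (k + 1 + 1) j x τ) (V j x τ)
    rw [one_mul, norm_sub_rev] at h1
    refine h3.trans ((add_le_add h1 h2).trans (le_of_eq ?_))
    ring
  · obtain ⟨K₂, -, hK₂⟩ := hlim 2
    rw [← abs_nonpos_iff]
    refine fix_le_zero (K := 4 * K₂) fun k => ?_
    have h1 := abs_tl_le (((hr (k + 1) j).sub (hV j)).at x) (hK₂ k j x) t
    rw [tl_sub ((hr (k + 1) j).at x) ((hV j).at x), hzero (k + 1) j x hx t ht, zero_sub,
      abs_neg] at h1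
    linarith

/-- The condition holds for all large `γ`. -/
lemma larg_eventually (L κ : ℝ) (P : BC) (a n : ℝ) : ∀ᶠ γ in atTop, Larg L κ P γ a n := by
  have t1 : Tendsto (fun γ : ℝ => γ ^ (-(1 : ℝ) / 3)) atTop (𝓝 0) := by
    have := tendsto_rpow_neg_atTop (y := (1 : ℝ) / 3) (by norm_num)
    simpa only [neg_div] using this
  have t2 : Tendsto rho atTop atTop :=
    (tendsto_rpow_atTop (by norm_num : (0 : ℝ) < 1 / 3)).atTop_div_const (by norm_num)
  have t3 : Tendsto (fun γ => Real.exp (th κ a n * L) *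
      (42 * kB κ P γ a n + 16 * (kN κ a n / rho γ))) atTop (𝓝 (Real.exp (th κ a n * L) *
      (42 * (a * ((sB P + 6 * |mu κ| + 1296 * n ^ 2) * 0 + (4 * sB P + 12) * (0 * n)))
        + 16 * 0))) :=
    (((((t1.const_mul _).add ((aa_tendsto.mul_const n).const_mul _)).const_mul a).const_mul
      42).add ((tendsto_const_nhds.div_atTop t2).const_mul 16)).const_mul _
  simp only [mul_zero, zero_mul, add_zero] at t3
  filter_upwards [t2.eventually_ge_atTop (th κ a n),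
    t3.eventually (ge_mem_nhds (by norm_num : (0 : ℝ) < 1 / 4))] with γ h1 h2 using ⟨h1, h2⟩

end Pool.Agent.Lib.MP_14aec4_an.W
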