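import Pool.Agent.Lib.MP_14aec4_an.UFix

/-!
The norms as functions of `x`, and an interpolation inequality for the resolvent equation.
-/

noncomputable section

open MeasureTheory Set Filter Topology FourierTransform
open scoped ENNReal ComplexConjugate

namespace Pool.Agent.Lib.MP_14aec4_an.W

/-- The square of the norm. -/
def sn (γ σ : ℝ) (A : ℝ → ℂ) : ℝ := ∫ τ, (om γ τ ^ σ * ‖A τ‖) ^ 2

lemma sn_nonneg (γ σ : ℝ) (A : ℝ → ℂ) : 0 ≤ sn γ σ A := integral_nonneg fun _ => sq_nonneg _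

lemma uint_rd2 {γ σ : ℝ} (hγ : 1 ≤ γ) (hσ : σ ≤ 1) {F : ℝ → ℝ → ℂ} (hF : RD2 F) :
    RD2 fun x τ => ((om γ τ ^ σ : ℝ) : ℂ) * F x τ := by
  have hγ0 : 0 < γ := by linarith
  refine hF.poly_mul (Complex.continuous_ofReal.comp (continuous_om_rpow hγ0 σ))
    ⟨γ + 2 * Real.pi, 1, fun τ => ?_⟩
  rw [Complex.norm_real, Real.norm_of_nonneg (Real.rpow_nonneg (om_nonneg γ τ) _), pow_one]
  refine le_trans ?_ (om_le hγ0.le τ)
  simpa using Real.rpow_le_rpow_of_exponent_le (one_le_om hγ τ) hσ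

lemma uint_norm (γ σ τ : ℝ) (z : ℂ) : ‖((om γ τ ^ σ : ℝ) : ℂ) * z‖ = om γ τ ^ σ * ‖z‖ := by
  rw [norm_mul, Complex.norm_real, Real.norm_of_nonneg (Real.rpow_nonneg (om_nonneg γ τ) _)]

lemma sn_int {γ σ : ℝ} (hγ : 1 ≤ γ) (hσ : σ ≤ 1) {A : ℝ → ℂ} (hA : RD A) :
    Integrable fun τ => (om γ τ ^ σ * ‖A τ‖) ^ 2 := by
  simpa only [uint_norm] using mult0_sq_int ((uint_rd2 hγ hσ hA.rd2).at 0)

lemma sn_iff {γ σ c : ℝ} (hγ : 1 ≤ γ) (hσ : σ ≤ 1) {A : ℝ → ℂ} (hA : RD A) (hc : 0 ≤ c) :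
    Bd γ w1 σ A c ↔ sn γ σ A ≤ c ^ 2 := by
  rw [bd_iff (mult0_w_nonneg adm_w1) σ A hc, ← ENNReal.ofReal_le_ofReal_iff (sq_nonneg c), sn,
    ofReal_integral_eq_lintegral_ofReal (sn_int hγ hσ hA)
      (Eventually.of_forall fun a => sq_nonneg _)]
  have : ∀ τ, (ENNReal.ofReal (om γ τ ^ σ * w1 τ) * ‖A τ‖ₑ) ^ 2
      = ENNReal.ofReal ((om γ τ ^ σ * ‖A τ‖) ^ 2) := by
    intro τ
    have h0 := Real.rpow_nonneg (om_nonneg γ τ) σ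
    rw [w1, mul_one, ← ofReal_norm, ← ENNReal.ofReal_mul h0,
      ENNReal.ofReal_pow (mul_nonneg h0 (norm_nonneg _))]
  simp only [this]

lemma sn_bd {γ σ : ℝ} (hγ : 1 ≤ γ) (hσ : σ ≤ 1) {A : ℝ → ℂ} (hA : RD A) :
    Bd γ w1 σ A (Real.sqrt (sn γ σ A)) :=
  (sn_iff hγ hσ hA (Real.sqrt_nonneg _)).2 (Real.sq_sqrt (sn_nonneg _ _ _)).ge

lemma sn_sqrt_le {γ σ c : ℝ} (hγ : 1 ≤ γ) (hσ : σ ≤ 1) {A : ℝ → ℂ} (hA : RD A) (hc : 0 ≤ c)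
    (h : Bd γ w1 σ A c) : Real.sqrt (sn γ σ A) ≤ c :=
  Real.sqrt_le_iff.2 ⟨hc, (sn_iff hγ hσ hA hc).1 h⟩

lemma uint_dom {γ σ : ℝ} (hγ : 1 ≤ γ) (hσ : σ ≤ 1) {F : ℝ → ℝ → ℂ} (hF : RD2 F) :
    (Continuous fun p : ℝ × ℝ => (om γ p.2 ^ σ * ‖F p.1 p.2‖) ^ 2) ∧
      ∃ C, ∀ x τ, ‖(om γ τ ^ σ * ‖F x τ‖) ^ 2‖ ≤ C * (1 + τ ^ 2)⁻¹ := by
  have hG := uint_rd2 hγ hσ hF
  refine ⟨(((continuous_om_rpow (by linarith) σ).comp continuous_snd).mul hF.cont.norm).pow 2, ?_⟩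
  obtain ⟨C, hC0, hC⟩ := fb0_bound hG 0
  refine ⟨C ^ 2, fun x τ => ?_⟩
  have h1 := hC x τ
  rw [pow_zero, mul_one, uint_norm] at h1
  have h2 : (1 + τ ^ 2)⁻¹ ≤ 1 := inv_le_one_of_one_le₀ (by nlinarith)
  have h3 : 0 ≤ (1 + τ ^ 2)⁻¹ := by positivity
  have h4 : 0 ≤ om γ τ ^ σ * ‖F x τ‖ :=
    mul_nonneg (Real.rpow_nonneg (om_nonneg γ τ) σ) (norm_nonneg _)
  rw [Real.norm_of_nonneg (sq_nonneg _)]
  calc _ ≤ (C * (1 + τ ^ 2)⁻¹) ^ 2 := pow_le_pow_left₀ h4 h1 2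
    _ = C ^ 2 * (1 + τ ^ 2)⁻¹ * (1 + τ ^ 2)⁻¹ := by ring
    _ ≤ _ := mul_le_of_le_one_right (by positivity) h2

lemma uint_cont {f : ℝ → ℝ → ℝ} {C : ℝ} (hc : Continuous fun p : ℝ × ℝ => f p.1 p.2)
    (hC : ∀ x τ, ‖f x τ‖ ≤ C * (1 + τ ^ 2)⁻¹) : Continuous fun x => ∫ τ, f x τ :=
  continuous_of_dominated (bound := fun τ => C * (1 + τ ^ 2)⁻¹)
    (fun x => (hc.comp (Continuous.prodMk_right x)).aestronglyMeasurable)
    (fun x => Eventually.of_forall (hC x)) (integrable_inv_one_add_sq.const_mul C)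
    (Eventually.of_forall fun τ => hc.comp (Continuous.prodMk_left τ))

lemma uint_add {f g : ℝ → ℝ} (hf : Integrable f) (hg : Integrable g) :
    Integrable fun τ => f τ + g τ := hf.add hg

lemma sn_cont {γ σ : ℝ} (hγ : 1 ≤ γ) (hσ : σ ≤ 1) {F : ℝ → ℝ → ℂ} (hF : RD2 F) :
    Continuous fun x => sn γ σ (F x) := by
  obtain ⟨hc, C, hC⟩ := uint_dom hγ hσ hF
  exact uint_cont (f := fun x τ => (om γ τ ^ σ * ‖F x τ‖) ^ 2) hc hC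

lemma sn_swap {L γ σ : ℝ} (hL : 0 ≤ L) (hγ : 1 ≤ γ) (hσ : σ ≤ 1) {F : ℝ → ℝ → ℂ} (hF : RD2 F) :
    (Integrable fun τ => ∫ x in (0 : ℝ)..L, (om γ τ ^ σ * ‖F x τ‖) ^ 2) ∧
      ∫ τ, ∫ x in (0 : ℝ)..L, (om γ τ ^ σ * ‖F x τ‖) ^ 2 = ∫ x in (0 : ℝ)..L, sn γ σ (F x) := by
  obtain ⟨hc, C, hC⟩ := uint_dom hγ hσ hF
  have hi : Integrable (fun p : ℝ × ℝ => (om γ p.2 ^ σ * ‖F p.1 p.2‖) ^ 2)
      ((volume.restrict (Ioc 0 L)).prod volume) := by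
    refine Integrable.mono' (g := fun p : ℝ × ℝ => (1 : ℝ) * (C * (1 + p.2 ^ 2)⁻¹))
      ((integrable_const (1 : ℝ)).mul_prod (integrable_inv_one_add_sq.const_mul C))
      hc.aestronglyMeasurable (Eventually.of_forall fun p => ?_)
    rw [one_mul]
    exact hC p.1 p.2
  simp only [intervalIntegral.integral_of_le hL]
  exact ⟨hi.integral_prod_right, (integral_integral_swap
    (f := fun x τ => (om γ τ ^ σ * ‖F x τ‖) ^ 2) hi).symm⟩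

lemma uint_alg {r : ℝ} (hr : 0 < r) {s : ℂ} (hs : ‖s‖ = r ^ 3) (W₀ W₁ W₂ g : ℂ) :
    (conj s / (r ^ 4 : ℝ) * ((g - s * W₀) * conj W₀ + W₂ * conj W₁) -
      ((1 / (2 * r ^ 2) : ℝ) : ℂ) * (W₂ * conj W₂ + W₁ * conj (g - s * W₀))).re ≤
      -(r * ‖W₀‖) ^ 2 / 2 + ‖W₁‖ ^ 2 + 5 / 4 * (‖g‖ / r ^ 2) ^ 2 := by
  have hr' : ((r : ℝ) : ℂ) ≠ 0 := Complex.ofReal_ne_zero.2 hr.ne'
  have e1 : s * conj s = ((r ^ 6 : ℝ) : ℂ) := by
    rw [Complex.mul_conj, Complex.normSq_eq_norm_sq, hs]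
    norm_cast
    ring
  have e2 : ∀ z : ℂ, z * conj z = ((‖z‖ ^ 2 : ℝ) : ℂ) := fun z => by
    rw [Complex.mul_conj, Complex.normSq_eq_norm_sq]
  have e : conj s / (r ^ 4 : ℝ) * ((g - s * W₀) * conj W₀ + W₂ * conj W₁) -
      ((1 / (2 * r ^ 2) : ℝ) : ℂ) * (W₂ * conj W₂ + W₁ * conj (g - s * W₀)) =
      (conj s / (r ^ 4 : ℝ) * (g * conj W₀) + conj s / (r ^ 4 : ℝ) * (W₂ * conj W₁) +
        -((1 / (2 * r ^ 2) : ℝ) : ℂ) * (W₁ * conj g) +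
        ((1 / (2 * r ^ 2) : ℝ) : ℂ) * (W₁ * conj (s * W₀))) +
        ((-(r * ‖W₀‖) ^ 2 - (‖W₂‖ / r) ^ 2 / 2 : ℝ) : ℂ) := by
    have h1 : conj s / (r ^ 4 : ℝ) * (s * W₀ * conj W₀) = (((r * ‖W₀‖) ^ 2 : ℝ) : ℂ) := by
      rw [show conj s / (r ^ 4 : ℝ) * (s * W₀ * conj W₀) =
        (s * conj s) * (W₀ * conj W₀) / (r ^ 4 : ℝ) by ring, e1, e2]
      push_cast
      field_simp
    have h2 : ((1 / (2 * r ^ 2) : ℝ) : ℂ) * (W₂ * conj W₂) = (((‖W₂‖ / r) ^ 2 / 2 : ℝ) : ℂ) := by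
      rw [e2]
      push_cast
      field_simp
    rw [Complex.ofReal_sub, Complex.ofReal_neg, ← h1, ← h2, map_sub]
    ring
  have n1 : ‖conj s / (r ^ 4 : ℝ)‖ = 1 / r := by
    rw [norm_div, Complex.norm_conj, hs, Complex.norm_real, Real.norm_of_nonneg (by positivity)]
    field_simp
  have n2 : ‖((1 / (2 * r ^ 2) : ℝ) : ℂ)‖ = 1 / (2 * r ^ 2) := by
    rw [Complex.norm_real, Real.norm_of_nonneg (by positivity)]
  rw [e, Complex.add_re, Complex.ofReal_re]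
  have b := (Complex.re_le_norm (conj s / (r ^ 4 : ℝ) * (g * conj W₀) +
    conj s / (r ^ 4 : ℝ) * (W₂ * conj W₁) + -((1 / (2 * r ^ 2) : ℝ) : ℂ) * (W₁ * conj g) +
      ((1 / (2 * r ^ 2) : ℝ) : ℂ) * (W₁ * conj (s * W₀)))).trans
    ((norm_add_le _ _).trans (add_le_add ((norm_add_le _ _).trans
      (add_le_add (norm_add_le _ _) le_rfl)) le_rfl))
  simp only [norm_mul, norm_neg, n1, n2, Complex.norm_conj, hs] at b
  have f1 : 1 / r * (‖g‖ * ‖W₀‖) = (‖g‖ / r ^ 2) * (r * ‖W₀‖) := by field_simp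
  have f2 : 1 / r * (‖W₂‖ * ‖W₁‖) = (‖W₂‖ / r) * ‖W₁‖ := by field_simp
  have f3 : 1 / (2 * r ^ 2) * (‖W₁‖ * ‖g‖) = ‖W₁‖ * (‖g‖ / r ^ 2) / 2 := by field_simp
  have f4 : 1 / (2 * r ^ 2) * (‖W₁‖ * (r ^ 3 * ‖W₀‖)) = ‖W₁‖ * (r * ‖W₀‖) / 2 := by field_simp
  rw [f1, f2, f3, f4] at b
  generalize r * ‖W₀‖ = A at b ⊢
  generalize ‖W₂‖ / r = C at b ⊢
  generalize ‖g‖ / r ^ 2 = D at b ⊢
  generalize ‖W₁‖ = B at b ⊢
  nlinarith [sq_nonneg (C - B), sq_nonneg (D - A / 2), sq_nonneg (A - B), sq_nonneg (B - D)]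

lemma uint_end {r : ℝ} (hr : 0 < r) {s : ℂ} (hs : ‖s‖ = r ^ 3) (W₀ W₁ W₂ : ℂ) :
    |(conj s / (r ^ 4 : ℝ) * (W₂ * conj W₀) -
      ((1 / (2 * r ^ 2) : ℝ) : ℂ) * (W₁ * conj W₂)).re| ≤
      1 / r * ((r * ‖W₀‖) ^ 2 + ‖W₁‖ ^ 2 + (‖W₂‖ / r) ^ 2) := by
  have n1 : ‖conj s / (r ^ 4 : ℝ)‖ = 1 / r := by
    rw [norm_div, Complex.norm_conj, hs, Complex.norm_real, Real.norm_of_nonneg (by positivity)]
    field_simp
  have n2 : ‖((1 / (2 * r ^ 2) : ℝ) : ℂ)‖ = 1 / (2 * r ^ 2) := by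
    rw [Complex.norm_real, Real.norm_of_nonneg (by positivity)]
  refine (Complex.abs_re_le_norm _).trans ((norm_sub_le _ _).trans ?_)
  simp only [norm_mul, n1, n2, Complex.norm_conj]
  have f1 : 1 / r * (‖W₂‖ * ‖W₀‖) + 1 / (2 * r ^ 2) * (‖W₁‖ * ‖W₂‖) =
      1 / r * ((‖W₂‖ / r) * (r * ‖W₀‖) + ‖W₁‖ * (‖W₂‖ / r) / 2) := by field_simp
  rw [f1]
  refine mul_le_mul_of_nonneg_left ?_ (by positivity)
  generalize r * ‖W₀‖ = A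
  generalize ‖W₂‖ / r = C
  generalize ‖W₁‖ = B
  nlinarith [sq_nonneg (C - B), sq_nonneg (C - A), sq_nonneg A, sq_nonneg B, sq_nonneg C]

lemma uint_ode {L r : ℝ} (hL : 0 ≤ L) (hr : 0 < r) {s : ℂ} (hs : ‖s‖ = r ^ 3)
    {W₀ W₁ W₂ g : ℝ → ℂ} (c₀ : Continuous W₀) (c₁ : Continuous W₁) (c₂ : Continuous W₂)
    (cg : Continuous g) (d₀ : ∀ x ∈ Ioo 0 L, HasDerivAt W₀ (W₁ x) x)
    (d₁ : ∀ x ∈ Ioo 0 L, HasDerivAt W₁ (W₂ x) x)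
    (d₂ : ∀ x ∈ Ioo 0 L, HasDerivAt W₂ (g x - s * W₀ x) x) :
    ∫ x in (0 : ℝ)..L, (r * ‖W₀ x‖) ^ 2 ≤ 2 * (∫ x in (0 : ℝ)..L, ‖W₁ x‖ ^ 2) +
      5 / 2 * (∫ x in (0 : ℝ)..L, (‖g x‖ / r ^ 2) ^ 2) +
      2 / r * (((r * ‖W₀ 0‖) ^ 2 + ‖W₁ 0‖ ^ 2 + (‖W₂ 0‖ / r) ^ 2) +
        ((r * ‖W₀ L‖) ^ 2 + ‖W₁ L‖ ^ 2 + (‖W₂ L‖ / r) ^ 2)) := by
  have cj : ∀ {W : ℝ → ℂ}, Continuous W → Continuous fun x => conj (W x) := fun h =>
    Complex.continuous_conj.comp h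
  have dj : ∀ {W : ℝ → ℂ} {d : ℂ} {x : ℝ}, HasDerivAt W d x →
      HasDerivAt (fun x => conj (W x)) (conj d) x := fun h => h.star
  have cD : Continuous fun x => (conj s / (r ^ 4 : ℝ) *
      ((g x - s * W₀ x) * conj (W₀ x) + W₂ x * conj (W₁ x)) - ((1 / (2 * r ^ 2) : ℝ) : ℂ) *
        (W₂ x * conj (W₂ x) + W₁ x * conj (g x - s * W₀ x))).re :=
    Complex.continuous_re.comp ((continuous_const.mul
      (((cg.sub (continuous_const.mul c₀)).mul (cj c₀)).add (c₂.mul (cj c₁)))).sub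
      (continuous_const.mul ((c₂.mul (cj c₂)).add
        (c₁.mul (cj (cg.sub (continuous_const.mul c₀)))))))
  have h1 := intervalIntegral.integral_eq_sub_of_hasDerivAt_of_le
    (f := fun x => (conj s / (r ^ 4 : ℝ) * (W₂ x * conj (W₀ x)) -
      ((1 / (2 * r ^ 2) : ℝ) : ℂ) * (W₁ x * conj (W₂ x))).re) hL
    (Complex.continuous_re.comp ((continuous_const.mul (c₂.mul (cj c₀))).sub
      (continuous_const.mul (c₁.mul (cj c₂))))).continuousOn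
    (fun x hx => ts0_re ((((d₂ x hx).mul (dj (d₀ x hx))).const_mul _).sub
      (((d₁ x hx).mul (dj (d₂ x hx))).const_mul _)))
    (cD.intervalIntegrable _ _)
  have i0 : IntervalIntegrable (fun x => (r * ‖W₀ x‖) ^ 2) volume 0 L :=
    Continuous.intervalIntegrable (by fun_prop) _ _
  have i1 : IntervalIntegrable (fun x => ‖W₁ x‖ ^ 2) volume 0 L :=
    Continuous.intervalIntegrable (by fun_prop) _ _
  have i2 : IntervalIntegrable (fun x => (‖g x‖ / r ^ 2) ^ 2) volume 0 L :=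
    Continuous.intervalIntegrable (by fun_prop) _ _
  have h2 := intervalIntegral.integral_mono_on hL (cD.intervalIntegrable _ _)
    (((i0.neg.div_const 2).add i1).add (i2.const_mul (5 / 4)))
    fun x _ => uint_alg hr hs (W₀ x) (W₁ x) (W₂ x) (g x)
  rw [h1, intervalIntegral.integral_add ((i0.neg.div_const 2).add i1) (i2.const_mul (5 / 4)),
    intervalIntegral.integral_add (i0.neg.div_const 2) i1, intervalIntegral.integral_div,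
    intervalIntegral.integral_const_mul] at h2
  simp only [Pi.neg_apply, intervalIntegral.integral_neg] at h2
  have e0 := (abs_le.1 (uint_end hr hs (W₀ 0) (W₁ 0) (W₂ 0))).2
  have eL := (abs_le.1 (uint_end hr hs (W₀ L) (W₁ L) (W₂ L))).1
  have e2 : 2 / r = 2 * (1 / r) := by ring
  rw [e2]
  linarith

/-- The norm of `V 0` is controlled, in the mean over `x`, by the norm of `V 1`. -/
theorem uint_main {L γ n : ℝ} (hL : 0 < L) (hγ : 1 ≤ γ) {P : BC} {g : ℝ → ℝ → ℂ}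
    {β : Fin 3 → ℝ → ℂ} {V : Fin 3 → ℝ → ℝ → ℂ} (h : IsRes L P γ g β V) (hg : RD2 g)
    (hn : 0 ≤ n) (b : SBd L γ w1 V n) :
    ∫ x in (0 : ℝ)..L, sn γ (1 / 3) (V 0 x) ≤ 2 * (∫ x in (0 : ℝ)..L, sn γ 0 (V 1 x)) +
      5 / 2 * (∫ x in (0 : ℝ)..L, sn γ (-2 / 3) (g x)) + 12 * (γ ^ (-(1 : ℝ) / 3) * n ^ 2) := by
  have hγ0 : 0 < γ := by linarith
  obtain ⟨i0, e0⟩ := sn_swap (σ := 1 / 3) hL.le hγ (by norm_num) (h.rd 0)
  obtain ⟨i1, e1⟩ := sn_swap (σ := 0) hL.le hγ (by norm_num) (h.rd 1)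
  obtain ⟨i2, e2⟩ := sn_swap (σ := -2 / 3) hL.le hγ (by norm_num) hg
  have hu : 0 ≤ γ ^ (-(1 : ℝ) / 3) := by positivity
  have j0 := fun y => sn_int (σ := 1 / 3) hγ (by norm_num) ((h.rd 0).at y)
  have j1 := fun y => sn_int (σ := 0) hγ (by norm_num) ((h.rd 1).at y)
  have j2 := fun y => sn_int (σ := -1 / 3) hγ (by norm_num) ((h.rd 2).at y)
  have j : ∀ y, Integrable fun τ => (om γ τ ^ (1 / 3 : ℝ) * ‖V 0 y τ‖) ^ 2 +
      (om γ τ ^ (0 : ℝ) * ‖V 1 y τ‖) ^ 2 + (om γ τ ^ (-1 / 3 : ℝ) * ‖V 2 y τ‖) ^ 2 :=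
    fun y => ((j0 y).add (j1 y)).add (j2 y)
  have k : ∀ y ∈ Icc 0 L, ∫ τ, ((om γ τ ^ (1 / 3 : ℝ) * ‖V 0 y τ‖) ^ 2 +
      (om γ τ ^ (0 : ℝ) * ‖V 1 y τ‖) ^ 2 + (om γ τ ^ (-1 / 3 : ℝ) * ‖V 2 y τ‖) ^ 2) ≤
      3 * n ^ 2 := by
    intro y hy
    rw [integral_add (uint_add (j0 y) (j1 y)) (j2 y), integral_add (j0 y) (j1 y)]
    have k0 := (sn_iff hγ (by norm_num) ((h.rd 0).at y) hn).1 (nlip_sbd0 b hy)
    have k1 := (sn_iff hγ (by norm_num) ((h.rd 1).at y) hn).1 (nlip_sbd1 b hy)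
    have k2 := (sn_iff hγ (by norm_num) ((h.rd 2).at y) hn).1 (nlip_sbd2 b hy)
    unfold sn at k0 k1 k2
    linarith
  have hm := integral_mono i0 (uint_add (uint_add (i1.const_mul 2) (i2.const_mul (5 / 2)))
    ((uint_add (j 0) (j L)).const_mul (2 * γ ^ (-(1 : ℝ) / 3)))) fun τ => by
      have hom := om_pos hγ0 τ
      have hr : 0 < om γ τ ^ (1 / 3 : ℝ) := Real.rpow_pos_of_pos hom _
      have cc : ∀ {F : ℝ → ℝ → ℂ}, RD2 F → Continuous fun x => F x τ := fun hF =>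
        hF.cont.comp (Continuous.prodMk_left τ)
      have p : ∀ m : ℕ, (om γ τ ^ (1 / 3 : ℝ)) ^ m = om γ τ ^ ((m : ℝ) / 3) := fun m => by
        rw [← Real.rpow_natCast, ← Real.rpow_mul hom.le]
        congr 1
        ring
      have key := uint_ode hL.le hr (s := sv γ τ) (by rw [p]; simp [om]) (cc (h.rd 0))
        (cc (h.rd 1)) (cc (h.rd 2)) (cc hg) (fun x hx => h.d0 x hx τ) (fun x hx => h.d1 x hx τ)
        (fun x hx => h.d2 x hx τ)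
      have q1 : ∀ z : ℝ, z / (om γ τ ^ (1 / 3 : ℝ)) ^ 2 = om γ τ ^ (-2 / 3 : ℝ) * z := fun z => by
        rw [p, neg_div, Real.rpow_neg hom.le, div_eq_inv_mul]
        norm_num
      have q2 : ∀ z : ℝ, z / om γ τ ^ (1 / 3 : ℝ) = om γ τ ^ (-1 / 3 : ℝ) * z := fun z => by
        rw [neg_div, Real.rpow_neg hom.le, div_eq_inv_mul]
      have q3 : om γ τ ^ (-1 / 3 : ℝ) ≤ γ ^ (-(1 : ℝ) / 3) :=
        Real.rpow_le_rpow_of_nonpos hγ0 (le_om γ τ) (by norm_num)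
      simp only [q1, q2] at key
      simp only [Real.rpow_zero, one_mul]
      refine key.trans (add_le_add le_rfl (mul_le_mul_of_nonneg_right (by linarith)
        (by positivity)))
  rw [e0, integral_add (uint_add (i1.const_mul 2) (i2.const_mul (5 / 2)))
    ((uint_add (j 0) (j L)).const_mul _), integral_add (i1.const_mul 2) (i2.const_mul (5 / 2)),
    integral_const_mul, integral_const_mul, integral_const_mul, e1, e2,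
    integral_add (j 0) (j L)] at hm
  have k0 := k 0 ⟨le_rfl, hL.le⟩
  have kL := k L ⟨hL.le, le_rfl⟩
  nlinarith [mul_le_mul_of_nonneg_left (add_le_add k0 kL) hu]

end Pool.Agent.Lib.MP_14aec4_an.W
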