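import Pool.Agent.Lib.MP_14aec4_an.MSAP
import Pool.Agent.Lib.MP_14aec4_an.MSEX

/-!
Local well-posedness in `H^{-1}(0, L)`.
-/

noncomputable section

open MeasureTheory Set Filter Topology FourierTransform
open scoped ENNReal ComplexConjugate

namespace Pool.Agent.Lib.MP_14aec4_an.W

theorem stable_of_wellPosed {W V : Set ℝ} {s L T : ℝ} {a b : ℕ → ℕ → ℝ} {k : Fin 4}
    (h : WellPosed W V s L T a b k) : StableAtAllData W V s L T a b k := by
  intro d hd
  obtain ⟨T₀, hT₀, δ₀, hδ₀, h⟩ := h d hd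
  have hz : dataNorm W V s T k (d - d) < δ₀ := by
    rw [sub_self]
    unfold dataNorm
    refine lt_of_eq_of_lt ?_ hδ₀
    rw [add_eq_zero]
    exact ⟨hNorm_eq_zero _ _ _ fun _ _ => rfl,
      Finset.sum_eq_zero fun i _ => hNorm_eq_zero _ _ _ fun _ _ => rfl⟩
  obtain ⟨⟨U, hU⟩, hc⟩ := h T₀ ⟨hT₀.1, le_rfl⟩ d hd hz
  refine ⟨T₀, hT₀, U, hU.1, fun ε hε => ?_⟩
  obtain ⟨δ, hδ, hc⟩ := hc ε hε
  exact ⟨δ, hδ, fun e he hed U' hU' => hc e he hed U U' hU hU'⟩

lemma wp_dn_sub_le (W V : Set ℝ) (s T : ℝ) (k : Fin 4)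
    (d e f : (SchwartzMap ℝ ℂ → ℂ) × (Fin 3 → SchwartzMap ℝ ℂ → ℂ)) :
    dataNorm W V s T k (d - f) ≤ dataNorm W V s T k (d - e) + dataNorm W V s T k (e - f) := by
  unfold dataNorm
  rw [add_add_add_comm, ← Finset.sum_add_distrib]
  exact add_le_add (hNorm_sub_le _ _ _) (Finset.sum_le_sum fun i _ => hNorm_sub_le _ _ _)

lemma wp_dn_comm (W V : Set ℝ) (s T : ℝ) (k : Fin 4)
    (d e : (SchwartzMap ℝ ℂ → ℂ) × (Fin 3 → SchwartzMap ℝ ℂ → ℂ)) :
    dataNorm W V s T k (d - e) = dataNorm W V s T k (e - d) := by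
  unfold dataNorm
  congr 1
  · exact hNorm_sub_comm _ _
  · exact Finset.sum_congr rfl fun i _ => hNorm_sub_comm _ _

lemma wp_dn_mono (W V : Set ℝ) (s : ℝ) {T' T : ℝ} (h : T' ≤ T) (k : Fin 4)
    (d : (SchwartzMap ℝ ℂ → ℂ) × (Fin 3 → SchwartzMap ℝ ℂ → ℂ)) :
    dataNorm W V s T' k d ≤ dataNorm W V s T k d := by
  unfold dataNorm
  exact add_le_add le_rfl (Finset.sum_le_sum fun i _ =>
    hNorm_mono (inter_subset_inter_right _ (Iio_subset_Iio h)) _)

lemma wp_dn_eq (W V : Set ℝ) (T : ℝ) (a b : ℕ → ℕ → ℝ) (k : Fin 4)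
    (d : (SchwartzMap ℝ ℂ → ℂ) × (Fin 3 → SchwartzMap ℝ ℂ → ℂ)) :
    dataNorm W V (-1) T k d =
      hNorm (-1) W d.1 + ∑ i, hNorm ((bcOf a b k).σ i) (V ∩ Iio T) (d.2 i) := by
  unfold dataNorm
  simp only [ord_eq a b k]

lemma wp_sn_sub_le (s L T : ℝ) (U V W : ℝ → SchwartzMap ℝ ℂ → ℂ) :
    solNorm s L T (U - W) ≤ solNorm s L T (U - V) + solNorm s L T (V - W) := by
  unfold solNorm
  refine iSup₂_le fun t ht => (hNorm_sub_le (U t) (V t) (W t)).trans (add_le_add ?_ ?_)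
  · exact le_iSup₂_of_le (f := fun t (_ : t ∈ Icc 0 T) => hNorm s (Ioo 0 L) ((U - V) t)) t ht le_rfl
  · exact le_iSup₂_of_le (f := fun t (_ : t ∈ Icc 0 T) => hNorm s (Ioo 0 L) ((V - W) t)) t ht le_rfl

lemma wp_sn_comm (s L T : ℝ) (U V : ℝ → SchwartzMap ℝ ℂ → ℂ) :
    solNorm s L T (U - V) = solNorm s L T (V - U) := by
  unfold solNorm
  exact iSup_congr fun t => iSup_congr fun _ => hNorm_sub_comm _ _

/-- Smooth data as an element of the data space. -/
def sdat (L T : ℝ) (φ : ℝ → ℝ) (h : Fin 3 → ℝ → ℝ) :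
    (SchwartzMap ℝ ℂ → ℂ) × (Fin 3 → SchwartzMap ℝ ℂ → ℂ) := (ofFun L φ, fun i => ofFun T (h i))

lemma wp_approx {L T : ℝ} (hL : 0 < L) (hT : 0 < T) (a b : ℕ → ℕ → ℝ) (k : Fin 4) {V : Set ℝ}
    (hV : V = univ ∨ (V = Ioi 0 ∧ k = 0))
    {e : (SchwartzMap ℝ ℂ → ℂ) × (Fin 3 → SchwartzMap ℝ ℂ → ℂ)}
    (he : IsData (win L k) V (-1) L T k e) {ε : ℝ} (hε : 0 < ε) :
    ∃ (φ : ℝ → ℝ) (h : Fin 3 → ℝ → ℝ), ContDiff ℝ (⊤ : ℕ∞) φ ∧ (∀ i, ContDiff ℝ (⊤ : ℕ∞) (h i)) ∧
      ∀ T' ≤ T, dataNorm (win L k) V (-1) T' k (sdat L T' φ h - e) ≤ ENNReal.ofReal ε := by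
  obtain ⟨hfin, hr, hr'⟩ := he
  rw [wp_dn_eq _ _ _ a b] at hfin
  have hε4 : 0 < ENNReal.ofReal (ε / 4) := ENNReal.ofReal_pos.2 (by positivity)
  obtain ⟨d0, hd0⟩ : ∃ d0, V ∩ Iio T = winB d0 false T := by
    rcases hV with rfl | ⟨rfl, -⟩
    · exact ⟨true, by simp [winB]⟩
    · exact ⟨false, by simp [winB, Ioi_inter_Iio]⟩
  rw [win_eq L a b k] at hr hfin ⊢
  obtain ⟨φ, hφ, h1⟩ := mol le_rfl (by norm_num) hL _ _ (le_self_add.trans_lt hfin) hr hε4
  have : ∀ i, ∃ h : ℝ → ℝ, ContDiff ℝ (⊤ : ℕ∞) h ∧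
      hNorm ((bcOf a b k).σ i) (V ∩ Iio T) (ofFun T h - e.2 i) ≤ ENNReal.ofReal (ε / 4) := by
    intro i
    have hf : hNorm ((bcOf a b k).σ i) (V ∩ Iio T) (e.2 i) < ⊤ :=
      ((Finset.single_le_sum (f := fun i => hNorm ((bcOf a b k).σ i) (V ∩ Iio T) (e.2 i))
        (fun _ _ => bot_le) (Finset.mem_univ i)).trans le_add_self).trans_lt hfin
    have hri := hr' i
    rw [hd0] at hf hri ⊢
    exact mol ((bcOf a b k).σ_mem i).1 ((bcOf a b k).σ_mem i).2 hT _ _ hf hri hε4
  choose h hh h2 using this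
  refine ⟨φ, h, hφ, hh, fun T' hT' => ?_⟩
  rw [wp_dn_eq _ _ _ a b]
  have h3 : ∀ i, hNorm ((bcOf a b k).σ i) (V ∩ Iio T') ((sdat L T' φ h - e).2 i) ≤
      ENNReal.ofReal (ε / 4) := by
    intro i
    refine le_trans (le_of_eq (hNorm_congr (g := ofFun T (h i) - e.2 i) fun ψ hψ => ?_))
      ((hNorm_mono (inter_subset_inter_right _ (Iio_subset_Iio hT')) _).trans (h2 i))
    change ofFun T' (h i) ψ - e.2 i ψ = ofFun T (h i) ψ - e.2 i ψ
    rw [ofFun_restrict hT' _ ψ (hψ.trans inter_subset_right)]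
  calc _ ≤ ENNReal.ofReal (ε / 4) + ∑ _i : Fin 3, ENNReal.ofReal (ε / 4) :=
        add_le_add h1 (Finset.sum_le_sum fun i _ => h3 i)
    _ = ENNReal.ofReal ε := by
        rw [Fin.sum_univ_three, ← ENNReal.ofReal_add (by positivity) (by positivity),
          ← ENNReal.ofReal_add (by positivity) (by positivity),
          ← ENNReal.ofReal_add (by positivity) (by positivity)]
        congr 1; ring

lemma wp_near {L : ℝ} (hL : 0 < L) (a b : ℕ → ℕ → ℝ) (k : Fin 4) {V : Set ℝ}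
    (hV : V = univ ∨ (V = Ioi 0 ∧ k = 0)) : ∃ K, 0 < K ∧ ∀ (T' c : ℝ) (φ φ' : ℝ → ℝ)
      (h h' : Fin 3 → ℝ → ℝ), 0 < T' → 0 ≤ c → ContinuousOn φ (Icc 0 L) →
      ContinuousOn φ' (Icc 0 L) → (∀ i, ContinuousOn (h i) (Icc 0 T')) →
      (∀ i, ContinuousOn (h' i) (Icc 0 T')) →
      dataNorm (win L k) V (-1) T' k (sdat L T' φ h - sdat L T' φ' h') ≤ ENNReal.ofReal c →
      wn L (bcOf a b k) (fun x => prim L (bcOf a b k) (fun y => -φ y / 6) x -
        prim L (bcOf a b k) (fun y => -φ' y / 6) x) ≤ K * c ∧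
      ∀ i, bn ((bcOf a b k).σ i) T' (fun t => h i t - h' i t) ≤ ENNReal.ofReal (K * c) := by
  obtain ⟨Ci, hCi, hini⟩ := ini_ge hL (bcOf a b k)
  refine ⟨Ci + 350, by positivity, fun T' c φ φ' h h' hT' hc hφ hφ' hh hh' hd => ?_⟩
  rw [wp_dn_eq _ _ _ a b, win_eq L a b k] at hd
  constructor
  · have c1 : ContinuousOn (fun y => -φ y / 6) (Icc 0 L) := hφ.neg.div_const 6
    have c2 : ContinuousOn (fun y => -φ' y / 6) (Icc 0 L) := hφ'.neg.div_const 6
    rw [← wn_congr hL.le _ fun x hx => prim_sub hL (bcOf a b k) c1 c2 hx]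
    refine (hini (fun y => -φ y / 6 - -φ' y / 6) c (c1.sub c2) hc ?_).trans (by nlinarith)
    have e : (fun y => -φ y / 6 - -φ' y / 6) = fun y => (-1 / 6 : ℝ) * (φ y - φ' y) := by
      ext y; ring
    rw [e, ofFun_const_mul, ofFun_sub hφ hφ']
    refine (hNorm_real_mul _ _).trans ?_
    calc _ ≤ 1 * ENNReal.ofReal c := by
          gcongr
          · exact ENNReal.ofReal_le_one.2 (by norm_num [abs_le])
          · exact le_self_add.trans hd
      _ = _ := one_mul _
  · intro i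
    have h1 : hNorm ((bcOf a b k).σ i) (V ∩ Iio T') (ofFun T' fun t => h i t - h' i t) ≤
        ENNReal.ofReal c := by
      rw [ofFun_sub (hh i) (hh' i)]
      exact ((Finset.single_le_sum (f := fun i => hNorm ((bcOf a b k).σ i) (V ∩ Iio T')
        ((sdat L T' φ h - sdat L T' φ' h').2 i)) (fun _ _ => bot_le) (Finset.mem_univ i)).trans
        le_add_self).trans hd
    rcases hV with rfl | ⟨rfl, rfl⟩
    · rw [univ_inter] at h1
      exact h1.trans (ENNReal.ofReal_le_ofReal (by nlinarith))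
    · rw [Ioi_inter_Iio] at h1
      refine (cutoff (σ_bcOf_zero a b i) hT' ((hh i).sub (hh' i))).trans ?_
      calc _ ≤ 350 * ENNReal.ofReal c := by gcongr; exact h1
        _ = ENNReal.ofReal (350 * c) := by rw [ENNReal.ofReal_mul (by norm_num)]; simp
        _ ≤ _ := ENNReal.ofReal_le_ofReal (by nlinarith)

/-- Approximate `d` by smooth data, turn `ms_ap` into a Lipschitz bound for smooth solutions with
data near `d`, and get existence from `ms_ex` and completeness. -/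
theorem wellPosed_neg_one {L T : ℝ} (hL : 0 < L) (hT : 0 < T) (a b : ℕ → ℕ → ℝ) (k : Fin 4)
    {V : Set ℝ} (hV : V = univ ∨ (V = Ioi 0 ∧ k = 0)) :
    WellPosed (win L k) V (-1) L T a b k := by
  intro d hd
  set P := bcOf a b k with hP
  have hPv : P.Valid := valid_bcOf a b k
  obtain ⟨K, hK, hnear⟩ := wp_near hL a b k hV
  set cd : ℝ := (dataNorm (win L k) V (-1) T k d).toReal with hcd
  have hcd0 : 0 ≤ cd := ENNReal.toReal_nonneg
  obtain ⟨η₁, hη₁, C, hC, hap⟩ := ms_ap hL hPv (K * (cd + 1)) one_pos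
  obtain ⟨η₂, hη₂, hex⟩ := ms_ex hL hPv (K * (cd + 1))
  set r : ℝ := min 1 (min η₁ η₂ / (4 * K)) with hr
  have hr0 : 0 < r := lt_min one_pos (by positivity)
  have hr1 : r ≤ 1 := min_le_left _ _
  have hrη : K * (4 * r) ≤ min η₁ η₂ := by
    have : r ≤ min η₁ η₂ / (4 * K) := min_le_right _ _
    rw [le_div_iff₀ (by positivity)] at this
    linarith
  obtain ⟨φ₀, h₀, hφ₀, hh₀, hd₀⟩ := wp_approx hL hT a b k hV hd hr0
  have sm6 : ∀ {φ : ℝ → ℝ}, SmI L φ → SmI L fun y => -φ y / 6 := fun h =>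
    (ContDiffOn.neg h).div_const 6
  set w₀ := prim L P fun y => -φ₀ y / 6 with hw₀
  have sw₀ : SmI L w₀ := ((sm6 hφ₀.contDiffOn).prim hL P).1
  have bw₀ : wn L P w₀ ≤ K * (cd + 1) := by
    have h1 : dataNorm (win L k) V (-1) T k (sdat L T φ₀ h₀ - sdat L T (fun _ => 0) fun _ _ => 0) ≤
        ENNReal.ofReal (cd + 1) := by
      have e0 : sdat L T (fun _ => 0) (fun _ _ => 0) = 0 := by
        simp only [sdat, ofFun_zero]; rfl
      rw [e0]
      refine (wp_dn_sub_le _ _ _ _ _ _ d _).trans ?_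
      rw [sub_zero, add_comm, ENNReal.ofReal_add hcd0 zero_le_one, hcd,
        ENNReal.ofReal_toReal hd.1.ne]
      exact add_le_add le_rfl ((hd₀ T le_rfl).trans (ENNReal.ofReal_le_ofReal hr1))
    have h2 := (hnear T (cd + 1) φ₀ (fun _ => 0) h₀ (fun _ _ => 0) hT (by positivity)
      hφ₀.continuous.continuousOn continuousOn_const (fun i => (hh₀ i).continuous.continuousOn)
      (fun _ => continuousOn_const) h1).1
    refine le_trans (le_of_eq (wn_congr hL.le _ fun x _ => ?_)) h2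
    have : prim L (bcOf a b k) (fun _ => -(0 : ℝ) / 6) x = 0 := by simp [prim]
    rw [this, sub_zero]
  obtain ⟨T₁, hT₁, hap⟩ := hap w₀ h₀ sw₀ bw₀ hh₀
  obtain ⟨T₂, hT₂, hex⟩ := hex w₀ h₀ sw₀ bw₀ hh₀
  refine ⟨min T (min T₁ T₂), ⟨lt_min hT (lt_min hT₁ hT₂), min_le_left _ _⟩, ENNReal.ofReal r,
    ENNReal.ofReal_pos.2 hr0, fun T' hT' e he hed => ?_⟩
  have hT'T : T' ≤ T := hT'.2.trans (min_le_left _ _)
  have hT'1 : T' ∈ Ioc 0 T₁ := ⟨hT'.1, hT'.2.trans ((min_le_right _ _).trans (min_le_left _ _))⟩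
  have hT'2 : T' ∈ Ioc 0 T₂ := ⟨hT'.1, hT'.2.trans ((min_le_right _ _).trans (min_le_right _ _))⟩
  have hU := uniqueDiffOn_Icc hT'.1
  have add2 : ∀ {x y z : (SchwartzMap ℝ ℂ → ℂ) × (Fin 3 → SchwartzMap ℝ ℂ → ℂ)} {c c' : ℝ},
      0 ≤ c → 0 ≤ c' → dataNorm (win L k) V (-1) T' k (x - y) ≤ ENNReal.ofReal c →
      dataNorm (win L k) V (-1) T' k (y - z) ≤ ENNReal.ofReal c' →
      dataNorm (win L k) V (-1) T' k (x - z) ≤ ENNReal.ofReal (c + c') := by
    intro x y z c c' hc hc' h1 h2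
    rw [ENNReal.ofReal_add hc hc']
    exact (wp_dn_sub_le _ _ _ _ _ _ y _).trans (add_le_add h1 h2)
  have hd₀' : dataNorm (win L k) V (-1) T' k (d - sdat L T' φ₀ h₀) ≤ ENNReal.ofReal r := by
    rw [wp_dn_comm]; exact hd₀ T' hT'T
  have hed' : dataNorm (win L k) V (-1) T' k (e - d) ≤ ENNReal.ofReal r :=
    (wp_dn_mono _ _ _ hT'T _ _).trans hed.le
  have mkNear : ∀ u, KSol L 0 T' u → dataNorm (win L k) V (-1) T' k
      (sdat L T' (fun x => u x 0) (bop L P u) - d) ≤ ENNReal.ofReal (3 * r) →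
      Near L P T' η₁ w₀ h₀ u (prim L P fun y => -u y 0 / 6) := by
    intro u hu hud
    have s0 := hu.1.slice_x (t := 0) ⟨le_rfl, hT'.1.le⟩
    have h1 := hnear T' (3 * r + r) _ φ₀ _ h₀ hT'.1 (by positivity) s0.cont
      hφ₀.continuous.continuousOn (fun i => (contDiffOn_bop hL P hU hu.1 i).continuousOn)
      (fun i => (hh₀ i).continuous.continuousOn) (add2 (by positivity) hr0.le hud hd₀')
    have h2 : K * (3 * r + r) ≤ η₁ := by linarith [min_le_left η₁ η₂]
    exact ⟨hu, ((sm6 s0).prim hL P).1, ((sm6 s0).prim hL P).2, h1.1.trans h2,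
      fun i => (h1.2 i).trans (ENNReal.ofReal_le_ofReal h2)⟩
  have stab : ∀ u u', KSol L 0 T' u → KSol L 0 T' u' → dataNorm (win L k) V (-1) T' k
      (sdat L T' (fun x => u x 0) (bop L P u) - d) ≤ ENNReal.ofReal (3 * r) →
      dataNorm (win L k) V (-1) T' k
        (sdat L T' (fun x => u' x 0) (bop L P u') - d) ≤ ENNReal.ofReal (3 * r) →
      ∀ D, 0 ≤ D → dataNorm (win L k) V (-1) T' k (sdat L T' (fun x => u x 0) (bop L P u) -
        sdat L T' (fun x => u' x 0) (bop L P u')) ≤ ENNReal.ofReal D →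
      solNorm (-1) L T' ((fun t => ofFun L fun x => u x t) - fun t => ofFun L fun x => u' x t) ≤
        ENNReal.ofReal (C * (K * D)) := by
    intro u u' hu hu' h1 h2 D hD h3
    have s0 := hu.1.slice_x (t := 0) ⟨le_rfl, hT'.1.le⟩
    have s0' := hu'.1.slice_x (t := 0) ⟨le_rfl, hT'.1.le⟩
    have h4 := hnear T' D _ _ _ _ hT'.1 hD s0.cont s0'.cont
      (fun i => (contDiffOn_bop hL P hU hu.1 i).continuousOn)
      (fun i => (contDiffOn_bop hL P hU hu'.1 i).continuousOn) h3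
    exact iSup₂_le fun t ht => (hap T' hT'1 u _ (mkNear u hu h1)).2 u' _ (mkNear u' hu' h2) (K * D)
      (by positivity) h4.1 h4.2 t ht
  constructor
  · have step : ∀ n : ℕ, ∃ u, KSol L 0 T' u ∧ dataNorm (win L k) V (-1) T' k
        (sdat L T' (fun x => u x 0) (bop L P u) - e) ≤ ENNReal.ofReal (r / (n + 1)) := by
      intro n
      have hρ : 0 < r / (n + 1) / 43 := by positivity
      have hρr : r / (n + 1) / 43 ≤ r := by
        have : r / (n + 1) ≤ r := div_le_self hr0.le (by simp)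
        linarith
      obtain ⟨φ, h, hφ, hh, hφe⟩ := wp_approx hL hT a b k hV he hρ
      have h1 := hnear T' (r / (n + 1) / 43 + r + r) φ φ₀ h h₀ hT'.1 (by positivity)
        hφ.continuous.continuousOn hφ₀.continuous.continuousOn
        (fun i => (hh i).continuous.continuousOn) (fun i => (hh₀ i).continuous.continuousOn)
        (add2 (by positivity) hr0.le (add2 hρ.le hr0.le (hφe T' hT'T) hed') hd₀')
      have h2 : K * (r / (n + 1) / 43 + r + r) ≤ η₂ := by
        have : K * (r / (n + 1) / 43 + r + r) ≤ K * (4 * r) := by gcongr; linarith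
        linarith [min_le_right η₁ η₂]
      have sw := (sm6 hφ.contDiffOn).prim hL P
      obtain ⟨u, hu, hb, w', sw', hw', hww⟩ := hex T' hT'2 _ h sw.1 hh (h1.1.trans h2)
        (fun i => (h1.2 i).trans (ENNReal.ofReal_le_ofReal h2)) _ hρ
      refine ⟨u, hu, ?_⟩
      have s0 := hu.1.slice_x (t := 0) ⟨le_rfl, hT'.1.le⟩
      have h3 : dataNorm (win L k) V (-1) T' k (sdat L T' (fun x => u x 0) (bop L P u) -
          sdat L T' φ h) ≤ ENNReal.ofReal (42 * (r / (n + 1) / 43)) := by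
        rw [wp_dn_eq _ _ _ a b, Finset.sum_eq_zero, add_zero, win_eq L a b k]
        · have sg : SmI L fun x => -6 * (w' x - prim L P (fun y => -φ y / 6) x) :=
            contDiffOn_const.mul (ContDiffOn.sub sw' sw.1)
          have e1 : (sdat L T' (fun x => u x 0) (bop L P u) - sdat L T' φ h).1 = ofFun L
              (dI L fun x => -6 * (w' x - prim L P (fun y => -φ y / 6) x)) := by
            change ofFun L (fun x => u x 0) - ofFun L φ = _
            rw [← ofFun_sub s0.cont hφ.continuous.continuousOn]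
            refine ofFun_congr fun x hx => ?_
            have hx' := Ioo_subset_Icc_self hx
            symm
            apply dI_eq hL hx'
            have := ((sw'.hasDerivWithinAt hx').sub (sw.1.hasDerivWithinAt hx')).const_mul (-6)
            rw [hw' x hx', sw.2 x hx'] at this
            refine this.congr_deriv ?_
            ring
          rw [e1]
          refine (ini_le hL P sg).trans (ENNReal.ofReal_le_ofReal ?_)
          rw [wn_const_mul]
          have : |(-6 : ℝ)| = 6 := by norm_num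
          rw [this]
          linarith
        · intro i _
          refine hNorm_eq_zero _ _ _ fun ψ _ => ?_
          change ofFun T' (bop L P u i) ψ - ofFun T' (h i) ψ = 0
          rw [ofFun_congr (hb i), sub_self]
      refine (add2 (by positivity) hρ.le h3 (hφe T' hT'T)).trans (le_of_eq ?_)
      congr 1; ring
    choose u hu hue using step
    have hn : ∀ n : ℕ, r / (n + 1) ≤ r := fun n => div_le_self hr0.le (by simp)
    have hud : ∀ n, dataNorm (win L k) V (-1) T' k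
        (sdat L T' (fun x => u n x 0) (bop L P (u n)) - d) ≤ ENNReal.ofReal (3 * r) := fun n =>
      (add2 (by positivity) hr0.le (hue n) hed').trans
        (ENNReal.ofReal_le_ofReal (by linarith [hn n]))
    have cau : ∀ n m : ℕ, ∀ t ∈ Icc 0 T', hNorm (-1) (Ioo 0 L)
        (ofFun L (fun x => u n x t) - ofFun L fun x => u m x t) ≤
        ENNReal.ofReal (C * K * (r / (n + 1))) + ENNReal.ofReal (C * K * (r / (m + 1))) := by
      intro n m t ht
      have := stab _ _ (hu n) (hu m) (hud n) (hud m) _ (by positivity)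
        (add2 (c' := r / (m + 1)) (by positivity) (by positivity) (hue n)
          (by rw [wp_dn_comm]; exact hue m))
      rw [← ENNReal.ofReal_add (by positivity) (by positivity)]
      refine le_trans ?_ (this.trans (le_of_eq (by congr 1; ring)))
      exact le_iSup₂_of_le (f := fun t (_ : t ∈ Icc 0 T') => hNorm (-1) (Ioo 0 L)
        (((fun t => ofFun L fun x => u n x t) - fun t => ofFun L fun x => u m x t) t)) t ht le_rfl
    have lim0 : ∀ c : ℝ, Tendsto (fun n : ℕ => ENNReal.ofReal (c * (r / (n + 1)))) atTop (𝓝 0) := by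
      intro c
      have h1 : Tendsto (fun n : ℕ => c * (r / ((n : ℝ) + 1))) atTop (𝓝 (c * 0)) :=
        (tendsto_const_nhds.div_atTop
          (tendsto_atTop_add_const_right _ _ tendsto_natCast_atTop_atTop)).const_mul c
      rw [mul_zero] at h1
      simpa using ENNReal.tendsto_ofReal h1
    have exU : ∀ t, ∃ Ut : SchwartzMap ℝ ℂ → ℂ, t ∈ Icc 0 T' → ∀ n : ℕ, hNorm (-1) (Ioo 0 L)
        (ofFun L (fun x => u n x t) - Ut) ≤ ENNReal.ofReal (C * K * (r / (n + 1))) := by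
      intro t
      by_cases ht : t ∈ Icc 0 T'
      · obtain ⟨Ut, hUt⟩ := exists_limit (σ := -1) (W := Ioo 0 L)
          (F := fun n => ofFun L fun x => u n x t) (by
            intro ε hε
            obtain ⟨N, hN⟩ := eventually_atTop.1 ((ENNReal.tendsto_nhds_zero.1 (lim0 (C * K)))
              (ε / 2) (ENNReal.half_pos hε.ne'))
            exact ⟨N, fun n hn m hm => (cau n m t ht).trans
              ((add_le_add (hN n hn) (hN m hm)).trans (ENNReal.add_halves ε).le)⟩)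
        refine ⟨Ut, fun _ n => ?_⟩
        have h1 := ((tendsto_const_nhds (x := ENNReal.ofReal (C * K * (r / (n + 1))))).add
          (lim0 (C * K))).add hUt
        rw [add_zero, add_zero] at h1
        exact ge_of_tendsto' h1 fun m => (hNorm_sub_le _ (ofFun L fun x => u m x t) _).trans
          (add_le_add (cau n m t ht) le_rfl)
      · exact ⟨0, fun h => absurd h ht⟩
    choose U hU' using exU
    refine ⟨U, fun t ht => ⟨?_, ?_⟩, u, fun n => (isSmoothSol_iff hL hT'.1 _).2 (hu n), ?_, ?_⟩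
    · have h1 := hNorm_sub_le (σ := -1) (W := Ioo 0 L) (U t) (ofFun L fun x => u 0 x t) 0
      rw [sub_zero, sub_zero, hNorm_sub_comm] at h1
      exact h1.trans_lt (ENNReal.add_lt_top.2 ⟨(hU' t ht 0).trans_lt ENNReal.ofReal_lt_top,
        hNorm_ofFun_lt_top (by norm_num) _ ((hu 0).1.slice_x ht).cont⟩)
    · rw [ENNReal.tendsto_nhds_zero]
      intro ε hε
      have hε2 := ENNReal.half_pos hε.ne'
      have hε4 := ENNReal.half_pos hε2.ne'
      obtain ⟨n, hn⟩ := ((ENNReal.tendsto_nhds_zero.1 (lim0 (C * K))) (ε / 2 / 2) hε4).exists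
      filter_upwards [(ENNReal.tendsto_nhds_zero.1 (curve_continuous (s := -1) (by norm_num) hL
        (hu n).1.ctOn ht)) (ε / 2) hε2, self_mem_nhdsWithin] with τ h1 hτ
      have h2 := hNorm_sub_le (σ := -1) (W := Ioo 0 L) (U τ) (ofFun L fun x => u n x τ) (U t)
      have h3 := hNorm_sub_le (σ := -1) (W := Ioo 0 L) (ofFun L fun x => u n x τ)
        (ofFun L fun x => u n x t) (U t)
      rw [hNorm_sub_comm (U τ) (ofFun L fun x => u n x τ)] at h2
      calc _ ≤ ε / 2 / 2 + (ε / 2 + ε / 2 / 2) := h2.trans (add_le_add ((hU' τ hτ n).trans hn)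
            (h3.trans (add_le_add h1 ((hU' t ht n).trans hn))))
        _ = ε := by
          rw [add_left_comm, ENNReal.add_halves, ENNReal.add_halves]
    · refine tendsto_of_tendsto_of_tendsto_of_le_of_le tendsto_const_nhds (lim0 1)
        (fun _ => bot_le) fun n => ?_
      simp only [one_mul, bdry_eq_bop]
      exact hue n
    · exact tendsto_of_tendsto_of_tendsto_of_le_of_le tendsto_const_nhds (lim0 (C * K))
        (fun _ => bot_le) fun n => iSup₂_le fun t ht => hU' t ht n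
  · intro ε hε
    obtain ⟨D, hD, hDε⟩ : ∃ D : ℝ, 0 < D ∧ ENNReal.ofReal (C * (K * D)) < ε := by
      have h1 : Tendsto (fun D : ℝ => ENNReal.ofReal (C * (K * D))) (𝓝[>] 0) (𝓝 0) := by
        have : Tendsto (fun D : ℝ => C * (K * D)) (𝓝 0) (𝓝 (C * (K * 0))) :=
          (continuous_const.mul (continuous_const.mul continuous_id)).tendsto 0
        simpa using ENNReal.tendsto_ofReal (this.mono_left nhdsWithin_le_nhds)
      obtain ⟨D, h2, h3⟩ := ((h1.eventually (gt_mem_nhds hε)).and self_mem_nhdsWithin).exists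
      exact ⟨D, h3, h2⟩
    have hm : 0 < min r (D / 3) := lt_min hr0 (by positivity)
    refine ⟨ENNReal.ofReal (min r (D / 3)), ENNReal.ofReal_pos.2 hm,
      fun e' _ hee U U' ⟨_, u, hu, hu1, hu2⟩ ⟨_, u', hu', hu1', hu2'⟩ => ?_⟩
    have hee' : dataNorm (win L k) V (-1) T' k (e' - e) ≤ ENNReal.ofReal (min r (D / 3)) :=
      (wp_dn_mono _ _ _ hT'T _ _).trans hee.le
    have h1 := (hu2'.add (tendsto_const_nhds (x := ENNReal.ofReal (C * (K * D))))).add hu2
    rw [zero_add, add_zero] at h1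
    refine lt_of_le_of_lt (ge_of_tendsto h1 ?_) hDε
    filter_upwards [(ENNReal.tendsto_nhds_zero.1 hu1) _ (ENNReal.ofReal_pos.2 hm),
      (ENNReal.tendsto_nhds_zero.1 hu1') _ (ENNReal.ofReal_pos.2 hm)] with n g1 g2
    simp only [bdry_eq_bop] at g1 g2
    have m1 := min_le_left r (D / 3)
    have m2 := min_le_right r (D / 3)
    have g3 := add2 hm.le hm.le g2 hee'
    have := stab _ _ ((isSmoothSol_iff hL hT'.1 _).1 (hu' n)) ((isSmoothSol_iff hL hT'.1 _).1 (hu n))
      ((add2 (by positivity) hr0.le g3 hed').trans (ENNReal.ofReal_le_ofReal (by linarith)))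
      ((add2 hm.le hr0.le g1 hed').trans (ENNReal.ofReal_le_ofReal (by linarith))) D hD.le
      ((add2 (by positivity) hm.le g3 (by rw [wp_dn_comm]; exact g1)).trans
        (ENNReal.ofReal_le_ofReal (by linarith)))
    refine (wp_sn_sub_le _ _ _ U' (fun t => ofFun L fun x => u n x t) U).trans
      (add_le_add ?_ le_rfl)
    refine (wp_sn_sub_le _ _ _ U' (fun t => ofFun L fun x => u' n x t) _).trans
      (add_le_add ?_ this)
    rw [wp_sn_comm]

end Pool.Agent.Lib.MP_14aec4_an.W
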