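import Pool.Agent.Lib.MP_14aec4_an.UEx
import Pool.Agent.Lib.MP_14aec4_an.WP

/-!
Existence and stability of smooth solutions on a time interval that depends only on the size of
the data.
-/

noncomputable section

open MeasureTheory Set Filter Topology FourierTransform
open scoped ENNReal ComplexConjugate

namespace Pool.Agent.Lib.MP_14aec4_an.W

lemma ums_cut {γ t : ℝ} (hγ : 0 < γ) (h1 : -1 / γ ≤ t) (h2 : t ≤ 1 / γ) : cut (γ * t) = 1 := by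
  refine cut_one (abs_le.2 ⟨?_, ?_⟩)
  · rwa [div_le_iff₀' hγ] at h1
  · rwa [le_div_iff₀' hγ] at h2

lemma ums_sqrt {γ c : ℝ} (hγ : 1 ≤ γ) (hc : c ≤ 4 / γ) : Real.sqrt c ≤ 2 :=
  Real.sqrt_le_iff.2 ⟨by norm_num, hc.trans ((div_le_self (by norm_num) hγ).trans (by norm_num))⟩

theorem uex_mid {L κ γ R M C T' : ℝ} (hL : 0 < L) {P : BC} (hP : P.Valid)
    (hg : Good L κ P γ R M C) (hT : T' ∈ Ioc 0 (1 / γ)) {w q : ℝ → ℝ} (hw : SmI L w)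
    (hq : Ric L κ w q) (hQ : nL L q ≤ R) {ℓb : Fin 3 → ℝ → ℝ}
    (hℓ : ∀ i, ContDiff ℝ (⊤ : ℕ∞) (ℓb i))
    (h : ∃ τ₀ > 0, ∀ τ ∈ Ioc 0 τ₀, ∃ H : Fin 3 → ℝ → ℝ, (∀ i, SC (H i)) ∧
      (∀ i, ∀ t ≤ T', H i t = rp (-τ) τ t * ℓb i t) ∧
      SBd L γ w1 (linS L P γ (fun x t => deriv (rp (-τ) τ) t * q x)
        fun i t => H i t - P.dyn i * deriv (rp (-τ) τ) t * q (ept L i)) R)
    {ε : ℝ} (hε : 0 < ε) :
    ∃ u, KSol L 0 T' u ∧ (∀ i, ∀ t ∈ Ioo 0 T', bop L P u i t = -6 * ℓb i t + 6 * κ ^ 2 * P.c i) ∧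
      ∃ w', SmI L w' ∧ (∀ x ∈ Icc 0 L, dI L w' x = -u x 0 / 6) ∧
        wn L P (fun x => w' x - w x) ≤ ε := by
  have hγ := hg.big
  obtain ⟨ε', hε', hinit⟩ := exmid_init hL P hw hq hε
  obtain ⟨τ₀, hτ₀, h⟩ := h
  obtain ⟨τ₁, hτ₁, hmis⟩ := mismatch hL κ hP hq.sm hℓ hε'
  have hγ0 : 0 < γ := zero_lt_one.trans_le hγ.1
  obtain ⟨τ, hτ, h0, h1, h2⟩ : ∃ τ, 0 < τ ∧ τ ≤ τ₀ ∧ τ ≤ τ₁ ∧ τ ≤ 1 / γ :=
    ⟨min τ₀ (min τ₁ (1 / γ)), lt_min hτ₀ (lt_min hτ₁ (by positivity)), min_le_left _ _,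
      (min_le_right _ _).trans (min_le_left _ _), (min_le_right _ _).trans (min_le_right _ _)⟩
  obtain ⟨H, hH, hHe, bl⟩ := h τ ⟨hτ, h0⟩
  have hX := sc_deriv_rp hτ (-τ)
  have hX0 : ∀ t ≤ -τ, deriv (rp (-τ) τ) t = 0 := fun t ht =>
    deriv_rp_zero hτ fun h => absurd h.1 (not_lt.2 ht)
  have hX1 : ∀ t, 0 ≤ t → deriv (rp (-τ) τ) t = 0 := fun t ht =>
    deriv_rp_zero hτ fun h => absurd h.2 (not_lt.2 (by linarith))
  obtain ⟨V, hV, -, hV0⟩ := hg.ex (deriv (rp (-τ) τ)) q (fun _ _ => 0) _ _ 0 (-τ) hX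
    (integral_deriv_rp_le hγ0 hτ (t₀ := -τ) (by rw [neg_div]; linarith)) hq.sm hQ (SC2.zero L)
    le_rfl (by simp) (fun x _ => by rw [spec_zero]; exact Bd.zero _ _ _ _)
    (by simp only [add_zero])
    (fun i => (hH i).sub ((SC.mul_left contDiff_const hX).mul_right contDiff_const)) bl
    (fun x _ t ht => by simp only [hX0 t ht, zero_mul])
    (fun i t ht => by
      simp only [hHe i t (by linarith [hT.1]), hX0 t ht, rp_zero hτ ht, zero_mul, mul_zero,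
        sub_zero])
  have hZ := hV.fsol hL hγ (t₀ := -τ) (t₁ := T') fun t ht =>
    ums_cut hγ0 (by rw [neg_div]; linarith [ht.1]) (ht.2.le.trans hT.2)
  obtain ⟨hk, hb⟩ := (hZ.mono (s₀ := 0) (by linarith) le_rfl).ksol hL hT.1
    fun x _ t ht => by simp only [hX1 t ht.1.le, zero_mul]
  have hd := hmis τ ⟨hτ, h1⟩ (zOf γ V)
    ((hZ.mono le_rfl hT.1.le).congr (fun _ _ _ _ => rfl) fun i t ht => by
      rw [hHe i t (by linarith [ht.2, hT.1])])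
    fun x hx => by rw [zOf, hV0 0 x hx _ le_rfl, mul_zero]
  obtain ⟨w', h3, h4, h5⟩ := hinit (fun x => zOf γ V x 0)
    (hZ.sm.slice_x ⟨by linarith, hT.1.le⟩) hd
  refine ⟨miura L κ (zOf γ V), hk, fun i t ht => ?_, w', h3, fun x hx => ?_, h5⟩
  · rw [hb i t ht, hHe i t ht.2.le, hX1 t ht.1.le, rp_one hτ (by linarith [ht.1])]
    ring
  · rw [h4 x hx, miura, px_eq_dI]
    ring

theorem ums_ex {L : ℝ} (hL : 0 < L) {P : BC} (hP : P.Valid) {R : ℝ} (hR : 0 ≤ R) :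
    ∃ Ts > 0, ∀ T' ∈ Ioc 0 Ts, ∀ (w : ℝ → ℝ) (h : Fin 3 → ℝ → ℝ), SmI L w →
      (∀ i, ContDiff ℝ (⊤ : ℕ∞) (h i)) → wn L P w ≤ R →
      (∀ i, bn (P.σ i) T' (h i) ≤ ENNReal.ofReal R) →
      ∀ ε > 0, ∃ u, KSol L 0 T' u ∧ (∀ i, ∀ t ∈ Ioo 0 T', bop L P u i t = h i t) ∧
        ∃ w', SmI L w' ∧ (∀ x ∈ Icc 0 L, dI L w' x = -u x 0 / 6) ∧
          wn L P (fun x => w' x - w x) ≤ ε := by
  obtain ⟨Ce, hCe, hext⟩ := ext_ex
  obtain ⟨κ, hκ0, hκ⟩ : ∃ κ : ℝ, 0 < κ ∧ 4 * R ^ 2 < κ := ⟨4 * R ^ 2 + 1, by positivity, lt_add_one _⟩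
  obtain ⟨i₀, hi₀⟩ := Finite.exists_max fun i => |κ ^ 2 * P.c i|
  obtain ⟨K, hK⟩ : ∃ K, K = |κ ^ 2 * P.c i₀| := ⟨_, rfl⟩
  have hK0 : 0 ≤ K := hK ▸ abs_nonneg _
  obtain ⟨Q, hQ⟩ : ∃ Q, Q = R + (Real.sqrt L + 2) * (κ + κ ^ 2 * L) := ⟨_, rfl⟩
  have hQ0 : 0 ≤ Q := by rw [hQ]; positivity
  obtain ⟨M, C, -, -, hev⟩ := good_eventually hL κ hP
    (R := 7 * (Ce * R + 1) + 252 * K + 1926 * Q) (by positivity)
  obtain ⟨γ, hg⟩ := hev.exists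
  have hγ := hg.big
  have hγ0 : 0 < γ := one_pos.trans_le hγ.1
  refine ⟨1 / γ, by positivity, fun T' hT' w h hw hh hwR hhR ε hε => ?_⟩
  obtain ⟨q, hq⟩ := ric_exists hL hw ((nL_le_wn L P w).trans hwR) hκ
  have hqw : wn L P q ≤ Q := (hq.wn_le hL P hw).trans (by linarith)
  have hqn : nL L q ≤ Q := (nL_le_wn L P q).trans hqw
  have hCR : 0 ≤ Ce * R := by positivity
  obtain ⟨u, hu1, hu2, hu3⟩ := uex_mid hL hP hg hT' hw hq (by linarith)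
    (ℓb := fun i t => -h i t / 6 + κ ^ 2 * P.c i)
    (fun i => ((hh i).neg.div_const 6).add contDiff_const) (by
      choose τ₀ hτ₀ hE using fun i => hext (P.σ i) γ T' R 1 (h i)
        (msex_sigma P i).1 (msex_sigma P i).2 hγ.1 hT'.2 hT'.1 hR one_pos (hh i) (hhR i)
      obtain ⟨i₁, hi₁⟩ := Finite.exists_min τ₀
      refine ⟨min (τ₀ i₁) (1 / γ), lt_min (hτ₀ _) (by positivity), fun τ hτ => ?_⟩
      have hτ' : τ ∈ Ioc 0 (1 / γ) := ⟨hτ.1, hτ.2.trans (min_le_right _ _)⟩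
      choose E hE1 hE2 hE3 using fun i =>
        hE i τ ⟨hτ.1, (hτ.2.trans (min_le_left _ _)).trans (hi₁ i)⟩
      have hsh := fun i => msex_short hγ.1 hτ' (msex_sigma P i).2 (b := 2 / γ) (by positivity)
        (sc_cut_scale hγ0) (fun t ht => cut_zero (by
          rw [div_lt_iff₀' hγ0] at ht
          exact ht.le.trans (le_abs_self _))) (fun t => cut_mem _)
        (k := fun _ => κ ^ 2 * P.c i) contDiff_const hK0 (fun t _ => hK ▸ hi₀ i)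
      have hE' : ∀ i, SC fun t => E i t * (-1 / 6) := fun i => (hE1 i).mul_right contDiff_const
      refine ⟨fun i t => E i t * (-1 / 6) + rp (-τ) τ t * cut (γ * t) * (κ ^ 2 * P.c i),
        fun i => (hE' i).add (hsh i).1, fun i t ht => ?_, ?_⟩
      · beta_reduce
        rw [hE2 i t ht]
        rcases le_or_gt (-1 / γ) t with h1 | h1
        · rw [ums_cut hγ0 h1 (ht.trans hT'.2)]
          ring
        · rw [rp_zero hτ.1 (by rw [neg_div] at h1; linarith [hτ'.2])]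
          ring
      · refine fun x hx j => (msex_lin hL hγ P hτ' hq.sm (q₀ := fun _ => 0) contDiffOn_const
          (B := 0) (fun x _ => by simp [dI]) (fun i => (hE' i).add (hsh i).1)
          (b := (Ce * R + 1) / 6 + 3 * K * Real.sqrt (2 / γ + 1 / γ)) (by positivity)
          (fun i => ?_) hqw x hx j).mono ?_
        · have e : spec γ (fun t => E i t * (-1 / 6) +
              rp (-τ) τ t * cut (γ * t) * (κ ^ 2 * P.c i)) =
              fun s => ((-1 / 6 : ℝ) : ℂ) * spec γ (E i) s + spec γ (fun t =>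
                rp (-τ) τ t * cut (γ * t) * (κ ^ 2 * P.c i)) s := by
            funext s
            rw [spec_add γ (hE' i) (hsh i).1, spec_mul_const]
          rw [e]
          refine Bd.add hγ0 adm_w1 ((rd_spec γ (hE1 i)).const_mul _).aesm
            (rd_spec γ (hsh i).1).aesm (by positivity) (by positivity)
            (((hE3 i).const_mul _).mono (le_of_eq ?_)) (hsh i).2
          rw [Complex.norm_real, Real.norm_eq_abs, abs_of_neg (by norm_num)]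
          ring
        · simp only [sub_zero]
          have h1 : Real.sqrt (2 / γ + 1 / γ) ≤ 2 := ums_sqrt hγ.1 (by
            rw [← add_div]
            gcongr
            norm_num)
          have h2 := mul_le_mul_of_nonneg_left h1 hK0
          have h3 := mul_le_mul_of_nonneg_left hg.aa1 hQ0
          linarith) hε
  exact ⟨u, hu1, fun i t ht => by rw [hu2 i t ht]; ring, hu3⟩

lemma ums_pair {L κ γ R M C t₁ T₁ : ℝ} (hL : 0 < L) {P : BC} (hg : Good L κ P γ R M C)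
    (hM : 0 ≤ M) (hC : 0 ≤ C) (ht₁ : 0 < t₁) (hT : T₁ ≤ 1 / γ)
    {u u' G G' Gr Gr' : ℝ → ℝ → ℝ} {ℓ ℓ' : Fin 3 → ℝ → ℝ} {X q q' : ℝ → ℝ} {d f f₂ : ℝ}
    (hX : SC X) (hX' : ∫ t, |Real.exp (-γ * t) * X t| ≤ 3) (hq : SmI L q) (hq' : SmI L q')
    (hGr : SC2 L Gr) (hGr' : SC2 L Gr') (hG : G = fun x t => X t * q x + Gr x t)
    (hG' : G' = fun x t => X t * q' x + Gr' x t) (hℓ : ∀ i, SC (ℓ i)) (hℓ' : ∀ i, SC (ℓ' i))
    (z₁ : ∀ x ∈ Icc 0 L, ∀ t ≤ 0, G x t = 0) (z₂ : ∀ i, ∀ t ≤ 0, ℓ i t = 0)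
    (z₁' : ∀ x ∈ Icc 0 L, ∀ t ≤ 0, G' x t = 0) (z₂' : ∀ i, ∀ t ≤ 0, ℓ' i t = 0)
    (bl : SBd L γ w1 (linS L P γ G ℓ) R) (bl' : SBd L γ w1 (linS L P γ G' ℓ') R) (hd : 0 ≤ d)
    (bd : SBd L γ w1 (linS L P γ (fun x t => G x t - G' x t) fun i t => ℓ i t - ℓ' i t) d)
    (hf : 0 ≤ f) (hfM : (M + 1) * f ≤ 1) (hf₂ : 0 ≤ f₂)
    (bG : ∀ x ∈ Icc 0 L, Bd γ w1 (-1 / 3) (spec γ (Gr x)) f)
    (bG' : ∀ x ∈ Icc 0 L, Bd γ w1 (-1 / 3) (spec γ (Gr' x)) f)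
    (bG₂ : ∀ x ∈ Icc 0 L, Bd γ w1 (-1 / 3) (spec γ fun t => Gr x t - Gr' x t) f₂)
    (hu : ∀ Z, FSol L κ P 0 T₁ G ℓ Z → (∀ x ∈ Icc 0 L, Z x 0 = 0) →
      ∀ x ∈ Icc 0 L, ∀ t ∈ Icc t₁ T₁, miura L κ Z x t = u x t)
    (hu' : ∀ Z, FSol L κ P 0 T₁ G' ℓ' Z → (∀ x ∈ Icc 0 L, Z x 0 = 0) →
      ∀ x ∈ Icc 0 L, ∀ t ∈ Icc t₁ T₁, miura L κ Z x t = u' x t) (hQ : nL L q ≤ R)
    (hQ' : nL L q' ≤ R) :
    ∀ t ∈ Icc t₁ T₁, hNorm (-1) (Ioo 0 L) (ofFun L (fun x => u x t) - ofFun L fun x => u' x t) ≤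
      ENNReal.ofReal (42 * (1 + Real.sqrt L * (6 * (6 * R + 20 * (1 + L) * (M + C * M + 1)))) *
        (3 * (6 * nL L (fun x => q x - q' x) + 20 * (1 + L) * (C * d + C * (C * d) + f₂)))) := by
  have hγ := hg.big
  have hγ0 : 0 < γ := lt_of_lt_of_le one_pos hγ.1
  have hm := sc_cut_scale hγ0
  have hf1 : f ≤ 1 := by nlinarith
  obtain ⟨V, hV, bV, zV⟩ := hg.ex X q Gr G ℓ f 0 hX hX' hq hQ hGr hf hfM bG hG hℓ bl z₁ z₂
  obtain ⟨V', hV', bV', zV'⟩ :=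
    hg.ex X q' Gr' G' ℓ' f 0 hX hX' hq' hQ' hGr' hf hfM bG' hG' hℓ' bl' z₁' z₂'
  have hm1 : ∀ t ∈ Ioo 0 T₁, cut (γ * t) = 1 := fun t ht => ums_cut hγ0
    ((div_nonpos_of_nonpos_of_nonneg (by norm_num) hγ0.le).trans ht.1.le) (ht.2.le.trans hT)
  have eu := hu _ (hV.fsol hL hγ hm1) fun x hx => by simp [zOf, zV 0 x hx 0 le_rfl]
  have eu' := hu' _ (hV'.fsol hL hγ hm1) fun x hx => by simp [zOf, zV' 0 x hx 0 le_rfl]
  have hexp : ∀ t ∈ Icc t₁ T₁, Real.exp (γ * t) ≤ 3 := fun t ht => msap_exp_le hγ0 (ht.2.trans hT)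
  intro t ht
  have ht0 : (0 : ℝ) ≤ t := ht₁.le.trans ht.1
  have bdiff := hg.diff _ _ _ _ _ _ _ hV hV' bV bV' hd bd
  have single : ∀ {G Gr : ℝ → ℝ → ℝ} {ℓ : Fin 3 → ℝ → ℝ} {q : ℝ → ℝ}
      {V : Fin 3 → ℝ → ℝ → ℂ}, FP L κ P γ (fun t => cut (γ * t)) G ℓ V →
      SBd L γ w1 V M → (∀ x ∈ Icc 0 L, tl 0 (V 0 x) 0 = 0) → SmI L q → SC2 L Gr →
      (∀ x ∈ Icc 0 L, Bd γ w1 (-1 / 3) (spec γ (Gr x)) f) →
      (G = fun x t => X t * q x + Gr x t) → nL L q ≤ R →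
      nL L (fun x => zOf γ V x t) ≤ 3 * (6 * R + 20 * (1 + L) * (M + C * M + 1)) := by
    intro G Gr ℓ q V hV bV zV hq hGr bG hG hQ
    have := ufp_energy hL hγ hV (fp_zero L κ P γ hm) (δ := M) (δ' := C * M) (t₀ := 0) hM
      (by positivity) (by simpa using bV)
      (hg.nl V _ M hV.rd (fun _ => RD2.zero) bV (fix_sbd_zero _ _ _ _) hM (by simpa using bV))
      (fun x hx => by rw [zV x hx, tl_zero_fun]) hX hX' hq
      hGr hf bG (fun x _ t => by simp [hG]) ht0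
    simp only [tl_zero_fun, sub_zero] at this
    unfold zOf
    rw [nL_const_mul, abs_of_pos (Real.exp_pos _)]
    have h3 := hexp t ht
    have h4 := nL_nonneg L fun x => tl 0 (V 0 x) t
    have h5 := mul_le_mul_of_nonneg_left hf1 (by positivity : 0 ≤ 20 * (1 + L))
    calc Real.exp (γ * t) * nL L (fun x => tl 0 (V 0 x) t)
        ≤ 3 * nL L (fun x => tl 0 (V 0 x) t) := by gcongr
      _ ≤ _ := by linarith
  have n1 := single hV bV (fun x hx => zV 0 x hx 0 le_rfl) hq hGr bG hG hQ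
  have n2 := single hV' bV' (fun x hx => zV' 0 x hx 0 le_rfl) hq' hGr' bG' hG' hQ'
  have n3 : nL L (fun x => zOf γ V x t - zOf γ V' x t) ≤
      3 * (6 * nL L (fun x => q x - q' x) + 20 * (1 + L) * (C * d + C * (C * d) + f₂)) := by
    have := ufp_energy hL hγ hV hV' (δ := C * d) (δ' := C * (C * d)) (t₀ := 0) (by positivity)
      (by positivity) bdiff (hg.nl V V' _ hV.rd hV'.rd bV bV' (by positivity) bdiff)
      (fun x hx => by rw [zV 0 x hx 0 le_rfl, zV' 0 x hx 0 le_rfl]) hX hX'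
      (q := fun x => q x - q' x) (ContDiffOn.sub hq hq') (hGr.sub hGr') hf₂ bG₂
      (fun x _ t => by simp only [hG, hG']; ring) ht0
    have e : (fun x => zOf γ V x t - zOf γ V' x t) =
        fun x => Real.exp (γ * t) * (tl 0 (V 0 x) t - tl 0 (V' 0 x) t) := by
      ext x; simp only [zOf]; ring
    rw [e, nL_const_mul, abs_of_pos (Real.exp_pos _)]
    have h3 := hexp t ht
    have h4 := nL_nonneg L fun x => tl 0 (V 0 x) t - tl 0 (V' 0 x) t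
    calc Real.exp (γ * t) * nL L (fun x => tl 0 (V 0 x) t - tl 0 (V' 0 x) t)
        ≤ 3 * nL L (fun x => tl 0 (V 0 x) t - tl 0 (V' 0 x) t) := by gcongr
      _ ≤ _ := by linarith
  have s1 := (hV.time hL hγ).1.slice_x (mem_univ t)
  have s2 := (hV'.time hL hγ).1.slice_x (mem_univ t)
  have key := hNorm_miura_sub (κ := κ) hL s1 s2
  have e1 : ofFun L (fun x => u x t) = ofFun L fun x =>
      -6 * (dI L (fun x => zOf γ V x t) x + zOf γ V x t ^ 2) + 6 * κ ^ 2 :=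
    ofFun_congr fun x hx => by rw [← eu x (Ioo_subset_Icc_self hx) t ht]; rfl
  have e2 : ofFun L (fun x => u' x t) = ofFun L fun x =>
      -6 * (dI L (fun x => zOf γ V' x t) x + zOf γ V' x t ^ 2) + 6 * κ ^ 2 :=
    ofFun_congr fun x hx => by rw [← eu' x (Ioo_subset_Icc_self hx) t ht]; rfl
  rw [e1, e2]
  refine key.trans (ENNReal.ofReal_le_ofReal ?_)
  have g1 := nL_nonneg L fun x => zOf γ V x t
  have g2 := nL_nonneg L fun x => zOf γ V' x t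
  have g3 := nL_nonneg L fun x => zOf γ V x t - zOf γ V' x t
  have g4 : 0 ≤ 6 * (6 * R + 20 * (1 + L) * (M + C * M + 1)) := by linarith
  gcongr
  linarith

end Pool.Agent.Lib.MP_14aec4_an.W
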