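import Pool.Agent.Lib.MP_14aec4_an.Fix

/-!
The resolvent is, up to small terms, a Volterra operator from the right end to the left.
-/

noncomputable section

open MeasureTheory Set Filter Topology FourierTransform
open scoped ENNReal ComplexConjugate

namespace Pool.Agent.Lib.MP_14aec4_an.W

lemma ures_mink0 {γ σ a b : ℝ} {w : ℝ → ℝ} (hγ : 0 < γ) (hw : Adm w) (hab : a ≤ b)
    {g : ℝ → ℝ → ℂ} (hg : Continuous fun p : ℝ × ℝ => g p.1 p.2) {h : ℝ → ℝ} (hh : Continuous h)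
    (h0 : ∀ y, 0 < h y) (bg : ∀ y ∈ Icc a b, Bd γ w σ (g y) (h y)) {A : ℝ → ℂ}
    (hA : ∀ τ, ‖A τ‖ ≤ ∫ y in a..b, ‖g y τ‖) : Bd γ w σ A (∫ y in a..b, h y) := by
  have hw0 : ∀ τ, 0 ≤ w τ := fun τ => zero_le_one.trans (hw.one_le τ)
  have hI : 0 ≤ ∫ y in a..b, h y := intervalIntegral.integral_nonneg hab fun y _ => (h0 y).le
  rw [bd_iff hw0 _ _ hI]
  set W : ℝ → ℝ≥0∞ := fun τ => ENNReal.ofReal (om γ τ ^ σ * w τ) with hW
  have hWm : Measurable W :=
    ((continuous_om_rpow hγ _).mul hw.cont).measurable.ennreal_ofReal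
  have hgm : Measurable fun p : ℝ × ℝ => ‖g p.1 p.2‖ₑ := hg.enorm.measurable
  have hs : Continuous fun y => Real.sqrt (h y) := hh.sqrt
  have hs0 : ∀ y, 0 < Real.sqrt (h y) := fun y => Real.sqrt_pos.2 (h0 y)
  have hsi : Continuous fun y => (Real.sqrt (h y))⁻¹ := hs.inv₀ fun y => (hs0 y).ne'
  have eH : ∫⁻ y in Icc a b, ENNReal.ofReal (h y) = ENNReal.ofReal (∫ y in a..b, h y) := by
    rw [intervalIntegral.integral_of_le hab, ← integral_Icc_eq_integral_Ioc,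
      ofReal_integral_eq_lintegral_ofReal hh.integrableOn_Icc
        (Eventually.of_forall fun y => (h0 y).le)]
  have hpt : ∀ τ, (W τ * ‖A τ‖ₑ) ^ 2 ≤ ENNReal.ofReal (∫ y in a..b, h y) *
      ∫⁻ y in Icc a b, (ENNReal.ofReal (Real.sqrt (h y))⁻¹ * (W τ * ‖g y τ‖ₑ)) ^ 2 := by
    intro τ
    have h1 : Continuous fun y : ℝ => g y τ := hg.comp (Continuous.prodMk_left τ)
    have h2 : ‖A τ‖ₑ ≤ ∫⁻ y in Icc a b, ‖g y τ‖ₑ := by
      rw [← ofReal_norm, ← ofReal_integral_norm_eq_lintegral_enorm h1.integrableOn_Icc]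
      refine ENNReal.ofReal_le_ofReal ?_
      have h3 := hA τ
      rwa [intervalIntegral.integral_of_le hab, ← integral_Icc_eq_integral_Ioc] at h3
    have h4 : W τ * ‖A τ‖ₑ ≤ ∫⁻ y in Icc a b, ENNReal.ofReal (Real.sqrt (h y)) *
        (ENNReal.ofReal (Real.sqrt (h y))⁻¹ * (W τ * ‖g y τ‖ₑ)) := by
      have e : ∀ y, ENNReal.ofReal (Real.sqrt (h y)) *
          (ENNReal.ofReal (Real.sqrt (h y))⁻¹ * (W τ * ‖g y τ‖ₑ)) = W τ * ‖g y τ‖ₑ := by
        intro y
        rw [← mul_assoc, ← ENNReal.ofReal_mul (hs0 y).le, mul_inv_cancel₀ (hs0 y).ne',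
          ENNReal.ofReal_one, one_mul]
      simp only [e]
      rw [lintegral_const_mul _ h1.enorm.measurable]
      exact mul_le_mul_right h2 _
    refine (pow_le_pow_left' h4 2).trans ((mult0_cs _ hs.measurable.ennreal_ofReal.aemeasurable
      (hsi.measurable.ennreal_ofReal.mul
        (measurable_const.mul h1.enorm.measurable)).aemeasurable).trans (le_of_eq ?_))
    congr 1
    rw [← eH]
    refine lintegral_congr fun y => ?_
    rw [← ENNReal.ofReal_pow (hs0 y).le, Real.sq_sqrt (h0 y).le]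
  have hm2 : Measurable fun p : ℝ × ℝ =>
      (ENNReal.ofReal (Real.sqrt (h p.2))⁻¹ * (W p.1 * ‖g p.2 p.1‖ₑ)) ^ 2 :=
    ((hsi.measurable.ennreal_ofReal.comp measurable_snd).mul
      ((hWm.comp measurable_fst).mul (hgm.comp measurable_swap))).pow_const 2
  calc ∫⁻ τ, (W τ * ‖A τ‖ₑ) ^ 2
      ≤ ∫⁻ τ, ENNReal.ofReal (∫ y in a..b, h y) * ∫⁻ y in Icc a b,
          (ENNReal.ofReal (Real.sqrt (h y))⁻¹ * (W τ * ‖g y τ‖ₑ)) ^ 2 := lintegral_mono hpt
    _ = ENNReal.ofReal (∫ y in a..b, h y) * ∫⁻ τ, ∫⁻ y in Icc a b,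
          (ENNReal.ofReal (Real.sqrt (h y))⁻¹ * (W τ * ‖g y τ‖ₑ)) ^ 2 :=
        lintegral_const_mul' _ _ ENNReal.ofReal_ne_top
    _ = ENNReal.ofReal (∫ y in a..b, h y) * ∫⁻ y in Icc a b, ∫⁻ τ,
          (ENNReal.ofReal (Real.sqrt (h y))⁻¹ * (W τ * ‖g y τ‖ₑ)) ^ 2 := by
        rw [lintegral_lintegral_swap (f := fun τ y =>
          (ENNReal.ofReal (Real.sqrt (h y))⁻¹ * (W τ * ‖g y τ‖ₑ)) ^ 2) hm2.aemeasurable]
    _ ≤ ENNReal.ofReal (∫ y in a..b, h y) * ∫⁻ y in Icc a b, ENNReal.ofReal (h y) := by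
        refine mul_le_mul_right (setLIntegral_mono' measurableSet_Icc fun y hy => ?_) _
        simp only [mul_pow (ENNReal.ofReal (Real.sqrt (h y))⁻¹)]
        rw [lintegral_const_mul' _ _ (ENNReal.pow_ne_top ENNReal.ofReal_ne_top)]
        refine (mul_le_mul_right ((bd_iff hw0 _ _ (h0 y).le).1 (bg y hy)) _).trans (le_of_eq ?_)
        rw [← ENNReal.ofReal_pow (inv_nonneg.2 (hs0 y).le),
          ← ENNReal.ofReal_mul (sq_nonneg _), inv_pow, Real.sq_sqrt (h0 y).le]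
        congr 1
        field_simp [(h0 y).ne']
    _ = ENNReal.ofReal ((∫ y in a..b, h y) ^ 2) := by
        rw [eH, ← ENNReal.ofReal_mul hI, sq]

/-- Minkowski's inequality for integrals. -/
lemma ures_mink {γ σ a b : ℝ} {w : ℝ → ℝ} (hγ : 0 < γ) (hw : Adm w) (hab : a ≤ b)
    {g : ℝ → ℝ → ℂ} (hg : Continuous fun p : ℝ × ℝ => g p.1 p.2) {h : ℝ → ℝ} (hh : Continuous h)
    (h0 : ∀ y, 0 ≤ h y) (bg : ∀ y ∈ Icc a b, Bd γ w σ (g y) (h y)) {A : ℝ → ℂ}
    (hA : ∀ τ, ‖A τ‖ ≤ ∫ y in a..b, ‖g y τ‖) : Bd γ w σ A (∫ y in a..b, h y) := by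
  refine Bd.of_forall_add (intervalIntegral.integral_nonneg hab fun y _ => h0 y) fun ε hε => ?_
  have he : 0 < ε / (b - a + 1) := div_pos hε (by linarith)
  refine (ures_mink0 hγ hw hab hg (h := fun y => h y + ε / (b - a + 1))
    (hh.add continuous_const) (fun y => by linarith [h0 y])
    (fun y hy => (bg y hy).mono (by linarith)) hA).mono ?_
  rw [intervalIntegral.integral_add (hh.intervalIntegrable _ _) intervalIntegrable_const,
    intervalIntegral.integral_const, smul_eq_mul]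
  have : (b - a) * (ε / (b - a + 1)) ≤ ε := by
    rw [← mul_div_assoc, div_le_iff₀ (by linarith)]
    nlinarith
  linarith

/-- The decay rate of the mode that is integrated from the left end. -/
def rho (γ : ℝ) : ℝ := γ ^ ((1 : ℝ) / 3) / 2

lemma rho_pos {γ : ℝ} (hγ : 0 < γ) : 0 < rho γ := by
  unfold rho
  positivity

lemma ures_exp0 {γ : ℝ} (hγ : 0 < γ) (τ : ℝ) {z : ℝ} (hz : 0 ≤ z) :
    ‖Complex.exp (lam γ 0 τ * z)‖ ≤ Real.exp (-rho γ * z) := by
  rw [Complex.norm_exp, Complex.re_mul_ofReal]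
  refine Real.exp_le_exp.2 (mul_le_mul_of_nonneg_right ?_ hz)
  have e : lam γ 0 τ = -rt γ τ := by simp [lam, res0_cc0]
  have h1 := (re_rt hγ τ).2.1
  have h2 : γ ^ ((1 : ℝ) / 3) ≤ ‖rt γ τ‖ := by
    rw [norm_rt]
    exact Real.rpow_le_rpow hγ.le (le_om γ τ) (by norm_num)
  have h3 := res0_one_le_sqrt3
  have h4 := norm_nonneg (rt γ τ)
  rw [e, Complex.neg_re, rho]
  nlinarith

lemma ures_ept {L : ℝ} {i : Fin 3} (hi : i ≠ 0) : ept L i = L := by
  fin_cases i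
  · exact absurd rfl hi
  · rfl
  · rfl

lemma ures_jj {L γ : ℝ} {w : ℝ → ℝ} (hγ : 0 < γ) (hw : Adm w) {g : ℝ → ℝ → ℂ} (hg : RD2 g)
    {f : ℝ → ℝ} (hf : Continuous f) (f0 : ∀ y, 0 ≤ f y)
    (bg : ∀ y ∈ Icc 0 L, Bd γ w (-1 / 3) (g y) (f y)) {i : Fin 3} (hi : i ≠ 0) {x : ℝ}
    (hx : x ∈ Icc 0 L) : Bd γ w (-1 / 3) (jj L γ g i x) (∫ y in x..L, f y) := by
  refine ures_mink hγ hw hx.2 hg.cont hf f0 (fun y hy => bg y ⟨hx.1.trans hy.1, hy.2⟩)
    fun τ => ?_
  have h1 : Continuous fun y : ℝ => ‖g y τ‖ := (hg.cont.comp (Continuous.prodMk_left τ)).norm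
  unfold jj
  rw [ures_ept hi, intervalIntegral.integral_symm, norm_neg]
  refine (intervalIntegral.norm_integral_le_integral_norm hx.2).trans
    (intervalIntegral.integral_mono_on_of_le_Ioo hx.2
      ((res0_cont hg i x τ).norm.intervalIntegrable _ _) (h1.intervalIntegrable _ _)
      fun y hy => ?_)
  rw [norm_mul]
  refine mul_le_of_le_one_left (norm_nonneg _) (res0_exp_le (L := L) hγ i hx τ ?_)
  rw [ures_ept hi, uIoc_of_ge hx.2]
  exact Ioo_subset_Ioc_self hy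

lemma ures_jj0 {L γ F : ℝ} {w : ℝ → ℝ} (hγ : 0 < γ) (hw : Adm w) {g : ℝ → ℝ → ℂ} (hg : RD2 g)
    (hF : 0 ≤ F) (bg : ∀ y ∈ Icc 0 L, Bd γ w (-1 / 3) (g y) F) {x : ℝ} (hx : x ∈ Icc 0 L) :
    Bd γ w (-1 / 3) (jj L γ g 0 x) (F / rho γ) := by
  have hρ := rho_pos hγ
  have ck : Continuous fun y : ℝ => Real.exp (-rho γ * (x - y)) := by fun_prop
  have key := ures_mink (A := jj L γ g 0 x) hγ hw hx.1
    (g := fun y τ => (Real.exp (-rho γ * (x - y)) : ℂ) * g y τ)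
    ((Complex.continuous_ofReal.comp (ck.comp continuous_fst)).mul hg.cont)
    (h := fun y => Real.exp (-rho γ * (x - y)) * F) (ck.mul continuous_const)
    (fun y => by positivity)
    (fun y hy => by
      have := (bg y ⟨hy.1, hy.2.trans hx.2⟩).const_mul (Real.exp (-rho γ * (x - y)) : ℂ)
      rwa [Complex.norm_real, Real.norm_of_nonneg (Real.exp_pos _).le] at this)
    fun τ => by
      have h1 : Continuous fun y : ℝ => g y τ := hg.cont.comp (Continuous.prodMk_left τ)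
      have e : ept L 0 = 0 := rfl
      unfold jj
      rw [e]
      refine (intervalIntegral.norm_integral_le_integral_norm hx.1).trans
        (intervalIntegral.integral_mono_on hx.1
          ((res0_cont hg 0 x τ).norm.intervalIntegrable _ _)
          (((Complex.continuous_ofReal.comp ck).mul h1).norm.intervalIntegrable _ _)
          fun y hy => ?_)
      rw [norm_mul, norm_mul, Complex.norm_real, Real.norm_of_nonneg (Real.exp_pos _).le,
        ← Complex.ofReal_sub]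
      exact mul_le_mul_of_nonneg_right (ures_exp0 hγ τ (by linarith [hy.2])) (norm_nonneg _)
  refine key.mono ?_
  have d : ∀ y ∈ uIcc 0 x, HasDerivAt (fun y => Real.exp (-rho γ * (x - y)) * (F / rho γ))
      (Real.exp (-rho γ * (x - y)) * F) y := by
    intro y _
    have h1 : HasDerivAt (fun y : ℝ => -rho γ * (x - y)) (rho γ) y := by
      simpa using ((hasDerivAt_id y).const_sub x).const_mul (-rho γ)
    refine (h1.exp.mul_const (F / rho γ)).congr_deriv ?_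
    field_simp
  rw [intervalIntegral.integral_eq_sub_of_hasDerivAt d
    ((ck.mul continuous_const).intervalIntegrable _ _)]
  simp only [sub_self, mul_zero, Real.exp_zero, one_mul]
  have : 0 ≤ Real.exp (-rho γ * (x - 0)) * (F / rho γ) := by positivity
  linarith

lemma ures_q (p₀ p₁ : ℕ) (E J : Fin 3 → ℂ) {i : Fin 3} (hi : i ≠ 0) :
    ‖qq p₀ p₁ E J (fun _ => 0) i‖ = ‖E 0 * qq p₀ p₁ E J (fun _ => 0) 0 + J 0‖ := by
  fin_cases i
  · exact absurd rfl hi
  · simp only [qq, res0_theta1, res0_theta2]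
    simp [norm_cc]
  · simp only [qq, res0_theta1, res0_theta2]
    simp [norm_cc]

lemma ures_norm {L γ : ℝ} (hL : 0 < L) (hγ : Big L γ) (P : BC) (g : ℝ → ℝ → ℂ) (j : Fin 3)
    {x : ℝ} (hx : x ∈ Icc 0 L) (τ : ℝ) :
    ‖res L P γ g (fun _ _ => 0) j x τ‖ ≤ om γ τ ^ (((j : ℝ) - 2) / 3) *
      (14 * Real.exp (-rho γ * x) * ∑ i, ‖jj L γ g i (L - ept L i) τ‖ +
        ‖jj L γ g 0 L τ‖ + (∑ i, ‖jj L γ g i x τ‖) / 2) := by
  have hg0 := res_gpos hγ
  have hom := om_pos hg0 τ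
  obtain ⟨e0, e1, e2⟩ := resE_bd hL hγ τ
  have eB : resB P γ (fun _ _ => 0) τ = fun _ => 0 := by
    funext i
    simp [resB]
  have hq := (qq_spec (P.j 0 + 1) (P.j 1 + 1) (resE L γ τ) (resJ L γ g τ) (fun _ => 0)
    e0 e1 e2).2.2.2
  have hq1 := ures_q (P.j 0 + 1) (P.j 1 + 1) (resE L γ τ) (resJ L γ g τ) (i := 1) (by decide)
  have hq2 := ures_q (P.j 0 + 1) (P.j 1 + 1) (resE L γ τ) (resJ L γ g τ) (i := 2) (by decide)
  rw [← eB, ← res_qres] at hq hq1 hq2
  have hc : ‖-(rt γ τ ^ (j : ℕ) / (3 * rt γ τ ^ 2))‖ = om γ τ ^ (((j : ℝ) - 2) / 3) / 3 := by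
    have h1 : rt γ τ ^ (j : ℕ) / (3 * rt γ τ ^ 2) = rt γ τ ^ (j : ℕ) / rt γ τ ^ 2 / 3 := by
      rw [div_div, mul_comm]
    rw [norm_neg, h1, norm_div, res_norm_pow hg0]
    simp
  have ex : ‖Complex.exp (lam γ 0 τ * ((x : ℂ) - (ept L 0 : ℝ)))‖ ≤ Real.exp (-rho γ * x) := by
    have e : ept L 0 = 0 := rfl
    rw [e, Complex.ofReal_zero, sub_zero]
    exact ures_exp0 hg0 τ hx.1
  have eL : ‖resE L γ τ 0‖ ≤ Real.exp (-rho γ * x) := by
    have e : ept L 0 = 0 := rfl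
    rw [resE, e, Complex.ofReal_zero, sub_zero, sub_zero]
    refine (ures_exp0 hg0 τ hL.le).trans (Real.exp_le_exp.2 ?_)
    nlinarith [rho_pos hg0, hx.2]
  have eJ : resJ L γ g τ 0 = jj L γ g 0 L τ := by
    have e : ept L 0 = 0 := rfl
    rw [resJ, e, sub_zero]
  have hJ' : ∑ i, ‖resJ L γ g τ i‖ = ∑ i, ‖jj L γ g i (L - ept L i) τ‖ := rfl
  rw [hJ'] at hq
  simp only [norm_zero, Finset.sum_const_zero, zero_add, Fin.sum_univ_three] at hq
  set q := qres L P γ g (fun _ _ => 0) τ with hqd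
  have hX : ‖resE L γ τ 0 * q 0 + resJ L γ g τ 0‖ ≤
      Real.exp (-rho γ * x) * ‖q 0‖ + ‖jj L γ g 0 L τ‖ := by
    rw [eJ]
    refine (norm_add_le _ _).trans (add_le_add ?_ le_rfl)
    rw [norm_mul]
    exact mul_le_mul_of_nonneg_right eL (norm_nonneg _)
  have ht : ∀ i, ‖cc i ^ ((j : ℕ) + 1) *
      (Complex.exp (lam γ i τ * ((x : ℂ) - (ept L i : ℝ))) * q i + jj L γ g i x τ)‖ ≤
      ‖Complex.exp (lam γ i τ * ((x : ℂ) - (ept L i : ℝ)))‖ * ‖q i‖ + ‖jj L γ g i x τ‖ := by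
    intro i
    rw [norm_mul, norm_pow, norm_cc, one_pow, one_mul, ← norm_mul]
    exact norm_add_le _ _
  have t0 := (ht 0).trans (add_le_add (mul_le_mul_of_nonneg_right ex (norm_nonneg _)) le_rfl)
  have t1 := (ht 1).trans (add_le_add
    (mul_le_of_le_one_left (norm_nonneg _) (res_exp_le hg0 1 hx τ)) le_rfl)
  have t2 := (ht 2).trans (add_le_add
    (mul_le_of_le_one_left (norm_nonneg _) (res_exp_le hg0 2 hx τ)) le_rfl)
  have hw : 0 ≤ om γ τ ^ (((j : ℝ) - 2) / 3) := (Real.rpow_pos_of_pos hom _).le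
  unfold res
  rw [norm_mul, hc, cl_of_mem hx, ← hqd, div_mul_eq_mul_div, mul_div_assoc]
  refine mul_le_mul_of_nonneg_left ?_ hw
  have hs := norm_sum_le Finset.univ fun i => cc i ^ ((j : ℕ) + 1) *
      (Complex.exp (lam γ i τ * ((x : ℂ) - (ept L i : ℝ))) * q i + jj L γ g i x τ)
  simp only [Fin.sum_univ_three] at hs ⊢
  have hE := (Real.exp_pos (-rho γ * x)).le
  have h5 : Real.exp (-rho γ * x) * ‖q 0‖ ≤ Real.exp (-rho γ * x) *
      (14 * (‖jj L γ g 0 (L - ept L 0) τ‖ + ‖jj L γ g 1 (L - ept L 1) τ‖ +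
        ‖jj L γ g 2 (L - ept L 2) τ‖)) :=
    mul_le_mul_of_nonneg_left (by linarith [norm_nonneg (q 1), norm_nonneg (q 2)]) hE
  have n0 := norm_nonneg (jj L γ g 0 L τ)
  have n1 := norm_nonneg (jj L γ g 0 x τ)
  have n2 := norm_nonneg (jj L γ g 1 x τ)
  have n3 := norm_nonneg (jj L γ g 2 x τ)
  linarith

/-- The Volterra bound on the resolvent. -/
theorem ures_bd {L γ b F : ℝ} {w : ℝ → ℝ} (hL : 0 < L) (hγ : Big L γ) (P : BC) (hw : Adm w)
    {g : ℝ → ℝ → ℂ} {β : Fin 3 → ℝ → ℂ} (hg : RD2 g) (hβ : ∀ i, RD (β i)) (hb : 0 ≤ b)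
    (h₁ : ∀ i, Bd γ w (P.σ i) (β i) b) {f : ℝ → ℝ} (hf : Continuous f) (f0 : ∀ y, 0 ≤ f y)
    (fF : ∀ y ∈ Icc 0 L, f y ≤ F) (bg : ∀ y ∈ Icc 0 L, Bd γ w (-1 / 3) (g y) (f y)) {x : ℝ}
    (hx : x ∈ Icc 0 L) (j : Fin 3) :
    Bd γ w ((1 - (j : ℝ)) / 3) (res L P γ g β j x)
      (42 * b + ((∫ y in x..L, f y) + 28 * Real.exp (-rho γ * x) * (∫ y in (0 : ℝ)..L, f y)
        + 16 * (F / rho γ))) := by
  have hg0 := res_gpos hγ
  have hρ := rho_pos hg0
  have hF : 0 ≤ F := (f0 0).trans (fF 0 ⟨le_rfl, hL.le⟩)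
  have hw0 : ∀ τ, 0 ≤ w τ := fun τ => zero_le_one.trans (hw.one_le τ)
  have e : res L P γ g β j x = fun τ => res L P γ (fun _ _ => 0) β j x τ +
      res L P γ g (fun _ _ => 0) j x τ := by
    funext τ
    have := res_add (L := L) (γ := γ) P RD2.zero hg β (fun _ _ => 0) j x τ
    simpa only [zero_add, add_zero] using this
  have r1 := (res_rd hL hγ P RD2.zero hβ j).at x
  have r2 := (res_rd hL hγ P hg (fun _ => RD.zero) j).at x
  have I0 : 0 ≤ ∫ y in (0 : ℝ)..L, f y := intervalIntegral.integral_nonneg hL.le fun y _ => f0 y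
  have I1 : 0 ≤ ∫ y in x..L, f y := intervalIntegral.integral_nonneg hx.2 fun y _ => f0 y
  have hE := (Real.exp_pos (-rho γ * x)).le
  have hE1 : Real.exp (-rho γ * x) ≤ 1 := Real.exp_le_one_iff.2 (by nlinarith [hx.1])
  rw [e]
  refine Bd.add hg0 hw r1.aesm r2.aesm (by positivity) (by positivity) ?_ ?_
  · have := res_bd hL hγ P hw RD2.zero hβ hb le_rfl h₁ (fun i y _ => by
      have e0 : jj L γ (fun _ _ => 0) i y = fun _ => 0 := by
        funext τ
        simp [jj]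
      rw [e0]
      exact Bd.zero _ _ _ _) x hx j
    simpa only [mul_zero, add_zero] using this
  · have bF : ∀ y ∈ Icc 0 L, Bd γ w (-1 / 3) (g y) F := fun y hy => (bg y hy).mono (fF y hy)
    have m0 : (0 : ℝ) ∈ Icc 0 L := ⟨le_rfl, hL.le⟩
    have mL : L ∈ Icc 0 L := ⟨hL.le, le_rfl⟩
    have key := Bd.of_sum_le (Finset.univ : Finset (Fin 6)) hg0 hw
      (σ := (1 - (j : ℝ)) / 3) (A := res L P γ g (fun _ _ => 0) j x)
      (B := ![jj L γ g 0 L, jj L γ g 1 0, jj L γ g 2 0, jj L γ g 0 x, jj L γ g 1 x, jj L γ g 2 x])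
      (σ' := fun _ => -1 / 3)
      (K := ![14 * Real.exp (-rho γ * x) + 1, 14 * Real.exp (-rho γ * x),
        14 * Real.exp (-rho γ * x), 1 / 2, 1 / 2, 1 / 2])
      (c := ![F / rho γ, ∫ y in (0 : ℝ)..L, f y, ∫ y in (0 : ℝ)..L, f y, F / rho γ,
        ∫ y in x..L, f y, ∫ y in x..L, f y])
      (fun i _ => by fin_cases i <;> simp <;> positivity)
      (fun i _ => by fin_cases i <;> simp <;> positivity)
      (fun i _ => by
        fin_cases i <;> exact (res_jj_cont hg0 hg _ _).aestronglyMeasurable)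
      (fun τ => by
        have h1 := ures_norm hL hγ P g j hx τ
        have hom := om_pos hg0 τ
        have h2 : om γ τ ^ ((1 - (j : ℝ)) / 3) * om γ τ ^ (((j : ℝ) - 2) / 3) =
            om γ τ ^ (-1 / 3 : ℝ) := by
          rw [← Real.rpow_add hom]; congr 1; ring
        refine (mul_le_mul_of_nonneg_left h1 (Real.rpow_pos_of_pos hom _).le).trans (le_of_eq ?_)
        rw [← mul_assoc, h2]
        have a0 : ept L 0 = 0 := rfl
        have a1 : ept L 1 = L := rfl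
        have a2 : ept L 2 = L := rfl
        simp only [Fin.sum_univ_three, Fin.sum_univ_six, a0, a1, a2, sub_zero, sub_self,
          Matrix.cons_val]
        ring)
      (fun i _ => by
        fin_cases i
        · exact ures_jj0 hg0 hw hg hF bF mL
        · exact ures_jj hg0 hw hg hf f0 bg (by decide) m0
        · exact ures_jj hg0 hw hg hf f0 bg (by decide) m0
        · exact ures_jj0 hg0 hw hg hF bF hx
        · exact ures_jj hg0 hw hg hf f0 bg (by decide) hx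
        · exact ures_jj hg0 hw hg hf f0 bg (by decide) hx)
    refine key.mono ?_
    simp only [Fin.sum_univ_six, Matrix.cons_val]
    have : Real.exp (-rho γ * x) * (F / rho γ) ≤ F / rho γ :=
      mul_le_of_le_one_left (by positivity) hE1
    have h3 : 0 ≤ F / rho γ := by positivity
    linarith

end Pool.Agent.Lib.MP_14aec4_an.W
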