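import Pool.Agent.Lib.MP_14aec4_an.Z1
import Pool.Agent.Lib.MP_14aec4_an.Ini

/-!
Ill-posedness below `s = -1` with zero boundary data.
-/

noncomputable section

open MeasureTheory Set Filter Topology FourierTransform
open scoped ENNReal ComplexConjugate Real

namespace Pool.Agent.Lib.MP_14aec4_an.W

lemma hNorm_anti {σ τ : ℝ} (h : σ ≤ τ) (W : Set ℝ) (f : SchwartzMap ℝ ℂ → ℂ) :
    hNorm σ W f ≤ hNorm τ W f := by
  refine le_of_forall_gt_imp_ge_of_dense fun c hc => ?_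
  obtain ⟨G, hG, hr, hj⟩ := exists_rep hc
  refine (hNorm_le_jn hG.aestronglyMeasurable hr).trans (le_trans ?_ hj.le)
  refine eLpNorm_mono fun ξ => ?_
  rw [norm_mul, norm_mul, Complex.norm_real, Complex.norm_real, Real.norm_eq_abs,
    Real.norm_eq_abs, abs_of_nonneg (by positivity), abs_of_nonneg (by positivity)]
  exact mul_le_mul_of_nonneg_right
    (Real.rpow_le_rpow_of_exponent_le (by nlinarith [sq_nonneg ξ]) (by linarith)) (norm_nonneg _)

lemma hom_dsin (m x : ℝ) : HasDerivAt (fun x => Real.sin (m * x)) (m * Real.cos (m * x)) x := by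
  refine ((hasDerivAt_id' x).const_mul m).sin.congr_deriv ?_
  ring

lemma hom_dcos {m : ℝ} (hm : 0 < m) (x : ℝ) :
    HasDerivAt (fun x => -m⁻¹ * Real.cos (m * x)) (Real.sin (m * x)) x := by
  refine (((hasDerivAt_id' x).const_mul m).cos.const_mul (-m⁻¹)).congr_deriv ?_
  field_simp

lemma small_cos {L δ : ℝ} (hL : 0 < L) (hδ : 0 < δ) {m : ℕ → ℝ} (hm : ∀ n, 1 ≤ m n)
    (hmt : Tendsto m atTop atTop) (hs : ∀ n, Real.sin (m n * L) = 0) :
    Small (1 + δ) L fun n x => m n * Real.cos (m n * x) := by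
  wlog hδ1 : δ ≤ 1 generalizing δ
  · exact (this one_pos le_rfl).mono (by norm_num) (by linarith)
  refine ⟨fun n => by fun_prop, ?_⟩
  have hlim : Tendsto (fun n => 8 * π ^ 2 * ((16 * π ^ 2 + 1) * L * m n ^ (-(2 * δ)) +
      8 * KK * 2 ^ (3 / 5 : ℝ) * m n ^ (-(4 / 5 : ℝ)))) atTop (𝓝 0) := by
    have t1 := ((tendsto_rpow_neg_atTop (y := 2 * δ) (by linarith)).comp hmt).const_mul
      ((16 * π ^ 2 + 1) * L)
    have t2 := ((tendsto_rpow_neg_atTop (y := 4 / 5) (by norm_num)).comp hmt).const_mul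
      (8 * KK * 2 ^ (3 / 5 : ℝ))
    simpa using (t1.add t2).const_mul (8 * π ^ 2)
  refine squeeze_zero (fun n => NN_nonneg _ _ _) (fun n => ?_) hlim
  have hM := hm n
  have hsn := hs n
  beta_reduce
  generalize m n = M at hM hsn
  have hM0 : 0 < M := by linarith
  have hMi : 0 < M⁻¹ := inv_pos.2 hM0
  have k1 := NN_deriv hL.le hδ.le (fun x _ => hom_dsin M x) (by fun_prop)
  simp only [mul_zero, Real.sin_zero, hsn, abs_zero, add_zero] at k1
  have b1 : ∀ x, |-M⁻¹ * Real.cos (M * x)| ≤ M⁻¹ := fun x => by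
    rw [abs_mul, abs_neg, abs_of_pos hMi]
    exact mul_le_of_le_one_right hMi.le (Real.abs_cos_le_one _)
  have i1 : ∫ x in (0 : ℝ)..L, (-M⁻¹ * Real.cos (M * x)) ^ 2 ≤ M⁻¹ ^ 2 * L :=
    integral_le_const hL.le (by fun_prop) fun x _ => by
      rw [← sq_abs]
      exact pow_le_pow_left₀ (abs_nonneg _) (b1 x) 2
  have i2 : ∫ x in (0 : ℝ)..L, Real.sin (M * x) ^ 2 ≤ 1 * L :=
    integral_le_const hL.le (by fun_prop) fun x _ => Real.sin_sq_le_one _
  have k2 := NN_split (σ := δ) (τ := 0) (R := M) (B := 2 * M⁻¹) (r := fun _ => 0)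
    (h := fun x => Real.sin (M * x)) hL.le le_rfl (by norm_num) hδ.le hδ1 hM
    (fun x _ => hom_dcos hM0 x) (by fun_prop) continuousOn_const (fun x _ => (add_zero _).symm)
    (by
      simp only [abs_zero, intervalIntegral.integral_zero, add_zero]
      linarith [b1 0, b1 L])
  have e1 : (M ^ 2) ^ (-δ) = M ^ (-(2 * δ)) := by
    rw [← Real.rpow_natCast, ← Real.rpow_mul hM0.le]
    congr 1
    push_cast
    ring
  have e2 : M ^ (-(2 : ℝ)) = M⁻¹ ^ 2 := by
    rw [Real.rpow_neg hM0.le, inv_pow]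
    norm_num
  have e3 : (2 * M ^ 2) ^ (3 / 5 - (0 : ℝ)) * M⁻¹ ^ 2 = 2 ^ (3 / 5 : ℝ) * M ^ (-(4 / 5 : ℝ)) := by
    rw [Real.mul_rpow (by norm_num) (by positivity), ← e2, ← Real.rpow_natCast M,
      ← Real.rpow_mul hM0.le, mul_assoc, ← Real.rpow_add hM0]
    norm_num
  have k3 : NN δ L (fun x => Real.sin (M * x)) ≤ (16 * π ^ 2 + 1) * L * M ^ (-(2 * δ)) +
      8 * KK * 2 ^ (3 / 5 : ℝ) * M ^ (-(4 / 5 : ℝ)) := by
    refine k2.trans (add_le_add ?_ (le_of_eq ?_))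
    · rw [e1, mul_comm]
      apply mul_le_mul_of_nonneg_right _ (by positivity)
      calc _ ≤ 16 * π ^ 2 * M ^ 2 * (M⁻¹ ^ 2 * L) + 1 * L := by gcongr
        _ = _ := by field_simp
    · calc _ = 8 * KK * ((2 * M ^ 2) ^ (3 / 5 - (0 : ℝ)) * M⁻¹ ^ 2) := by ring
        _ = _ := by rw [e3]; ring
  have k5 := mul_le_mul_of_nonneg_left k3 (show 0 ≤ 8 * π ^ 2 by positivity)
  norm_num at k1
  linarith

lemma hom_pair (s : ℝ) {L : ℝ} (hL : 0 < L) {g : ℝ → ℝ} (hg : ContDiff ℝ (⊤ : ℕ∞) g)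
    (hz : ∀ x, x ∉ Icc (L / 8) (7 * L / 8) → g x = 0) :
    ∃ C, 0 < C ∧ ∀ (v : ℝ → ℝ) (ε : ℝ), 0 ≤ ε →
      hNorm s (Ioo 0 L) (ofFun L v) < ENNReal.ofReal ε →
        |∫ x in (0 : ℝ)..L, g x * v x| ≤ C * ε := by
  obtain ⟨ψ, hψ⟩ := ini_schwartz hg (HasCompactSupport.intro isCompact_Icc hz)
  have hs : tsupport ψ ⊆ Ioo 0 L := by
    refine (closure_minimal (fun x hx => ?_) isClosed_Icc).trans
      (Icc_subset_Ioo (a₁ := L / 8) (b₁ := 7 * L / 8) (by linarith) (by linarith))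
    by_contra h
    exact hx (by rw [hψ]; simp [hz x h])
  obtain ⟨C, hC, hp⟩ := pairing_bound s (Ioo 0 L) ψ hs
  refine ⟨C, hC, fun v ε hε h => ?_⟩
  have e : ofFun L v ψ = ((∫ x in (0 : ℝ)..L, g x * v x : ℝ) : ℂ) := by
    unfold ofFun
    rw [intervalIntegral.integral_of_le hL.le, integral_Ioc_eq_integral_Ioo,
      ← integral_complex_ofReal, hψ]
    simp
  have := hp _ ε hε h
  rwa [e, Complex.norm_real, Real.norm_eq_abs] at this

lemma hom_scale (s : ℝ) {L h : ℝ} (hL : 0 < L) (hh : 0 < h) (hh' : h ≤ L / 4) :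
    ∃ C, 0 < C ∧ ∀ y ∈ Icc (L / 4) (L / 2), ∃ x₀ ∈ Icc (L / 8) (L / 2), y ∈ Icc x₀ (x₀ + h) ∧
      ∀ (v : ℝ → ℝ) (ε : ℝ), 0 ≤ ε → hNorm s (Ioo 0 L) (ofFun L v) < ENNReal.ofReal ε →
        |∫ x in (0 : ℝ)..L, (rp (L / 4) (L / 4) x - rp x₀ h x) * v x| ≤ C * ε := by
  have h4 : 0 < L / 4 := by positivity
  have key : ∀ y : ℝ, ∃ C, 0 < C ∧ (y ∈ Icc (L / 4) (L / 2) → ∀ (v : ℝ → ℝ) (ε : ℝ), 0 ≤ ε →
      hNorm s (Ioo 0 L) (ofFun L v) < ENNReal.ofReal ε →
        |∫ x in (0 : ℝ)..L, (rp (L / 4) (L / 4) x - rp (y - h / 2) h x) * v x| ≤ C * ε) := by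
    intro y
    by_cases hy : y ∈ Icc (L / 4) (L / 2)
    · obtain ⟨C, hC, hp⟩ := hom_pair s hL (g := fun x => rp (L / 4) (L / 4) x - rp (y - h / 2) h x)
        ((rp_contDiff _ _).sub (rp_contDiff _ _)) fun x hx => by
          rw [mem_Icc, not_and_or, not_le, not_le] at hx
          rcases hx with hx | hx
          · rw [rp_zero h4 (by linarith), rp_zero hh (by linarith [hy.1]), sub_zero]
          · rw [rp_one h4 (by linarith), rp_one hh (by linarith [hy.2]), sub_self]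
      exact ⟨C, hC, fun _ => hp⟩
    · exact ⟨1, one_pos, fun h => absurd h hy⟩
  choose C hC hp using key
  obtain ⟨F, hF, hcov⟩ := (isCompact_Icc (a := L / 4) (b := L / 2)).elim_nhds_subcover
    (fun y => Icc (y - h / 2) (y - h / 2 + h)) fun y _ => Icc_mem_nhds (by linarith) (by linarith)
  have hs : 0 ≤ ∑ y ∈ F, C y := Finset.sum_nonneg fun y _ => (hC y).le
  refine ⟨∑ y ∈ F, C y + 1, by positivity, fun x hx => ?_⟩
  obtain ⟨y, hy, hxy⟩ := mem_iUnion₂.1 (hcov hx)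
  have hy' := hF y hy
  refine ⟨y - h / 2, ⟨by linarith [hy'.1], by linarith [hy'.2]⟩, hxy, fun v ε hε hv =>
    (hp y hy' v ε hε hv).trans (mul_le_mul_of_nonneg_right ?_ hε)⟩
  linarith [Finset.single_le_sum (f := C) (fun y _ => (hC y).le) hy]

lemma TF.osc {L M r : ℝ} {θ θ1 θ2 θ3 g G : ℝ → ℝ} (hL : 0 < L) (hθ : TF L M θ θ1 θ2 θ3)
    (d : ∀ x, HasDerivAt G (g x) x) (c : Continuous g) (hr : ∀ x, |G x| ≤ r) :
    |∫ x in (0 : ℝ)..L, θ x * g x| ≤ M * r * L := by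
  have z0 := hθ.z 0 fun h => by linarith [h.1]
  have zL := hθ.z L fun h => by linarith [h.2]
  rw [intervalIntegral.integral_mul_deriv_eq_deriv_mul (fun x _ => hθ.d1 x) (fun x _ => d x)
    ((hom_cont hθ.d2).intervalIntegrable _ _) (c.intervalIntegrable _ _), z0.1, zL.1, zero_mul,
    zero_mul, sub_zero, zero_sub, abs_neg]
  have := intervalIntegral.norm_integral_le_of_norm_le_const (a := 0) (b := L) (C := M * r)
    (f := fun x => θ1 x * G x) fun x hx => by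
    rw [uIoc_of_le hL.le] at hx
    have h1 := (hθ.bd x (Ioc_subset_Icc_self hx)).2.1
    rw [Real.norm_eq_abs, abs_mul]
    exact mul_le_mul h1 (hr x) (abs_nonneg _) ((abs_nonneg _).trans h1)
  rwa [sub_zero, abs_of_pos hL] at this

/-- The two facts about the initial Miura variable. -/
lemma TF.init {L M c m e η : ℝ} {θ θ1 θ2 θ3 z : ℝ → ℝ} (hL : 0 < L) (hθ : TF L M θ θ1 θ2 θ3)
    (hm : 0 < m) (hc : 0 ≤ c) (hz : ContinuousOn z (Icc 0 L))
    (hη : nL L (fun x => c * Real.sin (m * x)) ≤ η)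
    (he : nL L (fun x => z x - c * Real.sin (m * x)) ≤ e) :
    |∫ x in (0 : ℝ)..L, θ x * z x| ≤ c * (M * m⁻¹ * L) + M * Real.sqrt L * e ∧
      c ^ 2 / 2 - c ^ 2 * (M * m⁻¹ * L) / 4 - 2 * M * η * e ≤ ∫ x in (0 : ℝ)..L, θ x * z x ^ 2 := by
  have h4 : 0 < L / 4 := by positivity
  have hM : 0 ≤ M := (abs_nonneg _).trans (hθ.bd 0 ⟨le_rfl, hL.le⟩).1
  have cθ := hom_cont hθ.d1
  have cw : ContinuousOn (fun x => c * Real.sin (m * x)) (Icc 0 L) := by fun_prop
  have cd : ContinuousOn (fun x => z x - c * Real.sin (m * x)) (Icc 0 L) := hz.sub cw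
  constructor
  · have q1 := hθ.osc hL (hom_dcos hm) (by fun_prop) (r := m⁻¹) fun x => by
      rw [abs_mul, abs_neg, abs_of_pos (inv_pos.2 hm)]
      exact mul_le_of_le_one_right (inv_pos.2 hm).le (Real.abs_cos_le_one _)
    have q2 : |∫ x in (0 : ℝ)..L, θ x * (z x - c * Real.sin (m * x))| ≤ M * Real.sqrt L * e := by
      calc _ ≤ ∫ x in (0 : ℝ)..L, M * |z x - c * Real.sin (m * x)| := by
            rw [← Real.norm_eq_abs]
            refine intervalIntegral.norm_integral_le_of_norm_le hL.le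
              (Eventually.of_forall fun x hx => ?_)
              ((cd.abs.intervalIntegrable_of_Icc hL.le).const_mul _)
            rw [Real.norm_eq_abs, abs_mul]
            exact mul_le_mul_of_nonneg_right (hθ.bd x (Ioc_subset_Icc_self hx)).1 (abs_nonneg _)
        _ ≤ M * (Real.sqrt L * e) := by
            rw [intervalIntegral.integral_const_mul]
            refine mul_le_mul_of_nonneg_left ((integral_abs_le hL.le cd).trans ?_) hM
            gcongr
        _ = _ := by ring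
    have e1 : ∫ x in (0 : ℝ)..L, θ x * z x = c * (∫ x in (0 : ℝ)..L, θ x * Real.sin (m * x)) +
        ∫ x in (0 : ℝ)..L, θ x * (z x - c * Real.sin (m * x)) := by
      rw [← intervalIntegral.integral_const_mul, ← intervalIntegral.integral_add
        (f := fun x => c * (θ x * Real.sin (m * x)))
        (g := fun x => θ x * (z x - c * Real.sin (m * x)))
        (Continuous.intervalIntegrable (by fun_prop) _ _)
        ((cθ.continuousOn.mul cd).intervalIntegrable_of_Icc hL.le)]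
      congr 1
      funext x
      ring
    rw [e1]
    refine (abs_add_le _ _).trans (add_le_add ?_ q2)
    rw [abs_mul, abs_of_nonneg hc]
    exact mul_le_mul_of_nonneg_left q1 hc
  · have q1 := hθ.osc hL (G := fun x => (2 * m)⁻¹ * Real.sin (2 * m * x))
      (g := fun x => Real.cos (2 * m * x)) (r := (2 * m)⁻¹)
      (fun x => ((hom_dsin (2 * m) x).const_mul _).congr_deriv (by field_simp)) (by fun_prop)
      fun x => by
        rw [abs_mul, abs_of_pos (by positivity)]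
        exact mul_le_of_le_one_right (by positivity) (Real.abs_sin_le_one _)
    have q2 := (integral_abs_mul_le hL.le cw cd).trans
      (mul_le_mul hη he (nL_nonneg _ _) ((nL_nonneg _ _).trans hη))
    have q3 : ∫ x in (0 : ℝ)..L, θ x = 1 := by
      rw [hθ.eq]
      exact hom_rp_int h4 h4.le (by linarith)
    have i1 : IntervalIntegrable (fun x => c ^ 2 / 2 * θ x) volume 0 L :=
      (cθ.intervalIntegrable _ _).const_mul _
    have i2 : IntervalIntegrable (fun x => c ^ 2 / 2 * (θ x * Real.cos (2 * m * x))) volume 0 L :=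
      Continuous.intervalIntegrable (by fun_prop) _ _
    have i3 : IntervalIntegrable
        (fun x => 2 * M * |c * Real.sin (m * x) * (z x - c * Real.sin (m * x))|) volume 0 L :=
      ((cw.mul cd).abs.intervalIntegrable_of_Icc hL.le).const_mul _
    have q4 := intervalIntegral.integral_mono_on hL.le ((i1.sub i2).sub i3)
      (g := fun x => θ x * z x ^ 2)
      ((cθ.continuousOn.mul (hz.pow 2)).intervalIntegrable_of_Icc hL.le) fun x hx => by
        have h1 : 0 ≤ θ x := by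
          rw [hθ.eq]
          exact deriv_rp_nonneg h4 _ _
        have h2 : θ x ≤ M := (le_abs_self _).trans (hθ.bd x hx).1
        have h3 : Real.cos (2 * m * x) = 1 - 2 * Real.sin (m * x) ^ 2 := by
          rw [mul_assoc, Real.cos_two_mul, Real.cos_sq']
          ring
        rw [h3]
        generalize Real.sin (m * x) = S
        have h5 := mul_le_mul_of_nonneg_right h2 (abs_nonneg (c * S * (z x - c * S)))
        have h6 := mul_le_mul_of_nonneg_left (neg_abs_le (c * S * (z x - c * S))) h1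
        nlinarith [mul_nonneg h1 (sq_nonneg (z x - c * S))]
    rw [intervalIntegral.integral_sub (i1.sub i2) i3, intervalIntegral.integral_sub i1 i2,
      intervalIntegral.integral_const_mul, intervalIntegral.integral_const_mul,
      intervalIntegral.integral_const_mul, q3] at q4
    have q5 := mul_le_mul_of_nonneg_left ((le_abs_self _).trans q1) (sq_nonneg c)
    have q6 := mul_le_mul_of_nonneg_left q2 hM
    have e : (2 * m)⁻¹ = m⁻¹ / 2 := by field_simp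
    rw [e] at q5
    linarith

lemma hom_arith {M S L K η ρ c E : ℝ} (hM : 0 ≤ M) (hS : 0 ≤ S) (hL : 0 ≤ L) (hK : 0 ≤ K)
    (hη : 0 ≤ η) (hη1 : η ≤ 1) (hρ : 0 ≤ ρ) (hc : 0 < c) (hc1 : c ≤ 1)
    (hQ : (2 * M * K + 19 * M * L * K ^ 3 +
      (M * S * K + 19 * M * L * K ^ 3 + K ^ 2 + 25 * L) * (M * S * K)) * η ^ 3 ≤ c ^ 2 / 8)
    (hR : (2 + 2 * M + (4 + M * S) * (M * S * K)) * ρ ≤ c ^ 2 / 8)
    (low : c ^ 2 / 2 - c ^ 2 * ρ / 4 - 2 * M * η * (ρ + K * η ^ 2) ≤ E)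
    (up : E ≤ 19 * M * L * (K * η) ^ 3 + ρ / 3 + (ρ + M * S * (ρ + K * η ^ 2) +
      19 * M * L * (K * η) ^ 3 + (K * η) ^ 2 + (5 * η ^ 2) ^ 2 * L + ρ / 6 + ρ + ρ) *
        (M * S * (K * η))) : False := by
  have h1 : c ^ 2 * ρ ≤ ρ := mul_le_of_le_one_left hρ (pow_le_one₀ hc.le hc1)
  have h2 : M * ρ * η ≤ M * ρ := mul_le_of_le_one_right (by positivity) hη1
  have h3 : (4 + M * S) * (M * S * K) * ρ * η ≤ (4 + M * S) * (M * S * K) * ρ :=
    mul_le_of_le_one_right (by positivity) hη1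
  have h4 : 19 * M * L * K ^ 3 * (M * S * K) * η ^ 3 * η ≤
      19 * M * L * K ^ 3 * (M * S * K) * η ^ 3 := mul_le_of_le_one_right (by positivity) hη1
  have h5 : 25 * L * (M * S * K) * η ^ 3 * η ^ 2 ≤ 25 * L * (M * S * K) * η ^ 3 :=
    mul_le_of_le_one_right (by positivity) (pow_le_one₀ hη hη1)
  have h6 : 0 ≤ M * S * K * ρ * η := by positivity
  have h7 := pow_pos hc 2
  linarith

/-- The initial data are `c m cos (m x)` up to a small error, with `m → ∞`. -/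
theorem not_zero_lt {s L T : ℝ} (hs : s < -1) (hL : 0 < L) (hT : 0 < T) {P : BC} (hP : P.Valid)
    {W : Set ℝ} (hW : W ⊆ winB P.d0 P.dL L)
    (hst : ∀ ε > 0, ∃ δ > 0, ∀ u, KSol L 0 T u → (∀ i, ∀ t ∈ Ioo 0 T, bop L P u i t = 0) →
      hNorm s W (ofFun L fun x => u x 0) ≤ ENNReal.ofReal δ →
      ∀ t ∈ Icc 0 T, hNorm s (Ioo 0 L) (ofFun L fun x => u x t) < ENNReal.ofReal ε) : False := by
  obtain ⟨M, θ, θ1, θ2, θ3, hM, hθ⟩ := exists_tf hL
  obtain ⟨η₀, hη₀, K, hK, hex⟩ := hom_ex hL hP hT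
  have hS := Real.sqrt_nonneg L
  have hK0 : 0 < K := by linarith
  obtain ⟨Q, hQ⟩ : ∃ Q, Q = 2 * M * K + 19 * M * L * K ^ 3 + (M * Real.sqrt L * K +
    19 * M * L * K ^ 3 + K ^ 2 + 25 * L) * (M * Real.sqrt L * K) := ⟨_, rfl⟩
  have hQ0 : 0 < Q := by rw [hQ]; positivity
  obtain ⟨η, hη, hη1, hη2⟩ : ∃ η, 0 < η ∧ η ≤ η₀ ∧ η ≤ 1 / (8 * (Real.sqrt L + 1) ^ 2 * Q) :=
    ⟨min _ _, lt_min hη₀.1 (by positivity), min_le_left _ _, min_le_right _ _⟩
  have hη5 : η ≤ 1 / 5 := hη1.trans hη₀.2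
  obtain ⟨c, hc⟩ : ∃ c, c = η / (Real.sqrt L + 1) := ⟨_, rfl⟩
  have hc0 : 0 < c := by rw [hc]; positivity
  have hc2 : (Real.sqrt L + 1) * c = η := by rw [hc]; field_simp
  have hc1 : c ≤ 1 := by nlinarith
  have hQη : Q * η ^ 3 ≤ c ^ 2 / 8 := by
    calc Q * η ^ 3 = Q * η ^ 2 * η := by ring
      _ ≤ Q * η ^ 2 * (1 / (8 * (Real.sqrt L + 1) ^ 2 * Q)) := by gcongr
      _ = c ^ 2 / 8 := by
        rw [hc]
        field_simp
  obtain ⟨R, hR⟩ : ∃ R, R = 2 + 2 * M + (4 + M * Real.sqrt L) * (M * Real.sqrt L * K) := ⟨_, rfl⟩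
  have hR0 : 0 < R := by rw [hR]; positivity
  obtain ⟨ρ, hρ, hρR⟩ : ∃ ρ, 0 < ρ ∧ R * ρ ≤ c ^ 2 / 8 :=
    ⟨c ^ 2 / 8 / R, by positivity, le_of_eq (by field_simp)⟩
  have ha : 0 < K * η := by positivity
  obtain ⟨t₀, ht₀, ht₁, ht₂⟩ : ∃ t₀, 0 < t₀ ∧ t₀ ≤ T ∧ t₀ ≤ (K * η) ^ 4 :=
    ⟨min _ _, lt_min hT (by positivity), min_le_left _ _, min_le_right _ _⟩
  obtain ⟨l, hl, hl1⟩ : ∃ l, 0 < l ∧ L * (K * η) ^ 2 / (l * t₀) = ρ :=
    ⟨L * (K * η) ^ 2 / (ρ * t₀), by positivity, by field_simp⟩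
  obtain ⟨h, hh, hh1, hh2⟩ : ∃ h, 0 < h ∧ h ≤ L / 4 ∧ l * h ≤ ρ := by
    refine ⟨min (L / 4) (ρ / l), lt_min (by positivity) (by positivity), min_le_left _ _, ?_⟩
    rw [← le_div_iff₀' hl]
    exact min_le_right _ _
  obtain ⟨C₁, hC₁, hp₁⟩ := hom_pair s hL (g := θ)
    (hθ.eq ▸ (sc_deriv_rp (by positivity) (L / 4)).1)
    fun x hx => (hθ.z x fun h => hx ⟨by linarith [h.1], by linarith [h.2]⟩).1
  obtain ⟨C₂, hC₂, hp₂⟩ := hom_scale s hL hh hh1
  obtain ⟨ε, hε, hε1, hε2⟩ : ∃ ε, 0 < ε ∧ C₁ * ε ≤ ρ ∧ C₂ * ε ≤ ρ := by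
    have e : (C₁ + C₂) * (ρ / (C₁ + C₂)) = ρ := by field_simp
    have h1 : 0 < ρ / (C₁ + C₂) := by positivity
    exact ⟨ρ / (C₁ + C₂), h1, by nlinarith, by nlinarith⟩
  obtain ⟨δ, hδ, hst⟩ := hst ε hε
  -- the frequency
  obtain ⟨m, hm, hm1, hm2, hm3⟩ : ∃ m, 0 < m ∧ Real.sin (m * L) = 0 ∧ M * m⁻¹ * L ≤ ρ ∧
      hNorm s W (ofFun L fun x => m * Real.cos (m * x)) ≤ ENNReal.ofReal (δ / 12) := by
    obtain ⟨N, hN⟩ := exists_nat_ge (L / π)
    have hπ := Real.pi_pos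
    have hmt : Tendsto (fun n : ℕ => ((n : ℝ) + N) * (π / L)) atTop atTop :=
      (tendsto_atTop_add_const_right _ _ tendsto_natCast_atTop_atTop).atTop_mul_const
        (by positivity)
    have hsin : ∀ n : ℕ, Real.sin (((n : ℝ) + N) * (π / L) * L) = 0 := fun n => by
      rw [mul_assoc, div_mul_cancel₀ _ hL.ne', ← Nat.cast_add, Real.sin_nat_mul_pi]
    have hge : ∀ n : ℕ, 1 ≤ ((n : ℝ) + N) * (π / L) := fun n => by
      rw [← div_le_iff₀ (by positivity), one_div_div]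
      linarith [Nat.cast_nonneg (α := ℝ) n]
    have t1 := (small_cos hL (δ := -s - 1) (by linarith) hge hmt hsin).tendsto (by linarith) W _
      fun _ _ _ => rfl
    rw [show -(1 + (-s - 1)) = s by ring] at t1
    have t2 : Tendsto (fun n : ℕ => M * (((n : ℝ) + N) * (π / L))⁻¹ * L) atTop (𝓝 (M * 0 * L)) :=
      (hmt.inv_tendsto_atTop.const_mul M).mul_const L
    rw [mul_zero, zero_mul] at t2
    obtain ⟨n, h1, h2⟩ := ((t2.eventually (ge_mem_nhds hρ)).and (t1.eventually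
      (ge_mem_nhds (ENNReal.ofReal_pos.2 (by positivity : 0 < δ / 12))))).exists
    exact ⟨_, one_pos.trans_le (hge n), hsin n, h1, h2⟩
  have hw : SmI L fun x => c * Real.sin (m * x) := ContDiff.contDiffOn (by fun_prop)
  have hwn : wn L P (fun x => c * Real.sin (m * x)) ≤ η := by
    have := nL_le_of_abs_le hL.le hw.cont (B := c) fun x _ => by
      rw [abs_mul, abs_of_pos hc0]
      exact mul_le_of_le_one_right hc0.le (Real.abs_sin_le_one _)
    unfold wn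
    simp only [mul_zero, Real.sin_zero, hm1, abs_zero, ite_self, add_zero]
    linarith
  obtain ⟨ε', hε', hε'1, hε'2⟩ : ∃ ε', 0 < ε' ∧ ε' ≤ ρ ∧ ε' ≤ δ / 84 :=
    ⟨min _ _, lt_min hρ (by positivity), min_le_left _ _, min_le_right _ _⟩
  obtain ⟨Z, hZ, hu, hb, hZ0, w, hw', hder, hclose⟩ := hex η ⟨hη, hη1⟩ _ hw hwn ε' hε'
  -- the data are small
  have hdat : hNorm s W (ofFun L fun x => miura L (5 * η ^ 2) Z x 0) ≤ ENNReal.ofReal δ := by
    have hd : SmI L fun x => w x - c * Real.sin (m * x) := ContDiffOn.sub hw' hw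
    have e : ∀ x ∈ Ioo 0 L, miura L (5 * η ^ 2) Z x 0 =
        -6 * (dI L (fun x => w x - c * Real.sin (m * x)) x + c * (m * Real.cos (m * x))) := by
      intro x hx
      have hx' := Ioo_subset_Icc_self hx
      rw [dI_eq hL hx' ((hw'.hasDerivWithinAt hx').fun_sub
        ((hom_dsin m x).const_mul c).hasDerivWithinAt), hder x hx']
      ring
    have b1 : hNorm s W (ofFun L (dI L fun x => w x - c * Real.sin (m * x))) ≤
        ENNReal.ofReal (δ / 12) :=
      (hNorm_anti hs.le _ _).trans ((hNorm_mono hW _).trans ((ini_le hL P hd).trans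
        (ENNReal.ofReal_le_ofReal (by linarith))))
    have b2 : hNorm s W (ofFun L fun x => c * (m * Real.cos (m * x))) ≤
        ENNReal.ofReal (δ / 12) := by
      rw [ofFun_const_mul]
      refine (hNorm_real_mul _ _).trans ((mul_le_mul_right hm3 _).trans ?_)
      rw [← ENNReal.ofReal_mul (abs_nonneg _), abs_of_pos hc0]
      exact ENNReal.ofReal_le_ofReal (mul_le_of_le_one_left (by positivity) hc1)
    rw [ofFun_congr e, ofFun_const_mul, ofFun_add (hd.dI hL).cont (by fun_prop)]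
    refine (hNorm_real_mul _ _).trans ((mul_le_mul_right
      ((hNorm_add_le _ _).trans (add_le_add b1 b2)) _).trans ?_)
    rw [← ENNReal.ofReal_add (by positivity) (by positivity), ← ENNReal.ofReal_mul (abs_nonneg _),
      abs_neg, abs_of_pos (by norm_num : (0 : ℝ) < 6)]
    exact ENNReal.ofReal_le_ofReal (by linarith)
  have hsm := hst _ hu hb hdat
  obtain ⟨i1, i2⟩ := hθ.init hL hm hc0.le (hZ.sm.slice_x ⟨le_rfl, hT.le⟩).cont
    ((nL_le_wn L P _).trans hwn) (e := ρ + K * η ^ 2) (hZ0.trans (by linarith))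
  have hμ : |mu (5 * η ^ 2)| ≤ 2 := by
    have h1 : (5 * η ^ 2) ^ 2 ≤ 1 := pow_le_one₀ (by positivity) (by nlinarith)
    unfold mu
    rw [abs_le]
    constructor <;> linarith [sq_nonneg (5 * η ^ 2)]
  have key := hZ.core hL hT ha hμ hθ ht₀ ht₁ ht₂ hl hh hh1 (ρ := ρ)
    (b := ρ + M * Real.sqrt L * (ρ + K * η ^ 2))
    (i1.trans (add_le_add_left ((mul_le_mul hc1 hm2 (by positivity) zero_le_one).trans
      (one_mul ρ).le) _))
    (fun t ht => (hp₁ _ ε hε.le (hsm t ht)).trans hε1) fun y hy => by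
      obtain ⟨x₀, h1, h2, h3⟩ := hp₂ y hy
      exact ⟨x₀, h1, h2, fun t ht => (h3 _ ε hε.le (hsm t ht)).trans hε2⟩
  rw [hl1] at key
  rw [hQ] at hQη
  rw [hR] at hρR
  refine hom_arith hM.le hS hL.le hK0.le hη.le (by linarith) hρ.le hc0 hc1 hQη hρR
    (le_trans ?_ i2) (key.trans ?_)
  · linarith [mul_le_mul_of_nonneg_left hm2 (sq_nonneg c)]
  · gcongr

end Pool.Agent.Lib.MP_14aec4_an.W
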