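import Pool.Agent.Lib.MP_14aec4_an.ZDefs
import Pool.Agent.Lib.MP_14aec4_an.Z2
import Pool.Agent.Lib.MP_14aec4_an.WP
import Pool.Agent.Lib.MP_14aec4_an.Ill

/-!
The classification with the weakest notion of stability.
-/

noncomputable section

open MeasureTheory Set Filter Topology FourierTransform
open scoped ENNReal ComplexConjugate

namespace Pool.Agent.Lib.MP_14aec4_an.W

theorem stableAtZero_of_stable {W V : Set ℝ} {s L T : ℝ} (hs : s ≤ 0) (hL : 0 < L)
    {a b : ℕ → ℕ → ℝ} {k : Fin 4} (h : StableAtAllData W V s L T a b k) :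
    StableAtZero W s L T a b k := by
  have hdn : ∀ (T₁ : ℝ) (φ : SchwartzMap ℝ ℂ → ℂ), dataNorm W V s T₁ k (φ, 0) = hNorm s W φ := by
    intro T₁ φ
    unfold dataNorm
    simp [ill_zero]
  have hdata : ∀ φ : ℝ → ℝ, ContinuousOn φ (Icc 0 L) → IsData W V s L T k (ofFun L φ, 0) :=
    fun φ hφ => ⟨by rw [hdn]; exact hNorm_ofFun_lt_top hs _ hφ, realOn_ofFun _ _ _,
      fun i ψ _ => ⟨fun _ => rfl, fun _ => rfl⟩⟩
  obtain ⟨T', hT', U, -, hst⟩ := h _ (hdata (fun _ => 0) continuousOn_const)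
  have hsol : ∀ u, KSol L 0 T' u → (∀ i, ∀ t ∈ Ioo 0 T', bdry L a b k u i t = 0) →
      IsSol W V s L T' a b k (ofFun L fun x => u x 0, 0) fun t => ofFun L fun x => u x t := by
    intro u hu hb
    refine ⟨fun t ht => ⟨hNorm_ofFun_lt_top hs _ (hu.1.ctOn.slice_x ht),
      curve_continuous hs hL hu.1.ctOn ht⟩, fun _ => u,
      fun _ => (isSmoothSol_iff hL hT'.1 u).mpr hu, ?_, ?_⟩
    · have e : ((ofFun L fun x => u x 0, fun i => ofFun T' (bdry L a b k u i)) -
          (ofFun L fun x => u x 0, 0) :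
            (SchwartzMap ℝ ℂ → ℂ) × (Fin 3 → SchwartzMap ℝ ℂ → ℂ)) = (0, 0) := by
        refine Prod.ext (sub_self _) (funext fun i => ?_)
        simp only [Prod.snd_sub, sub_zero, Pi.zero_apply]
        rw [ofFun_congr (hb i), ofFun_zero]
      simp only [e, hdn]
      rw [ill_zero]
      exact tendsto_const_nhds
    · have : solNorm s L T' ((fun t => ofFun L fun x => u x t) -
          fun t => ofFun L fun x => u x t) = 0 := by
        unfold solNorm
        simp only [sub_self, ENNReal.iSup_eq_zero]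
        intro t _
        exact hNorm_eq_zero _ _ _ fun _ _ => rfl
      simp only [this]
      exact tendsto_const_nhds
  refine ⟨T', hT', fun ε hε => ?_⟩
  obtain ⟨r, hr, hrε⟩ : ∃ r : ℝ, 0 < r ∧ ENNReal.ofReal r < ε := by
    obtain ⟨r, -, hr⟩ := ENNReal.lt_iff_exists_real_btwn.mp hε
    exact ⟨r, ENNReal.ofReal_pos.mp hr.1, hr.2⟩
  obtain ⟨δ, hδ, hδε⟩ := hst (ENNReal.ofReal (r / 2)) (ENNReal.ofReal_pos.2 (by positivity))
  have hcl : ∀ u, KSol L 0 T' u → (∀ i, ∀ t ∈ Ioo 0 T', bdry L a b k u i t = 0) →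
      hNorm s W (ofFun L fun x => u x 0) < δ →
      ∀ t ∈ Icc 0 T', hNorm s (Ioo 0 L) ((ofFun L fun x => u x t) - U t) <
        ENNReal.ofReal (r / 2) := by
    intro u hu hb hn t ht
    have h1 := hδε _ (hdata _ (hu.1.ctOn.slice_x ⟨le_rfl, hT'.1.le⟩)) (by
      have e : ((ofFun L fun x => u x 0, 0) - (ofFun L fun _ => 0, 0) :
          (SchwartzMap ℝ ℂ → ℂ) × (Fin 3 → SchwartzMap ℝ ℂ → ℂ)) =
          (ofFun L fun x => u x 0, 0) := by
        rw [ofFun_zero]
        simp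
      rw [e, hdn]
      exact hn) _ (hsol u hu hb)
    refine lt_of_le_of_lt ?_ h1
    unfold solNorm
    exact le_iSup₂_of_le (f := fun τ (_ : τ ∈ Icc 0 T') => hNorm s (Ioo 0 L)
      (((fun t => ofFun L fun x => u x t) - U) τ)) t ht le_rfl
  refine ⟨δ, hδ, fun u hu hb hn => lt_of_le_of_lt (iSup₂_le fun t ht => ?_) hrε⟩
  have h1 := hcl u ((isSmoothSol_iff hL hT'.1 u).mp hu) hb hn t ht
  have h2 := hcl (fun _ _ => 0) (ksol_zero _ _ _)
    (fun i t _ => by rw [bdry_eq_bop]; exact bop_zero _ _ _ _)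
    (by rw [ofFun_zero, ill_zero]; exact hδ) t ht
  rw [ofFun_zero, hNorm_sub_comm] at h2
  have h3 := hNorm_sub_le (σ := s) (W := Ioo 0 L) (ofFun L fun x => u x t) (U t) 0
  rw [sub_zero] at h3
  refine h3.trans ((add_le_add h1.le h2.le).trans_eq ?_)
  rw [← ENNReal.ofReal_add (by positivity) (by positivity), add_halves]

lemma StableAtZero.real {W : Set ℝ} {s L T : ℝ} (hL : 0 < L) {a b : ℕ → ℕ → ℝ} {k : Fin 4}
    (h : StableAtZero W s L T a b k) :
    ∃ T' > 0, ∀ ε > 0, ∃ δ > 0, ∀ u, KSol L 0 T' u →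
      (∀ i, ∀ t ∈ Ioo 0 T', bop L (bcOf a b k) u i t = 0) →
      hNorm s W (ofFun L fun x => u x 0) ≤ ENNReal.ofReal δ →
      ∀ t ∈ Icc 0 T', hNorm s (Ioo 0 L) (ofFun L fun x => u x t) < ENNReal.ofReal ε := by
  obtain ⟨T', hT', h⟩ := h
  refine ⟨T', hT'.1, fun ε hε => ?_⟩
  obtain ⟨δ, hδ, h⟩ := h (ENNReal.ofReal ε) (ENNReal.ofReal_pos.2 hε)
  obtain ⟨r, -, hr⟩ := ENNReal.lt_iff_exists_real_btwn.mp hδ
  refine ⟨r, ENNReal.ofReal_pos.mp hr.1, fun u hu hb hn t ht => lt_of_le_of_lt ?_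
    (h u ((isSmoothSol_iff hL hT'.1 u).mpr hu) (by rwa [bdry_eq_bop]) (hn.trans_lt hr.2))⟩
  exact le_iSup₂_of_le (f := fun τ (_ : τ ∈ Icc 0 T') => hNorm s (Ioo 0 L)
    (ofFun L fun x => u x τ)) t ht le_rfl

/-- The proof of `not_stable_neg_one` uses smooth solutions with zero boundary data only. -/
theorem not_zero_neg_one {L T' : ℝ} (hL : 0 < L) (hT' : 0 < T') {P : BC} (hP : P.Valid)
    (hmk : P.dL = false → P.d0 = true)
    (hst : ∀ ε > 0, ∃ δ > 0, ∀ u, KSol L 0 T' u → (∀ i, ∀ t ∈ Ioo 0 T', bop L P u i t = 0) →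
      hNorm (-1) (Ioo 0 L) (ofFun L fun x => u x 0) ≤ ENNReal.ofReal δ →
      ∀ t ∈ Icc 0 T', hNorm (-1) (Ioo 0 L) (ofFun L fun x => u x t) < ENNReal.ofReal ε) :
    False := by
  obtain ⟨c₀, c₁, c₂, e₀, e₁, e₂⟩ := ill_poly hL P
  obtain ⟨Cw, hCw, hweak⟩ := weak_form hL hP (c₀ := c₀) (c₁ := c₁) (c₂ := c₂)
    (fun h => by
      rw [e₀]
      cases h' : P.dL
      · rw [hmk h'] at h
        exact absurd h (by simp)
      · rfl)
    (fun h => by rw [e₁, h]; rfl) e₂
  obtain ⟨η₁, hη₁, hsmall⟩ := ms_small hL hP hT'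
  set c := η₁ / 2 with hc
  have hc0 : 0 < c := by positivity
  set ρ := min 1 (c / (2 * Cw)) with hρ
  have hρ0 : 0 < ρ := lt_min one_pos (by positivity)
  have hρ1 : ρ ≤ 1 := min_le_left _ _
  have hρ2 : Cw * (ρ + ρ ^ 2) ≤ c := by
    have h1 : ρ ≤ c / (2 * Cw) := min_le_right _ _
    rw [le_div_iff₀ (by positivity)] at h1
    nlinarith [mul_pos hCw hρ0]
  obtain ⟨η, hη, Cap, -, hap⟩ := ms_ap hL hP η₁ hρ0
  -- the norm `wn` of multiples of ramps
  have hwn : ∀ r : ℝ → ℝ, r 0 = (if P.dL then 0 else 1) → r L = (if P.dL then 1 else 0) →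
      nL L r ≤ 1 → wn L P (fun x => c * r x) ≤ η₁ := by
    intro r h0 h1 h2
    rw [wn_const_mul, abs_of_pos hc0]
    have : wn L P r ≤ 2 := by
      unfold wn
      rw [h0, h1]
      cases P.dL <;> cases P.d0 <;> simp <;> linarith
    nlinarith
  obtain ⟨r₀, hr₀, nr₀, r₀0, r₀L⟩ := ill_ramp hL P.dL
    (κ := min 1 (η / (4 * c))) (lt_min one_pos (by positivity))
  have hw₀ : SmI L fun x => c * r₀ x := ContDiffOn.mul contDiffOn_const hr₀
  obtain ⟨Ts, hTs, hap⟩ := hap (fun x => c * r₀ x) (fun _ _ => 0) hw₀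
    (hwn r₀ r₀0 r₀L (nr₀.trans (min_le_left _ _))) fun _ => contDiff_const
  set T₂ := min (min Ts T') 1 with hT₂
  have hT₂0 : 0 < T₂ := lt_min (lt_min hTs hT') one_pos
  have hT₂s : T₂ ≤ Ts := (min_le_left _ _).trans (min_le_left _ _)
  have hT₂' : T₂ ≤ T' := (min_le_left _ _).trans (min_le_right _ _)
  have hT₂1 : T₂ ≤ 1 := min_le_right _ _
  obtain ⟨ψ, hψ, g, hg, hgκ, hsplit⟩ := ill_split hL
    (p := fun x => c₀ + c₁ * x + c₂ * x ^ 2) (by fun_prop) (κ := c * T₂ / 2) (by positivity)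
  obtain ⟨Cψ, hCψ, hpair⟩ := pairing_bound (-1) (Ioo 0 L) ψ hψ
  obtain ⟨δ, hδ, hst⟩ := hst (c / Cψ) (by positivity)
  set D := nL L fun x => c₁ + 2 * c₂ * x with hD
  have hD0 : 0 ≤ D := nL_nonneg _ _
  set m := min (min (η / 4) (δ / 84)) (c / (20 * (D + 1))) with hm
  have hm0 : 0 < m := lt_min (lt_min (by positivity) (by positivity)) (by positivity)
  have hm1 : m ≤ η / 4 := (min_le_left _ _).trans (min_le_left _ _)
  have hm2 : m ≤ δ / 84 := (min_le_left _ _).trans (min_le_right _ _)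
  have hm3 : m * (20 * (D + 1)) ≤ c := by
    rw [← le_div_iff₀ (by positivity)]
    exact min_le_right _ _
  obtain ⟨r, hr, nr, r0, rL⟩ := ill_ramp hL P.dL (κ := min 1 (m / c))
    (lt_min one_pos (by positivity))
  have hw : SmI L fun x => c * r x := ContDiffOn.mul contDiffOn_const hr
  obtain ⟨u, hu, hb, w, hw', hder, hclose⟩ := hsmall (fun x => c * r x) hw
    (hwn r r0 rL (nr.trans (min_le_left _ _))) m hm0
  have hcr : nL L (fun x => c * r x) ≤ m := by
    rw [nL_const_mul, abs_of_pos hc0]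
    have h1 := nr.trans (min_le_right _ _)
    rw [le_div_iff₀ hc0] at h1
    linarith
  have hcr₀ : nL L (fun x => c * r₀ x) ≤ η / 4 := by
    rw [nL_const_mul, abs_of_pos hc0]
    have h1 := nr₀.trans (min_le_right _ _)
    rw [le_div_iff₀ (by positivity)] at h1
    linarith
  have hwL : nL L w ≤ 2 * m := by
    have h1 := nL_add_le hL.le (hw'.cont.sub hw.cont) hw.cont
    have h2 := nL_le_wn L P fun x => w x - c * r x
    rw [nL_congr hL.le (q' := w) fun x _ => by simp] at h1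
    have h3 : nL L (w - fun x => c * r x) = nL L fun x => w x - c * r x := rfl
    linarith
  -- the data are small in the restriction norm
  have hu0 : ∀ x ∈ Icc 0 L, u x 0 = -6 * dI L w x := fun x hx => by
    rw [hder x hx]
    ring
  have hdat : hNorm (-1) (Ioo 0 L) (ofFun L fun x => u x 0) ≤ ENNReal.ofReal δ := by
    rw [ofFun_congr (q := fun x => -6 * dI L w x) fun x hx => hu0 x (Ioo_subset_Icc_self hx),
      ofFun_const_mul]
    refine (hNorm_real_mul _ _).trans ((mul_le_mul_right (ini_le_Ioo hL hw') _).trans ?_)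
    rw [← ENNReal.ofReal_mul (abs_nonneg _)]
    refine ENNReal.ofReal_le_ofReal ?_
    rw [abs_neg, abs_of_pos (by norm_num : (0 : ℝ) < 6)]
    linarith
  have hsm := hst u hu hb hdat
  -- the local smoothing bound
  have hu₂ : KSol L 0 T₂ u := hu.mono le_rfl hT₂'
  have hb₂ : ∀ i, ∀ t ∈ Ioo 0 T₂, bop L P u i t = 0 := fun i t ht =>
    hb i t ⟨ht.1, ht.2.trans_le hT₂'⟩
  have hnear : Near L P T₂ η (fun x => c * r₀ x) (fun _ _ => 0) u w := by
    refine ⟨hu₂, hw', hder, ?_, fun i => ?_⟩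
    · have h1 := wn_add_le hL.le P (hw'.cont.sub hw.cont) (hw.cont.sub hw₀.cont)
      rw [wn_congr hL.le P (q' := fun x => w x - c * r₀ x) fun x _ => by simp] at h1
      have h2 : wn L P ((fun x => c * r x) - fun x => c * r₀ x) ≤ m + η / 4 := by
        have h3 := nL_add_le hL.le hw.cont (hw₀.cont.const_smul (-1 : ℝ))
        have h4 := nL_const_mul (L := L) (-1) fun x => c * r₀ x
        rw [nL_congr hL.le (q' := (fun x => c * r x) - fun x => c * r₀ x)
          fun x _ => by simp [sub_eq_add_neg]] at h3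
        have h5 : nL L ((-1 : ℝ) • fun x => c * r₀ x) = nL L fun x => -1 * (c * r₀ x) := rfl
        unfold wn
        simp only [Pi.sub_apply, r0, r₀0, rL, r₀L, sub_self, abs_zero, ite_self, add_zero]
        rw [abs_neg, abs_one, one_mul] at h4
        linarith
      have h3 : wn L P (w - fun x => c * r x) = wn L P fun x => w x - c * r x := rfl
      linarith
    · unfold bn
      rw [ofFun_congr (q := fun _ => 0) fun t ht => by simp [hb₂ i t ht], ofFun_zero,
        ill_zero]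
      exact zero_le
  have hL2 := (hap T₂ ⟨hT₂0, hT₂s⟩ u w hnear).1
  have hwk := hweak T₂ ρ u hT₂0 hT₂1 hρ0.le hu₂ hb₂ hL2
  set I : ℝ → ℝ := fun t => ∫ x in (0 : ℝ)..L, (c₀ + c₁ * x + c₂ * x ^ 2) * u x t with hI
  set J : ℝ → ℝ := fun t => ∫ x in (0 : ℝ)..L, g x * u x t with hJ
  have hI0 : 5 * c ≤ |I 0| := by
    have h1 : I 0 = -6 * ∫ x in (0 : ℝ)..L, (c₀ + c₁ * x + c₂ * x ^ 2) * dI L w x := by
      rw [← intervalIntegral.integral_const_mul]
      refine intervalIntegral.integral_congr fun x hx => ?_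
      rw [uIcc_of_le hL.le] at hx
      rw [hu0 x hx]
      ring
    rw [ill_parts hL c₀ c₁ c₂ hw'] at h1
    have h2 : |∫ x in (0 : ℝ)..L, (c₁ + 2 * c₂ * x) * w x| ≤ D * (2 * m) := by
      refine (intervalIntegral.abs_integral_le_integral_abs hL.le).trans
        ((integral_abs_mul_le hL.le (by fun_prop) hw'.cont).trans ?_)
      exact mul_le_mul_of_nonneg_left hwL hD0
    have h3 := nL_nonneg L fun x => w x - c * r x
    have h4 : c - m ≤ |(c₀ + c₁ * L + c₂ * L ^ 2) * w L - c₀ * w 0| := by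
      rw [e₁, e₀]
      unfold wn at hclose
      simp only [r0, rL] at hclose
      cases h' : P.dL
      · rw [hmk h', h'] at hclose
        simp only [if_true, Bool.false_eq_true, if_false, mul_one, add_zero] at hclose
        simp only [Bool.false_eq_true, if_false, zero_mul, one_mul, zero_sub, abs_neg]
        linarith [le_abs_self (w 0), neg_abs_le (w 0 - c)]
      · rw [h'] at hclose
        simp only [if_true, mul_one] at hclose
        have h5 : 0 ≤ if P.d0 = true then |w 0 - c * 0| else 0 := by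
          split_ifs
          · exact abs_nonneg _
          · exact le_rfl
        simp only [if_true, zero_mul, one_mul, sub_zero]
        linarith [le_abs_self (w L), neg_abs_le (w L - c)]
    rw [h1, abs_mul, abs_neg, abs_of_pos (by norm_num : (0 : ℝ) < 6)]
    have h5 := abs_sub_abs_le_abs_sub ((c₀ + c₁ * L + c₂ * L ^ 2) * w L - c₀ * w 0)
      (∫ x in (0 : ℝ)..L, (c₁ + 2 * c₂ * x) * w x)
    nlinarith [mul_nonneg hD0 hm0.le]
  have hJc : ContinuousOn J (Icc 0 T₂) :=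
    CtOn.continuousOn_integral hL.le (f := fun x t => g x * u x t)
      (ContinuousOn.mul (hg.comp continuous_fst).continuousOn hu₂.1.ctOn)
  have hJI : ∀ t ∈ Icc 0 T₂, |J t - I 0| ≤ 2 * c := by
    intro t ht
    have h1 := hsplit (fun x => u x t) (hu₂.1.ctOn.slice_x ht)
    have h2 := hpair _ _ (by positivity) (hsm t ⟨ht.1, ht.2.trans hT₂'⟩)
    rw [mul_div_cancel₀ _ hCψ.ne'] at h2
    have h3 : |I t - I 0| ≤ c := (hwk t ht).trans hρ2
    have h4 : |I t - J t| ≤ c := h1.trans h2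
    rw [abs_le] at h3 h4 ⊢
    constructor <;> linarith [h3.1, h3.2, h4.1, h4.2]
  have hint : |∫ t in (0 : ℝ)..T₂, (J t - I 0)| ≤ 2 * c * |T₂ - 0| :=
    intervalIntegral.norm_integral_le_of_norm_le_const (f := fun t => J t - I 0) (C := 2 * c)
      fun t ht => by
      rw [uIoc_of_le hT₂0.le] at ht
      exact hJI t ⟨ht.1.le, ht.2⟩
  rw [intervalIntegral.integral_sub (hJc.intervalIntegrable_of_Icc hT₂0.le)
    intervalIntegrable_const, sub_zero, abs_of_pos hT₂0] at hint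
  simp only [intervalIntegral.integral_const, sub_zero, smul_eq_mul] at hint
  have hbd : |∫ t in (0 : ℝ)..T₂, J t| ≤ c * T₂ / 2 * (T₂ + ρ ^ 2) :=
    ill_bd hL hT₂0 hu₂.1.ctOn hL2 hg hgκ
  have h1 : c * T₂ / 2 * (T₂ + ρ ^ 2) ≤ c * T₂ / 2 * 2 :=
    mul_le_mul_of_nonneg_left (by nlinarith) (by positivity)
  have h2 := abs_sub_abs_le_abs_sub (T₂ * I 0) (∫ t in (0 : ℝ)..T₂, J t)
  rw [abs_sub_comm, abs_mul, abs_of_pos hT₂0] at h2
  nlinarith [mul_pos hc0 hT₂0, mul_le_mul_of_nonneg_left hI0 hT₂0.le]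

lemma ioo_subset_winB (d0 dL : Bool) (L : ℝ) : Ioo 0 L ⊆ winB d0 dL L := by
  cases d0 <;> cases dL
  · exact subset_rfl
  · exact Ioo_subset_Ioi_self
  · exact Ioo_subset_Iio_self
  · exact subset_univ _

theorem zero_Ioo {L T s : ℝ} (hL : 0 < L) (hs : s ≤ -1) {k : Fin 4} {a b : ℕ → ℕ → ℝ}
    (h : StableAtZero (Ioo 0 L) s L T a b k) : s = -1 ∧ k = 0 := by
  obtain ⟨T', hT', h⟩ := StableAtZero.real hL h
  rcases hs.lt_or_eq with h1 | h1
  · exact (not_zero_lt h1 hL hT' (valid_bcOf a b k) (ioo_subset_winB _ _ L) h).elim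
  · subst h1
    refine ⟨rfl, ?_⟩
    by_contra hk
    exact not_zero_neg_one hL hT' (valid_bcOf a b k) (ill_marked a b hk) h

theorem zero_win {L T s : ℝ} (hL : 0 < L) (hs : s ≤ -1) {k : Fin 4} {a b : ℕ → ℕ → ℝ}
    (h : StableAtZero (win L k) s L T a b k) : s = -1 := by
  obtain ⟨T', hT', h⟩ := StableAtZero.real hL h
  by_contra h1
  exact not_zero_lt (lt_of_le_of_ne hs h1) hL hT' (valid_bcOf a b k) (win_eq L a b k).subset h

theorem classification_zero (L T s : ℝ) (hL : 0 < L) (hT : 0 < T) (hs : s ≤ -1) (k : Fin 4)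
    (a b : ℕ → ℕ → ℝ) :
    List.TFAE [WellPosed (Ioo 0 L) (Ioi 0) s L T a b k, StableAtZero (Ioo 0 L) s L T a b k,
      s = -1 ∧ k = 0] ∧
    List.TFAE [WellPosed (win L k) univ s L T a b k, StableAtZero (win L k) s L T a b k,
      s = -1] := by
  constructor
  · tfae_have 1 → 2 := fun h => stableAtZero_of_stable (by linarith) hL (stable_of_wellPosed h)
    tfae_have 2 → 3 := zero_Ioo hL hs
    tfae_have 3 → 1 := by
      rintro ⟨rfl, rfl⟩
      exact wellPosed_neg_one hL hT a b 0 (Or.inr ⟨rfl, rfl⟩)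
    tfae_finish
  · tfae_have 1 → 2 := fun h => stableAtZero_of_stable (by linarith) hL (stable_of_wellPosed h)
    tfae_have 2 → 3 := zero_win hL hs
    tfae_have 3 → 1 := by
      rintro rfl
      exact wellPosed_neg_one hL hT a b k (Or.inl rfl)
    tfae_finish

end Pool.Agent.Lib.MP_14aec4_an.W
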