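import Pool.Agent.Lib.MP_14aec4_an.UAP
import Pool.Agent.Lib.MP_14aec4_an.UDefs
import Pool.Agent.Lib.MP_14aec4_an.Z3

/-!
Local well-posedness in `H^{-1}(0, L)`, uniformly on bounded sets of data.
-/

noncomputable section

open MeasureTheory Set Filter Topology FourierTransform
open scoped ENNReal NNReal ComplexConjugate

namespace Pool.Agent.Lib.MP_14aec4_an.W

theorem wellPosed_of_uniformly {W V : Set ℝ} {s L T : ℝ} {a b : ℕ → ℕ → ℝ} {k : Fin 4}
    (h : UniformlyWellPosed W V s L T a b k) : WellPosed W V s L T a b k := by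
  intro d hd
  obtain ⟨T₀, hT₀, C, h⟩ := h (1 + (1 + (dataNorm W V s T k d).toNNReal))
  have tri : ∀ x y : (SchwartzMap ℝ ℂ → ℂ) × (Fin 3 → SchwartzMap ℝ ℂ → ℂ),
      dataNorm W V s T k x ≤ dataNorm W V s T k (x - y) + dataNorm W V s T k y := by
    intro x y
    simpa only [sub_zero] using wp_dn_sub_le W V s T k x y 0
  refine ⟨T₀, hT₀, 1, one_pos, fun T' hT' e he hed => ?_⟩
  have h1 : dataNorm W V s T k e ≤ 1 + dataNorm W V s T k d :=
    (tri e d).trans (add_le_add hed.le le_rfl)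
  have e1 : ((1 + (1 + (dataNorm W V s T k d).toNNReal) : ℝ≥0) : ℝ≥0∞) =
      1 + (1 + dataNorm W V s T k d) := by
    rw [ENNReal.coe_add, ENNReal.coe_add, ENNReal.coe_toNNReal hd.1.ne, ENNReal.coe_one]
  rw [e1] at h
  obtain ⟨hex, hlip⟩ := h T' hT' e he (h1.trans le_add_self)
  refine ⟨hex, fun ε hε => ?_⟩
  obtain ⟨δ, hδ, hδε⟩ := ENNReal.exists_nnreal_pos_mul_lt (a := C) ENNReal.coe_ne_top hε.ne'
  refine ⟨min 1 δ, lt_min one_pos (ENNReal.coe_pos.2 hδ), fun e' he' hee U U' hU hU' => ?_⟩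
  refine (hlip e' he' ((tri e' e).trans (add_le_add (hee.le.trans (min_le_left _ _)) h1)) U U' hU
    hU').trans_lt (lt_of_le_of_lt ?_ hδε)
  rw [mul_comm]
  exact mul_le_mul_left (hee.le.trans (min_le_right _ _)) _

theorem uniformly_neg_one {L T : ℝ} (hL : 0 < L) (hT : 0 < T) (a b : ℕ → ℕ → ℝ) (k : Fin 4)
    {V : Set ℝ} (hV : V = univ ∨ (V = Ioi 0 ∧ k = 0)) :
    UniformlyWellPosed (win L k) V (-1) L T a b k := by
  intro r
  set P := bcOf a b k with hP
  have hPv : P.Valid := valid_bcOf a b k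
  obtain ⟨K, hK, hnear⟩ := wp_near hL a b k hV
  have hr0 : (0 : ℝ) ≤ r := r.2
  obtain ⟨T₁, hT₁, C, hC, hap⟩ := ums_ap hL hPv (R := K * (r + 1)) (by positivity)
  obtain ⟨T₂, hT₂, hex⟩ := ums_ex hL hPv (R := K * (r + 1)) (by positivity)
  have sm6 : ∀ {φ : ℝ → ℝ}, SmI L φ → SmI L fun y => -φ y / 6 := fun h =>
    (ContDiffOn.neg h).div_const 6
  refine ⟨min T (min T₁ T₂), ⟨lt_min hT (lt_min hT₁ hT₂), min_le_left _ _⟩,
    ⟨C * K, by positivity⟩, fun T' hT' e he her => ?_⟩
  have hT'T : T' ≤ T := hT'.2.trans (min_le_left _ _)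
  have hT'1 : T' ∈ Ioc 0 T₁ := ⟨hT'.1, hT'.2.trans ((min_le_right _ _).trans (min_le_left _ _))⟩
  have hT'2 : T' ∈ Ioc 0 T₂ := ⟨hT'.1, hT'.2.trans ((min_le_right _ _).trans (min_le_right _ _))⟩
  have hU := uniqueDiffOn_Icc hT'.1
  have add2 : ∀ {x y z : (SchwartzMap ℝ ℂ → ℂ) × (Fin 3 → SchwartzMap ℝ ℂ → ℂ)} {c c' : ℝ},
      0 ≤ c → 0 ≤ c' → dataNorm (win L k) V (-1) T' k (x - y) ≤ ENNReal.ofReal c →
      dataNorm (win L k) V (-1) T' k (y - z) ≤ ENNReal.ofReal c' →
      dataNorm (win L k) V (-1) T' k (x - z) ≤ ENNReal.ofReal (c + c') := by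
    intro x y z c c' hc hc' h1 h2
    rw [ENNReal.ofReal_add hc hc']
    exact (wp_dn_sub_le _ _ _ _ _ _ y _).trans (add_le_add h1 h2)
  have e0 : sdat L T' (fun _ => 0) (fun _ _ => 0) = 0 := by
    simp only [sdat, ofFun_zero]; rfl
  have ball : ∀ {e}, dataNorm (win L k) V (-1) T k e ≤ r → dataNorm (win L k) V (-1) T' k
      (e - sdat L T' (fun _ => 0) fun _ _ => 0) ≤ ENNReal.ofReal r := by
    intro e h
    rw [e0, sub_zero, ENNReal.ofReal_coe_nnreal]
    exact (wp_dn_mono _ _ _ hT'T _ _).trans h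
  have size : ∀ (φ : ℝ → ℝ) (h : Fin 3 → ℝ → ℝ), ContinuousOn φ (Icc 0 L) →
      (∀ i, ContinuousOn (h i) (Icc 0 T')) → ∀ {e}, dataNorm (win L k) V (-1) T k e ≤ r →
      dataNorm (win L k) V (-1) T' k (sdat L T' φ h - e) ≤ ENNReal.ofReal 1 →
      wn L P (fun x => prim L P (fun y => -φ y / 6) x - 0) ≤ K * (r + 1) ∧
        ∀ i, bn (P.σ i) T' (fun t => h i t - 0) ≤ ENNReal.ofReal (K * (r + 1)) := by
    intro φ h hφ hh e her hd
    have h1 := hnear T' (1 + r) φ (fun _ => 0) h (fun _ _ => 0) hT'.1 (by positivity) hφ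
      continuousOn_const hh (fun _ => continuousOn_const) (add2 zero_le_one hr0 hd (ball her))
    rw [add_comm (1 : ℝ)] at h1
    refine ⟨le_trans (le_of_eq (wn_congr hL.le _ fun x _ => ?_)) h1.1, h1.2⟩
    have : prim L (bcOf a b k) (fun _ => -(0 : ℝ) / 6) x = 0 := by simp [prim]
    rw [this]
  have stab : ∀ u u', KSol L 0 T' u → KSol L 0 T' u' → ∀ {e e'},
      dataNorm (win L k) V (-1) T k e ≤ r → dataNorm (win L k) V (-1) T k e' ≤ r →
      dataNorm (win L k) V (-1) T' k
        (sdat L T' (fun x => u x 0) (bop L P u) - e) ≤ ENNReal.ofReal 1 →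
      dataNorm (win L k) V (-1) T' k
        (sdat L T' (fun x => u' x 0) (bop L P u') - e') ≤ ENNReal.ofReal 1 →
      ∀ D, 0 ≤ D → dataNorm (win L k) V (-1) T' k (sdat L T' (fun x => u x 0) (bop L P u) -
        sdat L T' (fun x => u' x 0) (bop L P u')) ≤ ENNReal.ofReal D →
      solNorm (-1) L T' ((fun t => ofFun L fun x => u x t) - fun t => ofFun L fun x => u' x t) ≤
        ENNReal.ofReal (C * (K * D)) := by
    intro u u' hu hu' e e' g g' h1 h2 D hD h3
    have s0 := hu.1.slice_x (t := 0) ⟨le_rfl, hT'.1.le⟩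
    have s0' := hu'.1.slice_x (t := 0) ⟨le_rfl, hT'.1.le⟩
    have cb := fun i => (contDiffOn_bop hL P hU hu.1 i).continuousOn
    have cb' := fun i => (contDiffOn_bop hL P hU hu'.1 i).continuousOn
    have h4 := hnear T' D _ _ _ _ hT'.1 hD s0.cont s0'.cont cb cb' h3
    have h5 := size _ _ s0.cont cb g h1
    have h6 := size _ _ s0'.cont cb' g' h2
    exact iSup₂_le fun t ht => hap T' hT'1 u _ u' _
      ⟨hu, ((sm6 s0).prim hL P).1, ((sm6 s0).prim hL P).2, h5.1, h5.2⟩
      ⟨hu', ((sm6 s0').prim hL P).1, ((sm6 s0').prim hL P).2, h6.1, h6.2⟩ (K * D)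
      (by positivity) h4.1 h4.2 t ht
  constructor
  · have hn : ∀ n : ℕ, (1 : ℝ) / (n + 1) ≤ 1 := fun n => div_le_self zero_le_one (by simp)
    have step : ∀ n : ℕ, ∃ u, KSol L 0 T' u ∧ dataNorm (win L k) V (-1) T' k
        (sdat L T' (fun x => u x 0) (bop L P u) - e) ≤ ENNReal.ofReal (1 / (n + 1)) := by
      intro n
      have hρ : (0 : ℝ) < 1 / (n + 1) / 43 := by positivity
      obtain ⟨φ, h, hφ, hh, hφe⟩ := wp_approx hL hT a b k hV he hρ
      have h1 := size φ h hφ.continuous.continuousOn (fun i => (hh i).continuous.continuousOn) her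
        ((hφe T' hT'T).trans (ENNReal.ofReal_le_ofReal (by linarith [hn n])))
      simp only [sub_zero] at h1
      have sw := (sm6 hφ.contDiffOn).prim hL P
      obtain ⟨u, hu, hb, w', sw', hw', hww⟩ := hex T' hT'2 _ h sw.1 hh h1.1 h1.2 _ hρ
      refine ⟨u, hu, ?_⟩
      have s0 := hu.1.slice_x (t := 0) ⟨le_rfl, hT'.1.le⟩
      have h3 : dataNorm (win L k) V (-1) T' k (sdat L T' (fun x => u x 0) (bop L P u) -
          sdat L T' φ h) ≤ ENNReal.ofReal (42 * (1 / (n + 1) / 43)) := by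
        rw [wp_dn_eq _ _ _ a b, Finset.sum_eq_zero, add_zero, win_eq L a b k]
        · have sg : SmI L fun x => -6 * (w' x - prim L P (fun y => -φ y / 6) x) :=
            contDiffOn_const.mul (ContDiffOn.sub sw' sw.1)
          have e1 : (sdat L T' (fun x => u x 0) (bop L P u) - sdat L T' φ h).1 = ofFun L
              (dI L fun x => -6 * (w' x - prim L P (fun y => -φ y / 6) x)) := by
            change ofFun L (fun x => u x 0) - ofFun L φ = _
            rw [← ofFun_sub s0.cont hφ.continuous.continuousOn]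
            refine ofFun_congr fun x hx => ?_
            have hx' := Ioo_subset_Icc_self hx
            symm
            apply dI_eq hL hx'
            have := ((sw'.hasDerivWithinAt hx').sub (sw.1.hasDerivWithinAt hx')).const_mul (-6)
            rw [hw' x hx', sw.2 x hx'] at this
            refine this.congr_deriv ?_
            ring
          rw [e1]
          refine (ini_le hL P sg).trans (ENNReal.ofReal_le_ofReal ?_)
          rw [wn_const_mul]
          have : |(-6 : ℝ)| = 6 := by norm_num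
          rw [this]
          linarith
        · intro i _
          refine hNorm_eq_zero _ _ _ fun ψ _ => ?_
          change ofFun T' (bop L P u i) ψ - ofFun T' (h i) ψ = 0
          rw [ofFun_congr (hb i), sub_self]
      refine (add2 (by positivity) hρ.le h3 (hφe T' hT'T)).trans (le_of_eq ?_)
      congr 1; ring
    choose u hu hue using step
    have hud : ∀ n, dataNorm (win L k) V (-1) T' k
        (sdat L T' (fun x => u n x 0) (bop L P (u n)) - e) ≤ ENNReal.ofReal 1 := fun n =>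
      (hue n).trans (ENNReal.ofReal_le_ofReal (hn n))
    have cau : ∀ n m : ℕ, ∀ t ∈ Icc 0 T', hNorm (-1) (Ioo 0 L)
        (ofFun L (fun x => u n x t) - ofFun L fun x => u m x t) ≤
        ENNReal.ofReal (C * K * (1 / (n + 1))) + ENNReal.ofReal (C * K * (1 / (m + 1))) := by
      intro n m t ht
      have := stab _ _ (hu n) (hu m) her her (hud n) (hud m) _ (by positivity)
        (add2 (c' := 1 / (m + 1)) (by positivity) (by positivity) (hue n)
          (by rw [wp_dn_comm]; exact hue m))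
      rw [← ENNReal.ofReal_add (by positivity) (by positivity)]
      refine le_trans ?_ (this.trans (le_of_eq (by congr 1; ring)))
      exact le_iSup₂_of_le (f := fun t (_ : t ∈ Icc 0 T') => hNorm (-1) (Ioo 0 L)
        (((fun t => ofFun L fun x => u n x t) - fun t => ofFun L fun x => u m x t) t)) t ht le_rfl
    have lim0 : ∀ c : ℝ, Tendsto (fun n : ℕ => ENNReal.ofReal (c * (1 / (n + 1)))) atTop (𝓝 0) := by
      intro c
      have h1 : Tendsto (fun n : ℕ => c * (1 / ((n : ℝ) + 1))) atTop (𝓝 (c * 0)) :=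
        (tendsto_const_nhds.div_atTop
          (tendsto_atTop_add_const_right _ _ tendsto_natCast_atTop_atTop)).const_mul c
      rw [mul_zero] at h1
      simpa using ENNReal.tendsto_ofReal h1
    have exU : ∀ t, ∃ Ut : SchwartzMap ℝ ℂ → ℂ, t ∈ Icc 0 T' → ∀ n : ℕ, hNorm (-1) (Ioo 0 L)
        (ofFun L (fun x => u n x t) - Ut) ≤ ENNReal.ofReal (C * K * (1 / (n + 1))) := by
      intro t
      by_cases ht : t ∈ Icc 0 T'
      · obtain ⟨Ut, hUt⟩ := exists_limit (σ := -1) (W := Ioo 0 L)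
          (F := fun n => ofFun L fun x => u n x t) (by
            intro ε hε
            obtain ⟨N, hN⟩ := eventually_atTop.1 ((ENNReal.tendsto_nhds_zero.1 (lim0 (C * K)))
              (ε / 2) (ENNReal.half_pos hε.ne'))
            exact ⟨N, fun n hn m hm => (cau n m t ht).trans
              ((add_le_add (hN n hn) (hN m hm)).trans (ENNReal.add_halves ε).le)⟩)
        refine ⟨Ut, fun _ n => ?_⟩
        have h1 := ((tendsto_const_nhds (x := ENNReal.ofReal (C * K * (1 / (n + 1))))).add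
          (lim0 (C * K))).add hUt
        rw [add_zero, add_zero] at h1
        exact ge_of_tendsto' h1 fun m => (hNorm_sub_le _ (ofFun L fun x => u m x t) _).trans
          (add_le_add (cau n m t ht) le_rfl)
      · exact ⟨0, fun h => absurd h ht⟩
    choose U hU' using exU
    refine ⟨U, fun t ht => ⟨?_, ?_⟩, u, fun n => (isSmoothSol_iff hL hT'.1 _).2 (hu n), ?_, ?_⟩
    · have h1 := hNorm_sub_le (σ := -1) (W := Ioo 0 L) (U t) (ofFun L fun x => u 0 x t) 0
      rw [sub_zero, sub_zero, hNorm_sub_comm] at h1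
      exact h1.trans_lt (ENNReal.add_lt_top.2 ⟨(hU' t ht 0).trans_lt ENNReal.ofReal_lt_top,
        hNorm_ofFun_lt_top (by norm_num) _ ((hu 0).1.slice_x ht).cont⟩)
    · rw [ENNReal.tendsto_nhds_zero]
      intro ε hε
      have hε2 := ENNReal.half_pos hε.ne'
      have hε4 := ENNReal.half_pos hε2.ne'
      obtain ⟨n, hn⟩ := ((ENNReal.tendsto_nhds_zero.1 (lim0 (C * K))) (ε / 2 / 2) hε4).exists
      filter_upwards [(ENNReal.tendsto_nhds_zero.1 (curve_continuous (s := -1) (by norm_num) hL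
        (hu n).1.ctOn ht)) (ε / 2) hε2, self_mem_nhdsWithin] with τ h1 hτ
      have h2 := hNorm_sub_le (σ := -1) (W := Ioo 0 L) (U τ) (ofFun L fun x => u n x τ) (U t)
      have h3 := hNorm_sub_le (σ := -1) (W := Ioo 0 L) (ofFun L fun x => u n x τ)
        (ofFun L fun x => u n x t) (U t)
      rw [hNorm_sub_comm (U τ) (ofFun L fun x => u n x τ)] at h2
      calc _ ≤ ε / 2 / 2 + (ε / 2 + ε / 2 / 2) := h2.trans (add_le_add ((hU' τ hτ n).trans hn)
            (h3.trans (add_le_add h1 ((hU' t ht n).trans hn))))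
        _ = ε := by
          rw [add_left_comm, ENNReal.add_halves, ENNReal.add_halves]
    · refine tendsto_of_tendsto_of_tendsto_of_le_of_le tendsto_const_nhds (lim0 1)
        (fun _ => bot_le) fun n => ?_
      simp only [one_mul, bdry_eq_bop]
      exact hue n
    · exact tendsto_of_tendsto_of_tendsto_of_le_of_le tendsto_const_nhds (lim0 (C * K))
        (fun _ => bot_le) fun n => iSup₂_le fun t ht => hU' t ht n
  · rintro e' - her' U U' ⟨_, u, hu, hu1, hu2⟩ ⟨_, u', hu', hu1', hu2'⟩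
    have hfin : dataNorm (win L k) V (-1) T k (e' - e) ≠ ⊤ := by
      refine ne_top_of_le_ne_top ?_ (wp_dn_sub_le _ _ _ _ _ e' 0 e)
      rw [wp_dn_comm _ _ _ _ _ 0 e, sub_zero, sub_zero]
      exact ne_top_of_le_ne_top (ENNReal.add_ne_top.2 ⟨ENNReal.coe_ne_top, ENNReal.coe_ne_top⟩)
        (add_le_add her' her)
    obtain ⟨D, hD, hDe⟩ : ∃ D : ℝ, 0 ≤ D ∧
        dataNorm (win L k) V (-1) T k (e' - e) = ENNReal.ofReal D :=
      ⟨_, ENNReal.toReal_nonneg, (ENNReal.ofReal_toReal hfin).symm⟩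
    have hee' : dataNorm (win L k) V (-1) T' k (e' - e) ≤ ENNReal.ofReal D :=
      (wp_dn_mono _ _ _ hT'T _ _).trans hDe.le
    rw [hDe]
    apply ENNReal.le_of_forall_pos_le_add
    intro ε hε _
    have hε' : (0 : ℝ) < ε := hε
    have hm : 0 < min 1 (ε / (2 * (C * K))) := lt_min one_pos (by positivity)
    have m1 := min_le_left (1 : ℝ) (ε / (2 * (C * K)))
    have m2 := min_le_right (1 : ℝ) (ε / (2 * (C * K)))
    generalize min (1 : ℝ) (ε / (2 * (C * K))) = ρ at hm m1 m2
    have h1 := (hu2'.add (tendsto_const_nhds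
      (x := ENNReal.ofReal (C * (K * (ρ + D + ρ)))))).add hu2
    rw [zero_add, add_zero] at h1
    refine le_trans (ge_of_tendsto h1 ?_) ?_
    · filter_upwards [(ENNReal.tendsto_nhds_zero.1 hu1) _ (ENNReal.ofReal_pos.2 hm),
        (ENNReal.tendsto_nhds_zero.1 hu1') _ (ENNReal.ofReal_pos.2 hm)] with n g1 g2
      simp only [bdry_eq_bop] at g1 g2
      have := stab _ _ ((isSmoothSol_iff hL hT'.1 _).1 (hu' n))
        ((isSmoothSol_iff hL hT'.1 _).1 (hu n)) her' her
        (g2.trans (ENNReal.ofReal_le_ofReal m1)) (g1.trans (ENNReal.ofReal_le_ofReal m1)) _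
        (by positivity)
        (add2 (by positivity) hm.le (add2 hm.le hD g2 hee') (by rw [wp_dn_comm]; exact g1))
      refine (wp_sn_sub_le _ _ _ U' (fun t => ofFun L fun x => u n x t) U).trans
        (add_le_add ?_ le_rfl)
      refine (wp_sn_sub_le _ _ _ U' (fun t => ofFun L fun x => u' n x t) _).trans
        (add_le_add ?_ this)
      rw [wp_sn_comm]
    · have hCK : 0 ≤ C * K := by positivity
      rw [← ENNReal.ofReal_coe_nnreal, ← ENNReal.ofReal_coe_nnreal (p := ε)]
      change _ ≤ ENNReal.ofReal (C * K) * ENNReal.ofReal D + ENNReal.ofReal ε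
      rw [← ENNReal.ofReal_mul hCK, ← ENNReal.ofReal_add (by positivity) hε'.le]
      refine ENNReal.ofReal_le_ofReal ?_
      rw [le_div_iff₀ (by positivity)] at m2
      linarith

theorem classification_uniform (L T s : ℝ) (hL : 0 < L) (hT : 0 < T) (hs : s ≤ -1) (k : Fin 4)
    (a b : ℕ → ℕ → ℝ) :
    List.TFAE [UniformlyWellPosed (Ioo 0 L) (Ioi 0) s L T a b k,
      WellPosed (Ioo 0 L) (Ioi 0) s L T a b k, StableAtZero (Ioo 0 L) s L T a b k,
      s = -1 ∧ k = 0] ∧
    List.TFAE [UniformlyWellPosed (win L k) univ s L T a b k,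
      WellPosed (win L k) univ s L T a b k, StableAtZero (win L k) s L T a b k, s = -1] := by
  constructor
  · tfae_have 1 → 2 := wellPosed_of_uniformly
    tfae_have 2 → 3 := fun h => stableAtZero_of_stable (by linarith) hL (stable_of_wellPosed h)
    tfae_have 3 → 4 := zero_Ioo hL hs
    tfae_have 4 → 1 := by
      rintro ⟨rfl, rfl⟩
      exact uniformly_neg_one hL hT a b 0 (Or.inr ⟨rfl, rfl⟩)
    tfae_finish
  · tfae_have 1 → 2 := wellPosed_of_uniformly
    tfae_have 2 → 3 := fun h => stableAtZero_of_stable (by linarith) hL (stable_of_wellPosed h)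
    tfae_have 3 → 4 := zero_win hL hs
    tfae_have 4 → 1 := by
      rintro rfl
      exact uniformly_neg_one hL hT a b k (Or.inl rfl)
    tfae_finish

end Pool.Agent.Lib.MP_14aec4_an.W
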