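import Pool.Agent.Lib.MP_14aec4_an.KE

/-!
The weak formulation against a quadratic polynomial.
-/

noncomputable section

open MeasureTheory Set Filter Topology FourierTransform
open scoped ENNReal ComplexConjugate

namespace Pool.Agent.Lib.MP_14aec4_an.W

/-- The boundary terms are a combination of the values at the ends. -/
lemma weak_bdry {L : ℝ} {P : BC} (hP : P.Valid) {c₀ c₁ c₂ : ℝ}
    (h₀ : P.d0 = false → c₀ = 0) (h₁ : P.dL = false → c₀ + c₁ * L + c₂ * L ^ 2 = 0)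
    (h₂ : c₁ = (c₀ + c₁ * L + c₂ * L ^ 2) * P.ζ 2 - c₀ * P.ζ 0) :
    ∃ A₁ A₂ : ℝ, ∀ (u : ℝ → ℝ → ℝ) (t : ℝ), (∀ i, bop L P u i t = 0) →
      -(c₀ + c₁ * L + c₂ * L ^ 2) * px L (px L u) L t + (c₁ + 2 * c₂ * L) * px L u L t
        + c₀ * px L (px L u) 0 t - c₁ * px L u 0 t = A₁ * u 0 t + A₂ * u L t := by
  set pL := c₀ + c₁ * L + c₂ * L ^ 2 with hpL
  have k0 : ∀ (u : ℝ → ℝ → ℝ) (t : ℝ), bop L P u 0 t = 0 → c₀ * px L (px L u) 0 t =
      -c₀ * (P.α 0 * u 0 t + P.β 0 * u L t + P.ζ 0 * px L u 0 t) := by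
    intro u t h
    cases hd : P.d0
    · rw [h₀ hd]; ring
    · have hj : P.j 0 = 2 := by simp [BC.j, hd]
      have he : ept L 0 = 0 := rfl
      rw [bop, hj, he] at h
      change px L (px L u) 0 t + _ + _ + _ = 0 at h
      linear_combination c₀ * h
  have k2 : ∀ (u : ℝ → ℝ → ℝ) (t : ℝ), bop L P u 2 t = 0 → pL * px L (px L u) L t =
      -pL * (P.α 2 * u 0 t + P.β 2 * u L t + P.ζ 2 * px L u 0 t) := by
    intro u t h
    cases hd : P.dL
    · rw [h₁ hd]; ring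
    · have hj : P.j 2 = 2 := by simp [BC.j, hd]
      have he : ept L 2 = L := rfl
      rw [bop, hj, he] at h
      change px L (px L u) L t + _ + _ + _ = 0 at h
      linear_combination pL * h
  have k1 : ∃ i : Fin 3, P.j i = 1 ∧ ept L i = L := by
    cases hd : P.dL
    · exact ⟨2, by simp [BC.j, hd], rfl⟩
    · exact ⟨1, by simp [BC.j, hd], rfl⟩
  obtain ⟨i, hj, he⟩ := k1
  have hζ : P.ζ i = 0 := (hP i).2 (by rw [hj]; norm_num)
  refine ⟨pL * P.α 2 - (c₁ + 2 * c₂ * L) * P.α i - c₀ * P.α 0,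
    pL * P.β 2 - (c₁ + 2 * c₂ * L) * P.β i - c₀ * P.β 0, fun u t h => ?_⟩
  have e0 := k0 u t (h 0)
  have e2 := k2 u t (h 2)
  have e1 := h i
  rw [bop, hj, he, hζ] at e1
  change px L u L t + _ + _ + _ = 0 at e1
  linear_combination e0 - e2 + (c₁ + 2 * c₂ * L) * e1 - px L u 0 t * h₂

/-- Integration by parts at an interior time. -/
lemma weak_ibp {L T : ℝ} (hL : 0 < L) (hT : 0 < T) (c₀ c₁ c₂ : ℝ) {u : ℝ → ℝ → ℝ}
    (hu : KSol L 0 T u) {t : ℝ} (ht : t ∈ Ioo 0 T) :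
    ∫ x in (0 : ℝ)..L, (c₀ + c₁ * x + c₂ * x ^ 2) * ptw (Icc 0 T) u x t =
      (-(c₀ + c₁ * L + c₂ * L ^ 2) * (u L t + u L t ^ 2 / 2 + px L (px L u) L t)
        + (c₁ + 2 * c₂ * L) * px L u L t - 2 * c₂ * u L t)
      - (-c₀ * (u 0 t + u 0 t ^ 2 / 2 + px L (px L u) 0 t) + c₁ * px L u 0 t - 2 * c₂ * u 0 t)
      + ∫ x in (0 : ℝ)..L, (c₁ + 2 * c₂ * x) * (u x t + u x t ^ 2 / 2) := by
  have hI : UniqueDiffOn ℝ (Icc (0 : ℝ) T) := uniqueDiffOn_Icc hT
  have htI : t ∈ Icc (0 : ℝ) T := Ioo_subset_Icc_self ht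
  have hn : Icc (0 : ℝ) T ∈ 𝓝 t := Icc_mem_nhds ht.1 ht.2
  have s0 := hu.1
  have s1 := s0.px hL hI
  have s2 := s1.px hL hI
  have st := s0.ptw hL hI
  have c0 := s0.ctOn.slice_x htI
  have c1 := s1.ctOn.slice_x htI
  have c2 := s2.ctOn.slice_x htI
  have ct := st.ctOn.slice_x htI
  have i1 : IntervalIntegrable
      (fun x => (c₀ + c₁ * x + c₂ * x ^ 2) * ptw (Icc 0 T) u x t) volume 0 L :=
    (ContinuousOn.mul (by fun_prop) ct).intervalIntegrable_of_Icc hL.le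
  have i2 : IntervalIntegrable
      (fun x => (c₁ + 2 * c₂ * x) * (u x t + u x t ^ 2 / 2)) volume 0 L :=
    (ContinuousOn.mul (by fun_prop) (c0.add ((c0.pow 2).div_const 2))).intervalIntegrable_of_Icc
      hL.le
  have key := intervalIntegral.integral_eq_sub_of_hasDerivAt_of_le hL.le
    (f := fun x => -(c₀ + c₁ * x + c₂ * x ^ 2) * (u x t + u x t ^ 2 / 2 + px L (px L u) x t)
        + (c₁ + 2 * c₂ * x) * px L u x t - 2 * c₂ * u x t)
    (f' := fun x => (c₀ + c₁ * x + c₂ * x ^ 2) * ptw (Icc 0 T) u x t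
        - (c₁ + 2 * c₂ * x) * (u x t + u x t ^ 2 / 2))
    (((ContinuousOn.mul (by fun_prop) ((c0.add ((c0.pow 2).div_const 2)).add c2)).add
      (ContinuousOn.mul (by fun_prop) c1)).sub (continuousOn_const.mul c0))
    (fun x hx => by
      have d0 := s0.hasDerivAt_x hx htI
      have d1 := s1.hasDerivAt_x hx htI
      have d2 := s2.hasDerivAt_x hx htI
      have dp : HasDerivAt (fun x : ℝ => -(c₀ + c₁ * x + c₂ * x ^ 2)) (-(c₁ + 2 * c₂ * x)) x := by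
        refine (((((hasDerivAt_id' x).const_mul c₁).const_add c₀).fun_add
          ((hasDerivAt_pow 2 x).const_mul c₂)).fun_neg).congr_deriv ?_
        norm_num; ring
      have dq : HasDerivAt (fun x : ℝ => c₁ + 2 * c₂ * x) (2 * c₂) x := by
        refine (((hasDerivAt_id' x).const_mul (2 * c₂)).const_add c₁).congr_deriv ?_
        ring
      have he := hu.2 x hx t ht
      rw [pt_eq_ptw u x hn] at he
      refine (((dp.fun_mul ((d0.fun_add ((d0.fun_pow 2).div_const 2)).fun_add d2)).fun_add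
        (dq.fun_mul d1)).fun_sub (d0.const_mul (2 * c₂))).congr_deriv ?_
      norm_num
      linear_combination (-(c₀ + c₁ * x + c₂ * x ^ 2)) * he)
    (i1.sub i2)
  rw [intervalIntegral.integral_sub i1 i2] at key
  linear_combination key

lemma weak_abs_mul_le {k K y g : ℝ} (hk : |k| ≤ K) (hy : |y| ≤ g) : |k * y| ≤ K * g := by
  rw [abs_mul]
  exact mul_le_mul hk hy (abs_nonneg _) ((abs_nonneg _).trans hk)

/-- The weak formulation against a quadratic `p` adapted to the boundary conditions: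
`d/dt ∫ p u = -[p (u + u²/2 + u_xx)] + [p' u_x] - [p'' u] + ∫ p' (u + u²/2)`; the terms with
`u_x(0)` cancel, and `u_x(L)`, `p u_xx` are combinations of `u(0)`, `u(L)`. -/
theorem weak_form {L : ℝ} (hL : 0 < L) {P : BC} (hP : P.Valid) {c₀ c₁ c₂ : ℝ}
    (h₀ : P.d0 = false → c₀ = 0) (h₁ : P.dL = false → c₀ + c₁ * L + c₂ * L ^ 2 = 0)
    (h₂ : c₁ = (c₀ + c₁ * L + c₂ * L ^ 2) * P.ζ 2 - c₀ * P.ζ 0) :
    ∃ C, 0 < C ∧ ∀ (T ρ : ℝ) (u : ℝ → ℝ → ℝ), 0 < T → T ≤ 1 → 0 ≤ ρ → KSol L 0 T u →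
      (∀ i, ∀ t ∈ Ioo 0 T, bop L P u i t = 0) →
      (∀ x ∈ Icc 0 L, ∫ t in (0 : ℝ)..T, u x t ^ 2 ≤ ρ ^ 2) →
      ∀ t ∈ Icc 0 T, |(∫ x in (0 : ℝ)..L, (c₀ + c₁ * x + c₂ * x ^ 2) * u x t) -
        ∫ x in (0 : ℝ)..L, (c₀ + c₁ * x + c₂ * x ^ 2) * u x 0| ≤ C * (ρ + ρ ^ 2) := by
  obtain ⟨A₁, A₂, hA⟩ := weak_bdry hP h₀ h₁ h₂
  set pL := c₀ + c₁ * L + c₂ * L ^ 2 with hpL
  set B₁ := A₁ + c₀ + 2 * c₂ with hB₁
  set B₂ := A₂ - pL - 2 * c₂ with hB₂
  set K := |B₁| + |B₂| + |c₀| + |pL| + (|c₁| + 2 * |c₂| * L) with hK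
  have hq : 0 ≤ |c₁| + 2 * |c₂| * L := by positivity
  have hK1 : |B₁| ≤ K := by
    have := abs_nonneg B₂; have := abs_nonneg c₀; have := abs_nonneg pL; linarith
  have hK2 : |B₂| ≤ K := by
    have := abs_nonneg B₁; have := abs_nonneg c₀; have := abs_nonneg pL; linarith
  have hK3 : |c₀| ≤ K := by
    have := abs_nonneg B₂; have := abs_nonneg B₁; have := abs_nonneg pL; linarith
  have hK4 : |pL| ≤ K := by
    have := abs_nonneg B₂; have := abs_nonneg c₀; have := abs_nonneg B₁; linarith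
  have hK5 : ∀ x ∈ Icc (0 : ℝ) L, |c₁ + 2 * c₂ * x| ≤ K := by
    intro x hx
    have e1 : |2 * c₂ * x| ≤ 2 * |c₂| * L := by
      rw [abs_mul, abs_mul, abs_two, abs_of_nonneg hx.1]
      exact mul_le_mul_of_nonneg_left hx.2 (by positivity)
    have e2 := abs_add_le c₁ (2 * c₂ * x)
    have := abs_nonneg B₂; have := abs_nonneg c₀; have := abs_nonneg B₁; have := abs_nonneg pL
    linarith
  have hK0 : 0 ≤ K := (abs_nonneg _).trans hK1
  clear_value K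
  refine ⟨K * (2 + L) + 1, by positivity, fun T ρ u hT hT1 hρ hu hb hρu t ht => ?_⟩
  have hI : UniqueDiffOn ℝ (Icc (0 : ℝ) T) := uniqueDiffOn_Icc hT
  have h0L : (0 : ℝ) ∈ Icc (0 : ℝ) L := ⟨le_rfl, hL.le⟩
  have hLL : L ∈ Icc (0 : ℝ) L := ⟨hL.le, le_rfl⟩
  have cu : CtOn L (Icc 0 T) u := hu.1.ctOn
  have cut' : CtOn L (Icc 0 T) (ptw (Icc 0 T) u) := (hu.1.ptw hL hI).ctOn
  have cE : CtOn L (Icc 0 T) fun x t => (c₀ + c₁ * x + c₂ * x ^ 2) * u x t :=
    ContinuousOn.mul (by fun_prop) cu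
  have cF : CtOn L (Icc 0 T) fun x t => (c₀ + c₁ * x + c₂ * x ^ 2) * ptw (Icc 0 T) u x t :=
    ContinuousOn.mul (by fun_prop) cut'
  have cg : CtOn L (Icc 0 T) fun x t => |u x t| + u x t ^ 2 :=
    ContinuousOn.add (ContinuousOn.abs cu) (ContinuousOn.pow cu 2)
  have hsub : Icc (0 : ℝ) t ⊆ Icc 0 T := Icc_subset_Icc_right ht.2
  -- the fundamental theorem of calculus in time
  have ftc := intervalIntegral.integral_eq_sub_of_hasDerivAt_of_le ht.1
    (f := fun τ => ∫ x in (0 : ℝ)..L, (c₀ + c₁ * x + c₂ * x ^ 2) * u x τ)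
    (f' := fun τ => ∫ x in (0 : ℝ)..L, (c₀ + c₁ * x + c₂ * x ^ 2) * ptw (Icc 0 T) u x τ)
    ((cE.continuousOn_integral hL.le).mono hsub)
    (fun τ hτ => hasDerivAt_integral_x hL.le cE cF
      (fun x hx s hs => by
        have hn : Icc (0 : ℝ) T ∈ 𝓝 s := Icc_mem_nhds hs.1 hs.2
        have := hu.1.hasDerivAt_t (Ioo_subset_Icc_self hx) hn
        rw [pt_eq_ptw u x hn] at this
        exact this.const_mul _) ⟨hτ.1, hτ.2.trans_le ht.2⟩)
    (((cF.continuousOn_integral hL.le).mono hsub).intervalIntegrable_of_Icc ht.1)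
  -- the pointwise bound on the derivative
  have bd : ∀ τ ∈ Ioo (0 : ℝ) T,
      |∫ x in (0 : ℝ)..L, (c₀ + c₁ * x + c₂ * x ^ 2) * ptw (Icc 0 T) u x τ| ≤
        K * ((|u 0 τ| + u 0 τ ^ 2) + (|u L τ| + u L τ ^ 2) +
          ∫ x in (0 : ℝ)..L, (|u x τ| + u x τ ^ 2)) := by
    intro τ hτ
    have hτI : τ ∈ Icc (0 : ℝ) T := Ioo_subset_Icc_self hτ
    have e := hA u τ fun i => hb i τ hτ
    have e' : ∫ x in (0 : ℝ)..L, (c₀ + c₁ * x + c₂ * x ^ 2) * ptw (Icc 0 T) u x τ =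
        B₁ * u 0 τ + c₀ * (u 0 τ ^ 2 / 2) + B₂ * u L τ + pL * (-(u L τ ^ 2 / 2))
          + ∫ x in (0 : ℝ)..L, (c₁ + 2 * c₂ * x) * (u x τ + u x τ ^ 2 / 2) := by
      rw [weak_ibp hL hT c₀ c₁ c₂ hu hτ, hB₁, hB₂]
      linear_combination e
    have c0 := cu.slice_x hτI
    have b1 : |B₁ * u 0 τ| ≤ K * |u 0 τ| := weak_abs_mul_le hK1 le_rfl
    have b2 : |c₀ * (u 0 τ ^ 2 / 2)| ≤ K * u 0 τ ^ 2 := weak_abs_mul_le hK3 (by
      rw [abs_of_nonneg (by positivity)]; nlinarith [sq_nonneg (u 0 τ)])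
    have b3 : |B₂ * u L τ| ≤ K * |u L τ| := weak_abs_mul_le hK2 le_rfl
    have b4 : |pL * (-(u L τ ^ 2 / 2))| ≤ K * u L τ ^ 2 := weak_abs_mul_le hK4 (by
      rw [abs_neg, abs_of_nonneg (by positivity)]; nlinarith [sq_nonneg (u L τ)])
    have b5 : |∫ x in (0 : ℝ)..L, (c₁ + 2 * c₂ * x) * (u x τ + u x τ ^ 2 / 2)| ≤
        K * ∫ x in (0 : ℝ)..L, (|u x τ| + u x τ ^ 2) := by
      rw [← intervalIntegral.integral_const_mul, ← Real.norm_eq_abs]
      refine intervalIntegral.norm_integral_le_of_norm_le hL.le (Eventually.of_forall ?_)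
        ((continuousOn_const.mul (cg.slice_x hτI)).intervalIntegrable_of_Icc hL.le)
      intro x hx
      rw [Real.norm_eq_abs]
      refine weak_abs_mul_le (hK5 x (Ioc_subset_Icc_self hx)) ?_
      refine (abs_add_le _ _).trans ?_
      rw [abs_of_nonneg (a := u x τ ^ 2 / 2) (by positivity)]
      nlinarith [sq_nonneg (u x τ)]
    rw [e', abs_le]
    rw [abs_le] at b1 b2 b3 b4 b5
    constructor <;> linarith [b1.1, b1.2, b2.1, b2.2, b3.1, b3.2, b4.1, b4.2, b5.1, b5.2]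
  -- the bound in time at each point
  have bt : ∀ x ∈ Icc (0 : ℝ) L, ∫ τ in (0 : ℝ)..T, (|u x τ| + u x τ ^ 2) ≤ ρ + ρ ^ 2 := by
    intro x hx
    have cx := cu.slice_t hx
    have j1 : IntervalIntegrable (fun τ => |u x τ|) volume 0 T :=
      cx.abs.intervalIntegrable_of_Icc hT.le
    have j2 : IntervalIntegrable (fun τ => u x τ ^ 2) volume 0 T :=
      (cx.pow 2).intervalIntegrable_of_Icc hT.le
    rw [intervalIntegral.integral_add j1 j2]
    have e1 := integral_abs_le hT.le cx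
    have e2 : nL T (fun t => u x t) ≤ ρ := by
      rw [nL]
      exact Real.sqrt_le_iff.2 ⟨hρ, hρu x hx⟩
    have e3 : Real.sqrt T ≤ 1 := Real.sqrt_le_one.2 hT1
    have e4 : Real.sqrt T * nL T (fun t => u x t) ≤ 1 * ρ :=
      mul_le_mul e3 e2 (nL_nonneg _ _) zero_le_one
    have := hρu x hx
    linarith
  have cG : ContinuousOn (fun τ => K * ((|u 0 τ| + u 0 τ ^ 2) + (|u L τ| + u L τ ^ 2) +
      ∫ x in (0 : ℝ)..L, (|u x τ| + u x τ ^ 2))) (Icc 0 T) :=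
    continuousOn_const.mul (((cg.slice_t h0L).add (cg.slice_t hLL)).add
      (cg.continuousOn_integral hL.le))
  have hG0 : ∀ τ, 0 ≤ K * ((|u 0 τ| + u 0 τ ^ 2) + (|u L τ| + u L τ ^ 2) +
      ∫ x in (0 : ℝ)..L, (|u x τ| + u x τ ^ 2)) := by
    intro τ
    have : 0 ≤ ∫ x in (0 : ℝ)..L, (|u x τ| + u x τ ^ 2) :=
      intervalIntegral.integral_nonneg hL.le fun x _ => by positivity
    positivity
  have hρ2 : 0 ≤ ρ + ρ ^ 2 := by positivity
  have bx : ∫ τ in (0 : ℝ)..T, ∫ x in (0 : ℝ)..L, (|u x τ| + u x τ ^ 2) ≤ L * (ρ + ρ ^ 2) := by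
    rw [cg.integral_swap hL.le hT.le]
    have := intervalIntegral.norm_integral_le_of_norm_le_const (a := 0) (b := L) (C := ρ + ρ ^ 2)
      (f := fun x => ∫ τ in (0 : ℝ)..T, (|u x τ| + u x τ ^ 2)) (fun x hx => by
        rw [uIoc_of_le hL.le] at hx
        rw [Real.norm_eq_abs, abs_of_nonneg
          (intervalIntegral.integral_nonneg hT.le fun τ _ => by positivity)]
        exact bt x (Ioc_subset_Icc_self hx))
    rw [sub_zero, abs_of_pos hL, Real.norm_eq_abs, mul_comm] at this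
    exact (le_abs_self _).trans this
  rw [← ftc, ← Real.norm_eq_abs]
  calc _ ≤ ∫ τ in (0 : ℝ)..t, K * ((|u 0 τ| + u 0 τ ^ 2) + (|u L τ| + u L τ ^ 2) +
        ∫ x in (0 : ℝ)..L, (|u x τ| + u x τ ^ 2)) := by
        refine intervalIntegral.norm_integral_le_of_norm_le ht.1 ?_
          ((cG.mono hsub).intervalIntegrable_of_Icc ht.1)
        filter_upwards [Measure.ae_ne volume T] with τ hτ hτ'
        rw [Real.norm_eq_abs]
        exact bd τ ⟨hτ'.1, lt_of_le_of_ne (hτ'.2.trans ht.2) hτ⟩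
    _ ≤ ∫ τ in (0 : ℝ)..T, K * ((|u 0 τ| + u 0 τ ^ 2) + (|u L τ| + u L τ ^ 2) +
        ∫ x in (0 : ℝ)..L, (|u x τ| + u x τ ^ 2)) :=
        intervalIntegral.integral_mono_interval le_rfl ht.1 ht.2 (Eventually.of_forall hG0)
          (cG.intervalIntegrable_of_Icc hT.le)
    _ ≤ K * ((ρ + ρ ^ 2) + (ρ + ρ ^ 2) + L * (ρ + ρ ^ 2)) := by
        have i0 := (cg.slice_t h0L).intervalIntegrable_of_Icc (μ := volume) hT.le
        have iL := (cg.slice_t hLL).intervalIntegrable_of_Icc (μ := volume) hT.le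
        have iI := (cg.continuousOn_integral hL.le).intervalIntegrable_of_Icc (μ := volume) hT.le
        rw [intervalIntegral.integral_const_mul, intervalIntegral.integral_add (i0.add iL) iI,
          intervalIntegral.integral_add i0 iL]
        exact mul_le_mul_of_nonneg_left (add_le_add (add_le_add (bt 0 h0L) (bt L hLL)) bx) hK0
    _ ≤ (K * (2 + L) + 1) * (ρ + ρ ^ 2) := by nlinarith

end Pool.Agent.Lib.MP_14aec4_an.W
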