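import Pool.Agent.Lib.MP_14aec4_an.MSEX
import Pool.Agent.Lib.MP_14aec4_an.Lin

/-!
Small solutions with zero boundary data, together with their Miura variable.
-/

noncomputable section

open MeasureTheory Set Filter Topology FourierTransform
open scoped ENNReal ComplexConjugate

namespace Pool.Agent.Lib.MP_14aec4_an.W

/-- A solution of the modified equation of size `a`, with local smoothing bounds. -/
structure HB (L κ T a : ℝ) (Z : ℝ → ℝ → ℝ) : Prop where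
  sm : SmOn L (Icc 0 T) Z
  eq : MEq L κ 0 T (fun _ _ => 0) Z
  k1 : ∀ x ∈ Icc 0 L, ∫ t in (0 : ℝ)..T, px L Z x t ^ 2 ≤ a ^ 2
  k2 : ∀ x ∈ Icc 0 L, ∫ t in (0 : ℝ)..T, Z x t ^ 4 ≤ a ^ 4
  k3 : ∀ t ∈ Icc 0 T, nL L (fun x => Z x t) ≤ a

lemma hom_int {γ T : ℝ} (hγ : 0 < γ) (hT : 0 < T) {f g : ℝ → ℝ} (hg : Continuous g) (n : ℕ)
    (hn : Even n) (h : ∀ t, f t = Real.exp (γ * t) * g t) :
    ∫ t in (0 : ℝ)..T, f t ^ n ≤ Real.exp (γ * T) ^ n * ∫ t in (0 : ℝ)..T, g t ^ n := by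
  rw [← intervalIntegral.integral_const_mul]
  have e : f = fun t => Real.exp (γ * t) * g t := funext h
  rw [e]
  refine intervalIntegral.integral_mono_on hT.le (Continuous.intervalIntegrable (by fun_prop) _ _)
    (Continuous.intervalIntegrable (by fun_prop) _ _) fun t ht => ?_
  rw [mul_pow]
  refine mul_le_mul_of_nonneg_right ?_ (hn.pow_nonneg _)
  exact pow_le_pow_left₀ (Real.exp_pos _).le
    (Real.exp_le_exp.2 (mul_le_mul_of_nonneg_left ht.2 hγ.le)) n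

theorem hom_mid {L κ γ η T' : ℝ} (hL : 0 < L) {P : BC} (hP : P.Valid) (hγ : Big L γ) (hT : 0 < T')
    {m : ℝ → ℝ} (hm : SC m) (hm1 : ∀ t ∈ Icc (-1 / γ) T', m t = 1) {A : Fin 3 → ℝ}
    (hA : ∀ n, mulC γ w1 (mm γ m n) ≤ A n) (hs : Smal L κ P γ A η) {w q : ℝ → ℝ} (hw : SmI L w)
    (hq : Ric L κ w q) {ℓb : Fin 3 → ℝ → ℝ} (hℓ : ∀ i, ContDiff ℝ (⊤ : ℕ∞) (ℓb i))
    (h : ∃ τ₀ > 0, ∀ τ ∈ Ioc 0 τ₀, ∃ H : Fin 3 → ℝ → ℝ, (∀ i, SC (H i)) ∧
      (∀ i, ∀ t ≤ T', H i t = rp (-τ) τ t * ℓb i t) ∧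
      SBd L γ w1 (linS L P γ (fun x t => deriv (rp (-τ) τ) t * q x)
        fun i t => H i t - P.dyn i * deriv (rp (-τ) τ) t * q (ept L i)) η)
    {a : ℝ} (ha : Real.exp (γ * T') * (2 * η * (1 + aa γ) + 6 * nL L q + 80 * (1 + L) * η) ≤ a)
    {ε : ℝ} (hε : 0 < ε) :
    ∃ Z, HB L κ T' a Z ∧ KSol L 0 T' (miura L κ Z) ∧
      (∀ i, ∀ t ∈ Ioo 0 T', bop L P (miura L κ Z) i t = -6 * ℓb i t + 6 * κ ^ 2 * P.c i) ∧
      nL L (fun x => Z x 0 - q x) ≤ ε ∧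
      ∃ w', SmI L w' ∧ (∀ x ∈ Icc 0 L, dI L w' x = -miura L κ Z x 0 / 6) ∧
        wn L P (fun x => w' x - w x) ≤ ε := by
  obtain ⟨ε', hε', hinit⟩ := exmid_init hL P hw hq hε
  obtain ⟨τ₀, hτ₀, h⟩ := h
  obtain ⟨τ₁, hτ₁, hmis⟩ := mismatch hL κ hP hq.sm hℓ (lt_min hε hε')
  have hγ0 : 0 < γ := zero_lt_one.trans_le hγ.1
  have hη : 0 < η := hs.2.1
  obtain ⟨τ, hτ, h0, h1, h2⟩ : ∃ τ, 0 < τ ∧ τ ≤ τ₀ ∧ τ ≤ τ₁ ∧ τ ≤ 1 / γ :=
    ⟨min τ₀ (min τ₁ (1 / γ)), lt_min hτ₀ (lt_min hτ₁ (by positivity)), min_le_left _ _,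
      (min_le_right _ _).trans (min_le_left _ _), (min_le_right _ _).trans (min_le_right _ _)⟩
  obtain ⟨H, hH, hHe, bl⟩ := h τ ⟨hτ, h0⟩
  have hX := sc_deriv_rp hτ (-τ)
  have hX' := integral_deriv_rp_le hγ0 hτ (t₀ := -τ) (by rw [neg_div]; linarith)
  have hX0 : ∀ t ≤ -τ, deriv (rp (-τ) τ) t = 0 := fun t ht =>
    deriv_rp_zero hτ fun h => absurd h.1 (not_lt.2 ht)
  have hX1 : ∀ t, 0 ≤ t → deriv (rp (-τ) τ) t = 0 := fun t ht =>
    deriv_rp_zero hτ fun h => absurd h.2 (not_lt.2 (by linarith))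
  obtain ⟨V, hV, bV, hV0⟩ := fp_exists hL hP hγ hm (SC2.prod hX hq.sm)
    (fun i => (hH i).sub ((SC.mul_left contDiff_const hX).mul_right contDiff_const)) hA hs bl
    (t₀ := -τ) (fun x _ t ht => by simp only [hX0 t ht, zero_mul])
    (fun i t ht => by
      simp only [hHe i t (by linarith), hX0 t ht, rp_zero hτ ht, zero_mul, mul_zero, sub_zero])
  have hZ := hV.fsol hL hγ (t₀ := -τ) (t₁ := T') fun t ht =>
    hm1 t ⟨by rw [neg_div]; linarith [ht.1], ht.2.le⟩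
  have hZ0 := hZ.mono (s₀ := 0) (by linarith) le_rfl
  obtain ⟨hk, hb⟩ := hZ0.ksol hL hT fun x _ t ht => by simp only [hX1 t ht.1.le, zero_mul]
  have hd := hmis τ ⟨hτ, h1⟩ (zOf γ V)
    ((hZ.mono le_rfl hT.le).congr (fun _ _ _ _ => rfl) fun i t ht => by
      rw [hHe i t (by linarith [ht.2])])
    fun x hx => by rw [zOf, hV0 0 x hx _ le_rfl, mul_zero]
  obtain ⟨w', h3, h4, h5⟩ := hinit (fun x => zOf γ V x 0)
    (hZ.sm.slice_x ⟨by linarith, hT.le⟩) (hd.trans (min_le_right _ _))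
  have hE := Real.exp_pos (γ * T')
  have haa := aa_nonneg γ
  have hnq := nL_nonneg L q
  have hb1 : Real.exp (γ * T') * (2 * η * (1 + aa γ)) ≤ a :=
    le_trans (mul_le_mul_of_nonneg_left (by
      have : 0 ≤ 80 * (1 + L) * η := by positivity
      linarith) hE.le) ha
  refine ⟨zOf γ V, ⟨hZ0.sm, fun x hx t ht => ?_, fun x hx => ?_, fun x hx => ?_, fun t ht => ?_⟩,
    hk, fun i t ht => ?_, ((nL_le_wn L P _).trans hd).trans (min_le_left _ _), w', h3,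
    fun x hx => ?_, h5⟩
  · have := hZ0.eq x hx t ht
    simpa only [hX1 t ht.1.le, zero_mul] using this
  · have b1 : Bd γ w1 0 (V 1 x) (2 * η) := by simpa using bV x hx 1
    have p1 := planch_tl ((hV.rd 1).at x) (by positivity) b1 hT.le
    refine (hom_int hγ0 hT (tl_continuous ((hV.rd 1).at x) 0) 2 even_two
      ((hV.time hL hγ).2.1 x hx)).trans ((mul_le_mul_of_nonneg_left p1 (by positivity)).trans ?_)
    rw [← mul_pow]
    refine pow_le_pow_left₀ (by positivity) (le_trans ?_ hb1) 2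
    refine mul_le_mul_of_nonneg_left ?_ hE.le
    nlinarith [mul_nonneg hη.le haa]
  · have b0 : Bd γ w1 (1 / 3) (V 0 x) (2 * η) := by simpa using bV x hx 0
    have p0 := planch_tl4 hγ0 ((hV.rd 0).at x) (by positivity) b0 hT.le
    refine (hom_int hγ0 hT (tl_continuous ((hV.rd 0).at x) 0) 4 (by decide)
      (f := fun t => zOf γ V x t) fun t => rfl).trans
      ((mul_le_mul_of_nonneg_left p0 (by positivity)).trans ?_)
    refine le_trans ?_ (pow_le_pow_left₀ (by positivity) hb1 4)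
    have e1 : aa γ ^ 2 ≤ (1 + aa γ) ^ 4 := by
      nlinarith [pow_nonneg haa 3, pow_nonneg haa 4, pow_nonneg haa 2]
    calc Real.exp (γ * T') ^ 4 * (aa γ ^ 2 * (2 * η) ^ 4)
        ≤ Real.exp (γ * T') ^ 4 * ((1 + aa γ) ^ 4 * (2 * η) ^ 4) := by gcongr
      _ = _ := by ring
  · have hz : SBd L γ w1 (fun _ _ _ => 0) (2 * η) := fun x _ j => Bd.zero _ _ _ _
    have := fp_energy hL hP hγ hA hs hV (fp_zero L κ P γ hm) bV hz (δ := 2 * η) (t₀ := -τ)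
      (by positivity) (by simpa using bV) (fun x hx => by rw [hV0 0 x hx _ le_rfl, tl_zero_fun])
      hX hX' hq.sm (SC2.zero L) le_rfl
      (fun x _ => by rw [spec_zero]; exact Bd.zero _ _ _ _) (fun x _ t => by simp)
      (t := t) (by linarith [ht.1])
    simp only [tl_zero_fun, sub_zero] at this
    unfold zOf
    rw [nL_const_mul, abs_of_pos (Real.exp_pos _)]
    refine le_trans ?_ ha
    refine mul_le_mul (Real.exp_le_exp.2 (mul_le_mul_of_nonneg_left ht.2 hγ0.le)) ?_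
      (nL_nonneg _ _) hE.le
    have : 0 ≤ 2 * η * (1 + aa γ) := by positivity
    linarith
  · rw [hb i t ht, hHe i t ht.2.le, hX1 t ht.1.le, rp_one hτ (by linarith [ht.1])]
    ring
  · rw [h4 x hx, miura, px_eq_dI]
    ring

theorem hom_ex {L : ℝ} (hL : 0 < L) {P : BC} (hP : P.Valid) {T : ℝ} (hT : 0 < T) :
    ∃ η₀ ∈ Ioc (0 : ℝ) (1 / 5), ∃ K, 1 ≤ K ∧ ∀ η ∈ Ioc 0 η₀, ∀ w : ℝ → ℝ, SmI L w →
      wn L P w ≤ η → ∀ ε > 0, ∃ Z, HB L (5 * η ^ 2) T (K * η) Z ∧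
        KSol L 0 T (miura L (5 * η ^ 2) Z) ∧
        (∀ i, ∀ t ∈ Ioo 0 T, bop L P (miura L (5 * η ^ 2) Z) i t = 0) ∧
        nL L (fun x => Z x 0 - w x) ≤ ε + K * η ^ 2 ∧
        ∃ w', SmI L w' ∧ (∀ x ∈ Icc 0 L, dI L w' x = -miura L (5 * η ^ 2) Z x 0 / 6) ∧
          wn L P (fun x => w' x - w x) ≤ ε := by
  obtain ⟨m, hm, hm1, hm0, hmm⟩ : ∃ m : ℝ → ℝ, SC m ∧ (∀ t, -1 ≤ t → t ≤ T → m t = 1) ∧
      (∀ t, 2 * (T + 1) < t → m t = 0) ∧ ∀ t, m t ∈ Icc (0 : ℝ) 1 := by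
    have hT1 : 0 < (T + 1)⁻¹ := by positivity
    refine ⟨fun t => cut ((T + 1)⁻¹ * t), sc_cut_scale hT1, fun t h1 h2 => cut_one ?_,
      fun t ht => cut_zero (le_trans ?_ (le_abs_self _)), fun t => cut_mem _⟩
    · rw [abs_mul, abs_of_pos hT1, inv_mul_le_iff₀ (by positivity), abs_le]
      constructor <;> linarith
    · rw [le_inv_mul_iff₀ (by positivity)]
      linarith
  have hK1 := (msex_Kc_le hL P zero_le_one le_rfl).1
  have ha₀ := mulC_nonneg one_pos adm_w1 (spec 0 m)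
  have hlim : Tendsto (fun γ : ℝ => Kc L 1 P * ((mulC 1 w1 (spec 0 m) + 1) * γ ^ (-(1 : ℝ) / 3)))
      atTop (𝓝 (Kc L 1 P * ((mulC 1 w1 (spec 0 m) + 1) * 0))) := by
    refine ((?_ : Tendsto (fun γ : ℝ => γ ^ (-(1 : ℝ) / 3)) atTop (𝓝 0)).const_mul _).const_mul _
    rw [neg_div]
    exact tendsto_rpow_neg_atTop (by norm_num)
  rw [mul_zero, mul_zero] at hlim
  obtain ⟨γ, ⟨hγ1, hγ2⟩, hγs⟩ := (((eventually_ge_atTop (1 : ℝ)).and
    (eventually_ge_atTop ((2 / L) ^ 3))).and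
    (hlim.eventually (ge_mem_nhds (by norm_num : (0 : ℝ) < 1 / 3)))).exists
  have hγ : Big L γ := ⟨hγ1, hγ2⟩
  have hγ0 : 0 < γ := one_pos.trans_le hγ1
  have hγ1' : 1 / γ ≤ 1 := (div_le_one hγ0).2 hγ1
  have ha := aa_nonneg γ
  have ha₁ := mulC_nonneg hγ0 adm_w1 (mm γ m 1)
  have ha₂ := mulC_nonneg hγ0 adm_w1 (mm γ m 2)
  obtain ⟨A, hA0, hA1, hA2⟩ : ∃ A : Fin 3 → ℝ, A 0 = mulC 1 w1 (spec 0 m) + 1 ∧
      A 1 = mulC γ w1 (mm γ m 1) + 1 ∧ A 2 = mulC γ w1 (mm γ m 2) + 1 :=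
    ⟨![_, _, _], rfl, rfl, rfl⟩
  have hApos : ∀ n, 0 < A n := by
    intro n
    fin_cases n
    · exact hA0 ▸ (by positivity : 0 < mulC 1 w1 (spec 0 m) + 1)
    · exact hA1 ▸ (by positivity : 0 < mulC γ w1 (mm γ m 1) + 1)
    · exact hA2 ▸ (by positivity : 0 < mulC γ w1 (mm γ m 2) + 1)
  have hA : ∀ n, mulC γ w1 (mm γ m n) ≤ A n := by
    intro n
    fin_cases n
    · have e : mm γ m 0 = spec 0 m := by simp [mm]
      change mulC γ w1 (mm γ m 0) ≤ A 0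
      rw [e, hA0]
      linarith [mulC_anti hγ1 (rd_spec 0 hm)]
    · change mulC γ w1 (mm γ m 1) ≤ A 1
      linarith
    · change mulC γ w1 (mm γ m 2) ≤ A 2
      linarith
  rw [← hA0] at hγs
  have hA₀ := hApos 0
  have hA₁ := hApos 1
  have hA₂ := hApos 2
  obtain ⟨η₁, hη₁, hη₁1, hη₁s⟩ : ∃ η₁ : ℝ, 0 < η₁ ∧ η₁ ≤ 1 ∧
      Kc L 1 P * (A 1 * aa γ + A 2) * η₁ ≤ 1 / 3 := by
    refine ⟨min 1 (1 / 3 / (Kc L 1 P * (A 1 * aa γ + A 2) + 1)), lt_min one_pos (by positivity),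
      min_le_left _ _, ?_⟩
    have h1 := min_le_right 1 (1 / 3 / (Kc L 1 P * (A 1 * aa γ + A 2) + 1))
    have h2 : 0 < min 1 (1 / 3 / (Kc L 1 P * (A 1 * aa γ + A 2) + 1)) :=
      lt_min one_pos (by positivity)
    rw [le_div_iff₀' (by positivity)] at h1
    linarith
  have hsm : ∀ κ η', 0 ≤ κ → κ ≤ 1 → 0 < η' → η' ≤ η₁ → Smal L κ P γ A η' := by
    intro κ η' h0 h1 h3 h4
    refine ⟨hApos, h3, ?_⟩
    have h2 : η' ^ 2 ≤ η₁ := by nlinarith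
    calc Kc L κ P * (A 0 * γ ^ (-(1 : ℝ) / 3) + A 1 * aa γ * η' + A 2 * η' ^ 2)
        ≤ Kc L 1 P * (A 0 * γ ^ (-(1 : ℝ) / 3) + A 1 * aa γ * η₁ + A 2 * η₁) := by
          gcongr
          exact (msex_Kc_le hL P h0 h1).2
      _ ≤ 1 := by linarith
  obtain ⟨i₀, hi₀⟩ := Finite.exists_max fun i => |P.c i|
  obtain ⟨D, hD⟩ : ∃ D : ℝ, D = 1 + (Real.sqrt L + 2) * (1 + L) := ⟨_, rfl⟩
  have hD0 : 0 < D := by rw [hD]; positivity
  obtain ⟨Y, hY⟩ : ∃ Y : ℝ, Y = 126 * |P.c i₀| * Real.sqrt (2 * (T + 1) + 1 / γ) +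
    (126 * aa γ + 1800) * D := ⟨_, rfl⟩
  have hY0 : 0 < Y := by rw [hY]; positivity
  obtain ⟨K₁, hK₁⟩ : ∃ K₁ : ℝ, K₁ = Real.exp (γ * T) *
    (2 * Y * (1 + aa γ) + 6 * D + 80 * (1 + L) * Y) := ⟨_, rfl⟩
  have hK₁0 : 0 < K₁ := by rw [hK₁]; positivity
  have hS : 0 ≤ 5 * Real.sqrt L * (1 + L) := by positivity
  refine ⟨min (1 / 5) (η₁ / Y), ⟨lt_min (by norm_num) (by positivity), min_le_left _ _⟩,
    K₁ + 5 * Real.sqrt L * (1 + L) + 1, by linarith, fun η hη' w hw hwη ε hε => ?_⟩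
  have hη : 0 < η := hη'.1
  have hη5 : η ≤ 1 / 5 := hη'.2.trans (min_le_left _ _)
  have hηs : Y * η ≤ η₁ := by
    rw [← le_div_iff₀' hY0]
    exact hη'.2.trans (min_le_right _ _)
  obtain ⟨κ, hκe⟩ : ∃ κ : ℝ, κ = 5 * η ^ 2 := ⟨_, rfl⟩
  obtain ⟨hκ0, hκη, hκ⟩ : 0 ≤ κ ∧ κ ≤ η ∧ 4 * η ^ 2 < κ := by
    rw [hκe]
    exact ⟨by positivity, by nlinarith, by nlinarith⟩
  rw [← hκe]
  have hκ1 : κ ≤ 1 := by linarith
  have hκ2 : κ ^ 2 ≤ η := by nlinarith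
  obtain ⟨q, hq⟩ := ric_exists hL hw ((nL_le_wn L P w).trans hwη) hκ
  have hDq : wn L P q ≤ η * D := by
    refine (hq.wn_le hL P hw).trans ?_
    have h1 : κ + κ ^ 2 * L ≤ η * (1 + L) := by nlinarith
    have h2 := mul_le_mul_of_nonneg_left h1 (by positivity : 0 ≤ Real.sqrt L + 2)
    rw [hD]
    linarith
  have hnq := (nL_le_wn L P q).trans hDq
  obtain ⟨Z, hZ1, hZ2, hZ3, hZ4, hZ5⟩ := hom_mid hL hP hγ hT hm
    (fun t ht => hm1 t (by rw [mem_Icc, neg_div] at ht; linarith [ht.1]) ht.2) hA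
    (hsm κ (Y * η) hκ0 hκ1 (by positivity) hηs)
    hw hq (ℓb := fun i _ => κ ^ 2 * P.c i) (fun i => contDiff_const) (by
      refine ⟨1 / γ, by positivity, fun τ hτ => ?_⟩
      have hsh := fun i => msex_short hγ.1 hτ (msex_sigma P i).2 (b := 2 * (T + 1))
        (by positivity) hm hm0 hmm (k := fun _ => κ ^ 2 * P.c i) contDiff_const
        (K := η * |P.c i₀|) (by positivity) (fun t _ => by
          rw [abs_mul, abs_of_nonneg (sq_nonneg κ)]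
          exact mul_le_mul hκ2 (hi₀ i) (abs_nonneg _) hη.le)
      refine ⟨fun i t => rp (-τ) τ t * m t * (κ ^ 2 * P.c i), fun i => (hsh i).1,
        fun i t ht => ?_, ?_⟩
      · rcases le_or_gt (-1) t with h1 | h1
        · simp only [hm1 t h1 ht, mul_one]
        · simp only [rp_zero hτ.1 (by linarith [hτ.2] : t ≤ -τ), zero_mul]
      · refine fun x hx j => (msex_lin hL hγ P hτ hq.sm (q₀ := fun _ => 0) contDiffOn_const
          (B := 0) (fun x _ => by simp [dI]) (fun i => (hsh i).1) (by positivity)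
          (fun i => (hsh i).2) hDq x hx j).mono ?_
        simp only [sub_zero]
        rw [hY]
        linarith)
    (a := (K₁ + 5 * Real.sqrt L * (1 + L) + 1) * η) (by
      have h1 : Real.exp (γ * T) * (2 * (Y * η) * (1 + aa γ) + 6 * nL L q +
          80 * (1 + L) * (Y * η)) ≤ K₁ * η := by
        rw [hK₁, mul_assoc (Real.exp _)]
        refine mul_le_mul_of_nonneg_left ?_ (Real.exp_pos _).le
        linarith
      linarith [mul_nonneg hS hη.le]) hε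
  refine ⟨Z, hZ1, hZ2, fun i t ht => by rw [hZ3 i t ht]; ring, ?_, hZ5⟩
  have c0 := (hZ1.sm.slice_x ⟨le_rfl, hT.le⟩).cont
  have h1 := nL_add_le hL.le (c0.sub hq.sm.cont) (hq.sm.cont.sub hw.cont)
  have h2 : nL L (fun x => q x - w x) ≤ Real.sqrt L * (κ * (1 + L)) :=
    nL_le_of_abs_le hL.le (hq.sm.cont.sub hw.cont) fun x hx => by
      rw [abs_of_nonneg (hq.bd x hx).1]
      refine (hq.bd x hx).2.trans ?_
      linarith [mul_nonneg hL.le (mul_nonneg hκ0 (sub_nonneg.2 hκ1))]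
  rw [nL_congr hL.le (q' := fun x => Z x 0 - w x) fun x _ => by simp] at h1
  have h3 : nL L ((fun x => Z x 0) - q) = nL L fun x => Z x 0 - q x := rfl
  have h4 : nL L (q - w) = nL L fun x => q x - w x := rfl
  rw [hκe] at h2
  linarith [mul_pos hK₁0 (pow_pos hη 2), pow_pos hη 2]

end Pool.Agent.Lib.MP_14aec4_an.W
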