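import Pool.Agent.Lib.MP_14aec4_an.Z0

/-!
Weak equicontinuity in time and local smoothing for the Miura variable.
-/

noncomputable section

open MeasureTheory Set Filter Topology FourierTransform
open scoped ENNReal ComplexConjugate

namespace Pool.Agent.Lib.MP_14aec4_an.W

variable {L κ T a : ℝ} {Z : ℝ → ℝ → ℝ}

lemma hom_cont {g g1 : ℝ → ℝ} (d : ∀ x, HasDerivAt g (g1 x) x) : Continuous g :=
  continuous_iff_continuousAt.2 fun x => (d x).continuousAt

lemma HB.ibp (hL : 0 < L) (hT : 0 < T) (h : HB L κ T a Z) {g g1 g2 : ℝ → ℝ}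
    (d0 : ∀ x, HasDerivAt g (g1 x) x) (d1 : ∀ x, HasDerivAt g1 (g2 x) x) (c2 : Continuous g2)
    (e0 : g 0 = 0) (eL : g L = 0) (f0 : g1 0 = 0) (fL : g1 L = 0) {t : ℝ} (ht : t ∈ Ioo 0 T) :
    ∫ x in (0 : ℝ)..L, g x * ptw (Icc 0 T) Z x t =
      ∫ x in (0 : ℝ)..L, (g x * (6 * (Z x t ^ 2 + mu κ) * px L Z x t) - g2 x * px L Z x t) := by
  have hI : UniqueDiffOn ℝ (Icc (0 : ℝ) T) := uniqueDiffOn_Icc hT
  have htI : t ∈ Icc (0 : ℝ) T := Ioo_subset_Icc_self ht
  have hn : Icc (0 : ℝ) T ∈ 𝓝 t := Icc_mem_nhds ht.1 ht.2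
  have s0 := h.sm
  have s1 := s0.px hL hI
  have s2 := s1.px hL hI
  have k0 := s0.ctOn.slice_x htI
  have k1 := s1.ctOn.slice_x htI
  have k2 := s2.ctOn.slice_x htI
  have kt := (s0.ptw hL hI).ctOn.slice_x htI
  have c0 := (hom_cont d0).continuousOn (s := Icc 0 L)
  have c1 := (hom_cont d1).continuousOn (s := Icc 0 L)
  have i1 : IntervalIntegrable (fun x => g x * ptw (Icc 0 T) Z x t) volume 0 L :=
    (c0.mul kt).intervalIntegrable_of_Icc hL.le
  have i2 : IntervalIntegrable (fun x => g x * (6 * (Z x t ^ 2 + mu κ) * px L Z x t) -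
      g2 x * px L Z x t) volume 0 L :=
    ((c0.mul ((continuousOn_const.mul ((k0.pow 2).add continuousOn_const)).mul k1)).sub
      (c2.continuousOn.mul k1)).intervalIntegrable_of_Icc hL.le
  have key := intervalIntegral.integral_eq_sub_of_hasDerivAt_of_le hL.le
    (f := fun x => g x * px L (px L Z) x t - g1 x * px L Z x t)
    (f' := fun x => (g x * (6 * (Z x t ^ 2 + mu κ) * px L Z x t) - g2 x * px L Z x t) -
      g x * ptw (Icc 0 T) Z x t) ((c0.mul k2).sub (c1.mul k1))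
    (fun x hx => by
      have he := h.eq x hx t ht
      rw [pt_eq_ptw Z x hn, nN] at he
      refine (((d0 x).fun_mul (s2.hasDerivAt_x hx htI)).fun_sub
        ((d1 x).fun_mul (s1.hasDerivAt_x hx htI))).congr_deriv ?_
      linear_combination (g x) * he)
    (i2.sub i1)
  rw [intervalIntegral.integral_sub i2 i1, e0, eL, f0, fL] at key
  linarith

lemma hom_pt {M a μ g g2 z p : ℝ} (ha : 0 < a) (hμ : |μ| ≤ 2) (hg : |g| ≤ M) (hg2 : |g2| ≤ M) :
    |g * (6 * (z ^ 2 + μ) * p) - g2 * p| ≤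
      M * (19 / 2 * a * p ^ 2 + 3 / a * z ^ 4 + 13 / (2 * a)) := by
  have hM : 0 ≤ M := (abs_nonneg _).trans hg
  have h1 : |g * (6 * (z ^ 2 + μ) * p) - g2 * p| ≤ M * (6 * (z ^ 2 * |p|) + 13 * |p|) := by
    refine (abs_sub _ _).trans ?_
    rw [abs_mul, abs_mul, abs_mul, abs_mul g2, abs_of_pos (by norm_num : (0 : ℝ) < 6)]
    have h2 : |z ^ 2 + μ| ≤ z ^ 2 + 2 := (abs_add_le _ _).trans (by rw [abs_sq]; linarith)
    calc |g| * (6 * |z ^ 2 + μ| * |p|) + |g2| * |p|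
        ≤ M * (6 * (z ^ 2 + 2) * |p|) + M * |p| := by gcongr
      _ = _ := by ring
  refine h1.trans (mul_le_mul_of_nonneg_left ?_ hM)
  have h2 : |p| ≤ a * p ^ 2 / 2 + 1 / (2 * a) := by
    rw [← sq_abs p, ← sub_nonneg]
    have : a * |p| ^ 2 / 2 + 1 / (2 * a) - |p| = (a * |p| - 1) ^ 2 / (2 * a) := by
      field_simp
      ring
    rw [this]
    positivity
  have h3 : z ^ 2 * |p| ≤ a * p ^ 2 / 2 + z ^ 4 / (2 * a) := by
    rw [← sq_abs p, ← sub_nonneg]
    have : a * |p| ^ 2 / 2 + z ^ 4 / (2 * a) - z ^ 2 * |p| = (a * |p| - z ^ 2) ^ 2 / (2 * a) := by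
      field_simp
      ring
    rw [this]
    positivity
  have e1 : 3 / a * z ^ 4 = 6 * (z ^ 4 / (2 * a)) := by
    field_simp
    ring
  have e2 : 13 / (2 * a) = 13 * (1 / (2 * a)) := by ring
  rw [e1, e2]
  linarith

/-- Weak equicontinuity in time. -/
lemma HB.equi (hL : 0 < L) (hT : 0 < T) (h : HB L κ T a Z) (ha : 0 < a) (hμ : |mu κ| ≤ 2)
    {g g1 g2 : ℝ → ℝ} {M : ℝ} (d0 : ∀ x, HasDerivAt g (g1 x) x)
    (d1 : ∀ x, HasDerivAt g1 (g2 x) x) (c2 : Continuous g2) (e0 : g 0 = 0) (eL : g L = 0)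
    (f0 : g1 0 = 0) (fL : g1 L = 0) (hM : ∀ x ∈ Icc 0 L, |g x| ≤ M ∧ |g2 x| ≤ M) {t : ℝ}
    (ht : t ∈ Icc 0 T) (hta : t ≤ a ^ 4) :
    |(∫ x in (0 : ℝ)..L, g x * Z x t) - ∫ x in (0 : ℝ)..L, g x * Z x 0| ≤ 19 * M * L * a ^ 3 := by
  have hI : UniqueDiffOn ℝ (Icc (0 : ℝ) T) := uniqueDiffOn_Icc hT
  have hM0 : 0 ≤ M := (abs_nonneg _).trans (hM 0 ⟨le_rfl, hL.le⟩).1
  have cu : CtOn L (Icc 0 T) Z := h.sm.ctOn
  have cx : CtOn L (Icc 0 T) (px L Z) := (h.sm.px hL hI).ctOn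
  have ct : CtOn L (Icc 0 T) (ptw (Icc 0 T) Z) := (h.sm.ptw hL hI).ctOn
  have cg : ContinuousOn (fun p : ℝ × ℝ => g p.1) (Icc 0 L ×ˢ Icc 0 T) :=
    ((hom_cont d0).comp continuous_fst).continuousOn
  have cE : CtOn L (Icc 0 T) fun x t => g x * Z x t := ContinuousOn.mul cg cu
  have cF : CtOn L (Icc 0 T) fun x t => g x * ptw (Icc 0 T) Z x t := ContinuousOn.mul cg ct
  have cG : CtOn L (Icc 0 T) fun x t =>
      M * (19 / 2 * a * px L Z x t ^ 2 + 3 / a * Z x t ^ 4 + 13 / (2 * a)) :=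
    ContinuousOn.mul continuousOn_const (ContinuousOn.add (ContinuousOn.add
      (ContinuousOn.mul continuousOn_const (ContinuousOn.pow cx 2))
      (ContinuousOn.mul continuousOn_const (ContinuousOn.pow cu 4))) continuousOn_const)
  have hsub : Icc (0 : ℝ) t ⊆ Icc 0 T := Icc_subset_Icc_right ht.2
  have cG' : CtOn L (Icc 0 t) fun x t =>
      M * (19 / 2 * a * px L Z x t ^ 2 + 3 / a * Z x t ^ 4 + 13 / (2 * a)) :=
    ContinuousOn.mono cG (prod_mono_right hsub)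
  have ftc := intervalIntegral.integral_eq_sub_of_hasDerivAt_of_le ht.1
    (f := fun τ => ∫ x in (0 : ℝ)..L, g x * Z x τ)
    (f' := fun τ => ∫ x in (0 : ℝ)..L, g x * ptw (Icc 0 T) Z x τ)
    ((cE.continuousOn_integral hL.le).mono hsub)
    (fun τ hτ => hasDerivAt_integral_x hL.le cE cF
      (fun x hx s hs => by
        have hn : Icc (0 : ℝ) T ∈ 𝓝 s := Icc_mem_nhds hs.1 hs.2
        have := h.sm.hasDerivAt_t (Ioo_subset_Icc_self hx) hn
        rw [pt_eq_ptw Z x hn] at this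
        exact this.const_mul _) ⟨hτ.1, hτ.2.trans_le ht.2⟩)
    (((cF.continuousOn_integral hL.le).mono hsub).intervalIntegrable_of_Icc ht.1)
  have bd : ∀ τ ∈ Ioo (0 : ℝ) T, |∫ x in (0 : ℝ)..L, g x * ptw (Icc 0 T) Z x τ| ≤
      ∫ x in (0 : ℝ)..L, M * (19 / 2 * a * px L Z x τ ^ 2 + 3 / a * Z x τ ^ 4 + 13 / (2 * a)) := by
    intro τ hτ
    rw [h.ibp hL hT d0 d1 c2 e0 eL f0 fL hτ, ← Real.norm_eq_abs]
    refine intervalIntegral.norm_integral_le_of_norm_le hL.le (Eventually.of_forall ?_)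
      ((cG.slice_x (Ioo_subset_Icc_self hτ)).intervalIntegrable_of_Icc hL.le)
    intro x hx
    exact hom_pt ha hμ (hM x (Ioc_subset_Icc_self hx)).1 (hM x (Ioc_subset_Icc_self hx)).2
  have bt : ∀ x ∈ Icc (0 : ℝ) L, |∫ τ in (0 : ℝ)..t,
      M * (19 / 2 * a * px L Z x τ ^ 2 + 3 / a * Z x τ ^ 4 + 13 / (2 * a))| ≤
        19 * M * a ^ 3 := by
    intro x hx
    rw [abs_of_nonneg (intervalIntegral.integral_nonneg ht.1 fun τ _ => by positivity)]
    have j1 := ((cx.slice_t hx).pow 2).intervalIntegrable_of_Icc (μ := volume) hT.le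
    have j2 := ((cu.slice_t hx).pow 4).intervalIntegrable_of_Icc (μ := volume) hT.le
    have l1 : IntervalIntegrable (fun τ => px L Z x τ ^ 2) volume 0 t :=
      (((cx.slice_t hx).pow 2).mono hsub).intervalIntegrable_of_Icc ht.1
    have l2 : IntervalIntegrable (fun τ => Z x τ ^ 4) volume 0 t :=
      (((cu.slice_t hx).pow 4).mono hsub).intervalIntegrable_of_Icc ht.1
    have m1 : ∫ τ in (0 : ℝ)..t, px L Z x τ ^ 2 ≤ a ^ 2 :=
      (intervalIntegral.integral_mono_interval le_rfl ht.1 ht.2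
        (Eventually.of_forall fun _ => sq_nonneg _) j1).trans (h.k1 x hx)
    have m2 : ∫ τ in (0 : ℝ)..t, Z x τ ^ 4 ≤ a ^ 4 :=
      (intervalIntegral.integral_mono_interval le_rfl ht.1 ht.2
        (Eventually.of_forall fun _ => Even.pow_nonneg (by decide) _) j2).trans (h.k2 x hx)
    rw [intervalIntegral.integral_const_mul, intervalIntegral.integral_add
      ((l1.const_mul _).add (l2.const_mul _)) intervalIntegrable_const,
      intervalIntegral.integral_add (l1.const_mul _) (l2.const_mul _),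
      intervalIntegral.integral_const_mul, intervalIntegral.integral_const_mul,
      intervalIntegral.integral_const, smul_eq_mul, sub_zero]
    calc _ ≤ M * (19 / 2 * a * a ^ 2 + 3 / a * a ^ 4 + a ^ 4 * (13 / (2 * a))) := by gcongr
      _ = _ := by
        field_simp
        ring
  rw [← ftc, ← Real.norm_eq_abs]
  calc _ ≤ ∫ τ in (0 : ℝ)..t, ∫ x in (0 : ℝ)..L,
        M * (19 / 2 * a * px L Z x τ ^ 2 + 3 / a * Z x τ ^ 4 + 13 / (2 * a)) := by
        refine intervalIntegral.norm_integral_le_of_norm_le ht.1 ?_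
          ((cG'.continuousOn_integral hL.le).intervalIntegrable_of_Icc ht.1)
        filter_upwards [Measure.ae_ne volume T] with τ hτ hτ'
        rw [Real.norm_eq_abs]
        exact bd τ ⟨hτ'.1, lt_of_le_of_ne (hτ'.2.trans ht.2) hτ⟩
    _ ≤ _ := by
        rw [cG'.integral_swap hL.le ht.1]
        have := intervalIntegral.norm_integral_le_of_norm_le_const (a := 0) (b := L)
          (C := 19 * M * a ^ 3) (f := fun x => ∫ τ in (0 : ℝ)..t,
            M * (19 / 2 * a * px L Z x τ ^ 2 + 3 / a * Z x τ ^ 4 + 13 / (2 * a))) fun x hx => by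
          rw [uIoc_of_le hL.le] at hx
          exact bt x (Ioc_subset_Icc_self hx)
        rw [sub_zero, abs_of_pos hL, Real.norm_eq_abs] at this
        linarith [le_abs_self (∫ x in (0 : ℝ)..L, ∫ τ in (0 : ℝ)..t,
          M * (19 / 2 * a * px L Z x τ ^ 2 + 3 / a * Z x τ ^ 4 + 13 / (2 * a)))]

/-- The Miura image tested against a function that vanishes at the ends. -/
lemma hom_test (hL : 0 < L) (κ : ℝ) {z g g1 : ℝ → ℝ} (hz : SmI L z)
    (d : ∀ x, HasDerivAt g (g1 x) x) (c1 : Continuous g1) (e0 : g 0 = 0) (eL : g L = 0) :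
    ∫ x in (0 : ℝ)..L, g x * (-6 * (dI L z x + z x ^ 2) + 6 * κ ^ 2) =
      6 * (∫ x in (0 : ℝ)..L, g1 x * z x) - 6 * (∫ x in (0 : ℝ)..L, g x * z x ^ 2) +
        6 * κ ^ 2 * ∫ x in (0 : ℝ)..L, g x := by
  have c0 := hom_cont d
  have i1 : IntervalIntegrable (fun x => g x * dI L z x) volume 0 L :=
    (c0.continuousOn.mul (hz.dI hL).cont).intervalIntegrable_of_Icc hL.le
  have i2 : IntervalIntegrable (fun x => g1 x * z x) volume 0 L :=
    (c1.continuousOn.mul hz.cont).intervalIntegrable_of_Icc hL.le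
  have i3 : IntervalIntegrable (fun x => g x * z x ^ 2) volume 0 L :=
    (c0.continuousOn.mul (hz.cont.pow 2)).intervalIntegrable_of_Icc hL.le
  have key := intervalIntegral.integral_eq_sub_of_hasDerivAt_of_le hL.le
    (f := fun x => g x * z x) (f' := fun x => g1 x * z x + g x * dI L z x)
    (c0.continuousOn.mul hz.cont) (fun x hx => (d x).fun_mul (hz.hasDerivAt hx)) (i2.add i1)
  rw [intervalIntegral.integral_add i2 i1, e0, eL] at key
  have e : (fun x => g x * (-6 * (dI L z x + z x ^ 2) + 6 * κ ^ 2)) =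
      fun x => -6 * (g x * dI L z x) - 6 * (g x * z x ^ 2) + 6 * κ ^ 2 * g x := by
    funext x
    ring
  rw [e, intervalIntegral.integral_add ((i1.const_mul _).sub (i3.const_mul _))
    ((c0.intervalIntegrable _ _).const_mul _),
    intervalIntegral.integral_sub (i1.const_mul _) (i3.const_mul _),
    intervalIntegral.integral_const_mul, intervalIntegral.integral_const_mul,
    intervalIntegral.integral_const_mul]
  linarith

lemma hom_osc (hL : 0 < L) {z : ℝ → ℝ} (hz : SmI L z) {l : ℝ} (hl : 0 < l) {x y : ℝ}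
    (hx : 0 ≤ x) (hxy : x ≤ y) (hy : y ≤ L) :
    |z y - z x| ≤ l * (y - x) + (∫ x in (0 : ℝ)..L, dI L z x ^ 2) / l := by
  have hs : Icc x y ⊆ Icc 0 L := Icc_subset_Icc hx hy
  have c1 := (hz.dI hL).cont
  have i2 : IntervalIntegrable (fun x => dI L z x ^ 2) volume x y :=
    ((c1.pow 2).mono hs).intervalIntegrable_of_Icc hxy
  rw [← intervalIntegral.integral_eq_sub_of_hasDerivAt_of_le hxy (hz.cont.mono hs)
    (fun s hs => hz.hasDerivAt ⟨hx.trans_lt hs.1, hs.2.trans_le hy⟩)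
    ((c1.mono hs).intervalIntegrable_of_Icc hxy), ← Real.norm_eq_abs]
  refine (intervalIntegral.norm_integral_le_of_norm_le (g := fun s => l + dI L z s ^ 2 / l) hxy
    (Eventually.of_forall fun s _ => ?_) (intervalIntegrable_const.add (i2.div_const l))).trans ?_
  · rw [Real.norm_eq_abs, ← sq_abs (dI L z s), ← sub_nonneg]
    have : l + |dI L z s| ^ 2 / l - |dI L z s| =
        ((l - |dI L z s|) ^ 2 + l * |dI L z s|) / l := by
      field_simp
      ring
    rw [this]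
    positivity
  · rw [intervalIntegral.integral_add intervalIntegrable_const (i2.div_const l),
      intervalIntegral.integral_const, intervalIntegral.integral_div, smul_eq_mul, mul_comm]
    gcongr
    exact intervalIntegral.integral_mono_interval hx hxy hy
      (Eventually.of_forall fun _ => sq_nonneg _) ((c1.pow 2).intervalIntegrable_of_Icc hL.le)

lemma hom_rp_deriv (x₀ h x : ℝ) : HasDerivAt (rp x₀ h) (deriv (rp x₀ h) x) x :=
  ((rp_contDiff x₀ h).differentiable (by simp) x).hasDerivAt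

lemma hom_rp_int {x₀ h : ℝ} (hh : 0 < h) (h0 : 0 ≤ x₀) (h1 : x₀ + h ≤ L) :
    ∫ x in (0 : ℝ)..L, deriv (rp x₀ h) x = 1 := by
  rw [intervalIntegral.integral_eq_sub_of_hasDerivAt (fun x _ => hom_rp_deriv x₀ h x)
    ((sc_deriv_rp hh x₀).1.continuous.intervalIntegrable _ _), rp_one hh h1, rp_zero hh h0,
    sub_zero]

/-- A function is close to its local averages. -/
lemma hom_avg (hL : 0 < L) {z : ℝ → ℝ} (hz : SmI L z) {l x₀ h y : ℝ} (hl : 0 < l) (hh : 0 < h)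
    (h0 : 0 ≤ x₀) (h1 : x₀ + h ≤ L) (hy : y ∈ Icc x₀ (x₀ + h)) :
    |z y - ∫ x in (0 : ℝ)..L, deriv (rp x₀ h) x * z x| ≤
      l * h + (∫ x in (0 : ℝ)..L, dI L z x ^ 2) / l := by
  have c := (sc_deriv_rp hh x₀).1.continuous
  set D := l * h + (∫ x in (0 : ℝ)..L, dI L z x ^ 2) / l with hD
  have e : z y - ∫ x in (0 : ℝ)..L, deriv (rp x₀ h) x * z x =
      ∫ x in (0 : ℝ)..L, deriv (rp x₀ h) x * (z y - z x) := by
    simp only [mul_sub]
    rw [intervalIntegral.integral_sub (g := fun x => deriv (rp x₀ h) x * z x)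
      ((c.intervalIntegrable _ _).mul_const _)
      ((c.continuousOn.mul hz.cont).intervalIntegrable_of_Icc hL.le),
      intervalIntegral.integral_mul_const, hom_rp_int hh h0 h1, one_mul]
  rw [e, ← Real.norm_eq_abs]
  refine (intervalIntegral.norm_integral_le_of_norm_le (g := fun x => deriv (rp x₀ h) x * D) hL.le
    (Eventually.of_forall fun x _ => ?_) ((c.intervalIntegrable _ _).mul_const _)).trans ?_
  · by_cases hx : x ∈ Ioo x₀ (x₀ + h)
    · rw [Real.norm_eq_abs, abs_mul, abs_of_nonneg (deriv_rp_nonneg hh _ _)]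
      refine mul_le_mul_of_nonneg_left ?_ (deriv_rp_nonneg hh _ _)
      rcases le_total x y with hxy | hxy
      · refine (hom_osc hL hz hl (h0.trans hx.1.le) hxy (hy.2.trans h1)).trans ?_
        rw [hD]
        gcongr
        linarith [hx.1, hy.2]
      · rw [abs_sub_comm]
        refine (hom_osc hL hz hl (h0.trans hy.1) hxy (hx.2.le.trans h1)).trans ?_
        rw [hD]
        gcongr
        linarith [hx.2, hy.1]
    · simp [deriv_rp_zero hh hx]
  · rw [intervalIntegral.integral_mul_const, hom_rp_int hh h0 h1, one_mul]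

/-- The test function `θ = (rp (L/4) (L/4))'` and its derivatives. -/
structure TF (L M : ℝ) (θ θ1 θ2 θ3 : ℝ → ℝ) : Prop where
  eq : θ = deriv (rp (L / 4) (L / 4))
  d1 : ∀ x, HasDerivAt θ (θ1 x) x
  d2 : ∀ x, HasDerivAt θ1 (θ2 x) x
  d3 : ∀ x, HasDerivAt θ2 (θ3 x) x
  c3 : Continuous θ3
  z : ∀ x, x ∉ Icc (L / 4) (L / 2) → θ x = 0 ∧ θ1 x = 0 ∧ θ2 x = 0
  bd : ∀ x ∈ Icc 0 L, |θ x| ≤ M ∧ |θ1 x| ≤ M ∧ |θ2 x| ≤ M ∧ |θ3 x| ≤ M

lemma exists_tf (hL : 0 < L) : ∃ (M : ℝ) (θ θ1 θ2 θ3 : ℝ → ℝ), 0 < M ∧ TF L M θ θ1 θ2 θ3 := by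
  have h4 : 0 < L / 4 := by positivity
  have s0 := (sc_deriv_rp h4 (L / 4)).1
  have s1 := (contDiff_infty_iff_deriv.1 s0).2
  have s2 := (contDiff_infty_iff_deriv.1 s1).2
  have s3 := (contDiff_infty_iff_deriv.1 s2).2
  obtain ⟨K0, h0, b0⟩ := msex_bdd (a := 0) (b := L) s0.continuous.continuousOn
  obtain ⟨K1, h1, b1⟩ := msex_bdd (a := 0) (b := L) s1.continuous.continuousOn
  obtain ⟨K2, h2, b2⟩ := msex_bdd (a := 0) (b := L) s2.continuous.continuousOn
  obtain ⟨K3, h3, b3⟩ := msex_bdd (a := 0) (b := L) s3.continuous.continuousOn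
  have step : ∀ f : ℝ → ℝ, (∀ x, x ∉ Icc (L / 4) (L / 2) → f x = 0) →
      ∀ x, x ∉ Icc (L / 4) (L / 2) → deriv f x = 0 := by
    intro f hf x hx
    have : f =ᶠ[𝓝 x] fun _ => 0 := by
      filter_upwards [isClosed_Icc.isOpen_compl.mem_nhds hx] with y hy using hf y hy
    rw [this.deriv_eq, deriv_const]
  have z0 : ∀ x, x ∉ Icc (L / 4) (L / 2) → deriv (rp (L / 4) (L / 4)) x = 0 := fun x hx =>
    deriv_rp_zero h4 fun h => hx ⟨h.1.le, by linarith [h.2]⟩
  exact ⟨K0 + K1 + K2 + K3 + 1, _, _, _, _, by positivity, rfl,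
    fun x => (s0.differentiable (by simp) x).hasDerivAt,
    fun x => (s1.differentiable (by simp) x).hasDerivAt,
    fun x => (s2.differentiable (by simp) x).hasDerivAt, s3.continuous,
    fun x hx => ⟨z0 x hx, step _ z0 x hx, step _ (step _ z0) x hx⟩,
    fun x hx => ⟨by linarith [b0 x hx], by linarith [b1 x hx], by linarith [b2 x hx],
      by linarith [b3 x hx]⟩⟩

/-- At a fixed time: `∫ θ z²` is controlled by the averages of `z` and by `∫ z_x²`. -/
lemma hom_up (hL : 0 < L) {M ρ l h b : ℝ} {θ θ1 θ2 θ3 z : ℝ → ℝ} (hθ : TF L M θ θ1 θ2 θ3)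
    (hz : SmI L z) (ha : nL L z ≤ a) (hl : 0 < l) (hh : 0 < h) (hh' : h ≤ L / 4)
    (hb : |∫ x in (0 : ℝ)..L, θ x * z x| ≤ b)
    (p : ∀ y ∈ Icc (L / 4) (L / 2), ∃ x₀ ∈ Icc (L / 8) (L / 2), y ∈ Icc x₀ (x₀ + h) ∧
      |∫ x in (0 : ℝ)..L, (rp (L / 4) (L / 4) x - rp x₀ h x) *
        (-6 * (dI L z x + z x ^ 2) + 6 * κ ^ 2)| ≤ ρ) :
    ∫ x in (0 : ℝ)..L, θ x * z x ^ 2 ≤ (b + a ^ 2 + κ ^ 2 * L + ρ / 6 + l * h +
      (∫ x in (0 : ℝ)..L, dI L z x ^ 2) / l) * (M * Real.sqrt L * a) := by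
  have h4 : 0 < L / 4 := by positivity
  set D := b + a ^ 2 + κ ^ 2 * L + ρ / 6 + l * h + (∫ x in (0 : ℝ)..L, dI L z x ^ 2) / l with hD
  have hM : 0 ≤ M := (abs_nonneg _).trans (hθ.bd 0 ⟨le_rfl, hL.le⟩).1
  have cθ := hom_cont hθ.d1
  have hsq : ∫ x in (0 : ℝ)..L, z x ^ 2 ≤ a ^ 2 := by
    have h1 : 0 ≤ ∫ x in (0 : ℝ)..L, z x ^ 2 :=
      intervalIntegral.integral_nonneg hL.le fun _ _ => sq_nonneg _
    rw [← Real.sq_sqrt h1]
    exact pow_le_pow_left₀ (Real.sqrt_nonneg _) ha 2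
  have hpt : ∀ y ∈ Icc (L / 4) (L / 2), |z y| ≤ D := by
    intro y hy
    obtain ⟨x₀, hx₀, hy', hp⟩ := p y hy
    have x0 : 0 ≤ x₀ := by linarith [hx₀.1]
    have x1 : x₀ + h ≤ L := by linarith [hx₀.2]
    have cH := (sc_deriv_rp hh x₀).1.continuous
    have ck : Continuous fun x => rp (L / 4) (L / 4) x - rp x₀ h x :=
      (rp_contDiff _ _).continuous.sub (rp_contDiff _ _).continuous
    have hk : ∀ x, |rp (L / 4) (L / 4) x - rp x₀ h x| ≤ 1 := fun x => by
      have h1 := rp_mem (L / 4) (L / 4) x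
      have h2 := rp_mem x₀ h x
      rw [abs_le]
      constructor <;> linarith [h1.1, h1.2, h2.1, h2.2]
    rw [hom_test hL κ hz (g1 := fun x => θ x - deriv (rp x₀ h) x)
      (fun x => by
        rw [hθ.eq]
        exact (hom_rp_deriv _ _ x).fun_sub (hom_rp_deriv _ _ x)) (cθ.sub cH)
      (by rw [rp_zero h4 h4.le, rp_zero hh x0, sub_zero])
      (by rw [rp_one h4 (by linarith), rp_one hh x1, sub_self])] at hp
    simp only [sub_mul (θ _)] at hp
    rw [intervalIntegral.integral_sub (f := fun x => θ x * z x)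
      (g := fun x => deriv (rp x₀ h) x * z x) ((cθ.continuousOn.mul hz.cont).intervalIntegrable_of_Icc hL.le)
      ((cH.continuousOn.mul hz.cont).intervalIntegrable_of_Icc hL.le)] at hp
    have q1 := hom_avg hL hz hl hh x0 x1 hy'
    have q2 : |∫ x in (0 : ℝ)..L, (rp (L / 4) (L / 4) x - rp x₀ h x) * z x ^ 2| ≤ a ^ 2 := by
      refine le_trans ?_ hsq
      rw [← Real.norm_eq_abs]
      refine intervalIntegral.norm_integral_le_of_norm_le hL.le
        (Eventually.of_forall fun x _ => ?_) ((hz.cont.pow 2).intervalIntegrable_of_Icc hL.le)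
      rw [Real.norm_eq_abs, abs_mul, abs_sq]
      exact mul_le_of_le_one_left (sq_nonneg _) (hk x)
    have q3 : |∫ x in (0 : ℝ)..L, (rp (L / 4) (L / 4) x - rp x₀ h x)| ≤ L := by
      have := intervalIntegral.norm_integral_le_of_norm_le_const (a := 0) (b := L) (C := 1)
        (f := fun x => rp (L / 4) (L / 4) x - rp x₀ h x) fun x _ => hk x
      rwa [sub_zero, abs_of_pos hL, one_mul] at this
    have q4 : |κ ^ 2 * ∫ x in (0 : ℝ)..L, (rp (L / 4) (L / 4) x - rp x₀ h x)| ≤ κ ^ 2 * L := by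
      rw [abs_mul, abs_sq]
      exact mul_le_mul_of_nonneg_left q3 (sq_nonneg _)
    rw [abs_le] at hp q1 q2 q4 hb ⊢
    constructor <;> linarith [hp.1, hp.2, q1.1, q1.2, q2.1, q2.2, q4.1, q4.2, hb.1, hb.2]
  have hD0 : 0 ≤ D := (abs_nonneg _).trans (hpt (L / 4) ⟨le_rfl, by linarith⟩)
  calc ∫ x in (0 : ℝ)..L, θ x * z x ^ 2 ≤ ∫ x in (0 : ℝ)..L, D * M * |z x| := by
        refine intervalIntegral.integral_mono_on hL.le
          ((cθ.continuousOn.mul (hz.cont.pow 2)).intervalIntegrable_of_Icc hL.le)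
          ((hz.cont.abs.intervalIntegrable_of_Icc hL.le).const_mul _) fun x hx => ?_
        by_cases hx' : x ∈ Icc (L / 4) (L / 2)
        · calc θ x * z x ^ 2 ≤ M * (|z x| * |z x|) := by
                rw [abs_mul_abs_self, ← sq]
                exact mul_le_mul_of_nonneg_right ((le_abs_self _).trans (hθ.bd x hx).1)
                  (sq_nonneg _)
            _ ≤ M * (D * |z x|) := by gcongr; exact hpt x hx'
            _ = _ := by ring
        · rw [(hθ.z x hx').1, zero_mul]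
          positivity
    _ ≤ D * M * (Real.sqrt L * a) := by
        rw [intervalIntegral.integral_const_mul]
        refine mul_le_mul_of_nonneg_left ((integral_abs_le hL.le hz.cont).trans ?_) (by positivity)
        gcongr
    _ = _ := by ring

/-- The oscillations of the Miura variable at time `0` are controlled by the pairings of its Miura
image with finitely many test functions. -/
theorem HB.core (hL : 0 < L) (hT : 0 < T) (hZ : HB L κ T a Z) (ha : 0 < a) (hμ : |mu κ| ≤ 2)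
    {M ρ l h b t₀ : ℝ} {θ θ1 θ2 θ3 : ℝ → ℝ} (hθ : TF L M θ θ1 θ2 θ3) (ht₀ : 0 < t₀) (ht₁ : t₀ ≤ T)
    (ht₂ : t₀ ≤ a ^ 4) (hl : 0 < l) (hh : 0 < h) (hh' : h ≤ L / 4)
    (hb : |∫ x in (0 : ℝ)..L, θ x * Z x 0| ≤ b)
    (p₁ : ∀ t ∈ Icc 0 T, |∫ x in (0 : ℝ)..L, θ x * miura L κ Z x t| ≤ ρ)
    (p₂ : ∀ y ∈ Icc (L / 4) (L / 2), ∃ x₀ ∈ Icc (L / 8) (L / 2), y ∈ Icc x₀ (x₀ + h) ∧
      ∀ t ∈ Icc 0 T,
        |∫ x in (0 : ℝ)..L, (rp (L / 4) (L / 4) x - rp x₀ h x) * miura L κ Z x t| ≤ ρ) :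
    ∫ x in (0 : ℝ)..L, θ x * Z x 0 ^ 2 ≤ 19 * M * L * a ^ 3 + ρ / 3 +
      (b + 19 * M * L * a ^ 3 + a ^ 2 + κ ^ 2 * L + ρ / 6 + l * h + L * a ^ 2 / (l * t₀)) *
        (M * Real.sqrt L * a) := by
  have hI : UniqueDiffOn ℝ (Icc (0 : ℝ) T) := uniqueDiffOn_Icc hT
  have hM : 0 ≤ M := (abs_nonneg _).trans (hθ.bd 0 ⟨le_rfl, hL.le⟩).1
  have z0 := hθ.z 0 fun h => by linarith [h.1]
  have zL := hθ.z L fun h => by linarith [h.2]
  have hsub : Icc (0 : ℝ) t₀ ⊆ Icc 0 T := Icc_subset_Icc_right ht₁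
  have cx : CtOn L (Icc 0 T) fun x t => px L Z x t ^ 2 :=
    ContinuousOn.pow (hZ.sm.px hL hI).ctOn 2
  have cx' : CtOn L (Icc 0 t₀) fun x t => px L Z x t ^ 2 :=
    ContinuousOn.mono cx (prod_mono_right hsub)
  set B := b + 19 * M * L * a ^ 3 + a ^ 2 + κ ^ 2 * L + ρ / 6 + l * h with hB
  set N := M * Real.sqrt L * a with hN
  have hN0 : 0 ≤ N := by positivity
  set E := ∫ x in (0 : ℝ)..L, θ x * Z x 0 ^ 2 with hE
  have hpt : ∀ t ∈ Icc 0 t₀, E - (19 * M * L * a ^ 3 + ρ / 3 + B * N) ≤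
      N / l * ∫ x in (0 : ℝ)..L, px L Z x t ^ 2 := by
    intro t ht
    have ht' := hsub ht
    have h0 : (0 : ℝ) ∈ Icc 0 T := ⟨le_rfl, hT.le⟩
    have q1 := hZ.equi hL hT ha hμ hθ.d1 hθ.d2 (hom_cont hθ.d3) z0.1 zL.1 z0.2.1 zL.2.1
      (fun x hx => ⟨(hθ.bd x hx).1, (hθ.bd x hx).2.2.1⟩) ht' (ht.2.trans ht₂)
    have q2 := hZ.equi hL hT ha hμ hθ.d2 hθ.d3 hθ.c3 z0.2.1 zL.2.1 z0.2.2 zL.2.2
      (fun x hx => ⟨(hθ.bd x hx).2.1, (hθ.bd x hx).2.2.2⟩) ht' (ht.2.trans ht₂)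
    have q3 : |6 * (∫ x in (0 : ℝ)..L, θ1 x * Z x t) - 6 * (∫ x in (0 : ℝ)..L, θ x * Z x t ^ 2) +
        6 * κ ^ 2 * ∫ x in (0 : ℝ)..L, θ x| ≤ ρ := by
      rw [← hom_test hL κ (hZ.sm.slice_x ht') hθ.d1 (hom_cont hθ.d2) z0.1 zL.1]
      exact p₁ t ht'
    have q4 : |6 * (∫ x in (0 : ℝ)..L, θ1 x * Z x 0) - 6 * E +
        6 * κ ^ 2 * ∫ x in (0 : ℝ)..L, θ x| ≤ ρ := by
      rw [hE, ← hom_test hL κ (hZ.sm.slice_x h0) hθ.d1 (hom_cont hθ.d2) z0.1 zL.1]
      exact p₁ 0 h0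
    have q5 := hom_up (κ := κ) (ρ := ρ) (b := b + 19 * M * L * a ^ 3) hL hθ (hZ.sm.slice_x ht')
      (hZ.k3 t ht') hl hh hh' (by
        rw [abs_le] at q1 hb ⊢
        constructor <;> linarith [q1.1, q1.2, hb.1, hb.2])
      (fun y hy => by
        obtain ⟨x₀, h1, h2, h3⟩ := p₂ y hy
        exact ⟨x₀, h1, h2, h3 t ht'⟩)
    have e : (B + (∫ x in (0 : ℝ)..L, dI L (fun x => Z x t) x ^ 2) / l) * N =
        B * N + N / l * ∫ x in (0 : ℝ)..L, px L Z x t ^ 2 := by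
      simp only [px_eq_dI]
      ring
    rw [← hB, ← hN, e] at q5
    rw [abs_le] at q2 q3 q4
    linarith [q2.1, q2.2, q3.1, q3.2, q4.1, q4.2]
  have hint := intervalIntegral.integral_mono_on (μ := volume) ht₀.le intervalIntegrable_const
    (((cx'.continuousOn_integral hL.le).intervalIntegrable_of_Icc ht₀.le).const_mul (N / l)) hpt
  rw [intervalIntegral.integral_const, intervalIntegral.integral_const_mul, smul_eq_mul, sub_zero,
    cx'.integral_swap hL.le ht₀.le] at hint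
  have hk : ∫ x in (0 : ℝ)..L, ∫ t in (0 : ℝ)..t₀, px L Z x t ^ 2 ≤ L * a ^ 2 := by
    have := intervalIntegral.norm_integral_le_of_norm_le_const (a := 0) (b := L) (C := a ^ 2)
      (f := fun x => ∫ t in (0 : ℝ)..t₀, px L Z x t ^ 2) fun x hx => by
      rw [uIoc_of_le hL.le] at hx
      have hx' := Ioc_subset_Icc_self hx
      rw [Real.norm_eq_abs,
        abs_of_nonneg (intervalIntegral.integral_nonneg ht₀.le fun _ _ => sq_nonneg _)]
      exact (intervalIntegral.integral_mono_interval le_rfl ht₀.le ht₁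
        (Eventually.of_forall fun _ => sq_nonneg _)
        ((cx.slice_t hx').intervalIntegrable_of_Icc hT.le)).trans (hZ.k1 x hx')
    rw [sub_zero, abs_of_pos hL, Real.norm_eq_abs, mul_comm] at this
    exact (le_abs_self _).trans this
  have h1 : E - (19 * M * L * a ^ 3 + ρ / 3 + B * N) ≤ L * a ^ 2 / (l * t₀) * N := by
    have h2 := hint.trans (mul_le_mul_of_nonneg_left hk (by positivity))
    rw [← le_div_iff₀' ht₀] at h2
    refine h2.trans (le_of_eq ?_)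
    field_simp
  linarith

end Pool.Agent.Lib.MP_14aec4_an.W
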