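import Pool.Agent.Lib.MP_14aec4_an.Defs2

/-!
Stability of the zero solution under zero boundary data.
-/

noncomputable section

open Set

namespace Pool.Agent.Lib.MP_14aec4_an

/-- Continuity at the origin of the map from initial data to smooth solutions with zero boundary
data: for some `T' ∈ (0,T]`, the smooth solutions on `[0,T']` with `B_{k+1} u = 0` whose initial
datum is small in `H^s` (window `W`) are small in `C([0,T']; H^s(0,L))`. -/
def StableAtZero (W : Set ℝ) (s L T : ℝ) (a b : ℕ → ℕ → ℝ) (k : Fin 4) : Prop :=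
  ∃ T' ∈ Ioc 0 T, ∀ ε > 0, ∃ δ > 0, ∀ u, IsSmoothSol L T' u →
    (∀ i, ∀ t ∈ Ioo 0 T', bdry L a b k u i t = 0) →
    hNorm s W (ofFun L fun x => u x 0) < δ →
    solNorm s L T' (fun t => ofFun L fun x => u x t) < ε

end Pool.Agent.Lib.MP_14aec4_an
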